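import Mathlib
import Pool.Agent.Work.MP_b0497c_an.Dec.CubeInt

set_option autoImplicit false

/-!
# Smooth periodic fields belong to every Sobolev space `H^m` (definition by Fourier coefficients)
-/

open scoped ENNReal ContDiff
open Set MeasureTheory RealInnerProductSpace

namespace Pool.Agent.Work.MP_b0497c_an.Unf.Hm

open Pool.Agent.Work.MP_b0497c_an.Dec

/-- `j`-th component of the Fourier coefficient `k` of `v`. -/
noncomputable def coeff (v : E3 → E3) (k : Fin 3 → ℤ) (j : Fin 3) : ℂ :=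
  (((2 * Real.pi) ^ 3 : ℝ) : ℂ)⁻¹ * ∫ x in {x : E3 | ∀ i, x i ∈ Icc 0 (2 * Real.pi)},
    Complex.exp (-(Complex.I * ((∑ i, (k i : ℝ) * x i : ℝ) : ℂ))) * (v x j : ℂ)

/-- The square of the `H^m` norm. -/
noncomputable def hnorm (m : ℕ) (v : E3 → E3) : ℝ≥0∞ :=
  ∑' k : Fin 3 → ℤ, ENNReal.ofReal ((1 + ∑ i, (k i : ℝ) ^ 2) ^ m) * ∑ j, ‖coeff v k j‖ₑ ^ 2

/-- Unnormalised Fourier coefficient of a scalar function. -/
noncomputable def fc (f : E3 → ℂ) (k : Fin 3 → ℤ) : ℂ :=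
  ∫ x in cube, Complex.exp (-(Complex.I * ((phase k x : ℝ) : ℂ))) * f x

/-- derivative in the direction `j` -/
noncomputable def dd (j : Fin 3) (f : E3 → ℂ) (x : E3) : ℂ := fderiv ℝ f x (e j)

theorem integral_dd {g : E3 → ℂ} (hg : ContDiff ℝ 1 g) (hp : Periodic3 g) (j : Fin 3) :
    ∫ x in cube, dd j g x = 0 := by
  have hcont : Continuous (dd j g) :=
    (hg.continuous_fderiv (by norm_num)).clm_apply continuous_const
  have hint : IntegrableOn (dd j g) cube := hcont.continuousOn.integrableOn_compact cube_compact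
  have key : ∀ L : ℂ →L[ℝ] ℝ, L (∫ x in cube, dd j g x) = 0 := by
    intro L
    rw [← L.integral_comp_comm hint]
    have h1 := per_div_cube (G := fun x => (L (g x)) • e j)
      ((L.contDiff.comp hg).smul contDiff_const)
      (fun i x => by
        have h3 := hp i x
        show L (g (x + (2 * Real.pi) • e i)) • e j = L (g x) • e j
        rw [h3])
    rw [← h1]
    congr 1
    funext x
    have h2 : HasFDerivAt (fun x => (L (g x)) • e j)
        ((L.comp (fderiv ℝ g x)).smulRight (e j)) x :=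
      (L.hasFDerivAt.comp x (hg.differentiable (by norm_num) x).hasFDerivAt).smul_const _
    rw [h2.fderiv, trace_eq]
    simp only [ContinuousLinearMap.smulRight_apply, ContinuousLinearMap.comp_apply, dd]
    fin_cases j <;> simp [e]
  apply Complex.ext
  · exact key Complex.reCLM
  · exact key Complex.imCLM

theorem fc_bound {f : E3 → ℂ} (hf : Continuous f) : ∃ A : ℝ, 0 ≤ A ∧ ∀ k, ‖fc f k‖ ≤ A := by
  refine ⟨∫ x in cube, ‖f x‖, integral_nonneg fun _ => norm_nonneg _, fun k => ?_⟩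
  refine (norm_integral_le_integral_norm _).trans (le_of_eq ?_)
  congr 1
  funext x
  rw [norm_mul]
  have : ‖Complex.exp (-(Complex.I * ((phase k x : ℝ) : ℂ)))‖ = 1 := by
    rw [Complex.norm_exp]
    simp
  rw [this, one_mul]

theorem exp_shift (k : Fin 3 → ℤ) (i : Fin 3) (x : E3) :
    Complex.exp (-(Complex.I * ((phase k (x + (2 * Real.pi) • e i) : ℝ) : ℂ)))
      = Complex.exp (-(Complex.I * ((phase k x : ℝ) : ℂ))) := by
  rw [phase_shift]
  push_cast
  have : -(Complex.I * ((phase k x : ℂ) + (k i : ℂ) * (2 * (Real.pi : ℂ))))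
      = -(Complex.I * (phase k x : ℂ)) + ((-(k i) : ℤ) : ℂ) * (2 * Real.pi * Complex.I) := by
    push_cast; ring
  rw [this, Complex.exp_add, Complex.exp_int_mul_two_pi_mul_I, mul_one]

theorem exp_contDiff (k : Fin 3 → ℤ) :
    ContDiff ℝ ∞ fun x : E3 => Complex.exp (-(Complex.I * ((phase k x : ℝ) : ℂ))) := by
  have h1 : ContDiff ℝ ∞ fun x : E3 => ((phase k x : ℝ) : ℂ) :=
    Complex.ofRealCLM.contDiff.comp (contDiff_phase k)
  exact (contDiff_const.mul h1).neg.cexp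

theorem fc_dd {f : E3 → ℂ} (hf : ContDiff ℝ 1 f) (hp : Periodic3 f) (j : Fin 3)
    (k : Fin 3 → ℤ) : fc (dd j f) k = Complex.I * (k j : ℂ) * fc f k := by
  set ex : E3 → ℂ := fun x => Complex.exp (-(Complex.I * ((phase k x : ℝ) : ℂ))) with hex
  have hexc : ContDiff ℝ 1 ex := (exp_contDiff k).of_le (by exact_mod_cast le_top)
  have h0 := integral_dd (g := fun x => ex x * f x) (hexc.mul hf)
    (fun i x => by
      have h1 := hp i x
      have h2 := exp_shift k i x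
      show ex (x + (2 * Real.pi) • e i) * f (x + (2 * Real.pi) • e i) = ex x * f x
      rw [h1]
      simp only [hex]
      rw [h2]) j
  have hd : ∀ x, dd j (fun x => ex x * f x) x
      = -(Complex.I * (k j : ℂ)) * (ex x * f x) + ex x * dd j f x := by
    intro x
    have h1 : HasFDerivAt (fun x : E3 => ((phase k x : ℝ) : ℂ))
        (Complex.ofRealCLM.comp (innerSL ℝ (vec k))) x :=
      Complex.ofRealCLM.hasFDerivAt.comp x (hasFDerivAt_phase k x)
    have h2 : HasFDerivAt ex (ex x • (-(Complex.I • (Complex.ofRealCLM.comp (innerSL ℝ (vec k)))))) x :=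
      ((h1.const_mul Complex.I).neg).cexp
    have h3 := h2.mul (hf.differentiable (by norm_num) x).hasFDerivAt
    show fderiv ℝ (ex * f) x (e j) = _
    rw [h3.fderiv]
    simp only [add_apply, smul_apply, neg_apply, ContinuousLinearMap.comp_apply,
      Complex.ofRealCLM_apply, smul_eq_mul, innerSL_apply_apply, vec_inner_e, dd]
    push_cast
    ring
  simp only [hd] at h0
  have i1 : IntegrableOn (fun x => -(Complex.I * (k j : ℂ)) * (ex x * f x)) cube := by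
    refine Continuous.continuousOn ?_ |>.integrableOn_compact cube_compact
    exact continuous_const.mul (hexc.continuous.mul hf.continuous)
  have i2 : IntegrableOn (fun x => ex x * dd j f x) cube := by
    refine Continuous.continuousOn ?_ |>.integrableOn_compact cube_compact
    exact hexc.continuous.mul ((hf.continuous_fderiv (by norm_num)).clm_apply continuous_const)
  rw [integral_add i1 i2, integral_const_mul] at h0
  have e1 : fc (dd j f) k = ∫ x in cube, ex x * dd j f x := rfl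
  have e2 : fc f k = ∫ x in cube, ex x * f x := rfl
  rw [e1, e2]
  linear_combination h0

theorem dd_smooth {f : E3 → ℂ} (hf : ContDiff ℝ ∞ f) (j : Fin 3) : ContDiff ℝ ∞ (dd j f) := by
  have h1 : ContDiff ℝ ∞ (fderiv ℝ f) := hf.fderiv_right (m := ∞) (by norm_num)
  exact h1.clm_apply contDiff_const

theorem dd_per {f : E3 → ℂ} (hp : Periodic3 f) (j : Fin 3) : Periodic3 (dd j f) := by
  intro i x
  have h1 : (fun y => f (y + (2 * Real.pi) • e i)) = f := funext fun y => hp i y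
  have h2 : fderiv ℝ (fun y => f (y + (2 * Real.pi) • e i)) x
      = fderiv ℝ f (x + (2 * Real.pi) • e i) := fderiv_comp_add_right _
  rw [dd, dd, ← h2, h1]

theorem fc_decay (N : ℕ) : ∀ {f : E3 → ℂ}, ContDiff ℝ ∞ f → Periodic3 f → ∀ j : Fin 3,
    ∃ A : ℝ, 0 ≤ A ∧ ∀ k, |(k j : ℝ)| ^ N * ‖fc f k‖ ≤ A := by
  induction N with
  | zero =>
    intro f hf hp j
    obtain ⟨A, hA, h⟩ := fc_bound hf.continuous
    exact ⟨A, hA, fun k => by simpa using h k⟩
  | succ N ih =>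
    intro f hf hp j
    obtain ⟨A, hA, h⟩ := ih (dd_smooth hf j) (dd_per hp j) j
    refine ⟨A, hA, fun k => ?_⟩
    have h1 := h k
    rw [fc_dd (hf.of_le (by exact_mod_cast le_top)) hp, norm_mul, norm_mul, Complex.norm_I,
      one_mul, Complex.norm_intCast] at h1
    calc |(k j : ℝ)| ^ (N + 1) * ‖fc f k‖ = |(k j : ℝ)| ^ N * (|(k j : ℝ)| * ‖fc f k‖) := by ring
      _ ≤ A := h1

theorem pow_sum_le (a b c : ℝ) (ha : 0 ≤ a) (hb : 0 ≤ b) (hc : 0 ≤ c) (M : ℕ) :
    (1 + (a + b + c)) ^ M ≤ 4 ^ M * (1 + (a ^ M + b ^ M + c ^ M)) := by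
  set m : ℝ := max (max 1 a) (max b c) with hm
  have h1 : 1 + (a + b + c) ≤ 4 * m := by
    have e1 : (1:ℝ) ≤ m := (le_max_left _ _).trans (le_max_left _ _)
    have e2 : a ≤ m := (le_max_right _ _).trans (le_max_left _ _)
    have e3 : b ≤ m := (le_max_left _ _).trans (le_max_right _ _)
    have e4 : c ≤ m := (le_max_right _ _).trans (le_max_right _ _)
    linarith
  have h2 : m ^ M ≤ 1 + (a ^ M + b ^ M + c ^ M) := by
    have p1 := pow_nonneg ha M
    have p2 := pow_nonneg hb M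
    have p3 := pow_nonneg hc M
    rcases max_choice (max 1 a) (max b c) with h | h <;> rw [hm, h]
    · rcases max_choice 1 a with h' | h' <;> rw [h']
      · rw [one_pow]; linarith
      · linarith
    · rcases max_choice b c with h' | h' <;> rw [h'] <;> linarith
  calc (1 + (a + b + c)) ^ M ≤ (4 * m) ^ M := pow_le_pow_left₀ (by positivity) h1 M
    _ = 4 ^ M * m ^ M := mul_pow _ _ _
    _ ≤ _ := by gcongr

/-- Rapid decay. -/
theorem fc_rapid {f : E3 → ℂ} (hf : ContDiff ℝ ∞ f) (hp : Periodic3 f) (M : ℕ) :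
    ∃ B : ℝ, 0 ≤ B ∧ ∀ k : Fin 3 → ℤ, (1 + ∑ i, (k i : ℝ) ^ 2) ^ M * ‖fc f k‖ ≤ B := by
  obtain ⟨A, hA, h⟩ := fc_bound hf.continuous
  obtain ⟨A0, hA0, h0⟩ := fc_decay (2 * M) hf hp 0
  obtain ⟨A1, hA1, h1⟩ := fc_decay (2 * M) hf hp 1
  obtain ⟨A2, hA2, h2⟩ := fc_decay (2 * M) hf hp 2
  refine ⟨4 ^ M * (A + (A0 + A1 + A2)), by positivity, fun k => ?_⟩
  have h3 := pow_sum_le ((k 0 : ℝ) ^ 2) ((k 1 : ℝ) ^ 2) ((k 2 : ℝ) ^ 2) (by positivity)
    (by positivity) (by positivity) M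
  have e1 : ∑ i, (k i : ℝ) ^ 2 = (k 0 : ℝ) ^ 2 + (k 1 : ℝ) ^ 2 + (k 2 : ℝ) ^ 2 :=
    Fin.sum_univ_three _
  have e2 : ∀ j : Fin 3, ((k j : ℝ) ^ 2) ^ M = |(k j : ℝ)| ^ (2 * M) := fun j => by
    rw [pow_mul, sq_abs]
  rw [e1]
  refine (mul_le_mul_of_nonneg_right h3 (norm_nonneg _)).trans ?_
  rw [e2, e2, e2, mul_assoc]
  refine mul_le_mul_of_nonneg_left ?_ (by positivity)
  have := h k
  have := h0 k
  have := h1 k
  have := h2 k
  linarith

/-- `∑_k ∏_j g (k_j) = (∑ g)^3`-type bound. -/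
theorem tsum_prod_fin (g : ℤ → ℝ≥0∞) (d : ℕ) :
    ∑' k : Fin d → ℤ, ∏ j, g (k j) = (∑' n, g n) ^ d := by
  induction d with
  | zero => simp
  | succ d ih =>
    rw [← (Fin.consEquiv (fun _ : Fin (d + 1) => ℤ)).tsum_eq]
    simp only [Fin.consEquiv_apply, Fin.prod_univ_succ, Fin.cons_zero, Fin.cons_succ]
    rw [ENNReal.tsum_prod (f := fun a (b : Fin d → ℤ) => g a * ∏ j, g (b j))]
    simp only [ENNReal.tsum_mul_left, ih, ENNReal.tsum_mul_right]
    rw [pow_succ, mul_comm]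

theorem tsum_weight_ne_top :
    ∑' k : Fin 3 → ℤ, ENNReal.ofReal (((1 + ∑ i, (k i : ℝ) ^ 2) ^ 3)⁻¹) ≠ ⊤ := by
  have h1 : ∑' n : ℤ, ENNReal.ofReal ((1 + (n : ℝ) ^ 2)⁻¹) ≠ ⊤ := by
    have hs : Summable fun n : ℤ => (1 + (n : ℝ) ^ 2)⁻¹ := by
      have h2 : Summable fun n : ℤ => 1 / (n : ℝ) ^ 2 :=
        Real.summable_one_div_int_pow.mpr (by norm_num)
      have h3 : Summable fun n : ℤ => if n = 0 then (1 : ℝ) else 0 :=
        summable_of_ne_finset_zero (s := {0}) (fun b hb => by simp at hb; simp [hb])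
      refine Summable.of_nonneg_of_le (fun n => by positivity) (fun n => ?_) (h2.add h3)
      by_cases hn : n = 0
      · subst hn; simp
      · rw [if_neg hn, add_zero, one_div]
        have : 0 < (n : ℝ) ^ 2 := by positivity
        exact inv_anti₀ this (by linarith)
    exact hs.tsum_ofReal_ne_top
  refine ne_top_of_le_ne_top (ENNReal.pow_ne_top h1 (n := 3)) ?_
  rw [← tsum_prod_fin]
  refine ENNReal.tsum_le_tsum fun k => ?_
  rw [Fin.prod_univ_three, ← ENNReal.ofReal_mul (by positivity),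
    ← ENNReal.ofReal_mul (by positivity)]
  refine ENNReal.ofReal_le_ofReal ?_
  rw [← mul_inv, ← mul_inv]
  refine inv_anti₀ (by positivity) ?_
  have e1 : ∑ i, (k i : ℝ) ^ 2 = (k 0 : ℝ) ^ 2 + (k 1 : ℝ) ^ 2 + (k 2 : ℝ) ^ 2 :=
    Fin.sum_univ_three _
  rw [e1]
  have p0 := sq_nonneg (k 0 : ℝ)
  have p1 := sq_nonneg (k 1 : ℝ)
  have p2 := sq_nonneg (k 2 : ℝ)
  calc (1 + (k 0 : ℝ) ^ 2) * (1 + (k 1 : ℝ) ^ 2) * (1 + (k 2 : ℝ) ^ 2)
      ≤ (1 + ((k 0 : ℝ) ^ 2 + (k 1 : ℝ) ^ 2 + (k 2 : ℝ) ^ 2)) *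
        (1 + ((k 0 : ℝ) ^ 2 + (k 1 : ℝ) ^ 2 + (k 2 : ℝ) ^ 2)) *
        (1 + ((k 0 : ℝ) ^ 2 + (k 1 : ℝ) ^ 2 + (k 2 : ℝ) ^ 2)) := by
        gcongr <;> linarith
    _ = _ := by ring

/-- **Smooth periodic fields have finite `H^m` norm.** -/
theorem hnorm_ne_top {v : E3 → E3} (hv : ContDiff ℝ ∞ v) (hp : Periodic3 v) (m : ℕ) :
    hnorm m v ≠ ⊤ := by
  have hcomp : ∀ j : Fin 3, ContDiff ℝ ∞ (fun x => ((v x j : ℝ) : ℂ)) := fun j =>
    (Complex.ofRealCLM.comp (EuclideanSpace.proj j : E3 →L[ℝ] ℝ)).contDiff.comp hv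
  have hper : ∀ j : Fin 3, Periodic3 (fun x => ((v x j : ℝ) : ℂ)) := fun j i x => by
    have h3 := hp i x
    show ((v (x + (2 * Real.pi) • e i) j : ℝ) : ℂ) = ((v x j : ℝ) : ℂ)
    rw [h3]
  have hB : ∀ j : Fin 3, ∃ B : ℝ, 0 ≤ B ∧ ∀ k : Fin 3 → ℤ,
      (1 + ∑ i, (k i : ℝ) ^ 2) ^ (m + 3) * ‖fc (fun x => ((v x j : ℝ) : ℂ)) k‖ ≤ B := fun j =>
    fc_rapid (hcomp j) (hper j) (m + 3)
  choose B hB0 hB using hB
  have hco : ∀ k j, coeff v k j = (((2 * Real.pi) ^ 3 : ℝ) : ℂ)⁻¹ *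
      fc (fun x => ((v x j : ℝ) : ℂ)) k := by
    intro k j
    unfold coeff fc
    congr 1
    have e1 : {x : E3 | ∀ i, x i ∈ Icc 0 (2 * Real.pi)} = cube := rfl
    rw [e1]
    congr 1
    funext x
    have e2 : ∑ i, (k i : ℝ) * x i = phase k x := by
      rw [Fin.sum_univ_three]; rfl
    rw [e2]
  set c : ℝ := ((2 * Real.pi) ^ 3)⁻¹ with hc
  have hc0 : 0 ≤ c := by positivity
  have hnc : ∀ k j, ‖coeff v k j‖ = c * ‖fc (fun x => ((v x j : ℝ) : ℂ)) k‖ := by
    intro k j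
    rw [hco, norm_mul, norm_inv, Complex.norm_real, Real.norm_of_nonneg (by positivity)]
  have key : ∀ k : Fin 3 → ℤ, ENNReal.ofReal ((1 + ∑ i, (k i : ℝ) ^ 2) ^ m) *
      ∑ j, ‖coeff v k j‖ₑ ^ 2 ≤ ENNReal.ofReal (∑ j, (c * B j) ^ 2) *
        ENNReal.ofReal (((1 + ∑ i, (k i : ℝ) ^ 2) ^ 3)⁻¹) := by
    intro k
    set w : ℝ := 1 + ∑ i, (k i : ℝ) ^ 2 with hw
    have hw1 : 1 ≤ w := by
      have : 0 ≤ ∑ i, (k i : ℝ) ^ 2 := Finset.sum_nonneg fun i _ => sq_nonneg _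
      linarith
    have hw0 : 0 < w := by linarith
    have e1 : ∀ j, ‖coeff v k j‖ₑ ^ 2 = ENNReal.ofReal (‖coeff v k j‖ ^ 2) := fun j => by
      rw [ENNReal.ofReal_pow (norm_nonneg _), ofReal_norm]
    simp only [e1]
    rw [← ENNReal.ofReal_sum_of_nonneg (fun j _ => by positivity),
      ← ENNReal.ofReal_mul (by positivity), ← ENNReal.ofReal_mul (by positivity)]
    refine ENNReal.ofReal_le_ofReal ?_
    rw [Finset.mul_sum, Finset.sum_mul]
    refine Finset.sum_le_sum fun j _ => ?_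
    rw [hnc]
    have h1 := hB j k
    have h2 : ‖fc (fun x => ((v x j : ℝ) : ℂ)) k‖ ≤ B j * (w ^ (m + 3))⁻¹ := by
      rw [← div_eq_mul_inv, le_div_iff₀ (by positivity)]
      linarith
    calc w ^ m * (c * ‖fc (fun x => ((v x j : ℝ) : ℂ)) k‖) ^ 2
        ≤ w ^ m * (c * (B j * (w ^ (m + 3))⁻¹)) ^ 2 := by gcongr
      _ = (c * B j) ^ 2 * ((w ^ (m + 6))⁻¹) := by
          clear_value c
          have h5 : w ^ m * ((w ^ (m + 3))⁻¹) ^ 2 = (w ^ (m + 6))⁻¹ := by
            field_simp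
            ring
          calc w ^ m * (c * (B j * (w ^ (m + 3))⁻¹)) ^ 2
              = (c * B j) ^ 2 * (w ^ m * ((w ^ (m + 3))⁻¹) ^ 2) := by ring
            _ = _ := by rw [h5]
      _ ≤ (c * B j) ^ 2 * (w ^ 3)⁻¹ := by
          refine mul_le_mul_of_nonneg_left ?_ (by positivity)
          exact inv_anti₀ (by positivity) (pow_le_pow_right₀ hw1 (by omega))
  unfold hnorm
  refine ne_top_of_le_ne_top ?_ (ENNReal.tsum_le_tsum key)
  rw [ENNReal.tsum_mul_left]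
  exact ENNReal.mul_ne_top ENNReal.ofReal_ne_top tsum_weight_ne_top

end Pool.Agent.Work.MP_b0497c_an.Unf.Hm
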