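import Pool.Agent.Work.MP_b0497c_an.Unf.SDefs

set_option autoImplicit false

/-!
# Block S, part 1: modes, classes, the sheet lemma

Convention: prove `theorem sXX : SXX` in the file `Unf/SXX.lean`.
-/

open scoped ENNReal
open Set MeasureTheory

namespace Pool.Agent.Work.MP_b0497c_an.Unf.S

open W

/-- S01: wave vectors. -/
def S01 : Prop := ∀ (K : ℕ → Fin 3 → ℤ),
  (∀ q q' : Md, xi K (q + q') = xi K q + xi K q' ∧ xi K (-q) = - xi K q) ∧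
  (∀ (q : Md) (j : ℕ), ‖(q j : ℂ)‖ ≤ len q) ∧
  (∀ (q : Md) (n : ℕ) (B : ℝ), q ∈ lev n → (∀ i ≤ n, ‖kv (K i)‖ ≤ B) → ‖xi K q‖ ≤ B * len q) ∧
  (∀ (q : Md) (j : ℕ) (B : ℝ), q ∈ lev j → (∀ i < j, ‖kv (K i)‖ ≤ B) → 0 ≤ B →
    ‖xi' K j q‖ ≤ B * len q) ∧
  (∀ (q : Md), cjv (xi K q) = xi K q ∧ ∀ x : C3, inner ℂ (xi K q) x = bdot (xi K q) x) ∧
  (∀ (K' : ℕ → Fin 3 → ℤ) (n : ℕ) (q : Md), q ∈ lev n → (∀ i ≤ n, K' i = K i) →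
    xi K' q = xi K q) ∧
  (∀ (q : Md), xi K q ≠ 0 → 1 ≤ ‖xi K q‖)

/-- S02: the wave lemma (all frequencies, no cut-off). -/
def S02 : Prop := ∀ (K : ℕ → Fin 3 → ℤ) (j : ℕ) (B : ℝ) (q : Md) (x : C3), q ∈ Cl j → 0 ≤ B →
  (∀ i < j, ‖kv (K i)‖ ≤ B) → 0 < ‖kv (K j)‖ → inner ℂ (kv (K j)) x = 0 →
  ‖pr (xi K q) x‖ ≤ 2 * (B / ‖kv (K j)‖) * len q * ‖x‖ ∧
  ‖pr (xi K q) ((q j : ℂ) • x)‖ ≤ 2 * (B / ‖kv (K j)‖) * len q * ‖x‖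

/-- S03: supports and kernels. -/
def S03 : Prop := ∀ (E F G : Type) [NormedAddCommGroup E] [NormedSpace ℂ E] [NormedAddCommGroup F]
  [NormedSpace ℂ F] [NormedAddCommGroup G] [NormedSpace ℂ G],
  (∀ (A : Md → Md → (E →L[ℂ] F)) (l n : ℕ) (f : Md → E), l ≤ n → (∀ p q, p - q ∉ lev l → A p q = 0) →
    SuppIn (lev n : Set Md) f → SuppIn (lev n : Set Md) (act A f)) ∧
  (∀ (A : Md → Md → (E →L[ℂ] F)) (l j : ℕ) (f : Md → E), l < j → (∀ p q, p - q ∉ lev l → A p q = 0) →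
    SuppIn (Cl j) f → SuppIn (Cl j) (act A f)) ∧
  (∀ (A : Md → Md → (E →L[ℂ] F)) (l j : ℕ) (f : Md → E), l < j → (∀ p q, p - q ∉ lev l → A p q = 0) →
    res (Cl j) (act A f) = act A (res (Cl j) f)) ∧
  (∀ (A : Md → Md → (E →L[ℂ] F)) (l j : ℕ) (f : Md → E), l ≤ j → (∀ p q, p - q ∉ lev l → A p q = 0) →
    res (lev j : Set Md) (act A f) = act A (res (lev j : Set Md) f)) ∧
  (∀ (l : ℕ) (a : Md → (E →L[ℂ] F)), SuppIn (lev l : Set Md) a →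
    ∀ p q, p - q ∉ lev l → mulK a p q = 0) ∧
  (∀ (β : E →L[ℂ] F →L[ℂ] G) (n : ℕ) (f : Md → E) (g : Md → F), SuppIn (lev n : Set Md) f →
    SuppIn (lev n : Set Md) g → SuppIn (lev n : Set Md) (conv β f g)) ∧
  (∀ (β : E →L[ℂ] F →L[ℂ] G) (l j : ℕ) (f : Md → E) (g : Md → F), l < j →
    (SuppIn (lev l : Set Md) f → SuppIn (Cl j) g → SuppIn (Cl j) (conv β f g)) ∧
    (SuppIn (Cl j) f → SuppIn (lev l : Set Md) g → SuppIn (Cl j) (conv β f g)))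

/-- S04: decomposition into classes. -/
def S04 : Prop := ∀ (E : Type) [NormedAddCommGroup E] [NormedSpace ℂ E] (m n : ℕ), m ≤ n →
  (∀ q : Md, q ∈ lev n → ∃! o, o ∈ Finset.Icc m n ∧ q ∈ Cs m o) ∧
  (∀ f : Md → E, SuppIn (lev n : Set Md) f → f = ∑ o ∈ Finset.Icc m n, res (Cs m o) f) ∧
  (∀ (T c γ : ℝ) (ρ : ℝ → ℝ) (S : Set Md) (f : ℝ → Md → E),
    Nrm T c γ ρ (fun t => res S (f t)) ≤ Nrm T c γ ρ f ∧
    Src T c γ ρ (fun t => res S (f t)) ≤ Src T c γ ρ f) ∧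
  (∀ (T c γ : ℝ) (ρ : ℝ → ℝ) (f : ℝ → Md → E), SuppT T (lev n : Set Md) f → 0 ≤ T →
    Nrm T c γ ρ f = ∑ o ∈ Finset.Icc m n, Nrm T c γ ρ (fun t => res (Cs m o) (f t)))

/-- The static sheet: `F`, `Fi = F⁻¹` of level `j - 1`, `z` of class `j`, `K_j · z = 0`,
`s = |k|⁻²`. -/
structure Sheet (K : ℕ → Fin 3 → ℤ) (j : ℕ) (F Fi : Md → Mat) (z : Md → C3) (s : Md → ℂ) :
    Prop where
  j_pos : 1 ≤ j
  k_pos : 0 < ‖kv (K j)‖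
  F_supp : SuppIn (lev (j - 1) : Set Md) F
  Fi_supp : SuppIn (lev (j - 1) : Set Md) Fi
  z_supp : SuppIn (Cl j) z
  s_supp : SuppIn (lev (j - 1) : Set Md) s
  z_orth : ∀ q, inner ℂ (kv (K j)) (z q) = 0
  fin : ∃ c : ℝ, 0 < c ∧ sN c F ≠ ∞ ∧ sN c Fi ≠ ∞ ∧ sN c z ≠ ∞ ∧ sN c s ≠ ∞
  left : mm Fi F = oneM
  right : mm F Fi = oneM
  s_eq : mul (mm (scF s) (rwF (kv (K j)) Fi)) (kcF (kv (K j)) Fi) = fun q => if q = 0 then 1 else 0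
  /-- the data for the two projectors -/
  fd : ∃ c b e : ℝ, FData (lev (j - 1)) c b e F Fi
  fdo : ∃ c b e : ℝ, FData (lev j) c b e (mm F (shP z (kv (K j)))) (mm (shM z (kv (K j))) Fi)

/-- `grad' ∂_j⁻¹ ψ`. -/
noncomputable def gdp (K : ℕ → Fin 3 → ℤ) (j : ℕ) (ψ : Md → ℂ) (q : Md) : C3 :=
  (ψ q / (q j : ℂ)) • xi' K j q

/-- S05 (F7a): the exact projector on class `j`.
`(Π - p) f = Π F° P x + (1 - Π) F°⁻ᵀ grad' ∂_j⁻¹ ψ`, `x = F⁻¹ (f - p f)`, `ψ = s (k · f)`. -/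
def S05 : Prop := ∀ (K : ℕ → Fin 3 → ℤ) (j : ℕ) (F Fi : Md → Mat) (z : Md → C3) (s : Md → ℂ)
  (f : Md → C3), Sheet K j F Fi z s → SuppIn (Cl j) f → (∃ c : ℝ, 0 < c ∧ sN c f ≠ ∞) →
  let k := kv (K j)
  let Fo := mm F (shP z k)
  let Fio := mm (shM z k) Fi
  let Pi := PiK (xi K) Fio
  let p := pF k Fi s
  let x := mul Fi (f - mul p f)
  let ψ := mul (mm (scF s) (rwF k Fi)) f
  (act Pi f - mul p f = act Pi (mul Fo (act (PK (xi K)) x)) +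
    act (idK - Pi) (mul (adjC Fio) (gdp K j ψ))) ∧
  SuppIn (Cl j) x ∧ SuppIn (Cl j) ψ ∧ (∀ q, inner ℂ k (x q) = 0)

/-- S06 (F7b): the exact projector on level `j - 1`. -/
def S06 : Prop := ∀ (K : ℕ → Fin 3 → ℤ) (j : ℕ) (F Fi : Md → Mat) (z : Md → C3) (s : Md → ℂ)
  (f : Md → C3), Sheet K j F Fi z s → SuppIn (lev (j - 1) : Set Md) f →
  (∃ c : ℝ, 0 < c ∧ sN c f ≠ ∞) →
  let k := kv (K j)
  let Fo := mm F (shP z k)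
  let Fio := mm (shM z k) Fi
  let Pi := PiK (xi K) Fio
  let Pm := PiK (xi K) Fi
  let ψ := mul (rwF k Fi) (f - act Pm f)
  let y := mul (tsF z) ψ
  let sig := mul (adR z) (mul (adjC F) (act Pm f))
  (act Pi f - act Pm f = - act Pi (mul Fo (act (PK (xi K)) y)) +
    act (idK - Pi) (mul (adjC Fio) (gdp K j sig))) ∧
  SuppIn (Cl j) y ∧ SuppIn (Cl j) sig ∧ (∀ q, inner ℂ k (y q) = 0)

/-- S07 (F7'): `(Π - p) ∂_j h` costs one derivative in total (here `z = 0`, `F° = F`). -/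
def S07 : Prop := ∀ (K : ℕ → Fin 3 → ℤ) (j : ℕ) (F Fi : Md → Mat) (s : Md → ℂ)
  (h : Md → C3), Sheet K j F Fi 0 s → SuppIn (Cl j) h → (∃ c : ℝ, 0 < c ∧ sN c h ≠ ∞) →
  let k := kv (K j)
  let Pi := PiK (xi K) Fi
  let p := pF k Fi s
  let x := mul Fi (h - mul p h)
  let ψ := mul (mm (scF s) (rwF k Fi)) h
  let dh : Md → C3 := fun q => (q j : ℂ) • h q
  (act Pi dh - mul p dh = act Pi (mul F (act (PK (xi K)) (fun q => (q j : ℂ) • x q))) +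
    act (idK - Pi) (mul (adjC Fi) (fun q => ψ q • xi' K j q))) ∧
  SuppIn (Cl j) x ∧ SuppIn (Cl j) ψ ∧ (∀ q, inner ℂ k (x q) = 0)

end Pool.Agent.Work.MP_b0497c_an.Unf.S
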