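import Pool.Agent.Work.MP_b0497c_an.Unf.WStmts

set_option autoImplicit false

/-!
# Auxiliary lemmas for W01 - W04
-/

open scoped ENNReal
open Set MeasureTheory

namespace Pool.Agent.Work.MP_b0497c_an.Unf.W.Conv

variable {Γ : Type} [AddCommGroup Γ] [Len Γ]
  {E F G : Type} [NormedAddCommGroup E] [NormedSpace ℂ E] [NormedAddCommGroup F] [NormedSpace ℂ F]
  [NormedAddCommGroup G] [NormedSpace ℂ G]

omit [Len Γ] in
/-- The sum of a convolution. -/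
theorem tsum_conv (a b : Γ → ℝ≥0∞) :
    ∑' m, ∑' l, a (m - l) * b l = (∑' k, a k) * ∑' l, b l := by
  rw [ENNReal.tsum_comm, ← ENNReal.tsum_mul_left]
  refine tsum_congr fun l => ?_
  rw [ENNReal.tsum_mul_right]
  congr 1
  exact (Equiv.subRight l).tsum_eq a

/-- The exponential weight is submultiplicative. -/
theorem exp_le {x : ℝ} (hx : 0 ≤ x) (m l : Γ) :
    Real.exp (x * len m) ≤ Real.exp (x * len (m - l)) * Real.exp (x * len l) := by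
  rw [← Real.exp_add]
  apply Real.exp_le_exp.2
  have h := len_add (m - l) l
  rw [sub_add_cancel] at h
  nlinarith

theorem exp_mono {x y : ℝ} (h : x ≤ y) (m : Γ) :
    Real.exp (x * len m) ≤ Real.exp (y * len m) := by
  apply Real.exp_le_exp.2
  have := len_nonneg m
  nlinarith

theorem c_sub_nonneg {T c γ t : ℝ} (hP : Par T c γ) (ht : t ∈ Icc 0 T) : 0 ≤ c - γ * t := by
  have h1 := hP.le
  have h2 : γ * t ≤ γ * T := mul_le_mul_of_nonneg_left ht.2 hP.γ_nonneg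
  linarith

theorem c_sub_le {T c γ t : ℝ} (hP : Par T c γ) (ht : t ∈ Icc 0 T) : c - γ * t ≤ c := by
  have h2 : 0 ≤ γ * t := mul_nonneg hP.γ_nonneg ht.1
  linarith

omit [AddCommGroup Γ] [Len Γ] in
/-- Norm of the action. -/
theorem enorm_act (A : Γ → Γ → (E →L[ℂ] F)) (f : Γ → E) (m : Γ) :
    ‖act A f m‖ₑ ≤ ∑' l, ‖A m l‖ₑ * ‖f l‖ₑ := by
  unfold act
  exact enorm_tsum_le_tsum_enorm.trans (ENNReal.tsum_le_tsum fun l => (A m l).le_opENorm _)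

omit [Len Γ] in
/-- Norm of the product. -/
theorem enorm_conv (β : E →L[ℂ] F →L[ℂ] G) (f : Γ → E) (g : Γ → F) (m : Γ) :
    ‖conv β f g m‖ₑ ≤ ∑' l, ‖β‖ₑ * ‖f (m - l)‖ₑ * ‖g l‖ₑ := by
  unfold conv
  exact enorm_tsum_le_tsum_enorm.trans (ENNReal.tsum_le_tsum fun l => β.le_opENorm₂ _ _)

/-- The terms of `KN`. -/
noncomputable def kt (T c : ℝ) (A : ℝ → Γ → Γ → (E →L[ℂ] F)) (k : Γ) : ℝ≥0∞ :=
  ENNReal.ofReal (Real.exp (c * len k)) * ⨆ l, ⨆ t ∈ Icc 0 T, ‖A t (l + k) l‖ₑ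

theorem le_kt {T c : ℝ} (A : ℝ → Γ → Γ → (E →L[ℂ] F)) {t : ℝ} (ht : t ∈ Icc 0 T) (m l : Γ) :
    ENNReal.ofReal (Real.exp (c * len (m - l))) * ‖A t m l‖ₑ ≤ kt T c A (m - l) := by
  unfold kt
  gcongr
  refine le_trans ?_ (le_iSup (fun l' => ⨆ t ∈ Icc 0 T, ‖A t (l' + (m - l)) l'‖ₑ) l)
  rw [add_sub_cancel]
  exact le_iSup₂ (f := fun t (_ : t ∈ Icc 0 T) => ‖A t m l‖ₑ) t ht

/-- The terms of `Nrm`. -/
noncomputable def nt (T c γ : ℝ) (ρ : ℝ → ℝ) (f : ℝ → Γ → E) (m : Γ) : ℝ≥0∞ :=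
  ⨆ t ∈ Icc 0 T, ENNReal.ofReal (Real.exp ((c - γ * t) * len m) / ρ t) * ‖f t m‖ₑ

omit [NormedSpace ℂ E] in
theorem le_nt {T c γ : ℝ} {ρ : ℝ → ℝ} (f : ℝ → Γ → E) {t : ℝ} (ht : t ∈ Icc 0 T) (m : Γ) :
    ENNReal.ofReal (Real.exp ((c - γ * t) * len m) / ρ t) * ‖f t m‖ₑ ≤ nt T c γ ρ f m :=
  le_iSup₂ (f := fun t (_ : t ∈ Icc 0 T) =>
    ENNReal.ofReal (Real.exp ((c - γ * t) * len m) / ρ t) * ‖f t m‖ₑ) t ht

/-- The terms of `Src`. -/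
noncomputable def st (T c γ : ℝ) (ρ : ℝ → ℝ) (g : ℝ → Γ → E) (m : Γ) : ℝ≥0∞ :=
  ⨆ t ∈ Icc 0 T, ∫⁻ s in Ioc 0 t,
    ENNReal.ofReal (Real.exp ((c - γ * t) * len m) / ρ s) * ‖g s m‖ₑ

omit [NormedSpace ℂ E] in
theorem le_st {T c γ : ℝ} {ρ : ℝ → ℝ} (g : ℝ → Γ → E) {t : ℝ} (ht : t ∈ Icc 0 T) (m : Γ) :
    ∫⁻ s in Ioc 0 t, ENNReal.ofReal (Real.exp ((c - γ * t) * len m) / ρ s) * ‖g s m‖ₑ ≤
      st T c γ ρ g m :=
  le_iSup₂ (f := fun t (_ : t ∈ Icc 0 T) => ∫⁻ s in Ioc 0 t,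
    ENNReal.ofReal (Real.exp ((c - γ * t) * len m) / ρ s) * ‖g s m‖ₑ) t ht

theorem mem_Icc {T t s : ℝ} (ht : t ∈ Icc 0 T) (hs : s ∈ Ioc 0 t) : s ∈ Icc 0 T :=
  ⟨hs.1.le, hs.2.trans ht.2⟩

omit [AddCommGroup Γ] [Len Γ] [NormedSpace ℂ E] in
/-- Measurability of the integrand of `Src`. -/
theorem aem {T : ℝ} {ρ : ℝ → ℝ} (hρ : Wt T ρ) {g : ℝ → Γ → E} (hg : CM T g) {t : ℝ}
    (ht : t ∈ Icc 0 T) (x : ℝ) (l : Γ) :
    AEMeasurable (fun s => ENNReal.ofReal (x / ρ s) * ‖g s l‖ₑ) (volume.restrict (Ioc 0 t)) := by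
  have hsub : Ioc 0 t ⊆ Icc 0 T := fun s hs => mem_Icc ht hs
  have h1 : ContinuousOn (fun s => x / ρ s) (Ioc 0 t) :=
    continuousOn_const.div (hρ.cont.mono hsub) fun s hs => (hρ.pos s (hsub hs)).ne'
  have h2 : ContinuousOn (fun s => ENNReal.ofReal (x / ρ s)) (Ioc 0 t) :=
    ENNReal.continuous_ofReal.comp_continuousOn h1
  have h3 : ContinuousOn (fun s => ‖g s l‖ₑ) (Ioc 0 t) := ((hg l).mono hsub).enorm
  exact (h2.aemeasurable measurableSet_Ioc).mul (h3.aemeasurable measurableSet_Ioc)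

end Pool.Agent.Work.MP_b0497c_an.Unf.W.Conv
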