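import Pool.Agent.Work.MP_b0497c_an.Unf.WDefs

set_option autoImplicit false

/-!
# Statements of the items W01 .. (weighted l1 spaces)

Convention: prove `theorem wXX : WXX` in the file `Unf/WXX.lean`.
-/

open scoped ENNReal
open Set MeasureTheory

namespace Pool.Agent.Work.MP_b0497c_an.Unf.W

/-- W01: operators act on the solution norm. -/
def W01 : Prop := ∀ (Γ E F : Type) [AddCommGroup Γ] [Len Γ] [NormedAddCommGroup E]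
  [NormedSpace ℂ E] [NormedAddCommGroup F] [NormedSpace ℂ F] (T c γ : ℝ) (ρ : ℝ → ℝ)
  (A : ℝ → Γ → Γ → (E →L[ℂ] F)) (f : ℝ → Γ → E), Par T c γ → Wt T ρ →
  Nrm T c γ ρ (fun t => act (A t) (f t)) ≤ KN T c A * Nrm T c γ ρ f

/-- W02: products in the solution norm. -/
def W02 : Prop := ∀ (Γ E F G : Type) [AddCommGroup Γ] [Len Γ] [NormedAddCommGroup E]
  [NormedSpace ℂ E] [NormedAddCommGroup F] [NormedSpace ℂ F] [NormedAddCommGroup G]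
  [NormedSpace ℂ G] (T c γ : ℝ) (ρ ρ' : ℝ → ℝ) (β : E →L[ℂ] F →L[ℂ] G)
  (f : ℝ → Γ → E) (g : ℝ → Γ → F), Par T c γ → Wt T ρ → Wt T ρ' →
  Nrm T c γ (fun t => ρ t * ρ' t) (fun t => conv β (f t) (g t)) ≤
    ‖β‖ₑ * Nrm T c γ ρ f * Nrm T c γ ρ' g

/-- W03: operators act on the source norm. -/
def W03 : Prop := ∀ (Γ E F : Type) [AddCommGroup Γ] [Countable Γ] [Len Γ] [NormedAddCommGroup E]
  [NormedSpace ℂ E] [NormedAddCommGroup F] [NormedSpace ℂ F] (T c γ : ℝ) (ρ : ℝ → ℝ)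
  (A : ℝ → Γ → Γ → (E →L[ℂ] F)) (g : ℝ → Γ → E), Par T c γ → Wt T ρ → CM T g →
  Src T c γ ρ (fun t => act (A t) (g t)) ≤ KN T c A * Src T c γ ρ g

/-- W04: product of a solution and a source (both orders of the factors). -/
def W04 : Prop := ∀ (Γ E F G : Type) [AddCommGroup Γ] [Countable Γ] [Len Γ] [NormedAddCommGroup E]
  [NormedSpace ℂ E] [NormedAddCommGroup F] [NormedSpace ℂ F] [NormedAddCommGroup G]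
  [NormedSpace ℂ G] (T c γ : ℝ) (ρ ρ' : ℝ → ℝ) (β : E →L[ℂ] F →L[ℂ] G)
  (f : ℝ → Γ → E) (g : ℝ → Γ → F), Par T c γ → Wt T ρ → Wt T ρ' →
  (CM T g → Src T c γ (fun t => ρ t * ρ' t) (fun t => conv β (f t) (g t)) ≤
    ‖β‖ₑ * Nrm T c γ ρ f * Src T c γ ρ' g) ∧
  (CM T f → Src T c γ (fun t => ρ t * ρ' t) (fun t => conv β (f t) (g t)) ≤
    ‖β‖ₑ * Src T c γ ρ f * Nrm T c γ ρ' g)

/-- W05: solutions are sources; comparison of weights; triangle inequalities. -/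
def W05 : Prop := ∀ (Γ E : Type) [AddCommGroup Γ] [Len Γ] [NormedAddCommGroup E]
  [NormedSpace ℂ E] (T c γ : ℝ) (ρ ρ' : ℝ → ℝ) (f g : ℝ → Γ → E), Par T c γ → Wt T ρ →
  Wt T ρ' →
  Src T c γ ρ f ≤ ENNReal.ofReal T * Nrm T c γ ρ f ∧
  (∀ a : ℝ, 0 ≤ a → (∀ t ∈ Icc 0 T, ρ t ≤ a * ρ' t) →
    Nrm T c γ ρ' f ≤ ENNReal.ofReal a * Nrm T c γ ρ f ∧
    Src T c γ ρ' f ≤ ENNReal.ofReal a * Src T c γ ρ f) ∧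
  Nrm T c γ ρ (f + g) ≤ Nrm T c γ ρ f + Nrm T c γ ρ g ∧
  (CM T f → Src T c γ ρ (f + g) ≤ Src T c γ ρ f + Src T c γ ρ g) ∧
  (∀ z : ℂ, Nrm T c γ ρ (z • f) = ‖z‖ₑ * Nrm T c γ ρ f ∧
    Src T c γ ρ (z • f) = ‖z‖ₑ * Src T c γ ρ f)

/-- W06: one derivative is gained by the shrinking radius. -/
def W06 : Prop := ∀ (Γ E F : Type) [AddCommGroup Γ] [Len Γ] [NormedAddCommGroup E]
  [NormedSpace ℂ E] [NormedAddCommGroup F] [NormedSpace ℂ F] (T c γ : ℝ) (ρ : ℝ → ℝ)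
  (f : ℝ → Γ → E) (h : ℝ → Γ → F), Par T c γ → 0 < γ → Wt T ρ →
  (∀ t ∈ Icc 0 T, ∀ m, ‖h t m‖ ≤ len m * ‖f t m‖) →
  Src T c γ ρ h ≤ ENNReal.ofReal (1 / γ) * Nrm T c γ ρ f

/-- W07: Duhamel. -/
def W07 : Prop := ∀ (Γ E F : Type) [AddCommGroup Γ] [Countable Γ] [Len Γ] [NormedAddCommGroup E]
  [NormedSpace ℂ E] [NormedAddCommGroup F] [NormedSpace ℂ F] [CompleteSpace F]
  (T c γ : ℝ) (ρ ρ' : ℝ → ℝ)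
  (S : ℝ → ℝ → Γ → Γ → (E →L[ℂ] F)) (g : ℝ → Γ → E), Par T c γ → Wt T ρ → Wt T ρ' → CM T g →
  Nrm T c γ ρ (fun t m => ∫ s in (0 : ℝ)..t, act (S t s) (g s) m) ≤
    PN T c ρ ρ' S * Src T c γ ρ' g

/-- W08: plain time integration. -/
def W08 : Prop := ∀ (Γ E : Type) [AddCommGroup Γ] [Len Γ] [NormedAddCommGroup E]
  [NormedSpace ℂ E] [CompleteSpace E] (T c γ : ℝ) (ρ : ℝ → ℝ) (g : ℝ → Γ → E), Par T c γ →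
  Wt T ρ → CM T g →
  Nrm T c γ ρ (fun t m => ∫ s in (0 : ℝ)..t, g s m) ≤ Src T c γ ρ g

/-- W09: the algebra of kernels. -/
def W09 : Prop := ∀ (Γ E F G : Type) [AddCommGroup Γ] [Len Γ] [NormedAddCommGroup E]
  [NormedSpace ℂ E] [NormedAddCommGroup F] [NormedSpace ℂ F] [NormedAddCommGroup G]
  [NormedSpace ℂ G] (T c : ℝ), 0 ≤ c →
  (∀ (A : ℝ → Γ → Γ → (F →L[ℂ] G)) (B : ℝ → Γ → Γ → (E →L[ℂ] F)),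
    KN T c (fun t => kcomp (A t) (B t)) ≤ KN T c A * KN T c B) ∧
  (∀ A B : ℝ → Γ → Γ → (E →L[ℂ] F), KN T c (A + B) ≤ KN T c A + KN T c B) ∧
  (∀ (z : ℂ) (A : ℝ → Γ → Γ → (E →L[ℂ] F)), KN T c (z • A) = ‖z‖ₑ * KN T c A) ∧
  (∀ a : ℝ → Γ → (E →L[ℂ] F), KN T c (fun t => mulK (a t)) = Nrm T c 0 (fun _ => 1) a) ∧
  (∀ (a : ℝ → Γ → (E →L[ℂ] F)) (b : ℝ≥0∞), (∀ t ∈ Icc 0 T, ∀ m, ‖a t m‖ₑ ≤ b) →
    KN T c (fun t => diagK (a t)) ≤ b) ∧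
  (∀ c' : ℝ, c' ≤ c → ∀ A : ℝ → Γ → Γ → (E →L[ℂ] F), KN T c' A ≤ KN T c A) ∧
  (∀ (A : ℝ → Γ → Γ → (E →L[ℂ] F)), ∀ t ∈ Icc 0 T, sK c (A t) ≤ KN T c A)

/-- W10: static norms. -/
def W10 : Prop := ∀ (Γ E F G : Type) [AddCommGroup Γ] [Len Γ] [NormedAddCommGroup E]
  [NormedSpace ℂ E] [NormedAddCommGroup F] [NormedSpace ℂ F] [NormedAddCommGroup G]
  [NormedSpace ℂ G] (c : ℝ), 0 ≤ c →
  (∀ (A : Γ → Γ → (F →L[ℂ] G)) (B : Γ → Γ → (E →L[ℂ] F)),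
    sK c (kcomp A B) ≤ sK c A * sK c B) ∧
  (∀ (A : Γ → Γ → (E →L[ℂ] F)) (f : Γ → E), sN c (act A f) ≤ sK c A * sN c f) ∧
  (∀ (β : E →L[ℂ] F →L[ℂ] G) (f : Γ → E) (g : Γ → F),
    sN c (conv β f g) ≤ ‖β‖ₑ * sN c f * sN c g) ∧
  (∀ a : Γ → (E →L[ℂ] F), sK c (mulK a) = sN c a) ∧
  (∀ (a : Γ → (E →L[ℂ] F)) (b : ℝ≥0∞), (∀ m, ‖a m‖ₑ ≤ b) → sK c (diagK a) ≤ b) ∧
  (∀ A B : Γ → Γ → (E →L[ℂ] F), sK c (A + B) ≤ sK c A + sK c B) ∧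
  (∀ c' : ℝ, c' ≤ c → (∀ A : Γ → Γ → (E →L[ℂ] F), sK c' A ≤ sK c A) ∧
    ∀ f : Γ → E, sN c' f ≤ sN c f) ∧
  (∀ (A : Γ → Γ → (E →L[ℂ] F)) (m l : Γ),
    ENNReal.ofReal (Real.exp (c * len (m - l))) * ‖A m l‖ₑ ≤ sK c A)

/-- W11: algebraic identities for kernels of finite norm. -/
def W11 : Prop := ∀ (Γ E F G H : Type) [AddCommGroup Γ] [Len Γ] [NormedAddCommGroup E]
  [NormedSpace ℂ E] [NormedAddCommGroup F] [NormedSpace ℂ F] [NormedAddCommGroup G]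
  [NormedSpace ℂ G] [NormedAddCommGroup H] [NormedSpace ℂ H] [CompleteSpace F]
  [CompleteSpace G] [CompleteSpace H],
  (∀ (A : Γ → Γ → (G →L[ℂ] H)) (B : Γ → Γ → (F →L[ℂ] G)) (C : Γ → Γ → (E →L[ℂ] F)),
    sK 0 A ≠ ∞ → sK 0 B ≠ ∞ → sK 0 C ≠ ∞ → kcomp (kcomp A B) C = kcomp A (kcomp B C)) ∧
  (∀ (A : Γ → Γ → (F →L[ℂ] G)) (B : Γ → Γ → (E →L[ℂ] F)) (f : Γ → E),
    sK 0 A ≠ ∞ → sK 0 B ≠ ∞ → sN 0 f ≠ ∞ → act (kcomp A B) f = act A (act B f)) ∧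
  (∀ (A A' : Γ → Γ → (F →L[ℂ] G)) (B B' : Γ → Γ → (E →L[ℂ] F)),
    sK 0 A ≠ ∞ → sK 0 A' ≠ ∞ → sK 0 B ≠ ∞ → sK 0 B' ≠ ∞ →
    kcomp (A + A') B = kcomp A B + kcomp A' B ∧ kcomp A (B + B') = kcomp A B + kcomp A B') ∧
  (∀ (A A' : Γ → Γ → (E →L[ℂ] F)) (f f' : Γ → E),
    sK 0 A ≠ ∞ → sK 0 A' ≠ ∞ → sN 0 f ≠ ∞ → sN 0 f' ≠ ∞ →
    act (A + A') f = act A f + act A' f ∧ act A (f + f') = act A f + act A f') ∧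
  (∀ (A : Γ → Γ → (E →L[ℂ] F)),
    kcomp A (diagK (fun _ => ContinuousLinearMap.id ℂ E)) = A ∧
    kcomp (diagK (fun _ => ContinuousLinearMap.id ℂ F)) A = A) ∧
  (∀ (a : Γ → (E →L[ℂ] F)) (f : Γ → E) (m : Γ), act (diagK a) f m = a m (f m))

/-- W12: continuity in time is preserved. -/
def W12 : Prop := ∀ (Γ E F G : Type) [AddCommGroup Γ] [Len Γ] [NormedAddCommGroup E]
  [NormedSpace ℂ E] [NormedAddCommGroup F] [NormedSpace ℂ F] [NormedAddCommGroup G]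
  [NormedSpace ℂ G] [CompleteSpace F] [CompleteSpace G] (T c γ : ℝ) (ρ ρ' : ℝ → ℝ), Par T c γ →
  Wt T ρ → Wt T ρ' →
  (∀ (A : ℝ → Γ → Γ → (E →L[ℂ] F)) (f : ℝ → Γ → E), CK T A → CM T f → KN T c A ≠ ∞ →
    Nrm T c γ ρ f ≠ ∞ → CM T (fun t => act (A t) (f t))) ∧
  (∀ (A : ℝ → Γ → Γ → (F →L[ℂ] G)) (B : ℝ → Γ → Γ → (E →L[ℂ] F)), CK T A → CK T B →
    KN T c A ≠ ∞ → KN T c B ≠ ∞ → CK T (fun t => kcomp (A t) (B t))) ∧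
  (∀ (β : E →L[ℂ] F →L[ℂ] G) (f : ℝ → Γ → E) (g : ℝ → Γ → F), CM T f → CM T g →
    Nrm T c γ ρ f ≠ ∞ → Nrm T c γ ρ' g ≠ ∞ → CM T (fun t => conv β (f t) (g t)))

/-- W13: the fixed point theorem (any index set, the fibre may depend on the index). -/
def W13 : Prop := ∀ (α : Type) (E : α → Type) [∀ a, NormedAddCommGroup (E a)]
  [∀ a, CompleteSpace (E a)] (T : ℝ) (w : ℝ → α → ℝ≥0∞) (R : ℝ≥0∞)
  (Φ : (ℝ → ∀ a, E a) → ℝ → ∀ a, E a), 0 ≤ T → R ≠ ∞ →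
  (∀ a, ∃ δ : ℝ≥0∞, δ ≠ 0 ∧ ∀ t ∈ Icc 0 T, δ ≤ w t a) → (∀ t ∈ Icc 0 T, ∀ a, w t a ≠ ∞) →
  (∀ f : ℝ → ∀ a, E a, (∀ a, ContinuousOn (fun t => f t a) (Icc 0 T)) →
    (∑' a, ⨆ t ∈ Icc 0 T, w t a * ‖f t a‖ₑ) ≤ R →
    (∀ a, ContinuousOn (fun t => Φ f t a) (Icc 0 T)) ∧
      (∑' a, ⨆ t ∈ Icc 0 T, w t a * ‖Φ f t a‖ₑ) ≤ R) →
  (∀ f g : ℝ → ∀ a, E a, (∀ a, ContinuousOn (fun t => f t a) (Icc 0 T)) →
    (∀ a, ContinuousOn (fun t => g t a) (Icc 0 T)) →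
    (∑' a, ⨆ t ∈ Icc 0 T, w t a * ‖f t a‖ₑ) ≤ R →
    (∑' a, ⨆ t ∈ Icc 0 T, w t a * ‖g t a‖ₑ) ≤ R →
    (∑' a, ⨆ t ∈ Icc 0 T, w t a * ‖Φ f t a - Φ g t a‖ₑ) ≤
      (1 / 2) * ∑' a, ⨆ t ∈ Icc 0 T, w t a * ‖f t a - g t a‖ₑ) →
  ∃ f : ℝ → ∀ a, E a, (∀ a, ContinuousOn (fun t => f t a) (Icc 0 T)) ∧
    (∑' a, ⨆ t ∈ Icc 0 T, w t a * ‖f t a‖ₑ) ≤ R ∧
    (∀ t ∈ Icc 0 T, ∀ a, Φ f t a = f t a) ∧
    (∀ g : ℝ → ∀ a, E a, (∀ a, ContinuousOn (fun t => g t a) (Icc 0 T)) →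
      (∑' a, ⨆ t ∈ Icc 0 T, w t a * ‖g t a‖ₑ) ≤ R →
      (∑' a, ⨆ t ∈ Icc 0 T, w t a * ‖f t a - g t a‖ₑ) ≤
        2 * ∑' a, ⨆ t ∈ Icc 0 T, w t a * ‖Φ g t a - g t a‖ₑ)

/-- W14: `opK` on kernels of finite norm. -/
def W14 : Prop := ∀ (Γ : Type) [AddCommGroup Γ] [Len Γ],
  (∀ A : Γ → Γ → Mat, sK 0 A ≠ ∞ →
    (∀ (f : H2 Γ) (m : Γ), (opK A f : Γ → C3) m = act A f m) ∧
    (∀ (f : H2 Γ) (m : Γ), Summable fun l => A m l (f l)) ∧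
    ENNReal.ofReal ‖opK A‖ ≤ sK 0 A) ∧
  (∀ A B : Γ → Γ → Mat, sK 0 A ≠ ∞ → sK 0 B ≠ ∞ →
    opK (kcomp A B) = (opK A).comp (opK B) ∧ opK (A + B) = opK A + opK B) ∧
  (∀ A : Γ → Γ → Mat, sK 0 A ≠ ∞ →
    opK (fun m l => ContinuousLinearMap.adjoint (A l m)) = ContinuousLinearMap.adjoint (opK A)) ∧
  (opK (diagK fun _ : Γ => ContinuousLinearMap.id ℂ C3) = ContinuousLinearMap.id ℂ (H2 Γ)) ∧
  (∀ A B : Γ → Γ → Mat, sK 0 A ≠ ∞ → sK 0 B ≠ ∞ → opK A = opK B → A = B)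

/-- W15: Combes-Thomas. `A = P A P` coercive on the range of `P`; then the inverse on the range of
`P` has exponentially decaying entries (conjugate with the bounded weight
`exp (min (η |m - l|) r)`). All kernels are supported on a subgroup `Λ` (`A m l = 0` unless
`m - l ∈ Λ`) with finite exponential sums. -/
def W15 : Prop := ∀ (Γ : Type) [AddCommGroup Γ] [Len Γ] (Λ : AddSubgroup Γ) (c a b : ℝ)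
  (p : Γ → Mat) (A : Γ → Γ → Mat), 0 < c → 0 < a → a ≤ b → sK c A ≤ ENNReal.ofReal b →
  (∀ x : ℝ, 0 < x → eSL Λ x ≠ ∞) → (∀ m l, m - l ∉ Λ → A m l = 0) →
  (∀ m, (p m).comp (p m) = p m) → (∀ m, ContinuousLinearMap.adjoint (p m) = p m) →
  kcomp (diagK p) A = A → kcomp A (diagK p) = A →
  (∀ f : H2 Γ, opK (diagK p) f = f → a * ‖f‖ ^ 2 ≤ (inner ℂ (opK A f) f).re) →
  ∃ R : Γ → Γ → Mat, kcomp (diagK p) R = R ∧ kcomp R (diagK p) = R ∧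
    kcomp A R = diagK p ∧ kcomp R A = diagK p ∧ (∀ m l, m - l ∉ Λ → R m l = 0) ∧
    (∀ m l, ‖R m l‖ ≤ 2 / a * Real.exp (-(c * a / (2 * b)) * len (m - l))) ∧
    sK (c * a / (2 * b) / 2) R ≤ ENNReal.ofReal (2 / a) * eSL Λ (c * a / (2 * b) / 2)

/-- Hypotheses on the deformation gradient (one fixed time): `Fi = F⁻¹`, both with modes in the
subgroup `Λ`. -/
structure FData {Γ : Type} [AddCommGroup Γ] [Len Γ] (Λ : AddSubgroup Γ) (c b e : ℝ)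
    (F Fi : Γ → Mat) : Prop where
  c_pos : 0 < c
  b_one : 1 ≤ b
  e_one : 1 ≤ e
  sum : ∀ x : ℝ, 0 < x → eSL Λ x ≠ ∞
  F_supp : ∀ k, k ∉ Λ → F k = 0
  Fi_supp : ∀ k, k ∉ Λ → Fi k = 0
  F_le : sN 0 F ≤ ENNReal.ofReal b
  Fi_le : sN c Fi ≤ ENNReal.ofReal e
  left : kcomp (mulK Fi) (mulK F) = diagK fun _ => ContinuousLinearMap.id ℂ C3
  right : kcomp (mulK F) (mulK Fi) = diagK fun _ => ContinuousLinearMap.id ℂ C3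

/-- W16: the exact projector `Π = F⁻ᵀ R F⁻¹` (`η = c / (2 b² e²)`). -/
def W16 : Prop := ∀ (Γ : Type) [AddCommGroup Γ] [Len Γ] (Λ : AddSubgroup Γ) (c b e : ℝ)
  (F Fi : Γ → Mat) (ξ : Γ → C3), FData Λ c b e F Fi →
  (kcomp (PK ξ) (RK ξ Fi) = RK ξ Fi ∧ kcomp (RK ξ Fi) (PK ξ) = RK ξ Fi ∧
    kcomp (AK ξ Fi) (RK ξ Fi) = PK ξ ∧ kcomp (RK ξ Fi) (AK ξ Fi) = PK ξ) ∧
  (∀ m l, ‖RK ξ Fi m l‖ ≤
    2 * b ^ 2 * Real.exp (-(c / (2 * b ^ 2 * e ^ 2)) * len (m - l))) ∧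
  (∀ m l, m - l ∉ Λ → RK ξ Fi m l = 0 ∧ PiK ξ Fi m l = 0) ∧
  sK (c / (2 * b ^ 2 * e ^ 2) / 2) (PiK ξ Fi) ≤
    ENNReal.ofReal (2 * b ^ 2 * e ^ 2) * eSL Λ (c / (2 * b ^ 2 * e ^ 2) / 2) ∧
  kcomp (PiK ξ Fi) (PiK ξ Fi) = PiK ξ Fi ∧
  kcomp (PiK ξ Fi) (kcomp (mulK (adjC Fi)) (PK ξ)) = kcomp (mulK (adjC Fi)) (PK ξ) ∧
  kcomp (PK ξ) (kcomp (mulK Fi) (PiK ξ Fi)) = kcomp (PK ξ) (mulK Fi) ∧
  PiK ξ Fi = kcomp (mulK (adjC Fi)) (kcomp (PK ξ) (kcomp (RK ξ Fi) (mulK Fi)))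

/-- W17: Lipschitz dependence of the projector. -/
def W17 : Prop := ∀ (Γ : Type) [AddCommGroup Γ] [Len Γ] (Λ : AddSubgroup Γ) (c b e : ℝ)
  (F Fi F1 Fi1 : Γ → Mat) (ξ : Γ → C3), FData Λ c b e F Fi → FData Λ c b e F1 Fi1 →
  sK (c / (2 * b ^ 2 * e ^ 2) / 2) (PiK ξ Fi - PiK ξ Fi1) ≤
    ENNReal.ofReal (12 * b ^ 4 * e ^ 3) * eSL Λ (c / (2 * b ^ 2 * e ^ 2) / 2) ^ 2 *
      sN c (Fi - Fi1)

/-- W18: the time dependent projector: norm with the sup over `t` inside, continuity. -/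
def W18 : Prop := ∀ (Γ : Type) [AddCommGroup Γ] [Len Γ] (Λ : AddSubgroup Γ) (T c b e : ℝ)
  (F Fi : ℝ → Γ → Mat) (ξ : Γ → C3), 0 ≤ T → (∀ t ∈ Icc 0 T, FData Λ c b e (F t) (Fi t)) →
  Nrm T c 0 (fun _ => 1) Fi ≤ ENNReal.ofReal e → CM T Fi →
  KN T (c / (2 * b ^ 2 * e ^ 2) / 2) (fun t => PiK ξ (Fi t)) ≤
    ENNReal.ofReal (2 * b ^ 2 * e ^ 2) * eSL Λ (c / (2 * b ^ 2 * e ^ 2) / 2) ∧
  CK T (fun t => PiK ξ (Fi t))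

/-- W19: phases which do not occur in `F` are not mixed by the projector. -/
def W19 : Prop := ∀ (Γ : Type) [AddCommGroup Γ] [Len Γ] (Λ : AddSubgroup Γ) (c b e : ℝ)
  (F Fi : Γ → Mat) (ξ : Γ → C3) (Λ' : AddSubgroup Γ), FData Λ c b e F Fi →
  (∀ k, k ∉ Λ' → Fi k = 0) → ∀ m l, m - l ∉ Λ' → PiK ξ Fi m l = 0

/-- Complex conjugation of vectors. -/
noncomputable def cj (v : C3) : C3 := WithLp.toLp 2 fun i => starRingEnd ℂ (v i)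

/-- W20: the projector maps real functions to real functions. -/
def W20 : Prop := ∀ (Γ : Type) [AddCommGroup Γ] [Len Γ] (Λ : AddSubgroup Γ) (c b e : ℝ)
  (F Fi : Γ → Mat) (ξ : Γ → C3), FData Λ c b e F Fi → (∀ m, cj (ξ (-m)) = - ξ m) →
  (∀ k v, Fi (-k) (cj v) = cj (Fi k v)) →
  ∀ m l v, PiK ξ Fi (-m) (-l) (cj v) = cj (PiK ξ Fi m l v)

/-- W21: the exponential sums. -/
def W21 : Prop :=
  (∀ (d : ℕ) (x : ℝ), 0 < x → eS (Fin d → ℤ) x ≠ ∞ ∧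
    (x ≤ 1 → eS (Fin d → ℤ) x ≤ ENNReal.ofReal ((3 / x) ^ d))) ∧
  (∀ (n : ℕ) (x : ℝ), 0 < x → eSL (lev n) x ≠ ∞ ∧
    (x ≤ 1 → eSL (lev n) x ≤ ENNReal.ofReal ((3 / x) ^ (n + 1))))

/-- W22: the gentle lemma F1 (parameters inside the sum). -/
def W22 : Prop := ∀ (d : ℕ) (a : (Fin d → ℤ) → ℝ) (c B b : ℝ), 0 < c → c ≤ 1 → 1 ≤ B → 0 < b →
  (∀ m, a m ≤ b) → (∀ m, a m ≤ b * Real.exp (B - c * len m)) →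
  (∑' m, ENNReal.ofReal (Real.exp (c / (4 * B) * len m)) * ENNReal.ofReal (a m)) ≤
    ENNReal.ofReal (3 * b * (12 * B / c) ^ d)

/-- W23: crude propagator (C5): the Picard series. -/
def W23 : Prop := ∀ (Γ : Type) [AddCommGroup Γ] [Len Γ] (T c β : ℝ) (ρ : ℝ → ℝ)
  (L : ℝ → Γ → Γ → Mat), 0 ≤ T → 0 ≤ c → 0 ≤ β → CK T L → KN T c L ≤ ENNReal.ofReal β →
  (∀ t ∈ Icc 0 T, 0 < ρ t) → MonotoneOn (fun t => ρ t * Real.exp (-2 * β * t)) (Icc 0 T) →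
  ∃ S : ℝ → ℝ → Γ → Γ → Mat,
    (∀ s ∈ Icc 0 T, ∀ t ∈ Icc 0 T, ∀ m l, HasDerivWithinAt (fun t => S t s m l)
      (kcomp (L t) (S t s) m l) (Icc 0 T) t) ∧
    (∀ s ∈ Icc 0 T, S s s = diagK fun _ => ContinuousLinearMap.id ℂ C3) ∧
    (∀ m l, ContinuousOn (fun q : ℝ × ℝ => S q.1 q.2 m l) (Icc 0 T ×ˢ Icc 0 T)) ∧
    PN T c ρ ρ S ≤ 2 ∧
    (∀ s ∈ Icc 0 T, ∀ t ∈ Icc 0 T, sK c (S t s) ≤ ENNReal.ofReal (Real.exp (β * |t - s|)))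

end Pool.Agent.Work.MP_b0497c_an.Unf.W
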