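import Pool.Agent.Work.MP_b0497c_an.Unf.SStmts

set_option autoImplicit false

/-!
# Block S, part 2: one level comparison, weights, linear and bilinear estimates, fixed point
-/

open scoped ENNReal
open Set MeasureTheory

namespace Pool.Agent.Work.MP_b0497c_an.Unf.S

open W

/-- S08 (P1): the projectors of levels `l` and `l - 1` on functions of level `l - 1`. -/
def S08 : Prop := ∀ (D : Dat), D.Hyp → ∀ (l : ℕ) (σ : ℝ → ℝ) (f : ℝ → Md → C3), D.m < l → l ≤ D.n →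
  Wt D.T σ → CM D.T f → SuppT D.T (lev (l - 1) : Set Md) f → Nrm D.T D.c D.γ σ f ≠ ∞ →
  CM D.T (fun t => act (D.Pl l t - D.Pl (l - 1) t) (f t)) ∧
  Src D.T D.c D.γ (fun t => σ t * D.α l t) (fun t => act (D.Pl l t - D.Pl (l - 1) t) (f t)) ≤
    ENNReal.ofReal (D.G ^ 13 * D.u l ^ 256) * Nrm D.T D.c D.γ σ f

/-- S09 (P2): the projector of level `l` on class `l`. -/
def S09 : Prop := ∀ (D : Dat), D.Hyp → ∀ (l : ℕ) (σ : ℝ → ℝ) (f : ℝ → Md → C3), D.m < l → l ≤ D.n →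
  Wt D.T σ → CM D.T f → SuppT D.T (Cl l) f → Nrm D.T D.c D.γ σ f ≠ ∞ →
  CM D.T (fun t => act (D.Pl l t) (f t) - mul (D.p l t) (f t)) ∧
  Src D.T D.c D.γ σ (fun t => act (D.Pl l t) (f t) - mul (D.p l t) (f t)) ≤
    ENNReal.ofReal (D.G ^ 13 * D.u l ^ 256) * Nrm D.T D.c D.γ σ f

/-- S10 (P3): the projector of level `n` on the new class. -/
def S10 : Prop := ∀ (D : Dat), D.Hyp → ∀ (σ : ℝ → ℝ) (f : ℝ → Md → C3),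
  Wt D.T σ → CM D.T f → SuppT D.T (Cl (D.n + 1)) f → Nrm D.T D.c D.γ σ f ≠ ∞ →
  CM D.T (fun t => act (D.Pl D.n t) (f t) - mul (D.p (D.n + 1) t) (f t)) ∧
  Src D.T D.c D.γ σ (fun t => act (D.Pl D.n t) (f t) - mul (D.p (D.n + 1) t) (f t)) ≤
    ENNReal.ofReal (D.G ^ 13 * D.u (D.n + 1) ^ 512) * Nrm D.T D.c D.γ σ f

/-- S11 (P4): the same for `∂_{n+1} h`. -/
def S11 : Prop := ∀ (D : Dat), D.Hyp → ∀ (σ : ℝ → ℝ) (h : ℝ → Md → C3),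
  Wt D.T σ → CM D.T h → SuppT D.T (Cl (D.n + 1)) h → Nrm D.T D.c D.γ σ h ≠ ∞ →
  let dh : ℝ → Md → C3 := fun t q => (q (D.n + 1) : ℂ) • h t q
  CM D.T (fun t => act (D.Pl D.n t) (dh t) - mul (D.p (D.n + 1) t) (dh t)) ∧
  Src D.T D.c D.γ σ (fun t => act (D.Pl D.n t) (dh t) - mul (D.p (D.n + 1) t) (dh t)) ≤
    ENNReal.ofReal (D.G ^ 13 * D.u (D.n + 1) ^ 512) * Nrm D.T D.c D.γ σ h

/-- S12 (L1): exact generators of levels `l` and `l - 1` on level `l - 1`. -/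
def S12 : Prop := ∀ (D : Dat), D.Hyp → ∀ (l : ℕ) (σ : ℝ → ℝ) (f : ℝ → Md → C3), D.m < l → l ≤ D.n →
  Wt D.T σ → CM D.T f → SuppT D.T (lev (l - 1) : Set Md) f → Nrm D.T D.c D.γ σ f ≠ ∞ →
  let e : ℝ → Md → C3 := fun t => act (D.gen l t) (f t) - act (D.gen (l - 1) t) (f t) -
    D.Cp l t (f t)
  CM D.T e ∧ SuppT D.T (lev l : Set Md) e ∧
  Src D.T D.c D.γ (fun t => σ t * D.α l t) e ≤
    ENNReal.ofReal (D.G ^ 18 * D.u l ^ 256) * Nrm D.T D.c D.γ σ f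

/-- S13 (L2): exact generator of level `l` on class `l`. -/
def S13 : Prop := ∀ (D : Dat), D.Hyp → ∀ (l : ℕ) (σ : ℝ → ℝ) (f : ℝ → Md → C3), D.m < l → l ≤ D.n →
  Wt D.T σ → CM D.T f → SuppT D.T (Cl l) f → Nrm D.T D.c D.γ σ f ≠ ∞ →
  let e : ℝ → Md → C3 := fun t => act (D.gen l t) (f t) - mul (D.gK l t) (f t) +
    act (idK - (2 : ℂ) • D.Pl l t) (mul (tsF (D.a l t)) (mul (D.rw l t) (f t)))
  CM D.T e ∧ SuppT D.T (lev l : Set Md) e ∧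
  Src D.T D.c D.γ σ e ≤ ENNReal.ofReal (D.G ^ 18 * D.u l ^ 256) * Nrm D.T D.c D.γ σ f

/-- S14 (L3): exact generator of level `n` on the new class. -/
def S14 : Prop := ∀ (D : Dat), D.Hyp → ∀ (σ : ℝ → ℝ) (f : ℝ → Md → C3),
  Wt D.T σ → CM D.T f → SuppT D.T (Cl (D.n + 1)) f → Nrm D.T D.c D.γ σ f ≠ ∞ →
  let e : ℝ → Md → C3 := fun t => act (D.gen D.n t) (f t) - mul (D.gK (D.n + 1) t) (f t)
  CM D.T e ∧ SuppT D.T (Cl (D.n + 1)) e ∧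
  Src D.T D.c D.γ σ e ≤ ENNReal.ofReal (D.G ^ 18 * D.u (D.n + 1) ^ 512) * Nrm D.T D.c D.γ σ f

/-- S15: algebra and norms of the Kelvin data of class `j`. -/
def S15 : Prop := ∀ (D : Dat), D.Hyp → ∀ (j : ℕ), D.m < j → j ≤ D.n + 1 →
  Nrm D.T D.c 0 Dat.one' (D.kc j) ≤ ENNReal.ofReal (D.G * D.N j) ∧
  Nrm D.T D.c 0 Dat.one' (D.rw j) ≤ ENNReal.ofReal (D.G * D.N j) ∧
  Nrm D.T D.c 0 Dat.one' (D.p j) ≤ ENNReal.ofReal (D.G ^ 3) ∧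
  KN D.T D.c (fun t => mulK (oneM - (2 : ℂ) • D.p j t)) ≤ ENNReal.ofReal (3 * D.G ^ 3) ∧
  CM D.T (D.kc j) ∧ CM D.T (D.rw j) ∧ CM D.T (D.p j) ∧ CM D.T (D.gK j) ∧
  SuppT D.T (lev (j - 1) : Set Md) (D.p j) ∧ SuppT D.T (lev (j - 1) : Set Md) (D.rw j) ∧
  SuppT D.T (lev (j - 1) : Set Md) (D.gK j) ∧
  (∀ t ∈ Icc 0 D.T, ∀ f : Md → C3, sN 0 f ≠ ∞ →
    mul (D.rw j t) (mul (D.p j t) f) = mul (D.rw j t) f ∧
    mul (D.rw j t) (mul (oneM - (2 : ℂ) • D.p j t) f) = - mul (D.rw j t) f) ∧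
  (j ≤ D.n → ∀ t ∈ Icc 0 D.T, ∀ f : Md → C3, sN 0 f ≠ ∞ →
    mul (D.rw j t) (D.Cp j t f) =
      conv (ContinuousLinearMap.mul ℂ ℂ) (mul (D.rw j t) (D.a j t)) (mul (D.rw j t) f))

/-- S16: `k_j · w` is constant under the Kelvin flow. -/
def S16 : Prop := ∀ (D : Dat), D.Hyp → ∀ (j : ℕ), D.m < j → j ≤ D.n + 1 →
  ∀ (ρ : ℝ → ℝ) (w Q : ℝ → Md → C3), Wt D.T ρ → CM D.T w → CM D.T Q →
  Nrm D.T D.c D.γ ρ w ≠ ∞ → (∃ c' : ℝ, D.γ * D.T < c' ∧ Nrm D.T c' D.γ ρ Q ≠ ∞) →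
  (∀ q, ∀ t ∈ Icc 0 D.T, HasDerivWithinAt (fun t => w t q) (mul (D.gK j t) (w t) q + Q t q)
    (Icc 0 D.T) t) →
  ∀ q, ∀ t ∈ Icc 0 D.T, HasDerivWithinAt (fun t => mul (D.rw j t) (w t) q)
    (mul (D.rw j t) (Q t) q) (Icc 0 D.T) t

/-- The weights of the fixed point argument. -/
structure Wts (D : Dat) (ρ : ℕ → ℝ → ℝ) (Str : ℝ → ℝ) : Prop where
  wt : ∀ o, D.m ≤ o → o ≤ D.n + 1 → Wt D.T (ρ o)
  str_wt : Wt D.T Str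
  new : ∀ t ∈ Icc 0 D.T, ρ (D.n + 1) t = D.α (D.n + 1) t / D.N (D.n + 1)
  str_eq : ∀ t ∈ Icc 0 D.T, Str t = D.N D.n * ρ (D.n + 1) t ^ 2 / D.u (D.n + 1) ^ 32
  str_le : ∀ o, D.m ≤ o → o ≤ D.n → ∀ t ∈ Icc 0 D.T, Str t ≤ ρ o t
  coarse : MonotoneOn (fun t => ρ D.m t * Real.exp (-2 * D.β * t)) (Icc 0 D.T)
  ratio : ∀ j, D.m < j → j ≤ D.n + 1 → MonotoneOn (fun t => ρ j t / D.α j t) (Icc 0 D.T)
  w1 : ∀ i l, D.m ≤ i → i < l → l ≤ D.n → ∀ t ∈ Icc 0 D.T,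
    D.α l t * ρ i t ≤ D.u l ^ 64 * ρ l t
  w2 : ∀ o i, D.m ≤ o → o < i → i ≤ D.n → ∀ t ∈ Icc 0 D.T,
    ρ i t ≤ D.G ^ 6 / D.u i ^ 80 * ρ o t
  w4 : ∀ i, D.m ≤ i → i ≤ D.n → ∀ t ∈ Icc 0 D.T,
    D.N (D.n + 1) * ρ i t ≤ D.u (D.n + 1) ^ 384 * D.α (D.n + 1) t
  w5 : ∀ i i', D.m ≤ i → i ≤ D.n → D.m ≤ i' → i' ≤ D.n → ∀ t ∈ Icc 0 D.T,
    D.N D.n * (ρ i t * ρ i' t) ≤ D.u (D.n + 1) ^ 200 * Str t

/-- S17: the weights exist. -/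
def S17 : Prop := ∀ (D : Dat), D.Hyp → ∃ ρ Str, Wts D ρ Str

/-- The norm of the unknown `(w, κ)`. -/
noncomputable def XN (D : Dat) (ρ : ℕ → ℝ → ℝ) (w : ℝ → Md → C3) (κ : ℝ → Md → ℂ) : ℝ≥0∞ :=
  (∑ o ∈ Finset.Icc D.m (D.n + 1), Nrm D.T D.c D.γ (ρ o) (fun t => res (Cs D.m o) (w t))) +
  ∑ o ∈ Finset.Ioc D.m (D.n + 1),
    Nrm D.T D.c D.γ (fun t => D.u o ^ 128 * ρ o t) (fun t => res (Cl o) (κ t))

/-- The linear part, with `k_i · w_i` replaced by `N_i κ_i` at its own level. -/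
noncomputable def Lin (D : Dat) (w : ℝ → Md → C3) (κ : ℝ → Md → ℂ) (t : ℝ) : Md → C3 :=
  act (D.gen D.n t) (w t) + ∑ i ∈ Finset.Ioc D.m D.n,
    act (idK - (2 : ℂ) • D.Pl i t) (mul (tsF (D.a i t))
      (mul (D.rw i t) (res (Cl i) (w t)) - (D.N i : ℂ) • res (Cl i) (κ t)))

/-- The block diagonal model. -/
noncomputable def model (D : Dat) (o : ℕ) (t : ℝ) (f : Md → C3) : Md → C3 :=
  if o ≤ D.m then act (D.gen D.m t) f else mul (D.gK o t) f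

/-- The linear source of class `o`. -/
noncomputable def QL (D : Dat) (o : ℕ) (w : ℝ → Md → C3) (κ : ℝ → Md → ℂ) (t : ℝ) : Md → C3 :=
  res (Cs D.m o) (Lin D w κ t) - model D o t (res (Cs D.m o) (w t))

/-- `H = N_{n+1} κ_{n+1} + k_{n+1} · w_{≤ n}`. -/
noncomputable def HH (D : Dat) (w : ℝ → Md → C3) (κ : ℝ → Md → ℂ) (t : ℝ) : Md → ℂ :=
  (D.N (D.n + 1) : ℂ) • res (Cl (D.n + 1)) (κ t) +
    mul (D.rw (D.n + 1) t) (res (lev D.n : Set Md) (w t))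

/-- The bilinear part in conservative form. -/
noncomputable def Bil (D : Dat) (w : ℝ → Md → C3) (κ : ℝ → Md → ℂ) (w' : ℝ → Md → C3) (t : ℝ) :
    Md → C3 :=
  -act (idK - D.Pl D.n t) (fun q =>
    Complex.I • (conv outerB (w' t) (mul (D.Fi D.n t) (w t)) q) (xi' D.K (D.n + 1) q) +
    (Complex.I * (q (D.n + 1) : ℂ)) • conv smB (HH D w κ t) (w' t) q)

/-- Admissible unknowns. -/
structure Adm (D : Dat) (ρ : ℕ → ℝ → ℝ) (w : ℝ → Md → C3) (κ : ℝ → Md → ℂ) : Prop where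
  w_cm : CM D.T w
  κ_cm : CM D.T κ
  w_supp : SuppT D.T (lev (D.n + 1) : Set Md) w
  κ_supp : SuppT D.T {q | ∃ o, D.m < o ∧ o ≤ D.n + 1 ∧ q ∈ Cl o} κ
  fin : XN D ρ w κ ≠ ∞

/-- S18: linear sources of the old classes. -/
def S18 : Prop := ∀ (D : Dat) (ρ : ℕ → ℝ → ℝ) (Str : ℝ → ℝ), D.Hyp → Wts D ρ Str →
  ∀ (w : ℝ → Md → C3) (κ : ℝ → Md → ℂ), Adm D ρ w κ → ∀ o, D.m ≤ o → o ≤ D.n →
  CM D.T (QL D o w κ) ∧ SuppT D.T (Cs D.m o) (QL D o w κ) ∧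
  Src D.T D.c D.γ (ρ o) (QL D o w κ) ≤
    ENNReal.ofReal (D.G ^ 40 * D.u (D.m + 1) ^ 40) * XN D ρ w κ

/-- S19: linear `κ` sources of the old classes. -/
def S19 : Prop := ∀ (D : Dat) (ρ : ℕ → ℝ → ℝ) (Str : ℝ → ℝ), D.Hyp → Wts D ρ Str →
  ∀ (w : ℝ → Md → C3) (κ : ℝ → Md → ℂ), Adm D ρ w κ → ∀ o, D.m < o → o ≤ D.n →
  CM D.T (fun t => mul (D.rw o t) (QL D o w κ t)) ∧
  Src D.T D.c D.γ (fun t => D.u o ^ 128 * ρ o t)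
      (fun t => ((D.N o : ℂ)⁻¹) • mul (D.rw o t) (QL D o w κ t)) ≤
    ENNReal.ofReal (D.G ^ 40 * D.u (D.m + 1) ^ 40) * XN D ρ w κ

/-- S20: linear sources of the new class. -/
def S20 : Prop := ∀ (D : Dat) (ρ : ℕ → ℝ → ℝ) (Str : ℝ → ℝ), D.Hyp → Wts D ρ Str →
  ∀ (w : ℝ → Md → C3) (κ : ℝ → Md → ℂ), Adm D ρ w κ →
  CM D.T (QL D (D.n + 1) w κ) ∧ SuppT D.T (Cl (D.n + 1)) (QL D (D.n + 1) w κ) ∧
  Src D.T D.c D.γ (ρ (D.n + 1)) (QL D (D.n + 1) w κ) ≤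
    ENNReal.ofReal (D.G ^ 18 * D.u (D.n + 1) ^ 512) * XN D ρ w κ ∧
  Src D.T D.c D.γ (fun t => D.u (D.n + 1) ^ 128 * ρ (D.n + 1) t)
      (fun t => ((D.N (D.n + 1) : ℂ)⁻¹) • mul (D.rw (D.n + 1) t) (QL D (D.n + 1) w κ t)) ≤
    ENNReal.ofReal (D.G ^ 19 * D.u (D.n + 1) ^ 384) * XN D ρ w κ

/-- S21: bilinear sources of the old classes. -/
def S21 : Prop := ∀ (D : Dat) (ρ : ℕ → ℝ → ℝ) (Str : ℝ → ℝ), D.Hyp → Wts D ρ Str →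
  ∀ (w w' : ℝ → Md → C3) (κ κ' : ℝ → Md → ℂ), Adm D ρ w κ → Adm D ρ w' κ' →
  ∀ o, D.m ≤ o → o ≤ D.n →
  CM D.T (Bil D w κ w') ∧ SuppT D.T (lev (D.n + 1) : Set Md) (Bil D w κ w') ∧
  Src D.T D.c D.γ (ρ o) (fun t => res (Cs D.m o) (Bil D w κ w' t)) ≤
    ENNReal.ofReal (D.G ^ 20 * D.u (D.n + 1) ^ 24) * XN D ρ w κ * XN D ρ w' κ' ∧
  (D.m < o → Src D.T D.c D.γ (fun t => D.u o ^ 128 * ρ o t)
      (fun t => ((D.N o : ℂ)⁻¹) • mul (D.rw o t) (res (Cs D.m o) (Bil D w κ w' t))) ≤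
    ENNReal.ofReal (D.G ^ 20 * D.u (D.n + 1) ^ 24) * XN D ρ w κ * XN D ρ w' κ')

/-- S22: bilinear sources of the new class. -/
def S22 : Prop := ∀ (D : Dat) (ρ : ℕ → ℝ → ℝ) (Str : ℝ → ℝ), D.Hyp → Wts D ρ Str →
  ∀ (w w' : ℝ → Md → C3) (κ κ' : ℝ → Md → ℂ), Adm D ρ w κ → Adm D ρ w' κ' →
  Src D.T D.c D.γ (ρ (D.n + 1)) (fun t => res (Cl (D.n + 1)) (Bil D w κ w' t)) ≤
    ENNReal.ofReal (D.G ^ 20 * D.u (D.n + 1) ^ 128) * XN D ρ w κ * XN D ρ w' κ' ∧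
  Src D.T D.c D.γ (fun t => D.u (D.n + 1) ^ 128 * ρ (D.n + 1) t)
      (fun t => ((D.N (D.n + 1) : ℂ)⁻¹) •
        mul (D.rw (D.n + 1) t) (res (Cl (D.n + 1)) (Bil D w κ w' t))) ≤
    ENNReal.ofReal (D.G ^ 20 * D.u (D.n + 1) ^ 200) * XN D ρ w κ * XN D ρ w' κ'

/-- S23: Duhamel formula and the linear problem for a generator with a propagator. -/
def S23 : Prop := ∀ (T c γ : ℝ) (ρ : ℝ → ℝ) (C : ℝ≥0∞) (L : ℝ → Md → Md → Mat)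
  (S : ℝ → ℝ → Md → Md → Mat) (w0 : Md → C3) (Q : ℝ → Md → C3), Par T c γ → γ * T < c → Wt T ρ →
  IsProp T L S → CK T L → KN T c L ≠ ∞ → PN T c ρ ρ S ≤ C → CM T Q → sN c w0 ≠ ∞ →
  (∃ c' : ℝ, γ * T < c' ∧ Nrm T c' γ ρ Q ≠ ∞) → Src T c γ ρ Q ≠ ∞ →
  let W : ℝ → Md → C3 := fun t q => act (S t 0) w0 q + ∫ s in (0 : ℝ)..t, act (S t s) (Q s) q
  CM T W ∧ W 0 = w0 ∧
  (∀ q, ∀ t ∈ Icc 0 T, HasDerivWithinAt (fun t => W t q) (act (L t) (W t) q + Q t q) (Icc 0 T) t) ∧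
  Nrm T c γ ρ W ≤ C * (ENNReal.ofReal (1 / ρ 0) * sN c w0 + Src T c γ ρ Q) ∧
  (∀ W' : ℝ → Md → C3, CM T W' → W' 0 = w0 → (∀ q, ∀ t ∈ Icc 0 T,
    HasDerivWithinAt (fun t => W' t q) (act (L t) (W' t) q + Q t q) (Icc 0 T) t) →
    Nrm T 0 0 ρ W' ≠ ∞ → ∀ t ∈ Icc 0 T, W' t = W t)

/-- The seed (A9). -/
structure Seed (D : Dat) (w0 : Md → C3) : Prop where
  supp : SuppIn (Cl (D.n + 1)) w0
  div : ∀ q, inner ℂ (xi D.K q) (w0 q) = 0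
  le : sN D.c w0 ≤ ENNReal.ofReal (D.G * D.α (D.n + 1) 0 / D.N (D.n + 1))
  k_le : sN D.c (fun q => (innerSL ℂ (D.kk (D.n + 1))) (w0 q)) ≤
    ENNReal.ofReal (D.u (D.n + 1) ^ 256 * D.α (D.n + 1) 0)

/-- The exact right hand side of (E). -/
noncomputable def RHS (D : Dat) (w : ℝ → Md → C3) (t : ℝ) : Md → C3 :=
  act (D.gen D.n t) (w t) - act (idK - D.Pl D.n t) (fun q =>
    Complex.I • (conv outerB (w t) (mul (D.Fi D.n t) (w t)) q) (xi D.K q))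

/-- S24: THE FIXED POINT: exact solution of (E) with bounds (**). -/
def S24 : Prop := ∀ (D : Dat) (ρ : ℕ → ℝ → ℝ) (Str : ℝ → ℝ) (w0 : Md → C3), D.Hyp →
  Wts D ρ Str → Seed D w0 →
  ∃ w : ℝ → Md → C3, CM D.T w ∧ SuppT D.T (lev (D.n + 1) : Set Md) w ∧ w 0 = w0 ∧
    (∀ q, ∀ t ∈ Icc 0 D.T, HasDerivWithinAt (fun t => w t q) (RHS D w t q) (Icc 0 D.T) t) ∧
    (∀ o, D.m ≤ o → o ≤ D.n + 1 →
      Nrm D.T D.c D.γ (ρ o) (fun t => res (Cs D.m o) (w t)) ≤ ENNReal.ofReal (D.G ^ 3)) ∧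
    Nrm D.T D.c D.γ (ρ (D.n + 1)) (fun t => res (Cl (D.n + 1)) (w t) -
      mul (D.Φ (D.n + 1) t 0) w0) ≤ ENNReal.ofReal (D.u (D.n + 1) ^ 64) ∧
    Nrm D.T D.c D.γ (ρ (D.n + 1)) (fun t => ((D.N (D.n + 1) : ℂ)⁻¹) •
      mul (D.rw (D.n + 1) t) (res (Cl (D.n + 1)) (w t))) ≤ ENNReal.ofReal (D.u (D.n + 1) ^ 120) ∧
    Nrm D.T D.c D.γ (D.α (D.n + 1)) (fun t => (D.N (D.n + 1) : ℂ) •
      res (lev D.n : Set Md) (w t)) ≤ ENNReal.ofReal (D.u (D.n + 1) ^ 256)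

/-- S25: the divergence is preserved. -/
def S25 : Prop := ∀ (D : Dat) (w : ℝ → Md → C3), D.Hyp → CM D.T w →
  SuppT D.T (lev (D.n + 1) : Set Md) w → Nrm D.T D.c D.γ Dat.one' w ≠ ∞ →
  (∀ q, inner ℂ (xi D.K q) (w 0 q) = 0) →
  (∀ q, ∀ t ∈ Icc 0 D.T, HasDerivWithinAt (fun t => w t q) (RHS D w t q) (Icc 0 D.T) t) →
  ∀ t ∈ Icc 0 D.T, ∀ q, inner ℂ (xi D.K q) (mul (D.Fi D.n t) (w t) q) = 0

/-- S26: uniqueness for (E) in the class of analytic solutions (used for reality and oddness). -/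
def S26 : Prop := ∀ (D : Dat) (w w' : ℝ → Md → C3), D.Hyp → CM D.T w → CM D.T w' →
  SuppT D.T (lev (D.n + 1) : Set Md) w → SuppT D.T (lev (D.n + 1) : Set Md) w' →
  Nrm D.T D.c D.γ Dat.one' w ≠ ∞ → Nrm D.T D.c D.γ Dat.one' w' ≠ ∞ → w 0 = w' 0 →
  (∀ q, ∀ t ∈ Icc 0 D.T, HasDerivWithinAt (fun t => w t q) (RHS D w t q) (Icc 0 D.T) t) →
  (∀ q, ∀ t ∈ Icc 0 D.T, HasDerivWithinAt (fun t => w' t q) (RHS D w' t q) (Icc 0 D.T) t) →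
  ∀ t ∈ Icc 0 D.T, w t = w' t

end Pool.Agent.Work.MP_b0497c_an.Unf.S
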