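import Pool.Agent.Work.MP_b0497c_an.Unf.WStmts

set_option autoImplicit false

/-!
# W10: static norms
-/

open scoped ENNReal
open Set MeasureTheory

namespace Pool.Agent.Work.MP_b0497c_an.Unf.W

namespace I10

section aux

variable {Γ : Type} [AddCommGroup Γ] [Len Γ]
  {E F G : Type} [NormedAddCommGroup E] [NormedSpace ℂ E] [NormedAddCommGroup F] [NormedSpace ℂ F]
  [NormedAddCommGroup G] [NormedSpace ℂ G]

/-- the weight -/
noncomputable def wt (c : ℝ) (m : Γ) : ℝ≥0∞ := ENNReal.ofReal (Real.exp (c * len m))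

theorem wt_zero (c : ℝ) : wt c (0 : Γ) = 1 := by
  unfold wt
  rw [len_zero, mul_zero, Real.exp_zero, ENNReal.ofReal_one]

theorem wt_add {c : ℝ} (hc : 0 ≤ c) (m k : Γ) : wt c (m + k) ≤ wt c m * wt c k := by
  unfold wt
  rw [← ENNReal.ofReal_mul (Real.exp_nonneg _), ← Real.exp_add, ← mul_add]
  exact ENNReal.ofReal_le_ofReal (Real.exp_le_exp.2 (mul_le_mul_of_nonneg_left (len_add m k) hc))

theorem wt_mono {c c' : ℝ} (h : c' ≤ c) (m : Γ) : wt c' m ≤ wt c m := by
  unfold wt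
  exact ENNReal.ofReal_le_ofReal (Real.exp_le_exp.2 (mul_le_mul_of_nonneg_right h (len_nonneg m)))

theorem conv_le {c : ℝ} (hc : 0 ≤ c) (u v w : Γ → ℝ≥0∞)
    (h : ∀ m, w m ≤ ∑' l, u (m - l) * v l) :
    ∑' m, wt c m * w m ≤ (∑' m, wt c m * u m) * ∑' m, wt c m * v m := by
  calc ∑' m, wt c m * w m ≤ ∑' m, ∑' l, (wt c (m - l) * u (m - l)) * (wt c l * v l) := by
        refine ENNReal.tsum_le_tsum fun m => ?_
        refine (mul_le_mul_right (h m) _).trans ?_
        rw [← ENNReal.tsum_mul_left]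
        refine ENNReal.tsum_le_tsum fun l => ?_
        have h1 := wt_add hc (m - l) l
        rw [sub_add_cancel] at h1
        calc wt c m * (u (m - l) * v l) ≤ (wt c (m - l) * wt c l) * (u (m - l) * v l) :=
              mul_le_mul_left h1 _
          _ = (wt c (m - l) * u (m - l)) * (wt c l * v l) := by ring
    _ = ∑' l, ∑' m, (wt c (m - l) * u (m - l)) * (wt c l * v l) := ENNReal.tsum_comm
    _ = ∑' l, (∑' m, wt c m * u m) * (wt c l * v l) := by
        refine tsum_congr fun l => ?_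
        rw [ENNReal.tsum_mul_right]
        congr 1
        exact (Equiv.subRight l).tsum_eq fun m => wt c m * u m
    _ = (∑' m, wt c m * u m) * ∑' m, wt c m * v m := ENNReal.tsum_mul_left

/-- the envelope of a kernel -/
noncomputable def env (A : Γ → Γ → (E →L[ℂ] F)) (k : Γ) : ℝ≥0∞ := ⨆ l, ‖A (l + k) l‖ₑ

omit [Len Γ] in
theorem le_env (A : Γ → Γ → (E →L[ℂ] F)) (m l : Γ) : ‖A m l‖ₑ ≤ env A (m - l) := by
  have h := le_iSup (fun l' => ‖A (l' + (m - l)) l'‖ₑ) l
  rw [add_sub_cancel] at h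
  exact h

theorem enorm_comp_le (a : F →L[ℂ] G) (b : E →L[ℂ] F) : ‖a.comp b‖ₑ ≤ ‖a‖ₑ * ‖b‖ₑ := by
  rw [enorm_eq_nnnorm, enorm_eq_nnnorm, enorm_eq_nnnorm, ← ENNReal.coe_mul, ENNReal.coe_le_coe]
  exact a.opNNNorm_comp_le b

theorem enorm_apply_le (a : E →L[ℂ] F) (x : E) : ‖a x‖ₑ ≤ ‖a‖ₑ * ‖x‖ₑ := by
  rw [enorm_eq_nnnorm, enorm_eq_nnnorm, enorm_eq_nnnorm, ← ENNReal.coe_mul, ENNReal.coe_le_coe]
  exact a.le_opNNNorm x

omit [Len Γ] in
theorem env_kcomp (A : Γ → Γ → (F →L[ℂ] G)) (B : Γ → Γ → (E →L[ℂ] F)) (k : Γ) :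
    env (kcomp A B) k ≤ ∑' i, env A (k - i) * env B i := by
  refine iSup_le fun l => ?_
  have h0 : ‖kcomp A B (l + k) l‖ₑ ≤ ∑' j, ‖(A (l + k) j).comp (B j l)‖ₑ := by
    exact enorm_tsum_le_tsum_enorm (f := fun j => (A (l + k) j).comp (B j l))
  refine h0.trans ?_
  rw [← (Equiv.addLeft l).tsum_eq fun j => ‖(A (l + k) j).comp (B j l)‖ₑ]
  refine ENNReal.tsum_le_tsum fun i => ?_
  refine (enorm_comp_le _ _).trans ?_
  have h1 := le_env A (l + k) (Equiv.addLeft l i)
  have h2 := le_env B (Equiv.addLeft l i) l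
  rw [Equiv.coe_addLeft] at h1 h2 ⊢
  rw [add_sub_add_left_eq_sub] at h1
  rw [add_sub_cancel_left] at h2
  exact mul_le_mul' h1 h2

end aux

end I10

open I10 in
theorem pr_W10 : W10 := by
  intro Γ E F G _ _ _ _ _ _ _ _ c hc
  refine ⟨?_, ?_, ?_, ?_, ?_, ?_, ?_, ?_⟩
  · intro A B
    exact conv_le hc (env A) (env B) (env (kcomp A B)) (env_kcomp A B)
  · intro A f
    refine conv_le hc (env A) (fun m => ‖f m‖ₑ) (fun m => ‖act A f m‖ₑ) fun m => ?_
    unfold act
    refine enorm_tsum_le_tsum_enorm.trans (ENNReal.tsum_le_tsum fun l => ?_)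
    exact (enorm_apply_le _ _).trans (mul_le_mul_left (le_env A m l) _)
  · intro β f g
    have h := conv_le hc (fun m => ‖β‖ₑ * ‖f m‖ₑ) (fun m => ‖g m‖ₑ)
      (fun m => ‖conv β f g m‖ₑ) (fun m => by
        unfold conv
        refine enorm_tsum_le_tsum_enorm.trans (ENNReal.tsum_le_tsum fun l => ?_)
        exact (enorm_apply_le _ _).trans (mul_le_mul_left (enorm_apply_le _ _) _))
    refine h.trans (le_of_eq ?_)
    unfold sN wt
    congr 1
    rw [← ENNReal.tsum_mul_left]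
    exact tsum_congr fun m => by ring
  · intro a
    unfold sK sN mulK
    refine tsum_congr fun k => ?_
    simp only [add_sub_cancel_left, iSup_const]
  · intro a b hb
    unfold sK
    rw [tsum_eq_single 0]
    · rw [len_zero, mul_zero, Real.exp_zero, ENNReal.ofReal_one, one_mul]
      refine iSup_le fun l => ?_
      unfold diagK
      rw [add_zero, if_pos rfl]
      exact hb l
    · intro k hk
      have h : ∀ l, ‖diagK a (l + k) l‖ₑ = 0 := by
        intro l
        unfold diagK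
        rw [if_neg]
        · exact enorm_zero (E := E →L[ℂ] F)
        · intro h
          exact hk (by simpa using h)
      simp only [h, ENNReal.iSup_zero, mul_zero]
  · intro A B
    unfold sK
    rw [← ENNReal.tsum_add]
    refine ENNReal.tsum_le_tsum fun k => ?_
    rw [← mul_add]
    refine mul_le_mul_right (iSup_le fun l => ?_) _
    refine (enorm_add_le (A (l + k) l) (B (l + k) l)).trans (add_le_add ?_ ?_)
    · exact le_iSup (fun l => ‖A (l + k) l‖ₑ) l
    · exact le_iSup (fun l => ‖B (l + k) l‖ₑ) l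
  · intro c' hc'
    exact ⟨fun A => ENNReal.tsum_le_tsum fun k => mul_le_mul_left (wt_mono hc' k) _,
      fun f => ENNReal.tsum_le_tsum fun k => mul_le_mul_left (wt_mono hc' k) _⟩
  · intro A m l
    refine le_trans ?_ (ENNReal.le_tsum (m - l))
    exact mul_le_mul_right (le_env A m l) _

end Pool.Agent.Work.MP_b0497c_an.Unf.W
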