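import Pool.Agent.Work.MP_b0497c_an.Unf.SStmts2
import Pool.Agent.Work.MP_b0497c_an.Bd.B03
import Pool.Agent.Work.MP_b0497c_an.Unf.W10
import Pool.Agent.Work.MP_b0497c_an.Bd.B04

set_option autoImplicit false

/-!
# S23: the linear problem with a propagator (Duhamel formula, uniqueness)
-/

open scoped ENNReal Topology
open Set MeasureTheory Filter

namespace Pool.Agent.Work.MP_b0497c_an.Unf.S

open W

namespace S23p

/-- Termwise differentiation on an interval. -/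
theorem hasDerivWithinAt_tsum {ι F : Type} [NormedAddCommGroup F] [NormedSpace ℝ F]
    [CompleteSpace F] {T : ℝ} {g g' : ℝ → ι → F} {b u : ι → ℝ} (hb : Summable b)
    (hu : Summable u)
    (hg : ∀ t ∈ Icc 0 T, ∀ i, HasDerivWithinAt (fun t => g t i) (g' t i) (Icc 0 T) t)
    (hgb : ∀ t ∈ Icc 0 T, ∀ i, ‖g t i‖ ≤ b i) (hg'b : ∀ t ∈ Icc 0 T, ∀ i, ‖g' t i‖ ≤ u i)
    {t : ℝ} (ht : t ∈ Icc 0 T) :
    HasDerivWithinAt (fun t => ∑' i, g t i) (∑' i, g' t i) (Icc 0 T) t := by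
  rw [hasDerivWithinAt_iff_tendsto_slope]
  have hs : ∀ t' ∈ Icc 0 T, Summable (g t') := fun t' ht' =>
    hb.of_norm_bounded (hgb t' ht')
  have h1 : ∀ t' ∈ Icc 0 T,
      ∑' i, slope (fun t => g t i) t t' = slope (fun t => ∑' i, g t i) t t' := by
    intro t' ht'
    simp only [slope_def_module]
    rw [← (hs t' ht').tsum_sub (hs t ht), tsum_const_smul'']
  have h2 : Tendsto (fun t' => ∑' i, slope (fun t => g t i) t t') (𝓝[Icc 0 T \ {t}] t)
      (𝓝 (∑' i, g' t i)) := by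
    refine tendsto_tsum_of_dominated_convergence hu (fun i => ?_) ?_
    · exact hasDerivWithinAt_iff_tendsto_slope.1 (hg t ht i)
    · filter_upwards [self_mem_nhdsWithin] with t' ht' i
      have hne : t' ≠ t := ht'.2
      have hne' : 0 < |t' - t| := abs_pos.2 (sub_ne_zero.2 hne)
      have h3 := Convex.norm_image_sub_le_of_norm_hasDerivWithin_le
        (f := fun t => g t i) (f' := fun t => g' t i) (C := u i)
        (fun x hx => hg x hx i) (fun x hx => hg'b x hx i) (convex_Icc 0 T) ht ht'.1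
      rw [slope_def_module, norm_smul, norm_inv, Real.norm_eq_abs]
      rw [Real.norm_eq_abs] at h3
      rw [inv_mul_le_iff₀ hne', mul_comm]
      exact h3
  refine h2.congr' ?_
  filter_upwards [self_mem_nhdsWithin] with t' ht'
  exact h1 t' ht'.1

/-- Leibniz rule with a variable upper limit. -/
theorem leibniz {E : Type} [NormedAddCommGroup E] [NormedSpace ℝ E] [CompleteSpace E] {T : ℝ}
    {G H : ℝ → ℝ → E} (hG : ContinuousOn (fun q : ℝ × ℝ => G q.1 q.2) (Icc 0 T ×ˢ Icc 0 T))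
    (hH : ContinuousOn (fun q : ℝ × ℝ => H q.1 q.2) (Icc 0 T ×ˢ Icc 0 T))
    (hd : ∀ s ∈ Icc 0 T, ∀ t ∈ Icc 0 T, HasDerivWithinAt (fun t => G t s) (H t s) (Icc 0 T) t)
    {t : ℝ} (ht : t ∈ Icc 0 T) :
    HasDerivWithinAt (fun t => ∫ s in (0 : ℝ)..t, G t s) (G t t + ∫ s in (0 : ℝ)..t, H t s)
      (Icc 0 T) t := by
  have hT : 0 ≤ T := ht.1.trans ht.2
  rw [hasDerivWithinAt_iff_isLittleO, Asymptotics.isLittleO_iff]
  intro ε hε
  have hcomp : IsCompact (Icc 0 T ×ˢ Icc (0 : ℝ) T) := isCompact_Icc.prod isCompact_Icc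
  have hGu := hcomp.uniformContinuousOn_of_continuous hG
  have hHu := hcomp.uniformContinuousOn_of_continuous hH
  rw [Metric.uniformContinuousOn_iff] at hGu hHu
  obtain ⟨δ1, hδ1, h1⟩ := hGu (ε / 2) (by positivity)
  obtain ⟨δ2, hδ2, h2⟩ := hHu (ε / (2 * (T + 1))) (by positivity)
  have hev : ∀ᶠ t' in 𝓝[Icc 0 T] t, t' ∈ Icc 0 T ∧ |t' - t| < min δ1 δ2 := by
    refine (eventually_mem_nhdsWithin).and ?_
    refine eventually_nhdsWithin_of_eventually_nhds ?_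
    have := Metric.ball_mem_nhds t (lt_min hδ1 hδ2)
    filter_upwards [this] with x hx
    rwa [Metric.mem_ball, Real.dist_eq] at hx
  -- integrability
  have hGi : ∀ τ ∈ Icc 0 T, ∀ a ∈ Icc 0 T, ∀ b ∈ Icc 0 T,
      IntervalIntegrable (fun s => G τ s) volume a b := by
    intro τ hτ a ha b hb
    apply ContinuousOn.intervalIntegrable
    have : ContinuousOn (fun s => G τ s) (Icc 0 T) :=
      hG.comp (f := fun s : ℝ => (τ, s)) (by fun_prop) (fun s hs => ⟨hτ, hs⟩)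
    exact this.mono (fun x hx => (ordConnected_Icc (a := (0 : ℝ)) (b := T)).uIcc_subset ha hb hx)
  have hHi : ∀ τ ∈ Icc 0 T, ∀ a ∈ Icc 0 T, ∀ b ∈ Icc 0 T,
      IntervalIntegrable (fun s => H τ s) volume a b := by
    intro τ hτ a ha b hb
    apply ContinuousOn.intervalIntegrable
    have : ContinuousOn (fun s => H τ s) (Icc 0 T) :=
      hH.comp (f := fun s : ℝ => (τ, s)) (by fun_prop) (fun s hs => ⟨hτ, hs⟩)
    exact this.mono (fun x hx => (ordConnected_Icc (a := (0 : ℝ)) (b := T)).uIcc_subset ha hb hx)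
  have h0 : (0 : ℝ) ∈ Icc 0 T := ⟨le_rfl, hT⟩
  filter_upwards [hev] with t' ht'
  obtain ⟨ht', hlt⟩ := ht'
  have hlt1 : |t' - t| < δ1 := lt_of_lt_of_le hlt (min_le_left _ _)
  have hlt2 : |t' - t| < δ2 := lt_of_lt_of_le hlt (min_le_right _ _)
  have hdec : (∫ s in (0 : ℝ)..t', G t' s) - (∫ s in (0 : ℝ)..t, G t s) -
      (t' - t) • (G t t + ∫ s in (0 : ℝ)..t, H t s) =
      (∫ s in (0 : ℝ)..t, (G t' s - G t s - (t' - t) • H t s)) +
      ∫ s in t..t', (G t' s - G t t) := by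
    have hsm : IntervalIntegrable (fun s => (t' - t) • H t s) volume 0 t :=
      (hHi t ht 0 h0 t ht).smul (t' - t)
    have hsb : IntervalIntegrable (fun s => G t' s - G t s) volume 0 t :=
      (hGi t' ht' 0 h0 t ht).sub (hGi t ht 0 h0 t ht)
    rw [intervalIntegral.integral_sub hsb hsm, intervalIntegral.integral_sub (hGi t' ht' 0 h0 t ht)
      (hGi t ht 0 h0 t ht), intervalIntegral.integral_smul,
      intervalIntegral.integral_sub (hGi t' ht' t ht t' ht') intervalIntegrable_const,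
      intervalIntegral.integral_const,
      ← intervalIntegral.integral_add_adjacent_intervals (hGi t' ht' 0 h0 t ht)
        (hGi t' ht' t ht t' ht')]
    module
  rw [hdec]
  have hb1 : ‖∫ s in (0 : ℝ)..t, (G t' s - G t s - (t' - t) • H t s)‖ ≤
      (ε / (2 * (T + 1)) * |t' - t|) * |t - 0| := by
    refine intervalIntegral.norm_integral_le_of_norm_le_const fun s hs => ?_
    rw [uIoc_of_le ht.1] at hs
    have hsT : s ∈ Icc 0 T := ⟨hs.1.le, hs.2.trans ht.2⟩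
    have hsub : uIcc t t' ⊆ Icc 0 T := (ordConnected_Icc (a := (0 : ℝ)) (b := T)).uIcc_subset ht ht'
    have h3 := Convex.norm_image_sub_le_of_norm_hasDerivWithin_le
        (f := fun τ => G τ s - τ • H t s) (f' := fun τ => H τ s - H t s)
        (s := uIcc t t') (C := ε / (2 * (T + 1))) (x := t) (y := t')
        (fun x hx => ?_) (fun x hx => ?_) (convex_uIcc t t') left_mem_uIcc right_mem_uIcc
    · rw [Real.norm_eq_abs] at h3
      refine le_trans (le_of_eq ?_) h3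
      congr 1
      module
    · have h4 := (hd s hsT x (hsub hx)).mono hsub
      have h5 : HasDerivWithinAt (fun τ : ℝ => τ • H t s) ((1 : ℝ) • H t s) (uIcc t t') x :=
        (hasDerivWithinAt_id x _).smul_const (H t s)
      rw [one_smul] at h5
      exact h4.sub h5
    · have h6 : dist ((x, s) : ℝ × ℝ) (t, s) < δ2 := by
        rw [Prod.dist_eq, dist_self, max_eq_left dist_nonneg, Real.dist_eq]
        refine lt_of_le_of_lt ?_ hlt2
        have := abs_sub_left_of_mem_uIcc hx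
        exact this
      have h7 := h2 (x, s) ⟨hsub hx, hsT⟩ (t, s) ⟨ht, hsT⟩ h6
      rw [dist_eq_norm] at h7
      exact h7.le
  have hb2 : ‖∫ s in t..t', (G t' s - G t t)‖ ≤ (ε / 2) * |t' - t| := by
    refine intervalIntegral.norm_integral_le_of_norm_le_const fun s hs => ?_
    have hs' : s ∈ uIcc t t' := uIoc_subset_uIcc hs
    have hsub : uIcc t t' ⊆ Icc 0 T := (ordConnected_Icc (a := (0 : ℝ)) (b := T)).uIcc_subset ht ht'
    have h6 : dist ((t', s) : ℝ × ℝ) (t, t) < δ1 := by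
      rw [Prod.dist_eq, Real.dist_eq, Real.dist_eq]
      refine max_lt hlt1 (lt_of_le_of_lt ?_ hlt1)
      exact abs_sub_left_of_mem_uIcc hs'
    have h7 := h1 (t', s) ⟨ht', hsub hs'⟩ (t, t) ⟨ht, ht⟩ h6
    rw [dist_eq_norm] at h7
    exact h7.le
  refine (norm_add_le _ _).trans ((add_le_add hb1 hb2).trans ?_)
  rw [Real.norm_eq_abs, sub_zero, abs_of_nonneg ht.1]
  have h8 : ε / (2 * (T + 1)) * t ≤ ε / 2 := by
    rw [div_mul_eq_mul_div, div_le_div_iff₀ (by positivity) (by positivity)]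
    nlinarith [ht.2, hε]
  nlinarith [abs_nonneg (t' - t)]

/-- Working form of the hypotheses. -/
structure Hy (T : ℝ) (L : ℝ → Md → Md → Mat) (S : ℝ → ℝ → Md → Md → Mat) (lb : Md → ℝ≥0∞)
    (B : ℝ≥0∞) : Prop where
  lb_sum : ∑' k, lb k ≠ ∞
  lb_le : ∀ t ∈ Icc 0 T, ∀ q j, ‖L t q j‖ₑ ≤ lb (q - j)
  L_cont : CK T L
  L_fin : ∀ t ∈ Icc 0 T, sK 0 (L t) ≠ ∞
  prop : IsProp T L S
  B_fin : B ≠ ∞
  B_le : ∀ t ∈ Icc 0 T, ∀ s ∈ Icc 0 T, sK 0 (S t s) ≤ B

theorem entry_le_sK (A : Md → Md → Mat) (m l : Md) : ‖A m l‖ₑ ≤ sK 0 A := by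
  unfold sK
  refine le_trans ?_ (ENNReal.le_tsum (m - l))
  rw [zero_mul, Real.exp_zero, ENNReal.ofReal_one, one_mul]
  refine le_trans ?_ (le_iSup (fun l' => ‖A (l' + (m - l)) l'‖ₑ) l)
  rw [add_sub_cancel]

theorem sN_zero {E : Type} [NormedAddCommGroup E] (f : Md → E) : sN 0 f = ∑' l, ‖f l‖ₑ := by
  unfold sN
  simp

variable {T : ℝ} {L : ℝ → Md → Md → Mat} {S : ℝ → ℝ → Md → Md → Mat} {lb : Md → ℝ≥0∞} {B : ℝ≥0∞}

theorem act_enorm_le {A : Md → Md → Mat} {f : Md → C3} {fb : Md → ℝ≥0∞} (hA : sK 0 A ≤ B)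
    (hf : ∀ l, ‖f l‖ₑ ≤ fb l) (q : Md) : ‖act A f q‖ₑ ≤ B * ∑' l, fb l := by
  unfold act
  refine (enorm_tsum_le_tsum_enorm).trans ?_
  rw [← ENNReal.tsum_mul_left]
  refine ENNReal.tsum_le_tsum fun l => ?_
  refine ((A q l).le_opENorm (f l)).trans ?_
  exact mul_le_mul' ((entry_le_sK A q l).trans hA) (hf l)

theorem lb_shift (lb : Md → ℝ≥0∞) (q : Md) : ∑' j, lb (q - j) = ∑' k, lb k :=
  (Equiv.subLeft q).tsum_eq lb

theorem enorm_le_toReal {E : Type} [NormedAddCommGroup E] {x : E} {a : ℝ≥0∞} (ha : a ≠ ∞)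
    (h : ‖x‖ₑ ≤ a) : ‖x‖ ≤ a.toReal := by
  rw [← toReal_enorm]
  exact ENNReal.toReal_mono ha h

theorem continuousOn_tsum_enorm {X ι F : Type} [TopologicalSpace X] [NormedAddCommGroup F]
    [CompleteSpace F] {s : Set X} {g : X → ι → F} {u : ι → ℝ≥0∞}
    (hg : ∀ l, ContinuousOn (fun t => g t l) s)
    (hu : ∀ t ∈ s, ∀ l, ‖g t l‖ₑ ≤ u l) (hs : ∑' l, u l ≠ ∞) :
    ContinuousOn (fun t => ∑' l, g t l) s := by
  refine continuousOn_tsum (u := fun l => (u l).toReal) hg (ENNReal.summable_toReal hs) ?_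
  intro l t ht
  exact enorm_le_toReal (ENNReal.ne_top_of_tsum_ne_top hs l) (hu t ht l)

theorem G_cont (h : Hy T L S lb B) {f : ℝ → Md → C3} (hf : CM T f) {fb : Md → ℝ≥0∞}
    (hfb : ∑' l, fb l ≠ ∞) (hle : ∀ t ∈ Icc 0 T, ∀ l, ‖f t l‖ₑ ≤ fb l) (q : Md) :
    ContinuousOn (fun p : ℝ × ℝ => act (S p.1 p.2) (f p.2) q) (Icc 0 T ×ˢ Icc 0 T) := by
  unfold act
  refine continuousOn_tsum_enorm (g := fun (p : ℝ × ℝ) l => S p.1 p.2 q l (f p.2 l))
    (u := fun l => B * fb l) (fun l => ?_) (fun p hp l => ?_) ?_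
  · refine (h.prop.cont q l).clm_apply ?_
    exact (hf l).comp (f := fun p : ℝ × ℝ => p.2) (by fun_prop) (fun p hp => hp.2)
  · refine ((S p.1 p.2 q l).le_opENorm (f p.2 l)).trans ?_
    exact mul_le_mul' ((entry_le_sK _ q l).trans (h.B_le p.1 hp.1 p.2 hp.2)) (hle p.2 hp.2 l)
  · rw [ENNReal.tsum_mul_left]
    exact ENNReal.mul_ne_top h.B_fin hfb

theorem H_cont (h : Hy T L S lb B) {f : ℝ → Md → C3} (hf : CM T f) {fb : Md → ℝ≥0∞}
    (hfb : ∑' l, fb l ≠ ∞) (hle : ∀ t ∈ Icc 0 T, ∀ l, ‖f t l‖ₑ ≤ fb l) (q : Md) :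
    ContinuousOn (fun p : ℝ × ℝ => act (L p.1) (act (S p.1 p.2) (f p.2)) q)
      (Icc 0 T ×ˢ Icc 0 T) := by
  have hact : ∀ p : ℝ × ℝ, act (L p.1) (act (S p.1 p.2) (f p.2)) q =
      ∑' j, L p.1 q j (act (S p.1 p.2) (f p.2) j) := fun p => rfl
  simp only [hact]
  refine continuousOn_tsum_enorm
    (g := fun (p : ℝ × ℝ) j => L p.1 q j (act (S p.1 p.2) (f p.2) j))
    (u := fun j => lb (q - j) * (B * ∑' l, fb l)) (fun j => ?_) (fun p hp j => ?_) ?_
  · refine ContinuousOn.clm_apply ?_ (G_cont h hf hfb hle j)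
    exact (h.L_cont q j).comp (f := fun p : ℝ × ℝ => p.1) (by fun_prop) (fun p hp => hp.1)
  · refine ((L p.1 q j).le_opENorm _).trans ?_
    exact mul_le_mul' (h.lb_le p.1 hp.1 q j)
      (act_enorm_le (h.B_le p.1 hp.1 p.2 hp.2) (hle p.2 hp.2) j)
  · rw [ENNReal.tsum_mul_right, lb_shift]
    exact ENNReal.mul_ne_top h.lb_sum (ENNReal.mul_ne_top h.B_fin hfb)

theorem G_deriv (h : Hy T L S lb B) {f : ℝ → Md → C3} {fb : Md → ℝ≥0∞}
    (hfb : ∑' l, fb l ≠ ∞) {s : ℝ} (hs : s ∈ Icc 0 T) (hle : ∀ l, ‖f s l‖ₑ ≤ fb l) (q : Md)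
    {t : ℝ} (ht : t ∈ Icc 0 T) :
    HasDerivWithinAt (fun t => act (S t s) (f s) q) (act (L t) (act (S t s) (f s)) q)
      (Icc 0 T) t := by
  have hfs : sN 0 (f s) ≠ ∞ := by
    rw [sN_zero]
    exact ne_top_of_le_ne_top hfb (ENNReal.tsum_le_tsum hle)
  have h1 : act (L t) (act (S t s) (f s)) = act (kcomp (L t) (S t s)) (f s) :=
    ((pr_W11 Md C3 C3 C3 C3).2.1 (L t) (S t s) (f s) (h.L_fin t ht)
      (ne_top_of_le_ne_top h.B_fin (h.B_le t ht s hs)) hfs).symm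
  rw [h1]
  unfold act
  have hk : ∀ τ ∈ Icc 0 T, ∀ l, ‖kcomp (L τ) (S τ s) q l‖ₑ ≤ (∑' k, lb k) * B := by
    intro τ hτ l
    refine (enorm_tsum_le_tsum_enorm (f := fun j => (L τ q j).comp (S τ s j l))).trans ?_
    rw [← lb_shift lb q, ← ENNReal.tsum_mul_right]
    refine ENNReal.tsum_le_tsum fun j => ?_
    refine (ContinuousLinearMap.opENorm_comp_le (L τ q j) (S τ s j l)).trans ?_
    exact mul_le_mul' (h.lb_le τ hτ q j) ((entry_le_sK _ j l).trans (h.B_le τ hτ s hs))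
  have hfin1 : ∑' l, B * fb l ≠ ∞ := by
    rw [ENNReal.tsum_mul_left]
    exact ENNReal.mul_ne_top h.B_fin hfb
  have hfin2 : ∑' l, ((∑' k, lb k) * B) * fb l ≠ ∞ := by
    rw [ENNReal.tsum_mul_left]
    exact ENNReal.mul_ne_top (ENNReal.mul_ne_top h.lb_sum h.B_fin) hfb
  refine hasDerivWithinAt_tsum (g := fun t l => S t s q l (f s l))
    (g' := fun t l => kcomp (L t) (S t s) q l (f s l))
    (b := fun l => (B * fb l).toReal) (u := fun l => (((∑' k, lb k) * B) * fb l).toReal)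
    (ENNReal.summable_toReal hfin1) (ENNReal.summable_toReal hfin2) ?_ ?_ ?_ ht
  · intro τ hτ l
    exact ((ContinuousLinearMap.apply ℂ C3 (f s l)).restrictScalars ℝ).hasFDerivAt.comp_hasDerivWithinAt
      τ (h.prop.der s hs τ hτ q l)
  · intro τ hτ l
    refine enorm_le_toReal (ENNReal.ne_top_of_tsum_ne_top hfin1 l) ?_
    refine ((S τ s q l).le_opENorm (f s l)).trans ?_
    exact mul_le_mul' ((entry_le_sK _ q l).trans (h.B_le τ hτ s hs)) (hle l)
  · intro τ hτ l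
    refine enorm_le_toReal (ENNReal.ne_top_of_tsum_ne_top hfin2 l) ?_
    refine ((kcomp (L τ) (S τ s) q l).le_opENorm (f s l)).trans ?_
    exact mul_le_mul' (hk τ hτ l) (hle l)

/-- The kernel `L t` passes through the Duhamel integral. -/
theorem swap (h : Hy T L S lb B) {f : ℝ → Md → C3} (hf : CM T f) {fb : Md → ℝ≥0∞}
    (hfb : ∑' l, fb l ≠ ∞) (hle : ∀ t ∈ Icc 0 T, ∀ l, ‖f t l‖ₑ ≤ fb l) (q : Md)
    {t : ℝ} (ht : t ∈ Icc 0 T) :
    HasSum (fun j => L t q j (∫ s in (0 : ℝ)..t, act (S t s) (f s) j))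
      (∫ s in (0 : ℝ)..t, act (L t) (act (S t s) (f s)) q) := by
  have hcs : ∀ j, ContinuousOn (fun s => act (S t s) (f s) j) (Icc 0 t) := fun j =>
    (G_cont h hf hfb hle j).comp (f := fun s : ℝ => (t, s)) (by fun_prop)
      (fun s hs => ⟨ht, ⟨hs.1, hs.2.trans ht.2⟩⟩)
  have hfin : ∑' j, lb (q - j) * (B * ∑' l, fb l) ≠ ∞ := by
    rw [ENNReal.tsum_mul_right, lb_shift]
    exact ENNReal.mul_ne_top h.lb_sum (ENNReal.mul_ne_top h.B_fin hfb)
  have h1 : ∀ j, L t q j (∫ s in (0 : ℝ)..t, act (S t s) (f s) j) =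
      ∫ s in (0 : ℝ)..t, L t q j (act (S t s) (f s) j) := by
    intro j
    refine ((L t q j).intervalIntegral_comp_comm ?_).symm
    apply ContinuousOn.intervalIntegrable
    rw [uIcc_of_le ht.1]
    exact hcs j
  simp only [h1]
  have hle' : ∀ j, ∀ s ∈ Ioc 0 t, ‖L t q j (act (S t s) (f s) j)‖ ≤
      (lb (q - j) * (B * ∑' l, fb l)).toReal := by
    intro j s hs
    have hsT : s ∈ Icc 0 T := ⟨hs.1.le, hs.2.trans ht.2⟩
    refine enorm_le_toReal (ENNReal.ne_top_of_tsum_ne_top hfin j) ?_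
    refine ((L t q j).le_opENorm _).trans ?_
    exact mul_le_mul' (h.lb_le t ht q j) (act_enorm_le (h.B_le t ht s hsT) (hle s hsT) j)
  refine intervalIntegral.hasSum_integral_of_dominated_convergence
    (fun j _ => (lb (q - j) * (B * ∑' l, fb l)).toReal) (fun j => ?_) (fun j => ?_) ?_ ?_ ?_
  · rw [uIoc_of_le ht.1]
    refine ContinuousOn.aestronglyMeasurable ?_ measurableSet_Ioc
    exact ((L t q j).continuous.comp_continuousOn (hcs j)).mono Ioc_subset_Icc_self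
  · refine ae_of_all _ fun s hs => ?_
    rw [uIoc_of_le ht.1] at hs
    exact hle' j s hs
  · exact ae_of_all _ fun s _ => ENNReal.summable_toReal hfin
  · exact intervalIntegrable_const
  · refine ae_of_all _ fun s hs => ?_
    rw [uIoc_of_le ht.1] at hs
    refine Summable.hasSum ?_
    exact (ENNReal.summable_toReal hfin).of_norm_bounded (fun j => hle' j s hs)

/-- The Duhamel formula solves the equation. -/
theorem W_deriv (h : Hy T L S lb B) (h0T : 0 ≤ T) {Q : ℝ → Md → C3} (hQ : CM T Q)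
    {qb : Md → ℝ≥0∞} (hqb : ∑' l, qb l ≠ ∞) (hle : ∀ t ∈ Icc 0 T, ∀ l, ‖Q t l‖ₑ ≤ qb l)
    {w0 : Md → C3} (hw0 : sN 0 w0 ≠ ∞) (q : Md) {t : ℝ} (ht : t ∈ Icc 0 T) :
    HasDerivWithinAt (fun t => act (S t 0) w0 q + ∫ s in (0 : ℝ)..t, act (S t s) (Q s) q)
      (act (L t) (fun q => act (S t 0) w0 q + ∫ s in (0 : ℝ)..t, act (S t s) (Q s) q) q + Q t q)
      (Icc 0 T) t := by
  have h0 : (0 : ℝ) ∈ Icc 0 T := ⟨le_rfl, h0T⟩
  rw [sN_zero] at hw0
  have hd1 := G_deriv h (f := fun _ => w0) hw0 h0 (fun l => le_rfl) q ht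
  have hd2 := leibniz (G := fun t s => act (S t s) (Q s) q)
    (H := fun t s => act (L t) (act (S t s) (Q s)) q) (G_cont h hQ hqb hle q)
    (H_cont h hQ hqb hle q)
    (fun s hs t ht => G_deriv h hqb hs (hle s hs) q ht) ht
  have hd := hd1.add hd2
  have hsum := swap h hQ hqb hle q ht
  have hfin : ∑' j, lb (q - j) * (B * ∑' l, ‖w0 l‖ₑ) ≠ ∞ := by
    rw [ENNReal.tsum_mul_right, lb_shift]
    exact ENNReal.mul_ne_top h.lb_sum (ENNReal.mul_ne_top h.B_fin hw0)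
  have hsum0 : Summable (fun j => L t q j (act (S t 0) w0 j)) := by
    refine (ENNReal.summable_toReal hfin).of_norm_bounded (fun j => ?_)
    refine enorm_le_toReal (ENNReal.ne_top_of_tsum_ne_top hfin j) ?_
    refine ((L t q j).le_opENorm _).trans ?_
    exact mul_le_mul' (h.lb_le t ht q j) (act_enorm_le (h.B_le t ht 0 h0) (fun l => le_rfl) j)
  have hval : act (L t) (fun q => act (S t 0) w0 q + ∫ s in (0 : ℝ)..t, act (S t s) (Q s) q) q =
      act (L t) (act (S t 0) w0) q + ∫ s in (0 : ℝ)..t, act (L t) (act (S t s) (Q s)) q := by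
    unfold act at hsum0 hsum ⊢
    rw [← hsum.tsum_eq, ← hsum0.tsum_add hsum.summable]
    refine tsum_congr fun j => ?_
    exact map_add _ _ _
  have hdiag : act (S t t) (Q t) q = Q t q := by
    rw [h.prop.diag t ht]
    exact (pr_W11 Md C3 C3 C3 C3).2.2.2.2.2 _ _ _
  rw [hval]
  rw [hdiag] at hd
  refine HasDerivWithinAt.congr_deriv (f := fun t => act (S t 0) w0 q +
    ∫ s in (0 : ℝ)..t, act (S t s) (Q s) q) hd ?_
  abel

/-- Size of the Duhamel formula, mode sums at fixed time. -/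
theorem W_sum (h : Hy T L S lb B) (h0T : 0 ≤ T) {Q : ℝ → Md → C3} (hQ : CM T Q)
    {qb : Md → ℝ≥0∞} (hqb : ∑' l, qb l ≠ ∞) (hle : ∀ t ∈ Icc 0 T, ∀ l, ‖Q t l‖ₑ ≤ qb l)
    {w0 : Md → C3} {t : ℝ} (ht : t ∈ Icc 0 T) :
    ∑' q, ‖act (S t 0) w0 q + ∫ s in (0 : ℝ)..t, act (S t s) (Q s) q‖ₑ ≤
      B * (∑' l, ‖w0 l‖ₑ) + ENNReal.ofReal T * (B * ∑' l, qb l) := by
  have h0 : (0 : ℝ) ∈ Icc 0 T := ⟨le_rfl, h0T⟩
  have hs : ∀ (A : Md → Md → Mat) (f : Md → C3), sK 0 A ≤ B →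
      ∑' q, ‖act A f q‖ₑ ≤ B * ∑' l, ‖f l‖ₑ := by
    intro A f hA
    rw [← sN_zero, ← sN_zero]
    exact ((pr_W10 Md C3 C3 C3 0 le_rfl).2.1 A f).trans (mul_le_mul' hA le_rfl)
  have h1 : ∀ q, ‖act (S t 0) w0 q + ∫ s in (0 : ℝ)..t, act (S t s) (Q s) q‖ₑ ≤
      ‖act (S t 0) w0 q‖ₑ + ∫⁻ s in Ioc 0 t, ‖act (S t s) (Q s) q‖ₑ := by
    intro q
    refine (enorm_add_le _ _).trans ?_
    gcongr
    rw [intervalIntegral.integral_of_le ht.1]
    exact enorm_integral_le_lintegral_enorm _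
  refine (ENNReal.tsum_le_tsum h1).trans ?_
  rw [ENNReal.tsum_add]
  refine add_le_add (hs _ _ (h.B_le t ht 0 h0)) ?_
  rw [← lintegral_tsum]
  · have h2 : ∀ s ∈ Ioc 0 t, ∑' q, ‖act (S t s) (Q s) q‖ₑ ≤ B * ∑' l, qb l := by
      intro s hs'
      have hsT : s ∈ Icc 0 T := ⟨hs'.1.le, hs'.2.trans ht.2⟩
      refine (hs _ _ (h.B_le t ht s hsT)).trans ?_
      gcongr with l
      exact hle s hsT l
    refine (setLIntegral_mono' measurableSet_Ioc h2).trans ?_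
    rw [setLIntegral_const, Real.volume_Ioc, mul_comm, sub_zero]
    gcongr
    exact ht.2
  · intro q
    have hc : ContinuousOn (fun s => act (S t s) (Q s) q) (Icc 0 t) :=
      (G_cont h hQ hqb hle q).comp (f := fun s : ℝ => (t, s)) (by fun_prop)
        (fun s hs => ⟨ht, ⟨hs.1, hs.2.trans ht.2⟩⟩)
    exact ((hc.mono Ioc_subset_Icc_self).aestronglyMeasurable measurableSet_Ioc).enorm

/-- Gronwall for mode sums. -/
theorem gronwall {lb : Md → ℝ≥0∞} {L : ℝ → Md → Md → Mat} {T : ℝ} (h0T : 0 ≤ T)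
    (lb_sum : ∑' k, lb k ≠ ∞) (lb_le : ∀ t ∈ Icc 0 T, ∀ q j, ‖L t q j‖ₑ ≤ lb (q - j))
    (L_cont : CK T L) {D : ℝ → Md → C3} (hD : CM T D) {Y : ℝ≥0∞} (hY : Y ≠ ∞)
    (hDY : ∀ t ∈ Icc 0 T, ∑' q, ‖D t q‖ₑ ≤ Y) (hD0 : D 0 = 0)
    (hd : ∀ q, ∀ t ∈ Icc 0 T, HasDerivWithinAt (fun t => D t q) (act (L t) (D t) q) (Icc 0 T) t) :
    ∀ t ∈ Icc 0 T, D t = 0 := by
  -- continuity of the right hand side
  have hc : ∀ q, ContinuousOn (fun t => act (L t) (D t) q) (Icc 0 T) := by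
    intro q
    refine continuousOn_tsum_enorm (g := fun (t : ℝ) j => L t q j (D t j))
      (u := fun j => lb (q - j) * Y) (fun j => (L_cont q j).clm_apply (hD j))
      (fun t ht j => ?_) ?_
    · refine ((L t q j).le_opENorm _).trans ?_
      exact mul_le_mul' (lb_le t ht q j) ((ENNReal.le_tsum j).trans (hDY t ht))
    · rw [ENNReal.tsum_mul_right, lb_shift]
      exact ENNReal.mul_ne_top lb_sum hY
  set Λ : ℝ≥0∞ := ∑' k, lb k with hΛ
  have hact : ∀ t ∈ Icc 0 T, ∑' q, ‖act (L t) (D t) q‖ₑ ≤ Λ * ∑' q, ‖D t q‖ₑ := by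
    intro t ht
    have h1 : ∀ q, ‖act (L t) (D t) q‖ₑ ≤ ∑' j, lb (q - j) * ‖D t j‖ₑ := by
      intro q
      refine (enorm_tsum_le_tsum_enorm (f := fun j => L t q j (D t j))).trans ?_
      refine ENNReal.tsum_le_tsum fun j => ?_
      exact ((L t q j).le_opENorm _).trans (mul_le_mul' (lb_le t ht q j) le_rfl)
    refine (ENNReal.tsum_le_tsum h1).trans ?_
    rw [W07.tsum_conv]
  -- integral inequality
  have hint : ∀ t ∈ Icc 0 T, ∑' q, ‖D t q‖ₑ ≤ ∫⁻ s in Ioc 0 t, Λ * ∑' q, ‖D s q‖ₑ := by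
    intro t ht
    have hsub : Icc 0 t ⊆ Icc 0 T := Icc_subset_Icc_right ht.2
    have h1 : ∀ q, ‖D t q‖ₑ ≤ ∫⁻ s in Ioc 0 t, ‖act (L s) (D s) q‖ₑ := by
      intro q
      have h2 : ∫ s in (0 : ℝ)..t, act (L s) (D s) q = D t q - D 0 q := by
        refine intervalIntegral.integral_eq_sub_of_hasDeriv_right_of_le ht.1
          ((hD q).mono hsub) (fun x hx => ?_) ?_
        · have hx' : x ∈ Icc 0 T := hsub (Ioo_subset_Icc_self hx)
          have hnh : Icc 0 T ∈ 𝓝 x := Icc_mem_nhds hx.1 (hx.2.trans_le ht.2)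
          exact ((hd q x hx').hasDerivAt hnh).hasDerivWithinAt
        · apply ContinuousOn.intervalIntegrable
          rw [uIcc_of_le ht.1]
          exact (hc q).mono hsub
      rw [hD0] at h2
      simp only [Pi.zero_apply, sub_zero] at h2
      rw [← h2, intervalIntegral.integral_of_le ht.1]
      exact enorm_integral_le_lintegral_enorm _
    refine (ENNReal.tsum_le_tsum h1).trans ?_
    rw [← lintegral_tsum]
    · exact setLIntegral_mono' measurableSet_Ioc fun s hs =>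
        hact s (hsub (Ioc_subset_Icc_self hs))
    · intro q
      exact (((hc q).mono (Ioc_subset_Icc_self.trans hsub)).aestronglyMeasurable
        measurableSet_Ioc).enorm
  -- exponential weight
  set lam : ℝ := 2 * Λ.toReal + 1 with hlam
  have hlam0 : 0 < lam := by positivity
  set z : ℝ≥0∞ := ⨆ t ∈ Icc 0 T, ENNReal.ofReal (Real.exp (-lam * t)) * ∑' q, ‖D t q‖ₑ with hz
  have hzY : z ≤ Y := by
    refine iSup₂_le fun t ht => ?_
    refine le_trans ?_ (hDY t ht)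
    refine mul_le_of_le_one_left zero_le ?_
    rw [← ENNReal.ofReal_one]
    apply ENNReal.ofReal_le_ofReal
    rw [Real.exp_le_one_iff]
    nlinarith [ht.1]
  have hz1 : z ≠ ∞ := ne_top_of_le_ne_top hY hzY
  have hzt : ∀ t ∈ Icc 0 T, ∑' q, ‖D t q‖ₑ ≤ ENNReal.ofReal (Real.exp (lam * t)) * z := by
    intro t ht
    have h1 : ENNReal.ofReal (Real.exp (-lam * t)) * ∑' q, ‖D t q‖ₑ ≤ z :=
      le_iSup₂ (f := fun t (_ : t ∈ Icc 0 T) =>
        ENNReal.ofReal (Real.exp (-lam * t)) * ∑' q, ‖D t q‖ₑ) t ht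
    calc ∑' q, ‖D t q‖ₑ = ENNReal.ofReal (Real.exp (lam * t)) *
          (ENNReal.ofReal (Real.exp (-lam * t)) * ∑' q, ‖D t q‖ₑ) := by
          rw [← mul_assoc, ← ENNReal.ofReal_mul (Real.exp_nonneg _), ← Real.exp_add]
          simp
      _ ≤ _ := by gcongr
  have hexp : ∀ t ∈ Icc 0 T, ∫⁻ s in Ioc 0 t, ENNReal.ofReal (Real.exp (lam * s)) ≤
      ENNReal.ofReal (Real.exp (lam * t) / lam) := by
    intro t ht
    have hcont : Continuous (fun s : ℝ => Real.exp (lam * s)) := by fun_prop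
    rw [← ofReal_integral_eq_lintegral_ofReal (hcont.integrableOn_Icc.mono_set
      Ioc_subset_Icc_self) (ae_of_all _ fun s => (Real.exp_pos _).le)]
    apply ENNReal.ofReal_le_ofReal
    rw [← intervalIntegral.integral_of_le ht.1]
    have h3 : ∫ s in (0 : ℝ)..t, Real.exp (lam * s) =
        Real.exp (lam * t) / lam - Real.exp (lam * 0) / lam := by
      refine intervalIntegral.integral_eq_sub_of_hasDerivAt
        (f := fun x : ℝ => Real.exp (lam * x) / lam) (fun x _ => ?_)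
        (hcont.intervalIntegrable _ _)
      have h4 : HasDerivAt (fun x : ℝ => lam * x) (lam * 1) x := (hasDerivAt_id x).const_mul lam
      have h5 := (h4.exp).div_const lam
      refine h5.congr_deriv ?_
      rw [mul_one, mul_div_assoc, div_self hlam0.ne', mul_one]
    rw [h3]
    have : 0 ≤ Real.exp (lam * 0) / lam := by positivity
    linarith
  have hz2 : z ≤ (Λ * ENNReal.ofReal (1 / lam)) * z := by
    refine iSup₂_le fun t ht => ?_
    have hsub : Icc 0 t ⊆ Icc 0 T := Icc_subset_Icc_right ht.2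
    have h1 : ∑' q, ‖D t q‖ₑ ≤ Λ * z * ENNReal.ofReal (Real.exp (lam * t) / lam) := by
      refine (hint t ht).trans ?_
      have h2 : ∀ s ∈ Ioc 0 t, Λ * ∑' q, ‖D s q‖ₑ ≤
          (Λ * z) * ENNReal.ofReal (Real.exp (lam * s)) := by
        intro s hs
        rw [mul_assoc, mul_comm z]
        gcongr
        exact hzt s (hsub (Ioc_subset_Icc_self hs))
      refine (setLIntegral_mono' measurableSet_Ioc h2).trans ?_
      rw [lintegral_const_mul _ (by fun_prop)]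
      gcongr
      exact hexp t ht
    calc ENNReal.ofReal (Real.exp (-lam * t)) * ∑' q, ‖D t q‖ₑ
        ≤ ENNReal.ofReal (Real.exp (-lam * t)) *
          (Λ * z * ENNReal.ofReal (Real.exp (lam * t) / lam)) := by gcongr
      _ = Λ * z * (ENNReal.ofReal (Real.exp (-lam * t)) *
          ENNReal.ofReal (Real.exp (lam * t) / lam)) := by ring
      _ = Λ * z * ENNReal.ofReal (1 / lam) := by
          rw [← ENNReal.ofReal_mul (Real.exp_nonneg _)]
          congr 2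
          rw [mul_div_assoc', ← Real.exp_add]
          simp
      _ = _ := by ring
  have hsmall : Λ * ENNReal.ofReal (1 / lam) < 1 := by
    rw [← ENNReal.ofReal_toReal lb_sum, ← ENNReal.ofReal_mul ENNReal.toReal_nonneg,
      ← ENNReal.ofReal_one]
    rw [ENNReal.ofReal_lt_ofReal_iff one_pos, mul_one_div, div_lt_one hlam0]
    have : 0 ≤ Λ.toReal := ENNReal.toReal_nonneg
    linarith
  have hz0 : z = 0 := by
    by_contra hne
    have : (Λ * ENNReal.ofReal (1 / lam)) * z < 1 * z :=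
      ENNReal.mul_lt_mul_left hne hz1 hsmall
    rw [one_mul] at this
    exact absurd hz2 (not_le.2 this)
  intro t ht
  have h6 := hzt t ht
  rw [hz0, mul_zero] at h6
  have h7 : ∀ q, ‖D t q‖ₑ = 0 := ENNReal.tsum_eq_zero.1 (le_antisymm h6 zero_le)
  funext q
  simpa using h7 q

/-- Propagation of the initial value in the solution norm. -/
theorem init_le {T c γ : ℝ} {ρ : ℝ → ℝ} (hp : Par T c γ) (hρ : Wt T ρ)
    (S : ℝ → ℝ → Md → Md → Mat) (w0 : Md → C3) :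
    Nrm T c γ ρ (fun t => act (S t 0) w0) ≤
      PN T c ρ ρ S * (ENNReal.ofReal (1 / ρ 0) * sN c w0) := by
  have h0 : (0 : ℝ) ∈ Icc 0 T := ⟨le_rfl, hp.T_pos.le⟩
  have hρ0 := hρ.pos 0 h0
  set P : Md → ℝ≥0∞ := fun k => ⨆ l, ⨆ t ∈ Icc 0 T, ⨆ s ∈ Icc 0 t,
    ENNReal.ofReal (ρ s / ρ t) * ‖S t s (l + k) l‖ₑ with hP
  set a : Md → ℝ≥0∞ := fun k => ENNReal.ofReal (Real.exp (c * len k)) * P k with ha
  set b : Md → ℝ≥0∞ := fun l => ENNReal.ofReal (1 / ρ 0) *
    (ENNReal.ofReal (Real.exp (c * len l)) * ‖w0 l‖ₑ) with hb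
  have hmain : PN T c ρ ρ S * (ENNReal.ofReal (1 / ρ 0) * sN c w0) =
      ∑' m, ∑' l, a (m - l) * b l := by
    rw [W07.tsum_conv]
    unfold sN
    rw [← ENNReal.tsum_mul_left]
    rfl
  rw [hmain]
  unfold Nrm
  refine ENNReal.tsum_le_tsum fun m => iSup₂_le fun t ht => ?_
  have hρt := hρ.pos t ht
  have h1 : ‖act (S t 0) w0 m‖ₑ ≤ ∑' l, ‖S t 0 m l‖ₑ * ‖w0 l‖ₑ := by
    refine (enorm_tsum_le_tsum_enorm (f := fun l => S t 0 m l (w0 l))).trans ?_
    exact ENNReal.tsum_le_tsum fun l => (S t 0 m l).le_opENorm (w0 l)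
  calc ENNReal.ofReal (Real.exp ((c - γ * t) * len m) / ρ t) * ‖act (S t 0) w0 m‖ₑ
      ≤ ENNReal.ofReal (Real.exp ((c - γ * t) * len m) / ρ t) *
        ∑' l, ‖S t 0 m l‖ₑ * ‖w0 l‖ₑ := by gcongr
    _ = ∑' l, ENNReal.ofReal (Real.exp ((c - γ * t) * len m) / ρ t) *
        (‖S t 0 m l‖ₑ * ‖w0 l‖ₑ) := by rw [ENNReal.tsum_mul_left]
    _ ≤ ∑' l, a (m - l) * b l := by
        refine ENNReal.tsum_le_tsum fun l => ?_
        have h2 : ENNReal.ofReal (ρ 0 / ρ t) * ‖S t 0 m l‖ₑ ≤ P (m - l) := by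
          refine le_trans ?_ (le_iSup (fun l' => ⨆ t ∈ Icc 0 T, ⨆ s ∈ Icc 0 t,
            ENNReal.ofReal (ρ s / ρ t) * ‖S t s (l' + (m - l)) l'‖ₑ) l)
          refine le_trans ?_ (le_iSup₂ (f := fun t (_ : t ∈ Icc 0 T) => ⨆ s ∈ Icc 0 t,
            ENNReal.ofReal (ρ s / ρ t) * ‖S t s (l + (m - l)) l‖ₑ) t ht)
          refine le_trans ?_ (le_iSup₂ (f := fun s (_ : s ∈ Icc 0 t) =>
            ENNReal.ofReal (ρ s / ρ t) * ‖S t s (l + (m - l)) l‖ₑ) 0 ⟨le_rfl, ht.1⟩)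
          rw [add_sub_cancel]
        have h4 : ENNReal.ofReal (Real.exp ((c - γ * t) * len m) / ρ t) ≤
            ENNReal.ofReal (Real.exp (c * len (m - l))) *
              (ENNReal.ofReal (Real.exp (c * len l)) *
                (ENNReal.ofReal (ρ 0 / ρ t) * ENNReal.ofReal (1 / ρ 0))) := by
          rw [← ENNReal.ofReal_mul (by positivity), ← ENNReal.ofReal_mul (Real.exp_nonneg _),
            ← ENNReal.ofReal_mul (Real.exp_nonneg _)]
          apply ENNReal.ofReal_le_ofReal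
          have h5 : ρ 0 / ρ t * (1 / ρ 0) = 1 / ρ t := by field_simp
          rw [h5, mul_one_div, mul_div_assoc']
          refine div_le_div_of_nonneg_right ((W07.exp_len_le hp ht m l).trans ?_) hρt.le
          gcongr
          · exact len_nonneg l
          · have := mul_nonneg hp.γ_nonneg ht.1
            linarith
        calc ENNReal.ofReal (Real.exp ((c - γ * t) * len m) / ρ t) *
              (‖S t 0 m l‖ₑ * ‖w0 l‖ₑ)
            ≤ (ENNReal.ofReal (Real.exp (c * len (m - l))) *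
              (ENNReal.ofReal (Real.exp (c * len l)) *
                (ENNReal.ofReal (ρ 0 / ρ t) * ENNReal.ofReal (1 / ρ 0)))) *
              (‖S t 0 m l‖ₑ * ‖w0 l‖ₑ) := mul_le_mul' h4 le_rfl
          _ = (ENNReal.ofReal (Real.exp (c * len (m - l))) *
              (ENNReal.ofReal (ρ 0 / ρ t) * ‖S t 0 m l‖ₑ)) *
              (ENNReal.ofReal (1 / ρ 0) * (ENNReal.ofReal (Real.exp (c * len l)) * ‖w0 l‖ₑ)) := by
              ring
          _ ≤ a (m - l) * b l := mul_le_mul' (mul_le_mul' le_rfl h2) le_rfl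

end S23p

open S23p in
theorem s23 : S23 := by
  intro T c γ ρ C L S w0 Q hp hc hρ hS hL hKL hPN hQ hw0 hQ' hSrc W
  have hT := hp.T_pos
  have h0T := hT.le
  have h0 : (0 : ℝ) ∈ Icc 0 T := ⟨le_rfl, h0T⟩
  have hc0 : 0 ≤ c := (mul_nonneg hp.γ_nonneg h0T).trans hp.le
  obtain ⟨c', hc', hQf⟩ := hQ'
  obtain ⟨B, hB, c1, hc1, hSB⟩ := hS.bdd
  set lb : Md → ℝ≥0∞ := fun k => ⨆ l, ⨆ t ∈ Icc 0 T, ‖L t (l + k) l‖ₑ with hlb
  have hlbs : ∑' k, lb k ≠ ∞ := ne_top_of_le_ne_top hKL (W12.kernel_sum_le hc0 L)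
  have hlbl : ∀ t ∈ Icc 0 T, ∀ q j, ‖L t q j‖ₑ ≤ lb (q - j) := fun t ht q j =>
    W12.entry_le L ht q j
  have h : Hy T L S lb B :=
    { lb_sum := hlbs
      lb_le := hlbl
      L_cont := hL
      L_fin := fun t ht => by
        refine ne_top_of_le_ne_top hKL ?_
        exact ((((pr_W10 Md C3 C3 C3 c hc0).2.2.2.2.2.2.1 0 hc0).1 (L t))).trans
          ((pr_W09 Md C3 C3 C3 T c hc0).2.2.2.2.2.2 L t ht)
      prop := hS
      B_fin := hB
      B_le := fun t ht s hs =>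
        (((pr_W10 Md C3 C3 C3 c1 hc1.le).2.2.2.2.2.2.1 0 hc1.le).1 (S t s)).trans (hSB s hs t ht) }
  -- majorant of Q
  have hp' : Par T c' γ := ⟨hT, hp.γ_nonneg, hc'.le⟩
  set qb : Md → ℝ≥0∞ := fun l => ENNReal.ofReal (ρ T) * ⨆ t ∈ Icc 0 T,
      ENNReal.ofReal (Real.exp ((c' - γ * t) * len l) / ρ t) * ‖Q t l‖ₑ with hqb
  have hqbs : ∑' l, qb l ≠ ∞ := by
    rw [hqb, ENNReal.tsum_mul_left]
    exact ENNReal.mul_ne_top ENNReal.ofReal_ne_top hQf
  have hqbl : ∀ t ∈ Icc 0 T, ∀ l, ‖Q t l‖ₑ ≤ qb l := fun t ht l =>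
    W12.mode_le hp' hρ Q ht l
  have hw0' : sN 0 w0 ≠ ∞ :=
    ne_top_of_le_ne_top hw0 ((((pr_W10 Md C3 C3 C3 c hc0).2.2.2.2.2.2.1 0 hc0).2 w0))
  have hder : ∀ q, ∀ t ∈ Icc 0 T,
      HasDerivWithinAt (fun t => W t q) (act (L t) (W t) q + Q t q) (Icc 0 T) t :=
    fun q t ht => W_deriv h h0T hQ hqbs hqbl hw0' q ht
  have hCM : CM T W := fun q t ht => (hder q t ht).continuousWithinAt
  have hW0 : W 0 = w0 := by
    funext q
    change act (S 0 0) w0 q + ∫ s in (0 : ℝ)..0, act (S 0 s) (Q s) q = w0 q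
    rw [intervalIntegral.integral_same, add_zero, hS.diag 0 h0]
    exact (pr_W11 Md C3 C3 C3 C3).2.2.2.2.2 _ _ _
  refine ⟨hCM, hW0, hder, ?_, ?_⟩
  · have h1 := (pr_W05 Md C3 T c γ ρ ρ (fun t => act (S t 0) w0)
      (fun t m => ∫ s in (0 : ℝ)..t, act (S t s) (Q s) m) hp hρ hρ).2.2.1
    have h2 : W = (fun t => act (S t 0) w0) +
      (fun t m => ∫ s in (0 : ℝ)..t, act (S t s) (Q s) m) := rfl
    rw [h2, mul_add]
    refine h1.trans (add_le_add ?_ ?_)
    · exact (init_le hp hρ S w0).trans (mul_le_mul' hPN le_rfl)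
    · exact (pr_W07 Md C3 C3 T c γ ρ ρ S Q hp hρ hρ hQ).trans (mul_le_mul' hPN le_rfl)
  · intro W' hCM' hW'0 hder' hfin' t ht
    have hp0 : Par T 0 0 := ⟨hT, le_rfl, by simp⟩
    have hs1 : ∀ t ∈ Icc 0 T, ∑' q, ‖W t q‖ₑ ≤
        B * (∑' l, ‖w0 l‖ₑ) + ENNReal.ofReal T * (B * ∑' l, qb l) :=
      fun t ht => W_sum h h0T hQ hqbs hqbl ht
    have hs2 : ∀ t ∈ Icc 0 T, ∑' q, ‖W' t q‖ₑ ≤ ENNReal.ofReal (ρ T) * Nrm T 0 0 ρ W' := by
      intro t ht
      unfold Nrm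
      rw [← ENNReal.tsum_mul_left]
      exact ENNReal.tsum_le_tsum fun l => W12.mode_le hp0 hρ W' ht l
    rw [S23p.sN_zero] at hw0'
    have hY1 : B * (∑' l, ‖w0 l‖ₑ) + ENNReal.ofReal T * (B * ∑' l, qb l) ≠ ∞ :=
      ENNReal.add_ne_top.2 ⟨ENNReal.mul_ne_top hB hw0',
        ENNReal.mul_ne_top ENNReal.ofReal_ne_top (ENNReal.mul_ne_top hB hqbs)⟩
    have hY2 : ENNReal.ofReal (ρ T) * Nrm T 0 0 ρ W' ≠ ∞ :=
      ENNReal.mul_ne_top ENNReal.ofReal_ne_top hfin'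
    set D : ℝ → Md → C3 := fun t q => W' t q - W t q with hD
    have hsub : ∀ t ∈ Icc 0 T, ∀ q, act (L t) (W' t) q - act (L t) (W t) q =
        act (L t) (D t) q := by
      intro t ht q
      have hsum : ∀ (f : Md → C3), ∑' q, ‖f q‖ₑ ≠ ∞ → Summable (fun j => L t q j (f j)) := by
        intro f hf
        have hfin : ∑' j, (∑' k, lb k) * ‖f j‖ₑ ≠ ∞ := by
          rw [ENNReal.tsum_mul_left]
          exact ENNReal.mul_ne_top hlbs hf
        refine (ENNReal.summable_toReal hfin).of_norm_bounded (fun j => ?_)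
        refine enorm_le_toReal (ENNReal.ne_top_of_tsum_ne_top hfin j) ?_
        refine ((L t q j).le_opENorm _).trans ?_
        exact mul_le_mul' ((hlbl t ht q j).trans (ENNReal.le_tsum _)) le_rfl
      unfold act
      rw [← (hsum _ (ne_top_of_le_ne_top hY2 (hs2 t ht))).tsum_sub
        (hsum _ (ne_top_of_le_ne_top hY1 (hs1 t ht)))]
      refine tsum_congr fun j => ?_
      exact (map_sub _ _ _).symm
    have hg := gronwall h0T hlbs hlbl hL (D := D)
      (fun q => (hCM' q).sub (hCM q))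
      (Y := ENNReal.ofReal (ρ T) * Nrm T 0 0 ρ W' +
        (B * (∑' l, ‖w0 l‖ₑ) + ENNReal.ofReal T * (B * ∑' l, qb l)))
      (ENNReal.add_ne_top.2 ⟨hY2, hY1⟩) (fun t ht => ?_) ?_ (fun q t ht => ?_) t ht
    · funext q
      have := congrFun hg q
      exact sub_eq_zero.1 this
    · refine (ENNReal.tsum_le_tsum fun q => enorm_sub_le).trans ?_
      rw [ENNReal.tsum_add]
      exact add_le_add (hs2 t ht) (hs1 t ht)
    · funext q
      simp only [hD, hW'0, hW0, sub_self, Pi.zero_apply]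
    · rw [← hsub t ht q]
      refine HasDerivWithinAt.congr_deriv ((hder' q t ht).sub (hder q t ht)) ?_
      abel

end Pool.Agent.Work.MP_b0497c_an.Unf.S
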