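import Pool.Agent.Work.MP_b0497c_an.Bd.B06
import Pool.Agent.Work.MP_b0497c_an.Unf.W10
import Pool.Agent.Work.MP_b0497c_an.Bd.B04

set_option autoImplicit false
set_option linter.unusedSectionVars false

/-!
# Static calculus of kernels and multiplications (used by S05, S06, S07)
-/

open scoped ENNReal
open Set MeasureTheory

namespace Pool.Agent.Work.MP_b0497c_an.Unf.S

open W

section alg

variable {E F G H : Type} [NormedAddCommGroup E] [NormedSpace ℂ E] [NormedAddCommGroup F]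
  [NormedSpace ℂ F] [NormedAddCommGroup G] [NormedSpace ℂ G] [NormedAddCommGroup H]
  [NormedSpace ℂ H]

/-! ### finiteness of the static norms -/

theorem fin_mono {c c' : ℝ} (hc : 0 ≤ c) (h : c' ≤ c) {f : Md → E} (hf : sN c f ≠ ∞) :
    sN c' f ≠ ∞ :=
  ne_top_of_le_ne_top hf (((pr_W10 Md E E E c hc).2.2.2.2.2.2.1 c' h).2 f)

theorem finK_mono {c c' : ℝ} (hc : 0 ≤ c) (h : c' ≤ c) {A : Md → Md → (E →L[ℂ] F)}
    (hA : sK c A ≠ ∞) : sK c' A ≠ ∞ :=
  ne_top_of_le_ne_top hA (((pr_W10 Md E F F c hc).2.2.2.2.2.2.1 c' h).1 A)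

theorem fin_act {c : ℝ} (hc : 0 ≤ c) {A : Md → Md → (E →L[ℂ] F)} {f : Md → E}
    (hA : sK c A ≠ ∞) (hf : sN c f ≠ ∞) : sN c (act A f) ≠ ∞ :=
  ne_top_of_le_ne_top (ENNReal.mul_ne_top hA hf) ((pr_W10 Md E F F c hc).2.1 A f)

theorem finK_kcomp {c : ℝ} (hc : 0 ≤ c) {A : Md → Md → (F →L[ℂ] G)} {B : Md → Md → (E →L[ℂ] F)}
    (hA : sK c A ≠ ∞) (hB : sK c B ≠ ∞) : sK c (kcomp A B) ≠ ∞ :=
  ne_top_of_le_ne_top (ENNReal.mul_ne_top hA hB) ((pr_W10 Md E F G c hc).1 A B)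

theorem sK_mulK {c : ℝ} (hc : 0 ≤ c) (a : Md → (E →L[ℂ] F)) : sK c (mulK a) = sN c a :=
  (pr_W10 Md E F F c hc).2.2.2.1 a

theorem finK_mulK {c : ℝ} (hc : 0 ≤ c) {a : Md → (E →L[ℂ] F)} (ha : sN c a ≠ ∞) :
    sK c (mulK a) ≠ ∞ := by
  rw [sK_mulK hc]
  exact ha

theorem fin_mul {c : ℝ} (hc : 0 ≤ c) {a : Md → (E →L[ℂ] F)} {f : Md → E}
    (ha : sN c a ≠ ∞) (hf : sN c f ≠ ∞) : sN c (mul a f) ≠ ∞ :=
  fin_act hc (finK_mulK hc ha) hf

theorem fin_conv {c : ℝ} (hc : 0 ≤ c) {β : E →L[ℂ] F →L[ℂ] G} {f : Md → E} {g : Md → F}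
    (hf : sN c f ≠ ∞) (hg : sN c g ≠ ∞) : sN c (conv β f g) ≠ ∞ :=
  ne_top_of_le_ne_top (ENNReal.mul_ne_top (ENNReal.mul_ne_top enorm_ne_top hf) hg)
    ((pr_W10 Md E F G c hc).2.2.1 β f g)

theorem fin_mm {c : ℝ} (hc : 0 ≤ c) {a : Md → (F →L[ℂ] G)} {b : Md → (E →L[ℂ] F)}
    (ha : sN c a ≠ ∞) (hb : sN c b ≠ ∞) : sN c (mm a b) ≠ ∞ := fin_conv hc ha hb

omit [NormedSpace ℂ E] [NormedSpace ℂ F] in
theorem fin_of_le {c : ℝ} {f : Md → E} {g : Md → F} (C : ℝ)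
    (h : ∀ q, ‖g q‖ ≤ C * ‖f q‖) (hf : sN c f ≠ ∞) : sN c g ≠ ∞ := by
  refine ne_top_of_le_ne_top (ENNReal.mul_ne_top (ENNReal.ofReal_ne_top (r := |C|)) hf) ?_
  unfold sN
  rw [← ENNReal.tsum_mul_left]
  refine ENNReal.tsum_le_tsum fun q => ?_
  have h1 : ‖g q‖ₑ ≤ ENNReal.ofReal |C| * ‖f q‖ₑ := by
    rw [← ofReal_norm, ← ofReal_norm, ← ENNReal.ofReal_mul (abs_nonneg _)]
    exact ENNReal.ofReal_le_ofReal
      ((h q).trans (mul_le_mul_of_nonneg_right (le_abs_self C) (norm_nonneg _)))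
  calc _ ≤ ENNReal.ofReal (Real.exp (c * len q)) * (ENNReal.ofReal |C| * ‖f q‖ₑ) :=
        mul_le_mul' le_rfl h1
    _ = _ := by ring

omit [NormedSpace ℂ E] [NormedSpace ℂ F] in
/-- One factor `len q` costs a little bit of the radius. -/
theorem fin_of_le_len {c c' : ℝ} (hc : c' < c) {f : Md → E} {g : Md → F} (C : ℝ)
    (h : ∀ q, ‖g q‖ ≤ C * len q * ‖f q‖) (hf : sN c f ≠ ∞) : sN c' g ≠ ∞ := by
  refine ne_top_of_le_ne_top
    (ENNReal.mul_ne_top (ENNReal.ofReal_ne_top (r := |C| / (c - c'))) hf) ?_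
  unfold sN
  rw [← ENNReal.tsum_mul_left]
  refine ENNReal.tsum_le_tsum fun q => ?_
  have hd : 0 < c - c' := sub_pos.2 hc
  have h1 : len q ≤ Real.exp ((c - c') * len q) / (c - c') := by
    rw [le_div_iff₀ hd]
    have := Real.add_one_le_exp ((c - c') * len q)
    nlinarith
  have h2 : Real.exp (c' * len q) * ‖g q‖ ≤ |C| / (c - c') * (Real.exp (c * len q) * ‖f q‖) := by
    have e : Real.exp (c * len q) = Real.exp (c' * len q) * Real.exp ((c - c') * len q) := by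
      rw [← Real.exp_add]
      congr 1
      ring
    calc Real.exp (c' * len q) * ‖g q‖
        ≤ Real.exp (c' * len q) * (|C| * len q * ‖f q‖) := by
          refine mul_le_mul_of_nonneg_left ((h q).trans ?_) (Real.exp_pos _).le
          refine mul_le_mul_of_nonneg_right ?_ (norm_nonneg _)
          exact mul_le_mul_of_nonneg_right (le_abs_self C) (len_nonneg _)
      _ ≤ Real.exp (c' * len q) * (|C| * (Real.exp ((c - c') * len q) / (c - c')) * ‖f q‖) := by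
          refine mul_le_mul_of_nonneg_left ?_ (Real.exp_pos _).le
          refine mul_le_mul_of_nonneg_right ?_ (norm_nonneg _)
          exact mul_le_mul_of_nonneg_left h1 (abs_nonneg _)
      _ = _ := by
          rw [e]
          ring
  rw [← ofReal_norm, ← ofReal_norm, ← ENNReal.ofReal_mul (Real.exp_pos _).le,
    ← ENNReal.ofReal_mul (Real.exp_pos _).le, ← ENNReal.ofReal_mul (by positivity)]
  exact ENNReal.ofReal_le_ofReal h2

omit [NormedSpace ℂ E] in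
theorem fin_add {c : ℝ} {f g : Md → E} (hf : sN c f ≠ ∞) (hg : sN c g ≠ ∞) :
    sN c (f + g) ≠ ∞ := by
  refine ne_top_of_le_ne_top (ENNReal.add_ne_top.2 ⟨hf, hg⟩) ?_
  unfold sN
  rw [← ENNReal.tsum_add]
  refine ENNReal.tsum_le_tsum fun q => ?_
  rw [← mul_add]
  exact mul_le_mul' le_rfl (enorm_add_le _ _)

omit [NormedSpace ℂ E] in
theorem fin_neg {c : ℝ} {f : Md → E} (hf : sN c f ≠ ∞) : sN c (-f) ≠ ∞ := by
  refine fin_of_le 1 (fun q => ?_) hf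
  simp

omit [NormedSpace ℂ E] in
theorem fin_sub {c : ℝ} {f g : Md → E} (hf : sN c f ≠ ∞) (hg : sN c g ≠ ∞) :
    sN c (f - g) ≠ ∞ := by
  rw [sub_eq_add_neg]
  exact fin_add hf (fin_neg hg)

theorem fin_smul {c : ℝ} (z : ℂ) {f : Md → E} (hf : sN c f ≠ ∞) : sN c (z • f) ≠ ∞ := by
  refine fin_of_le ‖z‖ (fun q => ?_) hf
  simp [norm_smul]

omit [NormedSpace ℂ E] in
theorem fin_zero {c : ℝ} : sN c (0 : Md → E) ≠ ∞ := by
  simp [sN]

theorem finK_add {c : ℝ} (hc : 0 ≤ c) {A B : Md → Md → (E →L[ℂ] F)} (hA : sK c A ≠ ∞)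
    (hB : sK c B ≠ ∞) : sK c (A + B) ≠ ∞ :=
  ne_top_of_le_ne_top (ENNReal.add_ne_top.2 ⟨hA, hB⟩) ((pr_W10 Md E F F c hc).2.2.2.2.2.1 A B)

theorem finK_smul {c : ℝ} (z : ℂ) {A : Md → Md → (E →L[ℂ] F)} (hA : sK c A ≠ ∞) :
    sK c (z • A) ≠ ∞ := by
  refine ne_top_of_le_ne_top (ENNReal.mul_ne_top (enorm_ne_top (x := z)) hA) ?_
  unfold sK
  rw [← ENNReal.tsum_mul_left]
  refine ENNReal.tsum_le_tsum fun q => ?_
  have : ∀ l, ‖(z • A) (l + q) l‖ₑ ≤ ‖z‖ₑ * ⨆ l, ‖A (l + q) l‖ₑ := by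
    intro l
    rw [Pi.smul_apply, Pi.smul_apply, enorm_smul]
    exact mul_le_mul' le_rfl (le_iSup (fun l => ‖A (l + q) l‖ₑ) l)
  calc _ ≤ ENNReal.ofReal (Real.exp (c * len q)) * (‖z‖ₑ * ⨆ l, ‖A (l + q) l‖ₑ) :=
        mul_le_mul' le_rfl (iSup_le this)
    _ = _ := by ring

theorem finK_neg {c : ℝ} {A : Md → Md → (E →L[ℂ] F)} (hA : sK c A ≠ ∞) :
    sK c (-A) ≠ ∞ := by
  have := finK_smul (-1) hA
  simpa using this

theorem finK_sub {c : ℝ} (hc : 0 ≤ c) {A B : Md → Md → (E →L[ℂ] F)} (hA : sK c A ≠ ∞)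
    (hB : sK c B ≠ ∞) : sK c (A - B) ≠ ∞ := by
  rw [sub_eq_add_neg]
  exact finK_add hc hA (finK_neg hB)

theorem finK_diagK {c : ℝ} (hc : 0 ≤ c) {a : Md → (E →L[ℂ] F)} (C : ℝ≥0∞) (hC : C ≠ ∞)
    (h : ∀ m, ‖a m‖ₑ ≤ C) : sK c (diagK a) ≠ ∞ :=
  ne_top_of_le_ne_top hC ((pr_W10 Md E F F c hc).2.2.2.2.1 a C h)

theorem finK_idK {c : ℝ} (hc : 0 ≤ c) : sK c idK ≠ ∞ := by
  refine finK_diagK hc 1 ENNReal.one_ne_top fun m => ?_
  have : ‖ContinuousLinearMap.id ℂ C3‖ ≤ 1 := ContinuousLinearMap.norm_id_le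
  rw [← ofReal_norm, ← ENNReal.ofReal_one]
  exact ENNReal.ofReal_le_ofReal this

theorem enorm_pr_le (v : C3) : ‖pr v‖ₑ ≤ 1 := by
  have h : ‖pr v‖ ≤ 1 := by
    unfold pr
    rw [norm_smul, ContinuousLinearMap.norm_smulRight_apply, innerSL_apply_norm]
    by_cases hv : ‖v‖ = 0
    · rw [hv]
      simp
    · have : ‖((‖v‖ ^ 2 : ℝ)⁻¹ : ℂ)‖ = (‖v‖ ^ 2)⁻¹ := by
        rw [norm_inv]
        congr 1
        rw [Complex.norm_real, Real.norm_eq_abs, abs_of_nonneg (by positivity)]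
      rw [this]
      field_simp
      rfl
  rw [← ofReal_norm, ← ENNReal.ofReal_one]
  exact ENNReal.ofReal_le_ofReal h

theorem finK_PK {c : ℝ} (hc : 0 ≤ c) (ξ : Md → C3) : sK c (PK ξ) ≠ ∞ :=
  finK_diagK hc 1 ENNReal.one_ne_top fun m => enorm_pr_le (ξ m)

theorem fin_oneM {c : ℝ} : sN c oneM ≠ ∞ := by
  have h : sN c oneM = ∑' m : Md, if m = 0 then ‖ContinuousLinearMap.id ℂ C3‖ₑ else 0 := by
    unfold sN oneM
    refine tsum_congr fun m => ?_
    by_cases hm : m = 0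
    · subst hm
      simp [len_zero]
    · simp [hm]
  rw [h, tsum_ite_eq]
  exact enorm_ne_top

theorem sN_adjC (c : ℝ) (a : Md → Mat) : sN c (adjC a) = sN c a := by
  unfold sN adjC
  rw [← (Equiv.neg Md).tsum_eq]
  refine tsum_congr fun k => ?_
  simp only [Equiv.neg_apply, len_neg, neg_neg]
  congr 1
  rw [← ofReal_norm, ← ofReal_norm, LinearIsometryEquiv.norm_map]

theorem fin_adjC {c : ℝ} {a : Md → Mat} (ha : sN c a ≠ ∞) : sN c (adjC a) ≠ ∞ := by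
  rw [sN_adjC]
  exact ha

theorem finK_RK (ξ : Md → C3) (Fi : Md → Mat) : sK 0 (RK ξ Fi) ≠ ∞ := by
  unfold RK
  split_ifs with h
  · exact h.choose_spec.1
  · have h0 : sK 0 (0 : Md → Md → Mat) = 0 := by
      unfold sK
      refine ENNReal.tsum_eq_zero.2 fun k => ?_
      have : ∀ l : Md, ‖(0 : Md → Md → Mat) (l + k) l‖ₑ = 0 := fun l => by
        exact enorm_zero (E := Mat)
      simp only [this, ciSup_const, mul_zero]
    rw [h0]
    exact ENNReal.zero_ne_top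

theorem finK_PiK (ξ : Md → C3) {Fi : Md → Mat} (hFi : sN 0 Fi ≠ ∞) : sK 0 (PiK ξ Fi) ≠ ∞ :=
  finK_kcomp le_rfl (finK_mulK le_rfl (fin_adjC hFi))
    (finK_kcomp le_rfl (finK_RK ξ Fi) (finK_mulK le_rfl hFi))

/-! ### algebra -/

theorem act_comp [CompleteSpace F] [CompleteSpace G] {A : Md → Md → (F →L[ℂ] G)}
    {B : Md → Md → (E →L[ℂ] F)} {f : Md → E} (hA : sK 0 A ≠ ∞) (hB : sK 0 B ≠ ∞)
    (hf : sN 0 f ≠ ∞) : act (kcomp A B) f = act A (act B f) :=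
  (pr_W11 Md E F G G).2.1 A B f hA hB hf

theorem kcomp_assoc [CompleteSpace F] [CompleteSpace G] [CompleteSpace H]
    {A : Md → Md → (G →L[ℂ] H)} {B : Md → Md → (F →L[ℂ] G)} {C : Md → Md → (E →L[ℂ] F)}
    (hA : sK 0 A ≠ ∞) (hB : sK 0 B ≠ ∞) (hC : sK 0 C ≠ ∞) :
    kcomp (kcomp A B) C = kcomp A (kcomp B C) :=
  (pr_W11 Md E F G H).1 A B C hA hB hC

theorem act_add [CompleteSpace F] {A : Md → Md → (E →L[ℂ] F)} {f g : Md → E}
    (hA : sK 0 A ≠ ∞) (hf : sN 0 f ≠ ∞) (hg : sN 0 g ≠ ∞) :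
    act A (f + g) = act A f + act A g :=
  ((pr_W11 Md E F F F).2.2.2.1 A A f g hA hA hf hg).2

theorem act_neg (A : Md → Md → (E →L[ℂ] F)) (f : Md → E) : act A (-f) = - act A f := by
  funext q
  unfold act
  rw [Pi.neg_apply, ← tsum_neg]
  exact tsum_congr fun l => map_neg _ _

theorem act_sub [CompleteSpace F] {A : Md → Md → (E →L[ℂ] F)} {f g : Md → E}
    (hA : sK 0 A ≠ ∞) (hf : sN 0 f ≠ ∞) (hg : sN 0 g ≠ ∞) :
    act A (f - g) = act A f - act A g := by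
  rw [sub_eq_add_neg, act_add hA hf (fin_neg hg), act_neg, ← sub_eq_add_neg]

theorem act_zero (A : Md → Md → (E →L[ℂ] F)) : act A (0 : Md → E) = 0 := by
  funext q
  simp [act]

theorem act_addK [CompleteSpace F] {A B : Md → Md → (E →L[ℂ] F)} {f : Md → E}
    (hA : sK 0 A ≠ ∞) (hB : sK 0 B ≠ ∞) (hf : sN 0 f ≠ ∞) :
    act (A + B) f = act A f + act B f :=
  ((pr_W11 Md E F F F).2.2.2.1 A B f f hA hB hf hf).1

theorem act_negK (A : Md → Md → (E →L[ℂ] F)) (f : Md → E) : act (-A) f = - act A f := by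
  funext q
  show ∑' l, (-A) q l (f l) = -∑' l, A q l (f l)
  rw [← tsum_neg]
  exact tsum_congr fun l => rfl

theorem act_subK [CompleteSpace F] {A B : Md → Md → (E →L[ℂ] F)} {f : Md → E}
    (hA : sK 0 A ≠ ∞) (hB : sK 0 B ≠ ∞) (hf : sN 0 f ≠ ∞) :
    act (A - B) f = act A f - act B f := by
  rw [sub_eq_add_neg, act_addK hA (finK_neg hB) hf, act_negK, ← sub_eq_add_neg]

theorem act_smulK (z : ℂ) (A : Md → Md → (E →L[ℂ] F)) (f : Md → E) :
    act (z • A) f = z • act A f := by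
  funext q
  show ∑' l, (z • A) q l (f l) = z • ∑' l, A q l (f l)
  rw [← tsum_const_smul'']
  exact tsum_congr fun l => rfl

theorem act_smul (z : ℂ) (A : Md → Md → (E →L[ℂ] F)) (f : Md → E) :
    act A (z • f) = z • act A f := by
  funext q
  unfold act
  rw [Pi.smul_apply, ← tsum_const_smul'']
  exact tsum_congr fun l => map_smul _ _ _

theorem act_diag (a : Md → (E →L[ℂ] F)) (f : Md → E) (m : Md) : act (diagK a) f m = a m (f m) := by
  unfold act diagK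
  rw [tsum_eq_single m]
  · simp
  · intro l hl
    rw [if_neg (Ne.symm hl)]
    rfl

theorem act_idK (f : Md → C3) : act idK f = f := by
  funext q
  unfold idK
  rw [act_diag]
  rfl

theorem kcomp_mulK (a : Md → (F →L[ℂ] G)) (b : Md → (E →L[ℂ] F)) :
    kcomp (mulK a) (mulK b) = mulK (mm a b) := by
  funext m l
  unfold kcomp mulK mm conv
  rw [← (Equiv.addRight l).tsum_eq]
  refine tsum_congr fun j => ?_
  simp only [Equiv.coe_addRight, add_sub_cancel_right, ContinuousLinearMap.compL_apply]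
  rw [show m - (j + l) = m - l - j by abel]

theorem mul_mm [CompleteSpace F] [CompleteSpace G] {a : Md → (F →L[ℂ] G)} {b : Md → (E →L[ℂ] F)}
    {f : Md → E} (ha : sN 0 a ≠ ∞) (hb : sN 0 b ≠ ∞) (hf : sN 0 f ≠ ∞) :
    mul (mm a b) f = mul a (mul b f) := by
  unfold mul
  rw [← kcomp_mulK]
  exact act_comp (finK_mulK le_rfl ha) (finK_mulK le_rfl hb) hf

theorem mulK_inj {a b : Md → (E →L[ℂ] F)} (h : mulK a = mulK b) : a = b := by
  funext q
  have := congrFun (congrFun h q) 0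
  simpa [mulK] using this

theorem mm_assoc [CompleteSpace F] [CompleteSpace G] [CompleteSpace H] {a : Md → (G →L[ℂ] H)}
    {b : Md → (F →L[ℂ] G)} {c : Md → (E →L[ℂ] F)} (ha : sN 0 a ≠ ∞) (hb : sN 0 b ≠ ∞)
    (hc : sN 0 c ≠ ∞) : mm (mm a b) c = mm a (mm b c) := by
  refine mulK_inj ?_
  rw [← kcomp_mulK, ← kcomp_mulK, ← kcomp_mulK, ← kcomp_mulK]
  exact kcomp_assoc (finK_mulK le_rfl ha) (finK_mulK le_rfl hb) (finK_mulK le_rfl hc)

theorem mulK_oneM : mulK oneM = idK := by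
  funext m l
  unfold mulK oneM idK diagK
  by_cases h : m = l
  · subst h
    simp
  · have : m - l ≠ 0 := sub_ne_zero.2 h
    simp [h, this]

theorem mul_oneM (f : Md → C3) : mul oneM f = f := by
  unfold mul
  rw [mulK_oneM, act_idK]

theorem mul_add [CompleteSpace F] {a : Md → (E →L[ℂ] F)} {f g : Md → E}
    (ha : sN 0 a ≠ ∞) (hf : sN 0 f ≠ ∞) (hg : sN 0 g ≠ ∞) :
    mul a (f + g) = mul a f + mul a g := act_add (finK_mulK le_rfl ha) hf hg

theorem mul_sub [CompleteSpace F] {a : Md → (E →L[ℂ] F)} {f g : Md → E}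
    (ha : sN 0 a ≠ ∞) (hf : sN 0 f ≠ ∞) (hg : sN 0 g ≠ ∞) :
    mul a (f - g) = mul a f - mul a g := act_sub (finK_mulK le_rfl ha) hf hg

theorem mul_neg (a : Md → (E →L[ℂ] F)) (f : Md → E) : mul a (-f) = - mul a f := act_neg _ _

theorem mul_addL [CompleteSpace F] {a b : Md → (E →L[ℂ] F)} {f : Md → E}
    (ha : sN 0 a ≠ ∞) (hb : sN 0 b ≠ ∞) (hf : sN 0 f ≠ ∞) :
    mul (a + b) f = mul a f + mul b f := act_addK (finK_mulK le_rfl ha) (finK_mulK le_rfl hb) hf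

theorem mul_subL [CompleteSpace F] {a b : Md → (E →L[ℂ] F)} {f : Md → E}
    (ha : sN 0 a ≠ ∞) (hb : sN 0 b ≠ ∞) (hf : sN 0 f ≠ ∞) :
    mul (a - b) f = mul a f - mul b f := act_subK (finK_mulK le_rfl ha) (finK_mulK le_rfl hb) hf

theorem map_act [CompleteSpace F] [CompleteSpace G] (T : F →L[ℂ] G) {A : Md → Md → (E →L[ℂ] F)}
    {f : Md → E} (hA : sK 0 A ≠ ∞) (hf : sN 0 f ≠ ∞) (q : Md) :
    T (act A f q) = ∑' l, T (A q l (f l)) := by
  unfold act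
  exact T.map_tsum (summable_act hA hf (fun m => sN_bdd m) q)

theorem adjC_mm (a b : Md → Mat) : adjC (mm a b) = mm (adjC b) (adjC a) := by
  funext k
  unfold adjC mm conv
  have h := (ContinuousLinearMap.adjoint : Mat ≃ₗᵢ⋆[ℂ] Mat).toContinuousLinearEquiv.map_tsum
    (f := fun l => (ContinuousLinearMap.compL ℂ C3 C3 C3 (a (-k - l))) (b l))
    (L := SummationFilter.unconditional Md)
  have h' : ContinuousLinearMap.adjoint
      (∑' l, (ContinuousLinearMap.compL ℂ C3 C3 C3 (a (-k - l))) (b l)) =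
      ∑' l, ContinuousLinearMap.adjoint ((ContinuousLinearMap.compL ℂ C3 C3 C3 (a (-k - l))) (b l)) := h
  rw [h', ← (Equiv.subRight k).tsum_eq]
  refine tsum_congr fun l => ?_
  simp only [Equiv.subRight_apply, ContinuousLinearMap.compL_apply,
    ContinuousLinearMap.adjoint_comp]
  rw [show -k - (l - k) = -l by abel, show -(k - l) = l - k by abel]

theorem adjC_add (a b : Md → Mat) : adjC (a + b) = adjC a + adjC b := by
  funext k
  simp [adjC]

theorem adjC_sub (a b : Md → Mat) : adjC (a - b) = adjC a - adjC b := by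
  funext k
  simp [adjC]

theorem adjC_oneM : adjC oneM = oneM := by
  funext k
  unfold adjC oneM
  have hid : ContinuousLinearMap.adjoint (ContinuousLinearMap.id ℂ C3) =
      ContinuousLinearMap.id ℂ C3 := by
    have := ContinuousLinearMap.adjoint_id (𝕜 := ℂ) (E := C3)
    exact this
  by_cases h : k = 0
  · subst h
    simp [hid]
  · have : -k ≠ 0 := neg_ne_zero.2 h
    simp [h]

end alg

end Pool.Agent.Work.MP_b0497c_an.Unf.S
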