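import Pool.Agent.Work.MP_b0497c_an.Unf.WStmts

set_option autoImplicit false

/-!
# W21: the exponential sum (helper27)
-/

open scoped ENNReal
open Set MeasureTheory

namespace Pool.Agent.Work.MP_b0497c_an.Unf.W

namespace P21

/-- The one dimensional sum. -/
noncomputable def S1 (x : ℝ) : ℝ≥0∞ := ∑' k : ℤ, ENNReal.ofReal (Real.exp (-x * |(k : ℝ)|))

theorem S1_eq {x : ℝ} (hx : 0 < x) :
    S1 x = ENNReal.ofReal ((1 + Real.exp (-x)) / (1 - Real.exp (-x))) := by
  set q := Real.exp (-x) with hq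
  have hq0 : 0 < q := Real.exp_pos _
  have hq1 : q < 1 := by rw [hq, Real.exp_lt_one_iff]; linarith
  have h1 : ∀ n : ℕ, ENNReal.ofReal (Real.exp (-x * |((n : ℤ) : ℝ)|)) = ENNReal.ofReal q ^ n := by
    intro n
    rw [← ENNReal.ofReal_pow hq0.le, hq, ← Real.exp_nat_mul]
    congr 2
    rw [Int.cast_natCast, abs_of_nonneg (Nat.cast_nonneg n)]
    ring
  have h2 : ∀ n : ℕ, ENNReal.ofReal (Real.exp (-x * |((-(n + 1 : ℤ) : ℤ) : ℝ)|)) =
      ENNReal.ofReal q * ENNReal.ofReal q ^ n := by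
    intro n
    rw [← pow_succ', ← ENNReal.ofReal_pow hq0.le, hq, ← Real.exp_nat_mul]
    congr 2
    rw [Int.cast_neg, abs_neg]
    push_cast
    rw [abs_of_nonneg (by positivity)]
    ring
  have hg : HasSum (fun n : ℕ => ENNReal.ofReal q ^ n) (1 - ENNReal.ofReal q)⁻¹ := by
    rw [← ENNReal.tsum_geometric]; exact ENNReal.summable.hasSum
  have h3 : HasSum (fun k : ℤ => ENNReal.ofReal (Real.exp (-x * |(k : ℝ)|)))
      ((1 - ENNReal.ofReal q)⁻¹ + ENNReal.ofReal q * (1 - ENNReal.ofReal q)⁻¹) := by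
    refine HasSum.of_nat_of_neg_add_one ?_ ?_
    · simp_rw [h1]; exact hg
    · simp_rw [h2]
      rw [← ENNReal.tsum_geometric, ← ENNReal.tsum_mul_left]
      exact ENNReal.summable.hasSum
  have h4 : (1 - ENNReal.ofReal q)⁻¹ = ENNReal.ofReal (1 / (1 - q)) := by
    rw [one_div, ENNReal.ofReal_inv_of_pos (by linarith), ENNReal.ofReal_sub _ hq0.le,
      ENNReal.ofReal_one]
  have h5 : 0 ≤ 1 / (1 - q) := by
    have : 0 < 1 - q := by linarith
    positivity
  rw [S1, h3.tsum_eq, h4, ← ENNReal.ofReal_mul hq0.le, ← ENNReal.ofReal_add h5 (by positivity)]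
  congr 1
  ring

theorem S1_ne_top {x : ℝ} (hx : 0 < x) : S1 x ≠ ∞ := by
  rw [S1_eq hx]; exact ENNReal.ofReal_ne_top

theorem S1_le {x : ℝ} (hx : 0 < x) (hx1 : x ≤ 1) : S1 x ≤ ENNReal.ofReal (3 / x) := by
  rw [S1_eq hx]
  apply ENNReal.ofReal_le_ofReal
  set q := Real.exp (-x) with hq
  have hq1 : q < 1 := by rw [hq, Real.exp_lt_one_iff]; linarith
  have h1 : q ≤ 1 - x + x ^ 2 / 2 := by
    have h := Real.quadratic_le_exp_of_nonneg hx.le
    have h2 : Real.exp (-x) * Real.exp x = 1 := by rw [← Real.exp_add]; simp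
    have h3 : 0 < q := Real.exp_pos _
    have h4 : q * (1 + x + x ^ 2 / 2) ≤ 1 := by
      calc q * (1 + x + x ^ 2 / 2) ≤ q * Real.exp x := mul_le_mul_of_nonneg_left h h3.le
        _ = 1 := h2
    have h5 : 1 ≤ (1 - x + x ^ 2 / 2) * (1 + x + x ^ 2 / 2) := by nlinarith [sq_nonneg (x ^ 2)]
    have h6 : 0 < 1 + x + x ^ 2 / 2 := by positivity
    exact le_of_mul_le_mul_right (h4.trans h5) h6
  rw [div_le_div_iff₀ (by linarith) hx]
  nlinarith

theorem eS_pi (d : ℕ) (x : ℝ) : eS (Fin d → ℤ) x = S1 x ^ d := by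
  induction d with
  | zero =>
    rw [pow_zero, eS, tsum_eq_single (0 : Fin 0 → ℤ)
      (fun b hb => absurd (Subsingleton.elim b 0) hb), len_zero]
    simp
  | succ d ih =>
    have h := (Fin.consEquiv (fun _ : Fin (d + 1) => ℤ)).tsum_eq
      (fun k : Fin (d + 1) → ℤ => ENNReal.ofReal (Real.exp (-x * len k)))
    rw [eS, ← h, ENNReal.tsum_prod', pow_succ', ← ih, S1, eS, ← ENNReal.tsum_mul_right]
    refine tsum_congr fun a => ?_
    rw [← ENNReal.tsum_mul_left]
    refine tsum_congr fun b => ?_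
    rw [← ENNReal.ofReal_mul (Real.exp_pos _).le, ← Real.exp_add, ← mul_add]
    congr 3
    change (∑ i : Fin (d + 1), |(((Fin.cons a b : Fin (d + 1) → ℤ) i : ℤ) : ℝ)|) =
      |(a : ℝ)| + ∑ i, |(b i : ℝ)|
    rw [Fin.sum_univ_succ]
    simp

/-- The modes of level `n` are the vectors with `n + 1` integer entries. -/
noncomputable def levEquiv (n : ℕ) : lev n ≃ (Fin (n + 1) → ℤ) where
  toFun q i := (q : ℕ →₀ ℤ) i
  invFun f := ⟨Finsupp.onFinset (Finset.range (n + 1))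
    (fun i => if h : i < n + 1 then f ⟨i, h⟩ else 0) (by
      intro i hi
      by_contra hcon
      rw [Finset.mem_range] at hcon
      exact hi (dif_neg hcon)), by
    intro i hi
    rw [Finsupp.onFinset_apply, dif_neg (by omega)]⟩
  left_inv q := by
    apply Subtype.ext
    ext i
    rw [Finsupp.onFinset_apply]
    by_cases h : i < n + 1
    · rw [dif_pos h]
    · have : (q : ℕ →₀ ℤ) i = 0 := q.2 i (by omega)
      rw [dif_neg h, this]
  right_inv f := by
    funext i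
    change (if h : (i : ℕ) < n + 1 then f ⟨i, h⟩ else 0) = f i
    rw [dif_pos i.2]

theorem len_lev (n : ℕ) (q : lev n) : len (q : ℕ →₀ ℤ) = len (levEquiv n q) := by
  have h : (q : ℕ →₀ ℤ).support ⊆ Finset.range (n + 1) := by
    intro i hi
    by_contra hcon
    rw [Finset.mem_range] at hcon
    exact (Finsupp.mem_support_iff.1 hi) (q.2 i (by omega))
  have h1 : len (q : ℕ →₀ ℤ) = ∑ i ∈ Finset.range (n + 1), |(((q : ℕ →₀ ℤ) i : ℤ) : ℝ)| :=
    Finsupp.sum_of_support_subset _ h _ (by simp)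
  rw [h1, Finset.sum_range]
  rfl

theorem eSL_lev (n : ℕ) (x : ℝ) : eSL (lev n) x = S1 x ^ (n + 1) := by
  rw [← eS_pi, eS, ← (levEquiv n).tsum_eq, eSL]
  exact tsum_congr fun q => by rw [len_lev]

end P21

open P21 in
theorem pr_W21 : W21 := by
  refine ⟨fun d x hx => ⟨?_, fun hx1 => ?_⟩, fun n x hx => ⟨?_, fun hx1 => ?_⟩⟩
  · rw [eS_pi]
    exact ENNReal.pow_ne_top (S1_ne_top hx)
  · rw [eS_pi, ENNReal.ofReal_pow (by positivity)]
    exact pow_le_pow_left' (S1_le hx hx1) d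
  · rw [eSL_lev]
    exact ENNReal.pow_ne_top (S1_ne_top hx)
  · rw [eSL_lev, ENNReal.ofReal_pow (by positivity)]
    exact pow_le_pow_left' (S1_le hx hx1) _

end Pool.Agent.Work.MP_b0497c_an.Unf.W
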