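import Pool.Agent.Work.MP_b0497c_an.Unf.WDefs

set_option autoImplicit false

/-!
# Evaluation of coefficient families at real phases

`θ : Γ →+ ℝ` is a point of the (universal cover of the dual) torus, `ev θ f = ∑ e^{i θ(q)} f q`.
-/

open scoped ENNReal ContDiff
open Set MeasureTheory Filter Topology

namespace Pool.Agent.Work.MP_b0497c_an.Unf.W

section ev

variable {Γ : Type} [AddCommGroup Γ]
  {E F G : Type} [NormedAddCommGroup E] [NormedSpace ℂ E] [NormedAddCommGroup F] [NormedSpace ℂ F]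
  [NormedAddCommGroup G] [NormedSpace ℂ G]

/-- The character of a real phase. -/
noncomputable def ch (θ : Γ →+ ℝ) (q : Γ) : ℂ := Complex.exp (Complex.I * (θ q : ℂ))

theorem ch_norm (θ : Γ →+ ℝ) (q : Γ) : ‖ch θ q‖ = 1 := by
  rw [ch, mul_comm, Complex.norm_exp_ofReal_mul_I]

theorem ch_add (θ : Γ →+ ℝ) (q p : Γ) : ch θ (q + p) = ch θ q * ch θ p := by
  rw [ch, ch, ch, ← Complex.exp_add, map_add]
  push_cast
  ring_nf

theorem ch_zero (θ : Γ →+ ℝ) : ch θ 0 = 1 := by simp [ch]

theorem ch_neg (θ : Γ →+ ℝ) (q : Γ) : ch θ (-q) = (starRingEnd ℂ) (ch θ q) := by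
  rw [ch, ch, ← Complex.exp_conj]
  simp

/-- Evaluation of a coefficient family. -/
noncomputable def ev (θ : Γ →+ ℝ) (f : Γ → E) : E := ∑' q, ch θ q • f q

theorem norm_ch_smul (θ : Γ →+ ℝ) (q : Γ) (x : E) : ‖ch θ q • x‖ = ‖x‖ := by
  rw [norm_smul, ch_norm, one_mul]

theorem summable_ch [CompleteSpace E] (θ : Γ →+ ℝ) {f : Γ → E} (hf : Summable fun q => ‖f q‖) :
    Summable fun q => ch θ q • f q := by
  apply Summable.of_norm
  simpa only [norm_ch_smul] using hf

theorem norm_ev_le (θ : Γ →+ ℝ) {f : Γ → E} (hf : Summable fun q => ‖f q‖) :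
    ‖ev θ f‖ ≤ ∑' q, ‖f q‖ := by
  have h := norm_tsum_le_tsum_norm (f := fun q => ch θ q • f q)
    (by simpa only [norm_ch_smul] using hf)
  simp only [norm_ch_smul] at h
  exact h

theorem ev_add [CompleteSpace E] (θ : Γ →+ ℝ) {f g : Γ → E} (hf : Summable fun q => ‖f q‖)
    (hg : Summable fun q => ‖g q‖) : ev θ (f + g) = ev θ f + ev θ g := by
  simp only [ev, Pi.add_apply, smul_add]
  exact (summable_ch θ hf).tsum_add (summable_ch θ hg)

theorem ev_neg (θ : Γ →+ ℝ) (f : Γ → E) : ev θ (-f) = -ev θ f := by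
  simp only [ev, Pi.neg_apply, smul_neg, tsum_neg]

theorem ev_map [CompleteSpace E] (θ : Γ →+ ℝ) {f : Γ → E} (hf : Summable fun q => ‖f q‖)
    (L : E →L[ℂ] F) : ev θ (fun q => L (f q)) = L (ev θ f) := by
  rw [ev, ev, L.map_tsum (summable_ch θ hf)]
  simp only [map_smul]

/-- Evaluation is multiplicative. -/
theorem ev_conv [CompleteSpace E] [CompleteSpace F] [CompleteSpace G] (θ : Γ →+ ℝ)
    (β : E →L[ℂ] F →L[ℂ] G) {f : Γ → E} {g : Γ → F}
    (hf : Summable fun q => ‖f q‖) (hg : Summable fun q => ‖g q‖) :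
    ev θ (conv β f g) = β (ev θ f) (ev θ g) := by
  have hF := summable_ch θ hf
  have hG := summable_ch θ hg
  have hprod : Summable (fun z : Γ × Γ => ‖f z.1‖ * ‖g z.2‖) :=
    hf.mul_of_nonneg hg (fun _ => norm_nonneg _) (fun _ => norm_nonneg _)
  have h2 : Summable (fun z : Γ × Γ => β (ch θ z.1 • f z.1) (ch θ z.2 • g z.2)) := by
    apply Summable.of_norm_bounded (g := fun z : Γ × Γ => ‖β‖ * (‖f z.1‖ * ‖g z.2‖))
      (hprod.mul_left _)
    intro z
    refine (β.le_opNorm₂ _ _).trans ?_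
    rw [norm_ch_smul, norm_ch_smul, mul_assoc]
  have e1 : β (ev θ f) (ev θ g) = ∑' z : Γ × Γ, β (ch θ z.1 • f z.1) (ch θ z.2 • g z.2) := by
    rw [h2.tsum_prod' (fun p => by
      exact ((β (ch θ p • f p)).summable hG))]
    have a1 : β (ev θ f) (ev θ g) = (β.flip (ev θ g)) (∑' p, ch θ p • f p) := rfl
    rw [a1, (β.flip (ev θ g)).map_tsum hF]
    congr 1
    funext p
    rw [ContinuousLinearMap.flip_apply, ev, (β (ch θ p • f p)).map_tsum hG]
  -- change of variables
  let e : Γ × Γ ≃ Γ × Γ :=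
    { toFun := fun z => (z.1 - z.2, z.2)
      invFun := fun z => (z.1 + z.2, z.2)
      left_inv := fun z => by simp
      right_inv := fun z => by simp }
  rw [e1, ← e.tsum_eq]
  have h3 : Summable (fun z : Γ × Γ => β (ch θ (e z).1 • f (e z).1) (ch θ (e z).2 • g (e z).2)) :=
    e.summable_iff.mpr h2
  have h4 : ∀ m l : Γ, β (ch θ (e (m, l)).1 • f (e (m, l)).1) (ch θ (e (m, l)).2 • g (e (m, l)).2)
      = ch θ m • β (f (m - l)) (g l) := by
    intro m l
    show β (ch θ (m - l) • f (m - l)) (ch θ l • g l) = _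
    rw [map_smul, map_smul, smul_apply, smul_smul]
    congr 1
    rw [mul_comm, ← ch_add, sub_add_cancel]
  rw [h3.tsum_prod' (fun m => h3.prod_factor m)]
  simp only [h4]
  rw [ev]
  congr 1
  funext m
  rw [conv]
  have h5 : Summable (fun l => β (f (m - l)) (g l)) := by
    have h6 := h3.prod_factor m
    simp only [h4] at h6
    have h7 := h6.const_smul (ch θ m)⁻¹
    refine h7.congr fun l => ?_
    rw [smul_smul, inv_mul_cancel₀, one_smul]
    intro h0
    have := ch_norm θ m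
    rw [h0, norm_zero] at this
    norm_num at this
  rw [h5.tsum_const_smul]

end ev

end Pool.Agent.Work.MP_b0497c_an.Unf.W
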