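import Pool.Agent.Work.MP_b0497c_an.Forced.Ode.Linear
import Pool.Agent.Work.MP_b0497c_an.Bd.B11

set_option autoImplicit false

/-!
# Perturbation of weighted bounds for the propagator of a linear ODE (block K)

`PB A a b C w`: every solution of `u' = A u` on `[s,t] ⊆ [a,b]` satisfies
`‖u t‖ ≤ C (w t / w s) ‖u s‖`.
-/

open scoped Topology
open Set MeasureTheory

namespace Pool.Agent.Work.MP_b0497c_an.Unf.K

variable {V : Type} [NormedAddCommGroup V] [NormedSpace ℝ V]

/-- Weighted bound for the propagator of `u' = A u` on `[a,b]`. -/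
def PB (A : ℝ → V →L[ℝ] V) (a b C : ℝ) (w : ℝ → ℝ) : Prop :=
  ∀ s ∈ Icc a b, ∀ t ∈ Icc s b, ∀ u : ℝ → V, (∀ r ∈ Icc s t, HasDerivAt u (A r (u r)) r) →
    ‖u t‖ ≤ C * (w t / w s) * ‖u s‖

namespace PB

variable [CompleteSpace V]

open Forced.Ode.Linear in
/-- A fundamental solution and its inverse. -/
theorem exists_fund {A : ℝ → V →L[ℝ] V} (hA : Continuous A) :
    ∃ Y Z : ℝ → V →L[ℝ] V, (∀ t, HasDerivAt Y ((A t).comp (Y t)) t) ∧
      (∀ t, HasDerivAt Z (-((Z t).comp (A t))) t) ∧ (∀ t, (Z t).comp (Y t) = 1) ∧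
      ∀ t, (Y t).comp (Z t) = 1 := by
  have hl : Continuous fun r => ContinuousLinearMap.compL ℝ V V V (A r) :=
    (ContinuousLinearMap.compL ℝ V V V).continuous.comp hA
  have hr : Continuous fun r => -((ContinuousLinearMap.compL ℝ V V V).flip (A r)) :=
    ((ContinuousLinearMap.compL ℝ V V V).flip.continuous.comp hA).neg
  set Y : ℝ → V →L[ℝ] V := sol (fun r => ContinuousLinearMap.compL ℝ V V V (A r))
    (fun _ => (0 : V →L[ℝ] V)) 0 (1 : V →L[ℝ] V) with hYdef
  set Z : ℝ → V →L[ℝ] V := sol (fun r => -((ContinuousLinearMap.compL ℝ V V V).flip (A r)))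
    (fun _ => (0 : V →L[ℝ] V)) 0 (1 : V →L[ℝ] V) with hZdef
  have hY : ∀ t, HasDerivAt Y ((A t).comp (Y t)) t := by
    intro t
    have h := sol_deriv (r := fun _ => (0 : V →L[ℝ] V)) hl continuous_const 0 (1 : V →L[ℝ] V) t
    refine h.congr_deriv ?_
    simp [hYdef]
  have hZ : ∀ t, HasDerivAt Z (-((Z t).comp (A t))) t := by
    intro t
    have h := sol_deriv (r := fun _ => (0 : V →L[ℝ] V)) hr continuous_const 0 (1 : V →L[ℝ] V) t
    refine h.congr_deriv ?_
    simp [hZdef]
  have hY0 : Y 0 = 1 := sol_init _ _ _ _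
  have hZ0 : Z 0 = 1 := sol_init _ _ _ _
  refine ⟨Y, Z, hY, hZ, ?_, ?_⟩
  · have hd : ∀ t, HasDerivAt (fun t => (Z t).comp (Y t)) 0 t := by
      intro t
      have h := (hZ t).clm_comp (hY t)
      refine h.congr_deriv ?_
      ext x
      simp
    intro t
    have hc := is_const_of_deriv_eq_zero (f := fun t => (Z t).comp (Y t))
      (fun t => (hd t).differentiableAt) (fun t => (hd t).deriv) t 0
    simp only [hY0, hZ0] at hc
    rw [hc]
    rfl
  · have hd : ∀ t, HasDerivAt (fun t => (Y t).comp (Z t))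
        ((A t).comp ((Y t).comp (Z t)) - ((Y t).comp (Z t)).comp (A t)) t := by
      intro t
      have h := (hY t).clm_comp (hZ t)
      refine h.congr_deriv ?_
      ext x
      simp [sub_eq_add_neg]
    have hU := Forced.Ode.prf_StUnique (V →L[ℝ] V)
      (fun t => ContinuousLinearMap.compL ℝ V V V (A t) -
        (ContinuousLinearMap.compL ℝ V V V).flip (A t)) (fun _ => 0)
      (((ContinuousLinearMap.compL ℝ V V V).continuous.comp hA).sub
        ((ContinuousLinearMap.compL ℝ V V V).flip.continuous.comp hA)) 0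
      (fun t => (Y t).comp (Z t)) (fun _ => 1) (by simp only [hY0, hZ0]; rfl)
      (by
        intro t
        refine (hd t).congr_deriv ?_
        simp)
      (by
        intro t
        refine (hasDerivAt_const t (1 : V →L[ℝ] V)).congr_deriv ?_
        ext x
        simp)
    intro t
    exact congrFun hU t

/-- Duhamel's formula in the form of an estimate: `u' = A u + g`, `‖g‖ ≤ h w`. -/
theorem duhamel {A : ℝ → V →L[ℝ] V} {a b C : ℝ} {w : ℝ → ℝ} (hA : Continuous A)
    (hw : ∀ r ∈ Icc a b, 0 < w r) (hPB : PB A a b C w) {s t : ℝ} (hs : s ∈ Icc a b)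
    (ht : t ∈ Icc s b) {u g : ℝ → V} {h : ℝ → ℝ} (hh : ContinuousOn h (Icc s t))
    (hu : ∀ r ∈ Icc s t, HasDerivAt u (A r (u r) + g r) r) (hg : ContinuousOn g (Icc s t))
    (hgb : ∀ r ∈ Icc s t, ‖g r‖ ≤ h r * w r) (hC : 0 ≤ C) :
    ‖u t‖ ≤ C * w t * (‖u s‖ / w s + ∫ r in s..t, h r) := by
  obtain ⟨Y, Z, hY, hZ, hZY, hYZ⟩ := exists_fund hA
  have hYc : Continuous Y := continuous_iff_continuousAt.2 fun t => (hY t).continuousAt
  have hZc : Continuous Z := continuous_iff_continuousAt.2 fun t => (hZ t).continuousAt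
  have htw : 0 < w t := hw t ⟨hs.1.trans ht.1, ht.2⟩
  -- the propagator bound
  have hΦ : ∀ r ∈ Icc s t, ∀ z : V, ‖Y t (Z r z)‖ ≤ C * (w t / w r) * ‖z‖ := by
    intro r hr z
    have h1 := hPB r ⟨hs.1.trans hr.1, hr.2.trans ht.2⟩ t ⟨hr.2, ht.2⟩ (fun x => Y x (Z r z))
      (fun x _ => by
        have h2 := (hY x).clm_apply (hasDerivAt_const x (Z r z))
        refine h2.congr_deriv ?_
        simp)
    have h2 : Y r (Z r z) = z := by
      have := congrArg (fun T : V →L[ℝ] V => T z) (hYZ r)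
      simpa using this
    simp only [h2] at h1
    exact h1
  have hdif : ∀ r ∈ Icc s t, HasDerivAt (fun r => Y t (Z r (u r))) (Y t (Z r (g r))) r := by
    intro r hr
    have h1 := (hZ r).clm_apply (hu r hr)
    have h2 := (Y t).hasFDerivAt.comp_hasDerivAt r h1
    refine h2.congr_deriv ?_
    simp
  have hint : IntervalIntegrable (fun r => Y t (Z r (g r))) volume s t := by
    apply ContinuousOn.intervalIntegrable
    rw [uIcc_of_le ht.1]
    exact (Y t).continuous.comp_continuousOn (hZc.continuousOn.clm_apply hg)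
  have hFTC : ∫ r in s..t, Y t (Z r (g r)) = Y t (Z t (u t)) - Y t (Z s (u s)) := by
    refine intervalIntegral.integral_eq_sub_of_hasDerivAt (f := fun r => Y t (Z r (u r))) ?_ hint
    rw [uIcc_of_le ht.1]
    exact hdif
  have h3 : Y t (Z t (u t)) = u t := by
    have := congrArg (fun T : V →L[ℝ] V => T (u t)) (hYZ t)
    simpa using this
  have h4 : u t = Y t (Z s (u s)) + ∫ r in s..t, Y t (Z r (g r)) := by
    rw [hFTC, h3]
    abel
  have hhi : IntervalIntegrable (fun r => C * w t * h r) volume s t := by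
    apply ContinuousOn.intervalIntegrable
    rw [uIcc_of_le ht.1]
    exact continuousOn_const.mul hh
  have h5 : ‖∫ r in s..t, Y t (Z r (g r))‖ ≤ ∫ r in s..t, C * w t * h r := by
    apply intervalIntegral.norm_integral_le_of_norm_le ht.1 _ hhi
    refine Filter.Eventually.of_forall fun r hr => ?_
    have hr' : r ∈ Icc s t := ⟨hr.1.le, hr.2⟩
    have hwr : 0 < w r := hw r ⟨hs.1.trans hr'.1, hr'.2.trans ht.2⟩
    calc ‖Y t (Z r (g r))‖ ≤ C * (w t / w r) * ‖g r‖ := hΦ r hr' _
      _ ≤ C * (w t / w r) * (h r * w r) := by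
        apply mul_le_mul_of_nonneg_left (hgb r hr')
        positivity
      _ = C * w t * h r := by field_simp
  calc ‖u t‖ = ‖Y t (Z s (u s)) + ∫ r in s..t, Y t (Z r (g r))‖ := by rw [← h4]
    _ ≤ ‖Y t (Z s (u s))‖ + ‖∫ r in s..t, Y t (Z r (g r))‖ := norm_add_le _ _
    _ ≤ C * (w t / w s) * ‖u s‖ + ∫ r in s..t, C * w t * h r :=
      add_le_add (hΦ s ⟨le_refl s, ht.1⟩ _) h5
    _ = C * w t * (‖u s‖ / w s + ∫ r in s..t, h r) := by
      rw [intervalIntegral.integral_const_mul]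
      ring

/-- Perturbation of the generator. -/
theorem perturb {A B : ℝ → V →L[ℝ] V} {a b C δ : ℝ} {w : ℝ → ℝ} (hA : Continuous A)
    (hB : Continuous B) (hw : ∀ r ∈ Icc a b, 0 < w r) (hwc : ContinuousOn w (Icc a b))
    (hC : 0 ≤ C) (hδ : 0 ≤ δ) (hAB : ∀ r ∈ Icc a b, ‖B r - A r‖ ≤ δ) (hPB : PB A a b C w) :
    ∀ s ∈ Icc a b, ∀ t ∈ Icc s b, ∀ u : ℝ → V,
      (∀ r ∈ Icc s t, HasDerivAt u (B r (u r)) r) →
      ‖u t‖ ≤ C * Real.exp (C * δ * (t - s)) * (w t / w s) * ‖u s‖ := by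
  intro s hs t ht u hu
  have hsub : Icc s t ⊆ Icc a b := fun r hr => ⟨hs.1.trans hr.1, hr.2.trans ht.2⟩
  have huc : ContinuousOn u (Icc s t) := fun r hr => (hu r hr).continuousAt.continuousWithinAt
  set N : ℝ → ℝ := fun r => ‖u r‖ / w r with hN
  have hNc : ContinuousOn N (Icc s t) :=
    huc.norm.div (hwc.mono hsub) fun r hr => (hw r (hsub hr)).ne'
  have hN0 : ∀ r ∈ Icc s t, 0 ≤ N r := fun r hr => div_nonneg (norm_nonneg _) (hw r (hsub hr)).le
  -- integral inequality
  have hint : ∀ x ∈ Icc s t, N x ≤ C * N s + C * δ * ∫ r in s..x, N r := by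
    intro x hx
    have hgc : ContinuousOn (fun r => (B r - A r) (u r)) (Icc s x) :=
      (hB.continuousOn.sub hA.continuousOn).clm_apply (huc.mono fun r hr => ⟨hr.1, hr.2.trans hx.2⟩)
    have h1 := duhamel (u := u) (g := fun r => (B r - A r) (u r)) (h := fun r => δ * N r) hA hw hPB
      hs ⟨hx.1, hx.2.trans ht.2⟩
      (continuousOn_const.mul (hNc.mono fun r hr => ⟨hr.1, hr.2.trans hx.2⟩))
      (fun r hr => by
        refine (hu r ⟨hr.1, hr.2.trans hx.2⟩).congr_deriv ?_
        simp) hgc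
      (fun r hr => by
        have hr' : r ∈ Icc s t := ⟨hr.1, hr.2.trans hx.2⟩
        have hwr := hw r (hsub hr')
        calc ‖(B r - A r) (u r)‖ ≤ ‖B r - A r‖ * ‖u r‖ := ContinuousLinearMap.le_opNorm _ _
          _ ≤ δ * ‖u r‖ := mul_le_mul_of_nonneg_right (hAB r (hsub hr')) (norm_nonneg _)
          _ = δ * N r * w r := by rw [hN]; field_simp) hC
    have hwx := hw x (hsub hx)
    rw [hN]
    simp only
    rw [div_le_iff₀ hwx]
    refine h1.trans (le_of_eq ?_)
    rw [intervalIntegral.integral_const_mul]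
    ring
  -- Gronwall
  set H : ℝ → ℝ := fun x => C * N s + C * δ * ∫ r in s..x, N r with hH
  have hHs : H s = C * N s := by simp [hH]
  have hcont : ContinuousOn H (Icc s t) := by
    have h1 : ContinuousOn (fun x => ∫ r in s..x, N r) (Icc s t) := by
      have h2 := intervalIntegral.continuousOn_primitive_interval (f := N) (a := s) (b := t)
        (μ := volume) (by
          rw [uIcc_of_le ht.1]
          exact hNc.integrableOn_Icc)
      rw [uIcc_of_le ht.1] at h2
      exact h2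
    exact continuousOn_const.add (continuousOn_const.mul h1)
  have hderiv : ∀ x ∈ Ico s t, HasDerivWithinAt H (C * δ * N x) (Ici x) x := by
    intro x hx
    have hxs : Icc s t ∈ 𝓝[>] x := by
      apply Filter.mem_of_superset (Ioo_mem_nhdsGT hx.2)
      intro y hy
      exact ⟨hx.1.trans hy.1.le, hy.2.le⟩
    have h1 : HasDerivWithinAt (fun x => ∫ r in s..x, N r) (N x) (Ici x) x := by
      apply intervalIntegral.integral_hasDerivWithinAt_right
      · apply ContinuousOn.intervalIntegrable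
        rw [uIcc_of_le hx.1]
        exact hNc.mono fun r hr => ⟨hr.1, hr.2.trans hx.2.le⟩
      · refine ⟨Icc s t, hxs, ?_⟩
        exact hNc.aestronglyMeasurable measurableSet_Icc
      · exact (hNc x ⟨hx.1, hx.2.le⟩).mono_of_mem_nhdsWithin hxs
    have h2 := (h1.const_mul (C * δ)).const_add (C * N s)
    exact h2
  have hG := le_gronwallBound_of_liminf_deriv_right_le (f := H) (f' := fun x => C * δ * N x)
    (δ := C * N s) (K := C * δ) (ε := 0) (a := s) (b := t) hcont
    (fun x hx r hr => (hderiv x hx).liminf_right_slope_le hr) hHs.le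
    (fun x hx => by
      have h1 := hint x ⟨hx.1, hx.2.le⟩
      rw [add_zero]
      exact mul_le_mul_of_nonneg_left h1 (mul_nonneg hC hδ)) t ⟨ht.1, le_refl t⟩
  rw [gronwallBound_ε0] at hG
  have h6 := (hint t ⟨ht.1, le_refl t⟩).trans hG
  have hwt := hw t (hsub ⟨ht.1, le_refl t⟩)
  rw [hN] at h6
  simp only at h6
  rw [div_le_iff₀ hwt] at h6
  refine h6.trans (le_of_eq ?_)
  ring

/-- Perturbation of the generator, packaged. -/
theorem perturb' {A B : ℝ → V →L[ℝ] V} {a b C δ : ℝ} {w : ℝ → ℝ} (hA : Continuous A)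
    (hB : Continuous B) (hw : ∀ r ∈ Icc a b, 0 < w r) (hwc : ContinuousOn w (Icc a b))
    (hC : 0 ≤ C) (hδ : 0 ≤ δ) (hAB : ∀ r ∈ Icc a b, ‖B r - A r‖ ≤ δ) (hPB : PB A a b C w) :
    PB B a b (C * Real.exp (C * δ * (b - a))) w := by
  intro s hs t ht u hu
  refine (perturb hA hB hw hwc hC hδ hAB hPB s hs t ht u hu).trans ?_
  have hws := hw s hs
  have hwt := hw t ⟨hs.1.trans ht.1, ht.2⟩
  have h1 : Real.exp (C * δ * (t - s)) ≤ Real.exp (C * δ * (b - a)) := by
    apply Real.exp_le_exp.2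
    apply mul_le_mul_of_nonneg_left _ (mul_nonneg hC hδ)
    linarith [hs.1, ht.2]
  have h2 : 0 ≤ w t / w s := by positivity
  gcongr

/-- Comparison of two solutions with the same initial value. -/
theorem diff {A B : ℝ → V →L[ℝ] V} {a b C δ : ℝ} {w : ℝ → ℝ} (hA : Continuous A)
    (hB : Continuous B) (hw : ∀ r ∈ Icc a b, 0 < w r) (hwc : ContinuousOn w (Icc a b))
    (hC : 0 ≤ C) (hδ : 0 ≤ δ) (hAB : ∀ r ∈ Icc a b, ‖B r - A r‖ ≤ δ) (hPB : PB A a b C w)
    {s t : ℝ} (hs : s ∈ Icc a b) (ht : t ∈ Icc s b) {u v : ℝ → V}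
    (hu : ∀ r ∈ Icc s t, HasDerivAt u (A r (u r)) r)
    (hv : ∀ r ∈ Icc s t, HasDerivAt v (B r (v r)) r) (huv : u s = v s) :
    ‖v t - u t‖ ≤ C * (C * δ * (t - s)) * Real.exp (C * δ * (t - s)) * (w t / w s) * ‖v s‖ := by
  have hsub : Icc s t ⊆ Icc a b := fun r hr => ⟨hs.1.trans hr.1, hr.2.trans ht.2⟩
  have hvc : ContinuousOn v (Icc s t) := fun r hr => (hv r hr).continuousAt.continuousWithinAt
  have hws := hw s hs
  set K : ℝ := δ * (C * Real.exp (C * δ * (t - s)) * ‖v s‖ / w s) with hK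
  have h1 := duhamel (u := fun r => v r - u r) (g := fun r => (B r - A r) (v r))
    (h := fun _ => K) hA hw hPB hs ht continuousOn_const
    (fun r hr => by
      refine ((hv r hr).sub (hu r hr)).congr_deriv ?_
      simp)
    ((hB.continuousOn.sub hA.continuousOn).clm_apply hvc)
    (fun r hr => by
      have hwr := hw r (hsub hr)
      have h2 := perturb hA hB hw hwc hC hδ hAB hPB s hs r ⟨hr.1, hr.2.trans ht.2⟩ v
        (fun x hx => hv x ⟨hx.1, hx.2.trans hr.2⟩)
      have h3 : Real.exp (C * δ * (r - s)) ≤ Real.exp (C * δ * (t - s)) := by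
        apply Real.exp_le_exp.2
        apply mul_le_mul_of_nonneg_left _ (mul_nonneg hC hδ)
        linarith [hr.2]
      calc ‖(B r - A r) (v r)‖ ≤ ‖B r - A r‖ * ‖v r‖ := ContinuousLinearMap.le_opNorm _ _
        _ ≤ δ * ‖v r‖ := mul_le_mul_of_nonneg_right (hAB r (hsub hr)) (norm_nonneg _)
        _ ≤ δ * (C * Real.exp (C * δ * (r - s)) * (w r / w s) * ‖v s‖) :=
          mul_le_mul_of_nonneg_left h2 hδ
        _ ≤ δ * (C * Real.exp (C * δ * (t - s)) * (w r / w s) * ‖v s‖) := by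
          gcongr
        _ = K * w r := by rw [hK]; field_simp) hC
  simp only [huv, sub_self, norm_zero, zero_div, zero_add, intervalIntegral.integral_const,
    smul_eq_mul] at h1
  refine h1.trans (le_of_eq ?_)
  rw [hK]
  field_simp

end PB

end Pool.Agent.Work.MP_b0497c_an.Unf.K
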