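import Pool.Agent.Work.MP_b0497c_an.Unf.SDefs
import Pool.Agent.Work.MP_b0497c_an.Unf.Ev
import Pool.Agent.Work.MP_b0497c_an.Unf.KPert

set_option autoImplicit false

/-!
# Block C: from bounds at real labels to weighted l1 norms; level data for the projectors

Convention: prove `theorem cXX : CXX` in the file `Unf/CXX.lean`, namespace `..Unf.S`.
-/

open scoped ENNReal
open Set MeasureTheory

namespace Pool.Agent.Work.MP_b0497c_an.Unf.S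

open W

/-- C01: a coefficient is bounded by the sup over the real labels. -/
def C01 : Prop := ∀ (E : Type) [NormedAddCommGroup E] [NormedSpace ℂ E] [CompleteSpace E]
  (n : ℕ) (f : Md → E) (b : ℝ), SuppIn (lev n : Set Md) f → (Summable fun q => ‖f q‖) →
  (∀ θ : Md →+ ℝ, ‖ev θ f‖ ≤ b) → ∀ q, ‖f q‖ ≤ b

/-- C02: the gentle lemma, pointwise and summed. -/
def C02 : Prop := ∀ (n : ℕ) (a : Md → ℝ) (c B b : ℝ), 0 < c → c ≤ 1 → 1 ≤ B → 0 < b →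
  (∀ q, 0 ≤ a q) → (∀ q, q ∉ lev n → a q = 0) → (∀ q, a q ≤ b) →
  (∀ q, a q ≤ b * Real.exp (B - c * len q)) →
  (∀ q, a q ≤ Real.exp 1 * b * Real.exp (-(c / (2 * B)) * len q)) ∧
  (∑' q, ENNReal.ofReal (Real.exp (c / (4 * B) * len q) * a q)) ≤
    ENNReal.ofReal (3 * b * (12 * B / c) ^ (n + 1))

/-- C03: the gentle lemma for a time dependent function bounded at all real labels. -/
def C03 : Prop := ∀ (E : Type) [NormedAddCommGroup E] [NormedSpace ℂ E] [CompleteSpace E]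
  (n : ℕ) (T c B b : ℝ) (α : ℝ → ℝ) (f : ℝ → Md → E), 0 < c → c ≤ 1 → 1 ≤ B → 0 < b → 0 < T →
  (∀ t ∈ Icc 0 T, 0 < α t) → SuppT T (lev n : Set Md) f →
  (∀ t ∈ Icc 0 T, ∀ θ : Md →+ ℝ, ‖ev θ (f t)‖ ≤ b * α t) →
  Nrm T c 0 α f ≤ ENNReal.ofReal (b * Real.exp B) →
  Nrm T (c / (4 * B)) 0 α f ≤ ENNReal.ofReal (3 * b * (12 * B / c) ^ (n + 1))

/-- C04: the propagator of a multiplication generator is a multiplication (from W23). -/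
def C04 : Prop := ∀ (n : ℕ) (T c β : ℝ) (h : ℝ → Md → Mat), 0 < T → 0 < c → 1 ≤ β →
  CM T h → SuppT T (lev n : Set Md) h → Nrm T c 0 Dat.one' h ≤ ENNReal.ofReal β →
  ∃ Φ : ℝ → ℝ → Md → Mat, IsProp T (fun t => mulK (h t)) (fun t s => mulK (Φ t s)) ∧
    (∀ s ∈ Icc 0 T, ∀ t ∈ Icc 0 T, SuppIn (lev n : Set Md) (Φ t s)) ∧
    (∀ s ∈ Icc 0 T, ∀ t ∈ Icc 0 T, sN c (Φ t s) ≤ ENNReal.ofReal (Real.exp (β * |t - s|))) ∧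
    (∀ s ∈ Icc 0 T, ∀ t ∈ Icc 0 T, ∀ θ : Md →+ ℝ,
      HasDerivWithinAt (fun t => ev θ (Φ t s)) ((ev θ (h t)).comp (ev θ (Φ t s))) (Icc 0 T) t) ∧
    (∀ s ∈ Icc 0 T, ∀ θ : Md →+ ℝ, ev θ (Φ s s) = ContinuousLinearMap.id ℂ C3)

/-- C05: (C6 of FC.md) real bound of the propagator implies the weighted kernel bound. -/
def C05 : Prop := ∀ (n : ℕ) (T c β Ec : ℝ) (α : ℝ → ℝ) (Φ : ℝ → ℝ → Md → Mat), 0 < T → T ≤ 1 →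
  0 < c → c ≤ 1 → 1 ≤ β → 1 ≤ Ec → Wt T α →
  (∀ s ∈ Icc 0 T, ∀ t ∈ Icc 0 T, SuppIn (lev n : Set Md) (Φ t s)) →
  (∀ s ∈ Icc 0 T, ∀ t ∈ Icc 0 T, sN c (Φ t s) ≤ ENNReal.ofReal (Real.exp (β * |t - s|))) →
  (∀ s ∈ Icc 0 T, ∀ t ∈ Icc s T, ∀ θ : Md →+ ℝ, ‖ev θ (Φ t s)‖ ≤ Ec * (α t / α s)) →
  PN T (c / (4 * (β + 1))) α α (fun t s => mulK (Φ t s)) ≤
    ENNReal.ofReal (3 * Ec * (12 * (β + 1) / c) ^ (n + 1))

/-- Real vectors as complex vectors. -/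
noncomputable def cx (x : EuclideanSpace ℝ (Fin 3)) : C3 := WithLp.toLp 2 fun i => ((x i : ℝ) : ℂ)

/-- C06: the bound `PB` for the real pointwise generator bounds the complex propagator. -/
def C06 : Prop := ∀ (T Ec : ℝ) (α : ℝ → ℝ) (θ : Md →+ ℝ) (h : ℝ → Md → Mat)
  (Φ : ℝ → ℝ → Md → Mat)
  (A : ℝ → EuclideanSpace ℝ (Fin 3) →L[ℝ] EuclideanSpace ℝ (Fin 3)), 0 < T →
  (∀ t ∈ Icc 0 T, 0 < α t) → 0 ≤ Ec →
  (∀ t ∈ Icc 0 T, ∀ x, ev θ (h t) (cx x) = cx (A t x)) → K.PB A 0 T Ec α →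
  (∀ s ∈ Icc 0 T, ∀ t ∈ Icc 0 T,
      HasDerivWithinAt (fun t => ev θ (Φ t s)) ((ev θ (h t)).comp (ev θ (Φ t s))) (Icc 0 T) t) →
  (∀ s ∈ Icc 0 T, ev θ (Φ s s) = ContinuousLinearMap.id ℂ C3) →
  ∀ s ∈ Icc 0 T, ∀ t ∈ Icc s T, ‖ev θ (Φ t s)‖ ≤ Ec * (α t / α s)

/-- C07: weighted Lipschitz bound of the projector (product form of W17, `sup_t` inside). -/
def C07 : Prop := ∀ (Λ : AddSubgroup Md) (T c b e : ℝ) (F Fi F1 Fi1 : ℝ → Md → Mat)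
  (ξ : Md → C3) (α : ℝ → ℝ), 0 ≤ T → (∀ t ∈ Icc 0 T, 0 < α t) →
  (∀ t ∈ Icc 0 T, FData Λ c b e (F t) (Fi t)) → (∀ t ∈ Icc 0 T, FData Λ c b e (F1 t) (Fi1 t)) →
  Nrm T c 0 Dat.one' Fi ≤ ENNReal.ofReal e → Nrm T c 0 Dat.one' Fi1 ≤ ENNReal.ofReal e →
  KN T (c / (2 * b ^ 2 * e ^ 2) / 2)
      (fun t => ((α t : ℂ))⁻¹ • (PiK ξ (Fi t) - PiK ξ (Fi1 t))) ≤
    ENNReal.ofReal (12 * b ^ 4 * e ^ 3) * eSL Λ (c / (2 * b ^ 2 * e ^ 2) / 2) ^ 2 *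
      Nrm T c 0 α (fun t => Fi t - Fi1 t)

/-- C08: the scalar `|k|⁻²`, `k = F⁻ᵀ K` (W16 for the constant wave vector `ξ = K`). -/
def C08 : Prop := ∀ (n : ℕ) (T c b e : ℝ) (k : Fin 3 → ℤ) (F Fi : ℝ → Md → Mat), 0 ≤ T → kv k ≠ 0 →
  (∀ t ∈ Icc 0 T, FData (lev n) c b e (F t) (Fi t)) →
  Nrm T c 0 Dat.one' Fi ≤ ENNReal.ofReal e → CM T Fi →
  ∃ s : ℝ → Md → ℂ, CM T s ∧ SuppT T (lev n : Set Md) s ∧
    (∀ t ∈ Icc 0 T, mul (mm (scF (s t)) (rwF (kv k) (Fi t))) (kcF (kv k) (Fi t)) =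
      fun q => if q = 0 then 1 else 0) ∧
    Nrm T (c / (2 * b ^ 2 * e ^ 2) / 2) 0 Dat.one' s ≤
      ENNReal.ofReal (2 * b ^ 2 / ‖kv k‖ ^ 2) * eSL (lev n) (c / (2 * b ^ 2 * e ^ 2) / 2) ∧
    (∀ t ∈ Icc 0 T, ∀ θ : Md →+ ℝ,
      ev θ (s t) * (ev θ (mul (rwF (kv k) (Fi t)) (kcF (kv k) (Fi t)))) = 1)

/-- C09: data of `F° = F (1 + z Kᵀ)`. -/
def C09 : Prop := ∀ (j : ℕ) (c b e g : ℝ) (k : Fin 3 → ℤ) (F Fi : Md → Mat) (z : Md → C3),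
  1 ≤ j → FData (lev (j - 1)) c b e F Fi → SuppIn (Cl j) z → (∀ q, inner ℂ (kv k) (z q) = 0) →
  0 ≤ g → sN c z * ‖kv k‖ₑ ≤ ENNReal.ofReal g →
  FData (lev j) c (b * (1 + g)) (e * (1 + g)) (mm F (shP z (kv k))) (mm (shM z (kv k)) Fi)

end Pool.Agent.Work.MP_b0497c_an.Unf.S
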