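import Pool.Agent.Work.MP_b0497c_an.Unf.WStmts

set_option autoImplicit false

/-!
# Block S (the step theorem): definitions

All levels live on ONE group of modes `Md = ℕ →₀ ℤ` (`q i` = frequency in the phase `θ i`).
Level `l` functions are supported in `lev l` (`q i = 0` for `i > l`), class `j` functions in
`Cl j` (level `j`, `q j ≠ 0`).  `eps_j = (u j)^256`, `Lam_j = (u j)^(-64)`, `Lam'_j = (u j)^(-128)`.
-/

open scoped ENNReal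
open Set MeasureTheory

namespace Pool.Agent.Work.MP_b0497c_an.Unf.S

open W

/-- The group of all modes. -/
abbrev Md := ℕ →₀ ℤ

/-- Modes of class `j`: level `j` and `q j ≠ 0`. -/
def Cl (j : ℕ) : Set Md := {q | q ∈ lev j ∧ q j ≠ 0}

/-- The classes used in the step with coarse level `m`: everything of level `m` is one class. -/
def Cs (m o : ℕ) : Set Md := if o ≤ m then (lev m : Set Md) else Cl o

/-- Support in a set of modes. -/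
def SuppIn {E : Type} [Zero E] (S : Set Md) (f : Md → E) : Prop := ∀ q, q ∉ S → f q = 0

/-- The same at all times of `[0,T]`. -/
def SuppT {E : Type} [Zero E] (T : ℝ) (S : Set Md) (f : ℝ → Md → E) : Prop :=
  ∀ t ∈ Icc 0 T, SuppIn S (f t)

open Classical in
/-- Restriction to a set of modes. -/
noncomputable def res {E : Type} [Zero E] (S : Set Md) (f : Md → E) (q : Md) : E :=
  if q ∈ S then f q else 0

/-- Integer vectors as complex vectors. -/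
noncomputable def kv (k : Fin 3 → ℤ) : C3 := WithLp.toLp 2 fun i => (k i : ℂ)

/-- The wave vector of a mode. -/
noncomputable def xi (K : ℕ → Fin 3 → ℤ) (q : Md) : C3 := q.sum fun i z => (z : ℂ) • kv (K i)

/-- The wave vector without the phase `θ j`. -/
noncomputable def xi' (K : ℕ → Fin 3 → ℤ) (j : ℕ) (q : Md) : C3 :=
  xi K q - (q j : ℂ) • kv (K j)

/-- The bilinear dot product of `ℂ³`. -/
noncomputable def bdot : C3 →L[ℂ] C3 →L[ℂ] ℂ :=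
  ∑ i : Fin 3, (EuclideanSpace.proj i : C3 →L[ℂ] ℂ).smulRight (EuclideanSpace.proj i : C3 →L[ℂ] ℂ)

/-- `outerB w v x = (v · x) w`. -/
noncomputable def outerB : C3 →L[ℂ] C3 →L[ℂ] Mat :=
  ((ContinuousLinearMap.smulRightL ℂ C3 C3).comp bdot).flip

/-- `smB s w = s w`. -/
noncomputable def smB : ℂ →L[ℂ] C3 →L[ℂ] C3 := ContinuousLinearMap.lsmul ℂ ℂ

/-- Complex conjugation of vectors. -/
noncomputable def cjv (v : C3) : C3 := WithLp.toLp 2 fun i => starRingEnd ℂ (v i)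

/-- The column `x ↦ x v`. -/
noncomputable def ts (v : C3) : ℂ →L[ℂ] C3 := ContinuousLinearMap.toSpanSingleton ℂ v

/-- Multiplication of a function by an operator valued function. -/
noncomputable def mul {E F : Type} [NormedAddCommGroup E] [NormedSpace ℂ E] [NormedAddCommGroup F]
    [NormedSpace ℂ F] (a : Md → (E →L[ℂ] F)) (f : Md → E) : Md → F := act (mulK a) f

/-- Product of operator valued functions. -/
noncomputable def mm {E F G : Type} [NormedAddCommGroup E] [NormedSpace ℂ E]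
    [NormedAddCommGroup F] [NormedSpace ℂ F] [NormedAddCommGroup G] [NormedSpace ℂ G]
    (a : Md → (F →L[ℂ] G)) (b : Md → (E →L[ℂ] F)) : Md → (E →L[ℂ] G) :=
  conv (ContinuousLinearMap.compL ℂ E F G) a b

/-- The constant function `1` (identity matrix). -/
noncomputable def oneM : Md → Mat := fun q => if q = 0 then ContinuousLinearMap.id ℂ C3 else 0

/-- The identity kernel. -/
noncomputable def idK : Md → Md → Mat := diagK fun _ => ContinuousLinearMap.id ℂ C3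

/-- The row `f ↦ K · (F⁻¹ f)` (for real `F` this is `k · f`, `k = F⁻ᵀ K`). -/
noncomputable def rwF (k : C3) (Fi : Md → Mat) (q : Md) : C3 →L[ℂ] ℂ := (innerSL ℂ k).comp (Fi q)

/-- The column `k = F⁻ᵀ K` (adjoint). -/
noncomputable def kcF (k : C3) (Fi : Md → Mat) (q : Md) : C3 := adjC Fi q k

/-- The row of the adjoint of a column. -/
noncomputable def adR (z : Md → C3) (q : Md) : C3 →L[ℂ] ℂ := innerSL ℂ (z (-q))

/-- Columns. -/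
noncomputable def tsF (a : Md → C3) (q : Md) : ℂ →L[ℂ] C3 := ts (a q)

/-- Scalars as operators on `ℂ`. -/
noncomputable def scF (s : Md → ℂ) (q : Md) : ℂ →L[ℂ] ℂ := (s q) • ContinuousLinearMap.id ℂ ℂ

/-- The pointwise projection `p = k (k · ) / |k|²`, `s = |k|⁻²`. -/
noncomputable def pF (k : C3) (Fi : Md → Mat) (s : Md → ℂ) : Md → Mat :=
  mm (tsF (kcF k Fi)) (mm (scF s) (rwF k Fi))

/-- `1 + z Kᵀ`. -/
noncomputable def shP (z : Md → C3) (k : C3) (q : Md) : Mat := oneM q + (innerSL ℂ k).smulRight (z q)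

/-- `1 - z Kᵀ`. -/
noncomputable def shM (z : Md → C3) (k : C3) (q : Md) : Mat := oneM q - (innerSL ℂ k).smulRight (z q)

/-- The generator `-(1 - 2Π) M`. -/
noncomputable def genP (Pi : Md → Md → Mat) (M : Md → Mat) : Md → Md → Mat :=
  -(kcomp (idK - (2 : ℂ) • Pi) (mulK M))

/-- The Kelvin generator `-(1 - 2p) M` (a multiplication). -/
noncomputable def genK (p M : Md → Mat) : Md → Mat := -(mm (oneM - (2 : ℂ) • p) M)

/-- Propagators of a (kernel) generator on `[0,T]`. -/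
structure IsProp (T : ℝ) (L : ℝ → Md → Md → Mat) (S : ℝ → ℝ → Md → Md → Mat) : Prop where
  der : ∀ s ∈ Icc 0 T, ∀ t ∈ Icc 0 T, ∀ m l, HasDerivWithinAt (fun t => S t s m l)
    (kcomp (L t) (S t s) m l) (Icc 0 T) t
  diag : ∀ s ∈ Icc 0 T, S s s = idK
  cont : ∀ m l, ContinuousOn (fun q : ℝ × ℝ => S q.1 q.2 m l) (Icc 0 T ×ˢ Icc 0 T)
  bdd : ∃ B : ℝ≥0∞, B ≠ ∞ ∧ ∃ c : ℝ, 0 < c ∧ ∀ s ∈ Icc 0 T, ∀ t ∈ Icc 0 T, sK c (S t s) ≤ B

/-- The data of the step `n → n+1` with coarse level `m`. -/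
structure Dat where
  m : ℕ
  n : ℕ
  T : ℝ
  c : ℝ
  γ : ℝ
  β : ℝ
  G : ℝ
  K : ℕ → Fin 3 → ℤ
  u : ℕ → ℝ
  α : ℕ → ℝ → ℝ
  F : ℕ → ℝ → Md → Mat
  Fi : ℕ → ℝ → Md → Mat
  M : ℕ → ℝ → Md → Mat
  z : ℕ → ℝ → Md → C3
  a : ℕ → ℝ → Md → C3
  s : ℕ → ℝ → Md → ℂ
  Φ : ℕ → ℝ → ℝ → Md → Mat

namespace Dat

variable (D : Dat)

/-- `K_j` as a complex vector. -/
noncomputable def kk (j : ℕ) : C3 := kv (D.K j)

/-- `N_j = |K_j|`. -/
noncomputable def N (j : ℕ) : ℝ := ‖D.kk j‖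

/-- `F_l° = F_{l-1} (1 + z_l K_lᵀ)`. -/
noncomputable def Fo (l : ℕ) (t : ℝ) : Md → Mat := mm (D.F (l - 1) t) (shP (D.z l t) (D.kk l))

/-- `(F_l°)⁻¹ = (1 - z_l K_lᵀ) F_{l-1}⁻¹`. -/
noncomputable def Fio (l : ℕ) (t : ℝ) : Md → Mat := mm (shM (D.z l t) (D.kk l)) (D.Fi (l - 1) t)

/-- `Π_{F_l}`. -/
noncomputable def Pl (l : ℕ) (t : ℝ) : Md → Md → Mat := PiK (xi D.K) (D.Fi l t)

/-- `Π_{F_l°}`. -/
noncomputable def Po (l : ℕ) (t : ℝ) : Md → Md → Mat := PiK (xi D.K) (D.Fio l t)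

/-- The row `k_j ·` (uses `F_{j-1}`). -/
noncomputable def rw (j : ℕ) (t : ℝ) : Md → (C3 →L[ℂ] ℂ) := rwF (D.kk j) (D.Fi (j - 1) t)

/-- The column `k_j`. -/
noncomputable def kc (j : ℕ) (t : ℝ) : Md → C3 := kcF (D.kk j) (D.Fi (j - 1) t)

/-- The projection `p_j` on `k_j`. -/
noncomputable def p (j : ℕ) (t : ℝ) : Md → Mat := pF (D.kk j) (D.Fi (j - 1) t) (D.s j t)

/-- `r^M_j = M_j - M_{j-1} - a_j k_jᵀ`. -/
noncomputable def rM (j : ℕ) (t : ℝ) : Md → Mat :=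
  D.M j t - D.M (j - 1) t - mm (tsF (D.a j t)) (D.rw j t)

/-- The exact generator of level `l`: `L_l = -(1 - 2 Π_{F_l}) M_l`. -/
noncomputable def gen (l : ℕ) (t : ℝ) : Md → Md → Mat := genP (D.Pl l t) (D.M l t)

/-- The Kelvin generator of class `j`: `-(1 - 2 p_j) M_{j-1}`. -/
noncomputable def gK (j : ℕ) (t : ℝ) : Md → Mat := genK (D.p j t) (D.M (j - 1) t)

/-- The coupling `C_l f = -(1 - 2 p_l) (a_l (k_l · f))`. -/
noncomputable def Cp (l : ℕ) (t : ℝ) (f : Md → C3) : Md → C3 :=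
  -(mul (oneM - (2 : ℂ) • D.p l t) (mul (tsF (D.a l t)) (mul (D.rw l t) f)))

/-- The constant weight. -/
def one' : ℝ → ℝ := fun _ => 1

/-- Hypotheses (A1)-(A8) of the step theorem. -/
structure Hyp : Prop where
  -- parameters
  hmn : D.m ≤ D.n
  hnm : D.n ≤ D.m + 2
  T_pos : 0 < D.T
  T_le : D.T ≤ 1
  c_pos : 0 < D.c
  c_le : D.c ≤ 1
  γ_eq : D.γ = D.c / (2 * D.T)
  β_one : 1 ≤ D.β
  β_le : D.β ≤ D.G
  G_two : 2 ≤ D.G
  c_G : 2 ≤ D.G * D.c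
  u_pos : ∀ j, 0 < D.u j
  u_lt : ∀ j, D.u j < 1
  -- (A8)
  N_pos : ∀ j ≤ D.n + 1, 1 ≤ D.N j
  N_sep : ∀ j ≤ D.n, 4 * D.N j ≤ D.N (j + 1)
  mu_le : ∀ j, D.m < j → j ≤ D.n + 1 → D.N (j - 1) / D.N j ≤ D.u j ^ 512
  u_step : ∀ j, D.m < j → j ≤ D.n → D.u (j + 1) ≤ D.u j ^ 16
  small : D.G ^ 400 * D.u (D.m + 1) ^ 4 ≤ 1
  -- (A7), (A6)
  α_wt : ∀ j, D.m < j → j ≤ D.n + 1 → Wt D.T (D.α j)
  α_le : ∀ j, D.m < j → j ≤ D.n + 1 → ∀ t ∈ Icc 0 D.T, D.α j t ≤ D.G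
  α_cmp : ∀ i j, D.m < j → j < i → i ≤ D.n + 1 → ∀ t ∈ Icc 0 D.T, D.α i t ≤ D.G * D.α j t
  α_ratio : ∀ j, D.m < j → j ≤ D.n →
    MonotoneOn (fun t => D.α (D.n + 1) t / D.α j t) (Icc 0 D.T)
  α_exp : ∀ s ∈ Icc 0 D.T, ∀ t ∈ Icc 0 D.T, s ≤ t →
    Real.exp (2 * D.β * (t - s)) * D.α (D.n + 1) s ≤ D.G
  -- (A1)
  F_cm : ∀ l, D.m ≤ l → l ≤ D.n → CM D.T (D.F l) ∧ CM D.T (D.Fi l) ∧ CM D.T (D.M l)
  F_supp : ∀ l, D.m ≤ l → l ≤ D.n → SuppT D.T (lev l : Set Md) (D.F l) ∧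
    SuppT D.T (lev l : Set Md) (D.Fi l) ∧ SuppT D.T (lev l : Set Md) (D.M l)
  F_le : ∀ l, D.m ≤ l → l ≤ D.n → Nrm D.T D.c 0 one' (D.F l) ≤ ENNReal.ofReal D.G ∧
    Nrm D.T D.c 0 one' (D.Fi l) ≤ ENNReal.ofReal D.G ∧
    Nrm D.T D.c 0 one' (D.M l) ≤ ENNReal.ofReal D.G
  Fi_der : ∀ l, D.m ≤ l → l ≤ D.n → ∀ q, ∀ t ∈ Icc 0 D.T,
    HasDerivWithinAt (fun t => D.Fi l t q) (-(mm (D.Fi l t) (D.M l t) q)) (Icc 0 D.T) t
  F_zero : ∀ l, D.m ≤ l → l ≤ D.n → D.F l 0 = oneM ∧ D.Fi l 0 = oneM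
  fd : ∀ l, D.m ≤ l → l ≤ D.n → ∀ t ∈ Icc 0 D.T, ∃ c b e : ℝ,
    FData (lev l) c b e (D.F l t) (D.Fi l t)
  fdo : ∀ l, D.m < l → l ≤ D.n → ∀ t ∈ Icc 0 D.T, ∃ c b e : ℝ,
    FData (lev l) c b e (D.Fo l t) (D.Fio l t)
  -- (A2)
  P_le : ∀ l, D.m ≤ l → l ≤ D.n → KN D.T D.c (D.Pl l) ≤ ENNReal.ofReal D.G ∧ CK D.T (D.Pl l)
  Po_le : ∀ l, D.m < l → l ≤ D.n → KN D.T D.c (D.Po l) ≤ ENNReal.ofReal D.G ∧ CK D.T (D.Po l)
  P_dif : ∀ l, D.m < l → l ≤ D.n →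
    KN D.T D.c (fun t => ((D.α l t : ℂ))⁻¹ • (D.Pl l t - D.Po l t)) ≤
      ENNReal.ofReal (D.G * D.u l ^ 256)
  s_le : ∀ j, D.m < j → j ≤ D.n + 1 →
    Nrm D.T D.c 0 one' (D.s j) ≤ ENNReal.ofReal (D.G / D.N j ^ 2) ∧ CM D.T (D.s j) ∧
    SuppT D.T (lev (j - 1) : Set Md) (D.s j)
  s_eq : ∀ j, D.m < j → j ≤ D.n + 1 → ∀ t ∈ Icc 0 D.T,
    mul (mm (scF (D.s j t)) (D.rw j t)) (D.kc j t) = fun q => if q = 0 then 1 else 0
  -- (A3)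
  z_supp : ∀ j, D.m < j → j ≤ D.n → SuppT D.T (Cl j) (D.z j) ∧ SuppT D.T (Cl j) (D.a j)
  z_cm : ∀ j, D.m < j → j ≤ D.n → CM D.T (D.z j) ∧ CM D.T (D.a j)
  z_orth : ∀ j, D.m < j → j ≤ D.n → ∀ t ∈ Icc 0 D.T, ∀ q, inner ℂ (D.kk j) (D.z j t q) = 0
  z_le : ∀ j, D.m < j → j ≤ D.n →
    Nrm D.T D.c 0 (D.α j) (D.z j) ≤ ENNReal.ofReal (D.G / D.N j) ∧
    Nrm D.T D.c 0 (D.α j) (D.a j) ≤ ENNReal.ofReal (D.G / D.N j)
  ka_le : ∀ j, D.m < j → j ≤ D.n →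
    Nrm D.T D.c 0 (D.α j) (fun t => mul (D.rw j t) (D.a j t)) ≤ ENNReal.ofReal (D.u j ^ 256)
  rM_le : ∀ j, D.m < j → j ≤ D.n →
    Nrm D.T D.c 0 (D.α j) (D.rM j) ≤ ENNReal.ofReal (D.u j ^ 256)
  -- (A4)
  B_le : KN D.T D.c (D.gen D.m) ≤ ENNReal.ofReal D.β
  -- (A5)
  Φ_prop : ∀ j, D.m < j → j ≤ D.n + 1 →
    IsProp D.T (fun t => mulK (D.gK j t)) (fun t s => mulK (D.Φ j t s))
  Φ_le : ∀ j, D.m < j → j ≤ D.n + 1 →
    PN D.T D.c (D.α j) (D.α j) (fun t s => mulK (D.Φ j t s)) ≤ ENNReal.ofReal D.G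
  Φ_supp : ∀ j, D.m < j → j ≤ D.n + 1 → ∀ s ∈ Icc 0 D.T, ∀ t ∈ Icc 0 D.T,
    SuppIn (lev (j - 1) : Set Md) (D.Φ j t s)

end Dat

end Pool.Agent.Work.MP_b0497c_an.Unf.S
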