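import Pool.Agent.Work.MP_b0497c_an.Unf.EvLag
import Pool.Agent.Work.MP_b0497c_an.Unf.SDefs

set_option autoImplicit false

/-!
# Block D: exact level solutions in coefficient form, and the conclusion for a sequence of levels

`LevSol K n s c x U A r F Fi M`: an exact Lagrangian solution on `[0,s]` whose displacement `x`,
velocity `U`, acceleration `A` and pressure `r` are functions of the phases `θ_0 .. θ_n`,
`θ_i = K_i · y`.  `F = 1 + ∇x`, `F' = M F`, `tr M = 0`, `A = - F⁻ᵀ ∇ r`.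
Reality is required for `x` only (the real parts of `U`, `A`, `r` are used).
-/

open scoped ENNReal
open Set MeasureTheory

namespace Pool.Agent.Work.MP_b0497c_an.Unf.S

open W

/-- Coefficients of the derivative (Jacobi matrix) of a vector field. -/
noncomputable def gradV (K : ℕ → Fin 3 → ℤ) (x : Md → C3) (q : Md) : Mat :=
  Complex.I • (innerSL ℂ (xi K q)).smulRight (x q)

/-- Coefficients of the gradient of a function. -/
noncomputable def gradS (K : ℕ → Fin 3 → ℤ) (r : Md → ℂ) (q : Md) : C3 :=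
  (Complex.I * r q) • xi K q

/-- The wave vector of a mode, as an integer vector. -/
noncomputable def xiZ (K : ℕ → Fin 3 → ℤ) : Md →+ (Fin 3 → ℤ) :=
  Finsupp.liftAddHom fun i => zmultiplesHom (Fin 3 → ℤ) (K i)

/-- An exact Lagrangian solution of level `n` on `[0,s]` in coefficient form. -/
structure LevSol (K : ℕ → Fin 3 → ℤ) (n : ℕ) (s c : ℝ) (x U A : ℝ → Md → C3) (r : ℝ → Md → ℂ)
    (F Fi M : ℝ → Md → Mat) : Prop where
  s_pos : 0 < s
  c_pos : 0 < c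
  x_supp : SuppT s (lev n : Set Md) x
  U_supp : SuppT s (lev n : Set Md) U
  A_supp : SuppT s (lev n : Set Md) A
  r_supp : SuppT s (lev n : Set Md) r
  x_fin : Nrm s c 0 (fun _ => 1) x ≠ ∞
  U_fin : Nrm s c 0 (fun _ => 1) U ≠ ∞
  A_fin : Nrm s c 0 (fun _ => 1) A ≠ ∞
  r_fin : Nrm s c 0 (fun _ => 1) r ≠ ∞
  F_fin : Nrm s c 0 (fun _ => 1) F ≠ ∞
  Fi_fin : Nrm s c 0 (fun _ => 1) Fi ≠ ∞
  M_fin : Nrm s c 0 (fun _ => 1) M ≠ ∞
  x_cm : CM s x
  U_cm : CM s U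
  A_cm : CM s A
  x_der : ∀ q, ∀ t ∈ Icc 0 s, HasDerivWithinAt (fun t => x t q) (U t q) (Icc 0 s) t
  U_der : ∀ q, ∀ t ∈ Icc 0 s, HasDerivWithinAt (fun t => U t q) (A t q) (Icc 0 s) t
  x_zero : x 0 = 0
  x_real : ∀ t ∈ Icc 0 s, ∀ q, x t (-q) = cjv (x t q)
  F_eq : ∀ t ∈ Icc 0 s, F t = oneM + gradV K (x t)
  F_der : ∀ q, ∀ t ∈ Icc 0 s, HasDerivWithinAt (fun t => F t q) (mm (M t) (F t) q) (Icc 0 s) t
  tr_M : ∀ t ∈ Icc 0 s, ∀ q, LinearMap.trace ℂ C3 (M t q : C3 →ₗ[ℂ] C3) = 0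
  inv : ∀ t ∈ Icc 0 s, mm (Fi t) (F t) = oneM
  mom : ∀ t ∈ Icc 0 s, A t = -(mul (adjC (Fi t)) (gradS K (r t)))

end Pool.Agent.Work.MP_b0497c_an.Unf.S
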