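import Pool.Agent.Work.MP_b0497c_an.Unf.WStmts

set_option autoImplicit false

/-!
# W17: Lipschitz dependence of the projector (helper27)
-/

open scoped ENNReal
open Set MeasureTheory

namespace Pool.Agent.Work.MP_b0497c_an.Unf.W

namespace P17

variable {Γ : Type} [AddCommGroup Γ] [Len Γ]

/-- Kernels. -/
abbrev Ker (Γ : Type) := Γ → Γ → Mat

theorem sK_neg (c : ℝ) (A : Ker Γ) : sK c (-A) = sK c A := by
  simp [sK]

theorem sN_sub_comm (c : ℝ) (f g : Γ → Mat) : sN c (f - g) = sN c (g - f) := by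
  simp only [sN, Pi.sub_apply]
  refine tsum_congr fun m => ?_
  rw [enorm_sub_rev]

theorem enorm_adj (M : Mat) : ‖ContinuousLinearMap.adjoint M‖ₑ = ‖M‖ₑ := by
  have : ‖ContinuousLinearMap.adjoint M‖ = ‖M‖ :=
    LinearIsometryEquiv.norm_map ContinuousLinearMap.adjoint M
  rw [← ofReal_norm, ← ofReal_norm, this]

theorem sN_adjC (c : ℝ) (a : Γ → Mat) : sN c (adjC a) = sN c a := by
  rw [sN, sN, ← (Equiv.neg Γ).tsum_eq]
  refine tsum_congr fun m => ?_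
  rw [Equiv.neg_apply, len_neg, adjC, neg_neg, enorm_adj]

omit [Len Γ] in
theorem adjC_sub (a b : Γ → Mat) : adjC a - adjC b = adjC (a - b) := by
  funext k
  simp [adjC]

omit [Len Γ] in
theorem mulK_sub (a b : Γ → Mat) : mulK a - mulK b = mulK (a - b) := rfl

theorem norm_pr_le (v : C3) : ‖pr v‖ₑ ≤ 1 := by
  have h : ‖pr v‖ ≤ 1 := by
    refine ContinuousLinearMap.opNorm_le_bound _ zero_le_one fun w => ?_
    have h1 : pr v w = (((‖v‖ ^ 2 : ℝ) : ℂ))⁻¹ • (inner ℂ v w • v) := by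
      simp [pr]
    rw [h1, norm_smul, norm_smul, norm_inv, Complex.norm_real, Real.norm_of_nonneg (by positivity),
      one_mul]
    by_cases hv : v = 0
    · simp [hv]
    · have h2 : 0 < ‖v‖ := norm_pos_iff.2 hv
      have h3 : ‖inner ℂ v w‖ ≤ ‖v‖ * ‖w‖ := norm_inner_le_norm v w
      rw [inv_mul_le_iff₀ (by positivity)]
      calc ‖inner ℂ v w‖ * ‖v‖ ≤ (‖v‖ * ‖w‖) * ‖v‖ := mul_le_mul_of_nonneg_right h3 h2.le
        _ = ‖v‖ ^ 2 * ‖w‖ := by ring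
  rw [← ofReal_norm]
  exact ENNReal.ofReal_le_one.2 h

section alg

variable (h10 : W10) (h11 : W11)
include h10

theorem mul_le {c : ℝ} (hc : 0 ≤ c) (A B : Ker Γ) : sK c (kcomp A B) ≤ sK c A * sK c B :=
  (h10 Γ C3 C3 C3 c hc).1 A B

theorem add_le {c : ℝ} (hc : 0 ≤ c) (A B : Ker Γ) : sK c (A + B) ≤ sK c A + sK c B :=
  (h10 Γ C3 C3 C3 c hc).2.2.2.2.2.1 A B

theorem fin_of {c : ℝ} (hc : 0 ≤ c) {A : Ker Γ} (h : sK c A ≠ ∞) : sK 0 A ≠ ∞ :=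
  ((h10 Γ C3 C3 C3 c hc).2.2.2.2.2.2.1 0 hc).1 A |>.trans_lt (lt_top_iff_ne_top.2 h) |>.ne

theorem fin_mul {A B : Ker Γ} (hA : sK 0 A ≠ ∞) (hB : sK 0 B ≠ ∞) : sK 0 (kcomp A B) ≠ ∞ :=
  ((mul_le h10 le_rfl A B).trans_lt
    (ENNReal.mul_lt_top (lt_top_iff_ne_top.2 hA) (lt_top_iff_ne_top.2 hB))).ne

theorem fin_sub {A B : Ker Γ} (hA : sK 0 A ≠ ∞) (hB : sK 0 B ≠ ∞) : sK 0 (A - B) ≠ ∞ := by
  rw [sub_eq_add_neg]
  refine ((add_le h10 le_rfl A (-B)).trans_lt (ENNReal.add_lt_top.2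
    ⟨lt_top_iff_ne_top.2 hA, ?_⟩)).ne
  rw [sK_neg]
  exact lt_top_iff_ne_top.2 hB

include h11

omit h10 in
theorem assoc {A B C : Ker Γ} (hA : sK 0 A ≠ ∞) (hB : sK 0 B ≠ ∞) (hC : sK 0 C ≠ ∞) :
    kcomp (kcomp A B) C = kcomp A (kcomp B C) :=
  (h11 Γ C3 C3 C3 C3).1 A B C hA hB hC

theorem sub_mul' {A A' B : Ker Γ} (hA : sK 0 A ≠ ∞) (hA' : sK 0 A' ≠ ∞) (hB : sK 0 B ≠ ∞) :
    kcomp (A - A') B = kcomp A B - kcomp A' B := by
  have h := ((h11 Γ C3 C3 C3 C3).2.2.1 (A - A') A' B B (fin_sub h10 hA hA') hA' hB hB).1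
  rw [sub_add_cancel] at h
  rw [h, add_sub_cancel_right]

theorem mul_sub' {A B B' : Ker Γ} (hA : sK 0 A ≠ ∞) (hB : sK 0 B ≠ ∞) (hB' : sK 0 B' ≠ ∞) :
    kcomp A (B - B') = kcomp A B - kcomp A B' := by
  have h := ((h11 Γ C3 C3 C3 C3).2.2.1 A A (B - B') B' hA hA (fin_sub h10 hB hB') hB').2
  rw [sub_add_cancel] at h
  rw [h, add_sub_cancel_right]

end alg

/-- Kernels with exponentially decaying entries, supported on a subgroup. -/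
theorem sK_le_of_entries {Λ : AddSubgroup Γ} {κ B : ℝ} (hB : 0 ≤ B) {R : Ker Γ}
    (h : ∀ m l, ‖R m l‖ ≤ B * Real.exp (-(2 * κ) * len (m - l)))
    (h0 : ∀ m l, m - l ∉ Λ → R m l = 0) : sK κ R ≤ ENNReal.ofReal B * eSL Λ κ := by
  have h1 : eSL Λ κ = ∑' k : Γ, (Λ : Set Γ).indicator
      (fun k => ENNReal.ofReal (Real.exp (-κ * len k))) k := by
    rw [← tsum_subtype]; rfl
  rw [h1, ← ENNReal.tsum_mul_left, sK]
  refine ENNReal.tsum_le_tsum fun k => ?_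
  by_cases hk : k ∈ Λ
  · rw [Set.indicator_of_mem (show k ∈ (Λ : Set Γ) from hk)]
    have h2 : (⨆ l, ‖R (l + k) l‖ₑ) ≤ ENNReal.ofReal (B * Real.exp (-(2 * κ) * len k)) := by
      refine iSup_le fun l => ?_
      rw [← ofReal_norm]
      apply ENNReal.ofReal_le_ofReal
      have := h (l + k) l
      rwa [add_sub_cancel_left] at this
    refine (mul_le_mul_right h2 _).trans ?_
    rw [← ENNReal.ofReal_mul (Real.exp_pos _).le, ← ENNReal.ofReal_mul hB]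
    apply ENNReal.ofReal_le_ofReal
    rw [mul_left_comm, ← Real.exp_add]
    apply le_of_eq
    congr 2
    ring
  · rw [Set.indicator_of_notMem (show k ∉ (Λ : Set Γ) from hk)]
    have h2 : (⨆ l, ‖R (l + k) l‖ₑ) = 0 := by
      rw [ENNReal.iSup_eq_zero]
      intro l
      rw [h0 (l + k) l (by rwa [add_sub_cancel_left]), ← ofReal_norm, norm_zero,
        ENNReal.ofReal_zero]
    rw [h2, mul_zero, mul_zero]

theorem one_le_eSL (Λ : AddSubgroup Γ) (κ : ℝ) : 1 ≤ eSL Λ κ := by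
  refine le_trans (le_of_eq ?_) (ENNReal.le_tsum (0 : Λ))
  simp [len_zero]

end P17

open P17 in
theorem pr_W17 (h10 : W10) (h11 : W11) (h16 : W16) : W17 := by
  intro Γ _ _ Λ c b e F Fi F1 Fi1 ξ hF hF1
  have hb := hF.b_one
  have he := hF.e_one
  have hc := hF.c_pos
  set κ := c / (2 * b ^ 2 * e ^ 2) / 2 with hκ
  have hκ0 : 0 < κ := by positivity
  have hκc : κ ≤ c := by
    rw [hκ, div_div]
    apply div_le_self hc.le
    have h1 : 1 ≤ b ^ 2 := one_le_pow₀ hb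
    have h2 : 1 ≤ e ^ 2 := one_le_pow₀ he
    nlinarith
  set S := eSL Λ κ with hS
  have hS1 : 1 ≤ S := one_le_eSL Λ κ
  have hSt : S ≠ ∞ := hF.sum κ hκ0
  set B := ENNReal.ofReal b with hB
  set E := ENNReal.ofReal e with hE
  have hB1 : 1 ≤ B := by rw [hB, ← ENNReal.ofReal_one]; exact ENNReal.ofReal_le_ofReal hb
  have hE1 : 1 ≤ E := by rw [hE, ← ENNReal.ofReal_one]; exact ENNReal.ofReal_le_ofReal he
  have hBt : B ≠ ∞ := ENNReal.ofReal_ne_top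
  have hEt : E ≠ ∞ := ENNReal.ofReal_ne_top
  have hsNm : ∀ f : Γ → Mat, sN κ f ≤ sN c f := fun f =>
    ((h10 Γ Mat C3 C3 c hc.le).2.2.2.2.2.2.1 κ hκc).2 f
  have hmulK : ∀ a : Γ → Mat, sK κ (mulK a) = sN κ a := fun a =>
    (h10 Γ C3 C3 C3 κ hκ0.le).2.2.2.1 a
  set d := sN c (Fi - Fi1) with hd
  set M0 := mulK Fi with hM0
  set M1 := mulK Fi1 with hM1
  set N0 := mulK (adjC Fi) with hN0
  set N1 := mulK (adjC Fi1) with hN1
  set P := PK ξ with hP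
  set R0 := RK ξ Fi with hR0
  set R1 := RK ξ Fi1 with hR1
  obtain ⟨⟨p1, p2, p3, p4⟩, p5, p6, -⟩ := h16 Γ Λ c b e F Fi ξ hF
  obtain ⟨⟨q1, q2, q3, q4⟩, q5, q6, -⟩ := h16 Γ Λ c b e F1 Fi1 ξ hF1
  have hκ2 : c / (2 * b ^ 2 * e ^ 2) = 2 * κ := by rw [hκ]; ring
  rw [hκ2] at p5 q5
  -- norms
  have nM0 : sK κ M0 ≤ E := by rw [hM0, hmulK]; exact (hsNm _).trans hF.Fi_le
  have nM1 : sK κ M1 ≤ E := by rw [hM1, hmulK]; exact (hsNm _).trans hF1.Fi_le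
  have nN0 : sK κ N0 ≤ E := by rw [hN0, hmulK, sN_adjC]; exact (hsNm _).trans hF.Fi_le
  have nN1 : sK κ N1 ≤ E := by rw [hN1, hmulK, sN_adjC]; exact (hsNm _).trans hF1.Fi_le
  have nP : sK κ P ≤ 1 := (h10 Γ C3 C3 C3 κ hκ0.le).2.2.2.2.1 _ 1 fun m => norm_pr_le _
  have hBB : ENNReal.ofReal (2 * b ^ 2) = 2 * B ^ 2 := by
    rw [ENNReal.ofReal_mul (by norm_num), ENNReal.ofReal_pow (by linarith), ENNReal.ofReal_ofNat]
  have nR0 : sK κ R0 ≤ 2 * B ^ 2 * S := by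
    rw [← hBB]
    exact sK_le_of_entries (by positivity) p5 fun m l h => (p6 m l h).1
  have nR1 : sK κ R1 ≤ 2 * B ^ 2 * S := by
    rw [← hBB]
    exact sK_le_of_entries (by positivity) q5 fun m l h => (q6 m l h).1
  have nM : sK κ (M0 - M1) ≤ d := by
    rw [hM0, hM1, mulK_sub, hmulK]; exact hsNm _
  have nM' : sK κ (M1 - M0) ≤ d := by
    rw [hM0, hM1, mulK_sub, hmulK, sN_sub_comm]; exact hsNm _
  have nN : sK κ (N0 - N1) ≤ d := by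
    rw [hN0, hN1, mulK_sub, hmulK, adjC_sub, sN_adjC]; exact hsNm _
  have nN' : sK κ (N1 - N0) ≤ d := by
    rw [hN0, hN1, mulK_sub, hmulK, adjC_sub, sN_adjC, sN_sub_comm]; exact hsNm _
  have fin : ∀ {A : Ker Γ} {x : ℝ≥0∞}, sK κ A ≤ x → x ≠ ∞ → sK 0 A ≠ ∞ := fun h hx =>
    fin_of h10 hκ0.le (h.trans_lt (lt_top_iff_ne_top.2 hx)).ne
  have fM0 := fin nM0 hEt
  have fM1 := fin nM1 hEt
  have fN0 := fin nN0 hEt
  have fN1 := fin nN1 hEt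
  have fP := fin nP ENNReal.one_ne_top
  have h2BS : 2 * B ^ 2 * S ≠ ∞ := by
    rw [← hBB]; exact ENNReal.mul_ne_top ENNReal.ofReal_ne_top hSt
  have fR0 := fin nR0 h2BS
  have fR1 := fin nR1 h2BS
  have cl : ∀ {A C : Ker Γ}, sK 0 A ≠ ∞ → sK 0 C ≠ ∞ → sK 0 (kcomp A C) ≠ ∞ :=
    fun hA hC => fin_mul h10 hA hC
  have mk : ∀ {A C : Ker Γ} {x y : ℝ≥0∞}, sK κ A ≤ x → sK κ C ≤ y → sK κ (kcomp A C) ≤ x * y :=
    fun hA hC => (mul_le h10 hκ0.le _ _).trans (mul_le_mul' hA hC)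
  -- difference of the `A`
  have fA0 : sK 0 (AK ξ Fi) ≠ ∞ := cl fP (cl fM0 (cl fN0 fP))
  have fA1 : sK 0 (AK ξ Fi1) ≠ ∞ := cl fP (cl fM1 (cl fN1 fP))
  have dA : AK ξ Fi1 - AK ξ Fi =
      kcomp P (kcomp (M1 - M0) (kcomp N1 P) + kcomp M0 (kcomp (N1 - N0) P)) := by
    have e1 : kcomp (M1 - M0) (kcomp N1 P) = kcomp M1 (kcomp N1 P) - kcomp M0 (kcomp N1 P) :=
      sub_mul' h10 h11 fM1 fM0 (cl fN1 fP)
    have e2 : kcomp (N1 - N0) P = kcomp N1 P - kcomp N0 P := sub_mul' h10 h11 fN1 fN0 fP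
    have e3 : kcomp M0 (kcomp N1 P - kcomp N0 P) =
        kcomp M0 (kcomp N1 P) - kcomp M0 (kcomp N0 P) :=
      mul_sub' h10 h11 fM0 (cl fN1 fP) (cl fN0 fP)
    rw [e1, e2, e3, sub_add_sub_cancel,
      mul_sub' h10 h11 fP (cl fM1 (cl fN1 fP)) (cl fM0 (cl fN0 fP))]
    rfl
  have nA : sK κ (AK ξ Fi1 - AK ξ Fi) ≤ 2 * E * d := by
    rw [dA]
    refine (mk nP ((add_le h10 hκ0.le _ _).trans
      (add_le_add (mk nM' (mk nN1 nP)) (mk nM0 (mk nN' nP))))).trans (le_of_eq ?_)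
    ring
  have fA : sK 0 (AK ξ Fi1 - AK ξ Fi) ≠ ∞ := fin_sub h10 fA1 fA0
  -- difference of the resolvents
  have dR : R0 - R1 = kcomp (kcomp R0 (AK ξ Fi1 - AK ξ Fi)) R1 := by
    have e1 : kcomp (kcomp R0 (AK ξ Fi1)) R1 = R0 := by
      rw [assoc h11 fR0 fA1 fR1, q3, p2]
    have e2 : kcomp (kcomp R0 (AK ξ Fi)) R1 = R1 := by rw [p4, q1]
    rw [mul_sub' h10 h11 fR0 fA1 fA0, sub_mul' h10 h11 (cl fR0 fA1) (cl fR0 fA0) fR1, e1, e2]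
  have nR : sK κ (R0 - R1) ≤ 8 * B ^ 4 * E * S ^ 2 * d := by
    rw [dR]
    refine (mk (mk nR0 nA) nR1).trans (le_of_eq ?_)
    ring
  -- difference of the projectors
  have dPi : PiK ξ Fi - PiK ξ Fi1 = kcomp (N0 - N1) (kcomp R0 M0) +
      kcomp N1 (kcomp (R0 - R1) M0) + kcomp N1 (kcomp R1 (M0 - M1)) := by
    rw [sub_mul' h10 h11 fN0 fN1 (cl fR0 fM0), sub_mul' h10 h11 fR0 fR1 fM0,
      mul_sub' h10 h11 fN1 (cl fR0 fM0) (cl fR1 fM0), mul_sub' h10 h11 fR1 fM0 fM1,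
      mul_sub' h10 h11 fN1 (cl fR1 fM0) (cl fR1 fM1), sub_add_sub_cancel, sub_add_sub_cancel]
    rfl
  rw [dPi]
  have step : sK κ (kcomp (N0 - N1) (kcomp R0 M0) +
      kcomp N1 (kcomp (R0 - R1) M0) + kcomp N1 (kcomp R1 (M0 - M1))) ≤
      d * (2 * B ^ 2 * S * E) + E * (8 * B ^ 4 * E * S ^ 2 * d * E) +
        E * (2 * B ^ 2 * S * d) :=
    (add_le h10 hκ0.le _ _).trans (add_le_add ((add_le h10 hκ0.le _ _).trans
      (add_le_add (mk nN (mk nR0 nM0)) (mk nN1 (mk nR nM0)))) (mk nN1 (mk nR1 nM)))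
  refine step.trans ?_
  have hcoef : ENNReal.ofReal (12 * b ^ 4 * e ^ 3) = 12 * B ^ 4 * E ^ 3 := by
    rw [ENNReal.ofReal_mul (by positivity), ENNReal.ofReal_mul (by norm_num),
      ENNReal.ofReal_pow (by linarith), ENNReal.ofReal_pow (by linarith), ENNReal.ofReal_ofNat]
  rw [hcoef]
  have hmono : B ^ 2 * E * S ≤ B ^ 4 * E ^ 3 * S ^ 2 := by
    refine mul_le_mul' (mul_le_mul' (pow_le_pow_right' hB1 (by norm_num)) ?_) ?_
    · calc E = E ^ 1 := (pow_one E).symm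
        _ ≤ E ^ 3 := pow_le_pow_right' hE1 (by norm_num)
    · calc S = S ^ 1 := (pow_one S).symm
        _ ≤ S ^ 2 := pow_le_pow_right' hS1 (by norm_num)
  calc d * (2 * B ^ 2 * S * E) + E * (8 * B ^ 4 * E * S ^ 2 * d * E) + E * (2 * B ^ 2 * S * d)
      = 4 * (B ^ 2 * E * S) * d + 8 * (B ^ 4 * E ^ 3 * S ^ 2) * d := by ring
    _ ≤ 4 * (B ^ 4 * E ^ 3 * S ^ 2) * d + 8 * (B ^ 4 * E ^ 3 * S ^ 2) * d :=
        add_le_add (mul_le_mul' (mul_le_mul' le_rfl hmono) le_rfl) le_rfl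
    _ = 12 * B ^ 4 * E ^ 3 * S ^ 2 * d := by ring

end Pool.Agent.Work.MP_b0497c_an.Unf.W
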