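import Pool.Agent.Work.MP_b0497c_an.Unf.WStmts

set_option autoImplicit false

/-!
# W20: the projector maps real functions to real functions

For a kernel `A` put `ksig A m l = cM (A (-m) (-l))` where `cM M v = cj (M (cj v))`. The map `ksig`
commutes with `kcomp`, preserves `sK`, fixes `mulK Fi`, `mulK (adjC Fi)` and `PK ξ`, hence `AK ξ Fi`,
hence `RK ξ Fi` (uniqueness), hence `PiK ξ Fi`.
-/

open scoped ENNReal
open Set MeasureTheory

namespace Pool.Agent.Work.MP_b0497c_an.Unf.W

namespace W20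

theorem cj_cj (v : C3) : cj (cj v) = v := by
  ext i
  simp [cj]

theorem cj_norm (v : C3) : ‖cj v‖ = ‖v‖ := by
  simp [cj, EuclideanSpace.norm_eq]

theorem cj_add (v w : C3) : cj (v + w) = cj v + cj w := by
  ext i
  simp [cj]

theorem cj_smul (z : ℂ) (v : C3) : cj (z • v) = (starRingEnd ℂ z) • cj v := by
  ext i
  simp [cj]

theorem cj_zero : cj 0 = 0 := by
  ext i
  simp [cj]

theorem cj_inner (v w : C3) : inner ℂ (cj v) w = starRingEnd ℂ (inner ℂ v (cj w)) := by
  simp [cj, PiLp.inner_apply]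

/-- `cj` as a bundled map. -/
noncomputable def cjS : C3 →SL[starRingEnd ℂ] C3 :=
  LinearIsometry.toContinuousLinearMap
    { toFun := cj
      map_add' := cj_add
      map_smul' := cj_smul
      norm_map' := cj_norm }

theorem cjS_apply (v : C3) : cjS v = cj v := rfl

/-- Complex conjugation of matrices. -/
noncomputable def cM (M : Mat) : Mat := (cjS.comp M).comp cjS

theorem cM_apply (M : Mat) (v : C3) : cM M v = cj (M (cj v)) := rfl

theorem cM_cM (M : Mat) : cM (cM M) = M := by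
  ext1 v
  simp only [cM_apply, cj_cj]

theorem cM_zero : cM 0 = 0 := by
  ext1 v
  rw [cM_apply]
  exact cj_zero

theorem cM_add (M N : Mat) : cM (M + N) = cM M + cM N := by
  ext1 v
  rw [cM_apply]
  exact cj_add _ _

theorem cM_comp (M N : Mat) : cM (M.comp N) = (cM M).comp (cM N) := by
  ext1 v
  simp only [cM_apply, ContinuousLinearMap.comp_apply, cj_cj]

theorem cM_norm_le (M : Mat) : ‖cM M‖ ≤ ‖M‖ := by
  refine ContinuousLinearMap.opNorm_le_bound _ (norm_nonneg _) fun v => ?_
  rw [cM_apply, cj_norm]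
  refine (M.le_opNorm (cj v)).trans (le_of_eq ?_)
  rw [cj_norm]

theorem cM_norm (M : Mat) : ‖cM M‖ = ‖M‖ := by
  refine le_antisymm (cM_norm_le M) ?_
  have h := cM_norm_le (cM M)
  rwa [cM_cM] at h

theorem cM_enorm (M : Mat) : ‖cM M‖ₑ = ‖M‖ₑ := by
  rw [← ofReal_norm, ← ofReal_norm, cM_norm]

/-- `cM` as an additive map. -/
noncomputable def cMA : Mat →+ Mat where
  toFun := cM
  map_zero' := cM_zero
  map_add' := cM_add

theorem cMA_apply (M : Mat) : cMA M = cM M := rfl

theorem cMA_cont : Continuous cMA :=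
  AddMonoidHomClass.continuous_of_bound cMA 1 fun M => by
    rw [one_mul]
    exact cM_norm_le M

theorem cM_tsum {ι : Type} (f : ι → Mat) : cM (∑' i, f i) = ∑' i, cM (f i) := by
  by_cases h : Summable f
  · exact h.map_tsum cMA cMA_cont
  · have h' : ¬ Summable fun i => cM (f i) := by
      intro h1
      apply h
      have h2 := h1.map cMA cMA_cont
      have h3 : (cMA ∘ fun i => cM (f i)) = f := by
        funext i
        exact cM_cM (f i)
      rwa [h3] at h2
    rw [tsum_eq_zero_of_not_summable h, tsum_eq_zero_of_not_summable h', cM_zero]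

theorem cM_adjoint (M : Mat) :
    cM (ContinuousLinearMap.adjoint M) = ContinuousLinearMap.adjoint (cM M) := by
  rw [ContinuousLinearMap.eq_adjoint_iff]
  intro v w
  rw [cM_apply, cM_apply, cj_inner, ContinuousLinearMap.adjoint_inner_left, cj_inner,
    Complex.conj_conj]

theorem pr_neg (v : C3) : pr (-v) = pr v := by
  ext1 w
  simp [pr]

theorem cM_pr (v : C3) : cM (pr v) = pr (cj v) := by
  ext1 w
  rw [cM_apply]
  simp only [pr, smul_apply, ContinuousLinearMap.smulRight_apply,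
    innerSL_apply_apply, cj_smul, cj_norm, cj_inner]
  simp

theorem pr_norm_le (v : C3) : ‖pr v‖ ≤ 1 := by
  unfold pr
  rw [norm_smul, ContinuousLinearMap.norm_smulRight_apply, innerSL_apply_norm]
  rcases eq_or_ne v 0 with h | h
  · simp [h]
  · have h1 : 0 < ‖v‖ := norm_pos_iff.2 h
    have h2 : ‖(((‖v‖ ^ 2 : ℝ)⁻¹ : ℂ))‖ = (‖v‖ ^ 2)⁻¹ := by
      rw [norm_inv, Complex.norm_real, Real.norm_of_nonneg (by positivity)]
    rw [h2]
    apply le_of_eq
    field_simp

section

variable {Γ : Type} [AddCommGroup Γ]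

/-- The conjugate kernel. -/
noncomputable def ksig (A : Γ → Γ → Mat) (m l : Γ) : Mat := cM (A (-m) (-l))

theorem ksig_kcomp (A B : Γ → Γ → Mat) : ksig (kcomp A B) = kcomp (ksig A) (ksig B) := by
  funext m l
  unfold ksig kcomp
  rw [cM_tsum, ← (Equiv.neg Γ).tsum_eq (fun j => cM ((A (-m) j).comp (B j (-l))))]
  refine tsum_congr fun j => ?_
  rw [cM_comp]
  rfl

theorem ksig_mulK (a : Γ → Mat) : ksig (mulK a) = mulK (fun k => cM (a (-k))) := by
  funext m l
  unfold ksig mulK
  have : -m - -l = -(m - l) := by abel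
  rw [this]

theorem ksig_diagK (a : Γ → Mat) : ksig (diagK a) = diagK (fun k => cM (a (-k))) := by
  funext m l
  unfold ksig diagK
  by_cases h : m = l
  · subst h
    simp
  · have h' : ¬ (-m = -l) := fun h1 => h (neg_injective h1)
    rw [if_neg h, if_neg h', cM_zero]

theorem ksig_sK [Len Γ] (c : ℝ) (A : Γ → Γ → Mat) : sK c (ksig A) = sK c A := by
  unfold sK
  rw [← (Equiv.neg Γ).tsum_eq (fun k => ENNReal.ofReal (Real.exp (c * len k)) *
    ⨆ l, ‖A (l + k) l‖ₑ)]
  refine tsum_congr fun k => ?_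
  simp only [Equiv.neg_apply]
  rw [len_neg]
  congr 1
  refine Equiv.iSup_congr (Equiv.neg Γ) fun l => ?_
  simp only [Equiv.neg_apply, ksig, cM_enorm, neg_add]

end

end W20

open W20 in
theorem pr_W20 (h10 : W10) (h11 : W11) (_h16 : W16) : W20 := by
  intro Γ _ _ Λ c b e F Fi ξ hF hξ hFi
  -- the conjugate kernels
  have hFi' : (fun k => cM (Fi (-k))) = Fi := by
    funext k
    ext1 v
    rw [cM_apply, hFi, cj_cj]
  have hadj : (fun k => cM (adjC Fi (-k))) = adjC Fi := by
    funext k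
    unfold adjC
    rw [cM_adjoint, neg_neg]
    congr 1
    have := congrFun hFi' (-k)
    simpa using this
  have hP : ksig (PK ξ) = PK ξ := by
    unfold PK
    rw [ksig_diagK]
    congr 1
    funext k
    rw [cM_pr, hξ, pr_neg]
  have hA : ksig (AK ξ Fi) = AK ξ Fi := by
    unfold AK
    rw [ksig_kcomp, ksig_kcomp, ksig_kcomp, hP, ksig_mulK, ksig_mulK, hFi', hadj]
  -- finiteness
  obtain ⟨hcomp, -, -, hmul, hdiag, -, -, -⟩ := h10 Γ C3 C3 C3 0 le_rfl
  obtain ⟨-, -, -, -, -, -, hmono, -⟩ := h10 Γ Mat C3 C3 c hF.c_pos.le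
  have hPf : sK 0 (PK ξ) ≠ ∞ := by
    refine ne_top_of_le_ne_top ENNReal.one_ne_top (hdiag (fun m => pr (ξ m)) 1 fun m => ?_)
    rw [← ofReal_norm, ← ENNReal.ofReal_one]
    exact ENNReal.ofReal_le_ofReal (pr_norm_le _)
  have hFf0 : sN 0 Fi ≠ ∞ := by
    refine ne_top_of_le_ne_top ENNReal.ofReal_ne_top (((hmono 0 hF.c_pos.le).2 Fi).trans hF.Fi_le)
  have hFf : sK 0 (mulK Fi) ≠ ∞ := by
    rw [hmul]
    exact hFf0
  have hGf : sK 0 (mulK (adjC Fi)) ≠ ∞ := by
    rw [hmul]
    have h1 : sN 0 (adjC Fi) = sN 0 Fi := by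
      unfold sN
      rw [← (Equiv.neg Γ).tsum_eq (fun k => ENNReal.ofReal (Real.exp (0 * len k)) * ‖Fi k‖ₑ)]
      refine tsum_congr fun k => ?_
      simp only [Equiv.neg_apply, adjC]
      rw [len_neg]
      congr 1
      rw [← ofReal_norm, ← ofReal_norm]
      congr 1
      exact LinearIsometryEquiv.norm_map ContinuousLinearMap.adjoint (Fi (-k))
    rw [h1]
    exact hFf0
  have hAf : sK 0 (AK ξ Fi) ≠ ∞ := by
    unfold AK
    refine ne_top_of_le_ne_top (ENNReal.mul_ne_top hPf (ENNReal.mul_ne_top hFf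
      (ENNReal.mul_ne_top hGf hPf))) ?_
    refine (hcomp _ _).trans (mul_le_mul_right ?_ _)
    refine (hcomp _ _).trans (mul_le_mul_right ?_ _)
    exact hcomp _ _
  -- uniqueness
  have hR : ksig (RK ξ Fi) = RK ξ Fi := by
    unfold RK
    split_ifs with h
    · obtain ⟨h1, h2, h3, h4, h5⟩ := h.choose_spec
      set R := h.choose with hRdef
      have hassoc := (h11 Γ C3 C3 C3 C3).1
      have h1' : sK 0 (ksig R) ≠ ∞ := by
        rw [ksig_sK]
        exact h1
      have h3' : kcomp (ksig R) (PK ξ) = ksig R := by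
        conv_lhs => rw [← hP]
        rw [← ksig_kcomp, h3]
      have h5' : kcomp (ksig R) (AK ξ Fi) = PK ξ := by
        conv_lhs => rw [← hA]
        rw [← ksig_kcomp, h5, hP]
      calc ksig R = kcomp (ksig R) (PK ξ) := h3'.symm
        _ = kcomp (ksig R) (kcomp (AK ξ Fi) R) := by rw [h4]
        _ = kcomp (kcomp (ksig R) (AK ξ Fi)) R := (hassoc _ _ _ h1' hAf h1).symm
        _ = kcomp (PK ξ) R := by rw [h5']
        _ = R := h2
    · funext m l
      exact cM_zero
  have hPi : ksig (PiK ξ Fi) = PiK ξ Fi := by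
    unfold PiK
    rw [ksig_kcomp, ksig_kcomp, hR, ksig_mulK, ksig_mulK, hFi', hadj]
  intro m l v
  have h := congrFun (congrFun hPi m) l
  have h' : cM (PiK ξ Fi (-m) (-l)) v = PiK ξ Fi m l v := by
    rw [← h]
    rfl
  rw [← h', cM_apply, cj_cj]

end Pool.Agent.Work.MP_b0497c_an.Unf.W
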