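import Pool.Agent.Work.MP_b0497c_an.Unf.LStmts
import Pool.Agent.Work.MP_b0497c_an.Bd.B08
import Pool.Agent.Work.MP_b0497c_an.Bd.B06
import Pool.Agent.Work.MP_b0497c_an.Unf.W20

set_option autoImplicit false
set_option linter.dupNamespace false
set_option linter.unusedSectionVars false

/-!
# L20: the label map of the step (helper90)
-/

open scoped ENNReal
open Set MeasureTheory

namespace Pool.Agent.Work.MP_b0497c_an.Unf.L

open W S

namespace L20p

/-! ### parity and reality of products -/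

section parity

variable {E F G : Type} [NormedAddCommGroup E] [NormedSpace ℂ E] [NormedAddCommGroup F]
  [NormedSpace ℂ F] [NormedAddCommGroup G] [NormedSpace ℂ G]

theorem mul_neg_eq (a : Md → (E →L[ℂ] F)) (f : Md → E) (q : Md) :
    mul a f (-q) = ∑' l, a (-(q - l)) (f (-l)) := by
  show (∑' l, a (-q - l) (f l)) = _
  rw [← (Equiv.neg Md).tsum_eq (fun l => a (-q - l) (f l))]
  refine tsum_congr fun l => ?_
  rw [Equiv.neg_apply, show -q - -l = -(q - l) by abel]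

theorem oddF_mul {a : Md → (E →L[ℂ] F)} {f : Md → E} (ha : EvenF a) (hf : OddF f) :
    OddF (mul a f) := by
  intro q
  rw [mul_neg_eq]
  show _ = -(∑' l, a (q - l) (f l))
  rw [← tsum_neg]
  refine tsum_congr fun l => ?_
  rw [ha, hf, map_neg]

theorem evenF_mul {a : Md → (E →L[ℂ] F)} {f : Md → E} (ha : EvenF a) (hf : EvenF f) :
    EvenF (mul a f) := by
  intro q
  rw [mul_neg_eq]
  show _ = (∑' l, a (q - l) (f l))
  refine tsum_congr fun l => ?_
  rw [ha, hf]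

/-- Conjugation of vectors as a real isometry. -/
noncomputable def cjI : C3 ≃ₗᵢ[ℝ] C3 where
  toFun := cjv
  invFun := cjv
  left_inv := W20.cj_cj
  right_inv := W20.cj_cj
  map_add' := W20.cj_add
  map_smul' := by
    intro r v
    ext i
    simp [cjv]
  norm_map' := W20.cj_norm

theorem realV_mul {a : Md → Mat} {f : Md → C3} (ha : RealM a) (hf : RealV f) :
    RealV (mul a f) := by
  intro q
  rw [mul_neg_eq]
  have h1 : cjI (∑' l, a (q - l) (f l)) = ∑' l, cjI (a (q - l) (f l)) :=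
    cjI.toContinuousLinearEquiv.map_tsum
  refine Eq.trans ?_ h1.symm
  refine tsum_congr fun l => ?_
  rw [hf, ha]
  rfl

theorem oddV_mul {a : Md → Mat} {f : Md → C3} (ha : A.EvenM a) (hf : A.OddV f) :
    A.OddV (mul a f) := ⟨realV_mul ha.1 hf.1, oddF_mul ha.2 hf.2⟩

end parity

/-! ### norms -/

section norms

variable {E F G : Type} [NormedAddCommGroup E] [NormedSpace ℂ E] [NormedAddCommGroup F]
  [NormedSpace ℂ F] [NormedAddCommGroup G] [NormedSpace ℂ G]
  {T c γ : ℝ} {σ α : ℝ → ℝ}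

/-- pointwise comparison with a sum -/
theorem nrm_le_add (hP : Par T c γ) (hσ : Wt T σ) {f : ℝ → Md → E} {g : ℝ → Md → F}
    {h : ℝ → Md → G} (H : ∀ t ∈ Icc 0 T, ∀ q, ‖f t q‖ ≤ ‖g t q‖ + ‖h t q‖) :
    Nrm T c γ σ f ≤ Nrm T c γ σ g + Nrm T c γ σ h := by
  have h1 : Nrm T c γ σ f ≤ Nrm T c γ σ
      (fun t => (fun q => ((‖g t q‖ : ℝ) : ℂ)) + fun q => ((‖h t q‖ : ℝ) : ℂ)) := by
    refine sa_nrm_le1 fun t ht q => (H t ht q).trans ?_
    rw [Pi.add_apply, ← Complex.ofReal_add, Complex.norm_real, Real.norm_of_nonneg (by positivity)]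
  refine h1.trans ((sa_nrm_add hP hσ _ _).trans (add_le_add ?_ ?_))
  · refine sa_nrm_le1 fun t _ q => ?_
    rw [Complex.norm_real, norm_norm]
  · refine sa_nrm_le1 fun t _ q => ?_
    rw [Complex.norm_real, norm_norm]

/-- splitting of level `n + 1` -/
theorem res_split {n : ℕ} {f : Md → E} (hf : SuppIn (lev (n + 1) : Set Md) f) :
    f = res (Cl (n + 1)) f + res (lev n : Set Md) f := by
  funext q
  rw [Pi.add_apply]
  unfold res
  by_cases h1 : q ∈ lev (n + 1)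
  · by_cases h2 : q (n + 1) = 0
    · have h3 : q ∈ (lev n : Set Md) := by
        intro i hi
        rcases Nat.lt_or_ge (n + 1) i with h | h
        · exact h1 i h
        · rw [show i = n + 1 by omega]; exact h2
      have h4 : q ∉ Cl (n + 1) := fun h => h.2 h2
      rw [if_neg h4, if_pos h3, zero_add]
    · have h3 : q ∉ (lev n : Set Md) := fun h => h2 (h (n + 1) (by omega))
      have h4 : q ∈ Cl (n + 1) := ⟨h1, h2⟩
      rw [if_pos h4, if_neg h3, add_zero]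
  · have h3 : q ∉ (lev n : Set Md) := fun h => h1 fun i hi => h i (by omega)
    have h4 : q ∉ Cl (n + 1) := fun h => h1 h.1
    rw [if_neg h4, if_neg h3, add_zero, hf q h1]

theorem cm_res {S : Set Md} {f : ℝ → Md → E} (hf : CM T f) : CM T (fun t => res S (f t)) := by
  classical
  intro q
  unfold res
  by_cases h : q ∈ S
  · simp only [if_pos h]; exact hf q
  · simp only [if_neg h]; exact continuousOn_const

theorem norm_res_le {S : Set Md} (f : Md → E) (q : Md) : ‖res S f q‖ ≤ ‖f q‖ := by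
  classical
  unfold res
  split_ifs
  · exact le_rfl
  · rw [norm_zero]; exact norm_nonneg _

theorem supp_res {S : Set Md} (f : Md → E) : SuppIn S (res S f) := by
  intro q hq
  unfold res
  rw [if_neg hq]

end norms

/-! ### parameters -/

section par

variable {D : Dat}

theorem par_of (hD : D.Hyp) {r : ℝ} (hr : 0 ≤ r) : Par D.T r 0 :=
  ⟨hD.T_pos, le_rfl, by rw [zero_mul]; exact hr⟩

theorem u_pos (hD : D.Hyp) : 0 < u1 D := hD.u_pos _

theorem u_lt (hD : D.Hyp) : u1 D < 1 := hD.u_lt _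

theorem u_le (hD : D.Hyp) : u1 D ≤ D.u (D.m + 1) := by
  have h : ∀ k, D.m + k ≤ D.n → D.u (D.m + k + 1) ≤ D.u (D.m + 1) := by
    intro k
    induction k with
    | zero => intro _; exact le_rfl
    | succ k ih =>
      intro hk
      have h1 := ih (by omega)
      have h2 := hD.u_step (D.m + k + 1) (by omega) (by omega)
      have h3 : D.u (D.m + k + 1) ^ 16 ≤ D.u (D.m + k + 1) :=
        pow_le_of_le_one (hD.u_pos _).le (hD.u_lt _).le (by norm_num)
      exact h2.trans (h3.trans h1)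
  obtain ⟨k, hk⟩ := Nat.exists_eq_add_of_le hD.hmn
  have := h k (by omega)
  rw [← hk] at this
  exact this

/-- `G ^ 100 u_{n+1} ≤ 1`. -/
theorem G_u (hD : D.Hyp) : D.G ^ 100 * u1 D ≤ 1 := by
  have h1 := hD.small
  have h2 : (D.G ^ 100 * D.u (D.m + 1)) ^ 4 ≤ 1 := by
    calc (D.G ^ 100 * D.u (D.m + 1)) ^ 4 = D.G ^ 400 * D.u (D.m + 1) ^ 4 := by ring
      _ ≤ 1 := h1
  have h3 : 0 ≤ D.G ^ 100 * D.u (D.m + 1) :=
    mul_nonneg (pow_nonneg (sh_G0 hD) _) (hD.u_pos _).le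
  have h4 : D.G ^ 100 * D.u (D.m + 1) ≤ 1 := by
    by_contra h
    push Not at h
    have := one_lt_pow₀ h (show (4 : ℕ) ≠ 0 by norm_num)
    linarith
  exact (mul_le_mul_of_nonneg_left (u_le hD) (pow_nonneg (sh_G0 hD) _)).trans h4

/-- `G ^ k u_{n+1} ^ 1 ≤ 2 ^ (k - 100)`. -/
theorem G_u' (hD : D.Hyp) {k j : ℕ} (h : k + j ≤ 100) : 2 ^ j * (D.G ^ k * u1 D) ≤ 1 := by
  have h0 := u_pos hD
  have hG := hD.G_two
  have hG1 := sh_G1 hD
  have h1 : 2 ^ j * D.G ^ k ≤ D.G ^ 100 := by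
    calc 2 ^ j * D.G ^ k ≤ D.G ^ j * D.G ^ k :=
          mul_le_mul_of_nonneg_right (pow_le_pow_left₀ (by norm_num) hG j)
            (pow_nonneg (sh_G0 hD) _)
      _ = D.G ^ (j + k) := (pow_add _ _ _).symm
      _ ≤ D.G ^ 100 := pow_le_pow_right₀ hG1 (by omega)
  calc 2 ^ j * (D.G ^ k * u1 D) = (2 ^ j * D.G ^ k) * u1 D := by ring
    _ ≤ D.G ^ 100 * u1 D := mul_le_mul_of_nonneg_right h1 h0.le
    _ ≤ 1 := G_u hD

theorem wt_α (hD : D.Hyp) : Wt D.T (α1 D) := hD.α_wt _ (by have := hD.hmn; omega) le_rfl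

theorem α_le (hD : D.Hyp) : ∀ t ∈ Icc 0 D.T, α1 D t ≤ D.G :=
  hD.α_le _ (by have := hD.hmn; omega) le_rfl

theorem N_pos (hD : D.Hyp) : 0 < N1 D := sh_N0 hD le_rfl

/-- from the weight `α_{n+1}` to the weight one -/
theorem to_one (hD : D.Hyp) {E : Type} [NormedAddCommGroup E] [NormedSpace ℂ E] {r : ℝ}
    (hr : 0 ≤ r) (f : ℝ → Md → E) :
    Nrm D.T r 0 Dat.one' f ≤ ENNReal.ofReal D.G * Nrm D.T r 0 (α1 D) f :=
  sa_nrm_wt (par_of hD hr) (wt_α hD) (sa_wt1 D.T) (sh_G0 hD)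
    (fun t ht => by rw [mul_one]; exact α_le hD t ht) f

/-- `N_n / N_{n+1} ≤ u ^ 512`. -/
theorem N_ratio (hD : D.Hyp) : D.N D.n ≤ u1 D ^ 512 * N1 D := by
  have h := hD.mu_le (D.n + 1) (by have := hD.hmn; omega) le_rfl
  rw [show D.n + 1 - 1 = D.n by omega] at h
  exact (div_le_iff₀ (N_pos hD)).1 h

theorem K_low (hD : D.Hyp) {i : ℕ} (hi : i ≤ D.n) : ‖kv (D.K i)‖ ≤ D.N D.n :=
  sh_N_mono hD hi (by omega)

theorem Nn_pos (hD : D.Hyp) : 0 < D.N D.n := sh_N0 hD (by omega)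

/-- the norm of `w` -/
theorem w_all {w0 : Md → C3} {w : ℝ → Md → C3} (hD : D.Hyp) (hw : WIn D w0 w) :
    Nrm D.T (D.c / 2) 0 (α1 D) w ≤ ENNReal.ofReal (D.G ^ 4 / N1 D) := by
  have hc := hD.c_pos
  have hP : Par D.T (D.c / 2) 0 := par_of hD (by linarith)
  have h1 : Nrm D.T (D.c / 2) 0 (α1 D) w = Nrm D.T (D.c / 2) 0 (α1 D)
      (fun t => res (Cl (D.n + 1)) (w t) + res (lev D.n : Set Md) (w t)) :=
    sa_nrm_congr (fun t ht => res_split (hw.supp t ht)) fun _ _ => rfl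
  rw [h1]
  refine (sa_nrm_add hP (wt_α hD) _ _).trans ((add_le_add hw.w_le hw.w_low).trans ?_)
  have hN := N_pos hD
  have hu := u_pos hD
  have hG := hD.G_two
  have hG0 := sh_G0 hD
  rw [← ENNReal.ofReal_add (by positivity) (by positivity), ← add_div]
  refine ENNReal.ofReal_le_ofReal (div_le_div_of_nonneg_right ?_ hN.le)
  have h2 : u1 D ^ 256 ≤ 1 := pow_le_one₀ hu.le (u_lt hD).le
  have h3 : (1 : ℝ) ≤ D.G ^ 3 := one_le_pow₀ (sh_G1 hD)
  calc D.G ^ 3 + u1 D ^ 256 ≤ D.G ^ 3 + D.G ^ 3 := by linarith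
    _ = 2 * D.G ^ 3 := by ring
    _ ≤ D.G * D.G ^ 3 := mul_le_mul_of_nonneg_right hG (by positivity)
    _ = D.G ^ 4 := by ring

end par

end L20p

open L20p in
/-- L20. -/
theorem l20 (h13 : L13) : L20 := by
  intro D X U a p w0 w hD hL hw
  have hc := hD.c_pos
  have hG := hD.G_two
  have hG0 := sh_G0 hD
  have hG1 := sh_G1 hD
  have hN := N_pos hD
  have hNn := Nn_pos hD
  have hu := u_pos hD
  have hu1 := u_lt hD
  have hmn := hD.hmn
  have hP : Par D.T (D.c / 2) 0 := par_of hD (by linarith)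
  have hα := wt_α hD
  have hFi1 : Nrm D.T (D.c / 2) 0 (fun _ => 1) (D.Fi D.n) ≤ ENNReal.ofReal D.G :=
    (sa_nrm_cmono (by linarith) (sa_wt1 D.T).pos _).trans (hD.F_le D.n hmn le_rfl).2.1
  have hwN := w_all hD hw
  -- the norm of V
  have hV : Nrm D.T (D.c / 2) 0 (α1 D) (VV D w) ≤ ENNReal.ofReal (D.G ^ 5 / N1 D) := by
    refine (sa_nrm_mul1 hP hα (D.Fi D.n) w).trans ((mul_le_mul' hFi1 hwN).trans ?_)
    rw [← ENNReal.ofReal_mul hG0]
    refine ENNReal.ofReal_le_ofReal (le_of_eq ?_)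
    ring
  have hVcm : CM D.T (VV D w) :=
    sa_cm_mul hP hα (hD.F_cm D.n hmn le_rfl).2.1 hw.cm (sa_fin0 hFi1) (sa_fin0 hwN)
  have hVs : SuppT D.T (lev (D.n + 1) : Set Md) (VV D w) := fun t ht =>
    G57.supp_mul_lev (Nat.le_succ _) ((hD.F_supp D.n hmn le_rfl).2.1 t ht) (hw.supp t ht)
  have hVo : ∀ t ∈ Icc 0 D.T, A.OddV (VV D w t) := fun t ht =>
    oddV_mul (hL.Fi_even t ht) (hw.odd t ht)
  -- the last row
  have hrow : Nrm D.T (D.c / 2) 0 (α1 D) (fun t q => innerSL ℂ (K1 D) (VV D w t q)) ≤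
      ENNReal.ofReal (u1 D ^ 120 + D.G * u1 D ^ 256) := by
    have hrw1 : Nrm D.T (D.c / 2) 0 (fun _ => 1) (D.rw (D.n + 1)) ≤
        ENNReal.ofReal (D.G * N1 D) :=
      (sa_nrm_cmono (by linarith) (sa_wt1 D.T).pos _).trans
        (sh_rw hD (show D.m < D.n + 1 by omega) le_rfl).1
    have e : ∀ t ∈ Icc 0 D.T, (fun q => innerSL ℂ (K1 D) (VV D w t q)) =
        mul (D.rw (D.n + 1) t) (res (Cl (D.n + 1)) (w t)) +
          mul (D.rw (D.n + 1) t) (res (lev D.n : Set Md) (w t)) := by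
      intro t ht
      have f1 : sN 0 (D.Fi D.n t) ≠ ∞ := sa_static0 hP (sa_wt1 D.T) (sa_fin0 hFi1) ht
      have f2 : sN 0 (w t) ≠ ∞ := sa_static0 hP hα (sa_fin0 hwN) ht
      have f3 : sN 0 (D.rw (D.n + 1) t) ≠ ∞ := sa_static0 hP (sa_wt1 D.T) (sa_fin0 hrw1) ht
      have f4 : sN 0 (res (Cl (D.n + 1)) (w t)) ≠ ∞ :=
        sa_static0 hP hα (sa_fin0 hw.w_le) ht
      have f5 : sN 0 (res (lev D.n : Set Md) (w t)) ≠ ∞ :=
        sa_static0 hP hα (sa_fin0 hw.w_low) ht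
      rw [← S.mul_add f3 f4 f5, ← res_split (hw.supp t ht)]
      funext q
      exact (S16p.mul_rwF (k := K1 D) f1 f2 q).symm
    rw [sa_nrm_congr (T := D.T) (c := D.c / 2) (γ := 0) (ρ := α1 D) (ρ' := α1 D) e fun _ _ => rfl]
    refine (sa_nrm_add hP hα _ _).trans ?_
    rw [ENNReal.ofReal_add (by positivity) (by positivity)]
    refine add_le_add hw.w_k ?_
    refine (sa_nrm_mul1 hP hα (D.rw (D.n + 1)) _).trans
      ((mul_le_mul' hrw1 hw.w_low).trans ?_)
    rw [← ENNReal.ofReal_mul (by positivity)]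
    refine ENNReal.ofReal_le_ofReal (le_of_eq ?_)
    field_simp
  -- the tuple
  have htup : Nrm D.T (D.c / 2) 0 (α1 D) (fun t q => (fun i : Fin (D.n + 1 + 1) =>
      lab D.K (VV D w t) i q)) ≤ ENNReal.ofReal (2 * u1 D ^ 120) := by
    have h1 : Nrm D.T (D.c / 2) 0 (α1 D) (fun t q => (fun i : Fin (D.n + 1 + 1) =>
        lab D.K (VV D w t) i q)) ≤
        Nrm D.T (D.c / 2) 0 (α1 D) (fun t => (D.N D.n : ℂ) • VV D w t) +
        Nrm D.T (D.c / 2) 0 (α1 D) (fun t q => innerSL ℂ (K1 D) (VV D w t q)) := by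
      refine nrm_le_add hP hα fun t ht q => ?_
      rw [pi_norm_le_iff_of_nonneg (by positivity)]
      intro i
      by_cases hi : (i : ℕ) ≤ D.n
      · have h2 : ‖lab D.K (VV D w t) i q‖ ≤ ‖kv (D.K i)‖ * ‖VV D w t q‖ := by
          unfold lab
          rw [innerSL_apply_apply]
          exact norm_inner_le_norm _ _
        have h3 : ‖((D.N D.n : ℂ) • VV D w t) q‖ = D.N D.n * ‖VV D w t q‖ := by
          rw [Pi.smul_apply, norm_smul, Complex.norm_real, Real.norm_of_nonneg hNn.le]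
        have h4 := mul_le_mul_of_nonneg_right (K_low hD hi) (norm_nonneg (VV D w t q))
        have h5 := norm_nonneg (innerSL ℂ (K1 D) (VV D w t q))
        linarith
      · have h2 : (i : ℕ) = D.n + 1 := by have := i.2; omega
        have h3 : lab D.K (VV D w t) i q = innerSL ℂ (K1 D) (VV D w t q) := by
          unfold lab K1 Dat.kk
          rw [h2]
        rw [h3]
        have h5 := norm_nonneg (((D.N D.n : ℂ) • VV D w t) q)
        linarith
    have h2 : Nrm D.T (D.c / 2) 0 (α1 D) (fun t => (D.N D.n : ℂ) • VV D w t) ≤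
        ENNReal.ofReal (u1 D ^ 512 * D.G ^ 5) := by
      have h3 : Nrm D.T (D.c / 2) 0 (α1 D) (fun t => (D.N D.n : ℂ) • VV D w t) ≤
          ENNReal.ofReal (D.N D.n) * Nrm D.T (D.c / 2) 0 (α1 D) (VV D w) :=
        sa_nrm_le hNn.le fun t _ q => by
          rw [Pi.smul_apply, norm_smul, Complex.norm_real, Real.norm_of_nonneg hNn.le]
      refine h3.trans ((mul_le_mul' le_rfl hV).trans ?_)
      rw [← ENNReal.ofReal_mul hNn.le]
      refine ENNReal.ofReal_le_ofReal ?_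
      have h4 := mul_le_mul_of_nonneg_right (N_ratio hD)
        (show 0 ≤ D.G ^ 5 / N1 D by positivity)
      refine h4.trans (le_of_eq ?_)
      field_simp
    refine h1.trans ((add_le_add h2 hrow).trans ?_)
    rw [← ENNReal.ofReal_add (by positivity) (by positivity)]
    refine ENNReal.ofReal_le_ofReal ?_
    have a1 := G_u' hD (k := 5) (j := 1) (by norm_num)
    have a2 := G_u' hD (k := 1) (j := 1) (by norm_num)
    rw [pow_one] at a1
    rw [pow_one, pow_one] at a2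
    have b1 : u1 D ^ 511 ≤ u1 D ^ 120 := pow_le_pow_of_le_one hu.le hu1.le (by norm_num)
    have b2 : u1 D ^ 255 ≤ u1 D ^ 120 := pow_le_pow_of_le_one hu.le hu1.le (by norm_num)
    have c1 : u1 D ^ 512 * D.G ^ 5 ≤ 1 / 2 * u1 D ^ 120 := by
      calc u1 D ^ 512 * D.G ^ 5 = (D.G ^ 5 * u1 D) * u1 D ^ 511 := by ring
        _ ≤ 1 / 2 * u1 D ^ 511 := mul_le_mul_of_nonneg_right (by linarith) (by positivity)
        _ ≤ 1 / 2 * u1 D ^ 120 := by linarith
    have c2 : D.G * u1 D ^ 256 ≤ 1 / 2 * u1 D ^ 120 := by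
      calc D.G * u1 D ^ 256 = (D.G * u1 D) * u1 D ^ 255 := by ring
        _ ≤ 1 / 2 * u1 D ^ 255 := mul_le_mul_of_nonneg_right (by linarith) (by positivity)
        _ ≤ 1 / 2 * u1 D ^ 120 := by linarith
    linarith
  refine ⟨⟨hVcm, hVs, hVo, hV, htup⟩, ?_⟩
  -- the label map
  have hVone : Nrm D.T (D.c / 2) 0 Dat.one' (VV D w) ≠ ∞ :=
    ne_top_of_le_ne_top (ENNReal.mul_ne_top ENNReal.ofReal_ne_top (sa_fin0 hV))
      (to_one hD (by linarith) _)
  have htup1 : Nrm D.T (D.c / 2) 0 Dat.one' (fun t q => (fun i : Fin (D.n + 1 + 1) =>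
      lab D.K (VV D w t) i q)) ≤ ENNReal.ofReal (2 * D.G * u1 D ^ 120) := by
    refine (to_one hD (by linarith) _).trans ((mul_le_mul' le_rfl htup).trans ?_)
    rw [← ENNReal.ofReal_mul hG0]
    refine ENNReal.ofReal_le_ofReal (le_of_eq ?_)
    ring
  have hB : D.c / 4 + 3 * (2 * D.G * u1 D ^ 120) < D.c / 2 := by
    have a1 := G_u' hD (k := 2) (j := 5) (by norm_num)
    have b1 : u1 D ^ 120 ≤ u1 D := pow_le_of_le_one hu.le hu1.le (by norm_num)
    have b2 : 24 * D.G * u1 D ^ 120 < D.c := by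
      have h1 : D.G * (24 * D.G * u1 D ^ 120) ≤ 24 / 32 := by
        calc D.G * (24 * D.G * u1 D ^ 120) = 24 * (D.G ^ 2 * u1 D ^ 120) := by ring
          _ ≤ 24 * (D.G ^ 2 * u1 D) := by
            have := mul_le_mul_of_nonneg_left b1 (show 0 ≤ D.G ^ 2 by positivity)
            linarith
          _ ≤ 24 / 32 := by
            norm_num at a1
            linarith
      have h2 : D.G * (24 * D.G * u1 D ^ 120) < D.G * D.c := by linarith [hD.c_G]
      exact lt_of_mul_lt_mul_left h2 hG0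
    linarith
  obtain ⟨ζ, z1, z2, z3, z4, z5, z6, z7⟩ := h13 (D.n + 1) D.K D.T (D.c / 2) (D.c / 4)
    (2 * D.G * u1 D ^ 120) (VV D w) hD.T_pos hD.T_le (by linarith) (by positivity) hB
    ⟨hVcm, hVs, hVone⟩ hVo htup1
  obtain ⟨z8, z9⟩ := z7 (α1 D) hα
  refine ⟨ζ, z1, z2, z3, z4, z5, z8.trans hV, fun i hi => ?_, z6⟩
  refine (z9 i hi).trans (le_trans ?_ htup)
  refine sa_nrm_le1 fun t _ q => ?_
  exact norm_le_pi_norm (fun i : Fin (D.n + 1 + 1) => lab D.K (VV D w t) i q)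
    (⟨i, by omega⟩ : Fin (D.n + 1 + 1))

end Pool.Agent.Work.MP_b0497c_an.Unf.L
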