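import Pool.Agent.Work.MP_b0497c_an.Unf.SStmts3
import Pool.Agent.Work.MP_b0497c_an.Unf.W20

set_option autoImplicit false

/-!
# S29: reality and parity of the Kelvin data

For a compatible pair of isometric involutions `σ3` of `ℂ³` and `σ1` of `ℂ` (conjugations or
identities) the map `rg σ f q = σ (f (-q))` commutes with the multiplications by `F⁻¹`, `M`, hence
by the row and the column, by `s` (uniqueness of the inverse), `p`, `gK`, `Φ` (uniqueness for the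
ordinary differential equation).
-/

open scoped ENNReal
open Set MeasureTheory

namespace Pool.Agent.Work.MP_b0497c_an.Unf.S

open W

namespace IS29

section gen

set_option linter.unusedSectionVars false

variable {E F G : Type} [NormedAddCommGroup E] [NormedSpace ℂ E] [NormedAddCommGroup F]
  [NormedSpace ℂ F] [NormedAddCommGroup G] [NormedSpace ℂ G]

/-- The reflected function. -/
noncomputable def rg (σ : E ≃ₗᵢ[ℝ] E) (f : Md → E) (q : Md) : E := σ (f (-q))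

theorem act_rg (σ : E ≃ₗᵢ[ℝ] E) (τ : F ≃ₗᵢ[ℝ] F) {A A' : Md → Md → (E →L[ℂ] F)}
    (h : ∀ m l v, A' (-m) (-l) (σ v) = τ (A m l v)) (f : Md → E) :
    act A' (rg σ f) = rg τ (act A f) := by
  funext m
  unfold act rg
  have h1 : τ (∑' l, A (-m) l (f l)) = ∑' l, τ (A (-m) l (f l)) :=
    τ.toContinuousLinearEquiv.map_tsum
  rw [h1, ← (Equiv.neg Md).tsum_eq (fun l => τ (A (-m) l (f l)))]
  refine tsum_congr fun l => ?_
  have h2 := h (-m) (-l) (f (-l))
  rw [neg_neg, neg_neg] at h2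
  exact h2

theorem mul_rg (σ : E ≃ₗᵢ[ℝ] E) (τ : F ≃ₗᵢ[ℝ] F) {a a' : Md → (E →L[ℂ] F)}
    (h : ∀ q v, a' (-q) (σ v) = τ (a q v)) (f : Md → E) :
    mul a' (rg σ f) = rg τ (mul a f) := by
  refine act_rg σ τ (fun m l v => ?_) f
  unfold mulK
  rw [← h (m - l) v]
  congr 2
  abel

/-- The constant function. -/
noncomputable def dl (v : E) (q : Md) : E := if q = 0 then v else 0

theorem act_dl (A : Md → Md → (E →L[ℂ] F)) (v : E) (q : Md) : act A (dl v) q = A q 0 v := by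
  unfold act
  rw [tsum_eq_single 0]
  · unfold dl
    rw [if_pos rfl]
  · intro l hl
    unfold dl
    rw [if_neg hl, map_zero]

theorem mul_dl (a : Md → (E →L[ℂ] F)) (v : E) (q : Md) : mul a (dl v) q = a q v := by
  unfold mul
  rw [act_dl]
  unfold mulK
  rw [sub_zero]

theorem rg_dl (σ : E ≃ₗᵢ[ℝ] E) (v : E) : rg σ (dl v) = dl (σ v) := by
  funext q
  unfold rg dl
  by_cases h : q = 0
  · rw [if_pos h, if_pos (by rw [h, neg_zero])]
  · rw [if_neg h, if_neg (by rwa [neg_eq_zero]), map_zero]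

theorem sN_dl (v : E) : sN 0 (dl v) ≠ ∞ := by
  unfold sN
  rw [tsum_eq_single 0]
  · refine ENNReal.mul_ne_top ENNReal.ofReal_ne_top ?_
    exact enorm_ne_top
  · intro l hl
    unfold dl
    rw [if_neg hl, enorm_zero, mul_zero]

theorem mulK_mm (a : Md → (F →L[ℂ] G)) (b : Md → (E →L[ℂ] F)) :
    mulK (mm a b) = kcomp (mulK a) (mulK b) := by
  funext m l
  unfold mulK mm kcomp conv
  rw [← (Equiv.subRight l).tsum_eq (fun j =>
    ContinuousLinearMap.compL ℂ E F G (a (m - l - j)) (b j))]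
  refine tsum_congr fun j => ?_
  simp only [Equiv.subRight_apply, ContinuousLinearMap.compL_apply]
  congr 2
  abel

theorem sN_zero_le {T c : ℝ} (hc : 0 ≤ c) (f : ℝ → Md → E) {t : ℝ} (ht : t ∈ Icc 0 T) :
    sN 0 (f t) ≤ Nrm T c 0 Dat.one' f := by
  unfold sN Nrm
  refine ENNReal.tsum_le_tsum fun m => ?_
  refine le_trans ?_ (le_iSup₂ (f := fun t (_ : t ∈ Icc 0 T) =>
    ENNReal.ofReal (Real.exp ((c - 0 * t) * len m) / Dat.one' t) * ‖f t m‖ₑ) t ht)
  refine mul_le_mul_left (ENNReal.ofReal_le_ofReal ?_) _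
  unfold Dat.one'
  rw [div_one]
  refine Real.exp_le_exp.2 ?_
  rw [zero_mul, zero_mul, sub_zero]
  exact mul_nonneg hc (len_nonneg m)

theorem sK_zero_le {T c : ℝ} (hc : 0 ≤ c) (A : ℝ → Md → Md → (E →L[ℂ] F)) {t : ℝ}
    (ht : t ∈ Icc 0 T) : sK 0 (A t) ≤ KN T c A := by
  unfold sK KN
  refine ENNReal.tsum_le_tsum fun m => ?_
  refine mul_le_mul' (ENNReal.ofReal_le_ofReal ?_) ?_
  · refine Real.exp_le_exp.2 ?_
    rw [zero_mul]
    exact mul_nonneg hc (len_nonneg m)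
  · refine iSup_mono fun l => ?_
    exact le_iSup₂ (f := fun t (_ : t ∈ Icc 0 T) => ‖A t (l + m) l‖ₑ) t ht

theorem sN_eq (f : Md → E) : sN 0 f = ∑' m, ‖f m‖ₑ := by
  unfold sN
  refine tsum_congr fun m => ?_
  rw [zero_mul, Real.exp_zero, ENNReal.ofReal_one, one_mul]

theorem sN_mono {f : Md → E} {g : Md → F} (h : ∀ q, ‖f q‖ ≤ ‖g q‖) : sN 0 f ≤ sN 0 g := by
  rw [sN_eq, sN_eq]
  refine ENNReal.tsum_le_tsum fun m => ?_
  rw [← ofReal_norm, ← ofReal_norm]
  exact ENNReal.ofReal_le_ofReal (h m)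

theorem sN_entry {f : Md → E} {B : ℝ≥0∞} (hB : B ≠ ∞) (h : sN 0 f ≤ B) (q : Md) :
    ‖f q‖ ≤ B.toReal := by
  rw [sN_eq] at h
  have h1 : ‖f q‖ₑ ≤ B := (ENNReal.le_tsum q).trans h
  rw [← toReal_enorm]
  exact ENNReal.toReal_mono hB h1

/-- Convolution with an `l1` function is bounded on bounded functions. -/
theorem mul_bdd {a : Md → (E →L[ℂ] F)} {β : ℝ} (hβ : sN 0 a ≤ ENNReal.ofReal β) (hβ0 : 0 ≤ β)
    {f : Md → E} {C : ℝ} (hC : 0 ≤ C) (hf : ∀ q, ‖f q‖ ≤ C) (q : Md) : ‖mul a f q‖ ≤ β * C := by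
  have h1 : ‖mul a f q‖ₑ ≤ ENNReal.ofReal (β * C) := by
    unfold mul act
    refine enorm_tsum_le_tsum_enorm.trans ?_
    have h2 : ∀ l, ‖mulK a q l (f l)‖ₑ ≤ ‖a (q - l)‖ₑ * ENNReal.ofReal C := by
      intro l
      refine ((a (q - l)).le_opENorm (f l)).trans ?_
      refine mul_le_mul_right ?_ _
      rw [← ofReal_norm]
      exact ENNReal.ofReal_le_ofReal (hf l)
    refine (ENNReal.tsum_le_tsum h2).trans ?_
    rw [ENNReal.tsum_mul_right, ENNReal.ofReal_mul hβ0]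
    refine mul_le_mul_left ?_ _
    refine le_trans (le_of_eq ?_) hβ
    rw [sN_eq]
    exact (Equiv.subLeft q).tsum_eq fun l => ‖a l‖ₑ
  rw [← ofReal_norm] at h1
  exact (ENNReal.ofReal_le_ofReal_iff (mul_nonneg hβ0 hC)).1 h1

end gen

/-! ### Uniqueness for the differential equation -/

theorem half {E : Type} [NormedAddCommGroup E] [NormedSpace ℝ E] {T β C s ε R : ℝ}
    {w w' : ℝ → Md → E} (hε : |ε| = 1) (hR : ∀ r ∈ Icc 0 R, s + ε * r ∈ Icc 0 T)
    (hd : ∀ q, ∀ t ∈ Icc 0 T, HasDerivWithinAt (fun t => w t q) (w' t q) (Icc 0 T) t)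
    (hb : ∀ t ∈ Icc 0 T, ∀ C, 0 ≤ C → (∀ q, ‖w t q‖ ≤ C) → ∀ q, ‖w' t q‖ ≤ β * C)
    (hC : 0 ≤ C) (hw : ∀ t ∈ Icc 0 T, ∀ q, ‖w t q‖ ≤ C * Real.exp (2 * β * |t - s|))
    (h0 : ∀ q, w s q = 0) (q : Md) :
    ∀ r ∈ Icc 0 R, ‖w (s + ε * r) q‖ ≤ C / 2 * Real.exp (2 * β * r) := by
  have hder : ∀ r ∈ Icc 0 R, HasDerivWithinAt (fun r => w (s + ε * r) q)
      (ε • w' (s + ε * r) q) (Icc 0 R) r := by
    intro r hr
    have h1 : HasDerivWithinAt (fun r : ℝ => s + ε * r) ε (Icc 0 R) r := by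
      have h2 := ((hasDerivAt_id r).const_mul ε).const_add s
      rw [mul_one] at h2
      exact h2.hasDerivWithinAt
    exact (hd q _ (hR r hr)).scomp r h1 (fun x hx => hR x hx)
  refine image_norm_le_of_norm_deriv_right_le_deriv_boundary
    (f := fun r => w (s + ε * r) q) (f' := fun r => ε • w' (s + ε * r) q)
    (B := fun r => C / 2 * Real.exp (2 * β * r))
    (B' := fun r => β * (C * Real.exp (2 * β * r))) ?_ ?_ ?_ ?_ ?_
  · intro r hr
    exact (hder r hr).continuousWithinAt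
  · intro r hr
    refine (hder r ⟨hr.1, hr.2.le⟩).mono_of_mem_nhdsWithin ?_
    exact Filter.mem_of_superset (Ico_mem_nhdsGE hr.2) (fun x hx =>
      ⟨hr.1.trans hx.1, hx.2.le⟩)
  · simp only [mul_zero, add_zero, h0, norm_zero]
    positivity
  · intro r
    have h1 : HasDerivAt (fun r : ℝ => 2 * β * r) (2 * β) r := by
      have := (hasDerivAt_id r).const_mul (2 * β)
      rwa [mul_one] at this
    have h2 := h1.exp.const_mul (C / 2)
    have h3 : β * (C * Real.exp (2 * β * r)) = C / 2 * (Real.exp (2 * β * r) * (2 * β)) := by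
      ring
    rw [h3]
    exact h2
  · intro r hr
    have hr' : r ∈ Icc 0 R := ⟨hr.1, hr.2.le⟩
    rw [norm_smul, Real.norm_eq_abs, hε, one_mul]
    refine hb _ (hR r hr') (C * Real.exp (2 * β * r)) (by positivity) (fun q => ?_) q
    refine (hw _ (hR r hr') q).trans (le_of_eq ?_)
    rw [add_sub_cancel_left, abs_mul, hε, one_mul, abs_of_nonneg hr.1]

theorem uniq {E : Type} [NormedAddCommGroup E] [NormedSpace ℝ E] {T β C s : ℝ}
    {w w' : ℝ → Md → E} (hs : s ∈ Icc 0 T) (hβ : 0 ≤ β)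
    (hd : ∀ q, ∀ t ∈ Icc 0 T, HasDerivWithinAt (fun t => w t q) (w' t q) (Icc 0 T) t)
    (hb : ∀ t ∈ Icc 0 T, ∀ C, 0 ≤ C → (∀ q, ‖w t q‖ ≤ C) → ∀ q, ‖w' t q‖ ≤ β * C)
    (hC : 0 ≤ C) (hw : ∀ t ∈ Icc 0 T, ∀ q, ‖w t q‖ ≤ C)
    (h0 : ∀ q, w s q = 0) : ∀ t ∈ Icc 0 T, ∀ q, w t q = 0 := by
  have key : ∀ n : ℕ, ∀ t ∈ Icc 0 T, ∀ q,
      ‖w t q‖ ≤ C / 2 ^ n * Real.exp (2 * β * |t - s|) := by
    intro n
    induction n with
    | zero =>
      intro t ht q
      rw [pow_zero, div_one]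
      refine (hw t ht q).trans (le_mul_of_one_le_right hC ?_)
      exact Real.one_le_exp (by positivity)
    | succ n ih =>
      intro t ht q
      have hC' : 0 ≤ C / 2 ^ n := by positivity
      have h2 : C / 2 ^ (n + 1) = C / 2 ^ n / 2 := by
        rw [pow_succ]
        field_simp
      rw [h2]
      rcases le_total s t with h | h
      · have h1 := half (ε := 1) (R := T - s) (s := s) (by simp) (fun r hr => by
          rw [one_mul]
          exact ⟨add_nonneg hs.1 hr.1, by linarith [hr.2]⟩) hd hb hC' ih h0 q (t - s)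
          ⟨by linarith, by linarith [ht.2]⟩
        rw [one_mul, add_sub_cancel] at h1
        rwa [abs_of_nonneg (by linarith : 0 ≤ t - s)]
      · have h1 := half (ε := -1) (R := s) (s := s) (by simp) (fun r hr => by
          exact ⟨by linarith [hr.2], by linarith [hr.1, hs.2]⟩) hd hb hC' ih h0 q (s - t)
          ⟨by linarith, by linarith [ht.1]⟩
        have h3 : s + -1 * (s - t) = t := by ring
        rw [h3] at h1
        rw [abs_sub_comm, abs_of_nonneg (by linarith : 0 ≤ s - t)]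
        exact h1
  intro t ht q
  have hlim : Filter.Tendsto (fun n : ℕ => C / 2 ^ n * Real.exp (2 * β * |t - s|))
      Filter.atTop (nhds 0) := by
    have h1 : Filter.Tendsto (fun n : ℕ => (1 / 2 : ℝ) ^ n) Filter.atTop (nhds 0) :=
      tendsto_pow_atTop_nhds_zero_of_lt_one (by norm_num) (by norm_num)
    have h2 := (h1.const_mul C).mul_const (Real.exp (2 * β * |t - s|))
    rw [mul_zero, zero_mul] at h2
    refine h2.congr fun n => ?_
    rw [one_div, inv_pow]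
    rfl
  have h1 : ‖w t q‖ ≤ 0 := ge_of_tendsto' hlim fun n => key n t ht q
  exact norm_le_zero_iff.1 h1

/-! ### Symmetries -/

/-- A compatible pair of isometric involutions of vectors and scalars. -/
structure Sz (σ : C3 ≃ₗᵢ[ℝ] C3) (τ : ℂ ≃ₗᵢ[ℝ] ℂ) : Prop where
  smul : ∀ z v, σ (z • v) = τ z • σ v
  mul : ∀ z w, τ (z * w) = τ z * τ w
  inn : ∀ v w, inner ℂ (σ v) (σ w) = τ (inner ℂ v w)
  inv : ∀ v, σ (σ v) = v
  inv1 : ∀ z, τ (τ z) = z
  one : τ 1 = 1
  k : ∀ k, σ (kv k) = kv k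

variable {σ : C3 ≃ₗᵢ[ℝ] C3} {τ : ℂ ≃ₗᵢ[ℝ] ℂ}

theorem rw_sym (hz : Sz σ τ) {Fi : Md → Mat} (hFi : ∀ q v, Fi (-q) (σ v) = σ (Fi q v))
    (k : Fin 3 → ℤ) (q : Md) (v : C3) : rwF (kv k) Fi (-q) (σ v) = τ (rwF (kv k) Fi q v) := by
  change inner ℂ (kv k) (Fi (-q) (σ v)) = τ (inner ℂ (kv k) (Fi q v))
  rw [hFi, ← hz.inn, hz.k]

theorem kc_sym (hz : Sz σ τ) {Fi : Md → Mat} (hFi : ∀ q v, Fi (-q) (σ v) = σ (Fi q v))
    (k : Fin 3 → ℤ) (q : Md) : kcF (kv k) Fi (-q) = σ (kcF (kv k) Fi q) := by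
  refine ext_inner_left ℂ fun v => ?_
  unfold kcF adjC
  rw [neg_neg, ContinuousLinearMap.adjoint_inner_right]
  have h1 : inner ℂ v (σ (ContinuousLinearMap.adjoint (Fi (-q)) (kv k))) =
      τ (inner ℂ (σ v) (ContinuousLinearMap.adjoint (Fi (-q)) (kv k))) := by
    rw [← hz.inn, hz.inv]
  rw [h1, ContinuousLinearMap.adjoint_inner_right, hFi]
  conv_rhs => rw [← hz.k k]
  rw [hz.inn, hz.inv1]

theorem scF_apply (s : Md → ℂ) (q : Md) (z : ℂ) : scF s q z = s q * z := rfl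

theorem tsF_apply (a : Md → C3) (q : Md) (z : ℂ) : tsF a q z = z • a q := rfl

theorem scF_norm (s : Md → ℂ) (q : Md) : ‖scF s q‖ ≤ ‖s q‖ := by
  refine ContinuousLinearMap.opNorm_le_bound _ (norm_nonneg _) fun z => ?_
  rw [scF_apply, norm_mul]

theorem tsF_norm (a : Md → C3) (q : Md) : ‖tsF a q‖ ≤ ‖a q‖ := by
  refine ContinuousLinearMap.opNorm_le_bound _ (norm_nonneg _) fun z => ?_
  rw [tsF_apply, norm_smul, mul_comm]

/-- Scalar convolutions commute. -/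
theorem sc_comm (s s' : Md → ℂ) :
    kcomp (mulK (scF s)) (mulK (scF s')) = kcomp (mulK (scF s')) (mulK (scF s)) := by
  funext m l
  unfold kcomp
  rw [← (Equiv.subLeft (m + l)).tsum_eq (fun j =>
    (mulK (scF s) m j).comp (mulK (scF s') j l))]
  refine tsum_congr fun j => ?_
  simp only [Equiv.subLeft_apply]
  ext1
  simp only [ContinuousLinearMap.comp_apply, mulK, scF_apply]
  have h1 : m - (m + l - j) = j - l := by abel
  have h2 : m + l - j - l = m - j := by abel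
  rw [h1, h2]
  ring

/-! ### The main argument -/

theorem core (h10 : W10) (h11 : W11) (h15 : S15) (hz : Sz σ τ) (D : Dat) (hD : D.Hyp) (j : ℕ)
    (hj1 : D.m < j) (hj2 : j ≤ D.n + 1)
    (hFi : ∀ t ∈ Icc 0 D.T, ∀ q v, D.Fi (j - 1) t (-q) (σ v) = σ (D.Fi (j - 1) t q v))
    (hM : ∀ t ∈ Icc 0 D.T, ∀ q v, D.M (j - 1) t (-q) (σ v) = σ (D.M (j - 1) t q v)) :
    ∀ s ∈ Icc 0 D.T, ∀ t ∈ Icc 0 D.T, (∀ q, D.s j t (-q) = τ (D.s j t q)) ∧
      (∀ q v, D.p j t (-q) (σ v) = σ (D.p j t q v)) ∧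
      (∀ q v, D.Φ j t s (-q) (σ v) = σ (D.Φ j t s q v)) := by
  have hc0 : (0 : ℝ) ≤ D.c := hD.c_pos.le
  have hm1 : D.m ≤ j - 1 := by omega
  have hm2 : j - 1 ≤ D.n := by omega
  obtain ⟨hkc, hrw, hp, hKN, -⟩ := h15 D hD j hj1 hj2
  have hassoc : ∀ (A : Md → Md → Mat) (B : Md → Md → Mat) (f : Md → C3),
      sK 0 A ≠ ∞ → sK 0 B ≠ ∞ → sN 0 f ≠ ∞ → act (kcomp A B) f = act A (act B f) :=
    (h11 Md C3 C3 C3 C3).2.1
  have hmulK : ∀ a : Md → Mat, sK 0 (mulK a) = sN 0 a := (h10 Md C3 C3 C3 0 le_rfl).2.2.2.1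
  -- finiteness
  have fM : ∀ t ∈ Icc 0 D.T, sN 0 (D.M (j - 1) t) ≤ ENNReal.ofReal D.G := fun t ht =>
    (sN_zero_le hc0 _ ht).trans (hD.F_le (j - 1) hm1 hm2).2.2
  have fp : ∀ t ∈ Icc 0 D.T, sN 0 (D.p j t) ≠ ∞ := fun t ht =>
    ne_top_of_le_ne_top ENNReal.ofReal_ne_top ((sN_zero_le hc0 _ ht).trans hp)
  have frw : ∀ t ∈ Icc 0 D.T, sN 0 (D.rw j t) ≠ ∞ := fun t ht =>
    ne_top_of_le_ne_top ENNReal.ofReal_ne_top ((sN_zero_le hc0 _ ht).trans hrw)
  have fkc : ∀ t ∈ Icc 0 D.T, sN 0 (D.kc j t) ≠ ∞ := fun t ht =>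
    ne_top_of_le_ne_top ENNReal.ofReal_ne_top ((sN_zero_le hc0 _ ht).trans hkc)
  have fs : ∀ t ∈ Icc 0 D.T, sN 0 (D.s j t) ≠ ∞ := fun t ht =>
    ne_top_of_le_ne_top ENNReal.ofReal_ne_top
      ((sN_zero_le hc0 _ ht).trans (hD.s_le j hj1 hj2).1)
  have fsc : ∀ s : Md → ℂ, sN 0 s ≠ ∞ → sK 0 (mulK (scF s)) ≠ ∞ := by
    intro s hs
    rw [(h10 Md ℂ ℂ ℂ 0 le_rfl).2.2.2.1]
    exact ne_top_of_le_ne_top hs (sN_mono (scF_norm s))
  have fts : ∀ t ∈ Icc 0 D.T, sK 0 (mulK (tsF (D.kc j t))) ≠ ∞ := by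
    intro t ht
    rw [(h10 Md ℂ C3 C3 0 le_rfl).2.2.2.1]
    exact ne_top_of_le_ne_top (fkc t ht) (sN_mono (tsF_norm _))
  have frK : ∀ t ∈ Icc 0 D.T, sK 0 (mulK (D.rw j t)) ≠ ∞ := by
    intro t ht
    rw [(h10 Md C3 ℂ ℂ 0 le_rfl).2.2.2.1]
    exact frw t ht
  -- symmetry of `s`
  have symrw : ∀ t ∈ Icc 0 D.T, ∀ q v, D.rw j t (-q) (σ v) = τ (D.rw j t q v) :=
    fun t ht q v => rw_sym hz (hFi t ht) _ q v
  have symkc : ∀ t ∈ Icc 0 D.T, ∀ q, D.kc j t (-q) = σ (D.kc j t q) :=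
    fun t ht q => kc_sym hz (hFi t ht) _ q
  have syms : ∀ t ∈ Icc 0 D.T, ∀ q, D.s j t (-q) = τ (D.s j t q) := by
    intro t ht
    set s : Md → ℂ := D.s j t with hsdef
    set s' : Md → ℂ := rg τ s with hs'def
    set g : Md → ℂ := mul (D.rw j t) (D.kc j t) with hg
    have fs' : sN 0 s' ≠ ∞ := by
      have : sN 0 s' = sN 0 s := by
        rw [sN_eq, sN_eq, ← (Equiv.neg Md).tsum_eq (fun m => ‖s m‖ₑ)]
        refine tsum_congr fun m => ?_
        rw [← ofReal_norm, ← ofReal_norm]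
        congr 1
        exact τ.norm_map _
      rw [this]
      exact fs t ht
    have fg : sN 0 g ≠ ∞ :=
      ne_top_of_le_ne_top (ENNReal.mul_ne_top (frK t ht) (fkc t ht))
        ((h10 Md C3 ℂ ℂ 0 le_rfl).2.1 _ _)
    have e1 : mul (scF s) g = dl 1 := by
      have h1 := hD.s_eq j hj1 hj2 t ht
      unfold mul at h1
      rw [mulK_mm, (h11 Md C3 ℂ ℂ ℂ).2.1 _ _ _ (fsc _ (fs t ht)) (frK t ht) (fkc t ht)] at h1
      exact h1
    have eg : rg τ g = g := by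
      have h1 : D.kc j t = rg σ (D.kc j t) := by
        funext q
        unfold rg
        rw [symkc t ht q, hz.inv]
      rw [hg]
      conv_rhs => rw [h1]
      exact (mul_rg σ τ (symrw t ht) _).symm
    have e2 : mul (scF s') g = dl 1 := by
      have h1 := mul_rg τ τ (a := scF s) (a' := scF s') (fun q v => by
        rw [scF_apply, scF_apply, hz.mul, hs'def]
        unfold rg
        rw [neg_neg]) g
      rw [eg, e1, rg_dl, hz.one] at h1
      exact h1
    have e3 : mul (scF s) (mul (scF s') g) = mul (scF s') (mul (scF s) g) := by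
      unfold mul
      rw [← (h11 Md ℂ ℂ ℂ ℂ).2.1 _ _ _ (fsc _ (fs t ht)) (fsc _ fs') fg, sc_comm,
        (h11 Md ℂ ℂ ℂ ℂ).2.1 _ _ _ (fsc _ fs') (fsc _ (fs t ht)) fg]
    rw [e1, e2] at e3
    intro q
    have h1 := congrFun e3 q
    rw [mul_dl, mul_dl, scF_apply, scF_apply, mul_one, mul_one] at h1
    have h2 : s' q = τ (s (-q)) := rfl
    rw [h1, h2, hz.inv1]
  -- symmetry of `p`
  have actp : ∀ t ∈ Icc 0 D.T, ∀ f : Md → C3, sN 0 f ≠ ∞ →
      mul (D.p j t) f = mul (tsF (D.kc j t)) (mul (scF (D.s j t)) (mul (D.rw j t) f)) := by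
    intro t ht f hf
    have fm : sK 0 (kcomp (mulK (scF (D.s j t))) (mulK (D.rw j t))) ≠ ∞ :=
      ne_top_of_le_ne_top (ENNReal.mul_ne_top (fsc _ (fs t ht)) (frK t ht))
        ((h10 Md C3 ℂ ℂ 0 le_rfl).1 _ _)
    unfold mul
    change act (mulK (mm (tsF (D.kc j t)) (mm (scF (D.s j t)) (D.rw j t)))) f = _
    rw [mulK_mm, mulK_mm, (h11 Md C3 ℂ C3 C3).2.1 _ _ _ (fts t ht) fm hf,
      (h11 Md C3 ℂ ℂ ℂ).2.1 _ _ _ (fsc _ (fs t ht)) (frK t ht) hf]
  have rgp : ∀ t ∈ Icc 0 D.T, ∀ f : Md → C3, sN 0 f ≠ ∞ → sN 0 (rg σ f) ≠ ∞ →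
      mul (D.p j t) (rg σ f) = rg σ (mul (D.p j t) f) := by
    intro t ht f hf hf'
    rw [actp t ht _ hf, actp t ht _ hf', mul_rg σ τ (symrw t ht),
      mul_rg τ τ (a := scF (D.s j t)) (a' := scF (D.s j t)) (fun q v => by
        rw [scF_apply, scF_apply, hz.mul, syms t ht]),
      mul_rg τ σ (a := tsF (D.kc j t)) (a' := tsF (D.kc j t)) (fun q v => by
        rw [tsF_apply, tsF_apply, hz.smul, symkc t ht])]
  have symp : ∀ t ∈ Icc 0 D.T, ∀ q v, D.p j t (-q) (σ v) = σ (D.p j t q v) := by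
    intro t ht q v
    rw [← mul_dl (D.p j t) (σ v) (-q), ← mul_dl (D.p j t) v q, ← rg_dl,
      rgp t ht (dl v) (sN_dl v) (by rw [rg_dl]; exact sN_dl _)]
    unfold rg
    rw [neg_neg]
  -- the generator
  have fo : ∀ t ∈ Icc 0 D.T, sK 0 (mulK (oneM - (2 : ℂ) • D.p j t)) ≤
      ENNReal.ofReal (3 * D.G ^ 3) := fun t ht =>
    (sK_zero_le hc0 (fun t => mulK (oneM - (2 : ℂ) • D.p j t)) ht).trans hKN
  have hG : 0 ≤ D.G := by linarith [hD.G_two]
  have fgK : ∀ t ∈ Icc 0 D.T, sN 0 (D.gK j t) ≤ ENNReal.ofReal (3 * D.G ^ 3 * D.G) := by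
    intro t ht
    have h1 : sN 0 (D.gK j t) = sN 0 (mm (oneM - (2 : ℂ) • D.p j t) (D.M (j - 1) t)) := by
      rw [sN_eq, sN_eq]
      refine tsum_congr fun m => ?_
      rw [← ofReal_norm, ← ofReal_norm]
      congr 1
      exact norm_neg _
    rw [h1, ← hmulK, mulK_mm, ENNReal.ofReal_mul (by positivity)]
    refine ((h10 Md C3 C3 C3 0 le_rfl).1 _ _).trans (mul_le_mul' (fo t ht) ?_)
    rw [hmulK]
    exact fM t ht
  have symgK : ∀ t ∈ Icc 0 D.T, ∀ q v, D.gK j t (-q) (σ v) = σ (D.gK j t q v) := by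
    intro t ht q v
    have h1 : ∀ q v, D.gK j t q v =
        -(mul (oneM - (2 : ℂ) • D.p j t) (mul (D.M (j - 1) t) (dl v)) q) := by
      intro q v
      change -((mm (oneM - (2 : ℂ) • D.p j t) (D.M (j - 1) t)) q v) = _
      congr 1
      rw [← mul_dl (mm (oneM - (2 : ℂ) • D.p j t) (D.M (j - 1) t)) v q]
      unfold mul
      rw [mulK_mm, hassoc _ _ _ (ne_top_of_le_ne_top ENNReal.ofReal_ne_top (fo t ht))
        (by rw [hmulK]; exact ne_top_of_le_ne_top ENNReal.ofReal_ne_top (fM t ht)) (sN_dl v)]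
    rw [h1, h1, map_neg]
    congr 1
    have h2 : ∀ q v, (oneM - (2 : ℂ) • D.p j t) (-q) (σ v) =
        σ ((oneM - (2 : ℂ) • D.p j t) q v) := by
      intro q v
      change oneM (-q) (σ v) - (2 : ℂ) • (D.p j t (-q) (σ v)) =
        σ (oneM q v - (2 : ℂ) • (D.p j t q v))
      have h4 : ∀ x : C3, (2 : ℂ) • x = x + x := fun x => two_smul ℂ x
      rw [symp t ht, h4, h4, map_sub, map_add]
      congr 1
      unfold oneM
      by_cases hq : q = 0
      · rw [if_pos hq, if_pos (by rw [hq, neg_zero])]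
        rfl
      · rw [if_neg hq, if_neg (by rwa [neg_eq_zero])]
        exact (map_zero σ).symm
    have h3 := mul_rg σ σ h2 (mul (D.M (j - 1) t) (dl v))
    rw [← mul_rg σ σ (hM t ht), rg_dl] at h3
    rw [h3]
    unfold rg
    rw [neg_neg]
  -- the propagator
  intro s hs t ht
  refine ⟨syms t ht, symp t ht, fun q v => ?_⟩
  have hprop := hD.Φ_prop j hj1 hj2
  obtain ⟨B, hB, c', hc', hbd⟩ := hprop.bdd
  have fΦ : ∀ t ∈ Icc 0 D.T, sN 0 (D.Φ j t s) ≤ B := by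
    intro t ht
    rw [← hmulK]
    exact (((h10 Md C3 C3 C3 c' hc'.le).2.2.2.2.2.2.1 0 hc'.le).1 _).trans (hbd s hs t ht)
  have hder : ∀ v : C3, ∀ q, ∀ t ∈ Icc 0 D.T, HasDerivWithinAt (fun t => D.Φ j t s q v)
      (mul (D.gK j t) (fun q => D.Φ j t s q v) q) (Icc 0 D.T) t := by
    intro v q t ht
    have h1 := hprop.der s hs t ht q 0
    have h2 : kcomp (mulK (D.gK j t)) (mulK (D.Φ j t s)) q 0 v =
        mul (D.gK j t) (fun q => D.Φ j t s q v) q := by
      rw [← act_dl, hassoc _ _ _ (by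
        rw [hmulK]
        exact ne_top_of_le_ne_top ENNReal.ofReal_ne_top (fgK t ht)) (by
        rw [hmulK]
        exact ne_top_of_le_ne_top hB (fΦ t ht)) (sN_dl v)]
      congr 1
      funext q
      exact mul_dl _ v q
    have h3 : HasDerivWithinAt (fun t => D.Φ j t s q)
        (kcomp (mulK (D.gK j t)) (mulK (D.Φ j t s)) q 0) (Icc 0 D.T) t := by
      have h4 : ∀ t, mulK (D.Φ j t s) q 0 = D.Φ j t s q := by
        intro t
        unfold mulK
        rw [sub_zero]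
      simp only [h4] at h1
      exact h1
    rw [← h2]
    exact ((ContinuousLinearMap.apply ℂ C3 v).restrictScalars ℝ).hasFDerivAt.comp_hasDerivWithinAt
      t h3
  have hnorm : ∀ v : C3, ∀ t ∈ Icc 0 D.T, ∀ q, ‖D.Φ j t s q v‖ ≤ B.toReal * ‖v‖ := by
    intro v t ht q
    refine ((D.Φ j t s q).le_opNorm v).trans ?_
    exact mul_le_mul_of_nonneg_right (sN_entry hB (fΦ t ht) q) (norm_nonneg v)
  set w1 : ℝ → Md → C3 := fun t q => D.Φ j t s q (σ v) with hw1
  set w2 : ℝ → Md → C3 := fun t q => σ (D.Φ j t s (-q) v) with hw2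
  have hd1 : ∀ q, ∀ t ∈ Icc 0 D.T, HasDerivWithinAt (fun t => w1 t q)
      (mul (D.gK j t) (w1 t) q) (Icc 0 D.T) t := fun q t ht => hder (σ v) q t ht
  have hd2 : ∀ q, ∀ t ∈ Icc 0 D.T, HasDerivWithinAt (fun t => w2 t q)
      (mul (D.gK j t) (w2 t) q) (Icc 0 D.T) t := by
    intro q t ht
    have h1 := hder v (-q) t ht
    have h2 : HasDerivWithinAt (fun t => σ (D.Φ j t s (-q) v))
        (σ (mul (D.gK j t) (fun q => D.Φ j t s q v) (-q))) (Icc 0 D.T) t := by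
      have h5 := (σ.toContinuousLinearEquiv.toContinuousLinearMap.hasFDerivAt
        (x := D.Φ j t s (-q) v)).comp_hasDerivWithinAt t h1
      exact h5
    have h3 := congrFun (mul_rg σ σ (symgK t ht) (fun q => D.Φ j t s q v)) q
    have h4 : mul (D.gK j t) (w2 t) q =
        σ (mul (D.gK j t) (fun q => D.Φ j t s q v) (-q)) := h3
    rw [h4]
    exact h2
  have hfin : ∀ t ∈ Icc 0 D.T, ∀ (w : Md → C3) (C : ℝ), (∀ q, ‖w q‖ ≤ C) → ∀ q,
      Summable fun l => mulK (D.gK j t) q l (w l) := by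
    intro t ht w C hw q
    refine Summable.of_norm_bounded (g := fun l => ‖D.gK j t (q - l)‖ * C) ?_ fun l => ?_
    · refine Summable.mul_right C ?_
      have h1 : Summable fun l => ‖D.gK j t l‖ := by
        have h2 : (∑' m, ‖D.gK j t m‖ₑ) ≠ ∞ := by
          rw [← sN_eq]
          exact ne_top_of_le_ne_top ENNReal.ofReal_ne_top (fgK t ht)
        have h3 := ENNReal.summable_toReal h2
        simpa using h3
      exact (Equiv.subLeft q).summable_iff.2 h1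
    · refine ((D.gK j t (q - l)).le_opNorm (w l)).trans ?_
      exact mul_le_mul_of_nonneg_left (hw l) (norm_nonneg _)
  have b1 : ∀ t ∈ Icc 0 D.T, ∀ q, ‖w1 t q‖ ≤ B.toReal * ‖v‖ := by
    intro t ht q
    have := hnorm (σ v) t ht q
    rwa [σ.norm_map] at this
  have b2 : ∀ t ∈ Icc 0 D.T, ∀ q, ‖w2 t q‖ ≤ B.toReal * ‖v‖ := by
    intro t ht q
    rw [hw2]
    simp only [σ.norm_map]
    exact hnorm v t ht (-q)
  have hB0 : 0 ≤ B.toReal * ‖v‖ := mul_nonneg ENNReal.toReal_nonneg (norm_nonneg v)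
  have key := uniq (T := D.T) (β := 3 * D.G ^ 3 * D.G)
    (C := B.toReal * ‖v‖ + B.toReal * ‖v‖) (s := s)
    (w := fun t q => w1 t q - w2 t q)
    (w' := fun t => mul (D.gK j t) (fun q => w1 t q - w2 t q)) hs (by positivity) ?_ ?_
    (by positivity) ?_ ?_ t ht (-q)
  · have h1 : w1 t (-q) - w2 t (-q) = 0 := key
    rw [sub_eq_zero] at h1
    have h2 : w2 t (-q) = σ (D.Φ j t s q v) := by
      rw [hw2]
      simp only [neg_neg]
    rw [← h2, ← h1]
  · intro q t ht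
    have h1 := (hd1 q t ht).sub (hd2 q t ht)
    have h2 : mul (D.gK j t) (fun q => w1 t q - w2 t q) q =
        mul (D.gK j t) (w1 t) q - mul (D.gK j t) (w2 t) q := by
      unfold mul act
      rw [← (hfin t ht (w1 t) _ (b1 t ht) q).tsum_sub (hfin t ht (w2 t) _ (b2 t ht) q)]
      refine tsum_congr fun l => ?_
      rw [map_sub]
    simp only [h2]
    exact h1
  · intro t ht C hC hw q
    exact mul_bdd (fgK t ht) (by positivity) hC hw q
  · intro t ht q
    exact (norm_sub_le _ _).trans (add_le_add (b1 t ht q) (b2 t ht q))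
  · intro q
    have h1 : ∀ q v, D.Φ j s s q v = dl v q := by
      intro q v
      have h2 := congrFun (congrFun (hprop.diag s hs) q) 0
      have h3 : D.Φ j s s q = idK q 0 := by
        rw [← h2]
        change _ = mulK (D.Φ j s s) q 0
        unfold mulK
        rw [sub_zero]
      rw [h3]
      unfold idK diagK dl
      by_cases hq : q = 0
      · rw [if_pos hq, if_pos hq]
        rfl
      · rw [if_neg hq, if_neg hq]
        rfl
    change D.Φ j s s q (σ v) - σ (D.Φ j s s (-q) v) = 0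
    rw [h1, h1, ← rg_dl]
    unfold rg
    exact sub_self _

/-- Conjugation of vectors as a real isometry. -/
noncomputable def cjI : C3 ≃ₗᵢ[ℝ] C3 where
  toFun := cjv
  invFun := cjv
  left_inv := W20.cj_cj
  right_inv := W20.cj_cj
  map_add' := W20.cj_add
  map_smul' := by
    intro r v
    ext i
    simp [cjv]
  norm_map' := W20.cj_norm

theorem cjI_apply (v : C3) : cjI v = cjv v := rfl

theorem sz_cj : Sz cjI Complex.conjLIE where
  smul z v := W20.cj_smul z v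
  mul z w := by
    simp [Complex.conjLIE_apply]
  inn v w := by
    rw [cjI_apply, cjI_apply, Complex.conjLIE_apply]
    have h := W20.cj_inner v (cjv w)
    have h2 : cj (cjv w) = w := W20.cj_cj w
    rw [h2] at h
    exact h
  inv v := W20.cj_cj v
  inv1 z := by
    simp [Complex.conjLIE_apply]
  one := by
    simp [Complex.conjLIE_apply]
  k k := by
    rw [cjI_apply]
    ext i
    simp [cjv, kv]

theorem sz_id : Sz (LinearIsometryEquiv.refl ℝ C3) (LinearIsometryEquiv.refl ℝ ℂ) where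
  smul _ _ := rfl
  mul _ _ := rfl
  inn _ _ := rfl
  inv _ := rfl
  inv1 _ := rfl
  one := rfl
  k _ := rfl

end IS29

open IS29 in
/-- S29. -/
theorem s29 (h10 : W10) (h11 : W11) (h15 : S15) : S29 := by
  intro D hD j hj1 hj2
  refine ⟨fun hR s hs t ht => ?_, fun hE s hs t ht => ?_⟩
  · obtain ⟨h1, h2, h3⟩ := core h10 h11 h15 sz_cj D hD j hj1 hj2
      (fun t ht q v => (hR t ht).1 q v) (fun t ht q v => (hR t ht).2 q v) s hs t ht
    exact ⟨h1, h2, h3⟩
  · obtain ⟨h1, h2, h3⟩ := core h10 h11 h15 sz_id D hD j hj1 hj2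
      (fun t ht q v => by rw [(hE t ht).1 q]; rfl)
      (fun t ht q v => by rw [(hE t ht).2 q]; rfl) s hs t ht
    exact ⟨h1, fun q => ContinuousLinearMap.ext fun v => h2 q v,
      fun q => ContinuousLinearMap.ext fun v => h3 q v⟩

end Pool.Agent.Work.MP_b0497c_an.Unf.S
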