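import Pool.Agent.Work.MP_b0497c_an.Unf.CStmts

set_option autoImplicit false

/-!
# C01: a coefficient is bounded by the sup over the real labels (helper26)
-/

open scoped ENNReal
open Set MeasureTheory

namespace Pool.Agent.Work.MP_b0497c_an.Unf.S

open W

namespace PC01

variable {E : Type} [NormedAddCommGroup E] [NormedSpace ℂ E] [CompleteSpace E]

/-- The `i`th phase, shifted by `s`. -/
noncomputable def sh (θ : Md →+ ℝ) (i : ℕ) (s : ℝ) : Md →+ ℝ :=
  θ + (AddMonoidHom.mulLeft s).comp ((Int.castAddHom ℝ).comp (Finsupp.applyAddHom i))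

theorem ch_sh (θ : Md →+ ℝ) (i : ℕ) (s : ℝ) (p : Md) :
    ch (sh θ i s) p = Complex.exp (Complex.I * (s * (p i : ℂ))) * ch θ p := by
  have h : sh θ i s p = θ p + s * (p i : ℝ) := rfl
  rw [ch, ch, h, ← Complex.exp_add]
  congr 1
  push_cast
  ring

theorem int_exp (m : ℤ) :
    (∫ s in (0 : ℝ)..(2 * Real.pi), Complex.exp (Complex.I * (s * (m : ℂ)))) =
      if m = 0 then ((2 * Real.pi : ℝ) : ℂ) else 0 := by
  split_ifs with h
  · subst h
    simp
  · have hm : (Complex.I * (m : ℂ)) ≠ 0 :=
      mul_ne_zero Complex.I_ne_zero (Int.cast_ne_zero.mpr h)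
    have h1 : ∀ s : ℝ, Complex.exp (Complex.I * (s * (m : ℂ))) =
        Complex.exp ((Complex.I * (m : ℂ)) * s) := by
      intro s; congr 1; ring
    simp_rw [h1]
    rw [integral_exp_mul_complex hm]
    have h2 : (Complex.I * (m : ℂ)) * ((2 * Real.pi : ℝ) : ℂ) = m * (2 * Real.pi * Complex.I) := by
      push_cast; ring
    rw [h2, Complex.exp_int_mul_two_pi_mul_I]
    simp

theorem step (i : ℕ) (c : ℤ) (f : Md → E) (b : ℝ) (hf : Summable fun q => ‖f q‖)
    (hb : ∀ θ : Md →+ ℝ, ‖ev θ f‖ ≤ b) (θ : Md →+ ℝ) :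
    ‖ev θ (fun p => if p i = c then f p else 0)‖ ≤ b := by
  have hpi : 0 < 2 * Real.pi := by positivity
  set F : Md → ℝ → E := fun p s =>
    Complex.exp (Complex.I * (s * ((p i - c : ℤ) : ℂ))) • ch θ p • f p with hF
  set G : ℝ → E := fun s => Complex.exp (-(Complex.I * (s * (c : ℂ)))) • ev (sh θ i s) f with hG
  have hnorm : ∀ (p : Md) (s : ℝ), ‖F p s‖ = ‖f p‖ := by
    intro p s
    simp only [hF]
    rw [norm_smul, norm_ch_smul]
    have h1 : Complex.I * ((s : ℂ) * ((p i - c : ℤ) : ℂ)) = ((s * ((p i - c : ℤ) : ℝ) : ℝ) : ℂ) *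
        Complex.I := by
      push_cast; ring
    rw [h1, Complex.norm_exp_ofReal_mul_I, one_mul]
  have hFG : ∀ s, HasSum (fun p => F p s) (G s) := by
    intro s
    have h1 := (summable_ch (sh θ i s) hf).hasSum.const_smul
      (Complex.exp (-(Complex.I * (s * (c : ℂ)))))
    have h2 : (fun p => Complex.exp (-(Complex.I * (s * (c : ℂ)))) • ch (sh θ i s) p • f p) =
        fun p => F p s := by
      funext p
      simp only [hF]
      rw [ch_sh, smul_smul, smul_smul, ← mul_assoc, ← Complex.exp_add]
      congr 3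
      push_cast
      ring
    rw [h2] at h1
    exact h1
  have hcont : ∀ p, Continuous (F p) := by
    intro p
    simp only [hF]
    fun_prop
  have hint := intervalIntegral.hasSum_integral_of_dominated_convergence (μ := volume)
    (a := 0) (b := 2 * Real.pi) (F := F) (f := G) (fun p _ => ‖f p‖)
    (fun p => (hcont p).aestronglyMeasurable)
    (fun p => Filter.Eventually.of_forall fun s _ => (hnorm p s).le)
    (Filter.Eventually.of_forall fun s _ => hf)
    (intervalIntegrable_const)
    (Filter.Eventually.of_forall fun s _ => hFG s)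
  have hval : ∀ p, (∫ s in (0 : ℝ)..(2 * Real.pi), F p s) =
      ((2 * Real.pi : ℝ) : ℂ) • ch θ p • (if p i = c then f p else 0) := by
    intro p
    simp only [hF]
    rw [intervalIntegral.integral_smul_const, int_exp]
    by_cases h : p i = c
    · simp [h]
    · have h' : ¬ (p i - c = 0) := fun h0 => h (by omega)
      simp [h, h']
  simp_rw [hval] at hint
  have hsum : HasSum (fun p => ch θ p • (if p i = c then f p else (0 : E)))
      (ev θ (fun p => if p i = c then f p else 0)) := by
    refine (summable_ch θ ?_).hasSum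
    refine Summable.of_nonneg_of_le (fun _ => norm_nonneg _) (fun p => ?_) hf
    split_ifs with h
    · exact le_rfl
    · simp
  have heq := (hsum.const_smul ((2 * Real.pi : ℝ) : ℂ)).unique hint
  have hle : ‖∫ s in (0 : ℝ)..(2 * Real.pi), G s‖ ≤ b * |2 * Real.pi - 0| := by
    refine intervalIntegral.norm_integral_le_of_norm_le_const fun s _ => ?_
    simp only [hG]
    rw [norm_smul]
    have h1 : -(Complex.I * ((s : ℂ) * (c : ℂ))) = ((-(s * (c : ℝ)) : ℝ) : ℂ) * Complex.I := by
      push_cast; ring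
    rw [h1, Complex.norm_exp_ofReal_mul_I, one_mul]
    exact hb _
  rw [← heq, norm_smul, Complex.norm_real, Real.norm_eq_abs, sub_zero, mul_comm] at hle
  exact le_of_mul_le_mul_right hle (abs_pos.mpr hpi.ne')

theorem iter (f : Md → E) (b : ℝ) (hf : Summable fun q => ‖f q‖)
    (hb : ∀ θ : Md →+ ℝ, ‖ev θ f‖ ≤ b) (q : Md) (k : ℕ) :
    ∃ g : Md → E, (∀ p, (∀ i < k, p i = q i) → g p = f p) ∧
      (∀ p, (¬ ∀ i < k, p i = q i) → g p = 0) ∧ (Summable fun p => ‖g p‖) ∧
      ∀ θ : Md →+ ℝ, ‖ev θ g‖ ≤ b := by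
  induction k with
  | zero => exact ⟨f, fun _ _ => rfl, fun p h => absurd (fun i hi => absurd hi (by omega)) h, hf, hb⟩
  | succ k ih =>
    obtain ⟨g, h1, h2, h3, h4⟩ := ih
    refine ⟨fun p => if p k = q k then g p else 0, ?_, ?_, ?_, ?_⟩
    · intro p hp
      simp only [hp k (by omega), if_true]
      exact h1 p fun i hi => hp i (by omega)
    · intro p hp
      by_cases hk : p k = q k
      · simp only [hk, if_true]
        refine h2 p fun h => hp fun i hi => ?_
        rcases Nat.lt_succ_iff_lt_or_eq.mp hi with h' | h'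
        · exact h i h'
        · rw [h']; exact hk
      · simp [hk]
    · refine Summable.of_nonneg_of_le (fun _ => norm_nonneg _) (fun p => ?_) h3
      dsimp only
      split_ifs with h
      · exact le_rfl
      · simp
    · exact step k (q k) g b h3 h4

end PC01

theorem c01 : C01 := by
  intro E _ _ _ n f b hsupp hf hb q
  have hb0 : 0 ≤ b := (norm_nonneg _).trans (hb 0)
  by_cases hq : q ∈ lev n
  · obtain ⟨g, h1, h2, h3, h4⟩ := PC01.iter f b hf hb q (n + 1)
    have h5 : ev (0 : Md →+ ℝ) g = ch (0 : Md →+ ℝ) q • g q := by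
      refine tsum_eq_single q fun p hp => ?_
      by_cases hp1 : ∀ i < n + 1, p i = q i
      · rw [h1 p hp1]
        have hpn : p ∉ (lev n : Set Md) := by
          intro hpn
          apply hp
          ext i
          by_cases hi : i < n + 1
          · exact hp1 i hi
          · rw [hpn i (by omega), hq i (by omega)]
        rw [hsupp p hpn, smul_zero]
      · rw [h2 p hp1, smul_zero]
    have h6 := h4 0
    rw [h5, norm_ch_smul, h1 q (fun _ _ => rfl)] at h6
    exact h6
  · rw [hsupp q hq, norm_zero]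
    exact hb0

end Pool.Agent.Work.MP_b0497c_an.Unf.S
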