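import Pool.Agent.Work.MP_b0497c_an.Bd.B29
import Pool.Agent.Work.MP_b0497c_an.Unf.WConv
import Pool.Agent.Work.MP_b0497c_an.Bd.B03

set_option autoImplicit false
set_option linter.dupNamespace false

/-!
# Tools for L05, L06: sums of the form `∑ q, G t q (p - q) • f t q`
-/

open scoped ENNReal
open Set MeasureTheory

namespace Pool.Agent.Work.MP_b0497c_an.Unf.L

open W S

namespace LComp

variable {E : Type} [NormedAddCommGroup E] [NormedSpace ℂ E]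

/-- The weighted sup over the time. -/
noncomputable def sp (T : ℝ) (ρ : ℝ → ℝ) (f : ℝ → Md → E) (q : Md) : ℝ≥0∞ :=
  ⨆ t ∈ Icc 0 T, ENNReal.ofReal (1 / ρ t) * ‖f t q‖ₑ

omit [NormedSpace ℂ E] in
theorem le_sp {T : ℝ} (ρ : ℝ → ℝ) (f : ℝ → Md → E) (q : Md) {t : ℝ} (ht : t ∈ Icc 0 T) :
    ENNReal.ofReal (1 / ρ t) * ‖f t q‖ₑ ≤ sp T ρ f q :=
  le_iSup₂ (f := fun t (_ : t ∈ Icc 0 T) => ENNReal.ofReal (1 / ρ t) * ‖f t q‖ₑ) t ht

omit [NormedSpace ℂ E] in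
theorem nrm_eq (T c : ℝ) (ρ : ℝ → ℝ) (f : ℝ → Md → E) :
    Nrm T c 0 ρ f = ∑' q, ENNReal.ofReal (Real.exp (c * len q)) * sp T ρ f q := by
  unfold Nrm sp
  refine tsum_congr fun q => ?_
  rw [ENNReal.mul_iSup]
  refine iSup_congr fun t => ?_
  rw [ENNReal.mul_iSup]
  refine iSup_congr fun ht => ?_
  rw [zero_mul, sub_zero, ← mul_assoc, ← ENNReal.ofReal_mul (Real.exp_nonneg _), mul_one_div]

omit [NormedSpace ℂ E] in
theorem sp_zero {T : ℝ} (ρ : ℝ → ℝ) {f : ℝ → Md → E} {q : Md} (h : ∀ t ∈ Icc 0 T, f t q = 0) :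
    sp T ρ f q = 0 := by
  unfold sp
  simp only [ENNReal.iSup_eq_zero]
  intro t ht
  rw [h t ht, enorm_zero, mul_zero]

omit [NormedSpace ℂ E] in
/-- A single value is bounded by the norm. -/
theorem enorm_le_nrm {T c : ℝ} (hc : 0 ≤ c) (f : ℝ → Md → E) (q : Md) {t : ℝ}
    (ht : t ∈ Icc 0 T) : ‖f t q‖ₑ ≤ Nrm T c 0 Dat.one' f := by
  rw [nrm_eq]
  refine le_trans ?_ (ENNReal.le_tsum q)
  have h1 := le_sp Dat.one' f q ht
  have h2 : ENNReal.ofReal (1 / Dat.one' t) = 1 := by simp [Dat.one']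
  rw [h2, one_mul] at h1
  exact h1.trans (le_mul_of_one_le_left zero_le (W12.one_le_exp_len hc q))

omit [NormedSpace ℂ E] in
theorem enorm_le_sp {T : ℝ} (hT : 0 < T) {ρ : ℝ → ℝ} (hρ : Wt T ρ) (f : ℝ → Md → E) (q : Md)
    {t : ℝ} (ht : t ∈ Icc 0 T) : ‖f t q‖ₑ ≤ ENNReal.ofReal (ρ T) * sp T ρ f q := by
  have hTT : T ∈ Icc 0 T := ⟨hT.le, le_rfl⟩
  have h1 := le_sp ρ f q ht
  have h2 : ‖f t q‖ₑ = ENNReal.ofReal (ρ t) * (ENNReal.ofReal (1 / ρ t) * ‖f t q‖ₑ) := by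
    rw [← mul_assoc, ← ENNReal.ofReal_mul (hρ.pos t ht).le, mul_one_div,
      div_self (hρ.pos t ht).ne', ENNReal.ofReal_one, one_mul]
  rw [h2]
  gcongr
  exact hρ.mono ht hTT ht.2

/-- The engine: the norm of `∑ q, G t q (p - q) • f t q`. -/
theorem engine {T c1 : ℝ} (hc1 : 0 ≤ c1) {σ ρ : ℝ → ℝ} (hσ : ∀ t ∈ Icc 0 T, 0 < σ t)
    (G : ℝ → Md → Md → ℂ) (f : ℝ → Md → E) :
    Nrm T c1 0 (fun t => σ t * ρ t) (fun t p => ∑' q, G t q (p - q) • f t q) ≤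
      ∑' q, Nrm T c1 0 σ (fun t => G t q) *
        (ENNReal.ofReal (Real.exp (c1 * len q)) * sp T ρ f q) := by
  rw [nrm_eq]
  have h1 : ∀ p : Md, sp T (fun t => σ t * ρ t) (fun t p => ∑' q, G t q (p - q) • f t q) p ≤
      ∑' q, sp T σ (fun t => G t q) (p - q) * sp T ρ f q := by
    intro p
    refine iSup₂_le fun t ht => ?_
    have e1 : ENNReal.ofReal (1 / (σ t * ρ t)) =
        ENNReal.ofReal (1 / σ t) * ENNReal.ofReal (1 / ρ t) := by
      rw [← ENNReal.ofReal_mul (by have := hσ t ht; positivity)]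
      congr 1
      rw [one_div_mul_one_div]
    calc ENNReal.ofReal (1 / (σ t * ρ t)) * ‖∑' q, G t q (p - q) • f t q‖ₑ
        ≤ ENNReal.ofReal (1 / (σ t * ρ t)) * ∑' q, ‖G t q (p - q) • f t q‖ₑ := by
          gcongr
          exact enorm_tsum_le_tsum_enorm
      _ = ∑' q, (ENNReal.ofReal (1 / σ t) * ‖G t q (p - q)‖ₑ) *
            (ENNReal.ofReal (1 / ρ t) * ‖f t q‖ₑ) := by
          rw [← ENNReal.tsum_mul_left]
          refine tsum_congr fun q => ?_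
          rw [enorm_smul, e1]
          ring
      _ ≤ _ := by
          refine ENNReal.tsum_le_tsum fun q => ?_
          gcongr
          · exact le_sp σ (fun t => G t q) (p - q) ht
          · exact le_sp ρ f q ht
  calc ∑' p, ENNReal.ofReal (Real.exp (c1 * len p)) *
        sp T (fun t => σ t * ρ t) (fun t p => ∑' q, G t q (p - q) • f t q) p
      ≤ ∑' p, ∑' q, (ENNReal.ofReal (Real.exp (c1 * len (p - q))) *
          sp T σ (fun t => G t q) (p - q)) *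
          (ENNReal.ofReal (Real.exp (c1 * len q)) * sp T ρ f q) := by
        refine ENNReal.tsum_le_tsum fun p => ?_
        refine (mul_le_mul' le_rfl (h1 p)).trans ?_
        rw [← ENNReal.tsum_mul_left]
        refine ENNReal.tsum_le_tsum fun q => ?_
        have e2 : ENNReal.ofReal (Real.exp (c1 * len p)) ≤
            ENNReal.ofReal (Real.exp (c1 * len (p - q))) *
              ENNReal.ofReal (Real.exp (c1 * len q)) := by
          rw [← ENNReal.ofReal_mul (Real.exp_nonneg _)]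
          exact ENNReal.ofReal_le_ofReal (Conv.exp_le hc1 p q)
        calc ENNReal.ofReal (Real.exp (c1 * len p)) *
              (sp T σ (fun t => G t q) (p - q) * sp T ρ f q)
            ≤ (ENNReal.ofReal (Real.exp (c1 * len (p - q))) *
              ENNReal.ofReal (Real.exp (c1 * len q))) *
              (sp T σ (fun t => G t q) (p - q) * sp T ρ f q) := mul_le_mul' e2 le_rfl
          _ = _ := by ring
    _ = ∑' q, ∑' p, (ENNReal.ofReal (Real.exp (c1 * len (p - q))) *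
          sp T σ (fun t => G t q) (p - q)) *
          (ENNReal.ofReal (Real.exp (c1 * len q)) * sp T ρ f q) := ENNReal.tsum_comm
    _ = _ := by
        refine tsum_congr fun q => ?_
        rw [ENNReal.tsum_mul_right, nrm_eq]
        congr 1
        exact (Equiv.subRight q).tsum_eq (fun k => ENNReal.ofReal (Real.exp (c1 * len k)) *
          sp T σ (fun t => G t q) k)

/-- `E_q = exp (i ∑ q_i x_i)`. -/
noncomputable def Eq (x : ℕ → Md → ℂ) (q : Md) : Md → ℂ :=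
  expC (fun r => Complex.I * phF x q r)

theorem comp_eq (x : ℕ → Md → ℂ) (f : Md → E) (p : Md) :
    comp x f p = ∑' q, Eq x q (p - q) • f q := rfl

theorem nrm_I (T c : ℝ) (σ : ℝ → ℝ) (g : ℝ → Md → ℂ) :
    Nrm T c 0 σ (fun t r => Complex.I * g t r) = Nrm T c 0 σ g := by
  have hI : ‖Complex.I‖ₑ = 1 := by
    rw [← ofReal_norm, Complex.norm_I, ENNReal.ofReal_one]
  unfold Nrm
  simp only [enorm_mul, hI, one_mul]

theorem nrm_Iph {n : ℕ} {T c B : ℝ} {σ : ℝ → ℝ} {x : ℝ → ℕ → Md → ℂ} {q : Md} (hB : 0 ≤ B)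
    (hq : q ∈ lev n) (h : ∀ i ≤ n, Nrm T c 0 σ (fun t => x t i) ≤ ENNReal.ofReal B) :
    Nrm T c 0 σ (fun t r => Complex.I * phF (x t) q r) ≤ ENNReal.ofReal (B * len q) := by
  rw [nrm_I T c σ (fun t => phF (x t) q)]
  exact L04.nrm_phF n T c B σ x q hB hq h

theorem nrm_Eq (h01 : L01) {n : ℕ} {T c1 B : ℝ} {x : ℝ → ℕ → Md → ℂ} {q : Md} (hT : 0 < T)
    (hc1 : 0 ≤ c1) (hB : 0 ≤ B) (hq : q ∈ lev n)
    (h : ∀ i ≤ n, Nrm T c1 0 Dat.one' (fun t => x t i) ≤ ENNReal.ofReal B) :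
    Nrm T c1 0 Dat.one' (fun t => Eq (x t) q) ≤ ENNReal.ofReal (Real.exp (B * len q)) :=
  (h01 T c1 (B * len q) (fun t r => Complex.I * phF (x t) q r) hT hc1
    (mul_nonneg hB (len_nonneg q)) (nrm_Iph hB hq h)).1

theorem cm_ph {n : ℕ} {T : ℝ} {x : ℝ → ℕ → Md → ℂ} {q : Md} (hq : q ∈ lev n)
    (hx : ∀ i ≤ n, CM T (fun t => x t i)) : CM T (fun t r => Complex.I * phF (x t) q r) := by
  intro r
  refine continuousOn_const.mul ?_
  simp only [L04.phF_eq]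
  refine continuousOn_finsetSum _ fun i hi => ?_
  have h1 : ContinuousOn (fun t => x t i r) (Icc 0 T) := hx i (L04.le_of_mem hq hi) r
  exact h1.const_mul _

theorem cm_Eq (h01 : L01) {n : ℕ} {T c1 B : ℝ} {x : ℝ → ℕ → Md → ℂ} {q : Md} (hT : 0 < T)
    (hc1 : 0 ≤ c1) (hB : 0 ≤ B) (hq : q ∈ lev n)
    (h : ∀ i ≤ n, Nrm T c1 0 Dat.one' (fun t => x t i) ≤ ENNReal.ofReal B)
    (hx : ∀ i ≤ n, CM T (fun t => x t i)) : CM T (fun t => Eq (x t) q) :=
  (h01 T c1 (B * len q) (fun t r => Complex.I * phF (x t) q r) hT hc1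
    (mul_nonneg hB (len_nonneg q)) (nrm_Iph hB hq h)).2.1 (cm_ph hq hx)

theorem supp_Eq (h01 : L01) {n : ℕ} {T c1 B : ℝ} {x : ℝ → ℕ → Md → ℂ} {q : Md} (hT : 0 < T)
    (hc1 : 0 ≤ c1) (hB : 0 ≤ B) (hq : q ∈ lev n)
    (h : ∀ i ≤ n, Nrm T c1 0 Dat.one' (fun t => x t i) ≤ ENNReal.ofReal B)
    (hx : ∀ i ≤ n, SuppT T (lev n : Set Md) (fun t => x t i)) :
    SuppT T (lev n : Set Md) (fun t => Eq (x t) q) :=
  (h01 T c1 (B * len q) (fun t r => Complex.I * phF (x t) q r) hT hc1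
    (mul_nonneg hB (len_nonneg q)) (nrm_Iph hB hq h)).2.2 n (by
      intro t ht r hr
      simp only [L04.phF_eq]
      rw [Finset.sum_eq_zero, mul_zero]
      intro i hi
      have h1 : x t i r = 0 := hx i (L04.le_of_mem hq hi) t ht r hr
      rw [h1, smul_zero])

/-- The majorant of the terms of a composition. -/
theorem term_le (h01 : L01) {n : ℕ} {T c c1 B : ℝ} {ρ : ℝ → ℝ} {x : ℝ → ℕ → Md → ℂ}
    {f : ℝ → Md → E} (hT : 0 < T) (hc1 : 0 ≤ c1) (hB : 0 ≤ B) (hc : c1 + B ≤ c) (hρ : Wt T ρ)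
    (hf : SuppT T (lev n : Set Md) f)
    (h : ∀ i ≤ n, Nrm T c1 0 Dat.one' (fun t => x t i) ≤ ENNReal.ofReal B) {t : ℝ}
    (ht : t ∈ Icc 0 T) (p q : Md) :
    ‖Eq (x t) q (p - q) • f t q‖ₑ ≤
      ENNReal.ofReal (ρ T) * (ENNReal.ofReal (Real.exp (c * len q)) * sp T ρ f q) := by
  by_cases hq : q ∈ lev n
  · rw [enorm_smul]
    have h1 : ‖Eq (x t) q (p - q)‖ₑ ≤ ENNReal.ofReal (Real.exp (c * len q)) := by
      refine (enorm_le_nrm hc1 (fun t => Eq (x t) q) (p - q) ht).trans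
        ((nrm_Eq h01 hT hc1 hB hq h).trans ?_)
      apply ENNReal.ofReal_le_ofReal
      exact Conv.exp_mono (by linarith) q
    calc ‖Eq (x t) q (p - q)‖ₑ * ‖f t q‖ₑ
        ≤ ENNReal.ofReal (Real.exp (c * len q)) * (ENNReal.ofReal (ρ T) * sp T ρ f q) :=
          mul_le_mul' h1 (enorm_le_sp hT hρ f q ht)
      _ = _ := by ring
  · rw [hf t ht q hq, smul_zero, enorm_zero]
    exact zero_le

omit [NormedSpace ℂ E] in
theorem sum_fin {T c : ℝ} {ρ : ℝ → ℝ} {f : ℝ → Md → E} (hf : Nrm T c 0 ρ f ≠ ∞) :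
    ∑' q, ENNReal.ofReal (ρ T) * (ENNReal.ofReal (Real.exp (c * len q)) * sp T ρ f q) ≠ ∞ := by
  rw [ENNReal.tsum_mul_left, ← nrm_eq]
  exact ENNReal.mul_ne_top ENNReal.ofReal_ne_top hf

end LComp

end Pool.Agent.Work.MP_b0497c_an.Unf.L
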