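import Pool.Agent.Work.MP_b0497c_an.Unf.ADefs
import Pool.Agent.Work.MP_b0497c_an.Unf.SAlg

set_option autoImplicit false
set_option linter.unusedSectionVars false

/-!
# Block A: monotonicity of all norms in the time interval and the radius
-/

open scoped ENNReal
open Set MeasureTheory

namespace Pool.Agent.Work.MP_b0497c_an.Unf.A

open W S

section mono

variable {E F : Type} [NormedAddCommGroup E] [NormedSpace ℂ E] [NormedAddCommGroup F]
  [NormedSpace ℂ F]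

theorem Icc_sub {T T' : ℝ} (h : T ≤ T') : Icc (0:ℝ) T ⊆ Icc 0 T' := Icc_subset_Icc_right h

theorem Nrm_mono {T T' c c' : ℝ} {ρ : ℝ → ℝ} (hT : T ≤ T') (hc : c ≤ c')
    (hρ : ∀ t ∈ Icc 0 T, 0 < ρ t) (f : ℝ → Md → E) : Nrm T c 0 ρ f ≤ Nrm T' c' 0 ρ f := by
  refine ENNReal.tsum_le_tsum fun m => iSup₂_le fun t ht => ?_
  refine le_trans ?_ (le_iSup₂ (f := fun t (_ : t ∈ Icc 0 T') =>
    ENNReal.ofReal (Real.exp ((c' - 0 * t) * len m) / ρ t) * ‖f t m‖ₑ) t (Icc_sub hT ht))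
  have h0 := hρ t ht
  have h1 := len_nonneg m
  gcongr

theorem KN_mono {T T' c c' : ℝ} (hT : T ≤ T') (hc : c ≤ c') (A : ℝ → Md → Md → (E →L[ℂ] F)) :
    KN T c A ≤ KN T' c' A := by
  refine ENNReal.tsum_le_tsum fun k => ?_
  have h1 := len_nonneg k
  refine mul_le_mul' (ENNReal.ofReal_le_ofReal (by gcongr)) ?_
  refine iSup_mono fun l => iSup₂_le fun t ht => ?_
  exact le_iSup₂ (f := fun t (_ : t ∈ Icc 0 T') => ‖A t (l + k) l‖ₑ) t (Icc_sub hT ht)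

theorem PN_mono {T T' c c' : ℝ} {ρ ρ' : ℝ → ℝ} (hT : T ≤ T') (hc : c ≤ c')
    (A : ℝ → ℝ → Md → Md → (E →L[ℂ] F)) : PN T c ρ ρ' A ≤ PN T' c' ρ ρ' A := by
  refine ENNReal.tsum_le_tsum fun k => ?_
  have h1 := len_nonneg k
  refine mul_le_mul' (ENNReal.ofReal_le_ofReal (by gcongr)) ?_
  refine iSup_mono fun l => iSup₂_le fun t ht => ?_
  exact le_iSup₂ (f := fun t (_ : t ∈ Icc 0 T') => ⨆ s ∈ Icc 0 t,
    ENNReal.ofReal (ρ' s / ρ t) * ‖A t s (l + k) l‖ₑ) t (Icc_sub hT ht)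

theorem CM_mono {T T' : ℝ} (hT : T ≤ T') {f : ℝ → Md → E} (h : CM T' f) : CM T f :=
  fun m => (h m).mono (Icc_sub hT)

theorem CK_mono {T T' : ℝ} (hT : T ≤ T') {A : ℝ → Md → Md → (E →L[ℂ] F)} (h : CK T' A) : CK T A :=
  fun m l => (h m l).mono (Icc_sub hT)

theorem SuppT_mono {T T' : ℝ} (hT : T ≤ T') {S : Set Md} {f : ℝ → Md → E} (h : SuppT T' S f) :
    SuppT T S f := fun t ht => h t (Icc_sub hT ht)

theorem Wt_mono {T T' : ℝ} (hT : T ≤ T') {ρ : ℝ → ℝ} (h : Wt T' ρ) : Wt T ρ :=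
  ⟨fun t ht => h.pos t (Icc_sub hT ht), h.cont.mono (Icc_sub hT), h.mono.mono (Icc_sub hT)⟩

theorem IsProp_mono {T T' : ℝ} (hT : T ≤ T') {L : ℝ → Md → Md → Mat}
    {Φ : ℝ → ℝ → Md → Md → Mat} (h : IsProp T' L Φ) : IsProp T L Φ where
  der := fun s hs t ht m l => (h.der s (Icc_sub hT hs) t (Icc_sub hT ht) m l).mono (Icc_sub hT)
  diag := fun s hs => h.diag s (Icc_sub hT hs)
  cont := fun m l => (h.cont m l).mono (prod_mono (Icc_sub hT) (Icc_sub hT))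
  bdd := by
    obtain ⟨B, hB, c, hc, h1⟩ := h.bdd
    exact ⟨B, hB, c, hc, fun s hs t ht => h1 s (Icc_sub hT hs) t (Icc_sub hT ht)⟩

/-- The static norm at one time. -/
theorem sN_le_Nrm {T c : ℝ} {ρ : ℝ → ℝ} {f : ℝ → Md → E} {t : ℝ} (ht : t ∈ Icc 0 T)
    (hρ : 0 < ρ t) : sN c (f t) ≤ ENNReal.ofReal (ρ t) * Nrm T c 0 ρ f := by
  unfold sN Nrm
  rw [← ENNReal.tsum_mul_left]
  refine ENNReal.tsum_le_tsum fun m => ?_
  calc ENNReal.ofReal (Real.exp (c * len m)) * ‖f t m‖ₑ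
      = ENNReal.ofReal (ρ t) * (ENNReal.ofReal (Real.exp ((c - 0 * t) * len m) / ρ t)
        * ‖f t m‖ₑ) := by
        rw [← mul_assoc, ← ENNReal.ofReal_mul hρ.le]
        congr 2
        rw [zero_mul, sub_zero]
        field_simp
    _ ≤ _ := by
        gcongr
        exact le_iSup₂ (f := fun t (_ : t ∈ Icc 0 T) =>
          ENNReal.ofReal (Real.exp ((c - 0 * t) * len m) / ρ t) * ‖f t m‖ₑ) t ht

theorem sN_le_Nrm1 {T c : ℝ} {f : ℝ → Md → E} {t : ℝ} (ht : t ∈ Icc 0 T) :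
    sN c (f t) ≤ Nrm T c 0 Dat.one' f := by
  have := sN_le_Nrm (c := c) (ρ := Dat.one') (f := f) ht one_pos
  simpa [Dat.one'] using this

theorem sN_mono' {c c' : ℝ} (h : c ≤ c') (f : Md → E) : sN c f ≤ sN c' f := by
  refine ENNReal.tsum_le_tsum fun m => ?_
  have h1 := len_nonneg m
  gcongr

end mono

/-- Weakening of `FData`. -/
theorem fdata_weaken {Λ : AddSubgroup Md} {c b e c' b' e' : ℝ} {F Fi : Md → Mat}
    (h : FData Λ c b e F Fi) (h0 : 0 < c') (hc : c' ≤ c) (hb : b ≤ b') (he : e ≤ e') :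
    FData Λ c' b' e' F Fi where
  c_pos := h0
  b_one := h.b_one.trans hb
  e_one := h.e_one.trans he
  sum := h.sum
  F_supp := h.F_supp
  Fi_supp := h.Fi_supp
  F_le := h.F_le.trans (ENNReal.ofReal_le_ofReal hb)
  Fi_le := (sN_mono' hc Fi).trans (h.Fi_le.trans (ENNReal.ofReal_le_ofReal he))
  left := h.left
  right := h.right

/-- The projector data of a level. -/
theorem Lvl.fdata (h21 : W21) {K : ℕ → Fin 3 → ℤ} {T r R : ℝ} {l : ℕ} {X U A : ℝ → Md → C3}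
    {p : ℝ → Md → ℂ} {F Fi M : ℝ → Md → Mat} (h : Lvl K T r R l X U A p F Fi M) {t : ℝ}
    (ht : t ∈ Icc 0 T) : FData (lev l) r R R (F t) (Fi t) where
  c_pos := h.c_pos
  b_one := by linarith [h.R_two]
  e_one := by linarith [h.R_two]
  sum := fun x hx => (h21.2 l x hx).1
  F_supp := h.F_supp t ht
  Fi_supp := h.Fi_supp t ht
  F_le := ((sN_mono' h.c_pos.le (F t)).trans (sN_le_Nrm1 ht)).trans h.F_le
  Fi_le := (sN_le_Nrm1 ht).trans h.Fi_le
  left := by rw [kcomp_mulK, h.inv t ht, mulK_oneM]; rfl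
  right := by rw [kcomp_mulK, h.FFi t ht, mulK_oneM]; rfl

end Pool.Agent.Work.MP_b0497c_an.Unf.A
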