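import Pool.Agent.Work.MP_b0497c_an.Bd.B26

set_option autoImplicit false

/-!
# Block D: an exact level solution in coefficient form is a Lagrangian solution
-/

open scoped ENNReal
open Set MeasureTheory Filter Topology RealInnerProductSpace

namespace Pool.Agent.Work.MP_b0497c_an.Unf.S

open W

variable {K : ℕ → Fin 3 → ℤ} {n : ℕ} {s c : ℝ} {x U A : ℝ → Md → C3} {r : ℝ → Md → ℂ}
  {F Fi M : ℝ → Md → Mat}

/-- The real part of a complex inner product with a real vector. -/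
theorem re_inner_ofC (a : C3) (w : E3) : (inner ℂ a (ofC w)).re = ⟪reC a, w⟫ := by
  rw [PiLp.inner_apply, Fin.sum_univ_three, inner_eq]
  simp only [ofC_apply, reC_apply]
  simp
  ring

theorem reC_ofC (w : E3) : reC (ofC w) = w := by
  ext j
  rw [reC_apply, ofC_apply, Complex.ofReal_re]

theorem summable_gr {f : Md → C3} (hf : Summable fun q => nx (xiZ K) q * ‖f q‖) :
    Summable fun q => ‖gr (xiZ K) f q‖ :=
  Summable.of_nonneg_of_le (fun _ => norm_nonneg _) (fun q => gr_norm (xiZ K) f q) hf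

theorem norm_xi_le (q : Md) : ‖xi K q‖ ≤ nx (xiZ K) q := by
  rw [xi_eq, EuclideanSpace.norm_eq, Fin.sum_univ_three]
  simp only [kv]
  have h : ∀ j : Fin 3, ‖((xiZ K q j : ℤ) : ℂ)‖ = |((xiZ K q j : ℤ) : ℝ)| := by
    intro j
    rw [Complex.norm_intCast]
  rw [h, h, h]
  unfold nx
  apply Real.sqrt_le_iff.mpr
  refine ⟨by positivity, ?_⟩
  have a0 := abs_nonneg ((xiZ K q 0 : ℤ) : ℝ)
  have a1 := abs_nonneg ((xiZ K q 1 : ℤ) : ℝ)
  have a2 := abs_nonneg ((xiZ K q 2 : ℤ) : ℝ)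
  nlinarith [mul_nonneg a0 a1, mul_nonneg a0 a2, mul_nonneg a1 a2]

theorem gradV_norm (f : Md → C3) (q : Md) : ‖gradV K f q‖ ≤ nx (xiZ K) q * ‖f q‖ := by
  rw [gradV, norm_smul, Complex.norm_I, one_mul, ContinuousLinearMap.norm_smulRight_apply,
    innerSL_apply_norm]
  exact mul_le_mul_of_nonneg_right (norm_xi_le q) (norm_nonneg _)

theorem summable_gradV {f : Md → C3} (hf : Summable fun q => nx (xiZ K) q * ‖f q‖) :
    Summable fun q => ‖gradV K f q‖ :=
  Summable.of_nonneg_of_le (fun _ => norm_nonneg _) (fun q => gradV_norm f q) hf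

theorem gradS_norm (f : Md → ℂ) (q : Md) : ‖gradS K f q‖ ≤ nx (xiZ K) q * ‖f q‖ := by
  rw [gradS, norm_smul, norm_mul, Complex.norm_I, one_mul, mul_comm]
  exact mul_le_mul_of_nonneg_right (norm_xi_le q) (norm_nonneg _)

/-- The value of `∇f` on a real vector. -/
theorem ev_gradV (θ : Md →+ ℝ) {f : Md → C3} (hf : Summable fun q => nx (xiZ K) q * ‖f q‖)
    (z : E3) : ev θ (gradV K f) (ofC z) = ev θ (gr (xiZ K) f) z := by
  rw [← ev_apply θ (summable_gradV hf) (ofC z)]
  simp only [gradV_apply]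
  have h1 := summable_ch θ (summable_gr hf)
  have h2 : (ev θ (gr (xiZ K) f)) z = (ContinuousLinearMap.apply ℝ C3 z) (ev θ (gr (xiZ K) f)) :=
    rfl
  rw [h2, ev, ev, (ContinuousLinearMap.apply ℝ C3 z).map_tsum h1]
  rfl

/-- The gradient of a function, against a real vector. -/
theorem ev_gradS (θ : Md →+ ℝ) {f : Md → ℂ} (hf : Summable fun q => nx (xiZ K) q * ‖f q‖)
    (z : E3) : ⟪reC (ev θ (gradS K f)), z⟫ = (ev θ (gr (xiZ K) f) z).re := by
  have hs : Summable fun q => ‖gradS K f q‖ :=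
    Summable.of_nonneg_of_le (fun _ => norm_nonneg _) (fun q => gradS_norm f q) hf
  have hs2 : Summable fun q => ‖gr (xiZ K) f q‖ :=
    Summable.of_nonneg_of_le (fun _ => norm_nonneg _) (fun q => gr_norm (xiZ K) f q) hf
  have h1 := summable_ch θ hs2
  have h2 : (ev θ (gr (xiZ K) f)) z = (ContinuousLinearMap.apply ℝ ℂ z) (ev θ (gr (xiZ K) f)) :=
    rfl
  have h3 : (ev θ (gr (xiZ K) f)) z = ∑' q, ch θ q • (gr (xiZ K) f q z) := by
    rw [h2, ev, (ContinuousLinearMap.apply ℝ ℂ z).map_tsum h1]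
    rfl
  -- left side through the real linear functional
  set L : C3 →L[ℝ] ℝ := (innerSL ℝ z).comp reC with hL
  have h4 : ⟪reC (ev θ (gradS K f)), z⟫ = L (ev θ (gradS K f)) := by
    rw [real_inner_comm]; rfl
  rw [h4, ev, L.map_tsum (summable_ch θ hs), h3]
  have hs3 : Summable fun q => ch θ q • (gr (xiZ K) f q z) := by
    have := (ContinuousLinearMap.apply ℝ ℂ z).summable h1
    exact this
  rw [Complex.re_tsum hs3]
  congr 1
  funext q
  have h5 : ∀ j : Fin 3, (gradS K f q) j = (Complex.I * f q) * ((xiZ K q j : ℤ) : ℂ) := by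
    intro j
    rw [gradS, xi_eq]
    simp [kv]
  have h6 : L (ch θ q • gradS K f q)
      = (ch θ q * ((Complex.I * f q) * ((phL (xiZ K) q z : ℝ) : ℂ))).re := by
    rw [hL]
    simp only [ContinuousLinearMap.comp_apply, innerSL_apply_apply]
    rw [inner_eq]
    simp only [reC_apply, PiLp.smul_apply, smul_eq_mul, h5, phL_apply, ph]
    simp
    ring
  rw [h6]
  simp only [gr, ContinuousLinearMap.smulRight_apply, smul_eq_mul]
  congr 1
  rw [show (phL (xiZ K) q z) • (Complex.I * f q) = ((phL (xiZ K) q z : ℝ) : ℂ) * (Complex.I * f q)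
    from rfl]
  ring

namespace LevSol

variable (h : LevSol K n s c x U A r F Fi M)
include h

theorem x_sBd (k : ℕ) : SBd (xiZ K) s k x := sBd_of_Nrm h.c_pos h.x_supp h.x_fin k
theorem U_sBd (k : ℕ) : SBd (xiZ K) s k U := sBd_of_Nrm h.c_pos h.U_supp h.U_fin k
theorem A_sBd (k : ℕ) : SBd (xiZ K) s k A := sBd_of_Nrm h.c_pos h.A_supp h.A_fin k
theorem r_sBd (k : ℕ) : SBd (xiZ K) s k r := sBd_of_Nrm h.c_pos h.r_supp h.r_fin k

theorem x_nx {t : ℝ} (ht : t ∈ Icc 0 s) : Summable fun q => nx (xiZ K) q * ‖x t q‖ :=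
  summable_nx (xiZ K) ((h.x_sBd 1).sum ht)

theorem U_nx {t : ℝ} (ht : t ∈ Icc 0 s) : Summable fun q => nx (xiZ K) q * ‖U t q‖ :=
  summable_nx (xiZ K) ((h.U_sBd 1).sum ht)

/-- `DX` as the real part of the complex matrix. -/
theorem ev_F (y z : E3) {t : ℝ} (ht : t ∈ Icc 0 s) :
    ev (ph (xiZ K) y) (F t) (ofC z) = ofC (fderiv ℝ (mapR (xiZ K) (x t)) y z) := by
  have hx := h.x_nx ht
  rw [h.F_eq t ht]
  have h1 : ev (ph (xiZ K) y) (oneM + gradV K (x t)) = ev (ph (xiZ K) y) oneM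
      + ev (ph (xiZ K) y) (gradV K (x t)) := by
    apply ev_add
    · apply summable_of_ne_finset_zero (s := {0})
      intro q hq
      have hq0 : q ≠ 0 := by simpa using hq
      simp [oneM, hq0]
    · exact summable_gradV hx
  rw [h1, ev_oneM, add_apply, ContinuousLinearMap.id_apply, ev_gradV _ hx,
    (mapR_hasFDerivAt (xiZ K) ((h.x_sBd 1).sum ht) y).fderiv, add_apply,
    ContinuousLinearMap.id_apply, ContinuousLinearMap.comp_apply, map_add]
  congr 1
  -- reality of `∇x z`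
  have h2 : ev (ph (xiZ K) y) (gr (xiZ K) (x t)) z
      = ev (ph (xiZ K) y) (fun q => gr (xiZ K) (x t) q z) := by
    have h1 := summable_ch (ph (xiZ K) y) (summable_gr hx)
    have h2 : (ev (ph (xiZ K) y) (gr (xiZ K) (x t))) z
        = (ContinuousLinearMap.apply ℝ C3 z) (ev (ph (xiZ K) y) (gr (xiZ K) (x t))) := rfl
    rw [h2, ev, (ContinuousLinearMap.apply ℝ C3 z).map_tsum h1]
    rfl
  rw [h2]
  symm
  apply ev_real
  · refine Summable.of_nonneg_of_le (fun _ => norm_nonneg _)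
      (fun q => ((gr (xiZ K) (x t) q).le_opNorm z)) ?_
    exact (summable_gr hx).mul_right _
  · intro q
    simp only [gr, ContinuousLinearMap.smulRight_apply]
    rw [h.x_real t ht q]
    have h3 : phL (xiZ K) (-q) z = - phL (xiZ K) q z := by
      rw [phL_apply, phL_apply, map_neg]
    rw [h3]
    ext j
    simp [cjv]

theorem sum_F {t : ℝ} (ht : t ∈ Icc 0 s) : Summable fun q => ‖F t q‖ :=
  summable_of_Nrm h.c_pos.le h.F_fin ht
theorem sum_Fi {t : ℝ} (ht : t ∈ Icc 0 s) : Summable fun q => ‖Fi t q‖ :=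
  summable_of_Nrm h.c_pos.le h.Fi_fin ht
theorem sum_M {t : ℝ} (ht : t ∈ Icc 0 s) : Summable fun q => ‖M t q‖ :=
  summable_of_Nrm h.c_pos.le h.M_fin ht

omit h in
theorem gradV_der {q : Md} {t : ℝ} {I : Set ℝ} (hd : HasDerivWithinAt (fun t => x t q) (U t q) I t) :
    HasDerivWithinAt (fun t => gradV K (x t) q) (gradV K (U t) q) I t := by
  have h1 := ((ContinuousLinearMap.smulRightL ℂ C3 C3) (innerSL ℂ (xi K q)))
  have h2 := (((ContinuousLinearMap.smulRightL ℂ C3 C3)
    (innerSL ℂ (xi K q))).restrictScalars ℝ).hasFDerivAt.comp_hasDerivWithinAt t hd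
  exact h2.const_smul Complex.I

/-- `∇U = M F`. -/
theorem gradU {t : ℝ} (ht : t ∈ Icc 0 s) : gradV K (U t) = mm (M t) (F t) := by
  funext q
  have h1 := gradV_der (K := K) (h.x_der q t ht)
  have h2 : HasDerivWithinAt (fun t => gradV K (x t) q) (mm (M t) (F t) q) (Icc 0 s) t := by
    have h3 := (h.F_der q t ht).sub_const (oneM q)
    refine h3.congr (fun r hr => ?_) ?_
    · rw [h.F_eq r hr]; simp
    · rw [h.F_eq t ht]; simp
  exact (uniqueDiffOn_Icc h.s_pos t ht).eq_deriv _ h1 h2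

end LevSol

/-- The real matrix of a complex one. -/
noncomputable def reM (B : Mat) : E3 →L[ℝ] E3 :=
  reC.comp ((B.restrictScalars ℝ).comp ofC)

theorem reM_apply (B : Mat) (z : E3) : reM B z = reC (B (ofC z)) := rfl

theorem trace_C3 (B : Mat) : LinearMap.trace ℂ C3 (B : C3 →ₗ[ℂ] C3)
    = ∑ j : Fin 3, (B (EuclideanSpace.single j 1)) j := by
  rw [LinearMap.trace_eq_sum_inner (B : C3 →ₗ[ℂ] C3) (EuclideanSpace.basisFun (Fin 3) ℂ)]
  refine Finset.sum_congr rfl fun j _ => ?_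
  rw [EuclideanSpace.basisFun_apply]
  simp [EuclideanSpace.inner_single_left]

theorem ofC_e (j : Fin 3) : ofC (e j) = EuclideanSpace.single j 1 := by
  ext i
  rw [ofC_apply]
  by_cases hij : i = j
  · subst hij; simp [e]
  · simp [e, hij]

theorem trace_reM (B : Mat) : LinearMap.trace ℝ E3 (reM B : E3 →ₗ[ℝ] E3)
    = (LinearMap.trace ℂ C3 (B : C3 →ₗ[ℂ] C3)).re := by
  rw [trace_eq, trace_C3, Fin.sum_univ_three]
  simp only [reM_apply, ofC_e, reC_apply, Complex.add_re]

/-- The trace of an evaluation. -/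
theorem trace_ev (θ : Md →+ ℝ) {a : Md → Mat} (ha : Summable fun q => ‖a q‖)
    (htr : ∀ q, LinearMap.trace ℂ C3 (a q : C3 →ₗ[ℂ] C3) = 0) :
    LinearMap.trace ℂ C3 ((ev θ a : Mat) : C3 →ₗ[ℂ] C3) = 0 := by
  rw [trace_C3, Fin.sum_univ_three]
  have h1 : ∀ j : Fin 3, (ev θ a (EuclideanSpace.single j 1)) j
      = ∑' q, ch θ q * (a q (EuclideanSpace.single j 1)) j := by
    intro j
    rw [← ev_apply θ ha]
    apply ev_coord
    exact Summable.of_nonneg_of_le (fun _ => norm_nonneg _)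
      (fun q => (a q).le_opNorm _) (ha.mul_right _)
  have hs : ∀ j : Fin 3, Summable fun q => ch θ q * (a q (EuclideanSpace.single j 1)) j := by
    intro j
    apply Summable.of_norm
    refine Summable.of_nonneg_of_le (fun _ => norm_nonneg _) (fun q => ?_) ha
    rw [norm_mul, ch_norm, one_mul]
    have h2 := PiLp.norm_apply_le (a q (EuclideanSpace.single j 1)) j
    have h3 := (a q).le_opNorm (EuclideanSpace.single j (1:ℂ))
    have h4 : ‖(EuclideanSpace.single j (1:ℂ) : C3)‖ = 1 := by simp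
    rw [h4, mul_one] at h3
    exact h2.trans h3
  rw [h1, h1, h1, ← (hs 0).tsum_add (hs 1), ← ((hs 0).add (hs 1)).tsum_add (hs 2)]
  have h5 : ∀ q, ch θ q * (a q (EuclideanSpace.single 0 1)) 0
      + ch θ q * (a q (EuclideanSpace.single 1 1)) 1
      + ch θ q * (a q (EuclideanSpace.single 2 1)) 2 = 0 := by
    intro q
    have h6 := htr q
    rw [trace_C3, Fin.sum_univ_three] at h6
    rw [← mul_add, ← mul_add, h6, mul_zero]
  simp only [h5, tsum_zero]

namespace LevSol

variable (h : LevSol K n s c x U A r F Fi M)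
include h

/-- `D_y W = M D_y X`. -/
theorem DW_eq (y : E3) {t : ℝ} (ht : t ∈ Icc 0 s) :
    fderiv ℝ (vecR (xiZ K) (U t)) y
      = (reM (ev (ph (xiZ K) y) (M t))).comp (fderiv ℝ (mapR (xiZ K) (x t)) y) := by
  ext1 z
  rw [(vecR_hasFDerivAt (xiZ K) ((h.U_sBd 1).sum ht) y).fderiv]
  simp only [ContinuousLinearMap.comp_apply]
  rw [← ev_gradV _ (h.U_nx ht), h.gradU ht, ev_mm _ (h.sum_M ht) (h.sum_F ht),
    ContinuousLinearMap.comp_apply, h.ev_F y z ht, reM_apply]

/-- `det D_y X = 1`. -/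
theorem det_one (y : E3) {t : ℝ} (ht : t ∈ Icc 0 s) :
    det3 (fderiv ℝ (mapR (xiZ K) (x t)) y) = 1 := by
  have hx1 := h.x_sBd 1
  have hU1 := h.U_sBd 1
  obtain ⟨u, hu, hux⟩ := (h.x_sBd 1).ex
  have hcont : ∀ z : E3, ContinuousOn (fun t => fderiv ℝ (mapR (xiZ K) (x t)) y z) (Icc 0 s) := by
    intro z
    have h1 := ev_continuousOn (xiZ K) (E := E3 →L[ℝ] C3) (T := s)
      (f := fun t => gr (xiZ K) (x t)) hu
      (fun t ht q => (gr_norm (xiZ K) (x t) q).trans (le_trans (by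
        have h2 := nx_nonneg (xiZ K) q
        rw [pow_one]
        gcongr
        linarith) (hux t ht q)))
      (fun q => by
        have h2 : ContinuousOn (fun t => Complex.I • x t q) (Icc 0 s) :=
          (h.x_cm q).const_smul Complex.I
        exact ((ContinuousLinearMap.smulRightL ℝ E3 C3) (phL (xiZ K) q)).continuous.comp_continuousOn
          h2)
    have h2 : ContinuousOn (fun t : ℝ => ev (ph (xiZ K) y) (gr (xiZ K) (x t))) (Icc 0 s) :=
      h1.comp (f := fun t : ℝ => (t, y)) (by fun_prop) (fun t ht => ⟨ht, mem_univ _⟩)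
    have h3 : ContinuousOn (fun t : ℝ => z + reC (ev (ph (xiZ K) y) (gr (xiZ K) (x t)) z))
        (Icc 0 s) :=
      continuousOn_const.add
        ((reC.comp (ContinuousLinearMap.apply ℝ C3 z)).continuous.comp_continuousOn h2)
    refine h3.congr fun t ht => ?_
    rw [(mapR_hasFDerivAt (xiZ K) (hx1.sum ht) y).fderiv]
    rfl
  set g : ℝ → ℝ := fun t => det3 (fderiv ℝ (mapR (xiZ K) (x t)) y) with hg
  have hgc : ContinuousOn g (Icc 0 s) := by
    have hc : ∀ i j : Fin 3, ContinuousOn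
        (fun t => (fderiv ℝ (mapR (xiZ K) (x t)) y (e i)) j) (Icc 0 s) := fun i j =>
      (EuclideanSpace.proj j : E3 →L[ℝ] ℝ).continuous.comp_continuousOn (hcont (e i))
    simp only [hg, det3, cr, inner_eq]
    simp only [Matrix.cons_val_zero, Matrix.cons_val_one, Matrix.cons_val]
    exact (((((hc 0 1).mul (hc 1 2)).sub ((hc 0 2).mul (hc 1 1))).mul (hc 2 0)).add
      ((((hc 0 2).mul (hc 1 0)).sub ((hc 0 0).mul (hc 1 2))).mul (hc 2 1))).add
      ((((hc 0 0).mul (hc 1 1)).sub ((hc 0 1).mul (hc 1 0))).mul (hc 2 2))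
  have hder : ∀ t ∈ Ioo 0 s, HasDerivAt g 0 t := by
    intro t ht
    have htc := Ioo_subset_Icc_self ht
    have h1 := det_deriv (F := fun r => fderiv ℝ (mapR (xiZ K) (x r)) y)
      (G := fderiv ℝ (vecR (xiZ K) (U t)) y) (t := t)
      (fun z => grad_deriv hx1 hU1
        (fun r hr q => (h.x_der q r (Ioo_subset_Icc_self hr)).hasDerivAt
          (Icc_mem_nhds hr.1 hr.2)) ht y z)
    refine h1.congr_deriv ?_
    rw [h.DW_eq y htc, trF_comp, trace_reM, trace_ev _ (h.sum_M htc) (h.tr_M t htc)]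
    simp
  have h0 : g 0 = 1 := by
    have h1 : mapR (xiZ K) (x 0) = fun y => y := by
      funext y
      simp [mapR, vecR, ev, h.x_zero]
    simp only [hg]
    rw [h1, fderiv_fun_id]
    simp [det3, cr, inner_eq, e]
  have hmain : ∀ t ∈ Icc 0 s, g t = g 0 := by
    intro t ht
    rcases ht.1.eq_or_lt with h1 | h1
    · rw [h1]
    obtain ⟨w, _, hw⟩ := exists_hasDerivAt_eq_slope g (fun _ => 0) h1
      (hgc.mono (Icc_subset_Icc le_rfl ht.2)) (fun r hr => hder r ⟨hr.1, hr.2.trans_le ht.2⟩)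
    have h2 : g t - g 0 = 0 := by
      have h3 : t - 0 ≠ 0 := by linarith
      field_simp at hw
      linarith
    linarith
  rw [← h0]
  exact hmain t ht

/-- The momentum equation in label variables. -/
theorem momentum (y z : E3) {t : ℝ} (ht : t ∈ Icc 0 s) :
    ⟪vecR (xiZ K) (A t) y, fderiv ℝ (mapR (xiZ K) (x t)) y z⟫
      = - fderiv ℝ (scR (xiZ K) (r t)) y z := by
  set θ := ph (xiZ K) y with hθ
  have hFi := h.sum_Fi ht
  have hF := h.sum_F ht
  have hr1 := (h.r_sBd 1).sum ht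
  have hrn := summable_nx (xiZ K) hr1
  have hgs : Summable fun q => ‖gradS K (r t) q‖ :=
    Summable.of_nonneg_of_le (fun _ => norm_nonneg _) (fun q => gradS_norm (r t) q) hrn
  have hadj : Summable fun q => ‖adjC (Fi t) q‖ := by
    have h1 : ∀ q, ‖adjC (Fi t) q‖ = ‖Fi t (-q)‖ := fun q => by
      simp only [adjC, LinearIsometryEquiv.norm_map]
    simp only [h1]
    exact (Equiv.neg Md).summable_iff.mpr hFi
  have e1 : ⟪vecR (xiZ K) (A t) y, fderiv ℝ (mapR (xiZ K) (x t)) y z⟫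
      = (inner ℂ (ev θ (A t)) (ofC (fderiv ℝ (mapR (xiZ K) (x t)) y z))).re := by
    rw [re_inner_ofC]; rfl
  rw [e1, ← h.ev_F y z ht, h.mom t ht, ev_neg, ev_mul _ hadj hgs, ev_adjC _ hFi, inner_neg_left,
    ContinuousLinearMap.adjoint_inner_left]
  have e2 : ev θ (Fi t) (ev θ (F t) (ofC z)) = ofC z := by
    have h1 := ev_mm θ hFi hF
    rw [h.inv t ht, ev_oneM] at h1
    have h2 := congrArg (fun L : Mat => L (ofC z)) h1
    simpa using h2.symm
  rw [← hθ, e2, Complex.neg_re, re_inner_ofC, ev_gradS θ hrn z,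
    (scR_hasFDerivAt (xiZ K) hr1 y).fderiv]
  rfl

/-- **Block D**: an exact level solution is a Lagrangian solution. -/
theorem lagSol : LagSol s (fun t => mapR (xiZ K) (x t)) (fun t => vecR (xiZ K) (U t))
    (fun t => vecR (xiZ K) (A t)) (fun t => scR (xiZ K) (r t)) :=
  lagSol_of_series (h.x_sBd 2) (h.U_sBd 1) (h.A_sBd 0) (h.r_sBd 1) h.x_cm h.U_cm h.A_cm
    (fun t ht q => (h.x_der q t (Ioo_subset_Icc_self ht)).hasDerivAt (Icc_mem_nhds ht.1 ht.2))
    (fun t ht q => (h.U_der q t (Ioo_subset_Icc_self ht)).hasDerivAt (Icc_mem_nhds ht.1 ht.2))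
    (fun q => by rw [h.x_zero]; rfl)
    (fun t ht y => h.det_one y ht)
    (fun t ht y z => h.momentum y z (Ioo_subset_Icc_self ht))

end LevSol

end Pool.Agent.Work.MP_b0497c_an.Unf.S
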