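import Pool.Agent.Work.MP_b0497c_an.Unf.WStmts

set_option autoImplicit false

/-!
# W13: the fixed point theorem
-/

open scoped ENNReal
open Set MeasureTheory Filter Topology

namespace Pool.Agent.Work.MP_b0497c_an.Unf.W

namespace FP

/-- The norm of the fixed point theorem. -/
noncomputable def NN {α : Type} {E : α → Type} [∀ a, NormedAddCommGroup (E a)] (T : ℝ)
    (w : ℝ → α → ℝ≥0∞) (f : ℝ → ∀ a, E a) : ℝ≥0∞ :=
  ∑' a, ⨆ t ∈ Icc 0 T, w t a * ‖f t a‖ₑ

variable {α : Type} {E : α → Type} [∀ a, NormedAddCommGroup (E a)] {T : ℝ} {w : ℝ → α → ℝ≥0∞}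

theorem NN_add (f g : ℝ → ∀ a, E a) : NN T w (fun t a => f t a + g t a) ≤ NN T w f + NN T w g := by
  unfold NN
  rw [← ENNReal.tsum_add]
  refine ENNReal.tsum_le_tsum fun a => iSup₂_le fun t ht => ?_
  have h1 : w t a * ‖f t a + g t a‖ₑ ≤ w t a * ‖f t a‖ₑ + w t a * ‖g t a‖ₑ := by
    rw [← mul_add]
    gcongr
    exact enorm_add_le _ _
  refine h1.trans (add_le_add ?_ ?_)
  · exact le_iSup₂ (f := fun t (_ : t ∈ Icc 0 T) => w t a * ‖f t a‖ₑ) t ht
  · exact le_iSup₂ (f := fun t (_ : t ∈ Icc 0 T) => w t a * ‖g t a‖ₑ) t ht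

theorem NN_congr {f g : ℝ → ∀ a, E a} (h : ∀ t ∈ Icc 0 T, ∀ a, ‖f t a‖ₑ = ‖g t a‖ₑ) :
    NN T w f = NN T w g := by
  unfold NN
  refine tsum_congr fun a => ?_
  exact iSup_congr fun t => iSup_congr fun ht => by rw [h t ht a]

theorem NN_sub_comm (f g : ℝ → ∀ a, E a) :
    NN T w (fun t a => f t a - g t a) = NN T w (fun t a => g t a - f t a) :=
  NN_congr fun _ _ _ => enorm_sub_rev _ _

theorem NN_tri (f g h : ℝ → ∀ a, E a) : NN T w (fun t a => f t a - h t a) ≤
    NN T w (fun t a => f t a - g t a) + NN T w (fun t a => g t a - h t a) := by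
  have h1 := NN_add (T := T) (w := w) (fun t a => f t a - g t a) (fun t a => g t a - h t a)
  have h2 : NN T w (fun t a => f t a - h t a) =
      NN T w (fun t a => (f t a - g t a) + (g t a - h t a)) :=
    NN_congr fun t _ a => by rw [sub_add_sub_cancel]
  rw [h2]
  exact h1

theorem le_NN (f : ℝ → ∀ a, E a) {t : ℝ} (ht : t ∈ Icc 0 T) (a : α) :
    w t a * ‖f t a‖ₑ ≤ NN T w f := by
  refine (le_iSup₂ (f := fun t (_ : t ∈ Icc 0 T) => w t a * ‖f t a‖ₑ) t ht).trans ?_
  exact ENNReal.le_tsum (f := fun a => ⨆ t ∈ Icc 0 T, w t a * ‖f t a‖ₑ) a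

/-- Lower semicontinuity. -/
theorem NN_le_of_tendsto (hw : ∀ t ∈ Icc 0 T, ∀ a, w t a ≠ ∞) (u : ℕ → ℝ → ∀ a, E a)
    (f : ℝ → ∀ a, E a) (h : ∀ t ∈ Icc 0 T, ∀ a, Tendsto (fun n => u n t a) atTop (𝓝 (f t a)))
    {b : ℝ≥0∞} (hb : ∀ᶠ n in atTop, NN T w (u n) ≤ b) : NN T w f ≤ b := by
  have h1 : ∀ a, (⨆ t ∈ Icc 0 T, w t a * ‖f t a‖ₑ) ≤
      liminf (fun n => ⨆ t ∈ Icc 0 T, w t a * ‖u n t a‖ₑ) atTop := by
    intro a
    refine iSup₂_le fun t ht => ?_
    have h2 : Tendsto (fun n => w t a * ‖u n t a‖ₑ) atTop (𝓝 (w t a * ‖f t a‖ₑ)) := by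
      refine ENNReal.Tendsto.const_mul ?_ (Or.inr (hw t ht a))
      exact (continuous_enorm.tendsto _).comp (h t ht a)
    rw [← h2.liminf_eq]
    refine liminf_le_liminf (Eventually.of_forall fun n => ?_)
    exact le_iSup₂ (f := fun t (_ : t ∈ Icc 0 T) => w t a * ‖u n t a‖ₑ) t ht
  have h3 : NN T w f ≤ ∑' a, liminf (fun n => ⨆ t ∈ Icc 0 T, w t a * ‖u n t a‖ₑ) atTop :=
    ENNReal.tsum_le_tsum h1
  refine h3.trans ?_
  let _ : MeasurableSpace α := ⊤
  have h4 := lintegral_liminf_le (μ := Measure.count) (u := atTop)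
    (f := fun n (a : α) => ⨆ t ∈ Icc 0 T, w t a * ‖u n t a‖ₑ) (fun n => measurable_from_top)
  simp only [lintegral_count] at h4
  refine h4.trans ?_
  refine liminf_le_of_frequently_le' ?_
  exact hb.frequently

end FP

open Pool.Agent.Work.MP_b0497c_an.Unf.W.FP in
theorem pr_W13 : W13 := by
  intro α E _ _ T w R Φ hT hR hδ hw h1 h2
  have hN : ∀ f : ℝ → ∀ a, E a, (∑' a, ⨆ t ∈ Icc 0 T, w t a * ‖f t a‖ₑ) = NN T w f := fun _ => rfl
  simp only [hN] at h1 h2 ⊢
  -- the iteration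
  obtain ⟨u, hu0, hus⟩ : ∃ u : ℕ → ℝ → ∀ a, E a, u 0 = (fun _ _ => 0) ∧ ∀ n, u (n + 1) = Φ (u n) :=
    ⟨fun n => Φ^[n] (fun _ _ => 0), rfl, fun n => Function.iterate_succ_apply' _ _ _⟩
  have hzero : NN T w (fun _ a => (0 : E a)) = 0 := by
    unfold NN
    simp
  have hub : ∀ n, (∀ a, ContinuousOn (fun t => u n t a) (Icc 0 T)) ∧ NN T w (u n) ≤ R := by
    intro n
    induction n with
    | zero =>
      rw [hu0]
      exact ⟨fun a => continuousOn_const, by rw [hzero]; exact zero_le⟩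
    | succ n ih =>
      rw [hus]
      exact h1 _ ih.1 ih.2
  have hD : ∀ n, NN T w (fun t a => u (n + 1) t a - u n t a) ≤ R * (1 / 2) ^ n := by
    intro n
    induction n with
    | zero =>
      have e : NN T w (fun t a => u (0 + 1) t a - u 0 t a) = NN T w (u 1) :=
        NN_congr fun t _ a => by rw [hu0]; simp
      rw [e, pow_zero, mul_one]
      exact (hub 1).2
    | succ n ih =>
      have h3 := h2 (u (n + 1)) (u n) (hub _).1 (hub _).1 (hub _).2 (hub _).2
      rw [hus (n + 1)]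
      nth_rewrite 2 [hus n]
      refine h3.trans ?_
      calc (1 / 2) * NN T w (fun t a => u (n + 1) t a - u n t a)
          ≤ (1 / 2) * (R * (1 / 2) ^ n) := by gcongr
        _ = R * (1 / 2) ^ (n + 1) := by ring
  choose δ hδ0 hδ using hδ
  have hδtop : ∀ a, δ a ≠ ∞ := fun a =>
    ne_top_of_le_ne_top (hw 0 ⟨le_refl _, hT⟩ a) (hδ a 0 ⟨le_refl _, hT⟩)
  -- pointwise bounds
  have hpt : ∀ (g : ℝ → ∀ a, E a) (t : ℝ), t ∈ Icc 0 T → ∀ a, ‖g t a‖ₑ ≤ NN T w g / δ a := by
    intro g t ht a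
    rw [ENNReal.le_div_iff_mul_le (Or.inl (hδ0 a)) (Or.inl (hδtop a)), mul_comm]
    refine le_trans ?_ (le_NN (w := w) g ht a)
    gcongr
    exact hδ a t ht
  obtain ⟨C, hC⟩ : ∃ C : α → ℝ, ∀ a n t, t ∈ Icc 0 T →
      ‖u (n + 1) t a - u n t a‖ ≤ C a * (1 / 2) ^ n := by
    refine ⟨fun a => (R / δ a).toReal, fun a n t ht => ?_⟩
    have h3 := hpt (fun t a => u (n + 1) t a - u n t a) t ht a
    have h4 : NN T w (fun t a => u (n + 1) t a - u n t a) / δ a ≤ (R / δ a) * (1 / 2) ^ n := by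
      rw [div_eq_mul_inv, div_eq_mul_inv, mul_right_comm]
      gcongr
      exact hD n
    have h5 := h3.trans h4
    have h6 : (R / δ a) * (1 / 2) ^ n ≠ ∞ := by
      refine ENNReal.mul_ne_top (ENNReal.div_ne_top hR (hδ0 a)) ?_
      exact ENNReal.pow_ne_top (by simp)
    have h7 := ENNReal.toReal_mono h6 h5
    rw [toReal_enorm, ENNReal.toReal_mul, ENNReal.toReal_pow] at h7
    simpa using h7
  have hsum : ∀ a, Summable fun n : ℕ => C a * (1 / 2 : ℝ) ^ n := fun a =>
    (summable_geometric_of_lt_one (by norm_num) (by norm_num)).mul_left _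
  obtain ⟨f, hf⟩ : ∃ f : ℝ → ∀ a, E a, f = fun t a => ∑' n, (u (n + 1) t a - u n t a) :=
    ⟨_, rfl⟩
  have hfc : ∀ a, ContinuousOn (fun t => f t a) (Icc 0 T) := by
    intro a
    rw [hf]
    exact continuousOn_tsum (fun n => ((hub (n + 1)).1 a).sub ((hub n).1 a)) (hsum a)
      (fun n t ht => hC a n t ht)
  have hlim : ∀ t ∈ Icc 0 T, ∀ a, Tendsto (fun n => u n t a) atTop (𝓝 (f t a)) := by
    intro t ht a
    have h3 : Summable fun n => (u (n + 1) t a - u n t a) :=
      Summable.of_norm_bounded (hsum a) (fun n => hC a n t ht)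
    have h4 := h3.hasSum.tendsto_sum_nat
    have h5 : (fun n => ∑ i ∈ Finset.range n, (u (i + 1) t a - u i t a)) = fun n => u n t a := by
      funext n
      rw [Finset.sum_range_sub (fun i => u i t a), hu0]
      simp
    rw [h5] at h4
    rw [hf]
    exact h4
  have hfR : NN T w f ≤ R :=
    NN_le_of_tendsto hw u f hlim (Eventually.of_forall fun n => (hub n).2)
  -- distance to the iterates
  have hdist : ∀ n k, NN T w (fun t a => u (n + k) t a - u n t a) ≤ R * (1 / 2) ^ n * 2 := by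
    intro n k
    have h3 : NN T w (fun t a => u (n + k) t a - u n t a) ≤
        ∑ i ∈ Finset.range k, R * (1 / 2) ^ (n + i) := by
      induction k with
      | zero =>
        have e : NN T w (fun t a => u (n + 0) t a - u n t a) = NN T w (fun _ a => (0 : E a)) :=
          NN_congr fun t _ a => by simp
        rw [e, hzero]
        exact zero_le
      | succ k ih =>
        rw [Finset.sum_range_succ]
        refine (NN_tri _ (u (n + k)) _).trans ?_
        rw [add_comm]
        exact add_le_add ih (hD (n + k))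
    refine h3.trans ?_
    have h4 : ∑ i ∈ Finset.range k, R * (1 / 2 : ℝ≥0∞) ^ (n + i) =
        R * (1 / 2) ^ n * ∑ i ∈ Finset.range k, (1 / 2 : ℝ≥0∞) ^ i := by
      rw [Finset.mul_sum]
      exact Finset.sum_congr rfl fun i _ => by rw [pow_add, mul_assoc]
    rw [h4]
    gcongr
    refine (ENNReal.sum_le_tsum _).trans ?_
    rw [ENNReal.tsum_geometric]
    simp
  have hfd : ∀ n, NN T w (fun t a => f t a - u n t a) ≤ R * (1 / 2) ^ n * 2 := by
    intro n
    refine NN_le_of_tendsto hw (fun k t a => u (n + k) t a - u n t a) _ ?_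
      (Eventually.of_forall fun k => hdist n k)
    intro t ht a
    have h3 := (hlim t ht a).comp (tendsto_add_atTop_nat n)
    have h4 : ((fun n => u n t a) ∘ fun k => k + n) = fun k => u (n + k) t a := by
      funext k
      simp [add_comm]
    rw [h4] at h3
    exact h3.sub_const _
  -- the limit is a fixed point
  have hfix : ∀ t ∈ Icc 0 T, ∀ a, Φ f t a = f t a := by
    intro t ht a
    have h3 : Tendsto (fun n => u (n + 1) t a) atTop (𝓝 (f t a)) :=
      (hlim t ht a).comp (tendsto_add_atTop_nat 1)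
    refine tendsto_nhds_unique (f := fun n => u (n + 1) t a) (l := atTop) ?_ h3
    rw [tendsto_iff_edist_tendsto_0]
    have h4 : ∀ n, edist (u (n + 1) t a) (Φ f t a) ≤ R * (1 / 2) ^ n / δ a := by
      intro n
      rw [edist_comm, edist_eq_enorm_sub]
      refine (hpt (fun t a => Φ f t a - u (n + 1) t a) t ht a).trans ?_
      refine ENNReal.div_le_div_right ?_ _
      rw [hus]
      refine (h2 f (u n) hfc (hub n).1 hfR (hub n).2).trans ?_
      calc (1 / 2) * NN T w (fun t a => f t a - u n t a)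
          ≤ (1 / 2) * (R * (1 / 2) ^ n * 2) := by
            gcongr
            exact hfd n
        _ = R * (1 / 2) ^ n * ((1 / 2) * 2) := by ring
        _ = R * (1 / 2) ^ n := by
            rw [one_div, ENNReal.inv_mul_cancel (by norm_num) (by norm_num), mul_one]
    refine tendsto_of_tendsto_of_tendsto_of_le_of_le tendsto_const_nhds ?_ (fun _ => zero_le) h4
    have h5 : Tendsto (fun n : ℕ => (R / δ a) * (1 / 2 : ℝ≥0∞) ^ n) atTop (𝓝 ((R / δ a) * 0)) := by
      refine ENNReal.Tendsto.const_mul ?_ (Or.inr (ENNReal.div_ne_top hR (hδ0 a)))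
      exact ENNReal.tendsto_pow_atTop_nhds_zero_of_lt_one (by
        rw [one_div]; exact ENNReal.inv_lt_one.mpr (by norm_num))
    rw [mul_zero] at h5
    refine h5.congr fun n => ?_
    rw [div_eq_mul_inv, div_eq_mul_inv, mul_right_comm, div_eq_mul_inv]
  refine ⟨f, hfc, hfR, hfix, ?_⟩
  intro g hgc hgR
  have h3 : NN T w (fun t a => f t a - g t a) ≤
      (1 / 2) * NN T w (fun t a => f t a - g t a) + NN T w (fun t a => Φ g t a - g t a) := by
    refine (NN_tri _ (Φ g) _).trans (add_le_add ?_ le_rfl)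
    have e : NN T w (fun t a => f t a - Φ g t a) = NN T w (fun t a => Φ f t a - Φ g t a) :=
      NN_congr fun t ht a => by rw [hfix t ht a]
    rw [e]
    exact h2 f g hfc hgc hfR hgR
  have h4 : NN T w (fun t a => f t a - g t a) ≠ ∞ := by
    refine ne_top_of_le_ne_top (b := R + R) (by simp [hR]) ?_
    have h5 := NN_add (T := T) (w := w) f (fun t a => - g t a)
    have e1 : NN T w (fun t a => f t a + - g t a) = NN T w (fun t a => f t a - g t a) :=
      NN_congr fun t _ a => by rw [sub_eq_add_neg]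
    have e2 : NN T w (fun t a => - g t a) = NN T w g := NN_congr fun t _ a => enorm_neg _
    rw [e1, e2] at h5
    exact h5.trans (add_le_add hfR hgR)
  generalize NN T w (fun t a => f t a - g t a) = x at h3 h4 ⊢
  generalize NN T w (fun t a => Φ g t a - g t a) = y at h3 ⊢
  by_cases hy : y = ∞
  · rw [hy]
    simp
  · lift x to NNReal using h4
    lift y to NNReal using hy
    have h5 : (1 / 2 : ℝ≥0∞) = ((1 / 2 : NNReal) : ℝ≥0∞) := by
      rw [ENNReal.coe_div (by norm_num)]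
      simp
    rw [h5] at h3
    norm_cast at h3 ⊢
    have h6 : (x : ℝ) ≤ (1 / 2) * x + y := by exact_mod_cast h3
    have h7 : (x : ℝ) ≤ 2 * y := by linarith
    exact_mod_cast h7

end Pool.Agent.Work.MP_b0497c_an.Unf.W
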