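import Pool.Agent.Work.MP_b0497c_an.Forced.Ode.Defs

set_option autoImplicit false

/-!
# Cross products on `E3` (blocks O, K)

Everything in coordinates; identities are proved by `ring`.
-/

open scoped ContDiff
open Set ContinuousLinearMap

namespace Pool.Agent.Work.MP_b0497c_an.Unf.O

open Forced.Ode

/-- Cross product. -/
noncomputable def cr (a b : E3) : E3 :=
  !₂[a 1 * b 2 - a 2 * b 1, a 2 * b 0 - a 0 * b 2, a 0 * b 1 - a 1 * b 0]

@[simp] theorem cr_0 (a b : E3) : (cr a b) 0 = a 1 * b 2 - a 2 * b 1 := by simp [cr]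
@[simp] theorem cr_1 (a b : E3) : (cr a b) 1 = a 2 * b 0 - a 0 * b 2 := by simp [cr]
@[simp] theorem cr_2 (a b : E3) : (cr a b) 2 = a 0 * b 1 - a 1 * b 0 := by simp [cr]

theorem ext3 {a b : E3} (h0 : a 0 = b 0) (h1 : a 1 = b 1) (h2 : a 2 = b 2) : a = b := by
  ext i
  fin_cases i
  · exact h0
  · exact h1
  · exact h2

theorem ip (a b : E3) : inner ℝ a b = a 0 * b 0 + a 1 * b 1 + a 2 * b 2 := by
  simp only [PiLp.inner_apply, Fin.sum_univ_three]
  simp only [RCLike.inner_apply, conj_trivial]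
  ring

theorem nsq (a : E3) : ‖a‖ ^ 2 = a 0 ^ 2 + a 1 ^ 2 + a 2 ^ 2 := by
  rw [← real_inner_self_eq_norm_sq, ip]
  ring

theorem decomp (x : E3) : x = x 0 • e 0 + x 1 • e 1 + x 2 • e 2 := by
  apply ext3 <;> simp [e]

theorem op (A : Op) (x : E3) (i : Fin 3) :
    (A x) i = x 0 * (A (e 0)) i + x 1 * (A (e 1)) i + x 2 * (A (e 2)) i := by
  conv_lhs => rw [decomp x]
  simp only [map_add, map_smul, PiLp.add_apply, PiLp.smul_apply, smul_eq_mul]

theorem adj (A : Op) (x : E3) (i : Fin 3) :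
    (adjoint A x) i = x 0 * (A (e i)) 0 + x 1 * (A (e i)) 1 + x 2 * (A (e i)) 2 := by
  have h : inner ℝ (e i) (adjoint A x) = inner ℝ (A (e i)) x := adjoint_inner_right A (e i) x
  rw [ip, ip] at h
  have h2 : (e i : E3) 0 * (adjoint A x) 0 + (e i : E3) 1 * (adjoint A x) 1
      + (e i : E3) 2 * (adjoint A x) 2 = (adjoint A x) i := by
    fin_cases i <;> simp [e]
  rw [h2] at h
  rw [h]
  ring

/-- The trace in coordinates. -/
theorem tr3 (A : Op) : LinearMap.trace ℝ E3 A.toLinearMap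
    = (A (e 0)) 0 + (A (e 1)) 1 + (A (e 2)) 2 := by
  rw [LinearMap.trace_eq_sum_inner _ (EuclideanSpace.basisFun (Fin 3) ℝ), Fin.sum_univ_three]
  simp only [EuclideanSpace.basisFun_apply, ContinuousLinearMap.coe_coe]
  simp only [ip]
  simp [e]

/-- The cross product as a continuous bilinear map. -/
noncomputable def crL : E3 →L[ℝ] E3 →L[ℝ] E3 :=
  (LinearMap.mk₂ ℝ cr
    (by intro a a' b; apply ext3 <;> simp <;> ring)
    (by intro c a b; apply ext3 <;> simp <;> ring)
    (by intro a b b'; apply ext3 <;> simp <;> ring)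
    (by intro c a b; apply ext3 <;> simp <;> ring)).toContinuousBilinearMap

@[simp] theorem crL_apply (a b : E3) : crL a b = cr a b := rfl

theorem cr_deriv {a b : ℝ → E3} {a' b' : E3} {t : ℝ} (ha : HasDerivAt a a' t)
    (hb : HasDerivAt b b' t) :
    HasDerivAt (fun s => cr (a s) (b s)) (cr (a t) b' + cr a' (b t)) t := by
  have h := crL.hasDerivAt_of_bilinear (fun _ => ha) (fun _ => hb)
  simpa using! h

theorem cr_add_left (a b c : E3) : cr (a + b) c = cr a c + cr b c := by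
  apply ext3 <;> simp <;> ring

theorem cr_add_right (a b c : E3) : cr a (b + c) = cr a b + cr a c := by
  apply ext3 <;> simp <;> ring

theorem cr_smul_left (r : ℝ) (a b : E3) : cr (r • a) b = r • cr a b := by
  apply ext3 <;> simp <;> ring

theorem cr_smul_right (r : ℝ) (a b : E3) : cr a (r • b) = r • cr a b := by
  apply ext3 <;> simp <;> ring

theorem cr_neg_left (a b : E3) : cr (-a) b = -cr a b := by
  apply ext3 <;> simp <;> ring

theorem cr_neg_right (a b : E3) : cr a (-b) = -cr a b := by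
  apply ext3 <;> simp <;> ring

theorem cr_swap (a b : E3) : cr a b = -cr b a := by
  apply ext3 <;> simp <;> ring

@[simp] theorem cr_self (a : E3) : cr a a = 0 := by
  apply ext3 <;> simp <;> ring

theorem ip_cr_left (a b : E3) : inner ℝ a (cr a b) = 0 := by
  rw [ip]; simp only [cr_0, cr_1, cr_2]; ring

theorem ip_cr_right (a b : E3) : inner ℝ b (cr a b) = 0 := by
  rw [ip]; simp only [cr_0, cr_1, cr_2]; ring

/-- cyclic symmetry of the triple product -/
theorem triple (a b c : E3) : inner ℝ a (cr b c) = inner ℝ b (cr c a) := by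
  rw [ip, ip]; simp only [cr_0, cr_1, cr_2]; ring

theorem cr_cr (a b c : E3) : cr a (cr b c) = inner ℝ a c • b - inner ℝ a b • c := by
  apply ext3 <;> simp only [cr_0, cr_1, cr_2, ip, PiLp.sub_apply, PiLp.smul_apply, smul_eq_mul]
    <;> ring

theorem cr_cr' (a b c : E3) : cr (cr a b) c = inner ℝ a c • b - inner ℝ b c • a := by
  apply ext3 <;> simp only [cr_0, cr_1, cr_2, ip, PiLp.sub_apply, PiLp.smul_apply, smul_eq_mul]
    <;> ring

theorem lagrange (a b : E3) : ‖cr a b‖ ^ 2 = ‖a‖ ^ 2 * ‖b‖ ^ 2 - inner ℝ a b ^ 2 := by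
  rw [nsq, nsq, nsq, ip]; simp only [cr_0, cr_1, cr_2]; ring

theorem ip_cr_cr (a b c d : E3) : inner ℝ (cr a b) (cr c d)
    = inner ℝ a c * inner ℝ b d - inner ℝ a d * inner ℝ b c := by
  simp only [ip, cr_0, cr_1, cr_2]; ring

theorem norm_cr_of_orth {a b : E3} (h : inner ℝ a b = 0) : ‖cr a b‖ = ‖a‖ * ‖b‖ := by
  have h1 := lagrange a b
  rw [h] at h1
  have h2 : ‖cr a b‖ ^ 2 = (‖a‖ * ‖b‖) ^ 2 := by rw [h1]; ring
  exact (sq_eq_sq₀ (norm_nonneg _) (by positivity)).1 h2

theorem norm_cr_le (a b : E3) : ‖cr a b‖ ≤ ‖a‖ * ‖b‖ := by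
  have h1 := lagrange a b
  have h2 : ‖cr a b‖ ^ 2 ≤ (‖a‖ * ‖b‖) ^ 2 := by
    rw [h1, mul_pow]
    nlinarith [sq_nonneg (inner ℝ a b)]
  exact (sq_le_sq₀ (norm_nonneg _) (by positivity)).1 h2

/-- `Aᵀa × b + a × Aᵀb = (tr A) a × b - A (a × b)` -/
theorem adj_cr (A : Op) (a b : E3) : cr (adjoint A a) b + cr a (adjoint A b)
    = (LinearMap.trace ℝ E3 A.toLinearMap) • cr a b - A (cr a b) := by
  rw [tr3]
  apply ext3 <;>
  simp only [PiLp.add_apply, PiLp.sub_apply, PiLp.smul_apply, smul_eq_mul, cr_0, cr_1, cr_2, adj,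
    op A (cr a b)] <;> ring

/-- `Aa × b + a × Ab = (tr A) a × b - Aᵀ (a × b)` -/
theorem op_cr (A : Op) (a b : E3) : cr (A a) b + cr a (A b)
    = (LinearMap.trace ℝ E3 A.toLinearMap) • cr a b - adjoint A (cr a b) := by
  rw [tr3]
  apply ext3 <;>
  simp only [PiLp.add_apply, PiLp.sub_apply, PiLp.smul_apply, smul_eq_mul, cr_0, cr_1, cr_2, adj,
    op A a, op A b] <;> ring

/-- `(A - Aᵀ) x = curl A × x` -/
theorem axial_cr (A : Op) (x : E3) : A x - adjoint A x = cr (axial A) x := by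
  apply ext3 <;>
  simp only [PiLp.sub_apply, cr_0, cr_1, cr_2, adj, op A x, axial] <;> simp <;> ring

theorem axial_add (A B : Op) : axial (A + B) = axial A + axial B := by
  apply ext3 <;> simp [axial] <;> ring

theorem axial_smul (r : ℝ) (A : Op) : axial (r • A) = r • axial A := by
  apply ext3 <;> simp [axial] <;> ring

theorem ro_apply (v k x : E3) : ro v k x = inner ℝ k x • v := by
  simp [ro]

/-- the vorticity of `v ⊗ k` is `k × v` -/
theorem axial_ro (v k : E3) : axial (ro v k) = cr k v := by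
  apply ext3 <;> simp [axial, ro_apply, ip, e]

theorem adj_ro (v k x : E3) : adjoint (ro v k) x = inner ℝ v x • k := by
  apply ext3 <;>
  simp only [adj, ro_apply, ip, PiLp.smul_apply, smul_eq_mul] <;> simp [e] <;> ring

theorem tr_ro (v k : E3) : LinearMap.trace ℝ E3 (ro v k).toLinearMap = inner ℝ v k := by
  rw [tr3]
  simp only [ro_apply, ip, PiLp.smul_apply, smul_eq_mul]
  simp [e]
  ring

end Pool.Agent.Work.MP_b0497c_an.Unf.O
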