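import Pool.Agent.Work.MP_b0497c_an.Unf.LDefs
import Pool.Agent.Work.MP_b0497c_an.Unf.Cross

set_option autoImplicit false
set_option linter.dupNamespace false

/-!
# Block L (labels): statements of the items L00 .. L31

Convention: prove `theorem lXX (hyps : earlier items) : LXX` in the file `Unf/LXX.lean`
(namespace `..Unf.L`).  Proofs of all items: `Unforced/LLEAN.md`.
-/

open scoped ENNReal
open Set MeasureTheory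

namespace Pool.Agent.Work.MP_b0497c_an.Unf.L

open W S

/-- L00: the solution of the step (from S24, S25, S28, S29, S30, S31). -/
def L00 : Prop := ∀ (D : Dat) (ρ : ℕ → ℝ → ℝ) (Str : ℝ → ℝ) (w0 : Md → C3), D.Hyp →
  Wts D ρ Str → Seed D w0 → A.OddV w0 →
  (∀ t ∈ Icc 0 D.T, A.EvenM (D.F D.n t) ∧ A.EvenM (D.Fi D.n t) ∧ A.EvenM (D.M D.n t)) →
  ∃ w, WIn D w0 w

/-! ### Exponentials -/

/-- L01: norm of the exponential (the sup over `t` inside the sum), continuity, support. -/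
def L01 : Prop := ∀ (T c B : ℝ) (φ : ℝ → Md → ℂ), 0 < T → 0 ≤ c → 0 ≤ B →
  Nrm T c 0 Dat.one' φ ≤ ENNReal.ofReal B →
  Nrm T c 0 Dat.one' (fun t => expC (φ t)) ≤ ENNReal.ofReal (Real.exp B) ∧
  (CM T φ → CM T (fun t => expC (φ t))) ∧
  (∀ n, SuppT T (lev n : Set Md) φ → SuppT T (lev n : Set Md) (fun t => expC (φ t)))

/-- L02: difference of exponentials in a weight. -/
def L02 : Prop := ∀ (T c B δ : ℝ) (σ : ℝ → ℝ) (φ ψ : ℝ → Md → ℂ), 0 < T → 0 ≤ c → 0 ≤ B → 0 ≤ δ →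
  Wt T σ → Nrm T c 0 Dat.one' φ ≤ ENNReal.ofReal B → Nrm T c 0 Dat.one' ψ ≤ ENNReal.ofReal B →
  Nrm T c 0 σ (fun t => φ t - ψ t) ≤ ENNReal.ofReal δ →
  Nrm T c 0 σ (fun t => expC (φ t) - expC (ψ t)) ≤ ENNReal.ofReal (δ * Real.exp B)

/-- L03: static norm, evaluation, support and reflections of the exponential. -/
def L03 : Prop :=
  (∀ (c B : ℝ) (φ : Md → ℂ), 0 ≤ c → 0 ≤ B → sN c φ ≤ ENNReal.ofReal B →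
    sN c (expC φ) ≤ ENNReal.ofReal (Real.exp B)) ∧
  (∀ (n : ℕ) (φ : Md → ℂ), SuppIn (lev n : Set Md) φ → SuppIn (lev n : Set Md) (expC φ)) ∧
  (∀ (φ : Md → ℂ), sN 0 φ ≠ ∞ → ∀ θ : Md →+ ℝ, ev θ (expC φ) = Complex.exp (ev θ φ)) ∧
  expC (0 : Md → ℂ) = cst 1 ∧
  (∀ (φ : Md → ℂ) (q : Md), expC (fun r => φ (-r)) q = expC φ (-q)) ∧
  (∀ (φ : Md → ℂ) (q : Md),
    expC (fun r => starRingEnd ℂ (φ (-r))) q = starRingEnd ℂ (expC φ (-q)))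

/-- L04: the displacement of a phase. -/
def L04 : Prop :=
  (∀ (n : ℕ) (T c B : ℝ) (σ : ℝ → ℝ) (x : ℝ → ℕ → Md → ℂ) (q : Md), 0 < T → 0 ≤ B → Wt T σ →
    q ∈ lev n → (∀ i ≤ n, Nrm T c 0 σ (fun t => x t i) ≤ ENNReal.ofReal B) →
    Nrm T c 0 σ (fun t => phF (x t) q) ≤ ENNReal.ofReal (B * len q)) ∧
  (∀ (n : ℕ) (c B : ℝ) (x : ℕ → Md → ℂ) (q : Md), 0 ≤ B →
    q ∈ lev n → (∀ i ≤ n, sN c (x i) ≤ ENNReal.ofReal B) →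
    sN c (phF x q) ≤ ENNReal.ofReal (B * len q)) ∧
  (∀ (K : ℕ → Fin 3 → ℤ) (ζ : Md → C3) (q p : Md),
    phF (lab K ζ) q p = innerSL ℂ (xi K q) (ζ p)) ∧
  (∀ (x : ℕ → Md → ℂ) (q q' p : Md), phF x (q + q') p = phF x q p + phF x q' p) ∧
  (∀ (n : ℕ) (x : ℕ → Md → ℂ) (θ : Md →+ ℝ) (q : Md), q ∈ lev n → (∀ i ≤ n, sN 0 (x i) ≠ ∞) →
    ev θ (phF x q) = q.sum fun i z => (z : ℂ) * ev θ (x i))

/-! ### Composition -/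

/-- L05: norm, continuity and support of `f (θ + x (θ))`. -/
def L05 : Prop := ∀ (E : Type) [NormedAddCommGroup E] [NormedSpace ℂ E] [CompleteSpace E] (n : ℕ)
  (T c c1 B : ℝ) (ρ : ℝ → ℝ) (x : ℝ → ℕ → Md → ℂ) (f : ℝ → Md → E), 0 < T → 0 ≤ c1 → 0 ≤ B →
  c1 + B ≤ c → Wt T ρ → SuppT T (lev n : Set Md) f →
  (∀ i ≤ n, Nrm T c1 0 Dat.one' (fun t => x t i) ≤ ENNReal.ofReal B) →
  Nrm T c1 0 ρ (fun t => comp (x t) (f t)) ≤ Nrm T c 0 ρ f ∧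
  (CM T f → (∀ i ≤ n, CM T (fun t => x t i)) → Nrm T c 0 ρ f ≠ ∞ →
    CM T (fun t => comp (x t) (f t))) ∧
  ((∀ i ≤ n, SuppT T (lev n : Set Md) (fun t => x t i)) →
    SuppT T (lev n : Set Md) (fun t => comp (x t) (f t)))

/-- L06: difference of two compositions (a second weight `σ` for the displacements). -/
def L06 : Prop := ∀ (E : Type) [NormedAddCommGroup E] [NormedSpace ℂ E] [CompleteSpace E] (n : ℕ)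
  (T c c1 B δ : ℝ) (ρ σ : ℝ → ℝ) (x y : ℝ → ℕ → Md → ℂ) (f : ℝ → Md → E), 0 < T → 0 ≤ c1 →
  0 ≤ B → 0 ≤ δ → c1 + B < c → Wt T ρ → Wt T σ → SuppT T (lev n : Set Md) f →
  Nrm T c 0 ρ f ≠ ∞ →
  (∀ i ≤ n, Nrm T c1 0 Dat.one' (fun t => x t i) ≤ ENNReal.ofReal B) →
  (∀ i ≤ n, Nrm T c1 0 Dat.one' (fun t => y t i) ≤ ENNReal.ofReal B) →
  (∀ i ≤ n, Nrm T c1 0 σ (fun t => x t i - y t i) ≤ ENNReal.ofReal δ) →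
  Nrm T c1 0 (fun t => σ t * ρ t) (fun t => comp (x t) (f t) - comp (y t) (f t)) ≤
    ENNReal.ofReal (δ / (c - c1 - B)) * Nrm T c 0 ρ f

/-- L07: evaluation of a composition (real displacements). -/
def L07 : Prop := ∀ (E : Type) [NormedAddCommGroup E] [NormedSpace ℂ E] [CompleteSpace E] (n : ℕ)
  (c c1 B : ℝ) (x : ℕ → Md → ℂ) (f : Md → E), XH n c1 B x → c1 + B ≤ c →
  SuppIn (lev n : Set Md) f → sN c f ≠ ∞ →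
  sN c1 (comp x f) ≤ sN c f ∧ SuppIn (lev n : Set Md) (comp x f) ∧
  ∀ θ : Md →+ ℝ, ev θ (comp x f) = ev (sh θ x) f

/-- L08: functions of level `n` are determined by their values at the real labels; time derivatives
of the coefficients and of the values. -/
def L08 : Prop :=
  (∀ (E : Type) [NormedAddCommGroup E] [NormedSpace ℂ E] [CompleteSpace E] (n : ℕ)
    (f g : Md → E), SuppIn (lev n : Set Md) f → SuppIn (lev n : Set Md) g → sN 0 f ≠ ∞ →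
    sN 0 g ≠ ∞ → (∀ θ : Md →+ ℝ, ev θ f = ev θ g) → f = g) ∧
  (∀ (E : Type) [NormedAddCommGroup E] [NormedSpace ℂ E] [NormedSpace ℝ E] [IsScalarTower ℝ ℂ E]
    [CompleteSpace E] (n : ℕ) (T : ℝ) (f f' : ℝ → Md → E), 0 < T → Fn n T 0 f → Fn n T 0 f' →
    ((∀ q, ∀ t ∈ Icc 0 T, HasDerivWithinAt (fun t => f t q) (f' t q) (Icc 0 T) t) ↔
      ∀ θ : Md →+ ℝ, ∀ t ∈ Icc 0 T,
        HasDerivWithinAt (fun t => ev θ (f t)) (ev θ (f' t)) (Icc 0 T) t))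

/-- L09: reality and parity in terms of the values. -/
def L09 : Prop :=
  (∀ (n : ℕ) (f : Md → ℂ), SuppIn (lev n : Set Md) f → sN 0 f ≠ ∞ →
    (RealS f ↔ ∀ θ : Md →+ ℝ, starRingEnd ℂ (ev θ f) = ev θ f)) ∧
  (∀ (n : ℕ) (f : Md → C3), SuppIn (lev n : Set Md) f → sN 0 f ≠ ∞ →
    (RealV f ↔ ∀ θ : Md →+ ℝ, cjv (ev θ f) = ev θ f)) ∧
  (∀ (n : ℕ) (f : Md → Mat), SuppIn (lev n : Set Md) f → sN 0 f ≠ ∞ →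
    (RealM f ↔ ∀ (θ : Md →+ ℝ) (v : C3), ev θ f (cjv v) = cjv (ev θ f v))) ∧
  (∀ (E : Type) [NormedAddCommGroup E] [NormedSpace ℂ E] [CompleteSpace E] (n : ℕ) (f : Md → E),
    SuppIn (lev n : Set Md) f → sN 0 f ≠ ∞ →
    (OddF f ↔ ∀ θ : Md →+ ℝ, ev (-θ) f = - ev θ f) ∧
    (EvenF f ↔ ∀ θ : Md →+ ℝ, ev (-θ) f = ev θ f))

/-- L10: algebra of compositions (fixed time). -/
def L10 : Prop := (∀ (E : Type) [NormedAddCommGroup E] [NormedSpace ℂ E] (f : Md → E),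
    comp (fun _ => (0 : Md → ℂ)) f = f) ∧
  ∀ (n : ℕ) (c c1 B : ℝ) (x : ℕ → Md → ℂ), XH n c1 B x → c1 + B ≤ c →
  (∀ (E F : Type) [NormedAddCommGroup E] [NormedSpace ℂ E] [CompleteSpace E]
    [NormedAddCommGroup F] [NormedSpace ℂ F] [CompleteSpace F] (a : Md → (E →L[ℂ] F)) (f : Md → E),
    SuppIn (lev n : Set Md) a → SuppIn (lev n : Set Md) f → sN c a ≠ ∞ → sN c f ≠ ∞ →
    comp x (mul a f) = mul (comp x a) (comp x f)) ∧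
  (∀ (E F G : Type) [NormedAddCommGroup E] [NormedSpace ℂ E] [CompleteSpace E]
    [NormedAddCommGroup F] [NormedSpace ℂ F] [CompleteSpace F] [NormedAddCommGroup G]
    [NormedSpace ℂ G] [CompleteSpace G] (a : Md → (F →L[ℂ] G)) (b : Md → (E →L[ℂ] F)),
    SuppIn (lev n : Set Md) a → SuppIn (lev n : Set Md) b → sN c a ≠ ∞ → sN c b ≠ ∞ →
    comp x (mm a b) = mm (comp x a) (comp x b)) ∧
  (∀ (E : Type) [NormedAddCommGroup E] [NormedSpace ℂ E] [CompleteSpace E] (f g : Md → E),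
    SuppIn (lev n : Set Md) f → SuppIn (lev n : Set Md) g → sN c f ≠ ∞ → sN c g ≠ ∞ →
    comp x (f + g) = comp x f + comp x g ∧ comp x (-f) = - comp x f) ∧
  (∀ (E F : Type) [NormedAddCommGroup E] [NormedSpace ℂ E] [CompleteSpace E]
    [NormedAddCommGroup F] [NormedSpace ℂ F] [CompleteSpace F] (L : E →L[ℂ] F) (f : Md → E),
    SuppIn (lev n : Set Md) f → sN c f ≠ ∞ → comp x (fun q => L (f q)) = fun q => L (comp x f q)) ∧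
  (∀ (a : Md → Mat), SuppIn (lev n : Set Md) a → sN c a ≠ ∞ →
    comp x (adjC a) = adjC (comp x a) ∧
    ((∀ i ≤ n, OddF (x i)) → A.EvenM a → A.EvenM (comp x a))) ∧
  (∀ (f : Md → C3), SuppIn (lev n : Set Md) f → sN c f ≠ ∞ →
    (∀ i ≤ n, OddF (x i)) → A.OddV f → A.OddV (comp x f)) ∧
  (∀ (f : Md → ℂ), SuppIn (lev n : Set Md) f → sN c f ≠ ∞ →
    (∀ i ≤ n, OddF (x i)) → A.EvenS f → A.EvenS (comp x f)) ∧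
  comp x oneM = oneM

/-- L11: the chain rule for the gradient. -/
def L11 : Prop := ∀ (n : ℕ) (K : ℕ → Fin 3 → ℤ) (c c1 B : ℝ) (ζ : Md → C3), 0 < c1 →
  c1 + B < c → SuppIn (lev n : Set Md) ζ → sN c1 ζ ≠ ∞ → RealV ζ → XH n c1 B (lab K ζ) →
  (∀ (f : Md → C3), SuppIn (lev n : Set Md) f → sN c f ≠ ∞ →
    gradV K (comp (lab K ζ) f) = mm (comp (lab K ζ) (gradV K f)) (oneM + gradV K ζ)) ∧
  (∀ (r : Md → ℂ), SuppIn (lev n : Set Md) r → sN c r ≠ ∞ →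
    gradS K (comp (lab K ζ) r) = mul (adjC (oneM + gradV K ζ)) (comp (lab K ζ) (gradS K r)))

/-- L12: the chain rule in time. -/
def L12 : Prop := ∀ (n : ℕ) (K : ℕ → Fin 3 → ℤ) (T c c1 B : ℝ) (ζ ζ' f f' : ℝ → Md → C3),
  0 < T → 0 < c1 → 0 ≤ B → c1 + B < c → Fn n T c1 ζ → Fn n T c1 ζ' → Fn n T c f → Fn n T c f' →
  (∀ t ∈ Icc 0 T, RealV (ζ t)) →
  (∀ i ≤ n, Nrm T c1 0 Dat.one' (fun t => lab K (ζ t) i) ≤ ENNReal.ofReal B) →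
  (∀ q, ∀ t ∈ Icc 0 T, HasDerivWithinAt (fun t => ζ t q) (ζ' t q) (Icc 0 T) t) →
  (∀ q, ∀ t ∈ Icc 0 T, HasDerivWithinAt (fun t => f t q) (f' t q) (Icc 0 T) t) →
  ∀ q, ∀ t ∈ Icc 0 T, HasDerivWithinAt (fun t => comp (lab K (ζ t)) (f t) q)
    (comp (lab K (ζ t)) (f' t) q + mul (comp (lab K (ζ t)) (gradV K (f t))) (ζ' t) q) (Icc 0 T) t

/-! ### The new labels -/

/-- L13: the equation `ζ' = V ∘ M`. -/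
def L13 : Prop := ∀ (n : ℕ) (K : ℕ → Fin 3 → ℤ) (T c c1 B : ℝ) (V : ℝ → Md → C3), 0 < T → T ≤ 1 →
  0 ≤ c1 → 0 ≤ B → c1 + 3 * B < c → Fn n T c V → (∀ t ∈ Icc 0 T, A.OddV (V t)) →
  Nrm T c 0 Dat.one' (fun t q => (fun i : Fin (n + 1) => lab K (V t) i q)) ≤ ENNReal.ofReal B →
  ∃ ζ : ℝ → Md → C3, CM T ζ ∧ SuppT T (lev n : Set Md) ζ ∧ (∀ t ∈ Icc 0 T, A.OddV (ζ t)) ∧
    ζ 0 = 0 ∧
    (∀ q, ∀ t ∈ Icc 0 T, HasDerivWithinAt (fun t => ζ t q) (comp (lab K (ζ t)) (V t) q)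
      (Icc 0 T) t) ∧
    (∀ i ≤ n, Nrm T c1 0 Dat.one' (fun t => lab K (ζ t) i) ≤ ENNReal.ofReal B) ∧
    ∀ α : ℝ → ℝ, Wt T α → Nrm T c1 0 α ζ ≤ Nrm T c 0 α V ∧
      ∀ i ≤ n, Nrm T c1 0 α (fun t => lab K (ζ t) i) ≤ Nrm T c 0 α (fun t => lab K (V t) i)

/-- L14: inverse of a small perturbation of an invertible matrix function. -/
def L14 : Prop := ∀ (n : ℕ) (T c b δ : ℝ) (P Q R : ℝ → Md → Mat), 0 < T → 0 ≤ c → 1 ≤ b → 0 ≤ δ →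
  b * δ ≤ 1 / 2 → Fn n T c P → Fn n T c Q → Fn n T c R →
  Nrm T c 0 Dat.one' Q ≤ ENNReal.ofReal b → Nrm T c 0 Dat.one' R ≤ ENNReal.ofReal δ →
  (∀ t ∈ Icc 0 T, mm (Q t) (P t) = oneM ∧ mm (P t) (Q t) = oneM) →
  ∃ Y : ℝ → Md → Mat, CM T Y ∧ SuppT T (lev n : Set Md) Y ∧
    Nrm T c 0 Dat.one' Y ≤ ENNReal.ofReal (2 * b) ∧
    (∀ t ∈ Icc 0 T, mm (Y t) (P t + R t) = oneM ∧ mm (P t + R t) (Y t) = oneM) ∧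
    (∀ α : ℝ → ℝ, Wt T α → Nrm T c 0 α (fun t => Y t - Q t) ≤
      ENNReal.ofReal (2 * b ^ 2) * Nrm T c 0 α R) ∧
    ((∀ t ∈ Icc 0 T, A.EvenM (P t) ∧ A.EvenM (R t)) → ∀ t ∈ Icc 0 T, A.EvenM (Y t))

/-- L15: derivatives cost a part of the radius. -/
def L15 : Prop := ∀ (E : Type) [NormedAddCommGroup E] [NormedSpace ℂ E] (T c c1 : ℝ) (ρ : ℝ → ℝ)
  (f : ℝ → Md → E), 0 < T → c1 < c → Wt T ρ →
  (∀ (F : Type) [NormedAddCommGroup F] [NormedSpace ℂ F] (g : ℝ → Md → F) (B : ℝ), 0 ≤ B →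
    (∀ t ∈ Icc 0 T, ∀ q, ‖g t q‖ ≤ B * len q * ‖f t q‖) →
    Nrm T c1 0 ρ g ≤ ENNReal.ofReal (B / (c - c1)) * Nrm T c 0 ρ f) ∧
  (∀ j, Nrm T c1 0 ρ (fun t => dj j (f t)) ≤ ENNReal.ofReal (1 / (c - c1)) * Nrm T c 0 ρ f)

/-- L15b: the gradient. -/
def L15b : Prop := ∀ (n : ℕ) (K : ℕ → Fin 3 → ℤ) (T c c1 B : ℝ) (ρ : ℝ → ℝ), 0 < T → c1 < c →
  Wt T ρ → 0 ≤ B → (∀ i ≤ n, ‖kv (K i)‖ ≤ B) →
  (∀ f : ℝ → Md → C3, SuppT T (lev n : Set Md) f →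
    Nrm T c1 0 ρ (fun t => gradV K (f t)) ≤ ENNReal.ofReal (B / (c - c1)) * Nrm T c 0 ρ f ∧
    SuppT T (lev n : Set Md) (fun t => gradV K (f t)) ∧
    (CM T f → CM T (fun t => gradV K (f t))) ∧
    ((∀ t ∈ Icc 0 T, A.OddV (f t)) → ∀ t ∈ Icc 0 T, A.EvenM (gradV K (f t)))) ∧
  (∀ r : ℝ → Md → ℂ, SuppT T (lev n : Set Md) r →
    Nrm T c1 0 ρ (fun t => gradS K (r t)) ≤ ENNReal.ofReal (B / (c - c1)) * Nrm T c 0 ρ r ∧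
    SuppT T (lev n : Set Md) (fun t => gradS K (r t)) ∧
    (CM T r → CM T (fun t => gradS K (r t))) ∧
    ((∀ t ∈ Icc 0 T, A.EvenS (r t)) → ∀ t ∈ Icc 0 T, A.OddV (gradS K (r t))))

/-- L16: the pressure of the step. -/
def L16 : Prop := ∀ (D : Dat) (X U a : ℝ → Md → C3) (p : ℝ → Md → ℂ) (w0 : Md → C3)
  (w : ℝ → Md → C3), D.Hyp → Lv D X U a p → WIn D w0 w → ∃ s, PrD D w s

/-- L17: determinants and traces. -/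
def L17 : Prop :=
  (∀ (T : ℝ) (P H : ℝ → Mat), (∀ t ∈ Icc 0 T,
      HasDerivWithinAt P ((H t).comp (P t)) (Icc 0 T) t) →
    ∀ t ∈ Icc 0 T, HasDerivWithinAt (fun t => detM (P t)) (trM (H t) * detM (P t)) (Icc 0 T) t) ∧
  (∀ (T : ℝ) (P H : ℝ → Mat), 0 < T → P 0 = ContinuousLinearMap.id ℂ C3 → (∀ t ∈ Icc 0 T,
      HasDerivWithinAt P ((H t).comp (P t)) (Icc 0 T) t) →
    ((∀ t ∈ Icc 0 T, detM (P t) = 1) ↔ ∀ t ∈ Icc 0 T, trM (H t) = 0)) ∧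
  (∀ (θ : Md →+ ℝ) (a : Md → Mat), sN 0 a ≠ ∞ → trM (ev θ a) = ev θ (fun q => trM (a q))) ∧
  (∀ (K : ℕ → Fin 3 → ℤ) (f : Md → C3) (q : Md),
    trM (gradV K f q) = Complex.I * inner ℂ (xi K q) (f q))

/-- L18: the determinants of `F_n` and of the new label map. -/
def L18 : Prop := ∀ (D : Dat) (X U a : ℝ → Md → C3) (p : ℝ → Md → ℂ) (w0 : Md → C3)
  (w ζ : ℝ → Md → C3), D.Hyp → Lv D X U a p → WIn D w0 w → LabD D w ζ →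
  ∀ t ∈ Icc 0 D.T, ∀ θ : Md →+ ℝ, detM (ev θ (D.F D.n t)) = 1 ∧ detM (ev θ (Lm D ζ t)) = 1

/-- L19: time derivative of an inverse. -/
def L19 : Prop := ∀ (n : ℕ) (T : ℝ) (F Fi M : ℝ → Md → Mat), 0 < T → Fn n T 0 F → Fn n T 0 Fi →
  Fn n T 0 M → (∀ t ∈ Icc 0 T, mm (Fi t) (F t) = oneM ∧ mm (F t) (Fi t) = oneM) →
  (∀ q, ∀ t ∈ Icc 0 T, HasDerivWithinAt (fun t => F t q) (mm (M t) (F t) q) (Icc 0 T) t) →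
  ∀ q, ∀ t ∈ Icc 0 T, HasDerivWithinAt (fun t => Fi t q) (-(mm (Fi t) (M t) q)) (Icc 0 T) t

/-! ### The new level data -/

/-- L20: the label map of the step. -/
def L20 : Prop := ∀ (D : Dat) (X U a : ℝ → Md → C3) (p : ℝ → Md → ℂ) (w0 : Md → C3)
  (w : ℝ → Md → C3), D.Hyp → Lv D X U a p → WIn D w0 w →
  (CM D.T (VV D w) ∧ SuppT D.T (lev (D.n + 1) : Set Md) (VV D w) ∧
    (∀ t ∈ Icc 0 D.T, A.OddV (VV D w t)) ∧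
    Nrm D.T (D.c / 2) 0 (α1 D) (VV D w) ≤ ENNReal.ofReal (D.G ^ 5 / N1 D) ∧
    Nrm D.T (D.c / 2) 0 (α1 D) (fun t q => (fun i : Fin (D.n + 1 + 1) =>
      lab D.K (VV D w t) i q)) ≤ ENNReal.ofReal (2 * u1 D ^ 120)) ∧
  ∃ ζ, LabD D w ζ

/-- L21: `1 + grad ζ`, `z` and the inverse of `1 + grad ζ`. -/
def L21 : Prop := ∀ (D : Dat) (X U a : ℝ → Md → C3) (p : ℝ → Md → ℂ) (w0 : Md → C3)
  (w ζ : ℝ → Md → C3), D.Hyp → Lv D X U a p → WIn D w0 w → LabD D w ζ →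
  (CM D.T (Lm D ζ) ∧ SuppT D.T (lev (D.n + 1) : Set Md) (Lm D ζ) ∧
    (∀ t ∈ Icc 0 D.T, A.EvenM (Lm D ζ t)) ∧
    Nrm D.T (D.c / 8) 0 Dat.one' (Lm D ζ) ≤ ENNReal.ofReal (D.G ^ 10)) ∧
  (CM D.T (z1 D ζ) ∧ SuppT D.T (Cl (D.n + 1)) (z1 D ζ) ∧ (∀ t ∈ Icc 0 D.T, RealV (z1 D ζ t)) ∧
    (∀ t ∈ Icc 0 D.T, ∀ q, inner ℂ (K1 D) (z1 D ζ t q) = 0) ∧
    Nrm D.T (D.c / 8) 0 (α1 D) (z1 D ζ) ≤ ENNReal.ofReal (D.G ^ 8 / N1 D)) ∧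
  Nrm D.T (D.c / 8) 0 (α1 D) (fun t => Lm D ζ t - shP (z1 D ζ t) (K1 D)) ≤
    ENNReal.ofReal (D.G ^ 5 * u1 D ^ 120) ∧
  ∃ Li, LiD D ζ Li

/-- L22: the table for `F_{n+1}`. -/
def L22 : Prop := ∀ (D : Dat) (X U a : ℝ → Md → C3) (p : ℝ → Md → ℂ) (w0 : Md → C3)
  (w ζ : ℝ → Md → C3) (Li : ℝ → Md → Mat), D.Hyp → Lv D X U a p → WIn D w0 w → LabD D w ζ →
  LiD D ζ Li →
  (CM D.T (F1 D ζ) ∧ SuppT D.T (lev (D.n + 1) : Set Md) (F1 D ζ) ∧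
    (∀ t ∈ Icc 0 D.T, A.EvenM (F1 D ζ t)) ∧
    Nrm D.T (D.c / 8) 0 Dat.one' (F1 D ζ) ≤ ENNReal.ofReal (D.G ^ 20)) ∧
  (CM D.T (Fi1 D ζ Li) ∧ SuppT D.T (lev (D.n + 1) : Set Md) (Fi1 D ζ Li) ∧
    (∀ t ∈ Icc 0 D.T, A.EvenM (Fi1 D ζ Li t)) ∧
    Nrm D.T (D.c / 8) 0 Dat.one' (Fi1 D ζ Li) ≤ ENNReal.ofReal (D.G ^ 20)) ∧
  Nrm D.T (D.c / 8) 0 (α1 D) (fun t => F1 D ζ t -
    mm (D.F D.n t) (shP (z1 D ζ t) (K1 D))) ≤ ENNReal.ofReal (u1 D ^ 32) ∧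
  Nrm D.T (D.c / 8) 0 (α1 D) (fun t => Fi1 D ζ Li t -
    mm (shM (z1 D ζ t) (K1 D)) (D.Fi D.n t)) ≤ ENNReal.ofReal (u1 D ^ 32)

/-- L23: the table for `M_{n+1}` and `a_{n+1}`. -/
def L23 : Prop := ∀ (D : Dat) (X U a : ℝ → Md → C3) (p : ℝ → Md → ℂ) (w0 : Md → C3)
  (w ζ : ℝ → Md → C3), D.Hyp → Lv D X U a p → WIn D w0 w → LabD D w ζ →
  (CM D.T (M1 D w ζ) ∧ SuppT D.T (lev (D.n + 1) : Set Md) (M1 D w ζ) ∧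
    (∀ t ∈ Icc 0 D.T, A.EvenM (M1 D w ζ t)) ∧
    Nrm D.T (D.c / 8) 0 Dat.one' (M1 D w ζ) ≤ ENNReal.ofReal (D.G ^ 20)) ∧
  Nrm D.T (D.c / 8) 0 (α1 D) (fun t => M1 D w ζ t - D.M D.n t -
    mm (tsF (a1 D w0 t)) (rwF (K1 D) (D.Fi D.n t))) ≤ ENNReal.ofReal (u1 D ^ 32)

/-- L24: the table for `a_{n+1}`. -/
def L24 : Prop := ∀ (D : Dat) (w0 : Md → C3) (w : ℝ → Md → C3), D.Hyp → WIn D w0 w →
  CM D.T (a1 D w0) ∧ SuppT D.T (Cl (D.n + 1)) (a1 D w0) ∧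
  (∀ t ∈ Icc 0 D.T, RealV (a1 D w0 t)) ∧
  Nrm D.T (D.c / 8) 0 (α1 D) (a1 D w0) ≤ ENNReal.ofReal (D.G ^ 20 / N1 D) ∧
  Nrm D.T (D.c / 8) 0 (α1 D) (fun t => mul (rwF (K1 D) (D.Fi D.n t)) (a1 D w0 t)) ≤
    ENNReal.ofReal (u1 D ^ 32)

/-- L25: the kinematic identities of the new level. -/
def L25 : Prop := ∀ (D : Dat) (X U a : ℝ → Md → C3) (p : ℝ → Md → ℂ) (w0 : Md → C3)
  (w ζ : ℝ → Md → C3) (Li : ℝ → Md → Mat), D.Hyp → Lv D X U a p → WIn D w0 w → LabD D w ζ →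
  LiD D ζ Li →
  (Fn (D.n + 1) D.T (D.c / 8) (X1 D X ζ) ∧ Fn (D.n + 1) D.T (D.c / 8) (U1 D U w ζ) ∧
    (∀ t ∈ Icc 0 D.T, A.OddV (X1 D X ζ t) ∧ A.OddV (U1 D U w ζ t))) ∧
  (∀ t ∈ Icc 0 D.T, F1 D ζ t = oneM + gradV D.K (X1 D X ζ t)) ∧
  (∀ q, ∀ t ∈ Icc 0 D.T, HasDerivWithinAt (fun t => X1 D X ζ t q) (U1 D U w ζ t q)
    (Icc 0 D.T) t) ∧
  (∀ t ∈ Icc 0 D.T, mm (M1 D w ζ t) (F1 D ζ t) = gradV D.K (U1 D U w ζ t)) ∧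
  (∀ t ∈ Icc 0 D.T, mm (Fi1 D ζ Li t) (F1 D ζ t) = oneM ∧
    mm (F1 D ζ t) (Fi1 D ζ Li t) = oneM) ∧
  X1 D X ζ 0 = 0 ∧ U1 D U w ζ 0 = U 0 + w0

/-- L26: the momentum equation of the new level. -/
def L26 : Prop := ∀ (D : Dat) (X U a : ℝ → Md → C3) (p s : ℝ → Md → ℂ) (w0 : Md → C3)
  (w ζ : ℝ → Md → C3) (Li : ℝ → Md → Mat), D.Hyp → Lv D X U a p → WIn D w0 w → LabD D w ζ →
  LiD D ζ Li → PrD D w s →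
  (Fn (D.n + 1) D.T (D.c / 8) (P1 D p s ζ) ∧ Fn (D.n + 1) D.T (D.c / 8) (A1 D p s ζ Li) ∧
    (∀ t ∈ Icc 0 D.T, A.EvenS (P1 D p s ζ t) ∧ A.OddV (A1 D p s ζ Li t))) ∧
  ∀ q, ∀ t ∈ Icc 0 D.T, HasDerivWithinAt (fun t => U1 D U w ζ t q) (A1 D p s ζ Li t q)
    (Icc 0 D.T) t

/-- L27: `Lvl` and `Sht` for a smaller radius, a shorter time, a bigger constant. -/
def L27 : Prop :=
  (∀ (K : ℕ → Fin 3 → ℤ) (T r R T' r' R' : ℝ) (l : ℕ) (X U a : ℝ → Md → C3) (p : ℝ → Md → ℂ)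
    (F Fi M : ℝ → Md → Mat), A.Lvl K T r R l X U a p F Fi M → 0 < T' → T' ≤ T → 0 < r' → r' ≤ r →
    R ≤ R' → 1 ≤ R' * r' → A.Lvl K T' r' R' l X U a p F Fi M) ∧
  (∀ (K : ℕ → Fin 3 → ℤ) (T r R u T' r' R' u' : ℝ) (α : ℝ → ℝ) (j : ℕ)
    (F' Fi' M' F Fi M : ℝ → Md → Mat) (z a : ℝ → Md → C3) (s : ℝ → Md → ℂ)
    (Φ : ℝ → ℝ → Md → Mat) (w : Md → C3), A.Sht K T r R u α j F' Fi' M' F Fi M z a s Φ w →
    0 < T' → T' ≤ T → 0 < r' → r' ≤ r → R ≤ R' → u ≤ u' → u' < 1 →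
    A.Sht K T' r' R' u' α j F' Fi' M' F Fi M z a s Φ w)

/-- L28: the flow at one real label, and the vorticity law `(M - Mᵀ) v = om × v`, `om' = M om`. -/
def L28 : Prop := ∀ (K : ℕ → Fin 3 → ℤ) (T r R : ℝ) (l : ℕ) (X U a : ℝ → Md → C3)
  (p : ℝ → Md → ℂ) (F Fi M : ℝ → Md → Mat), A.Lvl K T r R l X U a p F Fi M → ∀ θ : Md →+ ℝ,
  let ρ : (ℝ → Md → Mat) → ℝ → (E3 →L[ℝ] E3) := fun H t =>
    reC.comp (((ev θ (H t)).restrictScalars ℝ).comp ofC)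
  (∀ t ∈ Icc 0 T, ∀ v, ofC (ρ F t v) = ev θ (F t) (ofC v) ∧
    ofC (ρ Fi t v) = ev θ (Fi t) (ofC v) ∧ ofC (ρ M t v) = ev θ (M t) (ofC v)) ∧
  (∀ t ∈ Icc 0 T, HasDerivWithinAt (ρ F) ((ρ M t).comp (ρ F t)) (Icc 0 T) t) ∧
  ContinuousOn (ρ M) (Icc 0 T) ∧ ContinuousOn (ρ Fi) (Icc 0 T) ∧
  ρ F 0 = ContinuousLinearMap.id ℝ E3 ∧
  (∀ t ∈ Icc 0 T, (ρ F t).comp (ρ Fi t) = ContinuousLinearMap.id ℝ E3 ∧
    (ρ Fi t).comp (ρ F t) = ContinuousLinearMap.id ℝ E3) ∧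
  (∀ t ∈ Icc 0 T, LinearMap.trace ℝ E3 (ρ M t : E3 →ₗ[ℝ] E3) = 0) ∧
  (∀ t ∈ Icc 0 T, LinearMap.det (ρ F t : E3 →ₗ[ℝ] E3) = 1) ∧
  ∃ om : ℝ → E3, (∀ t ∈ Icc 0 T, ∀ v, ρ M t v - ContinuousLinearMap.adjoint (ρ M t) v =
      O.cr (om t) v) ∧
    ∀ t ∈ Icc 0 T, HasDerivWithinAt om (ρ M t (om t)) (Icc 0 T) t

/-- L29: the increment of the velocity gradient is Lipschitz in time at every real label. -/
def L29 : Prop := ∀ (D : Dat) (X U a : ℝ → Md → C3) (p : ℝ → Md → ℂ) (w0 : Md → C3)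
  (w : ℝ → Md → C3), D.Hyp → Lv D X U a p → WIn D w0 w → ∀ θ : Md →+ ℝ,
  (∀ t ∈ Icc 0 D.T, ‖ev θ (gradV D.K (w t))‖ ≤ D.G ^ 10) ∧
  ∀ s ∈ Icc 0 D.T, ∀ t ∈ Icc 0 D.T,
    ‖ev θ (gradV D.K (w t)) - ev θ (gradV D.K (w s))‖ ≤ D.G ^ 24 * |t - s|

/-- L30: THE NEW LEVEL: the records `Lvl` and `Sht` of level `n + 1` at the radius `c / 8` with the
constant `G ^ 20`; the fields at the real label `θ` are given by the point `sg t θ`. -/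
def L30 : Prop := ∀ (D : Dat) (X U a : ℝ → Md → C3) (p : ℝ → Md → ℂ) (w0 : Md → C3)
  (w : ℝ → Md → C3) (u' : ℝ), D.Hyp → Lv D X U a p → WIn D w0 w → 0 < u' → u' < 1 →
  D.u (D.n + 1) ≤ u' ^ 8 →
  ∃ (X' U' a' : ℝ → Md → C3) (p' : ℝ → Md → ℂ) (F' Fi' M' : ℝ → Md → Mat) (z b : ℝ → Md → C3)
    (sg : ℝ → (Md →+ ℝ) → (Md →+ ℝ)),
    A.Lvl D.K D.T (D.c / 8) (D.G ^ 20) (D.n + 1) X' U' a' p' F' Fi' M' ∧
    A.Sht D.K D.T (D.c / 8) (D.G ^ 20) u' (D.α (D.n + 1)) (D.n + 1) (D.F D.n) (D.Fi D.n)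
      (D.M D.n) F' Fi' M' z b (D.s (D.n + 1)) (D.Φ (D.n + 1)) w0 ∧
    U' 0 = U 0 + w0 ∧ (∀ t ∈ Icc 0 D.T, sg t 0 = 0) ∧
    ∀ t ∈ Icc 0 D.T, ∀ θ : Md →+ ℝ,
      (∀ i ≤ D.n + 1, |sg t θ (Finsupp.single i 1) - θ (Finsupp.single i 1)| ≤
        2 * D.G * D.u (D.n + 1) ^ 120) ∧
      ev θ (M' t) = ev (sg t θ) (D.M D.n t) +
        (ev (sg t θ) (gradV D.K (w t))).comp (ev (sg t θ) (D.Fi D.n t)) ∧
      ev θ (U' t) = ev (sg t θ) (U t) + ev (sg t θ) (w t)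

/-- L31: all together, from the seed. -/
def L31 : Prop := ∀ (D : Dat) (ρ : ℕ → ℝ → ℝ) (Str : ℝ → ℝ) (X U a : ℝ → Md → C3)
  (p : ℝ → Md → ℂ) (w0 : Md → C3) (u' r1 R1 : ℝ), D.Hyp → Wts D ρ Str → Seed D w0 → A.OddV w0 →
  Lv D X U a p → 0 < u' → u' < 1 → D.u (D.n + 1) ≤ u' ^ 8 → 0 < r1 → r1 ≤ D.c / 8 →
  D.G ^ 20 ≤ R1 → 1 ≤ R1 * r1 →
  ∃ (w X' U' a' : ℝ → Md → C3) (p' : ℝ → Md → ℂ) (F' Fi' M' : ℝ → Md → Mat) (z b : ℝ → Md → C3)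
    (sg : ℝ → (Md →+ ℝ) → (Md →+ ℝ)), WIn D w0 w ∧
    A.Lvl D.K D.T r1 R1 (D.n + 1) X' U' a' p' F' Fi' M' ∧
    A.Sht D.K D.T r1 R1 u' (D.α (D.n + 1)) (D.n + 1) (D.F D.n) (D.Fi D.n)
      (D.M D.n) F' Fi' M' z b (D.s (D.n + 1)) (D.Φ (D.n + 1)) w0 ∧
    U' 0 = U 0 + w0 ∧ (∀ t ∈ Icc 0 D.T, sg t 0 = 0) ∧
    (∀ t ∈ Icc 0 D.T, ∀ θ : Md →+ ℝ,
      (∀ i ≤ D.n + 1, |sg t θ (Finsupp.single i 1) - θ (Finsupp.single i 1)| ≤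
        2 * D.G * D.u (D.n + 1) ^ 120) ∧
      ev θ (M' t) = ev (sg t θ) (D.M D.n t) +
        (ev (sg t θ) (gradV D.K (w t))).comp (ev (sg t θ) (D.Fi D.n t)) ∧
      ev θ (U' t) = ev (sg t θ) (U t) + ev (sg t θ) (w t)) ∧
    ∀ θ : Md →+ ℝ, (∀ t ∈ Icc 0 D.T, ‖ev θ (gradV D.K (w t))‖ ≤ D.G ^ 10) ∧
      ∀ s ∈ Icc 0 D.T, ∀ t ∈ Icc 0 D.T,
        ‖ev θ (gradV D.K (w t)) - ev θ (gradV D.K (w s))‖ ≤ D.G ^ 24 * |t - s|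

end Pool.Agent.Work.MP_b0497c_an.Unf.L
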