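import Pool.Agent.Work.MP_b0497c_an.Unf.SStmts2

set_option autoImplicit false

/-!
# Block S, part 3: reality and oddness of the new wave
-/

open scoped ENNReal
open Set MeasureTheory

namespace Pool.Agent.Work.MP_b0497c_an.Unf.S

open W

/-- Coefficients of a real vector valued function. -/
def RealV (f : Md → C3) : Prop := ∀ q, f (-q) = cjv (f q)

/-- Coefficients of a real matrix valued function. -/
def RealM (a : Md → Mat) : Prop := ∀ q v, a (-q) (cjv v) = cjv (a q v)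

/-- Coefficients of a real scalar function. -/
def RealS (s : Md → ℂ) : Prop := ∀ q, s (-q) = starRingEnd ℂ (s q)

/-- Even functions (`θ ↦ -θ`). -/
def EvenF {E : Type} (f : Md → E) : Prop := ∀ q, f (-q) = f q

/-- Odd functions. -/
def OddF {E : Type} [Neg E] (f : Md → E) : Prop := ∀ q, f (-q) = -f q

/-- S27: the projector of an even deformation gradient is even. -/
def S27 : Prop := ∀ (Λ : AddSubgroup Md) (c b e : ℝ) (F Fi : Md → Mat) (ξ : Md → C3),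
  FData Λ c b e F Fi → (∀ m, ξ (-m) = - ξ m) → EvenF Fi →
  ∀ m l, PiK ξ Fi (-m) (-l) = PiK ξ Fi m l

/-- S28: a solution of (E) with real data is real, with even flow and odd data is odd. -/
def S28 : Prop := ∀ (D : Dat) (w : ℝ → Md → C3), D.Hyp → CM D.T w →
  SuppT D.T (lev (D.n + 1) : Set Md) w → Nrm D.T D.c D.γ Dat.one' w ≠ ∞ →
  (∀ q, ∀ t ∈ Icc 0 D.T, HasDerivWithinAt (fun t => w t q) (RHS D w t q) (Icc 0 D.T) t) →
  ((∀ t ∈ Icc 0 D.T, RealM (D.F D.n t) ∧ RealM (D.Fi D.n t) ∧ RealM (D.M D.n t)) →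
    RealV (w 0) → ∀ t ∈ Icc 0 D.T, RealV (w t)) ∧
  ((∀ t ∈ Icc 0 D.T, EvenF (D.Fi D.n t) ∧ EvenF (D.M D.n t)) →
    OddF (w 0) → ∀ t ∈ Icc 0 D.T, OddF (w t))

/-- S29: the Kelvin data of real even flows: reality and parity of `s`, `p`, `Φ`. -/
def S29 : Prop := ∀ (D : Dat), D.Hyp → ∀ (j : ℕ), D.m < j → j ≤ D.n + 1 →
  ((∀ t ∈ Icc 0 D.T, RealM (D.Fi (j - 1) t) ∧ RealM (D.M (j - 1) t)) →
    ∀ s ∈ Icc 0 D.T, ∀ t ∈ Icc 0 D.T, RealS (D.s j t) ∧ RealM (D.p j t) ∧ RealM (D.Φ j t s)) ∧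
  ((∀ t ∈ Icc 0 D.T, EvenF (D.Fi (j - 1) t) ∧ EvenF (D.M (j - 1) t)) →
    ∀ s ∈ Icc 0 D.T, ∀ t ∈ Icc 0 D.T, EvenF (D.s j t) ∧ EvenF (D.p j t) ∧ EvenF (D.Φ j t s))

/-- S30: `Nrm` with the constant weight is finite for the solution of S24, and the seed wave
`Φ w0` solves the Kelvin equation with `k · w = k · w0` constant. -/
def S30 : Prop := ∀ (D : Dat) (ρ : ℕ → ℝ → ℝ) (Str : ℝ → ℝ) (w0 : Md → C3), D.Hyp →
  Wts D ρ Str → Seed D w0 →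
  (∀ w : ℝ → Md → C3, SuppT D.T (lev (D.n + 1) : Set Md) w →
    (∀ o, D.m ≤ o → o ≤ D.n + 1 → Nrm D.T D.c D.γ (ρ o) (fun t => res (Cs D.m o) (w t)) ≠ ∞) →
    Nrm D.T D.c D.γ Dat.one' w ≠ ∞) ∧
  CM D.T (fun t => mul (D.Φ (D.n + 1) t 0) w0) ∧
  SuppT D.T (Cl (D.n + 1)) (fun t => mul (D.Φ (D.n + 1) t 0) w0) ∧
  Nrm D.T D.c 0 (D.α (D.n + 1)) (fun t => mul (D.Φ (D.n + 1) t 0) w0) ≤
    ENNReal.ofReal (D.G ^ 2 / D.N (D.n + 1)) ∧
  (∀ q, ∀ t ∈ Icc 0 D.T, HasDerivWithinAt (fun t => mul (D.Φ (D.n + 1) t 0) w0 q)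
    (mul (D.gK (D.n + 1) t) (mul (D.Φ (D.n + 1) t 0) w0) q) (Icc 0 D.T) t) ∧
  (∀ t ∈ Icc 0 D.T, mul (D.rw (D.n + 1) t) (mul (D.Φ (D.n + 1) t 0) w0) =
    fun q => innerSL ℂ (D.kk (D.n + 1)) (w0 q))

/-- S31: crude bound of the time derivative of the new wave (smaller radius). -/
def S31 : Prop := ∀ (D : Dat) (w : ℝ → Md → C3), D.Hyp → CM D.T w →
  SuppT D.T (lev (D.n + 1) : Set Md) w →
  Nrm D.T D.c D.γ (D.α (D.n + 1)) (fun t => (D.N (D.n + 1) : ℂ) • w t) ≤ ENNReal.ofReal (D.G ^ 4) →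
  CM D.T (RHS D w) ∧
  Nrm D.T (3 * D.c / 4) D.γ (D.α (D.n + 1)) (fun t => (D.N (D.n + 1) : ℂ) • RHS D w t) ≤
    ENNReal.ofReal (D.G ^ 18)

end Pool.Agent.Work.MP_b0497c_an.Unf.S
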