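import Pool.Agent.Work.MP_b0497c_an.Unf.SStmts2
import Pool.Agent.Work.MP_b0497c_an.Unf.W10
import Pool.Agent.Work.MP_b0497c_an.Bd.B04
import Pool.Agent.Work.MP_b0497c_an.Unf.W17

set_option autoImplicit false
set_option linter.unusedSectionVars false

/-!
# Tools for S06 and S25 (helper81): algebra of multiplications and of the exact projector
-/

open scoped ENNReal
open Set MeasureTheory

namespace Pool.Agent.Work.MP_b0497c_an.Unf.S

open W

namespace T81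

section gen

variable {E F G : Type} [NormedAddCommGroup E] [NormedSpace ℂ E] [NormedAddCommGroup F]
  [NormedSpace ℂ F] [NormedAddCommGroup G] [NormedSpace ℂ G]

theorem sN_mono {c c' : ℝ} (h : c' ≤ c) (f : Md → E) : sN c' f ≤ sN c f := by
  unfold sN
  refine ENNReal.tsum_le_tsum fun m => mul_le_mul' (ENNReal.ofReal_le_ofReal ?_) le_rfl
  exact Real.exp_le_exp.2 (mul_le_mul_of_nonneg_right h (len_nonneg m))

theorem sN_fin_mono {c c' : ℝ} (h : c' ≤ c) {f : Md → E} (hf : sN c f ≠ ∞) : sN c' f ≠ ∞ :=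
  ne_top_of_le_ne_top hf (sN_mono h f)

theorem sK_mono {c c' : ℝ} (h : c' ≤ c) (A : Md → Md → (E →L[ℂ] F)) : sK c' A ≤ sK c A := by
  unfold sK
  refine ENNReal.tsum_le_tsum fun m => mul_le_mul' (ENNReal.ofReal_le_ofReal ?_) le_rfl
  exact Real.exp_le_exp.2 (mul_le_mul_of_nonneg_right h (len_nonneg m))

theorem sK_fin_mono {c c' : ℝ} (h : c' ≤ c) {A : Md → Md → (E →L[ℂ] F)} (hA : sK c A ≠ ∞) :
    sK c' A ≠ ∞ := ne_top_of_le_ne_top hA (sK_mono h A)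

theorem sK_mulK (c : ℝ) (hc : 0 ≤ c) (a : Md → (E →L[ℂ] F)) : sK c (mulK a) = sN c a :=
  (pr_W10 Md E F F c hc).2.2.2.1 a

theorem mulK_fin {c : ℝ} (hc : 0 ≤ c) {a : Md → (E →L[ℂ] F)} (ha : sN c a ≠ ∞) :
    sK c (mulK a) ≠ ∞ := by rw [sK_mulK c hc]; exact ha

theorem act_fin {c : ℝ} (hc : 0 ≤ c) {A : Md → Md → (E →L[ℂ] F)} {f : Md → E}
    (hA : sK c A ≠ ∞) (hf : sN c f ≠ ∞) : sN c (act A f) ≠ ∞ :=
  ne_top_of_le_ne_top (ENNReal.mul_ne_top hA hf) ((pr_W10 Md E F F c hc).2.1 A f)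

theorem mul_fin {c : ℝ} (hc : 0 ≤ c) {a : Md → (E →L[ℂ] F)} {f : Md → E}
    (ha : sN c a ≠ ∞) (hf : sN c f ≠ ∞) : sN c (mul a f) ≠ ∞ :=
  act_fin hc (mulK_fin hc ha) hf

theorem kcomp_fin {c : ℝ} (hc : 0 ≤ c) {A : Md → Md → (F →L[ℂ] G)} {B : Md → Md → (E →L[ℂ] F)}
    (hA : sK c A ≠ ∞) (hB : sK c B ≠ ∞) : sK c (kcomp A B) ≠ ∞ :=
  ne_top_of_le_ne_top (ENNReal.mul_ne_top hA hB) ((pr_W10 Md E F G c hc).1 A B)

theorem mm_fin {c : ℝ} (hc : 0 ≤ c) {a : Md → (F →L[ℂ] G)} {b : Md → (E →L[ℂ] F)}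
    (ha : sN c a ≠ ∞) (hb : sN c b ≠ ∞) : sN c (mm a b) ≠ ∞ := by
  refine ne_top_of_le_ne_top (ENNReal.mul_ne_top (ENNReal.mul_ne_top ?_ ha) hb)
    ((pr_W10 Md (F →L[ℂ] G) (E →L[ℂ] F) (E →L[ℂ] G) c hc).2.2.1
      (ContinuousLinearMap.compL ℂ E F G) a b)
  exact enorm_ne_top

theorem mulK_mm (a : Md → (F →L[ℂ] G)) (b : Md → (E →L[ℂ] F)) :
    mulK (mm a b) = kcomp (mulK a) (mulK b) := by
  funext m l
  unfold mulK mm conv kcomp
  rw [← (Equiv.subRight l).tsum_eq]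
  refine tsum_congr fun j => ?_
  simp only [Equiv.subRight_apply, ContinuousLinearMap.compL_apply]
  congr 2
  abel

theorem mul_mm [CompleteSpace F] [CompleteSpace G] {a : Md → (F →L[ℂ] G)} {b : Md → (E →L[ℂ] F)}
    {f : Md → E} (ha : sN 0 a ≠ ∞) (hb : sN 0 b ≠ ∞) (hf : sN 0 f ≠ ∞) :
    mul (mm a b) f = mul a (mul b f) := by
  unfold mul
  rw [mulK_mm]
  exact act_kcomp (mulK_fin le_rfl ha) (mulK_fin le_rfl hb) hf sN_bdd

theorem kcomp_act [CompleteSpace F] [CompleteSpace G] {A : Md → Md → (F →L[ℂ] G)}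
    {B : Md → Md → (E →L[ℂ] F)} {f : Md → E} (hA : sK 0 A ≠ ∞) (hB : sK 0 B ≠ ∞)
    (hf : sN 0 f ≠ ∞) : act (kcomp A B) f = act A (act B f) :=
  act_kcomp hA hB hf sN_bdd

theorem summable_act' [CompleteSpace F] {A : Md → Md → (E →L[ℂ] F)} {f : Md → E}
    (hA : sK 0 A ≠ ∞) (hf : sN 0 f ≠ ∞) (m : Md) : Summable fun l => A m l (f l) :=
  summable_act hA hf sN_bdd m

theorem act_sub_left [CompleteSpace F] {A B : Md → Md → (E →L[ℂ] F)} {f : Md → E}
    (hA : sK 0 A ≠ ∞) (hB : sK 0 B ≠ ∞) (hf : sN 0 f ≠ ∞) :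
    act (A - B) f = act A f - act B f := by
  funext m
  show ∑' l, (A m l - B m l) (f l) = (∑' l, A m l (f l)) - ∑' l, B m l (f l)
  rw [← (summable_act' hA hf m).tsum_sub (summable_act' hB hf m)]
  rfl

theorem act_sub_right [CompleteSpace F] {A : Md → Md → (E →L[ℂ] F)} {f g : Md → E}
    (hA : sK 0 A ≠ ∞) (hf : sN 0 f ≠ ∞) (hg : sN 0 g ≠ ∞) :
    act A (f - g) = act A f - act A g := by
  funext m
  show ∑' l, A m l (f l - g l) = (∑' l, A m l (f l)) - ∑' l, A m l (g l)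
  rw [← (summable_act' hA hf m).tsum_sub (summable_act' hA hg m)]
  simp only [map_sub]

theorem act_add_right [CompleteSpace F] {A : Md → Md → (E →L[ℂ] F)} {f g : Md → E}
    (hA : sK 0 A ≠ ∞) (hf : sN 0 f ≠ ∞) (hg : sN 0 g ≠ ∞) :
    act A (f + g) = act A f + act A g := by
  funext m
  show ∑' l, A m l (f l + g l) = (∑' l, A m l (f l)) + ∑' l, A m l (g l)
  rw [← (summable_act' hA hf m).tsum_add (summable_act' hA hg m)]
  simp only [map_add]

theorem act_neg_left (A : Md → Md → (E →L[ℂ] F)) (f : Md → E) :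
    act (-A) f = - act A f := by
  funext m
  show ∑' l, (-A m l) (f l) = -∑' l, A m l (f l)
  rw [← tsum_neg]
  rfl

theorem act_neg_right (A : Md → Md → (E →L[ℂ] F)) (f : Md → E) :
    act A (-f) = - act A f := by
  funext m
  show ∑' l, A m l (-f l) = -∑' l, A m l (f l)
  rw [← tsum_neg]
  simp only [map_neg]

theorem act_smul_left (z : ℂ) (A : Md → Md → (E →L[ℂ] F)) (f : Md → E) :
    act (z • A) f = z • act A f := by
  funext m
  show ∑' l, (z • A m l) (f l) = z • ∑' l, A m l (f l)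
  rw [← tsum_const_smul'']
  rfl

theorem sN_sub_fin {c : ℝ} {f g : Md → E} (hf : sN c f ≠ ∞) (hg : sN c g ≠ ∞) :
    sN c (f - g) ≠ ∞ := by
  refine ne_top_of_le_ne_top (ENNReal.add_ne_top.2 ⟨hf, hg⟩) ?_
  unfold sN
  rw [← ENNReal.tsum_add]
  refine ENNReal.tsum_le_tsum fun m => ?_
  rw [← mul_add]
  exact mul_le_mul' le_rfl enorm_sub_le

theorem sN_add_fin {c : ℝ} {f g : Md → E} (hf : sN c f ≠ ∞) (hg : sN c g ≠ ∞) :
    sN c (f + g) ≠ ∞ := by
  refine ne_top_of_le_ne_top (ENNReal.add_ne_top.2 ⟨hf, hg⟩) ?_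
  unfold sN
  rw [← ENNReal.tsum_add]
  refine ENNReal.tsum_le_tsum fun m => ?_
  rw [← mul_add]
  exact mul_le_mul' le_rfl (enorm_add_le _ _)

theorem sN_neg (c : ℝ) (f : Md → E) : sN c (-f) = sN c f := by
  unfold sN
  simp

theorem sK_sub_fin {c : ℝ} (hc : 0 ≤ c) {A B : Md → Md → (E →L[ℂ] F)} (hA : sK c A ≠ ∞)
    (hB : sK c B ≠ ∞) : sK c (A - B) ≠ ∞ := by
  have h : sK c (-B) = sK c B := by simp [sK]
  rw [sub_eq_add_neg]
  refine ne_top_of_le_ne_top (ENNReal.add_ne_top.2 ⟨hA, ?_⟩)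
    ((pr_W10 Md E F F c hc).2.2.2.2.2.1 A (-B))
  rw [h]
  exact hB

theorem sK_smul (c : ℝ) (z : ℂ) (A : Md → Md → (E →L[ℂ] F)) :
    sK c (z • A) = ‖z‖ₑ * sK c A := by
  unfold sK
  rw [← ENNReal.tsum_mul_left]
  refine tsum_congr fun k => ?_
  have h : (⨆ l, ‖(z • A) (l + k) l‖ₑ) = ‖z‖ₑ * ⨆ l, ‖A (l + k) l‖ₑ := by
    rw [ENNReal.mul_iSup]
    refine iSup_congr fun l => ?_
    rw [← enorm_smul]
    rfl
  rw [h, mul_left_comm]

/-- Comparison of norms. -/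
theorem sN_fin_of_le {c : ℝ} {f : Md → E} {g : Md → F} (a : ℝ≥0∞) (ha : a ≠ ∞)
    (h : ∀ q, ‖g q‖ₑ ≤ a * ‖f q‖ₑ) (hf : sN c f ≠ ∞) : sN c g ≠ ∞ := by
  refine ne_top_of_le_ne_top (ENNReal.mul_ne_top ha hf) ?_
  unfold sN
  rw [← ENNReal.tsum_mul_left]
  refine ENNReal.tsum_le_tsum fun m => ?_
  rw [mul_left_comm]
  exact mul_le_mul' le_rfl (h m)

/-- One derivative costs a bit of the radius. -/
theorem sN_fin_len {c c' : ℝ} (h : c' < c) {f : Md → E} {g : Md → F} (B : ℝ) (hB : 0 ≤ B)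
    (hfg : ∀ q, ‖g q‖ ≤ B * len q * ‖f q‖) (hf : sN c f ≠ ∞) : sN c' g ≠ ∞ := by
  have hd : 0 < c - c' := sub_pos.2 h
  refine ne_top_of_le_ne_top (ENNReal.mul_ne_top
    (ENNReal.ofReal_ne_top (r := B / (c - c'))) hf) ?_
  unfold sN
  rw [← ENNReal.tsum_mul_left]
  refine ENNReal.tsum_le_tsum fun m => ?_
  rw [← ofReal_norm, ← ofReal_norm, ← ENNReal.ofReal_mul (Real.exp_pos _).le,
    ← ENNReal.ofReal_mul (Real.exp_pos _).le, ← ENNReal.ofReal_mul (by positivity)]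
  apply ENNReal.ofReal_le_ofReal
  have h1 : (c - c') * len m ≤ Real.exp ((c - c') * len m) := by
    have := Real.add_one_le_exp ((c - c') * len m)
    linarith
  have h2 : Real.exp (c' * len m) * Real.exp ((c - c') * len m) = Real.exp (c * len m) := by
    rw [← Real.exp_add]; congr 1; ring
  have hl : 0 ≤ len m := len_nonneg m
  calc Real.exp (c' * len m) * ‖g m‖ ≤ Real.exp (c' * len m) * (B * len m * ‖f m‖) := by
        gcongr; exact hfg m
    _ = B / (c - c') * (Real.exp (c' * len m) * ((c - c') * len m)) * ‖f m‖ := by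
        field_simp
    _ ≤ B / (c - c') * (Real.exp (c' * len m) * Real.exp ((c - c') * len m)) * ‖f m‖ := by
        gcongr
    _ = B / (c - c') * (Real.exp (c * len m) * ‖f m‖) := by rw [h2]; ring

theorem mulK_oneM : mulK oneM = idK := by
  funext m l
  unfold mulK oneM idK diagK
  simp only [sub_eq_zero]

theorem act_idK (f : Md → C3) : act idK f = f := by
  funext m
  unfold idK
  rw [act_diagK]
  rfl

theorem mul_oneM (f : Md → C3) : mul oneM f = f := by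
  unfold mul
  rw [mulK_oneM, act_idK]

theorem idK_fin (c : ℝ) (hc : 0 ≤ c) : sK c (idK : Md → Md → Mat) ≠ ∞ :=
  ne_top_of_le_ne_top (b := ‖ContinuousLinearMap.id ℂ C3‖ₑ) enorm_ne_top
    ((pr_W10 Md C3 C3 C3 c hc).2.2.2.2.1 _ _ fun _ => le_rfl)

theorem act_id_sub {A : Md → Md → Mat} {f : Md → C3} (hA : sK 0 A ≠ ∞) (hf : sN 0 f ≠ ∞) :
    act (idK - A) f = f - act A f := by
  rw [act_sub_left (idK_fin 0 le_rfl) hA hf, act_idK]

end gen

section adj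

theorem adjC_mm (a b : Md → Mat) : adjC (mm a b) = mm (adjC b) (adjC a) := by
  funext k
  unfold adjC mm conv
  have h := (ContinuousLinearMap.adjoint (𝕜 := ℂ) (E := C3) (F := C3)).toContinuousLinearEquiv.map_tsum
    (L := SummationFilter.unconditional Md) (f := fun l => (ContinuousLinearMap.compL ℂ C3 C3 C3 (a (-k - l))) (b l))
  refine h.trans ?_
  rw [← (Equiv.addRight (-k)).tsum_eq]
  refine tsum_congr fun l => ?_
  simp only [Equiv.coe_addRight, ContinuousLinearMap.compL_apply]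
  refine (ContinuousLinearMap.adjoint_comp _ _).trans ?_
  congr 3
  · abel
  · abel

theorem sN_oneM (c : ℝ) : sN c (oneM : Md → Mat) ≠ ∞ := by
  unfold sN
  rw [tsum_eq_single 0]
  · exact ENNReal.mul_ne_top ENNReal.ofReal_ne_top enorm_ne_top
  · intro q hq
    simp [oneM, hq]

theorem enorm_rank (k z : C3) : ‖(innerSL ℂ k).smulRight z‖ₑ = ‖k‖ₑ * ‖z‖ₑ := by
  rw [← ofReal_norm, ← ofReal_norm, ← ofReal_norm, ← ENNReal.ofReal_mul (norm_nonneg _)]
  congr 1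
  rw [ContinuousLinearMap.norm_smulRight_apply, innerSL_apply_norm]

theorem rank_fin {c : ℝ} (k : C3) {z : Md → C3} (hz : sN c z ≠ ∞) :
    sN c (fun q => (innerSL ℂ k).smulRight (z q)) ≠ ∞ :=
  sN_fin_of_le ‖k‖ₑ enorm_ne_top (fun q => (enorm_rank k (z q)).le) hz

theorem shM_eq (z : Md → C3) (k : C3) :
    shM z k = oneM - fun q => (innerSL ℂ k).smulRight (z q) := rfl

theorem shP_eq (z : Md → C3) (k : C3) :
    shP z k = oneM + fun q => (innerSL ℂ k).smulRight (z q) := rfl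

theorem shM_fin {c : ℝ} (k : C3) {z : Md → C3} (hz : sN c z ≠ ∞) : sN c (shM z k) ≠ ∞ := by
  rw [shM_eq]
  exact sN_sub_fin (sN_oneM c) (rank_fin k hz)

theorem shP_fin {c : ℝ} (k : C3) {z : Md → C3} (hz : sN c z ≠ ∞) : sN c (shP z k) ≠ ∞ := by
  rw [shP_eq]
  exact sN_add_fin (sN_oneM c) (rank_fin k hz)

theorem mul_rank (k : C3) (z f : Md → C3) :
    mul (fun q => (innerSL ℂ k).smulRight (z q)) f = mul (tsF z) (fun q => inner ℂ k (f q)) := by
  funext q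
  show ∑' l, ((innerSL ℂ k).smulRight (z (q - l))) (f l) = ∑' l, (ts (z (q - l))) (inner ℂ k (f l))
  refine tsum_congr fun l => ?_
  simp [ts]

theorem tsF_fin {c : ℝ} {z : Md → C3} (hz : sN c z ≠ ∞) : sN c (tsF z) ≠ ∞ := by
  refine sN_fin_of_le 1 ENNReal.one_ne_top (fun q => ?_) hz
  rw [one_mul, ← ofReal_norm, ← ofReal_norm]
  apply ENNReal.ofReal_le_ofReal
  unfold tsF ts
  rw [ContinuousLinearMap.norm_toSpanSingleton]

theorem adR_fin {c : ℝ} {z : Md → C3} (hz : sN c z ≠ ∞) : sN c (adR z) ≠ ∞ := by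
  have h : sN c (adR z) = sN c z := by
    rw [sN, sN, ← (Equiv.neg Md).tsum_eq]
    refine tsum_congr fun m => ?_
    rw [Equiv.neg_apply, len_neg, adR, neg_neg]
    congr 1
    rw [← ofReal_norm, ← ofReal_norm, innerSL_apply_norm]
  rw [h]
  exact hz

theorem rwF_fin {c : ℝ} (k : C3) {Fi : Md → Mat} (h : sN c Fi ≠ ∞) : sN c (rwF k Fi) ≠ ∞ := by
  refine sN_fin_of_le ‖k‖ₑ enorm_ne_top (fun q => ?_) h
  rw [← ofReal_norm, ← ofReal_norm, ← ofReal_norm, ← ENNReal.ofReal_mul (norm_nonneg _)]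
  apply ENNReal.ofReal_le_ofReal
  unfold rwF
  refine (ContinuousLinearMap.opNorm_comp_le _ _).trans (le_of_eq ?_)
  rw [innerSL_apply_norm]

theorem adjC_fin {c : ℝ} {Fi : Md → Mat} (h : sN c Fi ≠ ∞) : sN c (adjC Fi) ≠ ∞ := by
  rw [P17.sN_adjC]
  exact h

/-- The inner product with a fixed vector. -/
theorem inner_mul (k : C3) {a : Md → Mat} {f : Md → C3} (ha : sN 0 a ≠ ∞) (hf : sN 0 f ≠ ∞)
    (q : Md) : inner ℂ k (mul a f q) = mul (rwF k a) f q := by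
  have h := (innerSL ℂ k).map_tsum (summable_act' (mulK_fin le_rfl ha) hf q)
  exact h

theorem inner_fin {c : ℝ} (k : C3) {f : Md → C3} (hf : sN c f ≠ ∞) :
    sN c (fun q => (inner ℂ k (f q) : ℂ)) ≠ ∞ := by
  refine sN_fin_of_le ‖k‖ₑ enorm_ne_top (fun q => ?_) hf
  rw [← ofReal_norm, ← ofReal_norm, ← ofReal_norm, ← ENNReal.ofReal_mul (norm_nonneg _)]
  exact ENNReal.ofReal_le_ofReal (norm_inner_le_norm _ _)

theorem mul_shM (k : C3) {z f : Md → C3} (hz : sN 0 z ≠ ∞) (hf : sN 0 f ≠ ∞) :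
    mul (shM z k) f = f - mul (tsF z) (fun q => inner ℂ k (f q)) := by
  rw [shM_eq]
  have h : mulK (oneM - fun q => (innerSL ℂ k).smulRight (z q)) =
      mulK oneM - mulK (fun q => (innerSL ℂ k).smulRight (z q)) := rfl
  unfold mul
  rw [h, act_sub_left (mulK_fin le_rfl (sN_oneM 0)) (mulK_fin le_rfl (rank_fin k hz)) hf]
  rw [mulK_oneM, act_idK]
  congr 1

theorem adjoint_rank (k z : C3) : ContinuousLinearMap.adjoint ((innerSL ℂ k).smulRight z) =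
    (innerSL ℂ z).smulRight k := by
  refine ContinuousLinearMap.ext fun x => ext_inner_right ℂ fun y => ?_
  rw [ContinuousLinearMap.adjoint_inner_left]
  simp only [ContinuousLinearMap.smulRight_apply, innerSL_apply_apply, inner_smul_right,
    inner_smul_left, inner_conj_symm]
  ring

theorem adjC_oneM : adjC (oneM : Md → Mat) = oneM := by
  funext q
  unfold adjC oneM
  by_cases hq : q = 0
  · simp only [hq, neg_zero, if_true]
    exact ContinuousLinearMap.adjoint_id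
  · simp only [neg_eq_zero, hq, if_false, map_zero]

theorem adjC_shM (z : Md → C3) (k : C3) :
    adjC (shM z k) = oneM - fun q => (innerSL ℂ (z (-q))).smulRight k := by
  have h : adjC (shM z k) = adjC oneM - adjC (fun q => (innerSL ℂ k).smulRight (z q)) := by
    funext q
    unfold adjC shM
    exact map_sub _ _ _
  rw [h, adjC_oneM]
  congr 1
  funext q
  exact adjoint_rank k (z (-q))

theorem mul_adjC_shM (k : C3) {z v : Md → C3} (hz : sN 0 z ≠ ∞) (hv : sN 0 v ≠ ∞) :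
    mul (adjC (shM z k)) v = v - fun q => (mul (adR z) v q) • k := by
  rw [adjC_shM]
  have hr : sN 0 (fun q => (innerSL ℂ (z (-q))).smulRight k) ≠ ∞ := by
    refine sN_fin_of_le (f := adR z) ‖k‖ₑ enorm_ne_top (fun q => ?_) (adR_fin hz)
    rw [← ofReal_norm, ← ofReal_norm, ← ofReal_norm, ← ENNReal.ofReal_mul (norm_nonneg _)]
    apply ENNReal.ofReal_le_ofReal
    rw [ContinuousLinearMap.norm_smulRight_apply, adR, mul_comm]
  have h : mulK (oneM - fun q => (innerSL ℂ (z (-q))).smulRight k) =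
      mulK oneM - mulK (fun q => (innerSL ℂ (z (-q))).smulRight k) := rfl
  unfold mul
  rw [h, act_sub_left (mulK_fin le_rfl (sN_oneM 0)) (mulK_fin le_rfl hr) hv]
  rw [mulK_oneM, act_idK]
  congr 1
  funext q
  exact (summable_act' (mulK_fin le_rfl (adR_fin hz)) hv q).tsum_smul_const k

end adj

section proj

theorem act_PK (ξ : Md → C3) (v : Md → C3) (q : Md) : act (PK ξ) v q = pr (ξ q) (v q) := by
  unfold PK
  rw [act_diagK]

theorem pr_smul_self (x : C3) (c : ℂ) : pr x (c • x) = c • x := by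
  by_cases hx : x = 0
  · simp [hx]
  · have h1 : ((‖x‖ ^ 2 : ℝ) : ℂ) ≠ 0 := by
      have : ‖x‖ ≠ 0 := norm_ne_zero_iff.2 hx
      exact_mod_cast pow_ne_zero 2 this
    have h2 : (inner ℂ x x : ℂ) = ((‖x‖ ^ 2 : ℝ) : ℂ) := by
      rw [inner_self_eq_norm_sq_to_K]
      push_cast
      rfl
    unfold pr
    simp only [_root_.smul_apply, ContinuousLinearMap.smulRight_apply,
      innerSL_apply_apply, inner_smul_right]
    rw [h2, smul_smul, mul_comm c, ← mul_assoc, ← Complex.ofReal_inv, ← Complex.ofReal_mul,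
      inv_mul_cancel₀, Complex.ofReal_one, one_mul]
    exact_mod_cast h1

theorem inner_pr (x v : C3) : inner ℂ x (pr x v) = inner ℂ x v := by
  by_cases hx : x = 0
  · simp [hx]
  · have h1 : ((‖x‖ ^ 2 : ℝ) : ℂ) ≠ 0 := by
      have : ‖x‖ ≠ 0 := norm_ne_zero_iff.2 hx
      exact_mod_cast pow_ne_zero 2 this
    have h2 : (inner ℂ x x : ℂ) = ((‖x‖ ^ 2 : ℝ) : ℂ) := by
      rw [inner_self_eq_norm_sq_to_K]
      push_cast
      rfl
    unfold pr
    simp only [_root_.smul_apply, ContinuousLinearMap.smulRight_apply,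
      innerSL_apply_apply, inner_smul_right]
    rw [h2, mul_comm (inner ℂ x v : ℂ), ← mul_assoc, ← Complex.ofReal_inv, ← Complex.ofReal_mul,
      inv_mul_cancel₀, Complex.ofReal_one, one_mul]
    exact_mod_cast h1

theorem PK_fin (c : ℝ) (hc : 0 ≤ c) (ξ : Md → C3) : sK c (PK ξ) ≠ ∞ :=
  ne_top_of_le_ne_top ENNReal.one_ne_top
    ((pr_W10 Md C3 C3 C3 c hc).2.2.2.2.1 (fun m => pr (ξ m)) 1 fun _ => P17.norm_pr_le _)

/-- The facts about the exact projector which are used. -/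
structure Facts (ξ : Md → C3) (Fi : Md → Mat) : Prop where
  R_fin : ∃ c : ℝ, 0 < c ∧ sK c (RK ξ Fi) ≠ ∞
  Pi_fin : ∃ c : ℝ, 0 < c ∧ sK c (PiK ξ Fi) ≠ ∞
  Fi_fin : sN 0 Fi ≠ ∞
  PR : kcomp (PK ξ) (RK ξ Fi) = RK ξ Fi
  RP : kcomp (RK ξ Fi) (PK ξ) = RK ξ Fi
  PiEP : kcomp (PiK ξ Fi) (kcomp (mulK (adjC Fi)) (PK ξ)) = kcomp (mulK (adjC Fi)) (PK ξ)
  PFPi : kcomp (PK ξ) (kcomp (mulK Fi) (PiK ξ Fi)) = kcomp (PK ξ) (mulK Fi)

theorem facts (h16 : W16) {Λ : AddSubgroup Md} {c b e : ℝ} {F Fi : Md → Mat}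
    (ξ : Md → C3) (h : FData Λ c b e F Fi) : Facts ξ Fi := by
  obtain ⟨⟨h1, h2, h3, h4⟩, h5, h6, h7, h8, h9, h10, h11⟩ := h16 Md Λ c b e F Fi ξ h
  have hb := h.b_one
  have he := h.e_one
  have hη : 0 < c / (2 * b ^ 2 * e ^ 2) / 2 := by
    have := h.c_pos
    positivity
  refine ⟨⟨_, hη, ?_⟩, ⟨_, hη, ?_⟩, ?_, h1, h2, h9, h10⟩
  · refine ne_top_of_le_ne_top (ENNReal.mul_ne_top ENNReal.ofReal_ne_top (h.sum _ hη))
      (P17.sK_le_of_entries (Λ := Λ) (κ := c / (2 * b ^ 2 * e ^ 2) / 2) (B := 2 * b ^ 2)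
        (by positivity) ?_ fun m l hml => (h6 m l hml).1)
    intro m l
    have := h5 m l
    rwa [mul_div_cancel₀ _ (two_ne_zero' ℝ)]
  · exact ne_top_of_le_ne_top (ENNReal.mul_ne_top ENNReal.ofReal_ne_top (h.sum _ hη)) h7
  · exact sN_fin_mono h.c_pos.le (ne_top_of_le_ne_top ENNReal.ofReal_ne_top h.Fi_le)

variable {ξ : Md → C3} {Fi : Md → Mat} (hF : Facts ξ Fi)
include hF

theorem Facts.R0 : sK 0 (RK ξ Fi) ≠ ∞ := by
  obtain ⟨c, hc, h⟩ := hF.R_fin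
  exact sK_fin_mono hc.le h

theorem Facts.Pi0 : sK 0 (PiK ξ Fi) ≠ ∞ := by
  obtain ⟨c, hc, h⟩ := hF.Pi_fin
  exact sK_fin_mono hc.le h

theorem Facts.M0 : sK 0 (mulK Fi) ≠ ∞ := mulK_fin le_rfl hF.Fi_fin

theorem Facts.E0 : sK 0 (mulK (adjC Fi)) ≠ ∞ := mulK_fin le_rfl (adjC_fin hF.Fi_fin)

theorem Facts.P0 : sK 0 (PK ξ) ≠ ∞ := PK_fin 0 le_rfl ξ

theorem Facts.act_Pi {v : Md → C3} (hv : sN 0 v ≠ ∞) :
    act (PiK ξ Fi) v = mul (adjC Fi) (act (RK ξ Fi) (mul Fi v)) := by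
  unfold PiK mul
  rw [kcomp_act hF.E0 (kcomp_fin le_rfl hF.R0 hF.M0) hv, kcomp_act hF.R0 hF.M0 hv]

theorem Facts.act_R {v : Md → C3} (hv : sN 0 v ≠ ∞) :
    act (RK ξ Fi) (act (PK ξ) v) = act (RK ξ Fi) v := by
  rw [← kcomp_act hF.R0 hF.P0 hv, hF.RP]

theorem Facts.P_act_R {v : Md → C3} (hv : sN 0 v ≠ ∞) :
    act (PK ξ) (act (RK ξ Fi) v) = act (RK ξ Fi) v := by
  rw [← kcomp_act hF.P0 hF.R0 hv, hF.PR]

theorem Facts.P_Fi_Pi {v : Md → C3} (hv : sN 0 v ≠ ∞) :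
    act (PK ξ) (mul Fi (act (PiK ξ Fi) v)) = act (PK ξ) (mul Fi v) := by
  unfold mul
  rw [← kcomp_act hF.M0 hF.Pi0 hv, ← kcomp_act hF.P0 (kcomp_fin le_rfl hF.M0 hF.Pi0) hv,
    ← kcomp_act hF.P0 hF.M0 hv, hF.PFPi]

theorem Facts.Pi_E_P {v : Md → C3} (hv : sN 0 v ≠ ∞) :
    act (PiK ξ Fi) (mul (adjC Fi) (act (PK ξ) v)) = mul (adjC Fi) (act (PK ξ) v) := by
  unfold mul
  rw [← kcomp_act hF.E0 hF.P0 hv, ← kcomp_act hF.Pi0 (kcomp_fin le_rfl hF.E0 hF.P0) hv, hF.PiEP]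

end proj

end T81

end Pool.Agent.Work.MP_b0497c_an.Unf.S
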