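import Pool.Agent.Work.MP_b0497c_an.Bd.B04

set_option autoImplicit false

/-!
# W14: the operator on `l2` given by a kernel of finite norm
-/

open scoped ENNReal
open Set MeasureTheory

namespace Pool.Agent.Work.MP_b0497c_an.Unf.W

section

variable {Γ : Type} [AddCommGroup Γ]

theorem memlp_shift (k : Γ) (f : H2 Γ) : Memℓp (fun m => f (m - k)) 2 := by
  apply memℓp_gen
  exact ((lp.memℓp f).summable (by norm_num)).comp_injective (sub_left_injective (b := k))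

/-- The shift of a square summable function. -/
noncomputable def sh (k : Γ) (f : H2 Γ) : H2 Γ := ⟨fun m => f (m - k), memlp_shift k f⟩

theorem sh_apply (k : Γ) (f : H2 Γ) (m : Γ) : (sh k f) m = f (m - k) := rfl

theorem norm_sh (k : Γ) (f : H2 Γ) : ‖sh k f‖ = ‖f‖ := by
  have hp : 0 < (2 : ℝ≥0∞).toReal := by norm_num
  rw [lp.norm_eq_tsum_rpow hp, lp.norm_eq_tsum_rpow hp]
  congr 1
  exact (Equiv.subRight k).tsum_eq (fun m => ‖f m‖ ^ (2 : ℝ≥0∞).toReal)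

theorem norm_wsh (w : Γ → Mat) (C : ℝ) (hC : 0 ≤ C) (hw : ∀ m, ‖w m‖ ≤ C) (k : Γ) (f : H2 Γ)
    (m : Γ) : ‖w m (f (m - k))‖ ≤ ‖((C : ℂ) • sh k f) m‖ := by
  rw [lp.coeFn_smul, Pi.smul_apply, norm_smul, Complex.norm_real, Real.norm_of_nonneg hC,
    sh_apply]
  exact ((w m).le_opNorm _).trans (mul_le_mul_of_nonneg_right (hw m) (norm_nonneg _))

theorem memlp_wsh (w : Γ → Mat) (C : ℝ) (hC : 0 ≤ C) (hw : ∀ m, ‖w m‖ ≤ C) (k : Γ) (f : H2 Γ) :
    Memℓp (fun m => w m (f (m - k))) 2 :=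
  (lp.memℓp ((C : ℂ) • sh k f)).mono' (norm_wsh w C hC hw k f)

/-- A weighted shift as an operator. -/
noncomputable def shOp (w : Γ → Mat) (C : ℝ) (hC : 0 ≤ C) (hw : ∀ m, ‖w m‖ ≤ C) (k : Γ) :
    H2 Γ →L[ℂ] H2 Γ :=
  LinearMap.mkContinuous
    { toFun := fun f => ⟨fun m => w m (f (m - k)), memlp_wsh w C hC hw k f⟩
      map_add' := fun f g => by
        ext1
        funext m
        show w m ((f + g : H2 Γ) (m - k)) = w m (f (m - k)) + w m (g (m - k))
        rw [lp.coeFn_add, Pi.add_apply, map_add]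
      map_smul' := fun c f => by
        ext1
        funext m
        show w m ((c • f : H2 Γ) (m - k)) = c • w m (f (m - k))
        rw [lp.coeFn_smul, Pi.smul_apply, map_smul] } C (fun f => by
    have h := lp.norm_mono (x := (⟨fun m => w m (f (m - k)), memlp_wsh w C hC hw k f⟩ : H2 Γ))
      (y := (C : ℂ) • sh k f) two_ne_zero (norm_wsh w C hC hw k f)
    rw [norm_smul, norm_sh, Complex.norm_real, Real.norm_of_nonneg hC] at h
    exact h)

theorem shOp_apply (w : Γ → Mat) (C : ℝ) (hC : 0 ≤ C) (hw : ∀ m, ‖w m‖ ≤ C) (k : Γ) (f : H2 Γ)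
    (m : Γ) : (shOp w C hC hw k f) m = w m (f (m - k)) := rfl

theorem norm_shOp (w : Γ → Mat) (C : ℝ) (hC : 0 ≤ C) (hw : ∀ m, ‖w m‖ ≤ C) (k : Γ) :
    ‖shOp w C hC hw k‖ ≤ C := LinearMap.mkContinuous_norm_le _ hC _

omit [AddCommGroup Γ] in
theorem act_single [DecidableEq Γ] (A : Γ → Γ → Mat) (l : Γ) (v : C3) (m : Γ) :
    act A (lp.single 2 l v : H2 Γ) m = A m l v := by
  show ∑' j, A m j ((lp.single 2 l v : H2 Γ) j) = _
  rw [tsum_eq_single l]
  · rw [lp.single_apply_self]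
  · intro j hj
    rw [lp.single_apply_ne _ _ _ hj, map_zero]

omit [AddCommGroup Γ] in
theorem H2_enorm_le (f : H2 Γ) (m : Γ) : ‖f m‖ₑ ≤ ENNReal.ofReal ‖f‖ := by
  rw [← ofReal_norm]
  exact ENNReal.ofReal_le_ofReal (lp.norm_apply_le_norm two_ne_zero f m)

omit [AddCommGroup Γ] in
/-- `opK A` is determined by its action. -/
theorem opK_eq {A : Γ → Γ → Mat} {T : H2 Γ →L[ℂ] H2 Γ}
    (hT : ∀ f m, (T f : Γ → C3) m = act A f m) : opK A = T := by
  have h : ∃ T : H2 Γ →L[ℂ] H2 Γ, ∀ f m, (T f : Γ → C3) m = act A f m := ⟨T, hT⟩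
  unfold opK
  rw [dif_pos h]
  refine ContinuousLinearMap.ext fun f => lp.ext (funext fun m => ?_)
  rw [h.choose_spec, hT]

variable [Len Γ]

theorem exists_op (A : Γ → Γ → Mat) (hA : sK 0 A ≠ ∞) :
    ∃ T : H2 Γ →L[ℂ] H2 Γ, (∀ f m, (T f : Γ → C3) m = act A f m) ∧
      ENNReal.ofReal ‖T‖ ≤ sK 0 A := by
  have hs : ∑' k, ⨆ l, ‖A (l + k) l‖ₑ ≠ ∞ := by
    rw [← sK_zero]
    exact hA
  have hk : ∀ k, (⨆ l, ‖A (l + k) l‖ₑ) ≠ ∞ := ENNReal.ne_top_of_tsum_ne_top hs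
  have hw : ∀ k m, ‖A m (m - k)‖ ≤ (⨆ l, ‖A (l + k) l‖ₑ).toReal := by
    intro k m
    rw [← toReal_enorm]
    refine ENNReal.toReal_mono (hk k) ?_
    have := le_iSup (fun l => ‖A (l + k) l‖ₑ) (m - k)
    rwa [sub_add_cancel] at this
  have hsum : Summable fun k => (⨆ l, ‖A (l + k) l‖ₑ).toReal := ENNReal.summable_toReal hs
  set T : Γ → (H2 Γ →L[ℂ] H2 Γ) := fun k => shOp (fun m => A m (m - k))
    (⨆ l, ‖A (l + k) l‖ₑ).toReal ENNReal.toReal_nonneg (hw k) k with hT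
  have hTn : ∀ k, ‖T k‖ ≤ (⨆ l, ‖A (l + k) l‖ₑ).toReal := fun k => norm_shOp _ _ _ _ _
  have hTs : Summable T := Summable.of_norm_bounded hsum hTn
  refine ⟨∑' k, T k, ?_, ?_⟩
  · intro f m
    have h1 := ((lp.evalCLM ℂ (fun _ : Γ => C3) 2 m).comp
      (ContinuousLinearMap.apply ℂ (H2 Γ) f)).map_tsum hTs
    have h2 : ((∑' k, T k) f : Γ → C3) m = ∑' k, A m (m - k) (f (m - k)) := h1
    rw [h2]
    exact (Equiv.subLeft m).tsum_eq (fun l => A m l (f l))
  · calc ENNReal.ofReal ‖∑' k, T k‖ ≤ ENNReal.ofReal (∑' k, (⨆ l, ‖A (l + k) l‖ₑ).toReal) :=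
          ENNReal.ofReal_le_ofReal (tsum_of_norm_bounded hsum.hasSum hTn)
      _ = ∑' k, ENNReal.ofReal (⨆ l, ‖A (l + k) l‖ₑ).toReal :=
          ENNReal.ofReal_tsum_of_nonneg (fun _ => ENNReal.toReal_nonneg) hsum
      _ = ∑' k, ⨆ l, ‖A (l + k) l‖ₑ := by
          congr 1
          funext k
          exact ENNReal.ofReal_toReal (hk k)
      _ ≤ sK 0 A := by rw [sK_zero]

theorem opK_apply {A : Γ → Γ → Mat} (hA : sK 0 A ≠ ∞) (f : H2 Γ) (m : Γ) :
    (opK A f : Γ → C3) m = act A f m := by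
  obtain ⟨T, hT, -⟩ := exists_op A hA
  rw [opK_eq hT, hT]

theorem opK_coe {A : Γ → Γ → Mat} (hA : sK 0 A ≠ ∞) (f : H2 Γ) :
    (opK A f : Γ → C3) = act A f := funext fun m => opK_apply hA f m

theorem opK_norm {A : Γ → Γ → Mat} (hA : sK 0 A ≠ ∞) : ENNReal.ofReal ‖opK A‖ ≤ sK 0 A := by
  obtain ⟨T, hT, hT'⟩ := exists_op A hA
  rw [opK_eq hT]
  exact hT'

theorem opK_kcomp {A B : Γ → Γ → Mat} (hA : sK 0 A ≠ ∞) (hB : sK 0 B ≠ ∞) :
    opK (kcomp A B) = (opK A).comp (opK B) := by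
  apply opK_eq
  intro f m
  rw [act_kcomp hA hB ENNReal.ofReal_ne_top (H2_enorm_le f), ContinuousLinearMap.comp_apply,
    opK_apply hA, opK_coe hB]

theorem opK_add {A B : Γ → Γ → Mat} (hA : sK 0 A ≠ ∞) (hB : sK 0 B ≠ ∞) :
    opK (A + B) = opK A + opK B := by
  apply opK_eq
  intro f m
  rw [add_apply, lp.coeFn_add, Pi.add_apply, opK_apply hA, opK_apply hB]
  show ∑' l, A m l (f l) + ∑' l, B m l (f l) = ∑' l, (A m l + B m l) (f l)
  rw [← (summable_act hA ENNReal.ofReal_ne_top (H2_enorm_le f) m).tsum_add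
    (summable_act hB ENNReal.ofReal_ne_top (H2_enorm_le f) m)]
  simp_rw [add_apply]

theorem summable_adj {A : Γ → Γ → Mat} (hA : sK 0 A ≠ ∞) (f : H2 Γ) (m : Γ) :
    Summable fun l => ContinuousLinearMap.adjoint (A l m) (f l) := by
  refine Summable.of_enorm (ne_top_of_le_ne_top
    (ENNReal.mul_ne_top hA (ENNReal.ofReal_ne_top (r := ‖f‖))) ?_)
  calc ∑' l, ‖ContinuousLinearMap.adjoint (A l m) (f l)‖ₑ ≤
        ∑' l, ‖A l m‖ₑ * ENNReal.ofReal ‖f‖ := by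
        refine ENNReal.tsum_le_tsum fun l => (apply_enorm_le _ _).trans
          (mul_le_mul' (le_of_eq ?_) (H2_enorm_le f l))
        rw [← ofReal_norm, ← ofReal_norm, LinearIsometryEquiv.norm_map]
    _ = (∑' l, ‖A l m‖ₑ) * ENNReal.ofReal ‖f‖ := ENNReal.tsum_mul_right
    _ ≤ _ := mul_le_mul' (col_le A m) le_rfl

theorem opK_adj {A : Γ → Γ → Mat} (hA : sK 0 A ≠ ∞) :
    opK (fun m l => ContinuousLinearMap.adjoint (A l m)) =
      ContinuousLinearMap.adjoint (opK A) := by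
  classical
  apply opK_eq
  intro f m
  refine ext_inner_left ℂ fun w => ?_
  have h0 : inner ℂ w ((ContinuousLinearMap.adjoint (opK A) f : H2 Γ) m) =
      inner ℂ (lp.single 2 m w : H2 Γ) (ContinuousLinearMap.adjoint (opK A) f) :=
    (lp.inner_single_left (G := fun _ : Γ => C3) m w _).symm
  have h := (innerSL ℂ w).map_tsum (summable_adj hA f m)
  simp only [innerSL_apply_apply] at h
  refine h0.trans (Eq.trans ?_ h.symm)
  rw [ContinuousLinearMap.adjoint_inner_right, lp.inner_eq_tsum]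
  congr 1
  funext l
  rw [opK_apply hA, act_single, ContinuousLinearMap.adjoint_inner_right]

omit [AddCommGroup Γ] [Len Γ] in
theorem opK_id : opK (diagK fun _ : Γ => ContinuousLinearMap.id ℂ C3) =
    ContinuousLinearMap.id ℂ (H2 Γ) := by
  apply opK_eq
  intro f m
  rw [act_diagK]
  rfl

theorem opK_inj {A B : Γ → Γ → Mat} (hA : sK 0 A ≠ ∞) (hB : sK 0 B ≠ ∞) (h : opK A = opK B) :
    A = B := by
  classical
  funext m l
  refine ContinuousLinearMap.ext fun v => ?_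
  rw [← act_single A l v m, ← act_single B l v m, ← opK_apply hA, ← opK_apply hB, h]

end

theorem pr_W14 : W14 := by
  intro Γ _ _
  exact ⟨fun A hA => ⟨fun f m => opK_apply hA f m,
    fun f m => summable_act hA ENNReal.ofReal_ne_top (H2_enorm_le f) m, opK_norm hA⟩,
    fun A B hA hB => ⟨opK_kcomp hA hB, opK_add hA hB⟩, fun A hA => opK_adj hA, opK_id,
    fun A B hA hB h => opK_inj hA hB h⟩

end Pool.Agent.Work.MP_b0497c_an.Unf.W
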