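import Pool.Agent.Work.MP_b0497c_an.Unf.WStmts

set_option autoImplicit false

/-!
# W15: Combes-Thomas
-/

open scoped ENNReal
open Set MeasureTheory Filter Topology

namespace Pool.Agent.Work.MP_b0497c_an.Unf.W

namespace CT

/-- Elementary inequality. -/
theorem exp_sub_one_le {x y : ℝ} {s : ℝ} (hs : 0 ≤ s) (hs1 : s ≤ 1)
    (hx : |x| ≤ s * y) : |Real.exp x - 1| ≤ s * Real.exp y := by
  have h1 : |Real.exp x - 1| ≤ Real.exp |x| - 1 := by
    rcases le_total 0 x with h | h
    · rw [abs_of_nonneg h, abs_of_nonneg]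
      have := Real.add_one_le_exp x
      linarith
    · rw [abs_of_nonpos h, abs_of_nonpos (by
        have := Real.exp_le_one_iff.mpr h
        linarith)]
      have h2 : 2 ≤ Real.exp x + Real.exp (-x) := by
        have h3 : Real.exp x * Real.exp (-x) = 1 := by rw [← Real.exp_add]; simp
        nlinarith [sq_nonneg (Real.exp x - Real.exp (-x)), Real.exp_pos x, Real.exp_pos (-x),
          sq_nonneg (Real.exp x + Real.exp (-x) - 2)]
      linarith
  have h2 : Real.exp |x| ≤ Real.exp (s * y) := Real.exp_le_exp.mpr hx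
  have h3 : Real.exp (s * y) ≤ (1 - s) * 1 + s * Real.exp y := by
    have h4 := convexOn_exp.2 (mem_univ (0 : ℝ)) (mem_univ y) (sub_nonneg.mpr hs1) hs (by ring)
    simpa using h4
  linarith

variable {Γ : Type} [AddCommGroup Γ] [Len Γ]

theorem norm_proj_le {p : Mat} (h1 : p.comp p = p) (h2 : ContinuousLinearMap.adjoint p = p)
    (v : C3) : ‖p v‖ ≤ ‖v‖ := by
  have h3 : inner ℂ (p v) (p v) = inner ℂ v (p v) := by
    nth_rewrite 1 [← h2]
    rw [ContinuousLinearMap.adjoint_inner_left]
    have : p (p v) = p v := DFunLike.congr_fun h1 v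
    rw [this]
  have h4 : ‖p v‖ ^ 2 ≤ ‖v‖ * ‖p v‖ := by
    have h5 := inner_self_eq_norm_sq_to_K (𝕜 := ℂ) (p v)
    rw [h3] at h5
    have h6 : ‖(inner ℂ v (p v) : ℂ)‖ = ‖p v‖ ^ 2 := by
      rw [h5]
      simp
    rw [← h6]
    exact norm_inner_le_norm _ _
  rcases (norm_nonneg (p v)).eq_or_lt with h | h
  · rw [← h]
    exact norm_nonneg _
  · nlinarith

theorem enorm_clm_le_one {p : Mat} (h1 : p.comp p = p)
    (h2 : ContinuousLinearMap.adjoint p = p) : ‖p‖ₑ ≤ 1 := by
  have : ‖p‖ ≤ 1 := ContinuousLinearMap.opNorm_le_bound _ zero_le_one fun v => by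
    rw [one_mul]
    exact norm_proj_le h1 h2 v
  rw [← ofReal_norm]
  exact ENNReal.ofReal_le_one.mpr this

omit [AddCommGroup Γ] [Len Γ] in
theorem kcomp_diag_left {E F G : Type} [NormedAddCommGroup E] [NormedSpace ℂ E]
    [NormedAddCommGroup F] [NormedSpace ℂ F] [NormedAddCommGroup G] [NormedSpace ℂ G]
    (q : Γ → (F →L[ℂ] G)) (B : Γ → Γ → (E →L[ℂ] F)) (m l : Γ) :
    kcomp (diagK q) B m l = (q m).comp (B m l) := by
  unfold kcomp
  rw [tsum_eq_single m]
  · simp [diagK]
  · intro j hj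
    simp [diagK, hj.symm]

omit [AddCommGroup Γ] [Len Γ] in
theorem kcomp_diag_right {E F G : Type} [NormedAddCommGroup E] [NormedSpace ℂ E]
    [NormedAddCommGroup F] [NormedSpace ℂ F] [NormedAddCommGroup G] [NormedSpace ℂ G]
    (q : Γ → (E →L[ℂ] F)) (B : Γ → Γ → (F →L[ℂ] G)) (m l : Γ) :
    kcomp B (diagK q) m l = (B m l).comp (q l) := by
  unfold kcomp
  rw [tsum_eq_single l]
  · simp [diagK]
  · intro j hj
    simp [diagK, hj]

omit [AddCommGroup Γ] [Len Γ] in
theorem act_diag {E F : Type} [NormedAddCommGroup E] [NormedSpace ℂ E]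
    [NormedAddCommGroup F] [NormedSpace ℂ F]
    (q : Γ → (E →L[ℂ] F)) (f : Γ → E) (m : Γ) : act (diagK q) f m = q m (f m) := by
  unfold act
  rw [tsum_eq_single m]
  · simp [diagK]
  · intro j hj
    simp [diagK, hj.symm]

/-- The real diagonal multiplier. -/
noncomputable def sc (φ : Γ → ℝ) (m : Γ) : Mat := ((φ m : ℝ) : ℂ) • ContinuousLinearMap.id ℂ C3

theorem sK_sc (φ : Γ → ℝ) (h10 : W10) {C : ℝ} (h : ∀ m, |φ m| ≤ C) :
    sK 0 (diagK (sc φ)) ≠ ∞ := by
  have h1 := (h10 Γ C3 C3 C3 0 le_rfl).2.2.2.2.1 (sc φ) (ENNReal.ofReal C) ?_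
  · exact ne_top_of_le_ne_top ENNReal.ofReal_ne_top h1
  · intro m
    rw [← ofReal_norm]
    refine ENNReal.ofReal_le_ofReal ?_
    refine (ContinuousLinearMap.opNorm_le_bound _ ((abs_nonneg _).trans (h m)) fun v => ?_)
    have : sc φ m v = ((φ m : ℝ) : ℂ) • v := rfl
    rw [this, norm_smul, Complex.norm_real, Real.norm_eq_abs]
    gcongr
    exact h m

theorem lip {l : Γ} {η r : ℝ} (hη : 0 ≤ η) (j k : Γ) :
    |min (η * len (j + k - l)) r - min (η * len (j - l)) r| ≤ η * len k := by
  refine (abs_min_sub_min_le_max _ _ _ _).trans ?_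
  rw [sub_self, abs_zero, max_eq_left (abs_nonneg _), ← mul_sub, abs_mul, abs_of_nonneg hη]
  gcongr
  rw [abs_le]
  constructor
  · have h1 := len_add (j + k - l) (-k)
    rw [len_neg, show j + k - l + -k = j - l by abel] at h1
    linarith
  · have h1 := len_add (j - l) k
    rw [show j - l + k = j + k - l by abel] at h1
    linarith

end CT

open CT in
theorem pr_W15 (h10 : W10) (_h11 : W11) (h14 : W14) : W15 := by
  classical
  intro Γ _ _ Λ c a b p A hc ha hab hA hΛ hsupp hp hpa hPA hAP hcoer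
  obtain ⟨h14a, h14b, h14c, h14d, h14e⟩ := h14 Γ
  have h10' := h10 Γ C3 C3 C3 c hc.le
  have hb : 0 < b := lt_of_lt_of_le ha hab
  -- finiteness
  have hAf : sK 0 A ≠ ∞ :=
    ne_top_of_le_ne_top ENNReal.ofReal_ne_top (((h10'.2.2.2.2.2.2.1 0 hc.le).1 A).trans hA)
  have hPf : sK 0 (diagK p) ≠ ∞ := by
    refine ne_top_of_le_ne_top ENNReal.one_ne_top
      ((h10 Γ C3 C3 C3 0 le_rfl).2.2.2.2.1 p 1 fun m => ?_)
    exact enorm_clm_le_one (hp m) (hpa m)
  obtain ⟨P, hP⟩ : ∃ P, P = opK (diagK p) := ⟨_, rfl⟩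
  obtain ⟨A0, hA0⟩ : ∃ A0, A0 = opK A := ⟨_, rfl⟩
  have hPm : ∀ (f : H2 Γ) (m : Γ), (P f : Γ → C3) m = p m (f m) := by
    intro f m
    rw [hP, (h14a _ hPf).1, act_diag]
  have hPP : P.comp P = P := by
    ext1 f
    refine lp.ext (funext fun m => ?_)
    rw [ContinuousLinearMap.comp_apply, hPm, hPm]
    exact DFunLike.congr_fun (hp m) (f m)
  have hPadj : ContinuousLinearMap.adjoint P = P := by
    rw [hP, ← h14c _ hPf]
    congr 1
    funext m l
    unfold diagK
    by_cases h : l = m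
    · subst h
      simp [hpa l]
    · simp [h, Ne.symm h]
  have hA0P : A0.comp P = A0 := by
    rw [hA0, hP, ← (h14b _ _ hAf hPf).1, hAP]
  have hPA0 : P.comp A0 = A0 := by
    rw [hA0, hP, ← (h14b _ _ hPf hAf).1, hPA]
  obtain ⟨A', hA'⟩ : ∃ A', A' = A0 + (a : ℂ) • (ContinuousLinearMap.id ℂ (H2 Γ) - P) := ⟨_, rfl⟩
  have hA'm : ∀ (f : H2 Γ) (m : Γ), (A' f : Γ → C3) m =
      act A f m + (a : ℂ) • (f m - p m (f m)) := by
    intro f m
    rw [hA']
    simp only [add_apply, smul_apply,
      sub_apply, ContinuousLinearMap.id_apply, lp.coeFn_add, lp.coeFn_smul,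
      lp.coeFn_sub, Pi.add_apply, Pi.smul_apply, Pi.sub_apply, hPm]
    rw [hA0, (h14a _ hAf).1]
  -- coercivity
  have hA'c : ∀ f : H2 Γ, a * ‖f‖ ^ 2 ≤ (inner ℂ (A' f) f).re := by
    intro f
    have e1 : inner ℂ (A0 f) f = inner ℂ (A0 (P f)) (P f) := by
      have e2 : A0 f = P (A0 (P f)) := by
        have h1 : A0 (P f) = A0 f := DFunLike.congr_fun hA0P f
        have h2 : P (A0 f) = A0 f := DFunLike.congr_fun hPA0 f
        rw [h1, h2]
      rw [e2]
      nth_rewrite 1 [← hPadj]
      rw [ContinuousLinearMap.adjoint_inner_left]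
    have e3 : inner ℂ (P f) f = inner ℂ (P f) (P f) := by
      have h1 : P f = P (P f) := (DFunLike.congr_fun hPP f).symm
      nth_rewrite 1 [h1]
      nth_rewrite 1 [← hPadj]
      rw [ContinuousLinearMap.adjoint_inner_left]
    have e4 := hcoer (P f) (by rw [← hP]; exact DFunLike.congr_fun hPP f)
    rw [← hA0] at e4
    rw [hA']
    simp only [add_apply, smul_apply,
      sub_apply, ContinuousLinearMap.id_apply, inner_add_left,
      inner_smul_left, inner_sub_left, e1, e3, Complex.add_re, Complex.conj_ofReal,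
      Complex.re_ofReal_mul, Complex.sub_re]
    have e5 : (inner ℂ f f : ℂ).re = ‖f‖ ^ 2 := by
      rw [inner_self_eq_norm_sq_to_K]
      norm_cast
    have e6 : (inner ℂ (P f) (P f) : ℂ).re = ‖P f‖ ^ 2 := by
      rw [inner_self_eq_norm_sq_to_K]
      norm_cast
    rw [e5, e6]
    linarith
  -- the inverse
  obtain ⟨R', hR1, hR2⟩ : ∃ R' : H2 Γ →L[ℂ] H2 Γ, (∀ f, A' (R' f) = f) ∧ ∀ f, R' (A' f) = f := by
    obtain ⟨u, hu⟩ := ContinuousLinearMap.isUnit_of_forall_le_norm_inner_map A'
      (c := Real.toNNReal a) (Real.toNNReal_pos.mpr ha) (fun x => by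
        have h1 := hA'c x
        have h2 := (Complex.re_le_norm (inner ℂ (A' x) x)).trans' h1
        rw [Real.coe_toNNReal a ha.le]
        linarith)
    refine ⟨((u⁻¹ : (H2 Γ →L[ℂ] H2 Γ)ˣ) : H2 Γ →L[ℂ] H2 Γ), fun f => ?_, fun f => ?_⟩
    · rw [← hu]
      have := u.mul_inv
      exact DFunLike.congr_fun this f
    · rw [← hu]
      have := u.inv_mul
      exact DFunLike.congr_fun this f
  have hs0 : 0 ≤ a / (2 * b) := by positivity
  have hs1 : a / (2 * b) ≤ 1 := by
    rw [div_le_one (by positivity)]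
    linarith
  obtain ⟨η, hη⟩ : ∃ η, η = c * a / (2 * b) := ⟨_, rfl⟩
  have hη0 : 0 < η := by rw [hη]; positivity
  have hηs : η = a / (2 * b) * c := by rw [hη]; ring
  -- the decay
  have hdecay : ∀ (l : Γ) (x : C3) (m : Γ),
      ‖(R' (lp.single 2 l x) : Γ → C3) m‖ ≤ 2 / a * Real.exp (-η * len (m - l)) * ‖x‖ := by
    intro l x m
    obtain ⟨φ, hφ⟩ : ∃ φ : Γ → ℝ, φ = fun m' => min (η * len (m' - l)) (η * len (m - l)) :=
      ⟨_, rfl⟩
    have hφ0 : ∀ j, 0 ≤ φ j := by
      intro j
      rw [hφ]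
      exact le_min (mul_nonneg hη0.le (len_nonneg _)) (mul_nonneg hη0.le (len_nonneg _))
    have hφr : ∀ j, φ j ≤ η * len (m - l) := by
      intro j
      rw [hφ]
      exact min_le_right _ _
    have hφl : φ l = 0 := by
      rw [hφ]
      simp only [sub_self, len_zero, mul_zero]
      exact min_eq_left (mul_nonneg hη0.le (len_nonneg _))
    have hφm : φ m = η * len (m - l) := by
      rw [hφ]
      simp
    have hφlip : ∀ j k, |φ (j + k) - φ j| ≤ η * len k := by
      intro j k
      rw [hφ]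
      exact lip hη0.le j k
    -- diagonal operators
    have hDf : sK 0 (diagK (sc fun j => Real.exp (φ j))) ≠ ∞ := by
      refine sK_sc _ h10 (C := Real.exp (η * len (m - l))) fun j => ?_
      rw [abs_of_pos (Real.exp_pos _)]
      exact Real.exp_le_exp.mpr (hφr j)
    have hDmf : sK 0 (diagK (sc fun j => Real.exp (-φ j))) ≠ ∞ := by
      refine sK_sc _ h10 (C := 1) fun j => ?_
      rw [abs_of_pos (Real.exp_pos _)]
      exact Real.exp_le_one_iff.mpr (neg_nonpos.mpr (hφ0 j))
    obtain ⟨D, hD⟩ : ∃ D, D = opK (diagK (sc fun j => Real.exp (φ j))) := ⟨_, rfl⟩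
    obtain ⟨D', hD'⟩ : ∃ D', D' = opK (diagK (sc fun j => Real.exp (-φ j))) := ⟨_, rfl⟩
    have hDm : ∀ (f : H2 Γ) (j : Γ), (D f : Γ → C3) j = ((Real.exp (φ j) : ℝ) : ℂ) • f j := by
      intro f j
      rw [hD, (h14a _ hDf).1, act_diag]
      rfl
    have hD'm : ∀ (f : H2 Γ) (j : Γ), (D' f : Γ → C3) j = ((Real.exp (-φ j) : ℝ) : ℂ) • f j := by
      intro f j
      rw [hD', (h14a _ hDmf).1, act_diag]
      rfl
    have hD'D : ∀ f, D' (D f) = f := by
      intro f
      refine lp.ext (funext fun j => ?_)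
      rw [hD'm, hDm, smul_smul, ← Complex.ofReal_mul, ← Real.exp_add]
      simp
    -- the perturbation
    obtain ⟨K, hK⟩ : ∃ K : Γ → Γ → Mat,
        K = fun i j => ((Real.exp (φ i - φ j) - 1 : ℝ) : ℂ) • A i j := ⟨_, rfl⟩
    have hKle : sK 0 K ≤ ENNReal.ofReal (a / 2) := by
      have h1 : sK 0 K ≤ ENNReal.ofReal (a / (2 * b)) * sK c A := by
        unfold sK
        rw [← ENNReal.tsum_mul_left]
        refine ENNReal.tsum_le_tsum fun k => ?_
        rw [zero_mul, Real.exp_zero, ENNReal.ofReal_one, one_mul, ← mul_assoc,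
          ENNReal.mul_iSup]
        refine iSup_mono fun j => ?_
        rw [hK]
        simp only
        rw [enorm_smul]
        gcongr
        rw [← ofReal_norm, Complex.norm_real, Real.norm_eq_abs, ← ENNReal.ofReal_mul hs0]
        refine ENNReal.ofReal_le_ofReal ?_
        refine exp_sub_one_le hs0 hs1 ?_
        rw [← mul_assoc, ← hηs]
        exact hφlip j k
      refine h1.trans ?_
      calc ENNReal.ofReal (a / (2 * b)) * sK c A
          ≤ ENNReal.ofReal (a / (2 * b)) * ENNReal.ofReal b := by gcongr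
        _ = ENNReal.ofReal (a / 2) := by
            rw [← ENNReal.ofReal_mul hs0]
            congr 1
            field_simp
    have hKf : sK 0 K ≠ ∞ := ne_top_of_le_ne_top ENNReal.ofReal_ne_top hKle
    have hKn : ‖opK K‖ ≤ a / 2 := by
      have h1 := ((h14a K hKf).2.2).trans hKle
      exact (ENNReal.ofReal_le_ofReal_iff (by positivity)).mp h1
    have hconj : ∀ f, D (A' (D' f)) = A' f + opK K f := by
      intro f
      refine lp.ext (funext fun i => ?_)
      rw [lp.coeFn_add, Pi.add_apply, hDm, hA'm, hA'm, (h14a K hKf).1, hD'm]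
      have s1 := (h14a A hAf).2.1 (D' f) i
      have s2 := (h14a A hAf).2.1 f i
      have e1 : ((Real.exp (φ i) : ℝ) : ℂ) • act A (D' f) i = act A f i + act K f i := by
        unfold act
        rw [← (s2.tsum_add ((h14a K hKf).2.1 f i)), ← s1.tsum_const_smul]
        refine tsum_congr fun j => ?_
        rw [hD'm, map_smul, smul_smul, hK]
        simp only [smul_apply]
        rw [← Complex.ofReal_mul, ← Real.exp_add, ← sub_eq_add_neg]
        push_cast
        rw [sub_smul, one_smul]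
        abel
      have e2 : ((Real.exp (φ i) : ℝ) : ℂ) * (a : ℂ) * ((Real.exp (-φ i) : ℝ) : ℂ) = a := by
        rw [mul_right_comm, ← Complex.ofReal_mul, ← Real.exp_add]
        simp
      rw [smul_add, e1, map_smul, ← smul_sub, smul_smul, smul_smul, e2]
      abel
    obtain ⟨y, hy⟩ : ∃ y, y = R' (lp.single 2 l x) := ⟨_, rfl⟩
    have hAy : A' y = lp.single 2 l x := by rw [hy]; exact hR1 _
    have hz : A' (D y) + opK K (D y) = lp.single 2 l x := by
      rw [← hconj, hD'D, hAy]
      refine lp.ext (funext fun j => ?_)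
      rw [hDm]
      by_cases hj : j = l
      · subst hj
        rw [hφl]
        simp
      · rw [lp.single_apply_ne _ _ _ hj, smul_zero]
    have hzn : ‖D y‖ ≤ 2 / a * ‖x‖ := by
      have h1 := hA'c (D y)
      have h2 : (inner ℂ (A' (D y)) (D y)).re + (inner ℂ (opK K (D y)) (D y)).re ≤
          ‖x‖ * ‖D y‖ := by
        rw [← Complex.add_re, ← inner_add_left, hz]
        refine (Complex.re_le_norm _).trans ((norm_inner_le_norm _ _).trans ?_)
        rw [lp.norm_single (by norm_num)]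
      have h3 : -(a / 2 * ‖D y‖ ^ 2) ≤ (inner ℂ (opK K (D y)) (D y)).re := by
        have h4 : |(inner ℂ (opK K (D y)) (D y)).re| ≤ a / 2 * ‖D y‖ ^ 2 := by
          refine (Complex.abs_re_le_norm _).trans ((norm_inner_le_norm _ _).trans ?_)
          have h5 := (opK K).le_opNorm (D y)
          have h6 : ‖opK K‖ * ‖D y‖ ≤ a / 2 * ‖D y‖ := by gcongr
          nlinarith [norm_nonneg (D y)]
        exact neg_le_of_abs_le h4
      have h5 : a / 2 * ‖D y‖ ^ 2 ≤ ‖x‖ * ‖D y‖ := by linarith
      rcases (norm_nonneg (D y)).eq_or_lt with h | h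
      · rw [← h]
        positivity
      · have h6 : a / 2 * ‖D y‖ ≤ ‖x‖ := by nlinarith
        rw [div_mul_eq_mul_div, le_div_iff₀ ha]
        linarith
    have h7 : ‖(D y : Γ → C3) m‖ ≤ ‖D y‖ := lp.norm_apply_le_norm (by norm_num) _ _
    rw [hDm, norm_smul, Complex.norm_real, Real.norm_eq_abs, abs_of_pos (Real.exp_pos _),
      hφm] at h7
    have h8 := h7.trans hzn
    rw [hy] at h8
    have h9 : Real.exp (-η * len (m - l)) * Real.exp (η * len (m - l)) = 1 := by
      rw [← Real.exp_add]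
      simp
    calc ‖(R' (lp.single 2 l x) : Γ → C3) m‖
        = Real.exp (-η * len (m - l)) * (Real.exp (η * len (m - l)) *
            ‖(R' (lp.single 2 l x) : Γ → C3) m‖) := by rw [← mul_assoc, h9, one_mul]
      _ ≤ Real.exp (-η * len (m - l)) * (2 / a * ‖x‖) :=
          mul_le_mul_of_nonneg_left h8 (Real.exp_pos _).le
      _ = _ := by ring
  -- the support
  have hsuppR : ∀ (l : Γ) (x : C3) (m : Γ), m - l ∉ Λ →
      (R' (lp.single 2 l x) : Γ → C3) m = 0 := by
    intro l x m hm
    obtain ⟨χ, hχ⟩ : ∃ χ : Γ → ℝ, χ = fun j => if j - l ∈ Λ then 1 else 0 := ⟨_, rfl⟩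
    have hQf : sK 0 (diagK (sc χ)) ≠ ∞ := by
      refine sK_sc _ h10 (C := 1) fun j => ?_
      rw [hχ]
      by_cases h : j - l ∈ Λ <;> simp [h]
    obtain ⟨Q, hQ⟩ : ∃ Q, Q = opK (diagK (sc χ)) := ⟨_, rfl⟩
    have hQm : ∀ (f : H2 Γ) (j : Γ), (Q f : Γ → C3) j = ((χ j : ℝ) : ℂ) • f j := by
      intro f j
      rw [hQ, (h14a _ hQf).1, act_diag]
      rfl
    have hcomm : ∀ f, A' (Q f) = Q (A' f) := by
      intro f
      refine lp.ext (funext fun i => ?_)
      rw [hQm, hA'm, hA'm, hQm]
      have e1 : act A (Q f) i = ((χ i : ℝ) : ℂ) • act A f i := by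
        unfold act
        rw [← ((h14a A hAf).2.1 f i).tsum_const_smul]
        refine tsum_congr fun j => ?_
        rw [hQm, map_smul]
        by_cases hij : i - j ∈ Λ
        · have : χ j = χ i := by
            rw [hχ]
            have h1 : i - l ∈ Λ ↔ j - l ∈ Λ := by
              constructor
              · intro h
                have := Λ.sub_mem h hij
                rwa [show i - l - (i - j) = j - l by abel] at this
              · intro h
                have := Λ.add_mem hij h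
                rwa [show i - j + (j - l) = i - l by abel] at this
            simp only [h1]
          rw [this]
        · rw [hsupp i j hij]
          simp
      rw [e1, smul_add, map_smul, ← smul_sub, smul_smul, smul_smul, mul_comm (a : ℂ)]
    obtain ⟨y, hy⟩ : ∃ y, y = R' (lp.single 2 l x) := ⟨_, rfl⟩
    have hAy : A' y = lp.single 2 l x := by rw [hy]; exact hR1 _
    have h1 : A' (Q y) = A' y := by
      rw [hcomm, hAy]
      refine lp.ext (funext fun j => ?_)
      rw [hQm]
      by_cases hj : j = l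
      · subst hj
        rw [hχ]
        simp [Λ.zero_mem]
      · rw [lp.single_apply_ne _ _ _ hj, smul_zero]
    have h2 : Q y = y := by
      rw [← hR2 (Q y), h1, hR2]
    rw [← hy, ← h2, hQm, hχ]
    simp [hm]
  -- the kernel
  obtain ⟨R, hR⟩ : ∃ R : Γ → Γ → Mat, R = fun m l => (p m).comp ((lp.evalCLM ℂ (fun _ => C3) 2 m).comp
      (R'.comp ((lp.singleContinuousLinearMap ℂ (fun _ => C3) 2 l).comp (p l)))) := ⟨_, rfl⟩
  have hRx : ∀ m l x, R m l x = p m ((R' (lp.single 2 l (p l x)) : Γ → C3) m) := by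
    intro m l x
    rw [hR]
    rfl
  have hRn : ∀ m l, ‖R m l‖ ≤ 2 / a * Real.exp (-η * len (m - l)) := by
    intro m l
    refine ContinuousLinearMap.opNorm_le_bound _ (by positivity) fun x => ?_
    rw [hRx]
    refine (norm_proj_le (hp m) (hpa m) _).trans ((hdecay l (p l x) m).trans ?_)
    gcongr
    exact norm_proj_le (hp l) (hpa l) x
  have hRs : ∀ m l, m - l ∉ Λ → R m l = 0 := by
    intro m l hml
    ext1 x
    rw [hRx, hsuppR l _ m hml, map_zero]
    rfl
  have hRK : sK (η / 2) R ≤ ENNReal.ofReal (2 / a) * eSL Λ (η / 2) := by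
    unfold sK eSL
    have e1 : (∑' k : Λ, ENNReal.ofReal (Real.exp (-(η / 2) * len (k : Γ)))) =
        ∑' k : Γ, (Λ : Set Γ).indicator
          (fun k => ENNReal.ofReal (Real.exp (-(η / 2) * len k))) k :=
      tsum_subtype (Λ : Set Γ) (fun k => ENNReal.ofReal (Real.exp (-(η / 2) * len k)))
    rw [e1, ← ENNReal.tsum_mul_left]
    refine ENNReal.tsum_le_tsum fun k => ?_
    by_cases hk : k ∈ Λ
    · rw [Set.indicator_of_mem (by exact hk)]
      have h1 : (⨆ l, ‖R (l + k) l‖ₑ) ≤
          ENNReal.ofReal (2 / a * Real.exp (-η * len k)) := by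
        refine iSup_le fun l => ?_
        rw [← ofReal_norm]
        refine ENNReal.ofReal_le_ofReal ?_
        have := hRn (l + k) l
        rwa [add_sub_cancel_left] at this
      calc ENNReal.ofReal (Real.exp (η / 2 * len k)) * ⨆ l, ‖R (l + k) l‖ₑ
          ≤ ENNReal.ofReal (Real.exp (η / 2 * len k)) *
            ENNReal.ofReal (2 / a * Real.exp (-η * len k)) := by gcongr
        _ = ENNReal.ofReal (2 / a) * ENNReal.ofReal (Real.exp (-(η / 2) * len k)) := by
            rw [← ENNReal.ofReal_mul (by positivity), ← ENNReal.ofReal_mul (by positivity)]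
            congr 1
            rw [mul_left_comm, ← Real.exp_add]
            congr 2
            ring
    · have h1 : (⨆ l, ‖R (l + k) l‖ₑ) = 0 := by
        rw [ENNReal.iSup_eq_zero]
        intro l
        rw [hRs (l + k) l (by rwa [add_sub_cancel_left])]
        exact enorm_zero (E := Mat)
      rw [h1, mul_zero]
      exact bot_le
  have hRf : sK 0 R ≠ ∞ := by
    refine ne_top_of_le_ne_top ?_ ((((h10 Γ C3 C3 C3 (η / 2) (by positivity)).2.2.2.2.2.2.1 0
      (by positivity)).1 R).trans hRK)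
    exact ENNReal.mul_ne_top ENNReal.ofReal_ne_top (hΛ _ (by positivity))
  have hopR : opK R = P.comp (R'.comp P) := by
    ext1 f
    refine lp.ext (funext fun m => ?_)
    rw [(h14a R hRf).1, ContinuousLinearMap.comp_apply, ContinuousLinearMap.comp_apply, hPm]
    have h1 := (lp.hasSum_single (by norm_num) (P f)).mapL
      ((p m).comp ((lp.evalCLM ℂ (fun _ => C3) 2 m).comp R'))
    have h2 := h1.tsum_eq
    refine Eq.trans ?_ h2
    unfold act
    refine tsum_congr fun l => ?_
    have e : (P f : Γ → C3) l = p l (f l) := hPm f l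
    rw [hRx, e]
    rfl
  have hA'P : A'.comp P = A0 := by
    rw [hA', ContinuousLinearMap.add_comp, hA0P, ContinuousLinearMap.smul_comp,
      ContinuousLinearMap.sub_comp, hPP, ContinuousLinearMap.id_comp, sub_self, smul_zero,
      add_zero]
  have hPA' : P.comp A' = A0 := by
    rw [hA', ContinuousLinearMap.comp_add, hPA0, ContinuousLinearMap.comp_smul,
      ContinuousLinearMap.comp_sub, hPP, ContinuousLinearMap.comp_id, sub_self, smul_zero,
      add_zero]
  have hRP : ∀ f, R' (P f) = P (R' f) := by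
    intro f
    have h1 : A' (P (R' f)) = P (A' (R' f)) := by
      have h2 := DFunLike.congr_fun hA'P (R' f)
      have h3 := DFunLike.congr_fun hPA' (R' f)
      exact h2.trans h3.symm
    rw [hR1] at h1
    rw [← h1, hR2]
  rw [← hη]
  refine ⟨R, ?_, ?_, ?_, ?_, hRs, ?_, hRK⟩
  · funext m l
    rw [kcomp_diag_left]
    ext1 x
    rw [ContinuousLinearMap.comp_apply, hRx]
    exact DFunLike.congr_fun (hp m) _
  · funext m l
    rw [kcomp_diag_right]
    ext1 x
    rw [ContinuousLinearMap.comp_apply, hRx, hRx]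
    have : p l (p l x) = p l x := DFunLike.congr_fun (hp l) x
    rw [this]
  · refine h14e _ _ ?_ hPf ?_
    · refine ne_top_of_le_ne_top ?_ ((h10 Γ C3 C3 C3 0 le_rfl).1 A R)
      exact ENNReal.mul_ne_top hAf hRf
    · rw [(h14b _ _ hAf hRf).1, hopR, ← hA0, ← hP]
      ext1 f
      simp only [ContinuousLinearMap.comp_apply]
      have h2 : A0 (P (R' (P f))) = A' (P (R' (P f))) := by
        rw [← hA'P]
        simp only [ContinuousLinearMap.comp_apply]
        have : P (P (R' (P f))) = P (R' (P f)) := DFunLike.congr_fun hPP _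
        rw [this]
      rw [h2, ← hRP, hR1]
      exact DFunLike.congr_fun hPP f
  · refine h14e _ _ ?_ hPf ?_
    · refine ne_top_of_le_ne_top ?_ ((h10 Γ C3 C3 C3 0 le_rfl).1 R A)
      exact ENNReal.mul_ne_top hRf hAf
    · rw [(h14b _ _ hRf hAf).1, hopR, ← hA0, ← hP]
      ext1 f
      simp only [ContinuousLinearMap.comp_apply]
      have h2 : P (A0 f) = A0 f := DFunLike.congr_fun hPA0 f
      rw [h2, ← hPA', ContinuousLinearMap.comp_apply, hRP, hR2]
      exact DFunLike.congr_fun hPP f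
  · intro m l
    exact hRn m l

end Pool.Agent.Work.MP_b0497c_an.Unf.W
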