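import Pool.Agent.Work.MP_b0497c_an.Bd.B03

set_option autoImplicit false
set_option linter.unusedSectionVars false

/-!
# W19: phases which do not occur in the deformation gradient are not mixed by the projector
-/

open scoped ENNReal
open Set MeasureTheory

namespace Pool.Agent.Work.MP_b0497c_an.Unf.W

namespace W19

theorem norm_pr_le (v : C3) : ‖pr v‖ₑ ≤ 1 := by
  have h : ‖pr v‖ ≤ 1 := by
    unfold pr
    rw [norm_smul, ContinuousLinearMap.norm_smulRight_apply, innerSL_apply_norm]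
    by_cases hv : ‖v‖ = 0
    · rw [hv]
      simp
    · have : ‖((‖v‖ ^ 2 : ℝ)⁻¹ : ℂ)‖ = (‖v‖ ^ 2)⁻¹ := by
        rw [norm_inv]
        congr 1
        rw [Complex.norm_real, Real.norm_eq_abs, abs_of_nonneg (by positivity)]
      rw [this]
      field_simp
      rfl
  rw [← ofReal_norm, ← ENNReal.ofReal_one]
  exact ENNReal.ofReal_le_ofReal h

section

variable {Γ : Type} [AddCommGroup Γ] [Len Γ]
  {E F G : Type} [NormedAddCommGroup E] [NormedSpace ℂ E] [NormedAddCommGroup F] [NormedSpace ℂ F]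
  [NormedAddCommGroup G] [NormedSpace ℂ G]

theorem sN_adjC (c : ℝ) (a : Γ → Mat) : sN c (adjC a) = sN c a := by
  unfold sN adjC
  rw [← (Equiv.neg Γ).tsum_eq]
  refine tsum_congr fun k => ?_
  simp only [Equiv.neg_apply, len_neg, neg_neg]
  congr 1
  rw [← ofReal_norm, ← ofReal_norm, LinearIsometryEquiv.norm_map]

/-- Block diagonal kernels. -/
def Bl (Λ : AddSubgroup Γ) (A : Γ → Γ → (E →L[ℂ] F)) : Prop := ∀ m l, m - l ∉ Λ → A m l = 0

open Classical in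
/-- The block diagonal part. -/
noncomputable def cut (Λ : AddSubgroup Γ) (A : Γ → Γ → (E →L[ℂ] F)) (m l : Γ) : E →L[ℂ] F :=
  if m - l ∈ Λ then A m l else 0

theorem Bl.kcomp {Λ : AddSubgroup Γ} {A : Γ → Γ → (F →L[ℂ] G)} {B : Γ → Γ → (E →L[ℂ] F)}
    (hA : Bl Λ A) (hB : Bl Λ B) : Bl Λ (kcomp A B) := by
  intro m l hml
  unfold W.kcomp
  have h : ∀ j, (A m j).comp (B j l) = 0 := by
    intro j
    by_cases h1 : m - j ∈ Λ
    · have h2 : j - l ∉ Λ := by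
        intro h2
        apply hml
        have := Λ.add_mem h1 h2
        rwa [sub_add_sub_cancel] at this
      rw [hB j l h2, ContinuousLinearMap.comp_zero]
    · rw [hA m j h1, ContinuousLinearMap.zero_comp]
  simp_rw [h]
  exact tsum_zero

theorem bl_diagK (Λ : AddSubgroup Γ) (a : Γ → (E →L[ℂ] F)) : Bl Λ (diagK a) := by
  intro m l hml
  unfold diagK
  rw [if_neg]
  rintro rfl
  apply hml
  rw [sub_self]
  exact Λ.zero_mem

theorem bl_mulK {Λ : AddSubgroup Γ} {a : Γ → (E →L[ℂ] F)} (ha : ∀ k, k ∉ Λ → a k = 0) :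
    Bl Λ (mulK a) := fun m l hml => ha (m - l) hml

theorem bl_adjC {Λ : AddSubgroup Γ} {a : Γ → Mat} (ha : ∀ k, k ∉ Λ → a k = 0) :
    ∀ k, k ∉ Λ → adjC a k = 0 := by
  intro k hk
  unfold adjC
  rw [ha (-k) (fun h => hk (by simpa using Λ.neg_mem h)), map_zero]

theorem cut_eq {Λ : AddSubgroup Γ} {A : Γ → Γ → (E →L[ℂ] F)} (hA : Bl Λ A) : cut Λ A = A := by
  funext m l
  unfold cut
  split_ifs with h
  · rfl
  · rw [hA m l h]

theorem bl_cut (Λ : AddSubgroup Γ) (A : Γ → Γ → (E →L[ℂ] F)) : Bl Λ (cut Λ A) := by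
  intro m l h
  unfold cut
  rw [if_neg h]

theorem kcomp_cut {Λ : AddSubgroup Γ} {A : Γ → Γ → (F →L[ℂ] G)} (B : Γ → Γ → (E →L[ℂ] F))
    (hA : Bl Λ A) : kcomp A (cut Λ B) = cut Λ (kcomp A B) := by
  funext m l
  by_cases hml : m - l ∈ Λ
  · unfold cut
    rw [if_pos hml]
    unfold kcomp
    refine tsum_congr fun j => ?_
    by_cases h1 : m - j ∈ Λ
    · have h2 : j - l ∈ Λ := by
        have := Λ.sub_mem hml h1
        rwa [sub_sub_sub_cancel_left] at this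
      simp only [h2, if_true]
    · rw [hA m j h1, ContinuousLinearMap.zero_comp, ContinuousLinearMap.zero_comp]
  · rw [hA.kcomp (bl_cut Λ B) m l hml, bl_cut Λ _ m l hml]

theorem cut_kcomp {Λ : AddSubgroup Γ} (A : Γ → Γ → (F →L[ℂ] G)) {B : Γ → Γ → (E →L[ℂ] F)}
    (hB : Bl Λ B) : kcomp (cut Λ A) B = cut Λ (kcomp A B) := by
  funext m l
  by_cases hml : m - l ∈ Λ
  · unfold cut
    rw [if_pos hml]
    unfold kcomp
    refine tsum_congr fun j => ?_
    by_cases h1 : j - l ∈ Λ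
    · have h2 : m - j ∈ Λ := by
        have := Λ.sub_mem hml h1
        rwa [sub_sub_sub_cancel_right] at this
      simp only [h2, if_true]
    · rw [hB j l h1, ContinuousLinearMap.comp_zero, ContinuousLinearMap.comp_zero]
  · rw [(bl_cut Λ A).kcomp hB m l hml, bl_cut Λ _ m l hml]

theorem sK_cut_le (c : ℝ) (Λ : AddSubgroup Γ) (A : Γ → Γ → (E →L[ℂ] F)) :
    sK c (cut Λ A) ≤ sK c A := by
  unfold sK
  refine ENNReal.tsum_le_tsum fun k => mul_le_mul' le_rfl (iSup_mono fun l => ?_)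
  unfold cut
  split_ifs
  · exact le_rfl
  · exact (enorm_zero (E := E →L[ℂ] F)).le.trans zero_le

/-- Finiteness of the norms of the kernels in the construction of the projector. -/
theorem finite (h10 : W10) (h16 : W16) {Λ : AddSubgroup Γ} {c b e : ℝ} {F Fi : Γ → Mat}
    (ξ : Γ → C3) (h : FData Λ c b e F Fi) : sK 0 (PK ξ) ≠ ∞ ∧ sK 0 (mulK Fi) ≠ ∞ ∧
      sK 0 (mulK (adjC Fi)) ≠ ∞ ∧ sK 0 (AK ξ Fi) ≠ ∞ ∧ sK 0 (RK ξ Fi) ≠ ∞ := by
  obtain ⟨k1, -, -, k4, k5, -, -, -⟩ := h10 Γ C3 C3 C3 0 le_rfl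
  obtain ⟨-, -, -, -, -, -, k7, -⟩ := h10 Γ C3 C3 C3 c h.c_pos.le
  have hP : sK 0 (PK ξ) ≠ ∞ :=
    ne_top_of_le_ne_top ENNReal.one_ne_top (k5 (fun m => pr (ξ m)) 1 fun m => norm_pr_le _)
  have hFi : sN 0 Fi ≠ ∞ := by
    have h1 : ∀ f : Γ → Mat, sN 0 f ≤ sN c f := by
      intro f
      unfold sN
      refine ENNReal.tsum_le_tsum fun k => mul_le_mul' (ENNReal.ofReal_le_ofReal ?_) le_rfl
      apply Real.exp_le_exp.2
      rw [zero_mul]
      exact mul_nonneg h.c_pos.le (len_nonneg k)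
    exact ne_top_of_le_ne_top ENNReal.ofReal_ne_top ((h1 Fi).trans h.Fi_le)
  have hM : sK 0 (mulK Fi) ≠ ∞ := by rw [k4]; exact hFi
  have hM' : sK 0 (mulK (adjC Fi)) ≠ ∞ := by rw [k4, sN_adjC]; exact hFi
  refine ⟨hP, hM, hM', ?_, ?_⟩
  · unfold AK
    have s1 : sK 0 (kcomp (mulK (adjC Fi)) (PK ξ)) ≠ ∞ :=
      ne_top_of_le_ne_top (ENNReal.mul_ne_top hM' hP) (k1 _ _)
    have s2 : sK 0 (kcomp (mulK Fi) (kcomp (mulK (adjC Fi)) (PK ξ))) ≠ ∞ :=
      ne_top_of_le_ne_top (ENNReal.mul_ne_top hM s1) (k1 _ _)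
    exact ne_top_of_le_ne_top (ENNReal.mul_ne_top hP s2) (k1 _ _)
  · obtain ⟨-, hR, hS, -⟩ := h16 Γ Λ c b e F Fi ξ h
    have hb : 0 < b := lt_of_lt_of_le one_pos h.b_one
    have he : 0 < e := lt_of_lt_of_le one_pos h.e_one
    have hc := h.c_pos
    have hη : 0 < c / (2 * b ^ 2 * e ^ 2) := by positivity
    have h1 : sK 0 (RK ξ Fi) ≤ ENNReal.ofReal (2 * b ^ 2) *
        eSL Λ (c / (2 * b ^ 2 * e ^ 2) - 0) := by
      refine w18_sum Λ (by positivity) (fun k => ⨆ l, ‖RK ξ Fi (l + k) l‖ₑ) (fun k hk => ?_)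
        (fun k => ?_)
      · simp only [ENNReal.iSup_eq_zero]
        intro l
        rw [(hS (l + k) l (by rwa [add_sub_cancel_left])).1]
        exact enorm_zero (E := Mat)
      · refine iSup_le fun l => ?_
        rw [← ofReal_norm]
        apply ENNReal.ofReal_le_ofReal
        have := hR (l + k) l
        rwa [add_sub_cancel_left] at this
    rw [sub_zero] at h1
    exact ne_top_of_le_ne_top (ENNReal.mul_ne_top ENNReal.ofReal_ne_top (h.sum _ hη)) h1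

end

end W19

theorem pr_W19 (h10 : W10) (h11 : W11) (h16 : W16) : W19 := by
  intro Γ _ _ Λ0 c b e F Fi ξ Λ h hFi
  obtain ⟨hP, hM, hM', hA, hR⟩ := W19.finite h10 h16 ξ h
  obtain ⟨⟨r1, r2, r3, r4⟩, -⟩ := h16 Γ Λ0 c b e F Fi ξ h
  obtain ⟨assoc, -⟩ := h11 Γ C3 C3 C3 C3
  have bP : W19.Bl Λ (PK ξ) := W19.bl_diagK Λ _
  have bM : W19.Bl Λ (mulK Fi) := W19.bl_mulK hFi
  have bM' : W19.Bl Λ (mulK (adjC Fi)) := W19.bl_mulK (W19.bl_adjC hFi)
  have bA : W19.Bl Λ (AK ξ Fi) := bP.kcomp (bM.kcomp (bM'.kcomp bP))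
  set R := RK ξ Fi with hRdef
  set R' := W19.cut Λ R with hR'def
  have e1 : kcomp (PK ξ) R' = R' := by rw [hR'def, W19.kcomp_cut R bP, r1]
  have e3 : kcomp (AK ξ Fi) R' = PK ξ := by
    rw [hR'def, W19.kcomp_cut R bA, r3, W19.cut_eq bP]
  have hR' : sK 0 R' ≠ ∞ := ne_top_of_le_ne_top hR (W19.sK_cut_le 0 Λ R)
  have e5 : R = R' := by
    calc R = kcomp R (PK ξ) := r2.symm
      _ = kcomp R (kcomp (AK ξ Fi) R') := by rw [e3]
      _ = kcomp (kcomp R (AK ξ Fi)) R' := (assoc R (AK ξ Fi) R' hR hA hR').symm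
      _ = R' := by rw [r4, e1]
  have bR : W19.Bl Λ R := by
    rw [e5]
    exact W19.bl_cut Λ R
  exact bM'.kcomp (bR.kcomp bM)

end Pool.Agent.Work.MP_b0497c_an.Unf.W
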