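import Pool.Agent.Work.MP_b0497c_an.Unf.W10

set_option autoImplicit false

/-!
# W23: the crude propagator (Picard series)
-/

open scoped ENNReal Topology Interval
open Set MeasureTheory Filter

namespace Pool.Agent.Work.MP_b0497c_an.Unf.W

namespace I23

open I10

variable {Γ : Type} [AddCommGroup Γ]

open Classical in
/-- Convolution powers. -/
noncomputable def cp (a : Γ → ℝ) : ℕ → Γ → ℝ
  | 0 => fun k => if k = 0 then 1 else 0
  | n + 1 => fun k => ∑' j, a (k - j) * cp a n j

theorem cp_nonneg {a : Γ → ℝ} (ha : ∀ k, 0 ≤ a k) (n : ℕ) (k : Γ) : 0 ≤ cp a n k := by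
  induction n generalizing k with
  | zero => unfold cp; split_ifs <;> norm_num
  | succ n ih => exact tsum_nonneg fun j => mul_nonneg (ha _) (ih j)

variable [Len Γ]

theorem one_le_wt {c : ℝ} (hc : 0 ≤ c) (k : Γ) : 1 ≤ wt c k := by
  unfold wt
  rw [← ENNReal.ofReal_one]
  exact ENNReal.ofReal_le_ofReal (Real.one_le_exp (mul_nonneg hc (len_nonneg k)))

/-- The weighted sums of the convolution powers, and summability of the defining sums. -/
theorem cp_sum {c β : ℝ} {a : Γ → ℝ} (hc : 0 ≤ c) (ha : ∀ k, 0 ≤ a k)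
    (hs : ∑' k, wt c k * ENNReal.ofReal (a k) ≤ ENNReal.ofReal β) (n : ℕ) :
    ∑' k, wt c k * ENNReal.ofReal (cp a n k) ≤ ENNReal.ofReal β ^ n ∧
      ∀ k, Summable fun j => a (k - j) * cp a n j := by
  have key : ∀ n, ∑' k, wt c k * ENNReal.ofReal (cp a n k) ≤ ENNReal.ofReal β ^ n →
      ∀ k, ∑' j, ENNReal.ofReal (a (k - j)) * ENNReal.ofReal (cp a n j) ≠ ∞ := by
    intro n hn k
    have h1 := conv_le hc (fun k : Γ => ENNReal.ofReal (a k)) (fun k => ENNReal.ofReal (cp a n k))
      (fun k => ∑' j, ENNReal.ofReal (a (k - j)) * ENNReal.ofReal (cp a n j)) (fun m => le_rfl)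
    have h2 : (∑' k, wt c k * ENNReal.ofReal (a k)) *
        (∑' k, wt c k * ENNReal.ofReal (cp a n k)) ≤ ENNReal.ofReal β * ENNReal.ofReal β ^ n :=
      mul_le_mul' hs hn
    have h3 := ((ENNReal.le_tsum k).trans h1).trans h2
    have h4 : ENNReal.ofReal β * ENNReal.ofReal β ^ n < ∞ :=
      ENNReal.mul_lt_top ENNReal.ofReal_lt_top (ENNReal.pow_lt_top ENNReal.ofReal_lt_top)
    have h5 := (h3.trans_lt h4).ne
    have h6 : ∑' j, ENNReal.ofReal (a (k - j)) * ENNReal.ofReal (cp a n j) ≤
        wt c k * ∑' j, ENNReal.ofReal (a (k - j)) * ENNReal.ofReal (cp a n j) := by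
      calc _ = 1 * ∑' j, ENNReal.ofReal (a (k - j)) * ENNReal.ofReal (cp a n j) :=
            (one_mul _).symm
        _ ≤ _ := mul_le_mul_left (one_le_wt hc k) _
    exact (h6.trans_lt h5.lt_top).ne
  have summ : ∀ n, ∑' k, wt c k * ENNReal.ofReal (cp a n k) ≤ ENNReal.ofReal β ^ n →
      ∀ k, Summable fun j => a (k - j) * cp a n j := by
    intro n hn k
    have h := ENNReal.summable_toReal (key n hn k)
    refine h.congr fun j => ?_
    rw [← ENNReal.ofReal_mul (ha _), ENNReal.toReal_ofReal (mul_nonneg (ha _) (cp_nonneg ha n j))]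
  have main : ∀ n, ∑' k, wt c k * ENNReal.ofReal (cp a n k) ≤ ENNReal.ofReal β ^ n := by
    intro n
    induction n with
    | zero =>
      rw [pow_zero, tsum_eq_single 0]
      · rw [wt_zero]
        simp [cp]
      · intro k hk
        simp [cp, hk]
    | succ n ih =>
      have h1 := conv_le hc (fun k : Γ => ENNReal.ofReal (a k))
        (fun k => ENNReal.ofReal (cp a n k)) (fun k => ENNReal.ofReal (cp a (n + 1) k))
        (fun m => by
          show ENNReal.ofReal (∑' j, a (m - j) * cp a n j) ≤ _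
          rw [ENNReal.ofReal_tsum_of_nonneg (fun j => mul_nonneg (ha _) (cp_nonneg ha n j))
            (summ n ih m)]
          refine ENNReal.tsum_le_tsum fun j => ?_
          rw [ENNReal.ofReal_mul (ha _)])
      refine h1.trans ?_
      rw [pow_succ']
      exact mul_le_mul' hs ih
  exact ⟨main n, summ n (main n)⟩

theorem cp_le {c β : ℝ} {a : Γ → ℝ} (hc : 0 ≤ c) (hβ : 0 ≤ β) (ha : ∀ k, 0 ≤ a k)
    (hs : ∑' k, wt c k * ENNReal.ofReal (a k) ≤ ENNReal.ofReal β) (n : ℕ) (k : Γ) :
    cp a n k ≤ β ^ n := by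
  have h1 := (ENNReal.le_tsum k).trans (cp_sum hc ha hs n).1
  have h2 : ENNReal.ofReal (cp a n k) ≤ wt c k * ENNReal.ofReal (cp a n k) := by
    calc _ = 1 * ENNReal.ofReal (cp a n k) := (one_mul _).symm
      _ ≤ _ := mul_le_mul_left (one_le_wt hc k) _
  have h3 := h2.trans h1
  rw [← ENNReal.ofReal_pow hβ] at h3
  exact (ENNReal.ofReal_le_ofReal_iff (pow_nonneg hβ n)).mp h3

/-- The Picard iterates. -/
noncomputable def Pn (L : ℝ → Γ → Γ → Mat) : ℕ → ℝ → ℝ → Γ → Γ → Mat
  | 0 => fun _ _ => diagK fun _ => ContinuousLinearMap.id ℂ C3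
  | n + 1 => fun t s m l => ∫ r in s..t, kcomp (L r) (Pn L n r s) m l

section bounds

variable {c β : ℝ} {a : Γ → ℝ} {L : ℝ → Γ → Γ → Mat} (hc : 0 ≤ c) (hβ : 0 ≤ β)
  (ha : ∀ k, 0 ≤ a k) (hs : ∑' k, wt c k * ENNReal.ofReal (a k) ≤ ENNReal.ofReal β)
  (hL : ∀ t m l, ‖L t m l‖ ≤ a (m - l)) (hLc : ∀ m l, Continuous fun t => L t m l)

include hc ha hs hL

/-- One composition step: summability and bound. -/
theorem step_bound {x : ℝ} (_hx : 0 ≤ x) (n : ℕ) (B : Γ → Γ → Mat)
    (hB : ∀ m l, ‖B m l‖ ≤ x * cp a n (m - l)) (t : ℝ) (m l : Γ) :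
    (Summable fun j => x * (a (m - j) * cp a n (j - l))) ∧
    (∑' j, x * (a (m - j) * cp a n (j - l)) = x * cp a (n + 1) (m - l)) ∧
    (∀ j, ‖(L t m j).comp (B j l)‖ ≤ x * (a (m - j) * cp a n (j - l))) ∧
    ‖kcomp (L t) B m l‖ ≤ x * cp a (n + 1) (m - l) := by
  have h1 : Summable fun j => a (m - l - j) * cp a n j := (cp_sum hc ha hs n).2 (m - l)
  have h2 : Summable fun j => a (m - j) * cp a n (j - l) := by
    have := (Equiv.subRight l).summable_iff.mpr h1
    refine this.congr fun j => ?_
    show a (m - l - (j - l)) * cp a n (j - l) = _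
    rw [sub_sub_sub_cancel_right]
  have h3 : ∑' j, a (m - j) * cp a n (j - l) = cp a (n + 1) (m - l) := by
    show _ = ∑' j, a (m - l - j) * cp a n j
    rw [← (Equiv.subRight l).tsum_eq (fun j => a (m - l - j) * cp a n j)]
    refine tsum_congr fun j => ?_
    show _ = a (m - l - (j - l)) * cp a n (j - l)
    rw [sub_sub_sub_cancel_right]
  have h4 : ∀ j, ‖(L t m j).comp (B j l)‖ ≤ x * (a (m - j) * cp a n (j - l)) := by
    intro j
    calc ‖(L t m j).comp (B j l)‖ ≤ ‖L t m j‖ * ‖B j l‖ := ContinuousLinearMap.opNorm_comp_le _ _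
      _ ≤ a (m - j) * (x * cp a n (j - l)) :=
          mul_le_mul (hL t m j) (hB j l) (norm_nonneg _) (ha _)
      _ = x * (a (m - j) * cp a n (j - l)) := by ring
  have h5 : ∑' j, x * (a (m - j) * cp a n (j - l)) = x * cp a (n + 1) (m - l) := by
    rw [tsum_mul_left, h3]
  refine ⟨h2.mul_left x, h5, h4, ?_⟩
  rw [← h5]
  exact tsum_of_norm_bounded (h2.mul_left x).hasSum h4

/-- Joint continuity of the composition. -/
theorem step_cont (hLc : ∀ m l, Continuous fun t => L t m l) (n : ℕ) (B : ℝ → ℝ → Γ → Γ → Mat)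
    (hB : ∀ t s m l, ‖B t s m l‖ ≤ |t - s| ^ n / n.factorial * cp a n (m - l))
    (hBc : ∀ m l, Continuous fun q : ℝ × ℝ => B q.1 q.2 m l) (m l : Γ) :
    Continuous fun q : ℝ × ℝ => kcomp (L q.1) (B q.1 q.2) m l := by
  rw [continuous_iff_continuousAt]
  rintro ⟨t0, s0⟩
  set R : ℝ := |t0 - s0| + 1 with hR
  have hR0 : 0 ≤ R := by positivity
  have hopen : IsOpen {q : ℝ × ℝ | |q.1 - q.2| < R} :=
    isOpen_lt (by fun_prop) continuous_const
  have hmem : (t0, s0) ∈ {q : ℝ × ℝ | |q.1 - q.2| < R} := by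
    show |t0 - s0| < R
    rw [hR]; linarith
  have hx : 0 ≤ R ^ n / n.factorial := by positivity
  have hsum := (step_bound hc ha hs hL hx n (fun _ _ => 0) (fun m l => by
    rw [norm_zero]; exact mul_nonneg hx (cp_nonneg ha n _)) 0 m l).1
  have hcont : ContinuousOn (fun q : ℝ × ℝ => kcomp (L q.1) (B q.1 q.2) m l)
      {q : ℝ × ℝ | |q.1 - q.2| < R} := by
    apply continuousOn_tsum (u := fun j => R ^ n / n.factorial * (a (m - j) * cp a n (j - l)))
    · intro j
      exact (((hLc m j).comp continuous_fst).clm_comp (hBc j l)).continuousOn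
    · exact hsum
    · intro j q hq
      calc ‖(L q.1 m j).comp (B q.1 q.2 j l)‖ ≤ ‖L q.1 m j‖ * ‖B q.1 q.2 j l‖ :=
            ContinuousLinearMap.opNorm_comp_le _ _
        _ ≤ a (m - j) * (R ^ n / n.factorial * cp a n (j - l)) := by
            refine mul_le_mul (hL _ m j) ((hB q.1 q.2 j l).trans ?_) (norm_nonneg _) (ha _)
            apply mul_le_mul_of_nonneg_right _ (cp_nonneg ha n _)
            apply div_le_div_of_nonneg_right _ (by positivity)
            exact pow_le_pow_left₀ (abs_nonneg _) (le_of_lt hq) n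
        _ = R ^ n / n.factorial * (a (m - j) * cp a n (j - l)) := by ring
  exact hcont.continuousAt (hopen.mem_nhds hmem)

/-- Norms and continuity of the Picard iterates. -/
theorem Pn_main (hLc : ∀ m l, Continuous fun t => L t m l) (n : ℕ) :
    (∀ t s m l, ‖Pn L n t s m l‖ ≤ |t - s| ^ n / n.factorial * cp a n (m - l)) ∧
    (∀ m l, Continuous fun q : ℝ × ℝ => Pn L n q.1 q.2 m l) := by
  induction n with
  | zero =>
    refine ⟨?_, fun m l => by simp only [Pn]; exact continuous_const⟩
    intro t s m l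
    simp only [Pn, cp, diagK, pow_zero, Nat.factorial_zero, Nat.cast_one, div_one, one_mul]
    by_cases h : m = l
    · rw [if_pos h, if_pos (sub_eq_zero.mpr h)]
      exact ContinuousLinearMap.norm_id_le
    · rw [if_neg h, if_neg (fun h' => h (sub_eq_zero.mp h')), norm_zero]
  | succ n ih =>
    have hjc : ∀ m l, Continuous fun q : ℝ × ℝ => kcomp (L q.1) (Pn L n q.1 q.2) m l :=
      step_cont hc ha hs hL hLc n (Pn L n) ih.1 ih.2
    refine ⟨fun t s m l => ?_, fun m l => ?_⟩
    · have hcont : Continuous fun r => kcomp (L r) (Pn L n r s) m l :=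
        (hjc m l).comp (continuous_id.prodMk continuous_const)
      have hb : ∀ r, ‖kcomp (L r) (Pn L n r s) m l‖ ≤
          |r - s| ^ n / n.factorial * cp a (n + 1) (m - l) := fun r =>
        (step_bound hc ha hs hL (by positivity) n (Pn L n r s) (fun m l => ih.1 r s m l) r m
          l).2.2.2
      have hA : 0 ≤ cp a (n + 1) (m - l) := cp_nonneg ha _ _
      show ‖∫ r in s..t, kcomp (L r) (Pn L n r s) m l‖ ≤ _
      have h1 := intervalIntegral.norm_integral_le_abs_of_norm_le (a := s) (b := t) (μ := volume)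
        (f := fun r => kcomp (L r) (Pn L n r s) m l)
        (g := fun r => |r - s| ^ n / n.factorial * cp a (n + 1) (m - l))
        (Eventually.of_forall fun r => hb r)
        (Continuous.intervalIntegrable (by fun_prop) _ _)
      refine h1.trans (le_of_eq ?_)
      rw [intervalIntegral.abs_integral_eq_abs_integral_uIoc]
      have h2 : ∫ r in Ι s t, |r - s| ^ n / n.factorial * cp a (n + 1) (m - l) =
          (∫ r in Ι s t, |r - s| ^ n) * (cp a (n + 1) (m - l) / n.factorial) := by
        rw [← integral_mul_const]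
        congr 1
        funext r
        ring
      rw [h2, integral_pow_abs_sub_uIoc, abs_of_nonneg (by positivity), Nat.factorial_succ]
      push_cast
      field_simp
    · have h0 : ∀ q : ℝ × ℝ, Pn L (n + 1) q.1 q.2 m l =
          (∫ r in (0 : ℝ)..q.1, kcomp (L r) (Pn L n r q.2) m l) -
            ∫ r in (0 : ℝ)..q.2, kcomp (L r) (Pn L n r q.2) m l := by
        intro q
        show (∫ r in q.2..q.1, kcomp (L r) (Pn L n r q.2) m l) = _
        have hcont : Continuous fun r => kcomp (L r) (Pn L n r q.2) m l :=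
          (hjc m l).comp (continuous_id.prodMk continuous_const)
        rw [intervalIntegral.integral_interval_sub_left (hcont.intervalIntegrable _ _)
          (hcont.intervalIntegrable _ _)]
      simp only [h0]
      have hF : Continuous (Function.uncurry fun (q : ℝ × ℝ) (r : ℝ) =>
          kcomp (L r) (Pn L n r q.2) m l) := by
        exact (hjc m l).comp (continuous_snd.prodMk (continuous_snd.comp continuous_fst))
      exact (intervalIntegral.continuous_parametric_intervalIntegral_of_continuous hF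
        continuous_fst).sub
        (intervalIntegral.continuous_parametric_intervalIntegral_of_continuous hF continuous_snd)

/-- The propagator. -/
noncomputable def Sm (L : ℝ → Γ → Γ → Mat) (t s : ℝ) (m l : Γ) : Mat := ∑' n, Pn L n t s m l

include hβ in
omit hL in
theorem sum_aux {R : ℝ} (hR : 0 ≤ R) (k : Γ) :
    (Summable fun n : ℕ => R ^ n / n.factorial * cp a n k) ∧
    (Summable fun n : ℕ => R ^ n / n.factorial * cp a (n + 1) k) := by
  constructor
  · apply Summable.of_nonneg_of_le (fun n => by have := cp_nonneg ha n k; positivity) _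
      (Real.summable_pow_div_factorial (R * β))
    intro n
    rw [mul_pow]
    calc R ^ n / n.factorial * cp a n k ≤ R ^ n / n.factorial * β ^ n :=
          mul_le_mul_of_nonneg_left (cp_le hc hβ ha hs n k) (by positivity)
      _ = R ^ n * β ^ n / n.factorial := by ring
  · apply Summable.of_nonneg_of_le (fun n => by have := cp_nonneg ha (n + 1) k; positivity) _
      ((Real.summable_pow_div_factorial (R * β)).mul_left β)
    intro n
    rw [mul_pow]
    calc R ^ n / n.factorial * cp a (n + 1) k ≤ R ^ n / n.factorial * β ^ (n + 1) :=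
          mul_le_mul_of_nonneg_left (cp_le hc hβ ha hs (n + 1) k) (by positivity)
      _ = β * (R ^ n * β ^ n / n.factorial) := by ring

include hβ

theorem Sm_le (hLc : ∀ m l, Continuous fun t => L t m l) (t s : ℝ) (m l : Γ) :
    ‖Sm L t s m l‖ ≤ ∑' n : ℕ, |t - s| ^ n / n.factorial * cp a n (m - l) :=
  tsum_of_norm_bounded (sum_aux hc hβ ha hs (abs_nonneg _) (m - l)).1.hasSum
    fun n => (Pn_main hc ha hs hL hLc n).1 t s m l

theorem Pn_summable (hLc : ∀ m l, Continuous fun t => L t m l) (t s : ℝ) (m l : Γ) :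
    Summable fun n => Pn L n t s m l :=
  Summable.of_norm_bounded (sum_aux hc hβ ha hs (abs_nonneg _) (m - l)).1
    fun n => (Pn_main hc ha hs hL hLc n).1 t s m l

theorem Sm_kcomp (hLc : ∀ m l, Continuous fun t => L t m l) (t s : ℝ) (m l : Γ) :
    ∑' n, kcomp (L t) (Pn L n t s) m l = kcomp (L t) (Sm L t s) m l := by
  set R := |t - s| with hR
  have hR0 : 0 ≤ R := abs_nonneg _
  have hP := fun n => (Pn_main hc ha hs hL hLc n).1
  have hsb := fun n : ℕ => step_bound hc ha hs hL (x := R ^ n / n.factorial) (by positivity) n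
    (Pn L n t s) (fun m l => hP n t s m l) t m l
  have hF : Summable fun z : ℕ × Γ =>
      R ^ z.1 / z.1.factorial * (a (m - z.2) * cp a z.1 (z.2 - l)) := by
    rw [summable_prod_of_nonneg (fun z => by
      show 0 ≤ R ^ z.1 / z.1.factorial * (a (m - z.2) * cp a z.1 (z.2 - l))
      have h1 := cp_nonneg ha z.1 (z.2 - l)
      have h2 := ha (m - z.2)
      positivity)]
    refine ⟨fun n => (hsb n).1, ?_⟩
    refine (sum_aux hc hβ ha hs hR0 (m - l)).2.congr fun n => ?_
    exact (hsb n).2.1.symm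
  have hG : Summable (Function.uncurry fun (n : ℕ) (j : Γ) =>
      (L t m j).comp (Pn L n t s j l)) := by
    apply Summable.of_norm_bounded hF
    rintro ⟨n, j⟩
    exact (hsb n).2.2.1 j
  have hcomm := hG.tsum_comm
  show ∑' n, ∑' j, (L t m j).comp (Pn L n t s j l) = ∑' j, (L t m j).comp (Sm L t s j l)
  rw [← hcomm]
  refine tsum_congr fun j => ?_
  have hm := (ContinuousLinearMap.compL ℂ C3 C3 C3 (L t m j)).map_tsum
    (Pn_summable hc hβ ha hs hL hLc t s j l)
  exact hm.symm

theorem Sm_deriv (hLc : ∀ m l, Continuous fun t => L t m l) (t s : ℝ) (m l : Γ) :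
    HasDerivAt (fun t => Sm L t s m l) (kcomp (L t) (Sm L t s) m l) t := by
  set R : ℝ := |t - s| + 1 with hR
  have hR0 : 0 ≤ R := by positivity
  set g' : ℕ → ℝ → Mat := fun n r => Nat.casesOn n 0 (fun k => kcomp (L r) (Pn L k r s) m l)
    with hg'
  set u : ℕ → ℝ := fun n => Nat.casesOn n 0
    (fun k => R ^ k / k.factorial * cp a (k + 1) (m - l)) with hu
  have hus : Summable u := by
    rw [← summable_nat_add_iff 1]
    exact (sum_aux hc hβ ha hs hR0 (m - l)).2
  have hP := fun n => (Pn_main hc ha hs hL hLc n)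
  have hball : IsPreconnected (Metric.ball s R) := (convex_ball s R).isPreconnected
  have ht : t ∈ Metric.ball s R := by
    rw [Metric.mem_ball, Real.dist_eq, hR]; linarith
  have hmain := hasDerivAt_tsum_of_isPreconnected (g := fun n r => Pn L n r s m l) (g' := g')
    (u := u) hus Metric.isOpen_ball hball (y₀ := t) (y := t) (by
      intro n y _
      cases n with
      | zero =>
        simp only [Pn, hg']
        exact hasDerivAt_const _ _
      | succ k =>
        have hcont : Continuous fun r => kcomp (L r) (Pn L k r s) m l :=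
          (step_cont hc ha hs hL hLc k (Pn L k) (hP k).1 (hP k).2 m l).comp
            (continuous_id.prodMk continuous_const)
        exact (hcont.integral_hasStrictDerivAt s y).hasDerivAt) (by
      intro n y hy
      cases n with
      | zero => simp [hg', hu]
      | succ k =>
        have hy' : |y - s| ≤ R := by
          rw [Metric.mem_ball, Real.dist_eq] at hy
          exact hy.le
        have h1 := (step_bound hc ha hs hL (x := |y - s| ^ k / k.factorial) (by positivity) k
          (Pn L k y s) (fun m l => (hP k).1 y s m l) y m l).2.2.2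
        refine h1.trans ?_
        show |y - s| ^ k / k.factorial * cp a (k + 1) (m - l) ≤
          R ^ k / k.factorial * cp a (k + 1) (m - l)
        apply mul_le_mul_of_nonneg_right _ (cp_nonneg ha _ _)
        apply div_le_div_of_nonneg_right _ (by positivity)
        exact pow_le_pow_left₀ (abs_nonneg _) hy' k) ht
    (Pn_summable hc hβ ha hs hL hLc t s m l) ht
  have hsum : Summable fun n => g' n t := by
    apply Summable.of_norm_bounded hus
    intro n
    cases n with
    | zero => simp [hg', hu]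
    | succ k =>
      have h1 := (step_bound hc ha hs hL (x := |t - s| ^ k / k.factorial) (by positivity) k
          (Pn L k t s) (fun m l => (hP k).1 t s m l) t m l).2.2.2
      refine h1.trans ?_
      show |t - s| ^ k / k.factorial * cp a (k + 1) (m - l) ≤
        R ^ k / k.factorial * cp a (k + 1) (m - l)
      apply mul_le_mul_of_nonneg_right _ (cp_nonneg ha _ _)
      apply div_le_div_of_nonneg_right _ (by positivity)
      exact pow_le_pow_left₀ (abs_nonneg _) (by rw [hR]; linarith) k
  have hval : ∑' n, g' n t = kcomp (L t) (Sm L t s) m l := by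
    rw [hsum.tsum_eq_zero_add, ← Sm_kcomp hc hβ ha hs hL hLc t s m l]
    show 0 + _ = _
    rw [zero_add]
  rw [← hval]
  exact hmain

theorem Sm_cont (hLc : ∀ m l, Continuous fun t => L t m l) (m l : Γ) :
    Continuous fun q : ℝ × ℝ => Sm L q.1 q.2 m l := by
  rw [continuous_iff_continuousAt]
  rintro ⟨t0, s0⟩
  set R : ℝ := |t0 - s0| + 1 with hR
  have hR0 : 0 ≤ R := by positivity
  have hopen : IsOpen {q : ℝ × ℝ | |q.1 - q.2| < R} :=
    isOpen_lt (by fun_prop) continuous_const
  have hmem : (t0, s0) ∈ {q : ℝ × ℝ | |q.1 - q.2| < R} := by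
    show |t0 - s0| < R
    rw [hR]; linarith
  have hcont : ContinuousOn (fun q : ℝ × ℝ => Sm L q.1 q.2 m l)
      {q : ℝ × ℝ | |q.1 - q.2| < R} := by
    apply continuousOn_tsum (u := fun n : ℕ => R ^ n / n.factorial * cp a n (m - l))
    · intro n
      exact ((Pn_main hc ha hs hL hLc n).2 m l).continuousOn
    · exact (sum_aux hc hβ ha hs hR0 (m - l)).1
    · intro n q hq
      refine ((Pn_main hc ha hs hL hLc n).1 q.1 q.2 m l).trans ?_
      apply mul_le_mul_of_nonneg_right _ (cp_nonneg ha _ _)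
      apply div_le_div_of_nonneg_right _ (by positivity)
      exact pow_le_pow_left₀ (abs_nonneg _) (le_of_lt hq) n
  exact hcont.continuousAt (hopen.mem_nhds hmem)

omit [AddCommGroup Γ] [Len Γ] hc hβ ha hs hL in
theorem Sm_diag (L : ℝ → Γ → Γ → Mat) (s : ℝ) :
    Sm L s s = diagK fun _ => ContinuousLinearMap.id ℂ C3 := by
  funext m l
  have h0 : ∀ n, n ≠ 0 → Pn L n s s m l = 0 := by
    intro n hn
    obtain ⟨k, rfl⟩ := Nat.exists_eq_succ_of_ne_zero hn
    show (∫ r in s..s, kcomp (L r) (Pn L k r s) m l) = 0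
    exact intervalIntegral.integral_same
  show ∑' n, Pn L n s s m l = _
  rw [tsum_eq_single 0 h0]
  rfl

theorem Sm_enorm (hLc : ∀ m l, Continuous fun t => L t m l) (t s : ℝ) (m l : Γ) :
    ‖Sm L t s m l‖ₑ ≤ ∑' n : ℕ, ENNReal.ofReal (|t - s| ^ n / n.factorial) *
      ENNReal.ofReal (cp a n (m - l)) := by
  have h := Sm_le hc hβ ha hs hL hLc t s m l
  have h2 := ENNReal.ofReal_le_ofReal h
  rw [ofReal_norm] at h2
  refine h2.trans (le_of_eq ?_)
  rw [ENNReal.ofReal_tsum_of_nonneg
    (fun n => by have := cp_nonneg ha n (m - l); positivity)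
    (sum_aux hc hβ ha hs (abs_nonneg _) (m - l)).1]
  refine tsum_congr fun n => ?_
  rw [ENNReal.ofReal_mul (by positivity)]

theorem Sm_sK (hLc : ∀ m l, Continuous fun t => L t m l) (t s : ℝ) :
    sK c (Sm L t s) ≤ ENNReal.ofReal (Real.exp (β * |t - s|)) := by
  have h1 : ∀ k, ⨆ l, ‖Sm L t s (l + k) l‖ₑ ≤ ∑' n : ℕ,
      ENNReal.ofReal (|t - s| ^ n / n.factorial) * ENNReal.ofReal (cp a n k) := by
    intro k
    refine iSup_le fun l => ?_
    have h := Sm_enorm hc hβ ha hs hL hLc t s (l + k) l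
    rw [add_sub_cancel_left] at h
    exact h
  calc sK c (Sm L t s) ≤ ∑' k, wt c k * ∑' n : ℕ,
        ENNReal.ofReal (|t - s| ^ n / n.factorial) * ENNReal.ofReal (cp a n k) :=
        ENNReal.tsum_le_tsum fun k => mul_le_mul_right (h1 k) _
    _ = ∑' n : ℕ, ENNReal.ofReal (|t - s| ^ n / n.factorial) *
        ∑' k, wt c k * ENNReal.ofReal (cp a n k) := by
        simp only [← ENNReal.tsum_mul_left]
        rw [ENNReal.tsum_comm]
        refine tsum_congr fun n => tsum_congr fun k => ?_
        ring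
    _ ≤ ∑' n : ℕ, ENNReal.ofReal (|t - s| ^ n / n.factorial) * ENNReal.ofReal β ^ n :=
        ENNReal.tsum_le_tsum fun n => mul_le_mul_right (cp_sum hc ha hs n).1 _
    _ = ∑' n : ℕ, ENNReal.ofReal ((β * |t - s|) ^ n / n.factorial) := by
        refine tsum_congr fun n => ?_
        rw [← ENNReal.ofReal_pow hβ, ← ENNReal.ofReal_mul (by positivity)]
        congr 1
        rw [mul_pow]
        ring
    _ = ENNReal.ofReal (Real.exp (β * |t - s|)) := by
        rw [← ENNReal.ofReal_tsum_of_nonneg (fun n => by positivity)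
          (Real.summable_pow_div_factorial _), Real.exp_eq_exp_ℝ, NormedSpace.exp_eq_tsum_div]

theorem Sm_PN (hLc : ∀ m l, Continuous fun t => L t m l) {T : ℝ} {ρ : ℝ → ℝ}
    (hρ : ∀ t ∈ Icc 0 T, 0 < ρ t)
    (hm : MonotoneOn (fun t => ρ t * Real.exp (-2 * β * t)) (Icc 0 T)) :
    PN T c ρ ρ (Sm L) ≤ 2 := by
  have hratio : ∀ t ∈ Icc 0 T, ∀ s ∈ Icc 0 t, ρ s / ρ t ≤ Real.exp (-(2 * β * (t - s))) := by
    intro t ht s hs'
    have hsT : s ∈ Icc 0 T := ⟨hs'.1, hs'.2.trans ht.2⟩
    have h := hm hsT ht hs'.2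
    simp only at h
    rw [div_le_iff₀ (hρ t ht)]
    have h2 : Real.exp (-(2 * β * (t - s))) * ρ t =
        (ρ t * Real.exp (-2 * β * t)) * Real.exp (2 * β * s) := by
      have h4 : Real.exp (-2 * β * t) * Real.exp (2 * β * s) =
          Real.exp (-(2 * β * (t - s))) := by
        rw [← Real.exp_add]
        congr 1
        ring
      linear_combination (-(ρ t)) * h4
    have h3 : ρ s = (ρ s * Real.exp (-2 * β * s)) * Real.exp (2 * β * s) := by
      have h4 : Real.exp (-2 * β * s) * Real.exp (2 * β * s) = 1 := by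
        rw [← Real.exp_add, show -2 * β * s + 2 * β * s = 0 by ring, Real.exp_zero]
      linear_combination (-(ρ s)) * h4
    rw [h2, h3]
    exact mul_le_mul_of_nonneg_right h (Real.exp_nonneg _)
  rcases hβ.eq_or_lt with h0 | hpos
  · -- β = 0
    have hz : ∀ n, n ≠ 0 → ∀ k, cp a n k = 0 := by
      intro n hn k
      have h1 := cp_le hc hβ ha hs n k
      rw [← h0, zero_pow hn] at h1
      exact le_antisymm h1 (cp_nonneg ha n k)
    have h1 : ∀ k, (⨆ l, ⨆ t ∈ Icc 0 T, ⨆ s ∈ Icc 0 t,
        ENNReal.ofReal (ρ s / ρ t) * ‖Sm L t s (l + k) l‖ₑ) ≤ ENNReal.ofReal (cp a 0 k) := by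
      intro k
      refine iSup_le fun l => iSup₂_le fun t ht => iSup₂_le fun s hs' => ?_
      have h2 := Sm_enorm hc hβ ha hs hL hLc t s (l + k) l
      rw [add_sub_cancel_left, tsum_eq_single 0 (fun n hn => by rw [hz n hn k]; simp)] at h2
      simp only [pow_zero, Nat.factorial_zero, Nat.cast_one, div_one, ENNReal.ofReal_one,
        one_mul] at h2
      have h3 : ENNReal.ofReal (ρ s / ρ t) ≤ 1 := by
        rw [← ENNReal.ofReal_one]
        apply ENNReal.ofReal_le_ofReal
        refine (hratio t ht s hs').trans ?_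
        rw [← h0]
        simp
      calc _ ≤ 1 * ENNReal.ofReal (cp a 0 k) := mul_le_mul' h3 h2
        _ = _ := one_mul _
    calc PN T c ρ ρ (Sm L) ≤ ∑' k, wt c k * ENNReal.ofReal (cp a 0 k) :=
          ENNReal.tsum_le_tsum fun k => mul_le_mul_right (h1 k) _
      _ ≤ ENNReal.ofReal β ^ 0 := (cp_sum hc ha hs 0).1
      _ ≤ 2 := by rw [pow_zero]; norm_num
  · have h1 : ∀ k, (⨆ l, ⨆ t ∈ Icc 0 T, ⨆ s ∈ Icc 0 t,
        ENNReal.ofReal (ρ s / ρ t) * ‖Sm L t s (l + k) l‖ₑ) ≤
        ∑' n : ℕ, ENNReal.ofReal ((2 * β)⁻¹ ^ n) * ENNReal.ofReal (cp a n k) := by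
      intro k
      refine iSup_le fun l => iSup₂_le fun t ht => iSup₂_le fun s hs' => ?_
      have h2 := Sm_enorm hc hβ ha hs hL hLc t s (l + k) l
      rw [add_sub_cancel_left] at h2
      calc ENNReal.ofReal (ρ s / ρ t) * ‖Sm L t s (l + k) l‖ₑ
          ≤ ENNReal.ofReal (ρ s / ρ t) * ∑' n : ℕ, ENNReal.ofReal (|t - s| ^ n / n.factorial) *
            ENNReal.ofReal (cp a n k) := mul_le_mul_right h2 _
        _ = ∑' n : ℕ, (ENNReal.ofReal (ρ s / ρ t) *
            ENNReal.ofReal (|t - s| ^ n / n.factorial)) * ENNReal.ofReal (cp a n k) := by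
            rw [← ENNReal.tsum_mul_left]
            exact tsum_congr fun n => (mul_assoc _ _ _).symm
        _ ≤ _ := by
            refine ENNReal.tsum_le_tsum fun n => mul_le_mul_left ?_ _
            have hts : 0 ≤ t - s := sub_nonneg.mpr hs'.2
            rw [← ENNReal.ofReal_mul (div_nonneg (hρ s ⟨hs'.1, hs'.2.trans ht.2⟩).le
              (hρ t ht).le)]
            apply ENNReal.ofReal_le_ofReal
            rw [abs_of_nonneg hts]
            have h4 := Real.pow_div_factorial_le_exp (x := 2 * β * (t - s))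
              (by positivity) n
            have h5 : (t - s) ^ n / n.factorial =
                (2 * β)⁻¹ ^ n * ((2 * β * (t - s)) ^ n / n.factorial) := by
              rw [mul_pow, inv_pow]
              field_simp
            calc ρ s / ρ t * ((t - s) ^ n / n.factorial)
                ≤ Real.exp (-(2 * β * (t - s))) * ((t - s) ^ n / n.factorial) :=
                  mul_le_mul_of_nonneg_right (hratio t ht s hs') (by positivity)
              _ = (2 * β)⁻¹ ^ n * (Real.exp (-(2 * β * (t - s))) *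
                  ((2 * β * (t - s)) ^ n / n.factorial)) := by rw [h5]; ring
              _ ≤ (2 * β)⁻¹ ^ n * (Real.exp (-(2 * β * (t - s))) *
                  Real.exp (2 * β * (t - s))) := by gcongr
              _ = (2 * β)⁻¹ ^ n := by
                  rw [← Real.exp_add, neg_add_cancel, Real.exp_zero, mul_one]
    calc PN T c ρ ρ (Sm L) ≤ ∑' k, wt c k * ∑' n : ℕ,
          ENNReal.ofReal ((2 * β)⁻¹ ^ n) * ENNReal.ofReal (cp a n k) :=
          ENNReal.tsum_le_tsum fun k => mul_le_mul_right (h1 k) _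
      _ = ∑' n : ℕ, ENNReal.ofReal ((2 * β)⁻¹ ^ n) *
          ∑' k, wt c k * ENNReal.ofReal (cp a n k) := by
          simp only [← ENNReal.tsum_mul_left]
          rw [ENNReal.tsum_comm]
          refine tsum_congr fun n => tsum_congr fun k => ?_
          ring
      _ ≤ ∑' n : ℕ, ENNReal.ofReal ((2 * β)⁻¹ ^ n) * ENNReal.ofReal β ^ n :=
          ENNReal.tsum_le_tsum fun n => mul_le_mul_right (cp_sum hc ha hs n).1 _
      _ = ∑' n : ℕ, ENNReal.ofReal ((1 / 2 : ℝ) ^ n) := by
          refine tsum_congr fun n => ?_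
          rw [← ENNReal.ofReal_pow hβ, ← ENNReal.ofReal_mul (by positivity), ← mul_pow]
          congr 2
          field_simp
      _ = ENNReal.ofReal 2 := by
          rw [← ENNReal.ofReal_tsum_of_nonneg (fun n => by positivity)
            (summable_geometric_two), tsum_geometric_two]
      _ ≤ 2 := by norm_num

end bounds

end I23

open I10 I23 in
theorem pr_W23 : W23 := by
  intro Γ _ _ T c β ρ L hT hc hβ hL hK hρ hm
  set Lc : ℝ → Γ → Γ → Mat := fun t => L (projIcc 0 T hT t) with hLc
  set sup : Γ → ℝ≥0∞ := fun k => ⨆ l, ⨆ t ∈ Icc 0 T, ‖L t (l + k) l‖ₑ with hsup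
  have hK' : ∑' k, wt c k * sup k ≤ ENNReal.ofReal β := hK
  have hfin : ∀ k, sup k ≠ ∞ := by
    intro k
    have h1 := (ENNReal.le_tsum k).trans hK'
    have h2 : sup k ≤ wt c k * sup k := by
      calc _ = 1 * sup k := (one_mul _).symm
        _ ≤ _ := mul_le_mul_left (one_le_wt hc k) _
    exact ((h2.trans h1).trans_lt ENNReal.ofReal_lt_top).ne
  set a : Γ → ℝ := fun k => (sup k).toReal with ha_def
  have ha : ∀ k, 0 ≤ a k := fun k => ENNReal.toReal_nonneg
  have hs : ∑' k, wt c k * ENNReal.ofReal (a k) ≤ ENNReal.ofReal β := by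
    refine le_trans (le_of_eq ?_) hK'
    refine tsum_congr fun k => ?_
    rw [ENNReal.ofReal_toReal (hfin k)]
  have hLe : ∀ t m l, ‖Lc t m l‖ ≤ a (m - l) := by
    intro t m l
    have h1 : ‖L (projIcc 0 T hT t) m l‖ₑ ≤ sup (m - l) := by
      have h2 : ‖L (projIcc 0 T hT t) (l + (m - l)) l‖ₑ ≤ sup (m - l) := by
        have h4 := le_iSup (fun l' => ⨆ t ∈ Icc 0 T, ‖L t (l' + (m - l)) l'‖ₑ) l
        have h5 := le_iSup₂ (f := fun t (_ : t ∈ Icc 0 T) => ‖L t (l + (m - l)) l‖ₑ) _
          (projIcc 0 T hT t).2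
        exact le_trans h5 h4
      rwa [add_sub_cancel] at h2
    have h3 := ENNReal.toReal_mono (hfin _) h1
    rwa [toReal_enorm] at h3
  have hcont : ∀ m l, Continuous fun t => Lc t m l := by
    intro m l
    exact (hL m l).comp_continuous (continuous_subtype_val.comp continuous_projIcc)
      (fun t => (projIcc 0 T hT t).2)
  refine ⟨Sm Lc, ?_, ?_, ?_, ?_, ?_⟩
  · intro s _ t ht m l
    have h := Sm_deriv hc hβ ha hs hLe hcont t s m l
    have h2 : Lc t = L t := by
      show L (projIcc 0 T hT t) = L t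
      rw [projIcc_of_mem hT ht]
    rw [h2] at h
    exact h.hasDerivWithinAt
  · intro s _
    exact Sm_diag Lc s
  · intro m l
    exact (Sm_cont hc hβ ha hs hLe hcont m l).continuousOn
  · exact Sm_PN hc hβ ha hs hLe hcont hρ hm
  · intro s _ t _
    exact Sm_sK hc hβ ha hs hLe hcont t s

end Pool.Agent.Work.MP_b0497c_an.Unf.W
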