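import Pool.Agent.Work.MP_b0497c_an.Unf.A1

set_option autoImplicit false
set_option linter.unusedSectionVars false

/-!
# Block A, item A1, end: `hyp_dat`
-/

open scoped ENNReal
open Set MeasureTheory

namespace Pool.Agent.Work.MP_b0497c_an.Unf.A

open W S

/-- The numerical conditions of the step `n → n + 1`; `X l` bounds the projectors of level `l`. -/
structure ParStep (C : Chain) (n : ℕ) (c G β : ℝ) (u X : ℕ → ℝ) : Prop where
  c_pos : 0 < c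
  c_le : c ≤ 1
  β_one : 1 ≤ β
  β_le : β ≤ G
  G_two : 2 ≤ G
  c_G : 2 ≤ G * c
  u_pos : ∀ j, 0 < u j
  u_lt : ∀ j, u j < 1
  N_pos : ∀ j ≤ n + 1, 1 ≤ ‖kv (C.K j)‖
  N_sep : ∀ j ≤ n, 4 * ‖kv (C.K j)‖ ≤ ‖kv (C.K (j + 1))‖
  mu_le : ∀ j, 1 ≤ j → j ≤ n + 1 → ‖kv (C.K (j - 1))‖ / ‖kv (C.K j)‖ ≤ u j ^ 512
  u_step : ∀ j ≤ n, u (j + 1) ≤ u j ^ 16
  small : G ^ 400 * u (n - 2 + 1) ^ 4 ≤ 1
  X_ge : ∀ l ≤ n, (10 ^ 6 * C.R l) ^ (1000 * (l + 2)) ≤ X l
  X_G : ∀ l ≤ n, X l ≤ G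
  X_c : ∀ l ≤ n, c ≤ 1 / X l
  X_β : X (n - 2) ^ 3 ≤ β

/-- (A6), (A7): the weights of the classes of the step `n → n + 1`. -/
structure Wgt (C : Chain) (n : ℕ) (G β : ℝ) : Prop where
  cmp : ∀ i j, n - 2 < j → j < i → i ≤ n + 1 → ∀ t ∈ Icc 0 (C.τ (n + 1)),
    C.α i t ≤ G * C.α j t
  ratio : ∀ j, n - 2 < j → j ≤ n →
    MonotoneOn (fun t => C.α (n + 1) t / C.α j t) (Icc 0 (C.τ (n + 1)))
  exp : ∀ s ∈ Icc 0 (C.τ (n + 1)), ∀ t ∈ Icc 0 (C.τ (n + 1)), s ≤ t →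
    Real.exp (2 * β * (t - s)) * C.α (n + 1) s ≤ G

section

variable {C : Chain} {n : ℕ} {u : ℕ → ℝ}

theorem Chain.An.τ_le (hA : Chain.An C n u) : ∀ k l, l + k = n → C.τ n ≤ C.τ l := by
  intro k
  induction k with
  | zero => intro l hl; rw [add_zero] at hl; rw [hl]
  | succ k ih =>
    intro l hl
    exact (ih (l + 1) (by omega)).trans (hA.τ_anti l (by omega))

theorem Chain.An.τ_le' (hA : Chain.An C n u) {l : ℕ} (hl : l ≤ n) : C.τ n ≤ C.τ l :=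
  hA.τ_le (n - l) l (by omega)

theorem Chain.An.r_le_pred (hA : Chain.An C n u) {j : ℕ} (h1 : 1 ≤ j) (h2 : j ≤ n) :
    C.τ j ≤ C.τ (j - 1) ∧ C.r j ≤ C.r (j - 1) ∧ C.R (j - 1) ≤ C.R j := by
  have h3 := hA.τ_anti (j - 1) (by omega)
  have h4 := hA.r_anti (j - 1) (by omega)
  have h5 := hA.R_mono (j - 1) (by omega)
  rw [Nat.sub_add_cancel h1] at h3 h4 h5
  exact ⟨h3, h4, h5⟩

/-- `An` depends only on `u j`, `j ≤ n`. -/
theorem Chain.An.congr_u (hA : Chain.An C n u) {v : ℕ → ℝ} (h : ∀ j ≤ n, u j = v j) : Chain.An C n v :=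
  ⟨hA.lvl, fun j h1 h2 => by rw [← h j h2]; exact hA.sht j h1 h2, hA.U_seed, hA.τ_anti,
    hA.r_anti, hA.R_mono⟩

theorem xR_le {r R : ℝ} (hr : 0 < r) (hR : 2 ≤ R) : xR r R ≤ r := by
  unfold xR
  have h5 : 1 ≤ bR R ^ 2 := one_le_pow₀ (one_le_bR hR)
  have h6 : 1 ≤ 2 * bR R ^ 2 * bR R ^ 2 := by nlinarith
  have h7 : r / (2 * bR R ^ 2 * bR R ^ 2) ≤ r := div_le_self hr.le h6
  have h8 : 0 < r / (2 * bR R ^ 2 * bR R ^ 2) := by positivity
  linarith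

theorem hyp_dat {c G β : ℝ} {X : ℕ → ℝ} (hA : Chain.An C n u) (hT0 : 0 < C.τ (n + 1))
    (hTn : C.τ (n + 1) ≤ C.τ n) (hP : ParStep C n c G β u X)
    (hN : New C.K (C.τ (n + 1)) c G (C.α (n + 1)) (n + 1) (C.Fi n) (C.M n) (C.s (n + 1))
      (C.Φ (n + 1)))
    (hW : Wgt C n G β) : (C.dat n c G β u).Hyp := by
  have hT : ∀ l ≤ n, C.τ (n + 1) ≤ C.τ l := fun l hl => hTn.trans (hA.τ_le' hl)
  have hR2 : ∀ l ≤ n, 2 ≤ C.R l := fun l hl => (hA.lvl l hl).R_two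
  have hRG : ∀ l ≤ n, C.R l ≤ G := fun l hl => by
    have h1 := Ypow (hR2 l hl) (hP.X_ge l hl) (k := 1) (by omega)
    have h2 := hR2 l hl
    rw [pow_one] at h1
    linarith [hP.X_G l hl]
  have hcr : ∀ l ≤ n, c ≤ C.r l := fun l hl =>
    (hP.X_c l hl).trans ((inv_X_le (hA.lvl l hl).c_pos (hR2 l hl) (hA.lvl l hl).r_R
      (hP.X_ge l hl)).trans (xR_le (hA.lvl l hl).c_pos (hR2 l hl)))
  have hXG : ∀ l ≤ n, ENNReal.ofReal (X l) ≤ ENNReal.ofReal G := fun l hl =>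
    ENNReal.ofReal_le_ofReal (hP.X_G l hl)
  have hone : ∀ t ∈ Icc 0 (C.τ (n + 1)), 0 < Dat.one' t := fun _ _ => one_pos
  have hsh : ∀ j, 1 ≤ j → j ≤ n → Sht C.K (C.τ j) (C.r j) (C.R j) (u j) (C.α j) j (C.F (j - 1))
    (C.Fi (j - 1)) (C.M (j - 1)) (C.F j) (C.Fi j) (C.M j) (C.z j) (C.a j) (C.s j) (C.Φ j) (C.w j) :=
    hA.sht
  have hαp : ∀ j, 1 ≤ j → j ≤ n → ∀ t ∈ Icc 0 (C.τ (n + 1)), 0 < C.α j t := fun j h1 h2 t ht =>
    (hsh j h1 h2).α_wt.pos t (Icc_sub (hT j h2) ht)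
  -- data of `F°`
  have hfo : ∀ j, 1 ≤ j → j ≤ n → ∀ t ∈ Icc 0 (C.τ j),
      FData (lev j) (C.r j) (bR (C.R j)) (bR (C.R j))
        (mm (C.F (j - 1) t) (shP (C.z j t) (kv (C.K j))))
        (mm (shM (C.z j t) (kv (C.K j))) (C.Fi (j - 1) t)) := fun j h1 h2 t ht => by
    obtain ⟨e1, e2, e3⟩ := hA.r_le_pred h1 h2
    exact (hsh j h1 h2).fdo (hA.lvl (j - 1) (by omega)) (hA.lvl j h2).s_pos (hA.lvl j h2).c_pos
      (hR2 j h2) e1 e2 e3 ht
  have hfo1 : ∀ j, 1 ≤ j → j ≤ n →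
      Nrm (C.τ j) (C.r j) 0 Dat.one' (fun t => mm (shM (C.z j t) (kv (C.K j))) (C.Fi (j - 1) t)) ≤
        ENNReal.ofReal (bR (C.R j)) := fun j h1 h2 => by
    obtain ⟨e1, e2, e3⟩ := hA.r_le_pred h1 h2
    exact (hsh j h1 h2).Fio_one (hA.lvl (j - 1) (by omega)) (hA.lvl j h2).s_pos
      (hA.lvl j h2).c_pos (hR2 j h2) e1 e2 e3
  have hfoc : ∀ j, 1 ≤ j → j ≤ n →
      CM (C.τ j) (fun t => mm (shM (C.z j t) (kv (C.K j))) (C.Fi (j - 1) t)) := fun j h1 h2 => by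
    obtain ⟨e1, e2, e3⟩ := hA.r_le_pred h1 h2
    exact (hsh j h1 h2).Fio_cm (hA.lvl (j - 1) (by omega)) (hA.lvl j h2).s_pos
      (hA.lvl j h2).c_pos (hR2 j h2) e1 e2 e3
  refine
    { hmn := Nat.sub_le _ _
      hnm := by show n ≤ n - 2 + 2; omega
      T_pos := hT0
      T_le := (hT n le_rfl).trans (hA.lvl n le_rfl).T_le
      c_pos := hP.c_pos
      c_le := hP.c_le
      γ_eq := rfl
      β_one := hP.β_one
      β_le := hP.β_le
      G_two := hP.G_two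
      c_G := hP.c_G
      u_pos := hP.u_pos
      u_lt := hP.u_lt
      N_pos := hP.N_pos
      N_sep := hP.N_sep
      mu_le := fun j h1 h2 => hP.mu_le j (by omega) h2
      u_step := fun j _ h2 => hP.u_step j h2
      small := hP.small
      α_wt := ?_
      α_le := ?_
      α_cmp := hW.cmp
      α_ratio := hW.ratio
      α_exp := hW.exp
      F_cm := ?_
      F_supp := ?_
      F_le := ?_
      Fi_der := ?_
      F_zero := ?_
      fd := ?_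
      fdo := ?_
      P_le := ?_
      Po_le := ?_
      P_dif := ?_
      s_le := ?_
      s_eq := ?_
      z_supp := ?_
      z_cm := ?_
      z_orth := ?_
      z_le := ?_
      ka_le := ?_
      rM_le := ?_
      B_le := ?_
      Φ_prop := ?_
      Φ_le := ?_
      Φ_supp := ?_ }
  · -- α_wt
    intro j h1 h2
    rcases Nat.lt_or_ge n j with h | h
    · obtain rfl : j = n + 1 := le_antisymm h2 h
      exact hN.α_wt
    · exact Wt_mono (hT j h) (hsh j (by omega) h).α_wt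
  · -- α_le
    intro j h1 h2 t ht
    rcases Nat.lt_or_ge n j with h | h
    · obtain rfl : j = n + 1 := le_antisymm h2 h
      exact hN.α_le t ht
    · exact ((hsh j (by omega) h).α_le t (Icc_sub (hT j h) ht)).trans (hRG j h)
  · intro l _ h2
    exact ⟨CM_mono (hT l h2) (hA.lvl l h2).F_cm, CM_mono (hT l h2) (hA.lvl l h2).Fi_cm,
      CM_mono (hT l h2) (hA.lvl l h2).M_cm⟩
  · intro l _ h2
    exact ⟨SuppT_mono (hT l h2) (hA.lvl l h2).F_supp, SuppT_mono (hT l h2) (hA.lvl l h2).Fi_supp,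
      SuppT_mono (hT l h2) (hA.lvl l h2).M_supp⟩
  · intro l _ h2
    have h3 : ENNReal.ofReal (C.R l) ≤ ENNReal.ofReal G := ENNReal.ofReal_le_ofReal (hRG l h2)
    exact ⟨((Nrm_mono (hT l h2) (hcr l h2) hone _).trans (hA.lvl l h2).F_le).trans h3,
      ((Nrm_mono (hT l h2) (hcr l h2) hone _).trans (hA.lvl l h2).Fi_le).trans h3,
      ((Nrm_mono (hT l h2) (hcr l h2) hone _).trans (hA.lvl l h2).M_le).trans h3⟩
  · intro l _ h2 q t ht
    exact ((hA.lvl l h2).Fi_der q t (Icc_sub (hT l h2) ht)).mono (Icc_sub (hT l h2))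
  · intro l _ h2
    exact (hA.lvl l h2).F_zero
  · intro l _ h2 t ht
    exact ⟨_, _, _, (hA.lvl l h2).fdata w21 (Icc_sub (hT l h2) ht)⟩
  · intro l h1 h2 t ht
    exact ⟨_, _, _, hfo l (by omega) h2 t (Icc_sub (hT l h2) ht)⟩
  · -- P_le
    intro l _ h2
    obtain ⟨h3, h4⟩ := (hA.lvl l h2).proj hT0 (hT l h2) (hP.X_ge l h2) (hP.X_c l h2)
    exact ⟨h3.trans (hXG l h2), h4⟩
  · -- Po_le
    intro l h1 h2
    have hl : 1 ≤ l := by omega
    obtain ⟨h3, h4⟩ := proj_le (K := C.K) w18 w21 hT0 (hT l h2) (hA.lvl l h2).c_pos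
      (hA.lvl l h2).r_le (hR2 l h2) (hA.lvl l h2).r_R (hP.X_ge l h2) (hP.X_c l h2)
      (hfo l hl h2) (hfo1 l hl h2) (hfoc l hl h2)
    exact ⟨h3.trans (hXG l h2), h4⟩
  · -- P_dif
    intro l h1 h2
    have hl : 1 ≤ l := by omega
    have h3 := dif_le (K := C.K) (c07 w09 w10 w11 w16) w21 hT0 (hT l h2) (hA.lvl l h2).c_pos
      (hA.lvl l h2).r_le (hR2 l h2) (hA.lvl l h2).r_R (hP.X_ge l h2) (hP.X_c l h2)
      (hsh l hl h2).α_wt.pos (fun t ht => (hA.lvl l h2).fdata_b ht) (hfo l hl h2)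
      (hA.lvl l h2).Fi_b (hfo1 l hl h2) (hsh l hl h2).rFi_le
    refine h3.trans ?_
    rw [← ENNReal.ofReal_mul (by linarith [X_pos (hR2 l h2) (hP.X_ge l h2)])]
    have h4 := hP.X_G l h2
    have h5 := hP.u_pos l
    refine ENNReal.ofReal_le_ofReal ?_
    show X l * u l ^ 256 ≤ G * u l ^ 256
    gcongr
  · -- s_le
    intro j h1 h2
    rcases Nat.lt_or_ge n j with h | h
    · obtain rfl : j = n + 1 := le_antisymm h2 h
      exact ⟨hN.s_le, hN.s_cm, hN.s_supp⟩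
    · have hs := hsh j (by omega) h
      refine ⟨((Nrm_mono (hT j h) (hcr j h) hone _).trans hs.s_le).trans
        (ENNReal.ofReal_le_ofReal ?_), CM_mono (hT j h) hs.s_cm, SuppT_mono (hT j h) hs.s_supp⟩
      have h3 := hRG j h
      have h4 := hs.K_pos
      show C.R j / ‖kv (C.K j)‖ ^ 2 ≤ G / ‖kv (C.K j)‖ ^ 2
      gcongr
  · -- s_eq
    intro j h1 h2 t ht
    rcases Nat.lt_or_ge n j with h | h
    · obtain rfl : j = n + 1 := le_antisymm h2 h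
      exact hN.s_eq t ht
    · exact (hsh j (by omega) h).s_eq t (Icc_sub (hT j h) ht)
  · intro j h1 h
    exact ⟨SuppT_mono (hT j h) (hsh j (by omega) h).z_supp,
      SuppT_mono (hT j h) (hsh j (by omega) h).a_supp⟩
  · intro j h1 h
    exact ⟨CM_mono (hT j h) (hsh j (by omega) h).z_cm, CM_mono (hT j h) (hsh j (by omega) h).a_cm⟩
  · intro j h1 h t ht
    exact (hsh j (by omega) h).z_orth t (Icc_sub (hT j h) ht)
  · intro j h1 h
    have hs := hsh j (by omega) h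
    have h3 := hRG j h
    have h4 := hs.K_pos
    have h5 : ENNReal.ofReal (C.R j / ‖kv (C.K j)‖) ≤ ENNReal.ofReal (G / ‖kv (C.K j)‖) :=
      ENNReal.ofReal_le_ofReal (by gcongr)
    exact ⟨((Nrm_mono (hT j h) (hcr j h) (hαp j (by omega) h) _).trans hs.z_le).trans h5,
      ((Nrm_mono (hT j h) (hcr j h) (hαp j (by omega) h) _).trans hs.a_le).trans h5⟩
  · intro j h1 h
    exact (Nrm_mono (hT j h) (hcr j h) (hαp j (by omega) h) _).trans (hsh j (by omega) h).ka_le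
  · intro j h1 h
    exact (Nrm_mono (hT j h) (hcr j h) (hαp j (by omega) h) _).trans (hsh j (by omega) h).rM_le
  · -- B_le
    have hm : n - 2 ≤ n := Nat.sub_le _ _
    exact ((hA.lvl (n - 2) hm).gen_le hP.c_pos.le hT0 (hT _ hm) (hP.X_ge _ hm)
      (hP.X_c _ hm)).trans (ENNReal.ofReal_le_ofReal hP.X_β)
  · intro j h1 h2
    rcases Nat.lt_or_ge n j with h | h
    · obtain rfl : j = n + 1 := le_antisymm h2 h
      exact hN.Φ_prop
    · exact IsProp_mono (hT j h) (hsh j (by omega) h).Φ_prop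
  · intro j h1 h2
    rcases Nat.lt_or_ge n j with h | h
    · obtain rfl : j = n + 1 := le_antisymm h2 h
      exact hN.Φ_le
    · exact ((PN_mono (hT j h) (hcr j h) _).trans (hsh j (by omega) h).Φ_le).trans
        (ENNReal.ofReal_le_ofReal (hRG j h))
  · intro j h1 h2 s hs t ht
    rcases Nat.lt_or_ge n j with h | h
    · obtain rfl : j = n + 1 := le_antisymm h2 h
      exact hN.Φ_supp s hs t ht
    · exact (hsh j (by omega) h).Φ_supp s (Icc_sub (hT j h) hs) t (Icc_sub (hT j h) ht)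

end

end Pool.Agent.Work.MP_b0497c_an.Unf.A
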