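import Pool.Agent.Work.MP_b0497c_an.Unf.LStmts
import Pool.Agent.Work.MP_b0497c_an.Bd.B26
import Pool.Agent.Work.MP_b0497c_an.Bd.B08

set_option autoImplicit false
set_option linter.dupNamespace false

/-!
# L03: static norm, evaluation, support and reflections of the exponential
-/

open scoped ENNReal
open Set MeasureTheory

namespace Pool.Agent.Work.MP_b0497c_an.Unf.L

open W S

namespace E3x

/-- The multiplication of scalars. -/
noncomputable abbrev mu : ℂ →L[ℂ] ℂ →L[ℂ] ℂ := ContinuousLinearMap.mul ℂ ℂ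

theorem mu_enorm : ‖mu‖ₑ ≤ 1 := by
  rw [← ofReal_norm]
  exact ENNReal.ofReal_le_one.mpr (ContinuousLinearMap.opNorm_mul_le ℂ ℂ)

theorem sN_cst (c : ℝ) : sN c (cst (1 : ℂ)) = 1 := by
  unfold sN
  rw [tsum_eq_single (0 : Md)]
  · simp [cst, len_zero]
  · intro q hq
    simp [cst, hq]

theorem sN_conv {c : ℝ} (hc : 0 ≤ c) (f g : Md → ℂ) :
    sN c (conv mu f g) ≤ sN c f * sN c g := by
  calc sN c (conv mu f g)
      ≤ ∑' m, ∑' l, (ENNReal.ofReal (Real.exp (c * len (m - l))) * ‖f (m - l)‖ₑ) *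
          (ENNReal.ofReal (Real.exp (c * len l)) * ‖g l‖ₑ) := by
        unfold sN
        refine ENNReal.tsum_le_tsum fun m => ?_
        calc ENNReal.ofReal (Real.exp (c * len m)) * ‖conv mu f g m‖ₑ
            ≤ ENNReal.ofReal (Real.exp (c * len m)) *
                ∑' l, ‖mu‖ₑ * ‖f (m - l)‖ₑ * ‖g l‖ₑ := by
              gcongr
              exact Conv.enorm_conv _ _ _ _
          _ = ∑' l, ENNReal.ofReal (Real.exp (c * len m)) *
                (‖mu‖ₑ * ‖f (m - l)‖ₑ * ‖g l‖ₑ) := by rw [ENNReal.tsum_mul_left]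
          _ ≤ _ := by
              refine ENNReal.tsum_le_tsum fun l => ?_
              calc ENNReal.ofReal (Real.exp (c * len m)) * (‖mu‖ₑ * ‖f (m - l)‖ₑ * ‖g l‖ₑ)
                  ≤ ENNReal.ofReal (Real.exp (c * len (m - l)) * Real.exp (c * len l)) *
                      (1 * ‖f (m - l)‖ₑ * ‖g l‖ₑ) := by
                    gcongr
                    · exact Conv.exp_le hc m l
                    · exact mu_enorm
                _ = _ := by
                    rw [ENNReal.ofReal_mul (Real.exp_pos _).le]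
                    ring
    _ = sN c f * sN c g :=
        Conv.tsum_conv (fun k => ENNReal.ofReal (Real.exp (c * len k)) * ‖f k‖ₑ) _

theorem sN_cpow {c : ℝ} (hc : 0 ≤ c) (φ : Md → ℂ) (k : ℕ) :
    sN c (cpow φ k) ≤ sN c φ ^ k := by
  induction k with
  | zero => simp [cpow, sN_cst]
  | succ k ih =>
    rw [cpow, pow_succ']
    exact (sN_conv hc φ _).trans (by gcongr)

/-- The double sum of the exponential. -/
theorem sum_le {c B : ℝ} (hc : 0 ≤ c) (hB : 0 ≤ B) {φ : Md → ℂ} (h : sN c φ ≤ ENNReal.ofReal B) :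
    ∑' q, ∑' k : ℕ, ENNReal.ofReal (Real.exp (c * len q)) *
      ‖((k.factorial : ℂ))⁻¹ * cpow φ k q‖ₑ ≤ ENNReal.ofReal (Real.exp B) := by
  rw [ENNReal.tsum_comm]
  have h1 : ∀ k : ℕ, ‖((k.factorial : ℂ))⁻¹‖ₑ = ENNReal.ofReal ((k.factorial : ℝ)⁻¹) := by
    intro k
    rw [← ofReal_norm, norm_inv, Complex.norm_natCast]
  calc ∑' k : ℕ, ∑' q, ENNReal.ofReal (Real.exp (c * len q)) *
        ‖((k.factorial : ℂ))⁻¹ * cpow φ k q‖ₑ
      = ∑' k : ℕ, ENNReal.ofReal ((k.factorial : ℝ)⁻¹) * sN c (cpow φ k) := by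
        refine tsum_congr fun k => ?_
        rw [sN, ← ENNReal.tsum_mul_left]
        refine tsum_congr fun q => ?_
        rw [enorm_mul, h1]
        ring
    _ ≤ ∑' k : ℕ, ENNReal.ofReal ((k.factorial : ℝ)⁻¹ * B ^ k) := by
        refine ENNReal.tsum_le_tsum fun k => ?_
        rw [ENNReal.ofReal_mul (by positivity), ENNReal.ofReal_pow hB]
        gcongr
        exact (sN_cpow hc φ k).trans (by gcongr)
    _ = ENNReal.ofReal (∑' k : ℕ, (k.factorial : ℝ)⁻¹ * B ^ k) := by
        rw [ENNReal.ofReal_tsum_of_nonneg (fun k => by positivity)]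
        have := Real.summable_pow_div_factorial B
        refine this.congr fun k => ?_
        rw [div_eq_inv_mul]
    _ = ENNReal.ofReal (Real.exp B) := by
        rw [Real.exp_eq_exp_ℝ, NormedSpace.exp_eq_tsum_div]
        congr 1
        refine tsum_congr fun k => ?_
        rw [div_eq_inv_mul]

theorem sN_expC {c B : ℝ} (hc : 0 ≤ c) (hB : 0 ≤ B) {φ : Md → ℂ}
    (h : sN c φ ≤ ENNReal.ofReal B) : sN c (expC φ) ≤ ENNReal.ofReal (Real.exp B) := by
  refine le_trans ?_ (sum_le hc hB h)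
  unfold sN
  refine ENNReal.tsum_le_tsum fun q => ?_
  rw [ENNReal.tsum_mul_left]
  gcongr
  exact enorm_tsum_le_tsum_enorm

theorem supp_cpow {n : ℕ} {φ : Md → ℂ} (h : SuppIn (lev n : Set Md) φ) (k : ℕ) :
    SuppIn (lev n : Set Md) (cpow φ k) := by
  induction k with
  | zero =>
    intro q hq
    have : q ≠ 0 := by
      rintro rfl
      exact hq (lev n).zero_mem
    simp [cpow, cst, this]
  | succ k ih =>
    intro q hq
    rw [cpow, conv]
    refine (tsum_congr fun l => ?_).trans tsum_zero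
    by_cases hl : l ∈ lev n
    · have h1 : q - l ∉ (lev n : Set Md) := by
        intro h2
        exact hq (by simpa using (lev n).add_mem h2 hl)
      rw [h _ h1]
      simp
    · rw [ih l hl]
      simp

theorem supp_expC {n : ℕ} {φ : Md → ℂ} (h : SuppIn (lev n : Set Md) φ) :
    SuppIn (lev n : Set Md) (expC φ) := by
  intro q hq
  rw [expC]
  refine (tsum_congr fun k => ?_).trans tsum_zero
  rw [supp_cpow h k q hq, mul_zero]

/-- Finite static norm at radius `0`: absolutely summable. -/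
theorem summable_of {E : Type} [NormedAddCommGroup E] [NormedSpace ℂ E] {f : Md → E}
    (h : sN 0 f ≠ ∞) : Summable fun q => ‖f q‖ := by
  have h1 : ∑' q, ‖f q‖ₑ ≠ ∞ := by
    have h2 : sN 0 f = ∑' q, ‖f q‖ₑ := by
      unfold sN
      simp
    rwa [← h2]
  have h3 := ENNReal.summable_toReal h1
  simpa only [toReal_enorm] using h3

theorem ev_cst (θ : Md →+ ℝ) : ev θ (cst (1 : ℂ)) = 1 := by
  unfold ev
  rw [tsum_eq_single (0 : Md)]
  · simp [cst, ch_zero]
  · intro q hq
    simp [cst, hq]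

theorem fin_cpow {φ : Md → ℂ} (h : sN 0 φ ≠ ∞) (k : ℕ) : sN 0 (cpow φ k) ≠ ∞ :=
  ne_top_of_le_ne_top (ENNReal.pow_ne_top h) (sN_cpow le_rfl φ k)

theorem ev_cpow {φ : Md → ℂ} (h : sN 0 φ ≠ ∞) (θ : Md →+ ℝ) (k : ℕ) :
    ev θ (cpow φ k) = ev θ φ ^ k := by
  induction k with
  | zero => rw [cpow, ev_cst, pow_zero]
  | succ k ih =>
    rw [cpow, ev_conv θ _ (summable_of h) (summable_of (fin_cpow h k)), ih, pow_succ']
    rfl

theorem ev_expC {φ : Md → ℂ} (h : sN 0 φ ≠ ∞) (θ : Md →+ ℝ) :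
    ev θ (expC φ) = Complex.exp (ev θ φ) := by
  have h1 : sN 0 φ ≤ ENNReal.ofReal (sN 0 φ).toReal := by
    rw [ENNReal.ofReal_toReal h]
  have h2 := sum_le le_rfl ENNReal.toReal_nonneg h1
  have h3 : (∑' z : Md × ℕ, ‖ch θ z.1 • (((z.2.factorial : ℂ))⁻¹ * cpow φ z.2 z.1)‖ₑ) ≠ ∞ := by
    rw [ENNReal.tsum_prod (f := fun q k => ‖ch θ q • (((k.factorial : ℂ))⁻¹ * cpow φ k q)‖ₑ)]
    refine ne_top_of_le_ne_top ENNReal.ofReal_ne_top (le_trans (le_of_eq ?_) h2)
    refine tsum_congr fun q => tsum_congr fun k => ?_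
    rw [zero_mul, Real.exp_zero, ENNReal.ofReal_one, one_mul, ← ofReal_norm, norm_ch_smul,
      ofReal_norm]
  have h4 : Summable (fun z : Md × ℕ =>
      ch θ z.1 • (((z.2.factorial : ℂ))⁻¹ * cpow φ z.2 z.1)) := by
    apply Summable.of_norm
    have := ENNReal.summable_toReal h3
    simpa only [toReal_enorm] using this
  have h5 : ev θ (expC φ) = ∑' q, ∑' k : ℕ, ch θ q • (((k.factorial : ℂ))⁻¹ * cpow φ k q) := by
    unfold ev expC
    refine tsum_congr fun q => ?_
    rw [tsum_const_smul'']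
  have h4' : Summable (Function.uncurry fun (k : ℕ) (q : Md) =>
      ch θ q • (((k.factorial : ℂ))⁻¹ * cpow φ k q)) := by
    have h7 := (Equiv.prodComm ℕ Md).summable_iff.mpr h4
    exact h7
  rw [h5, Summable.tsum_comm h4']
  have h6 : ∀ k : ℕ, (∑' q, ch θ q • (((k.factorial : ℂ))⁻¹ * cpow φ k q)) =
      ((k.factorial : ℂ))⁻¹ * ev θ φ ^ k := by
    intro k
    rw [← ev_cpow h, ev, ← tsum_mul_left]
    refine tsum_congr fun q => ?_
    simp only [smul_eq_mul]
    ring
  rw [Complex.exp_eq_exp_ℂ, NormedSpace.exp_eq_tsum_div]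
  refine tsum_congr fun k => ?_
  rw [h6, div_eq_inv_mul]

theorem expC_zero : expC (0 : Md → ℂ) = cst 1 := by
  have h : ∀ k : ℕ, k ≠ 0 → ∀ q, cpow (0 : Md → ℂ) k q = 0 := by
    intro k hk q
    obtain ⟨j, rfl⟩ := Nat.exists_eq_succ_of_ne_zero hk
    rw [cpow, conv]
    refine (tsum_congr fun l => ?_).trans tsum_zero
    simp
  funext q
  rw [expC, tsum_eq_single 0]
  · simp [cpow]
  · intro k hk
    rw [h k hk, mul_zero]

theorem cst_neg (q : Md) : cst (1 : ℂ) (-q) = cst (1 : ℂ) q := by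
  simp [cst]

theorem cpow_refl (φ : Md → ℂ) (k : ℕ) (q : Md) :
    cpow (fun r => φ (-r)) k q = cpow φ k (-q) := by
  induction k generalizing q with
  | zero => rw [cpow, cpow, cst_neg]
  | succ k ih =>
    rw [cpow, cpow, conv, conv, ← (Equiv.neg Md).tsum_eq]
    refine tsum_congr fun l => ?_
    rw [ih]
    simp only [Equiv.neg_apply, neg_neg, neg_sub]
    congr 3
    abel

theorem expC_refl (φ : Md → ℂ) (q : Md) : expC (fun r => φ (-r)) q = expC φ (-q) := by
  unfold expC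
  refine tsum_congr fun k => ?_
  rw [cpow_refl]

theorem cpow_conj (φ : Md → ℂ) (k : ℕ) (q : Md) :
    cpow (fun r => starRingEnd ℂ (φ r)) k q = starRingEnd ℂ (cpow φ k q) := by
  induction k generalizing q with
  | zero =>
    rw [cpow, cpow, cst]
    by_cases hq : q = 0 <;> simp [hq]
  | succ k ih =>
    rw [cpow, cpow, conv, conv, Complex.conj_tsum]
    refine tsum_congr fun l => ?_
    rw [ih]
    simp

theorem expC_conj (φ : Md → ℂ) (q : Md) :
    expC (fun r => starRingEnd ℂ (φ r)) q = starRingEnd ℂ (expC φ q) := by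
  unfold expC
  rw [Complex.conj_tsum]
  refine tsum_congr fun k => ?_
  rw [cpow_conj, map_mul, map_inv₀, map_natCast]

end E3x

theorem l03 : L03 := by
  refine ⟨fun c B φ hc hB h => E3x.sN_expC hc hB h, fun n φ h => E3x.supp_expC h,
    fun φ h θ => E3x.ev_expC h θ, E3x.expC_zero, E3x.expC_refl, fun φ q => ?_⟩
  rw [E3x.expC_conj (fun r => φ (-r)) q, E3x.expC_refl]

end Pool.Agent.Work.MP_b0497c_an.Unf.L
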