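import Pool.Agent.Work.MP_b0497c_an.Unf.LStmts
import Pool.Agent.Work.MP_b0497c_an.Unf.DLag
import Pool.Agent.Work.MP_b0497c_an.Unf.Cross

set_option autoImplicit false
set_option linter.dupNamespace false

/-!
# Block L, item L28: the flow at one real label and the vorticity law
-/

open scoped ENNReal
open Set MeasureTheory RealInnerProductSpace

namespace Pool.Agent.Work.MP_b0497c_an.Unf.L

open W S

section shift

variable {E F G : Type} [NormedAddCommGroup E] [NormedSpace ℂ E] [NormedAddCommGroup F]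
  [NormedSpace ℂ F] [NormedAddCommGroup G] [NormedSpace ℂ G]

/-- The function `f (θ + ·)`. -/
noncomputable def tsl (θ : Md →+ ℝ) (f : Md → E) (q : Md) : E := ch θ q • f q

theorem tsl_norm (θ : Md →+ ℝ) (f : Md → E) (q : Md) : ‖tsl θ f q‖ = ‖f q‖ :=
  norm_ch_smul θ q (f q)

theorem tsl_enorm (θ : Md →+ ℝ) (f : Md → E) (q : Md) : ‖tsl θ f q‖ₑ = ‖f q‖ₑ := by
  rw [← ofReal_norm, ← ofReal_norm, tsl_norm]

theorem tsl_Nrm (θ : Md →+ ℝ) (T c γ : ℝ) (ρ : ℝ → ℝ) (f : ℝ → Md → E) :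
    Nrm T c γ ρ (fun t => tsl θ (f t)) = Nrm T c γ ρ f := by
  simp only [Nrm, tsl_enorm]

theorem tsl_supp (θ : Md →+ ℝ) {T : ℝ} {S : Set Md} {f : ℝ → Md → E} (h : SuppT T S f) :
    SuppT T S (fun t => tsl θ (f t)) := by
  intro t ht q hq
  simp only [tsl, h t ht q hq, smul_zero]

theorem tsl_cm (θ : Md →+ ℝ) {T : ℝ} {f : ℝ → Md → E} (h : CM T f) :
    CM T (fun t => tsl θ (f t)) := fun q => (h q).const_smul (ch θ q)

theorem tsl_conv (θ : Md →+ ℝ) (β : E →L[ℂ] F →L[ℂ] G) (f : Md → E) (g : Md → F) :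
    conv β (tsl θ f) (tsl θ g) = tsl θ (conv β f g) := by
  funext m
  simp only [conv, tsl]
  rw [← tsum_const_smul'' (ch θ m)]
  congr 1
  funext l
  rw [map_smul, map_smul, smul_apply, smul_smul, mul_comm, ← ch_add, sub_add_cancel]

theorem tsl_mm (θ : Md →+ ℝ) (a b : Md → Mat) : mm (tsl θ a) (tsl θ b) = tsl θ (mm a b) :=
  tsl_conv θ _ a b

theorem tsl_mul (θ : Md →+ ℝ) (a : Md → Mat) (f : Md → C3) :
    mul (tsl θ a) (tsl θ f) = tsl θ (mul a f) := by
  have h := tsl_conv θ (ContinuousLinearMap.id ℂ Mat) a f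
  exact h

theorem tsl_oneM (θ : Md →+ ℝ) : tsl θ oneM = oneM := by
  funext q
  by_cases hq : q = 0
  · subst hq; simp [tsl, ch_zero]
  · simp [tsl, oneM, hq]

theorem tsl_adjC (θ : Md →+ ℝ) (a : Md → Mat) : adjC (tsl θ a) = tsl θ (adjC a) := by
  funext q
  simp only [adjC, tsl, map_smulₛₗ, ch_neg, Complex.conj_conj]

theorem tsl_gradV (θ : Md →+ ℝ) (K : ℕ → Fin 3 → ℤ) (f : Md → C3) :
    gradV K (tsl θ f) = tsl θ (gradV K f) := by
  funext q
  simp only [gradV, tsl]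
  rw [smul_comm]
  congr 1
  ext1 v
  simp only [ContinuousLinearMap.smulRight_apply, smul_apply]
  rw [smul_comm]

theorem tsl_gradS (θ : Md →+ ℝ) (K : ℕ → Fin 3 → ℤ) (f : Md → ℂ) :
    gradS K (tsl θ f) = tsl θ (gradS K f) := by
  funext q
  simp only [gradS, tsl, smul_eq_mul]
  rw [smul_smul]
  congr 1
  ring

theorem tsl_add (θ : Md →+ ℝ) (f g : Md → E) : tsl θ (f + g) = tsl θ f + tsl θ g := by
  funext q
  simp only [tsl, Pi.add_apply, smul_add]

theorem tsl_neg (θ : Md →+ ℝ) (f : Md → E) : tsl θ (-f) = -tsl θ f := by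
  funext q
  simp only [tsl, Pi.neg_apply, smul_neg]

theorem ev_tsl (K : ℕ → Fin 3 → ℤ) (θ : Md →+ ℝ) (f : Md → E) :
    ev (ph (xiZ K) 0) (tsl θ f) = ev θ f := by
  simp only [ev, tsl]
  congr 1
  funext q
  have h : ch (ph (xiZ K) 0) q = 1 := by
    simp [ch, ph]
  rw [h, one_smul]

theorem cjv_smul (a : ℂ) (v : C3) : cjv (a • v) = (starRingEnd ℂ a) • cjv v := by
  ext j
  simp [cjv]

/-- An exact level solution, translated. -/
theorem LevSol_tsl {K : ℕ → Fin 3 → ℤ} {n : ℕ} {s c : ℝ} {x U A : ℝ → Md → C3}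
    {r : ℝ → Md → ℂ} {F Fi M : ℝ → Md → Mat} (h : LevSol K n s c x U A r F Fi M)
    (θ : Md →+ ℝ) :
    LevSol K n s c (fun t => tsl θ (x t)) (fun t => tsl θ (U t)) (fun t => tsl θ (A t))
      (fun t => tsl θ (r t)) (fun t => tsl θ (F t)) (fun t => tsl θ (Fi t))
      (fun t => tsl θ (M t)) where
  s_pos := h.s_pos
  c_pos := h.c_pos
  x_supp := tsl_supp θ h.x_supp
  U_supp := tsl_supp θ h.U_supp
  A_supp := tsl_supp θ h.A_supp
  r_supp := tsl_supp θ h.r_supp
  x_fin := by rw [tsl_Nrm]; exact h.x_fin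
  U_fin := by rw [tsl_Nrm]; exact h.U_fin
  A_fin := by rw [tsl_Nrm]; exact h.A_fin
  r_fin := by rw [tsl_Nrm]; exact h.r_fin
  F_fin := by rw [tsl_Nrm]; exact h.F_fin
  Fi_fin := by rw [tsl_Nrm]; exact h.Fi_fin
  M_fin := by rw [tsl_Nrm]; exact h.M_fin
  x_cm := tsl_cm θ h.x_cm
  U_cm := tsl_cm θ h.U_cm
  A_cm := tsl_cm θ h.A_cm
  x_der := fun q t ht => (h.x_der q t ht).const_smul (ch θ q)
  U_der := fun q t ht => (h.U_der q t ht).const_smul (ch θ q)
  x_zero := by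
    funext q
    simp only [tsl, h.x_zero, Pi.zero_apply, smul_zero]
  x_real := fun t ht q => by
    simp only [tsl]
    rw [h.x_real t ht q, ch_neg, cjv_smul]
  F_eq := fun t ht => by
    show tsl θ (F t) = oneM + gradV K (tsl θ (x t))
    rw [h.F_eq t ht, tsl_add, tsl_oneM, tsl_gradV]
  F_der := fun q t ht => by
    have h1 := (h.F_der q t ht).const_smul (ch θ q)
    have h2 : mm (tsl θ (M t)) (tsl θ (F t)) q = ch θ q • mm (M t) (F t) q := by
      rw [tsl_mm]; rfl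
    show HasDerivWithinAt (fun t => tsl θ (F t) q) (mm (tsl θ (M t)) (tsl θ (F t)) q) (Icc 0 s) t
    rw [h2]
    exact h1
  tr_M := fun t ht q => by
    have h1 := h.tr_M t ht q
    have h2 : ((tsl θ (M t) q : Mat) : C3 →ₗ[ℂ] C3) = ch θ q • ((M t q : Mat) : C3 →ₗ[ℂ] C3) := rfl
    rw [h2, map_smul, h1, smul_zero]
  inv := fun t ht => by
    show mm (tsl θ (Fi t)) (tsl θ (F t)) = oneM
    rw [tsl_mm, h.inv t ht, tsl_oneM]
  mom := fun t ht => by
    show tsl θ (A t) = -(mul (adjC (tsl θ (Fi t))) (gradS K (tsl θ (r t))))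
    rw [tsl_adjC, tsl_gradS, tsl_mul, ← tsl_neg, ← h.mom t ht]

end shift

/-- The transpose of the deformation gradient times the gradient of the acceleration is
symmetric. -/
theorem LevSol_symm {K : ℕ → Fin 3 → ℤ} {n : ℕ} {s c : ℝ} {x U A : ℝ → Md → C3}
    {r : ℝ → Md → ℂ} {F Fi M : ℝ → Md → Mat} (h : LevSol K n s c x U A r F Fi M)
    {t : ℝ} (ht : t ∈ Icc 0 s) (y v w : E3) :
    ⟪fderiv ℝ (vecR (xiZ K) (A t)) y w, fderiv ℝ (mapR (xiZ K) (x t)) y v⟫
      = ⟪fderiv ℝ (vecR (xiZ K) (A t)) y v, fderiv ℝ (mapR (xiZ K) (x t)) y w⟫ := by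
  set a := vecR (xiZ K) (A t) with ha
  set X := mapR (xiZ K) (x t) with hX
  set P := scR (xiZ K) (r t) with hP
  have ca : ContDiff ℝ 1 a := vecR_contDiff (xiZ K) 1 ((h.A_sBd 1).sum ht)
  have cX : ContDiff ℝ 2 X := contDiff_id.add (vecR_contDiff (xiZ K) 2 ((h.x_sBd 2).sum ht))
  have cP : ContDiff ℝ 2 P := scR_contDiff (xiZ K) 2 ((h.r_sBd 2).sum ht)
  have hm : ∀ y z, ⟪a y, fderiv ℝ X y z⟫ = - fderiv ℝ P y z := fun y z => h.momentum y z ht
  have key : ∀ v w : E3, ⟪fderiv ℝ a y w, fderiv ℝ X y v⟫ + ⟪a y, fderiv ℝ (fderiv ℝ X) y w v⟫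
      = - fderiv ℝ (fderiv ℝ P) y w v := by
    intro v w
    have d1 : HasFDerivAt a (fderiv ℝ a y) y := (ca.differentiable (by norm_num) y).hasFDerivAt
    have d2 : HasFDerivAt (fderiv ℝ X) (fderiv ℝ (fderiv ℝ X) y) y :=
      ((cX.fderiv_right (m := 1) (by norm_num)).differentiable (by norm_num) y).hasFDerivAt
    have d3 : HasFDerivAt (fderiv ℝ P) (fderiv ℝ (fderiv ℝ P) y) y :=
      ((cP.fderiv_right (m := 1) (by norm_num)).differentiable (by norm_num) y).hasFDerivAt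
    have d4 : HasFDerivAt (fun y => fderiv ℝ X y v)
        ((ContinuousLinearMap.apply ℝ E3 v).comp (fderiv ℝ (fderiv ℝ X) y)) y :=
      (ContinuousLinearMap.apply ℝ E3 v).hasFDerivAt.comp y d2
    have d5 : HasFDerivAt (fun y => - fderiv ℝ P y v)
        (-((ContinuousLinearMap.apply ℝ ℝ v).comp (fderiv ℝ (fderiv ℝ P) y))) y :=
      ((ContinuousLinearMap.apply ℝ ℝ v).hasFDerivAt.comp y d3).neg
    have d6 := d1.inner ℝ d4
    have d7 : (fun y => ⟪a y, fderiv ℝ X y v⟫) = fun y => - fderiv ℝ P y v := by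
      funext y; exact hm y v
    rw [d7] at d6
    have d8 := congrArg (fun L : E3 →L[ℝ] ℝ => L w) (d6.unique d5)
    simp only [ContinuousLinearMap.comp_apply, ContinuousLinearMap.prod_apply,
      fderivInnerCLM_apply, neg_apply] at d8
    rw [add_comm] at d8
    exact d8
  have s1 : fderiv ℝ (fderiv ℝ X) y w v = fderiv ℝ (fderiv ℝ X) y v w :=
    (cX.contDiffAt (x := y)).isSymmSndFDerivAt (by simp) w v
  have s2 : fderiv ℝ (fderiv ℝ P) y w v = fderiv ℝ (fderiv ℝ P) y v w :=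
    (cP.contDiffAt (x := y)).isSymmSndFDerivAt (by simp) w v
  have k1 := key v w
  have k2 := key w v
  rw [s1, s2] at k1
  linarith

/-- Real matrices from complex ones, as a continuous linear map. -/
noncomputable def reML : Mat →L[ℝ] (E3 →L[ℝ] E3) :=
  (ContinuousLinearMap.compL ℝ E3 C3 E3 reC).comp
    (((ContinuousLinearMap.compL ℝ E3 C3 C3).flip ofC).comp
      (ContinuousLinearMap.restrictScalarsL ℂ C3 C3 ℝ ℝ))

theorem reML_apply (B : Mat) : reML B = reM B := rfl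

theorem nrm_fin {E : Type} [NormedAddCommGroup E] [NormedSpace ℂ E] {T : ℝ} {f : ℝ → Md → E}
    {u : Md → ℝ} (hu : Summable u) (hf : ∀ t ∈ Icc 0 T, ∀ q, ‖f t q‖ ≤ u q) (hu0 : ∀ q, 0 ≤ u q) :
    Nrm T 0 0 Dat.one' f ≠ ∞ := by
  have h1 : Nrm T 0 0 Dat.one' f ≤ ∑' q, ENNReal.ofReal (u q) := by
    unfold Nrm
    refine ENNReal.tsum_le_tsum fun q => iSup₂_le fun t ht => ?_
    have h2 : Real.exp ((0 - 0 * t) * len q) / Dat.one' t = 1 := by
      simp [Dat.one']
    rw [h2, ENNReal.ofReal_one, one_mul, ← ofReal_norm]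
    exact ENNReal.ofReal_le_ofReal (hf t ht q)
  refine ne_top_of_le_ne_top ?_ h1
  rw [← ENNReal.ofReal_tsum_of_nonneg hu0 hu]
  exact ENNReal.ofReal_ne_top

theorem nrm_zero_fin {E : Type} [NormedAddCommGroup E] [NormedSpace ℂ E] {T c : ℝ} (hc : 0 ≤ c)
    {f : ℝ → Md → E} (hf : Nrm T c 0 Dat.one' f ≠ ∞) : Nrm T 0 0 Dat.one' f ≠ ∞ := by
  obtain ⟨u, hu, hu0, -, hb⟩ := bound_of_Nrm hf
  refine nrm_fin hu (fun t ht q => le_trans ?_ (hb t ht q)) hu0
  refine le_mul_of_one_le_left (norm_nonneg _) ?_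
  rw [← Real.exp_zero]
  exact Real.exp_le_exp.mpr (mul_nonneg hc (len_nonneg q))

/-- The gradient of a level `n` function, at the radius `0`. -/
theorem fn_gradV {K : ℕ → Fin 3 → ℤ} {n : ℕ} {T c : ℝ} {f : ℝ → Md → C3} (hc : 0 < c)
    (hcm : CM T f) (hs : SuppT T (lev n : Set Md) f) (hf : Nrm T c 0 Dat.one' f ≠ ∞) :
    Fn n T 0 (fun t => gradV K (f t)) := by
  have hb := (sBd_of_Nrm (K := K) hc hs hf 1).ex
  obtain ⟨u, hu, hb⟩ := hb
  refine ⟨fun q => ?_, fun t ht q hq => ?_, ?_⟩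
  · have h1 : ContinuousOn (fun t => (ContinuousLinearMap.smulRightL ℂ C3 C3)
        (innerSL ℂ (xi K q)) (f t q)) (Icc 0 T) :=
      ((ContinuousLinearMap.smulRightL ℂ C3 C3) (innerSL ℂ (xi K q))).continuous.comp_continuousOn
        (hcm q)
    exact h1.const_smul Complex.I
  · simp only [gradV]
    rw [hs t ht q hq]
    ext1 v
    simp
  · refine nrm_fin (u := fun q => |u q|) hu.abs (fun t ht q => ?_) (fun q => abs_nonneg _)
    refine (gradV_norm (K := K) (f t) q).trans (le_trans ?_ ((hb t ht q).trans (le_abs_self _)))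
    have h := nx_nonneg (xiZ K) q
    rw [pow_one]
    gcongr
    linarith

/-- The complex matrix of a real coefficient family is real. -/
theorem ev_real_mat (θ : Md →+ ℝ) {a : Md → Mat} (ha : Summable fun q => ‖a q‖)
    (hr : RealM a) (v : E3) : ofC (reM (ev θ a) v) = ev θ a (ofC v) := by
  rw [reM_apply, ← ev_apply θ ha (ofC v)]
  apply ev_real
  · exact Summable.of_nonneg_of_le (fun _ => norm_nonneg _)
      (fun q => (a q).le_opNorm _) (ha.mul_right _)
  · intro q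
    have h1 : cjv (ofC v) = ofC v := by
      ext j
      simp only [cjv, ofC_apply, Complex.conj_ofReal]
    have h2 := hr q (ofC v)
    rw [h1] at h2
    exact h2

theorem continuousOn_ev {E : Type} [NormedAddCommGroup E] [NormedSpace ℂ E] [CompleteSpace E]
    {T c : ℝ} (hc : 0 ≤ c) (θ : Md →+ ℝ) {f : ℝ → Md → E} (hcm : CM T f)
    (hf : Nrm T c 0 Dat.one' f ≠ ∞) : ContinuousOn (fun t => ev θ (f t)) (Icc 0 T) := by
  obtain ⟨u, hu, hu0, -, hb⟩ := bound_of_Nrm hf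
  refine continuousOn_tsum (u := u) (fun q => (hcm q).const_smul (ch θ q)) hu ?_
  intro q t ht
  rw [norm_ch_smul]
  refine le_trans ?_ (hb t ht q)
  refine le_mul_of_one_le_left (norm_nonneg _) ?_
  rw [← Real.exp_zero]
  exact Real.exp_le_exp.mpr (mul_nonneg hc (len_nonneg q))

theorem det_eq_det3 (B : E3 →L[ℝ] E3) : LinearMap.det (B : E3 →ₗ[ℝ] E3) = det3 B := by
  rw [← LinearMap.det_toMatrix (EuclideanSpace.basisFun (Fin 3) ℝ).toBasis, Matrix.det_fin_three]
  simp only [LinearMap.toMatrix_apply, OrthonormalBasis.coe_toBasis,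
    EuclideanSpace.basisFun_apply, OrthonormalBasis.coe_toBasis_repr_apply,
    EuclideanSpace.basisFun_repr, ContinuousLinearMap.coe_coe]
  have h : ∀ j : Fin 3, (EuclideanSpace.single j (1:ℝ) : E3) = e j := fun j => rfl
  simp only [h, det3, cr, inner_eq]
  simp
  ring

/-- `det F ⟪x, y × z⟫ = ⟪F x, F y × F z⟫`. -/
theorem det3_cr (B : E3 →L[ℝ] E3) (x y z : E3) :
    ⟪B x, O.cr (B y) (B z)⟫ = det3 B * ⟪x, O.cr y z⟫ := by
  rw [O.ip, O.ip]
  simp only [O.cr_0, O.cr_1, O.cr_2, O.op B x, O.op B y, O.op B z]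
  simp only [det3, cr, inner_eq]
  simp
  ring

/-- **L28.** -/
theorem l28 (h08 : L08) : L28 := by
  intro K T r R l X U a p F Fi M h θ ρ
  have hS : LevSol K l T r X U a p F Fi M := h.toLevSol
  have hS' := LevSol_tsl hS θ
  have hρ : ∀ H t, ρ H t = reM (ev θ (H t)) := fun H t => rfl
  have hc0 : (0:ℝ) ≤ r := hS.c_pos.le
  have hsF : ∀ t ∈ Icc 0 T, Summable fun q => ‖F t q‖ := fun t ht => hS.sum_F ht
  have hsFi : ∀ t ∈ Icc 0 T, Summable fun q => ‖Fi t q‖ := fun t ht => hS.sum_Fi ht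
  have hsM : ∀ t ∈ Icc 0 T, Summable fun q => ‖M t q‖ := fun t ht => hS.sum_M ht
  have hrF : ∀ t ∈ Icc 0 T, ∀ v, ofC (reM (ev θ (F t)) v) = ev θ (F t) (ofC v) :=
    fun t ht v => ev_real_mat θ (hsF t ht) (h.F_even t ht).1 v
  have hrFi : ∀ t ∈ Icc 0 T, ∀ v, ofC (reM (ev θ (Fi t)) v) = ev θ (Fi t) (ofC v) :=
    fun t ht v => ev_real_mat θ (hsFi t ht) (h.Fi_even t ht).1 v
  have hrM : ∀ t ∈ Icc 0 T, ∀ v, ofC (reM (ev θ (M t)) v) = ev θ (M t) (ofC v) :=
    fun t ht v => ev_real_mat θ (hsM t ht) (h.M_even t ht).1 v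
  -- gradient of the velocity
  have hMF : ∀ t ∈ Icc 0 T, reM (ev θ (gradV K (U t))) =
      (reM (ev θ (M t))).comp (reM (ev θ (F t))) := by
    intro t ht
    rw [← h.MF_eq t ht, ev_mm θ (hsM t ht) (hsF t ht)]
    ext1 v
    rw [reM_apply, ContinuousLinearMap.comp_apply, ContinuousLinearMap.comp_apply, reM_apply,
      ← hrF t ht v]
  -- time derivatives
  have fF : Fn l T 0 F := ⟨h.F_cm, h.F_supp, nrm_zero_fin hc0 hS.F_fin⟩
  have fU : Fn l T 0 (fun t => gradV K (U t)) := fn_gradV hS.c_pos hS.U_cm hS.U_supp hS.U_fin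
  have fA : Fn l T 0 (fun t => gradV K (a t)) := fn_gradV hS.c_pos hS.A_cm hS.A_supp hS.A_fin
  have dF : ∀ t ∈ Icc 0 T, HasDerivWithinAt (fun t => reM (ev θ (F t)))
      (reM (ev θ (gradV K (U t)))) (Icc 0 T) t := by
    intro t ht
    have h1 := (h08.2 Mat l T F (fun t => gradV K (U t)) hS.s_pos fF fU).1
      (fun q t ht => by
        have h2 := hS.F_der q t ht
        rw [h.MF_eq t ht] at h2
        exact h2) θ t ht
    exact reML.hasFDerivAt.comp_hasDerivWithinAt t h1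
  have dU : ∀ t ∈ Icc 0 T, HasDerivWithinAt (fun t => reM (ev θ (gradV K (U t))))
      (reM (ev θ (gradV K (a t)))) (Icc 0 T) t := by
    intro t ht
    have h1 := (h08.2 Mat l T (fun t => gradV K (U t)) (fun t => gradV K (a t)) hS.s_pos fU fA).1
      (fun q t ht => LevSol.gradV_der (hS.U_der q t ht)) θ t ht
    exact reML.hasFDerivAt.comp_hasDerivWithinAt t h1
  have hF0 : reM (ev θ (F 0)) = ContinuousLinearMap.id ℝ E3 := by
    have h1 : F 0 = oneM := by
      rw [hS.F_eq 0 ⟨le_rfl, hS.s_pos.le⟩, hS.x_zero]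
      funext q
      simp only [Pi.add_apply, gradV, Pi.zero_apply]
      rw [add_eq_left]
      ext1 v
      simp
    rw [h1, ev_oneM]
    ext1 v
    rw [reM_apply, ContinuousLinearMap.id_apply, ContinuousLinearMap.id_apply, reC_ofC]
  have hFFi : ∀ t ∈ Icc 0 T, (reM (ev θ (F t))).comp (reM (ev θ (Fi t))) =
      ContinuousLinearMap.id ℝ E3 := by
    intro t ht
    ext1 v
    have h1 := ev_mm θ (hsF t ht) (hsFi t ht)
    rw [h.FFi t ht, ev_oneM] at h1
    have h2 := congrArg (fun L : Mat => reC (L (ofC v))) h1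
    simp only [ContinuousLinearMap.id_apply, ContinuousLinearMap.comp_apply] at h2
    rw [ContinuousLinearMap.comp_apply, reM_apply, hrFi t ht, ← h2, reC_ofC]
    rfl
  have hFiF : ∀ t ∈ Icc 0 T, (reM (ev θ (Fi t))).comp (reM (ev θ (F t))) =
      ContinuousLinearMap.id ℝ E3 := by
    intro t ht
    ext1 v
    have h1 := ev_mm θ (hsFi t ht) (hsF t ht)
    rw [hS.inv t ht, ev_oneM] at h1
    have h2 := congrArg (fun L : Mat => reC (L (ofC v))) h1
    simp only [ContinuousLinearMap.id_apply, ContinuousLinearMap.comp_apply] at h2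
    rw [ContinuousLinearMap.comp_apply, reM_apply, hrF t ht, ← h2, reC_ofC]
    rfl
  -- the values through the translated solution
  have eF : ∀ t ∈ Icc 0 T, reM (ev θ (F t)) = fderiv ℝ (mapR (xiZ K) (tsl θ (X t))) 0 := by
    intro t ht
    ext1 v
    have h1 := hS'.ev_F 0 v ht
    rw [ev_tsl] at h1
    rw [reM_apply, h1, reC_ofC]
  have eA : ∀ t ∈ Icc 0 T, reM (ev θ (gradV K (a t))) =
      fderiv ℝ (vecR (xiZ K) (tsl θ (a t))) 0 := by
    intro t ht
    ext1 v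
    have hs1 := (hS'.A_sBd 1).sum ht
    rw [(vecR_hasFDerivAt (xiZ K) hs1 0).fderiv, reM_apply, ContinuousLinearMap.comp_apply,
      ← ev_gradV _ (summable_nx (xiZ K) hs1), tsl_gradV, ev_tsl]
  have hdet : ∀ t ∈ Icc 0 T, det3 (reM (ev θ (F t))) = 1 := by
    intro t ht
    rw [eF t ht]
    exact hS'.det_one 0 ht
  have hsym : ∀ t ∈ Icc 0 T, ∀ v w, ⟪reM (ev θ (gradV K (a t))) w, reM (ev θ (F t)) v⟫ =
      ⟪reM (ev θ (gradV K (a t))) v, reM (ev θ (F t)) w⟫ := by
    intro t ht v w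
    rw [eA t ht, eF t ht]
    exact LevSol_symm hS' ht 0 v w
  -- the invariant
  have hG : ∀ v w : E3, ∀ t ∈ Icc 0 T,
      ⟪reM (ev θ (F t)) v, reM (ev θ (gradV K (U t))) w⟫
        - ⟪reM (ev θ (gradV K (U t))) v, reM (ev θ (F t)) w⟫ =
      ⟪reM (ev θ (F 0)) v, reM (ev θ (gradV K (U 0))) w⟫
        - ⟪reM (ev θ (gradV K (U 0))) v, reM (ev θ (F 0)) w⟫ := by
    intro v w
    have hd : ∀ t ∈ Icc 0 T, HasDerivWithinAt (fun t =>
        ⟪reM (ev θ (F t)) v, reM (ev θ (gradV K (U t))) w⟫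
        - ⟪reM (ev θ (gradV K (U t))) v, reM (ev θ (F t)) w⟫) 0 (Icc 0 T) t := by
      intro t ht
      have a1 : ∀ z : E3, HasDerivWithinAt (fun t => reM (ev θ (F t)) z)
          (reM (ev θ (gradV K (U t))) z) (Icc 0 T) t := fun z =>
        (ContinuousLinearMap.apply ℝ E3 z).hasFDerivAt.comp_hasDerivWithinAt t (dF t ht)
      have a2 : ∀ z : E3, HasDerivWithinAt (fun t => reM (ev θ (gradV K (U t))) z)
          (reM (ev θ (gradV K (a t))) z) (Icc 0 T) t := fun z =>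
        (ContinuousLinearMap.apply ℝ E3 z).hasFDerivAt.comp_hasDerivWithinAt t (dU t ht)
      have a3 := ((a1 v).inner ℝ (a2 w)).sub ((a2 v).inner ℝ (a1 w))
      refine a3.congr_deriv ?_
      have a4 := hsym t ht v w
      rw [real_inner_comm] at a4
      rw [a4]
      ring
    intro t ht
    have := constant_of_has_deriv_right_zero
      (f := fun t => ⟪reM (ev θ (F t)) v, reM (ev θ (gradV K (U t))) w⟫
        - ⟪reM (ev θ (gradV K (U t))) v, reM (ev θ (F t)) w⟫) (a := 0) (b := T)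
      (fun t ht => (hd t ht).continuousWithinAt)
      (fun t ht => (hd t (Ico_subset_Icc_self ht)).mono_of_mem_nhdsWithin
        (Icc_mem_nhdsGE_of_mem ht)) t ht
    exact this
  refine ⟨fun t ht v => ⟨hrF t ht v, hrFi t ht v, hrM t ht v⟩, ?_, ?_, ?_, hF0,
    fun t ht => ⟨hFFi t ht, hFiF t ht⟩, ?_, ?_, ?_⟩
  · intro t ht
    have h1 := dF t ht
    rw [hMF t ht] at h1
    exact h1
  · exact reML.continuous.comp_continuousOn (continuousOn_ev hc0 θ h.M_cm hS.M_fin)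
  · exact reML.continuous.comp_continuousOn (continuousOn_ev hc0 θ h.Fi_cm hS.Fi_fin)
  · intro t ht
    rw [hρ, trace_reM, trace_ev θ (hsM t ht) (hS.tr_M t ht)]
    simp
  · intro t ht
    rw [hρ, det_eq_det3]
    exact hdet t ht
  · set om0 : E3 := axial (reM (ev θ (M 0))) with hom0
    have hT0 : (0:ℝ) ∈ Icc 0 T := ⟨le_rfl, hS.s_pos.le⟩
    refine ⟨fun t => reM (ev θ (F t)) om0, ?_, ?_⟩
    · intro t ht v
      rw [hρ]
      set Ft := reM (ev θ (F t)) with hFt
      set Gt := reM (ev θ (Fi t)) with hGt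
      set At := reM (ev θ (M t)) with hAt
      refine ext_inner_left ℝ fun w => ?_
      have b1 : ∀ z : E3, Ft (Gt z) = z := fun z => by
        have := congrArg (fun L : E3 →L[ℝ] E3 => L z) (hFFi t ht)
        exact this
      have b2 := hG (Gt w) (Gt v) t ht
      rw [hMF t ht, hMF 0 hT0, hF0] at b2
      simp only [ContinuousLinearMap.comp_apply, ContinuousLinearMap.id_apply] at b2
      rw [← hFt, ← hAt, b1, b1] at b2
      rw [inner_sub_right, ContinuousLinearMap.adjoint_inner_right, b2]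
      have b3 := O.axial_cr (reM (ev θ (M 0))) (Gt v)
      rw [← ContinuousLinearMap.adjoint_inner_right (reM (ev θ (M 0))) (Gt w) (Gt v),
        ← inner_sub_right, b3]
      have b4 := det3_cr Ft (Gt w) om0 (Gt v)
      rw [hdet t ht, one_mul, b1, b1] at b4
      exact b4.symm
    · intro t ht
      have h1 := (ContinuousLinearMap.apply ℝ E3 om0).hasFDerivAt.comp_hasDerivWithinAt t (dF t ht)
      rw [hMF t ht] at h1
      exact h1

end Pool.Agent.Work.MP_b0497c_an.Unf.L
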