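import Pool.Agent.Work.MP_b0497c_an.Unf.OStmts

set_option autoImplicit false

/-!
# Block O: the next level (OK.md, OK.6), statement of THEOREM O and its pieces

`NextD` = exact data of level `n+1` at the centre, delivered by the blocks S and L;
`D.So N` = closeness of the exact data to the model `M¹ = A + v nᵀ`, `F¹ = F (1 + D lᵀ)`;
`D.next N` = centre data of level `n+1`.
-/

open Set ContinuousLinearMap RealInnerProductSpace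

namespace Pool.Agent.Work.MP_b0497c_an.Unf.O

open Forced.Ode (Op)
open Fam K

namespace LevD

variable (D : LevD)

/-- `∫₀ᵗ F⁻¹ v` in closed form (vorticity law) -/
noncomputable def Dv (t : ℝ) : E3 :=
  (D.s)⁻¹ • (cx D.l (D.v 0) - D.Fi t (cx (D.n t) (D.v t)))

/-- flow of the layer `al` -/
noncomputable def F1 (al t : ℝ) : Op :=
  (D.F t).comp (ContinuousLinearMap.id ℝ E3 + al • Forced.Ode.ro (D.Dv t) D.l)

/-- inverse of the flow of the layer `al` -/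
noncomputable def Fi1 (al t : ℝ) : Op :=
  (ContinuousLinearMap.id ℝ E3 - al • Forced.Ode.ro (D.Dv t) D.l).comp (D.Fi t)

/-- initial curl of the layer `al` -/
noncomputable def Om1 (al : ℝ) : E3 := D.Om + al • cx D.l (D.v 0)

/-- label covector of the next wave (model) -/
noncomputable def Kn : E3 := D.K0 + D.X • D.l

/-- initial value of the next wave for the label covector `K` -/
noncomputable def seed (K : E3) : E3 := D.v 0 - (⟪K, D.v 0⟫ / ⟪K, D.l⟫) • D.l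

/-- generator of the layer `al` -/
noncomputable def gen (al t : ℝ) : Op := kel (D.fam.M al t) (D.fam.K al t)

/-- `t_{n+1}` -/
noncomputable def t1 : ℝ := D.t0 + D.th

end LevD

/-- Exact data of the next level at the centre: velocity gradient `A`, flow gradient `F`, inverse
`Fi`, initial curl `Om`, label covector `K` of the new wave, the new wave `V` (any length), and the
parameters of the next level. -/
structure NextD where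
  A : ℝ → Op
  F : ℝ → Op
  Fi : ℝ → Op
  Om : E3
  K : E3
  V : ℝ → E3
  /-- level constant of the next level -/
  b : ℝ
  /-- bound of the time Lipschitz constant of `A` -/
  bp : ℝ
  h : ℝ
  k0 : ℝ
  k2 : ℝ

namespace NextD

variable (N : NextD)

/-- covector of the new wave -/
noncomputable def k (t : ℝ) : E3 := adjoint (N.Fi t) N.K

end NextD

namespace LevD

variable (D : LevD) (N : NextD)

/-- centre data of the next level with a given final time -/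
noncomputable def nextT (T : ℝ) : LevD where
  A := N.A
  F := N.F
  Fi := N.Fi
  Om := N.Om
  l := (‖N.k D.t1‖)⁻¹ • N.K
  v := fun t => (N.h ^ 24 / ‖N.V D.t1‖) • N.V t
  t0 := D.t1
  T := T
  b := N.b
  h := N.h
  k0 := N.k0
  k2 := N.k2
  al := D.alp

/-- centre data of the next level -/
noncomputable def next : LevD := D.nextT N (D.t1 + 1001 / 1000 * (D.nextT N 0).th)

/-- Hypotheses `(so)` on the exact data of the next level. -/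
structure So : Prop where
  A_tr : ∀ t, LinearMap.trace ℝ E3 (N.A t).toLinearMap = 0
  A_le : ∀ t, ‖N.A t‖ ≤ D.h ^ 27
  /-- time Lipschitz bound of the exact gradient (S31 at the step `n-1 → n`) -/
  A_lip : ∀ t t', ‖N.A t - N.A t'‖ ≤ N.bp * |t - t'|
  F_der : ∀ t, HasDerivAt N.F ((N.A t).comp (N.F t)) t
  F_zero : N.F 0 = ContinuousLinearMap.id ℝ E3
  FFi : ∀ t, (N.F t).comp (N.Fi t) = ContinuousLinearMap.id ℝ E3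
  FiF : ∀ t, (N.Fi t).comp (N.F t) = ContinuousLinearMap.id ℝ E3
  VL : ∀ t ∈ Icc 0 D.T, axial (N.A t) = N.F t N.Om
  A_near : ∀ t ∈ Icc 0 D.T, ‖N.A t - D.fam.M 1 t‖ ≤ (N.bp ^ 30)⁻¹
  F_near : ∀ t ∈ Icc 0 D.T, ‖N.F t - D.F1 1 t‖ ≤ (N.bp ^ 30)⁻¹
  Fi_near : ∀ t ∈ Icc 0 D.T, ‖N.Fi t - D.Fi1 1 t‖ ≤ (N.bp ^ 30)⁻¹
  Om_near : ‖N.Om - D.Om1 1‖ ≤ (N.bp ^ 30)⁻¹
  K_ne : N.K ≠ 0
  K_near : ‖(‖N.K‖)⁻¹ • N.K - (‖D.Kn‖)⁻¹ • D.Kn‖ ≤ (N.bp ^ 30)⁻¹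
  V_der : ∀ t, HasDerivAt N.V (kel (N.A t) (N.k t) (N.V t)) t
  V_zero : N.V 0 = D.seed N.K
  bp_ge : D.h ^ 600 ≤ N.bp
  b_ge : N.bp ^ 13 ≤ N.b
  h_ge : N.b ^ 200 ≤ N.h
  k0_ge : 10 ^ 4 ≤ N.k0
  k0_le : N.k0 ≤ N.b
  k2_le : N.k2 ≤ N.h
  k0k2 : 2 * 10 ^ 8 * N.k0 ^ 2 ≤ D.k2
  k2k2 : 2 * 10 ^ 4 * D.k2 ≤ N.k2
  eta : 200 * Real.sqrt D.k2 / (N.k0 ^ 2 * Real.sqrt N.k0) + N.k0 / N.k2
    + 200 / (D.k2 * N.k2) + (N.h)⁻¹ ≤ 1 / 10 ^ 4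
  kap_lo : 1 / 2 ≤ D.kap * (1 - 100 * D.eta)
  kap_hi : D.kap * (1 + 100 * D.eta) ≤ 2
  grow : N.h ^ 100 ≤ Real.exp (1 / Real.sqrt (D.c * D.k0))

/-- `W` is the core wave of the model. -/
structure Core (W : ℝ → E3) : Prop where
  der : ∀ t ∈ Icc 0 D.T, HasDerivAt W (D.gen 1 t (W t)) t
  zero : W 0 = D.seed D.Kn

end LevD

/-! ### The pieces -/

open LevD

/-- T1a: algebra of the family, no derivatives (needs `⟪l, Dv⟫ = 0`, `⟪K0, Dv⟫ = (f - f 0)/s`). -/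
def T1a : Prop := ∀ (D : LevD) (b' : ℝ), D.Flo b' → ∀ al t : ℝ,
  ⟪D.l, D.Dv t⟫ = 0 ∧ ⟪D.K0, D.Dv t⟫ = (D.f t - D.f 0) / D.s ∧
  (D.F1 al t).comp (D.Fi1 al t) = ContinuousLinearMap.id ℝ E3 ∧
  (D.Fi1 al t).comp (D.F1 al t) = ContinuousLinearMap.id ℝ E3 ∧
  adjoint (D.Fi1 al t) D.Kn = D.fam.K al t ∧ adjoint (D.Fi1 al t) D.l = D.n t ∧ D.Dv 0 = 0 ∧
  D.F1 al 0 = ContinuousLinearMap.id ℝ E3 ∧ D.fam.K al t ≠ 0 ∧ D.n t ≠ 0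

/-- T1b: the layer is a flow with the vorticity law. -/
def T1b : Prop := ∀ (D : LevD) (b' : ℝ), D.Flo b' → ∀ al : ℝ, ∀ t ∈ Icc 0 D.T,
  HasDerivAt D.Dv (D.Fi t (D.v t)) t ∧
  HasDerivAt (D.F1 al) ((D.fam.M al t).comp (D.F1 al t)) t ∧
  axial (D.fam.M al t) = D.F1 al t (D.Om1 al) ∧
  LinearMap.trace ℝ E3 (D.fam.M al t).toLinearMap = 0

/-- T1c: crude bounds. -/
def T1c : Prop := ∀ D : LevD, D.HL → ∀ al ∈ Icc (-1 : ℝ) 1, ∀ t ∈ Icc 0 D.T,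
  ‖D.fam.M al t‖ ≤ D.h ^ 26 ∧ ‖D.F1 al t‖ ≤ D.h ^ 26 ∧ ‖D.Fi1 al t‖ ≤ D.h ^ 26 ∧
  ‖D.Om1 al‖ ≤ D.h ^ 26 ∧ ‖D.fam.K al t‖ ≤ D.h ^ 26 ∧ 1 ≤ ‖D.fam.K al t‖ ∧ ‖D.Kn‖ ≤ D.h ^ 26 ∧
  1 ≤ D.h * ‖D.Kn‖ ∧ 1 ≤ D.h * ⟪D.Kn, D.l⟫ ∧ ‖D.seed D.Kn‖ ≤ 2 * ‖D.v 0‖ ∧
  ‖D.v 0‖ ≤ ‖D.seed D.Kn‖ ∧ 0 < ‖D.v 0‖

/-- T2: the core wave exists; it stays orthogonal to its covector. -/
def T2 : Prop := ∀ D : LevD, D.HL → ∃ W : ℝ → E3, D.Core W ∧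
  ∀ t ∈ Icc 0 D.T, ⟪D.fam.K 1 t, W t⟫ = 0

/-- O4 of OK.5: two-sided size of the core wave. -/
def O4 : Prop := ∀ D : LevD, D.HL → ∀ W : ℝ → E3, D.Core W →
  ∀ s ∈ Icc 0 D.T, ∀ t ∈ Icc s D.T, D.alp t / D.alp s * ‖W s‖ ≤ D.h ^ 100 * ‖W t‖ ∧
    ‖W t‖ ≤ D.h ^ 100 * (D.alp t / D.alp s) * ‖W s‖

/-- CL of OK.6, closing of the model at the times `[t0, T]`: `kap`, `c`, positivity. -/
def CL : Prop := ∀ D : LevD, D.HL → ∀ W : ℝ → E3, D.Core W → ∀ t ∈ Icc D.t0 D.T, W t ≠ 0 ∧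
  |⟪D.fam.K 1 t, D.fam.M 1 t (W t)⟫ / (‖D.fam.K 1 t‖ * ‖W t‖) - D.kap| ≤
    50 * D.kap * (D.c / D.lam1 t + 1 / D.lam1 t ^ 2 + (D.h)⁻¹) ∧
  |⟪cx (W t) (D.fam.K 1 t), D.fam.M 1 t (W t)⟫ / (‖D.fam.K 1 t‖ * ‖W t‖ ^ 2)
    - D.kap / D.lam1 t| ≤ 50 * D.eta * (D.kap / D.lam1 t)

/-- CL4 of OK.6: monotonicity of `f+` of the model on `[t0, t1]`. -/
def CL4 : Prop := ∀ D : LevD, D.HL → ∀ W : ℝ → E3, D.Core W →
  MonotoneOn (fun t => ⟪W t, D.F1 1 t (D.Fi1 1 D.t1 (W D.t1))⟫) (Icc D.t0 D.t1)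

/-- T3: the exact wave is close to the core wave of the model. -/
def T3 : Prop := ∀ (D : LevD) (N : NextD), D.HL → D.So N → ∀ W : ℝ → E3, D.Core W →
  ∀ t ∈ Icc 0 D.T, ‖N.V t - W t‖ ≤ (N.bp ^ 28)⁻¹ * ‖W t‖ ∧
    ‖(‖N.k t‖)⁻¹ • N.k t - (‖D.fam.K 1 t‖)⁻¹ • D.fam.K 1 t‖ ≤ (N.bp ^ 28)⁻¹

/-- T4: Kelvin bound and sizes for the exact data. -/
def T4 : Prop := ∀ (D : LevD) (N : NextD), D.HL → D.So N →
  PB (fun t => kel (N.A t) (N.k t)) 0 D.T (D.h ^ 151) D.alp ∧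
  ∀ s ∈ Icc 0 D.T, ∀ t ∈ Icc s D.T, D.alp t / D.alp s * ‖N.V s‖ ≤ D.h ^ 101 * ‖N.V t‖ ∧
    ‖N.V t‖ ≤ D.h ^ 101 * (D.alp t / D.alp s) * ‖N.V s‖

/-- T5: rotation rate, tilt and `s` of the next level. -/
def T5 : Prop := ∀ (D : LevD) (N : NextD), D.HL → D.So N →
  |(D.next N).kap - D.kap| ≤ 100 * D.eta * D.kap ∧ |(D.next N).c * D.k2 - 1| ≤ 200 * D.eta ∧
  |(D.next N).s * D.k2 - D.a| ≤ D.a / 10

/-- T6: the weight of the next level. -/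
def T6 : Prop := ∀ D : LevD, D.HL → (∀ t ∈ Icc 0 D.T, 0 < D.alp t) ∧ MonotoneOn D.alp (Icc 0 D.T) ∧
  (∀ s ∈ Icc 0 D.T, ∀ t ∈ Icc s D.T, D.alp t ≤ D.alp s * Real.exp (D.h ^ 13 * (t - s))) ∧
  D.alp D.t0 * Real.exp (7 / 5 / Real.sqrt (D.c * D.k0)) ≤ D.alp D.t1

/-- N1w of OK.3 (Taylor expansion of `g` with its own constant). -/
def N1w : Prop := ∀ (D : LevD) (b' : ℝ), D.Flo b' → (∀ t ∈ Icc 0 D.T, ‖D.v t‖ ≤ b' * D.a) →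
  ∀ t ∈ Icc 0 D.T, |t - D.t0| ≤ 1 / (240 * b' ^ 5) →
    |D.g t - D.a * D.c * D.kap * (t - D.t0) ^ 2| ≤
      24 * b' ^ 5 * |t - D.t0| * (D.a * D.c * D.kap * (t - D.t0) ^ 2)

/-- T7: the function `f` of the next level: (h4) and the case (F). -/
def T7 : Prop := ∀ (D : LevD) (N : NextD), D.HL → D.So N → (D.next N).Far ∧
  ∀ t ∈ Icc 0 (D.next N).t0, ((D.next N).b)⁻¹ * (D.next N).a * ((D.next N).t0 - t) ^ 2 ≤
    (D.next N).g t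

/-- THEOREM O (the step at the centre). -/
def ThmO : Prop := ∀ (D : LevD) (N : NextD), D.HL → D.So N → (D.next N).HL ∧
  |(D.next N).kap - D.kap| ≤ 100 * D.eta * D.kap ∧ |(D.next N).c * D.k2 - 1| ≤ 200 * D.eta ∧
  (D.next N).T ≤ D.T

end Pool.Agent.Work.MP_b0497c_an.Unf.O
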