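import Pool.Agent.Work.MP_b0497c_an.Bd.B09
import Pool.Agent.Work.MP_b0497c_an.Unf.ONext

set_option autoImplicit false

/-!
# Block P: the numbers of one level, numeric fields of `LevD.Kin`, `LevD.So`, and their induction
-/

open Filter

namespace Pool.Agent.Work.MP_b0497c_an.Unf.P

open O

/-- Invariant of the rotation rate. -/
def KapOK (n : ℕ) (κ : ℝ) : Prop :=
  3 / 4 + (1 / 2 : ℝ) ^ (n + 2) ≤ κ ∧ κ ≤ 5 / 4 - (1 / 2 : ℝ) ^ (n + 2)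

theorem kapOK_one {n : ℕ} {κ : ℝ} (h : |κ - 1| ≤ 1 / 100) (hn : 1 ≤ n) : KapOK n κ := by
  have h1 : (1 / 2 : ℝ) ^ (n + 2) ≤ (1 / 2 : ℝ) ^ 3 :=
    pow_le_pow_of_le_one (by norm_num) (by norm_num) (by omega)
  obtain ⟨h2, h3⟩ := abs_le.1 h
  norm_num at h1
  constructor <;> linarith

/-- The numbers of level `n` of the construction. -/
structure Num (x : ℝ) (n : ℕ) (D : LevD) : Prop where
  b : D.b = bb x n
  h : D.h = hh x n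
  k0 : D.k0 = k0 x n
  k2 : D.k2 = k2f x n
  c_lo : cn x n / 2 ≤ D.c
  c_hi : D.c ≤ 2 * cn x n
  kap : KapOK n D.kap

namespace Num

variable {x : ℝ} {n : ℕ} {D : LevD} (M : Num x n D)
include M

theorem a_eq : D.a = aa x n := by rw [LevD.a, M.h, aa_eq]

theorem w_eq : D.w = (hh x n ^ 7)⁻¹ := by rw [LevD.w, M.h]

theorem eta_eq : D.eta = eta x n D.c := by
  rw [LevD.eta, eta, M.k0, M.k2, M.h, one_div (hh x n)]

theorem th_eq : D.th = thv x n D.c D.kap := by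
  rw [LevD.th, thv, M.k2, M.a_eq]

theorem c_pos : 0 < D.c := lt_of_lt_of_le (half_pos (cn_pos x n)) M.c_lo

theorem kap_bd : 3 / 4 ≤ D.kap ∧ D.kap ≤ 5 / 4 := by
  have h : (0 : ℝ) < (1 / 2 : ℝ) ^ (n + 2) := by positivity
  obtain ⟨h1, h2⟩ := M.kap
  constructor <;> linarith

theorem kap_ge : 1 / 2 ≤ D.kap := by have := M.kap_bd.1; linarith
theorem kap_le : D.kap ≤ 2 := by have := M.kap_bd.2; linarith

end Num

theorem exp_small {y : ℝ} (hy : (10 : ℝ) ^ 9 ≤ y) : Real.exp (-y) ≤ ((10 : ℝ) ^ 100)⁻¹ := by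
  have h3 : (10 : ℝ) ≤ Real.exp 3 := by
    have := Real.exp_one_gt_d9
    calc (10 : ℝ) ≤ 2.7 ^ 3 := by norm_num
      _ ≤ Real.exp 1 ^ 3 := by gcongr; linarith
      _ = Real.exp 3 := by rw [← Real.exp_nat_mul]; norm_num
  rw [Real.exp_neg]
  refine inv_anti₀ (by positivity) ?_
  calc (10 : ℝ) ^ 100 ≤ Real.exp 3 ^ 100 := by gcongr
    _ = Real.exp 300 := by rw [← Real.exp_nat_mul]; norm_num
    _ ≤ Real.exp y := Real.exp_le_exp.2 (by linarith)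

namespace Big

variable {C x : ℝ} (B : Big C x)
include B

theorem cn_le_one (n : ℕ) : 2 * cn x n ≤ 1 / 10 ^ 9 := by
  have h0 := B.ell_ge n
  have h1 := B.ell_ge (n + 1)
  have h2 := exp_small (y := 2 * ell x n + 3 * ell x (n + 1)) (by linarith)
  rw [cn_exp]
  calc 2 * Real.exp (-(2 * ell x n + 3 * ell x (n + 1))) ≤ 2 * ((10 : ℝ) ^ 100)⁻¹ := by gcongr
    _ ≤ 1 / 10 ^ 9 := by norm_num

theorem c_le_one {n : ℕ} {c : ℝ} (hc : c ≤ 2 * cn x n) : c ≤ 1 :=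
  hc.trans ((B.cn_le_one n).trans (by norm_num))

theorem k2f_ge (n : ℕ) : (10 : ℝ) ^ 100 ≤ k2f x n := by
  rw [k2f_exp]
  exact B.num_exp (by have := B.ell_ge (n + 1); have := B.ell_ge (n + 2); linarith)

theorem hh_ge (n : ℕ) : (10 : ℝ) ^ 100 ≤ hh x n := by
  rw [hh]
  exact B.num_exp (by have := B.ell_ge (n + 2); linarith)

theorem eta_tiny {n : ℕ} {c : ℝ} (hc1 : cn x n / 2 ≤ c) (hc2 : c ≤ 2 * cn x n) :
    eta x n c ≤ 1 / 10 ^ 50 := by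
  refine (B.eta_geom hc1 hc2).trans ?_
  have h : (1 / 2 : ℝ) ^ (n + 1) ≤ 1 := pow_le_one₀ (by norm_num) (by norm_num)
  calc (10 : ℝ)⁻¹ ^ 50 * (1 / 2) ^ (n + 1) ≤ (10 : ℝ)⁻¹ ^ 50 * 1 := by gcongr
    _ = 1 / 10 ^ 50 := by norm_num

/-- `10^50 ≤ c k2`. -/
theorem ck2 {n : ℕ} {c : ℝ} (hc1 : cn x n / 2 ≤ c) : (10 : ℝ) ^ 50 ≤ c * k2f x n := by
  have g0 := B.ell_gap n
  have g1 := B.ell_gap (n + 1)
  have p0 := B.ell_pos n
  have p1 := B.ell_pos (n + 1)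
  have e1 : n + 1 + 1 = n + 2 := rfl
  rw [e1] at g1
  have h1 : (10 : ℝ) ^ 100 ≤ Real.exp (3 * ell x (n + 2) - 2 * ell x n - ell x (n + 1)) :=
    B.num_exp (by have := B.ell_ge (n + 2); linarith)
  have h2 := mul_le_mul_of_nonneg_right hc1 (k2f_pos x n).le
  refine le_trans ?_ h2
  rw [cn_exp, k2f_exp]
  calc (10 : ℝ) ^ 50 ≤ (10 : ℝ) ^ 100 / 2 := by norm_num
    _ ≤ Real.exp (3 * ell x (n + 2) - 2 * ell x n - ell x (n + 1)) / 2 := by gcongr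
    _ = _ := by
        rw [div_mul_eq_mul_div, ← Real.exp_add]; ring_nf

/-- `10^12 k0(n+1)^2 ≤ k2(n)`. -/
theorem k0sq_k2 (n : ℕ) : 10 ^ 12 * k0 x (n + 1) ^ 2 ≤ k2f x n := by
  rw [k0, Lr, k2f_exp, ← Real.exp_nat_mul]
  have h := B.num_exp (y := ell x (n + 1)) (B.ell_ge (n + 1))
  have e1 : n + 1 + 1 = n + 2 := rfl
  rw [e1]
  have p1 := B.ell_pos (n + 1)
  have p2 := B.ell_pos (n + 2)
  calc 10 ^ 12 * Real.exp (((2 : ℕ) : ℝ) * ell x (n + 2))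
      ≤ Real.exp (ell x (n + 1)) * Real.exp (((2 : ℕ) : ℝ) * ell x (n + 2)) := by
        gcongr
        exact le_trans (by norm_num) h
    _ = Real.exp (ell x (n + 1) + ((2 : ℕ) : ℝ) * ell x (n + 2)) := (Real.exp_add _ _).symm
    _ ≤ _ := Real.exp_le_exp.2 (by push_cast; linarith)

/-- `10^12 k0(n+1) ≤ k2(n)`. -/
theorem k0_k2 (n : ℕ) : 10 ^ 12 * k0 x (n + 1) ≤ k2f x n := by
  refine le_trans ?_ (B.k0sq_k2 n)
  have h := B.k0_ge (n + 1)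
  have h1 : (1 : ℝ) ≤ k0 x (n + 1) := le_trans (by norm_num) h
  have h2 : k0 x (n + 1) ≤ k0 x (n + 1) ^ 2 := le_self_pow₀ h1 (by norm_num)
  linarith

/-- `c k0^2 ≤ 10^(-9)`. -/
theorem ck0sq {n : ℕ} {c : ℝ} (hc : c ≤ 2 * cn x n) : c * k0 x n ^ 2 ≤ 1 / 10 ^ 9 := by
  have h0 := B.ell_ge n
  have h1 := B.ell_ge (n + 1)
  have h2 := exp_small (y := 2 * ell x n + ell x (n + 1)) (by linarith)
  calc c * k0 x n ^ 2 ≤ 2 * cn x n * k0 x n ^ 2 := by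
        have := (k0_pos x n).le
        gcongr
    _ = 2 * (Real.exp (-(2 * ell x n + 3 * ell x (n + 1))) *
          Real.exp (((2 : ℕ) : ℝ) * ell x (n + 1))) := by
        rw [cn_exp, k0, Lr, ← Real.exp_nat_mul]; ring
    _ = 2 * Real.exp (-(2 * ell x n + ell x (n + 1))) := by
        rw [← Real.exp_add]; push_cast; ring_nf
    _ ≤ 2 * ((10 : ℝ) ^ 100)⁻¹ := by gcongr
    _ ≤ 1 / 10 ^ 9 := by norm_num

/-- `10^12 k2(n) ≤ k2(n+1)`. -/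
theorem k2_k2 (n : ℕ) : 10 ^ 12 * k2f x n ≤ k2f x (n + 1) := by
  rw [k2f_exp, k2f_exp]
  have h := B.num_exp (y := ell x (n + 1)) (B.ell_ge (n + 1))
  have e1 : n + 1 + 1 = n + 2 := rfl
  have e2 : n + 1 + 2 = n + 3 := rfl
  rw [e1, e2]
  have g1 := B.ell_gap (n + 1)
  have g2 := B.ell_gap (n + 2)
  have p1 := B.ell_pos (n + 1)
  have p2 := B.ell_pos (n + 2)
  rw [e1] at g1
  have e3 : n + 2 + 1 = n + 3 := rfl
  rw [e3] at g2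
  calc 10 ^ 12 * Real.exp (2 * ell x (n + 1) + 3 * ell x (n + 2))
      ≤ Real.exp (ell x (n + 1)) * Real.exp (2 * ell x (n + 1) + 3 * ell x (n + 2)) := by
        gcongr
        exact le_trans (by norm_num) h
    _ = Real.exp (ell x (n + 1) + (2 * ell x (n + 1) + 3 * ell x (n + 2))) :=
        (Real.exp_add _ _).symm
    _ ≤ _ := Real.exp_le_exp.2 (by linarith)

/-- the `eta` field of `So`. -/
theorem so_eta (n : ℕ) : 200 * Real.sqrt (k2f x n) / (k0 x (n + 1) ^ 2 * Real.sqrt (k0 x (n + 1)))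
    + k0 x (n + 1) / k2f x (n + 1) + 200 / (k2f x n * k2f x (n + 1)) + (hh x (n + 1))⁻¹
      ≤ 1 / 10 ^ 4 := by
  have e1 : n + 1 + 1 = n + 2 := rfl
  have e2 : n + 1 + 2 = n + 3 := rfl
  have e3 : n + 2 + 1 = n + 3 := rfl
  have g1 := B.ell_gap (n + 1)
  have g2 := B.ell_gap (n + 2)
  have p1 := B.ell_pos (n + 1)
  have p2 := B.ell_ge (n + 2)
  rw [e1] at g1
  rw [e3] at g2
  have q1 := B.ell_ge (n + 1)
  have t1 : 200 * Real.sqrt (k2f x n) / (k0 x (n + 1) ^ 2 * Real.sqrt (k0 x (n + 1))) ≤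
      200 * ((10 : ℝ) ^ 100)⁻¹ := by
    have h1 : Real.sqrt (k2f x n) = Real.exp ((2 * ell x (n + 1) + 3 * ell x (n + 2)) / 2) := by
      rw [k2f_exp, Real.exp_half]
    have h2 : Real.sqrt (k0 x (n + 1)) = Real.exp (ell x (n + 2) / 2) := by
      rw [k0, Lr, Real.exp_half]
    rw [h1, h2, k0, Lr, ← Real.exp_nat_mul, ← Real.exp_add, mul_div_assoc, ← Real.exp_sub]
    gcongr
    refine le_trans ?_ (exp_small (y := (10 : ℝ) ^ 9) le_rfl)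
    refine Real.exp_le_exp.2 ?_
    push_cast
    rw [e1]
    linarith
  have t2 : k0 x (n + 1) / k2f x (n + 1) ≤ ((10 : ℝ) ^ 100)⁻¹ := by
    rw [k0, Lr, k2f_exp, ← Real.exp_sub]
    refine le_trans ?_ (exp_small (y := (10 : ℝ) ^ 9) le_rfl)
    refine Real.exp_le_exp.2 ?_
    rw [e1, e2]
    linarith
  have t3 : 200 / (k2f x n * k2f x (n + 1)) ≤ 200 * ((10 : ℝ) ^ 100)⁻¹ := by
    have h1 := B.k2f_ge n
    have h2 := B.k2f_ge (n + 1)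
    rw [div_eq_mul_inv]
    gcongr
    calc (10 : ℝ) ^ 100 = (10 : ℝ) ^ 100 * 1 := (mul_one _).symm
      _ ≤ k2f x n * k2f x (n + 1) := by
          gcongr
          exact le_trans (by norm_num) h2
  have t4 : (hh x (n + 1))⁻¹ ≤ ((10 : ℝ) ^ 100)⁻¹ := inv_anti₀ (by positivity) (B.hh_ge (n + 1))
  calc _ ≤ 200 * ((10 : ℝ) ^ 100)⁻¹ + ((10 : ℝ) ^ 100)⁻¹ + 200 * ((10 : ℝ) ^ 100)⁻¹
        + ((10 : ℝ) ^ 100)⁻¹ := by linarith
    _ ≤ 1 / 10 ^ 4 := by norm_num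

/-- the `grow` field of `So` (with `10^6` in place of `100`). -/
theorem so_grow {n : ℕ} {c : ℝ} (hc0 : 0 < c) (hc : c ≤ 2 * cn x n) :
    hh x (n + 1) ^ (10 ^ 6) ≤ Real.exp (1 / Real.sqrt (c * k0 x n)) := by
  rw [hh, ← Real.exp_nat_mul]
  refine Real.exp_le_exp.2 ?_
  have h1 := B.sqrt_c_k0 hc
  have hs : 0 < Real.sqrt (c * k0 x n) := Real.sqrt_pos.2 (mul_pos hc0 (k0_pos x n))
  have hg : 0 < gg x n := mul_pos (Lr_pos _ _) (Lr_pos _ _)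
  have h2 : gg x n / 2 ≤ 1 / Real.sqrt (c * k0 x n) := by
    rw [le_div_iff₀ hs]
    calc gg x n / 2 * Real.sqrt (c * k0 x n) ≤ gg x n / 2 * (2 / gg x n) := by gcongr
      _ = 1 := by field_simp
  refine le_trans ?_ h2
  have e2 : n + 1 + 2 = n + 3 := rfl
  rw [e2]
  have h3 : 12 * 10 ^ 6 * ell x (n + 3) ≤ Lr x n := by
    refine B.poly_L' (j := 3) (by norm_num) (by norm_num) ?_
    have := B.C_one
    nlinarith
  have h4 : 1 ≤ Lr x (n + 1) := le_trans (by norm_num) (B.Lr_ge (n + 1))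
  have h5 : Lr x n ≤ gg x n := by
    rw [gg]
    have := (Lr_pos x n).le
    nlinarith
  push_cast
  linarith

/-! ### Numeric fields of `Kin` -/

theorem kin_num {n : ℕ} {D : LevD} (M : Num x n D) :
    10 ≤ D.b ∧ 0 < D.h ∧ 1 / 2 ≤ D.kap ∧ D.kap ≤ 2 ∧ 1 / D.b ≤ D.c ∧ D.c ≤ 1 ∧
    D.b ^ 200 ≤ D.h ∧ 10 ^ 4 ≤ D.k0 ∧ D.k0 ≤ D.b ∧ 1 ≤ D.k2 ∧ D.k2 ≤ D.h ∧
    D.c * D.k0 ≤ 1 / 10 ^ 8 ∧ 10 ^ 4 ≤ D.c * D.k2 ∧ D.eta ≤ 1 / 10 ^ 4 ∧
    D.c * D.k0 ^ 2 ≤ 1 := by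
  refine ⟨?_, ?_, M.kap_ge, M.kap_le, ?_, B.c_le_one M.c_hi, ?_, ?_, ?_, ?_, ?_, ?_, ?_, ?_, ?_⟩
  · rw [M.b]; exact B.bb_ten n
  · rw [M.h]; exact hh_pos x n
  · rw [M.b]; exact B.c_ge M.c_lo
  · rw [M.b, M.h]; exact B.h_ge_b n
  · rw [M.k0]; exact B.k0_ge n
  · rw [M.k0, M.b]; exact B.k0_le_b n
  · rw [M.k2]; exact le_trans (by norm_num) (B.k2f_ge n)
  · rw [M.k2, M.h]; exact B.k2_le_h n
  · rw [M.k0]; exact B.c_k0_le M.c_hi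
  · rw [M.k2]; exact le_trans (by norm_num) (B.ck2 M.c_lo)
  · rw [M.eta_eq]; exact (B.eta_tiny M.c_lo M.c_hi).trans (by norm_num)
  · rw [M.k0]; exact (B.ck0sq M.c_hi).trans (by norm_num)

/-- `T ≤ 1` if `t0 ≤ 1/2`; `1001/1000 th ≤ 10^(-100)`. -/
theorem th_le {n : ℕ} {D : LevD} (M : Num x n D) :
    0 < D.th ∧ 1001 / 1000 * D.th ≤ 1 / 10 ^ 100 ∧ D.th ≤ (hh x n ^ 11)⁻¹ := by
  have h1 := B.thv_le M.c_lo M.kap_ge
  rw [← M.th_eq] at h1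
  have h2 : 0 < D.th := by
    rw [M.th_eq]
    refine B.thv_pos M.c_pos (by have := M.kap_ge; linarith)
  refine ⟨h2, ?_, h1⟩
  have h3 := B.hh_ge n
  have h4 : (hh x n ^ 11)⁻¹ ≤ (((10 : ℝ) ^ 100) ^ 11)⁻¹ :=
    inv_anti₀ (by positivity) (pow_le_pow_left₀ (by positivity) h3 11)
  calc 1001 / 1000 * D.th ≤ 1001 / 1000 * (((10 : ℝ) ^ 100) ^ 11)⁻¹ := by
        gcongr; exact h1.trans h4
    _ ≤ 1 / 10 ^ 100 := by norm_num

/-! ### Numeric fields of `So` -/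

/-- The numbers of the exact data of the next level (`n ≥ 1`). -/
structure _root_.Pool.Agent.Work.MP_b0497c_an.Unf.P.NumN (x : ℝ) (n : ℕ) (N : NextD) : Prop where
  b : N.b = bb x (n + 1)
  bp : N.bp = bP x (n - 1)
  h : N.h = hh x (n + 1)
  k0 : N.k0 = k0 x (n + 1)
  k2 : N.k2 = k2f x (n + 1)

theorem kap_step {n : ℕ} {D : LevD} (M : Num x n D) :
    1 / 2 ≤ D.kap * (1 - 100 * D.eta) ∧ D.kap * (1 + 100 * D.eta) ≤ 2 := by
  have h1 := B.eta_tiny M.c_lo M.c_hi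
  rw [← M.eta_eq] at h1
  have h0 : 0 ≤ D.eta := by rw [M.eta_eq]; exact B.eta_nonneg M.c_pos.le
  obtain ⟨h2, h3⟩ := M.kap_bd
  have h4 : D.eta ≤ 1 / 10 ^ 4 := h1.trans (by norm_num)
  constructor <;> nlinarith

theorem so_num {n : ℕ} (hn : 1 ≤ n) {D : LevD} {N : NextD} (M : Num x n D) (M' : NumN x n N) :
    D.h ^ 600 ≤ N.bp ∧ N.bp ^ 13 ≤ N.b ∧ N.b ^ 200 ≤ N.h ∧ 10 ^ 4 ≤ N.k0 ∧ N.k0 ≤ N.b ∧
    N.k2 ≤ N.h ∧ 2 * 10 ^ 8 * N.k0 ≤ D.k2 ∧ 2 * 10 ^ 4 * D.k2 ≤ N.k2 ∧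
    200 * Real.sqrt D.k2 / (N.k0 ^ 2 * Real.sqrt N.k0) + N.k0 / N.k2
      + 200 / (D.k2 * N.k2) + (N.h)⁻¹ ≤ 1 / 10 ^ 4 ∧
    1 / 2 ≤ D.kap * (1 - 100 * D.eta) ∧ D.kap * (1 + 100 * D.eta) ≤ 2 ∧
    N.h ^ 100 ≤ Real.exp (1 / Real.sqrt (D.c * D.k0)) ∧ 2 * 10 ^ 8 * N.k0 ^ 2 ≤ D.k2 := by
  obtain ⟨m, rfl⟩ : ∃ m, n = m + 1 := ⟨n - 1, by omega⟩
  have hbp := M'.bp
  rw [Nat.add_sub_cancel] at hbp
  refine ⟨?_, ?_, ?_, ?_, ?_, ?_, ?_, ?_, ?_, (B.kap_step M).1, (B.kap_step M).2, ?_, ?_⟩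
  · rw [M.h, hbp]
    exact (pow_le_pow_right₀ (B.hh_one _) (by norm_num)).trans (B.bP_ge m)
  · rw [M'.b, hbp]; exact B.bP_le m
  · rw [M'.b, M'.h]; exact B.h_ge_b _
  · rw [M'.k0]; exact B.k0_ge _
  · rw [M'.k0, M'.b]; exact B.k0_le_b _
  · rw [M'.k2, M'.h]; exact B.k2_le_h _
  · rw [M'.k0, M.k2]
    refine le_trans ?_ (B.k0_k2 _)
    have := (k0_pos x (m + 1 + 1)).le
    gcongr
    norm_num
  · rw [M'.k2, M.k2]
    refine le_trans ?_ (B.k2_k2 _)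
    have := (k2f_pos x (m + 1)).le
    gcongr
    norm_num
  · rw [M.k2, M'.k0, M'.k2, M'.h]; exact B.so_eta _
  · rw [M'.h, M.k0]
    refine le_trans ?_ (B.so_grow M.c_pos M.c_hi)
    exact pow_le_pow_right₀ (B.hh_one _) (by norm_num)
  · rw [M'.k0, M.k2]
    refine le_trans ?_ (B.k0sq_k2 _)
    have := (k0_pos x (m + 1 + 1)).le
    gcongr
    norm_num

/-- The induction of the numbers (`κ`, `c`), from the conclusion of THEOREM O. -/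
theorem num_next {n : ℕ} {D D' : LevD} (M : Num x n D) (hb : D'.b = bb x (n + 1))
    (hh' : D'.h = hh x (n + 1)) (hk0 : D'.k0 = k0 x (n + 1)) (hk2 : D'.k2 = k2f x (n + 1))
    (hkap : |D'.kap - D.kap| ≤ 100 * D.eta * D.kap) (hc : |D'.c * D.k2 - 1| ≤ 200 * D.eta) :
    Num x (n + 1) D' := by
  have h1 := B.eta_tiny M.c_lo M.c_hi
  rw [← M.eta_eq] at h1
  have hg := B.eta_geom M.c_lo M.c_hi
  rw [← M.eta_eq] at hg
  have h0 : 0 ≤ D.eta := by rw [M.eta_eq]; exact B.eta_nonneg M.c_pos.le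
  have hk := k2f_pos x n
  have h5 : 200 * D.eta ≤ 1 / 2 := by
    have : D.eta ≤ 1 / 10 ^ 4 := h1.trans (by norm_num)
    linarith
  obtain ⟨hc1, hc2⟩ := abs_le.1 hc
  rw [M.k2] at hc1 hc2
  refine ⟨hb, hh', hk0, hk2, ?_, ?_, ?_⟩
  · rw [cn_succ, ← one_div, div_div, div_le_iff₀ (by positivity)]
    linarith
  · rw [cn_succ, ← one_div]
    have : D'.c ≤ 3 / 2 / k2f x n := by
      rw [le_div_iff₀ hk]; linarith
    refine this.trans ?_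
    rw [mul_one_div]
    gcongr
    norm_num
  · obtain ⟨k1, k2⟩ := abs_le.1 hkap
    obtain ⟨m1, m2⟩ := M.kap
    obtain ⟨b1, b2⟩ := M.kap_bd
    have hp : (1 / 2 : ℝ) ^ (n + 2) = (1 / 2) ^ (n + 1) / 2 := by rw [pow_succ]; ring
    have hp' : (1 / 2 : ℝ) ^ (n + 1 + 2) = (1 / 2) ^ (n + 1) / 4 := by
      rw [pow_succ, pow_succ]; ring
    have hq : (0 : ℝ) < (1 / 2 : ℝ) ^ (n + 1) := by positivity
    have h6 : 100 * D.eta * D.kap ≤ (1 / 2 : ℝ) ^ (n + 1) / 4 := by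
      calc 100 * D.eta * D.kap ≤ 100 * ((10 : ℝ)⁻¹ ^ 50 * (1 / 2) ^ (n + 1)) * (5 / 4) := by
            have : 0 ≤ D.kap := by linarith
            gcongr
        _ = (100 * (10 : ℝ)⁻¹ ^ 50 * (5 / 4)) * (1 / 2) ^ (n + 1) := by ring
        _ ≤ 1 / 4 * (1 / 2) ^ (n + 1) := by gcongr; norm_num
        _ = _ := by ring
    rw [hp] at m1 m2
    constructor
    · rw [hp']; linarith
    · rw [hp']; linarith

theorem num_next' {n : ℕ} {D : LevD} {N : NextD} (M : Num x n D) (M' : NumN x n N)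
    (hkap : |(D.next N).kap - D.kap| ≤ 100 * D.eta * D.kap)
    (hc : |(D.next N).c * D.k2 - 1| ≤ 200 * D.eta) : Num x (n + 1) (D.next N) :=
  B.num_next M M'.b M'.h M'.k0 M'.k2 hkap hc

/-! ### Closeness of the exact data (`h^(10^7)`) -/

/-- Any power `≤ 10^8` of the constants of the step `n → n+1` times the error of level `n+1`:
`G_n^K u_{n+1}^256 ≤ h_{n+1}^(-K')`. -/
theorem err_le (n : ℕ) {K K' : ℕ} (hK : K ≤ 10 ^ 8) (hK' : K' ≤ 10 ^ 12) :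
    GG x n ^ K * uOld x (n + 1) ^ 256 ≤ (hh x (n + 1) ^ K')⁻¹ := by
  rw [B.uOld_pow, GG, hh, ← Real.exp_nat_mul, ← Real.exp_nat_mul, ← Real.exp_add,
    ← Real.exp_neg]
  refine Real.exp_le_exp.2 ?_
  have h := B.poly_L' (n := n + 1) (j := 2) (D := 32 * 10 ^ 15) (by norm_num)
    (by norm_num) (by have := B.C_one; nlinarith)
  have e : n + 1 + 2 = n + 3 := rfl
  rw [e] at h ⊢
  have p := B.ell_pos (n + 3)
  have hK1 : (K : ℝ) ≤ 10 ^ 8 := by exact_mod_cast hK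
  have hK2 : (K' : ℝ) ≤ 10 ^ 12 := by exact_mod_cast hK'
  have a1 : (K : ℝ) * (70000 * ell x (n + 3)) ≤ 10 ^ 8 * (70000 * ell x (n + 3)) := by gcongr
  have a2 : (K' : ℝ) * (6 * ell x (n + 3)) ≤ 10 ^ 12 * (6 * ell x (n + 3)) := by gcongr
  linarith

/-- In the units of `So`: `G_n^K u_{n+1}^256 ≤ b'_n^(-K')`. -/
theorem err_bp (n : ℕ) {K K' : ℕ} (hK : K ≤ 10 ^ 8) (hK' : K' ≤ 10 ^ 6) :
    GG x n ^ K * uOld x (n + 1) ^ 256 ≤ (bP x n ^ K')⁻¹ := by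
  rw [B.uOld_pow, bP, GG, ← Real.exp_nat_mul, ← Real.exp_nat_mul, ← Real.exp_nat_mul,
    ← Real.exp_add, ← Real.exp_neg]
  refine Real.exp_le_exp.2 ?_
  have h := B.poly_L' (n := n + 1) (j := 2) (D := 32 * 10 ^ 15) (by norm_num)
    (by norm_num) (by have := B.C_one; nlinarith)
  have e : n + 1 + 2 = n + 3 := rfl
  rw [e] at h
  have p := B.ell_pos (n + 3)
  have hK1 : (K : ℝ) ≤ 10 ^ 8 := by exact_mod_cast hK
  have hK2 : (K' : ℝ) ≤ 10 ^ 6 := by exact_mod_cast hK'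
  have a1 : (K : ℝ) * (70000 * ell x (n + 3)) ≤ 10 ^ 8 * (70000 * ell x (n + 3)) := by gcongr
  have a2 : (K' : ℝ) * (((27 : ℕ) : ℝ) * (70000 * ell x (n + 3))) ≤
      10 ^ 6 * (((27 : ℕ) : ℝ) * (70000 * ell x (n + 3))) := by gcongr
  push_cast at a2 ⊢
  linarith

/-- The same with the error `exp (-(g_n))` (seeds and everything that is absorbed). -/
theorem err_gg (n : ℕ) {K K' : ℕ} (hK : K ≤ 10 ^ 8) (hK' : K' ≤ 10 ^ 12) :
    GG x n ^ K * Real.exp (-(gg x n) / 4) ≤ (hh x (n + 1) ^ K')⁻¹ := by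
  have h1 : Real.exp (-(gg x n) / 4) ≤ uOld x (n + 1) ^ 256 := by
    rw [B.uOld_pow]
    refine Real.exp_le_exp.2 ?_
    have h2 : (1 : ℝ) ≤ Lr x n := le_trans (by norm_num) (B.Lr_ge n)
    have h3 := Lr_pos x (n + 1)
    have : Lr x (n + 1) ≤ gg x n := by rw [gg]; nlinarith
    linarith
  refine le_trans ?_ (B.err_le n hK hK')
  have : 0 < GG x n := Real.exp_pos (70000 * ell x (n + 3))
  gcongr

/-- `√(c k0) ≤ (3/2) / g_n`. -/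
theorem sqrt_c_k0' {n : ℕ} {c : ℝ} (hc : c ≤ 2 * cn x n) :
    Real.sqrt (c * k0 x n) ≤ 3 / 2 / gg x n := by
  have hg : 0 < gg x n := mul_pos (Lr_pos _ _) (Lr_pos _ _)
  rw [Real.sqrt_le_left (by positivity)]
  refine (B.c_k0 hc).trans ?_
  have e : Real.exp (-(2 * ell x n + 2 * ell x (n + 1))) = (gg x n ^ 2)⁻¹ := by
    rw [gg, Lr, Lr, ← Real.exp_add, ← Real.exp_nat_mul, ← Real.exp_neg]
    push_cast; ring_nf
  rw [e, div_pow]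
  have : 0 < (gg x n ^ 2)⁻¹ := by positivity
  rw [div_eq_mul_inv]
  linarith

/-- The growth of the half window: `g_n ≤ (3/2) (c k0)^(-1/2)`. -/
theorem grow_gg {n : ℕ} {c : ℝ} (hc0 : 0 < c) (hc : c ≤ 2 * cn x n) :
    gg x n ≤ 3 / 2 / Real.sqrt (c * k0 x n) := by
  have hs : 0 < Real.sqrt (c * k0 x n) := Real.sqrt_pos.2 (mul_pos hc0 (k0_pos x n))
  have hg : 0 < gg x n := mul_pos (Lr_pos _ _) (Lr_pos _ _)
  have h1 := B.sqrt_c_k0' hc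
  rw [le_div_iff₀ hs]
  rw [le_div_iff₀ hg] at h1
  linarith

/-- `h_{n+1}^K h_n^K exp (-g_n) ≤ exp (-g_n / 2)` for `K ≤ 10^9`: polynomial factors are absorbed by
half of the growth. -/
theorem gg_half (n : ℕ) {K : ℕ} (hK : K ≤ 10 ^ 9) :
    GG x n ^ K * Real.exp (-(gg x n)) ≤ Real.exp (-(gg x n) / 2) := by
  rw [GG, ← Real.exp_nat_mul, ← Real.exp_add]
  refine Real.exp_le_exp.2 ?_
  have h3 : 2 * 10 ^ 9 * 70000 * ell x (n + 3) ≤ Lr x n := by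
    refine B.poly_L' (j := 3) (by norm_num) (by norm_num) ?_
    have := B.C_one
    nlinarith
  have h4 : 1 ≤ Lr x (n + 1) := le_trans (by norm_num) (B.Lr_ge (n + 1))
  have h5 : Lr x n ≤ gg x n := by
    rw [gg]
    have := (Lr_pos x n).le
    nlinarith
  have hK1 : (K : ℝ) ≤ 10 ^ 9 := by exact_mod_cast hK
  have p := B.ell_pos (n + 3)
  have a1 : (K : ℝ) * (70000 * ell x (n + 3)) ≤ 10 ^ 9 * (70000 * ell x (n + 3)) := by gcongr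
  linarith

/-- The exponent of the finite envelope. -/
theorem env_nat (n : ℕ) : ∃ A : ℕ, hh x (n + 1) ^ 10000 ≤ (A : ℝ) ∧
    (A : ℝ) ≤ 2 * hh x (n + 1) ^ 10000 ∧ 400 * ((n : ℝ) + 2) * (A : ℝ) * cc x n ≤ 1 := by
  have h1 : 1 ≤ hh x (n + 1) ^ 10000 := one_le_pow₀ (B.hh_one (n + 1))
  have h2 : (⌈hh x (n + 1) ^ 10000⌉₊ : ℝ) ≤ 2 * hh x (n + 1) ^ 10000 := by
    have := Nat.ceil_lt_add_one (show 0 ≤ hh x (n + 1) ^ 10000 by linarith)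
    linarith
  refine ⟨⌈hh x (n + 1) ^ 10000⌉₊, Nat.le_ceil _, h2, ?_⟩
  have h3 := B.env_cc n
  have h4 := B.cc_pos n
  have hn : (0 : ℝ) ≤ (n : ℝ) + 2 := by positivity
  calc 400 * ((n : ℝ) + 2) * (⌈hh x (n + 1) ^ 10000⌉₊ : ℝ) * cc x n
      ≤ 400 * ((n : ℝ) + 2) * (2 * hh x (n + 1) ^ 10000) * cc x n := by gcongr
    _ ≤ 1000 * ((n : ℝ) + 2) * hh x (n + 1) ^ 10000 * cc x n := by
        have : 0 ≤ ((n : ℝ) + 2) * hh x (n + 1) ^ 10000 * cc x n := by positivity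
        linarith
    _ ≤ 1 := h3

end Big

end Pool.Agent.Work.MP_b0497c_an.Unf.P
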