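import Pool.Agent.Work.MP_b0497c_an.Unf.ADefs

set_option autoImplicit false

/-!
# Block A: the infinite chain from the base and the step
-/

open Set

namespace Pool.Agent.Work.MP_b0497c_an.Unf.A

namespace Chain

theorem Agree.refl (C : Chain) (n : ℕ) : Agree C C n := by
  constructor <;> intros <;> rfl

theorem Agree.symm {C C' : Chain} {n : ℕ} (h : Agree C C' n) : Agree C' C n :=
  ⟨fun l hl => (h.K l hl).symm, fun l hl => (h.τ l hl).symm, fun l hl => (h.tn l hl).symm,
    fun l hl => (h.r l hl).symm, fun l hl => (h.R l hl).symm, fun l hl => (h.α l hl).symm,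
    fun l hl => (h.X l hl).symm, fun l hl => (h.U l hl).symm, fun l hl => (h.A l hl).symm,
    fun l hl => (h.p l hl).symm, fun l hl => (h.F l hl).symm, fun l hl => (h.Fi l hl).symm,
    fun l hl => (h.M l hl).symm, fun l hl => (h.z l hl).symm, fun l hl => (h.a l hl).symm,
    fun l hl => (h.s l hl).symm, fun l hl => (h.Φ l hl).symm, fun l hl => (h.w l hl).symm⟩

theorem Agree.trans {C C' C'' : Chain} {n : ℕ} (h : Agree C C' n) (h' : Agree C' C'' n) :
    Agree C C'' n :=
  ⟨fun l hl => (h.K l hl).trans (h'.K l hl), fun l hl => (h.τ l hl).trans (h'.τ l hl),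
    fun l hl => (h.tn l hl).trans (h'.tn l hl), fun l hl => (h.r l hl).trans (h'.r l hl),
    fun l hl => (h.R l hl).trans (h'.R l hl), fun l hl => (h.α l hl).trans (h'.α l hl),
    fun l hl => (h.X l hl).trans (h'.X l hl), fun l hl => (h.U l hl).trans (h'.U l hl),
    fun l hl => (h.A l hl).trans (h'.A l hl), fun l hl => (h.p l hl).trans (h'.p l hl),
    fun l hl => (h.F l hl).trans (h'.F l hl), fun l hl => (h.Fi l hl).trans (h'.Fi l hl),
    fun l hl => (h.M l hl).trans (h'.M l hl), fun l hl => (h.z l hl).trans (h'.z l hl),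
    fun l hl => (h.a l hl).trans (h'.a l hl), fun l hl => (h.s l hl).trans (h'.s l hl),
    fun l hl => (h.Φ l hl).trans (h'.Φ l hl), fun l hl => (h.w l hl).trans (h'.w l hl)⟩

theorem Agree.mono {C C' : Chain} {n m : ℕ} (h : Agree C C' n) (hm : m ≤ n) : Agree C C' m :=
  ⟨fun l hl => h.K l (hl.trans hm), fun l hl => h.τ l (hl.trans hm),
    fun l hl => h.tn l (hl.trans hm), fun l hl => h.r l (hl.trans hm),
    fun l hl => h.R l (hl.trans hm), fun l hl => h.α l (hl.trans hm),
    fun l hl => h.X l (hl.trans hm), fun l hl => h.U l (hl.trans hm),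
    fun l hl => h.A l (hl.trans hm), fun l hl => h.p l (hl.trans hm),
    fun l hl => h.F l (hl.trans hm), fun l hl => h.Fi l (hl.trans hm),
    fun l hl => h.M l (hl.trans hm), fun l hl => h.z l (hl.trans hm),
    fun l hl => h.a l (hl.trans hm), fun l hl => h.s l (hl.trans hm),
    fun l hl => h.Φ l (hl.trans hm), fun l hl => h.w l (hl.trans hm)⟩

/-- The diagonal chain of a sequence of chains. -/
def diag (S : ℕ → Chain) : Chain where
  K n := (S n).K n
  τ n := (S n).τ n
  tn n := (S n).tn n
  r n := (S n).r n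
  R n := (S n).R n
  α n := (S n).α n
  X n := (S n).X n
  U n := (S n).U n
  A n := (S n).A n
  p n := (S n).p n
  F n := (S n).F n
  Fi n := (S n).Fi n
  M n := (S n).M n
  z n := (S n).z n
  a n := (S n).a n
  s n := (S n).s n
  Φ n := (S n).Φ n
  w n := (S n).w n

theorem diag_agree {S : ℕ → Chain} (h : ∀ n l, l ≤ n → Agree (S l) (S n) l) (n : ℕ) :
    Agree (S n) (diag S) n :=
  ⟨fun l hl => ((h n l hl).K l le_rfl).symm, fun l hl => ((h n l hl).τ l le_rfl).symm,
    fun l hl => ((h n l hl).tn l le_rfl).symm, fun l hl => ((h n l hl).r l le_rfl).symm,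
    fun l hl => ((h n l hl).R l le_rfl).symm, fun l hl => ((h n l hl).α l le_rfl).symm,
    fun l hl => ((h n l hl).X l le_rfl).symm, fun l hl => ((h n l hl).U l le_rfl).symm,
    fun l hl => ((h n l hl).A l le_rfl).symm, fun l hl => ((h n l hl).p l le_rfl).symm,
    fun l hl => ((h n l hl).F l le_rfl).symm, fun l hl => ((h n l hl).Fi l le_rfl).symm,
    fun l hl => ((h n l hl).M l le_rfl).symm, fun l hl => ((h n l hl).z l le_rfl).symm,
    fun l hl => ((h n l hl).a l le_rfl).symm, fun l hl => ((h n l hl).s l le_rfl).symm,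
    fun l hl => ((h n l hl).Φ l le_rfl).symm, fun l hl => ((h n l hl).w l le_rfl).symm⟩

/-- **The infinite chain.** `P n C` depends only on the data of `C` up to level `n`; there is a
chain with `P n0`, and every chain with `P n` can be changed above level `n` so that `P (n+1)`
holds. Then there is one chain with `P n` for all `n ≥ n0`. -/
theorem exists_chain (P : ℕ → Chain → Prop) (n0 : ℕ)
    (hloc : ∀ n C C', Agree C C' n → P n C → P n C') (base : ∃ C, P n0 C)
    (step : ∀ n, n0 ≤ n → ∀ C, P n C → ∃ C', Agree C C' n ∧ P (n + 1) C') :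
    ∃ C, ∀ n, n0 ≤ n → P n C := by
  obtain ⟨C0, hC0⟩ := base
  choose! g hg using step
  -- the chain at stage `n0 + k`
  let S : ℕ → Chain := fun k => Nat.rec C0 (fun j C => g (n0 + j) C) k
  have hS : ∀ k, P (n0 + k) (S k) := by
    intro k
    induction k with
    | zero => exact hC0
    | succ k ih => exact (hg (n0 + k) (Nat.le_add_right _ _) (S k) ih).2
  have hA : ∀ k, Agree (S k) (S (k + 1)) (n0 + k) := fun k =>
    (hg (n0 + k) (Nat.le_add_right _ _) (S k) (hS k)).1
  have hA' : ∀ k j, j ≤ k → Agree (S j) (S k) (n0 + j) := by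
    intro k
    induction k with
    | zero =>
      intro j hj
      obtain rfl : j = 0 := by omega
      exact Agree.refl _ _
    | succ k ih =>
      intro j hj
      rcases Nat.lt_or_ge k j with h | h
      · obtain rfl : j = k + 1 := by omega
        exact Agree.refl _ _
      · exact (ih j h).trans ((hA k).mono (by omega))
  -- reindex: `R n = S (n - n0)`
  let R : ℕ → Chain := fun n => S (n - n0)
  have hR : ∀ n l, l ≤ n → Agree (R l) (R n) l := by
    intro n l hl
    exact (hA' (n - n0) (l - n0) (by omega)).mono (by omega)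
  refine ⟨diag R, fun n hn => hloc n (R n) (diag R) (diag_agree hR n) ?_⟩
  have h := hS (n - n0)
  rwa [Nat.add_sub_cancel' hn] at h

end Chain

end Pool.Agent.Work.MP_b0497c_an.Unf.A
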