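import Pool.Agent.Work.MP_b0497c_an.Unf.A7
import Pool.Agent.Work.MP_b0497c_an.Bd.B09

set_option autoImplicit false

/-!
# Item A7, part 2: the conclusion for a chain with the numbers of block P
-/

open scoped ENNReal
open Set Filter Topology

namespace Pool.Agent.Work.MP_b0497c_an.Unf.A

open W S P

/-- What the construction has to deliver, with the numbers of block P. -/
structure FinalP (C : Chain) (x : ℝ) : Prop where
  lvl : ∀ l, Lvl C.K (C.τ l) (C.r l) (C.R l) l (C.X l) (C.U l) (C.A l) (C.p l) (C.F l) (C.Fi l)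
    (C.M l)
  U_seed : ∀ l, C.U (l + 1) 0 = C.U l 0 + C.w (l + 1)
  w_supp : ∀ j, 1 ≤ j → SuppIn (Cl j) (C.w j)
  τ_anti : ∀ l, C.τ (l + 1) ≤ C.τ l
  tn_pos : ∀ n, 1 ≤ n → 0 < C.tn n
  tn_le : ∀ n, 1 ≤ n → C.tn n ≤ C.τ n
  R_le : ∀ l, C.R l ≤ RR x l
  K_le : ∀ l, ‖kv (C.K l)‖ ≤ 2 * Real.exp (Lr x l)
  w_one : sN (C.r 1) (C.w 1) ≠ ∞
  w_le : ∀ n, 1 ≤ n → sN (C.r (n + 1)) (C.w (n + 1)) ≤ ENNReal.ofReal (Real.exp (-(gg x n)))
  M_ge : ∀ n, 1 ≤ n → Lr x n ≤ ‖C.Mc n (C.tn n)‖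

/-- The `ℓ¹` norm of an integer vector. -/
theorem l1_le (k : Fin 3 → ℤ) : |(k 0 : ℝ)| + |(k 1 : ℝ)| + |(k 2 : ℝ)| ≤ 2 * ‖kv k‖ := by
  have h1 : ‖kv k‖ ^ 2 = |(k 0 : ℝ)| ^ 2 + |(k 1 : ℝ)| ^ 2 + |(k 2 : ℝ)| ^ 2 := by
    rw [EuclideanSpace.norm_sq_eq, Fin.sum_univ_three]
    simp only [kv]
    have h : ∀ j : Fin 3, ‖((k j : ℤ) : ℂ)‖ = |((k j : ℤ) : ℝ)| := by
      intro j
      rw [Complex.norm_intCast]
    rw [h, h, h]
  have h2 : 0 ≤ ‖kv k‖ := norm_nonneg _
  have a0 := abs_nonneg (k 0 : ℝ)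
  have a1 := abs_nonneg (k 1 : ℝ)
  have a2 := abs_nonneg (k 2 : ℝ)
  refine abs_le_of_sq_le_sq' ?_ (by positivity) |>.2
  nlinarith [sq_nonneg (|(k 0 : ℝ)| - |(k 1 : ℝ)|), sq_nonneg (|(k 0 : ℝ)| - |(k 2 : ℝ)|),
    sq_nonneg (|(k 1 : ℝ)| - |(k 2 : ℝ)|)]

theorem RR_le_L {C0 x : ℝ} (B : Big C0 x) (j : ℕ) : RR x j ≤ Real.exp (Lr x j) := by
  rw [RR]
  refine Real.exp_le_exp.2 ?_
  have h1 : (1 : ℝ) ≤ ell x j := one_le_ell B.one_le j
  have h2 : ell x (j + 1) ^ 3 = ell x j ^ 6 := by rw [ell_succ]; ring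
  rw [h2]
  have h3 : ell x j ^ 6 ≤ ell x j ^ 64 := pow_le_pow_right₀ h1 (by norm_num)
  have h4 := B.exp j
  have h5 : 0 ≤ ell x j ^ 64 := by positivity
  have h6 : ell x j ^ 64 ≤ (10 : ℝ) ^ 30 * C0 * ell x j ^ 64 := by
    have := B.C_one
    refine le_mul_of_one_le_left h5 ?_
    nlinarith
  linarith

theorem five_le {C0 x : ℝ} (B : Big C0 x) (n : ℕ) : 5 ≤ GG x n := by
  have h := B.num_exp (B.ell_ge (n + 3))
  have h2 : Real.exp (ell x (n + 3)) ≤ GG x n :=
    Real.exp_le_exp.2 (by have := B.ell_pos (n + 3); linarith)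
  exact le_trans (by norm_num) (h.trans h2)

/-- Comparison of the constants of a level with those of block P. -/
theorem b_le {C0 x : ℝ} (B : Big C0 x) {j n : ℕ} (hj : j ≤ n + 1) :
    5 * Real.exp (Lr x j) ^ 2 ≤ (GG x n * Real.exp (Lr x (n + 1))) ^ 2 := by
  have h1 := five_le B n
  have h2 : Real.exp (Lr x j) ≤ Real.exp (Lr x (n + 1)) :=
    Real.exp_le_exp.2 (Lr_mono B.one_le hj)
  rw [mul_pow]
  have h3 : 5 ≤ GG x n ^ 2 := by nlinarith
  have h4 : Real.exp (Lr x j) ^ 2 ≤ Real.exp (Lr x (n + 1)) ^ 2 :=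
    pow_le_pow_left₀ (Real.exp_pos _).le h2 2
  exact mul_le_mul h3 h4 (by positivity) (by positivity)

/-- The bounds of the seeds. -/
noncomputable def del (C : Chain) (x : ℝ) (j : ℕ) : ℝ :=
  if j = 0 then (sN (C.r 1) (C.w 1)).toReal else Real.exp (-(gg x j))

theorem FinalP.final {C : Chain} {C0 x : ℝ} (B : Big C0 x) (H : FinalP C x) :
    Final C (fun j => 4 * Real.exp (Lr x j)) (fun j => 5 * Real.exp (Lr x j) ^ 2)
      (del C x) (fun l => 2 * Real.exp (-(gg x l))) where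
  lvl := H.lvl
  U_seed := H.U_seed
  w_supp := H.w_supp
  τ_le := by
    intro l
    induction l with
    | zero => exact le_rfl
    | succ l ih => exact (H.τ_anti l).trans ih
  tn_pos := H.tn_pos
  tn_le := H.tn_le
  κ_nonneg j := by positivity
  κ_le := by
    intro j i hi
    have h1 := l1_le (C.K i)
    have h2 := H.K_le i
    have h3 : Real.exp (Lr x i) ≤ Real.exp (Lr x j) := Real.exp_le_exp.2 (Lr_mono B.one_le hi)
    linarith
  b_κ j := by
    have h1 : 1 ≤ Real.exp (Lr x j) := Real.one_le_exp (Lr_pos x j).le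
    nlinarith
  b_r j := by
    have h1 : 1 ≤ Real.exp (Lr x j) := Real.one_le_exp (Lr_pos x j).le
    have h2 := (H.lvl j).r_R
    have h3 := (H.lvl j).c_pos
    have h4 : C.R j ≤ 5 * Real.exp (Lr x j) ^ 2 := by
      refine (H.R_le j).trans ((RR_le_L B j).trans ?_)
      nlinarith
    calc (1 : ℝ) ≤ C.R j * C.r j := h2
      _ ≤ _ := mul_le_mul_of_nonneg_right h4 h3.le
  R_b j := by
    have h1 : 1 ≤ Real.exp (Lr x j) := Real.one_le_exp (Lr_pos x j).le
    refine (H.R_le j).trans ((RR_le_L B j).trans ?_)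
    nlinarith
  δ_nonneg j := by
    unfold del
    split_ifs
    · exact ENNReal.toReal_nonneg
    · exact (Real.exp_pos _).le
  w_le j := by
    unfold del
    split_ifs with h
    · subst h
      rw [ENNReal.ofReal_toReal H.w_one]
    · exact H.w_le j (by omega)
  sum := by
    intro k
    rw [← summable_nat_add_iff 1]
    refine Summable.of_nonneg_of_le (fun j => ?_) (fun j => ?_)
      ((summable_nat_add_iff 1).mpr (B.seed_summable (2 * k)))
    · simp only [del]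
      positivity
    · rw [pow_mul]
      have h0 : del C x (j + 1) = Real.exp (-(gg x (j + 1))) := by simp [del]
      rw [h0]
      gcongr
      exact b_le B le_rfl
  tail l hl := by
    have h0 : ∀ j, del C x (l + j) = Real.exp (-(gg x (l + j))) := fun j => by
      unfold del
      rw [if_neg (by omega)]
    simp only [h0]
    exact (B.tail_sum l).2
  small := by
    refine squeeze_zero (fun n => by positivity) (fun n => ?_) (B.concl_tendsto (2 * 56))
    rw [pow_mul]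
    gcongr
    exact b_le B (Nat.le_succ n)
  M_tendsto := by
    refine tendsto_atTop_mono' _ ?_ B.Lr_tendsto
    filter_upwards [eventually_ge_atTop 1] with n hn
    exact H.M_ge n hn

/-- **Item A7**: a chain with the numbers of block P proves the theorem. -/
theorem FinalP.blowup {C : Chain} {C0 x : ℝ} (B : Big C0 x) (H : FinalP C x) : Blowup :=
  (H.final B).blowup

end Pool.Agent.Work.MP_b0497c_an.Unf.A
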