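import Pool.Agent.Work.MP_b0497c_an.Unf.AStmts

set_option autoImplicit false
set_option linter.dupNamespace false

/-!
# Block A (assembly): locality of the stages, half step S
-/

open scoped ENNReal
open Set MeasureTheory

namespace Pool.Agent.Work.MP_b0497c_an.Unf.A

open W S P
open Unf.O (LevD NextD)
open Unf.K (rM rV rMt kR dj kelS covec CoL)

theorem seed_congr {K K' : ℕ → Fin 3 → ℤ} {n : ℕ} (h : ∀ i ≤ n, K i = K' i) (A : ℕ) (V : C3) :
    seed K A n V = seed K' A n V := by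
  funext q
  unfold seed
  by_cases hq : q ∈ Cl n
  · rw [xi_congr h hq.1]
  · rw [wsh_supp A n V q hq]
    simp

theorem KSize.congr {x : ℝ} {K K' : ℕ → Fin 3 → ℤ} {n : ℕ} (H : KSize x K n)
    (h : ∀ i ≤ n, K i = K' i) : KSize x K' n where
  zero := by rw [← h 0 (Nat.zero_le n)]; exact H.zero
  low j h1 h2 := by rw [← h j h2]; exact H.low j h1 h2
  upp j h1 h2 := by rw [← h j h2]; exact H.upp j h1 h2

/-- `PreD n` depends on the levels `< n` and on the data of the wave `n`. -/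
theorem PreD.congr {x R0 : ℝ} {n : ℕ} {C C' : Chain} {D : ℕ → LevD} (hn : 1 ≤ n)
    (H : PreD x R0 n C D) (h : C.Agree C' (n - 1)) (hK : C.K n = C'.K n) (hτ : C.τ n = C'.τ n)
    (ht : C.tn n = C'.tn n) (hα : C.α n = C'.α n) (hw : C.w n = C'.w n) : PreD x R0 n C' D := by
  have hKa : ∀ i ≤ n, C.K i = C'.K i := fun i hi => by
    rcases Nat.lt_or_ge i n with h1 | h1
    · exact h.K i (by omega)
    · rw [show i = n by omega]; exact hK
  have hτa : ∀ i ≤ n, C.τ i = C'.τ i := fun i hi => by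
    rcases Nat.lt_or_ge i n with h1 | h1
    · exact h.τ i (by omega)
    · rw [show i = n by omega]; exact hτ
  have hta : ∀ i ≤ n, C.tn i = C'.tn i := fun i hi => by
    rcases Nat.lt_or_ge i n with h1 | h1
    · exact h.tn i (by omega)
    · rw [show i = n by omega]; exact ht
  have hαa : ∀ i ≤ n, C.α i = C'.α i := fun i hi => by
    rcases Nat.lt_or_ge i n with h1 | h1
    · exact h.α i (by omega)
    · rw [show i = n by omega]; exact hα
  have hwa : ∀ i ≤ n, C.w i = C'.w i := fun i hi => by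
    rcases Nat.lt_or_ge i n with h1 | h1
    · exact h.w i (by omega)
    · rw [show i = n by omega]; exact hw
  have hV : Vseed C n (D n) = Vseed C' n (D n) := by rw [Vseed, Vseed, hK]
  exact
    { an := H.an.congr h
      R0_eq := by rw [← h.R 0 (Nat.zero_le _)]; exact H.R0_eq
      R_eq := fun l h1 h2 => by rw [← h.R l (by omega)]; exact H.R_eq l h1 h2
      r_eq := fun l h1 h2 => by rw [← h.r l (by omega)]; exact H.r_eq l h1 h2
      K_size := H.K_size.congr hKa
      τ_eq := fun j h1 h2 => by rw [← hτa (j + 1) (by omega)]; exact H.τ_eq j h1 h2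
      τ_pos := by rw [← hτ]; exact H.τ_pos
      τ_le := by rw [← hτ, ← hτa (n - 1) (by omega)]; exact H.τ_le
      T_le := by rw [← hτ]; exact H.T_le
      hl := H.hl
      b_eq := H.b_eq
      h_eq := H.h_eq
      k0_eq := H.k0_eq
      k2_eq := H.k2_eq
      c_low := H.c_low
      c_upp := H.c_upp
      κ_low := H.κ_low
      κ_upp := H.κ_upp
      al_one := H.al_one
      al_succ := H.al_succ
      t_succ := H.t_succ
      tn_eq := fun j h1 h2 => by rw [← hta j h2]; exact H.tn_eq j h1 h2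
      α_eq := fun j h1 h2 => by rw [← hαa j h2]; exact H.α_eq j h1 h2
      A_eq := by rw [← hτ, ← h.M (n - 1) le_rfl]; exact H.A_eq
      l_eq := by rw [← hK]; exact H.l_eq
      w_eq := by
        rw [← hw, H.w_eq, ← hV]
        exact seed_congr hKa _ _
      kb := fun θ => by
        rw [← hτ, ← hα, ← h.M (n - 1) le_rfl, ← hK]
        exact H.kb θ
      w_le := fun j h1 h2 => by rw [← hwa (j + 1) (by omega)]; exact H.w_le j h1 h2
      M_ge := fun j h1 h2 => by
        rw [← hta j (by omega)]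
        have := H.M_ge j h1 h2
        unfold Chain.Mc at this ⊢
        rw [← h.M j (by omega)]
        exact this }

theorem StageD.congr {x R0 : ℝ} {n : ℕ} {C C' : Chain} {D : ℕ → LevD} (hn : 1 ≤ n)
    (H : StageD x R0 n C D) (h : C.Agree C' n) : StageD x R0 n C' D where
  pre := H.pre.congr hn (h.mono (Nat.sub_le n 1)) (h.K n le_rfl) (h.τ n le_rfl) (h.tn n le_rfl)
    (h.α n le_rfl) (h.w n le_rfl)
  an := H.an.congr h
  R_eq := by rw [← h.R n le_rfl]; exact H.R_eq
  r_eq := by rw [← h.r n le_rfl]; exact H.r_eq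
  lip := by
    have := H.lip
    unfold Chain.Mc at this ⊢
    rw [← h.M n le_rfl, ← h.τ n le_rfl]
    exact this
  M_ge := by
    have := H.M_ge
    unfold Chain.Mc at this ⊢
    rw [← h.M n le_rfl, ← h.tn n le_rfl]
    exact this

/-- The stages are local. -/
theorem loc : Loc := by
  rintro x R0 n C C' hn h ⟨D, H⟩
  exact ⟨D, H.congr hn h⟩

/-! ### Half step S -/

theorem agree_putL (C : Chain) (m : ℕ) (r R : ℝ) (X U A : ℝ → Md → C3) (p : ℝ → Md → ℂ)
    (F Fi M : ℝ → Md → Mat) (z a : ℝ → Md → C3) (s : ℝ → Md → ℂ) (Φ : ℝ → ℝ → Md → Mat) :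
    C.Agree ((C.putS (m + 1) s Φ).putL (m + 1) r R X U A p F Fi M z a) m := by
  have hne : ∀ l ≤ m, l ≠ m + 1 := fun l hl => by omega
  constructor <;> intro l hl <;>
    simp only [Chain.putL, Chain.putS, Function.update_of_ne (hne l hl)]

theorem agree_putS (C : Chain) (m : ℕ) (s : ℝ → Md → ℂ) (Φ : ℝ → ℝ → Md → Mat) :
    C.Agree (C.putS (m + 1) s Φ) m := by
  have hne : ∀ l ≤ m, l ≠ m + 1 := fun l hl => by omega
  constructor <;> intro l hl <;> simp only [Chain.putS, Function.update_of_ne (hne l hl)]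

theorem halfS (h1 : LS1) (h2 : LS2) (h4 : LS4) (h5 : LS5) (h7 : LS7) : HalfS := by
  intro x R0 c₀ X0 n C D hn P0 H
  obtain ⟨m, rfl⟩ : ∃ m, n = m + 1 := ⟨n - 1, by omega⟩
  have B := P0.big
  obtain ⟨hW, hαw, hαle⟩ := h1 x R0 c₀ X0 m C D P0 H
  obtain ⟨s, Φ, hN⟩ := h2 x R0 c₀ X0 m C D P0 H
  obtain ⟨hseed, hodd, hsupp⟩ := h4 x R0 c₀ X0 m C D P0 H
  have hAn : C.An m (uOld x) := H.an
  set C1 : Chain := C.putS (m + 1) s Φ with hC1
  have ag1 : C.Agree C1 m := agree_putS C m s Φ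
  have hAn1 : C1.An m (uOld x) := hAn.congr ag1
  have es : C1.s (m + 1) = s := by rw [hC1]; simp [Chain.putS]
  have eΦ : C1.Φ (m + 1) = Φ := by rw [hC1]; simp [Chain.putS]
  have hN1 : New C1.K (C1.τ (m + 1)) (cc x m) (GG x m) (C1.α (m + 1)) (m + 1) (C1.Fi m) (C1.M m)
      (C1.s (m + 1)) (C1.Φ (m + 1)) := by
    rw [es, eΦ]
    exact hN
  have hW1 : Wgt C1 m (GG x m) (bet x X0 m) := ⟨hW.cmp, hW.ratio, hW.exp⟩
  have hR0 : C1.R 0 = R0 := H.R0_eq
  have hR : ∀ l, 1 ≤ l → l ≤ m → C1.R l = RR x l := fun l a b => H.R_eq l a (by omega)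
  have hyp := hyp_stage (C := C1) (n := m) B P0.pu P0.X0_one (by rw [hR0]; exact P0.X0_ge) P0.X0_le
    hR H.K_size hAn1 H.τ_pos H.τ_le hN1 hW1
  have hseed1 : Seed (C1.dat m (cc x m) (GG x m) (bet x X0 m) (uu x m)) (C1.w (m + 1)) :=
    ⟨hseed.supp, hseed.div, hseed.le, hseed.k_le⟩
  -- constants of the level `m`
  have hRX : C.R m ≤ XX x X0 m := by
    have hR2 : 2 ≤ C.R m := (hAn.lvl m le_rfl).R_two
    have h3 : (10 ^ 6 * C.R m) ^ (1000 * (m + 2)) ≤ XX x X0 m :=
      (parStep (C := C1) (n := m) B P0.pu P0.X0_one (by rw [hR0]; exact P0.X0_ge) P0.X0_le hR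
        H.K_size).X_ge m le_rfl
    have h4 : C.R m ≤ (10 ^ 6 * C.R m) ^ (1000 * (m + 2)) := by
      have h5 : (1:ℝ) ≤ 10 ^ 6 * C.R m := by nlinarith
      calc C.R m ≤ 10 ^ 6 * C.R m := by nlinarith
        _ ≤ _ := le_self_pow₀ h5 (by omega)
    exact h4.trans h3
  have hXG := (parStep (C := C1) (n := m) B P0.pu P0.X0_one (by rw [hR0]; exact P0.X0_ge) P0.X0_le
    hR H.K_size).X_G m le_rfl
  have hXc := (parStep (C := C1) (n := m) B P0.pu P0.X0_one (by rw [hR0]; exact P0.X0_ge) P0.X0_le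
    hR H.K_size).X_c m le_rfl
  have hRG : C.R m ≤ GG x m := hRX.trans hXG
  have hrR := (hAn.lvl m le_rfl).r_R
  have hrpos := (hAn.lvl m le_rfl).c_pos
  have hR2 : 2 ≤ C.R m := (hAn.lvl m le_rfl).R_two
  have hcr : cc x m ≤ C.r m := by
    have h3 : 1 / XX x X0 m ≤ C.r m := by
      rw [div_le_iff₀ (by linarith)]
      calc (1:ℝ) ≤ C.R m * C.r m := hrR
        _ ≤ XX x X0 m * C.r m := by gcongr
        _ = C.r m * XX x X0 m := mul_comm _ _
    exact hXc.trans h3
  have hcpos := B.cc_pos m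
  have hGR : (GG x m * (8 / cc x m)) ^ 1000 ≤ RR x (m + 1) := B.G_R m
  have hG2 : 2 ≤ GG x m := B.GG_two m
  have hGRR : GG x m ≤ RR x (m + 1) := by
    refine le_trans ?_ hGR
    have h3 : (1:ℝ) ≤ 8 / cc x m := by
      rw [le_div_iff₀ hcpos]
      have := B.cc_le_one m
      linarith
    have h6 : GG x m ≤ GG x m * (8 / cc x m) := le_mul_of_one_le_right (by linarith) h3
    exact h6.trans (le_self_pow₀ (by linarith) (by norm_num))
  -- time Lipschitz bound of level `m`
  have hHL := H.hl (m + 1) (by omega) le_rfl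
  have hbG : bb x (m + 1) ≤ GG x m := by
    unfold bb GG
    refine Real.exp_le_exp.2 ?_
    have e1 := B.ell_gap' (m + 2)
    have e2 := B.ell_pos (m + 2)
    have e3 : m + 1 + 1 = m + 2 := rfl
    have e4 : m + 2 + 1 = m + 3 := rfl
    rw [e3]
    rw [e4] at e1
    nlinarith
  have hlip0 : ∀ t ∈ Icc 0 (C.τ (m + 1)), ∀ t' ∈ Icc 0 (C.τ (m + 1)),
      ‖rM 0 (C.M m t) - rM 0 (C.M m t')‖ ≤ GG x m * |t - t'| := by
    intro t ht t' ht'
    have e1 : ∀ t ∈ Icc 0 (C.τ (m + 1)), (D (m + 1)).A t = rM 0 (C.M m t) := by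
      intro t ht
      rw [H.A_eq]
      show rM 0 (C.M m (K.clT (C.τ (m + 1)) t)) = _
      rw [K.clT, min_eq_left ht.2, max_eq_right ht.1]
    rw [← e1 t ht, ← e1 t' ht']
    refine (hHL.A_lip t t').trans ?_
    rw [H.b_eq (m + 1) (by omega) le_rfl]
    gcongr
  obtain ⟨X, U, A, p, F, Fi, M, z, a, hL, hS, hU0, hlip⟩ := h5 C1 m (cc x m) (GG x m)
    (bet x X0 m) (RR x (m + 1)) (uu x m) (uOld x) hAn1 hyp H.τ_le hseed1 hodd hGR
    (by rw [uu, if_pos rfl, uNew_eq]) (uOld_pos x _) (uOld_lt x _) hcr hRG hlip0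
  set C2 : Chain := C1.putL (m + 1) (cc x m / 8) (RR x (m + 1)) X U A p F Fi M z a with hC2
  have ag2 : C.Agree C2 m := agree_putL C m _ _ X U A p F Fi M z a s Φ
  have hAnm : C2.An m (uOld x) := hAn.congr ag2
  have e_r : C2.r (m + 1) = cc x m / 8 := by rw [hC2]; simp [Chain.putL]
  have e_R : C2.R (m + 1) = RR x (m + 1) := by rw [hC2]; simp [Chain.putL]
  have e_X : C2.X (m + 1) = X := by rw [hC2]; simp [Chain.putL]
  have e_U : C2.U (m + 1) = U := by rw [hC2]; simp [Chain.putL]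
  have e_A : C2.A (m + 1) = A := by rw [hC2]; simp [Chain.putL]
  have e_p : C2.p (m + 1) = p := by rw [hC2]; simp [Chain.putL]
  have e_F : C2.F (m + 1) = F := by rw [hC2]; simp [Chain.putL]
  have e_Fi : C2.Fi (m + 1) = Fi := by rw [hC2]; simp [Chain.putL]
  have e_M : C2.M (m + 1) = M := by rw [hC2]; simp [Chain.putL]
  have e_z : C2.z (m + 1) = z := by rw [hC2]; simp [Chain.putL]
  have e_a : C2.a (m + 1) = a := by rw [hC2]; simp [Chain.putL]
  have e_s : C2.s (m + 1) = s := es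
  have e_Φ : C2.Φ (m + 1) = Φ := eΦ
  have eK : C2.K = C.K := rfl
  have eτ : C2.τ = C.τ := rfl
  have eα : C2.α = C.α := rfl
  have ew : C2.w = C.w := rfl
  have hAn2 : C2.An (m + 1) (uOld x) :=
    { lvl := fun l hl => by
        rcases Nat.lt_or_ge l (m + 1) with h3 | h3
        · exact hAnm.lvl l (by omega)
        · obtain rfl : l = m + 1 := by omega
          rw [e_r, e_R, e_X, e_U, e_A, e_p, e_F, e_Fi, e_M]
          exact hL
      sht := fun j h3 h6 => by
        rcases Nat.lt_or_ge j (m + 1) with h8 | h8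
        · exact hAnm.sht j h3 (by omega)
        · obtain rfl : j = m + 1 := by omega
          rw [Nat.add_sub_cancel, e_r, e_R, e_F, e_Fi, e_M, e_z, e_a, e_s, e_Φ,
            ← ag2.F m le_rfl, ← ag2.Fi m le_rfl, ← ag2.M m le_rfl]
          rw [es, eΦ] at hS
          exact hS
      U_seed := fun l hl => by
        rcases Nat.lt_or_ge l m with h3 | h3
        · exact hAnm.U_seed l h3
        · obtain rfl : l = m := by omega
          rw [e_U, ← ag2.U l le_rfl]
          exact hU0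
      τ_anti := fun l hl => by
        rcases Nat.lt_or_ge l m with h3 | h3
        · exact hAnm.τ_anti l h3
        · obtain rfl : l = m := by omega
          exact H.τ_le
      r_anti := fun l hl => by
        rcases Nat.lt_or_ge l m with h3 | h3
        · exact hAnm.r_anti l h3
        · obtain rfl : l = m := by omega
          rw [e_r, ← ag2.r l le_rfl]
          linarith
      R_mono := fun l hl => by
        rcases Nat.lt_or_ge l m with h3 | h3
        · exact hAnm.R_mono l h3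
        · obtain rfl : l = m := by omega
          rw [e_R, ← ag2.R l le_rfl]
          exact hRG.trans hGRR }
  have hPre2 : PreD x R0 (m + 1) C2 D := H.congr (by omega) ag2 rfl rfl rfl rfl rfl
  refine ⟨C2, ag2, hPre2, hAn2, e_R, e_r, ?_, ?_⟩
  · intro t ht t' ht'
    have h3 := hlip t ht t' ht'
    have e1 : ∀ t, C2.Mc (m + 1) t = rM 0 (M t) := by
      intro t
      unfold Chain.Mc
      rw [e_M]
      rfl
    rw [e1, e1]
    exact h3
  · exact h7 x R0 c₀ X0 (m + 1) C2 D (by omega) P0 hPre2 hAn2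

end Pool.Agent.Work.MP_b0497c_an.Unf.A
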