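import Pool.Agent.Work.MP_b0497c_an.Unf.P2

set_option autoImplicit false

/-!
# Block P: (p3)-(p5), constants of the levels and steps, sums
-/

open Filter

namespace Pool.Agent.Work.MP_b0497c_an.Unf.P

/-- `η_n = 100 k0^{-2} (c k0)^{-1/2} + k0/k2 + 100 c/k2 + h^{-1}` for the actual value `c`. -/
noncomputable def eta (x : ℝ) (n : ℕ) (c : ℝ) : ℝ :=
  100 / (k0 x n ^ 2 * Real.sqrt (c * k0 x n)) + k0 x n / k2f x n + 100 * c / k2f x n +
    1 / hh x n

namespace Big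

variable {C x : ℝ} (B : Big C x)
include B

/-- `L_n / L_{n+1}` is tiny. -/
theorem quo_le (n : ℕ) : Lr x n / Lr x (n + 1) ≤ Real.exp (-(ell x (n + 1)) / 2) := by
  have h1 := B.ell_gap n
  have h2 := B.ell_pos n
  rw [Lr, Lr, ← Real.exp_sub]
  exact Real.exp_le_exp.2 (by linarith)

theorem nat_le (n : ℕ) : ((n : ℝ) + 1) ≤ ell x n := by
  have h1 := B.nat n
  have hC := B.C_one
  have h2 : (1 : ℝ) ≤ (n : ℝ) + 1 := by have := n.cast_nonneg (α := ℝ); linarith
  have h3 : (n : ℝ) + 1 ≤ ((n : ℝ) + 1) ^ 16 := le_self_pow₀ h2 (by norm_num)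
  have h4 : ((n : ℝ) + 1) ^ 16 ≤ 1000 * C * ((n : ℝ) + 1) ^ 16 := by
    have : 0 ≤ ((n : ℝ) + 1) ^ 16 := by positivity
    nlinarith
  linarith

/-- (p3) -/
theorem eta_le {n : ℕ} {c : ℝ} (hc1 : cn x n / 2 ≤ c) (hc2 : c ≤ 2 * cn x n) :
    eta x n c ≤ 400 * (Lr x n / Lr x (n + 1)) := by
  have g0 := B.ell_gap n
  have g1 := B.ell_gap (n + 1)
  have p0 := B.ell_pos n
  have p1 := B.ell_pos (n + 1)
  have p2 := B.ell_pos (n + 2)
  have e1 : n + 1 + 1 = n + 2 := rfl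
  rw [e1] at g1
  have hcp : 0 < c := lt_of_lt_of_le (half_pos (cn_pos x n)) hc1
  have hq : Lr x n / Lr x (n + 1) = Real.exp (ell x n - ell x (n + 1)) := by
    rw [Lr, Lr, ← Real.exp_sub]
  have hqpos : 0 < Lr x n / Lr x (n + 1) := div_pos (Lr_pos _ _) (Lr_pos _ _)
  -- first term
  have t1 : 100 / (k0 x n ^ 2 * Real.sqrt (c * k0 x n)) ≤ 200 * (Lr x n / Lr x (n + 1)) := by
    have hs : Real.exp (-(ell x n) - ell x (n + 1)) / 2 ≤ Real.sqrt (c * k0 x n) := by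
      refine Real.le_sqrt_of_sq_le ?_
      calc (Real.exp (-(ell x n) - ell x (n + 1)) / 2) ^ 2
          = Real.exp (-(2 * ell x n + 2 * ell x (n + 1))) / 4 := by
            rw [div_pow, ← Real.exp_nat_mul]; push_cast; ring_nf
        _ ≤ Real.exp (-(2 * ell x n + 2 * ell x (n + 1))) / 2 := by
            have := Real.exp_pos (-(2 * ell x n + 2 * ell x (n + 1)))
            linarith
        _ = cn x n / 2 * k0 x n := by
            rw [cn_exp, k0, Lr, div_mul_eq_mul_div, ← Real.exp_add]; ring_nf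
        _ ≤ c * k0 x n := by have := (k0_pos x n).le; gcongr
    have hsp : 0 < Real.exp (-(ell x n) - ell x (n + 1)) / 2 := by positivity
    have hk : 0 < k0 x n := k0_pos x n
    calc 100 / (k0 x n ^ 2 * Real.sqrt (c * k0 x n))
        ≤ 100 / (k0 x n ^ 2 * (Real.exp (-(ell x n) - ell x (n + 1)) / 2)) := by
          refine div_le_div_of_nonneg_left (by norm_num) (by positivity) ?_
          gcongr
      _ = 200 * (Lr x n / Lr x (n + 1)) := by
          rw [hq, k0, Lr, ← Real.exp_nat_mul]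
          rw [show Real.exp (ell x n - ell x (n + 1)) =
            1 / (Real.exp (((2 : ℕ) : ℝ) * ell x (n + 1)) *
              Real.exp (-(ell x n) - ell x (n + 1))) by
            rw [← Real.exp_add, one_div, ← Real.exp_neg]; push_cast; ring_nf]
          have := (Real.exp_pos (((2 : ℕ) : ℝ) * ell x (n + 1))).ne'
          have := (Real.exp_pos (-(ell x n) - ell x (n + 1))).ne'
          field_simp
          norm_num
  -- second term
  have t2 : k0 x n / k2f x n ≤ Lr x n / Lr x (n + 1) := by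
    rw [hq, k0, Lr, k2f_exp, ← Real.exp_sub]
    exact Real.exp_le_exp.2 (by linarith)
  -- third term
  have t3 : 100 * c / k2f x n ≤ 100 * (Lr x n / Lr x (n + 1)) := by
    have h1 : c ≤ 1 := by
      refine hc2.trans ?_
      rw [cn_exp]
      have h3 : (2 : ℝ) ≤ Real.exp (ell x n) := by
        have := Real.add_one_le_exp (ell x n)
        have := B.ell_ge n
        linarith
      calc 2 * Real.exp (-(2 * ell x n + 3 * ell x (n + 1)))
          ≤ Real.exp (ell x n) * Real.exp (-(2 * ell x n + 3 * ell x (n + 1))) := by gcongr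
        _ = Real.exp (ell x n + -(2 * ell x n + 3 * ell x (n + 1))) := by rw [Real.exp_add]
        _ ≤ 1 := by rw [Real.exp_le_one_iff]; linarith
    have h2 : 1 / k2f x n ≤ Lr x n / Lr x (n + 1) := by
      rw [hq, k2f_exp, one_div, ← Real.exp_neg]
      exact Real.exp_le_exp.2 (by linarith)
    have hk := k2f_pos x n
    calc 100 * c / k2f x n = 100 * (c * (1 / k2f x n)) := by ring
      _ ≤ 100 * (1 * (1 / k2f x n)) := by gcongr
      _ ≤ 100 * (Lr x n / Lr x (n + 1)) := by rw [one_mul]; gcongr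
  -- fourth term
  have t4 : 1 / hh x n ≤ Lr x n / Lr x (n + 1) := by
    rw [hq, hh, one_div, ← Real.exp_neg]
    exact Real.exp_le_exp.2 (by linarith)
  rw [eta]
  linarith

theorem eta_nonneg {n : ℕ} {c : ℝ} (hc : 0 ≤ c) : 0 ≤ eta x n c := by
  have h1 := k0_pos x n
  have h2 := k2f_pos x n
  have h3 := hh_pos x n
  rw [eta]
  positivity

/-- The `η_n` are summable with a tiny sum: `η_n ≤ 10^(-50) 2^(-n-1)`. -/
theorem eta_geom {n : ℕ} {c : ℝ} (hc1 : cn x n / 2 ≤ c) (hc2 : c ≤ 2 * cn x n) :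
    eta x n c ≤ (10 : ℝ)⁻¹ ^ 50 * (1 / 2) ^ (n + 1) := by
  refine (B.eta_le hc1 hc2).trans ?_
  have h1 := B.quo_le n
  have p1 := B.ell_ge (n + 1)
  have hn := B.nat_le (n + 1)
  push_cast at hn
  have e1 : Real.exp (-(ell x (n + 1)) / 2) ≤
      Real.exp (-(ell x (n + 1)) / 4) * Real.exp (-(ell x (n + 1)) / 4) := by
    rw [← Real.exp_add]; exact Real.exp_le_exp.2 (by linarith)
  have e2 : Real.exp (-(ell x (n + 1)) / 4) ≤ ((10 : ℝ) ^ 53)⁻¹ := by
    rw [show -(ell x (n + 1)) / 4 = -(ell x (n + 1) / 4) by ring, Real.exp_neg]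
    refine inv_anti₀ (by positivity) ?_
    have h3 : (10 : ℝ) ≤ Real.exp 3 := by
      have := Real.exp_one_gt_d9
      calc (10 : ℝ) ≤ 2.7 ^ 3 := by norm_num
        _ ≤ Real.exp 1 ^ 3 := by gcongr; linarith
        _ = Real.exp 3 := by rw [← Real.exp_nat_mul]; norm_num
    calc (10 : ℝ) ^ 53 ≤ Real.exp 3 ^ 53 := by gcongr
      _ = Real.exp 159 := by rw [← Real.exp_nat_mul]; norm_num
      _ ≤ Real.exp (ell x (n + 1) / 4) := Real.exp_le_exp.2 (by linarith)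
  have hgrow : ((n : ℝ) + 1) ≤ ell x (n + 1) / 4 := by
    have h := B.nat_le n
    have h2 := B.ell_gap n
    have := B.ell_pos n
    linarith
  have e3 : Real.exp (-(ell x (n + 1)) / 4) ≤ (1 / 2) ^ (n + 1) := by
    calc Real.exp (-(ell x (n + 1)) / 4) ≤ Real.exp (-((n : ℝ) + 1)) :=
          Real.exp_le_exp.2 (by linarith)
      _ = (Real.exp (-1)) ^ (n + 1) := by
          rw [← Real.exp_nat_mul]; push_cast; ring_nf
      _ ≤ (1 / 2) ^ (n + 1) := by
          gcongr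
          rw [Real.exp_neg, one_div]
          refine inv_anti₀ two_pos ?_
          have := Real.add_one_le_exp (1 : ℝ)
          linarith
  calc 400 * (Lr x n / Lr x (n + 1))
      ≤ 400 * (Real.exp (-(ell x (n + 1)) / 4) * Real.exp (-(ell x (n + 1)) / 4)) := by
        gcongr; exact h1.trans e1
    _ ≤ 400 * (((10 : ℝ) ^ 53)⁻¹ * (1 / 2) ^ (n + 1)) := by gcongr
    _ ≤ (10 : ℝ)⁻¹ ^ 50 * (1 / 2) ^ (n + 1) := by
        rw [← mul_assoc]
        gcongr
        norm_num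

/-! ### (p4), (p5): the scales `N` beat everything polynomial -/

/-- Polynomials in `ell_{n+5}` are tiny compared with `L_n`. -/
theorem poly_L {n : ℕ} {D : ℝ} (hD : D ≤ (10 : ℝ) ^ 30 * C) :
    D * ell x (n + 5) ≤ Lr x n := by
  have h := B.exp n
  have h1 := B.ell_ge n
  have h2 : ell x (n + 5) = ell x n ^ 32 := by rw [ell_add]; norm_num
  rw [h2]
  refine le_trans ?_ h
  have h3 : ell x n ^ 32 ≤ ell x n ^ 64 := pow_le_pow_right₀ (by linarith) (by norm_num)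
  have h4 : 0 ≤ ell x n ^ 32 := by have := B.ell_pos n; positivity
  calc D * ell x n ^ 32 ≤ (10 : ℝ) ^ 30 * C * ell x n ^ 32 := by gcongr
    _ ≤ (10 : ℝ) ^ 30 * C * ell x n ^ 64 := by
        have := B.C_one
        gcongr

theorem poly_L' {n j : ℕ} (hj : j ≤ 5) {D : ℝ} (hD0 : 0 ≤ D) (hD : D ≤ (10 : ℝ) ^ 30 * C) :
    D * ell x (n + j) ≤ Lr x n := by
  refine le_trans ?_ (B.poly_L hD)
  gcongr
  exact ell_mono B.one_le (by omega)

/-- (p4): `exp (-L_n / D) ≤ h_n^(-K)`, e.g. `D = 8192`, `K = 10^6`. -/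
theorem exp_L_le_h {n K : ℕ} {D : ℝ} (hD : 0 < D) (hK : 6 * (K : ℝ) * D ≤ (10 : ℝ) ^ 30 * C) :
    Real.exp (-(Lr x n) / D) ≤ (hh x n ^ K)⁻¹ := by
  rw [hh, ← Real.exp_nat_mul, ← Real.exp_neg]
  refine Real.exp_le_exp.2 ?_
  have h := B.poly_L' (n := n) (j := 2) (by norm_num) (by positivity) hK
  rw [neg_div, neg_le_neg_iff, le_div_iff₀ hD]
  linarith

/-- The same for the following `h`'s: `exp (-L_n / D) ≤ h_{n+i}^(-K)`, `i ≤ 3`. -/
theorem exp_L_le_h' {n K i : ℕ} (hi : i ≤ 3) {D : ℝ} (hD : 0 < D)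
    (hK : 6 * (K : ℝ) * D ≤ (10 : ℝ) ^ 30 * C) :
    Real.exp (-(Lr x n) / D) ≤ (hh x (n + i) ^ K)⁻¹ := by
  rw [hh, ← Real.exp_nat_mul, ← Real.exp_neg]
  refine Real.exp_le_exp.2 ?_
  have h := B.poly_L' (n := n) (j := i + 2) (by omega) (by positivity) hK
  rw [neg_div, neg_le_neg_iff, le_div_iff₀ hD]
  have e : n + i + 2 = n + (i + 2) := by ring
  rw [e]
  linarith

/-- `u_old^256 = exp (-L_n/32) ≤ h_n^(-10^20)`. -/
theorem uOld_pow (n : ℕ) : uOld x n ^ 256 = Real.exp (-(Lr x n) / 32) := by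
  rw [uOld, ← Real.exp_nat_mul]; congr 1; push_cast; ring

theorem uOld_le_h (n : ℕ) : uOld x n ^ 256 ≤ (hh x n ^ (10 ^ 20))⁻¹ := by
  rw [B.uOld_pow]
  refine B.exp_L_le_h (by norm_num) ?_
  have := B.C_one
  push_cast
  nlinarith

/-- `eps_n = u_old^256 ≤ G_{n-1}^(-10^6)`, in particular `≤ b'^(-30)`. -/
theorem uOld_le_G (n : ℕ) : uOld x (n + 1) ^ 256 ≤ (GG x n ^ (10 ^ 6))⁻¹ := by
  rw [B.uOld_pow, GG, ← Real.exp_nat_mul, ← Real.exp_neg]
  refine Real.exp_le_exp.2 ?_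
  have h := B.poly_L' (n := n + 1) (j := 2) (D := 32 * 10 ^ 6 * 70000) (by norm_num)
    (by norm_num) (by have := B.C_one; nlinarith)
  have e : n + 1 + 2 = n + 3 := rfl
  rw [e] at h
  push_cast
  linarith

theorem uOld_le_bP (n : ℕ) : uOld x (n + 1) ^ 256 ≤ (bP x n ^ 30)⁻¹ := by
  refine (B.uOld_le_G n).trans ?_
  have h1 : 1 ≤ GG x n := Real.one_le_exp (by have := B.ell_pos (n + 3); linarith)
  have hp : 0 < GG x n := Real.exp_pos _
  rw [bP, ← pow_mul]
  exact inv_anti₀ (by positivity) (pow_le_pow_right₀ h1 (by norm_num))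

/-- (p5): `exp (-L_n L_{n+1}) ≤ h_{n+1}^(-1000)`, with a lot of room. -/
theorem exp_gg_le (n : ℕ) : Real.exp (-(gg x n)) ≤ (hh x (n + 1) ^ (10 ^ 20))⁻¹ := by
  have h1 : Real.exp (-(gg x n)) ≤ Real.exp (-(Lr x (n + 1)) / 1) := by
    refine Real.exp_le_exp.2 ?_
    have h2 := B.Lr_ge n
    have h3 := Lr_pos x (n + 1)
    rw [gg, div_one, neg_le_neg_iff]
    have : (1 : ℝ) ≤ Lr x n := le_trans (by norm_num) h2
    nlinarith
  refine h1.trans (B.exp_L_le_h one_pos ?_)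
  have := B.C_one
  push_cast
  nlinarith

/-- `exp (-g_n)` beats every power of `N_{n+1}` up to `L_n`. -/
theorem exp_gg_N (n : ℕ) (K : ℕ) (hK : (K : ℝ) ≤ Lr x n) :
    Real.exp (-(gg x n)) ≤ (Real.exp (Lr x (n + 1)) ^ K)⁻¹ := by
  rw [← Real.exp_nat_mul, ← Real.exp_neg]
  refine Real.exp_le_exp.2 ?_
  have h3 := Lr_pos x (n + 1)
  rw [gg, neg_le_neg_iff]
  gcongr

/-! ### constants of the levels and of the steps -/

theorem nat_mul_le {n s : ℕ} : C * ((n : ℝ) + 1) ^ 16 ≤ ell x (n + s) / 1000 := by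
  have h1 := B.nat n
  have h2 : ell x n ≤ ell x (n + s) := ell_mono B.one_le (Nat.le_add_right _ _)
  rw [le_div_iff₀ (by norm_num)]
  linarith

/-- Everything of the step `n → n+1` built from level `n`:
`R_n^(C (n+1)^16) ≤ Gm_n = L_{n+3}^(1/100)`. -/
theorem R_Gm (n : ℕ) : C * ((n : ℝ) + 1) ^ 16 * ell x (n + 1) ^ 3 ≤ ell x (n + 3) / 1000 := by
  have h1 := B.nat_mul_le (n := n) (s := 1)
  have e : ell x (n + 3) = ell x (n + 1) ^ 4 := by
    rw [show n + 3 = n + 1 + 2 by ring, ell_add]; norm_num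
  have hp : 0 ≤ ell x (n + 1) ^ 3 := by have := B.ell_pos (n + 1); positivity
  rw [e]
  calc C * ((n : ℝ) + 1) ^ 16 * ell x (n + 1) ^ 3
      ≤ ell x (n + 1) / 1000 * ell x (n + 1) ^ 3 := by gcongr
    _ = ell x (n + 1) ^ 4 / 1000 := by ring

/-- Recursion of the level constants: `(R_n a_{n+1})^(C (n+1)^16) ≤ R_{n+1}`. -/
theorem R_rec (n : ℕ) : C * ((n : ℝ) + 1) ^ 16 * (ell x (n + 1) ^ 3 + 144 * ell x (n + 3)) ≤
    ell x (n + 2) ^ 3 := by
  have h1 := B.nat_mul_le (n := n) (s := 1)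
  have e : ell x (n + 3) = ell x (n + 1) ^ 4 := by
    rw [show n + 3 = n + 1 + 2 by ring, ell_add]; norm_num
  have e2 : ell x (n + 2) = ell x (n + 1) ^ 2 := ell_succ x (n + 1)
  have hp := B.ell_ge (n + 1)
  have hp0 := B.ell_pos (n + 1)
  have h3 : ell x (n + 1) ^ 3 ≤ ell x (n + 1) ^ 4 :=
    pow_le_pow_right₀ (by linarith) (by norm_num)
  rw [e, e2]
  calc C * ((n : ℝ) + 1) ^ 16 * (ell x (n + 1) ^ 3 + 144 * ell x (n + 1) ^ 4)
      ≤ ell x (n + 1) / 1000 * (ell x (n + 1) ^ 4 + 144 * ell x (n + 1) ^ 4) := by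
        have : 0 ≤ ell x (n + 1) ^ 3 + 144 * ell x (n + 1) ^ 4 := by positivity
        gcongr
    _ ≤ ell x (n + 1) ^ 5 := by
        have : 0 ≤ ell x (n + 1) ^ 5 := by positivity
        linarith [show ell x (n + 1) / 1000 * (ell x (n + 1) ^ 4 + 144 * ell x (n + 1) ^ 4) =
          145 / 1000 * ell x (n + 1) ^ 5 by ring]
    _ ≤ ell x (n + 1) ^ 6 := pow_le_pow_right₀ (by linarith) (by norm_num)
    _ = (ell x (n + 1) ^ 2) ^ 3 := by ring

/-- `R_n ≤ h_n^(1/1000)`: the Wiener constants of level `n` against the window `n`… also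
`R_n^(C (n+1)^16) ≤ h_{n+1}^(1/6000)`. -/
theorem R_le_h (n : ℕ) : RR x n ^ 6000 ≤ hh x (n + 1) := by
  rw [RR, hh, ← Real.exp_nat_mul]
  refine Real.exp_le_exp.2 ?_
  have h := B.R_Gm n
  have h1 : (1 : ℝ) ≤ ((n : ℝ) + 1) ^ 16 := one_le_pow₀ (by have := n.cast_nonneg (α := ℝ); linarith)
  have hC := B.C_one
  have hp : 0 ≤ ell x (n + 1) ^ 3 := by have := B.ell_pos (n + 1); positivity
  have h2 : ell x (n + 1) ^ 3 ≤ C * ((n : ℝ) + 1) ^ 16 * ell x (n + 1) ^ 3 := by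
    have : 1 ≤ C * ((n : ℝ) + 1) ^ 16 := by nlinarith
    nlinarith
  push_cast
  have e : n + 1 + 2 = n + 3 := rfl
  rw [e]
  linarith

/-- `Gm_n^4 ≤ g`-scale: the coarse constant of level `n` (used as coarse level in the step
`n+2 → n+3`) is `≤ L_{n+3}^(4/100)`, so `1000 Gm_n^4 ≤ L_{n+3}`. -/
theorem Gm_le_L (n : ℕ) : 1000 * Gm x n ^ 4 ≤ Lr x (n + 3) := by
  have h := B.ell_ge (n + 3)
  have h1 : (1000 : ℝ) ≤ Real.exp (ell x (n + 3) / 2) := by
    have := Real.add_one_le_exp (ell x (n + 3) / 2)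
    linarith
  rw [Gm, Lr, ← Real.exp_nat_mul]
  calc 1000 * Real.exp (((4 : ℕ) : ℝ) * (ell x (n + 3) / 100))
      ≤ Real.exp (ell x (n + 3) / 2) * Real.exp (((4 : ℕ) : ℝ) * (ell x (n + 3) / 100)) := by
        gcongr
    _ = Real.exp (ell x (n + 3) / 2 + ((4 : ℕ) : ℝ) * (ell x (n + 3) / 100)) := by
        rw [Real.exp_add]
    _ ≤ Real.exp (ell x (n + 3)) := Real.exp_le_exp.2 (by push_cast; linarith)

/-- `a_{n+1}^400 Gm_n^100000 ≤ G_n` (all polynomial constants of the step). -/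
theorem aa_Gm (n : ℕ) : aa x (n + 1) ^ 400 * Gm x n ^ 100000 ≤ GG x n := by
  rw [aa, Gm, GG, ← Real.exp_nat_mul, ← Real.exp_nat_mul, ← Real.exp_add]
  refine Real.exp_le_exp.2 ?_
  have h := B.ell_pos (n + 3)
  have e : n + 1 + 2 = n + 3 := rfl
  rw [e]
  push_cast
  linarith

/-- `h_{n+1}^11000 ≤ G_n`. -/
theorem h_GG (n : ℕ) : hh x (n + 1) ^ 11000 ≤ GG x n := by
  rw [hh, GG, ← Real.exp_nat_mul]
  refine Real.exp_le_exp.2 ?_
  have h := B.ell_pos (n + 3)
  have e : n + 1 + 2 = n + 3 := rfl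
  rw [e]
  push_cast
  linarith

/-- `G_n^1000 ≤ h_{n+2}`. -/
theorem GG_le_h (n : ℕ) : GG x n ^ 1000 ≤ hh x (n + 2) := by
  rw [GG, hh, ← Real.exp_nat_mul]
  refine Real.exp_le_exp.2 ?_
  have h := B.ell_gap (n + 3)
  have h' := B.ell_pos (n + 3)
  have e : n + 2 + 2 = n + 4 := rfl
  have e' : n + 3 + 1 = n + 4 := rfl
  rw [e]
  rw [e'] at h
  push_cast
  linarith

theorem Gm_ge (n : ℕ) : (10 : ℝ) ^ 100 ≤ Gm x n := by
  have h3 : (10 : ℝ) ≤ Real.exp 3 := by
    have := Real.exp_one_gt_d9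
    calc (10 : ℝ) ≤ 2.7 ^ 3 := by norm_num
      _ ≤ Real.exp 1 ^ 3 := by gcongr; linarith
      _ = Real.exp 3 := by rw [← Real.exp_nat_mul]; norm_num
  calc (10 : ℝ) ^ 100 ≤ Real.exp 3 ^ 100 := by gcongr
    _ = Real.exp 300 := by rw [← Real.exp_nat_mul]; norm_num
    _ ≤ Gm x n := Real.exp_le_exp.2 (by linarith [B.ell_ge (n + 3)])

/-- `C_*`-type absolute constants are swallowed: `e^{2 C} a_{n+1}^400 ≤ G_n`. -/
theorem expC_le (n : ℕ) : Real.exp (2 * C) * aa x (n + 1) ^ 400 ≤ GG x n := by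
  rw [aa, GG, ← Real.exp_nat_mul, ← Real.exp_add]
  refine Real.exp_le_exp.2 ?_
  have h := B.nat 0
  have e : n + 1 + 2 = n + 3 := rfl
  have h2 : ell x 0 ≤ ell x (n + 3) := ell_mono B.one_le (Nat.zero_le _)
  have hC := B.C_one
  rw [e]
  norm_num at h
  push_cast
  linarith

/-- `e^{2 C} a_{n+1} ≤ G_n`. -/
theorem expC_le' (n : ℕ) : Real.exp (2 * C) * aa x (n + 1) ≤ GG x n := by
  refine le_trans ?_ (B.expC_le n)
  have h1 : 1 ≤ aa x (n + 1) := Real.one_le_exp (by have := B.ell_pos (n + 1 + 2); linarith)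
  have : aa x (n + 1) ≤ aa x (n + 1) ^ 400 := le_self_pow₀ h1 (by norm_num)
  gcongr

/-! ### The radius `c_n` of the step -/

theorem cc_pos (n : ℕ) : 0 < cc x n := Real.exp_pos _

theorem cc_le_one (n : ℕ) : cc x n ≤ 1 := by
  rw [cc, Real.exp_le_one_iff]
  have := B.ell_pos (n + 3)
  linarith

/-- `(n+2) h_{n+1}^10000 ≤ 1/c_n`: the envelope of the new seed has a bounded norm. -/
theorem env_cc (n : ℕ) : 1000 * ((n : ℝ) + 2) * hh x (n + 1) ^ 10000 * cc x n ≤ 1 := by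
  have h1 := B.nat_le n
  have h2 : ell x n ≤ ell x (n + 3) := ell_mono B.one_le (Nat.le_add_right _ _)
  have h3 := B.ell_ge (n + 3)
  have h4 : 1000 * ((n : ℝ) + 2) ≤ Real.exp (2000 * ell x (n + 3)) := by
    have := Real.add_one_le_exp (2000 * ell x (n + 3))
    linarith
  rw [hh, cc, ← Real.exp_nat_mul]
  have e : n + 1 + 2 = n + 3 := rfl
  rw [e]
  calc 1000 * ((n : ℝ) + 2) * Real.exp (((10000 : ℕ) : ℝ) * (6 * ell x (n + 3))) *
        Real.exp (-(62000 * ell x (n + 3)))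
      ≤ Real.exp (2000 * ell x (n + 3)) * Real.exp (((10000 : ℕ) : ℝ) * (6 * ell x (n + 3))) *
        Real.exp (-(62000 * ell x (n + 3))) := by gcongr
    _ = 1 := by rw [← Real.exp_add, ← Real.exp_add, Real.exp_eq_one_iff]; push_cast; ring

/-- `2 ≤ G_n c_n` with room. -/
theorem G_cc (n : ℕ) : (10 : ℝ) ^ 100 ≤ GG x n * cc x n := by
  refine (B.num_exp (B.ell_ge (n + 3))).trans ?_
  rw [GG, cc, ← Real.exp_add]
  refine Real.exp_le_exp.2 ?_
  have := B.ell_pos (n + 3)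
  linarith

/-- `Gm_n^1000 ≤ 1/c_n`. -/
theorem Gm_cc (n : ℕ) : Gm x n ^ 1000 * cc x n ≤ 1 := by
  rw [Gm, cc, ← Real.exp_nat_mul, ← Real.exp_add, Real.exp_le_one_iff]
  have := B.ell_pos (n + 3)
  push_cast
  linarith

theorem Gm_GG (n : ℕ) : Gm x n ^ 1000 ≤ GG x n := by
  rw [Gm, GG, ← Real.exp_nat_mul]
  refine Real.exp_le_exp.2 ?_
  have := B.ell_pos (n + 3)
  push_cast
  linarith

/-- The master inequality: everything built from `R_n` (with exponents of order `n`) is `≤ Gm_n`. -/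
theorem master (n : ℕ) : ((10 : ℝ) ^ 6 * RR x n) ^ (1000 * (n + 2)) ≤ Gm x n := by
  have hR : (10 : ℝ) ^ 6 ≤ RR x n := by
    have h := B.ell_ge (n + 1)
    have h1 : ell x (n + 1) ≤ ell x (n + 1) ^ 3 := le_self_pow₀ (by linarith) (by norm_num)
    calc (10 : ℝ) ^ 6 ≤ (10 : ℝ) ^ 100 := by norm_num
      _ ≤ Real.exp (ell x (n + 1)) := B.num_exp h
      _ ≤ RR x n := Real.exp_le_exp.2 h1
  have hR0 : 0 ≤ RR x n := (Real.exp_pos _).le
  calc ((10 : ℝ) ^ 6 * RR x n) ^ (1000 * (n + 2)) ≤ (RR x n * RR x n) ^ (1000 * (n + 2)) := by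
        gcongr
    _ = Real.exp (2000 * ((n : ℝ) + 2) * ell x (n + 1) ^ 3) := by
        rw [RR, ← Real.exp_add, ← Real.exp_nat_mul]; push_cast; ring_nf
    _ ≤ Gm x n := by
        rw [Gm]
        refine Real.exp_le_exp.2 ?_
        have e : ell x (n + 3) = ell x (n + 1) ^ 4 := by
          rw [show n + 3 = n + 1 + 2 by ring, ell_add]; norm_num
        have h1 := B.nat_le n
        have h2 := B.ell_gap n
        have h3 := B.ell_pos n
        have h4 : 2000 * ((n : ℝ) + 2) ≤ ell x (n + 1) / 100 := by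
          have := B.ell_ge n
          nlinarith
        have hp : 0 ≤ ell x (n + 1) ^ 3 := by have := B.ell_pos (n + 1); positivity
        rw [e]
        calc 2000 * ((n : ℝ) + 2) * ell x (n + 1) ^ 3
            ≤ ell x (n + 1) / 100 * ell x (n + 1) ^ 3 := by gcongr
          _ = ell x (n + 1) ^ 4 / 100 := by ring

/-- `(G_n 8 / c_n)^1000 ≤ R_{n+1}`. -/
theorem G_R (n : ℕ) : (GG x n * (8 / cc x n)) ^ 1000 ≤ RR x (n + 1) := by
  have h8 : (8 : ℝ) ≤ Real.exp (ell x (n + 3)) := by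
    have := Real.add_one_le_exp (ell x (n + 3))
    have := B.ell_ge (n + 3)
    linarith
  have h1 : GG x n * (8 / cc x n) ≤ Real.exp (132001 * ell x (n + 3)) := by
    rw [GG, cc, div_eq_mul_inv, ← Real.exp_neg]
    calc Real.exp (70000 * ell x (n + 3)) * (8 * Real.exp (- -(62000 * ell x (n + 3))))
        ≤ Real.exp (70000 * ell x (n + 3)) * (Real.exp (ell x (n + 3)) *
          Real.exp (- -(62000 * ell x (n + 3)))) := by gcongr
      _ = Real.exp (132001 * ell x (n + 3)) := by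
          rw [← Real.exp_add, ← Real.exp_add]; ring_nf
  have h0 : 0 ≤ GG x n * (8 / cc x n) := by
    have := B.cc_pos n
    have : 0 < GG x n := Real.exp_pos _
    positivity
  calc (GG x n * (8 / cc x n)) ^ 1000 ≤ (Real.exp (132001 * ell x (n + 3))) ^ 1000 := by gcongr
    _ = Real.exp (132001000 * ell x (n + 3)) := by
        rw [← Real.exp_nat_mul]; push_cast; ring_nf
    _ ≤ RR x (n + 1) := by
        rw [RR]
        refine Real.exp_le_exp.2 ?_
        have e : ell x (n + 3) = ell x (n + 2) ^ 2 := ell_succ x (n + 2)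
        have e2 : n + 1 + 1 = n + 2 := rfl
        rw [e, e2]
        have h3 := B.ell_ge (n + 2)
        have hp : 0 ≤ ell x (n + 2) ^ 2 := by positivity
        calc 132001000 * ell x (n + 2) ^ 2 ≤ ell x (n + 2) * ell x (n + 2) ^ 2 := by
              have : (132001000 : ℝ) ≤ ell x (n + 2) := by linarith
              gcongr
          _ = ell x (n + 2) ^ 3 := by ring

/-- (A6): `2 β T ≤ g_n` for the coarse constant `β ≤ Gm_{n-2}^4` (`n ≥ 2`). -/
theorem beta_g (n : ℕ) : 1000 * Gm x n ^ 4 ≤ gg x (n + 2) := by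
  refine (B.Gm_le_L n).trans ?_
  rw [gg]
  have h2 := B.Lr_ge (n + 2)
  have h3 := Lr_pos x (n + 3)
  have : (1 : ℝ) ≤ Lr x (n + 2) := le_trans (by norm_num) h2
  have e : n + 2 + 1 = n + 3 := rfl
  rw [e]
  nlinarith

/-- (A6): `2 β (3 th_n) ≤ 1` for the coarse constant `β ≤ Gm_{n-2}^4`, and much more
(`β ≤ Gm_{n-1}^4` would do). -/
theorem beta_th {n : ℕ} {c κ : ℝ} (hc : cn x (n + 1) / 2 ≤ c) (hκ : 1 / 2 ≤ κ) :
    1000 * Gm x n ^ 4 * thv x (n + 1) c κ ≤ 1 := by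
  have h1 := B.Gm_le_L n
  have h2 := B.thv_le hc hκ
  have h3 : Lr x (n + 3) ≤ hh x (n + 1) := by
    rw [Lr, hh]
    refine Real.exp_le_exp.2 ?_
    have := B.ell_pos (n + 3)
    have e : n + 1 + 2 = n + 3 := rfl
    rw [e]; linarith
  have hh1 : 1 ≤ hh x (n + 1) := Real.one_le_exp (by have := B.ell_pos (n + 1 + 2); linarith)
  have hp := hh_pos x (n + 1)
  calc 1000 * Gm x n ^ 4 * thv x (n + 1) c κ ≤ hh x (n + 1) * (hh x (n + 1) ^ 11)⁻¹ := by
        have : 0 ≤ thv x (n + 1) c κ := Real.sqrt_nonneg _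
        gcongr
        exact h1.trans h3
    _ ≤ 1 := by
        rw [mul_inv_le_iff₀ (by positivity), one_mul]
        exact le_self_pow₀ hh1 (by norm_num)

end Big

end Pool.Agent.Work.MP_b0497c_an.Unf.P
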