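import Pool.Agent.Work.MP_b0497c_an.Unf.A1b
import Pool.Agent.Work.MP_b0497c_an.Unf.P3

set_option autoImplicit false
set_option linter.unusedSectionVars false

/-!
# Block A, item A1: the numerical conditions of the step from block P
-/

open scoped ENNReal
open Set MeasureTheory Filter

namespace Pool.Agent.Work.MP_b0497c_an.Unf.A

open W S P

/-- The two facts about the sequences `N_j`, `u_j` of block P, at one `x`. -/
structure PU (x : ℝ) : Prop where
  one : 1 ≤ x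
  nn : ∀ N : ℕ → ℝ, NN x N → (∀ j, 1 ≤ N j) ∧ (∀ j, 4 * N j ≤ N (j + 1)) ∧
    (∀ j, N j / N (j + 1) ≤ Real.exp (-(Lr x (j + 1)) / 2))
  mu : ∀ N : ℕ → ℝ, NN x N → ∀ n j, 1 ≤ j → N (j - 1) / N j ≤ uu x n j ^ 512
  st : ∀ n j, j ≤ n → uu x n (j + 1) ≤ uu x n j ^ 16
  sm : ∀ n, GG x n ^ 400 * uu x n (P.mm n + 1) ^ 4 ≤ 1

theorem ev_PU : ∀ᶠ x in atTop, PU x := by
  filter_upwards [ev_NN, ev_u, eventually_ge_atTop 1] with x h1 h2 h3
  exact ⟨h3, h1, h2.1, h2.2.1, h2.2.2⟩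

/-- Sizes of the wave vectors up to level `n`. -/
structure KSize (x : ℝ) (K : ℕ → Fin 3 → ℤ) (n : ℕ) : Prop where
  zero : ‖kv (K 0)‖ = Real.sqrt 14
  low : ∀ j, 1 ≤ j → j ≤ n → Real.exp (Lr x j) / 2 ≤ ‖kv (K j)‖
  upp : ∀ j, 1 ≤ j → j ≤ n → ‖kv (K j)‖ ≤ 2 * Real.exp (Lr x j)

theorem KSize.nn {x : ℝ} {K : ℕ → Fin 3 → ℤ} {n : ℕ} (h : KSize x K n) :
    NN x (fun j => if j ≤ n then ‖kv (K j)‖ else Real.exp (Lr x j)) where
  zero := by simp [h.zero]
  low := fun j hj => by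
    have := Real.exp_pos (Lr x j)
    split_ifs with h1
    · exact h.low j hj h1
    · linarith
  upp := fun j hj => by
    have := Real.exp_pos (Lr x j)
    split_ifs with h1
    · exact h.upp j hj h1
    · linarith

theorem Gm_mono {c₀ x : ℝ} (B : Big c₀ x) {l n : ℕ} (h : l ≤ n) : Gm x l ≤ Gm x n := by
  unfold Gm
  refine Real.exp_le_exp.2 ?_
  have := ell_mono B.one_le (show l + 3 ≤ n + 3 by omega)
  linarith

/-- The bound of the projectors of level `l`: absolute for `l = 0`. -/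
noncomputable def XX (x X0 : ℝ) (l : ℕ) : ℝ := if l = 0 then X0 else Gm x l

/-- The constant `β` of the step `n → n + 1`: absolute while the coarse level is `0`. -/
noncomputable def bet (x X0 : ℝ) (n : ℕ) : ℝ := if n ≤ 2 then X0 ^ 3 else Gm x (n - 2) ^ 3

theorem C_le_Gm {c₀ x : ℝ} (B : Big c₀ x) (n : ℕ) : c₀ ≤ Gm x n := by
  have h1 := B.nat 0
  have h2 : ell x 0 ≤ ell x (n + 3) := ell_mono B.one_le (by omega)
  have h3 := Real.add_one_le_exp (ell x (n + 3) / 100)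
  have h4 := B.C_one
  unfold Gm
  norm_num at h1
  linarith

theorem XX_le_Gm {c₀ x X0 : ℝ} (B : Big c₀ x) (h1 : 1 ≤ X0) (h0 : X0 ^ 3 ≤ c₀) (l : ℕ) :
    XX x X0 l ≤ Gm x l := by
  unfold XX
  split_ifs with h
  · exact ((le_self_pow₀ h1 (by norm_num)).trans h0).trans (C_le_Gm B l)
  · exact le_rfl

theorem parStep {C : Chain} {n : ℕ} {c₀ x X0 : ℝ} (B : Big c₀ x) (hU : PU x) (h1X : 1 ≤ X0)
    (hX0 : (10 ^ 6 * C.R 0) ^ 2000 ≤ X0) (hXc : X0 ^ 3 ≤ c₀)
    (hR : ∀ l, 1 ≤ l → l ≤ n → C.R l = RR x l) (hK : KSize x C.K (n + 1)) :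
    ParStep C n (cc x n) (GG x n) (bet x X0 n) (uu x n) (XX x X0) := by
  obtain ⟨h1, h2, -⟩ := hU.nn _ hK.nn
  have h3 := hU.mu _ hK.nn n
  have hc := B.cc_pos n
  have hG100 : ∀ l, (10:ℝ) ^ 100 ≤ Gm x l := fun l => B.Gm_ge l
  have hG1 : ∀ l, 1 ≤ Gm x l := fun l => le_trans (by norm_num) (hG100 l)
  have hGm : ∀ k : ℕ, k ≤ 1000 → Gm x n ^ k ≤ GG x n := fun k hk =>
    (pow_le_pow_right₀ (hG1 n) hk).trans (B.Gm_GG n)
  have hGm1 : Gm x n ≤ GG x n := by simpa using hGm 1 (by norm_num)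
  have hcG := B.G_cc n
  have hc1 := B.cc_le_one n
  have hGG0 : 0 < GG x n := Real.exp_pos _
  have hXG := XX_le_Gm B h1X hXc
  have hX1 : ∀ l, 1 ≤ XX x X0 l := fun l => by
    unfold XX; split_ifs
    · exact h1X
    · exact hG1 l
  refine
    { c_pos := hc
      c_le := hc1
      β_one := ?_
      β_le := ?_
      G_two := ?_
      c_G := le_trans (by norm_num) hcG
      u_pos := uu_pos x n
      u_lt := uu_lt x n
      N_pos := ?_
      N_sep := ?_
      mu_le := ?_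
      u_step := hU.st n
      small := hU.sm n
      X_ge := ?_
      X_G := fun l hl => ((hXG l).trans (Gm_mono B hl)).trans hGm1
      X_c := ?_
      X_β := ?_ }
  · unfold bet; split_ifs
    · exact one_le_pow₀ h1X
    · exact one_le_pow₀ (hG1 _)
  · unfold bet; split_ifs
    · exact (hXc.trans (C_le_Gm B n)).trans hGm1
    · exact (pow_le_pow_left₀ (by linarith [hG1 (n - 2)]) (Gm_mono B (Nat.sub_le n 2)) 3).trans
        (hGm 3 (by norm_num))
  · have := hG100 n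
    linarith [show (2:ℝ) ≤ 10 ^ 100 by norm_num]
  · intro j hj
    have := h1 j
    simpa [hj] using this
  · intro j hj
    have := h2 j
    simpa [show j ≤ n + 1 by omega, show j + 1 ≤ n + 1 by omega] using this
  · intro j hj1 hj2
    have := h3 j hj1
    simpa [hj2, show j ≤ n + 1 + 1 by omega, show j - 1 ≤ n + 1 by omega] using this
  · intro l hl
    unfold XX
    split_ifs with h0
    · subst h0
      exact hX0
    · rw [hR l (by omega) hl]
      exact B.master l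
  · intro l hl
    have h5 := B.Gm_cc n
    have h6 : XX x X0 l ≤ Gm x n ^ 1000 :=
      ((hXG l).trans (Gm_mono B hl)).trans (le_self_pow₀ (hG1 n) (by norm_num))
    rw [le_div_iff₀ (by linarith [hX1 l])]
    calc cc x n * XX x X0 l ≤ cc x n * Gm x n ^ 1000 := by gcongr
      _ = Gm x n ^ 1000 * cc x n := mul_comm _ _
      _ ≤ 1 := h5
  · unfold bet XX
    by_cases h : n ≤ 2
    · rw [if_pos h, if_pos (by omega)]
    · rw [if_neg h, if_neg (by omega)]

/-- **A1.** The hypotheses of the step theorem. -/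
theorem hyp_stage {C : Chain} {n : ℕ} {c₀ x X0 : ℝ} (B : Big c₀ x) (hU : PU x) (h1X : 1 ≤ X0)
    (hX0 : (10 ^ 6 * C.R 0) ^ 2000 ≤ X0) (hXc : X0 ^ 3 ≤ c₀)
    (hR : ∀ l, 1 ≤ l → l ≤ n → C.R l = RR x l) (hK : KSize x C.K (n + 1))
    (hA : Chain.An C n (uOld x)) (hT0 : 0 < C.τ (n + 1)) (hTn : C.τ (n + 1) ≤ C.τ n)
    (hN : New C.K (C.τ (n + 1)) (cc x n) (GG x n) (C.α (n + 1)) (n + 1) (C.Fi n) (C.M n)
      (C.s (n + 1)) (C.Φ (n + 1)))
    (hW : Wgt C n (GG x n) (bet x X0 n)) :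
    (C.dat n (cc x n) (GG x n) (bet x X0 n) (uu x n)).Hyp :=
  hyp_dat (hA.congr_u fun j hj => by rw [uu, if_neg (by omega)]) hT0 hTn
    (parStep B hU h1X hX0 hXc hR hK) hN hW

end Pool.Agent.Work.MP_b0497c_an.Unf.A
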