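import Pool.Agent.Work.MP_b0497c_an.Unf.SStmts3
import Pool.Agent.Work.MP_b0497c_an.Bd.B05
import Pool.Agent.Work.MP_b0497c_an.Bd.B26

set_option autoImplicit false
set_option linter.dupNamespace false

/-!
# The seeds

`env A n = ∏_{i<n} ((1 + cos θ_i) / 2) ^ A` (coefficients), `wsh A n V = V sin θ_n · env A n`,
`seed K A n V` = its divergence free part.
-/

open scoped ENNReal
open Set MeasureTheory Filter

namespace Pool.Agent.Work.MP_b0497c_an.Unf.A

open W S

/-! ### Elementary facts on modes -/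

/-- The mode of the phase `θ_i`. -/
noncomputable def em (i : ℕ) : Md := Finsupp.single i 1

theorem len_em (i : ℕ) : len (em i) = 1 := by
  show (Finsupp.single i (1 : ℤ)).sum (fun _ z => |(z : ℝ)|) = 1
  rw [Finsupp.sum_single_index (by simp)]
  simp

section shift

variable {E : Type} [NormedAddCommGroup E]

theorem sN_shift (c : ℝ) (hc : 0 ≤ c) (s : Md) (f : Md → E) :
    sN c (fun m => f (m - s)) ≤ ENNReal.ofReal (Real.exp (c * len s)) * sN c f := by
  unfold sN
  rw [← ENNReal.tsum_mul_left]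
  rw [← (Equiv.subRight s).tsum_eq (fun m : Md => ENNReal.ofReal (Real.exp (c * len s)) *
    (ENNReal.ofReal (Real.exp (c * len m)) * ‖f m‖ₑ))]
  refine ENNReal.tsum_le_tsum fun m => ?_
  simp only [Equiv.subRight_apply]
  rw [← mul_assoc, ← ENNReal.ofReal_mul (Real.exp_pos _).le, ← Real.exp_add]
  gcongr
  have h := len_add (m - s) s
  rw [sub_add_cancel] at h
  nlinarith

theorem sN_shift' (c : ℝ) (hc : 0 ≤ c) (s : Md) (f : Md → E) :
    sN c (fun m => f (m + s)) ≤ ENNReal.ofReal (Real.exp (c * len s)) * sN c f := by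
  have h := sN_shift c hc (-s) f
  simp only [sub_neg_eq_add, len_neg] at h
  exact h

theorem sN_add_le (c : ℝ) (f g : Md → E) : sN c (fun m => f m + g m) ≤ sN c f + sN c g := by
  unfold sN
  rw [← ENNReal.tsum_add]
  refine ENNReal.tsum_le_tsum fun m => ?_
  rw [← mul_add]
  gcongr
  exact enorm_add_le _ _

theorem sN_const_mul (c : ℝ) (a : ℝ≥0∞) {F : Type} [NormedAddCommGroup F] (f : Md → E)
    (g : Md → F) (h : ∀ m, ‖g m‖ₑ ≤ a * ‖f m‖ₑ) : sN c g ≤ a * sN c f := by
  unfold sN
  rw [← ENNReal.tsum_mul_left]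
  refine ENNReal.tsum_le_tsum fun m => ?_
  calc ENNReal.ofReal (Real.exp (c * len m)) * ‖g m‖ₑ
      ≤ ENNReal.ofReal (Real.exp (c * len m)) * (a * ‖f m‖ₑ) := by gcongr; exact h m
    _ = a * (ENNReal.ofReal (Real.exp (c * len m)) * ‖f m‖ₑ) := by ring

theorem summable_of_sN {c : ℝ} (hc : 0 ≤ c) {f : Md → E} (hf : sN c f ≠ ∞) :
    Summable fun q => ‖f q‖ := by
  have h1 : ∑' m, ‖f m‖ₑ ≤ sN c f := by
    unfold sN
    refine ENNReal.tsum_le_tsum fun m => ?_
    have h2 : (1 : ℝ≥0∞) ≤ ENNReal.ofReal (Real.exp (c * len m)) := by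
      rw [ENNReal.one_le_ofReal]
      exact Real.one_le_exp (mul_nonneg hc (len_nonneg m))
    calc ‖f m‖ₑ = 1 * ‖f m‖ₑ := (one_mul _).symm
      _ ≤ _ := by gcongr
  have h3 : ∑' m, ‖f m‖ₑ ≠ ∞ := ne_top_of_le_ne_top hf h1
  have h4 := ENNReal.summable_toReal h3
  simpa using h4

theorem tsum_norm_le_sN {c : ℝ} (hc : 0 ≤ c) {f : Md → E} {b : ℝ} (hb : 0 ≤ b)
    (hf : sN c f ≤ ENNReal.ofReal b) : ∑' q, ‖f q‖ ≤ b := by
  have h0 : sN c f ≠ ∞ := ne_top_of_le_ne_top ENNReal.ofReal_ne_top hf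
  have hs := summable_of_sN hc h0
  have h1 : ∑' m, ‖f m‖ₑ ≤ sN c f := by
    unfold sN
    refine ENNReal.tsum_le_tsum fun m => ?_
    have h2 : (1 : ℝ≥0∞) ≤ ENNReal.ofReal (Real.exp (c * len m)) := by
      rw [ENNReal.one_le_ofReal]
      exact Real.one_le_exp (mul_nonneg hc (len_nonneg m))
    calc ‖f m‖ₑ = 1 * ‖f m‖ₑ := (one_mul _).symm
      _ ≤ _ := by gcongr
  have h3 : ENNReal.ofReal (∑' q, ‖f q‖) ≤ ENNReal.ofReal b := by
    rw [ENNReal.ofReal_tsum_of_nonneg (fun _ => norm_nonneg _) hs]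
    refine le_trans (le_of_eq ?_) (h1.trans hf)
    congr 1
    funext m
    exact ofReal_norm _
  exact (ENNReal.ofReal_le_ofReal_iff hb).1 h3

end shift

/-! ### The envelope -/

/-- Multiplication by `(1 + cos θ_i) / 2`. -/
noncomputable def stp (i : ℕ) (f : Md → ℂ) (m : Md) : ℂ :=
  (1 / 2 : ℂ) * f m + ((1 / 4 : ℂ) * f (m - em i) + (1 / 4 : ℂ) * f (m + em i))

/-- The coefficients of `∏_{i<n} ((1 + cos θ_i) / 2) ^ A`. -/
noncomputable def env (A : ℕ) : ℕ → (Md → ℂ)
  | 0 => fun q => if q = 0 then 1 else 0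
  | n + 1 => (stp n)^[A] (env A n)

/-- The value of the envelope at the real label `θ`. -/
noncomputable def envR (A n : ℕ) (θ : Md →+ ℝ) : ℝ :=
  ∏ i ∈ Finset.range n, ((1 + Real.cos (θ (em i))) / 2) ^ A

theorem envR_nonneg (A n : ℕ) (θ : Md →+ ℝ) : 0 ≤ envR A n θ := by
  refine Finset.prod_nonneg fun i _ => pow_nonneg ?_ _
  have := Real.neg_one_le_cos (θ (em i))
  linarith

theorem envR_le_one (A n : ℕ) (θ : Md →+ ℝ) : envR A n θ ≤ 1 := by
  refine Finset.prod_le_one (fun i _ => pow_nonneg ?_ _) fun i _ => pow_le_one₀ ?_ ?_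
  · have := Real.neg_one_le_cos (θ (em i)); linarith
  · have := Real.neg_one_le_cos (θ (em i)); linarith
  · have := Real.cos_le_one (θ (em i)); linarith

/-- The factors are at least the product. -/
theorem envR_le_factor (A n : ℕ) (θ : Md →+ ℝ) {i : ℕ} (hi : i < n) :
    envR A n θ ≤ ((1 + Real.cos (θ (em i))) / 2) ^ A := by
  classical
  unfold envR
  rw [← Finset.mul_prod_erase _ _ (Finset.mem_range.2 hi)]
  have h0 : ∀ j, 0 ≤ ((1 + Real.cos (θ (em j))) / 2) := fun j => by
    have := Real.neg_one_le_cos (θ (em j)); linarith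
  have h1 : ∏ j ∈ (Finset.range n).erase i, ((1 + Real.cos (θ (em j))) / 2) ^ A ≤ 1 :=
    Finset.prod_le_one (fun j _ => pow_nonneg (h0 j) _) fun j _ =>
      pow_le_one₀ (h0 j) (by have := Real.cos_le_one (θ (em j)); linarith)
  calc _ ≤ ((1 + Real.cos (θ (em i))) / 2) ^ A * 1 :=
        mul_le_mul_of_nonneg_left h1 (pow_nonneg (h0 i) _)
    _ = _ := mul_one _

/-- Induction principle for the envelope. -/
theorem env_induction {P : (Md → ℂ) → Prop} {A n : ℕ} (h0 : P (fun q => if q = 0 then 1 else 0))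
    (h : ∀ i < n, ∀ f, P f → P (stp i f)) : P (env A n) := by
  induction n with
  | zero => exact h0
  | succ n ih =>
    have h1 : P (env A n) := ih fun i hi => h i (by omega)
    show P ((stp n)^[A] (env A n))
    have h2 : ∀ k : ℕ, P ((stp n)^[k] (env A n)) := by
      intro k
      induction k with
      | zero => exact h1
      | succ k ih' =>
        rw [Function.iterate_succ_apply']
        exact h n (by omega) _ ih'
    exact h2 A

theorem env_supp (A n : ℕ) (q : Md) (h : env A n q ≠ 0) : ∀ i, n ≤ i → q i = 0 := by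
  revert q
  refine env_induction (P := fun f => ∀ q : Md, f q ≠ 0 → ∀ i, n ≤ i → q i = 0) ?_ ?_
  · intro q hq i _
    by_contra h
    apply hq
    show (if q = 0 then (1 : ℂ) else 0) = 0
    rw [if_neg]
    rintro rfl
    exact h rfl
  · intro j hj f hf q hq i hi
    have hei : ∀ z : ℤ, (Finsupp.single j z : Md) i = 0 := fun z =>
      Finsupp.single_eq_of_ne (by omega)
    by_contra hne
    apply hq
    unfold stp
    have h1 : f q = 0 := by by_contra h; exact hne (hf q h i hi)
    have h2 : f (q - em j) = 0 := by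
      by_contra h
      have := hf _ h i hi
      rw [Finsupp.sub_apply, em, hei, sub_zero] at this
      exact hne this
    have h3 : f (q + em j) = 0 := by
      by_contra h
      have := hf _ h i hi
      rw [Finsupp.add_apply, em, hei, add_zero] at this
      exact hne this
    rw [h1, h2, h3]
    simp

theorem env_lev (A n : ℕ) : SuppIn (lev n : Set Md) (env A (n + 1)) := by
  intro q hq
  by_contra h
  exact hq fun i hi => env_supp A (n + 1) q h i (by omega)

theorem env_even (A n : ℕ) (q : Md) : env A n (-q) = env A n q := by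
  revert q
  refine env_induction (P := fun f => ∀ q : Md, f (-q) = f q) ?_ ?_
  · intro q
    simp
  · intro j _ f hf q
    unfold stp
    have h1 : f (-q - em j) = f (q + em j) := by rw [← hf (q + em j)]; congr 1; abel
    have h2 : f (-q + em j) = f (q - em j) := by rw [← hf (q - em j)]; congr 1; abel
    rw [hf, h1, h2]
    ring

theorem env_real (A n : ℕ) (q : Md) : (starRingEnd ℂ) (env A n q) = env A n q := by
  revert q
  refine env_induction (P := fun f => ∀ q : Md, (starRingEnd ℂ) (f q) = f q) ?_ ?_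
  · intro q
    show (starRingEnd ℂ) (if q = 0 then (1 : ℂ) else 0) = if q = 0 then (1 : ℂ) else 0
    split_ifs <;> simp
  · intro j _ f hf q
    have c2 : (starRingEnd ℂ) (1 / 2 : ℂ) = 1 / 2 := Complex.conj_eq_iff_im.2 (by norm_num)
    have c4 : (starRingEnd ℂ) (1 / 4 : ℂ) = 1 / 4 := Complex.conj_eq_iff_im.2 (by norm_num)
    unfold stp
    simp only [map_add, map_mul, hf, c2, c4]

theorem sN_stp {c : ℝ} (hc : 0 ≤ c) (i : ℕ) (f : Md → ℂ) :
    sN c (stp i f) ≤ ENNReal.ofReal ((1 + Real.exp c) / 2) * sN c f := by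
  have h1 : sN c (fun m => (1 / 2 : ℂ) * f m) ≤ ENNReal.ofReal (1 / 2) * sN c f :=
    sN_const_mul c _ f _ fun m => by
      rw [enorm_mul]
      refine mul_le_mul' (le_of_eq ?_) le_rfl
      rw [← ofReal_norm]
      congr 1
      norm_num
  have h2 : sN c (fun m => (1 / 4 : ℂ) * f (m - em i)) ≤
      ENNReal.ofReal (1 / 4) * (ENNReal.ofReal (Real.exp c) * sN c f) := by
    refine (sN_const_mul c (ENNReal.ofReal (1 / 4)) (fun m => f (m - em i)) _ fun m => ?_).trans ?_
    · rw [enorm_mul]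
      refine mul_le_mul' (le_of_eq ?_) le_rfl
      rw [← ofReal_norm]
      congr 1
      norm_num
    · gcongr
      have := sN_shift c hc (em i) f
      rwa [len_em, mul_one] at this
  have h3 : sN c (fun m => (1 / 4 : ℂ) * f (m + em i)) ≤
      ENNReal.ofReal (1 / 4) * (ENNReal.ofReal (Real.exp c) * sN c f) := by
    refine (sN_const_mul c (ENNReal.ofReal (1 / 4)) (fun m => f (m + em i)) _ fun m => ?_).trans ?_
    · rw [enorm_mul]
      refine mul_le_mul' (le_of_eq ?_) le_rfl
      rw [← ofReal_norm]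
      congr 1
      norm_num
    · gcongr
      have := sN_shift' c hc (em i) f
      rwa [len_em, mul_one] at this
  have h4 : sN c (stp i f) ≤ ENNReal.ofReal (1 / 2) * sN c f +
      (ENNReal.ofReal (1 / 4) * (ENNReal.ofReal (Real.exp c) * sN c f) +
        ENNReal.ofReal (1 / 4) * (ENNReal.ofReal (Real.exp c) * sN c f)) := by
    refine (sN_add_le c _ _).trans (add_le_add h1 ?_)
    exact (sN_add_le c _ _).trans (add_le_add h2 h3)
  refine h4.trans (le_of_eq ?_)
  rw [← mul_assoc, ← ENNReal.ofReal_mul (by norm_num), ← add_mul, ← add_mul,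
    ← ENNReal.ofReal_add (by positivity) (by positivity),
    ← ENNReal.ofReal_add (by positivity) (by positivity)]
  congr 2
  ring

theorem sN_env {c : ℝ} (hc : 0 ≤ c) (A n : ℕ) :
    sN c (env A n) ≤ ENNReal.ofReal (((1 + Real.exp c) / 2) ^ (A * n)) := by
  have hx : 0 ≤ (1 + Real.exp c) / 2 := by positivity
  induction n with
  | zero =>
    have h : sN c (env A 0) = 1 := by
      unfold sN
      rw [tsum_eq_single (0 : Md)]
      · simp [env, len_zero]
      · intro q hq
        simp [env, hq]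
    rw [h]
    simp
  | succ n ih =>
    show sN c ((stp n)^[A] (env A n)) ≤ _
    have h2 : ∀ k : ℕ, sN c ((stp n)^[k] (env A n)) ≤
        ENNReal.ofReal (((1 + Real.exp c) / 2) ^ (A * n + k)) := by
      intro k
      induction k with
      | zero => exact ih
      | succ k ih' =>
        rw [Function.iterate_succ_apply']
        refine (sN_stp hc n _).trans ?_
        calc ENNReal.ofReal ((1 + Real.exp c) / 2) * sN c ((stp n)^[k] (env A n))
            ≤ ENNReal.ofReal ((1 + Real.exp c) / 2) *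
              ENNReal.ofReal (((1 + Real.exp c) / 2) ^ (A * n + k)) := by gcongr
          _ = _ := by
            rw [← ENNReal.ofReal_mul hx]
            congr 1
            rw [← pow_succ']
            rfl
    exact h2 A

theorem sN_env_fin {c : ℝ} (hc : 0 ≤ c) (A n : ℕ) : sN c (env A n) ≠ ∞ :=
  ne_top_of_le_ne_top ENNReal.ofReal_ne_top (sN_env hc A n)

theorem summable_env (A n : ℕ) : Summable fun q => ‖env A n q‖ :=
  summable_of_sN le_rfl (sN_env_fin le_rfl A n)

section evshift

variable {E : Type} [NormedAddCommGroup E] [NormedSpace ℂ E]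

theorem ev_shift (θ : Md →+ ℝ) (s : Md) (f : Md → E) :
    ev θ (fun m => f (m - s)) = ch θ s • ev θ f := by
  unfold ev
  rw [← (Equiv.subRight s).tsum_eq (fun m : Md => ch θ m • f m), ← tsum_const_smul'']
  congr 1
  funext m
  simp only [Equiv.subRight_apply]
  rw [smul_smul, ← ch_add]
  congr 2
  abel

theorem ev_shift' (θ : Md →+ ℝ) (s : Md) (f : Md → E) :
    ev θ (fun m => f (m + s)) = (starRingEnd ℂ) (ch θ s) • ev θ f := by
  have h := ev_shift θ (-s) f
  simp only [sub_neg_eq_add, ch_neg] at h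
  exact h

end evshift

theorem ch_add_conj (θ : Md →+ ℝ) (s : Md) :
    ch θ s + (starRingEnd ℂ) (ch θ s) = 2 * (Real.cos (θ s) : ℂ) := by
  rw [← ch_neg, ch, ch, map_neg]
  push_cast
  rw [Complex.cos, mul_neg, mul_comm Complex.I, ← neg_mul]
  ring

theorem ch_sub_conj (θ : Md →+ ℝ) (s : Md) :
    ch θ s - (starRingEnd ℂ) (ch θ s) = 2 * Complex.I * (Real.sin (θ s) : ℂ) := by
  rw [← ch_neg, ch, ch, map_neg]
  push_cast
  rw [Complex.sin, mul_neg, mul_comm Complex.I, ← neg_mul]
  linear_combination (Complex.exp ((θ s : ℂ) * Complex.I) -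
    Complex.exp (-((θ s : ℂ)) * Complex.I)) * Complex.I_mul_I

theorem ev_stp (θ : Md →+ ℝ) (i : ℕ) {f : Md → ℂ} (hf : Summable fun q => ‖f q‖) :
    ev θ (stp i f) = (((1 + Real.cos (θ (em i))) / 2 : ℝ) : ℂ) * ev θ f := by
  have hs1 : Summable fun q => ‖(1 / 2 : ℂ) * f q‖ := by
    simp only [norm_mul]; exact hf.mul_left _
  have hs2 : Summable fun q => ‖(1 / 4 : ℂ) * f (q - em i)‖ := by
    simp only [norm_mul]
    exact ((Equiv.subRight (em i)).summable_iff.2 hf).mul_left _
  have hs3 : Summable fun q => ‖(1 / 4 : ℂ) * f (q + em i)‖ := by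
    simp only [norm_mul]
    exact ((Equiv.addRight (em i)).summable_iff.2 hf).mul_left _
  have hc : ∀ (a : ℂ) (g : Md → ℂ), ev θ (fun q => a * g q) = a * ev θ g := by
    intro a g
    unfold ev
    rw [← tsum_mul_left]
    congr 1
    funext q
    simp only [smul_eq_mul]
    ring
  have e1 : ev θ (stp i f) = ev θ (fun q => (1 / 2 : ℂ) * f q) +
      (ev θ (fun q => (1 / 4 : ℂ) * f (q - em i)) + ev θ (fun q => (1 / 4 : ℂ) * f (q + em i))) := by
    have h23 : Summable fun q => ‖((fun q => (1 / 4 : ℂ) * f (q - em i)) +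
        (fun q => (1 / 4 : ℂ) * f (q + em i))) q‖ :=
      Summable.of_nonneg_of_le (fun _ => norm_nonneg _) (fun q => norm_add_le _ _) (hs2.add hs3)
    rw [← ev_add θ hs2 hs3, ← ev_add θ hs1 h23]
    rfl
  rw [e1, hc, hc, hc, ev_shift θ (em i) f, ev_shift' θ (em i) f, smul_eq_mul, smul_eq_mul]
  have h := ch_add_conj θ (em i)
  push_cast at h ⊢
  linear_combination (1 / 4 : ℂ) * (ev θ f) * h

theorem ev_env (θ : Md →+ ℝ) (A n : ℕ) : ev θ (env A n) = (envR A n θ : ℂ) := by
  induction n with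
  | zero =>
    show ev θ (fun q => if q = 0 then (1 : ℂ) else 0) = _
    unfold ev
    rw [tsum_eq_single (0 : Md)]
    · simp [envR, ch_zero]
    · intro q hq
      simp [hq]
  | succ n ih =>
    show ev θ ((stp n)^[A] (env A n)) = _
    have h2 : ∀ k : ℕ, ev θ ((stp n)^[k] (env A n)) =
        ((((1 + Real.cos (θ (em n))) / 2) ^ k * envR A n θ : ℝ) : ℂ) := by
      intro k
      induction k with
      | zero => simpa using ih
      | succ k ih' =>
        have hs : Summable fun q => ‖(stp n)^[k] (env A n) q‖ := by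
          have h3 : ∀ k : ℕ, sN 0 ((stp n)^[k] (env A n)) ≠ ∞ := by
            intro k
            induction k with
            | zero => exact sN_env_fin le_rfl A n
            | succ k ih'' =>
              rw [Function.iterate_succ_apply']
              exact ne_top_of_le_ne_top (ENNReal.mul_ne_top ENNReal.ofReal_ne_top ih'')
                (sN_stp le_rfl n _)
          exact summable_of_sN le_rfl (h3 k)
        rw [Function.iterate_succ_apply', ev_stp θ n hs, ih']
        push_cast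
        ring
    rw [h2 A, envR, envR, Finset.prod_range_succ]
    push_cast
    ring

/-! ### The wave -/

/-- `V sin θ_n · env A n`. -/
noncomputable def wsh (A n : ℕ) (V : C3) (q : Md) : C3 :=
  (-(Complex.I / 2) * (env A n (q - em n) - env A n (q + em n))) • V

/-- The divergence free part of `V sin θ_n · env A n`. -/
noncomputable def seed (K : ℕ → Fin 3 → ℤ) (A n : ℕ) (V : C3) (q : Md) : C3 :=
  wsh A n V q - pr (xi K q) (wsh A n V q)

theorem wsh_supp (A n : ℕ) (V : C3) : SuppIn (Cl n) (wsh A n V) := by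
  intro q hq
  have key : ∀ z : ℤ, z ≠ 0 → env A n (q - Finsupp.single n z) ≠ 0 → q ∈ Cl n := by
    intro z hz h
    have h1 := env_supp A n _ h
    constructor
    · intro i hi
      have h2 := h1 i hi.le
      rwa [Finsupp.sub_apply, Finsupp.single_eq_of_ne (by omega), sub_zero] at h2
    · have h2 := h1 n le_rfl
      rw [Finsupp.sub_apply, Finsupp.single_eq_same, sub_eq_zero] at h2
      rw [h2]
      exact hz
  have h1 : env A n (q - em n) = 0 := by
    by_contra h
    exact hq (key 1 one_ne_zero h)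
  have h2 : env A n (q + em n) = 0 := by
    by_contra h
    refine hq (key (-1) (by norm_num) ?_)
    rwa [Finsupp.single_neg, sub_neg_eq_add]
  rw [wsh, h1, h2]
  simp

theorem wsh_odd (A n : ℕ) (V : C3) : OddF (wsh A n V) := by
  intro q
  have h1 : env A n (-q - em n) = env A n (q + em n) := by
    rw [← env_even A n (q + em n)]; congr 1; abel
  have h2 : env A n (-q + em n) = env A n (q - em n) := by
    rw [← env_even A n (q - em n)]; congr 1; abel
  rw [wsh, wsh, h1, h2, ← neg_smul]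
  congr 1
  ring

theorem cjv_smul (z : ℂ) (v : C3) : cjv (z • v) = (starRingEnd ℂ) z • cjv v := by
  ext i
  simp [cjv]

theorem cjv_sub (v w : C3) : cjv (v - w) = cjv v - cjv w := by
  ext i
  simp [cjv]

theorem wsh_real (A n : ℕ) {V : C3} (hV : cjv V = V) : RealV (wsh A n V) := by
  intro q
  rw [wsh_odd, wsh, cjv_smul, hV, ← neg_smul]
  congr 1
  have c2 : (starRingEnd ℂ) (-(Complex.I / 2)) = Complex.I / 2 := by
    rw [map_neg, map_div₀, Complex.conj_I, map_ofNat]
    ring
  rw [map_mul, map_sub, env_real, env_real, c2]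
  ring

theorem sN_wsh {c : ℝ} (hc : 0 ≤ c) (A n : ℕ) (V : C3) :
    sN c (wsh A n V) ≤
      ENNReal.ofReal (Real.exp c * ((1 + Real.exp c) / 2) ^ (A * n) * ‖V‖) := by
  have h1 : sN c (fun q => env A n (q - em n) - env A n (q + em n)) ≤
      ENNReal.ofReal (2 * Real.exp c * ((1 + Real.exp c) / 2) ^ (A * n)) := by
    have h2 := sN_shift c hc (em n) (env A n)
    have h3 := sN_shift' c hc (em n) (env A n)
    rw [len_em, mul_one] at h2 h3
    have h4 := sN_env hc A n
    have h5 : sN c (fun q => env A n (q - em n) - env A n (q + em n)) ≤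
        sN c (fun q => env A n (q - em n)) + sN c (fun q => env A n (q + em n)) := by
      have h6 := sN_add_le c (fun q => env A n (q - em n)) (fun q => -env A n (q + em n))
      have h7 : sN c (fun q => -env A n (q + em n)) = sN c (fun q => env A n (q + em n)) := by
        unfold sN
        simp only [enorm_neg]
      rw [h7] at h6
      simpa only [sub_eq_add_neg] using h6
    calc _ ≤ _ := h5
      _ ≤ ENNReal.ofReal (Real.exp c) * ENNReal.ofReal (((1 + Real.exp c) / 2) ^ (A * n)) +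
          ENNReal.ofReal (Real.exp c) * ENNReal.ofReal (((1 + Real.exp c) / 2) ^ (A * n)) := by
        gcongr
        · exact h2.trans (by gcongr)
        · exact h3.trans (by gcongr)
      _ = _ := by
        rw [← ENNReal.ofReal_mul (Real.exp_pos _).le,
          ← ENNReal.ofReal_add (by positivity) (by positivity)]
        congr 1
        ring
  have h8 : sN c (wsh A n V) ≤ ENNReal.ofReal (1 / 2 * ‖V‖) *
      sN c (fun q => env A n (q - em n) - env A n (q + em n)) := by
    refine sN_const_mul c _ _ _ fun m => ?_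
    rw [wsh, enorm_smul, enorm_mul]
    have h9 : ‖(-(Complex.I / 2) : ℂ)‖ₑ = ENNReal.ofReal (1 / 2) := by
      rw [← ofReal_norm]
      congr 1
      simp
    rw [h9, ENNReal.ofReal_mul (by norm_num), ← ofReal_norm V]
    apply le_of_eq
    ring
  calc _ ≤ _ := h8
    _ ≤ ENNReal.ofReal (1 / 2 * ‖V‖) *
        ENNReal.ofReal (2 * Real.exp c * ((1 + Real.exp c) / 2) ^ (A * n)) := by gcongr
    _ = _ := by
      rw [← ENNReal.ofReal_mul (by positivity)]
      congr 1
      ring

theorem summable_wsh (A n : ℕ) (V : C3) : Summable fun q => ‖wsh A n V q‖ :=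
  summable_of_sN le_rfl (ne_top_of_le_ne_top ENNReal.ofReal_ne_top (sN_wsh le_rfl A n V))

theorem norm_sub_pr (v x : C3) : ‖x - pr v x‖ ≤ ‖x‖ := by
  rcases eq_or_ne v 0 with h | h
  · subst h
    simp [pr]
  · have hv : (‖v‖ : ℂ) ≠ 0 := by
      simpa using h
    have hin : inner ℂ (pr v x) (x - pr v x) = 0 := by
      have h1 : inner ℂ v (x - pr v x) = 0 := by
        rw [inner_sub_right, pr, smul_apply,
          ContinuousLinearMap.smulRight_apply, innerSL_apply_apply, inner_smul_right,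
          inner_smul_right, inner_self_eq_norm_sq_to_K]
        push_cast
        have : ((‖v‖ : ℂ) ^ 2)⁻¹ * (inner ℂ v x * (‖v‖ : ℂ) ^ 2) = inner ℂ v x := by
          field_simp
        erw [this]
        ring
      have h2 : pr v x = (((‖v‖ ^ 2 : ℝ)⁻¹ : ℂ) * inner ℂ v x) • v := by
        rw [pr, smul_apply, ContinuousLinearMap.smulRight_apply,
          innerSL_apply_apply, smul_smul]
      rw [h2, inner_smul_left, ← h2, h1, mul_zero]
    have h3 : ‖x‖ ^ 2 = ‖pr v x‖ ^ 2 + ‖x - pr v x‖ ^ 2 := by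
      have h4 := norm_add_sq (𝕜 := ℂ) (pr v x) (x - pr v x)
      rw [add_sub_cancel, hin] at h4
      simp only [map_zero, mul_zero, add_zero] at h4
      exact h4
    have h5 : ‖x - pr v x‖ ^ 2 ≤ ‖x‖ ^ 2 := by nlinarith [sq_nonneg ‖pr v x‖]
    exact le_of_sq_le_sq' h5 (norm_nonneg x)
where
  le_of_sq_le_sq' {a b : ℝ} (h : a ^ 2 ≤ b ^ 2) (hb : 0 ≤ b) : a ≤ b :=
    le_trans (le_abs_self a) (by rw [← abs_of_nonneg hb]; exact sq_le_sq.1 h)

theorem inner_sub_pr (v x : C3) : inner ℂ v (x - pr v x) = 0 := by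
  rcases eq_or_ne v 0 with h | h
  · subst h
    simp
  · have hv : (‖v‖ : ℂ) ≠ 0 := by
      simpa using h
    rw [inner_sub_right, pr, smul_apply,
      ContinuousLinearMap.smulRight_apply, innerSL_apply_apply, inner_smul_right,
      inner_smul_right, inner_self_eq_norm_sq_to_K]
    push_cast
    have : ((‖v‖ : ℂ) ^ 2)⁻¹ * (inner ℂ v x * (‖v‖ : ℂ) ^ 2) = inner ℂ v x := by
      field_simp
    erw [this]
    ring

variable (K : ℕ → Fin 3 → ℤ)

theorem seed_supp (A n : ℕ) (V : C3) : SuppIn (Cl n) (seed K A n V) := by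
  intro q hq
  rw [seed, wsh_supp A n V q hq]
  simp

theorem seed_div (A n : ℕ) (V : C3) (q : Md) : inner ℂ (xi K q) (seed K A n V q) = 0 :=
  inner_sub_pr _ _

theorem sN_seed {c : ℝ} (hc : 0 ≤ c) (A n : ℕ) (V : C3) :
    sN c (seed K A n V) ≤
      ENNReal.ofReal (Real.exp c * ((1 + Real.exp c) / 2) ^ (A * n) * ‖V‖) := by
  refine le_trans ?_ (sN_wsh hc A n V)
  unfold sN
  refine ENNReal.tsum_le_tsum fun m => ?_
  gcongr
  rw [← ofReal_norm, ← ofReal_norm]
  exact ENNReal.ofReal_le_ofReal (norm_sub_pr _ _)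

theorem pr_neg (v : C3) : pr (-v) = pr v := by
  ext1 x
  rw [pr, pr, norm_neg, smul_apply, smul_apply, ContinuousLinearMap.smulRight_apply,
    ContinuousLinearMap.smulRight_apply, innerSL_apply_apply, innerSL_apply_apply, inner_neg_left,
    neg_smul, smul_neg, smul_neg, smul_neg, neg_neg]

theorem pr_xi_neg (q : Md) : pr (xi K (-q)) = pr (xi K q) := by
  rw [IS01.xi_neg, pr_neg]

theorem cjv_pr {v : C3} (hv : cjv v = v) (x : C3) : cjv (pr v x) = pr v (cjv x) := by
  have h1 : ∀ y, pr v y = (((‖v‖ ^ 2 : ℝ)⁻¹ : ℂ) * inner ℂ v y) • v := by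
    intro y
    rw [pr, smul_apply, ContinuousLinearMap.smulRight_apply, innerSL_apply_apply, smul_smul]
  have hvi : ∀ i, (starRingEnd ℂ) (v i) = v i := fun i => by
    conv_rhs => rw [← hv]
    rfl
  have h2 : (starRingEnd ℂ) (inner ℂ v x) = inner ℂ v (cjv x) := by
    rw [PiLp.inner_apply, PiLp.inner_apply, map_sum]
    refine Finset.sum_congr rfl fun i _ => ?_
    simp only [RCLike.inner_apply, map_mul, Complex.conj_conj]
    rw [hvi]
    rfl
  rw [h1, h1, cjv_smul, hv, ← h2, map_mul]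
  congr 2
  rw [← Complex.ofReal_inv, Complex.conj_ofReal]

theorem cjv_xi (q : Md) : cjv (xi K q) = xi K q := ((s01 K).2.2.2.2.1 q).1

theorem seed_odd (A n : ℕ) (V : C3) : OddF (seed K A n V) := by
  intro q
  rw [seed, seed, pr_xi_neg, wsh_odd, map_neg]
  abel

theorem seed_real (A n : ℕ) {V : C3} (hV : cjv V = V) : RealV (seed K A n V) := by
  intro q
  rw [seed, seed, pr_xi_neg, cjv_sub, cjv_pr (cjv_xi K q), ← wsh_real A n hV]

/-- `len q * exp (c len q) ≤ (1/c) exp (2 c len q)`. -/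
theorem sN_len {E F : Type} [NormedAddCommGroup E] [NormedAddCommGroup F] {c : ℝ} (hc : 0 < c)
    {a : ℝ} (ha : 0 ≤ a) (f : Md → E) (g : Md → F) (h : ∀ q, ‖g q‖ ≤ a * len q * ‖f q‖) :
    sN c g ≤ ENNReal.ofReal (a / c) * sN (2 * c) f := by
  unfold sN
  rw [← ENNReal.tsum_mul_left]
  refine ENNReal.tsum_le_tsum fun m => ?_
  rw [← ofReal_norm (g m), ← ofReal_norm (f m), ← ENNReal.ofReal_mul (Real.exp_pos _).le,
    ← ENNReal.ofReal_mul (Real.exp_pos _).le, ← ENNReal.ofReal_mul (by positivity)]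
  apply ENNReal.ofReal_le_ofReal
  have h1 : c * len m ≤ Real.exp (c * len m) := by
    have := Real.add_one_le_exp (c * len m); linarith
  have h2 : Real.exp (2 * c * len m) = Real.exp (c * len m) * Real.exp (c * len m) := by
    rw [← Real.exp_add]; congr 1; ring
  calc Real.exp (c * len m) * ‖g m‖ ≤ Real.exp (c * len m) * (a * len m * ‖f m‖) := by
        gcongr; exact h m
    _ = a / c * (Real.exp (c * len m) * (c * len m) * ‖f m‖) := by field_simp
    _ ≤ a / c * (Real.exp (c * len m) * Real.exp (c * len m) * ‖f m‖) := by gcongr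
    _ = _ := by rw [h2]

variable {K}

/-- The wave lemma for the seed. -/
theorem pr_wsh {A n : ℕ} {V : C3} {B : ℝ} (hB : 0 ≤ B) (hK : ∀ i < n, ‖kv (K i)‖ ≤ B)
    (hn : 0 < ‖kv (K n)‖) (hV : inner ℂ (kv (K n)) V = 0) (q : Md) :
    ‖pr (xi K q) (wsh A n V q)‖ ≤ 2 * (B / ‖kv (K n)‖) * len q * ‖wsh A n V q‖ ∧
    ‖pr (xi K q) ((q n : ℂ) • wsh A n V q)‖ ≤
      2 * (B / ‖kv (K n)‖) * len q * ‖wsh A n V q‖ := by
  by_cases hq : q ∈ Cl n
  · refine s02 s01 K n B q _ hq hB hK hn ?_
    rw [wsh, inner_smul_right, hV, mul_zero]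
  · rw [wsh_supp A n V q hq]
    simp

theorem sN_K_seed {c : ℝ} (hc : 0 < c) {A n : ℕ} {V : C3} {B : ℝ} (hB : 0 ≤ B)
    (hK : ∀ i < n, ‖kv (K i)‖ ≤ B) (hn : 0 < ‖kv (K n)‖) (hV : inner ℂ (kv (K n)) V = 0) :
    sN c (fun q => innerSL ℂ (kv (K n)) (seed K A n V q)) ≤
      ENNReal.ofReal (2 * B / c * (Real.exp (2 * c) * ((1 + Real.exp (2 * c)) / 2) ^ (A * n) *
        ‖V‖)) := by
  have h1 : ∀ q, ‖innerSL ℂ (kv (K n)) (seed K A n V q)‖ ≤ 2 * B * len q * ‖wsh A n V q‖ := by
    intro q
    have h2 : innerSL ℂ (kv (K n)) (seed K A n V q) =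
        -inner ℂ (kv (K n)) (pr (xi K q) (wsh A n V q)) := by
      rw [innerSL_apply_apply, seed, inner_sub_right]
      conv_lhs => rw [wsh, inner_smul_right, hV, mul_zero, zero_sub]
      rfl
    rw [h2, norm_neg]
    calc _ ≤ ‖kv (K n)‖ * ‖pr (xi K q) (wsh A n V q)‖ := norm_inner_le_norm _ _
      _ ≤ ‖kv (K n)‖ * (2 * (B / ‖kv (K n)‖) * len q * ‖wsh A n V q‖) := by
        gcongr
        exact (pr_wsh hB hK hn hV q).1
      _ = _ := by field_simp
  refine (sN_len hc (by positivity) (wsh A n V) _ h1).trans ?_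
  rw [ENNReal.ofReal_mul (by positivity)]
  gcongr
  exact sN_wsh (by positivity) A n V

/-- The sheet (derivative in `θ_n`) of the seed: the coefficients. -/
noncomputable def dse (n : ℕ) (w : Md → C3) (q : Md) : C3 := (Complex.I * (q n : ℂ)) • w q

theorem dse_wsh (A n : ℕ) (V : C3) (q : Md) : dse n (wsh A n V) q =
    ((1 / 2 : ℂ) * env A n (q - em n) + (1 / 2 : ℂ) * env A n (q + em n)) • V := by
  have h1 : (q n : ℂ) * env A n (q - em n) = env A n (q - em n) := by
    by_cases h : env A n (q - em n) = 0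
    · rw [h, mul_zero]
    · have h2 := env_supp A n _ h n le_rfl
      rw [em, Finsupp.sub_apply, Finsupp.single_eq_same, sub_eq_zero] at h2
      rw [h2]
      simp
  have h3 : (q n : ℂ) * env A n (q + em n) = -env A n (q + em n) := by
    by_cases h : env A n (q + em n) = 0
    · rw [h, mul_zero, neg_zero]
    · have h2 := env_supp A n _ h n le_rfl
      rw [em, Finsupp.add_apply, Finsupp.single_eq_same] at h2
      have h4 : q n = -1 := by omega
      rw [h4]
      push_cast
      ring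
  rw [dse, wsh, smul_smul]
  congr 1
  linear_combination (-(Complex.I * Complex.I) / 2) * (h1 - h3) -
    (1 / 2 : ℂ) * (env A n (q - em n) + env A n (q + em n)) * Complex.I_mul_I

theorem ev_dse_wsh (θ : Md →+ ℝ) (A n : ℕ) (V : C3) :
    ev θ (dse n (wsh A n V)) = (((Real.cos (θ (em n)) * envR A n θ : ℝ)) : ℂ) • V := by
  have hs := summable_env A n
  have hs1 : Summable fun q => ‖(1 / 2 : ℂ) * env A n (q - em n)‖ := by
    simp only [norm_mul]
    exact ((Equiv.subRight (em n)).summable_iff.2 hs).mul_left _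
  have hs2 : Summable fun q => ‖(1 / 2 : ℂ) * env A n (q + em n)‖ := by
    simp only [norm_mul]
    exact ((Equiv.addRight (em n)).summable_iff.2 hs).mul_left _
  have hc : ∀ (a : ℂ) (g : Md → ℂ), ev θ (fun q => a * g q) = a * ev θ g := by
    intro a g
    unfold ev
    rw [← tsum_mul_left]
    congr 1
    funext q
    simp only [smul_eq_mul]
    ring
  have e1 : ev θ (fun q => (1 / 2 : ℂ) * env A n (q - em n) + (1 / 2 : ℂ) * env A n (q + em n)) =
      (((Real.cos (θ (em n)) * envR A n θ : ℝ)) : ℂ) := by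
    have h := ev_add θ hs1 hs2
    rw [hc, hc, ev_shift θ (em n) (env A n), ev_shift' θ (em n) (env A n), smul_eq_mul,
      smul_eq_mul, ev_env] at h
    have h2 := ch_add_conj θ (em n)
    refine Eq.trans ?_ (h.trans ?_)
    · rfl
    · push_cast at h2 ⊢
      linear_combination (1 / 2 : ℂ) * (envR A n θ : ℂ) * h2
  have hs3 : Summable fun q => ‖(1 / 2 : ℂ) * env A n (q - em n) +
      (1 / 2 : ℂ) * env A n (q + em n)‖ :=
    Summable.of_nonneg_of_le (fun _ => norm_nonneg _) (fun q => norm_add_le _ _) (hs1.add hs2)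
  have h3 := ev_map θ hs3 (ContinuousLinearMap.toSpanSingleton ℂ V)
  have h4 : dse n (wsh A n V) = fun q => (ContinuousLinearMap.toSpanSingleton ℂ V)
      ((1 / 2 : ℂ) * env A n (q - em n) + (1 / 2 : ℂ) * env A n (q + em n)) := by
    funext q
    rw [dse_wsh]
    rfl
  rw [h4, h3, e1]
  rfl

/-- The sheet of the seed at the label `θ`. -/
theorem ev_dse_seed {c : ℝ} (hc : 0 < c) (θ : Md →+ ℝ) {A n : ℕ} {V : C3} {B : ℝ} (hB : 0 ≤ B)
    (hK : ∀ i < n, ‖kv (K i)‖ ≤ B) (hn : 0 < ‖kv (K n)‖) (hV : inner ℂ (kv (K n)) V = 0) :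
    ‖ev θ (dse n (seed K A n V)) - (((Real.cos (θ (em n)) * envR A n θ : ℝ)) : ℂ) • V‖ ≤
      2 * (B / ‖kv (K n)‖) / c *
        (Real.exp (2 * c) * ((1 + Real.exp (2 * c)) / 2) ^ (A * n) * ‖V‖) := by
  set g : Md → C3 := fun q => -(Complex.I • pr (xi K q) ((q n : ℂ) • wsh A n V q)) with hg
  have hgle : ∀ q, ‖g q‖ ≤ 2 * (B / ‖kv (K n)‖) * len q * ‖wsh A n V q‖ := by
    intro q
    rw [hg]
    simp only [norm_neg, norm_smul, Complex.norm_I, one_mul]
    exact (pr_wsh hB hK hn hV q).2
  have hb : 0 ≤ Real.exp (2 * c) * ((1 + Real.exp (2 * c)) / 2) ^ (A * n) * ‖V‖ := by positivity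
  have hgs : sN c g ≤ ENNReal.ofReal (2 * (B / ‖kv (K n)‖) / c *
      (Real.exp (2 * c) * ((1 + Real.exp (2 * c)) / 2) ^ (A * n) * ‖V‖)) := by
    refine (sN_len hc (by positivity) (wsh A n V) _ hgle).trans ?_
    rw [ENNReal.ofReal_mul (by positivity)]
    gcongr
    exact sN_wsh (by positivity) A n V
  have hgsum : Summable fun q => ‖g q‖ :=
    summable_of_sN hc.le (ne_top_of_le_ne_top ENNReal.ofReal_ne_top hgs)
  have hdsum : Summable fun q => ‖dse n (wsh A n V) q‖ := by
    have h1 : ∀ q, ‖dse n (wsh A n V) q‖ ≤ 1 * len q * ‖wsh A n V q‖ := by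
      intro q
      rw [dse, norm_smul, norm_mul, Complex.norm_I, one_mul, one_mul]
      gcongr
      exact (s01 K).2.1 q n
    have h2 := sN_len hc zero_le_one (wsh A n V) _ h1
    refine summable_of_sN hc.le (ne_top_of_le_ne_top (ENNReal.mul_ne_top ENNReal.ofReal_ne_top ?_)
      h2)
    exact ne_top_of_le_ne_top ENNReal.ofReal_ne_top (sN_wsh (by positivity) A n V)
  have h1 : dse n (seed K A n V) = dse n (wsh A n V) + g := by
    funext q
    rw [Pi.add_apply, hg, dse, dse, seed, smul_sub, sub_eq_add_neg]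
    simp only [map_smul, smul_smul]
  rw [h1, ev_add θ hdsum hgsum, ev_dse_wsh, add_sub_cancel_left]
  exact (norm_ev_le θ hgsum).trans (tsum_norm_le_sN hc.le (by positivity) hgs)

/-- The derivative in `θ_j` commutes with the multiplication by a function of level `j - 1`. -/
theorem dse_mul {j : ℕ} (hj : 1 ≤ j) {a : Md → Mat} (ha : SuppIn (lev (j - 1) : Set Md) a)
    (w : Md → C3) : dse j (mul a w) = mul a (dse j w) := by
  funext q
  unfold dse mul act mulK
  rw [← tsum_const_smul'']
  congr 1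
  funext l
  rw [map_smul]
  by_cases h : a (q - l) = 0
  · rw [h]
    simp
  · have h1 : q - l ∈ (lev (j - 1) : Set Md) := by
      by_contra h2
      exact h (ha _ h2)
    have h3 : (q - l) j = 0 := h1 j (by omega)
    rw [Finsupp.sub_apply, sub_eq_zero] at h3
    rw [h3]

theorem ev_dse_mul (θ : Md →+ ℝ) {j : ℕ} (hj : 1 ≤ j) {a : Md → Mat}
    (ha : SuppIn (lev (j - 1) : Set Md) a) (has : Summable fun q => ‖a q‖) {w : Md → C3}
    (hw : Summable fun q => ‖dse j w q‖) :
    ev θ (dse j (mul a w)) = ev θ a (ev θ (dse j w)) := by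
  rw [dse_mul hj ha, ev_mul θ has hw]

/-- `(1 + e^x)/2 ≤ e^x`, so the envelope is bounded at the radius `c` with `c A n ≤ 1`. -/
theorem env_const {c : ℝ} (hc : 0 ≤ c) {A n : ℕ} (h : c * (A * n) ≤ 1) :
    ((1 + Real.exp c) / 2) ^ (A * n) ≤ Real.exp 1 := by
  have h1 : (1 + Real.exp c) / 2 ≤ Real.exp c := by
    have := Real.one_le_exp hc
    linarith
  calc ((1 + Real.exp c) / 2) ^ (A * n) ≤ (Real.exp c) ^ (A * n) := by gcongr
    _ = Real.exp (c * (A * n)) := by
      rw [← Real.exp_nat_mul]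
      congr 1
      push_cast
      ring
    _ ≤ Real.exp 1 := Real.exp_le_exp.2 h

/-- Where the envelope is large all phases are close to `0` modulo `2π` (in the form `1 - cos`). -/
theorem envR_large {A n : ℕ} (hA : 0 < A) {θ : Md →+ ℝ} {y : ℝ}
    (h : Real.exp (-y) ≤ envR A n θ) {i : ℕ} (hi : i < n) :
    1 - Real.cos (θ (em i)) ≤ 2 * (y / A) := by
  have h1 := h.trans (envR_le_factor A n θ hi)
  set x := (1 + Real.cos (θ (em i))) / 2 with hx
  have hx0 : 0 ≤ x := by
    have := Real.neg_one_le_cos (θ (em i)); rw [hx]; linarith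
  have h2 : x ≤ Real.exp (-(1 - x)) := by
    have := Real.add_one_le_exp (-(1 - x)); linarith
  have h3 : Real.exp (-y) ≤ Real.exp (-(1 - x) * A) := by
    calc _ ≤ x ^ A := h1
      _ ≤ (Real.exp (-(1 - x))) ^ A := by gcongr
      _ = _ := by rw [← Real.exp_nat_mul]; congr 1; ring
  have h4 := Real.exp_le_exp.1 h3
  have hA' : (0 : ℝ) < A := by exact_mod_cast hA
  have h5 : 1 - x ≤ y / A := by
    rw [le_div_iff₀ hA']
    linarith
  have h6 : 1 - Real.cos (θ (em i)) = 2 * (1 - x) := by rw [hx]; ring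
  rw [h6]
  linarith

end Pool.Agent.Work.MP_b0497c_an.Unf.A
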