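import Pool.Agent.Work.MP_b0497c_an.Bd.B22

set_option autoImplicit false

/-!
# Lagrangian form of the Euler equations, part 4: conclusion of the unforced cascade

If there are exact Lagrangian solutions on `[0, s j]`, `s j ≤ T`, whose data converge very fast
to `u0` and whose velocity gradients at the origin at the times `s j` become unbounded, then
there is no classical solution with datum `u0` on a time interval `[0, T')`, `T' > T`.
-/

open scoped ContDiff Matrix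
open Set Filter Topology MeasureTheory RealInnerProductSpace Pool.Agent.Work.MP_b0497c_an
open Pool.Agent.Work.MP_b0497c_an.Dec Pool.Agent.Work.MP_b0497c_an.Dec.Uniq
open Pool.Agent.Work.MP_b0497c_an.Forced Pool.Agent.Work.MP_b0497c_an.Forced.C11

namespace Pool.Agent.Work.MP_b0497c_an.Unf

/-- The data of an unforced cascade in Lagrangian form: everything that is needed for the
conclusion `no_solution_lag`. -/
structure CascadeLag (T : ℝ) (u0 : E3 → E3) where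
  /-- times -/
  s : ℕ → ℝ
  /-- particle maps, velocities, accelerations and pressures in label variables -/
  X : ℕ → ℝ → E3 → E3
  W : ℕ → ℝ → E3 → E3
  A : ℕ → ℝ → E3 → E3
  Q : ℕ → ℝ → E3 → ℝ
  /-- velocity gradients at the origin at the times `s j` -/
  M : ℕ → E3 →L[ℝ] E3
  del : ℕ → ℝ
  B : ℕ → ℝ
  s_nonneg : ∀ j, 0 ≤ s j
  s_le : ∀ j, s j ≤ T
  sol : ∀ j, LagSol (s j) (X j) (W j) (A j) (Q j)
  datum : ∀ j y, ‖W j 0 y - u0 y‖ ≤ del j
  DX_le : ∀ j y, ‖fderiv ℝ (X j (s j)) y‖ ≤ B j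
  DW_le : ∀ j y, ‖fderiv ℝ (W j (s j)) y‖ ≤ B j
  DX_lip : ∀ j y, ‖fderiv ℝ (X j (s j)) y - fderiv ℝ (X j (s j)) 0‖ ≤ B j * ‖y‖
  DW_lip : ∀ j y, ‖fderiv ℝ (W j (s j)) y - fderiv ℝ (W j (s j)) 0‖ ≤ B j * ‖y‖
  DW_eq : ∀ j, fderiv ℝ (W j (s j)) 0 = (M j).comp (fderiv ℝ (X j (s j)) 0)
  B_one : ∀ j, 1 ≤ B j
  M_tendsto : Tendsto (fun j => ‖M j‖) atTop atTop
  small : Tendsto (fun j => del j * B j ^ 14) atTop (𝓝 0)

/-- **Conclusion**, for the forced class with zero force. -/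
theorem no_solution_lag {T : ℝ} {u0 : E3 → E3} (c : CascadeLag T u0) {T' : ℝ} (hT : T < T')
    {v : ℝ → E3 → E3} {q : ℝ → E3 → ℝ} (hv : IsForcedSolution T' (fun _ _ => 0) v q)
    (h0 : ∀ x, v 0 x = u0 x) : False := by
  obtain ⟨K, hK0, hK⟩ := bound_M hv hT
  have hT0 : 0 ≤ T := (c.s_nonneg 0).trans (c.s_le 0)
  set L : ℝ := (144 ^ 5 * 36864) * ((2 * Real.pi) ^ 3 * Real.exp (2 * K * T)) with hL
  have hLpos : 0 < L := by positivity
  have hev1 : ∀ᶠ j in atTop, max (12 * (1 + K)) (1 + L) ≤ ‖c.M j‖ :=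
    c.M_tendsto.eventually_ge_atTop _
  have hev2 : ∀ᶠ j in atTop, c.del j * c.B j ^ 14 < 1 :=
    c.small.eventually_lt_const zero_lt_one
  obtain ⟨j, hj1, hj2⟩ := (hev1.and hev2).exists
  have hMK : 12 * (1 + K) ≤ ‖c.M j‖ := (le_max_left _ _).trans hj1
  have hML : 1 + L ≤ ‖c.M j‖ := (le_max_right _ _).trans hj1
  have hs0 := c.s_nonneg j
  have hsT : c.s j < T' := (c.s_le j).trans_lt hT
  have hsc : c.s j ∈ Icc 0 (c.s j) := ⟨hs0, le_rfl⟩
  have h0c : (0:ℝ) ∈ Icc 0 (c.s j) := ⟨le_rfl, hs0⟩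
  have S := c.sol j
  have hδ0 : 0 ≤ c.del j := (norm_nonneg _).trans (c.datum j 0)
  have hB0 : 0 ≤ c.B j := by linarith [c.B_one j]
  have mW := S.W_cd _ hsc
  have mX : ContDiff ℝ 1 (c.X j (c.s j)) := (S.X_cd _ hsc).of_le (by norm_num)
  have mv := cd_u hv (t := c.s j) ⟨hs0, hsT⟩
  have hlow := lag_osc mW mX mv (c.B_one j) (c.DW_le j) (c.DX_le j) (c.DW_lip j) (c.DX_lip j)
    (hK (c.s j) ⟨hs0, c.s_le j⟩) (c.DW_eq j) (S.det_one _ hsc 0) hMK
  have hup := S.stab hv hs0 hsT (K := K) (fun r hr x => hK r ⟨hr.1, hr.2.trans (c.s_le j)⟩ x)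
  have hE0 : ∫ x in cube, ‖c.W j 0 x - v 0 x‖ ^ 2 ≤ (c.del j) ^ 2 * (2 * Real.pi) ^ 3 := by
    have hfin : volume cube ≠ ⊤ := cube_compact.measure_ne_top
    have h1 : ∫ _x in cube, (c.del j) ^ 2 = (c.del j) ^ 2 * (2 * Real.pi) ^ 3 := by
      rw [setIntegral_const, volume_cube, smul_eq_mul, mul_comm]
    rw [← h1]
    have cU0 := (S.W_cd 0 h0c).continuous
    have cv0 := (cd_u hv (t := 0) ⟨le_rfl, hs0.trans_lt hsT⟩).continuous
    apply setIntegral_mono_on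
      (((cU0.sub cv0).norm.pow 2).continuousOn.integrableOn_compact cube_compact)
      (integrableOn_const hfin) cube_compact.measurableSet
    intro x _
    show ‖c.W j 0 x - v 0 x‖ ^ 2 ≤ c.del j ^ 2
    rw [h0 x]
    exact pow_le_pow_left₀ (norm_nonneg _) (c.datum j x) 2
  have hexp : Real.exp (2 * K * c.s j) ≤ Real.exp (2 * K * T) := by
    apply Real.exp_le_exp.mpr
    exact mul_le_mul_of_nonneg_left (c.s_le j) (by positivity)
  have hup2 : ∫ y in cube, ‖c.W j (c.s j) y - v (c.s j) (c.X j (c.s j) y)‖ ^ 2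
      ≤ (c.del j) ^ 2 * ((2 * Real.pi) ^ 3 * Real.exp (2 * K * T)) := by
    refine hup.trans ?_
    calc (∫ x in cube, ‖c.W j 0 x - v 0 x‖ ^ 2) * Real.exp (2 * K * c.s j)
        ≤ ((c.del j) ^ 2 * (2 * Real.pi) ^ 3) * Real.exp (2 * K * T) :=
          mul_le_mul hE0 hexp (Real.exp_pos _).le (by positivity)
      _ = (c.del j) ^ 2 * ((2 * Real.pi) ^ 3 * Real.exp (2 * K * T)) := by ring
  have h5 : ‖c.M j‖ ^ 2 ≤ (c.del j * c.B j ^ 14) ^ 2 * L := by
    calc ‖c.M j‖ ^ 2 ≤ (144 ^ 5 * 36864) * c.B j ^ 28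
          * ∫ y in cube, ‖c.W j (c.s j) y - v (c.s j) (c.X j (c.s j) y)‖ ^ 2 := hlow
      _ ≤ (144 ^ 5 * 36864) * c.B j ^ 28
          * ((c.del j) ^ 2 * ((2 * Real.pi) ^ 3 * Real.exp (2 * K * T))) :=
          mul_le_mul_of_nonneg_left hup2 (by positivity)
      _ = (c.del j * c.B j ^ 14) ^ 2 * L := by rw [hL]; ring
  have h6 : (c.del j * c.B j ^ 14) ^ 2 ≤ 1 := by
    have h7 : 0 ≤ c.del j * c.B j ^ 14 := by positivity
    calc (c.del j * c.B j ^ 14) ^ 2 ≤ 1 ^ 2 := pow_le_pow_left₀ h7 hj2.le 2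
      _ = 1 := one_pow 2
  have h8 : (c.del j * c.B j ^ 14) ^ 2 * L ≤ 1 * L := mul_le_mul_of_nonneg_right h6 hLpos.le
  nlinarith

/-- A classical solution is a forced classical solution with zero force. -/
theorem forced_of_classical {T : ℝ} {u : ℝ → E3 → E3} {p : ℝ → E3 → ℝ}
    (h : IsClassicalSolution T u p) : IsForcedSolution T (fun _ _ => 0) u p where
  periodic_u := h.periodic_u
  periodic_p := h.periodic_p
  contDiff_u := h.contDiff_u
  contDiff_p := h.contDiff_p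
  momentum := by
    intro t ht x
    rw [add_zero]
    exact h.momentum t ht x
  div_free := h.div_free

/-- **Conclusion.** -/
theorem no_classical_solution_lag {T : ℝ} {u0 : E3 → E3} (c : CascadeLag T u0) {T' : ℝ}
    (hT : T < T') {v : ℝ → E3 → E3} {q : ℝ → E3 → ℝ} (hv : IsClassicalSolution T' v q)
    (h0 : ∀ x, v 0 x = u0 x) : False :=
  no_solution_lag c hT (forced_of_classical hv) h0

end Pool.Agent.Work.MP_b0497c_an.Unf
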