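import Pool.Agent.Work.MP_b0497c_an.Unf.EvDiff
import Pool.Agent.Work.MP_b0497c_an.Unf.LagEnd

set_option autoImplicit false

/-!
# From coefficient families to Lagrangian solutions
-/

open scoped ENNReal ContDiff
open Set MeasureTheory Filter Topology RealInnerProductSpace

namespace Pool.Agent.Work.MP_b0497c_an.Unf.W

/-- Componentwise real part. -/
noncomputable def reC : C3 →L[ℝ] E3 :=
  LinearMap.toContinuousLinearMap
    { toFun := fun x => !₂[(x 0).re, (x 1).re, (x 2).re]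
      map_add' := fun x y => by
        ext j; fin_cases j <;> simp
      map_smul' := fun a x => by
        ext j; fin_cases j <;> simp }

theorem reC_apply (x : C3) (j : Fin 3) : reC x j = (x j).re := by
  fin_cases j <;> rfl

/-- Complexification. -/
noncomputable def ofC : E3 →L[ℝ] C3 :=
  LinearMap.toContinuousLinearMap
    { toFun := fun x => !₂[(x 0 : ℂ), (x 1 : ℂ), (x 2 : ℂ)]
      map_add' := fun x y => by
        ext j; fin_cases j <;> simp
      map_smul' := fun a x => by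
        ext j; fin_cases j <;> simp }

theorem ofC_apply (x : E3) (j : Fin 3) : ofC x j = (x j : ℂ) := by
  fin_cases j <;> rfl

section lag

variable {Γ : Type} [AddCommGroup Γ] (ξ : Γ →+ (Fin 3 → ℤ))

/-- The real vector field with the given coefficients. -/
noncomputable def vecR (f : Γ → C3) (y : E3) : E3 := reC (ev (ph ξ y) f)

/-- The real function with the given coefficients. -/
noncomputable def scR (f : Γ → ℂ) (y : E3) : ℝ := (ev (ph ξ y) f).re

theorem vecR_periodic (f : Γ → C3) : Periodic3 (vecR ξ f) := by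
  intro i y
  exact congrArg reC (ev_periodic ξ f i y)

theorem scR_periodic (f : Γ → ℂ) : Periodic3 (scR ξ f) := by
  intro i y
  exact congrArg Complex.re (ev_periodic ξ f i y)

theorem vecR_contDiff (k : ℕ) {f : Γ → C3} (hf : Summable fun q => (1 + nx ξ q) ^ k * ‖f q‖) :
    ContDiff ℝ k (vecR ξ f) :=
  reC.contDiff.comp (ev_contDiff ξ k C3 f hf)

theorem scR_contDiff (k : ℕ) {f : Γ → ℂ} (hf : Summable fun q => (1 + nx ξ q) ^ k * ‖f q‖) :
    ContDiff ℝ k (scR ξ f) :=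
  Complex.reCLM.contDiff.comp (ev_contDiff ξ k ℂ f hf)

theorem summable_weaken {E : Type} [NormedAddCommGroup E] {f : Γ → E} {k l : ℕ} (hkl : k ≤ l)
    (hf : Summable fun q => (1 + nx ξ q) ^ l * ‖f q‖) :
    Summable fun q => (1 + nx ξ q) ^ k * ‖f q‖ := by
  refine Summable.of_nonneg_of_le (fun q => by have := nx_nonneg ξ q; positivity) (fun q => ?_) hf
  have h := nx_nonneg ξ q
  gcongr
  linarith

theorem summable_nx {E : Type} [NormedAddCommGroup E] {f : Γ → E}
    (hf : Summable fun q => (1 + nx ξ q) ^ 1 * ‖f q‖) :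
    Summable fun q => nx ξ q * ‖f q‖ := by
  refine Summable.of_nonneg_of_le (fun q => by have := nx_nonneg ξ q; positivity) (fun q => ?_) hf
  have h := nx_nonneg ξ q
  gcongr
  linarith

theorem summable_norm' {E : Type} [NormedAddCommGroup E] {f : Γ → E} {l : ℕ}
    (hf : Summable fun q => (1 + nx ξ q) ^ l * ‖f q‖) : Summable fun q => ‖f q‖ := by
  have := summable_weaken ξ (Nat.zero_le l) hf
  simpa only [pow_zero, one_mul] using this

theorem vecR_hasFDerivAt {f : Γ → C3} (hf : Summable fun q => (1 + nx ξ q) ^ 1 * ‖f q‖) (y : E3) :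
    HasFDerivAt (vecR ξ f) (reC.comp (ev (ph ξ y) (gr ξ f))) y :=
  reC.hasFDerivAt.comp y (ev_hasFDerivAt ξ (summable_norm' ξ hf) (summable_nx ξ hf) y)

theorem scR_hasFDerivAt {f : Γ → ℂ} (hf : Summable fun q => (1 + nx ξ q) ^ 1 * ‖f q‖) (y : E3) :
    HasFDerivAt (scR ξ f) (Complex.reCLM.comp (ev (ph ξ y) (gr ξ f))) y :=
  Complex.reCLM.hasFDerivAt.comp y
    (ev_hasFDerivAt ξ (summable_norm' ξ hf) (summable_nx ξ hf) y)

/-- The particle map with the given displacement. -/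
noncomputable def mapR (f : Γ → C3) (y : E3) : E3 := y + vecR ξ f y

theorem mapR_shift (f : Γ → C3) (i : Fin 3) (y : E3) :
    mapR ξ f (y + (2 * Real.pi) • e i) = mapR ξ f y + (2 * Real.pi) • e i := by
  simp only [mapR]
  rw [vecR_periodic ξ f i y]
  abel

theorem mapR_hasFDerivAt {f : Γ → C3} (hf : Summable fun q => (1 + nx ξ q) ^ 1 * ‖f q‖) (y : E3) :
    HasFDerivAt (mapR ξ f)
      (ContinuousLinearMap.id ℝ E3 + reC.comp (ev (ph ξ y) (gr ξ f))) y :=
  (hasFDerivAt_id y).add (vecR_hasFDerivAt ξ hf y)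

/-- A coefficient family with a summable bound, weight `(1 + |ξ|)^k`. -/
structure SBd {E : Type} [NormedAddCommGroup E] (s : ℝ) (k : ℕ) (f : ℝ → Γ → E) : Prop where
  ex : ∃ u : Γ → ℝ, Summable u ∧ ∀ t ∈ Icc 0 s, ∀ q, (1 + nx ξ q) ^ k * ‖f t q‖ ≤ u q

variable {ξ}

theorem SBd.sum {E : Type} [NormedAddCommGroup E] {s : ℝ} {k : ℕ} {f : ℝ → Γ → E}
    (h : SBd ξ s k f) {t : ℝ} (ht : t ∈ Icc 0 s) :
    Summable fun q => (1 + nx ξ q) ^ k * ‖f t q‖ := by
  obtain ⟨u, hu, hf⟩ := h.ex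
  exact Summable.of_nonneg_of_le (fun q => by have := nx_nonneg ξ q; positivity) (hf t ht) hu

theorem SBd.weaken {E : Type} [NormedAddCommGroup E] {s : ℝ} {k l : ℕ} {f : ℝ → Γ → E}
    (h : SBd ξ s l f) (hkl : k ≤ l) : SBd ξ s k f := by
  obtain ⟨u, hu, hf⟩ := h.ex
  refine ⟨u, hu, fun t ht q => le_trans ?_ (hf t ht q)⟩
  have h := nx_nonneg ξ q
  gcongr
  linarith

theorem SBd.bd {E : Type} [NormedAddCommGroup E] {s : ℝ} {l : ℕ} {f : ℝ → Γ → E}
    (h : SBd ξ s l f) : ∃ u : Γ → ℝ, Summable u ∧ ∀ t ∈ Icc 0 s, ∀ q, ‖f t q‖ ≤ u q := by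
  obtain ⟨u, hu, hf⟩ := (h.weaken (Nat.zero_le l)).ex
  exact ⟨u, hu, fun t ht q => by simpa only [pow_zero, one_mul] using hf t ht q⟩

/-- The time derivative of `D X`. -/
theorem grad_deriv {s : ℝ} {x U : ℝ → Γ → C3} (bx : SBd ξ s 1 x) (bU : SBd ξ s 1 U)
    (dx : ∀ t ∈ Ioo 0 s, ∀ q, HasDerivAt (fun r => x r q) (U t q) t) {t : ℝ}
    (ht : t ∈ Ioo 0 s) (y z : E3) :
    HasDerivAt (fun r => fderiv ℝ (mapR ξ (x r)) y z) (fderiv ℝ (vecR ξ (U t)) y z) t := by
  obtain ⟨u, hu, hU⟩ := bU.ex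
  have htc := Ioo_subset_Icc_self ht
  have h1 := ev_hasDerivAt (E := E3 →L[ℝ] C3) (T := s) (f := fun r => gr ξ (x r))
    (f' := fun r => gr ξ (U r)) hu
    (fun r hr q => by
      refine (gr_norm ξ (U r) q).trans (le_trans ?_ (hU r (Ioo_subset_Icc_self hr) q))
      have h := nx_nonneg ξ q
      rw [pow_one]
      gcongr
      linarith)
    (fun r hr q => by
      have h2 := (dx r hr q).const_smul Complex.I
      exact (((ContinuousLinearMap.smulRightL ℝ E3 C3) (phL ξ q)).hasFDerivAt.comp_hasDerivAt r h2))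
    (ph ξ y) ht
    (by
      refine Summable.of_nonneg_of_le (fun _ => norm_nonneg _) (fun q => gr_norm ξ (x t) q) ?_
      exact summable_nx ξ (bx.sum htc))
  have h3 : HasDerivAt (fun r => z + reC ((ev (ph ξ y) (gr ξ (x r))) z))
      (reC ((ev (ph ξ y) (gr ξ (U t))) z)) t := by
    have h4 := (reC.comp ((ContinuousLinearMap.apply ℝ C3 z))).hasFDerivAt.comp_hasDerivAt t h1
    exact h4.const_add z
  have e2 : fderiv ℝ (vecR ξ (U t)) y z = reC ((ev (ph ξ y) (gr ξ (U t))) z) := by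
    rw [(vecR_hasFDerivAt ξ (bU.sum htc) y).fderiv]; rfl
  rw [e2]
  refine h3.congr_of_eventuallyEq ?_
  filter_upwards [Ioo_mem_nhds ht.1 ht.2] with r hr
  rw [(mapR_hasFDerivAt ξ (bx.sum (Ioo_subset_Icc_self hr)) y).fderiv]
  rfl

/-- Derivative of the determinant. -/
theorem det_deriv {F : ℝ → E3 →L[ℝ] E3} {G : E3 →L[ℝ] E3} {t : ℝ}
    (h : ∀ z, HasDerivAt (fun r => F r z) (G z) t) :
    HasDerivAt (fun r => det3 (F r)) (trF (F t) G) t := by
  have hc : ∀ i j : Fin 3, HasDerivAt (fun r => (F r (e i)) j) ((G (e i)) j) t := fun i j =>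
    (EuclideanSpace.proj j : E3 →L[ℝ] ℝ).hasFDerivAt.comp_hasDerivAt t (h (e i))
  have k := ((((hc 0 1).mul (hc 1 2)).sub ((hc 0 2).mul (hc 1 1))).mul (hc 2 0)).add
    (((((hc 0 2).mul (hc 1 0)).sub ((hc 0 0).mul (hc 1 2))).mul (hc 2 1)).add
    ((((hc 0 0).mul (hc 1 1)).sub ((hc 0 1).mul (hc 1 0))).mul (hc 2 2)))
  refine (k.congr_of_eventuallyEq (Eventually.of_forall fun r => ?_)).congr_deriv ?_
  · simp [det3, cr, inner_eq]
    ring
  · simp [trF, cr, inner_eq]
    ring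

/-- **A coefficient family gives a Lagrangian solution.** -/
theorem lagSol_of_series {s : ℝ} {x U A : ℝ → Γ → C3} {r : ℝ → Γ → ℂ}
    (bx : SBd ξ s 2 x) (bU : SBd ξ s 1 U) (bA : SBd ξ s 0 A) (br : SBd ξ s 1 r)
    (cx : ∀ q, ContinuousOn (fun t => x t q) (Icc 0 s))
    (cU : ∀ q, ContinuousOn (fun t => U t q) (Icc 0 s))
    (cA : ∀ q, ContinuousOn (fun t => A t q) (Icc 0 s))
    (dx : ∀ t ∈ Ioo 0 s, ∀ q, HasDerivAt (fun r => x r q) (U t q) t)
    (dU : ∀ t ∈ Ioo 0 s, ∀ q, HasDerivAt (fun r => U r q) (A t q) t)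
    (x0 : ∀ q, x 0 q = 0)
    (hdet : ∀ t ∈ Icc 0 s, ∀ y, det3 (fderiv ℝ (mapR ξ (x t)) y) = 1)
    (hmom : ∀ t ∈ Ioo 0 s, ∀ y z, ⟪vecR ξ (A t) y, fderiv ℝ (mapR ξ (x t)) y z⟫
      = - fderiv ℝ (scR ξ (r t)) y z) :
    LagSol s (fun t => mapR ξ (x t)) (fun t => vecR ξ (U t)) (fun t => vecR ξ (A t))
      (fun t => scR ξ (r t)) := by
  obtain ⟨u1, hu1, hx1⟩ := bx.bd
  obtain ⟨u2, hu2, hU1⟩ := bU.bd
  obtain ⟨u3, hu3, hA1⟩ := bA.bd
  refine
    { X_zero := ?_
      per_X := fun t _ i y => mapR_shift ξ (x t) i y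
      per_W := fun t _ => vecR_periodic ξ (U t)
      per_A := fun t _ => vecR_periodic ξ (A t)
      per_Q := fun t _ => scR_periodic ξ (r t)
      X_cd := fun t ht => contDiff_id.add (vecR_contDiff ξ 2 (bx.sum ht))
      W_cd := fun t ht => vecR_contDiff ξ 1 (bU.sum ht)
      Q_cd := fun t ht => scR_contDiff ξ 1 (br.sum ht)
      X_cont := ?_
      W_cont := ?_
      A_cont := ?_
      X_der := ?_
      W_der := ?_
      momentum := hmom
      det_one := hdet
      div_zero := ?_ }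
  · intro y
    simp [mapR, vecR, ev, x0]
  · exact continuous_snd.continuousOn.add
      (reC.continuous.comp_continuousOn (ev_continuousOn ξ hu1 hx1 cx))
  · exact reC.continuous.comp_continuousOn (ev_continuousOn ξ hu2 hU1 cU)
  · exact reC.continuous.comp_continuousOn (ev_continuousOn ξ hu3 hA1 cA)
  · intro t ht y
    have h1 := ev_hasDerivAt hu2 (fun r hr q => hU1 r (Ioo_subset_Icc_self hr) q) dx (ph ξ y) ht
      (summable_norm' ξ (bx.sum (Ioo_subset_Icc_self ht)))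
    exact (reC.hasFDerivAt.comp_hasDerivAt t h1).const_add y
  · intro t ht y
    have h1 := ev_hasDerivAt hu3 (fun r hr q => hA1 r (Ioo_subset_Icc_self hr) q) dU (ph ξ y) ht
      (summable_norm' ξ (bU.sum (Ioo_subset_Icc_self ht)))
    exact reC.hasFDerivAt.comp_hasDerivAt t h1
  · intro t ht y
    have h1 := det_deriv (F := fun r => fderiv ℝ (mapR ξ (x r)) y)
      (G := fderiv ℝ (vecR ξ (U t)) y) (t := t)
      (fun z => grad_deriv (bx.weaken (by norm_num)) bU dx ht y z)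
    have h2 : HasDerivAt (fun r => det3 (fderiv ℝ (mapR ξ (x r)) y)) 0 t := by
      refine (hasDerivAt_const t (1:ℝ)).congr_of_eventuallyEq ?_
      filter_upwards [Ioo_mem_nhds ht.1 ht.2] with r hr
      exact hdet r (Ioo_subset_Icc_self hr) y
    exact h1.unique h2

end lag

end Pool.Agent.Work.MP_b0497c_an.Unf.W
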