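import Pool.Agent.Work.MP_b0497c_an.Unf.SStmts3
import Pool.Agent.Work.MP_b0497c_an.Unf.CStmts
import Pool.Agent.Work.MP_b0497c_an.Unf.EvLag
import Pool.Agent.Work.MP_b0497c_an.Unf.LagEnd
import Pool.Agent.Work.MP_b0497c_an.Unf.DDefs

set_option autoImplicit false
set_option linter.dupNamespace false

/-!
# Block A (assembly): the record of one level, the record of one sheet, the chain

* `Lvl K T r R l X U A p F Fi M` : an exact Lagrangian solution of level `l` on `[0,T]` whose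
  coefficients are bounded by `R` at the radius `r`.
* `Sht K T r R u α j ...` : the sheet structure of level `j` over level `j - 1`.
* `Chain` : all levels together; `Chain.dat` is the record of the step `n → n+1`.
-/

open scoped ENNReal
open Set MeasureTheory

namespace Pool.Agent.Work.MP_b0497c_an.Unf.A

open W S

/-- The vector function is real and odd. -/
def OddV (f : Md → C3) : Prop := RealV f ∧ OddF f

/-- The matrix function is real and even. -/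
def EvenM (f : Md → Mat) : Prop := RealM f ∧ EvenF f

/-- The scalar function is real and even. -/
def EvenS (f : Md → ℂ) : Prop := RealS f ∧ EvenF f

/-- An exact Lagrangian solution of level `l` on `[0,T]` (`LevSol` of block D): displacement `X`,
velocity `U`, acceleration `A`, pressure `p`, deformation gradient `F = 1 + ∇X`, its inverse `Fi`,
velocity gradient `M = ∇U F⁻¹`; `R` bounds the norms of `F Fi M` at the radius `r`, and `1/r`.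
All fields are real; `X U A` are odd, `p F Fi M` are even. -/
structure Lvl (K : ℕ → Fin 3 → ℤ) (T r R : ℝ) (l : ℕ) (X U A : ℝ → Md → C3) (p : ℝ → Md → ℂ)
    (F Fi M : ℝ → Md → Mat) : Prop extends LevSol K l T r X U A p F Fi M where
  T_le : T ≤ 1
  r_le : r ≤ 1
  R_two : 2 ≤ R
  r_R : 1 ≤ R * r
  p_cm : CM T p
  F_cm : CM T F
  Fi_cm : CM T Fi
  M_cm : CM T M
  F_supp : SuppT T (lev l : Set Md) F
  Fi_supp : SuppT T (lev l : Set Md) Fi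
  M_supp : SuppT T (lev l : Set Md) M
  F_le : Nrm T r 0 Dat.one' F ≤ ENNReal.ofReal R
  Fi_le : Nrm T r 0 Dat.one' Fi ≤ ENNReal.ofReal R
  M_le : Nrm T r 0 Dat.one' M ≤ ENNReal.ofReal R
  X_odd : ∀ t ∈ Icc 0 T, OddV (X t)
  U_odd : ∀ t ∈ Icc 0 T, OddV (U t)
  A_odd : ∀ t ∈ Icc 0 T, OddV (A t)
  p_even : ∀ t ∈ Icc 0 T, EvenS (p t)
  F_even : ∀ t ∈ Icc 0 T, EvenM (F t)
  Fi_even : ∀ t ∈ Icc 0 T, EvenM (Fi t)
  M_even : ∀ t ∈ Icc 0 T, EvenM (M t)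
  Fi_der : ∀ q, ∀ t ∈ Icc 0 T,
    HasDerivWithinAt (fun t => Fi t q) (-(mm (Fi t) (M t) q)) (Icc 0 T) t
  MF_eq : ∀ t ∈ Icc 0 T, mm (M t) (F t) = gradV K (U t)
  FFi : ∀ t ∈ Icc 0 T, mm (F t) (Fi t) = oneM

/-- The sheet structure of level `j` (`F Fi M`) over level `j - 1` (`F' Fi' M'`) on `[0,T]`, (A3)
and (A5) of the step theorem at the radius `r` with the constant `R` and `eps = u ^ 256`;
`w` is the seed of the wave `j`. -/
structure Sht (K : ℕ → Fin 3 → ℤ) (T r R u : ℝ) (α : ℝ → ℝ) (j : ℕ) (F' Fi' M' F Fi M : ℝ → Md → Mat)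
    (z a : ℝ → Md → C3) (s : ℝ → Md → ℂ) (Φ : ℝ → ℝ → Md → Mat) (w : Md → C3) : Prop where
  j_pos : 1 ≤ j
  u_pos : 0 < u
  u_lt : u < 1
  K_pos : 0 < ‖kv (K j)‖
  α_wt : Wt T α
  α_le : ∀ t ∈ Icc 0 T, α t ≤ R
  z_supp : SuppT T (Cl j) z
  a_supp : SuppT T (Cl j) a
  z_cm : CM T z
  a_cm : CM T a
  z_orth : ∀ t ∈ Icc 0 T, ∀ q, inner ℂ (kv (K j)) (z t q) = 0
  z_le : Nrm T r 0 α z ≤ ENNReal.ofReal (R / ‖kv (K j)‖)
  a_le : Nrm T r 0 α a ≤ ENNReal.ofReal (R / ‖kv (K j)‖)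
  z_real : ∀ t ∈ Icc 0 T, RealV (z t)
  a_real : ∀ t ∈ Icc 0 T, RealV (a t)
  ka_le : Nrm T r 0 α (fun t => mul (rwF (kv (K j)) (Fi' t)) (a t)) ≤ ENNReal.ofReal (u ^ 256)
  rF_le : Nrm T r 0 α (fun t => F t - mm (F' t) (shP (z t) (kv (K j)))) ≤ ENNReal.ofReal (u ^ 256)
  rFi_le : Nrm T r 0 α (fun t => Fi t - mm (shM (z t) (kv (K j))) (Fi' t)) ≤
    ENNReal.ofReal (u ^ 256)
  rM_le : Nrm T r 0 α (fun t => M t - M' t - mm (tsF (a t)) (rwF (kv (K j)) (Fi' t))) ≤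
    ENNReal.ofReal (u ^ 256)
  /-- (D2): `a_j = ∂_j (Φ_j(t,0) w_j)` is exactly the linear wave, at all labels -/
  a_eq : ∀ t ∈ Icc 0 T, ∀ q, a t q = (Complex.I * (q j : ℂ)) • mul (Φ t 0) w q
  s_cm : CM T s
  s_supp : SuppT T (lev (j - 1) : Set Md) s
  s_le : Nrm T r 0 Dat.one' s ≤ ENNReal.ofReal (R / ‖kv (K j)‖ ^ 2)
  s_eq : ∀ t ∈ Icc 0 T, mul (mm (scF (s t)) (rwF (kv (K j)) (Fi' t))) (kcF (kv (K j)) (Fi' t)) =
    fun q => if q = 0 then 1 else 0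
  Φ_prop : IsProp T (fun t => mulK (genK (pF (kv (K j)) (Fi' t) (s t)) (M' t)))
    (fun t s => mulK (Φ t s))
  Φ_le : PN T r α α (fun t s => mulK (Φ t s)) ≤ ENNReal.ofReal R
  Φ_supp : ∀ s ∈ Icc 0 T, ∀ t ∈ Icc 0 T, SuppIn (lev (j - 1) : Set Md) (Φ t s)
  w_supp : SuppIn (Cl j) w
  w_real : OddV w

/-- The data of all levels. -/
structure Chain where
  K : ℕ → Fin 3 → ℤ
  /-- level `l` lives on `[0, τ l]` -/
  τ : ℕ → ℝ
  /-- the time at which the sheet `n` has the amplitude `a_n` (centre of its window) -/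
  tn : ℕ → ℝ
  r : ℕ → ℝ
  R : ℕ → ℝ
  α : ℕ → ℝ → ℝ
  X : ℕ → ℝ → Md → C3
  U : ℕ → ℝ → Md → C3
  A : ℕ → ℝ → Md → C3
  p : ℕ → ℝ → Md → ℂ
  F : ℕ → ℝ → Md → Mat
  Fi : ℕ → ℝ → Md → Mat
  M : ℕ → ℝ → Md → Mat
  z : ℕ → ℝ → Md → C3
  a : ℕ → ℝ → Md → C3
  s : ℕ → ℝ → Md → ℂ
  Φ : ℕ → ℝ → ℝ → Md → Mat
  w : ℕ → Md → C3

namespace Chain

/-- The record of the step `n → n + 1` (coarse level `n - 2`). -/
noncomputable def dat (C : Chain) (n : ℕ) (c G β : ℝ) (u : ℕ → ℝ) : Dat where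
  m := n - 2
  n := n
  T := C.τ (n + 1)
  c := c
  γ := c / (2 * C.τ (n + 1))
  β := β
  G := G
  K := C.K
  u := u
  α := C.α
  F := C.F
  Fi := C.Fi
  M := C.M
  z := C.z
  a := C.a
  s := C.s
  Φ := C.Φ

/-- Two chains agree up to level `n`. -/
structure Agree (C C' : Chain) (n : ℕ) : Prop where
  K : ∀ l ≤ n, C.K l = C'.K l
  τ : ∀ l ≤ n, C.τ l = C'.τ l
  tn : ∀ l ≤ n, C.tn l = C'.tn l
  r : ∀ l ≤ n, C.r l = C'.r l
  R : ∀ l ≤ n, C.R l = C'.R l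
  α : ∀ l ≤ n, C.α l = C'.α l
  X : ∀ l ≤ n, C.X l = C'.X l
  U : ∀ l ≤ n, C.U l = C'.U l
  A : ∀ l ≤ n, C.A l = C'.A l
  p : ∀ l ≤ n, C.p l = C'.p l
  F : ∀ l ≤ n, C.F l = C'.F l
  Fi : ∀ l ≤ n, C.Fi l = C'.Fi l
  M : ∀ l ≤ n, C.M l = C'.M l
  z : ∀ l ≤ n, C.z l = C'.z l
  a : ∀ l ≤ n, C.a l = C'.a l
  s : ∀ l ≤ n, C.s l = C'.s l
  Φ : ∀ l ≤ n, C.Φ l = C'.Φ l
  w : ∀ l ≤ n, C.w l = C'.w l

/-- The analytic part of the induction hypothesis at stage `n`. -/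
structure An (C : Chain) (n : ℕ) (u : ℕ → ℝ) : Prop where
  lvl : ∀ l ≤ n, Lvl C.K (C.τ l) (C.r l) (C.R l) l (C.X l) (C.U l) (C.A l) (C.p l) (C.F l) (C.Fi l)
    (C.M l)
  sht : ∀ j, 1 ≤ j → j ≤ n → Sht C.K (C.τ j) (C.r j) (C.R j) (u j) (C.α j) j (C.F (j - 1))
    (C.Fi (j - 1)) (C.M (j - 1)) (C.F j) (C.Fi j) (C.M j) (C.z j) (C.a j) (C.s j) (C.Φ j) (C.w j)
  U_seed : ∀ l < n, C.U (l + 1) 0 = C.U l 0 + C.w (l + 1)
  τ_anti : ∀ l < n, C.τ (l + 1) ≤ C.τ l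
  r_anti : ∀ l < n, C.r (l + 1) ≤ C.r l
  R_mono : ∀ l < n, C.R l ≤ C.R (l + 1)

/-! ### Centre objects -/

/-- The velocity gradient of level `l` at the centre, as a real matrix. -/
noncomputable def Mc (C : Chain) (l : ℕ) (t : ℝ) : E3 →L[ℝ] E3 :=
  reC.comp (((ev 0 (C.M l t)).restrictScalars ℝ).comp ofC)

/-- The deformation gradient at the centre. -/
noncomputable def Fc (C : Chain) (l : ℕ) (t : ℝ) : E3 →L[ℝ] E3 :=
  reC.comp (((ev 0 (C.F l t)).restrictScalars ℝ).comp ofC)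

/-- Its inverse. -/
noncomputable def Fic (C : Chain) (l : ℕ) (t : ℝ) : E3 →L[ℝ] E3 :=
  reC.comp (((ev 0 (C.Fi l t)).restrictScalars ℝ).comp ofC)

/-- `K_j` as a real vector. -/
noncomputable def Kr (C : Chain) (j : ℕ) : E3 := WithLp.toLp 2 fun i => (C.K j i : ℝ)

/-- The wave vector of the wave `j` at the centre, `k_j = F_{j-1}^{-T} K_j`. -/
noncomputable def kc (C : Chain) (j : ℕ) (t : ℝ) : E3 :=
  ContinuousLinearMap.adjoint (C.Fic (j - 1) t) (C.Kr j)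

end Chain

end Pool.Agent.Work.MP_b0497c_an.Unf.A
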