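import Pool.Agent.Work.MP_b0497c_an.Bd.B14
import Pool.Agent.Work.MP_b0497c_an.Unf.ADefs
import Pool.Agent.Work.MP_b0497c_an.Bd.B26

set_option autoImplicit false
set_option linter.dupNamespace false

/-!
# Block K: from coefficients to real labels (dictionary), definitions and statements

Convention: prove `theorem dK : DK` (K = 1, 1v, 2 .. 7) in `Unf/KDict.lean`, namespace `..Unf.K`.
-/

open scoped ENNReal InnerProductSpace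
open Set MeasureTheory

namespace Pool.Agent.Work.MP_b0497c_an.Unf.K

open W S
open Forced.Ode (Op ro)

/-- Clamp to `[0,T]`. -/
noncomputable def clT (T t : ℝ) : ℝ := max 0 (min t T)

/-- The real matrix at the label `θ`. -/
noncomputable def rM (θ : Md →+ ℝ) (f : Md → Mat) : Op :=
  reC.comp (((ev θ f).restrictScalars ℝ).comp ofC)

/-- The real vector at the label `θ`. -/
noncomputable def rV (θ : Md →+ ℝ) (f : Md → C3) : E3 := reC (ev θ f)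

/-- The flow at the label `θ`, constant outside `[0,T]`. -/
noncomputable def rMt (θ : Md →+ ℝ) (T : ℝ) (f : ℝ → Md → Mat) (t : ℝ) : Op := rM θ (f (clT T t))

/-- Integer vectors as real vectors. -/
noncomputable def kR (k : Fin 3 → ℤ) : E3 := WithLp.toLp 2 fun i => (k i : ℝ)

/-- The `θ j`-derivative. -/
noncomputable def dj (j : ℕ) (f : Md → C3) (q : Md) : C3 := (Complex.I * (q j : ℂ)) • f q

/-- The label is within `d` of a point of `2π ℤ` in the first `n` phases. -/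
def Near (n : ℕ) (d : ℝ) (θ : Md →+ ℝ) : Prop :=
  ∀ i < n, ∃ m : ℤ, |θ (Finsupp.single i 1) - 2 * Real.pi * m| ≤ d

/-- D1: a real function is real at the labels. -/
def D1 : Prop := ∀ (θ : Md →+ ℝ) (f : Md → Mat), (Summable fun q => ‖f q‖) → RealM f →
  ∀ x : E3, ev θ f (ofC x) = ofC (rM θ f x)

/-- D1v: the same for vectors. -/
def D1v : Prop := ∀ (θ : Md →+ ℝ) (f : Md → C3), (Summable fun q => ‖f q‖) → RealV f →
  ev θ f = ofC (rV θ f)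

/-- D2: bound by the weighted norm (any radius `c ≥ 0`), matrices and vectors. -/
def D2 : Prop := ∀ (θ : Md →+ ℝ) (T c B : ℝ) (α : ℝ → ℝ), 0 ≤ c → 0 ≤ B →
  (∀ t ∈ Icc 0 T, 0 < α t) →
  (∀ f : ℝ → Md → Mat, Nrm T c 0 α f ≤ ENNReal.ofReal B → ∀ t ∈ Icc 0 T,
    (Summable fun q => ‖f t q‖) ∧ ‖ev θ (f t)‖ ≤ B * α t ∧ ‖rM θ (f t)‖ ≤ B * α t) ∧
  (∀ f : ℝ → Md → C3, Nrm T c 0 α f ≤ ENNReal.ofReal B → ∀ t ∈ Icc 0 T,
    (Summable fun q => ‖f t q‖) ∧ ‖ev θ (f t)‖ ≤ B * α t ∧ ‖rV θ (f t)‖ ≤ B * α t)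

/-- D3: Lipschitz bound in the label, functions of the phases `i < n`. -/
def D3 : Prop := ∀ (θ : Md →+ ℝ) (n : ℕ) (f : Md → Mat) (c B d : ℝ), 0 < c → 0 ≤ B → 0 ≤ d →
  SuppIn {q | ∀ i, n ≤ i → q i = 0} f → sN c f ≤ ENNReal.ofReal B → Near n d θ →
  ‖rM θ f - rM 0 f‖ ≤ d * (B / c)

/-- D4: the flow at a label. -/
def D4 : Prop := ∀ (K : ℕ → Fin 3 → ℤ) (T' r R : ℝ) (l : ℕ) (X U A' : ℝ → Md → C3)
  (p : ℝ → Md → ℂ) (F Fi M : ℝ → Md → Mat), A.Lvl K T' r R l X U A' p F Fi M →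
  ∀ T : ℝ, 0 < T → T ≤ T' → ∀ θ : Md →+ ℝ,
  Continuous (rMt θ T M) ∧ (∀ t ∈ Icc 0 T, rMt θ T M t = rM θ (M t)) ∧
  (∀ k : E3, ∀ t ∈ Icc 0 T,
    ContinuousLinearMap.adjoint (rM θ (Fi t)) k = covec (rMt θ T M) k t) ∧
  (∀ t ∈ Icc 0 T, (rM θ (F t)).comp (rM θ (Fi t)) = ContinuousLinearMap.id ℝ E3 ∧
    (rM θ (Fi t)).comp (rM θ (F t)) = ContinuousLinearMap.id ℝ E3) ∧
  (∀ t ∈ Icc 0 T, HasDerivWithinAt (fun t => rM θ (F t)) ((rM θ (M t)).comp (rM θ (F t)))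
    (Icc 0 T) t) ∧
  (∀ t ∈ Icc 0 T, LinearMap.trace ℝ E3 (rM θ (M t)).toLinearMap = 0)

/-- D5: the Kelvin generator at a label (`k = Fi† K`). -/
def D5 : Prop := ∀ (θ : Md →+ ℝ) (k : Fin 3 → ℤ) (Fi M : Md → Mat) (s : Md → ℂ),
  (Summable fun q => ‖Fi q‖) → (Summable fun q => ‖M q‖) → (Summable fun q => ‖s q‖) →
  RealM Fi → RealM M →
  (mul (mm (scF s) (rwF (kv k) Fi)) (kcF (kv k) Fi) = fun q => if q = 0 then 1 else 0) →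
  ∀ x : E3, ev θ (genK (pF (kv k) Fi s) M) (ofC x) =
    ofC (kel (rM θ M) (ContinuousLinearMap.adjoint (rM θ Fi) (kR k)) x)

/-- D6: the linear wave at a label is the Kelvin solution; `F' Fi' M'` = level `j - 1`. -/
def D6 : Prop := ∀ (K : ℕ → Fin 3 → ℤ) (T0 T' r r' R R' u : ℝ) (α : ℝ → ℝ) (j : ℕ)
  (X' U' A' : ℝ → Md → C3) (p' : ℝ → Md → ℂ) (F' Fi' M' F Fi M : ℝ → Md → Mat)
  (z a : ℝ → Md → C3) (s : ℝ → Md → ℂ) (Φ : ℝ → ℝ → Md → Mat) (w : Md → C3),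
  A.Lvl K T0 r' R' (j - 1) X' U' A' p' F' Fi' M' →
  A.Sht K T' r R u α j F' Fi' M' F Fi M z a s Φ w → T' ≤ T0 → 0 ≤ r →
  (Summable fun q => ‖w q‖) → (Summable fun q => ‖dj j w q‖) →
  ∀ T : ℝ, 0 < T → T ≤ T' → ∀ θ : Md →+ ℝ, ∀ t ∈ Icc 0 T,
  ev θ (a t) = ofC (kelS (rMt θ T M') (kR (K j)) (rV θ (dj j w)) t)

/-- D7: the flow of level `j` at a label. -/
def D7 : Prop := ∀ (K : ℕ → Fin 3 → ℤ) (T0 T' r r' R R' u : ℝ) (α : ℝ → ℝ) (j : ℕ)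
  (X' U' A' : ℝ → Md → C3) (p' : ℝ → Md → ℂ) (F' Fi' M' F Fi M : ℝ → Md → Mat)
  (z a : ℝ → Md → C3) (s : ℝ → Md → ℂ) (Φ : ℝ → ℝ → Md → Mat) (w : Md → C3),
  A.Lvl K T0 r' R' (j - 1) X' U' A' p' F' Fi' M' →
  A.Sht K T' r R u α j F' Fi' M' F Fi M z a s Φ w → T' ≤ T0 → 0 ≤ r →
  (∀ t ∈ Icc 0 T', Summable fun q => ‖M t q‖) → (Summable fun q => ‖w q‖) →
  (Summable fun q => ‖dj j w q‖) →
  ∀ T : ℝ, 0 < T → T ≤ T' → ∀ θ : Md →+ ℝ, ∀ t ∈ Icc 0 T,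
  ‖rM θ (M t) - rM θ (M' t) - ro (kelS (rMt θ T M') (kR (K j)) (rV θ (dj j w)) t)
    (covec (rMt θ T M') (kR (K j)) t)‖ ≤ α t * u ^ 256

end Pool.Agent.Work.MP_b0497c_an.Unf.K
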