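import Pool.Agent.Work.MP_b0497c_an.Bd.B14

set_option autoImplicit false

/-!
# One real label: the two zones, abstract form

`CoL T b α M K` = bounds of the coarse flow `M` at one label (LB and KB) with the constant `b`.
-/

open scoped Topology InnerProductSpace
open Set MeasureTheory

namespace Pool.Agent.Work.MP_b0497c_an.Unf.K

open Forced.Ode.Linear Forced.Ode

/-! ### Uniqueness on an interval -/

section

variable {V : Type} [NormedAddCommGroup V] [NormedSpace ℝ V]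

/-- Uniqueness on `[a,b]` for a continuous generator. -/
theorem ode_unique_Icc {A : ℝ → V →L[ℝ] V} {a b : ℝ} (hA : ContinuousOn A (Icc a b))
    {x y : ℝ → V} (hx : ∀ t ∈ Icc a b, HasDerivWithinAt x (A t (x t)) (Icc a b) t)
    (hy : ∀ t ∈ Icc a b, HasDerivWithinAt y (A t (y t)) (Icc a b) t) (h0 : x a = y a) :
    EqOn x y (Icc a b) := by
  obtain ⟨C, hC⟩ := isCompact_Icc.bddAbove_image hA.norm
  have hlip : ∀ r ∈ Ico a b, LipschitzWith (Real.toNNReal (max C 0)) (A r) := by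
    intro r hr
    have h1 : ‖A r‖ ≤ C := hC (mem_image_of_mem _ ⟨hr.1, hr.2.le⟩)
    exact (A r).lipschitz.weaken (by
      rw [← NNReal.coe_le_coe, Real.coe_toNNReal _ (le_max_right _ _)]
      exact h1.trans (le_max_left _ _))
  have hI : ∀ r ∈ Ico a b, Icc a b ∈ 𝓝[Ici r] r := by
    intro r hr
    exact Icc_mem_nhdsGE_of_mem hr
  exact ODE_solution_unique_of_mem_Icc_right (v := fun r x => A r x) (s := fun _ => univ)
    (K := Real.toNNReal (max C 0)) (fun r hr => (hlip r hr).lipschitzOnWith)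
    (fun r hr => (hx r hr).continuousWithinAt)
    (fun r hr => (hx r ⟨hr.1, hr.2.le⟩).mono_of_mem_nhdsWithin (hI r hr)) (fun _ _ => mem_univ _)
    (fun r hr => (hy r hr).continuousWithinAt)
    (fun r hr => (hy r ⟨hr.1, hr.2.le⟩).mono_of_mem_nhdsWithin (hI r hr)) (fun _ _ => mem_univ _)
    h0

theorem PB.congr {A B : ℝ → V →L[ℝ] V} {a b C : ℝ} {w : ℝ → ℝ} (h : PB A a b C w)
    (hAB : ∀ t ∈ Icc a b, A t = B t) : PB B a b C w := by
  intro s hs t ht u hu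
  refine h s hs t ht u fun r hr => ?_
  rw [hAB r ⟨hs.1.trans hr.1, hr.2.trans ht.2⟩]
  exact hu r hr

end

variable {V : Type} [NormedAddCommGroup V] [InnerProductSpace ℝ V] [CompleteSpace V]

/-- The covector is determined by its equation on `[0,T]`. -/
theorem covec_eq {M : ℝ → V →L[ℝ] V} {T : ℝ} (hM : Continuous M) {k : ℝ → V} {K : V}
    (hk : ∀ t ∈ Icc 0 T, HasDerivWithinAt k (dg M t (k t)) (Icc 0 T) t) (h0 : k 0 = K) :
    ∀ t ∈ Icc 0 T, k t = covec M K t :=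
  ode_unique_Icc (dg_cont hM).continuousOn hk
    (fun t _ => (covec_deriv hM K t).hasDerivWithinAt) (by rw [h0, covec_zero])

theorem covec_congr {M M' : ℝ → V →L[ℝ] V} {T : ℝ} (hM : Continuous M) (hM' : Continuous M')
    (h : ∀ t ∈ Icc 0 T, M t = M' t) (K : V) : ∀ t ∈ Icc 0 T, covec M K t = covec M' K t := by
  refine covec_eq hM' (fun t ht => ?_) (covec_zero M K)
  have h1 := (covec_deriv hM K t).hasDerivWithinAt (s := Icc 0 T)
  rwa [dg, h t ht] at h1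

theorem kelG_congr {M M' : ℝ → V →L[ℝ] V} {T : ℝ} (hM : Continuous M) (hM' : Continuous M')
    (h : ∀ t ∈ Icc 0 T, M t = M' t) (K : V) : ∀ t ∈ Icc 0 T, kelG M K t = kelG M' K t := by
  intro t ht
  rw [kelG, kelG, covec_congr hM hM' h K t ht, h t ht]

theorem kelS_eq {M : ℝ → V →L[ℝ] V} {T : ℝ} (hM : Continuous M) {K v : V} (hK : K ≠ 0) {u : ℝ → V}
    (hu : ∀ t ∈ Icc 0 T, HasDerivWithinAt u (kelG M K t (u t)) (Icc 0 T) t) (h0 : u 0 = v) :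
    ∀ t ∈ Icc 0 T, u t = kelS M K v t :=
  ode_unique_Icc (kelG_cont hM hK).continuousOn hu
    (fun t _ => (kelS_deriv hM hK v t).hasDerivWithinAt) (by rw [h0, kelS_zero])

theorem kelS_congr {M M' : ℝ → V →L[ℝ] V} {T : ℝ} (hM : Continuous M) (hM' : Continuous M')
    (h : ∀ t ∈ Icc 0 T, M t = M' t) {K : V} (hK : K ≠ 0) (v : V) :
    ∀ t ∈ Icc 0 T, kelS M K v t = kelS M' K v t := by
  refine kelS_eq hM' hK (fun t ht => ?_) (kelS_zero M K v)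
  have h1 := (kelS_deriv hM hK v t).hasDerivWithinAt (s := Icc 0 T)
  rwa [kelG_congr hM hM' h K t ht] at h1

theorem kelS_K_smul {M : ℝ → V →L[ℝ] V} (hM : Continuous M) {c : ℝ} (hc : c ≠ 0) (K v : V) :
    kelS M (c • K) v = kelS M K v := by
  unfold kelS
  rw [kelG_smul hM hc]

/-- Bounds of the coarse flow at one label. -/
structure CoL (T b : ℝ) (α : ℝ → ℝ) (M : ℝ → V →L[ℝ] V) (K : V) : Prop where
  cont : Continuous M
  le : ∀ t ∈ Icc 0 T, ‖M t‖ ≤ b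
  fb : FB M 0 T b
  kb : PB (kelG M K) 0 T b α

namespace CoL

theorem congr {T b : ℝ} {α : ℝ → ℝ} {M M' : ℝ → V →L[ℝ] V} {K : V} (h : CoL T b α M K)
    (hM' : Continuous M') (hMM : ∀ t ∈ Icc 0 T, M t = M' t) : CoL T b α M' K where
  cont := hM'
  le := fun t ht => by rw [← hMM t ht]; exact h.le t ht
  fb := ⟨h.fb.flow.congr hMM, h.fb.dual.congr fun t ht => by rw [dg, dg, hMM t ht]⟩
  kb := h.kb.congr (kelG_congr h.cont hM' hMM K)

theorem mono_T {T T' b : ℝ} {α : ℝ → ℝ} {M : ℝ → V →L[ℝ] V} {K : V} (h : CoL T b α M K)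
    (hT : T' ≤ T) : CoL T' b α M K where
  cont := h.cont
  le := fun t ht => h.le t ⟨ht.1, ht.2.trans hT⟩
  fb := h.fb.mono_int le_rfl hT
  kb := h.kb.mono_int le_rfl hT

theorem smul_K {T b : ℝ} {α : ℝ → ℝ} {M : ℝ → V →L[ℝ] V} {K : V} (h : CoL T b α M K) {c : ℝ}
    (hc : c ≠ 0) : CoL T b α M (c • K) where
  cont := h.cont
  le := h.le
  fb := h.fb
  kb := by rw [kelG_smul h.cont hc]; exact h.kb

theorem mono_b {T b b' : ℝ} {α : ℝ → ℝ} {M : ℝ → V →L[ℝ] V} {K : V} (h : CoL T b α M K)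
    (hα : ∀ t ∈ Icc 0 T, 0 < α t) (hb : b ≤ b') : CoL T b' α M K where
  cont := h.cont
  le := fun t ht => (h.le t ht).trans hb
  fb := h.fb.mono_const hb
  kb := h.kb.mono_const hα hb

end CoL

/-! ### The new flow at the label -/

/-- The reference flow `Mt + w kᵀ`. -/
noncomputable def refM (M : ℝ → Op) (K v : E3) (t : ℝ) : Op :=
  M t + ro (kelS M K v t) (covec M K t)

theorem refM_cont {M : ℝ → Op} (hM : Continuous M) {K : E3} (hK : K ≠ 0) (v : E3) :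
    Continuous (refM M K v) :=
  hM.add (ro_cont (kelS_cont hM hK v) (covec_cont hM K))

/-- Size of a wave times the wave vector. -/
theorem wk_le {T b Y : ℝ} {α : ℝ → ℝ} {M : ℝ → Op} {K : E3} (h : CoL T b α M K) (hK : K ≠ 0)
    (hb : 0 ≤ b) {v : E3} (hv : ∀ t ∈ Icc 0 T, α t / α 0 * ‖v‖ * ‖K‖ ≤ Y) :
    ∀ r ∈ Icc 0 T, ∀ t ∈ Icc 0 T, ‖kelS M K v r‖ * ‖covec M K t‖ ≤ b ^ 2 * Y := by
  intro r hr t ht
  have h0 : (0 : ℝ) ∈ Icc 0 T := ⟨le_rfl, ht.1.trans ht.2⟩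
  have h1 := kelS_le h.cont hK h.kb v hr
  have h2 : ‖covec M K t‖ ≤ b * ‖K‖ := by
    have := h.fb.dual_bound h0 ⟨ht.1, ht.2⟩ (x := covec M K)
      (fun y _ => covec_deriv h.cont K y)
    rwa [covec_zero] at this
  calc ‖kelS M K v r‖ * ‖covec M K t‖ ≤ (b * (α r / α 0) * ‖v‖) * (b * ‖K‖) :=
        mul_le_mul h1 h2 (norm_nonneg _) ((norm_nonneg _).trans h1)
    _ = b ^ 2 * (α r / α 0 * ‖v‖ * ‖K‖) := by ring
    _ ≤ b ^ 2 * Y := mul_le_mul_of_nonneg_left (hv r hr) (by positivity)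

/-- The flow of the reference matrix. -/
theorem refM_fb {T b Y : ℝ} {α : ℝ → ℝ} {M : ℝ → Op} {K : E3} (h : CoL T b α M K) (hK : K ≠ 0)
    (hb : 1 ≤ b) (hY : 0 ≤ Y) (hT : T ≤ 1) {v : E3} (hKv : ⟪K, v⟫_ℝ = 0)
    (hv : ∀ t ∈ Icc 0 T, α t / α 0 * ‖v‖ * ‖K‖ ≤ Y) :
    FB (refM M K v) 0 T (b * (1 + b ^ 2 * Y)) := by
  refine FB.rank h.cont (kelS_cont h.cont hK v) (covec_cont h.cont K) hb (by positivity) hT h.fb
    (fun r _ => covec_deriv h.cont K r) (fun r hr => ?_) (wk_le h hK (by linarith) hv)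
  rw [kelS_inner h.cont hK v hr.1, hKv]

theorem refM_le {T b Y : ℝ} {α : ℝ → ℝ} {M : ℝ → Op} {K : E3} (h : CoL T b α M K) (hK : K ≠ 0)
    (hb : 0 ≤ b) {v : E3} (hv : ∀ t ∈ Icc 0 T, α t / α 0 * ‖v‖ * ‖K‖ ≤ Y) {t : ℝ}
    (ht : t ∈ Icc 0 T) : ‖refM M K v t - M t‖ ≤ b ^ 2 * Y := by
  have h1 : refM M K v t - M t = ro (kelS M K v t) (covec M K t) := by
    rw [refM]
    abel
  rw [h1, norm_ro]
  exact wk_le h hK hb hv t ht t ht

/-- Two reference flows with different seeds. -/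
theorem refM_seed {T b ε : ℝ} {α : ℝ → ℝ} {M : ℝ → Op} {K : E3} (h : CoL T b α M K)
    (hK : K ≠ 0) (hb : 0 ≤ b) {v v' : E3}
    (hv : ∀ t ∈ Icc 0 T, α t / α 0 * ‖v - v'‖ * ‖K‖ ≤ ε) {t : ℝ} (ht : t ∈ Icc 0 T) :
    ‖refM M K v t - refM M K v' t‖ ≤ b ^ 2 * ε := by
  have h2 : kelS M K v t - kelS M K v' t = kelS M K (v - v') t := by
    have h3 : kelS M K (v - v') = fun t => kelS M K v t - kelS M K v' t :=
      ode_unique (kelG_cont h.cont hK) 0 (by simp [kelS_zero]) (kelS_deriv h.cont hK _) (fun s => by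
        refine ((kelS_deriv h.cont hK v s).sub (kelS_deriv h.cont hK v' s)).congr_deriv ?_
        simp)
    rw [h3]
  have h1 : refM M K v t - refM M K v' t = ro (kelS M K (v - v') t) (covec M K t) := by
    rw [refM, refM, add_sub_add_left_eq_sub, ro_sub, h2, sub_self]
    simp [ro]
  rw [h1, norm_ro]
  exact wk_le h hK hb hv t ht t ht

/-- Two reference flows over nearby coarse flows. -/
theorem refM_flow {T b ρ Y : ℝ} {α : ℝ → ℝ} {M M' : ℝ → Op} {K : E3} (h : CoL T b α M K)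
    (h' : CoL T b α M' K) (hα : ∀ r ∈ Icc 0 T, 0 < α r) (hK : K ≠ 0) (hb : 1 ≤ b) (hρ : 0 ≤ ρ)
    (hT : T ≤ 1) (hsm : 2 * (b * ρ) ≤ 1) (hMM : ∀ r ∈ Icc 0 T, ‖M r - M' r‖ ≤ ρ) {v : E3}
    (hv : ∀ t ∈ Icc 0 T, α t / α 0 * ‖v‖ * ‖K‖ ≤ Y) {t : ℝ} (ht : t ∈ Icc 0 T) :
    ‖refM M K v t - refM M' K v t‖ ≤ ρ * (1 + 21 * b ^ 7 * Y) := by
  have h0 : (0 : ℝ) ∈ Icc 0 T := ⟨le_rfl, ht.1.trans ht.2⟩
  have hb0 : 0 ≤ b := by linarith
  have hα0 := hα 0 h0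
  have hαt := hα t ht
  have hg : 0 ≤ α t / α 0 := by positivity
  have hw := kelS_diff h.cont h'.cont hα hb hρ hb0 hMM hT hsm h'.fb h'.le hK h.kb h'.kb v v ht
  rw [sub_self, norm_zero, mul_zero, zero_add] at hw
  have hk := h'.fb.covec_diff h.cont h'.cont hb hρ hMM hT hsm K K ht
  rw [sub_self, norm_zero, mul_zero, zero_add] at hk
  have hw' := kelS_le h'.cont hK h'.kb v ht
  have hkk : ‖covec M K t‖ ≤ b * ‖K‖ := by
    have := h.fb.dual_bound h0 ⟨ht.1, ht.2⟩ (x := covec M K)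
      (fun y _ => covec_deriv h.cont K y)
    rwa [covec_zero] at this
  have hY := hv t ht
  have hY0 : 0 ≤ Y := le_trans (by positivity) hY
  have e1 : refM M K v t - refM M' K v t = (M t - M' t) +
      (ro (kelS M K v t) (covec M K t) - ro (kelS M' K v t) (covec M' K t)) := by
    rw [refM, refM]
    abel
  have hb1 : 1 ≤ b ^ 4 := one_le_pow₀ hb
  have hb2 : 1 ≤ b ^ 2 := one_le_pow₀ hb
  have hb3 : 1 ≤ b ^ 3 := one_le_pow₀ hb
  have hb7 : b ^ 3 ≤ b ^ 7 := pow_le_pow_right₀ hb (by norm_num)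
  calc ‖refM M K v t - refM M' K v t‖
      ≤ ρ + (‖kelS M K v t - kelS M' K v t‖ * ‖covec M K t‖ +
        ‖kelS M' K v t‖ * ‖covec M K t - covec M' K t‖) := by
        rw [e1]
        refine (norm_add_le _ _).trans (add_le_add (hMM t ht) (norm_ro_sub_le _ _ _ _))
    _ ≤ ρ + ((α t / α 0 * (b ^ 2 * (3 * ρ + 16 * b * b ^ 3 * ρ) * ‖v‖)) * (b * ‖K‖) +
        (b * (α t / α 0) * ‖v‖) * (2 * b ^ 2 * ρ * ‖K‖)) := by
        gcongr
    _ = ρ * (1 + (3 * b ^ 3 + 16 * b ^ 7 + 2 * b ^ 3) * (α t / α 0 * ‖v‖ * ‖K‖)) := by ring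
    _ ≤ ρ * (1 + 21 * b ^ 7 * Y) := by
        apply mul_le_mul_of_nonneg_left _ hρ
        have h5 : 3 * b ^ 3 + 16 * b ^ 7 + 2 * b ^ 3 ≤ 21 * b ^ 7 := by linarith
        have h6 : 0 ≤ α t / α 0 * ‖v‖ * ‖K‖ := by positivity
        have h7 : (3 * b ^ 3 + 16 * b ^ 7 + 2 * b ^ 3) * (α t / α 0 * ‖v‖ * ‖K‖) ≤
            21 * b ^ 7 * Y := mul_le_mul h5 hY h6 (by positivity)
        linarith

/-- The Kelvin bound of the new wave from a nearby flow `Mr` and a nearby direction. -/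
theorem kb_of_near {T b B δ ang E : ℝ} {α : ℝ → ℝ} {M' Mr : ℝ → Op} {K' Kr : E3}
    (hM' : Continuous M') (hMr : Continuous Mr) (hα : ∀ r ∈ Icc 0 T, 0 < α r)
    (hαc : ContinuousOn α (Icc 0 T)) (hB : 1 ≤ B) (hδ : 0 ≤ δ) (hE : 0 ≤ E) (hT : T ≤ 1)
    (hT0 : 0 ≤ T)
    (hMM : ∀ r ∈ Icc 0 T, ‖M' r - Mr r‖ ≤ δ) (hfb : FB Mr 0 T B)
    (hb : ∀ r ∈ Icc 0 T, ‖Mr r‖ ≤ b) (hK' : K' ≠ 0) (hKr : Kr ≠ 0)
    (hang : ‖‖K'‖⁻¹ • K' - ‖Kr‖⁻¹ • Kr‖ ≤ ang) (hkb : PB (kelG Mr Kr) 0 T E α)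
    (hs1 : 2 * (B * δ) ≤ 1)
    (hs2 : 2 * (E * (3 * δ + 8 * b * (B ^ 2 * ang + 2 * B ^ 3 * δ))) ≤ 1) :
    PB (kelG M' K') 0 T (2 * E) α := by
  have hb0 : 0 ≤ b := (norm_nonneg _).trans (hb 0 ⟨le_rfl, hT0⟩)
  have hang0 : 0 ≤ ang := (norm_nonneg _).trans hang
  refine PB.perturb2 (δ := 3 * δ + 8 * b * (B ^ 2 * ang + 2 * B ^ 3 * δ)) (kelG_cont hMr hKr)
    (kelG_cont hM' hK') hα hαc hE (by positivity) (fun r hr => ?_) (by linarith) hs2 hkb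
  exact hfb.kelG_diff hM' hMr hB hδ hMM hT hs1 hb hK' hKr hang hr

end Pool.Agent.Work.MP_b0497c_an.Unf.K
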