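import Pool.Agent.Work.MP_b0497c_an.Bd.B35
import Pool.Agent.Work.MP_b0497c_an.Unf.A1c
import Pool.Agent.Work.MP_b0497c_an.Bd.B09
import Pool.Agent.Work.MP_b0497c_an.Unf.ONext
import Pool.Agent.Work.MP_b0497c_an.Unf.KDefs
import Pool.Agent.Work.MP_b0497c_an.Unf.KZ3
import Pool.Agent.Work.MP_b0497c_an.Unf.ASeed

set_option autoImplicit false
set_option linter.dupNamespace false

/-!
# Block A (assembly), item A6: the stages of the construction and the list of the step lemmas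

`PreD n`  : the level `n - 1` of the chain and the data of the wave `n` (wave vector, weight,
            seed, centre data `D n` with `HL`, Kelvin bound at all labels);
`StageD n`: `PreD n` and the level `n` of the chain.

step `n → n+1` = half step H (`StageD n → PreD (n+1)`) and half step S (`PreD n → StageD n`).
Base: `PreD 1`.
-/

open scoped ENNReal
open Set MeasureTheory

namespace Pool.Agent.Work.MP_b0497c_an.Unf.A

open W S P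
open Unf.O (LevD NextD)
open Unf.K (rM rV rMt kR dj kelS covec CoL)

/-- The exponent of the envelope of the wave `j`. -/
noncomputable def Aex (x : ℝ) (j : ℕ) : ℕ := ⌈hh x j ^ 10000⌉₊

/-- The vector of the seed of the wave `j`: `V = |l| / |K| v(0)` (then `v nᵀ` is the sheet). -/
noncomputable def Vseed (C : Chain) (j : ℕ) (D : LevD) : E3 :=
  (‖D.l‖ / ‖kR (C.K j)‖) • D.v 0

/-- The data before the level `n` (`n ≥ 1`). -/
structure PreD (x R0 : ℝ) (n : ℕ) (C : Chain) (D : ℕ → LevD) : Prop where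
  an : C.An (n - 1) (uOld x)
  R0_eq : C.R 0 = R0
  R_eq : ∀ l, 1 ≤ l → l < n → C.R l = RR x l
  r_eq : ∀ l, 1 ≤ l → l < n → C.r l = cc x (l - 1) / 8
  K_size : KSize x C.K n
  τ_eq : ∀ j, 1 ≤ j → j < n → C.τ (j + 1) = (D j).T
  τ_pos : 0 < C.τ n
  τ_le : C.τ n ≤ C.τ (n - 1)
  T_le : (D n).T ≤ C.τ n
  hl : ∀ j, 1 ≤ j → j ≤ n → (D j).HL
  b_eq : ∀ j, 1 ≤ j → j ≤ n → (D j).b = bb x j
  h_eq : ∀ j, 1 ≤ j → j ≤ n → (D j).h = hh x j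
  k0_eq : ∀ j, 1 ≤ j → j ≤ n → (D j).k0 = P.k0 x j
  k2_eq : ∀ j, 1 ≤ j → j ≤ n → (D j).k2 = k2f x j
  c_low : ∀ j, 1 ≤ j → j ≤ n → cn x j / 2 ≤ (D j).c
  c_upp : ∀ j, 1 ≤ j → j ≤ n → (D j).c ≤ 2 * cn x j
  κ_low : ∀ j, 1 ≤ j → j ≤ n → 1 - (1 - (1 / 2) ^ j) / 10 ≤ (D j).kap
  κ_upp : ∀ j, 1 ≤ j → j ≤ n → (D j).kap ≤ 1 + (1 - (1 / 2) ^ j) / 10
  al_one : (D 1).al = fun _ => aa x 1
  al_succ : ∀ j, 1 ≤ j → j < n → (D (j + 1)).al = (D j).alp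
  t_succ : ∀ j, 1 ≤ j → j < n → (D (j + 1)).t0 = (D j).t1
  tn_eq : ∀ j, 1 ≤ j → j ≤ n → C.tn j = (D j).t0
  α_eq : ∀ j, 1 ≤ j → j ≤ n → C.α j = fun t => aa x j * ((D j).al t / (D j).al (D j).t0)
  A_eq : (D n).A = rMt 0 (C.τ n) (C.M (n - 1))
  l_eq : (‖(D n).l‖)⁻¹ • (D n).l = (‖kR (C.K n)‖)⁻¹ • kR (C.K n)
  w_eq : C.w n = seed C.K (Aex x n) n (ofC (Vseed C n (D n)))
  kb : ∀ θ : Md →+ ℝ, CoL (C.τ n) (bb x n) (C.α n) (rMt θ (C.τ n) (C.M (n - 1))) (kR (C.K n))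
  w_le : ∀ j, 1 ≤ j → j < n →
    sN (cc x j / 8) (C.w (j + 1)) ≤ ENNReal.ofReal (Real.exp (-(gg x j)))
  M_ge : ∀ j, 1 ≤ j → j < n → Lr x j ≤ ‖C.Mc j (C.tn j)‖

/-- The data of the stage `n` (`n ≥ 1`). -/
structure StageD (x R0 : ℝ) (n : ℕ) (C : Chain) (D : ℕ → LevD) : Prop where
  pre : PreD x R0 n C D
  an : C.An n (uOld x)
  R_eq : C.R n = RR x n
  r_eq : C.r n = cc x (n - 1) / 8
  lip : ∀ t ∈ Icc 0 (C.τ n), ∀ t' ∈ Icc 0 (C.τ n),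
    ‖C.Mc n t - C.Mc n t'‖ ≤ bP x (n - 1) * |t - t'|
  M_ge : Lr x n ≤ ‖C.Mc n (C.tn n)‖

/-- The stage `n`. -/
def Stage (x R0 : ℝ) (n : ℕ) (C : Chain) : Prop := ∃ D, StageD x R0 n C D

/-! ### The chain with changed data of one level -/

/-- Data of the wave `j` put into the chain. -/
noncomputable def Chain.putW (C : Chain) (j : ℕ) (k : Fin 3 → ℤ) (τ t : ℝ) (α : ℝ → ℝ)
    (w : Md → C3) : Chain :=
  { C with
    K := Function.update C.K j k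
    τ := Function.update C.τ j τ
    tn := Function.update C.tn j t
    α := Function.update C.α j α
    w := Function.update C.w j w }

/-- `s` and `Φ` of the class `j` put into the chain. -/
noncomputable def Chain.putS (C : Chain) (j : ℕ) (s : ℝ → Md → ℂ) (Φ : ℝ → ℝ → Md → Mat) : Chain :=
  { C with
    s := Function.update C.s j s
    Φ := Function.update C.Φ j Φ }

/-- The flow of the level `j` put into the chain. -/
noncomputable def Chain.putL (C : Chain) (j : ℕ) (r R : ℝ) (X U A : ℝ → Md → C3) (p : ℝ → Md → ℂ)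
    (F Fi M : ℝ → Md → Mat) (z a : ℝ → Md → C3) : Chain :=
  { C with
    r := Function.update C.r j r
    R := Function.update C.R j R
    X := Function.update C.X j X
    U := Function.update C.U j U
    A := Function.update C.A j A
    p := Function.update C.p j p
    F := Function.update C.F j F
    Fi := Function.update C.Fi j Fi
    M := Function.update C.M j M
    z := Function.update C.z j z
    a := Function.update C.a j a }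

/-! ### Half step S: `PreD n → StageD n` (`n ≥ 1`; all with `Big`, `PU`, `X0`) -/

/-- The standing hypotheses on the parameters. `R0` = constant of the base level. -/
structure Par0 (x R0 c₀ X0 : ℝ) : Prop where
  big : Big c₀ x
  pu : PU x
  R0_two : 2 ≤ R0
  X0_one : 1 ≤ X0
  X0_ge : (10 ^ 6 * R0) ^ 2000 ≤ X0
  X0_le : X0 ^ 3 ≤ c₀

/-- LSe: the sheet of the seed at every real label. -/
def LSe : Prop := ∀ (x R0 c₀ X0 : ℝ) (n : ℕ) (C : Chain) (D : ℕ → LevD), 1 ≤ n →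
  Par0 x R0 c₀ X0 → PreD x R0 n C D → inner ℝ (kR (C.K n)) (Vseed C n (D n)) = 0 ∧
  (Summable fun q => ‖C.w n q‖) ∧ (Summable fun q => ‖dj n (C.w n) q‖) ∧
  ∀ θ : Md →+ ℝ, ‖rV θ (dj n (C.w n)) -
    (Real.cos (θ (em n)) * envR (Aex x n) n θ) • Vseed C n (D n)‖ ≤
      Real.exp (-(Lr x n) / 4) * ‖Vseed C n (D n)‖

/-- LSh: the velocity gradient of level `n` at the centre. -/
def LSh : Prop := ∀ (x R0 c₀ X0 : ℝ) (n : ℕ) (C : Chain) (D : ℕ → LevD), 1 ≤ n →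
  Par0 x R0 c₀ X0 → PreD x R0 n C D → C.An n (uOld x) →
  ∀ t ∈ Icc 0 (D n).T, ‖C.Mc n t - (D n).fam.M 1 t‖ ≤ (hh x n ^ (10 ^ 9))⁻¹

/-- LS1: the weights (A6), (A7) of the step `m → m + 1`. -/
def LS1 : Prop := ∀ (x R0 c₀ X0 : ℝ) (m : ℕ) (C : Chain) (D : ℕ → LevD),
  Par0 x R0 c₀ X0 → PreD x R0 (m + 1) C D →
  Wgt C m (GG x m) (bet x X0 m) ∧ Wt (C.τ (m + 1)) (C.α (m + 1)) ∧
    (∀ t ∈ Icc 0 (C.τ (m + 1)), C.α (m + 1) t ≤ 2 * aa x (m + 1))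

/-- LS2: `s` and `Φ` of the new class. -/
def LS2 : Prop := ∀ (x R0 c₀ X0 : ℝ) (m : ℕ) (C : Chain) (D : ℕ → LevD),
  Par0 x R0 c₀ X0 → PreD x R0 (m + 1) C D → ∃ (s : ℝ → Md → ℂ) (Φ : ℝ → ℝ → Md → Mat),
  New C.K (C.τ (m + 1)) (cc x m) (GG x m) (C.α (m + 1)) (m + 1) (C.Fi m) (C.M m) s Φ

/-- LS4: the seed. -/
def LS4 : Prop := ∀ (x R0 c₀ X0 : ℝ) (m : ℕ) (C : Chain) (D : ℕ → LevD),
  Par0 x R0 c₀ X0 → PreD x R0 (m + 1) C D →
  Seed (C.dat m (cc x m) (GG x m) (bet x X0 m) (uu x m)) (C.w (m + 1)) ∧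
  OddV (C.w (m + 1)) ∧ SuppIn (Cl (m + 1)) (C.w (m + 1))

/-- LS5: the flow of the new level, abstract form (block L). `T = τ (m+1)`, `c`, `G`, `u` of the
step `m → m + 1`; the new level has the radius `c / 8` and any constant `R ≥ (8 G / c)^1000`. -/
def LS5 : Prop := ∀ (C : Chain) (m : ℕ) (c G β R : ℝ) (u v : ℕ → ℝ), C.An m v →
  (C.dat m c G β u).Hyp → C.τ (m + 1) ≤ C.τ m → Seed (C.dat m c G β u) (C.w (m + 1)) →
  OddV (C.w (m + 1)) → (G * (8 / c)) ^ 1000 ≤ R → u (m + 1) = v (m + 1) ^ 8 → 0 < v (m + 1) →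
  v (m + 1) < 1 → c ≤ C.r m → C.R m ≤ G →
  (∀ t ∈ Icc 0 (C.τ (m + 1)), ∀ t' ∈ Icc 0 (C.τ (m + 1)),
    ‖rM 0 (C.M m t) - rM 0 (C.M m t')‖ ≤ G * |t - t'|) →
  ∃ (X U A : ℝ → Md → C3) (p : ℝ → Md → ℂ) (F Fi M : ℝ → Md → Mat) (z a : ℝ → Md → C3),
    Lvl C.K (C.τ (m + 1)) (c / 8) R (m + 1) X U A p F Fi M ∧
    Sht C.K (C.τ (m + 1)) (c / 8) R (v (m + 1)) (C.α (m + 1)) (m + 1) (C.F m) (C.Fi m) (C.M m)
      F Fi M z a (C.s (m + 1)) (C.Φ (m + 1)) (C.w (m + 1)) ∧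
    U 0 = C.U m 0 + C.w (m + 1) ∧
    ∀ t ∈ Icc 0 (C.τ (m + 1)), ∀ t' ∈ Icc 0 (C.τ (m + 1)),
      ‖rM 0 (M t) - rM 0 (M t')‖ ≤ G ^ 27 * |t - t'|

/-- LSv: the vorticity law at the centre (Cauchy's formula). -/
def LSv : Prop := ∀ (K : ℕ → Fin 3 → ℤ) (T r R : ℝ) (l : ℕ) (X U A : ℝ → Md → C3)
  (p : ℝ → Md → ℂ) (F Fi M : ℝ → Md → Mat), Lvl K T r R l X U A p F Fi M →
  ∀ θ : Md →+ ℝ, ∀ t ∈ Icc 0 T, axial (rM θ (M t)) = rM θ (F t) (axial (rM θ (M 0)))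

/-- LS7: the velocity gradient at the centre at the time `t_n`. -/
def LS7 : Prop := ∀ (x R0 c₀ X0 : ℝ) (n : ℕ) (C : Chain) (D : ℕ → LevD), 1 ≤ n →
  Par0 x R0 c₀ X0 → PreD x R0 n C D → C.An n (uOld x) → Lr x n ≤ ‖C.Mc n (C.tn n)‖

/-- LG: growth of the weight in the window. -/
def LG : Prop := ∀ D : LevD, D.HL → ∀ s ∈ Icc 0 D.s0,
  D.alp s * Real.exp (4 / Real.sqrt (D.c * D.k0)) ≤ D.alp D.t1

/-- Half step S. -/
def HalfS : Prop := ∀ (x R0 c₀ X0 : ℝ) (n : ℕ) (C : Chain) (D : ℕ → LevD), 1 ≤ n →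
  Par0 x R0 c₀ X0 → PreD x R0 n C D → ∃ C' : Chain, C.Agree C' (n - 1) ∧ StageD x R0 n C' D

/-! ### Half step H: `StageD n → PreD (n + 1)` -/

/-- The exact data of the next level. -/
noncomputable def nxt (x : ℝ) (n : ℕ) (C : Chain) (D : LevD) (k : Fin 3 → ℤ)
    (F Fi : ℝ → Forced.Ode.Op) : NextD where
  A := rMt 0 D.T (C.M n)
  F := F
  Fi := Fi
  Om := axial (rMt 0 D.T (C.M n) 0)
  K := kR k
  V := kelS (rMt 0 D.T (C.M n)) (kR k) (D.seed (kR k))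
  b := bb x (n + 1)
  bp := bP x (n - 1)
  h := hh x (n + 1)
  k0 := P.k0 x (n + 1)
  k2 := k2f x (n + 1)

/-- LH1: the wave vector. -/
def LH1 : Prop := ∀ (x R0 c₀ X0 : ℝ) (n : ℕ) (C : Chain) (D : ℕ → LevD), 1 ≤ n →
  Par0 x R0 c₀ X0 → StageD x R0 n C D → ∃ k : Fin 3 → ℤ,
  Real.exp (Lr x (n + 1)) / 2 ≤ ‖kv k‖ ∧ ‖kv k‖ ≤ 2 * Real.exp (Lr x (n + 1)) ∧
  ‖(‖kR k‖)⁻¹ • kR k - (‖(D n).Kn‖)⁻¹ • (D n).Kn‖ ≤ 8 / Real.exp (Lr x (n + 1))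

/-- The wave vector of the wave `n + 1` is admissible. -/
structure KOK (x : ℝ) (n : ℕ) (D : LevD) (k : Fin 3 → ℤ) : Prop where
  low : Real.exp (Lr x (n + 1)) / 2 ≤ ‖kv k‖
  upp : ‖kv k‖ ≤ 2 * Real.exp (Lr x (n + 1))
  dir : ‖(‖kR k‖)⁻¹ • kR k - (‖D.Kn‖)⁻¹ • D.Kn‖ ≤ 8 / Real.exp (Lr x (n + 1))

/-- The global flow `F`, `Fi` of the centre path. -/
structure Glob (A F Fi : ℝ → Forced.Ode.Op) : Prop where
  der : ∀ t, HasDerivAt F ((A t).comp (F t)) t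
  zero : F 0 = ContinuousLinearMap.id ℝ E3
  FFi : ∀ t, (F t).comp (Fi t) = ContinuousLinearMap.id ℝ E3
  FiF : ∀ t, (Fi t).comp (F t) = ContinuousLinearMap.id ℝ E3

/-- LH3: the exact data of the next level satisfy `(so)`. -/
def LH3 : Prop := ∀ (x R0 c₀ X0 : ℝ) (n : ℕ) (C : Chain) (D : ℕ → LevD) (k : Fin 3 → ℤ)
  (F Fi : ℝ → Forced.Ode.Op), 1 ≤ n → Par0 x R0 c₀ X0 → StageD x R0 n C D → KOK x n (D n) k →
  Glob (rMt 0 (D n).T (C.M n)) F Fi → (D n).So (nxt x n C (D n) k F Fi)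

/-- LH5: the Kelvin bound of the new wave at all labels (theorem K). -/
def LH5 : Prop := ∀ (x R0 c₀ X0 : ℝ) (n : ℕ) (C : Chain) (D : ℕ → LevD) (k : Fin 3 → ℤ)
  (F Fi : ℝ → Forced.Ode.Op), 1 ≤ n → Par0 x R0 c₀ X0 → StageD x R0 n C D → KOK x n (D n) k →
  Glob (rMt 0 (D n).T (C.M n)) F Fi → (D n).So (nxt x n C (D n) k F Fi) →
  ∀ θ : Md →+ ℝ, CoL (D n).T (bb x (n + 1))
    (fun t => aa x (n + 1) * ((D n).alp t / (D n).alp (D n).t1)) (rMt θ (D n).T (C.M n)) (kR k)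

/-- LH8: the seed of the new wave is tiny. -/
def LH8 : Prop := ∀ (x R0 c₀ X0 : ℝ) (n : ℕ) (C : Chain) (D : ℕ → LevD) (k : Fin 3 → ℤ)
  (F Fi : ℝ → Forced.Ode.Op), 1 ≤ n → Par0 x R0 c₀ X0 → StageD x R0 n C D → KOK x n (D n) k →
  Glob (rMt 0 (D n).T (C.M n)) F Fi → (D n).So (nxt x n C (D n) k F Fi) →
  ((D n).next (nxt x n C (D n) k F Fi)).HL →
  ∀ (K' : ℕ → Fin 3 → ℤ) (V : E3), K' (n + 1) = k →
    V = (‖((D n).next (nxt x n C (D n) k F Fi)).l‖ / ‖kR k‖) •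
      ((D n).next (nxt x n C (D n) k F Fi)).v 0 →
    sN (cc x n / 8) (seed K' (Aex x (n + 1)) (n + 1) (ofC V)) ≤
      ENNReal.ofReal (Real.exp (-(gg x n)))

/-- Half step H. -/
def HalfH : Prop := ∀ (x R0 c₀ X0 : ℝ) (n : ℕ) (C : Chain) (D : ℕ → LevD), 1 ≤ n →
  Par0 x R0 c₀ X0 → StageD x R0 n C D →
  ∃ (C' : Chain) (D' : ℕ → LevD), C.Agree C' n ∧ PreD x R0 (n + 1) C' D'

/-- Base: for all large `x` there are base data, with an absolute constant `R0`. -/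
def Base : Prop := ∃ R0 : ℝ, 2 ≤ R0 ∧ ∃ x₀ : ℝ, ∀ x ≥ x₀, ∃ (C : Chain) (D : ℕ → LevD),
  PreD x R0 1 C D

/-- Locality. -/
def Loc : Prop := ∀ (x R0 : ℝ) (n : ℕ) (C C' : Chain), 1 ≤ n → C.Agree C' n →
  Stage x R0 n C → Stage x R0 n C'

end Pool.Agent.Work.MP_b0497c_an.Unf.A
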