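import Pool.Agent.Work.MP_b0497c_an.Unf.ST81
import Pool.Agent.Work.MP_b0497c_an.Bd.B03

set_option autoImplicit false
set_option linter.unusedSectionVars false

/-!
# S25: the divergence is preserved (helper81)
-/

open scoped ENNReal
open Set MeasureTheory

namespace Pool.Agent.Work.MP_b0497c_an.Unf.S

open W T81

namespace T81

/-- Termwise differentiation of a series on `[0,T]` (one sided derivatives at the end points). -/
theorem hasDerivWithinAt_tsum_Icc {ι E : Type} [NormedAddCommGroup E] [NormedSpace ℝ E]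
    [CompleteSpace E] {T : ℝ} {g g' : ι → ℝ → E} {u : ι → ℝ} (hu : Summable u)
    (hg : ∀ i, ∀ t ∈ Icc 0 T, HasDerivWithinAt (g i) (g' i t) (Icc 0 T) t)
    (hb : ∀ i, ∀ t ∈ Icc 0 T, ‖g' i t‖ ≤ u i)
    (hs : ∀ t ∈ Icc 0 T, Summable fun i => g i t) :
    ∀ t ∈ Icc 0 T, HasDerivWithinAt (fun t => ∑' i, g i t) (∑' i, g' i t) (Icc 0 T) t := by
  intro t ht
  rw [hasDerivWithinAt_iff_tendsto_slope]
  have h1 : Filter.Tendsto (fun y => ∑' i, slope (g i) t y) (nhdsWithin t (Icc 0 T \ {t}))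
      (nhds (∑' i, g' i t)) := by
    refine tendsto_tsum_of_dominated_convergence hu (fun i => ?_) ?_
    · exact hasDerivWithinAt_iff_tendsto_slope.1 (hg i t ht)
    · filter_upwards [self_mem_nhdsWithin] with y hy i
      have hne : y - t ≠ 0 := sub_ne_zero.2 hy.2
      have h2 := Convex.norm_image_sub_le_of_norm_hasDerivWithin_le (f := g i) (f' := g' i)
        (fun x hx => hg i x hx) (fun x hx => hb i x hx) (convex_Icc 0 T) ht hy.1
      rw [slope_def_module, norm_smul, norm_inv]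
      rw [inv_mul_le_iff₀ (norm_pos_iff.2 hne), mul_comm]
      exact h2
  refine h1.congr' ?_
  filter_upwards [self_mem_nhdsWithin] with y hy
  rw [slope_def_module, ← (hs y hy.1).tsum_sub (hs t ht), ← tsum_const_smul'']
  simp only [slope_def_module]

theorem hasDeriv_apply {E F : Type} [NormedAddCommGroup E] [NormedSpace ℂ E]
    [NormedAddCommGroup F] [NormedSpace ℂ F] {A : ℝ → (E →L[ℂ] F)} {x : ℝ → E}
    {A' : E →L[ℂ] F} {x' : E} {s : Set ℝ} {t : ℝ} (hA : HasDerivWithinAt A A' s t)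
    (hx : HasDerivWithinAt x x' s t) :
    HasDerivWithinAt (fun t => A t (x t)) (A' (x t) + A t x') s t := by
  have hb := (isBoundedBilinearMap_apply (𝕜 := ℂ) (E := E) (F := F)).hasFDerivAt (A t, x t)
  have h := (hb.restrictScalars ℝ).comp_hasDerivWithinAt t (hA.prodMk hx)
  refine h.congr_deriv ?_
  simp [add_comm]

section time

variable {E F G : Type} [NormedAddCommGroup E] [NormedSpace ℂ E] [NormedAddCommGroup F]
  [NormedSpace ℂ F] [NormedAddCommGroup G] [NormedSpace ℂ G] {T : ℝ}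

theorem wt_one (T : ℝ) : Wt T Dat.one' :=
  ⟨fun _ _ => one_pos, continuousOn_const, fun _ _ _ _ _ => le_rfl⟩

/-- The time dependent norm. -/
noncomputable abbrev TN (T r : ℝ) (f : ℝ → Md → E) : ℝ≥0∞ := Nrm T r 0 Dat.one' f

theorem par0 {r : ℝ} (hT : 0 < T) (hr : 0 ≤ r) : Par T r 0 :=
  ⟨hT, le_rfl, by rw [zero_mul]; exact hr⟩

theorem TN_mono {r r' : ℝ} (h : r' ≤ r) (f : ℝ → Md → E) : TN T r' f ≤ TN T r f := by
  unfold TN Nrm
  refine ENNReal.tsum_le_tsum fun m => iSup₂_mono fun t _ => ?_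
  refine mul_le_mul' (ENNReal.ofReal_le_ofReal ?_) le_rfl
  unfold Dat.one'
  rw [div_one, div_one, zero_mul, sub_zero, sub_zero]
  exact Real.exp_le_exp.2 (mul_le_mul_of_nonneg_right h (len_nonneg m))

theorem TN_fin_mono {r r' : ℝ} (h : r' ≤ r) {f : ℝ → Md → E} (hf : TN T r f ≠ ∞) :
    TN T r' f ≠ ∞ := ne_top_of_le_ne_top hf (TN_mono h f)

theorem TN_static {r t : ℝ} (ht : t ∈ Icc 0 T) (f : ℝ → Md → E) : sN r (f t) ≤ TN T r f := by
  unfold TN Nrm sN
  refine ENNReal.tsum_le_tsum fun m => ?_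
  refine le_trans (le_of_eq ?_) (le_iSup₂ (f := fun t (_ : t ∈ Icc 0 T) =>
    ENNReal.ofReal (Real.exp ((r - 0 * t) * len m) / Dat.one' t) * ‖f t m‖ₑ) t ht)
  simp [Dat.one']

theorem TN_congr {r : ℝ} {f g : ℝ → Md → E} (h : ∀ t ∈ Icc 0 T, f t = g t) :
    TN T r f = TN T r g := by
  unfold TN Nrm
  refine tsum_congr fun m => iSup_congr fun t => iSup_congr fun ht => ?_
  rw [h t ht]

theorem TN_add_fin {r : ℝ} {f g : ℝ → Md → E} (hf : TN T r f ≠ ∞) (hg : TN T r g ≠ ∞) :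
    TN T r (fun t => f t + g t) ≠ ∞ := by
  refine ne_top_of_le_ne_top (ENNReal.add_ne_top.2 ⟨hf, hg⟩) ?_
  unfold TN Nrm
  rw [← ENNReal.tsum_add]
  refine ENNReal.tsum_le_tsum fun m => iSup₂_le fun t ht => ?_
  refine le_trans ?_ (add_le_add
    (le_iSup₂ (f := fun t (_ : t ∈ Icc 0 T) =>
      ENNReal.ofReal (Real.exp ((r - 0 * t) * len m) / Dat.one' t) * ‖f t m‖ₑ) t ht)
    (le_iSup₂ (f := fun t (_ : t ∈ Icc 0 T) =>
      ENNReal.ofReal (Real.exp ((r - 0 * t) * len m) / Dat.one' t) * ‖g t m‖ₑ) t ht))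
  rw [← mul_add]
  exact mul_le_mul' le_rfl (enorm_add_le _ _)

theorem TN_fin_of_le {r : ℝ} {f : ℝ → Md → E} {g : ℝ → Md → F} (a : ℝ≥0∞) (ha : a ≠ ∞)
    (h : ∀ t ∈ Icc 0 T, ∀ q, ‖g t q‖ₑ ≤ a * ‖f t q‖ₑ) (hf : TN T r f ≠ ∞) : TN T r g ≠ ∞ := by
  refine ne_top_of_le_ne_top (ENNReal.mul_ne_top ha hf) ?_
  unfold TN Nrm
  rw [← ENNReal.tsum_mul_left]
  refine ENNReal.tsum_le_tsum fun m => iSup₂_le fun t ht => ?_
  refine le_trans ?_ (mul_le_mul' le_rfl (le_iSup₂ (f := fun t (_ : t ∈ Icc 0 T) =>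
      ENNReal.ofReal (Real.exp ((r - 0 * t) * len m) / Dat.one' t) * ‖f t m‖ₑ) t ht))
  rw [mul_left_comm]
  exact mul_le_mul' le_rfl (h t ht m)

theorem TN_fin_len {c c' : ℝ} (h : c' < c) {f : ℝ → Md → E} {g : ℝ → Md → F} (B : ℝ) (hB : 0 ≤ B)
    (hfg : ∀ t ∈ Icc 0 T, ∀ q, ‖g t q‖ ≤ B * len q * ‖f t q‖) (hf : TN T c f ≠ ∞) :
    TN T c' g ≠ ∞ := by
  have hd : 0 < c - c' := sub_pos.2 h
  refine ne_top_of_le_ne_top (ENNReal.mul_ne_top
    (ENNReal.ofReal_ne_top (r := B / (c - c'))) hf) ?_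
  unfold TN Nrm
  rw [← ENNReal.tsum_mul_left]
  refine ENNReal.tsum_le_tsum fun m => iSup₂_le fun t ht => ?_
  refine le_trans ?_ (mul_le_mul' le_rfl (le_iSup₂ (f := fun t (_ : t ∈ Icc 0 T) =>
      ENNReal.ofReal (Real.exp ((c - 0 * t) * len m) / Dat.one' t) * ‖f t m‖ₑ) t ht))
  unfold Dat.one'
  rw [div_one, div_one, zero_mul, sub_zero, sub_zero]
  rw [← ofReal_norm, ← ofReal_norm, ← ENNReal.ofReal_mul (Real.exp_pos _).le,
    ← ENNReal.ofReal_mul (Real.exp_pos _).le, ← ENNReal.ofReal_mul (by positivity)]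
  apply ENNReal.ofReal_le_ofReal
  have h1 : (c - c') * len m ≤ Real.exp ((c - c') * len m) := by
    have := Real.add_one_le_exp ((c - c') * len m)
    linarith
  have h2 : Real.exp (c' * len m) * Real.exp ((c - c') * len m) = Real.exp (c * len m) := by
    rw [← Real.exp_add]; congr 1; ring
  have hl : 0 ≤ len m := len_nonneg m
  calc Real.exp (c' * len m) * ‖g t m‖ ≤ Real.exp (c' * len m) * (B * len m * ‖f t m‖) := by
        gcongr; exact hfg t ht m
    _ = B / (c - c') * (Real.exp (c' * len m) * ((c - c') * len m)) * ‖f t m‖ := by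
        field_simp
    _ ≤ B / (c - c') * (Real.exp (c' * len m) * Real.exp ((c - c') * len m)) * ‖f t m‖ := by
        gcongr
    _ = B / (c - c') * (Real.exp (c * len m) * ‖f t m‖) := by rw [h2]; ring

theorem KN_mono {r r' : ℝ} (h : r' ≤ r) (A : ℝ → Md → Md → (E →L[ℂ] F)) : KN T r' A ≤ KN T r A := by
  unfold KN
  refine ENNReal.tsum_le_tsum fun m => mul_le_mul' (ENNReal.ofReal_le_ofReal ?_) le_rfl
  exact Real.exp_le_exp.2 (mul_le_mul_of_nonneg_right h (len_nonneg m))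

theorem KN_mulK {r : ℝ} (hr : 0 ≤ r) (a : ℝ → Md → (E →L[ℂ] F)) :
    KN T r (fun t => mulK (a t)) = TN T r a := (pr_W09 Md E F F T r hr).2.2.2.1 a

theorem TN_act {r : ℝ} (hT : 0 < T) (hr : 0 ≤ r) {A : ℝ → Md → Md → (E →L[ℂ] F)}
    {f : ℝ → Md → E} (hA : KN T r A ≠ ∞) (hf : TN T r f ≠ ∞) :
    TN T r (fun t => act (A t) (f t)) ≠ ∞ :=
  ne_top_of_le_ne_top (ENNReal.mul_ne_top hA hf)
    (pr_W01 Md E F T r 0 Dat.one' A f (par0 hT hr) (wt_one T))

theorem TN_mul {r : ℝ} (hT : 0 < T) (hr : 0 ≤ r) {a : ℝ → Md → (E →L[ℂ] F)}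
    {f : ℝ → Md → E} (ha : TN T r a ≠ ∞) (hf : TN T r f ≠ ∞) :
    TN T r (fun t => mul (a t) (f t)) ≠ ∞ := by
  refine TN_act hT hr (A := fun t => mulK (a t)) ?_ hf
  rw [KN_mulK hr]
  exact ha

theorem TN_conv {r : ℝ} (hT : 0 < T) (hr : 0 ≤ r) (β : E →L[ℂ] F →L[ℂ] G) {f : ℝ → Md → E}
    {g : ℝ → Md → F} (hf : TN T r f ≠ ∞) (hg : TN T r g ≠ ∞) :
    TN T r (fun t => conv β (f t) (g t)) ≠ ∞ := by
  have h := pr_W02 Md E F G T r 0 Dat.one' Dat.one' β f g (par0 hT hr) (wt_one T) (wt_one T)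
  have e : (fun t => Dat.one' t * Dat.one' t) = Dat.one' := by
    funext t; simp [Dat.one']
  rw [e] at h
  exact ne_top_of_le_ne_top (ENNReal.mul_ne_top (ENNReal.mul_ne_top enorm_ne_top hf) hg) h

/-- The modes have a summable majorant. -/
theorem TN_major {r : ℝ} (hr : 0 ≤ r) {f : ℝ → Md → E} (hf : TN T r f ≠ ∞) :
    ∃ u : Md → ℝ, Summable u ∧ (∀ q, 0 ≤ u q) ∧ ∀ t ∈ Icc 0 T, ∀ q, ‖f t q‖ ≤ u q := by
  have h0 : (∑' m, ⨆ t ∈ Icc 0 T, ‖f t m‖ₑ) ≠ ∞ := by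
    refine ne_top_of_le_ne_top hf ?_
    unfold TN Nrm
    refine ENNReal.tsum_le_tsum fun m => iSup₂_mono fun t _ => ?_
    refine le_mul_of_one_le_left zero_le ?_
    rw [← ENNReal.ofReal_one]
    apply ENNReal.ofReal_le_ofReal
    unfold Dat.one'
    rw [div_one, zero_mul, sub_zero]
    exact Real.one_le_exp (mul_nonneg hr (len_nonneg m))
  refine ⟨fun m => (⨆ t ∈ Icc 0 T, ‖f t m‖ₑ).toReal, ENNReal.summable_toReal h0,
    fun q => ENNReal.toReal_nonneg, fun t ht q => ?_⟩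
  have h1 : ‖f t q‖ₑ ≤ ⨆ t ∈ Icc 0 T, ‖f t q‖ₑ :=
    le_iSup₂ (f := fun t (_ : t ∈ Icc 0 T) => ‖f t q‖ₑ) t ht
  have h2 : (⨆ t ∈ Icc 0 T, ‖f t q‖ₑ) ≠ ∞ :=
    ENNReal.ne_top_of_tsum_ne_top h0 q
  have h3 := ENNReal.toReal_mono h2 h1
  rwa [toReal_enorm] at h3

end time

end T81

theorem s25 (h01 : S01) (h03 : S03) (h16 : W16) : S25 := by
  intro D w HD hcm hsupp hfin hdiv hder
  have hT := HD.T_pos
  have hc := HD.c_pos
  set n := D.n with hn
  have hmn : D.m ≤ n := HD.hmn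
  -- a smaller radius
  have w2 : TN D.T (D.c / 2) w ≠ ∞ := by
    refine ne_top_of_le_ne_top hfin ?_
    unfold TN Nrm
    refine ENNReal.tsum_le_tsum fun m => iSup₂_mono fun t ht => ?_
    refine mul_le_mul' (ENNReal.ofReal_le_ofReal ?_) le_rfl
    unfold Dat.one'
    rw [div_one, div_one, zero_mul, sub_zero]
    apply Real.exp_le_exp.2
    refine mul_le_mul_of_nonneg_right ?_ (len_nonneg m)
    rw [HD.γ_eq]
    have h1 : D.c / (2 * D.T) * t ≤ D.c / (2 * D.T) * D.T :=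
      mul_le_mul_of_nonneg_left ht.2 (by positivity)
    have h2 : D.c / (2 * D.T) * D.T = D.c / 2 := by field_simp
    linarith
  have hc2 : 0 ≤ D.c / 2 := by positivity
  have hc4 : 0 ≤ D.c / 4 := by positivity
  have h42 : D.c / 4 ≤ D.c / 2 := by linarith
  have h4c : D.c / 4 ≤ D.c := by linarith
  have h2c : D.c / 2 ≤ D.c := by linarith
  obtain ⟨hF1, hFi1, hM1⟩ := HD.F_le n hmn le_rfl
  have hFi : TN D.T D.c (D.Fi n) ≠ ∞ := ne_top_of_le_ne_top ENNReal.ofReal_ne_top hFi1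
  have hM : TN D.T D.c (D.M n) ≠ ∞ := ne_top_of_le_ne_top ENNReal.ofReal_ne_top hM1
  have hPl : KN D.T D.c (D.Pl n) ≠ ∞ :=
    ne_top_of_le_ne_top ENNReal.ofReal_ne_top (HD.P_le n hmn le_rfl).1
  have hPl4 : KN D.T (D.c / 4) (D.Pl n) ≠ ∞ := ne_top_of_le_ne_top hPl (KN_mono h4c _)
  have hFi2 : TN D.T (D.c / 2) (D.Fi n) ≠ ∞ := TN_fin_mono h2c hFi
  have hFi4 : TN D.T (D.c / 4) (D.Fi n) ≠ ∞ := TN_fin_mono h4c hFi
  have hM4 : TN D.T (D.c / 4) (D.M n) ≠ ∞ := TN_fin_mono h4c hM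
  have w4 : TN D.T (D.c / 4) w ≠ ∞ := TN_fin_mono h42 w2
  have hV2 : TN D.T (D.c / 2) (fun t => mul (D.Fi n t) (w t)) ≠ ∞ := TN_mul hT hc2 hFi2 w2
  have hH2 : TN D.T (D.c / 2) (fun t => conv outerB (w t) (mul (D.Fi n t) (w t))) ≠ ∞ :=
    TN_conv hT hc2 outerB w2 hV2
  -- supports
  have sFi : SuppT D.T (lev n : Set Md) (D.Fi n) := (HD.F_supp n hmn le_rfl).2.1
  have hle : lev n ≤ lev (n + 1) := fun q hq i hi => hq i (by omega)
  set B : ℝ → Md → C3 := fun t q =>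
    Complex.I • (conv outerB (w t) (mul (D.Fi n t) (w t)) q) (xi D.K q) with hB
  have hB4 : TN D.T (D.c / 4) B ≠ ∞ := by
    refine TN_fin_len (c := D.c / 2) (by linarith)
      (∑ i ∈ Finset.range (n + 2), ‖kv (D.K i)‖)
      (Finset.sum_nonneg fun i _ => norm_nonneg _) (fun t ht q => ?_) hH2
    have hs : SuppIn (lev (n + 1) : Set Md) (conv outerB (w t) (mul (D.Fi n t) (w t))) := by
      refine (h03 C3 C3 Mat).2.2.2.2.2.1 outerB (n + 1) _ _ (hsupp t ht) ?_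
      refine (h03 C3 C3 C3).1 _ (n + 1) (n + 1) _ le_rfl
        ((h03 C3 C3 C3).2.2.2.2.1 (n + 1) (D.Fi n t) fun q hq => ?_) (hsupp t ht)
      exact sFi t ht q fun h => hq (hle h)
    show ‖Complex.I • (conv outerB (w t) (mul (D.Fi n t) (w t)) q) (xi D.K q)‖ ≤ _
    rw [norm_smul, Complex.norm_I, one_mul]
    by_cases hq : q ∈ (lev (n + 1) : Set Md)
    · have h2 : ‖xi D.K q‖ ≤ (∑ i ∈ Finset.range (n + 2), ‖kv (D.K i)‖) * len q :=
        (h01 D.K).2.2.1 q (n + 1) _ hq fun i hi => Finset.single_le_sum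
          (f := fun i => ‖kv (D.K i)‖) (fun i _ => norm_nonneg _) (Finset.mem_range.2 (by omega))
      refine (ContinuousLinearMap.le_opNorm _ _).trans ?_
      rw [mul_comm]
      exact mul_le_mul_of_nonneg_right h2 (norm_nonneg _)
    · rw [hs q hq]
      simp
  -- the right hand side
  have static : ∀ {E : Type} [NormedAddCommGroup E] [NormedSpace ℂ E] {f : ℝ → Md → E} {r : ℝ},
      0 ≤ r → TN D.T r f ≠ ∞ → ∀ t ∈ Icc 0 D.T, sN 0 (f t) ≠ ∞ := by
    intro E _ _ f r hr hf t ht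
    refine ne_top_of_le_ne_top hf (le_trans ?_ (TN_static ht f))
    unfold sN
    refine ENNReal.tsum_le_tsum fun m => mul_le_mul' (ENNReal.ofReal_le_ofReal ?_) le_rfl
    exact Real.exp_le_exp.2 (mul_le_mul_of_nonneg_right hr (len_nonneg m))
  have fct : ∀ t ∈ Icc 0 D.T, Facts (xi D.K) (D.Fi n t) := by
    intro t ht
    obtain ⟨c, b, e, h⟩ := HD.fd n hmn le_rfl t ht
    exact facts h16 (xi D.K) h
  have hMw4 : TN D.T (D.c / 4) (fun t => mul (D.M n t) (w t)) ≠ ∞ := TN_mul hT hc4 hM4 w4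
  have hRHS : ∀ t ∈ Icc 0 D.T, RHS D w t = (-(mul (D.M n t) (w t)) +
      (2 : ℂ) • act (D.Pl n t) (mul (D.M n t) (w t))) + (-(B t) + act (D.Pl n t) (B t)) := by
    intro t ht
    have f0 := fct t ht
    have sw := static hc4 w4 t ht
    have sM := static hc4 hM4 t ht
    have sMw := static hc4 hMw4 t ht
    have sB := static hc4 hB4 t ht
    have sP : sK 0 (D.Pl n t) ≠ ∞ := f0.Pi0
    have e1 : act (D.gen n t) (w t) = -(mul (D.M n t) (w t)) +
        (2 : ℂ) • act (D.Pl n t) (mul (D.M n t) (w t)) := by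
      have s2 : sK 0 ((2 : ℂ) • D.Pl n t) ≠ ∞ := by
        rw [sK_smul]
        exact ENNReal.mul_ne_top enorm_ne_top sP
      show act (-(kcomp (idK - (2 : ℂ) • D.Pl n t) (mulK (D.M n t)))) (w t) = _
      rw [act_neg_left, kcomp_act (sK_sub_fin le_rfl (idK_fin 0 le_rfl) s2)
        (mulK_fin le_rfl sM) sw]
      show -(act (idK - (2 : ℂ) • D.Pl n t) (mul (D.M n t) (w t))) = _
      rw [act_id_sub s2 sMw, act_smul_left]
      abel
    have e2 : act (idK - D.Pl n t) (B t) = B t - act (D.Pl n t) (B t) := act_id_sub sP sB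
    show act (D.gen n t) (w t) - act (idK - D.Pl n t) (B t) = _
    rw [e1, e2]
    abel
  have hRHS4 : TN D.T (D.c / 4) (RHS D w) ≠ ∞ := by
    rw [TN_congr hRHS]
    have neg : ∀ {f : ℝ → Md → C3}, TN D.T (D.c / 4) f ≠ ∞ →
        TN D.T (D.c / 4) (fun t => -(f t)) ≠ ∞ := by
      intro f hf
      refine TN_fin_of_le (f := f) 1 ENNReal.one_ne_top (fun t _ q => ?_) hf
      rw [one_mul]
      simp
    have h1 := neg hMw4
    have h2 : TN D.T (D.c / 4) (fun t => (2 : ℂ) • act (D.Pl n t) (mul (D.M n t) (w t))) ≠ ∞ := by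
      refine TN_fin_of_le (f := fun t => act (D.Pl n t) (mul (D.M n t) (w t))) ‖(2 : ℂ)‖ₑ
        enorm_ne_top (fun t _ q => ?_) (TN_act hT hc4 hPl4 hMw4)
      rw [Pi.smul_apply, enorm_smul]
    have h3 := neg hB4
    have h4 : TN D.T (D.c / 4) (fun t => act (D.Pl n t) (B t)) ≠ ∞ := TN_act hT hc4 hPl4 hB4
    exact TN_add_fin (TN_add_fin h1 h2) (TN_add_fin h3 h4)
  -- majorants
  obtain ⟨u1, hu1, hu10, hu1b⟩ := TN_major hc4 w4
  obtain ⟨u2, hu2, hu20, hu2b⟩ := TN_major hc4 hRHS4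
  obtain ⟨u3, hu3, hu30, hu3b⟩ := TN_major hc4 hFi4
  obtain ⟨u4, hu4, hu40, hu4b⟩ := TN_major hc4 (f := fun t => mm (D.Fi n t) (D.M n t))
    (TN_conv hT hc4 (ContinuousLinearMap.compL ℂ C3 C3 C3) hFi4 hM4)
  set C3' : ℝ := ∑' q, u3 q with hC3
  set C4' : ℝ := ∑' q, u4 q with hC4
  have b3 : ∀ q, u3 q ≤ C3' := fun q => hu3.le_tsum q fun j _ => hu30 j
  have b4 : ∀ q, u4 q ≤ C4' := fun q => hu4.le_tsum q fun j _ => hu40 j
  -- the derivative of `Fi w`
  have hV : ∀ q, ∀ t ∈ Icc 0 D.T, HasDerivWithinAt (fun t => mul (D.Fi n t) (w t) q)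
      (-(mul (mm (D.Fi n t) (D.M n t)) (w t) q) + mul (D.Fi n t) (RHS D w t) q)
      (Icc 0 D.T) t := by
    intro q t ht
    have key := hasDerivWithinAt_tsum_Icc (T := D.T)
      (g := fun l t => (D.Fi n t (q - l)) (w t l))
      (g' := fun l t => (-(mm (D.Fi n t) (D.M n t) (q - l))) (w t l) +
        (D.Fi n t (q - l)) (RHS D w t l))
      (u := fun l => C4' * u1 l + C3' * u2 l)
      ((hu1.mul_left C4').add (hu2.mul_left C3'))
      (fun l t ht => ?_) (fun l t ht => ?_) (fun t ht => ?_) t ht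
    · have sw := static hc4 w4 t ht
      have sMM : sN 0 (mm (D.Fi n t) (D.M n t)) ≠ ∞ :=
        mm_fin le_rfl (static hc4 hFi4 t ht) (static hc4 hM4 t ht)
      have sR := static hc4 hRHS4 t ht
      have sF := static hc4 hFi4 t ht
      have e : (∑' l, ((-(mm (D.Fi n t) (D.M n t) (q - l))) (w t l) +
          (D.Fi n t (q - l)) (RHS D w t l))) =
          -(mul (mm (D.Fi n t) (D.M n t)) (w t) q) + mul (D.Fi n t) (RHS D w t) q := by
        have m1 := summable_act' (mulK_fin le_rfl sMM) sw q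
        have m2 : Summable fun l => (D.Fi n t (q - l)) (RHS D w t l) :=
          summable_act' (mulK_fin le_rfl sF) sR q
        have m1' : Summable fun l => (-(mm (D.Fi n t) (D.M n t) (q - l))) (w t l) := by
          have := m1.neg
          exact this
        rw [m1'.tsum_add m2]
        congr 1
        show _ = -∑' l, (mm (D.Fi n t) (D.M n t) (q - l)) (w t l)
        rw [← tsum_neg]
        rfl
      rw [← e]
      exact key
    · have d1 := HD.Fi_der n hmn le_rfl (q - l) t ht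
      have d2 := hder l t ht
      exact hasDeriv_apply d1 d2
    · refine (norm_add_le _ _).trans (add_le_add ?_ ?_)
      · refine (ContinuousLinearMap.le_opNorm _ _).trans ?_
        rw [norm_neg]
        exact mul_le_mul ((hu4b t ht _).trans (b4 _)) (hu1b t ht l) (norm_nonneg _)
          (le_trans (hu40 0) (b4 0))
      · refine (ContinuousLinearMap.le_opNorm _ _).trans ?_
        exact mul_le_mul ((hu3b t ht _).trans (b3 _)) (hu2b t ht l) (norm_nonneg _)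
          (le_trans (hu30 0) (b3 0))
    · exact summable_act' (mulK_fin le_rfl (static hc4 hFi4 t ht)) (static hc4 w4 t ht) q
  -- the derivative of the divergence vanishes
  have hz : ∀ q, ∀ t ∈ Icc 0 D.T, inner ℂ (xi D.K q)
      (-(mul (mm (D.Fi n t) (D.M n t)) (w t) q) + mul (D.Fi n t) (RHS D w t) q) = 0 := by
    intro q t ht
    have f0 := fct t ht
    have sw := static hc4 w4 t ht
    have sM := static hc4 hM4 t ht
    have sF := static hc4 hFi4 t ht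
    have sMw := static hc4 hMw4 t ht
    have sB := static hc4 hB4 t ht
    have sP : sK 0 (D.Pl n t) ≠ ∞ := f0.Pi0
    have sPMw : sN 0 (act (D.Pl n t) (mul (D.M n t) (w t))) ≠ ∞ := act_fin le_rfl sP sMw
    have sPB : sN 0 (act (D.Pl n t) (B t)) ≠ ∞ := act_fin le_rfl sP sB
    set X := mul (D.M n t) (w t) with hX
    set PX := act (D.Pl n t) X with hPX
    set PB := act (D.Pl n t) (B t) with hPB
    have s2 : sN 0 ((2 : ℂ) • PX) ≠ ∞ := by
      refine sN_fin_of_le (f := PX) ‖(2 : ℂ)‖ₑ enorm_ne_top (fun q => ?_) sPMw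
      rw [Pi.smul_apply, enorm_smul]
    have sm : ∀ (A : Md → Md → Mat) (f : Md → C3), act A ((2 : ℂ) • f) = (2 : ℂ) • act A f := by
      intro A f
      funext m
      show ∑' l, A m l ((2 : ℂ) • f l) = (2 : ℂ) • ∑' l, A m l (f l)
      rw [← tsum_const_smul'']
      simp only [map_smul]
    have e1 : mul (mm (D.Fi n t) (D.M n t)) (w t) = mul (D.Fi n t) X := mul_mm sF sM sw
    have hFX : sN 0 (mul (D.Fi n t) X) ≠ ∞ := mul_fin le_rfl sF sMw
    have hFPX : sN 0 (mul (D.Fi n t) PX) ≠ ∞ := mul_fin le_rfl sF sPMw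
    have hFB : sN 0 (mul (D.Fi n t) (B t)) ≠ ∞ := mul_fin le_rfl sF sB
    have hFPB : sN 0 (mul (D.Fi n t) PB) ≠ ∞ := mul_fin le_rfl sF sPB
    have e2 : mul (D.Fi n t) (RHS D w t) = (-(mul (D.Fi n t) X) +
        (2 : ℂ) • mul (D.Fi n t) PX) + (-(mul (D.Fi n t) (B t)) + mul (D.Fi n t) PB) := by
      rw [hRHS t ht]
      have n1 : sN 0 (-X) ≠ ∞ := by rw [sN_neg]; exact sMw
      have n2 : sN 0 (-(B t)) ≠ ∞ := by rw [sN_neg]; exact sB
      have ma : ∀ f g : Md → C3, sN 0 f ≠ ∞ → sN 0 g ≠ ∞ →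
          mul (D.Fi n t) (f + g) = mul (D.Fi n t) f + mul (D.Fi n t) g := fun f g hf hg =>
        act_add_right (mulK_fin le_rfl sF) hf hg
      have mn : ∀ f : Md → C3, mul (D.Fi n t) (-f) = -mul (D.Fi n t) f := fun f =>
        act_neg_right _ _
      have ms : mul (D.Fi n t) ((2 : ℂ) • PX) = (2 : ℂ) • mul (D.Fi n t) PX := sm _ _
      rw [ma _ _ (sN_add_fin n1 s2) (sN_add_fin n2 sPB), ma _ _ n1 s2, ma _ _ n2 sPB, mn, mn, ms]
    have e3 : act (PK (xi D.K)) (-(mul (D.Fi n t) X) + mul (D.Fi n t) (RHS D w t)) = 0 := by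
      have p1 : act (PK (xi D.K)) (mul (D.Fi n t) PX) = act (PK (xi D.K)) (mul (D.Fi n t) X) :=
        f0.P_Fi_Pi sMw
      have p2 : act (PK (xi D.K)) (mul (D.Fi n t) PB) =
          act (PK (xi D.K)) (mul (D.Fi n t) (B t)) := f0.P_Fi_Pi sB
      have n1 : sN 0 (-(mul (D.Fi n t) X)) ≠ ∞ := by rw [sN_neg]; exact hFX
      have n2 : sN 0 (-(mul (D.Fi n t) (B t))) ≠ ∞ := by rw [sN_neg]; exact hFB
      have n3 : sN 0 ((2 : ℂ) • mul (D.Fi n t) PX) ≠ ∞ := by
        refine sN_fin_of_le (f := mul (D.Fi n t) PX) ‖(2 : ℂ)‖ₑ enorm_ne_top (fun q => ?_) hFPX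
        rw [Pi.smul_apply, enorm_smul]
      rw [e2, act_add_right f0.P0 n1 (sN_add_fin (sN_add_fin n1 n3) (sN_add_fin n2 hFPB)),
        act_add_right f0.P0 (sN_add_fin n1 n3) (sN_add_fin n2 hFPB),
        act_add_right f0.P0 n1 n3, act_add_right f0.P0 n2 hFPB, act_neg_right, act_neg_right,
        sm, p1, p2]
      module
    rw [e1]
    have e4 := congrFun e3 q
    rw [act_PK] at e4
    have e5 := inner_pr (xi D.K q) ((-(mul (D.Fi n t) X) + mul (D.Fi n t) (RHS D w t)) q)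
    rw [e4] at e5
    simpa using e5.symm
  -- conclusion
  intro t ht q
  have h0 : (0 : ℝ) ∈ Icc 0 D.T := ⟨le_rfl, hT.le⟩
  have hd : ∀ s ∈ Icc 0 D.T, HasDerivWithinAt
      (fun t => (inner ℂ (xi D.K q) (mul (D.Fi n t) (w t) q) : ℂ)) 0 (Icc 0 D.T) s := by
    intro s hs
    have h1 := hV q s hs
    have h2 := (innerSL ℂ (xi D.K q)).restrictScalars ℝ |>.hasFDerivAt.comp_hasDerivWithinAt s h1
    have h3 : ((innerSL ℂ (xi D.K q)).restrictScalars ℝ)
      (-(mul (mm (D.Fi n s) (D.M n s)) (w s) q) + mul (D.Fi n s) (RHS D w s) q) = 0 := hz q s hs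
    rw [h3] at h2
    exact h2
  have h1 := Convex.norm_image_sub_le_of_norm_hasDerivWithin_le (C := 0) hd
    (fun x _ => by simp) (convex_Icc 0 D.T) h0 ht
  rw [zero_mul] at h1
  have h2 := sub_eq_zero.1 (norm_le_zero_iff.1 h1)
  have h3 : mul (D.Fi n 0) (w 0) = w 0 := by
    rw [(HD.F_zero n hmn le_rfl).2, mul_oneM]
  rw [h2, h3]
  exact hdiv q

end Pool.Agent.Work.MP_b0497c_an.Unf.S
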