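import Pool.Agent.Work.MP_b0497c_an.Unf.SStmts3
import Pool.Agent.Work.MP_b0497c_an.Unf.W20

set_option autoImplicit false

/-!
# S28: reality and oddness of the new wave

For an isometry `σ` of `ℂ³` (conjugation, or `-1`) put `sg σ f q = σ (f (-q))`. The map `sg σ`
commutes with all the operators of `RHS`, hence maps solutions to solutions, and S26 (uniqueness)
applies.
-/

open scoped ENNReal
open Set MeasureTheory

namespace Pool.Agent.Work.MP_b0497c_an.Unf.S

open W

namespace IS28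

/-- The reflected function. -/
noncomputable def sg (σ : C3 ≃ₗᵢ[ℝ] C3) (f : Md → C3) (q : Md) : C3 := σ (f (-q))

/-- A compatible pair of symmetries of vectors and matrices. -/
structure Sy (σ : C3 ≃ₗᵢ[ℝ] C3) (τ : Mat →+ Mat) : Prop where
  ts : ∀ f : Md → Mat, τ (∑' i, f i) = ∑' i, τ (f i)
  ap : ∀ M v, τ M (σ v) = σ (M v)
  ou : ∀ a b, τ (outerB a b) = outerB (σ a) (σ b)
  xx : ∀ M x, cjv x = x → Complex.I • τ M x = -σ (Complex.I • M x)
  co : ∀ M N : Mat, τ (M.comp N) = (τ M).comp (τ N)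
  on : τ (ContinuousLinearMap.id ℂ C3) = ContinuousLinearMap.id ℂ C3

variable {σ : C3 ≃ₗᵢ[ℝ] C3} {τ : Mat →+ Mat}

/-- Invariant kernels. -/
def Inv (τ : Mat →+ Mat) (A : Md → Md → Mat) : Prop := ∀ m l, τ (A (-m) (-l)) = A m l

theorem act_sg (h : Sy σ τ) {A : Md → Md → Mat} (hA : Inv τ A) (f : Md → C3) :
    act A (sg σ f) = sg σ (act A f) := by
  funext m
  unfold act sg
  have h1 : σ (∑' l, A (-m) l (f l)) = ∑' l, σ (A (-m) l (f l)) :=
    σ.toContinuousLinearEquiv.map_tsum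
  rw [h1, ← (Equiv.neg Md).tsum_eq (fun l => σ (A (-m) l (f l)))]
  refine tsum_congr fun l => ?_
  rw [← hA m l, h.ap]
  rfl

theorem Inv.kcomp (h : Sy σ τ) {A B : Md → Md → Mat} (hA : Inv τ A) (hB : Inv τ B) :
    Inv τ (W.kcomp A B) := by
  intro m l
  unfold W.kcomp
  rw [h.ts, ← (Equiv.neg Md).tsum_eq (fun j => τ ((A (-m) j).comp (B j (-l))))]
  refine tsum_congr fun j => ?_
  rw [h.co]
  exact congrArg₂ ContinuousLinearMap.comp (hA m j) (hB j l)

theorem Inv.mulK {a : Md → Mat} (ha : ∀ m, τ (a (-m)) = a m) : Inv τ (W.mulK a) := by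
  intro m l
  unfold W.mulK
  rw [← ha (m - l)]
  congr 2
  abel

theorem Inv.idK (h : Sy σ τ) : Inv τ S.idK := by
  intro m l
  unfold S.idK diagK
  by_cases hml : m = l
  · subst hml
    simp only [if_true]
    exact h.on
  · have h' : ¬ (-m = -l) := fun h1 => hml (neg_injective h1)
    rw [if_neg hml, if_neg h', map_zero]

theorem Inv.sub {A B : Md → Md → Mat} (hA : Inv τ A) (hB : Inv τ B) : Inv τ (A - B) := by
  intro m l
  change τ (A (-m) (-l) - B (-m) (-l)) = A m l - B m l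
  rw [map_sub, hA, hB]

theorem Inv.two {A : Md → Md → Mat} (hA : Inv τ A) : Inv τ ((2 : ℂ) • A) := by
  intro m l
  change τ ((2 : ℂ) • A (-m) (-l)) = (2 : ℂ) • A m l
  have h1 : ∀ X : Mat, (2 : ℂ) • X = X + X := fun X => two_smul ℂ X
  rw [h1, h1, map_add, hA]

theorem Inv.neg {A : Md → Md → Mat} (hA : Inv τ A) : Inv τ (-A) := by
  intro m l
  change τ (-(A (-m) (-l))) = -(A m l)
  rw [map_neg, hA]

theorem Inv.genP (h : Sy σ τ) {Pi : Md → Md → Mat} {M : Md → Mat} (hP : Inv τ Pi)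
    (hM : ∀ m, τ (M (-m)) = M m) : Inv τ (S.genP Pi M) := by
  unfold S.genP
  exact Inv.neg (Inv.kcomp h (Inv.sub (Inv.idK h) (Inv.two hP)) (Inv.mulK hM))

theorem Nrm_sg (σ : C3 ≃ₗᵢ[ℝ] C3) (T c γ : ℝ) (ρ : ℝ → ℝ) (f : ℝ → Md → C3) :
    Nrm T c γ ρ (fun t => sg σ (f t)) = Nrm T c γ ρ f := by
  unfold Nrm
  rw [← (Equiv.neg Md).tsum_eq (fun m => ⨆ t ∈ Icc 0 T,
    ENNReal.ofReal (Real.exp ((c - γ * t) * len m) / ρ t) * ‖f t m‖ₑ)]
  refine tsum_congr fun m => ?_
  refine iSup_congr fun t => iSup_congr fun _ => ?_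
  simp only [Equiv.neg_apply, sg]
  rw [len_neg, ← ofReal_norm, ← ofReal_norm, σ.norm_map]

theorem RHS_sg (h01 : S01) (h : Sy σ τ) (D : Dat) (w : ℝ → Md → C3) (t : ℝ)
    (hP : Inv τ (D.Pl D.n t)) (hM : ∀ m, τ (D.M D.n t (-m)) = D.M D.n t m)
    (hFi : ∀ m, τ (D.Fi D.n t (-m)) = D.Fi D.n t m) :
    RHS D (fun t => sg σ (w t)) t = sg σ (RHS D w t) := by
  have hgen : Inv τ (D.gen D.n t) := Inv.genP h hP hM
  have hV : mul (D.Fi D.n t) (sg σ (w t)) = sg σ (mul (D.Fi D.n t) (w t)) :=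
    act_sg h (Inv.mulK hFi) _
  have hNL : (fun q => Complex.I • (conv outerB (sg σ (w t))
      (mul (D.Fi D.n t) (sg σ (w t))) q) (xi D.K q)) = sg σ (fun q =>
      Complex.I • (conv outerB (w t) (mul (D.Fi D.n t) (w t)) q) (xi D.K q)) := by
    funext q
    rw [hV]
    generalize mul (D.Fi D.n t) (w t) = V
    have h1 : conv outerB (sg σ (w t)) (sg σ V) q = τ (conv outerB (w t) V (-q)) := by
      unfold conv
      rw [h.ts, ← (Equiv.neg Md).tsum_eq (fun l => τ (outerB (w t (-q - l)) (V l)))]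
      refine tsum_congr fun l => ?_
      rw [h.ou]
      unfold sg
      simp only [Equiv.neg_apply]
      congr 3
      congr 1
      abel
    rw [h1, h.xx _ _ ((h01 D.K).2.2.2.2.1 q).1]
    change _ = σ (Complex.I • (conv outerB (w t) V (-q)) (xi D.K (-q)))
    rw [((h01 D.K).1 q 0).2, map_neg, smul_neg, map_neg]
  unfold RHS
  rw [act_sg h hgen, hNL, act_sg h (Inv.sub (Inv.idK h) hP)]
  funext q
  change σ _ - σ _ = σ _
  rw [← map_sub]
  rfl

theorem core (h01 : S01) (h26 : S26) (h : Sy σ τ) (D : Dat) (w : ℝ → Md → C3) (hD : D.Hyp)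
    (hcm : CM D.T w) (hs : SuppT D.T (lev (D.n + 1) : Set Md) w)
    (hN : Nrm D.T D.c D.γ Dat.one' w ≠ ∞)
    (hd : ∀ q, ∀ t ∈ Icc 0 D.T,
      HasDerivWithinAt (fun t => w t q) (RHS D w t q) (Icc 0 D.T) t)
    (hP : ∀ t ∈ Icc 0 D.T, Inv τ (D.Pl D.n t))
    (hM : ∀ t ∈ Icc 0 D.T, ∀ m, τ (D.M D.n t (-m)) = D.M D.n t m)
    (hFi : ∀ t ∈ Icc 0 D.T, ∀ m, τ (D.Fi D.n t (-m)) = D.Fi D.n t m)
    (h0 : ∀ q, w 0 q = σ (w 0 (-q))) :
    ∀ t ∈ Icc 0 D.T, ∀ q, w t q = σ (w t (-q)) := by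
  intro t ht q
  have key := h26 D w (fun t => sg σ (w t)) hD hcm ?_ hs ?_ hN ?_ ?_ hd ?_ t ht
  · exact congrFun key q
  · intro m
    exact σ.continuous.comp_continuousOn (hcm (-m))
  · intro t ht q hq
    have : -q ∉ (lev (D.n + 1) : Set Md) := fun h1 => hq (by
      have := (lev (D.n + 1)).neg_mem h1
      rwa [neg_neg] at this)
    change σ (w t (-q)) = 0
    rw [hs t ht _ this, map_zero]
  · rw [Nrm_sg]
    exact hN
  · funext q
    exact h0 q
  · intro q t ht
    have h1 := (hd (-q) t ht)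
    have h2 : HasDerivWithinAt (fun t => σ (w t (-q))) (σ (RHS D w t (-q))) (Icc 0 D.T) t := by
      have := (σ.toContinuousLinearEquiv.toContinuousLinearMap.hasFDerivAt
        (x := w t (-q))).comp_hasDerivWithinAt t h1
      exact this
    rw [RHS_sg h01 h D w t (hP t ht) (hM t ht) (hFi t ht)]
    exact h2

/-- Conjugation as a real isometry. -/
noncomputable def cjI : C3 ≃ₗᵢ[ℝ] C3 where
  toFun := cjv
  invFun := cjv
  left_inv := W20.cj_cj
  right_inv := W20.cj_cj
  map_add' := W20.cj_add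
  map_smul' := by
    intro r v
    ext i
    simp [cjv]
  norm_map' := W20.cj_norm

theorem cjI_apply (v : C3) : cjI v = cjv v := rfl

theorem bdot_apply (v x : C3) : bdot v x = ∑ i, v i * x i := by
  unfold bdot
  simp [sum_apply, smul_apply]

theorem outerB_apply (w v x : C3) : outerB w v x = (∑ i, v i * x i) • w := by
  rw [← bdot_apply]
  rfl

theorem sy_cj : Sy cjI W20.cMA where
  ts f := W20.cM_tsum f
  ap M v := by
    rw [W20.cMA_apply, W20.cM_apply, cjI_apply, cjI_apply]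
    congr 2
    exact W20.cj_cj v
  ou a b := by
    ext1 x
    rw [W20.cMA_apply, W20.cM_apply, outerB_apply, outerB_apply, cjI_apply, cjI_apply,
      W20.cj_smul]
    congr 1
    rw [map_sum]
    refine Finset.sum_congr rfl fun i _ => ?_
    simp [cj, cjv]
  xx M x hx := by
    rw [W20.cMA_apply, W20.cM_apply, cjI_apply]
    change Complex.I • cj (M (cjv x)) = -cj (Complex.I • M x)
    rw [hx, W20.cj_smul, Complex.conj_I, neg_smul, neg_neg]
  co M N := W20.cM_comp M N
  on := by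
    ext1 x
    rw [W20.cMA_apply, W20.cM_apply]
    exact W20.cj_cj x

theorem sy_neg : Sy (LinearIsometryEquiv.neg ℝ) (AddMonoidHom.id Mat) where
  ts f := rfl
  ap M v := by
    simp
  ou a b := by
    simp
  xx M x hx := by
    simp
  co M N := rfl
  on := rfl

end IS28

open IS28 in
/-- S28. -/
theorem s28 (h01 : S01) (h26 : S26) (h27 : S27) (h20 : W20) : S28 := by
  intro D w hD hcm hs hN hd
  have hn : D.m ≤ D.n := hD.hmn
  refine ⟨fun hR h0 => ?_, fun hE h0 => ?_⟩
  · have hcM : ∀ a : Md → Mat, RealM a → ∀ m, W20.cMA (a (-m)) = a m := by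
      intro a ha m
      ext1 v
      rw [W20.cMA_apply, W20.cM_apply]
      have h1 := ha m (cj v)
      have h2 : cjv (cj v) = v := W20.cj_cj v
      rw [h2] at h1
      have h3 := ha (-m) v
      rw [neg_neg] at h3
      have h4 : a (-m) (cj v) = cjv (a m v) := ha m v
      rw [h4]
      exact W20.cj_cj _
    have key := core h01 h26 sy_cj D w hD hcm hs hN hd ?_
      (fun t ht => hcM _ (hR t ht).2.2) (fun t ht => hcM _ (hR t ht).2.1) ?_
    · intro t ht q
      rw [key t ht (-q), neg_neg]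
      rfl
    · intro t ht m l
      obtain ⟨c, b, e, hF⟩ := hD.fd D.n hn le_rfl t ht
      ext1 v
      rw [W20.cMA_apply, W20.cM_apply]
      have h1 := h20 Md (lev D.n) c b e (D.F D.n t) (D.Fi D.n t) (xi D.K) hF ?_
        (hR t ht).2.1 m l v
      · unfold Dat.Pl
        rw [h1]
        exact W20.cj_cj _
      · intro m
        rw [((h01 D.K).1 m 0).2]
        have h3 : cj (xi D.K m) = xi D.K m := ((h01 D.K).2.2.2.2.1 m).1
        have h4 : cj (-(xi D.K m)) = -cj (xi D.K m) := by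
          ext i
          simp [cj]
        rw [h4, h3]
    · intro q
      have := h0 q
      rw [this, cjI_apply]
      exact (W20.cj_cj _).symm
  · have key := core h01 h26 sy_neg D w hD hcm hs hN hd ?_
      (fun t ht m => (hE t ht).2 m) (fun t ht m => (hE t ht).1 m) ?_
    · intro t ht q
      rw [key t ht (-q), neg_neg]
      rfl
    · intro t ht m l
      obtain ⟨c, b, e, hF⟩ := hD.fd D.n hn le_rfl t ht
      exact h27 (lev D.n) c b e (D.F D.n t) (D.Fi D.n t) (xi D.K) hF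
        (fun m => ((h01 D.K).1 m 0).2) (hE t ht).1 m l
    · intro q
      have := h0 q
      rw [this]
      simp

end Pool.Agent.Work.MP_b0497c_an.Unf.S
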