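import Pool.Agent.Work.MP_b0497c_an.Unf.LStmts
import Pool.Agent.Work.MP_b0497c_an.Bd.B05
import Pool.Agent.Work.MP_b0497c_an.Bd.B06
import Pool.Agent.Work.MP_b0497c_an.Unf.S25
import Pool.Agent.Work.MP_b0497c_an.Bd.B09
import Pool.Agent.Work.MP_b0497c_an.Unf.S28
import Pool.Agent.Work.MP_b0497c_an.Bd.B08
import Pool.Agent.Work.MP_b0497c_an.Bd.B13

set_option autoImplicit false
set_option linter.dupNamespace false

/-!
# L16: the pressure of the step (helper67)
-/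

open scoped ENNReal
open Set MeasureTheory

namespace Pool.Agent.Work.MP_b0497c_an.Unf.L

open W S

namespace I16

open S.T81 S.IS28

/-! ### symmetries -/

theorem B_sg (h01 : S01) {σ : C3 ≃ₗᵢ[ℝ] C3} {τ : Mat →+ Mat} (h : Sy σ τ)
    (K : ℕ → Fin 3 → ℤ) (w V : Md → C3) :
    (fun q => Complex.I • (conv outerB (sg σ w) (sg σ V) q) (xi K q)) =
      sg σ (fun q => Complex.I • (conv outerB w V q) (xi K q)) := by
  funext q
  have h1 : conv outerB (sg σ w) (sg σ V) q = τ (conv outerB w V (-q)) := by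
    unfold conv
    rw [h.ts, ← (Equiv.neg Md).tsum_eq (fun l => τ (outerB (w (-q - l)) (V l)))]
    refine tsum_congr fun l => ?_
    rw [h.ou]
    unfold sg
    simp only [Equiv.neg_apply]
    congr 3
    congr 1
    abel
  rw [h1, h.xx _ _ ((h01 K).2.2.2.2.1 q).1]
  change _ = σ (Complex.I • (conv outerB w V (-q)) (xi K (-q)))
  rw [((h01 K).1 q 0).2, map_neg, smul_neg, map_neg]

/-- Symmetric functions. -/
def Sm (σ : C3 ≃ₗᵢ[ℝ] C3) (f : Md → C3) : Prop := sg σ f = f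

theorem Sm.act {σ : C3 ≃ₗᵢ[ℝ] C3} {τ : Mat →+ Mat} (h : Sy σ τ) {A : Md → Md → Mat}
    (hA : Inv τ A) {f : Md → C3} (hf : Sm σ f) : Sm σ (W.act A f) := by
  unfold Sm at *
  rw [← act_sg h hA f, hf]

theorem Sm.add {σ : C3 ≃ₗᵢ[ℝ] C3} {f g : Md → C3} (hf : Sm σ f) (hg : Sm σ g) :
    Sm σ (f + g) := by
  funext q
  have h1 := congrFun hf q
  have h2 := congrFun hg q
  unfold sg at *
  rw [Pi.add_apply, Pi.add_apply, map_add, h1, h2]

theorem Sm.two {σ : C3 ≃ₗᵢ[ℝ] C3} {f : Md → C3} (hf : Sm σ f) : Sm σ ((2 : ℂ) • f) := by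
  rw [two_smul]
  exact hf.add hf

theorem Sm.B (h01 : S01) {σ : C3 ≃ₗᵢ[ℝ] C3} {τ : Mat →+ Mat} (h : Sy σ τ)
    (K : ℕ → Fin 3 → ℤ) {w V : Md → C3} (hw : Sm σ w) (hV : Sm σ V) :
    Sm σ (fun q => Complex.I • (conv outerB w V q) (xi K q)) := by
  have h1 := B_sg h01 h K w V
  unfold Sm at *
  rw [hw, hV] at h1
  exact h1.symm

theorem sm_cj {f : Md → C3} : Sm cjI f ↔ RealV f := by
  constructor
  · intro h q
    have h1 := congrFun h q
    unfold sg at h1
    rw [cjI_apply] at h1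
    rw [← h1]
    exact (W20.cj_cj _).symm
  · intro h
    funext q
    unfold sg
    rw [h q, cjI_apply]
    exact W20.cj_cj _

theorem sm_neg {f : Md → C3} : Sm (LinearIsometryEquiv.neg ℝ) f ↔ OddF f := by
  constructor
  · intro h q
    have h1 := congrFun h q
    unfold sg at h1
    rw [← h1]
    simp
  · intro h
    funext q
    unfold sg
    rw [h q]
    simp

theorem cM_real {a : Md → Mat} (ha : RealM a) (m : Md) : W20.cMA (a (-m)) = a m := by
  ext1 v
  rw [W20.cMA_apply, W20.cM_apply]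
  have h3 := ha (-m) v
  rw [neg_neg] at h3
  have h4 : a (-m) (cj v) = cjv (a m v) := ha m v
  rw [h4]
  exact W20.cj_cj _

theorem cM_adjC {a : Md → Mat} (ha : RealM a) (m : Md) : W20.cMA (adjC a (-m)) = adjC a m := by
  unfold adjC
  rw [W20.cMA_apply, W20.cM_adjoint, neg_neg]
  congr 1
  have h := cM_real ha (-m)
  rw [neg_neg] at h
  exact h

theorem adjC_even {a : Md → Mat} (ha : EvenF a) (m : Md) : adjC a (-m) = adjC a m := by
  unfold adjC
  rw [neg_neg, ha m]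

/-! ### the nonlinear term -/

theorem norm_gradV (K : ℕ → Fin 3 → ℤ) (f : Md → C3) (q : Md) :
    ‖gradV K f q‖ = ‖xi K q‖ * ‖f q‖ := by
  unfold gradV
  rw [norm_smul, Complex.norm_I, one_mul, ContinuousLinearMap.norm_smulRight_apply,
    innerSL_apply_norm]

theorem comp_fin {E F : Type} [NormedAddCommGroup E] [NormedSpace ℂ E] [NormedAddCommGroup F]
    [NormedSpace ℂ F] (β : E →L[ℂ] F) {f : Md → E} (h : sN 0 f ≠ ∞) :
    sN 0 (fun k => β (f k)) ≠ ∞ :=
  S.fin_of_le ‖β‖ (fun _ => β.le_opNorm _) h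

theorem summable_conv {E F G : Type} [NormedAddCommGroup E] [NormedSpace ℂ E]
    [NormedAddCommGroup F] [NormedSpace ℂ F] [NormedAddCommGroup G] [NormedSpace ℂ G]
    [CompleteSpace G] (β : E →L[ℂ] F →L[ℂ] G) {f : Md → E} {g : Md → F}
    (hf : sN 0 f ≠ ∞) (hg : sN 0 g ≠ ∞) (m : Md) : Summable fun l => β (f (m - l)) (g l) :=
  summable_act' (A := mulK fun q => β (f q)) (mulK_fin le_rfl (comp_fin β hf)) hg m

theorem B_eq (h01 : S01) (K : ℕ → Fin 3 → ℤ) {w V : Md → C3} (hw : sN 0 w ≠ ∞)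
    (hV : sN 0 V ≠ ∞) (hd : ∀ q, inner ℂ (xi K q) (V q) = 0) :
    (fun q => Complex.I • (conv outerB w V q) (xi K q)) = mul (gradV K w) V := by
  funext q
  have hs : Summable fun l => outerB (w (q - l)) (V l) := summable_conv outerB hw hV q
  have h1 : conv outerB w V q (xi K q) = ∑' l, outerB (w (q - l)) (V l) (xi K q) :=
    (ContinuousLinearMap.apply ℂ C3 (xi K q)).map_tsum hs
  show Complex.I • (conv outerB w V q (xi K q)) = ∑' l, gradV K w (q - l) (V l)
  rw [h1, ← tsum_const_smul'']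
  refine tsum_congr fun l => ?_
  have h2 : xi K q = xi K (q - l) + xi K l := by
    rw [← ((h01 K).1 (q - l) l).1, sub_add_cancel]
  have h3 : (∑ i, V l i * xi K q i) = inner ℂ (xi K (q - l)) (V l) := by
    have h4 : inner ℂ (xi K q) (V l) = ∑ i, xi K q i * V l i := by
      rw [((h01 K).2.2.2.2.1 q).2 (V l), bdot_apply]
    rw [show (∑ i, V l i * xi K q i) = ∑ i, xi K q i * V l i from
      Finset.sum_congr rfl fun i _ => mul_comm _ _, ← h4, h2, inner_add_left, hd l, add_zero]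
  rw [outerB_apply, h3]
  rfl

theorem res_split {n : ℕ} {f : Md → C3} (hf : SuppIn (lev (n + 1) : Set Md) f) :
    f = res (Cl (n + 1)) f + res (lev n : Set Md) f := by
  funext q
  rw [Pi.add_apply]
  unfold res
  by_cases h1 : q ∈ (lev n : Set Md)
  · have h2 : q ∉ Cl (n + 1) := fun h => h.2 (h1 (n + 1) (by omega))
    rw [if_pos h1, if_neg h2, zero_add]
  · by_cases h3 : q ∈ Cl (n + 1)
    · rw [if_neg h1, if_pos h3, add_zero]
    · have h4 : q ∉ (lev (n + 1) : Set Md) := by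
        intro h5
        apply h3
        refine ⟨h5, fun h6 => h1 fun i hi => ?_⟩
        rcases Nat.lt_or_ge (n + 1) i with h7 | h7
        · exact h5 i h7
        · have h8 : i = n + 1 := by omega
          rw [h8]
          exact h6
      rw [if_neg h1, if_neg h3, hf q h4, add_zero]

end I16

open I16 S.T81 S.IS28 in
/-- L16. -/
theorem l16 : L16 := by
  intro D X U a p w0 w HD HL HW
  have h01 : S01 := s01
  have h03 : S03 := s03
  have hT := HD.T_pos
  have hc := HD.c_pos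
  have hmn : D.m ≤ D.n := HD.hmn
  have hG : 0 ≤ D.G := by linarith [HD.G_two]
  have r0 : 0 ≤ 3 * D.c / 8 := by positivity
  have r2 : 0 ≤ D.c / 2 := by positivity
  have hrc : 3 * D.c / 8 ≤ D.c := by linarith
  have h2c : D.c / 2 ≤ D.c := by linarith
  have hr2 : 3 * D.c / 8 ≤ D.c / 2 := by linarith
  have hr2' : 3 * D.c / 8 < D.c / 2 := by linarith
  have hP2 : Par D.T (D.c / 2) 0 := par0 hT r2
  have hP : Par D.T (3 * D.c / 8) 0 := par0 hT r0
  have hα : Wt D.T (α1 D) := HD.α_wt (D.n + 1) (by omega) le_rfl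
  have h1w : Wt D.T Dat.one' := wt_one D.T
  -- the solution in the constant weight
  have w2 : TN D.T (D.c / 2) w ≠ ∞ := by
    have e1 : Nrm D.T (D.c / 2) 0 (α1 D) w ≠ ∞ := by
      have hcg : Nrm D.T (D.c / 2) 0 (α1 D) w = Nrm D.T (D.c / 2) 0 (α1 D)
          (fun t => res (Cl (D.n + 1)) (w t) + res (lev D.n : Set Md) (w t)) := by
        unfold Nrm
        refine tsum_congr fun q => iSup_congr fun t => iSup_congr fun ht => ?_
        have h := congrFun (res_split (HW.supp t ht)) q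
        show _ * ‖w t q‖ₑ = _ * ‖(res (Cl (D.n + 1)) (w t) + res (lev D.n : Set Md) (w t)) q‖ₑ
        rw [← h]
      rw [hcg]
      exact ne_top_of_le_ne_top (ENNReal.add_ne_top.2 ⟨ne_top_of_le_ne_top ENNReal.ofReal_ne_top
        HW.w_le, ne_top_of_le_ne_top ENNReal.ofReal_ne_top HW.w_low⟩) (sa_nrm_add hP2 hα _ _)
    refine ne_top_of_le_ne_top (ENNReal.mul_ne_top ENNReal.ofReal_ne_top e1)
      (sa_nrm_wt hP2 hα h1w hG (fun t ht => ?_) w)
    have := HD.α_le (D.n + 1) (by omega) le_rfl t ht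
    unfold Dat.one' α1
    linarith
  have wr : TN D.T (3 * D.c / 8) w ≠ ∞ := TN_fin_mono hr2 w2
  obtain ⟨hF1, hFi1, hM1⟩ := HD.F_le D.n hmn le_rfl
  have hF : TN D.T (3 * D.c / 8) (D.F D.n) ≠ ∞ :=
    TN_fin_mono hrc (ne_top_of_le_ne_top ENNReal.ofReal_ne_top hF1)
  have hFi : TN D.T (3 * D.c / 8) (D.Fi D.n) ≠ ∞ :=
    TN_fin_mono hrc (ne_top_of_le_ne_top ENNReal.ofReal_ne_top hFi1)
  have hM : TN D.T (3 * D.c / 8) (D.M D.n) ≠ ∞ :=
    TN_fin_mono hrc (ne_top_of_le_ne_top ENNReal.ofReal_ne_top hM1)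
  have hPl : KN D.T (3 * D.c / 8) (D.Pl D.n) ≠ ∞ := ne_top_of_le_ne_top
    (ne_top_of_le_ne_top ENNReal.ofReal_ne_top (HD.P_le D.n hmn le_rfl).1) (KN_mono hrc _)
  have cPl : CK D.T (D.Pl D.n) := (HD.P_le D.n hmn le_rfl).2
  obtain ⟨cF, cFi, cM⟩ := HD.F_cm D.n hmn le_rfl
  obtain ⟨sF, sFi, sM⟩ := HD.F_supp D.n hmn le_rfl
  have hle : lev D.n ≤ lev (D.n + 1) := fun q hq i hi => hq i (by omega)
  -- V
  have hV : TN D.T (3 * D.c / 8) (VV D w) ≠ ∞ := TN_mul hT r0 hFi wr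
  have cV : CM D.T (VV D w) := sa_cm_mul hP h1w cFi HW.cm hFi wr
  have sV : SuppT D.T (lev (D.n + 1) : Set Md) (VV D w) := fun t ht =>
    (h03 C3 C3 C3).1 _ D.n (D.n + 1) _ (by omega) ((h03 C3 C3 C3).2.2.2.2.1 D.n _ (sFi t ht))
      (HW.supp t ht)
  -- grad w
  have hg : TN D.T (3 * D.c / 8) (fun t => gradV D.K (w t)) ≠ ∞ := by
    refine TN_fin_len hr2' (∑ i ∈ Finset.range (D.n + 2), ‖kv (D.K i)‖)
      (Finset.sum_nonneg fun i _ => norm_nonneg _) (fun t ht q => ?_) w2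
    rw [norm_gradV]
    by_cases hq : q ∈ (lev (D.n + 1) : Set Md)
    · exact mul_le_mul_of_nonneg_right ((h01 D.K).2.2.1 q (D.n + 1) _ hq fun i hi =>
        Finset.single_le_sum (f := fun i => ‖kv (D.K i)‖) (fun i _ => norm_nonneg _)
          (Finset.mem_range.2 (by omega))) (norm_nonneg _)
    · rw [HW.supp t ht q hq]
      simp
  have cg : CM D.T (fun t => gradV D.K (w t)) := by
    intro q
    have h1 := ((ContinuousLinearMap.smulRightL ℂ C3 C3 (innerSL ℂ (xi D.K q))).continuous.const_smul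
      Complex.I).comp_continuousOn (HW.cm q)
    exact h1
  have sg' : SuppT D.T (lev (D.n + 1) : Set Md) (fun t => gradV D.K (w t)) := by
    intro t ht q hq
    show Complex.I • (innerSL ℂ (xi D.K q)).smulRight (w t q) = 0
    rw [HW.supp t ht q hq]
    ext1 v
    simp
  -- the nonlinear term
  have hNL : TN D.T (3 * D.c / 8) (NL D w) ≠ ∞ := TN_mul hT r0 hg hV
  have cNL : CM D.T (NL D w) := sa_cm_mul hP h1w cg cV hg hV
  have sNL : SuppT D.T (lev (D.n + 1) : Set Md) (NL D w) := fun t ht =>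
    (h03 C3 C3 C3).1 _ (D.n + 1) (D.n + 1) _ le_rfl
      ((h03 C3 C3 C3).2.2.2.2.1 (D.n + 1) _ (sg' t ht)) (sV t ht)
  -- M w
  have hMw : TN D.T (3 * D.c / 8) (fun t => mul (D.M D.n t) (w t)) ≠ ∞ := TN_mul hT r0 hM wr
  have cMw : CM D.T (fun t => mul (D.M D.n t) (w t)) := sa_cm_mul hP h1w cM HW.cm hM wr
  have sMw : SuppT D.T (lev (D.n + 1) : Set Md) (fun t => mul (D.M D.n t) (w t)) := fun t ht =>
    (h03 C3 C3 C3).1 _ D.n (D.n + 1) _ (by omega) ((h03 C3 C3 C3).2.2.2.2.1 D.n _ (sM t ht))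
      (HW.supp t ht)
  -- f
  set f : ℝ → Md → C3 := fun t => (2 : ℂ) • mul (D.M D.n t) (w t) + NL D w t with hf_def
  have h2Mw : TN D.T (3 * D.c / 8) (fun t => (2 : ℂ) • mul (D.M D.n t) (w t)) ≠ ∞ := by
    refine TN_fin_of_le (f := fun t => mul (D.M D.n t) (w t)) ‖(2 : ℂ)‖ₑ
      enorm_ne_top (fun t _ q => ?_) hMw
    rw [Pi.smul_apply, enorm_smul]
  have hf : TN D.T (3 * D.c / 8) f ≠ ∞ := TN_add_fin h2Mw hNL
  have cf : CM D.T f := fun q => ((cMw q).const_smul (2 : ℂ)).add (cNL q)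
  have sf : SuppT D.T (lev (D.n + 1) : Set Md) f := by
    intro t ht q hq
    have h1 : mul (D.M D.n t) (w t) q = 0 := sMw t ht q hq
    show (2 : ℂ) • mul (D.M D.n t) (w t) q + NL D w t q = 0
    rw [h1, sNL t ht q hq, smul_zero, add_zero]
  -- Pi f
  have hPf : TN D.T (3 * D.c / 8) (fun t => act (D.Pl D.n t) (f t)) ≠ ∞ := TN_act hT r0 hPl hf
  have cPf : CM D.T (fun t => act (D.Pl D.n t) (f t)) := sa_cm_act hP h1w cPl cf hPl hf
  have sPf : SuppT D.T (lev (D.n + 1) : Set Md) (fun t => act (D.Pl D.n t) (f t)) := by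
    intro t ht
    refine (h03 C3 C3 C3).1 _ D.n (D.n + 1) _ (by omega) ?_ (sf t ht)
    intro m l hml
    obtain ⟨c, b, e, hfd⟩ := HD.fd D.n hmn le_rfl t ht
    exact ((w16 Md (lev D.n) c b e _ _ (xi D.K) hfd).2.2.1 m l hml).2
  -- the transpose of F
  have hFt : TN D.T (3 * D.c / 8) (fun t => adjC (D.F D.n t)) ≠ ∞ := by
    refine ne_top_of_le_ne_top hF (sa_nrm_le_neg (fun t _ q => ?_))
    unfold adjC
    rw [LinearIsometryEquiv.norm_map]
  have cFt : CM D.T (fun t => adjC (D.F D.n t)) := fun q =>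
    (ContinuousLinearMap.adjoint (𝕜 := ℂ) (E := C3) (F := C3)).continuous.comp_continuousOn
      (cF (-q))
  have sFt : SuppT D.T (lev D.n : Set Md) (fun t => adjC (D.F D.n t)) := by
    intro t ht q hq
    have h1 : -q ∉ (lev D.n : Set Md) := fun h => hq (by
      have := (lev D.n).neg_mem h
      rwa [neg_neg] at this)
    show ContinuousLinearMap.adjoint (D.F D.n t (-q)) = 0
    rw [sF t ht _ h1, map_zero]
  -- h
  set h : ℝ → Md → C3 := fun t => mul (adjC (D.F D.n t)) (act (D.Pl D.n t) (f t)) with hh_def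
  have hh : TN D.T (3 * D.c / 8) h ≠ ∞ := TN_mul hT r0 hFt hPf
  have ch : CM D.T h := sa_cm_mul hP h1w cFt cPf hFt hPf
  have sh : SuppT D.T (lev (D.n + 1) : Set Md) h := fun t ht =>
    (h03 C3 C3 C3).1 _ D.n (D.n + 1) _ (by omega) ((h03 C3 C3 C3).2.2.2.2.1 D.n _ (sFt t ht))
      (sPf t ht)
  -- static facts
  have static : ∀ {E : Type} [NormedAddCommGroup E] [NormedSpace ℂ E] {f : ℝ → Md → E},
      TN D.T (3 * D.c / 8) f ≠ ∞ → ∀ t ∈ Icc 0 D.T, sN 0 (f t) ≠ ∞ := by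
    intro E _ _ f hf t ht
    exact sN_fin_mono r0 (ne_top_of_le_ne_top hf (TN_static ht f))
  have fct : ∀ t ∈ Icc 0 D.T, Facts (xi D.K) (D.Fi D.n t) := by
    intro t ht
    obtain ⟨c, b, e, h⟩ := HD.fd D.n hmn le_rfl t ht
    exact facts w16 (xi D.K) h
  have key : ∀ t ∈ Icc 0 D.T, act (PK (xi D.K)) (h t) = h t ∧
      mul (adjC (D.Fi D.n t)) (h t) = act (D.Pl D.n t) (f t) := by
    intro t ht
    have f0 := fct t ht
    have nf := static hf t ht
    have nFi := static hFi t ht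
    have nF := static hF t ht
    have nFif : sN 0 (mul (D.Fi D.n t) (f t)) ≠ ∞ := mul_fin le_rfl nFi nf
    have nR : sN 0 (act (RK (xi D.K) (D.Fi D.n t)) (mul (D.Fi D.n t) (f t))) ≠ ∞ :=
      act_fin le_rfl f0.R0 nFif
    have e1 : act (D.Pl D.n t) (f t) = mul (adjC (D.Fi D.n t))
        (act (RK (xi D.K) (D.Fi D.n t)) (mul (D.Fi D.n t) (f t))) := f0.act_Pi nf
    have e2 : h t = act (RK (xi D.K) (D.Fi D.n t)) (mul (D.Fi D.n t) (f t)) := by
      show mul (adjC (D.F D.n t)) (act (D.Pl D.n t) (f t)) = _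
      rw [e1, ← S.T81.mul_mm (adjC_fin nF) (adjC_fin nFi) nR, ← S.T81.adjC_mm, HL.inv t ht,
        S.T81.adjC_oneM, S.T81.mul_oneM]
    refine ⟨?_, ?_⟩
    · rw [e2, f0.P_act_R nFif]
    · rw [e2, ← e1]
  -- the pressure
  set s : ℝ → Md → ℂ := fun t q => Complex.I * inner ℂ (xi D.K q) (h t q) /
    ((‖xi D.K q‖ ^ 2 : ℝ) : ℂ) with hs_def
  have s_le : ∀ t q, ‖s t q‖ ≤ ‖h t q‖ := by
    intro t q
    show ‖Complex.I * inner ℂ (xi D.K q) (h t q) / ((‖xi D.K q‖ ^ 2 : ℝ) : ℂ)‖ ≤ _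
    rw [norm_div, norm_mul, Complex.norm_I, one_mul, Complex.norm_real,
      Real.norm_of_nonneg (by positivity)]
    by_cases hq : xi D.K q = 0
    · rw [hq]
      simp
    · have h1 : 1 ≤ ‖xi D.K q‖ := (h01 D.K).2.2.2.2.2.2 q hq
      rw [div_le_iff₀ (by positivity)]
      have h2 : ‖(inner ℂ (xi D.K q) (h t q) : ℂ)‖ ≤ ‖xi D.K q‖ * ‖h t q‖ := norm_inner_le_norm _ _
      have h3 : 0 ≤ ‖h t q‖ := norm_nonneg _
      nlinarith [mul_nonneg h3 (sub_nonneg.2 h1), mul_nonneg (mul_nonneg h3 (sub_nonneg.2 h1))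
        (norm_nonneg (xi D.K q))]
  have gS : ∀ t ∈ Icc 0 D.T, gradS D.K (s t) = -(h t) := by
    intro t ht
    funext q
    have h1 := congrFun (key t ht).1 q
    rw [act_PK] at h1
    show (Complex.I * (Complex.I * inner ℂ (xi D.K q) (h t q) /
      ((‖xi D.K q‖ ^ 2 : ℝ) : ℂ))) • xi D.K q = -(h t q)
    rw [← h1]
    have h2 : pr (xi D.K q) (h t q) = (((‖xi D.K q‖ ^ 2 : ℝ) : ℂ)⁻¹ *
        inner ℂ (xi D.K q) (h t q)) • xi D.K q := by
      unfold pr
      simp only [_root_.smul_apply, ContinuousLinearMap.smulRight_apply, innerSL_apply_apply]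
      rw [smul_smul]
    rw [inner_pr, h2, ← neg_smul]
    congr 1
    rw [div_eq_mul_inv, ← mul_assoc, ← mul_assoc, Complex.I_mul_I]
    ring
  refine ⟨s, ?_, ?_, ?_, ?_, ?_⟩
  · -- continuity
    intro q
    exact ((((innerSL ℂ (xi D.K q)).continuous.comp_continuousOn (ch q)).const_smul
      Complex.I).div_const _)
  · -- support
    intro t ht q hq
    have h1 := s_le t q
    rw [sh t ht q hq, norm_zero] at h1
    exact norm_le_zero_iff.1 h1
  · -- finite
    exact ne_top_of_le_ne_top hh (sa_nrm_le1 fun t _ q => s_le t q)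
  · -- symmetries
    intro t ht
    have nw := static wr t ht
    have nV := static hV t ht
    have eNL : (fun q => Complex.I • (conv outerB (w t) (VV D w t) q) (xi D.K q)) = NL D w t :=
      B_eq h01 D.K nw nV (HW.div t ht)
    obtain ⟨FR, FE⟩ := HL.F_even t ht
    obtain ⟨FiR, FiE⟩ := HL.Fi_even t ht
    obtain ⟨MR, ME⟩ := HL.M_even t ht
    obtain ⟨wR, wO⟩ := HW.odd t ht
    obtain ⟨c, b, e, hfd⟩ := HD.fd D.n hmn le_rfl t ht
    have gen : ∀ {σ : C3 ≃ₗᵢ[ℝ] C3} {τ : Mat →+ Mat}, Sy σ τ → Sm σ (w t) →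
        (∀ m, τ (D.M D.n t (-m)) = D.M D.n t m) → (∀ m, τ (D.Fi D.n t (-m)) = D.Fi D.n t m) →
        (∀ m, τ (adjC (D.F D.n t) (-m)) = adjC (D.F D.n t) m) → Inv τ (D.Pl D.n t) →
        Sm σ (h t) := by
      intro σ τ hσ hw hM hFi hF hP
      have hV : Sm σ (VV D w t) := Sm.act hσ (Inv.mulK hFi) hw
      have hB := Sm.B h01 hσ D.K hw hV
      rw [eNL] at hB
      have hMw : Sm σ (mul (D.M D.n t) (w t)) := Sm.act hσ (Inv.mulK hM) hw
      exact Sm.act hσ (Inv.mulK hF) (Sm.act hσ hP (hMw.two.add hB))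
    have hR : RealV (h t) := by
      refine sm_cj.1 (gen sy_cj (sm_cj.2 wR) (cM_real MR) (cM_real FiR) (cM_adjC FR) ?_)
      intro m l
      ext1 v
      rw [W20.cMA_apply, W20.cM_apply]
      have h1 := w20 Md (lev D.n) c b e (D.F D.n t) (D.Fi D.n t) (xi D.K) hfd ?_ FiR m l v
      · unfold Dat.Pl
        rw [h1]
        exact W20.cj_cj _
      · intro m
        rw [((h01 D.K).1 m 0).2]
        have h3 : cj (xi D.K m) = xi D.K m := ((h01 D.K).2.2.2.2.1 m).1
        have h4 : cj (-(xi D.K m)) = -cj (xi D.K m) := by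
          ext i
          simp [cj]
        rw [h4, h3]
    have hO : OddF (h t) := by
      refine sm_neg.1 (gen sy_neg (sm_neg.2 wO) ME FiE (adjC_even FE) ?_)
      intro m l
      exact s27 w10 w11 (lev D.n) c b e (D.F D.n t) (D.Fi D.n t) (xi D.K) hfd
        (fun m => ((h01 D.K).1 m 0).2) FiE m l
    have hxi : ∀ q, xi D.K (-q) = -xi D.K q := fun q => ((h01 D.K).1 q 0).2
    refine ⟨?_, ?_⟩
    · intro q
      show Complex.I * inner ℂ (xi D.K (-q)) (h t (-q)) / ((‖xi D.K (-q)‖ ^ 2 : ℝ) : ℂ) =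
        starRingEnd ℂ (Complex.I * inner ℂ (xi D.K q) (h t q) / ((‖xi D.K q‖ ^ 2 : ℝ) : ℂ))
      have h3 : cj (xi D.K q) = xi D.K q := ((h01 D.K).2.2.2.2.1 q).1
      have h4 : (inner ℂ (xi D.K q) (cj (h t q)) : ℂ) =
          starRingEnd ℂ (inner ℂ (xi D.K q) (h t q)) := by
        have h5 := W20.cj_inner (xi D.K q) (cj (h t q))
        rw [h3, W20.cj_cj] at h5
        exact h5
      rw [hxi, norm_neg, hR q, inner_neg_left, map_div₀, map_mul, Complex.conj_I,
        Complex.conj_ofReal]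
      rw [show cjv (h t q) = cj (h t q) from rfl, h4]
      ring
    · intro q
      show Complex.I * inner ℂ (xi D.K (-q)) (h t (-q)) / ((‖xi D.K (-q)‖ ^ 2 : ℝ) : ℂ) =
        Complex.I * inner ℂ (xi D.K q) (h t q) / ((‖xi D.K q‖ ^ 2 : ℝ) : ℂ)
      rw [hxi, norm_neg, hO q, inner_neg_left, inner_neg_right, neg_neg]
  · -- the equation
    intro t ht
    have nw := static wr t ht
    have nV := static hV t ht
    have nM := static hM t ht
    have nMw := static hMw t ht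
    have nNL := static hNL t ht
    have eNL : (fun q => Complex.I • (conv outerB (w t) (VV D w t) q) (xi D.K q)) = NL D w t :=
      B_eq h01 D.K nw nV (HW.div t ht)
    have sP : sK 0 (D.Pl D.n t) ≠ ∞ := (fct t ht).Pi0
    have e1 : act (D.gen D.n t) (w t) = -(mul (D.M D.n t) (w t)) +
        (2 : ℂ) • act (D.Pl D.n t) (mul (D.M D.n t) (w t)) := by
      have s2 : sK 0 ((2 : ℂ) • D.Pl D.n t) ≠ ∞ := by
        rw [sK_smul]
        exact ENNReal.mul_ne_top enorm_ne_top sP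
      show act (-(kcomp (idK - (2 : ℂ) • D.Pl D.n t) (mulK (D.M D.n t)))) (w t) = _
      rw [act_neg_left, kcomp_act (sK_sub_fin le_rfl (idK_fin 0 le_rfl) s2)
        (mulK_fin le_rfl nM) nw]
      show -(act (idK - (2 : ℂ) • D.Pl D.n t) (mul (D.M D.n t) (w t))) = _
      rw [act_id_sub s2 nMw, act_smul_left]
      abel
    have e2 : act (idK - D.Pl D.n t) (NL D w t) = NL D w t - act (D.Pl D.n t) (NL D w t) :=
      act_id_sub sP nNL
    have e3 : RHS D w t = act (D.gen D.n t) (w t) - act (idK - D.Pl D.n t) (NL D w t) := by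
      show act (D.gen D.n t) (w t) - act (idK - D.Pl D.n t) (fun q =>
        Complex.I • (conv outerB (w t) (VV D w t) q) (xi D.K q)) = _
      rw [eNL]
    have n2 : sN 0 ((2 : ℂ) • mul (D.M D.n t) (w t)) ≠ ∞ := static h2Mw t ht
    have e4 : act (D.Pl D.n t) (f t) = (2 : ℂ) • act (D.Pl D.n t) (mul (D.M D.n t) (w t)) +
        act (D.Pl D.n t) (NL D w t) := by
      show act (D.Pl D.n t) ((2 : ℂ) • mul (D.M D.n t) (w t) + NL D w t) = _
      rw [act_add_right sP n2 nNL, S.act_smul]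
    have e5 : mul (adjC (D.Fi D.n t)) (gradS D.K (s t)) = -(act (D.Pl D.n t) (f t)) := by
      rw [gS t ht, ← (key t ht).2]
      exact act_neg_right _ _
    rw [e3, e1, e2, e5, e4]
    abel

end Pool.Agent.Work.MP_b0497c_an.Unf.L
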