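import Pool.Agent.Work.MP_b0497c_an.Unf.Core

set_option autoImplicit false

/-!
# The matching at `s0 = t0 - w` (OK.5, O2)
-/

open Set ContinuousLinearMap RealInnerProductSpace MeasureTheory

namespace Pool.Agent.Work.MP_b0497c_an.Unf.O

open Forced.Ode (Op ro)
open K

namespace LevD

variable {D : LevD} {W : ℝ → E3} {b' : ℝ}

namespace Mt

theorem mv (_h : D.Flo b') {E : Type} [NormedAddCommGroup E] [NormedSpace ℝ E] {f f' : ℝ → E}
    {C : ℝ} (hd : ∀ t ∈ Icc 0 D.T, HasDerivAt f (f' t) t) (hC : ∀ t ∈ Icc 0 D.T, ‖f' t‖ ≤ C)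
    {t s : ℝ} (ht : t ∈ Icc 0 D.T) (hs : s ∈ Icc 0 D.T) : ‖f t - f s‖ ≤ C * |t - s| := by
  have h1 := (convex_Icc 0 D.T).norm_image_sub_le_of_norm_hasDerivWithin_le (f := f)
    (f' := f') (C := C) (x := s) (y := t) (fun x hx => (hd x hx).hasDerivWithinAt) hC hs ht
  rwa [Real.norm_eq_abs] at h1

theorem n_nr (h : D.Flo b') {t : ℝ} (ht : t ∈ Icc 0 D.T) :
    ‖D.n t - D.e2‖ ≤ b' ^ 3 * |t - D.t0| := by
  have hb := h.b0
  refine mv h (fun t _ => h.n_der t) (fun t ht => ?_) ht h.t0_mem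
  rw [norm_neg]
  calc ‖adjoint (D.A t) (D.n t)‖ ≤ b' * ‖D.n t‖ := h.adA_b t _
    _ ≤ b' * b' ^ 2 := by gcongr; exact h.n_le ht
    _ = b' ^ 3 := by ring

theorem xi_nr (h : D.Flo b') {t : ℝ} (ht : t ∈ Icc 0 D.T) :
    ‖D.xi t - D.e3‖ ≤ b' ^ 3 * |t - D.t0| := by
  have hb := h.b0
  rw [← h.xi_t0]
  refine mv h (fun t _ => h.xi_der t) (fun t ht => ?_) ht h.t0_mem
  rw [norm_neg]
  calc ‖adjoint (D.A t) (D.xi t)‖ ≤ b' * ‖D.xi t‖ := h.adA_b t _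
    _ ≤ b' * b' ^ 2 := by gcongr; exact h.xi_le ht
    _ = b' ^ 3 := by ring

theorem B_nr (h : D.Flo b') {t : ℝ} (ht : t ∈ Icc 0 D.T) :
    ‖D.B t - D.e1‖ ≤ b' ^ 3 * |t - D.t0| := by
  have hb := h.b0
  rw [← h.B_t0]
  refine mv h (fun t _ => h.B_der t) (fun t ht => ?_) ht h.t0_mem
  calc ‖D.A t (D.B t)‖ ≤ b' * ‖D.B t‖ := h.A_b t _
    _ ≤ b' * b' ^ 2 := by gcongr; exact h.B_le ht
    _ = b' ^ 3 := by ring

theorem v_nr (h : D.Flo b') (hv : ∀ t ∈ Icc 0 D.T, ‖D.v t‖ ≤ b' * D.a) {t : ℝ}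
    (ht : t ∈ Icc 0 D.T) : ‖D.v t - D.a • D.e1‖ ≤ 3 * b' ^ 2 * D.a * |t - D.t0| := by
  have hb := h.b0
  have ha := h.a_pos
  rw [← h.v_t0]
  refine mv h (fun t _ => h.v_der t) (fun t ht => ?_) ht h.t0_mem
  calc ‖kel (D.A t) (D.n t) (D.v t)‖ ≤ ‖kel (D.A t) (D.n t)‖ * ‖D.v t‖ := le_opNorm _ _
    _ ≤ (3 * b') * (b' * D.a) := by
      gcongr
      · exact (norm_kel_le _ _).trans (by have := h.A_le t; linarith)
      · exact hv t ht
    _ = 3 * b' ^ 2 * D.a := by ring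

/-- `phi' = - 2 a c kap + O(b⁹ a |t - t0|)` -/
theorem phi'_nr (h : D.Flo b') (hv : ∀ t ∈ Icc 0 D.T, ‖D.v t‖ ≤ b' * D.a) {t : ℝ}
    (ht : t ∈ Icc 0 D.T) :
    |D.phi' t + 2 * D.a * D.c * D.kap| ≤ 12 * b' ^ 9 * D.a * |t - D.t0| := by
  have hb := h.b0
  have hb1 : 1 ≤ b' := by linarith [h.b_ge]
  have ha := h.a_pos
  set θ := |t - D.t0| with hθ
  have hθ0 : 0 ≤ θ := abs_nonneg _
  have h1 := xi_nr h ht
  have h2 := n_nr h ht
  have h3 := v_nr h hv ht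
  have h4 := h.A_lip t D.t0
  have hvt := hv t ht
  have hkap : D.a * D.c * D.kap = ⟪D.e3, D.A D.t0 (D.a • D.e1)⟫ := by
    have hk := h.kap_pos.ne'
    rw [map_smul, inner_smul_right, c]
    field_simp
  -- the main term
  have hA0 : ‖D.A D.t0 (D.a • D.e1)‖ ≤ b' * D.a := by
    refine (h.A_b _ _).trans (le_of_eq ?_)
    rw [norm_smul, h.e1_norm, Real.norm_eq_abs, abs_of_pos ha]
    ring
  have e1 : ⟪D.xi t, D.A t (D.v t)⟫ - ⟪D.e3, D.A D.t0 (D.a • D.e1)⟫ =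
      ⟪D.xi t - D.e3, D.A t (D.v t)⟫ + ⟪D.e3, (D.A t - D.A D.t0) (D.v t)⟫
        + ⟪D.e3, D.A D.t0 (D.v t - D.a • D.e1)⟫ := by
    simp only [inner_sub_left, map_sub, sub_apply, inner_sub_right]
    ring
  have m1 : |⟪D.xi t - D.e3, D.A t (D.v t)⟫| ≤ b' ^ 5 * D.a * θ := by
    calc |⟪D.xi t - D.e3, D.A t (D.v t)⟫| ≤ ‖D.xi t - D.e3‖ * ‖D.A t (D.v t)‖ :=
          abs_real_inner_le_norm _ _
      _ ≤ (b' ^ 3 * θ) * (b' * (b' * D.a)) := by
        gcongr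
        exact (h.A_b t _).trans (by gcongr)
      _ = _ := by ring
  have m2 : |⟪D.e3, (D.A t - D.A D.t0) (D.v t)⟫| ≤ b' ^ 2 * D.a * θ := by
    calc |⟪D.e3, (D.A t - D.A D.t0) (D.v t)⟫| ≤ ‖D.e3‖ * ‖(D.A t - D.A D.t0) (D.v t)‖ :=
          abs_real_inner_le_norm _ _
      _ ≤ 1 * ((b' * θ) * (b' * D.a)) := by
        rw [h.e3_norm]
        gcongr
        exact (le_opNorm _ _).trans (by gcongr)
      _ = _ := by ring
  have m3 : |⟪D.e3, D.A D.t0 (D.v t - D.a • D.e1)⟫| ≤ 3 * b' ^ 3 * D.a * θ := by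
    calc |⟪D.e3, D.A D.t0 (D.v t - D.a • D.e1)⟫|
        ≤ ‖D.e3‖ * ‖D.A D.t0 (D.v t - D.a • D.e1)‖ := abs_real_inner_le_norm _ _
      _ ≤ 1 * (b' * (3 * b' ^ 2 * D.a * θ)) := by
        rw [h.e3_norm]
        gcongr
        exact (h.A_b _ _).trans (by gcongr)
      _ = _ := by ring
  -- the second term
  have m4 : |⟪D.xi t, D.n t⟫| ≤ 2 * b' ^ 5 * θ := by
    have e2 : ⟪D.xi t, D.n t⟫ = ⟪D.xi t - D.e3, D.n t⟫ + ⟪D.e3, D.n t - D.e2⟫ := by
      have : ⟪D.e3, D.e2⟫ = 0 := by rw [real_inner_comm, h.e2_e3]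
      rw [inner_sub_left, inner_sub_right, this]
      ring
    have m5 : |⟪D.xi t - D.e3, D.n t⟫| ≤ b' ^ 5 * θ := by
      calc |⟪D.xi t - D.e3, D.n t⟫| ≤ ‖D.xi t - D.e3‖ * ‖D.n t‖ := abs_real_inner_le_norm _ _
        _ ≤ (b' ^ 3 * θ) * b' ^ 2 := by
          gcongr
          exact h.n_le ht
        _ = _ := by ring
    have m6 : |⟪D.e3, D.n t - D.e2⟫| ≤ b' ^ 5 * θ := by
      calc |⟪D.e3, D.n t - D.e2⟫| ≤ ‖D.e3‖ * ‖D.n t - D.e2‖ := abs_real_inner_le_norm _ _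
        _ ≤ 1 * (b' ^ 3 * θ) := by
          rw [h.e3_norm]
          gcongr
        _ ≤ b' ^ 5 * θ := by
          rw [one_mul]
          gcongr
          norm_num
    rw [e2]
    refine (abs_add_le _ _).trans ?_
    linarith
  have m7 : |2 * ⟪D.n t, D.A t (D.v t)⟫ / ‖D.n t‖ ^ 2 * ⟪D.xi t, D.n t⟫| ≤
      4 * b' ^ 9 * D.a * θ := by
    have hn : 0 < ‖D.n t‖ := norm_pos_iff.2 (h.n_ne' t)
    have hni : ‖D.n t‖⁻¹ ≤ b' ^ 2 := by
      rw [inv_le_iff_one_le_mul₀ hn]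
      exact h.n_ge ht
    rw [abs_mul, abs_div, abs_mul, abs_of_pos (two_pos : (0:ℝ) < 2),
      abs_of_nonneg (by positivity : (0:ℝ) ≤ ‖D.n t‖ ^ 2)]
    calc 2 * |⟪D.n t, D.A t (D.v t)⟫| / ‖D.n t‖ ^ 2 * |⟪D.xi t, D.n t⟫|
        ≤ 2 * (‖D.n t‖ * (b' * (b' * D.a))) / ‖D.n t‖ ^ 2 * (2 * b' ^ 5 * θ) := by
          gcongr
          refine (abs_real_inner_le_norm _ _).trans ?_
          gcongr
          exact (h.A_b t _).trans (by gcongr)
      _ = 4 * b' ^ 7 * D.a * θ * ‖D.n t‖⁻¹ := by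
        field_simp
        ring
      _ ≤ 4 * b' ^ 7 * D.a * θ * b' ^ 2 := by gcongr
      _ = _ := by ring
  have e3 : D.phi' t + 2 * D.a * D.c * D.kap =
      -2 * (⟪D.xi t, D.A t (D.v t)⟫ - ⟪D.e3, D.A D.t0 (D.a • D.e1)⟫)
        + 2 * ⟪D.n t, D.A t (D.v t)⟫ / ‖D.n t‖ ^ 2 * ⟪D.xi t, D.n t⟫ := by
    rw [← hkap, phi']
    ring
  rw [e3, e1]
  have p5 : b' ^ 5 * D.a * θ ≤ b' ^ 9 * D.a * θ := by
    gcongr
    norm_num
  have p2 : b' ^ 2 * D.a * θ ≤ b' ^ 9 * D.a * θ := by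
    gcongr
    norm_num
  have p3 : 3 * b' ^ 3 * D.a * θ ≤ b' ^ 9 * D.a * θ := by
    have : 3 * b' ^ 3 ≤ b' ^ 9 := by
      calc 3 * b' ^ 3 ≤ b' * b' ^ 3 := by
            gcongr
            linarith [h.b_ge]
        _ = b' ^ 4 := by ring
        _ ≤ b' ^ 9 := pow_le_pow_right₀ hb1 (by norm_num)
    gcongr
  have q := abs_le.1 m1
  have q2 := abs_le.1 m2
  have q3 := abs_le.1 m3
  have q7 := abs_le.1 m7
  rw [abs_le]
  constructor <;> linarith [q.1, q.2, q2.1, q2.2, q3.1, q3.2, q7.1, q7.2]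

end Mt

namespace HL

theorem s0_eq (h : D.HL) : D.s0 = D.t0 - D.w := LevD.s0_eq h.far

/-- `b ^ k w ≤ h ^ (-6)` -/
theorem bw (h : D.HL) {k : ℕ} (hk : k ≤ 200) : D.b ^ k * D.w ≤ (D.h ^ 6)⁻¹ := by
  have hh : 0 < D.h := by linarith [h.h1]
  have hw := h.wpos
  calc D.b ^ k * D.w ≤ D.h * D.w := by gcongr; exact h.hb hk
    _ = (D.h ^ 6)⁻¹ := by
      rw [w]
      field_simp

/-- `phi` at the start of the window -/
theorem phi_s0 (h : D.HL) : D.a * D.w / (2 * D.b) ≤ D.fam.phi D.s0 := by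
  have hb := h.bpos
  have ha := h.a_pos
  have hw := h.wpos
  have hs0 : D.s0 ∈ Icc 0 D.T := by
    rw [h.s0_eq]
    exact ⟨by linarith [h.far.w_le], by linarith [h.t0_lt]⟩
  have hc := h.c_ge
  have hk := h.kap_ge
  rw [div_le_iff₀ hb] at hc
  -- upper bound of `phi'` on `[s0, t0]`
  have hup : ∀ t ∈ Icc D.s0 D.t0, D.phi' t ≤ -(D.a / (2 * D.b)) := by
    intro t ht
    have htT : t ∈ Icc 0 D.T := ⟨hs0.1.trans ht.1, ht.2.trans h.t0_lt.le⟩
    have h1 := (abs_le.1 (Mt.phi'_nr h.toFlo h.v_le htT)).2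
    have h2 : |t - D.t0| ≤ D.w := by
      rw [h.s0_eq] at ht
      rw [abs_sub_comm, abs_of_nonneg (by linarith [ht.2])]
      linarith [ht.1]
    have h3 : 12 * D.b ^ 9 * D.a * |t - D.t0| ≤ D.a / (2 * D.b) := by
      rw [le_div_iff₀ (by positivity)]
      have h4 : 24 * D.b ^ 10 * D.w ≤ 1 := by
        calc 24 * D.b ^ 10 * D.w ≤ (10 * 10) * D.b ^ 10 * D.w := by gcongr; norm_num
          _ ≤ (D.b * D.b) * D.b ^ 10 * D.w := by
            have := h.b10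
            gcongr
          _ = D.b ^ 12 * D.w := by ring
          _ ≤ (D.h ^ 6)⁻¹ := h.bw (by norm_num)
          _ ≤ 1 := inv_le_one_of_one_le₀ (one_le_pow₀ h.h1)
      calc 12 * D.b ^ 9 * D.a * |t - D.t0| * (2 * D.b) ≤ 12 * D.b ^ 9 * D.a * D.w * (2 * D.b) := by
            gcongr
        _ = D.a * (24 * D.b ^ 10 * D.w) := by ring
        _ ≤ D.a * 1 := by gcongr
        _ = D.a := mul_one _
    have h5 : D.a / D.b ≤ 2 * D.a * D.c * D.kap := by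
      rw [div_le_iff₀ hb]
      have h6 : 1 / 2 ≤ D.c * D.b * D.kap := by
        calc (1 : ℝ) / 2 = 1 * (1 / 2) := by ring
          _ ≤ D.c * D.b * D.kap := mul_le_mul hc hk (by norm_num) (by linarith)
      calc D.a = 2 * D.a * (1 / 2) := by ring
        _ ≤ 2 * D.a * (D.c * D.b * D.kap) := by gcongr
        _ = _ := by ring
    have h7 : D.a / D.b = D.a / (2 * D.b) + D.a / (2 * D.b) := by
      field_simp
      ring
    linarith
  have hle : D.s0 ≤ D.t0 := by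
    rw [h.s0_eq]
    linarith
  have key := (convex_Icc D.s0 D.t0).image_sub_le_mul_sub_of_deriv_le (f := D.fam.phi)
    (C := -(D.a / (2 * D.b)))
    (fun x _ => (h.phi_der x).continuousAt.continuousWithinAt)
    (fun x _ => (h.phi_der x).differentiableAt.differentiableWithinAt)
    (fun x hx => by
      rw [interior_Icc] at hx
      rw [(h.phi_der x).deriv]
      exact hup x ⟨hx.1.le, hx.2.le⟩)
    D.s0 ⟨le_refl _, hle⟩ D.t0 ⟨hle, le_refl _⟩ hle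
  rw [h.phi_t0] at key
  have e : D.t0 - D.s0 = D.w := by
    rw [h.s0_eq]
    ring
  rw [e] at key
  have e2 : D.a * D.w / (2 * D.b) = D.a / (2 * D.b) * D.w := by ring
  linarith

theorem s0_mem (h : D.HL) : D.s0 ∈ Icc 0 (D.t0 - D.w) := by
  rw [h.s0_eq]
  exact ⟨by linarith [h.far.w_le], le_refl _⟩

theorem s0_memT (h : D.HL) : D.s0 ∈ Icc 0 D.T := h.mem_T (h.far_mem h.s0_mem)

/-- `f = a + O(b⁵ a |t-t0|²)` -/
theorem f_nr (h : D.HL) {t : ℝ} (ht : t ∈ Icc 0 D.T) {θ : ℝ} (hθ : |t - D.t0| ≤ θ) :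
    |D.f t - D.a| ≤ 2 * D.b ^ 5 * D.a * θ ^ 2 := by
  have hb := h.bpos
  have ha := h.a_pos
  have hs := h.s_pos
  have hθ0 : 0 ≤ θ := (abs_nonneg _).trans hθ
  have hsub : ∀ x ∈ uIcc D.t0 t, x ∈ Icc 0 D.T ∧ |x - D.t0| ≤ θ := by
    intro x hx
    have h0 := h.t0_mem
    rw [mem_uIcc] at hx
    refine ⟨?_, ?_⟩
    · rcases hx with hx | hx
      · exact ⟨h0.1.trans hx.1, hx.2.trans ht.2⟩
      · exact ⟨ht.1.trans hx.1, hx.2.trans h0.2⟩
    · refine le_trans ?_ hθ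
      rcases hx with hx | hx
      · rw [abs_of_nonneg (by linarith), abs_of_nonneg (by linarith)]
        linarith
      · rw [abs_of_nonpos (by linarith), abs_of_nonpos (by linarith)]
        linarith
  have h1 := (convex_uIcc D.t0 t).norm_image_sub_le_of_norm_hasDerivWithin_le (f := D.f)
    (f' := fun x => D.s * D.fam.phi x) (C := 2 * D.b ^ 5 * D.a * θ) (x := D.t0) (y := t)
    (fun x hx => (h.f_der (hsub x hx).1).hasDerivWithinAt)
    (fun x hx => by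
      obtain ⟨h2, h3⟩ := hsub x hx
      have h4 := h.phi_le h.v_le h2
      rw [Real.norm_eq_abs, abs_mul, abs_of_pos hs]
      calc D.s * |D.fam.phi x| ≤ D.b * (2 * D.b ^ 4 * D.a * |x - D.t0|) := by
            gcongr
            exact h.s_le
        _ ≤ D.b * (2 * D.b ^ 4 * D.a * θ) := by gcongr
        _ = _ := by ring) left_mem_uIcc right_mem_uIcc
  rw [h.f_t0, Real.norm_eq_abs, Real.norm_eq_abs] at h1
  calc |D.f t - D.a| ≤ 2 * D.b ^ 5 * D.a * θ * |t - D.t0| := h1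
    _ ≤ 2 * D.b ^ 5 * D.a * θ * θ := by gcongr
    _ = _ := by ring

/-- `p` in terms of `n`-wave objects -/
theorem p_eq (D : LevD) (W : ℝ → E3) (t : ℝ) : -D.fam.p W t = ⟪W t, D.B t⟫ := by
  show -⟪W t, D.fam.D t⟫ = _
  rw [Flo.famD, inner_neg_right, neg_neg]

/-- `q = - (n · W) |k|² / |B|²` -/
theorem q_eq (D : LevD) {al : ℝ} {W : ℝ → E3} {t : ℝ} (h0 : ⟪D.fam.K al t, W t⟫ = 0) :
    -D.fam.q al W t = -(⟪D.n t, W t⟫ * ‖D.fam.K al t‖ ^ 2) / ‖D.B t‖ ^ 2 := by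
  show -(⟪W t, Fam.cx (D.fam.D t) (D.fam.K al t)⟫ / ‖D.fam.D t‖ ^ 2) = _
  rw [Flo.famD, norm_neg, ← neg_div]
  congr 1
  have e1 : Fam.cx (-D.B t) (D.fam.K al t) = ⟪D.xi t, D.fam.K al t⟫ • D.n t
      - ⟪D.n t, D.fam.K al t⟫ • D.xi t := by
    have h1 : D.B t = cr (D.n t) (D.xi t) := rfl
    rw [cx_eq_cr, h1, cr_neg_left, cr_cr']
    abel
  have e2 : D.fam.K al t = D.xi t + D.fam.Sl al t • D.n t := rfl
  have e3 : ⟪D.xi t, W t⟫ = -(D.fam.Sl al t * ⟪D.n t, W t⟫) := by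
    rw [e2, inner_add_left, real_inner_smul_left] at h0
    linarith
  have e4 : ‖D.fam.K al t‖ ^ 2 = ⟪D.xi t, D.fam.K al t⟫
      + D.fam.Sl al t * ⟪D.n t, D.fam.K al t⟫ := by
    rw [← real_inner_self_eq_norm_sq]
    conv_lhs => rw [e2]
    rw [inner_add_left, real_inner_smul_left, ← e2]
  rw [e1, inner_sub_right, inner_smul_right, inner_smul_right, e4,
    real_inner_comm (D.n t) (W t), real_inner_comm (D.xi t) (W t), e3]
  ring

/-- **O2**: the core wave enters the window in the cone. -/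
theorem O2 (h : D.HL) (hW : D.Core W) : 0 < D.Y 1 W D.s0 ∧ 0 < D.Z 1 W D.s0 := by
  have hb := h.bpos
  have hb1 := h.b1
  have hb10 := h.b10
  have ha := h.a_pos
  have hs := h.s_pos
  have hw := h.wpos
  have hh : 0 < D.h := by linarith [h.h1]
  have hs0 := h.s0_mem
  have hs0T := h.s0_memT
  have hfb := h.fb h.far (al := 1) (by norm_num) hs0
  have hor := h.core_orth hW hs0T
  set t := D.s0 with htdef
  set φ := D.fam.phi t with hφdef
  set lam := D.fam.Sl 1 t with hlam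
  set L := lt D.n D.xi (D.fam.Sl 1) t with hL
  set Λ := LL D.n D.v D.xi (D.fam.Sl 1) 1 D.s t with hΛ
  set P := ⟪D.B t, cy D W t⟫ with hP
  set u := uu D.n W t with hu
  have hLpos : 0 < L := hfb.lt0
  have hΛpos : 0 < Λ := hfb.LL0
  have hφ : D.a * D.w / (2 * D.b) ≤ φ := h.phi_s0
  have hφ0 : 0 < φ := lt_of_lt_of_le (by positivity) hφ
  have hth : |t - D.t0| ≤ D.w := by
    rw [htdef, h.s0_eq]
    rw [show D.t0 - D.w - D.t0 = -D.w by ring, abs_neg, abs_of_pos hw]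
  have hmu := h.mu_mem
  -- small quantities
  have hw10 : D.b ^ 20 * D.w ≤ 1 := by
    refine (h.bw (by norm_num)).trans ?_
    exact inv_le_one_of_one_le₀ (one_le_pow₀ h.h1)
  have hb3w : D.b ^ 3 * D.w ≤ 1 / 100 := by
    have h1 : 100 * D.b ^ 3 ≤ D.b ^ 20 := by
      calc 100 * D.b ^ 3 = 10 * 10 * D.b ^ 3 := by ring
        _ ≤ D.b * D.b * D.b ^ 3 := by gcongr
        _ = D.b ^ 5 := by ring
        _ ≤ D.b ^ 20 := pow_le_pow_right₀ hb1 (by norm_num)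
    have h2 : 100 * D.b ^ 3 * D.w ≤ 1 := (mul_le_mul_of_nonneg_right h1 hw.le).trans hw10
    linarith
  -- f
  have hf : 9 / 10 * D.a ≤ D.f t := by
    have h1 := (abs_le.1 (h.f_nr hs0T hth)).1
    have h2 : 2 * D.b ^ 5 * D.a * D.w ^ 2 ≤ 1 / 10 * D.a := by
      have h3 : 2 * D.b ^ 5 * D.w ^ 2 ≤ 1 / 10 := by
        calc 2 * D.b ^ 5 * D.w ^ 2 ≤ D.b * D.b ^ 5 * D.w ^ 2 := by
              gcongr
              linarith
          _ = (D.b ^ 3 * D.w) * (D.b ^ 3 * D.w) := by ring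
          _ ≤ (1 / 100) * (1 / 100) := by gcongr
          _ ≤ 1 / 10 := by norm_num
      calc 2 * D.b ^ 5 * D.a * D.w ^ 2 = D.a * (2 * D.b ^ 5 * D.w ^ 2) := by ring
        _ ≤ D.a * (1 / 10) := by gcongr
        _ = _ := by ring
    linarith
  have hz := h.zz_le hW hs0
  have hz' : ‖zz D W t‖ ≤ 4 * D.b ^ 5 * (D.h ^ 2)⁻¹ * D.a := by
    calc ‖zz D W t‖ ≤ 4 * D.b ^ 4 * (D.h ^ 2)⁻¹ * (D.b * D.a) :=
          hz.trans (by gcongr; exact h.v_le t hs0T)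
      _ = _ := by ring
  have hcy : cy D W t = mu D • D.v t + zz D W t := by simp [zz]
  have hBv : ⟪D.B t, D.v t⟫ = D.f t := real_inner_comm _ _
  have hPeq : P = mu D * D.f t + ⟪D.B t, zz D W t⟫ := by
    rw [hP, hcy, inner_add_right, inner_smul_right, hBv]
  have hBz : |⟪D.B t, zz D W t⟫| ≤ 1 / 10 * D.a := by
    calc |⟪D.B t, zz D W t⟫| ≤ ‖D.B t‖ * ‖zz D W t‖ := abs_real_inner_le_norm _ _
      _ ≤ D.b ^ 2 * (4 * D.b ^ 5 * (D.h ^ 2)⁻¹ * D.a) := by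
        gcongr
        exact h.B_le hs0T
      _ = (4 * D.b ^ 7 * (D.h ^ 2)⁻¹) * D.a := by ring
      _ ≤ 1 / 10 * D.a := by
        gcongr
        rw [← div_eq_mul_inv, div_le_iff₀ (by positivity)]
        have h1 : 40 * D.b ^ 7 ≤ D.h := by
          calc 40 * D.b ^ 7 ≤ 10 * 10 * D.b ^ 7 := by gcongr; norm_num
            _ ≤ D.b * D.b * D.b ^ 7 := by gcongr
            _ = D.b ^ 9 := by ring
            _ ≤ D.h := h.hb (by norm_num)
        have h2 : D.h ≤ D.h ^ 2 := by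
          calc D.h = D.h ^ 1 := (pow_one _).symm
            _ ≤ D.h ^ 2 := pow_le_pow_right₀ h.h1 (by norm_num)
        linarith
  have hP1 : D.a / 2 ≤ P := by
    have h1 := (abs_le.1 hBz).1
    have h2 : 9 / 10 * (9 / 10 * D.a) ≤ mu D * D.f t :=
      mul_le_mul hmu.1 hf (by positivity) (by linarith [hmu.1])
    rw [hPeq]
    linarith
  have hP0 : 0 < P := lt_of_lt_of_le (by positivity) hP1
  -- u
  have hueq : u = cy D W t + (1 / (D.s * L) * P) • D.v t := hfb.u_eq (X := W)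
  have hcyn : ⟪D.n t, u⟫ = 0 := n_uu (h.n_ne' t)
  have hsΛ : D.s * Λ = D.s * L + D.f t := by
    show D.s * (L + 1 * ff D.n D.v D.xi t / D.s) = _
    have : ff D.n D.v D.xi t = D.f t := rfl
    rw [this]
    field_simp
  have hpval : -D.fam.p W t = P * (Λ / L) := by
    rw [p_eq]
    have h1 : W t = u + ze D.n W t • D.n t := by simp [hu, uu]
    have h2 : ⟪W t, D.B t⟫ = ⟪D.B t, u⟫ := by
      rw [h1, inner_add_left, real_inner_smul_left, h.nB, real_inner_comm]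
      ring
    rw [h2, hueq, inner_add_right, inner_smul_right, hBv, ← hP]
    have h3 : D.f t = D.s * Λ - D.s * L := by linarith
    rw [h3]
    field_simp
    ring
  have hp0 : 0 < -D.fam.p W t := by
    rw [hpval]
    positivity
  have hlampos : 0 < lam := by
    have h1 := h.lam_ge h.far (al := 1) (by norm_num) (h.far_mem hs0)
    have h2 : 0 ≤ D.a * (D.t0 - t) ^ 2 / (4 * D.b) := by positivity
    have := h.k0_ge
    have h3 : lam = D.fam.Sl 1 t := rfl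
    linarith
  -- the value of q
  have hφeq : ⟪D.xi t, D.v t⟫ = φ := rfl
  have hξu : ⟪D.xi t, u⟫ = mu D * φ + ⟪D.xi t, zz D W t⟫ + P * φ / (D.s * L) := by
    rw [hueq, hcy, inner_add_right, inner_add_right, inner_smul_right, inner_smul_right, hφeq]
    ring
  have hqval : -D.fam.q 1 W t = ‖D.fam.K 1 t‖ ^ 2 / (L * ‖D.B t‖ ^ 2) * ⟪D.xi t, u⟫ := by
    rw [q_eq D hor]
    have h1 : ⟪D.n t, W t⟫ = -(⟪D.xi t, u⟫ / L) := hfb.cj.n_X hor hLpos.ne'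
    rw [h1]
    field_simp
  -- bounds
  have hnu := abs_le.1 (h.nu_b4 hs0T)
  have hLlam : L = lam + nu D.n D.xi t := rfl
  have hlamlo : D.h ^ 10 / (4 * D.b) ≤ lam := by
    have h1 := h.lam_ge h.far (al := 1) (by norm_num) (h.far_mem hs0)
    have h2 := h.far_ar hs0
    have h3 : D.h ^ 10 / (4 * D.b) ≤ D.a * (D.t0 - t) ^ 2 / (4 * D.b) := by gcongr
    have := h.k0_ge
    have h4 : lam = D.fam.Sl 1 t := rfl
    linarith
  have hb4 : D.b ^ 4 ≤ 1 / 20 * lam := by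
    have h1 : 80 * D.b ^ 5 ≤ D.h ^ 10 := by
      calc 80 * D.b ^ 5 ≤ 10 * 10 * D.b ^ 5 := by gcongr; norm_num
        _ ≤ D.b * D.b * D.b ^ 5 := by gcongr
        _ = D.b ^ 7 := by ring
        _ ≤ D.h := h.hb (by norm_num)
        _ = D.h ^ 1 := (pow_one _).symm
        _ ≤ D.h ^ 10 := pow_le_pow_right₀ h.h1 (by norm_num)
    have h2 : 20 * D.b ^ 4 ≤ D.h ^ 10 / (4 * D.b) := by
      rw [le_div_iff₀ (by positivity)]
      calc 20 * D.b ^ 4 * (4 * D.b) = 80 * D.b ^ 5 := by ring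
        _ ≤ D.h ^ 10 := h1
    linarith
  have hlamL : lam ≤ 11 / 10 * L := by
    rw [hLlam]
    linarith [hnu.1]
  have hsΛ2 : D.s * Λ ≤ 11 / 10 * D.a := by
    have e1 : D.s * Λ = D.s * D.k0 + D.a + D.s * nu D.n D.xi t := by
      rw [hsΛ, hLlam, hlam, Flo.lam_eq, X]
      field_simp
      ring
    have h1 : D.s * D.k0 ≤ D.b * D.b := by
      have := h.k0_ge
      gcongr
      · exact h.s_le
      · exact h.k0_le
    have h2 : D.s * nu D.n D.xi t ≤ D.b * D.b ^ 4 := by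
      calc D.s * nu D.n D.xi t ≤ D.s * D.b ^ 4 := by gcongr; exact hnu.2
        _ ≤ D.b * D.b ^ 4 := by gcongr; exact h.s_le
    have h3 : 20 * (D.b * D.b + D.b * D.b ^ 4) ≤ D.a := by
      calc 20 * (D.b * D.b + D.b * D.b ^ 4) = 20 * D.b ^ 2 + 20 * D.b ^ 5 := by ring
        _ ≤ 20 * D.b ^ 5 + 20 * D.b ^ 5 := by
          gcongr
          norm_num
        _ = 40 * D.b ^ 5 := by ring
        _ ≤ 10 * 10 * D.b ^ 5 := by gcongr; norm_num
        _ ≤ D.b * D.b * D.b ^ 5 := by gcongr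
        _ = D.b ^ 7 := by ring
        _ ≤ D.a := h.ba (by norm_num)
    rw [e1]
    linarith
  have hlamhi : lam ≤ 3 * D.b ^ 6 * D.h ^ 10 := by
    have h1 := (abs_le.1 (h.f_nr hs0T hth)).1
    have e1 : lam = D.k0 + (D.a - D.f t) / D.s := by
      rw [hlam, Flo.lam_eq, X]
      ring
    have e2 : D.a * D.w ^ 2 = D.h ^ 10 := by
      rw [a, w]
      field_simp
    have h2 : (D.a - D.f t) / D.s ≤ 2 * D.b ^ 6 * D.h ^ 10 := by
      rw [div_le_iff₀ hs]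
      have h3 : D.a - D.f t ≤ 2 * D.b ^ 5 * D.h ^ 10 := by
        rw [← e2]
        linarith
      have h4 : 1 ≤ D.b * D.s := hfb.s1
      calc D.a - D.f t ≤ 2 * D.b ^ 5 * D.h ^ 10 * 1 := by rw [mul_one]; exact h3
        _ ≤ 2 * D.b ^ 5 * D.h ^ 10 * (D.b * D.s) := by gcongr
        _ = _ := by ring
    have h3 : D.k0 ≤ D.b ^ 6 * D.h ^ 10 := by
      calc D.k0 ≤ D.b := h.k0_le
        _ = D.b ^ 1 * 1 := by ring
        _ ≤ D.b ^ 6 * D.h ^ 10 := by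
          gcongr
          · norm_num
          · exact one_le_pow₀ h.h1
    rw [e1]
    linarith
  have hLhi : L ≤ 4 * D.b ^ 6 * D.h ^ 10 := by
    rw [hLlam]
    have h1 : lam ≤ 3 * D.b ^ 6 * D.h ^ 10 := hlamhi
    have h2 : 0 < D.b ^ 6 * D.h ^ 10 := by positivity
    linarith [hnu.2]
  -- the frame
  have hnn : 99 / 100 ≤ ‖D.n t‖ := by
    have h1 := Mt.n_nr h.toFlo hs0T
    have h2 : D.b ^ 3 * |t - D.t0| ≤ 1 / 100 := (by gcongr : D.b ^ 3 * |t - D.t0| ≤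
      D.b ^ 3 * D.w).trans hb3w
    have h3 := norm_sub_norm_le D.e2 (D.e2 - D.n t)
    rw [h.e2_norm, sub_sub_cancel, norm_sub_rev] at h3
    linarith
  have hBB : ‖D.B t‖ ≤ 101 / 100 := by
    have h1 := Mt.B_nr h.toFlo hs0T
    have h2 : D.b ^ 3 * |t - D.t0| ≤ 1 / 100 := (by gcongr : D.b ^ 3 * |t - D.t0| ≤
      D.b ^ 3 * D.w).trans hb3w
    have h3 : ‖D.B t‖ ≤ ‖D.e1‖ + ‖D.B t - D.e1‖ := by
      calc ‖D.B t‖ = ‖D.e1 + (D.B t - D.e1)‖ := by congr 1; abel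
        _ ≤ _ := norm_add_le _ _
    rw [h.e1_norm] at h3
    linarith
  have hB0 : 0 < ‖D.B t‖ := norm_pos_iff.2 (h.B_ne hs0T)
  have hratio : 9 / 10 * ‖D.B t‖ ^ 2 ≤ ‖D.n t‖ ^ 2 := by
    have h1 : ‖D.B t‖ ^ 2 ≤ (101 / 100) ^ 2 := by gcongr
    have h2 : (99 / 100) ^ 2 ≤ ‖D.n t‖ ^ 2 := by gcongr
    norm_num at h1 h2
    linarith
  -- the error term
  have herr : L * (‖D.xi t‖ * ‖zz D W t‖) ≤ 1 / 10 * (P * φ / D.s) := by
    have h1 : L * (‖D.xi t‖ * ‖zz D W t‖) ≤ 16 * D.b ^ 13 * D.h ^ 8 * D.a := by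
      calc L * (‖D.xi t‖ * ‖zz D W t‖) ≤ (4 * D.b ^ 6 * D.h ^ 10) *
          (D.b ^ 2 * (4 * D.b ^ 5 * (D.h ^ 2)⁻¹ * D.a)) := by
            gcongr
            exact h.xi_le hs0T
        _ = _ := by
          field_simp
          ring
    have h2 : D.a / 2 * (D.a * D.w / (2 * D.b)) / D.b ≤ P * φ / D.s := by
      gcongr
      exact h.s_le
    have h3 : D.a / 2 * (D.a * D.w / (2 * D.b)) / D.b = D.a * D.h ^ 17 / (4 * D.b ^ 2) := by
      have : D.a * D.w = D.h ^ 17 := by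
        rw [a, w]
        field_simp
      rw [this]
      field_simp
      ring
    have h4 : 640 * D.b ^ 15 ≤ D.h ^ 9 := by
      calc 640 * D.b ^ 15 ≤ 10 * 10 * 10 * D.b ^ 15 := by gcongr; norm_num
        _ ≤ D.b * D.b * D.b * D.b ^ 15 := by gcongr
        _ = D.b ^ 18 := by ring
        _ ≤ D.h := h.hb (by norm_num)
        _ = D.h ^ 1 := (pow_one _).symm
        _ ≤ D.h ^ 9 := pow_le_pow_right₀ h.h1 (by norm_num)
    have h5 : 16 * D.b ^ 13 * D.h ^ 8 * D.a ≤ 1 / 10 * (D.a * D.h ^ 17 / (4 * D.b ^ 2)) := by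
      have e : 1 / 10 * (D.a * D.h ^ 17 / (4 * D.b ^ 2)) = D.a * D.h ^ 17 / (40 * D.b ^ 2) := by
        field_simp
        ring
      rw [e, le_div_iff₀ (by positivity)]
      calc 16 * D.b ^ 13 * D.h ^ 8 * D.a * (40 * D.b ^ 2) = (640 * D.b ^ 15) * (D.a * D.h ^ 8) := by
            ring
        _ ≤ D.h ^ 9 * (D.a * D.h ^ 8) := by gcongr
        _ = D.a * D.h ^ 17 := by ring
    calc L * (‖D.xi t‖ * ‖zz D W t‖) ≤ 16 * D.b ^ 13 * D.h ^ 8 * D.a := h1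
      _ ≤ 1 / 10 * (D.a * D.h ^ 17 / (4 * D.b ^ 2)) := h5
      _ ≤ 1 / 10 * (P * φ / D.s) := by
        rw [← h3]
        gcongr
  -- q is large
  set Q := P * φ / D.s with hQ
  have hQ0 : 0 < Q := by positivity
  have hξz : |⟪D.xi t, zz D W t⟫| ≤ ‖D.xi t‖ * ‖zz D W t‖ := abs_real_inner_le_norm _ _
  have hξulo : 9 / 10 * Q ≤ L * ⟪D.xi t, u⟫ := by
    have e1 : L * ⟪D.xi t, u⟫ = L * (mu D * φ) + L * ⟪D.xi t, zz D W t⟫ + Q := by
      rw [hξu, hQ]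
      field_simp
    have h1 : -(L * (‖D.xi t‖ * ‖zz D W t‖)) ≤ L * ⟪D.xi t, zz D W t⟫ := by
      have h2 := mul_le_mul_of_nonneg_left (abs_le.1 hξz).1 hLpos.le
      rwa [mul_neg] at h2
    have h2 : 0 ≤ L * (mu D * φ) := by
      have := hmu.1
      positivity
    rw [e1]
    linarith
  have hK2 : L ^ 2 * ‖D.n t‖ ^ 2 ≤ ‖D.fam.K 1 t‖ ^ 2 := by
    have h1 : L * ‖D.n t‖ ≤ ‖D.fam.K 1 t‖ := hfb.k_ge
    calc L ^ 2 * ‖D.n t‖ ^ 2 = (L * ‖D.n t‖) ^ 2 := by ring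
      _ ≤ ‖D.fam.K 1 t‖ ^ 2 := by gcongr
  have hqlo : 81 / 100 * Q ≤ -D.fam.q 1 W t := by
    rw [hqval]
    have h1 : 9 / 10 * L ≤ ‖D.fam.K 1 t‖ ^ 2 / (L * ‖D.B t‖ ^ 2) := by
      rw [le_div_iff₀ (by positivity)]
      calc 9 / 10 * L * (L * ‖D.B t‖ ^ 2) = L ^ 2 * (9 / 10 * ‖D.B t‖ ^ 2) := by ring
        _ ≤ L ^ 2 * ‖D.n t‖ ^ 2 := by gcongr
        _ ≤ ‖D.fam.K 1 t‖ ^ 2 := hK2
    have h2 : 0 ≤ ⟪D.xi t, u⟫ := by
      have h3 : 0 < L * ⟪D.xi t, u⟫ := lt_of_lt_of_le (by positivity) hξulo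
      exact ((mul_pos_iff_of_pos_left hLpos).1 h3).le
    calc 81 / 100 * Q = 9 / 10 * (9 / 10 * Q) := by ring
      _ ≤ 9 / 10 * (L * ⟪D.xi t, u⟫) := by gcongr
      _ = 9 / 10 * L * ⟪D.xi t, u⟫ := by ring
      _ ≤ _ := by gcongr
  have hphi : φ * lam * (-D.fam.p W t) / (2 * D.a) ≤ 61 / 100 * Q := by
    rw [hpval]
    have e1 : φ * lam * (P * (Λ / L)) / (2 * D.a) =
        Q * (lam / L) * (D.s * Λ) / (2 * D.a) := by
      rw [hQ]
      field_simp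
    rw [e1]
    have h1 : lam / L ≤ 11 / 10 := by
      rw [div_le_iff₀ hLpos]
      exact hlamL
    calc Q * (lam / L) * (D.s * Λ) / (2 * D.a) ≤ Q * (11 / 10) * (11 / 10 * D.a) / (2 * D.a) := by
          gcongr
      _ = 121 / 200 * Q := by
        field_simp
        ring
      _ ≤ 61 / 100 * Q := by linarith
  -- conclusion
  have hkap := h.kap_pos
  have hr : 0 < D.r := Real.sqrt_pos.2 (by positivity)
  have hde : 0 < D.de := Real.sqrt_pos.2 (by positivity)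
  have hder : D.de * D.a = D.r := by
    rw [de, r, Real.sqrt_div hkap.le, Real.sqrt_mul ha.le]
    have : Real.sqrt D.a * Real.sqrt D.a = D.a := Real.mul_self_sqrt ha.le
    have h2 : Real.sqrt D.a ≠ 0 := (Real.sqrt_pos.2 ha).ne'
    field_simp
    rw [Real.sq_sqrt ha.le]
  have hsl : 0 < Real.sqrt lam := Real.sqrt_pos.2 hlampos
  have hsl2 : Real.sqrt lam * Real.sqrt lam = lam := Real.mul_self_sqrt hlampos.le
  refine ⟨mul_pos hsl hp0, ?_⟩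
  have hZ : D.Z 1 W t = (-D.fam.q 1 W t - φ * lam * (-D.fam.p W t) / (2 * D.a))
      / (D.de * Real.sqrt lam) := by
    have e1 : D.Y 1 W t = Real.sqrt lam * (-D.fam.p W t) := rfl
    have e2 : D.j 1 t = -φ / D.r := by
      show -(1 * φ) / D.r = _
      ring
    have e3 : D.Z 1 W t = -D.fam.q 1 W t / (D.de * Real.sqrt lam) + D.j 1 t / 2 * D.Y 1 W t := rfl
    rw [e3, e1, e2, ← hder]
    field_simp
    rw [Real.sq_sqrt hlampos.le]
    ring
  rw [hZ]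
  apply div_pos _ (by positivity)
  linarith

end HL

end LevD

end Pool.Agent.Work.MP_b0497c_an.Unf.O
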