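import Pool.Agent.Work.MP_b0497c_an.Unf.FarS
import Pool.Agent.Work.MP_b0497c_an.Unf.ONext

set_option autoImplicit false

/-!
# The core wave in the far region (OK.5, O1) and the matching at `s0` (O2)
-/

open Set ContinuousLinearMap RealInnerProductSpace MeasureTheory

namespace Pool.Agent.Work.MP_b0497c_an.Unf.O

open Forced.Ode (Op ro)
open K

namespace LevD

variable {D : LevD} {W : ℝ → E3}

namespace Flo

variable {b' : ℝ}

theorem Fi_zero (h : D.Flo b') : D.Fi 0 = ContinuousLinearMap.id ℝ E3 := by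
  have h1 := h.FFi 0
  rw [h.F_zero] at h1
  exact h1

theorem n_zero (h : D.Flo b') : D.n 0 = D.l := by
  rw [n, h.Fi_zero, adj_id]

theorem xi_zero (h : D.Flo b') : D.xi 0 = D.K0 := by
  rw [xi, h.Fi_zero, adj_id]

theorem lam_zero (_h : D.Flo b') (al : ℝ) : D.fam.Sl al 0 = D.X := by
  rw [Flo.lam_eq]
  simp

theorem K_at0 (h : D.Flo b') (al : ℝ) : D.fam.K al 0 = D.Kn := by
  show D.xi 0 + D.fam.Sl al 0 • D.n 0 = D.Kn
  rw [h.xi_zero, h.n_zero, h.lam_zero]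
  rfl

end Flo

namespace HL

theorem zero_mem (h : D.HL) : (0 : ℝ) ∈ Icc 0 (D.t0 - D.w) := ⟨le_refl _, by linarith [h.far.w_le]⟩

/-- `K · l > 0` -/
theorem lK (h : D.HL) : ⟪D.Kn, D.l⟫ = lt D.n D.xi (D.fam.Sl 1) 0 * ‖D.l‖ ^ 2 ∧
    0 < ⟪D.Kn, D.l⟫ := by
  have hfb := h.fb h.far (al := 1) (by norm_num) h.zero_mem
  have hn : D.l ≠ 0 := by
    have := h.n_ne' 0
    rwa [h.n_zero] at this
  have hn' : ‖D.l‖ ^ 2 ≠ 0 := pow_ne_zero 2 (norm_ne_zero_iff.2 hn)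
  have e1 : ⟪D.Kn, D.l⟫ = lt D.n D.xi (D.fam.Sl 1) 0 * ‖D.l‖ ^ 2 := by
    have e2 : lt D.n D.xi (D.fam.Sl 1) 0 = D.X + ⟪D.K0, D.l⟫ / ‖D.l‖ ^ 2 := by
      show D.fam.Sl 1 0 + nu D.n D.xi 0 = _
      rw [h.lam_zero, nu, h.n_zero, h.xi_zero]
    rw [e2, Kn, inner_add_left, real_inner_smul_left, real_inner_self_eq_norm_sq, add_mul,
      div_mul_cancel₀ _ hn']
    ring
  refine ⟨e1, ?_⟩
  rw [e1]
  have := hfb.lt0
  have h2 : 0 < ‖D.l‖ := norm_pos_iff.2 hn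
  positivity

theorem core_orth0 (h : D.HL) (hW : D.Core W) : ⟪D.fam.K 1 0, W 0⟫ = 0 := by
  have h1 := h.lK.2.ne'
  rw [h.K_at0, hW.zero, seed, inner_sub_right, inner_smul_right, div_mul_cancel₀ _ h1, sub_self]

theorem core_orth (h : D.HL) (hW : D.Core W) {t : ℝ} (ht : t ∈ Icc 0 D.T) :
    ⟪D.fam.K 1 t, W t⟫ = 0 :=
  h.orth (s := 0) (t := t) ⟨le_refl _, h.T_pos.le⟩ ht
    (fun r hr => hW.der r ⟨hr.1, hr.2.trans ht.2⟩) (h.core_orth0 hW) t ⟨ht.1, le_refl _⟩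

/-- the plane part at `0` is the seed of sheet `n` -/
theorem core_u0 (h : D.HL) (hW : D.Core W) : uu D.n W 0 = D.v 0 := by
  have hn : D.l ≠ 0 := by
    have := h.n_ne' 0
    rwa [h.n_zero] at this
  have hn' : ‖D.l‖ ^ 2 ≠ 0 := pow_ne_zero 2 (norm_ne_zero_iff.2 hn)
  have h1 : ⟪D.l, D.v 0⟫ = 0 := by
    have := h.v_orth 0
    rwa [h.n_zero] at this
  rw [uu, Unf.O.ze, h.n_zero, hW.zero, seed, inner_sub_right, inner_smul_right, h1,
    real_inner_self_eq_norm_sq]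
  have : (0 - ⟪D.Kn, D.v 0⟫ / ⟪D.Kn, D.l⟫ * ‖D.l‖ ^ 2) / ‖D.l‖ ^ 2 =
      -(⟪D.Kn, D.v 0⟫ / ⟪D.Kn, D.l⟫) := by
    field_simp
    ring
  rw [this]
  module

/-- the conjugated core wave -/
noncomputable def cy (D : LevD) (W : ℝ → E3) : ℝ → E3 := yy D.n D.v D.xi W (D.fam.Sl 1) 1 D.s

/-- the normalisation of the conjugated core wave -/
noncomputable def mu (D : LevD) : ℝ := 1 - D.f 0 / (D.s * LL D.n D.v D.xi (D.fam.Sl 1) 1 D.s 0)

/-- the deviation of the conjugated core wave from wave `n` -/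
noncomputable def zz (D : LevD) (W : ℝ → E3) (t : ℝ) : E3 := cy D W t - mu D • D.v t

theorem core_y0 (h : D.HL) (hW : D.Core W) : cy D W 0 = mu D • D.v 0 := by
  have e1 : ⟪bB D.n D.xi 0, D.v 0⟫ = D.f 0 := real_inner_comm _ _
  rw [cy, yy, h.core_u0 hW, e1, mu]
  match_scalars
  ring

theorem a_ge_h (h : D.HL) : D.h ^ 2 ≤ D.a := pow_le_pow_right₀ h.h1 (by norm_num)

theorem hbig (h : D.HL) : (10 : ℝ) ^ 4 ≤ D.h := by
  refine (h.cb 4).trans (h.hb (by norm_num))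

theorem mu_abs (h : D.HL) : |mu D - 1| ≤ 2 / D.a := by
  have hfb := h.fb h.far (al := 1) (by norm_num) h.zero_mem
  have ha := h.a_pos
  have hL := hfb.LL0
  have hs := h.s_pos
  have h1 := hfb.L1
  rw [mu]
  have : (1 - D.f 0 / (D.s * LL D.n D.v D.xi (D.fam.Sl 1) 1 D.s 0) - 1) =
      -(D.f 0 / (D.s * LL D.n D.v D.xi (D.fam.Sl 1) 1 D.s 0)) := by ring
  rw [this, abs_neg, abs_div, abs_of_pos (by positivity : 0 < D.s *
    LL D.n D.v D.xi (D.fam.Sl 1) 1 D.s 0), div_le_div_iff₀ (by positivity) ha]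
  have := h.far.f0
  nlinarith

theorem mu_mem (h : D.HL) : 9 / 10 ≤ mu D ∧ mu D ≤ 11 / 10 := by
  have h1 := h.mu_abs
  have ha := h.a_pos
  have h2 : 2 / D.a ≤ 1 / 10 := by
    rw [div_le_div_iff₀ ha (by norm_num)]
    have := h.hbig
    have h3 := h.a_ge_h
    nlinarith
  have h4 := abs_le.1 (h1.trans h2)
  constructor <;> linarith [h4.1, h4.2]

/-- `(al t / al 0) |v 0| ≤ b² |v t|` -/
theorem v_ratio (h : D.HL) {s t : ℝ} (hs : s ∈ Icc 0 D.T) (ht : t ∈ Icc 0 D.T) :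
    D.al t / D.al s * ‖D.v s‖ ≤ D.b ^ 2 * ‖D.v t‖ := by
  have ha := h.a_pos
  have hb := h.bpos
  have has := h.al_pos s hs
  have hat := h.al_pos t ht
  have ha0 := h.al_pos D.t0 h.t0_mem
  have h1 := (h.v_size s hs).2
  have h2 := (h.v_size t ht).1
  have h3 : ‖D.v s‖ * D.al D.t0 ≤ D.b * D.a * D.al s := by
    have e : ‖D.v s‖ / D.a * (D.al D.t0 / D.al s) * (D.a * D.al s) = ‖D.v s‖ * D.al D.t0 := by
      field_simp
    rw [← e]
    calc ‖D.v s‖ / D.a * (D.al D.t0 / D.al s) * (D.a * D.al s) ≤ D.b * (D.a * D.al s) := by gcongr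
      _ = _ := by ring
  have h4 : D.a * D.al t ≤ D.b * (‖D.v t‖ * D.al D.t0) := by
    have e : ‖D.v t‖ / D.a * (D.al D.t0 / D.al t) * (D.a * D.al t) = ‖D.v t‖ * D.al D.t0 := by
      field_simp
    have e2 : (D.b)⁻¹ * (D.a * D.al t) ≤ ‖D.v t‖ * D.al D.t0 := by
      rw [← e]
      gcongr
    calc D.a * D.al t = D.b * ((D.b)⁻¹ * (D.a * D.al t)) := by field_simp
      _ ≤ _ := by gcongr
  have h5 : D.al t * ‖D.v s‖ * D.al D.t0 ≤ (D.b ^ 2 * ‖D.v t‖ * D.al s) * D.al D.t0 := by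
    calc D.al t * ‖D.v s‖ * D.al D.t0 = D.al t * (‖D.v s‖ * D.al D.t0) := by ring
      _ ≤ D.al t * (D.b * D.a * D.al s) := by gcongr
      _ = (D.a * D.al t) * (D.b * D.al s) := by ring
      _ ≤ (D.b * (‖D.v t‖ * D.al D.t0)) * (D.b * D.al s) := by gcongr
      _ = _ := by ring
  have h6 := le_of_mul_le_mul_right h5 ha0
  rw [div_mul_eq_mul_div, div_le_iff₀ has]
  exact h6

/-- **O1** -/
theorem zz_le (h : D.HL) (hW : D.Core W) {t : ℝ} (ht : t ∈ Icc 0 (D.t0 - D.w)) :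
    ‖zz D W t‖ ≤ 4 * D.b ^ 4 * (D.h ^ 2)⁻¹ * ‖D.v t‖ := by
  have hb := h.bpos
  have hw := h.wpos
  have ha := h.a_pos
  have hh : 0 < D.h := by linarith [h.h1]
  have htw : D.t0 - D.w ≤ D.T := by linarith [h.t0_lt]
  have h0T : (0 : ℝ) ∈ Icc 0 D.T := ⟨le_refl _, h.T_pos.le⟩
  have htT : t ∈ Icc 0 D.T := ⟨ht.1, ht.2.trans htw⟩
  have hsub : ∀ r ∈ Icc 0 t, r ∈ Icc 0 (D.t0 - D.w) := fun r hr => ⟨hr.1, hr.2.trans ht.2⟩
  have htau : ∀ r ∈ Icc 0 t, 0 < D.t0 - r := fun r hr => by linarith [(hsub r hr).2]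
  have hal : |(1 : ℝ)| ≤ 1 := by norm_num
  have hat := h.al_pos t htT
  have ha0 := h.al_pos 0 h0T
  have hmu := h.mu_mem
  have hder : ∀ r ∈ Icc 0 t, HasDerivAt (zz D W) (kel (D.A r) (D.n r) (zz D W r)
      + gg D.A D.n D.v D.xi W (D.fam.Sl 1) 1 D.s r) r := by
    intro r hr
    have h1 := h.y_der h.far hal (hsub r hr) (hW.der r ⟨hr.1, hr.2.trans htT.2⟩)
      (h.core_orth hW ⟨hr.1, hr.2.trans htT.2⟩)
    have h2 := h1.sub ((h.v_der r).const_smul (mu D))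
    refine h2.congr_deriv ?_
    simp only [zz, cy, map_sub, map_smul]
    abel
  set κ : ℝ := 2 * D.b * ‖cy D W 0‖ / D.al 0 with hκ
  have hκ0 : 0 ≤ κ := by positivity
  have hy : ∀ r ∈ Icc 0 t, ‖cy D W r‖ ≤ κ * D.al r := by
    intro r hr
    have h1 := h.y_bound h.far hal (s := 0) (t := r) h.zero_mem (hsub r hr)
      (X := W) (fun x hx => hW.der x ⟨hx.1, hx.2.trans (hr.2.trans htT.2)⟩) (h.core_orth0 hW)
    refine h1.trans (le_of_eq ?_)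
    rw [hκ]
    show 2 * D.b * (D.al r / D.al 0) * ‖cy D W 0‖ = _
    ring
  have hep : ∀ r ∈ Icc 0 t, 0 ≤ ep D.a D.b (D.t0 - r) := by
    intro r hr
    have := htau r hr
    unfold ep
    positivity
  have hepc : ContinuousOn (fun r => ep D.a D.b (D.t0 - r)) (Icc 0 t) := by
    intro r hr
    have := htau r hr
    unfold ep
    apply ContinuousAt.continuousWithinAt
    apply ContinuousAt.add
    · apply ContinuousAt.div (by fun_prop) (by fun_prop)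
      positivity
    · apply ContinuousAt.div (by fun_prop) (by fun_prop)
      positivity
  have h1 := PB.duhamel (u := zz D W) (g := gg D.A D.n D.v D.xi W (D.fam.Sl 1) 1 D.s)
    (h := fun r => ep D.a D.b (D.t0 - r) * κ) h.kelA_cont h.al_pos h.prop h0T htT
    (hepc.mul continuousOn_const) hder
    (h.gg_cont h.far hal hsub fun r hr =>
      (hW.der r ⟨hr.1, hr.2.trans htT.2⟩).continuousAt.continuousWithinAt)
    (fun r hr => by
      have h2 := (h.fb h.far hal (hsub r hr)).gg_le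
        (h.core_orth hW ⟨hr.1, hr.2.trans htT.2⟩)
      calc ‖gg D.A D.n D.v D.xi W (D.fam.Sl 1) 1 D.s r‖
          ≤ ep D.a D.b (D.t0 - r) * ‖cy D W r‖ := h2
        _ ≤ ep D.a D.b (D.t0 - r) * (κ * D.al r) :=
          mul_le_mul_of_nonneg_left (hy r hr) (hep r hr)
        _ = _ := by ring) hb.le
  have hz0 : zz D W 0 = 0 := by
    rw [zz, h.core_y0 hW, sub_self]
  have hint : ∫ r in (0 : ℝ)..t, ep D.a D.b (D.t0 - r) * κ
      = (Ep D.a D.b D.t0 t - Ep D.a D.b D.t0 0) * κ := by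
    rw [intervalIntegral.integral_mul_const]
    congr 1
    refine intervalIntegral.integral_eq_sub_of_hasDerivAt (f := Ep D.a D.b D.t0) ?_ ?_
    · rw [uIcc_of_le ht.1]
      exact fun r hr => Ep_der ha (htau r hr)
    · apply ContinuousOn.intervalIntegrable
      rw [uIcc_of_le ht.1]
      exact hepc
  rw [hint, hz0, norm_zero, zero_div, zero_add] at h1
  have hE := h.Ep_le ht
  have hE0 : 0 ≤ Ep D.a D.b D.t0 0 := by
    have := htau 0 ⟨le_refl _, ht.1⟩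
    unfold Ep
    positivity
  have hy0 : ‖cy D W 0‖ ≤ 2 * ‖D.v 0‖ := by
    rw [h.core_y0 hW, norm_smul, Real.norm_eq_abs, abs_of_nonneg (by linarith [hmu.1])]
    have := norm_nonneg (D.v 0)
    nlinarith [hmu.2]
  have hvr := h.v_ratio h0T htT
  calc ‖zz D W t‖ ≤ D.b * D.al t * ((Ep D.a D.b D.t0 t - Ep D.a D.b D.t0 0) * κ) := h1
    _ ≤ D.b * D.al t * ((D.h ^ 2)⁻¹ * κ) := by
      gcongr
      linarith
    _ = 2 * D.b ^ 2 * (D.h ^ 2)⁻¹ * (D.al t / D.al 0 * ‖cy D W 0‖) := by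
      rw [hκ]
      ring
    _ ≤ 2 * D.b ^ 2 * (D.h ^ 2)⁻¹ * (D.al t / D.al 0 * (2 * ‖D.v 0‖)) := by gcongr
    _ = 4 * D.b ^ 2 * (D.h ^ 2)⁻¹ * (D.al t / D.al 0 * ‖D.v 0‖) := by ring
    _ ≤ 4 * D.b ^ 2 * (D.h ^ 2)⁻¹ * (D.b ^ 2 * ‖D.v t‖) := by gcongr
    _ = _ := by ring

theorem small1 (h : D.HL) : 4 * D.b ^ 4 * (D.h ^ 2)⁻¹ ≤ (D.h)⁻¹ := by
  have hh : 0 < D.h := by linarith [h.h1]
  have hb := h.bpos
  have h1 : 4 * D.b ^ 4 ≤ D.h := by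
    calc 4 * D.b ^ 4 ≤ 10 * D.b ^ 4 := by gcongr; norm_num
      _ ≤ D.b * D.b ^ 4 := by gcongr; exact h.b10
      _ = D.b ^ 5 := by ring
      _ ≤ D.h := h.hb (by norm_num)
  calc 4 * D.b ^ 4 * (D.h ^ 2)⁻¹ ≤ D.h * (D.h ^ 2)⁻¹ := by gcongr
    _ = (D.h)⁻¹ := by field_simp

/-- two-sided size of the core wave in the far region -/
theorem core_size (h : D.HL) (hW : D.Core W) {t : ℝ} (ht : t ∈ Icc 0 (D.t0 - D.w)) :
    ‖D.v t‖ ≤ 6 * D.b ^ 3 * ‖W t‖ ∧ ‖W t‖ ≤ 36 * D.b ^ 7 * D.h ^ 14 * ‖D.v t‖ := by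
  have hb := h.bpos
  have hw := h.wpos
  have hh : 0 < D.h := by linarith [h.h1]
  have htw : D.t0 - D.w ≤ D.T := by linarith [h.t0_lt]
  have htT : t ∈ Icc 0 D.T := ⟨ht.1, ht.2.trans htw⟩
  have hfb := h.fb h.far (al := 1) (by norm_num) ht
  have hor := h.core_orth hW htT
  have h1 := h.zz_le hW ht
  have h2 := hfb.y_le (X := W)
  have h3 := hfb.u_le (X := W)
  have h4 : ‖uu D.n W t‖ ≤ ‖W t‖ := uu_le (h.n_ne' t)
  have h5 := hfb.X_le hor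
  have hmu := h.mu_mem
  have hv := norm_nonneg (D.v t)
  have hy : cy D W t = mu D • D.v t + zz D W t := by simp [zz]
  have hm : ‖mu D • D.v t‖ = mu D * ‖D.v t‖ := by
    rw [norm_smul, Real.norm_eq_abs, abs_of_nonneg (by linarith [hmu.1])]
  have hz : ‖zz D W t‖ ≤ 1 / 10 * ‖D.v t‖ := by
    refine h1.trans ?_
    gcongr
    refine h.small1.trans ?_
    rw [inv_le_comm₀ hh (by norm_num)]
    have := h.hbig
    norm_num at this ⊢
    linarith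
  have hylo : 1 / 2 * ‖D.v t‖ ≤ ‖cy D W t‖ := by
    rw [hy]
    have h6 := norm_sub_norm_le (mu D • D.v t) (-(zz D W t))
    rw [sub_neg_eq_add, norm_neg, hm] at h6
    nlinarith [hmu.1]
  have hyhi : ‖cy D W t‖ ≤ 2 * ‖D.v t‖ := by
    rw [hy]
    refine (norm_add_le _ _).trans ?_
    rw [hm]
    nlinarith [hmu.2]
  constructor
  · have h7 : ‖cy D W t‖ ≤ 3 * D.b ^ 3 * ‖W t‖ := h2.trans (by gcongr)
    linarith
  · have hτ : (D.t0 - t)⁻¹ ^ 2 ≤ D.h ^ 14 := by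
      have h6 : D.w ≤ D.t0 - t := by linarith [ht.2]
      calc (D.t0 - t)⁻¹ ^ 2 ≤ D.w⁻¹ ^ 2 := by
            have : 0 < D.t0 - t := hw.trans_le h6
            gcongr
        _ = D.h ^ 14 := by
          rw [w]
          field_simp
    calc ‖W t‖ ≤ 2 * ‖uu D.n W t‖ := h5
      _ ≤ 2 * (9 * D.b ^ 7 * (D.t0 - t)⁻¹ ^ 2 * ‖cy D W t‖) := by
        gcongr
        exact h3
      _ ≤ 2 * (9 * D.b ^ 7 * D.h ^ 14 * (2 * ‖D.v t‖)) := by gcongr
      _ = _ := by ring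

/-- O4 in the far region -/
theorem core_far (h : D.HL) (hW : D.Core W) {s t : ℝ} (hs : s ∈ Icc 0 (D.t0 - D.w))
    (ht : t ∈ Icc s (D.t0 - D.w)) :
    D.al t / D.al s * ‖W s‖ ≤ D.h ^ 15 * ‖W t‖ ∧
      ‖W t‖ ≤ D.h ^ 15 * (D.al t / D.al s) * ‖W s‖ := by
  have hb := h.bpos
  have hh : 0 < D.h := by linarith [h.h1]
  have htw : D.t0 - D.w ≤ D.T := by linarith [h.t0_lt, h.wpos]
  have ht' : t ∈ Icc 0 (D.t0 - D.w) := ⟨hs.1.trans ht.1, ht.2⟩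
  have hsT : s ∈ Icc 0 D.T := ⟨hs.1, hs.2.trans htw⟩
  have htT : t ∈ Icc 0 D.T := ⟨ht'.1, ht'.2.trans htw⟩
  obtain ⟨h1, h2⟩ := h.core_size hW hs
  obtain ⟨h3, h4⟩ := h.core_size hW ht'
  have has := h.al_pos s hsT
  have hat := h.al_pos t htT
  have h5 := h.v_ratio hsT htT
  have h6 : ‖D.v t‖ ≤ D.b ^ 2 * (D.al t / D.al s) * ‖D.v s‖ := by
    have h7 := h.v_ratio htT hsT
    have h8 : ‖D.v t‖ = D.al t / D.al s * (D.al s / D.al t * ‖D.v t‖) := by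
      field_simp
    rw [h8]
    calc D.al t / D.al s * (D.al s / D.al t * ‖D.v t‖) ≤ D.al t / D.al s * (D.b ^ 2 * ‖D.v s‖) := by
          gcongr
      _ = _ := by ring
  have hfin : 216 * D.b ^ 12 * D.h ^ 14 ≤ D.h ^ 15 := by
    calc 216 * D.b ^ 12 * D.h ^ 14 ≤ 10 ^ 3 * D.b ^ 12 * D.h ^ 14 := by gcongr; norm_num
      _ ≤ D.b ^ 3 * D.b ^ 12 * D.h ^ 14 := by gcongr; exact h.b10
      _ = D.b ^ 15 * D.h ^ 14 := by ring
      _ ≤ D.h * D.h ^ 14 := by gcongr; exact h.hb (by norm_num)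
      _ = D.h ^ 15 := by ring
  have hq : 0 ≤ D.al t / D.al s := by positivity
  constructor
  · calc D.al t / D.al s * ‖W s‖ ≤ D.al t / D.al s * (36 * D.b ^ 7 * D.h ^ 14 * ‖D.v s‖) := by
          gcongr
      _ = 36 * D.b ^ 7 * D.h ^ 14 * (D.al t / D.al s * ‖D.v s‖) := by ring
      _ ≤ 36 * D.b ^ 7 * D.h ^ 14 * (D.b ^ 2 * (6 * D.b ^ 3 * ‖W t‖)) := by
        apply mul_le_mul_of_nonneg_left _ (by positivity)
        exact h5.trans (by gcongr)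
      _ = 216 * D.b ^ 12 * D.h ^ 14 * ‖W t‖ := by ring
      _ ≤ D.h ^ 15 * ‖W t‖ := by gcongr
  · calc ‖W t‖ ≤ 36 * D.b ^ 7 * D.h ^ 14 * ‖D.v t‖ := h4
      _ ≤ 36 * D.b ^ 7 * D.h ^ 14 * (D.b ^ 2 * (D.al t / D.al s) * (6 * D.b ^ 3 * ‖W s‖)) := by
        apply mul_le_mul_of_nonneg_left _ (by positivity)
        exact h6.trans (by gcongr)
      _ = 216 * D.b ^ 12 * D.h ^ 14 * (D.al t / D.al s) * ‖W s‖ := by ring
      _ ≤ D.h ^ 15 * (D.al t / D.al s) * ‖W s‖ := by gcongr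

end HL

end LevD

end Pool.Agent.Work.MP_b0497c_an.Unf.O
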