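import Pool.Agent.Work.MP_b0497c_an.Unf.WinB

set_option autoImplicit false

/-!
# N2: the coefficients in the window
-/

open Set ContinuousLinearMap RealInnerProductSpace

namespace Pool.Agent.Work.MP_b0497c_an.Unf.O

open Forced.Ode (Op ro)
open Fam K

namespace LevD

variable {D : LevD} {b' : ℝ}

/-! ### Near `t0`, for `Flo` -/

theorem Flo.Bsq (h : D.Flo b') {t : ℝ} (ht : D.Nr b' t) :
    |‖D.B t‖ ^ 2 - 1| ≤ 5 * D.uu b' t := by
  have hu := h.uu_le ht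
  have hu0 := h.uu_nonneg t
  have h1 := h.B_lo ht
  have h2 := h.B_up ht
  rw [abs_le]
  constructor <;> nlinarith

theorem Flo.nsq (h : D.Flo b') {t : ℝ} (ht : D.Nr b' t) :
    |‖D.n t‖ ^ 2 - 1| ≤ 5 * D.uu b' t := by
  have hu := h.uu_le ht
  have hu0 := h.uu_nonneg t
  have h1 := h.n_lo ht
  have h2 := h.n_up ht
  rw [abs_le]
  constructor <;> nlinarith

theorem Flo.nu_le (h : D.Flo b') {t : ℝ} (ht : D.Nr b' t) :
    |D.fam.nu t| ≤ 6 * D.uu b' t := by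
  have hu := h.uu_le ht
  have hu0 := h.uu_nonneg t
  have h1 := abs_le.1 (h.nsq ht)
  have h2 := h.xin_near ht
  unfold FamD.nu
  show |⟪D.xi t, D.n t⟫ / ‖D.n t‖ ^ 2| ≤ _
  have h3 : 0 < ‖D.n t‖ ^ 2 := by linarith
  rw [abs_div, abs_of_pos h3, div_le_iff₀ h3]
  nlinarith

/-- `|D|² / |K|²` -/
noncomputable def QQ (D : LevD) (al t : ℝ) : ℝ := ‖D.fam.D t‖ ^ 2 / ‖D.fam.K al t‖ ^ 2

theorem Flo.normD (t : ℝ) : ‖D.fam.D t‖ = ‖D.B t‖ := by
  rw [Flo.famD, norm_neg]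

theorem Flo.QQ_pos (h : D.Flo b') (al t : ℝ) : 0 < D.QQ al t := by
  unfold QQ
  have h1 := h.D_all t
  have h2 := h.K_all al t
  positivity

theorem Flo.QQ_inv (h : D.Flo b') (al t : ℝ) :
    (D.QQ al t)⁻¹ = 1 / ‖D.n t‖ ^ 2 +
      ‖D.n t‖ ^ 2 / ‖D.B t‖ ^ 2 * (D.fam.Sl al t + D.fam.nu t) ^ 2 := by
  unfold QQ
  have h3 : D.n t ≠ 0 := h.n_all t
  have h4 : ‖D.B t‖ ≠ 0 := norm_ne_zero_iff.2 (h.B_all t)
  have h5 : ‖D.n t‖ ≠ 0 := norm_ne_zero_iff.2 h3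
  rw [FamD.normK (F := D.fam) (al := al) h3, inv_div, Flo.normD]
  show (‖D.B t‖ ^ 2 / ‖D.n t‖ ^ 2 + ‖D.n t‖ ^ 2 * (D.fam.Sl al t + D.fam.nu t) ^ 2)
    / ‖D.B t‖ ^ 2 = _
  field_simp

/-- `|D|² lam² / |K|² ≤ 1 + 30 u`. -/
theorem Flo.QQ_up (h : D.Flo b') {al t : ℝ} (ht : D.Nr b' t) (hl : 1 ≤ D.fam.Sl al t) :
    D.QQ al t * D.fam.Sl al t ^ 2 ≤ 1 + 30 * D.uu b' t := by
  have hu := h.uu_le ht
  have hu0 := h.uu_nonneg t
  have hB := abs_le.1 (h.Bsq ht)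
  have hn := abs_le.1 (h.nsq ht)
  have hnu := abs_le.1 (h.nu_le ht)
  have hQ := h.QQ_pos al t
  have hi := h.QQ_inv al t
  set u := D.uu b' t
  set L := D.fam.Sl al t
  set N := ‖D.n t‖ ^ 2
  set G := ‖D.B t‖ ^ 2
  set Q := D.QQ al t
  have hN : 0 < N := by linarith
  have hG : 0 < G := by linarith
  have h1 : N / G * (L + D.fam.nu t) ^ 2 ≤ Q⁻¹ := by
    rw [hi]
    have : 0 < 1 / N := by positivity
    linarith
  have h2 : (1 - 11 * u) ≤ N / G := by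
    rw [le_div_iff₀ hG]
    nlinarith
  have h3 : L ^ 2 * (1 - 12 * u) ≤ (L + D.fam.nu t) ^ 2 := by
    have : L * (1 - 6 * u) ≤ L + D.fam.nu t := by nlinarith
    have h0 : 0 ≤ L * (1 - 6 * u) := by
      have : 0 ≤ 1 - 6 * u := by linarith
      positivity
    have h4 := pow_le_pow_left₀ h0 this 2
    have h5 : 0 ≤ L ^ 2 := sq_nonneg L
    nlinarith
  have h4 : L ^ 2 * (1 - 24 * u) ≤ Q⁻¹ := by
    refine le_trans ?_ h1
    have h5 : 0 ≤ L ^ 2 * (1 - 12 * u) := by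
      have : 0 ≤ 1 - 12 * u := by linarith
      positivity
    have h6 : (1 - 11 * u) * (L ^ 2 * (1 - 12 * u)) ≤ N / G * (L + D.fam.nu t) ^ 2 :=
      mul_le_mul h2 h3 h5 (by positivity)
    refine le_trans ?_ h6
    nlinarith [sq_nonneg L, mul_nonneg (sq_nonneg L) hu0]
  have h5 : Q * (L ^ 2 * (1 - 24 * u)) ≤ 1 := by
    have := mul_le_mul_of_nonneg_left h4 hQ.le
    rwa [mul_inv_cancel₀ hQ.ne'] at this
  have h6 : 0 ≤ Q * L ^ 2 := by positivity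
  have h7 : 0 < 1 - 24 * u := by linarith
  have h8 : Q * L ^ 2 ≤ 1 / (1 - 24 * u) := by
    rw [le_div_iff₀ h7]
    linarith
  refine h8.trans ?_
  rw [div_le_iff₀ h7]
  nlinarith

/-- `|D|² lam² / |K|² ≥ 1 - 26 u - (1 + 6 u) / lam²`. -/
theorem Flo.QQ_lo (h : D.Flo b') {al t : ℝ} (ht : D.Nr b' t) (hl : 1 ≤ D.fam.Sl al t) :
    1 - 26 * D.uu b' t - (1 + 6 * D.uu b' t) / D.fam.Sl al t ^ 2 ≤
      D.QQ al t * D.fam.Sl al t ^ 2 := by
  have hu := h.uu_le ht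
  have hu0 := h.uu_nonneg t
  have hB := abs_le.1 (h.Bsq ht)
  have hn := abs_le.1 (h.nsq ht)
  have hnu := abs_le.1 (h.nu_le ht)
  have hQ := h.QQ_pos al t
  have hi := h.QQ_inv al t
  set u := D.uu b' t
  set L := D.fam.Sl al t
  set N := ‖D.n t‖ ^ 2
  set G := ‖D.B t‖ ^ 2
  set Q := D.QQ al t
  have hN : 0 < N := by linarith
  have hG : 0 < G := by linarith
  have hL : 0 < L := by linarith
  have h1 : 1 / N ≤ 1 + 6 * u := by
    rw [div_le_iff₀ hN]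
    nlinarith
  have h2 : N / G ≤ 1 + 11 * u := by
    rw [div_le_iff₀ hG]
    nlinarith
  have h3 : (L + D.fam.nu t) ^ 2 ≤ L ^ 2 * (1 + 13 * u) := by
    have : L + D.fam.nu t ≤ L * (1 + 6 * u) := by nlinarith
    have h0 : 0 ≤ L + D.fam.nu t := by nlinarith
    have h4 := pow_le_pow_left₀ h0 this 2
    have h5 : 0 ≤ L ^ 2 := sq_nonneg L
    nlinarith [mul_nonneg h5 hu0]
  have h4 : Q⁻¹ ≤ (1 + 6 * u) + L ^ 2 * (1 + 25 * u) := by
    rw [hi]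
    have h6 : N / G * (L + D.fam.nu t) ^ 2 ≤ (1 + 11 * u) * (L ^ 2 * (1 + 13 * u)) :=
      mul_le_mul h2 h3 (sq_nonneg _) (by positivity)
    have h7 : (1 + 11 * u) * (L ^ 2 * (1 + 13 * u)) ≤ L ^ 2 * (1 + 25 * u) := by
      nlinarith [sq_nonneg L, mul_nonneg (sq_nonneg L) hu0]
    linarith
  have h5 : 1 ≤ Q * ((1 + 6 * u) + L ^ 2 * (1 + 25 * u)) := by
    have := mul_le_mul_of_nonneg_left h4 hQ.le
    rwa [mul_inv_cancel₀ hQ.ne'] at this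
  set W : ℝ := 25 * u + (1 + 6 * u) / L ^ 2 with hW
  have hW0 : 0 ≤ W := by positivity
  have h6 : Q * ((1 + 6 * u) + L ^ 2 * (1 + 25 * u)) = Q * L ^ 2 * (1 + W) := by
    rw [hW]
    field_simp
    ring
  rw [h6] at h5
  have h7 : 1 / (1 + W) ≤ Q * L ^ 2 := by
    rw [div_le_iff₀ (by linarith)]
    exact h5
  refine le_trans ?_ h7
  have h8 : 1 - W ≤ 1 / (1 + W) := by
    rw [le_div_iff₀ (by linarith)]
    nlinarith
  refine le_trans ?_ h8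
  rw [hW]
  linarith

/-- the coefficient with a covector `m` close to `m0`, `|m0| = 1` -/
theorem Flo.coef_near (h : D.Flo b') {t : ℝ} (ht : D.Nr b' t) {m m0 : E3} {X0 : ℝ}
    (hm0 : ‖m0‖ = 1) (hm : ‖m - m0‖ ≤ 2 * D.uu b' t)
    (hX0 : ⟪D.A D.t0 D.e1, cx D.e1 m0⟫ = X0) (hX0b : |X0| ≤ b') :
    |⟪D.A t (D.B t), cx (D.B t) m⟫ / ‖D.B t‖ ^ 4 - X0| ≤ 17 * b' * D.uu b' t := by
  have hu := h.uu_le ht
  have hu0 := h.uu_nonneg t
  have hb := h.b_ge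
  have hb0 := h.b0
  have hBup := h.B_up ht
  have hBn := h.B_near ht
  set u := D.uu b' t
  have hmn : ‖m‖ ≤ 1 + 2 * u := by
    have h1 := norm_add_le (m - m0) m0
    rw [sub_add_cancel, hm0] at h1
    linarith
  have h1 : ‖D.A t (D.B t) - D.A D.t0 D.e1‖ ≤ 2.11 * b' * u := by
    have e1 : D.A t (D.B t) - D.A D.t0 D.e1 =
        (D.A t - D.A D.t0) (D.B t) + D.A D.t0 (D.B t - D.e1) := by
      rw [sub_apply, map_sub]
      abel
    rw [e1]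
    have e2 : ‖(D.A t - D.A D.t0) (D.B t)‖ ≤ u * (1 + 2 * u) :=
      ((D.A t - D.A D.t0).le_opNorm _).trans (mul_le_mul (h.A_near t) hBup (norm_nonneg _) hu0)
    have e3 : ‖D.A D.t0 (D.B t - D.e1)‖ ≤ b' * (2 * u) :=
      (h.A_b _ _).trans (mul_le_mul_of_nonneg_left hBn hb0.le)
    refine (norm_add_le _ _).trans ?_
    nlinarith
  have h2 : ‖cx (D.B t) m‖ ≤ 1.01 := by
    refine (norm_cx_le _ _).trans ?_
    have : ‖D.B t‖ * ‖m‖ ≤ (1 + 2 * u) * (1 + 2 * u) :=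
      mul_le_mul hBup hmn (norm_nonneg _) (by linarith)
    nlinarith
  have h3 : ‖cx (D.B t) m - cx D.e1 m0‖ ≤ 4.1 * u := by
    have e1 : cx (D.B t) m - cx D.e1 m0 = cx (D.B t - D.e1) m + cx D.e1 (m - m0) := by
      rw [cx_sub_right, sub_eq_add_neg (D.B t) D.e1, cx_add_left, cx_neg_left]
      abel
    rw [e1]
    refine (norm_add_le _ _).trans ?_
    have e2 : ‖cx (D.B t - D.e1) m‖ ≤ 2 * u * (1 + 2 * u) :=
      (norm_cx_le _ _).trans (mul_le_mul hBn hmn (norm_nonneg _) (by linarith))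
    have e3 : ‖cx D.e1 (m - m0)‖ ≤ 2 * u := by
      refine (norm_cx_le _ _).trans ?_
      rw [h.e1_norm, one_mul]
      exact hm
    nlinarith
  have h4 : |⟪D.A t (D.B t), cx (D.B t) m⟫ - X0| ≤ 6.3 * b' * u := by
    have e1 : ⟪D.A t (D.B t), cx (D.B t) m⟫ - X0 =
        ⟪D.A t (D.B t) - D.A D.t0 D.e1, cx (D.B t) m⟫
          + ⟪D.A D.t0 D.e1, cx (D.B t) m - cx D.e1 m0⟫ := by
      rw [← hX0, inner_sub_left, inner_sub_right]
      ring
    rw [e1]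
    refine (abs_add_le _ _).trans ?_
    have e2 : |⟪D.A t (D.B t) - D.A D.t0 D.e1, cx (D.B t) m⟫| ≤ 2.11 * b' * u * 1.01 :=
      (abs_real_inner_le_norm _ _).trans (mul_le_mul h1 h2 (norm_nonneg _) (by positivity))
    have e3 : |⟪D.A D.t0 D.e1, cx (D.B t) m - cx D.e1 m0⟫| ≤ b' * (4.1 * u) := by
      refine (abs_real_inner_le_norm _ _).trans ?_
      have e4 := h.A_b D.t0 D.e1
      rw [h.e1_norm, mul_one] at e4
      exact mul_le_mul e4 h3 (norm_nonneg _) hb0.le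
    nlinarith
  have hB := abs_le.1 (h.Bsq ht)
  have hB4 : |‖D.B t‖ ^ 4 - 1| ≤ 10.01 * u := by
    have e1 : ‖D.B t‖ ^ 4 = (‖D.B t‖ ^ 2) ^ 2 := by ring
    rw [e1, abs_le]
    set G := ‖D.B t‖ ^ 2
    constructor <;> nlinarith
  have hB4' := abs_le.1 hB4
  have hB4p : 0 < ‖D.B t‖ ^ 4 := by linarith
  set Y := ⟪D.A t (D.B t), cx (D.B t) m⟫
  have hBne : ‖D.B t‖ ≠ 0 := norm_ne_zero_iff.2 (h.B_all t)
  have h5 : Y / ‖D.B t‖ ^ 4 - X0 = ((Y - X0) - X0 * (‖D.B t‖ ^ 4 - 1)) / ‖D.B t‖ ^ 4 := by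
    field_simp
    ring
  rw [h5, abs_div, abs_of_pos hB4p, div_le_iff₀ hB4p]
  have h6 : |(Y - X0) - X0 * (‖D.B t‖ ^ 4 - 1)| ≤ 6.3 * b' * u + b' * (10.01 * u) := by
    refine (abs_sub _ _).trans ?_
    rw [abs_mul]
    have := mul_le_mul hX0b hB4 (abs_nonneg _) hb0.le
    linarith
  refine h6.trans ?_
  have hbu : 0 ≤ b' * u := by positivity
  nlinarith

theorem fam_b (t : ℝ) : D.fam.b t = -(⟪D.A t (D.B t), cx (D.B t) (D.n t)⟫ / ‖D.B t‖ ^ 4) := by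
  unfold FamD.b
  rw [Flo.famD]
  show -⟪D.A t (-D.B t), cx (-D.B t) (D.n t)⟫ / ‖-D.B t‖ ^ 4 = _
  rw [map_neg, cx_neg_left, inner_neg_neg, norm_neg, neg_div]

theorem fam_b0 (t : ℝ) : D.fam.b0 t = -(⟪D.A t (D.B t), cx (D.B t) (D.xi t)⟫ / ‖D.B t‖ ^ 4) := by
  unfold FamD.b0
  rw [Flo.famD]
  show -⟪D.A t (-D.B t), cx (-D.B t) (D.xi t)⟫ / ‖-D.B t‖ ^ 4 = _
  rw [map_neg, cx_neg_left, inner_neg_neg, norm_neg, neg_div]

theorem Flo.ck_le (h : D.Flo b') : |D.c * D.kap| ≤ b' := by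
  have h1 := h.c_pos
  have h2 := h.kap_pos
  have h3 := h.c_le
  have h4 := h.kap_le
  have h5 := h.b_ge
  rw [abs_of_pos (by positivity)]
  nlinarith

theorem Flo.b_near (h : D.Flo b') {t : ℝ} (ht : D.Nr b' t) :
    |D.fam.b t + D.c * D.kap| ≤ 17 * b' * D.uu b' t := by
  have h1 := h.coef_near ht (m := D.n t) (m0 := D.e2) (X0 := D.c * D.kap) h.e2_norm
    (h.n_near ht) (by
      rw [real_inner_comm, ← h.ctau]
      rfl) h.ck_le
  rw [fam_b, ← abs_neg]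
  convert h1 using 2
  ring

theorem Flo.b0_near (h : D.Flo b') {t : ℝ} (ht : D.Nr b' t) :
    |D.fam.b0 t - D.kap| ≤ 17 * b' * D.uu b' t := by
  have h1 := h.coef_near ht (m := D.xi t) (m0 := D.e3) (X0 := -D.kap) h.e3_norm
    (h.xi_near ht) (by
      rw [h.cx13, inner_neg_right, real_inner_comm]
      rfl) (by
      rw [abs_neg, abs_of_pos h.kap_pos]
      have := h.kap_le
      have := h.b_ge
      linarith)
  rw [fam_b0, ← abs_neg]
  convert h1 using 2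
  ring

/-- N2 for `be`. -/
theorem Flo.be_near (h : D.Flo b') {al t : ℝ} (ht : D.Nr b' t) (hl : 0 ≤ D.fam.Sl al t) :
    |D.be al t - D.kap * (1 - D.c * D.fam.Sl al t)| ≤
      17 * b' * D.uu b' t * (1 + D.fam.Sl al t) := by
  have h1 := h.b_near ht
  have h2 := h.b0_near ht
  unfold be
  have h3 : D.fam.b0 t + D.fam.b t * D.fam.Sl al t - D.kap * (1 - D.c * D.fam.Sl al t) =
      (D.fam.b0 t - D.kap) + (D.fam.b t + D.c * D.kap) * D.fam.Sl al t := by ring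
  rw [h3]
  refine (abs_add_le _ _).trans ?_
  rw [abs_mul, abs_of_nonneg hl]
  have := mul_le_mul_of_nonneg_right h1 hl
  linarith

/-! ### Consequences of `Kin` -/

theorem Kin.b_ge' (h : D.Kin) : 10 ≤ D.b := h.toFlo.b_ge

theorem Kin.pow_le (h : D.Kin) {k : ℕ} (hk : k ≤ 200) : D.b ^ k ≤ D.h :=
  (pow_le_pow_right₀ (by linarith [h.b_ge']) hk).trans h.h_ge

theorem Kin.ten_le (h : D.Kin) {k m : ℕ} (hk : k + m ≤ 200) : 10 ^ m * D.b ^ k ≤ D.h := by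
  have h1 : (10 : ℝ) ^ m ≤ D.b ^ m := pow_le_pow_left₀ (by norm_num) h.b_ge' m
  have h2 : 0 ≤ D.b ^ k := pow_nonneg (by linarith [h.b_ge']) k
  calc 10 ^ m * D.b ^ k ≤ D.b ^ m * D.b ^ k := mul_le_mul_of_nonneg_right h1 h2
    _ = D.b ^ (k + m) := by rw [← pow_add, add_comm]
    _ ≤ D.h := h.pow_le hk

theorem Kin.h_big (h : D.Kin) : (10 : ℝ) ^ 100 ≤ D.h := by
  have := h.ten_le (k := 0) (m := 100) (by norm_num)
  simpa using this

theorem Kin.h1 (h : D.Kin) : 1 ≤ D.h := by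
  have := h.h_big
  have h2 : (1 : ℝ) ≤ 10 ^ 100 := by norm_num
  linarith

theorem Kin.s0_eq (h : D.Kin) : D.s0 = D.t0 - D.w := by
  unfold s0
  exact max_eq_right (by linarith [h.far.w_le])

theorem Kin.w_pos (h : D.Kin) : 0 < D.w := by
  unfold w
  have := h.toFlo.h_pos
  positivity

theorem Kin.k2_pos (h : D.Kin) : 0 < D.k2 := by linarith [h.k2_ge]

theorem Kin.k0_pos (h : D.Kin) : 0 < D.k0 := by linarith [h.k0_ge]

theorem Kin.th_pos (h : D.Kin) : 0 < D.th := by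
  unfold th
  have := h.toFlo.ack_pos
  have := h.k2_pos
  positivity

theorem Kin.th_sq (h : D.Kin) : D.a * D.c * D.kap * D.th ^ 2 = D.k2 := by
  unfold th
  have h1 := h.toFlo.ack_pos
  have h2 := h.k2_pos
  rw [Real.sq_sqrt (by positivity)]
  exact mul_div_cancel₀ D.k2 h1.ne'

theorem Kin.th_le (h : D.Kin) : D.th ≤ (D.h ^ 11)⁻¹ := by
  have h1 := h.toFlo.a_le_ack
  have h2 := h.th_sq
  have h3 := h.k2_le
  have hh := h.toFlo.h_pos
  have hb : 0 < D.b := by linarith [h.b_ge']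
  have hth := h.th_pos
  have ha := h.toFlo.a_pos
  have h4 : D.th ^ 2 ≤ ((D.h ^ 11)⁻¹) ^ 2 := by
    have e1 : D.a * D.th ^ 2 ≤ 2 * D.b * D.h := by
      calc D.a * D.th ^ 2 ≤ 2 * D.b * (D.a * D.c * D.kap) * D.th ^ 2 := by gcongr
        _ = 2 * D.b * (D.a * D.c * D.kap * D.th ^ 2) := by ring
        _ = 2 * D.b * D.k2 := by rw [h2]
        _ ≤ 2 * D.b * D.h := by gcongr
    have e2 : 2 * D.b ≤ D.h := by
      have := h.ten_le (k := 1) (m := 1) (by norm_num)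
      nlinarith
    have e3 : D.a * D.th ^ 2 ≤ D.h ^ 2 := by nlinarith
    unfold a at e3
    have e4 : D.h ^ 24 = D.h ^ 22 * D.h ^ 2 := by ring
    rw [e4] at e3
    have e5 : D.h ^ 22 * D.th ^ 2 ≤ 1 := by
      have e6 : 0 < D.h ^ 2 := by positivity
      by_contra hcon
      push Not at hcon
      have : D.h ^ 2 * 1 < D.h ^ 2 * (D.h ^ 22 * D.th ^ 2) := mul_lt_mul_of_pos_left hcon e6
      nlinarith
    have e6 : ((D.h ^ 11)⁻¹) ^ 2 = (D.h ^ 22)⁻¹ := by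
      rw [inv_pow, ← pow_mul]
    rw [e6, ← one_div, le_div_iff₀ (by positivity)]
    linarith
  exact (pow_le_pow_iff_left₀ hth.le (by positivity) (by norm_num)).1 h4

theorem Kin.th_w (h : D.Kin) : 1001 / 1000 * D.th ≤ D.w := by
  have h1 := h.th_le
  have hh := h.h1
  have hp := h.toFlo.h_pos
  have hbig := h.h_big
  have h2 : (D.h ^ 11)⁻¹ ≤ D.w / 10 := by
    unfold w
    rw [le_div_iff₀ (by norm_num), inv_mul_le_iff₀ (by positivity), ← div_eq_mul_inv,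
      le_div_iff₀ (by positivity)]
    have : D.h ^ 11 = D.h ^ 7 * D.h ^ 4 := by ring
    rw [this]
    have h3 : 10 ≤ D.h ^ 4 := by
      have : D.h ^ 1 ≤ D.h ^ 4 := pow_le_pow_right₀ hh (by norm_num)
      have h10 : (10 : ℝ) ≤ 10 ^ 100 := by norm_num
      simp only [pow_one] at this
      linarith
    have h4 : 0 < D.h ^ 7 := by positivity
    nlinarith
  have := h.w_pos
  linarith

theorem Kin.Iw_x (h : D.Kin) {t : ℝ} (ht : t ∈ D.Iw) : |t - D.t0| ≤ D.w := by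
  obtain ⟨h1, h2⟩ := ht
  rw [h.s0_eq] at h1
  have h3 := h.T_eq
  have h4 := h.th_w
  rw [abs_le]
  constructor <;> linarith

theorem Kin.s0_nonneg : 0 ≤ D.s0 := le_max_left _ _

theorem Kin.Iw_sub (_h : D.Kin) {t : ℝ} (ht : t ∈ D.Iw) : t ∈ Icc 0 D.T :=
  ⟨Kin.s0_nonneg.trans ht.1, ht.2⟩

theorem Kin.t0_Iw (h : D.Kin) : D.t0 ∈ D.Iw := by
  refine ⟨?_, h.toFlo.t0_lt.le⟩
  rw [h.s0_eq]
  linarith [h.w_pos]

theorem Kin.nr (h : D.Kin) {t : ℝ} (ht : t ∈ D.Iw) : D.Nr D.b t := by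
  unfold Nr
  have hx := h.Iw_x ht
  have hb : 0 < D.b := by linarith [h.b_ge']
  have hh := h.h1
  have hp := h.toFlo.h_pos
  have h1 : 240 * D.b ^ 5 ≤ D.h := by
    have := h.ten_le (k := 5) (m := 3) (by norm_num)
    have h0 : 0 ≤ D.b ^ 5 := by positivity
    nlinarith
  have h2 : 240 * D.b ^ 5 * |t - D.t0| ≤ D.h * D.w := by gcongr
  refine h2.trans ?_
  unfold w
  rw [← div_eq_mul_inv, div_le_one (by positivity)]
  exact le_self_pow₀ hh (by norm_num)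

/-- `60 b³ |t - t0| ≤ 60 b³ h⁻⁷` -/
theorem Kin.er1_w (h : D.Kin) {t : ℝ} (ht : t ∈ D.Iw) : D.er1 D.b t ≤ 60 * D.b ^ 3 * D.w := by
  unfold er1
  have hb : 0 < D.b := by linarith [h.b_ge']
  have := h.Iw_x ht
  gcongr

theorem Kin.uu_w (h : D.Kin) {t : ℝ} (ht : t ∈ D.Iw) : D.uu D.b t ≤ D.b * D.w := by
  unfold uu
  have hb : 0 < D.b := by linarith [h.b_ge']
  have := h.Iw_x ht
  gcongr

theorem Kin.w_ro (h : D.Kin) {k m : ℕ} (hk : k + m ≤ 200) : 10 ^ m * D.b ^ k * D.w ≤ D.ro := by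
  have h1 := h.ten_le hk
  have hp := h.toFlo.h_pos
  unfold w ro
  have h2 : 10 ^ m * D.b ^ k * (D.h ^ 7)⁻¹ ≤ D.h * (D.h ^ 7)⁻¹ := by gcongr
  refine h2.trans (le_of_eq ?_)
  field_simp

theorem Kin.Lam_ge (h : D.Kin) (t : ℝ) : D.k0 ≤ D.Lam t := by
  unfold Lam
  have := h.toFlo.ack_pos
  have : 0 ≤ D.a * D.c * D.kap * (t - D.t0) ^ 2 := by positivity
  linarith

theorem Kin.Lam_pos (h : D.Kin) (t : ℝ) : 0 < D.Lam t := h.k0_pos.trans_le (h.Lam_ge t)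

theorem Kin.ackx_le (h : D.Kin) (t : ℝ) : D.a * D.c * D.kap * (t - D.t0) ^ 2 ≤ D.Lam t := by
  unfold Lam
  linarith [h.k0_pos]

/-- `lam1 = Lam (1 + O(er1))` -/
theorem Kin.lam1_Lam (h : D.Kin) {t : ℝ} (ht : t ∈ D.Iw) :
    |D.lam1 t - D.Lam t| ≤ D.er1 D.b t * D.Lam t := by
  refine (h.toFlo.lam1_rel (h.Iw_sub ht) (h.nr ht)).trans ?_
  exact mul_le_mul_of_nonneg_left (h.ackx_le t) (h.toFlo.er1_nonneg t)

theorem Kin.lam1_lo (h : D.Kin) {t : ℝ} (ht : t ∈ D.Iw) : 0.99 * D.Lam t ≤ D.lam1 t := by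
  have h1 := abs_le.1 (h.lam1_Lam ht)
  have h2 := h.toFlo.er1_le (h.nr ht)
  have h3 := h.Lam_pos t
  nlinarith

theorem Kin.lam1_up (h : D.Kin) {t : ℝ} (ht : t ∈ D.Iw) : D.lam1 t ≤ 1.01 * D.Lam t := by
  have h1 := abs_le.1 (h.lam1_Lam ht)
  have h2 := h.toFlo.er1_le (h.nr ht)
  have h3 := h.Lam_pos t
  nlinarith

theorem Kin.lam1_k0 (h : D.Kin) {t : ℝ} (ht : t ∈ D.Iw) : 0.99 * D.k0 ≤ D.lam1 t := by
  have h1 := h.lam1_lo ht
  have h2 := h.Lam_ge t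
  linarith

theorem Kin.lam1_pos (h : D.Kin) {t : ℝ} (ht : t ∈ D.Iw) : 0 < D.lam1 t := by
  have h1 := h.lam1_k0 ht
  have h2 := h.k0_pos
  linarith

theorem Kin.g_nonneg (h : D.Kin) {t : ℝ} (ht : t ∈ D.Iw) : 0 ≤ D.g t := by
  have h1 := abs_le.1 (h.toFlo.g_rel (h.Iw_sub ht) (h.nr ht))
  have h2 := h.toFlo.er1_le (h.nr ht)
  have h3 := h.toFlo.ack_pos
  have h4 : 0 ≤ D.a * D.c * D.kap * (t - D.t0) ^ 2 := by positivity
  nlinarith

/-- `s g ≤ a / 10` in the window -/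
theorem Kin.sg_le (h : D.Kin) {t : ℝ} (ht : t ∈ D.Iw) : D.s * D.g t ≤ D.a / 10 := by
  have h1 := abs_le.1 (h.toFlo.g_rel (h.Iw_sub ht) (h.nr ht))
  have h2 := h.toFlo.er1_le (h.nr ht)
  have h3 := h.toFlo.ack_pos
  have hb : 0 < D.b := by linarith [h.b_ge']
  have ha := h.toFlo.a_pos
  have hc := h.toFlo.c_le
  have hc0 := h.toFlo.c_pos
  have hk := h.toFlo.kap_le
  have hk0 := h.toFlo.kap_pos
  have h4 : 0 ≤ D.a * D.c * D.kap * (t - D.t0) ^ 2 := by positivity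
  have h5 : D.g t ≤ 1.01 * (D.a * D.c * D.kap * (t - D.t0) ^ 2) := by nlinarith
  have hx := h.Iw_x ht
  have h6 : (t - D.t0) ^ 2 ≤ D.w ^ 2 := by
    rw [← sq_abs]
    exact pow_le_pow_left₀ (abs_nonneg _) hx 2
  have h7 : D.a * D.c * D.kap * (t - D.t0) ^ 2 ≤ D.a * 1 * 2 * D.w ^ 2 := by gcongr
  have hs := h.toFlo.s_le
  have hs0 := h.toFlo.s_pos
  have h8 : D.s * D.g t ≤ D.b * (1.01 * (D.a * 1 * 2 * D.w ^ 2)) := by
    have e1 : D.g t ≤ 1.01 * (D.a * 1 * 2 * D.w ^ 2) := h5.trans (by linarith)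
    calc D.s * D.g t ≤ D.s * (1.01 * (D.a * 1 * 2 * D.w ^ 2)) := by gcongr
      _ ≤ _ := by gcongr
  refine h8.trans ?_
  have hw : D.b * D.w ^ 2 ≤ 1 / 100 := by
    have e1 := h.w_ro (k := 1) (m := 2) (by norm_num)
    have e2 : D.ro ≤ 1 := by
      unfold ro
      exact inv_le_one_of_one_le₀ (one_le_pow₀ h.h1)
    have e3 := h.w_pos
    have e4 : D.w ≤ 1 := by
      unfold w
      exact inv_le_one_of_one_le₀ (one_le_pow₀ h.h1)
    have e5 : 100 * (D.b * D.w) ≤ 1 := by linarith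
    nlinarith [mul_pos hb e3]
  nlinarith

theorem Kin.a_big (h : D.Kin) : (10 : ℝ) ^ 100 ≤ D.a := by
  have h1 := h.h_big
  have h2 : D.h ^ 1 ≤ D.h ^ 24 := pow_le_pow_right₀ h.h1 (by norm_num)
  unfold a
  simp only [pow_one] at h2
  linarith

theorem Kin.f_ge (h : D.Kin) {t : ℝ} (ht : t ∈ D.Iw) : D.f 0 ≤ D.f t := by
  have h1 := h.sg_le ht
  have h2 := abs_le.1 h.far.f0
  have h3 := h.a_big
  have h4 : D.s * D.g t = D.a - D.f t := by
    unfold g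
    have := h.toFlo.s_pos.ne'
    field_simp
  have h5 : (10 : ℝ) ^ 2 ≤ 10 ^ 100 := by norm_num
  linarith

/-- `lam^al ≥ lam^1` in the window -/
theorem Kin.Sl_ge (h : D.Kin) {al t : ℝ} (hal : al ≤ 1) (ht : t ∈ D.Iw) :
    D.lam1 t ≤ D.fam.Sl al t := by
  rw [Sl_sub]
  have h1 := h.f_ge ht
  have h2 := h.toFlo.s_pos
  have h3 : 0 ≤ (1 - al) * ((D.f t - D.f 0) / D.s) :=
    mul_nonneg (by linarith) (div_nonneg (by linarith) h2.le)
  linarith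

theorem Kin.Sl_pos (h : D.Kin) {al t : ℝ} (hal : al ≤ 1) (ht : t ∈ D.Iw) :
    0 < D.fam.Sl al t := (h.lam1_pos ht).trans_le (h.Sl_ge hal ht)

theorem Kin.Sl_big (h : D.Kin) {al t : ℝ} (hal : al ≤ 1) (ht : t ∈ D.Iw) :
    9900 ≤ D.fam.Sl al t := by
  have h1 := h.Sl_ge hal ht
  have h2 := h.lam1_k0 ht
  have h3 := h.k0_ge
  linarith

theorem Kin.Sl_up (h : D.Kin) {al t : ℝ} (hal : al ∈ Icc (-1 : ℝ) 1) (ht : t ∈ D.Iw) :
    D.fam.Sl al t ≤ 5 * D.a * D.b := by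
  rw [Flo.lam_eq' D]
  have hs0 := h.toFlo.s_pos
  have hb : 0 < D.b := by linarith [h.b_ge']
  have hb' := h.b_ge'
  have ha := h.toFlo.a_pos
  have hA := h.a_big
  have h1 := abs_le.1 h.far.f0
  have h2 : D.g 0 ≤ D.b * (D.a + 1) := by
    unfold g
    rw [div_le_iff₀ hs0]
    have e1 : 1 ≤ D.b * D.s := by
      have := h.toFlo.s_ge
      rw [div_le_iff₀ hb] at this
      linarith
    have e2 : 0 ≤ D.a + 1 := by linarith
    nlinarith
  have h2' : 0 ≤ D.g 0 := by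
    unfold g
    apply div_nonneg _ hs0.le
    have : (1 : ℝ) ≤ 10 ^ 100 := by norm_num
    linarith
  have h3 := h.g_nonneg ht
  have h4 : D.g t ≤ D.b * D.a := by
    have e1 := h.sg_le ht
    have e2 : 1 ≤ D.b * D.s := by
      have := h.toFlo.s_ge
      rw [div_le_iff₀ hb] at this
      linarith
    have e3 : D.g t ≤ D.b * (D.s * D.g t) := by nlinarith
    nlinarith
  have h5 := h.k0_le
  have h6 : (1 - al) * D.g 0 ≤ 2 * (D.b * (D.a + 1)) := by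
    have : (1 - al) * D.g 0 ≤ 2 * D.g 0 := by
      have := hal.1
      nlinarith
    linarith
  have h7 : al * D.g t ≤ D.b * D.a := by
    have := hal.2
    nlinarith
  have h8 : (10 : ℝ) ≤ 10 ^ 100 := by norm_num
  nlinarith

theorem Kin.f0_term (h : D.Kin) {al : ℝ} (hal : al ∈ Icc (-1 : ℝ) 1) : |(1 - al) * D.f 0| ≤ 2 := by
  rw [abs_mul, abs_of_nonneg (by linarith [hal.2])]
  have := h.far.f0
  have h2 : 1 - al ≤ 2 := by linarith [hal.1]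
  nlinarith [abs_nonneg (D.f 0), hal.2]

/-- `ze` -/
theorem Kin.Om_near (h : D.Kin) {al : ℝ} (hal : al ∈ Icc (-1 : ℝ) 1) {t : ℝ} (ht : t ∈ Icc 0 D.T) :
    |D.fam.Om al t - D.a| ≤ 2 * D.b ^ 2 := by
  rw [h.toFlo.Om_const al ht]
  have h1 := h.f0_term hal
  have h2 := h.toFlo.curl_le
  have hb := h.b_ge'
  have h3 : |D.s * D.k0| ≤ D.b ^ 2 := by
    have := h.toFlo.s_pos
    have := h.k0_pos
    rw [abs_of_pos (by positivity), sq]
    exact mul_le_mul h.toFlo.s_le h.k0_le (by positivity) (by linarith)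
  have h4 : D.a - (1 - al) * D.f 0 + D.s * D.k0 - ⟪D.Om, D.K0⟫ - D.a =
    -((1 - al) * D.f 0) + D.s * D.k0 + -⟪D.Om, D.K0⟫ := by ring
  rw [h4]
  refine (abs_add_three _ _ _).trans ?_
  rw [abs_neg, abs_neg]
  nlinarith

/-- relative error of `ze` -/
theorem Kin.b2a (h : D.Kin) : 2 * D.b ^ 2 ≤ (D.h ^ 20)⁻¹ * D.a := by
  unfold a
  have hp := h.toFlo.h_pos
  have h1 : (D.h ^ 20)⁻¹ * D.h ^ 24 = D.h ^ 4 := by
    field_simp
  rw [h1]
  have h2 := h.ten_le (k := 2) (m := 1) (by norm_num)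
  have h3 : D.h ≤ D.h ^ 4 := le_self_pow₀ h.h1 (by norm_num)
  have h4 : 0 ≤ D.b ^ 2 := sq_nonneg _
  linarith

theorem Kin.Om_le (h : D.Kin) {al : ℝ} (hal : al ∈ Icc (-1 : ℝ) 1) {t : ℝ} (ht : t ∈ Icc 0 D.T) :
    |D.fam.Om al t| ≤ D.a * (1 + (D.h ^ 20)⁻¹) := by
  have h1 := h.Om_near hal ht
  have h2 := h.b2a
  have h3 := h.toFlo.a_pos
  have h4 : |D.fam.Om al t| ≤ |D.fam.Om al t - D.a| + |D.a| := by
    have := abs_add_le (D.fam.Om al t - D.a) D.a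
    rwa [sub_add_cancel] at this
  rw [abs_of_pos h3] at h4
  nlinarith

theorem Kin.Om_pos (h : D.Kin) {al : ℝ} (hal : al ∈ Icc (-1 : ℝ) 1) {t : ℝ} (ht : t ∈ Icc 0 D.T) :
    0 < D.fam.Om al t := by
  have h1 := abs_le.1 (h.Om_near hal ht)
  have h2 := h.b2a
  have h3 := h.toFlo.a_pos
  have h5 : (D.h ^ 20)⁻¹ ≤ 1 / 2 := by
    rw [inv_le_comm₀ (pow_pos h.toFlo.h_pos 20) (by norm_num)]
    have e1 : D.h ≤ D.h ^ 20 := le_self_pow₀ h.h1 (by norm_num)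
    have e2 := h.h_big
    have e3 : (2 : ℝ) ≤ 10 ^ 100 := by norm_num
    norm_num
    linarith
  nlinarith

theorem Kin.h20_w (h : D.Kin) : (D.h ^ 20)⁻¹ ≤ D.w := by
  unfold w
  have := h.toFlo.h_pos
  gcongr
  · exact h.h1
  · norm_num

/-- N2 for the first coefficient, `al = 1`. -/
theorem Kin.er_le (h : D.Kin) {t : ℝ} (ht : t ∈ D.Iw) :
    |D.er 1 t| ≤ 2 / D.lam1 t ^ 2 + 40 * D.b * D.w := by
  have hal : (1 : ℝ) ∈ Icc (-1 : ℝ) 1 := by norm_num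
  have hu := h.toFlo.uu_le (h.nr ht)
  have hu0 := h.toFlo.uu_nonneg t
  have huw := h.uu_w ht
  have hl := h.Sl_big (al := 1) le_rfl ht
  have h1 := h.toFlo.QQ_up (al := 1) (h.nr ht) (by linarith)
  have h2 := h.toFlo.QQ_lo (al := 1) (h.nr ht) (by linarith)
  have h3 := abs_le.1 (h.Om_near hal (h.Iw_sub ht))
  have h4 := h.b2a
  have h5 := h.h20_w
  have ha := h.toFlo.a_pos
  have hw := h.w_pos
  have hb := h.b_ge'
  have hQ := h.toFlo.QQ_pos 1 t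
  rw [Sl_one] at h1 h2 hl
  set L := D.lam1 t
  set u := D.uu D.b t
  set q := D.QQ 1 t * L ^ 2
  have hq0 : 0 ≤ q := by positivity
  have hw1 : D.w ≤ 1 / 1000 := by
    have e1 := h.w_ro (k := 0) (m := 3) (by norm_num)
    have e2 : D.ro ≤ 1 := by
      unfold ro
      exact inv_le_one_of_one_le₀ (one_le_pow₀ h.h1)
    simp only [pow_zero, mul_one] at e1
    linarith
  -- `Om / a = 1 + dl`
  obtain ⟨dl, hdl, hdlb⟩ : ∃ dl, D.fam.Om 1 t = D.a * (1 + dl) ∧ |dl| ≤ D.w := by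
    refine ⟨(D.fam.Om 1 t - D.a) / D.a, by field_simp; ring, ?_⟩
    rw [abs_div, abs_of_pos ha, div_le_iff₀ ha, abs_le]
    constructor <;> nlinarith
  have her : D.er 1 t = (1 + dl) * q - 1 := by
    unfold er
    rw [Sl_one, hdl]
    show D.a * (1 + dl) * D.QQ 1 t * L ^ 2 / D.a - 1 = _
    field_simp
    ring
  have hd := abs_le.1 hdlb
  have hL2 : 0 < 1 / L ^ 2 := by positivity
  have hLs : 1 / L ^ 2 ≤ 1 / 100 := by
    rw [div_le_div_iff₀ (by positivity) (by norm_num)]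
    nlinarith
  have e2 : (1 + 6 * u) / L ^ 2 = (1 + 6 * u) * (1 / L ^ 2) := by ring
  have e3 : 2 / L ^ 2 = 2 * (1 / L ^ 2) := by ring
  rw [e2] at h2
  rw [her, e3]
  set m := 1 / L ^ 2
  have hwb : D.w ≤ D.b * D.w / 10 := by nlinarith
  rw [abs_le]
  constructor
  · have : (1 - D.w) * (1 - 26 * u - (1 + 6 * u) * m) ≤ (1 + dl) * q := by
      have e4 : 0 ≤ 1 - 26 * u - (1 + 6 * u) * m := by nlinarith
      exact mul_le_mul (by linarith) h2 e4 (by linarith)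
    nlinarith [mul_nonneg hw.le hu0, mul_nonneg hw.le hL2.le, mul_nonneg hu0 hL2.le]
  · have : (1 + dl) * q ≤ (1 + D.w) * (1 + 30 * u) :=
      mul_le_mul (by linarith) h1 hq0 (by linarith)
    nlinarith [mul_nonneg hw.le hu0]

/-- the first coefficient, all layers -/
theorem Kin.cA_le (h : D.Kin) {al : ℝ} (hal : al ∈ Icc (-1 : ℝ) 1) {t : ℝ} (ht : t ∈ D.Iw) :
    |D.fam.Om al t * (‖D.fam.D t‖ ^ 2 / ‖D.fam.K al t‖ ^ 2)| ≤
      D.a * (1 + 40 * D.b * D.w) / D.fam.Sl al t ^ 2 := by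
  have hu := h.toFlo.uu_le (h.nr ht)
  have hu0 := h.toFlo.uu_nonneg t
  have huw := h.uu_w ht
  have hl := h.Sl_big hal.2 ht
  have h1 := h.toFlo.QQ_up (al := al) (h.nr ht) (by linarith)
  have h2 := h.Om_le hal (h.Iw_sub ht)
  have h5 := h.h20_w
  have ha := h.toFlo.a_pos
  have hw := h.w_pos
  have hb := h.b_ge'
  have hQ := h.toFlo.QQ_pos al t
  have hw1 : D.w ≤ 1 / 1000 := by
    have e1 := h.w_ro (k := 0) (m := 3) (by norm_num)
    have e2 : D.ro ≤ 1 := by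
      unfold ro
      exact inv_le_one_of_one_le₀ (one_le_pow₀ h.h1)
    simp only [pow_zero, mul_one] at e1
    linarith
  have hL : 0 < D.fam.Sl al t ^ 2 := by positivity
  rw [le_div_iff₀ hL, abs_mul]
  show |D.fam.Om al t| * |D.QQ al t| * D.fam.Sl al t ^ 2 ≤ _
  rw [abs_of_pos hQ]
  calc |D.fam.Om al t| * D.QQ al t * D.fam.Sl al t ^ 2
      = |D.fam.Om al t| * (D.QQ al t * D.fam.Sl al t ^ 2) := by ring
    _ ≤ (D.a * (1 + (D.h ^ 20)⁻¹)) * (1 + 30 * D.uu D.b t) := by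
        apply mul_le_mul h2 h1 (by positivity)
        have : 0 < (D.h ^ 20)⁻¹ := by
          have := h.toFlo.h_pos
          positivity
        positivity
    _ ≤ (D.a * (1 + D.w)) * (1 + 30 * (D.b * D.w)) := by gcongr
    _ ≤ _ := by
        have hbw : 0 ≤ D.b * D.w := by positivity
        have : (1 + D.w) * (1 + 30 * (D.b * D.w)) ≤ 1 + 40 * D.b * D.w := by nlinarith
        nlinarith

end LevD

end Pool.Agent.Work.MP_b0497c_an.Unf.O
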