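import Pool.Agent.Work.MP_b0497c_an.Unf.OLab2
import Pool.Agent.Work.MP_b0497c_an.Unf.WinC
import Pool.Agent.Work.MP_b0497c_an.Unf.Core

set_option autoImplicit false

/-!
# CL3, CL4 of OK.6: `y1 > 0` and monotonicity of `f+` on `[t0, t1]`

Main result: `cl4 : StPos → CL → CL4`, with `StPos` = positivity of `Y`, `Z` of the core wave
after `t0` (O3).
-/

open Set ContinuousLinearMap RealInnerProductSpace

namespace Pool.Agent.Work.MP_b0497c_an.Unf.O

open Forced.Ode (Op ro)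
open Fam K

namespace LevD

/-- O3 of OK.5, signs after `t0`. -/
def StPos : Prop := ∀ D : LevD, D.HL → ∀ W : ℝ → E3, D.Core W → ∀ t ∈ Icc D.t0 D.T,
  0 < D.Y 1 W t ∧ 0 ≤ D.Z 1 W t

namespace Lb

variable {D : LevD} {b' : ℝ}

/-! ### The function `S` -/

theorem be_eq (al t : ℝ) : D.be al t = ⟪D.A t (D.B t), D.C al t⟫ / D.G t := by
  have h1 := FamD.coef (F := D.fam) al t
  rw [FamD.MD, fam_D] at h1
  unfold be
  rw [← h1]
  show -⟪D.A t (-D.B t), cx (-D.B t) (D.fam.K al t)⟫ / ‖-D.B t‖ ^ 4 = _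
  rw [map_neg, cx_neg_left, inner_neg_neg, norm_neg]
  unfold C G
  rw [inner_smul_right, cx_swap (D.B t) (D.fam.K al t), inner_neg_right]
  by_cases h2 : ‖D.B t‖ = 0
  · rw [h2]
    norm_num
  · field_simp

theorem fam_MB (al t : ℝ) : D.fam.M al t (D.B t) = D.A t (D.B t) := by
  rw [fam_M_apply, inner_n_B, mul_zero, zero_smul, add_zero]

theorem S2_der (h : D.Flo b') (al : ℝ) {t : ℝ} (ht : t ∈ Icc 0 D.T) :
    HasDerivAt (D.S2 al) (2 * D.be al t + D.fam.Om al t / D.G t) t := by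
  have hG := (G_pos h t).ne'
  have h1 := (B_derM h al t).inner ℝ (B2_der h al ht)
  have h2 : HasDerivAt D.G (2 * ⟪D.B t, D.fam.M al t (D.B t)⟫) t := (B_derM h al t).norm_sq
  have h3 := h1.div h2 hG
  refine h3.congr_deriv ?_
  have h4 : D.B2 al t = D.C al t + D.S2 al t • D.B t := by
    rw [C_eq h al ht]
    abel
  have h5 : cx (D.B t) (D.C al t) = D.fam.K al t := by
    rw [← B_B2 h al ht, h4, cx_add_right, cx_smul_right, cx_self, smul_zero, add_zero]
  have h6 : ⟪D.B t, D.fam.M al t (D.C al t)⟫ - ⟪D.C al t, D.fam.M al t (D.B t)⟫ =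
      D.fam.Om al t := by
    rw [skew, inner_cx_cyc, cx_swap, inner_neg_right, h5]
    rfl
  have h7 : ⟪D.B t, D.B t⟫ = D.G t := real_inner_self_eq_norm_sq _
  have h8 : ⟪D.B t, D.B2 al t⟫ = D.S2 al t * D.G t := by
    unfold S2
    field_simp
  rw [be_eq, h8, h4, map_add, map_smul, inner_add_right, inner_add_right, inner_smul_right,
    inner_smul_right, fam_MB]
  rw [fam_MB] at h6
  rw [← h6, real_inner_comm (D.A t (D.B t)) (D.C al t), real_inner_comm (D.A t (D.B t)) (D.B t)]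
  field_simp
  ring

/-! ### Bounds after `t0` -/

theorem mem_Iw (h : D.Kin) {t : ℝ} (ht : t ∈ Icc D.t0 D.T) : t ∈ D.Iw :=
  ⟨(h.t0_Iw).1.trans ht.1, ht.2⟩

theorem mem_T (h : D.Kin) {t : ℝ} (ht : t ∈ Icc D.t0 D.T) : t ∈ Icc 0 D.T :=
  h.Iw_sub (mem_Iw h ht)

/-- `a c kap (t - t0)² ≤ 1.01 h` on `[t0, T]` -/
theorem P_le (h : D.Kin) {t : ℝ} (ht : t ∈ Icc D.t0 D.T) :
    D.a * D.c * D.kap * (t - D.t0) ^ 2 ≤ 1.01 * D.h := by
  have h1 := h.th_sq
  have h2 := h.k2_le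
  have h3 := h.toFlo.ack_pos
  have h4 := h.T_eq
  have h5 : t - D.t0 ≤ 1001 / 1000 * D.th := by linarith [ht.2]
  have h6 : 0 ≤ t - D.t0 := by linarith [ht.1]
  have h7 : (t - D.t0) ^ 2 ≤ (1001 / 1000 * D.th) ^ 2 := pow_le_pow_left₀ h6 h5 2
  have hh := h.toFlo.h_pos
  calc D.a * D.c * D.kap * (t - D.t0) ^ 2
      ≤ D.a * D.c * D.kap * (1001 / 1000 * D.th) ^ 2 := by gcongr
    _ = (1001 / 1000) ^ 2 * (D.a * D.c * D.kap * D.th ^ 2) := by ring
    _ = (1001 / 1000) ^ 2 * D.k2 := by rw [h1]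
    _ ≤ 1.01 * D.h := by nlinarith

/-- `w` is small -/
theorem w_small (h : D.Kin) : 10 ^ 3 * D.b * D.w ≤ D.ro ∧ D.ro * D.h ≤ 1 / 10 ^ 3 := by
  refine ⟨by simpa using h.w_ro (k := 1) (m := 3) (by norm_num), ?_⟩
  have hh := h.toFlo.h_pos
  have h1 := h.h_big
  unfold ro
  have h2 : (D.h ^ 6)⁻¹ * D.h = (D.h ^ 5)⁻¹ := by field_simp
  rw [h2, inv_le_comm₀ (by positivity) (by norm_num)]
  have h3 : D.h ≤ D.h ^ 5 := le_self_pow₀ h.h1 (by norm_num)
  have h4 : (10 : ℝ) ^ 3 ≤ 10 ^ 100 := by norm_num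
  norm_num
  linarith

theorem lam1_h (h : D.Kin) {t : ℝ} (ht : t ∈ Icc D.t0 D.T) : D.lam1 t ≤ 2 * D.h := by
  have h1 := h.lam1_up (mem_Iw h ht)
  have h2 := P_le h ht
  have h3 := h.k0_le
  have h4 := h.ten_le (k := 1) (m := 1) (by norm_num)
  have hh := h.toFlo.h_pos
  unfold Lam at h1
  simp only [pow_one] at h4
  linarith

theorem be_le (h : D.Kin) {t : ℝ} (ht : t ∈ Icc D.t0 D.T) : |2 * D.be 1 t| ≤ D.a * D.w := by
  have hw := h.w_pos
  have hb := h.b_ge'
  have hI := mem_Iw h ht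
  have hu := h.toFlo.uu_le (h.nr hI)
  have hu0 := h.toFlo.uu_nonneg t
  have huw := h.uu_w hI
  have hl0 := h.lam1_pos hI
  have h1 := h.toFlo.be_near (al := 1) (h.nr hI) (by rw [Sl_one]; exact hl0.le)
  rw [Sl_one] at h1
  have h2 := lam1_h h ht
  have hk := h.toFlo.kap_le
  have hk0 := h.toFlo.kap_pos
  have hc := h.toFlo.c_le
  have hc0 := h.toFlo.c_pos
  have hhb := h.h_big
  have hh := h.h1
  have hbu : 17 * D.b * D.uu D.b t ≤ 1 := by
    have e1 := h.w_ro (k := 2) (m := 2) (by norm_num)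
    have e2 : D.ro ≤ 1 := by
      unfold ro
      exact inv_le_one_of_one_le₀ (one_le_pow₀ h.h1)
    have e3 : D.b * D.uu D.b t ≤ D.b * (D.b * D.w) := by gcongr
    have e4 : 0 ≤ D.b * D.uu D.b t := by positivity
    nlinarith
  have h3 : |D.kap * (1 - D.c * D.lam1 t)| ≤ 2 * (1 + D.lam1 t) := by
    have hc1 : D.c * D.lam1 t ≤ D.lam1 t := by nlinarith
    have hc2 : 0 ≤ D.c * D.lam1 t := by positivity
    rw [abs_le]
    constructor <;> nlinarith
  have h4 : |D.be 1 t| ≤ 3 * (1 + D.lam1 t) := by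
    have e1 := abs_add_le (D.be 1 t - D.kap * (1 - D.c * D.lam1 t)) (D.kap * (1 - D.c * D.lam1 t))
    rw [sub_add_cancel] at e1
    have e2 : 17 * D.b * D.uu D.b t * (1 + D.lam1 t) ≤ 1 * (1 + D.lam1 t) := by
      apply mul_le_mul_of_nonneg_right hbu
      linarith
    linarith
  rw [abs_mul, abs_two]
  have h5 : D.a * D.w = D.h ^ 17 := by
    unfold a w
    have := h.toFlo.h_pos
    field_simp
  rw [h5]
  have h6 : D.h ^ 2 ≤ D.h ^ 17 := pow_le_pow_right₀ hh (by norm_num)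
  have h7 : (10 : ℝ) ^ 2 ≤ 10 ^ 100 := by norm_num
  nlinarith

theorem G_near (h : D.Kin) {t : ℝ} (ht : t ∈ Icc D.t0 D.T) :
    |D.G t - 1| ≤ 5 * (D.b * D.w) := by
  have hI := mem_Iw h ht
  have h1 := h.toFlo.Bsq (h.nr hI)
  have h2 := h.uu_w hI
  show |‖D.B t‖ ^ 2 - 1| ≤ _
  linarith

theorem bw_small (h : D.Kin) : D.b * D.w ≤ 1 / 10 ^ 6 := by
  have h1 := w_small h
  have h2 : D.ro ≤ 1 / 10 ^ 3 := by
    have := h.h1
    have h3 : 0 < D.ro := by
      unfold ro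
      have := h.toFlo.h_pos
      positivity
    nlinarith
  have h3 : 0 < D.b * D.w := by
    have := h.b_ge'
    have := h.w_pos
    positivity
  nlinarith [h1.1]

theorem S2d_bd (h : D.Kin) {t : ℝ} (ht : t ∈ Icc D.t0 D.T) :
    0 ≤ 2 * D.be 1 t + D.fam.Om 1 t / D.G t ∧
      2 * D.be 1 t + D.fam.Om 1 t / D.G t ≤ D.a * (1 + 9 * (D.b * D.w)) := by
  have hw := h.w_pos
  have hb := h.b_ge'
  have ha := h.toFlo.a_pos
  have h1 := abs_le.1 (be_le h ht)
  have h2 := abs_le.1 (G_near h ht)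
  have h3 := bw_small h
  have hal : (1 : ℝ) ∈ Icc (-1 : ℝ) 1 := by norm_num
  have h4 := abs_le.1 (h.Om_le hal (mem_T h ht))
  have h5 := abs_le.1 (h.Om_near hal (mem_T h ht))
  have h6 := h.b2a
  have h7 := h.h20_w
  have hbw : 0 < D.b * D.w := by positivity
  have hwb : D.w ≤ D.b * D.w / 10 := by nlinarith
  have hG : 0 < D.G t := by linarith
  have h8 : D.a * (1 - D.w) ≤ D.fam.Om 1 t := by nlinarith
  have h9 : D.fam.Om 1 t ≤ D.a * (1 + D.w) := by nlinarith
  constructor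
  · have : D.a * (1 / 2) ≤ D.fam.Om 1 t / D.G t := by
      rw [le_div_iff₀ hG]
      nlinarith
    nlinarith
  · have : D.fam.Om 1 t / D.G t ≤ D.a * (1 + 7 * (D.b * D.w)) := by
      rw [div_le_iff₀ hG]
      have e1 : 1 + D.w ≤ (1 + 7 * (D.b * D.w)) * D.G t := by nlinarith
      calc D.fam.Om 1 t ≤ D.a * (1 + D.w) := h9
        _ ≤ D.a * ((1 + 7 * (D.b * D.w)) * D.G t) := by gcongr
        _ = _ := by ring
    nlinarith

theorem S2_bd (h : D.Kin) {t : ℝ} (ht : t ∈ Icc D.t0 D.T) :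
    0 ≤ D.S2 1 t ∧ D.S2 1 t ≤ D.a * (1 + 9 * (D.b * D.w)) * (t - D.t0) := by
  have hd : ∀ r ∈ Icc D.t0 D.T,
      HasDerivAt (D.S2 1) (2 * D.be 1 r + D.fam.Om 1 r / D.G r) r :=
    fun r hr => S2_der h.toFlo 1 (mem_T h hr)
  have h0 : D.t0 ∈ Icc D.t0 D.T := ⟨le_rfl, h.toFlo.t0_lt.le⟩
  have hS0 := S2_t0 h.toFlo 1
  constructor
  · have h1 : MonotoneOn (D.S2 1) (Icc D.t0 D.T) := by
      refine monotoneOn_of_deriv_nonneg (convex_Icc _ _) ?_ ?_ ?_
      · exact fun r hr => (hd r hr).continuousAt.continuousWithinAt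
      · exact fun r hr => (hd r (interior_subset hr)).differentiableAt.differentiableWithinAt
      · intro r hr
        rw [(hd r (interior_subset hr)).deriv]
        exact (S2d_bd h (interior_subset hr)).1
    have h2 := h1 h0 ht ht.1
    rwa [hS0] at h2
  · have h1 := (convex_Icc D.t0 D.T).image_sub_le_mul_sub_of_deriv_le (f := D.S2 1)
      (C := D.a * (1 + 9 * (D.b * D.w)))
      (fun r hr => (hd r hr).continuousAt.continuousWithinAt)
      (fun r hr => (hd r (interior_subset hr)).differentiableAt.differentiableWithinAt)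
      (fun r hr => by
        rw [(hd r (interior_subset hr)).deriv]
        exact (S2d_bd h (interior_subset hr)).2) D.t0 h0 t ht ht.1
    rw [hS0, sub_zero] at h1
    exact h1

/-! ### CL3: `y1 > 0` -/

theorem pp_eq (W : ℝ → E3) (t : ℝ) : D.pp W t = -D.fam.p W t := by
  unfold pp FamD.p
  rw [fam_D, inner_neg_right, neg_neg]

theorem qq_eq (al : ℝ) (W : ℝ → E3) (t : ℝ) : D.qq al W t = -D.fam.q al W t := by
  unfold qq FamD.q C G
  rw [fam_D, cx_neg_left, ← cx_swap, norm_neg, inner_smul_right]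
  ring

theorem invE (_h : D.Flo b') (al t : ℝ) : (D.E al t)⁻¹ = D.QQ al t := by
  unfold E QQ G
  rw [Flo.normD, inv_div]

theorem num1 {be e : ℝ} (h0 : 0 ≤ be) (h1 : be ≤ e / 10 ^ 3) (h2 : e ≤ 1 / 10 ^ 3) :
    (1 + 9 * be) * (2 + e) ≤ 2 * (1 + 2 * e) := by
  have h3 : be * e ≤ 1 / 10 ^ 3 * (1 / 10 ^ 3 * e) := by
    have : 0 ≤ e := by linarith
    nlinarith
  nlinarith

theorem num2 {e : ℝ} (h0 : 0 < e) (h2 : e ≤ 1 / 10 ^ 3) :
    (1 + 2 * e) * (1 + e) * (1 + e) ≤ 1 + 10 * e := by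
  have h3 : e ^ 2 ≤ e := by nlinarith
  have h4 : e ^ 3 ≤ e := by nlinarith
  nlinarith

/-- CL3 -/
theorem y1_pos (h : D.Kin) {W : ℝ → E3} {t : ℝ} (ht : t ∈ Icc D.t0 D.T)
    (hY : 0 < D.Y 1 W t) (hZ : 0 ≤ D.Z 1 W t) : 0 < D.y1 1 W t := by
  have hw := h.w_pos
  have hb := h.b_ge'
  have ha := h.toFlo.a_pos
  have hI := mem_Iw h ht
  have hnr := h.nr hI
  have hbw := bw_small h
  have hbw0 : 0 < D.b * D.w := by positivity
  obtain ⟨hS0, hS1⟩ := S2_bd h ht
  have hG1 := abs_le.1 (G_near h ht)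
  have hG : 0 < D.G t := by linarith
  have hE := E_pos h.toFlo 1 t
  have hl := h.Sl_big (al := 1) le_rfl hI
  have hQ := h.toFlo.QQ_up (al := 1) hnr (by linarith)
  rw [Sl_one] at hl hQ
  have hu := h.uu_w hI
  have hu0 := h.toFlo.uu_nonneg t
  have hx : 0 ≤ t - D.t0 := by linarith [ht.1]
  have hphi := abs_le.1 (h.toFlo.phi_rel hnr)
  have hlam := abs_le.1 (h.toFlo.lam1_rel (mem_T h ht) hnr)
  have her0 := h.toFlo.er1_nonneg t
  have her : D.er1 D.b t ≤ D.ro := by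
    refine (h.er1_w hI).trans ?_
    have e1 := h.w_ro (k := 3) (m := 2) (by norm_num)
    have e2 : 0 ≤ D.b ^ 3 * D.w := by positivity
    nlinarith
  have hro := w_small h
  have hack := h.toFlo.ack_pos
  have hP1 := P_le h ht
  have hP0 : 0 ≤ D.a * D.c * D.kap * (t - D.t0) ^ 2 := by positivity
  have hk0 := h.k0_ge
  have hh := h.toFlo.h_pos
  have hh1 := h.h1
  rw [abs_of_nonneg hx] at hphi
  set p := D.pp W t with hp
  set q := D.qq 1 W t with hq
  set L := D.lam1 t with hL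
  set S := D.S2 1 t with hSd
  set P := D.a * D.c * D.kap * (t - D.t0) ^ 2 with hPd
  set e := D.ro with he
  set er := D.er1 D.b t with herd
  have hL0 : 0 < L := by linarith
  have hsL : 0 < Real.sqrt L := Real.sqrt_pos.2 hL0
  have hsL2 : Real.sqrt L * Real.sqrt L = L := Real.mul_self_sqrt hL0.le
  -- `p > 0`
  have hYe : D.Y 1 W t = Real.sqrt L * p := by
    unfold Y
    rw [Sl_one, ← pp_eq]
  have hp0 : 0 < p := by
    rw [hYe] at hY
    exact (mul_pos_iff_of_pos_left hsL).1 hY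
  -- `2 a q ≥ phi L p`
  have hkap := h.toFlo.kap_pos
  have hde : 0 < D.de := by
    unfold de
    positivity
  have hr : 0 < D.r := by
    unfold r
    positivity
  have hder : D.a * D.de = D.r := by
    unfold de r
    rw [← Real.sqrt_sq ha.le, ← Real.sqrt_mul (by positivity)]
    congr 1
    rw [Real.sqrt_sq ha.le]
    field_simp
  have hq1 : D.fam.phi t * L * p ≤ 2 * D.a * q := by
    have e1 : D.Z 1 W t = q / (D.de * Real.sqrt L) + D.j 1 t / 2 * (Real.sqrt L * p) := by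
      unfold Z
      rw [Sl_one, ← qq_eq, hYe]
    rw [e1] at hZ
    have e2 : D.j 1 t = -D.fam.phi t / D.r := by
      unfold j
      rw [one_mul]
    rw [e2] at hZ
    have e3 : 0 ≤ (q / (D.de * Real.sqrt L) + -D.fam.phi t / D.r / 2 * (Real.sqrt L * p)) *
        (2 * D.r * Real.sqrt L) := mul_nonneg hZ (by positivity)
    have e4 : (q / (D.de * Real.sqrt L) + -D.fam.phi t / D.r / 2 * (Real.sqrt L * p)) *
        (2 * D.r * Real.sqrt L) =
        2 * q * (D.r / D.de) - D.fam.phi t * (Real.sqrt L * Real.sqrt L) * p := by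
      field_simp
      ring
    rw [e4, hsL2, ← hder] at e3
    have e5 : D.a * D.de / D.de = D.a := by field_simp
    rw [e5] at e3
    linarith
  -- the product `S (- phi)`
  have hbwe : D.b * D.w ≤ e / 10 ^ 3 := by linarith [hro.1]
  have he0 : 0 < e := by
    rw [he]
    unfold ro
    positivity
  have he1 : e ≤ 1 / 10 ^ 3 := by
    have e1 : e * 1 ≤ e * D.h := by gcongr
    linarith [hro.2]
  have heh : e * P ≤ 1 / 10 ^ 2 := by
    have e1 : e * P ≤ e * (1.01 * D.h) := by gcongr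
    linarith [hro.2]
  set x := t - D.t0 with hxd
  have hT1 : S * (-D.fam.phi t) ≤ D.a * (2 * (1 + 2 * e) * P) := by
    have e1 : -D.fam.phi t ≤ (2 + e) * (D.a * D.c * D.kap * x) := by
      have e3 : 0 ≤ D.a * D.c * D.kap * x := by positivity
      have e2 : er * (D.a * D.c * D.kap * x) ≤ e * (D.a * D.c * D.kap * x) := by gcongr
      linarith [hphi.1]
    have e3 : 0 ≤ (2 + e) * (D.a * D.c * D.kap * x) := by positivity
    calc S * (-D.fam.phi t) ≤ S * ((2 + e) * (D.a * D.c * D.kap * x)) := by gcongr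
      _ ≤ (D.a * (1 + 9 * (D.b * D.w)) * x) * ((2 + e) * (D.a * D.c * D.kap * x)) := by gcongr
      _ = D.a * ((1 + 9 * (D.b * D.w)) * (2 + e) * P) := by
          rw [hPd]
          ring
      _ ≤ D.a * (2 * (1 + 2 * e) * P) :=
          mul_le_mul_of_nonneg_left
            (mul_le_mul_of_nonneg_right (num1 hbw0.le hbwe he1) hP0) ha.le
  -- `L / E`
  have hLE : L / D.E 1 t * L ≤ 1 + e := by
    have e1 : L / D.E 1 t * L = D.QQ 1 t * L ^ 2 := by
      rw [← invE h.toFlo]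
      ring
    rw [e1]
    have e2 : 30 * D.uu D.b t ≤ e := by linarith
    linarith
  -- `P (1 + ..) < L / G`
  have hGL : 2 * (1 + 2 * e) * P * (1 + e) * D.G t < 2 * L := by
    have e1 : D.G t ≤ 1 + e := by
      have := hG1.2
      linarith
    have e2 : L ≥ D.k0 + P - e * P := by
      have e3 : er * P ≤ e * P := by gcongr
      have e4 : D.Lam t = D.k0 + P := rfl
      rw [e4] at hlam
      linarith [hlam.1]
    have e3 : 2 * (1 + 2 * e) * P * (1 + e) * D.G t ≤ 2 * (1 + 2 * e) * P * (1 + e) * (1 + e) := by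
      gcongr
    have e4 : 2 * (1 + 2 * e) * P * (1 + e) * (1 + e) ≤ 2 * P + 20 * (e * P) := by
      have e5 : (1 + 2 * e) * (1 + e) * (1 + e) ≤ 1 + 10 * e := num2 he0 he1
      calc 2 * (1 + 2 * e) * P * (1 + e) * (1 + e) = 2 * P * ((1 + 2 * e) * (1 + e) * (1 + e)) := by
            ring
        _ ≤ 2 * P * (1 + 10 * e) := by gcongr
        _ = _ := by ring
    linarith
  -- conclusion
  have hy : D.y1 1 W t = p / D.G t + S * (q / D.E 1 t) := rfl
  have hfin : 0 < 2 * D.a * D.y1 1 W t * (D.G t * L) := by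
    have e1 : 2 * D.a * D.y1 1 W t * (D.G t * L) =
        2 * D.a * p * L + S * (2 * D.a * q) * (L / D.E 1 t) * D.G t := by
      rw [hy]
      field_simp
    have e2 : S * (D.fam.phi t * L * p) * (L / D.E 1 t) * D.G t ≤
        S * (2 * D.a * q) * (L / D.E 1 t) * D.G t := by gcongr
    have e3 : S * (D.fam.phi t * L * p) * (L / D.E 1 t) * D.G t =
        -(S * (-D.fam.phi t) * (L / D.E 1 t * L) * D.G t * p) := by ring
    have e4 : S * (-D.fam.phi t) * (L / D.E 1 t * L) * D.G t ≤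
        D.a * (2 * (1 + 2 * e) * P) * (1 + e) * D.G t := by
      have e5 : 0 ≤ L / D.E 1 t * L := by positivity
      gcongr
    have e5 : D.a * (2 * (1 + 2 * e) * P) * (1 + e) * D.G t < D.a * (2 * L) := by
      have := mul_lt_mul_of_pos_left hGL ha
      calc D.a * (2 * (1 + 2 * e) * P) * (1 + e) * D.G t =
          D.a * (2 * (1 + 2 * e) * P * (1 + e) * D.G t) := by ring
        _ < _ := this
    have e6 : S * (-D.fam.phi t) * (L / D.E 1 t * L) * D.G t * p < D.a * (2 * L) * p := by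
      have := e4.trans_lt e5
      exact mul_lt_mul_of_pos_right this hp0
    rw [e1]
    rw [e3] at e2
    linarith only [e2, e6]
  have h1 := (mul_pos_iff_of_pos_right (mul_pos hG hL0)).1 hfin
  exact (mul_pos_iff_of_pos_left (by positivity)).1 h1

end Lb

/-- CL4 from the signs of `Y`, `Z` and from CL. -/
theorem cl4of : StPos → CL → CL4 := by
  intro h3 hcl D h W hW
  have hK := h.toKin
  have hth := hK.th_pos
  have hT := hK.T_eq
  have hsub : Icc D.t0 D.t1 ⊆ Icc D.t0 D.T := by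
    intro t ht
    refine ⟨ht.1, ht.2.trans ?_⟩
    unfold t1
    linarith
  have hsub2 : Icc D.t0 D.t1 ⊆ Icc 0 D.T := fun t ht => Lb.mem_T hK (hsub ht)
  refine Lb.rot h.toFlo 1 hsub2 (fun t ht => hW.der t (hsub2 ht))
    (fun t ht => h.core_orth hW (hsub2 ht)) (fun t ht => ?_) (fun t ht => ?_) (fun t ht => ?_)
  · obtain ⟨h1, h2⟩ := h3 D h W hW t (hsub ht)
    exact Lb.y1_pos hK (hsub ht) h1 h2
  · obtain ⟨h1, -, h2⟩ := hcl D h W hW t (hsub ht)
    have h4 : 0 < D.kap / D.lam1 t :=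
      div_pos h.toFlo.kap_pos (hK.lam1_pos (Lb.mem_Iw hK (hsub ht)))
    have h5 := hK.eta_le
    have h6 : 0 < ⟪cx (W t) (D.fam.K 1 t), D.fam.M 1 t (W t)⟫ /
        (‖D.fam.K 1 t‖ * ‖W t‖ ^ 2) := by
      have h7 := (abs_le.1 h2).1
      have h8 : 50 * D.eta * (D.kap / D.lam1 t) ≤ 1 / 2 * (D.kap / D.lam1 t) := by
        apply mul_le_mul_of_nonneg_right _ h4.le
        have : (50 : ℝ) * (1 / 10 ^ 4) ≤ 1 / 2 := by norm_num
        linarith
      linarith
    have h7 : 0 < ‖D.fam.K 1 t‖ * ‖W t‖ ^ 2 := by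
      have e1 := norm_pos_iff.2 (Lb.K_ne h.toFlo 1 t)
      have e2 := norm_pos_iff.2 h1
      positivity
    exact ((div_pos_iff_of_pos_right h7).1 h6).le
  · exact (hK.Om_pos (al := 1) (by norm_num) (hsub2 ht)).le

end LevD

end Pool.Agent.Work.MP_b0497c_an.Unf.O
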