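import Pool.Agent.Work.MP_b0497c_an.Bd.B18
import Pool.Agent.Work.MP_b0497c_an.Unf.Match
import Pool.Agent.Work.MP_b0497c_an.Unf.OCl

set_option autoImplicit false

/-!
# Closing of the window, CL1 and CL2 (OK.md, OK.6) (helper63)

`P1 = k^ · M^1 W^` (next `kap`), `P2 = (W^ × k^) · M^1 W^` (next `c kap`).
-/

open Set ContinuousLinearMap RealInnerProductSpace

namespace Pool.Agent.Work.MP_b0497c_an.Unf.O

open Forced.Ode (Op ro)
open Fam K

namespace ClA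

/-! ### Identities at one time -/

/-- The frame at one time. -/
structure Fr (B n xi v K W : E3) (lam : ℝ) : Prop where
  hB : B = cx n xi
  hK : K = xi + lam • n
  nv : ⟪n, v⟫ = 0
  B0 : B ≠ 0
  KW : ⟪K, W⟫ = 0

namespace Fr

variable {B n xi v K W : E3} {lam : ℝ}

theorem BK (h : Fr B n xi v K W lam) : ⟪B, K⟫ = 0 := by
  rw [h.hB, h.hK, inner_add_right, inner_smul_right, real_inner_comm, inner_cx_right,
    real_inner_comm, inner_cx_left]
  ring

theorem Kn (h : Fr B n xi v K W lam) : cx K n = -B := by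
  rw [h.hK, cx_add_left, cx_smul_left, cx_self, smul_zero, add_zero, cx_swap, h.hB]

theorem K0 (h : Fr B n xi v K W lam) : K ≠ 0 := by
  intro h0
  have h1 := h.Kn
  rw [h0] at h1
  have h2 : cx 0 n = 0 := by apply Fam.ext3 <;> simp [cx]
  rw [h2] at h1
  exact h.B0 (neg_eq_zero.1 h1.symm)

theorem B2 (h : Fr B n xi v K W lam) : ‖B‖ ≠ 0 := norm_ne_zero_iff.2 h.B0

theorem K2 (h : Fr B n xi v K W lam) : ‖K‖ ≠ 0 := norm_ne_zero_iff.2 h.K0

theorem dec (h : Fr B n xi v K W lam) : W = (⟪W, B⟫ / ‖B‖ ^ 2) • B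
    + (⟪W, cx B K⟫ / (‖B‖ ^ 2 * ‖K‖ ^ 2)) • cx B K := Fam.decomp h.B0 h.K0 h.BK h.KW

theorem nBK (h : Fr B n xi v K W lam) : ⟪n, cx B K⟫ = -‖B‖ ^ 2 := by
  rw [inner_cx_cyc, h.Kn, inner_neg_right, real_inner_self_eq_norm_sq]

theorem nW (h : Fr B n xi v K W lam) : ⟪n, W⟫ = -(⟪W, cx B K⟫ / ‖K‖ ^ 2) := by
  have hB := h.B2
  have hK := h.K2
  have h1 : ⟪n, B⟫ = 0 := by rw [h.hB]; exact inner_cx_left _ _
  conv_lhs => rw [h.dec]
  rw [inner_add_right, inner_smul_right, inner_smul_right, h1, h.nBK]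
  field_simp
  ring

theorem vBK (h : Fr B n xi v K W lam) : ⟪v, cx B K⟫ = ⟪xi, v⟫ * ⟪K, n⟫ := by
  have h1 : cx v B = ⟪xi, v⟫ • n := by
    rw [h.hB, cx_cx, real_inner_comm n v, h.nv, zero_smul, sub_zero, real_inner_comm]
  rw [inner_cx_cyc, inner_cx_cyc, h1, inner_smul_right]

theorem cWK (h : Fr B n xi v K W lam) : cx W K = (⟪W, B⟫ / ‖B‖ ^ 2) • cx B K
    - (⟪W, cx B K⟫ / ‖B‖ ^ 2) • B := by
  have hB := h.B2
  have hK := h.K2
  have h1 : cx (cx B K) K = -(‖K‖ ^ 2 • B) := by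
    rw [cx_swap, cx_cx, real_inner_self_eq_norm_sq, real_inner_comm, h.BK, zero_smul, sub_zero]
  conv_lhs => rw [h.dec]
  rw [cx_add_left, cx_smul_left, cx_smul_left, h1, smul_neg, smul_smul, ← sub_eq_add_neg]
  congr 2
  field_simp

theorem WKv (h : Fr B n xi v K W lam) : ⟪cx W K, v⟫ = ⟪W, B⟫ / ‖B‖ ^ 2 * (⟪xi, v⟫ * ⟪K, n⟫)
    - ⟪W, cx B K⟫ / ‖B‖ ^ 2 * ⟪v, B⟫ := by
  rw [h.cWK, inner_sub_left, real_inner_smul_left, real_inner_smul_left,
    real_inner_comm v (cx B K), h.vBK, real_inner_comm v B]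

theorem Kv (h : Fr B n xi v K W lam) : ⟪K, v⟫ = ⟪xi, v⟫ := by
  rw [h.hK, inner_add_left, real_inner_smul_left, h.nv, mul_zero, add_zero]

theorem nWf (h : Fr B n xi v K W lam) {p de r j Qh kap : ℝ}
    (hq : ⟪W, cx B K⟫ / ‖B‖ ^ 2 = de * lam * p * Qh) :
    ⟪n, W⟫ = -(de * lam * p * Qh * (‖B‖ ^ 2 / ‖K‖ ^ 2)) := by
  have hB := h.B2
  have hK := h.K2
  rw [h.nW, ← hq]
  field_simp

theorem num1 (h : Fr B n xi v K W lam) (A : Op) {p de r j Qh kap : ℝ}
    (hr : de * r = kap) (hphi : ⟪xi, v⟫ = -(r * j))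
    (hq : ⟪W, cx B K⟫ / ‖B‖ ^ 2 = de * lam * p * Qh) :
    ⟪K, A W + ⟪n, W⟫ • v⟫ = ⟪K, A W⟫ + p * kap * (lam * ‖B‖ ^ 2 / ‖K‖ ^ 2) * (j * Qh) := by
  rw [inner_add_right, inner_smul_right, h.Kv, hphi, h.nWf (p := p) (r := r) (j := j)
    (kap := kap) hq, ← hr]
  ring

theorem num2 (h : Fr B n xi v K W lam) (A : Op) {p de r j Qh kap a : ℝ} (ha : a ≠ 0)
    (hp : ⟪W, B⟫ = p) (hr : de * r = kap) (hde : de ^ 2 = kap / a) (hphi : ⟪xi, v⟫ = -(r * j))
    (hq : ⟪W, cx B K⟫ / ‖B‖ ^ 2 = de * lam * p * Qh) :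
    ⟪cx W K, A W + ⟪n, W⟫ • v⟫ = ⟪cx W K, A W⟫ + p ^ 2 * kap *
      ((lam * ⟪K, n⟫ / ‖K‖ ^ 2) * (j * Qh) +
        (lam ^ 2 * ‖B‖ ^ 2 / ‖K‖ ^ 2 * (⟪v, B⟫ / a)) * Qh ^ 2) := by
  have hB := h.B2
  have hK := h.K2
  rw [inner_add_right, inner_smul_right, h.WKv, hphi, h.nWf (p := p) (r := r) (j := j)
    (kap := kap) hq, hq, hp]
  have e1 : -(de * lam * p * Qh * (‖B‖ ^ 2 / ‖K‖ ^ 2)) *
      (p / ‖B‖ ^ 2 * (-(r * j) * ⟪K, n⟫) - de * lam * p * Qh * ⟪v, B⟫) =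
      p ^ 2 * ((de * r) * ((lam * ⟪K, n⟫ / ‖K‖ ^ 2) * (j * Qh)) +
        de ^ 2 * (lam ^ 2 * ‖B‖ ^ 2 / ‖K‖ ^ 2 * ⟪v, B⟫) * Qh ^ 2) := by
    field_simp
    ring
  rw [e1, hr, hde]
  field_simp

end Fr

/-! ### Real estimates -/

/-- `kap` formula. -/
theorem real1 {T y z G lam kap c j Qh io X mu : ℝ} (hkap : 0 < kap)
    (hio : 0 ≤ io) (hio1 : io ≤ 1 / 1000) (hX : 0 ≤ X) (hmu : 0 ≤ mu) (hmu1 : mu ≤ 1 / 1000)
    (hlio : 1 / lam ^ 2 = io) (hcl : c / lam = X * io) (hXio : X * io ≤ 1 / 1000)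
    (hT : |T - kap * (1 + X * io)| ≤ kap * mu)
    (hz : |z - 1| ≤ 101 / 100 * io + mu) (hG : |G / y ^ 2| ≤ 103 / 100)
    (hjQ : |j * Qh| ≤ 9 / 4 + 32 / 10 * X) :
    |(T + kap * (G / (lam ^ 2 * y ^ 2)) * (j * Qh)) / (z) - kap| ≤
      kap * (6 * (X * io + io + mu)) := by
  have hz1 := abs_le.1 hz
  have hz0 : 99 / 100 ≤ z := by linarith [hz1.1]
  have hzp : 0 < z := by linarith only [hz0]
  have e1 : G / (lam ^ 2 * y ^ 2) = io * (G / y ^ 2) := by
    rw [← hlio, div_mul_div_comm, one_mul]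
  rw [e1]
  have e2 : |(io * (G / y ^ 2)) * (j * Qh)| ≤ 24 / 10 * io + 33 / 10 * (X * io) := by
    rw [abs_mul, abs_mul, abs_of_nonneg hio]
    calc io * |G / y ^ 2| * |j * Qh| ≤ io * (103 / 100) * (9 / 4 + 32 / 10 * X) := by gcongr
      _ = io * (103 / 100 * (9 / 4)) + (X * io) * (103 / 100 * (32 / 10)) := by ring
      _ ≤ 24 / 10 * io + 33 / 10 * (X * io) := by
          have : 0 ≤ X * io := by positivity
          linarith only [this, hio]
  have e3 : (T + kap * (io * (G / y ^ 2)) * (j * Qh)) / (z) - kap =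
      ((T - kap * (1 + X * io)) + kap * (X * io + (io * (G / y ^ 2)) * (j * Qh))
        + kap * (1 - z)) / (z) := by
    field_simp
    ring
  rw [e3, abs_div, abs_of_pos hzp, div_le_iff₀ hzp]
  have hXi : 0 ≤ X * io := by positivity
  have e4 : |(T - kap * (1 + X * io)) + kap * (X * io + (io * (G / y ^ 2)) * (j * Qh))
        + kap * (1 - z)| ≤ kap * mu + kap * (X * io + (24 / 10 * io + 33 / 10 * (X * io)))
        + kap * (101 / 100 * io + mu) := by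
    refine (abs_add_le _ _).trans (add_le_add ((abs_add_le _ _).trans (add_le_add hT ?_)) ?_)
    · rw [abs_mul, abs_of_pos hkap]
      refine mul_le_mul_of_nonneg_left ((abs_add_le _ _).trans (add_le_add ?_ e2)) hkap.le
      rw [abs_of_nonneg hXi]
    · rw [abs_mul, abs_of_pos hkap, abs_sub_comm]
      exact mul_le_mul_of_nonneg_left hz hkap.le
  refine e4.trans ?_
  have e5 : kap * (6 * (X * io + io + mu)) * (99 / 100) ≤
      kap * (6 * (X * io + io + mu)) * (z) := by gcongr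
  refine le_trans ?_ e5
  have e6 : kap * mu + kap * (X * io + (24 / 10 * io + 33 / 10 * (X * io)))
        + kap * (101 / 100 * io + mu) = kap * (2 * mu + 341 / 100 * io + 43 / 10 * (X * io)) := by
    ring
  rw [e6, mul_assoc]
  refine mul_le_mul_of_nonneg_left ?_ hkap.le
  linarith only [hio, hmu, hXi]

/-- `c` formula. -/
theorem real2 {S z R1 R2 j qh X cg ck io mu tau : ℝ}
    (hio : 0 ≤ io) (hio1 : io ≤ 1 / 1000) (hX : 0 ≤ X) (hmu : 0 ≤ mu) (hmu1 : mu ≤ 1 / 1000)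
    (hcg : cg = X - ck) (hck0 : 0 ≤ ck) (hck1 : ck ≤ 1 / 100)
    (hS : S = X - 1 + tau + R2 * (j * (qh - j / 2)) + R1 * (qh - j / 2) ^ 2)
    (htau : |tau| ≤ mu) (hR1 : |R1 - 1| ≤ 102 / 100 * io + mu) (hR2 : |R2 - 1| ≤ 102 / 100 * io + mu)
    (hj : |cg - j ^ 2 / 4| ≤ mu) (hqh : |qh| ≤ 3 / 2) (hj2 : j ^ 2 ≤ 42 / 10 * X)
    (hz : |z - 1| ≤ 101 / 100 * io + mu) :
    |S / z - (qh ^ 2 - 1 + ck)| ≤ 10 * io + 6 * (X * io) + mu * (12 + 6 * X) := by
  have hz1 := abs_le.1 hz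
  have hz0 : 997 / 1000 ≤ z := by linarith [hz1.1]
  have hzp : 0 < z := by linarith only [hz0]
  have hq := abs_le.1 hqh
  have hq2 : qh ^ 2 ≤ 9 / 4 := (sq_le_sq' hq.1 hq.2).trans (by norm_num)
  have hXi : 0 ≤ X * io := by positivity
  have hXm : 0 ≤ X * mu := by positivity
  set a1 := j * (qh - j / 2) with ha1
  set a2 := (qh - j / 2) ^ 2 with ha2
  have E1 : S - (qh ^ 2 - 1 + ck) = (cg - j ^ 2 / 4) + tau + (R2 - 1) * a1 + (R1 - 1) * a2 := by
    rw [hS, hcg, ha1, ha2]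
    ring
  have E2 : |a1| + a2 ≤ 7 + 525 / 100 * X := by
    have h1 : |a1| ≤ qh ^ 2 + 3 / 4 * j ^ 2 := by
      rw [ha1, abs_le]
      constructor
      · linarith only [sq_nonneg (qh + j / 2)]
      · linarith only [sq_nonneg (qh - j / 2), sq_nonneg j]
    have h2 : a2 ≤ 2 * qh ^ 2 + j ^ 2 / 2 := by
      rw [ha2]
      linarith only [sq_nonneg (qh + j / 2)]
    linarith only [hj2, hq2, h1, h2]
  have ha20 : 0 ≤ a2 := sq_nonneg _
  have hr : 0 ≤ 102 / 100 * io + mu := by positivity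
  have E3 : |S - (qh ^ 2 - 1 + ck)| ≤ 2 * mu + (102 / 100 * io + mu) * (7 + 525 / 100 * X) := by
    rw [E1]
    have h1 : |(R2 - 1) * a1| ≤ (102 / 100 * io + mu) * |a1| := by
      rw [abs_mul]
      exact mul_le_mul_of_nonneg_right hR2 (abs_nonneg _)
    have h2 : |(R1 - 1) * a2| ≤ (102 / 100 * io + mu) * a2 := by
      rw [abs_mul, abs_of_nonneg ha20]
      exact mul_le_mul_of_nonneg_right hR1 ha20
    have h3 : |(cg - j ^ 2 / 4) + tau + (R2 - 1) * a1 + (R1 - 1) * a2| ≤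
        mu + mu + (102 / 100 * io + mu) * |a1| + (102 / 100 * io + mu) * a2 :=
      (abs_add_le _ _).trans (add_le_add ((abs_add_le _ _).trans
        (add_le_add ((abs_add_le _ _).trans (add_le_add hj htau)) h1)) h2)
    refine h3.trans ?_
    have h4 := mul_le_mul_of_nonneg_left E2 hr
    linarith only [h4]
  have E4 : |qh ^ 2 - 1 + ck| ≤ 13 / 10 := by
    rw [abs_le]
    constructor <;> linarith only [sq_nonneg qh, hq2, hck0, hck1]
  have E5 : S / z - (qh ^ 2 - 1 + ck) = ((S - (qh ^ 2 - 1 + ck)) + (qh ^ 2 - 1 + ck) * (1 - z)) / z := by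
    field_simp
    ring
  rw [E5, abs_div, abs_of_pos hzp, div_le_iff₀ hzp]
  have E6 : |(S - (qh ^ 2 - 1 + ck)) + (qh ^ 2 - 1 + ck) * (1 - z)| ≤
      (2 * mu + (102 / 100 * io + mu) * (7 + 525 / 100 * X)) + 13 / 10 * (101 / 100 * io + mu) := by
    refine (abs_add_le _ _).trans (add_le_add E3 ?_)
    rw [abs_mul, abs_sub_comm 1 z]
    exact mul_le_mul E4 hz (abs_nonneg _) (by norm_num)
  refine E6.trans ?_
  have E7 : (10 * io + 6 * (X * io) + mu * (12 + 6 * X)) * (997 / 1000) ≤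
      (10 * io + 6 * (X * io) + mu * (12 + 6 * X)) * z := by gcongr
  refine le_trans ?_ E7
  have e1 : (2 * mu + (102 / 100 * io + mu) * (7 + 525 / 100 * X)) + 13 / 10 * (101 / 100 * io + mu)
      = (2 + 7 + 13 / 10) * mu + 525 / 100 * (X * mu) + (102 / 100 * 7 + 13 / 10 * (101 / 100)) * io
        + 102 / 100 * (525 / 100) * (X * io) := by ring
  rw [e1]
  linarith only [hXi, hXm, hio, hmu]

/-! ### Vector estimates -/

theorem inner_near (x x0 z z0 : E3) : |⟪x, z⟫ - ⟪x0, z0⟫| ≤ ‖x - x0‖ * ‖z‖ + ‖x0‖ * ‖z - z0‖ := by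
  have h : ⟪x, z⟫ - ⟪x0, z0⟫ = ⟪x - x0, z⟫ + ⟪x0, z - z0⟫ := by
    rw [inner_sub_left, inner_sub_right]
    ring
  rw [h]
  exact (abs_add_le _ _).trans (add_le_add (abs_real_inner_le_norm _ _)
    (abs_real_inner_le_norm _ _))

/-- The vectors `u = W / p`, `kt = K / lam` near the frame. -/
theorem vec {e1 e2 e3 u kt : E3} {A A0 : Op} {b ep kap c lam : ℝ} (h1 : ‖e1‖ = 1)
    (h2 : ‖e2‖ = 1) (h12 : ⟪e1, e2⟫ = 0) (h3 : e3 = cx e1 e2) (hb : 10 ≤ b) (hep : 0 ≤ ep)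
    (hep1 : ep ≤ 1 / 1000) (hlam : 1000 ≤ lam) (hA : ‖A‖ ≤ b) (hAA : ‖A - A0‖ ≤ ep)
    (hu : ‖u - e1‖ ≤ 5 * ep) (hk : ‖kt - (e2 + lam⁻¹ • e3)‖ ≤ ep)
    (hkap : ⟪e2, A0 e1⟫ = kap) (hc : ⟪e3, A0 e1⟫ = c * kap) :
    |⟪kt, A u⟫ - kap * (1 + c / lam)| ≤ 8 * b * ep ∧
    |lam * ⟪cx u kt, A u⟫ - kap * (c * lam - 1)| ≤ lam * (14 * b * ep) ∧
    |‖kt‖ ^ 2 - (1 + 1 / lam ^ 2)| ≤ 3 * ep ∧ |‖u‖ - 1| ≤ 5 * ep := by
  have hlp : 0 < lam := by linarith only [hlam]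
  have h21 : ⟪e2, e1⟫ = 0 := by rw [real_inner_comm, h12]
  have n3 : ‖e3‖ = 1 := by
    have : ‖e3‖ ^ 2 = 1 := by
      rw [h3, norm_cx_sq, h1, h2, h12]
      norm_num
    exact (pow_eq_one_iff_of_nonneg (norm_nonneg _) two_ne_zero).1 this
  have h23 : ⟪e2, e3⟫ = 0 := by rw [h3]; exact inner_cx_right _ _
  have c13 : cx e1 e3 = -e2 := by
    rw [h3, cx_cx, h12, real_inner_self_eq_norm_sq, h1]
    simp
  have c12 : cx e1 e2 = e3 := h3.symm
  have hli : lam⁻¹ ≤ 1 / 1000 := by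
    rw [inv_le_comm₀ hlp (by norm_num)]
    linarith only [hlam]
  have hli0 : 0 < lam⁻¹ := inv_pos.2 hlp
  -- norms of the model vectors
  have k0n : ‖e2 + lam⁻¹ • e3‖ ^ 2 = 1 + 1 / lam ^ 2 := by
    rw [norm_add_sq_real, inner_smul_right, h23, norm_smul, h2, n3, Real.norm_eq_abs,
      abs_of_pos hli0]
    field_simp
    ring
  have hl2 : 1 / lam ^ 2 ≤ 1 / 10 ^ 6 := by
    have : (1000 : ℝ) ^ 2 ≤ lam ^ 2 := pow_le_pow_left₀ (by norm_num) hlam 2
    rw [div_le_div_iff₀ (by positivity) (by norm_num)]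
    norm_num at this ⊢
    linarith only [this]
  have hl20 : 0 ≤ 1 / lam ^ 2 := by positivity
  have k0u : ‖e2 + lam⁻¹ • e3‖ ≤ 101 / 100 := by
    by_contra hcon
    push Not at hcon
    have h5 := pow_lt_pow_left₀ hcon (by norm_num) two_ne_zero
    linarith only [h5, k0n, hl2]
  have k0l : 1 ≤ ‖e2 + lam⁻¹ • e3‖ := by
    by_contra hcon
    push Not at hcon
    have h5 := pow_lt_pow_left₀ hcon (norm_nonneg _) two_ne_zero
    linarith only [h5, k0n, hl20]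
  have ktn : ‖kt‖ ≤ ‖e2 + lam⁻¹ • e3‖ + ep := by
    have := norm_add_le (kt - (e2 + lam⁻¹ • e3)) (e2 + lam⁻¹ • e3)
    rw [sub_add_cancel] at this
    linarith only [hk, this]
  have ktl : ‖e2 + lam⁻¹ • e3‖ - ep ≤ ‖kt‖ := by
    have := norm_sub_le kt (kt - (e2 + lam⁻¹ • e3))
    rw [sub_sub_cancel] at this
    linarith only [hk, this]
  have un : ‖u‖ ≤ 1 + 5 * ep := by
    have := norm_add_le (u - e1) e1
    rw [sub_add_cancel, h1] at this
    linarith only [hu, this]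
  have ul : 1 - 5 * ep ≤ ‖u‖ := by
    have := norm_sub_le u (u - e1)
    rw [sub_sub_cancel, h1] at this
    linarith only [hu, this]
  have hAu : ‖A u‖ ≤ 101 / 100 * b := by
    calc ‖A u‖ ≤ ‖A‖ * ‖u‖ := A.le_opNorm u
      _ ≤ b * (1 + 5 * ep) := by gcongr
      _ ≤ b * (101 / 100) := by gcongr; linarith only [hep1]
      _ = _ := by ring
  have hAu0 : ‖A u - A0 e1‖ ≤ 6 * b * ep := by
    have e : A u - A0 e1 = A (u - e1) + (A - A0) e1 := by
      rw [map_sub, sub_apply]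
      abel
    rw [e]
    have e2 : ‖A (u - e1)‖ ≤ b * (5 * ep) := by
      calc ‖A (u - e1)‖ ≤ ‖A‖ * ‖u - e1‖ := A.le_opNorm _
        _ ≤ b * (5 * ep) := by gcongr
    have e3 : ‖(A - A0) e1‖ ≤ ep := by
      calc ‖(A - A0) e1‖ ≤ ‖A - A0‖ * ‖e1‖ := (A - A0).le_opNorm _
        _ ≤ ep * 1 := by rw [h1]; gcongr
        _ = ep := mul_one _
    have := norm_add_le (A (u - e1)) ((A - A0) e1)
    have h6 : ep ≤ b * ep := le_mul_of_one_le_left hep (by linarith only [hb])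
    linarith only [this, e2, e3, h6]
  refine ⟨?_, ?_, ?_, ?_⟩
  · have e1' : kap * (1 + c / lam) = ⟪e2 + lam⁻¹ • e3, A0 e1⟫ := by
      rw [inner_add_left, real_inner_smul_left, hkap, hc]
      field_simp
    rw [e1']
    refine (inner_near _ _ _ _).trans ?_
    have f1 : ‖kt - (e2 + lam⁻¹ • e3)‖ * ‖A u‖ ≤ ep * (101 / 100 * b) := by gcongr
    have f2 : ‖e2 + lam⁻¹ • e3‖ * ‖A u - A0 e1‖ ≤ 101 / 100 * (6 * b * ep) := by gcongr
    have : 0 ≤ b * ep := by positivity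
    linarith only [this, f1, f2]
  · have e1' : kap * (c * lam - 1) = lam * ⟪cx e1 (e2 + lam⁻¹ • e3), A0 e1⟫ := by
      rw [cx_add_right, cx_smul_right, c12, c13, inner_add_left, real_inner_smul_left,
        inner_neg_left, hkap, hc]
      field_simp
      ring
    rw [e1', ← mul_sub, abs_mul, abs_of_pos hlp]
    refine mul_le_mul_of_nonneg_left ((inner_near _ _ _ _).trans ?_) hlp.le
    have f0 : ‖cx u kt - cx e1 (e2 + lam⁻¹ • e3)‖ ≤ 7 * ep := by
      have e : cx u kt - cx e1 (e2 + lam⁻¹ • e3) = cx (u - e1) kt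
          + cx e1 (kt - (e2 + lam⁻¹ • e3)) := by
        rw [cx_sub_right, sub_eq_add_neg u e1, cx_add_left, cx_neg_left]
        abel
      rw [e]
      have g1 : ‖cx (u - e1) kt‖ ≤ 5 * ep * (102 / 100) := by
        refine (norm_cx_le _ _).trans ?_
        gcongr
        linarith only [hep1, k0u, ktn]
      have g2 : ‖cx e1 (kt - (e2 + lam⁻¹ • e3))‖ ≤ 1 * ep := by
        refine (norm_cx_le _ _).trans ?_
        rw [h1]
        gcongr
      have := norm_add_le (cx (u - e1) kt) (cx e1 (kt - (e2 + lam⁻¹ • e3)))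
      linarith only [un, ul, g1, g2, this]
    have f3 : ‖cx e1 (e2 + lam⁻¹ • e3)‖ ≤ 101 / 100 := by
      refine (norm_cx_le _ _).trans ?_
      rw [h1, one_mul]
      exact k0u
    have f1 : ‖cx u kt - cx e1 (e2 + lam⁻¹ • e3)‖ * ‖A u‖ ≤ 7 * ep * (101 / 100 * b) := by gcongr
    have f2 : ‖cx e1 (e2 + lam⁻¹ • e3)‖ * ‖A u - A0 e1‖ ≤ 101 / 100 * (6 * b * ep) := by gcongr
    have : 0 ≤ b * ep := by positivity
    linarith only [this, f1, f2, mul_le_mul_of_nonneg_right f0 (norm_nonneg (A u))]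
  · rw [← k0n, abs_le]
    constructor
    · have g1 := pow_le_pow_left₀ (by linarith only [k0l, hep1]) ktl 2
      have g2 := mul_le_mul_of_nonneg_right k0u hep
      linarith only [g1, g2, sq_nonneg ep, hep]
    · have g1 := pow_le_pow_left₀ (norm_nonneg kt) ktn 2
      have g2 := mul_le_mul_of_nonneg_right k0u hep
      have g3 := mul_le_mul_of_nonneg_right hep1 hep
      linarith only [g1, g2, g3, hep]
  · rw [abs_le]
    constructor <;> linarith only [ul, un]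

theorem mul_near1 {y w io ro mu : ℝ} (hro : 0 ≤ ro) (hro1 : ro ≤ 1 / 10 ^ 6) (hio : 0 ≤ io)
    (hmu : ro * 100 ≤ mu) (hy : |y - 1| ≤ io + 3 * ro) (hw : |w - 1| ≤ 12 * ro) :
    |y * w - 1| ≤ 101 / 100 * io + mu := by
  have e : y * w - 1 = (y - 1) * w + (w - 1) := by ring
  have hw' := abs_le.1 hw
  norm_num at hro1
  have h1 : |w| ≤ 101 / 100 := by
    rw [abs_le]
    constructor <;> linarith only [hw', hro1]
  rw [e]
  refine (abs_add_le _ _).trans ?_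
  rw [abs_mul]
  have h2 : |y - 1| * |w| ≤ (io + 3 * ro) * (101 / 100) :=
    mul_le_mul hy h1 (abs_nonneg _) (by linarith only [hro, hio])
  linarith only [hro, hmu, hw, h2]

theorem sq_near1 {w ro : ℝ} (hro1 : ro ≤ 1 / 10 ^ 6) (hw : |w - 1| ≤ 5 * ro) :
    |w ^ 2 - 1| ≤ 12 * ro := by
  have e : w ^ 2 - 1 = (w - 1) * (w + 1) := by ring
  have hw' := abs_le.1 hw
  norm_num at hro1
  have h0 : 0 ≤ 5 * ro := (abs_nonneg _).trans hw
  have h1 : |w + 1| ≤ 201 / 100 := by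
    rw [abs_le]
    constructor <;> linarith only [hw', hro1]
  rw [e, abs_mul]
  have h2 : |w - 1| * |w + 1| ≤ (5 * ro) * (201 / 100) := mul_le_mul hw h1 (abs_nonneg _) h0
  linarith only [h0, h2]

theorem sqrt_near1 {y io ro : ℝ} (hy : 0 ≤ y) (h : |y ^ 2 - (1 + io)| ≤ 3 * ro) (hio : 0 ≤ io) :
    |y - 1| ≤ io + 3 * ro := by
  have h' := abs_le.1 h
  have e1 : (y - 1) * (y + 1) = y ^ 2 - 1 := by ring
  have e2 : |y - 1| * (y + 1) = |y ^ 2 - 1| := by
    rw [← e1, abs_mul, abs_of_pos (by linarith only [hy] : (0 : ℝ) < y + 1)]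
  have e3 : |y ^ 2 - 1| ≤ io + 3 * ro := by
    rw [abs_le]
    constructor <;> linarith only [hio, h']
  have e4 : |y - 1| * 1 ≤ |y - 1| * (y + 1) := by
    gcongr
    linarith only [hy]
  linarith only [e2, e3, e4]

theorem jq_near {j qh X : ℝ} (hj2 : j ^ 2 ≤ 42 / 10 * X) (hq2 : qh ^ 2 ≤ 9 / 4) :
    |j * (qh - j / 2)| ≤ 9 / 4 + 32 / 10 * X := by
  rw [abs_le]
  constructor
  · linarith only [sq_nonneg (qh + j / 2), sq_nonneg j, hj2, hq2]
  · linarith only [sq_nonneg (qh - j / 2), sq_nonneg j, hj2, hq2]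

theorem prod_near1 {G F ro : ℝ} (hro : 0 ≤ ro) (hro1 : ro ≤ 1 / 10 ^ 6) (hG : |G - 1| ≤ ro / 10)
    (hF : |F - 1| ≤ ro / 10) : |G * F - 1| ≤ ro := by
  have e : G * F - 1 = (G - 1) * F + (F - 1) := by ring
  have hF' := abs_le.1 hF
  norm_num at hro1
  have h1 : |F| ≤ 101 / 100 := by
    rw [abs_le]
    constructor <;> linarith only [hF', hro1]
  rw [e]
  refine (abs_add_le _ _).trans ?_
  rw [abs_mul]
  have h2 : |G - 1| * |F| ≤ (ro / 10) * (101 / 100) :=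
    mul_le_mul hG h1 (abs_nonneg _) (by linarith only [hF'])
  linarith only [hF, hF', h2]

end ClA

namespace LevD

open ClA

variable {D : LevD}

/-! ### The closing -/

theorem Kin.ro_pos (h : D.Kin) : 0 < D.ro := by
  unfold ro
  have := h.toFlo.h_pos
  positivity

theorem Kin.ro_h (h : D.Kin) {k : ℕ} (hk : k ≤ 5) : D.ro * D.h ^ k ≤ 1 / 10 ^ 100 := by
  have hp := h.toFlo.h_pos
  have h1 := h.h_big
  have h2 : D.ro * D.h ^ k * D.h ≤ 1 := by
    unfold ro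
    rw [mul_assoc, ← pow_succ, inv_mul_le_iff₀ (by positivity), mul_one]
    exact pow_le_pow_right₀ h.h1 (by omega)
  have h3 : 0 ≤ D.ro * D.h ^ k := by
    have := h.ro_pos
    positivity
  rw [le_div_iff₀ (by positivity)]
  calc D.ro * D.h ^ k * 10 ^ 100 ≤ D.ro * D.h ^ k * D.h := by gcongr
    _ ≤ 1 := h2

theorem Kin.uu_ro (h : D.Kin) {t : ℝ} (ht : t ∈ D.Iw) : 100 * D.uu D.b t ≤ D.ro := by
  have h1 := h.uu_w ht
  have h2 := h.w_ro (k := 1) (m := 2) (by norm_num)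
  norm_num at h2
  linarith only [h1, h2]

theorem Kin.f_ro (h : D.Kin) {t : ℝ} (ht : t ∈ D.Iw) : |⟪D.v t, D.B t⟫ / D.a - 1| ≤ D.ro / 10 := by
  have hu := h.uu_ro ht
  have hu0 := h.toFlo.uu_nonneg t
  have hr := h.ro_pos
  have ha := h.toFlo.a_pos
  have hro := h.ro_h (k := 0) (by norm_num)
  have hB := h.toFlo.B_up (h.nr ht)
  have h1 := h.toFlo.v_near (h.nr ht)
  have h2 := h.toFlo.B_near (h.nr ht)
  have h3 := inner_near (D.v t) (D.a • D.e1) (D.B t) D.e1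
  rw [real_inner_smul_left, real_inner_self_eq_norm_sq, norm_smul, h.toFlo.e1_norm,
    Real.norm_eq_abs, abs_of_pos ha] at h3
  have h4 : ‖D.B t‖ ≤ 101 / 100 := by
    norm_num at hro
    linarith only [hu, hB, hro]
  have h5 : |⟪D.v t, D.B t⟫ - D.a| ≤ D.a * (D.ro / 10) := by
    have e : D.a * 1 ^ 2 = D.a := by ring
    rw [e] at h3
    refine h3.trans ?_
    have f1 : ‖D.v t - D.a • D.e1‖ * ‖D.B t‖ ≤ (6 * D.uu D.b t * D.a) * (101 / 100) := by gcongr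
    have f2 : D.a * 1 * ‖D.B t - D.e1‖ ≤ D.a * 1 * (2 * D.uu D.b t) := by gcongr
    have f3 : (6 * D.uu D.b t * D.a) * (101 / 100) + D.a * 1 * (2 * D.uu D.b t) =
      D.a * (806 / 100 * D.uu D.b t) := by ring
    have f4 : D.a * (806 / 100 * D.uu D.b t) ≤ D.a * (D.ro / 10) := by
      gcongr
      linarith only [hu, hu0]
    linarith only [f1, f2, f4]
  have e2 : ⟪D.v t, D.B t⟫ / D.a - 1 = (⟪D.v t, D.B t⟫ - D.a) / D.a := by
    field_simp
  rw [e2, abs_div, abs_of_pos ha, div_le_iff₀ ha]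
  linarith only [h5]

theorem Kin.cg_near (h : D.Kin) {t : ℝ} (ht : t ∈ Icc D.t0 D.T) :
    |D.c * D.g t - D.j 1 t ^ 2 / 4| ≤ (D.h ^ 3)⁻¹ := by
  have htI := Lb.mem_Iw h ht
  have h1 := h.j_near htI
  have h2 := h.toFlo.g_rel (h.Iw_sub htI) (h.nr htI)
  have h3 := Lb.P_le h ht
  have hc := h.toFlo.c_pos
  have hc1 := h.toFlo.c_le
  have hack := h.toFlo.ack_pos
  have her0 := h.toFlo.er1_nonneg t
  have her := h.er1_w htI
  have hw := h.w_ro (k := 3) (m := 3) (by norm_num)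
  have hp := h.toFlo.h_pos
  have hro := h.ro_pos
  set P := D.a * D.c * D.kap * (t - D.t0) ^ 2 with hP
  have hP0 : 0 ≤ P := by positivity
  have e1 : D.c * D.g t - D.j 1 t ^ 2 / 4 = D.c * (D.g t - P) - (D.j 1 t ^ 2 / 4 - D.c * P) := by
    ring
  have her2 : 10 * D.er1 D.b t ≤ D.ro := by
    have : 0 ≤ D.b ^ 3 * D.w := by
      have := h.w_pos
      have := h.b_ge'
      positivity
    norm_num at hw
    linarith only [hw, her, this]
  have e2 : |D.c * (D.g t - P)| ≤ D.er1 D.b t * P := by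
    rw [abs_mul, abs_of_pos hc]
    calc D.c * |D.g t - P| ≤ 1 * (D.er1 D.b t * P) := by gcongr
      _ = _ := one_mul _
  have e3 : |D.j 1 t ^ 2 / 4 - D.c * P| ≤ 11 / 10 * D.er1 D.b t * P := by
    refine h1.trans ?_
    have : D.c * P ≤ 1 * P := by gcongr
    calc 11 / 10 * D.er1 D.b t * (D.c * P) ≤ 11 / 10 * D.er1 D.b t * (1 * P) := by gcongr
      _ = _ := by ring
  rw [e1]
  refine (abs_sub _ _).trans ((add_le_add e2 e3).trans ?_)
  have e4 : D.er1 D.b t * P ≤ D.ro / 10 * (1.01 * D.h) := by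
    refine mul_le_mul (by linarith only [her2]) h3 hP0 (by positivity)
  have e5 : D.ro * D.h ≤ (D.h ^ 3)⁻¹ := by
    unfold ro
    rw [inv_mul_le_iff₀ (by positivity), ← div_eq_mul_inv, le_div_iff₀ (by positivity),
      ← pow_succ']
    exact pow_le_pow_right₀ h.h1 (by norm_num)
  have e6 : 0 ≤ D.ro * D.h := by positivity
  linarith only [e4, e5, e6]

theorem Kin.de_Q (h : D.Kin) {t : ℝ} (ht : t ∈ Icc D.t0 D.T) {q : ℝ} (hq : q ^ 2 ≤ 9 / 4) :
    D.de * |q - D.j 1 t / 2| ≤ D.ro := by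
  have htI := Lb.mem_Iw h ht
  have hj := h.j_sq' htI
  have hl := Lb.lam1_h h ht
  have hc := h.toFlo.c_pos
  have hct := h.c_tiny
  have hp := h.toFlo.h_pos
  have hbig := h.h_big
  have ha := h.toFlo.a_pos
  have hkap := h.toFlo.kap_le
  have hro := h.ro_pos
  have hde := h.toFlo.de_pos
  have hlp := h.lam1_pos htI
  have h1 : (q - D.j 1 t / 2) ^ 2 ≤ D.h := by
    have e1 : (q - D.j 1 t / 2) ^ 2 ≤ 2 * q ^ 2 + D.j 1 t ^ 2 / 2 := by
      linarith only [sq_nonneg (q + D.j 1 t / 2)]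
    have e2 : D.c * D.lam1 t ≤ 1 / 10 ^ 12 * (2 * D.h) := by gcongr
    have e3 : (100 : ℝ) ≤ 10 ^ 100 := by norm_num
    norm_num at e2 hct
    linarith only [hq, hj, hbig, e1, e2]
  have h2 : (D.de * |q - D.j 1 t / 2|) ^ 2 ≤ D.ro ^ 2 := by
    rw [mul_pow, sq_abs, h.toFlo.de_sq]
    have e1 : D.kap / D.a ≤ 2 / D.a := by gcongr
    calc D.kap / D.a * (q - D.j 1 t / 2) ^ 2 ≤ 2 / D.a * D.h := by gcongr
      _ = 2 * D.h / D.h ^ 24 := by
          unfold a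
          ring
      _ ≤ D.ro ^ 2 := by
          unfold ro
          rw [inv_pow, ← pow_mul, div_le_iff₀ (by positivity), ← div_eq_inv_mul,
            le_div_iff₀ (by positivity)]
          have e2 : (2 : ℝ) ≤ D.h := le_trans (by norm_num) hbig
          calc 2 * D.h * D.h ^ (6 * 2) ≤ D.h * D.h * D.h ^ (6 * 2) := by gcongr
            _ = D.h ^ 14 := by ring
            _ ≤ D.h ^ 24 := pow_le_pow_right₀ h.h1 (by norm_num)
  exact (pow_le_pow_iff_left₀ (by positivity) hro.le (by norm_num)).1 h2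

/-- The hypotheses on the wave at one time of `[t0, T]`. -/
structure At1 (D : LevD) (W : ℝ → E3) (t : ℝ) : Prop where
  orth : ⟪D.fam.K 1 t, W t⟫ = 0
  Y : 0 < D.Y 1 W t
  Z : |D.Z 1 W t - D.mc * D.Y 1 W t| ≤ 3 * D.eta * D.Y 1 W t

theorem Kin.eta_pos (h : D.Kin) : 0 < D.eta := by
  unfold eta
  have := h.k0_pos
  have := h.k2_pos
  have := h.sqck_pos
  have := h.toFlo.c_pos
  have := h.toFlo.h_pos
  positivity

/-- `1 / lam² + c / lam + 1 / h ≤ 2 eta` -/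
theorem Kin.small_eta (h : D.Kin) {t : ℝ} (ht : t ∈ Icc D.t0 D.T) :
    1 / D.lam1 t ^ 2 ≤ D.eta / 10 ^ 3 ∧ D.c / D.lam1 t ≤ D.eta / 10 ^ 3 ∧ (D.h)⁻¹ ≤ D.eta := by
  have htI := Lb.mem_Iw h ht
  have hk0 := h.k0_pos
  have hk2 := h.k2_pos
  have hsq := h.sqck_pos
  have hsq1 := h.sqck_small
  have hc := h.toFlo.c_pos
  have hp := h.toFlo.h_pos
  have hl := h.lam1_k0 htI
  have hck := h.ck0_small
  have h1 : 10 ^ 6 / D.k0 ^ 2 ≤ 100 / (D.k0 ^ 2 * Real.sqrt (D.c * D.k0)) := by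
    rw [div_le_div_iff₀ (by positivity) (by positivity)]
    have : 10 ^ 6 * Real.sqrt (D.c * D.k0) ≤ 100 := by
      norm_num at hsq1 ⊢
      linarith only [hsq1]
    have h2 : 0 < D.k0 ^ 2 := by positivity
    have h3 := mul_le_mul_of_nonneg_left this h2.le
    linarith only [h3]
  have h2 : 10 ^ 6 / D.k0 ^ 2 ≤ D.eta := by
    unfold eta
    have : 0 ≤ D.k0 / D.k2 + 100 * D.c / D.k2 + (D.h)⁻¹ := by positivity
    linarith only [h1, this]
  have hlp : 0 < D.lam1 t := h.lam1_pos htI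
  have h3 : 1 / D.lam1 t ^ 2 ≤ 2 / D.k0 ^ 2 := by
    rw [div_le_div_iff₀ (by positivity) (by positivity)]
    have : (0.99 * D.k0) ^ 2 ≤ D.lam1 t ^ 2 := by gcongr
    linarith only [this, sq_nonneg D.k0]
  have h4 : D.c / D.lam1 t ≤ 2 / D.k0 ^ 2 := by
    rw [div_le_div_iff₀ (by positivity) (by positivity)]
    have e1 : D.c * D.k0 ^ 2 = (D.c * D.k0) * D.k0 := by ring
    rw [e1]
    have e2 : (D.c * D.k0) * D.k0 ≤ 1 / 10 ^ 8 * D.k0 := by gcongr
    norm_num at e2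
    linarith only [hl, hlp, e2]
  have h5 : 2 / D.k0 ^ 2 ≤ D.eta / 10 ^ 3 := by
    have : 2 / D.k0 ^ 2 = (10 ^ 6 / D.k0 ^ 2) * (2 / 10 ^ 6) := by ring
    have h6 := h.eta_pos
    rw [this]
    calc (10 ^ 6 / D.k0 ^ 2) * (2 / 10 ^ 6) ≤ D.eta * (2 / 10 ^ 6) := by gcongr
      _ ≤ _ := by
          have : D.eta * (2 / 10 ^ 6) = D.eta / 10 ^ 3 * (2 / 10 ^ 3) := by ring
          rw [this]
          have h7 : 0 < D.eta / 10 ^ 3 := by positivity
          linarith only [h7]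
  refine ⟨h3.trans h5, h4.trans h5, ?_⟩
  unfold eta
  have : 0 ≤ 100 / (D.k0 ^ 2 * Real.sqrt (D.c * D.k0)) + D.k0 / D.k2 + 100 * D.c / D.k2 := by
    positivity
  linarith only [this]

/-- CL1 and CL2 for a wave at one time. -/
theorem Kin.close (h : D.Kin) {W : ℝ → E3} {t : ℝ} (ht : t ∈ Icc D.t0 D.T)
    (hW : D.At1 W t) : W t ≠ 0 ∧
    |⟪D.fam.K 1 t, D.fam.M 1 t (W t)⟫ / (‖D.fam.K 1 t‖ * ‖W t‖) - D.kap| ≤
      50 * D.kap * (D.c / D.lam1 t + 1 / D.lam1 t ^ 2 + (D.h)⁻¹) ∧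
    |⟪cx (W t) (D.fam.K 1 t), D.fam.M 1 t (W t)⟫ / (‖D.fam.K 1 t‖ * ‖W t‖ ^ 2)
      - D.kap / D.lam1 t| ≤ 50 * D.eta * (D.kap / D.lam1 t) := by
  have htI := Lb.mem_Iw h ht
  have htT := h.Iw_sub htI
  have hnr := h.nr htI
  have hk := h.toFlo.kap_pos
  have hk1 := h.toFlo.kap_ge
  have ha := h.toFlo.a_pos
  have hc := h.toFlo.c_pos
  have hct := h.c_tiny
  have hp := h.toFlo.h_pos
  have hbig := h.h_big
  have hh1 := h.h1
  have hro := h.ro_pos
  have hb := h.b_ge'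
  have hbro : 100 * D.b ≤ D.h := by
    have := h.ten_le (k := 1) (m := 2) (by norm_num)
    norm_num at this
    exact this
  have hro1 : D.ro ≤ 1 / 10 ^ 6 := by
    have := h.ro_h (k := 0) (by norm_num)
    rw [pow_zero, mul_one] at this
    refine this.trans ?_
    norm_num
  have hlam := h.Sl_big (al := 1) le_rfl htI
  rw [Sl_one] at hlam
  have hlp : 0 < D.lam1 t := by linarith only [hlam]
  have hlh := Lb.lam1_h h ht
  have hu := h.uu_ro htI
  have hu0 := h.toFlo.uu_nonneg t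
  have hde := h.toFlo.de_pos
  have heta := h.eta_le
  have heta0 := h.eta_pos
  -- the ratio
  set p := ⟪W t, D.B t⟫ with hpdef
  have hpe : -D.fam.p W t = p := by
    unfold FamD.p
    rw [Flo.famD, inner_neg_right, neg_neg]
  have hsl : 0 < Real.sqrt (D.lam1 t) := Real.sqrt_pos.2 hlp
  have hsl2 : Real.sqrt (D.lam1 t) * Real.sqrt (D.lam1 t) = D.lam1 t := Real.mul_self_sqrt hlp.le
  have hYe : D.Y 1 W t = Real.sqrt (D.lam1 t) * p := by
    unfold Y
    rw [Sl_one, hpe]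
  have hp0 : 0 < p := by
    have h1 := hW.Y
    rw [hYe] at h1
    exact (pos_iff_pos_of_mul_pos h1).1 hsl
  have hW0 : W t ≠ 0 := by
    intro h0
    rw [hpdef, h0, inner_zero_left] at hp0
    exact lt_irrefl _ hp0
  set qh := D.Z 1 W t / D.Y 1 W t with hqh
  have hZe : D.Z 1 W t = D.Y 1 W t * qh := by
    rw [hqh]
    field_simp [hW.Y.ne']
  have hqm : |qh - D.mc| ≤ 3 * D.eta := by
    have e : qh - D.mc = (D.Z 1 W t - D.mc * D.Y 1 W t) / D.Y 1 W t := by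
      rw [hqh]
      field_simp [hW.Y.ne']
    rw [e, abs_div, abs_of_pos hW.Y, div_le_iff₀ hW.Y]
    exact hW.Z
  have hm1 := h.mc_lo
  have hm2 := h.mc_hi
  have hqm' := abs_le.1 hqm
  have hq32 : |qh| ≤ 3 / 2 := by
    norm_num at heta
    rw [abs_le]
    constructor <;> linarith only [hm1, hqm', heta, hm2]
  have hq2 : qh ^ 2 ≤ 9 / 4 := by
    have := abs_le.1 hq32
    exact (sq_le_sq' this.1 this.2).trans (by norm_num)
  set j := D.j 1 t with hj
  set K := D.fam.K 1 t with hKdef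
  have hQ : ⟪W t, cx (D.B t) K⟫ / ‖D.B t‖ ^ 2 = D.de * D.lam1 t * p * (qh - j / 2) := by
    have e1 : -D.fam.q 1 W t = ⟪W t, cx (D.B t) K⟫ / ‖D.B t‖ ^ 2 := by
      unfold FamD.q
      rw [Flo.famD, cx_neg_left, inner_neg_right, norm_neg, neg_div, neg_neg]
    have e2 : D.Z 1 W t = -D.fam.q 1 W t / (D.de * Real.sqrt (D.lam1 t)) + j / 2 * D.Y 1 W t := by
      conv_lhs => unfold Z
      rw [Sl_one]
    rw [e1, hZe] at e2
    have e3 : ⟪W t, cx (D.B t) K⟫ / ‖D.B t‖ ^ 2 =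
        D.de * Real.sqrt (D.lam1 t) * (D.Y 1 W t * (qh - j / 2)) := by
      have e4 : ⟪W t, cx (D.B t) K⟫ / ‖D.B t‖ ^ 2 / (D.de * Real.sqrt (D.lam1 t)) =
          D.Y 1 W t * (qh - j / 2) := by linarith only [e2]
      rw [← e4]
      field_simp
    rw [e3, hYe]
    calc D.de * Real.sqrt (D.lam1 t) * (Real.sqrt (D.lam1 t) * p * (qh - j / 2))
        = D.de * (Real.sqrt (D.lam1 t) * Real.sqrt (D.lam1 t)) * p * (qh - j / 2) := by ring
      _ = _ := by rw [hsl2]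
  -- the normalised wave
  set u := p⁻¹ • W t with hudef
  have hWu : W t = p • u := by
    rw [hudef, smul_smul, mul_inv_cancel₀ hp0.ne', one_smul]
  have hfr : Fr (D.B t) (D.n t) (D.xi t) (D.v t) K u (D.lam1 t) := by
    refine ⟨rfl, ?_, h.toFlo.v_orth t, h.toFlo.B_all t, ?_⟩
    · rw [hKdef]
      show D.xi t + D.fam.Sl 1 t • D.n t = _
      rw [Sl_one]
    · rw [hudef, inner_smul_right, hW.orth, mul_zero]
  have hup : ⟪u, D.B t⟫ = 1 := by
    rw [hudef, real_inner_smul_left, ← hpdef, inv_mul_cancel₀ hp0.ne']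
  have huQ : ⟪u, cx (D.B t) K⟫ / ‖D.B t‖ ^ 2 = D.de * D.lam1 t * 1 * (qh - j / 2) := by
    rw [hudef, real_inner_smul_left, mul_div_assoc, hQ]
    field_simp
  set kt := D.n t + (D.lam1 t)⁻¹ • D.xi t with hkt
  have hKk : K = D.lam1 t • kt := by
    rw [hkt, smul_add, smul_smul, mul_inv_cancel₀ hlp.ne', one_smul, hfr.hK, add_comm]
  have hMu : ∀ x, D.fam.M 1 t x = D.A t x + ⟪D.n t, x⟫ • D.v t := by
    intro x
    have := FamD.M_apply (F := D.fam) 1 t x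
    rw [one_mul] at this
    exact this
  -- `phi = - r j`
  have hr := h.toFlo.r_pos
  have hphi : ⟪D.xi t, D.v t⟫ = -(D.r * j) := by
    have e : j = -(1 * D.fam.phi t) / D.r := rfl
    rw [e]
    show D.fam.phi t = _
    field_simp
  have hder : D.de * D.r = D.kap := by
    have e1 : (D.de * D.r) ^ 2 = D.kap ^ 2 := by
      rw [mul_pow, h.toFlo.de_sq, h.toFlo.r_sq]
      field_simp
    exact (pow_left_inj₀ (by positivity) hk.le (by norm_num)).1 e1
  -- norms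
  have hBn := h.toFlo.B_up hnr
  have hBl := h.toFlo.B_lo hnr
  have hBs := abs_le.1 (h.toFlo.Bsq hnr)
  have hns := abs_le.1 (h.toFlo.nsq hnr)
  have hKn : ‖K‖ = D.lam1 t * ‖kt‖ := by
    rw [hKk, norm_smul, Real.norm_eq_abs, abs_of_pos hlp]
  have hktn : ‖kt - (D.e2 + (D.lam1 t)⁻¹ • D.e3)‖ ≤ D.ro := by
    have e : kt - (D.e2 + (D.lam1 t)⁻¹ • D.e3) = (D.n t - D.e2)
        + (D.lam1 t)⁻¹ • (D.xi t - D.e3) := by
      rw [hkt, smul_sub]
      abel
    have h1 := h.toFlo.n_near hnr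
    have h2 := h.toFlo.xi_near hnr
    have hli : (D.lam1 t)⁻¹ ≤ 1 := inv_le_one_of_one_le₀ (by linarith only [hlam])
    have hli0 : 0 < (D.lam1 t)⁻¹ := inv_pos.2 hlp
    rw [e]
    refine (norm_add_le _ _).trans ?_
    rw [norm_smul, Real.norm_eq_abs, abs_of_pos hli0]
    have h3 : (D.lam1 t)⁻¹ * ‖D.xi t - D.e3‖ ≤ 1 * (2 * D.uu D.b t) := by gcongr
    linarith only [hu, hu0, h1, h3]
  have hktl : 999 / 1000 ≤ ‖kt‖ := by
    have e1 : ‖D.e2‖ ≤ ‖kt‖ + ‖(D.lam1 t)⁻¹ • D.e3‖ + ‖kt - (D.e2 + (D.lam1 t)⁻¹ • D.e3)‖ := by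
      have e2 : D.e2 = kt - (D.lam1 t)⁻¹ • D.e3 - (kt - (D.e2 + (D.lam1 t)⁻¹ • D.e3)) := by abel
      conv_lhs => rw [e2]
      exact (norm_sub_le _ _).trans (add_le_add (norm_sub_le _ _) le_rfl)
    rw [h.toFlo.e2_norm, norm_smul, h.toFlo.e3_norm, mul_one, Real.norm_eq_abs,
      abs_of_pos (inv_pos.2 hlp)] at e1
    have hli : (D.lam1 t)⁻¹ ≤ 1 / 9900 := by
      rw [inv_le_comm₀ hlp (by norm_num)]
      linarith only [hlam]
    norm_num at hro1
    linarith only [hktn, e1, hli, hro1]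
  have hktp : 0 < ‖kt‖ := by linarith only [hktl]
  have hun : ‖u - D.e1‖ ≤ 5 * D.ro := by
    have hB0 := hfr.B2
    have hK0 := hfr.K2
    have hd := hfr.dec
    rw [hup] at hd
    have e0 : u - D.e1 = ((‖D.B t‖ ^ 2)⁻¹ • (D.B t - D.e1) + ((‖D.B t‖ ^ 2)⁻¹ - 1) • D.e1)
        + (⟪u, cx (D.B t) K⟫ / (‖D.B t‖ ^ 2 * ‖K‖ ^ 2)) • cx (D.B t) K := by
      conv_lhs => rw [hd]
      rw [one_div]
      module
    have hG : 99 / 100 ≤ ‖D.B t‖ ^ 2 := by
      norm_num at hro1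
      linarith only [hu, hBs, hro1]
    have hGp : 0 < ‖D.B t‖ ^ 2 := by linarith only [hG]
    have hGi : (‖D.B t‖ ^ 2)⁻¹ ≤ 102 / 100 := by
      rw [inv_le_comm₀ hGp (by norm_num)]
      norm_num
      linarith only [hG]
    have hGi0 : 0 < (‖D.B t‖ ^ 2)⁻¹ := inv_pos.2 hGp
    have e1 : ‖(‖D.B t‖ ^ 2)⁻¹ • (D.B t - D.e1)‖ ≤ 102 / 100 * (2 * D.uu D.b t) := by
      rw [norm_smul, Real.norm_eq_abs, abs_of_pos hGi0]
      have := h.toFlo.B_near hnr
      gcongr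
    have e2 : ‖((‖D.B t‖ ^ 2)⁻¹ - 1) • D.e1‖ ≤ 102 / 100 * (5 * D.uu D.b t) := by
      rw [norm_smul, h.toFlo.e1_norm, mul_one, Real.norm_eq_abs]
      have e : (‖D.B t‖ ^ 2)⁻¹ - 1 = (‖D.B t‖ ^ 2)⁻¹ * (1 - ‖D.B t‖ ^ 2) := by
        field_simp
      rw [e, abs_mul, abs_of_pos hGi0, abs_sub_comm]
      have := h.toFlo.Bsq hnr
      gcongr
    have e3 : ‖(⟪u, cx (D.B t) K⟫ / (‖D.B t‖ ^ 2 * ‖K‖ ^ 2)) • cx (D.B t) K‖ ≤
        103 / 100 * D.ro := by
      have f1 : ‖cx (D.B t) K‖ = ‖D.B t‖ * ‖K‖ := by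
        have := norm_cx_sq (D.B t) K
        rw [hfr.BK] at this
        have h2 : ‖cx (D.B t) K‖ ^ 2 = (‖D.B t‖ * ‖K‖) ^ 2 := by rw [this]; ring
        exact (pow_left_inj₀ (norm_nonneg _) (by positivity) (by norm_num)).1 h2
      rw [norm_smul, f1, Real.norm_eq_abs]
      have f2 : ⟪u, cx (D.B t) K⟫ / (‖D.B t‖ ^ 2 * ‖K‖ ^ 2) =
          D.de * D.lam1 t * (qh - j / 2) / ‖K‖ ^ 2 := by
        rw [← div_div, huQ, mul_one]
      rw [f2, abs_div, abs_of_nonneg (sq_nonneg ‖K‖), abs_mul,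
        abs_of_pos (mul_pos hde hlp)]
      have f3 : D.de * D.lam1 t * |qh - j / 2| / ‖K‖ ^ 2 * (‖D.B t‖ * ‖K‖) =
          (D.de * |qh - j / 2|) * (‖D.B t‖ / ‖kt‖) := by
        rw [hKn]
        have := hktp.ne'
        field_simp
      rw [f3]
      have f4 : ‖D.B t‖ / ‖kt‖ ≤ 103 / 100 := by
        rw [div_le_iff₀ hktp]
        norm_num at hro1
        linarith only [hu, hBn, hktl, hro1]
      have f5 := h.de_Q ht hq2
      rw [mul_comm]
      exact mul_le_mul f4 f5 (by positivity) (by norm_num)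
    rw [e0]
    refine (norm_add_le _ _).trans ((add_le_add ((norm_add_le _ _).trans (add_le_add e1 e2))
      e3).trans ?_)
    linarith only [hro, hu]
  obtain ⟨v1, v2, v3, v4⟩ := vec (lam := D.lam1 t) h.toFlo.e1_norm h.toFlo.e2_norm h.toFlo.e1_e2
    rfl hb hro.le (by norm_num at hro1 ⊢; linarith only [hro1]) (by linarith only [hlam]) (h.toFlo.A_le t)
    ((h.toFlo.A_near t).trans (by linarith only [hu, hu0])) hun hktn rfl h.toFlo.ctau
  -- parameters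
  set lam := D.lam1 t with hlamdef
  set io := 1 / lam ^ 2 with hio
  set X := D.c * lam with hX
  set mu := (D.h ^ 3)⁻¹ with hmu
  have hmu0 : 0 < mu := by positivity
  have hio0 : 0 < io := by positivity
  have hX0 : 0 < X := by positivity
  have hio1 : io ≤ 1 / 10 ^ 6 := by
    rw [hio, div_le_div_iff₀ (by positivity) (by norm_num)]
    have : (1000 : ℝ) ^ 2 ≤ lam ^ 2 := pow_le_pow_left₀ (by norm_num) (by linarith only [hlam]) 2
    norm_num at this ⊢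
    linarith only [this]
  have hXio : X * io = D.c / lam := by
    rw [hX, hio]
    field_simp
  have hmuh : mu * D.h ≤ 1 / 10 ^ 6 ∧ mu * D.h ≤ (D.h)⁻¹ ∧ mu ≤ 1 / 10 ^ 6 := by
    have e1 : mu * D.h * D.h ^ 2 = 1 := by
      rw [hmu]
      field_simp
    have e2 : (D.h)⁻¹ * D.h = 1 := inv_mul_cancel₀ hp.ne'
    have e3 : (10 : ℝ) ^ 6 ≤ D.h := le_trans (by norm_num) hbig
    have e4 : mu * D.h = (D.h ^ 2)⁻¹ := by
      rw [hmu]
      field_simp
    have e5 : (D.h ^ 2)⁻¹ ≤ (D.h)⁻¹ := by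
      rw [inv_le_inv₀ (by positivity) hp]
      exact le_self_pow₀ hh1 (by norm_num)
    have e6 : (D.h)⁻¹ ≤ 1 / 10 ^ 6 := by
      rw [inv_le_comm₀ hp (by norm_num)]
      norm_num at e3 ⊢
      linarith only [e3]
    refine ⟨by linarith only [e4, e5, e6], by linarith only [e4, e5], ?_⟩
    have : mu ≤ mu * D.h := le_mul_of_one_le_right hmu0.le hh1
    linarith only [e4, e5, e6, this]
  obtain ⟨hm1', hm2', hm3'⟩ := hmuh
  have hroh : D.ro * D.h ^ 3 = mu := by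
    unfold ro
    rw [hmu]
    field_simp
  have hro_mu : D.ro * 100 ≤ mu := by
    rw [← hroh]
    have : (100 : ℝ) ≤ D.h ^ 3 := by
      calc (100 : ℝ) ≤ D.h := le_trans (by norm_num) hbig
        _ ≤ D.h ^ 3 := le_self_pow₀ hh1 (by norm_num)
    gcongr
  have hbro_mu : 100 * D.b * D.ro ≤ mu := by
    calc 100 * D.b * D.ro ≤ D.h * D.ro := by gcongr
      _ ≤ D.h ^ 3 * D.ro := by
          gcongr
          exact le_self_pow₀ hh1 (by norm_num)
      _ = mu := by rw [← hroh]; ring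
  have hlbro : lam * (14 * D.b * D.ro) ≤ mu / 2 := by
    calc lam * (14 * D.b * D.ro) ≤ (2 * D.h) * (14 * D.b * D.ro) := by gcongr
      _ = D.h * (28 * D.b) * D.ro := by ring
      _ ≤ D.h * D.h * D.ro := by
          gcongr
          linarith only [hb, hbro]
      _ ≤ D.h * D.h * D.ro * (D.h / 2) := by
          have : (1 : ℝ) ≤ D.h / 2 := by
            have : (2 : ℝ) ≤ D.h := le_trans (by norm_num) hbig
            linarith only [this]
          exact le_mul_of_one_le_right (by positivity) this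
      _ = mu / 2 := by rw [← hroh]; ring
  set y := ‖kt‖ with hy
  set w := ‖u‖ with hw
  have v3' := abs_le.1 v3
  have v4' := abs_le.1 v4
  have hyu : |y - 1| ≤ io + 3 * D.ro := sqrt_near1 hktp.le v3 hio0.le
  have hyu' := abs_le.1 hyu
  have hwp : 0 < w := by
    norm_num at hro1
    linarith only [v4', hro1]
  have hro1' := hro1
  norm_num at hro1 hio1 hm1' hm3'
  have hz1 : |y * w - 1| ≤ 101 / 100 * io + mu :=
    mul_near1 hro.le hro1' hio0.le hro_mu hyu (v4.trans (by linarith only [v4']))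
  have hz2 : |y * w ^ 2 - 1| ≤ 101 / 100 * io + mu :=
    mul_near1 hro.le hro1' hio0.le hro_mu hyu (sq_near1 hro1' v4)
  have hy2 : 999 / 1000 ≤ y ^ 2 := by linarith only [v3', hyu', hro1]
  have hy2p : 0 < y ^ 2 := by linarith only [hy2]
  have hy2i : (y ^ 2)⁻¹ ≤ 1002 / 1000 := by
    rw [inv_le_comm₀ hy2p (by norm_num)]
    norm_num
    linarith only [hy2]
  have hy2i0 : 0 < (y ^ 2)⁻¹ := inv_pos.2 hy2p
  have hj2 : j ^ 2 ≤ 42 / 10 * X := h.j_sq' htI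
  have hjQ : |j * (qh - j / 2)| ≤ 9 / 4 + 32 / 10 * X := jq_near hj2 hq2
  refine ⟨hW0, ?_, ?_⟩
  · -- kap
    have e1 : ⟪K, D.fam.M 1 t (W t)⟫ / (‖K‖ * ‖W t‖) =
        (⟪kt, D.A t u⟫ + D.kap * (‖D.B t‖ ^ 2 / (lam ^ 2 * y ^ 2)) * (j * (qh - j / 2))) /
          (y * w) := by
      have f1 := hfr.num1 (D.A t) (p := 1) hder hphi huQ
      have f2 : ⟪K, D.fam.M 1 t (W t)⟫ = p * (⟪K, D.A t u⟫ +
          1 * D.kap * (lam * ‖D.B t‖ ^ 2 / ‖K‖ ^ 2) * (j * (qh - j / 2))) := by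
        rw [← f1, ← hMu, hWu, map_smul, inner_smul_right]
      have f3 : ⟪K, D.A t u⟫ = lam * ⟪kt, D.A t u⟫ := by
        rw [hKk, real_inner_smul_left]
      have f4 : ‖W t‖ = p * w := by
        rw [hWu, norm_smul, Real.norm_eq_abs, abs_of_pos hp0]
      rw [f2, f3, f4, hKn]
      have := hktp.ne'
      have := hwp.ne'
      field_simp
    rw [e1]
    have hG : |‖D.B t‖ ^ 2 / y ^ 2| ≤ 103 / 100 := by
      rw [abs_of_nonneg (by positivity), div_le_iff₀ hy2p]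
      linarith only [hu, hBs, hro1, hy2]
    have r1 := real1 (T := ⟪kt, D.A t u⟫) (y := y) (z := y * w) (G := ‖D.B t‖ ^ 2) (lam := lam)
      (c := D.c) (j := j) (Qh := qh - j / 2) (io := io) (X := X) (mu := mu) hk hio0.le
      (by linarith only [hio1]) hX0.le hmu0.le (by linarith only [hm3']) rfl hXio.symm
      (by rw [hXio]; have := (h.small_eta ht).2.1; norm_num at this heta; linarith only [this, heta])
      (by
        rw [hXio]
        refine v1.trans ?_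
        have : 1 / 2 * mu ≤ D.kap * mu := by gcongr
        linarith only [hro_mu, hbro_mu, v4', this])
      hz1 hG hjQ
    refine r1.trans ?_
    rw [hXio]
    have e2 : mu ≤ (D.h)⁻¹ := by
      have : mu ≤ mu * D.h := le_mul_of_one_le_right hmu0.le hh1
      linarith only [hm2', this]
    have e3 : 0 ≤ D.c / lam := by positivity
    have e4 : 6 * (D.c / lam + io + mu) ≤ 50 * (D.c / lam + io + (D.h)⁻¹) := by
      have : 0 ≤ (D.h)⁻¹ := by positivity
      linarith only [hro_mu, hyu', e2, e3, this]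
    calc D.kap * (6 * (D.c / lam + io + mu)) ≤ D.kap * (50 * (D.c / lam + io + (D.h)⁻¹)) := by
          gcongr
      _ = _ := by ring
  · -- c
    set R2 := ⟪kt, D.n t⟫ / y ^ 2 with hR2
    set R1 := ‖D.B t‖ ^ 2 / y ^ 2 * (⟪D.v t, D.B t⟫ / D.a) with hR1
    set S := lam * ⟪cx u kt, D.A t u⟫ / D.kap + R2 * (j * (qh - j / 2))
      + R1 * (qh - j / 2) ^ 2 with hS
    have e1 : ⟪cx (W t) K, D.fam.M 1 t (W t)⟫ / (‖K‖ * ‖W t‖ ^ 2) =
        D.kap / lam * (S / (y * w ^ 2)) := by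
      have f1 := hfr.num2 (D.A t) ha.ne' hup hder h.toFlo.de_sq hphi huQ
      have f2 : ⟪cx (W t) K, D.fam.M 1 t (W t)⟫ = p ^ 2 * ⟪cx u K, D.A t u + ⟪D.n t, u⟫ • D.v t⟫ := by
        rw [← hMu, hWu, map_smul, cx_smul_left, real_inner_smul_left, inner_smul_right]
        ring
      have f3 : ⟪cx u K, D.A t u⟫ = lam * ⟪cx u kt, D.A t u⟫ := by
        rw [hKk, cx_smul_right, real_inner_smul_left]
      have f4 : ‖W t‖ = p * w := by
        rw [hWu, norm_smul, Real.norm_eq_abs, abs_of_pos hp0]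
      have f5 : ⟪K, D.n t⟫ = lam * ⟪kt, D.n t⟫ := by
        rw [hKk, real_inner_smul_left]
      rw [f2, f1, f3, f4, f5, hKn, hS, hR1, hR2]
      have := hktp.ne'
      have := hwp.ne'
      field_simp
      ring
    have hfro := h.f_ro htI
    have hfro' := abs_le.1 hfro
    have hR1n : |R1 - 1| ≤ 102 / 100 * io + mu := by
      have f1 : R1 - 1 = (‖D.B t‖ ^ 2 * (⟪D.v t, D.B t⟫ / D.a) - y ^ 2) * (y ^ 2)⁻¹ := by
        rw [hR1]
        field_simp
      have f2 : |‖D.B t‖ ^ 2 * (⟪D.v t, D.B t⟫ / D.a) - y ^ 2| ≤ io + 5 * D.ro := by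
        have g1 : |‖D.B t‖ ^ 2 * (⟪D.v t, D.B t⟫ / D.a) - 1| ≤ D.ro :=
          prod_near1 hro.le hro1' ((h.toFlo.Bsq hnr).trans (by linarith only [hu, hu0])) hfro
        have g1' := abs_le.1 g1
        rw [abs_le]
        constructor <;> linarith only [v3', g1', hio0]
      rw [f1, abs_mul, abs_of_pos hy2i0]
      calc |‖D.B t‖ ^ 2 * (⟪D.v t, D.B t⟫ / D.a) - y ^ 2| * (y ^ 2)⁻¹
          ≤ (io + 5 * D.ro) * (1002 / 1000) := by gcongr
        _ ≤ _ := by linarith only [hro_mu, v4', hyu']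
    have hR2n : |R2 - 1| ≤ 102 / 100 * io + mu := by
      have f1 : R2 - 1 = (⟪kt, D.n t⟫ - y ^ 2) * (y ^ 2)⁻¹ := by
        rw [hR2]
        field_simp
      have f2 : |⟪kt, D.n t⟫ - y ^ 2| ≤ io + 5 * D.ro := by
        have g0 : ⟪kt, D.n t⟫ = ‖D.n t‖ ^ 2 + lam⁻¹ * ⟪D.xi t, D.n t⟫ := by
          rw [hkt, inner_add_left, real_inner_smul_left, real_inner_self_eq_norm_sq]
        have g1 : |lam⁻¹ * ⟪D.xi t, D.n t⟫| ≤ 5 * D.uu D.b t := by
          rw [abs_mul, abs_of_pos (inv_pos.2 hlp)]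
          have hli : lam⁻¹ ≤ 1 := inv_le_one_of_one_le₀ (by linarith only [hlam])
          have := h.toFlo.xin_near hnr
          calc lam⁻¹ * |⟪D.xi t, D.n t⟫| ≤ 1 * (5 * D.uu D.b t) := by gcongr
            _ = _ := one_mul _
        have g1' := abs_le.1 g1
        rw [g0, abs_le]
        constructor <;> linarith only [hu, hns, v3', g1', hio0]
      rw [f1, abs_mul, abs_of_pos hy2i0]
      calc |⟪kt, D.n t⟫ - y ^ 2| * (y ^ 2)⁻¹ ≤ (io + 5 * D.ro) * (1002 / 1000) := by gcongr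
        _ ≤ _ := by linarith only [hro_mu, v4', hyu']
    have htau : |lam * ⟪cx u kt, D.A t u⟫ / D.kap - (X - 1)| ≤ mu := by
      have f1 : lam * ⟪cx u kt, D.A t u⟫ / D.kap - (X - 1) =
          (lam * ⟪cx u kt, D.A t u⟫ - D.kap * (D.c * lam - 1)) / D.kap := by
        rw [hX]
        field_simp
      rw [f1, abs_div, abs_of_pos hk, div_le_iff₀ hk]
      refine v2.trans (hlbro.trans ?_)
      have : mu * (1 / 2) ≤ mu * D.kap := by gcongr
      linarith only [this]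
    have hcgX : D.c * D.g t = X - D.c * D.k0 := by
      rw [hX, hlamdef, Flo.lam1_eq]
      ring
    have hck := h.ck0_small
    have hck0 := h.ck0_pos
    have r2 := real2 (S := S) (z := y * w ^ 2) (R1 := R1) (R2 := R2) (j := j) (qh := qh) (X := X)
      (cg := D.c * D.g t) (ck := D.c * D.k0) (io := io) (mu := mu)
      (tau := lam * ⟪cx u kt, D.A t u⟫ / D.kap - (X - 1)) hio0.le (by linarith only [hio1]) hX0.le hmu0.le
      (by linarith only [hm3']) hcgX hck0.le (by norm_num at hck ⊢; linarith only [hck]) (by rw [hS]; ring) htau hR1n hR2n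
      (h.cg_near ht) hq32 hj2 hz2
    obtain ⟨s1, s2, s3⟩ := h.small_eta ht
    have hfin : |S / (y * w ^ 2) - 1| ≤ 50 * D.eta := by
      have g1 : |(qh ^ 2 - 1 + D.c * D.k0) - 1| ≤ 9 * D.eta := by
        have g2 : (qh ^ 2 - 1 + D.c * D.k0) - 1 = (qh - D.mc) * (qh + D.mc) := by
          have := h.mc_sq
          linarith [this, (by ring : (qh - D.mc) * (qh + D.mc) = qh ^ 2 - D.mc ^ 2)]
        rw [g2, abs_mul]
        have g3 : |qh + D.mc| ≤ 3 := by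
          have := abs_le.1 hq32
          rw [abs_le]
          constructor <;> linarith only [heta, hm1, hqm', hm2]
        calc |qh - D.mc| * |qh + D.mc| ≤ (3 * D.eta) * 3 := by gcongr
          _ = 9 * D.eta := by ring
      have g4 : mu * (12 + 6 * X) ≤ 18 * D.eta := by
        have g5 : X ≤ D.h := by
          rw [hX]
          calc D.c * lam ≤ (1 / 10 ^ 12) * (2 * D.h) := by gcongr
            _ ≤ D.h := by
                norm_num
                linarith only [hlp, hlh]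
        have g6 : mu * X ≤ mu * D.h := by gcongr
        have g7 : mu ≤ mu * D.h := le_mul_of_one_le_right hmu0.le hh1
        have g9 : mu * (12 + 6 * X) = 12 * mu + 6 * (mu * X) := by ring
        rw [g9]
        linarith only [hm2', s3, g6, g7]
      have g8 : S / (y * w ^ 2) - 1 = (S / (y * w ^ 2) - (qh ^ 2 - 1 + D.c * D.k0))
        + ((qh ^ 2 - 1 + D.c * D.k0) - 1) := by ring
      rw [g8]
      refine (abs_add_le _ _).trans ((add_le_add r2 g1).trans ?_)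
      rw [hXio]
      linarith only [hio0, s1, s2, g4]
    rw [e1]
    have e2 : D.kap / lam * (S / (y * w ^ 2)) - D.kap / lam =
        D.kap / lam * (S / (y * w ^ 2) - 1) := by ring
    have e3 : 0 < D.kap / lam := by positivity
    rw [e2, abs_mul, abs_of_pos e3]
    calc D.kap / lam * |S / (y * w ^ 2) - 1| ≤ D.kap / lam * (50 * D.eta) := by gcongr
      _ = _ := by ring

/-- **CL**: closing of the window. -/
theorem cl : CL := by
  intro D h W hW t ht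
  have hk := h.toKin
  obtain ⟨hY0, hZ0⟩ := h.O2 hW
  have horth : ∀ t ∈ D.Iw, ⟪D.fam.K 1 t, W t⟫ = 0 := fun t ht => h.core_orth hW (hk.Iw_sub ht)
  have hder : ∀ t ∈ D.Iw, HasDerivAt W (kel (D.fam.M 1 t) (D.fam.K 1 t) (W t)) t :=
    fun t ht => hW.der t (hk.Iw_sub ht)
  obtain ⟨hY, hZ⟩ := hk.ratio hk.ck0sq hder horth hY0 hZ0 ht
  exact hk.close ht ⟨horth t (Lb.mem_Iw hk ht), hY, hZ⟩

end LevD

end Pool.Agent.Work.MP_b0497c_an.Unf.O
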