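import Pool.Agent.Work.MP_b0497c_an.Bd.B44
import Pool.Agent.Work.MP_b0497c_an.Bd.B42
import Pool.Agent.Work.MP_b0497c_an.Unf.OClA

set_option autoImplicit false

/-!
# The theorem: finite time blow-up for the Euler equations without force
-/

namespace Pool.Agent.Work.MP_b0497c_an.Unf.A

/-- **The blow-up.** -/
theorem blowup : S.Blowup := blowup_open (ls7 (lsh lse)) O.LevD.cl lh3

end Pool.Agent.Work.MP_b0497c_an.Unf.A
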