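import Pool.Agent.Work.MP_b0497c_an.Unf.KZ0

set_option autoImplicit false

/-!
# Covectors, Kelvin generators at a label, and their perturbation (block K, real labels)

`covec M K` solves `k' = - Mᵀ k`, `k 0 = K`; `kelG M K` is the Kelvin generator; `kelS M K v`
the Kelvin solution with initial value `v`; `FB M a b B`: the flow of `M` and the dual flow are
bounded by `B` on `[a,b]`.
-/

open scoped Topology InnerProductSpace
open Set MeasureTheory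

namespace Pool.Agent.Work.MP_b0497c_an.Unf.K

open Forced.Ode.Linear Forced.Ode

variable {V : Type} [NormedAddCommGroup V] [InnerProductSpace ℝ V] [CompleteSpace V]

/-- The dual generator `-Mᵀ`. -/
noncomputable def dg (M : ℝ → V →L[ℝ] V) (t : ℝ) : V →L[ℝ] V :=
  -(ContinuousLinearMap.adjoint (M t))

/-- The solution of `k' = -Mᵀ k`, `k 0 = K`. -/
noncomputable def covec (M : ℝ → V →L[ℝ] V) (K : V) : ℝ → V :=
  sol (dg M) (fun _ => 0) 0 K

/-- The Kelvin generator of the covector `K` in the flow of `M`. -/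
noncomputable def kelG (M : ℝ → V →L[ℝ] V) (K : V) (t : ℝ) : V →L[ℝ] V :=
  kel (M t) (covec M K t)

/-- The Kelvin solution with initial value `v`. -/
noncomputable def kelS (M : ℝ → V →L[ℝ] V) (K v : V) : ℝ → V :=
  sol (kelG M K) (fun _ => 0) 0 v

theorem dg_cont {M : ℝ → V →L[ℝ] V} (hM : Continuous M) : Continuous (dg M) :=
  ((ContinuousLinearMap.adjoint (𝕜 := ℝ) (E := V) (F := V)).continuous.comp hM).neg

theorem dg_sub_norm (M M' : ℝ → V →L[ℝ] V) (t : ℝ) : ‖dg M t - dg M' t‖ = ‖M t - M' t‖ := by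
  have h : dg M t - dg M' t = -(ContinuousLinearMap.adjoint (M t - M' t)) := by
    rw [dg, dg, map_sub]
    abel
  rw [h, norm_neg, LinearIsometryEquiv.norm_map]

theorem covec_zero (M : ℝ → V →L[ℝ] V) (K : V) : covec M K 0 = K := sol_init _ _ _ _

theorem covec_deriv {M : ℝ → V →L[ℝ] V} (hM : Continuous M) (K : V) (t : ℝ) :
    HasDerivAt (covec M K) (dg M t (covec M K t)) t := by
  have h := sol_deriv (r := fun _ => (0 : V)) (dg_cont hM) continuous_const 0 K t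
  refine h.congr_deriv ?_
  simp [covec]

theorem covec_cont {M : ℝ → V →L[ℝ] V} (hM : Continuous M) (K : V) : Continuous (covec M K) :=
  continuous_iff_continuousAt.2 fun t => (covec_deriv hM K t).continuousAt

omit [CompleteSpace V] in
/-- Uniqueness for homogeneous linear ODEs with a common value at some time. -/
theorem ode_unique {A : ℝ → V →L[ℝ] V} (hA : Continuous A) {x y : ℝ → V} (t0 : ℝ)
    (h0 : x t0 = y t0) (hx : ∀ t, HasDerivAt x (A t (x t)) t)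
    (hy : ∀ t, HasDerivAt y (A t (y t)) t) : x = y :=
  prf_StUnique V A (fun _ => 0) hA t0 x y h0 (fun t => by simpa using hx t)
    (fun t => by simpa using hy t)

theorem covec_ne_zero {M : ℝ → V →L[ℝ] V} (hM : Continuous M) {K : V} (hK : K ≠ 0) (t : ℝ) :
    covec M K t ≠ 0 := by
  intro h
  have h1 : covec M K = fun _ => (0 : V) :=
    ode_unique (dg_cont hM) t h (covec_deriv hM K) (fun s => by
      simpa using hasDerivAt_const s (0 : V))
  apply hK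
  rw [← covec_zero M K, h1]

theorem covec_smul {M : ℝ → V →L[ℝ] V} (hM : Continuous M) (c : ℝ) (K : V) (t : ℝ) :
    covec M (c • K) t = c • covec M K t := by
  have h : covec M (c • K) = fun t => c • covec M K t :=
    ode_unique (dg_cont hM) 0 (by simp [covec_zero]) (covec_deriv hM _) (fun s => by
      have h := (covec_deriv hM K s).fun_const_smul c
      refine h.congr_deriv ?_
      simp)
  rw [h]

omit [CompleteSpace V] in
theorem kel_smul (M : V →L[ℝ] V) {c : ℝ} (hc : c ≠ 0) (k : V) : kel M (c • k) = kel M k := by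
  ext x
  rcases eq_or_ne k 0 with rfl | hk
  · simp
  have hk' : ‖k‖ ≠ 0 := norm_ne_zero_iff.2 hk
  rw [kel_apply, kel_apply, inner_smul_left, norm_smul, mul_pow, smul_smul]
  congr 2
  simp only [conj_trivial, Real.norm_eq_abs, sq_abs]
  field_simp

theorem kelG_smul {M : ℝ → V →L[ℝ] V} (hM : Continuous M) {c : ℝ} (hc : c ≠ 0) (K : V) :
    kelG M (c • K) = kelG M K := by
  funext t
  rw [kelG, kelG, covec_smul hM, kel_smul _ hc]

omit [CompleteSpace V] in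
theorem kel_cont {M : ℝ → V →L[ℝ] V} {k : ℝ → V} (hM : Continuous M) (hk : Continuous k)
    (hk0 : ∀ t, k t ≠ 0) : Continuous fun t => kel (M t) (k t) := by
  unfold kel
  have h2 : ∀ t, ‖k t‖ ^ 2 ≠ 0 := fun t => by simpa using hk0 t
  have h3 : Continuous fun t => (2 * (‖k t‖ ^ 2)⁻¹) := by
    exact continuous_const.mul ((hk.norm.pow 2).inv₀ h2)
  have h4 : Continuous fun t => ((innerSL ℝ (k t)).comp (M t)).smulRight (k t) := by
    have h5 : Continuous fun t => ((innerSL ℝ (k t)).comp (M t)) :=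
      ((innerSL ℝ).continuous.comp hk).clm_comp hM
    exact ((ContinuousLinearMap.smulRightL ℝ V V).continuous.comp h5).clm_apply hk
  exact hM.neg.add (h3.smul h4)

theorem kelG_cont {M : ℝ → V →L[ℝ] V} (hM : Continuous M) {K : V} (hK : K ≠ 0) :
    Continuous (kelG M K) :=
  kel_cont hM (covec_cont hM K) (covec_ne_zero hM hK)

theorem kelS_zero (M : ℝ → V →L[ℝ] V) (K v : V) : kelS M K v 0 = v := sol_init _ _ _ _

theorem kelS_deriv {M : ℝ → V →L[ℝ] V} (hM : Continuous M) {K : V} (hK : K ≠ 0) (v : V) (t : ℝ) :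
    HasDerivAt (kelS M K v) (kelG M K t (kelS M K v t)) t := by
  have h := sol_deriv (r := fun _ => (0 : V)) (kelG_cont hM hK) continuous_const 0 v t
  refine h.congr_deriv ?_
  simp [kelS]

theorem kelS_cont {M : ℝ → V →L[ℝ] V} (hM : Continuous M) {K : V} (hK : K ≠ 0) (v : V) :
    Continuous (kelS M K v) :=
  continuous_iff_continuousAt.2 fun t => (kelS_deriv hM hK v t).continuousAt

theorem kelG_norm_le (M : ℝ → V →L[ℝ] V) (K : V) (t : ℝ) : ‖kelG M K t‖ ≤ 3 * ‖M t‖ :=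
  norm_kel_le _ _

omit [CompleteSpace V] in
/-- The projection `x ↦ ⟪k,x⟫/|k|² k` is Lipschitz in the direction. -/
theorem proj_sub_le {k k' : V} (hk : k ≠ 0) (hk' : k' ≠ 0) (z : V) :
    ‖((‖k‖ ^ 2)⁻¹ * ⟪k, z⟫_ℝ) • k - ((‖k'‖ ^ 2)⁻¹ * ⟪k', z⟫_ℝ) • k'‖ ≤
      4 * (‖k - k'‖ / ‖k'‖) * ‖z‖ := by
  have hn : 0 < ‖k‖ := norm_pos_iff.2 hk
  have hn' : 0 < ‖k'‖ := norm_pos_iff.2 hk'
  set u : V := ‖k‖⁻¹ • k with hu
  set u' : V := ‖k'‖⁻¹ • k' with hu'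
  have hun : ‖u‖ = 1 := by
    rw [hu, norm_smul, norm_inv, norm_norm, inv_mul_cancel₀ hn.ne']
  have hun' : ‖u'‖ = 1 := by
    rw [hu', norm_smul, norm_inv, norm_norm, inv_mul_cancel₀ hn'.ne']
  have e1 : ((‖k‖ ^ 2)⁻¹ * ⟪k, z⟫_ℝ) • k = ⟪u, z⟫_ℝ • u := by
    rw [hu, inner_smul_left, smul_smul, conj_trivial]
    congr 1
    field_simp
  have e2 : ((‖k'‖ ^ 2)⁻¹ * ⟪k', z⟫_ℝ) • k' = ⟪u', z⟫_ℝ • u' := by
    rw [hu', inner_smul_left, smul_smul, conj_trivial]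
    congr 1
    field_simp
  have huu : ‖u - u'‖ ≤ 2 * (‖k - k'‖ / ‖k'‖) := by
    have h1 : u - u' = (‖k‖⁻¹ - ‖k'‖⁻¹) • k + ‖k'‖⁻¹ • (k - k') := by
      rw [hu, hu', sub_smul, smul_sub]
      abel
    have h2 : ‖(‖k‖⁻¹ - ‖k'‖⁻¹) • k‖ ≤ ‖k - k'‖ / ‖k'‖ := by
      rw [norm_smul, Real.norm_eq_abs]
      have h3 : |‖k‖⁻¹ - ‖k'‖⁻¹| * ‖k‖ = |‖k'‖ - ‖k‖| / ‖k'‖ := by
        have h4 : ‖k‖⁻¹ - ‖k'‖⁻¹ = (‖k'‖ - ‖k‖) / (‖k‖ * ‖k'‖) := by field_simp
        rw [h4, abs_div, abs_of_pos (mul_pos hn hn')]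
        field_simp
      rw [h3]
      apply div_le_div_of_nonneg_right _ hn'.le
      rw [abs_sub_comm]
      exact abs_norm_sub_norm_le k k'
    have h5 : ‖‖k'‖⁻¹ • (k - k')‖ = ‖k - k'‖ / ‖k'‖ := by
      rw [norm_smul, norm_inv, norm_norm]
      field_simp
    calc ‖u - u'‖ ≤ ‖(‖k‖⁻¹ - ‖k'‖⁻¹) • k‖ + ‖‖k'‖⁻¹ • (k - k')‖ := by
          rw [h1]; exact norm_add_le _ _
      _ ≤ ‖k - k'‖ / ‖k'‖ + ‖k - k'‖ / ‖k'‖ := by rw [h5]; linarith
      _ = 2 * (‖k - k'‖ / ‖k'‖) := by ring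
  have h6 : ⟪u, z⟫_ℝ • u - ⟪u', z⟫_ℝ • u' = ⟪u - u', z⟫_ℝ • u + ⟪u', z⟫_ℝ • (u - u') := by
    rw [inner_sub_left, sub_smul, smul_sub]
    abel
  rw [e1, e2, h6]
  have h7 : ‖⟪u - u', z⟫_ℝ • u‖ ≤ ‖u - u'‖ * ‖z‖ := by
    rw [norm_smul, hun, mul_one]
    exact abs_real_inner_le_norm _ _
  have h8 : ‖⟪u', z⟫_ℝ • (u - u')‖ ≤ ‖z‖ * ‖u - u'‖ := by
    rw [norm_smul]
    apply mul_le_mul_of_nonneg_right _ (norm_nonneg _)
    have := abs_real_inner_le_norm u' z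
    rw [hun', one_mul] at this
    exact this
  calc ‖⟪u - u', z⟫_ℝ • u + ⟪u', z⟫_ℝ • (u - u')‖ ≤ ‖u - u'‖ * ‖z‖ + ‖z‖ * ‖u - u'‖ :=
        (norm_add_le _ _).trans (add_le_add h7 h8)
    _ = 2 * ‖u - u'‖ * ‖z‖ := by ring
    _ ≤ 2 * (2 * (‖k - k'‖ / ‖k'‖)) * ‖z‖ := by gcongr
    _ = 4 * (‖k - k'‖ / ‖k'‖) * ‖z‖ := by ring

omit [CompleteSpace V] in
/-- The Kelvin generator is Lipschitz in the flow and in the direction. -/
theorem kel_sub_le (M M' : V →L[ℝ] V) {k k' : V} (hk : k ≠ 0) (hk' : k' ≠ 0) :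
    ‖kel M k - kel M' k'‖ ≤ 3 * ‖M - M'‖ + 8 * ‖M'‖ * (‖k - k'‖ / ‖k'‖) := by
  refine ContinuousLinearMap.opNorm_le_bound _ (by positivity) fun x => ?_
  have hn : 0 < ‖k‖ := norm_pos_iff.2 hk
  have e1 : (kel M k - kel M' k') x = kel (M - M') k x +
      (2 : ℝ) • (((‖k‖ ^ 2)⁻¹ * ⟪k, M' x⟫_ℝ) • k - ((‖k'‖ ^ 2)⁻¹ * ⟪k', M' x⟫_ℝ) • k') := by
    rw [sub_apply, kel_apply, kel_apply, kel_apply,
      sub_apply, inner_sub_right, smul_sub, smul_smul, smul_smul]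
    have h1 : (2 * (‖k‖ ^ 2)⁻¹ * (⟪k, M x⟫_ℝ - ⟪k, M' x⟫_ℝ)) • k =
        (2 * (‖k‖ ^ 2)⁻¹ * ⟪k, M x⟫_ℝ) • k - (2 * ((‖k‖ ^ 2)⁻¹ * ⟪k, M' x⟫_ℝ)) • k := by
      rw [← sub_smul]
      congr 1
      ring
    rw [h1, mul_assoc 2 (‖k'‖ ^ 2)⁻¹]
    abel
  rw [e1]
  have h2 : ‖kel (M - M') k x‖ ≤ 3 * ‖M - M'‖ * ‖x‖ :=
    (ContinuousLinearMap.le_opNorm _ _).trans
      (mul_le_mul_of_nonneg_right (norm_kel_le _ _) (norm_nonneg _))
  have h3 := proj_sub_le hk hk' (M' x)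
  have h4 : ‖M' x‖ ≤ ‖M'‖ * ‖x‖ := M'.le_opNorm x
  calc ‖kel (M - M') k x +
      (2 : ℝ) • (((‖k‖ ^ 2)⁻¹ * ⟪k, M' x⟫_ℝ) • k - ((‖k'‖ ^ 2)⁻¹ * ⟪k', M' x⟫_ℝ) • k')‖
      ≤ 3 * ‖M - M'‖ * ‖x‖ + 2 * (4 * (‖k - k'‖ / ‖k'‖) * (‖M'‖ * ‖x‖)) := by
        refine (norm_add_le _ _).trans (add_le_add h2 ?_)
        rw [norm_smul, Real.norm_eq_abs, abs_two]
        apply mul_le_mul_of_nonneg_left _ (by norm_num)
        exact h3.trans (mul_le_mul_of_nonneg_left h4 (by positivity))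
    _ = (3 * ‖M - M'‖ + 8 * ‖M'‖ * (‖k - k'‖ / ‖k'‖)) * ‖x‖ := by ring

/-- The constant weight. -/
def w1 : ℝ → ℝ := fun _ => 1

/-- The flow of `M` and the dual flow are bounded by `B` on `[a,b]`. -/
structure FB (M : ℝ → V →L[ℝ] V) (a b B : ℝ) : Prop where
  flow : PB M a b B w1
  dual : PB (dg M) a b B w1

namespace PB

omit [CompleteSpace V] in
theorem mono_const {A : ℝ → V →L[ℝ] V} {a b C C' : ℝ} {w : ℝ → ℝ} (h : PB A a b C w)
    (hw : ∀ r ∈ Icc a b, 0 < w r) (hC : C ≤ C') : PB A a b C' w := by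
  intro s hs t ht u hu
  refine (h s hs t ht u hu).trans ?_
  have h1 := hw s hs
  have h2 := hw t ⟨hs.1.trans ht.1, ht.2⟩
  have h3 : 0 ≤ w t / w s := by positivity
  gcongr

omit [CompleteSpace V] in
/-- A weight growing faster is allowed. -/
theorem mono_weight {A : ℝ → V →L[ℝ] V} {a b C : ℝ} {w w' : ℝ → ℝ} (h : PB A a b C w)
    (hw : ∀ r ∈ Icc a b, 0 < w r) (hw' : ∀ r ∈ Icc a b, 0 < w' r)
    (hm : MonotoneOn (fun r => w' r / w r) (Icc a b)) (hC : 0 ≤ C) : PB A a b C w' := by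
  intro s hs t ht u hu
  have ht' : t ∈ Icc a b := ⟨hs.1.trans ht.1, ht.2⟩
  refine (h s hs t ht u hu).trans ?_
  have h1 := hw s hs
  have h2 := hw t ht'
  have h3 := hw' s hs
  have h4 := hw' t ht'
  have h5 : w t / w s ≤ w' t / w' s := by
    have h6 := hm hs ht' ht.1
    simp only at h6
    rw [div_le_div_iff₀ h1 h2] at h6
    rw [div_le_div_iff₀ h1 h3]
    linarith
  gcongr

omit [CompleteSpace V] in
/-- Restriction to a smaller interval. -/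
theorem mono_int {A : ℝ → V →L[ℝ] V} {a b a' b' C : ℝ} {w : ℝ → ℝ} (h : PB A a b C w)
    (ha : a ≤ a') (hb : b' ≤ b) : PB A a' b' C w := fun s hs t ht u hu =>
  h s ⟨ha.trans hs.1, hs.2.trans hb⟩ t ⟨ht.1, ht.2.trans hb⟩ u hu

omit [CompleteSpace V] in
/-- Gluing of two intervals. -/
theorem glue {A : ℝ → V →L[ℝ] V} {a b c C C' : ℝ} {w : ℝ → ℝ} (hC : 1 ≤ C) (hC' : 1 ≤ C')
    (hw : ∀ r ∈ Icc a c, 0 < w r) (hab : a ≤ b) (hbc : b ≤ c) (h : PB A a b C w)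
    (h' : PB A b c C' w) : PB A a c (C * C') w := by
  intro s hs t ht u hu
  have hws := hw s hs
  have hwt := hw t ⟨hs.1.trans ht.1, ht.2⟩
  have hr : 0 ≤ w t / w s * ‖u s‖ := by positivity
  rcases le_total t b with htb | htb
  · have h1 := h s ⟨hs.1, ht.1.trans htb⟩ t ⟨ht.1, htb⟩ u hu
    calc ‖u t‖ ≤ C * (w t / w s) * ‖u s‖ := h1
      _ = C * (w t / w s * ‖u s‖) := by ring
      _ ≤ C * C' * (w t / w s * ‖u s‖) := by
        apply mul_le_mul_of_nonneg_right _ hr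
        nlinarith
      _ = C * C' * (w t / w s) * ‖u s‖ := by ring
  rcases le_total s b with hsb | hsb
  · have hwb := hw b ⟨hab, hbc⟩
    have h1 := h s ⟨hs.1, hsb⟩ b ⟨hsb, le_refl b⟩ u fun r hr => hu r ⟨hr.1, hr.2.trans htb⟩
    have h2 := h' b ⟨le_refl b, hbc⟩ t ⟨htb, ht.2⟩ u fun r hr => hu r ⟨hsb.trans hr.1, hr.2⟩
    calc ‖u t‖ ≤ C' * (w t / w b) * ‖u b‖ := h2
      _ ≤ C' * (w t / w b) * (C * (w b / w s) * ‖u s‖) := by
        apply mul_le_mul_of_nonneg_left h1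
        positivity
      _ = C * C' * (w t / w s) * ‖u s‖ := by field_simp
  · have h1 := h' s ⟨hsb, hs.2⟩ t ⟨ht.1, ht.2⟩ u hu
    calc ‖u t‖ ≤ C' * (w t / w s) * ‖u s‖ := h1
      _ = C' * (w t / w s * ‖u s‖) := by ring
      _ ≤ C * C' * (w t / w s * ‖u s‖) := by
        apply mul_le_mul_of_nonneg_right _ hr
        nlinarith
      _ = C * C' * (w t / w s) * ‖u s‖ := by ring

/-- Perturbation of the generator with the factor `2`. -/
theorem perturb2 {A B : ℝ → V →L[ℝ] V} {a b C δ : ℝ} {w : ℝ → ℝ} (hA : Continuous A)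
    (hB : Continuous B) (hw : ∀ r ∈ Icc a b, 0 < w r) (hwc : ContinuousOn w (Icc a b))
    (hC : 0 ≤ C) (hδ : 0 ≤ δ) (hAB : ∀ r ∈ Icc a b, ‖B r - A r‖ ≤ δ) (hab : b - a ≤ 1)
    (hsm : 2 * (C * δ) ≤ 1) (hPB : PB A a b C w) : PB B a b (2 * C) w := by
  rcases lt_or_ge b a with hba | hba
  · intro s hs
    exact absurd (hs.1.trans hs.2) (not_le.2 hba)
  refine (perturb' hA hB hw hwc hC hδ hAB hPB).mono_const hw ?_
  have h1 : C * δ * (b - a) ≤ 1 / 2 := by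
    have h2 : 0 ≤ C * δ := mul_nonneg hC hδ
    nlinarith
  have h3 : Real.exp (C * δ * (b - a)) ≤ 2 := by
    calc Real.exp (C * δ * (b - a)) ≤ Real.exp (1 / 2) := Real.exp_le_exp.2 h1
      _ ≤ 2 := by
        have h4 : Real.exp (1 / 2) ^ 2 = Real.exp 1 := by
          rw [← Real.exp_nat_mul]
          norm_num
        have h5 := Real.exp_one_lt_d9
        nlinarith [Real.exp_pos (1 / 2 : ℝ)]
  nlinarith

end PB

namespace FB

theorem dual_bound {M : ℝ → V →L[ℝ] V} {a b B : ℝ} (h : FB M a b B) {x : ℝ → V} {s t : ℝ}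
    (hs : s ∈ Icc a b) (ht : t ∈ Icc s b)
    (hx : ∀ r ∈ Icc s t, HasDerivAt x (dg M r (x r)) r) : ‖x t‖ ≤ B * ‖x s‖ := by
  have := h.dual s hs t ht x hx
  simpa [w1] using this

/-- The backward bound by duality. -/
theorem dual_back {M : ℝ → V →L[ℝ] V} {a b B : ℝ} (hM : Continuous M) (hB : 0 ≤ B)
    (h : FB M a b B) {x : ℝ → V} {s t : ℝ}
    (hs : s ∈ Icc a b) (ht : t ∈ Icc s b)
    (hx : ∀ r ∈ Icc s t, HasDerivAt x (dg M r (x r)) r) : ‖x s‖ ≤ B * ‖x t‖ := by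
  set X : ℝ → V := sol M (fun _ => 0) s (x s) with hX
  have hXd : ∀ r, HasDerivAt X (M r (X r)) r := by
    intro r
    have h1 := sol_deriv (r := fun _ => (0 : V)) hM continuous_const s (x s) r
    refine h1.congr_deriv ?_
    simp [hX]
  have hXs : X s = x s := sol_init _ _ _ _
  have hd : ∀ r ∈ Icc s t, HasDerivAt (fun r => ⟪x r, X r⟫_ℝ) 0 r := by
    intro r hr
    refine ((hx r hr).inner ℝ (hXd r)).congr_deriv ?_
    simp only [dg, neg_apply, inner_neg_left,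
      ContinuousLinearMap.adjoint_inner_left]
    ring
  have hc := constant_of_has_deriv_right_zero (f := fun r => ⟪x r, X r⟫_ℝ) (a := s) (b := t)
    (fun y hy => (hd y hy).continuousAt.continuousWithinAt)
    (fun y hy => (hd y ⟨hy.1, hy.2.le⟩).hasDerivWithinAt) t ⟨ht.1, le_refl t⟩
  have hXb : ‖X t‖ ≤ B * ‖x s‖ := by
    have := h.flow s hs t ht X fun r _ => hXd r
    simpa [w1, hXs] using this
  simp only [hXs, real_inner_self_eq_norm_sq] at hc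
  have h2 : ‖x s‖ ^ 2 ≤ ‖x t‖ * (B * ‖x s‖) := by
    rw [← hc]
    exact (real_inner_le_norm _ _).trans (mul_le_mul_of_nonneg_left hXb (norm_nonneg _))
  rcases eq_or_lt_of_le (norm_nonneg (x s)) with h0 | h0
  · rw [← h0]
    positivity
  · nlinarith

theorem perturb2 {M M' : ℝ → V →L[ℝ] V} {a b B δ : ℝ} (hM : Continuous M) (hM' : Continuous M')
    (hB : 0 ≤ B) (hδ : 0 ≤ δ) (hMM : ∀ r ∈ Icc a b, ‖M' r - M r‖ ≤ δ) (hab : b - a ≤ 1)
    (hsm : 2 * (B * δ) ≤ 1) (h : FB M a b B) : FB M' a b (2 * B) where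
  flow := PB.perturb2 hM hM' (fun _ _ => one_pos) continuousOn_const hB hδ hMM hab hsm h.flow
  dual := PB.perturb2 (dg_cont hM) (dg_cont hM') (fun _ _ => one_pos) continuousOn_const hB hδ
    (fun r hr => by rw [dg_sub_norm]; exact hMM r hr) hab hsm h.dual

theorem mono_int {M : ℝ → V →L[ℝ] V} {a b a' b' B : ℝ} (h : FB M a b B) (ha : a ≤ a')
    (hb : b' ≤ b) : FB M a' b' B := ⟨h.flow.mono_int ha hb, h.dual.mono_int ha hb⟩

theorem mono_const {M : ℝ → V →L[ℝ] V} {a b B B' : ℝ} (h : FB M a b B) (hB : B ≤ B') :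
    FB M a b B' :=
  ⟨h.flow.mono_const (fun _ _ => one_pos) hB, h.dual.mono_const (fun _ _ => one_pos) hB⟩

/-- Two covectors in nearby flows. -/
theorem covec_diff {M M' : ℝ → V →L[ℝ] V} {T B δ : ℝ} (hM : Continuous M) (hM' : Continuous M')
    (hB : 1 ≤ B) (hδ : 0 ≤ δ) (hMM : ∀ r ∈ Icc 0 T, ‖M r - M' r‖ ≤ δ) (hT : T ≤ 1)
    (hsm : 2 * (B * δ) ≤ 1) (h : FB M' 0 T B) (K K' : V) {t : ℝ} (ht : t ∈ Icc 0 T) :
    ‖covec M K t - covec M' K' t‖ ≤ B * ‖K - K'‖ + 2 * B ^ 2 * δ * ‖K‖ := by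
  have h0 : (0 : ℝ) ∈ Icc 0 T := ⟨le_refl _, ht.1.trans ht.2⟩
  have hB0 : 0 ≤ B := by linarith
  have h2 : FB M 0 T (2 * B) := h.perturb2 hM' hM hB0 hδ hMM (by linarith) hsm
  have hx : ∀ r ∈ Icc 0 t, ‖covec M K r‖ ≤ 2 * B * ‖K‖ := by
    intro r hr
    have := h2.dual_bound h0 ⟨hr.1, hr.2.trans ht.2⟩ (x := covec M K)
      (fun y _ => covec_deriv hM K y)
    rwa [covec_zero] at this
  have hg : ContinuousOn (fun r => (dg M r - dg M' r) (covec M K r)) (Icc 0 t) :=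
    (((dg_cont hM).sub (dg_cont hM')).clm_apply (covec_cont hM K)).continuousOn
  have h3 := PB.duhamel (u := fun r => covec M K r - covec M' K' r)
    (g := fun r => (dg M r - dg M' r) (covec M K r)) (h := fun _ => δ * (2 * B * ‖K‖))
    (dg_cont hM') (fun _ _ => one_pos) h.dual h0 ⟨ht.1, ht.2⟩ continuousOn_const
    (fun r _ => by
      refine ((covec_deriv hM K r).sub (covec_deriv hM' K' r)).congr_deriv ?_
      simp) hg
    (fun r hr => by
      simp only [w1, mul_one]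
      refine (ContinuousLinearMap.le_opNorm _ _).trans ?_
      apply mul_le_mul _ (hx r hr) (norm_nonneg _) hδ
      rw [dg_sub_norm]
      exact hMM r ⟨hr.1, hr.2.trans ht.2⟩) hB0
  simp only [w1, covec_zero, div_one, mul_one, intervalIntegral.integral_const, smul_eq_mul,
    sub_zero] at h3
  have h4 : t * (δ * (2 * B * ‖K‖)) ≤ 1 * (δ * (2 * B * ‖K‖)) := by
    apply mul_le_mul_of_nonneg_right (ht.2.trans hT)
    positivity
  calc ‖covec M K t - covec M' K' t‖ ≤ B * (‖K - K'‖ + t * (δ * (2 * B * ‖K‖))) := h3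
    _ ≤ B * (‖K - K'‖ + 1 * (δ * (2 * B * ‖K‖))) := by gcongr
    _ = B * ‖K - K'‖ + 2 * B ^ 2 * δ * ‖K‖ := by ring

/-- Difference of the Kelvin generators in nearby flows and nearby directions (unit vectors). -/
theorem kelG_diff {M M' : ℝ → V →L[ℝ] V} {T B δ A ang : ℝ} (hM : Continuous M)
    (hM' : Continuous M') (hB : 1 ≤ B) (hδ : 0 ≤ δ) (hMM : ∀ r ∈ Icc 0 T, ‖M r - M' r‖ ≤ δ)
    (hT : T ≤ 1) (hsm : 2 * (B * δ) ≤ 1) (h : FB M' 0 T B) (hA : ∀ r ∈ Icc 0 T, ‖M' r‖ ≤ A)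
    {K K' : V} (hK : K ≠ 0) (hK' : K' ≠ 0)
    (hang : ‖‖K‖⁻¹ • K - ‖K'‖⁻¹ • K'‖ ≤ ang) {t : ℝ} (ht : t ∈ Icc 0 T) :
    ‖kelG M K t - kelG M' K' t‖ ≤ 3 * δ + 8 * A * (B ^ 2 * ang + 2 * B ^ 3 * δ) := by
  have hn : 0 < ‖K‖ := norm_pos_iff.2 hK
  have hn' : 0 < ‖K'‖ := norm_pos_iff.2 hK'
  rw [← kelG_smul hM (inv_ne_zero hn.ne') K, ← kelG_smul hM' (inv_ne_zero hn'.ne') K']
  set U : V := ‖K‖⁻¹ • K with hU
  set U' : V := ‖K'‖⁻¹ • K' with hU'
  have hUn : ‖U‖ = 1 := by rw [hU, norm_smul, norm_inv, norm_norm, inv_mul_cancel₀ hn.ne']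
  have hUn' : ‖U'‖ = 1 := by rw [hU', norm_smul, norm_inv, norm_norm, inv_mul_cancel₀ hn'.ne']
  have hU0 : U ≠ 0 := by
    intro h0
    rw [h0, norm_zero] at hUn
    norm_num at hUn
  have hU0' : U' ≠ 0 := by
    intro h0
    rw [h0, norm_zero] at hUn'
    norm_num at hUn'
  have h0 : (0 : ℝ) ∈ Icc 0 T := ⟨le_refl _, ht.1.trans ht.2⟩
  have h1 := h.covec_diff hM hM' hB hδ hMM hT hsm U U' ht
  rw [hUn, mul_one] at h1
  have h2 : 1 ≤ B * ‖covec M' U' t‖ := by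
    have := h.dual_back hM' (by linarith) h0 ⟨ht.1, ht.2⟩ (x := covec M' U')
      (fun y _ => covec_deriv hM' U' y)
    rwa [covec_zero, hUn'] at this
  have h3 : 0 < ‖covec M' U' t‖ := norm_pos_iff.2 (covec_ne_zero hM' hU0' t)
  have hA0 : 0 ≤ A := (norm_nonneg _).trans (hA t ht)
  have hang0 : 0 ≤ ang := (norm_nonneg _).trans hang
  have h4 : ‖covec M U t - covec M' U' t‖ / ‖covec M' U' t‖ ≤ B ^ 2 * ang + 2 * B ^ 3 * δ := by
    rw [div_le_iff₀ h3]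
    have h5 : ‖covec M U t - covec M' U' t‖ ≤ B * ang + 2 * B ^ 2 * δ := by
      refine h1.trans ?_
      gcongr
    calc ‖covec M U t - covec M' U' t‖ ≤ (B * ang + 2 * B ^ 2 * δ) * 1 := by linarith
      _ ≤ (B * ang + 2 * B ^ 2 * δ) * (B * ‖covec M' U' t‖) := by
        apply mul_le_mul_of_nonneg_left h2
        positivity
      _ = (B ^ 2 * ang + 2 * B ^ 3 * δ) * ‖covec M' U' t‖ := by ring
  calc ‖kelG M U t - kelG M' U' t‖
      ≤ 3 * ‖M t - M' t‖ + 8 * ‖M' t‖ * (‖covec M U t - covec M' U' t‖ / ‖covec M' U' t‖) :=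
        kel_sub_le _ _ (covec_ne_zero hM hU0 t) (covec_ne_zero hM' hU0' t)
    _ ≤ 3 * δ + 8 * A * (B ^ 2 * ang + 2 * B ^ 3 * δ) := by
      apply add_le_add
      · exact mul_le_mul_of_nonneg_left (hMM t ht) (by norm_num)
      · apply mul_le_mul _ h4 (by positivity) (by positivity)
        exact mul_le_mul_of_nonneg_left (hA t ht) (by norm_num)

end FB

end Pool.Agent.Work.MP_b0497c_an.Unf.K
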