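import Pool.Agent.Work.MP_b0497c_an.Unf.OStmts
import Pool.Agent.Work.MP_b0497c_an.Unf.WinC

set_option autoImplicit false

/-!
# K1: the centre family on `[0,T]` and on the whole space (OK.5)

Gluing of the far region and the window, and passage from `k^⊥` to `ℝ³`.
-/

open Set ContinuousLinearMap RealInnerProductSpace

namespace Pool.Agent.Work.MP_b0497c_an.Unf.O

open Forced.Ode (Op ro)
open Fam K

/-- Gluing of two weighted bounds on consecutive intervals. -/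
theorem PBk.glue {M : ℝ → E3 →L[ℝ] E3} {k : ℝ → E3} {a c b C1 C2 : ℝ} {w1 w2 w : ℝ → ℝ}
    (h1 : PBk M k a c C1 w1) (h2 : PBk M k c b C2 w2) (hac : a ≤ c) (hcb : c ≤ b)
    (hC1 : 1 ≤ C1) (hC2 : 1 ≤ C2) (hw : ∀ r ∈ Icc a b, 0 < w r)
    (hw1 : ∀ s ∈ Icc a c, ∀ t ∈ Icc s c, w1 t / w1 s ≤ w t / w s)
    (hw2 : ∀ s ∈ Icc c b, ∀ t ∈ Icc s b, w2 t / w2 s ≤ w t / w s)
    (hk : ∀ r ∈ Icc a b, HasDerivAt k (-(ContinuousLinearMap.adjoint (M r) (k r))) r)
    (hk0 : ∀ r ∈ Icc a b, k r ≠ 0) : PBk M k a b (C1 * C2) w := by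
  intro s hs t ht u hu hks
  have hsw := hw s hs
  have htw := hw t ⟨hs.1.trans ht.1, ht.2⟩
  have hcw := hw c ⟨hac, hcb⟩
  have hr0 : 0 ≤ w t / w s := by positivity
  have hu0 := norm_nonneg (u s)
  rcases le_total t c with htc | hct
  · have h := h1 s ⟨hs.1, ht.1.trans htc⟩ t ⟨ht.1, htc⟩ u hu hks
    calc ‖u t‖ ≤ C1 * (w1 t / w1 s) * ‖u s‖ := h
      _ ≤ C1 * (w t / w s) * ‖u s‖ := by
        have h5 := hw1 s ⟨hs.1, ht.1.trans htc⟩ t ⟨ht.1, htc⟩
        exact mul_le_mul_of_nonneg_right (mul_le_mul_of_nonneg_left h5 (by linarith)) hu0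
      _ ≤ C1 * C2 * (w t / w s) * ‖u s‖ := by
        gcongr
        nlinarith
  · rcases le_total c s with hcs | hsc
    · have h := h2 s ⟨hcs, hs.2⟩ t ht u hu hks
      calc ‖u t‖ ≤ C2 * (w2 t / w2 s) * ‖u s‖ := h
        _ ≤ C2 * (w t / w s) * ‖u s‖ := by
          have h5 := hw2 s ⟨hcs, hs.2⟩ t ht
          exact mul_le_mul_of_nonneg_right (mul_le_mul_of_nonneg_left h5 (by linarith)) hu0
        _ ≤ C1 * C2 * (w t / w s) * ‖u s‖ := by
          gcongr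
          nlinarith
    · have hin := inner_const (M := M) (k := k) (u := u) (s := s) (t := t)
        (fun r hr => hk r ⟨hs.1.trans hr.1, hr.2.trans ht.2⟩)
        (fun r hr => hk0 r ⟨hs.1.trans hr.1, hr.2.trans ht.2⟩) hu c ⟨hsc, hct⟩
      rw [hks] at hin
      have h3 := h1 s ⟨hs.1, hsc⟩ c ⟨hsc, le_refl c⟩ u
        (fun r hr => hu r ⟨hr.1, hr.2.trans hct⟩) hks
      have h4 := h2 c ⟨le_refl c, hcb⟩ t ⟨hct, ht.2⟩ u
        (fun r hr => hu r ⟨hsc.trans hr.1, hr.2⟩) hin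
      calc ‖u t‖ ≤ C2 * (w2 t / w2 c) * ‖u c‖ := h4
        _ ≤ C2 * (w t / w c) * ‖u c‖ := by
          have h5 := hw2 c ⟨le_refl c, hcb⟩ t ⟨hct, ht.2⟩
          exact mul_le_mul_of_nonneg_right (mul_le_mul_of_nonneg_left h5 (by linarith))
            (norm_nonneg _)
        _ ≤ C2 * (w t / w c) * (C1 * (w1 c / w1 s) * ‖u s‖) := by gcongr
        _ ≤ C2 * (w t / w c) * (C1 * (w c / w s) * ‖u s‖) := by
          have h5 := hw1 s ⟨hs.1, hsc⟩ c ⟨hsc, le_refl c⟩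
          apply mul_le_mul_of_nonneg_left _ (by positivity)
          exact mul_le_mul_of_nonneg_right (mul_le_mul_of_nonneg_left h5 (by linarith)) hu0
        _ = C1 * C2 * (w t / w s) * ‖u s‖ := by field_simp

/-- the map `(v, k) ↦ ro v k` as a continuous bilinear map -/
noncomputable def roC : E3 →L[ℝ] E3 →L[ℝ] Op :=
  LinearMap.mkContinuous₂ (LinearMap.mk₂ ℝ (fun v k : E3 => ro v k)
    (by intro a b c; ext x i; simp [ro])
    (by intro a b c; ext x i; simp [ro]; try ring)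
    (by intro a b c; ext x i; simp [ro]; try ring)
    (by intro a b c; ext x i; simp [ro]; try ring)) 1
    (by
      intro v k
      refine ContinuousLinearMap.opNorm_le_bound _ (by positivity) ?_
      intro x
      have h1 : ‖(ro v k) x‖ = |inner ℝ k x| * ‖v‖ := by
        simp [ro, norm_smul]
      have h2 := abs_real_inner_le_norm k x
      show ‖(ro v k) x‖ ≤ _
      rw [h1]
      have := norm_nonneg v
      nlinarith)

theorem roC_apply (v k : E3) : roC v k = ro v k := rfl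

theorem norm_ro_le (v k : E3) : ‖ro v k‖ ≤ ‖v‖ * ‖k‖ := by
  refine ContinuousLinearMap.opNorm_le_bound _ (by positivity) ?_
  intro x
  have h1 : ‖(ro v k) x‖ = |inner ℝ k x| * ‖v‖ := by
    simp [ro, norm_smul]
  have h2 := abs_real_inner_le_norm k x
  rw [h1]
  have := norm_nonneg v
  nlinarith

/-- The Kelvin generator is continuous in `(M, k)` away from `k = 0`. -/
theorem kel_cont {M : ℝ → Op} {k : ℝ → E3} (hM : Continuous M) (hk : Continuous k)
    (hk0 : ∀ t, k t ≠ 0) : Continuous fun t => kel (M t) (k t) := by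
  have h1 : (fun t => kel (M t) (k t)) = fun t => -M t + (2 * (‖k t‖ ^ 2)⁻¹) •
      ((roC (k t) (k t)).comp (M t)) := by
    funext t
    ext1 x
    rw [kel_apply, roC_apply]
    simp [ro, smul_smul]
  rw [h1]
  have h2 : Continuous fun t => (‖k t‖ ^ 2)⁻¹ :=
    (hk.norm.pow 2).inv₀ (fun t => by simpa using hk0 t)
  have h3 : Continuous fun t => roC (k t) (k t) := (roC.continuous.comp hk).clm_apply hk
  exact hM.neg.add ((continuous_const.mul h2).smul (h3.clm_comp hM))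

namespace LevD

variable {D : LevD} {b' : ℝ}

theorem Flo.f_cont (h : D.Flo b') : Continuous D.f := h.v_cont.inner h.B_cont

theorem Flo.Sl_cont (h : D.Flo b') (al : ℝ) : Continuous (D.fam.Sl al) := by
  have h1 : D.fam.Sl al = fun t => D.X - al * (D.f t - D.f 0) / D.s :=
    funext fun t => Flo.lam_eq D al t
  rw [h1]
  exact continuous_const.sub ((continuous_const.mul (h.f_cont.sub continuous_const)).div_const _)

theorem Flo.K_cont (h : D.Flo b') (al : ℝ) : Continuous (D.fam.K al) :=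
  h.xi_cont.add ((h.Sl_cont al).smul h.n_cont)

theorem Flo.M_cont (h : D.Flo b') (al : ℝ) : Continuous (D.fam.M al) := by
  have h1 : Continuous fun t => roC (D.v t) (D.n t) :=
    (roC.continuous.comp h.v_cont).clm_apply h.n_cont
  exact h.A_cont.add (h1.const_smul al)

theorem Flo.kel_cont (h : D.Flo b') (al : ℝ) :
    Continuous fun t => kel (D.fam.M al t) (D.fam.K al t) :=
  O.kel_cont (h.M_cont al) (h.K_cont al) (h.K_all al)

theorem Flo.w_pos (h : D.Flo b') : 0 < D.w := inv_pos.2 (pow_pos h.h_pos 7)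

theorem Kin.s0_lt (h : D.Kin) : D.s0 < D.t0 := by
  rw [h.s0_eq]
  linarith [h.toFlo.w_pos]

theorem Kin.s0_le_T (h : D.Kin) : D.s0 ≤ D.T := (h.s0_lt.trans h.t0_lt).le

theorem Flo.r_nonneg (_h : D.Flo b') : 0 ≤ D.r := Real.sqrt_nonneg _

theorem Kin.At_mono (h : D.Kin) : Monotone D.At := by
  intro x y hxy
  unfold At
  have h1 : 0 ≤ Real.sqrt (D.c * D.k0) := Real.sqrt_nonneg _
  apply div_le_div_of_nonneg_right _ h1
  apply Real.arctan_strictMono.monotone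
  have h2 : 0 ≤ Real.sqrt (D.c / D.k0) * D.r := mul_nonneg (Real.sqrt_nonneg _) h.toFlo.r_nonneg
  nlinarith

theorem sig_le (D : LevD) {t : ℝ} (ht : t ≤ D.s0) : D.sig t = 0 := by
  unfold sig
  exact if_pos ht

theorem sig_ge (D : LevD) {t : ℝ} (ht : D.s0 ≤ t) : D.sig t = D.At t - D.At D.s0 := by
  rcases ht.lt_or_eq with h1 | h1
  · unfold sig
    exact if_neg (not_le.2 h1)
  · rw [← h1, sig_le D (le_refl _), sub_self]

theorem Kin.sig_mono (h : D.Kin) : Monotone D.sig := by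
  intro x y hxy
  rcases le_total y D.s0 with hy | hy
  · rw [sig_le D hy, sig_le D (hxy.trans hy)]
  · rcases le_total x D.s0 with hx | hx
    · rw [sig_le D hx, sig_ge D hy]
      have := h.At_mono hy
      linarith
    · rw [sig_ge D hx, sig_ge D hy]
      have := h.At_mono hxy
      linarith

theorem HL.alp_pos (h : D.HL) : ∀ t ∈ Icc 0 D.T, 0 < D.alp t := fun t ht =>
  mul_pos (h.al_pos t ht) (Real.exp_pos _)

theorem HL.alp_mono (h : D.HL) : MonotoneOn D.alp (Icc 0 D.T) := by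
  intro x hx y hy hxy
  unfold alp
  have h1 := h.al_mono hx hy hxy
  have h2 := h.al_pos x hx
  have h3 := h.toKin.sig_mono hxy
  have h4 : Real.exp (Real.sqrt 2 * D.sig x) ≤ Real.exp (Real.sqrt 2 * D.sig y) := by
    apply Real.exp_le_exp.2
    exact mul_le_mul_of_nonneg_left h3 (Real.sqrt_nonneg 2)
  exact mul_le_mul h1 h4 (Real.exp_pos _).le (h2.le.trans h1)

/-- `67 b ^ 13 ≤ h` and more. -/
theorem Kin.b_pow_le (h : D.Kin) : 67 * D.b ^ 13 ≤ D.h := by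
  have hb := h.b_ge
  have h1 : 67 * D.b ^ 13 ≤ D.b ^ 200 := by
    have h2 : (67 : ℝ) ≤ D.b ^ 2 := by nlinarith
    calc 67 * D.b ^ 13 ≤ D.b ^ 2 * D.b ^ 13 := by gcongr
      _ = D.b ^ 15 := by ring
      _ ≤ D.b ^ 200 := pow_le_pow_right₀ (by linarith) (by norm_num)
  exact h1.trans h.h_ge

theorem Kin.h_one (h : D.Kin) : 1 ≤ D.h := by
  have hb := h.b_ge
  have h1 : (1 : ℝ) ≤ D.b ^ 200 := one_le_pow₀ (by linarith)
  exact h1.trans h.h_ge

theorem Kin.a_one (h : D.Kin) : 1 ≤ D.a := one_le_pow₀ h.h_one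

theorem HL.f_le (h : D.HL) {t : ℝ} (ht : t ∈ Icc 0 D.T) : |D.f t| ≤ D.b ^ 3 * D.a := by
  have hb := h.toKin.toFlo.b0
  have ha := h.toKin.toFlo.a_pos
  calc |D.f t| ≤ ‖D.v t‖ * ‖D.B t‖ := abs_real_inner_le_norm _ _
    _ ≤ (D.b * D.a) * D.b ^ 2 := by
      gcongr
      · exact h.v_le t ht
      · exact h.toKin.toFlo.B_le ht
    _ = _ := by ring

theorem HL.Sl_le (h : D.HL) {al : ℝ} (hal : al ∈ Icc (-1 : ℝ) 1) {t : ℝ} (ht : t ∈ Icc 0 D.T) :
    |D.fam.Sl al t| ≤ 4 * D.b ^ 4 * D.a := by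
  have hb := h.b_ge
  have hb0 : 0 < D.b := by linarith
  have ha := h.toKin.toFlo.a_pos
  have ha1 := h.toKin.a_one
  have hs := h.toKin.toFlo.s_pos
  have hs1 : D.s⁻¹ ≤ D.b := by
    rw [inv_le_comm₀ hs hb0]
    have := h.s_ge
    rwa [one_div] at this
  have h0 : (0:ℝ) ∈ Icc 0 D.T := ⟨le_refl _, h.toKin.toFlo.T_pos.le⟩
  have hf := h.f_le ht
  have hf0 := h.far.f0
  have h1 : |al * (D.f t - D.f 0) / D.s| ≤ (D.b ^ 3 * D.a + 1) * D.b := by
    rw [div_eq_mul_inv, abs_mul, abs_mul, abs_of_pos (inv_pos.2 hs)]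
    have h2 : |al| ≤ 1 := abs_le.2 hal
    have h3 : |D.f t - D.f 0| ≤ D.b ^ 3 * D.a + 1 := (abs_sub _ _).trans (add_le_add hf hf0)
    calc |al| * |D.f t - D.f 0| * D.s⁻¹ ≤ 1 * (D.b ^ 3 * D.a + 1) * D.b := by gcongr
      _ = _ := by ring
  have h4 : |D.X| ≤ D.b + (D.a + 1) * D.b := by
    unfold X
    refine (abs_add_le _ _).trans (add_le_add ?_ ?_)
    · rw [abs_of_pos h.toKin.k0_pos]
      exact h.k0_le
    · rw [div_eq_mul_inv, abs_mul, abs_of_pos (inv_pos.2 hs)]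
      have h5 : |D.a - D.f 0| ≤ D.a + 1 :=
        (abs_sub _ _).trans (add_le_add (le_of_eq (abs_of_pos ha)) hf0)
      gcongr
  rw [Flo.lam_eq]
  refine (abs_sub _ _).trans ((add_le_add h4 h1).trans ?_)
  have hb2 : D.b ≤ D.b ^ 4 * D.a := by
    calc D.b = D.b ^ 1 * 1 := by ring
      _ ≤ D.b ^ 4 * D.a := by
        gcongr
        · linarith
        · norm_num
  have hb3 : D.b * D.a ≤ D.b ^ 4 * D.a / 10 := by
    have : D.b * 10 ≤ D.b ^ 4 := by
      have h6 : D.b ^ 4 = D.b * D.b ^ 3 := by ring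
      rw [h6]
      have h7 : (10:ℝ) ≤ D.b ^ 3 := by
        calc (10:ℝ) ≤ D.b ^ 1 := by linarith
          _ ≤ D.b ^ 3 := pow_le_pow_right₀ (by linarith) (by norm_num)
      gcongr
    nlinarith
  have hb4 : D.b ≤ D.b ^ 4 * D.a / 10 := by
    have : D.b * 1 ≤ D.b * D.a := by gcongr
    linarith
  nlinarith

theorem HL.K_le (h : D.HL) {al : ℝ} (hal : al ∈ Icc (-1 : ℝ) 1) {t : ℝ} (ht : t ∈ Icc 0 D.T) :
    ‖D.fam.K al t‖ ≤ 5 * D.b ^ 6 * D.a := by
  have hb := h.b_ge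
  have hb0 : 0 < D.b := by linarith
  have ha1 := h.toKin.a_one
  have h1 : ‖D.fam.K al t‖ ≤ ‖D.xi t‖ + |D.fam.Sl al t| * ‖D.n t‖ := by
    unfold FamD.K
    refine (norm_add_le _ _).trans ?_
    rw [norm_smul]
    exact le_refl _
  have h2 := h.toKin.toFlo.xi_le ht
  have h3 := h.toKin.toFlo.n_le ht
  have h4 := h.Sl_le hal ht
  calc ‖D.fam.K al t‖ ≤ D.b ^ 2 + (4 * D.b ^ 4 * D.a) * D.b ^ 2 := by
        refine h1.trans ?_
        gcongr
    _ ≤ D.b ^ 6 * D.a + (4 * D.b ^ 4 * D.a) * D.b ^ 2 := by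
        gcongr
        calc D.b ^ 2 = D.b ^ 2 * 1 := by ring
          _ ≤ D.b ^ 6 * D.a := by
            gcongr
            · linarith
            · norm_num
    _ = _ := by ring

theorem Flo.K_ge (h : D.Flo b') (al : ℝ) {t : ℝ} (ht : t ∈ Icc 0 D.T) :
    1 ≤ b' ^ 4 * ‖D.fam.K al t‖ := by
  have hb := h.b0
  have h1 : cx (D.fam.K al t) (D.fam.k t) = D.fam.D t := FamD.cxKk al t
  have h2 : ‖D.fam.D t‖ ≤ ‖D.fam.K al t‖ * ‖D.fam.k t‖ := by
    rw [← h1]
    have h3 := norm_cx_sq (D.fam.K al t) (D.fam.k t)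
    have h4 : ‖cx (D.fam.K al t) (D.fam.k t)‖ ^ 2 ≤ (‖D.fam.K al t‖ * ‖D.fam.k t‖) ^ 2 := by
      rw [h3, mul_pow]
      have := sq_nonneg (⟪D.fam.K al t, D.fam.k t⟫)
      linarith
    exact (sq_le_sq₀ (norm_nonneg _) (by positivity)).1 h4
  have h5 : ‖D.fam.D t‖ = ‖D.B t‖ := by rw [famD, norm_neg]
  have h6 := h.B_ge ht
  have h7 := h.n_le ht
  rw [h5] at h2
  calc 1 ≤ b' ^ 2 * ‖D.B t‖ := h6
    _ ≤ b' ^ 2 * (‖D.fam.K al t‖ * ‖D.n t‖) := by gcongr; exact h2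
    _ ≤ b' ^ 2 * (‖D.fam.K al t‖ * b' ^ 2) := by gcongr
    _ = b' ^ 4 * ‖D.fam.K al t‖ := by ring

theorem HL.M_le (h : D.HL) {al : ℝ} (hal : al ∈ Icc (-1 : ℝ) 1) {t : ℝ} (ht : t ∈ Icc 0 D.T) :
    ‖D.fam.M al t‖ ≤ 2 * D.b ^ 3 * D.a := by
  have hb := h.b_ge
  have hb0 : 0 < D.b := by linarith
  have ha1 := h.toKin.a_one
  have ha := h.toKin.toFlo.a_pos
  have hal' : |al| ≤ 1 := abs_le.2 hal
  calc ‖D.fam.M al t‖ ≤ ‖D.A t‖ + ‖al • Forced.Ode.ro (D.v t) (D.n t)‖ := norm_add_le _ _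
    _ = ‖D.A t‖ + |al| * ‖Forced.Ode.ro (D.v t) (D.n t)‖ := by rw [norm_smul]; rfl
    _ ≤ D.b + 1 * ((D.b * D.a) * D.b ^ 2) := by
      gcongr
      · exact h.A_le t
      · refine (norm_ro_le _ _).trans ?_
        gcongr
        · exact h.v_le t ht
        · exact h.toKin.toFlo.n_le ht
    _ ≤ D.b ^ 3 * D.a + 1 * ((D.b * D.a) * D.b ^ 2) := by
      gcongr
      calc D.b = D.b ^ 1 * 1 := by ring
        _ ≤ D.b ^ 3 * D.a := by
          gcongr
          · linarith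
          · norm_num
    _ = _ := by ring

/-- The centre family in `k^⊥` on `[0,T]`. -/
theorem HL.fam_PBk (h : D.HL) {al : ℝ}
    (h1 : PBk (D.fam.M al) (D.fam.K al) 0 D.s0 (D.h ^ 16) D.al)
    (h2 : PBk (D.fam.M al) (D.fam.K al) D.s0 D.T (D.h ^ 80)
      (fun t => Real.exp (Real.sqrt 2 * D.sig t))) :
    PBk (D.fam.M al) (D.fam.K al) 0 D.T (D.h ^ 96) D.alp := by
  have hK := h.toKin
  have hF := h.toKin.toFlo
  have hh := hK.h_one
  have h3 := PBk.glue (w := D.alp) h1 h2 Kin.s0_nonneg hK.s0_le_T (one_le_pow₀ hh) (one_le_pow₀ hh)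
    h.alp_pos
    (fun s hs t ht => by
      unfold alp
      rw [sig_le D hs.2, sig_le D ht.2]
      simp)
    (fun s hs t ht => by
      have hs' : s ∈ Icc 0 D.T := ⟨Kin.s0_nonneg.trans hs.1, hs.2⟩
      have ht' : t ∈ Icc 0 D.T := ⟨hs'.1.trans ht.1, ht.2⟩
      have h5 := h.al_pos s hs'
      have h6 := h.al_mono hs' ht' ht.1
      unfold alp
      rw [mul_div_mul_comm]
      have h7 : 1 ≤ D.al t / D.al s := (one_le_div h5).2 h6
      have h8 : 0 ≤ Real.exp (Real.sqrt 2 * D.sig t) / Real.exp (Real.sqrt 2 * D.sig s) := by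
        positivity
      nlinarith)
    (fun r hr => hF.ok.Kd al hr) (fun r _ => hF.K_all al r)
  rw [← pow_add] at h3
  exact h3

/-- K1 from the far region and the window. -/
theorem stK1of : StK1of := by
  intro hF3 hWin D h al hal
  have hK := h.toKin
  have hF := h.toKin.toFlo
  have hh := hK.h_one
  have hb := h.b_ge
  have hb0 : 0 < D.b := by linarith
  have ha1 := hK.a_one
  have ha := hF.a_pos
  have h1 := h.fam_PBk (hF3 D h al hal) (hWin D hK al hal)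
  have h2 := PBk.toPB (A := 2 * D.b ^ 3 * D.a) (Q := 5 * D.b ^ 10 * D.a) (hF.kel_cont al)
    (hF.M_cont al).continuousOn h.alp_pos h.alp_mono (fun r hr => hF.ok.Kd al hr)
    (fun r _ => hF.K_all al r) (fun r hr => h.M_le hal hr)
    (fun s hs t ht => by
      have h3 := h.K_le hal hs
      have h4 := hF.K_ge al (t := t) ⟨hs.1.trans ht.1, ht.2⟩
      calc ‖D.fam.K al s‖ ≤ 5 * D.b ^ 6 * D.a * 1 := by rw [mul_one]; exact h3
        _ ≤ 5 * D.b ^ 6 * D.a * (D.b ^ 4 * ‖D.fam.K al t‖) := by gcongr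
        _ = 5 * D.b ^ 10 * D.a * ‖D.fam.K al t‖ := by ring)
    (one_le_pow₀ hh) (by positivity)
    (by
      have h5 : (1:ℝ) ≤ D.b ^ 10 := one_le_pow₀ (by linarith)
      nlinarith)
    (by linarith [hF.T_one]) h1
  intro s hs t ht u hu
  refine (h2 s hs t ht u hu).trans ?_
  have h6 : 0 ≤ D.alp t / D.alp s := by
    have := h.alp_pos s hs
    have := h.alp_pos t ⟨hs.1.trans ht.1, ht.2⟩
    positivity
  have h7 : D.h ^ 96 * (2 + (6 * (2 * D.b ^ 3 * D.a) + 1) * (5 * D.b ^ 10 * D.a)) ≤ D.h ^ 150 := by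
    have h8 : 2 + (6 * (2 * D.b ^ 3 * D.a) + 1) * (5 * D.b ^ 10 * D.a) ≤
        67 * D.b ^ 13 * D.a ^ 2 := by
      have e1 : (1:ℝ) ≤ D.b ^ 3 * D.a := by
        have : (1:ℝ) ≤ D.b ^ 3 := one_le_pow₀ (by linarith)
        nlinarith
      have e2 : (1:ℝ) ≤ D.b ^ 10 * D.a := by
        have : (1:ℝ) ≤ D.b ^ 10 := one_le_pow₀ (by linarith)
        nlinarith
      have e3 : (6 * (2 * D.b ^ 3 * D.a) + 1) ≤ 13 * (D.b ^ 3 * D.a) := by linarith
      have e4 : (1:ℝ) ≤ (D.b ^ 3 * D.a) * (D.b ^ 10 * D.a) := by nlinarith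
      calc 2 + (6 * (2 * D.b ^ 3 * D.a) + 1) * (5 * D.b ^ 10 * D.a)
          ≤ 2 * ((D.b ^ 3 * D.a) * (D.b ^ 10 * D.a)) +
            (13 * (D.b ^ 3 * D.a)) * (5 * (D.b ^ 10 * D.a)) := by
            apply add_le_add
            · linarith
            · rw [mul_assoc 5]
              gcongr
        _ = 67 * D.b ^ 13 * D.a ^ 2 := by ring
    have h9 : 67 * D.b ^ 13 * D.a ^ 2 ≤ D.h ^ 49 := by
      calc 67 * D.b ^ 13 * D.a ^ 2 ≤ D.h * D.a ^ 2 := by
            gcongr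
            exact hK.b_pow_le
        _ = D.h ^ 49 := by
            unfold a
            ring
    calc D.h ^ 96 * (2 + (6 * (2 * D.b ^ 3 * D.a) + 1) * (5 * D.b ^ 10 * D.a))
        ≤ D.h ^ 96 * D.h ^ 49 := by
          gcongr
          exact h8.trans h9
      _ = D.h ^ 145 := by ring
      _ ≤ D.h ^ 150 := pow_le_pow_right₀ hh (by norm_num)
  gcongr

end LevD

end Pool.Agent.Work.MP_b0497c_an.Unf.O
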