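import Pool.Agent.Work.MP_b0497c_an.Unf.ONFlo

set_option autoImplicit false

/-!
# Block O: T7, the function `f` of the next level ((h4) and the case (F))
-/

open Set ContinuousLinearMap RealInnerProductSpace

namespace Pool.Agent.Work.MP_b0497c_an.Unf.O

open Forced.Ode (Op)
open Fam K

namespace LevD

namespace Nx

variable {D : LevD} {N : NextD}

/-- comparison of two transported products -/
theorem pair_diff {x z x1 z1 : E3} {F F' G G' : Op} {e L Z : ℝ} (he : 0 ≤ e) (hL : 1 ≤ L)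
    (hx : ‖x - z‖ ≤ e) (hx1 : ‖x1 - z1‖ ≤ e) (h1 : ‖x1‖ ≤ 1) (hz : ‖z‖ ≤ Z)
    (hF : ‖F‖ ≤ L) (hG : ‖G‖ ≤ L) (hF' : ‖F'‖ ≤ L) (hG' : ‖G'‖ ≤ L)
    (hFF : ‖F - F'‖ ≤ e) (hGG : ‖G - G'‖ ≤ e) :
    |⟪x, F (G x1)⟫ - ⟪z, F' (G' z1)⟫| ≤ e * L ^ 2 * (1 + 3 * Z) := by
  have hZ : 0 ≤ Z := (norm_nonneg z).trans hz
  have e1 : ⟪x, F (G x1)⟫ - ⟪z, F' (G' z1)⟫ = ⟪x - z, F (G x1)⟫ +
      ⟪z, (F - F') (G x1) + F' ((G - G') x1) + F' (G' (x1 - z1))⟫ := by
    simp only [inner_sub_left, inner_add_right, sub_apply, map_sub, inner_sub_right]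
    ring
  have b1 : ‖G x1‖ ≤ L := by
    calc ‖G x1‖ ≤ ‖G‖ * ‖x1‖ := G.le_opNorm _
      _ ≤ L * 1 := mul_le_mul hG h1 (norm_nonneg _) (by linarith)
      _ = L := mul_one _
  have b2 : ‖F (G x1)‖ ≤ L * L :=
    (F.le_opNorm _).trans (mul_le_mul hF b1 (norm_nonneg _) (by linarith))
  have b3 : ‖(F - F') (G x1)‖ ≤ e * L :=
    ((F - F').le_opNorm _).trans (mul_le_mul hFF b1 (norm_nonneg _) he)
  have b4 : ‖(G - G') x1‖ ≤ e * 1 :=
    ((G - G').le_opNorm _).trans (mul_le_mul hGG h1 (norm_nonneg _) he)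
  have b5 : ‖F' ((G - G') x1)‖ ≤ L * (e * 1) :=
    (F'.le_opNorm _).trans (mul_le_mul hF' b4 (norm_nonneg _) (by linarith))
  have b6 : ‖G' (x1 - z1)‖ ≤ L * e :=
    (G'.le_opNorm _).trans (mul_le_mul hG' hx1 (norm_nonneg _) (by linarith))
  have b7 : ‖F' (G' (x1 - z1))‖ ≤ L * (L * e) :=
    (F'.le_opNorm _).trans (mul_le_mul hF' b6 (norm_nonneg _) (by linarith))
  have b8 : ‖(F - F') (G x1) + F' ((G - G') x1) + F' (G' (x1 - z1))‖ ≤
      e * L + L * (e * 1) + L * (L * e) :=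
    (norm_add_le _ _).trans (add_le_add ((norm_add_le _ _).trans (add_le_add b3 b5)) b7)
  have b9 : |⟪x - z, F (G x1)⟫| ≤ e * (L * L) :=
    (abs_real_inner_le_norm _ _).trans (mul_le_mul hx b2 (norm_nonneg _) he)
  have b10 : |⟪z, (F - F') (G x1) + F' ((G - G') x1) + F' (G' (x1 - z1))⟫| ≤
      Z * (e * L + L * (e * 1) + L * (L * e)) :=
    (abs_real_inner_le_norm _ _).trans (mul_le_mul hz b8 (norm_nonneg _) hZ)
  rw [e1]
  refine (abs_add_le _ _).trans ((add_le_add b9 b10).trans ?_)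
  have h2 : e * L ≤ e * L ^ 2 := mul_le_mul_of_nonneg_left (by nlinarith) he
  have h3 : Z * (e * L) ≤ Z * (e * L ^ 2) := mul_le_mul_of_nonneg_left h2 hZ
  nlinarith

/-- `f⁺ / a⁺` -/
noncomputable def ph (D : LevD) (N : NextD) (t : ℝ) : ℝ :=
  ⟪(‖N.V D.t1‖)⁻¹ • N.V t, N.F t (N.Fi D.t1 ((‖N.V D.t1‖)⁻¹ • N.V D.t1))⟫

/-- its model -/
noncomputable def phm (D : LevD) (W : ℝ → E3) (t : ℝ) : ℝ :=
  ⟪(‖W D.t1‖)⁻¹ • W t, D.F1 1 t (D.Fi1 1 D.t1 ((‖W D.t1‖)⁻¹ • W D.t1))⟫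

theorem phm_eq (D : LevD) (W : ℝ → E3) (t : ℝ) :
    phm D W t = ((‖W D.t1‖)⁻¹) ^ 2 * ⟪W t, D.F1 1 t (D.Fi1 1 D.t1 (W D.t1))⟫ := by
  unfold phm
  rw [map_smul, map_smul, real_inner_smul_left, real_inner_smul_right]
  ring

theorem Hy.e1_eq (y : Hy D N) : (D.next N).e1 = (‖N.V D.t1‖)⁻¹ • N.V D.t1 := by
  have h := y.H_pos
  have h' := y.V1_pos
  unfold e1
  rw [next_v, next_t0, next_a, smul_smul]
  congr 1
  field_simp

theorem Hy.f_eq (y : Hy D N) (t : ℝ) : (D.next N).f t = (D.next N).a * ph D N t := by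
  unfold f ph
  rw [y.flo.B_eq t, y.e1_eq, next_v, next_t0, next_a]
  show ⟪(N.h ^ 24 / ‖N.V D.t1‖) • N.V t, N.F t (N.Fi D.t1 _)⟫ = _
  rw [real_inner_smul_left, real_inner_smul_left]
  ring

theorem Hy.a_ge (y : Hy D N) : 10 ^ 24 ≤ (D.next N).a := by
  rw [next_a]
  exact pow_le_pow_left₀ (by norm_num) y.H_ten 24

/-- `f⁺` is small before `t0` -/
theorem Hy.f_small (y : Hy D N) {t : ℝ} (ht : t ∈ Icc 0 D.t0) : |(D.next N).f t| ≤ 1 := by
  have hk := y.hl.toKin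
  have ht' : t ∈ Icc 0 D.T := ⟨ht.1, ht.2.trans hk.toFlo.t0_lt.le⟩
  have h4 := ((y.t4 D N y.hl y.so).2 t ht' D.t1 ⟨ht.2.trans y.t0_lt_t1.le, y.t1_mem.2⟩).1
  have h6 := (y.t6 D y.hl).2.2.2
  have hV1 := y.V1_pos
  have hH := y.H_pos
  have hh := y.h_pos
  have h7 : N.h ^ 100 ≤ Real.exp (7 / 5 / Real.sqrt (D.c * D.k0)) := by
    refine y.so.grow.trans (Real.exp_le_exp.2 ?_)
    exact div_le_div_of_nonneg_right (by norm_num) (Real.sqrt_nonneg _)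
  have h8 := y.alp_mono ht' hk.toFlo.t0_mem ht.2
  have h9 := y.alp_pos ht'
  have h10 := y.alp_pos hk.toFlo.t0_mem
  have h11 : N.h ^ 100 ≤ D.alp D.t1 / D.alp t := by
    rw [le_div_iff₀ h9]
    calc N.h ^ 100 * D.alp t ≤ Real.exp (7 / 5 / Real.sqrt (D.c * D.k0)) * D.alp D.t0 :=
          mul_le_mul h7 h8 h9.le (Real.exp_pos _).le
      _ = D.alp D.t0 * Real.exp (7 / 5 / Real.sqrt (D.c * D.k0)) := mul_comm _ _
      _ ≤ _ := h6
  have h12 : N.h ^ 100 * ‖N.V t‖ ≤ D.h ^ 101 * ‖N.V D.t1‖ :=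
    (mul_le_mul_of_nonneg_right h11 (norm_nonneg _)).trans h4
  have h13 : |ph D N t| ≤ (‖N.V D.t1‖)⁻¹ * ‖N.V t‖ * (D.h ^ 27 * (D.h ^ 27 * 1)) := by
    unfold ph
    refine (abs_real_inner_le_norm _ _).trans (mul_le_mul ?_ ?_ (norm_nonneg _) (by positivity))
    · rw [norm_smul, norm_inv, norm_norm]
    · refine ((N.F t).le_opNorm _).trans (mul_le_mul (y.F_le ht') ?_ (norm_nonneg _)
        (by positivity))
      refine ((N.Fi D.t1).le_opNorm _).trans (mul_le_mul (y.Fi_le y.t1_mem) ?_ (norm_nonneg _)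
        (by positivity))
      rw [norm_smul, norm_inv, norm_norm, inv_mul_cancel₀ hV1.ne']
  have h14 : N.h ^ 100 * |ph D N t| ≤ D.h ^ 155 := by
    calc N.h ^ 100 * |ph D N t|
        ≤ N.h ^ 100 * ((‖N.V D.t1‖)⁻¹ * ‖N.V t‖ * (D.h ^ 27 * (D.h ^ 27 * 1))) := by gcongr
      _ = (‖N.V D.t1‖)⁻¹ * D.h ^ 54 * (N.h ^ 100 * ‖N.V t‖) := by ring
      _ ≤ (‖N.V D.t1‖)⁻¹ * D.h ^ 54 * (D.h ^ 101 * ‖N.V D.t1‖) := by gcongr
      _ = D.h ^ 155 := by field_simp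
  have h15 := y.pow_le_H (k := 155) (by norm_num)
  rw [y.f_eq, next_a, abs_mul, abs_of_pos (pow_pos hH 24)]
  have h16 : N.h ^ 76 * (N.h ^ 24 * |ph D N t|) ≤ N.h ^ 76 * 1 := by
    calc N.h ^ 76 * (N.h ^ 24 * |ph D N t|) = N.h ^ 100 * |ph D N t| := by ring
      _ ≤ N.h := h14.trans h15
      _ ≤ N.h ^ 76 * 1 := by
        rw [mul_one]
        exact le_self_pow₀ (by linarith [y.H_ten]) (by norm_num)
  exact le_of_mul_le_mul_left h16 (by positivity)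

/-- the model is close -/
theorem Hy.ph_near (y : Hy D N) (h3 : T3) {W : ℝ → E3} (hW : D.Core W) {t : ℝ}
    (ht : t ∈ Icc 0 D.t1) : |ph D N t - phm D W t| ≤ (N.bp ^ 27)⁻¹ ∧ W D.t1 ≠ 0 := by
  have hbp := y.bp_pos
  have hbp10 := y.bp_ten
  have hh := y.h_pos
  have hh10 := y.h_ten
  have ht' : t ∈ Icc 0 D.T := ⟨ht.1, ht.2.trans y.t1_mem.2⟩
  set δ : ℝ := (N.bp ^ 28)⁻¹ with hδ
  have hδ0 : 0 < δ := by positivity
  have hδ1 : δ ≤ 1 / 12 := by
    rw [hδ, inv_eq_one_div]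
    apply one_div_le_one_div_of_le (by norm_num)
    calc (12 : ℝ) ≤ 10 ^ 28 := by norm_num
      _ ≤ N.bp ^ 28 := pow_le_pow_left₀ (by norm_num) hbp10 28
  have hd := fun s hs => (h3 D N y.hl y.so W hW s hs).1
  have hW2 : ∀ s ∈ Icc 0 D.T, ‖W s‖ ≤ 2 * ‖N.V s‖ := by
    intro s hs
    have h1 := hd s hs
    have h2 : ‖W s‖ ≤ ‖N.V s‖ + ‖N.V s - W s‖ := by
      have := norm_le_norm_add_norm_sub (N.V s) (W s)
      linarith
    have h4 : δ * ‖W s‖ ≤ 1 / 12 * ‖W s‖ := mul_le_mul_of_nonneg_right hδ1 (norm_nonneg _)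
    have h5 := norm_nonneg (N.V s)
    linarith
  have hV1 := y.V1_pos
  have hWpos : 0 < ‖W D.t1‖ := by
    have h1 := hd D.t1 y.t1_mem
    by_contra h
    have h0 : ‖W D.t1‖ = 0 := le_antisymm (not_lt.1 h) (norm_nonneg _)
    rw [h0, mul_zero, norm_eq_zero.1 h0, sub_zero] at h1
    linarith
  refine ⟨?_, norm_pos_iff.1 hWpos⟩
  -- size of V t
  have hVt : ∀ s ∈ Icc 0 D.t1, ‖N.V s‖ ≤ 3 * D.h ^ 101 * ‖N.V D.t1‖ := by
    intro s hs
    apply y.V_le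
    refine ⟨hs.1, hs.2.trans ?_⟩
    rw [next_T]
    linarith [y.th_pos]
  -- difference of the normalised waves
  have hdiff : ∀ s ∈ Icc 0 D.t1,
      ‖(‖N.V D.t1‖)⁻¹ • N.V s - (‖W D.t1‖)⁻¹ • W s‖ ≤ 12 * δ * D.h ^ 101 := by
    intro s hs
    have hs' : s ∈ Icc 0 D.T := ⟨hs.1, hs.2.trans y.t1_mem.2⟩
    have e : (‖N.V D.t1‖)⁻¹ • N.V s - (‖W D.t1‖)⁻¹ • W s =
        (‖N.V D.t1‖)⁻¹ • (N.V s - W s) + ((‖N.V D.t1‖)⁻¹ - (‖W D.t1‖)⁻¹) • W s := by
      rw [smul_sub, sub_smul]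
      abel
    have b1 : ‖(‖N.V D.t1‖)⁻¹ • (N.V s - W s)‖ ≤ 6 * δ * D.h ^ 101 := by
      rw [norm_smul, norm_inv, norm_norm]
      calc (‖N.V D.t1‖)⁻¹ * ‖N.V s - W s‖ ≤ (‖N.V D.t1‖)⁻¹ * (δ * ‖W s‖) := by
            gcongr
            exact hd s hs'
        _ ≤ (‖N.V D.t1‖)⁻¹ * (δ * (2 * (3 * D.h ^ 101 * ‖N.V D.t1‖))) := by
            gcongr
            exact (hW2 s hs').trans (mul_le_mul_of_nonneg_left (hVt s hs) (by norm_num))
        _ = 6 * δ * D.h ^ 101 := by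
            field_simp
            ring
    have b2 : ‖((‖N.V D.t1‖)⁻¹ - (‖W D.t1‖)⁻¹) • W s‖ ≤ 6 * δ * D.h ^ 101 := by
      rw [norm_smul, Real.norm_eq_abs]
      have b3 : |(‖N.V D.t1‖)⁻¹ - (‖W D.t1‖)⁻¹| ≤ δ * (‖N.V D.t1‖)⁻¹ := by
        have b4 : |‖W D.t1‖ - ‖N.V D.t1‖| ≤ δ * ‖W D.t1‖ := by
          have := abs_norm_sub_norm_le (N.V D.t1) (W D.t1)
          rw [abs_sub_comm]
          exact this.trans (hd _ y.t1_mem)
        have b5 : (‖N.V D.t1‖)⁻¹ - (‖W D.t1‖)⁻¹ =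
            (‖W D.t1‖ - ‖N.V D.t1‖) * ((‖N.V D.t1‖)⁻¹ * (‖W D.t1‖)⁻¹) := by
          field_simp
        rw [b5, abs_mul, abs_of_pos (by positivity : 0 < (‖N.V D.t1‖)⁻¹ * (‖W D.t1‖)⁻¹)]
        calc |‖W D.t1‖ - ‖N.V D.t1‖| * ((‖N.V D.t1‖)⁻¹ * (‖W D.t1‖)⁻¹)
            ≤ δ * ‖W D.t1‖ * ((‖N.V D.t1‖)⁻¹ * (‖W D.t1‖)⁻¹) := by gcongr
          _ = δ * (‖N.V D.t1‖)⁻¹ := by field_simp
      calc |(‖N.V D.t1‖)⁻¹ - (‖W D.t1‖)⁻¹| * ‖W s‖
          ≤ δ * (‖N.V D.t1‖)⁻¹ * (2 * (3 * D.h ^ 101 * ‖N.V D.t1‖)) := by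
            gcongr
            exact (hW2 s hs').trans (mul_le_mul_of_nonneg_left (hVt s hs) (by norm_num))
        _ = 6 * δ * D.h ^ 101 := by
            field_simp
            ring
    rw [e]
    refine (norm_add_le _ _).trans ((add_le_add b1 b2).trans (le_of_eq (by ring)))
  have h101 : 1 ≤ D.h ^ 101 := one_le_pow₀ (by linarith)
  have hx1 : ‖(‖N.V D.t1‖)⁻¹ • N.V D.t1‖ ≤ 1 := by
    rw [norm_smul, norm_inv, norm_norm, inv_mul_cancel₀ hV1.ne']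
  have hzt : ‖(‖W D.t1‖)⁻¹ • W t‖ ≤ 4 * D.h ^ 101 := by
    have h1 : ‖(‖N.V D.t1‖)⁻¹ • N.V t‖ ≤ 3 * D.h ^ 101 := by
      rw [norm_smul, norm_inv, norm_norm, inv_mul_le_iff₀ hV1]
      have := hVt t ht
      linarith
    have h2 := hdiff t ht
    have h4 := norm_le_norm_add_norm_sub ((‖N.V D.t1‖)⁻¹ • N.V t) ((‖W D.t1‖)⁻¹ • W t)
    have h5 : 12 * δ * D.h ^ 101 ≤ 1 * D.h ^ 101 :=
      mul_le_mul_of_nonneg_right (by linarith) (by positivity)
    linarith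
  have hc := y.t1c D y.hl 1 Hy.one_mem
  have h2627 : D.h ^ 26 ≤ D.h ^ 27 := pow_le_pow_right₀ (by linarith) (by norm_num)
  have h30 : (N.bp ^ 30)⁻¹ ≤ 12 * δ * D.h ^ 101 := by
    have h1 : (N.bp ^ 30)⁻¹ ≤ δ :=
      inv_anti₀ (by positivity) (pow_le_pow_right₀ (by linarith) (by norm_num))
    nlinarith
  have hfin := pair_diff (e := 12 * δ * D.h ^ 101) (L := D.h ^ 27) (Z := 4 * D.h ^ 101)
    (by positivity) (one_le_pow₀ (by linarith)) (hdiff t ht) (hdiff D.t1 ⟨y.t1_pos.le, le_refl _⟩)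
    hx1 hzt (y.F_le ht') (y.Fi_le y.t1_mem) ((hc t ht').2.1.trans h2627)
    ((hc D.t1 y.t1_mem).2.2.1.trans h2627) ((y.so.F_near t ht').trans h30)
    ((y.so.Fi_near D.t1 y.t1_mem).trans h30)
  refine hfin.trans ?_
  have h1 : 12 * δ * D.h ^ 101 * (D.h ^ 27) ^ 2 * (1 + 3 * (4 * D.h ^ 101)) ≤
      δ * D.h ^ 259 := by
    have h2 : 1 + 3 * (4 * D.h ^ 101) ≤ 13 * D.h ^ 101 := by linarith
    calc 12 * δ * D.h ^ 101 * (D.h ^ 27) ^ 2 * (1 + 3 * (4 * D.h ^ 101))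
        ≤ 12 * δ * D.h ^ 101 * (D.h ^ 27) ^ 2 * (13 * D.h ^ 101) := by gcongr
      _ = δ * D.h ^ 256 * 156 := by ring
      _ ≤ δ * D.h ^ 256 * D.h ^ 3 := by
          apply mul_le_mul_of_nonneg_left _ (by positivity)
          calc (156 : ℝ) ≤ 10 ^ 3 := by norm_num
            _ ≤ D.h ^ 3 := pow_le_pow_left₀ (by norm_num) hh10 3
      _ = δ * D.h ^ 259 := by ring
  refine h1.trans ?_
  have h2 := y.pow_le (k := 259) (by norm_num)
  calc δ * D.h ^ 259 ≤ δ * N.bp := by gcongr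
    _ = (N.bp ^ 27)⁻¹ := by
      rw [hδ]
      field_simp

/-- the model is monotone on `[t0, t1]` -/
theorem Hy.phm_mono (y : Hy D N) (hc : CL4) {W : ℝ → E3} (hW : D.Core W) :
    MonotoneOn (phm D W) (Icc D.t0 D.t1) := by
  intro s hs t ht hst
  rw [phm_eq, phm_eq]
  exact mul_le_mul_of_nonneg_left (hc D y.hl W hW hs ht hst) (by positivity)

/-- `f⁺` is almost monotone on `[t0, t1]` -/
theorem Hy.ph_mono (y : Hy D N) (h2 : T2) (h3 : T3) (hc : CL4) {s t : ℝ} (hs : D.t0 ≤ s)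
    (hst : s ≤ t) (ht : t ≤ D.t1) : ph D N s ≤ ph D N t + 2 * (N.bp ^ 27)⁻¹ := by
  obtain ⟨W, hW, -⟩ := h2 D y.hl
  have h0 := y.hl.toKin.toFlo.t0_pos
  have a1 := (abs_le.1 (y.ph_near h3 hW (t := s) ⟨by linarith, hst.trans ht⟩).1).2
  have a2 := (abs_le.1 (y.ph_near h3 hW (t := t) ⟨by linarith, ht⟩).1).1
  have a3 := y.phm_mono hc hW ⟨hs, hst.trans ht⟩ ⟨hs.trans hst, ht⟩ hst
  linarith

theorem Hy.inv27 (y : Hy D N) : (N.bp ^ 27)⁻¹ ≤ 1 / 100 := by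
  rw [inv_eq_one_div]
  apply one_div_le_one_div_of_le (by norm_num)
  calc (100 : ℝ) ≤ 10 ^ 27 := by norm_num
    _ ≤ N.bp ^ 27 := pow_le_pow_left₀ (by norm_num) y.bp_ten 27

/-- case (F) of the next level -/
theorem Hy.far (y : Hy D N) (h2 : T2) (h3 : T3) (hc : CL4) : (D.next N).Far where
  w_le := by
    rw [next_t0]
    have h1 := y.D_th_ge
    have h4 := y.hl.toKin.toFlo.t0_pos
    have hh := y.h_pos
    have h5 : (N.h ^ 7)⁻¹ ≤ (D.h ^ 13)⁻¹ := by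
      apply inv_anti₀ (by positivity)
      exact (y.pow_le_H (k := 13) (by norm_num)).trans
        (le_self_pow₀ (by linarith [y.H_ten]) (by norm_num))
    show (N.h ^ 7)⁻¹ ≤ D.t1
    unfold t1
    linarith
  f0 := y.f_small ⟨le_refl _, y.hl.toKin.toFlo.t0_pos.le⟩
  f_ge t ht := by
    rw [next_t0] at ht
    have h0 := y.f_small (t := 0) ⟨le_refl _, y.hl.toKin.toFlo.t0_pos.le⟩
    have h0' := abs_le.1 h0
    have ha := y.a_ge
    rcases le_total t D.t0 with h | h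
    · have h1 := abs_le.1 (y.f_small (t := t) ⟨ht.1, h⟩)
      linarith
    · have h1 := y.ph_mono h2 h3 hc (le_refl D.t0) h ht.2
      have h4 := y.inv27
      have h5 := abs_le.1 (y.f_small (t := D.t0) ⟨y.hl.toKin.toFlo.t0_pos.le, le_refl _⟩)
      have h6 : (D.next N).f D.t0 ≤ (D.next N).f t + (D.next N).a * (1 / 50) := by
        rw [y.f_eq, y.f_eq, ← mul_add]
        exact mul_le_mul_of_nonneg_left (by linarith) y.a_pos.le
      linarith

/-- the tuned region: Taylor expansion -/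
theorem Hy.g_near (y : Hy D N) (hn : N1w) {t : ℝ} (ht : t ∈ Icc 0 D.t1)
    (h : D.t1 - t ≤ 1 / (240 * N.bp ^ 5)) :
    2 / 5 / D.h * (D.next N).a * (D.t1 - t) ^ 2 ≤ (D.next N).g t := by
  have hbp := y.bp_pos
  have hh := y.h_pos
  have htT : t ∈ Icc 0 (D.next N).T := by
    refine ⟨ht.1, ht.2.trans ?_⟩
    rw [next_T]
    linarith [y.th_pos]
  have habs : |t - D.t1| = D.t1 - t := by
    rw [abs_sub_comm, abs_of_nonneg (by linarith [ht.2])]
  have h1 := hn (D.next N) N.bp y.flo (fun s hs => y.v_le hs) t htT (by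
    rw [next_t0, habs]
    exact h)
  rw [next_t0, habs] at h1
  have h2 := (abs_le.1 h1).1
  set Q : ℝ := (D.next N).a * (D.next N).c * (D.next N).kap * (t - D.t1) ^ 2 with hQ
  have hc := y.c_pos
  have hk : 0 < (D.next N).kap := by linarith [y.kap_ge]
  have ha := y.a_pos
  have hQ0 : 0 ≤ Q := by positivity
  have h3 : 24 * N.bp ^ 5 * (D.t1 - t) ≤ 1 / 10 := by
    have h4 : 24 * N.bp ^ 5 * (D.t1 - t) ≤ 24 * N.bp ^ 5 * (1 / (240 * N.bp ^ 5)) :=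
      mul_le_mul_of_nonneg_left h (by positivity)
    have h5 : 24 * N.bp ^ 5 * (1 / (240 * N.bp ^ 5)) = 1 / 10 := by
      field_simp
      norm_num
    linarith
  have h6 : 9 / 10 * Q ≤ (D.next N).g t := by
    have := mul_le_mul_of_nonneg_right h3 hQ0
    linarith
  refine le_trans ?_ h6
  have h7 : 49 / 100 / D.h ≤ (D.next N).c * (D.next N).kap := by
    have h8 := y.c_ge
    have h9 := y.kap_ge
    calc 49 / 100 / D.h = 98 / 100 / D.h * (1 / 2) := by ring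
      _ ≤ _ := mul_le_mul h8 h9 (by norm_num) hc.le
  have h10 : 0 ≤ (D.next N).a * (t - D.t1) ^ 2 := by positivity
  calc 2 / 5 / D.h * (D.next N).a * (D.t1 - t) ^ 2
      = 2 / 5 / D.h * ((D.next N).a * (t - D.t1) ^ 2) := by ring
    _ ≤ 9 / 10 * (49 / 100 / D.h) * ((D.next N).a * (t - D.t1) ^ 2) := by
        apply mul_le_mul_of_nonneg_right _ h10
        have : 0 < 1 / D.h := by positivity
        calc 2 / 5 / D.h = 2 / 5 * (1 / D.h) := by ring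
          _ ≤ 9 / 10 * (49 / 100) * (1 / D.h) := by
            apply mul_le_mul_of_nonneg_right (by norm_num) this.le
          _ = _ := by ring
    _ ≤ 9 / 10 * ((D.next N).c * (D.next N).kap) * ((D.next N).a * (t - D.t1) ^ 2) := by
        apply mul_le_mul_of_nonneg_right _ h10
        linarith
    _ = 9 / 10 * Q := by
        rw [hQ]
        ring

/-- (h4) of the next level -/
theorem Hy.h4 (y : Hy D N) (h2 : T2) (h3 : T3) (hc : CL4) (hn : N1w) {t : ℝ}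
    (ht : t ∈ Icc 0 D.t1) :
    (N.b)⁻¹ * (D.next N).a * (D.t1 - t) ^ 2 ≤ (D.next N).g t := by
  have hbp := y.bp_pos
  have hbp10 := y.bp_ten
  have hh := y.h_pos
  have hh10 := y.h_ten
  have ha := y.a_pos
  have hs := y.s_ge
  have hs' : 0 < (D.next N).s := by linarith
  have hb : 0 < N.b := by linarith [y.bp_le_b]
  have hsq : (D.t1 - t) ^ 2 ≤ 1 := by
    have h1 : D.t1 ≤ 1 := y.t1_mem.2.trans y.hl.toKin.toFlo.T_one
    have h4 : 0 ≤ D.t1 - t := by linarith [ht.2]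
    have h5 : D.t1 - t ≤ 1 := by linarith [ht.1]
    nlinarith
  rcases le_total t D.t0 with h | h
  · -- far from `t1`
    have h1 := (abs_le.1 (y.f_small (t := t) ⟨ht.1, h⟩)).2
    have h4 := y.a_ge
    have h5 : (D.next N).a / 2 ≤ (D.next N).a - (D.next N).f t := by linarith
    unfold g
    rw [le_div_iff₀ hs']
    refine le_trans ?_ h5
    have h6 : (N.b)⁻¹ * (D.next N).s ≤ 1 / 2 := by
      rw [inv_mul_le_iff₀ hb]
      have h7 := y.s_le
      have h8 := y.pow_le (k := 26) (by norm_num)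
      have h9 := y.bp_le_b
      have h10 : D.h ^ 26 = D.h * D.h ^ 25 := by ring
      have h11 : 0 < D.h ^ 25 := by positivity
      nlinarith
    calc (N.b)⁻¹ * (D.next N).a * (D.t1 - t) ^ 2 * (D.next N).s
        = ((N.b)⁻¹ * (D.next N).s) * ((D.t1 - t) ^ 2 * (D.next N).a) := by ring
      _ ≤ 1 / 2 * (1 * (D.next N).a) := by gcongr
      _ = _ := by ring
  · set ρ : ℝ := 1 / (240 * N.bp ^ 5) with hρ
    have hρ0 : 0 < ρ := by positivity
    rcases le_total (D.t1 - t) ρ with h4 | h4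
    · -- tuned region
      refine le_trans ?_ (y.g_near hn ht h4)
      apply mul_le_mul_of_nonneg_right _ (sq_nonneg _)
      apply mul_le_mul_of_nonneg_right _ ha.le
      rw [inv_eq_one_div, div_le_div_iff₀ hb hh]
      have h8 := y.pow_le (k := 2) (by norm_num)
      have h9 := y.bp_le_b
      nlinarith
    · -- the middle
      have hr : D.t1 - ρ ∈ Icc 0 D.t1 := ⟨by linarith [ht.1], by linarith⟩
      have h5 := y.g_near hn hr (by linarith)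
      have h6 := y.ph_mono h2 h3 hc h (by linarith : t ≤ D.t1 - ρ) (by linarith)
      have h7 : (D.next N).f t ≤ (D.next N).f (D.t1 - ρ) +
          (D.next N).a * (2 * (N.bp ^ 27)⁻¹) := by
        rw [y.f_eq, y.f_eq, ← mul_add]
        exact mul_le_mul_of_nonneg_left h6 ha.le
      have h8 : (D.next N).g (D.t1 - ρ) - (D.next N).a * (2 * (N.bp ^ 27)⁻¹) ≤
          (D.next N).g t := by
        unfold g
        have h9 : ((D.next N).a - (D.next N).f (D.t1 - ρ)) / (D.next N).s -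
            (D.next N).a * (2 * (N.bp ^ 27)⁻¹) ≤
            ((D.next N).a - (D.next N).f (D.t1 - ρ)) / (D.next N).s -
            (D.next N).a * (2 * (N.bp ^ 27)⁻¹) / (D.next N).s := by
          apply sub_le_sub_left
          exact div_le_self (by positivity) hs
        refine h9.trans ?_
        rw [← sub_div]
        exact div_le_div_of_nonneg_right (by linarith) hs'.le
      refine le_trans ?_ h8
      have h10 : (N.b)⁻¹ * (D.next N).a * (D.t1 - t) ^ 2 ≤ (N.b)⁻¹ * (D.next N).a * 1 :=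
        mul_le_mul_of_nonneg_left hsq (by positivity)
      have h11 : (N.b)⁻¹ ≤ (N.bp ^ 13)⁻¹ := inv_anti₀ (by positivity) y.so.b_ge
      have h12 : 3 * (N.bp ^ 13)⁻¹ ≤ 2 / 5 / D.h * (D.t1 - (D.t1 - ρ)) ^ 2 := by
        rw [sub_sub_cancel, hρ, ← div_eq_mul_inv, div_le_iff₀ (by positivity)]
        have h13 : 2 / 5 / D.h * (1 / (240 * N.bp ^ 5)) ^ 2 * N.bp ^ 13 =
            N.bp ^ 3 / (144000 * D.h) := by
          field_simp
          norm_num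
        rw [h13, le_div_iff₀ (by positivity)]
        have h14 := y.pow_le (k := 8) (by norm_num)
        have h15 : 10 ^ 7 * D.h ≤ D.h ^ 8 := by
          calc 10 ^ 7 * D.h ≤ D.h ^ 7 * D.h :=
                mul_le_mul_of_nonneg_right (pow_le_pow_left₀ (by norm_num) hh10 7) hh.le
            _ = D.h ^ 8 := by ring
        have h16 : N.bp ≤ N.bp ^ 3 := le_self_pow₀ (by linarith) (by norm_num)
        linarith
      have h17 : 2 * (N.bp ^ 27)⁻¹ ≤ 2 * (N.bp ^ 13)⁻¹ := by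
        apply mul_le_mul_of_nonneg_left _ (by norm_num)
        exact inv_anti₀ (by positivity) (pow_le_pow_right₀ (by linarith) (by norm_num))
      have h18 : (N.b)⁻¹ * (D.next N).a * 1 + (D.next N).a * (2 * (N.bp ^ 27)⁻¹) ≤
          2 / 5 / D.h * (D.next N).a * (D.t1 - (D.t1 - ρ)) ^ 2 := by
        calc (N.b)⁻¹ * (D.next N).a * 1 + (D.next N).a * (2 * (N.bp ^ 27)⁻¹)
            = (D.next N).a * ((N.b)⁻¹ + 2 * (N.bp ^ 27)⁻¹) := by ring
          _ ≤ (D.next N).a * (2 / 5 / D.h * (D.t1 - (D.t1 - ρ)) ^ 2) :=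
              mul_le_mul_of_nonneg_left (by linarith) ha.le
          _ = _ := by ring
      linarith

end Nx

/-- T7 of ONext, from the other pieces. -/
theorem t7of : T1c → T2 → T3 → T4 → T5 → T6 → CL4 → N1w → T7 := by
  intro h1 h2 h3 h4 h5 h6 hc hn D N hD hs
  have y : Nx.Hy D N := ⟨hD, hs, h1, h4, h5, h6⟩
  exact ⟨y.far h2 h3 hc, fun t ht => y.h4 h2 h3 hc hn ht⟩

end LevD

end Pool.Agent.Work.MP_b0497c_an.Unf.O
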