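import Pool.Agent.Work.MP_b0497c_an.Unf.ODefs

set_option autoImplicit false

/-!
# Statements of the blocks O and K (OK.3 - OK.5)
-/

open Set ContinuousLinearMap RealInnerProductSpace

namespace Pool.Agent.Work.MP_b0497c_an.Unf.O

open Forced.Ode (Op ro)
open Fam K

namespace LevD

/-- F3: the far region `[0, s0]`, all layers, solutions in `k^⊥`. -/
def StF3 : Prop := ∀ D : LevD, D.HL → ∀ al ∈ Icc (-1 : ℝ) 1,
  PBk (D.fam.M al) (D.fam.K al) 0 D.s0 (D.h ^ 16) D.al

/-- The window, all layers, solutions in `k^⊥`. -/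
def StWin : Prop := ∀ D : LevD, D.Kin → ∀ al ∈ Icc (-1 : ℝ) 1,
  PBk (D.fam.M al) (D.fam.K al) D.s0 D.T (D.h ^ 80) (fun t => Real.exp (Real.sqrt 2 * D.sig t))

/-- K1: the centre family on the whole space. -/
def StK1 : Prop := ∀ D : LevD, D.HL → ∀ al ∈ Icc (-1 : ℝ) 1,
  PB (fun t => kel (D.fam.M al t) (D.fam.K al t)) 0 D.T (D.h ^ 150) D.alp

/-- Window and far region to the whole interval and the whole space. -/
def StK1of : Prop := StF3 → StWin → StK1

end LevD

end Pool.Agent.Work.MP_b0497c_an.Unf.O
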