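import Pool.Agent.Work.MP_b0497c_an.Unf.WinC
import Pool.Agent.Work.MP_b0497c_an.Unf.OStmts
import Pool.Agent.Work.MP_b0497c_an.Bd.B03

set_option autoImplicit false

/-!
# The upper bound in the window, all layers
-/

open Set ContinuousLinearMap RealInnerProductSpace

namespace Pool.Agent.Work.MP_b0497c_an.Unf.O

open Forced.Ode (Op ro)
open Fam K

namespace LevD

variable {D : LevD} {b' : ℝ}

/-! ### Primitives -/

theorem Flo.r_sq (h : D.Flo b') : D.r ^ 2 = D.a * D.kap := by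
  unfold r
  exact Real.sq_sqrt (mul_pos h.a_pos h.kap_pos).le

theorem Flo.r_pos (h : D.Flo b') : 0 < D.r := Real.sqrt_pos.2 (mul_pos h.a_pos h.kap_pos)

theorem Kin.At_der (h : D.Kin) (t : ℝ) : HasDerivAt D.At (D.r / D.Lam t) t := by
  have hc := h.toFlo.c_pos
  have hk := h.k0_pos
  have hL := h.Lam_pos t
  have hr2 := h.toFlo.r_sq
  set A1 := Real.sqrt (D.c / D.k0) with hA1
  have hA1p : 0 < A1 := Real.sqrt_pos.2 (by positivity)
  have hA1s : A1 ^ 2 = D.c / D.k0 := Real.sq_sqrt (by positivity)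
  have hA2 : Real.sqrt (D.c * D.k0) = A1 * D.k0 := by
    have : D.c * D.k0 = (A1 * D.k0) ^ 2 := by
      rw [mul_pow, hA1s]
      field_simp
    rw [this, Real.sqrt_sq (by positivity)]
  have h1 : HasDerivAt (fun t => A1 * D.r * (t - D.t0)) (A1 * D.r) t := by
    simpa using ((hasDerivAt_id t).sub_const D.t0).const_mul (A1 * D.r)
  have h2 := h1.arctan.div_const (Real.sqrt (D.c * D.k0))
  have h3 : D.At = fun t => Real.arctan (A1 * D.r * (t - D.t0)) / Real.sqrt (D.c * D.k0) := rfl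
  rw [h3]
  refine h2.congr_deriv ?_
  rw [hA2]
  have h4 : 1 + (A1 * D.r * (t - D.t0)) ^ 2 = D.Lam t / D.k0 := by
    have : (A1 * D.r * (t - D.t0)) ^ 2 = A1 ^ 2 * D.r ^ 2 * (t - D.t0) ^ 2 := by ring
    rw [this, hA1s, hr2]
    unfold Lam
    field_simp
  rw [h4]
  field_simp

theorem Kin.ck0_sqrt (h : D.Kin) : 1 / D.b ≤ Real.sqrt (D.c * D.k0) := by
  have hb : 0 < D.b := by linarith [h.b_ge']
  apply Real.le_sqrt_of_sq_le
  have h1 : 1 / D.b * 10 ^ 4 ≤ D.c * D.k0 :=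
    mul_le_mul h.toFlo.c_ge h.k0_ge (by norm_num) h.toFlo.c_pos.le
  refine le_trans ?_ h1
  rw [div_pow, one_pow, div_mul_eq_mul_div, div_le_div_iff₀ (by positivity) hb]
  have := h.b_ge'
  nlinarith

theorem Kin.At_abs (h : D.Kin) (t : ℝ) : |D.At t| ≤ 2 * D.b := by
  have hb : 0 < D.b := by linarith [h.b_ge']
  have h1 := h.ck0_sqrt
  have h2 : 0 < Real.sqrt (D.c * D.k0) := lt_of_lt_of_le (by positivity) h1
  unfold At
  rw [abs_div, abs_of_pos h2, div_le_iff₀ h2]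
  have h3 : |Real.arctan (Real.sqrt (D.c / D.k0) * D.r * (t - D.t0))| ≤ 2 := by
    have e1 := Real.arctan_lt_pi_div_two (Real.sqrt (D.c / D.k0) * D.r * (t - D.t0))
    have e2 := Real.neg_pi_div_two_lt_arctan (Real.sqrt (D.c / D.k0) * D.r * (t - D.t0))
    have e3 := Real.pi_lt_four
    rw [abs_le]
    constructor <;> linarith
  refine h3.trans ?_
  have h4 : 2 * D.b * (1 / D.b) ≤ 2 * D.b * Real.sqrt (D.c * D.k0) := by gcongr
  have h5 : 2 * D.b * (1 / D.b) = 2 := by field_simp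
  linarith

theorem Kin.sig_Iw (_h : D.Kin) {t : ℝ} (ht : t ∈ D.Iw) : D.sig t = D.At t - D.At D.s0 := by
  unfold sig
  by_cases hts : t ≤ max 0 (D.t0 - D.w)
  · rw [if_pos hts]
    have : t = D.s0 := le_antisymm hts ht.1
    rw [this, sub_self]
  · rw [if_neg hts]
    rfl

/-- `m = a c kap` -/
noncomputable def mm (D : LevD) : ℝ := D.a * D.c * D.kap

/-- the second primitive -/
noncomputable def Ash (D : LevD) (t : ℝ) : ℝ := Real.arsinh (Real.sqrt (D.mm / D.k0) * (t - D.t0))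

theorem Kin.mm_pos (h : D.Kin) : 0 < D.mm := h.toFlo.ack_pos

theorem Lam_mm (t : ℝ) : D.Lam t = D.k0 + D.mm * (t - D.t0) ^ 2 := rfl

theorem Kin.Ash_der (h : D.Kin) (t : ℝ) :
    HasDerivAt D.Ash (Real.sqrt (D.mm / D.Lam t)) t := by
  have hm := h.mm_pos
  have hk := h.k0_pos
  have hL := h.Lam_pos t
  set q := Real.sqrt (D.mm / D.k0) with hq
  have hqs : q ^ 2 = D.mm / D.k0 := Real.sq_sqrt (by positivity)
  have hq0 : 0 ≤ q := Real.sqrt_nonneg _
  have h1 : HasDerivAt (fun t => q * (t - D.t0)) q t := by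
    simpa using ((hasDerivAt_id t).sub_const D.t0).const_mul q
  have h2 := h1.arsinh
  have h3 : D.Ash = fun t => Real.arsinh (q * (t - D.t0)) := rfl
  rw [h3]
  refine h2.congr_deriv ?_
  have h4 : 1 + (q * (t - D.t0)) ^ 2 = D.Lam t / D.k0 := by
    rw [mul_pow, hqs, Lam_mm]
    field_simp
  rw [h4, smul_eq_mul]
  have h5 : (Real.sqrt (D.Lam t / D.k0))⁻¹ * q = Real.sqrt (D.mm / D.Lam t) := by
    rw [hq, ← Real.sqrt_inv, ← Real.sqrt_mul (by positivity)]
    congr 1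
    field_simp
  exact h5

/-- `arsinh y ≤ log (3 y)` for `y ≥ 1` -/
theorem arsinh_le_log {y : ℝ} (hy : 1 ≤ y) : Real.arsinh y ≤ Real.log (3 * y) := by
  rw [Real.arsinh]
  apply Real.log_le_log
  · have := Real.sqrt_nonneg (1 + y ^ 2)
    linarith
  · have : Real.sqrt (1 + y ^ 2) ≤ 2 * y := by
      rw [Real.sqrt_le_left (by linarith)]
      nlinarith
    linarith

theorem Kin.w_mm (h : D.Kin) : Real.sqrt (D.mm / D.k0) * D.w ≤ D.h ^ 5 := by
  have hm := h.mm_pos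
  have hk := h.k0_pos
  have hp := h.toFlo.h_pos
  have ha := h.toFlo.a_pos
  have h1 : D.mm / D.k0 ≤ (D.h ^ 12) ^ 2 := by
    rw [div_le_iff₀ hk]
    have e1 : D.mm ≤ D.a * 2 := by
      unfold mm
      have := h.toFlo.c_le
      have := h.toFlo.kap_le
      have := h.toFlo.c_pos
      have := h.toFlo.kap_pos
      have e2 : D.a * D.c ≤ D.a * 1 := by gcongr
      have e3 : 0 ≤ D.a * D.c := by positivity
      nlinarith
    have e2 : (D.h ^ 12) ^ 2 = D.a := by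
      unfold a
      ring
    rw [e2]
    have := h.k0_ge
    nlinarith
  have h2 : Real.sqrt (D.mm / D.k0) ≤ D.h ^ 12 := by
    rw [Real.sqrt_le_left (by positivity)]
    exact h1
  have hw := h.w_pos
  calc Real.sqrt (D.mm / D.k0) * D.w ≤ D.h ^ 12 * D.w := by gcongr
    _ = D.h ^ 5 := by
      unfold w
      field_simp

theorem Kin.Ash_abs (h : D.Kin) {t : ℝ} (ht : t ∈ D.Iw) : |D.Ash t| ≤ 6 * Real.log D.h := by
  have hx := h.Iw_x ht
  have h1 := h.w_mm
  have hh := h.h1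
  have hp := h.toFlo.h_pos
  have hq0 : 0 ≤ Real.sqrt (D.mm / D.k0) := Real.sqrt_nonneg _
  have h2 : |Real.sqrt (D.mm / D.k0) * (t - D.t0)| ≤ D.h ^ 5 := by
    rw [abs_mul, abs_of_nonneg hq0]
    exact (mul_le_mul_of_nonneg_left hx hq0).trans h1
  have h3 : Real.arsinh (D.h ^ 5) ≤ 6 * Real.log D.h := by
    refine (arsinh_le_log (one_le_pow₀ hh)).trans ?_
    have e1 : (6 : ℝ) * Real.log D.h = Real.log (D.h ^ 6) := by
      rw [Real.log_pow]
      norm_num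
    rw [e1]
    apply Real.log_le_log (by positivity)
    have e2 : (3 : ℝ) ≤ D.h := by
      have := h.h_big
      have e3 : (3 : ℝ) ≤ 10 ^ 100 := by norm_num
      linarith
    calc 3 * D.h ^ 5 ≤ D.h * D.h ^ 5 := by gcongr
      _ = D.h ^ 6 := by ring
  unfold Ash
  obtain ⟨h4, h5⟩ := abs_le.1 h2
  rw [abs_le]
  constructor
  · have := Real.arsinh_le_arsinh.2 h4
    rw [Real.arsinh_neg] at this
    linarith
  · exact (Real.arsinh_le_arsinh.2 h5).trans h3

/-! ### The weight -/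

/-- `S = (2 kap (1 + c lam) / a)^(1/2)` -/
noncomputable def SS (D : LevD) (al t : ℝ) : ℝ :=
  Real.sqrt (2 * D.kap * (1 + D.c * D.fam.Sl al t) / D.a)

/-- the weight `lam S` -/
noncomputable def ll (D : LevD) (al t : ℝ) : ℝ := D.fam.Sl al t * D.SS al t

section weight

variable {al t : ℝ}

theorem Kin.SS_arg (h : D.Kin) (hal : al ≤ 1) (ht : t ∈ D.Iw) :
    0 < 2 * D.kap * (1 + D.c * D.fam.Sl al t) / D.a := by
  have h1 := h.Sl_pos hal ht
  have h2 := h.toFlo.c_pos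
  have h3 := h.toFlo.kap_pos
  have h4 := h.toFlo.a_pos
  positivity

theorem Kin.SS_pos (h : D.Kin) (hal : al ≤ 1) (ht : t ∈ D.Iw) : 0 < D.SS al t :=
  Real.sqrt_pos.2 (h.SS_arg hal ht)

theorem Kin.SS_sq (h : D.Kin) (hal : al ≤ 1) (ht : t ∈ D.Iw) :
    D.SS al t ^ 2 = 2 * D.kap * (1 + D.c * D.fam.Sl al t) / D.a :=
  Real.sq_sqrt (h.SS_arg hal ht).le

theorem Kin.ll_pos (h : D.Kin) (hal : al ≤ 1) (ht : t ∈ D.Iw) : 0 < D.ll al t :=
  mul_pos (h.Sl_pos hal ht) (h.SS_pos hal ht)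

/-- derivative of the weight -/
noncomputable def ll' (D : LevD) (al t : ℝ) : ℝ :=
  -(al * D.fam.phi t) * D.SS al t + D.fam.Sl al t *
    (2 * D.kap * (D.c * -(al * D.fam.phi t)) / D.a / (2 * D.SS al t))

theorem Kin.ll_der (h : D.Kin) (hal : al ≤ 1) (ht : t ∈ D.Iw) :
    HasDerivAt (D.ll al) (D.ll' al t) t := by
  have h1 := h.toFlo.lam_der al (h.Iw_sub ht)
  have h2 : HasDerivAt (fun t => 2 * D.kap * (1 + D.c * D.fam.Sl al t) / D.a)
      (2 * D.kap * (D.c * -(al * D.fam.phi t)) / D.a) t :=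
    (((h1.const_mul D.c).const_add 1).const_mul (2 * D.kap)).div_const D.a
  exact h1.mul (h2.sqrt (h.SS_arg hal ht).ne')

/-- `|l'| / l ≤ (3/2) |lam'| / lam` -/
theorem Kin.ll'_le (h : D.Kin) (hal : al ≤ 1) (ht : t ∈ D.Iw) :
    |D.ll' al t| / D.ll al t ≤ 3 / 2 * (|al * D.fam.phi t| / D.fam.Sl al t) := by
  have hL := h.Sl_pos hal ht
  have hS := h.SS_pos hal ht
  have hS2 := h.SS_sq hal ht
  have hl := h.ll_pos hal ht
  have hc := h.toFlo.c_pos
  have hk := h.toFlo.kap_pos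
  have ha := h.toFlo.a_pos
  set L := D.fam.Sl al t with hLd
  set S := D.SS al t
  have h1 : D.ll' al t = -(al * D.fam.phi t) * (S + L * (2 * D.kap * D.c / D.a) / (2 * S)) := by
    show -(al * D.fam.phi t) * S + L * (2 * D.kap * (D.c * -(al * D.fam.phi t)) / D.a / (2 * S)) = _
    field_simp
    ring
  have h2 : L * (2 * D.kap * D.c / D.a) / (2 * S) ≤ S / 2 := by
    rw [div_le_iff₀ (by positivity)]
    have : S / 2 * (2 * S) = S ^ 2 := by ring
    rw [this, hS2]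
    have e1 : L * (2 * D.kap * D.c / D.a) = 2 * D.kap * (D.c * L) / D.a := by ring
    rw [e1]
    gcongr
    linarith
  have h3 : 0 ≤ L * (2 * D.kap * D.c / D.a) / (2 * S) := by positivity
  rw [h1, abs_mul, abs_neg, abs_of_nonneg (by positivity :
    0 ≤ S + L * (2 * D.kap * D.c / D.a) / (2 * S))]
  have h4 : D.ll al t = L * S := rfl
  rw [h4]
  calc |al * D.fam.phi t| * (S + L * (2 * D.kap * D.c / D.a) / (2 * S)) / (L * S)
      ≤ |al * D.fam.phi t| * (S + S / 2) / (L * S) := by gcongr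
    _ = 3 / 2 * (|al * D.fam.phi t| / L) := by
      field_simp
      ring

/-- `m |x| / Lam ≤ (m / Lam)^(1/2)` -/
theorem Kin.mx_le (h : D.Kin) (t : ℝ) :
    D.mm * |t - D.t0| / D.Lam t ≤ Real.sqrt (D.mm / D.Lam t) := by
  have hm := h.mm_pos
  have hL := h.Lam_pos t
  apply Real.le_sqrt_of_sq_le
  rw [div_pow, mul_pow, sq_abs, div_le_div_iff₀ (by positivity) hL]
  have h1 : D.mm * (t - D.t0) ^ 2 ≤ D.Lam t := h.ackx_le t
  have h2 : 0 ≤ D.mm * D.Lam t := by positivity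
  nlinarith

theorem Kin.phi_le' (h : D.Kin) (ht : t ∈ D.Iw) :
    |D.fam.phi t| ≤ 2.01 * (D.mm * |t - D.t0|) := by
  have h1 := h.toFlo.phi_rel (h.nr ht)
  have h2 := h.toFlo.er1_le (h.nr ht)
  have hm := h.mm_pos
  have h3 : |2 * D.a * D.c * D.kap * (t - D.t0)| = 2 * (D.mm * |t - D.t0|) := by
    have e1 : 2 * D.a * D.c * D.kap * (t - D.t0) = 2 * D.mm * (t - D.t0) := by
      unfold mm
      ring
    rw [e1, abs_mul, abs_of_pos (by positivity)]
    ring
  have h4 : |D.fam.phi t| ≤ |D.fam.phi t + 2 * D.a * D.c * D.kap * (t - D.t0)|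
      + |2 * D.a * D.c * D.kap * (t - D.t0)| := by
    have := abs_sub (D.fam.phi t + 2 * D.a * D.c * D.kap * (t - D.t0))
      (2 * D.a * D.c * D.kap * (t - D.t0))
    rwa [add_sub_cancel_right] at this
  rw [h3] at h4
  have h5 : 0 ≤ D.mm * |t - D.t0| := by positivity
  have h6 : D.a * D.c * D.kap * |t - D.t0| = D.mm * |t - D.t0| := rfl
  rw [h6] at h1
  nlinarith

/-- `(3/2) |lam'| / lam ≤ 3.1 (m / Lam)^(1/2)` -/
theorem Kin.lvar (h : D.Kin) (hal : al ∈ Icc (-1 : ℝ) 1) (ht : t ∈ D.Iw) :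
    3 / 2 * (|al * D.fam.phi t| / D.fam.Sl al t) ≤ 3.1 * Real.sqrt (D.mm / D.Lam t) := by
  have h1 := h.phi_le' ht
  have h2 := h.mx_le t
  have h3 := h.Sl_ge hal.2 ht
  have h4 := h.lam1_lo ht
  have hL := h.Lam_pos t
  have hm := h.mm_pos
  have h5 : |al * D.fam.phi t| ≤ 2.01 * (D.mm * |t - D.t0|) := by
    rw [abs_mul]
    have : |al| ≤ 1 := abs_le.2 hal
    calc |al| * |D.fam.phi t| ≤ 1 * |D.fam.phi t| := by gcongr
      _ ≤ _ := by linarith
  have h6 : |al * D.fam.phi t| / D.fam.Sl al t ≤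
      2.01 * (D.mm * |t - D.t0|) / (0.99 * D.Lam t) := by
    apply div_le_div₀ (by positivity) h5 (by positivity)
    linarith
  have h7 : 2.01 * (D.mm * |t - D.t0|) / (0.99 * D.Lam t) =
      2.01 / 0.99 * (D.mm * |t - D.t0| / D.Lam t) := by
    field_simp
  rw [h7] at h6
  have h8 : 0 ≤ D.mm * |t - D.t0| / D.Lam t := by positivity
  have h9 : 0 ≤ Real.sqrt (D.mm / D.Lam t) := Real.sqrt_nonneg _
  calc 3 / 2 * (|al * D.fam.phi t| / D.fam.Sl al t)
      ≤ 3 / 2 * (2.01 / 0.99 * (D.mm * |t - D.t0| / D.Lam t)) := by gcongr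
    _ ≤ 3.1 * (D.mm * |t - D.t0| / D.Lam t) := by nlinarith
    _ ≤ _ := by gcongr

/-- the small number of the rates -/
noncomputable def rh (D : LevD) : ℝ := 40 * D.b ^ 3 * D.w

theorem Kin.rh_pos (h : D.Kin) : 0 < D.rh := by
  have := h.b_ge'
  have := h.w_pos
  unfold rh
  positivity

theorem Kin.rh_le (h : D.Kin) : D.rh ≤ 1 / 10 ^ 6 := by
  have h1 := h.w_ro (k := 3) (m := 8) (by norm_num)
  have h2 : D.ro ≤ 1 := by
    unfold LevD.ro
    exact inv_le_one_of_one_le₀ (one_le_pow₀ h.h1)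
  unfold rh
  have h3 := h.w_pos
  have hb : 0 < D.b := by linarith [h.b_ge']
  have h4 : 0 ≤ D.b ^ 3 * D.w := by positivity
  nlinarith

theorem Kin.be_le (h : D.Kin) (hal : al ≤ 1) (ht : t ∈ D.Iw) :
    |D.be al t| ≤ D.kap * (1 + D.c * D.fam.Sl al t) * (1 + D.rh) := by
  have hL := h.Sl_pos hal ht
  have h1 := h.toFlo.be_near (al := al) (h.nr ht) hL.le
  have hu := h.uu_w ht
  have hu0 := h.toFlo.uu_nonneg t
  have hc := h.toFlo.c_pos
  have hk := h.toFlo.kap_pos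
  have hk' := h.toFlo.kap_ge
  have hb := h.b_ge'
  have hw := h.w_pos
  set L := D.fam.Sl al t
  have h2 : |D.kap * (1 - D.c * L)| ≤ D.kap * (1 + D.c * L) := by
    rw [abs_mul, abs_of_pos hk]
    have : |1 - D.c * L| ≤ 1 + D.c * L := by
      have hcL : 0 < D.c * L := by positivity
      rw [abs_le]
      constructor <;> linarith
    gcongr
  have h3 : 1 + L ≤ D.b * (1 + D.c * L) := by
    have e1 : 1 ≤ D.b * D.c := by
      have := h.toFlo.c_ge
      rw [div_le_iff₀ (by linarith)] at this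
      linarith
    nlinarith
  have h4 : 17 * D.b * D.uu D.b t * (1 + L) ≤ D.kap * (1 + D.c * L) * D.rh := by
    calc 17 * D.b * D.uu D.b t * (1 + L)
        ≤ 17 * D.b * (D.b * D.w) * (D.b * (1 + D.c * L)) := by gcongr
      _ = 17 * D.b ^ 3 * D.w * (1 + D.c * L) := by ring
      _ ≤ D.kap * (1 + D.c * L) * D.rh := by
        unfold rh
        have e2 : 0 ≤ D.b ^ 3 * D.w * (1 + D.c * L) := by positivity
        nlinarith
  have h5 := abs_sub_abs_le_abs_sub (D.be al t) (D.kap * (1 - D.c * L))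
  nlinarith

/-- `a S / lam ≤ √2 (r / lam + (m / lam)^(1/2))` -/
theorem Kin.aS_le (h : D.Kin) (hal : al ≤ 1) (ht : t ∈ D.Iw) :
    D.a * D.SS al t / D.fam.Sl al t ≤
      Real.sqrt 2 * (D.r / D.fam.Sl al t + Real.sqrt (D.mm / D.fam.Sl al t)) := by
  have hL := h.Sl_pos hal ht
  have ha := h.toFlo.a_pos
  have hm := h.mm_pos
  have hr := h.toFlo.r_pos
  have hr2 := h.toFlo.r_sq
  have hk := h.toFlo.kap_pos
  set L := D.fam.Sl al t with hLd
  have h1 : D.a * D.SS al t = Real.sqrt (2 * (D.r ^ 2 + D.mm * L)) := by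
    unfold SS
    rw [hr2]
    have e1 : 2 * (D.a * D.kap + D.mm * L) = D.a ^ 2 * (2 * D.kap * (1 + D.c * L) / D.a) := by
      unfold mm
      field_simp
    rw [e1, Real.sqrt_mul (by positivity), Real.sqrt_sq ha.le]
  have h2 : Real.sqrt (2 * (D.r ^ 2 + D.mm * L)) ≤
      Real.sqrt 2 * (D.r + Real.sqrt (D.mm * L)) := by
    rw [Real.sqrt_mul (by norm_num)]
    gcongr
    rw [Real.sqrt_le_left (by positivity)]
    have e1 := Real.sq_sqrt (show 0 ≤ D.mm * L by positivity)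
    have e2 := Real.sqrt_nonneg (D.mm * L)
    nlinarith
  have h3 : Real.sqrt (D.mm * L) / L = Real.sqrt (D.mm / L) := by
    have e1 : D.mm / L = (Real.sqrt (D.mm * L) / L) ^ 2 := by
      rw [div_pow, Real.sq_sqrt (by positivity)]
      field_simp
    rw [e1, Real.sqrt_sq (by positivity)]
  rw [h1, div_le_iff₀ hL]
  refine h2.trans (le_of_eq ?_)
  rw [← h3]
  field_simp

/-- the rate -/
noncomputable def Rt' (D : LevD) (t : ℝ) : ℝ :=
  2 * Real.sqrt 2 * (1 + 6 * D.rh) * (D.r / D.Lam t) + 6 * Real.sqrt (D.mm / D.Lam t)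

/-- primitive of the rate -/
noncomputable def Rt (D : LevD) (t : ℝ) : ℝ :=
  2 * Real.sqrt 2 * (1 + 6 * D.rh) * D.At t + 6 * D.Ash t

theorem Kin.Rt_der (h : D.Kin) (t : ℝ) : HasDerivAt D.Rt (D.Rt' t) t :=
  ((h.At_der t).const_mul _).add ((h.Ash_der t).const_mul _)

theorem sqrt2_le : Real.sqrt 2 ≤ 1.415 := by
  rw [Real.sqrt_le_left (by norm_num)]
  norm_num

/-- the main rate estimate -/
theorem Kin.rate (h : D.Kin) (hal : al ∈ Icc (-1 : ℝ) 1) (ht : t ∈ D.Iw) :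
    D.ll al t * |D.fam.Om al t * (‖D.fam.D t‖ ^ 2 / ‖D.fam.K al t‖ ^ 2)|
      + |2 * (D.fam.b0 t + D.fam.b t * D.fam.Sl al t)| / D.ll al t
      + |D.ll' al t| / D.ll al t ≤ D.Rt' t := by
  have hL := h.Sl_pos hal.2 ht
  have hLb := h.Sl_big hal.2 ht
  have hS := h.SS_pos hal.2 ht
  have hS2 := h.SS_sq hal.2 ht
  have ha := h.toFlo.a_pos
  have h1 := h.cA_le hal ht
  have h2 := h.be_le hal.2 ht
  have h3 := h.ll'_le hal.2 ht
  have h4 := h.lvar hal ht
  have h5 := h.aS_le hal.2 ht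
  have h6 := h.Sl_ge hal.2 ht
  have h7 := abs_le.1 (h.lam1_Lam ht)
  have h8 := h.er1_w ht
  have h9 := h.toFlo.er1_nonneg t
  have hLam := h.Lam_pos t
  have hm := h.mm_pos
  have hr := h.toFlo.r_pos
  have hrh := h.rh_pos
  have hrh' := h.rh_le
  have hb := h.b_ge'
  have hw := h.w_pos
  have hs2 : 0 < Real.sqrt 2 := by positivity
  set L := D.fam.Sl al t with hLd
  set S := D.SS al t with hSd
  have hll : D.ll al t = L * S := rfl
  -- first term
  have f1 : D.ll al t * |D.fam.Om al t * (‖D.fam.D t‖ ^ 2 / ‖D.fam.K al t‖ ^ 2)| ≤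
      (1 + D.rh) * (D.a * S / L) := by
    have e1 : 40 * D.b * D.w ≤ D.rh := by
      unfold rh
      have : D.b ≤ D.b ^ 3 := le_self_pow₀ (by linarith) (by norm_num)
      gcongr
    calc D.ll al t * |D.fam.Om al t * (‖D.fam.D t‖ ^ 2 / ‖D.fam.K al t‖ ^ 2)|
        ≤ L * S * (D.a * (1 + 40 * D.b * D.w) / L ^ 2) := by
          rw [hll]
          gcongr
      _ ≤ L * S * (D.a * (1 + D.rh) / L ^ 2) := by gcongr
      _ = (1 + D.rh) * (D.a * S / L) := by field_simp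
  -- second term
  have f2 : |2 * (D.fam.b0 t + D.fam.b t * L)| / D.ll al t ≤ (1 + D.rh) * (D.a * S / L) := by
    rw [abs_mul, abs_two, hll, div_le_iff₀ (by positivity)]
    have e1 : (1 + D.rh) * (D.a * S / L) * (L * S) = (1 + D.rh) * (D.a * S ^ 2) := by
      field_simp
    rw [e1, hS2]
    have e2 : D.a * (2 * D.kap * (1 + D.c * L) / D.a) = 2 * D.kap * (1 + D.c * L) := by
      field_simp
    rw [e2]
    have e3 : |D.fam.b0 t + D.fam.b t * L| = |D.be al t| := rfl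
    rw [e3]
    linarith
  -- replace `lam` by `Lam`
  have g1 : (1 - 1.5 * D.rh) * D.Lam t ≤ L := by
    have e1 : D.er1 D.b t ≤ 1.5 * D.rh := by
      unfold rh
      linarith
    nlinarith
  have g2 : D.r / L ≤ (1 + 2 * D.rh) * (D.r / D.Lam t) := by
    have e0 : 0 < (1 - 1.5 * D.rh) * D.Lam t := by
      have : 0 < 1 - 1.5 * D.rh := by linarith
      positivity
    have e1 : D.r / L ≤ D.r / ((1 - 1.5 * D.rh) * D.Lam t) := by gcongr
    refine e1.trans ?_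
    have e2 : (1 + 2 * D.rh) * (D.r / D.Lam t) = (1 + 2 * D.rh) * D.r / D.Lam t := by ring
    rw [e2, div_le_div_iff₀ e0 hLam]
    have e3 : 1 ≤ (1 + 2 * D.rh) * (1 - 1.5 * D.rh) := by nlinarith
    have e4 : 0 ≤ D.r * D.Lam t := by positivity
    nlinarith
  have g3 : Real.sqrt (D.mm / L) ≤ 1.01 * Real.sqrt (D.mm / D.Lam t) := by
    rw [Real.sqrt_le_left (by positivity), mul_pow, Real.sq_sqrt (by positivity)]
    have e0 : 0.99 * D.Lam t ≤ L := by nlinarith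
    have e1 : D.mm / L ≤ D.mm / (0.99 * D.Lam t) := by gcongr
    refine e1.trans ?_
    rw [div_le_iff₀ (by positivity)]
    have : 1.01 ^ 2 * (D.mm / D.Lam t) * (0.99 * D.Lam t) = 1.01 ^ 2 * 0.99 * D.mm := by
      field_simp
    rw [this]
    nlinarith
  set X := D.r / D.Lam t
  set Y := Real.sqrt (D.mm / D.Lam t)
  have hX : 0 ≤ X := by positivity
  have hY : 0 ≤ Y := Real.sqrt_nonneg _
  have k1 : D.a * S / L ≤ Real.sqrt 2 * ((1 + 2 * D.rh) * X + 1.01 * Y) := by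
    refine h5.trans ?_
    gcongr
  have k2 : 2 * ((1 + D.rh) * (D.a * S / L)) ≤
      2 * ((1 + D.rh) * (Real.sqrt 2 * ((1 + 2 * D.rh) * X + 1.01 * Y))) := by gcongr
  have k3 : 2 * ((1 + D.rh) * (Real.sqrt 2 * ((1 + 2 * D.rh) * X + 1.01 * Y))) ≤
      2 * Real.sqrt 2 * (1 + 6 * D.rh) * X + 2.9 * Y := by
    have e1 : (1 + D.rh) * (1 + 2 * D.rh) ≤ 1 + 6 * D.rh := by nlinarith
    have e2 : 2 * ((1 + D.rh) * (Real.sqrt 2 * ((1 + 2 * D.rh) * X + 1.01 * Y))) =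
      2 * Real.sqrt 2 * X * ((1 + D.rh) * (1 + 2 * D.rh)) +
        2.02 * (1 + D.rh) * Real.sqrt 2 * Y := by ring
    rw [e2]
    have e3 : 2.02 * (1 + D.rh) * Real.sqrt 2 ≤ 2.9 := by
      have := sqrt2_le
      nlinarith
    have e4 : 2 * Real.sqrt 2 * X * ((1 + D.rh) * (1 + 2 * D.rh)) ≤
      2 * Real.sqrt 2 * X * (1 + 6 * D.rh) := by gcongr
    nlinarith
  unfold Rt'
  linarith

end weight

/-! ### The bound -/

theorem Kin.ll_up (h : D.Kin) {al t : ℝ} (hal : al ∈ Icc (-1 : ℝ) 1) (ht : t ∈ D.Iw) :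
    D.ll al t ≤ 25 * D.a * D.b ^ 2 := by
  have h1 := h.Sl_up hal ht
  have h2 := h.Sl_pos hal.2 ht
  have ha := h.toFlo.a_pos
  have hA := h.a_big
  have hb := h.b_ge'
  have hc := h.toFlo.c_le
  have hc0 := h.toFlo.c_pos
  have hk := h.toFlo.kap_le
  have hk0 := h.toFlo.kap_pos
  have h3 : D.SS al t ≤ 5 * D.b := by
    unfold SS
    rw [Real.sqrt_le_left (by positivity), div_le_iff₀ ha]
    have e1 : D.c * D.fam.Sl al t ≤ 5 * D.a * D.b := by nlinarith
    have e2 : 2 * D.kap * (1 + D.c * D.fam.Sl al t) ≤ 2 * 2 * (1 + 5 * D.a * D.b) := by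
      gcongr
    have e3 : (1 : ℝ) ≤ 10 ^ 100 := by norm_num
    nlinarith [mul_pos ha (show 0 < D.b by linarith)]
  have h4 := h.SS_pos hal.2 ht
  unfold ll
  calc D.fam.Sl al t * D.SS al t ≤ (5 * D.a * D.b) * (5 * D.b) := by gcongr
    _ = _ := by ring

/-- `1 ≤ h^12 S` -/
theorem Kin.SS_lo (h : D.Kin) {al t : ℝ} (hal : al ≤ 1) (ht : t ∈ D.Iw) :
    1 ≤ D.h ^ 12 * D.SS al t := by
  have h2 := h.Sl_pos hal ht
  have hc := h.toFlo.c_pos
  have hk := h.toFlo.kap_ge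
  have hp := h.toFlo.h_pos
  have h1 : (D.h ^ 12)⁻¹ ≤ D.SS al t := by
    unfold SS
    apply Real.le_sqrt_of_sq_le
    unfold a
    rw [inv_pow, ← pow_mul, ← one_div]
    gcongr
    have : 0 < D.c * D.fam.Sl al t := by positivity
    nlinarith
  have h3 : D.h ^ 12 * (D.h ^ 12)⁻¹ ≤ D.h ^ 12 * D.SS al t := by gcongr
  rwa [mul_inv_cancel₀ (by positivity)] at h3

theorem Kin.SS_up (h : D.Kin) {al t : ℝ} (hal : al ∈ Icc (-1 : ℝ) 1) (ht : t ∈ D.Iw) :
    D.SS al t ≤ 5 * D.b := by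
  have h1 := h.Sl_up hal ht
  have h2 := h.Sl_pos hal.2 ht
  have ha := h.toFlo.a_pos
  have hA := h.a_big
  have hb := h.b_ge'
  have hc := h.toFlo.c_le
  have hc0 := h.toFlo.c_pos
  have hk := h.toFlo.kap_le
  have hk0 := h.toFlo.kap_pos
  unfold SS
  rw [Real.sqrt_le_left (by positivity), div_le_iff₀ ha]
  have e1 : D.c * D.fam.Sl al t ≤ 5 * D.a * D.b := by nlinarith
  have e2 : 2 * D.kap * (1 + D.c * D.fam.Sl al t) ≤ 2 * 2 * (1 + 5 * D.a * D.b) := by
    gcongr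
  have e3 : (1 : ℝ) ≤ 10 ^ 100 := by norm_num
  nlinarith [mul_pos ha (show 0 < D.b by linarith)]

/-- energy against norm -/
theorem Kin.V_le (h : D.Kin) {al t : ℝ} (hal : al ∈ Icc (-1 : ℝ) 1) (ht : t ∈ D.Iw)
    {u : ℝ → E3} (h0 : ⟪D.fam.K al t, u t⟫ = 0) :
    D.ll al t * D.fam.p u t ^ 2 + D.fam.q al u t ^ 2 / D.ll al t ≤ D.h ^ 38 * ‖u t‖ ^ 2 := by
  have hn := FamD.normX (F := D.fam) (h.toFlo.D_all t) h0
  have hl := h.ll_pos hal.2 ht
  have hlu := h.ll_up hal ht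
  have hL := h.Sl_pos hal.2 ht
  have hLb := h.Sl_big hal.2 ht
  have hLu := h.Sl_up hal ht
  have hS := h.SS_pos hal.2 ht
  have hSl := h.SS_lo hal.2 ht
  have hQ := h.toFlo.QQ_pos al t
  have hQl := h.toFlo.QQ_lo (al := al) (h.nr ht) (by linarith)
  have hu := h.toFlo.uu_le (h.nr ht)
  have hu0 := h.toFlo.uu_nonneg t
  have hB := abs_le.1 (h.toFlo.Bsq (h.nr ht))
  have hp := h.toFlo.h_pos
  have ha := h.toFlo.a_pos
  have hb := h.b_ge'
  rw [Flo.normD] at hn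
  have hQd : ‖D.B t‖ ^ 2 / ‖D.fam.K al t‖ ^ 2 = D.QQ al t := by
    unfold QQ
    rw [Flo.normD]
  rw [hQd] at hn
  set L := D.fam.Sl al t
  set S := D.SS al t
  set G := ‖D.B t‖ ^ 2
  set Q := D.QQ al t
  set p := D.fam.p u t
  set q := D.fam.q al u t
  have hG : 0 < G := by linarith
  have hll : D.ll al t = L * S := rfl
  -- `Q L² ≥ 1/2`
  have hQ2 : 1 / 2 ≤ Q * L ^ 2 := by
    refine le_trans ?_ hQl
    have e1 : (1 + 6 * D.uu D.b t) / L ^ 2 ≤ 1 / 4 := by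
      rw [div_le_div_iff₀ (by positivity) (by norm_num)]
      nlinarith
    linarith
  have t1 : D.ll al t * p ^ 2 ≤ 1.01 * (25 * D.a * D.b ^ 2) * (p ^ 2 / G) := by
    have e1 : p ^ 2 = G * (p ^ 2 / G) := by field_simp
    have e2 : 0 ≤ p ^ 2 / G := by positivity
    calc D.ll al t * p ^ 2 = D.ll al t * G * (p ^ 2 / G) := by rw [mul_assoc, ← e1]
      _ ≤ (25 * D.a * D.b ^ 2) * 1.01 * (p ^ 2 / G) := by
          gcongr
          linarith
      _ = _ := by ring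
  have t2 : q ^ 2 / D.ll al t ≤ (10 * D.a * D.b * D.h ^ 12) * (q ^ 2 * Q) := by
    rw [hll, div_le_iff₀ (by positivity)]
    have e1 : 1 ≤ (10 * D.a * D.b * D.h ^ 12) * Q * (L * S) := by
      have e2 : L ≤ 5 * D.a * D.b := hLu
      have e3 : 1 / 2 * 1 ≤ (Q * L ^ 2) * (D.h ^ 12 * S) :=
        mul_le_mul hQ2 hSl (by norm_num) (by positivity)
      have e4 : (Q * L ^ 2) * (D.h ^ 12 * S) = L * (Q * (L * S) * D.h ^ 12) := by ring
      have e5 : L * (Q * (L * S) * D.h ^ 12) ≤ (5 * D.a * D.b) * (Q * (L * S) * D.h ^ 12) := by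
        gcongr
      calc (1 : ℝ) = 2 * (1 / 2 * 1) := by norm_num
        _ ≤ 2 * ((5 * D.a * D.b) * (Q * (L * S) * D.h ^ 12)) := by linarith
        _ = _ := by ring
    have e6 : 0 ≤ q ^ 2 := sq_nonneg q
    calc q ^ 2 = q ^ 2 * 1 := by ring
      _ ≤ q ^ 2 * ((10 * D.a * D.b * D.h ^ 12) * Q * (L * S)) := by gcongr
      _ = _ := by ring
  have c1 : 1.01 * (25 * D.a * D.b ^ 2) ≤ D.h ^ 38 := by
    have e1 := h.ten_le (k := 2) (m := 2) (by norm_num)
    have e2 : D.h ^ 38 = D.a * D.h * D.h ^ 13 := by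
      unfold a
      ring
    have e3 : 1 ≤ D.h ^ 13 := one_le_pow₀ h.h1
    have e5 : 0 ≤ D.b ^ 2 := sq_nonneg _
    calc 1.01 * (25 * D.a * D.b ^ 2) = D.a * (1.01 * 25 * D.b ^ 2) * 1 := by ring
      _ ≤ D.a * D.h * D.h ^ 13 := by
        gcongr
        linarith
      _ = D.h ^ 38 := e2.symm
  have c2 : 10 * D.a * D.b * D.h ^ 12 ≤ D.h ^ 38 := by
    have e1 := h.ten_le (k := 1) (m := 1) (by norm_num)
    have e2 : D.h ^ 38 = D.a * D.h ^ 2 * D.h ^ 12 := by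
      unfold a
      ring
    have e3 : D.h ≤ D.h ^ 2 := le_self_pow₀ h.h1 (by norm_num)
    calc 10 * D.a * D.b * D.h ^ 12 = D.a * (10 ^ 1 * D.b ^ 1) * D.h ^ 12 := by ring
      _ ≤ D.a * D.h ^ 2 * D.h ^ 12 := by
        gcongr
        linarith
      _ = D.h ^ 38 := e2.symm
  have hp2 : 0 ≤ p ^ 2 / G := by positivity
  have hq2 : 0 ≤ q ^ 2 * Q := by positivity
  rw [hn]
  calc D.ll al t * p ^ 2 + q ^ 2 / D.ll al t
      ≤ 1.01 * (25 * D.a * D.b ^ 2) * (p ^ 2 / G) + (10 * D.a * D.b * D.h ^ 12) * (q ^ 2 * Q) :=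
        add_le_add t1 t2
    _ ≤ D.h ^ 38 * (p ^ 2 / G) + D.h ^ 38 * (q ^ 2 * Q) := by gcongr
    _ = _ := by ring

/-- norm against energy -/
theorem Kin.u_le (h : D.Kin) {al t : ℝ} (hal : al ∈ Icc (-1 : ℝ) 1) (ht : t ∈ D.Iw)
    {u : ℝ → E3} (h0 : ⟪D.fam.K al t, u t⟫ = 0) :
    ‖u t‖ ^ 2 ≤ D.h ^ 13 * (D.ll al t * D.fam.p u t ^ 2 + D.fam.q al u t ^ 2 / D.ll al t) := by
  have hn := FamD.normX (F := D.fam) (h.toFlo.D_all t) h0
  have hl := h.ll_pos hal.2 ht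
  have hL := h.Sl_pos hal.2 ht
  have hLb := h.Sl_big hal.2 ht
  have hS := h.SS_pos hal.2 ht
  have hSl := h.SS_lo hal.2 ht
  have hSu := h.SS_up hal ht
  have hQ := h.toFlo.QQ_pos al t
  have hQu := h.toFlo.QQ_up (al := al) (h.nr ht) (by linarith)
  have hu := h.toFlo.uu_le (h.nr ht)
  have hu0 := h.toFlo.uu_nonneg t
  have hB := abs_le.1 (h.toFlo.Bsq (h.nr ht))
  have hp := h.toFlo.h_pos
  have ha := h.toFlo.a_pos
  have hb := h.b_ge'
  rw [Flo.normD] at hn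
  have hQd : ‖D.B t‖ ^ 2 / ‖D.fam.K al t‖ ^ 2 = D.QQ al t := by
    unfold QQ
    rw [Flo.normD]
  rw [hQd] at hn
  set L := D.fam.Sl al t
  set S := D.SS al t
  set G := ‖D.B t‖ ^ 2
  set Q := D.QQ al t
  set p := D.fam.p u t
  set q := D.fam.q al u t
  have hG : 0 < G := by linarith
  have hll : D.ll al t = L * S := rfl
  have h13 : D.h ^ 12 * D.h = D.h ^ 13 := by ring
  have hten : (10 : ℝ) * D.b ≤ D.h := by
    have := h.ten_le (k := 1) (m := 1) (by norm_num)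
    simpa using this
  have t1 : p ^ 2 / G ≤ D.h ^ 13 * (D.ll al t * p ^ 2) := by
    rw [div_le_iff₀ hG, hll]
    have e1 : 1 ≤ D.h ^ 13 * (L * S) * G := by
      have e2 : 1 * 9900 ≤ (D.h ^ 12 * S) * L := mul_le_mul hSl hLb (by norm_num) (by positivity)
      have e3 : 1 ≤ D.h := h.h1
      have e4 : (1:ℝ) / 2 ≤ G := by linarith
      calc (1 : ℝ) ≤ 9900 * 1 * (1 / 2) := by norm_num
        _ ≤ ((D.h ^ 12 * S) * L) * D.h * G := by gcongr; linarith
        _ = _ := by ring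
    calc p ^ 2 = p ^ 2 * 1 := by ring
      _ ≤ p ^ 2 * (D.h ^ 13 * (L * S) * G) := by gcongr
      _ = _ := by ring
  have t2 : q ^ 2 * Q ≤ D.h ^ 13 * (q ^ 2 / D.ll al t) := by
    rw [hll]
    have e1 : Q * (L * S) ≤ D.h ^ 13 := by
      have e2 : Q * L ^ 2 ≤ 2 := by linarith
      have e3 : Q * L ≤ 2 := by
        have : Q * L ≤ Q * L ^ 2 := by
          rw [sq]
          have : 0 < Q * L := by positivity
          nlinarith
        linarith
      have e4 : Q * (L * S) ≤ 2 * (5 * D.b) := by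
        calc Q * (L * S) = (Q * L) * S := by ring
          _ ≤ 2 * (5 * D.b) := by gcongr
      have e5 : D.h ≤ D.h ^ 13 := le_self_pow₀ h.h1 (by norm_num)
      linarith
    have e6 : D.h ^ 13 * (q ^ 2 / (L * S)) = q ^ 2 * (D.h ^ 13 / (L * S)) := by ring
    rw [e6]
    gcongr
    rw [le_div_iff₀ (by positivity)]
    exact e1
  rw [hn]
  calc p ^ 2 / G + q ^ 2 * Q ≤ D.h ^ 13 * (D.ll al t * p ^ 2) + D.h ^ 13 * (q ^ 2 / D.ll al t) :=
        add_le_add t1 t2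
    _ = _ := by ring

/-- **The window, all layers.** -/
theorem stWin : StWin := by
  intro D h al hal s hs t ht u hu h0
  have hsub : ∀ r ∈ Icc s t, r ∈ D.Iw := fun r hr => ⟨hs.1.trans hr.1, hr.2.trans ht.2⟩
  have hsI : s ∈ D.Iw := hs
  have htI : t ∈ D.Iw := hsub t ⟨ht.1, le_rfl⟩
  have hok := h.toFlo.ok
  have h0' : ∀ r ∈ Icc s t, ⟪D.fam.K al r, u r⟫ = 0 := by
    intro r hr
    rw [inner_const (fun r hr => hok.Kd al (h.Iw_sub (hsub r hr)))
      (fun r _ => h.toFlo.K_all al r) hu r hr, h0]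
  have hkel : ∀ r ∈ Icc s t, D.fam.Kelv al u 0 r := by
    intro r hr
    have := hu r hr
    rw [kel_eq] at this
    unfold FamD.Kelv
    rwa [add_zero]
  have hE := energy_le (p := D.fam.p u) (q := D.fam.q al u)
    (A := fun r => D.fam.Om al r * (‖D.fam.D r‖ ^ 2 / ‖D.fam.K al r‖ ^ 2))
    (B := fun r => 2 * (D.fam.b0 r + D.fam.b r * D.fam.Sl al r)) (a1 := fun _ => 0)
    (a2 := fun _ => 0) (l := D.ll al) (l' := D.ll' al) (R := D.Rt) (R' := D.Rt') ht.1
    (fun r hr => by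
      have := hok.pd (h.Iw_sub (hsub r hr)) (hkel r hr) (h0' r hr)
      refine this.congr_deriv ?_
      rw [inner_zero_left]
      ring)
    (fun r hr => by
      have := hok.qd (h.Iw_sub (hsub r hr)) (hkel r hr) (h0' r hr)
      refine this.congr_deriv ?_
      rw [inner_zero_left]
      ring)
    (fun r hr => h.ll_der hal.2 (hsub r hr)) (fun r hr => h.ll_pos hal.2 (hsub r hr))
    (fun r _ => h.Rt_der r)
    (fun r hr => by
      have := h.rate hal (hsub r hr)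
      simp only [abs_zero, mul_zero, add_zero]
      exact this)
  have h1 := h.u_le hal htI (h0' t ⟨ht.1, le_rfl⟩)
  have h2 := h.V_le hal hsI (h0' s ⟨le_rfl, ht.1⟩)
  have hp := h.toFlo.h_pos
  -- the exponent
  have hAt : D.Rt t - D.Rt s ≤ 2 * (Real.sqrt 2 * (D.sig t - D.sig s)) + 1
      + 72 * Real.log D.h := by
    rw [h.sig_Iw htI, h.sig_Iw hsI]
    unfold Rt
    have e1 := abs_le.1 (h.At_abs t)
    have e2 := abs_le.1 (h.At_abs s)
    have e3 := abs_le.1 (h.Ash_abs htI)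
    have e4 := abs_le.1 (h.Ash_abs hsI)
    have e5 : Real.sqrt 2 * D.rh * (D.At t - D.At s) ≤ 1 / 12 := by
      have hb := h.b_ge'
      have hrh := h.rh_pos
      have e6 : D.rh * D.b ≤ 1 / 100 := by
        have e7 := h.w_ro (k := 4) (m := 4) (by norm_num)
        have e8 : D.ro ≤ 1 := by
          unfold LevD.ro
          exact inv_le_one_of_one_le₀ (one_le_pow₀ h.h1)
        have e9 : D.rh * D.b = 40 * (D.b ^ 4 * D.w) := by
          unfold rh
          ring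
        rw [e9]
        linarith
      have e7 := sqrt2_le
      have e8 : 0 ≤ Real.sqrt 2 := Real.sqrt_nonneg _
      have e9 : D.rh * (D.At t - D.At s) ≤ 4 / 100 := by
        have : D.rh * (D.At t - D.At s) ≤ D.rh * (4 * D.b) := by gcongr; linarith
        linarith
      have : Real.sqrt 2 * (D.rh * (D.At t - D.At s)) ≤ Real.sqrt 2 * (4 / 100) := by gcongr
      linarith
    linarith
  have h3 : Real.exp (D.Rt t - D.Rt s) ≤
      Real.exp (Real.sqrt 2 * (D.sig t - D.sig s)) ^ 2 * (3 * D.h ^ 72) := by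
    refine (Real.exp_le_exp.2 hAt).trans ?_
    rw [Real.exp_add, Real.exp_add, two_mul, Real.exp_add]
    have e1 : Real.exp (72 * Real.log D.h) = D.h ^ 72 := by
      have : (72 : ℝ) * Real.log D.h = Real.log (D.h ^ 72) := by
        rw [Real.log_pow]
        norm_num
      rw [this, Real.exp_log (by positivity)]
    rw [e1, sq]
    have e2 := Real.exp_one_lt_d9
    have e3 : 0 ≤ Real.exp (Real.sqrt 2 * (D.sig t - D.sig s)) *
      Real.exp (Real.sqrt 2 * (D.sig t - D.sig s)) := by positivity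
    have e4 : 0 ≤ D.h ^ 72 := by positivity
    calc _ ≤ Real.exp (Real.sqrt 2 * (D.sig t - D.sig s)) *
      Real.exp (Real.sqrt 2 * (D.sig t - D.sig s)) * 3 * D.h ^ 72 := by
          gcongr
          linarith
      _ = _ := by ring
  set X := Real.exp (Real.sqrt 2 * (D.sig t - D.sig s)) with hX
  have hXeq : Real.exp (Real.sqrt 2 * D.sig t) / Real.exp (Real.sqrt 2 * D.sig s) = X := by
    rw [← Real.exp_sub, hX]
    congr 1
    ring
  simp only
  rw [hXeq]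
  have h4 : ‖u t‖ ^ 2 ≤ (D.h ^ 80 * X * ‖u s‖) ^ 2 := by
    have e1 : (3 : ℝ) ≤ D.h := by
      have := h.h_big
      have e3 : (3 : ℝ) ≤ 10 ^ 100 := by norm_num
      linarith
    calc ‖u t‖ ^ 2 ≤ D.h ^ 13 * (D.ll al t * D.fam.p u t ^ 2 + D.fam.q al u t ^ 2 / D.ll al t) := h1
      _ ≤ D.h ^ 13 * ((D.ll al s * D.fam.p u s ^ 2 + D.fam.q al u s ^ 2 / D.ll al s) *
          Real.exp (D.Rt t - D.Rt s)) := by gcongr
      _ ≤ D.h ^ 13 * ((D.h ^ 38 * ‖u s‖ ^ 2) * (X ^ 2 * (3 * D.h ^ 72))) := by gcongr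
      _ = D.h ^ 123 * 3 * X ^ 2 * ‖u s‖ ^ 2 := by ring
      _ ≤ D.h ^ 123 * D.h ^ 37 * X ^ 2 * ‖u s‖ ^ 2 := by
          have : D.h ≤ D.h ^ 37 := le_self_pow₀ h.h1 (by norm_num)
          gcongr
          linarith
      _ = _ := by ring
  exact (pow_le_pow_iff_left₀ (norm_nonneg _) (by positivity) (by norm_num)).1 h4

end LevD

end Pool.Agent.Work.MP_b0497c_an.Unf.O
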