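import Pool.Agent.Work.MP_b0497c_an.Unf.ONext

set_option autoImplicit false

/-!
# Label coordinates of the centre family (OK.1: (I1), (I2), (I6), (I7), (I11))

Theorems in the namespace `LevD.Lb`: the flow `F1 al`, its inverse `Fi1 al`, the covector
`(F1 al)⁻ᵀ Kn = k^al = D.fam.K al`, the vorticity law, the label amplitude `Fi1 al W = y1 b1 + y2 b2`;
`T1a`, `T1b` of `ONext`.
-/

open Set ContinuousLinearMap RealInnerProductSpace

namespace Pool.Agent.Work.MP_b0497c_an.Unf.O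

open Forced.Ode (Op ro)
open Fam K

namespace LevD

variable (D : LevD)

/-! ### Definitions -/

/-- label of `B` -/
noncomputable def b1 : E3 := D.Fi D.t0 D.e1

/-- `|B|²` -/
noncomputable def G (t : ℝ) : ℝ := ‖D.B t‖ ^ 2

/-- `C = (k × B) / G` -/
noncomputable def C (al t : ℝ) : E3 := (D.G t)⁻¹ • cx (D.fam.K al t) (D.B t)

/-- `E = |k|² / G` -/
noncomputable def E (al t : ℝ) : ℝ := ‖D.fam.K al t‖ ^ 2 / D.G t

/-- `p = W · B` -/
noncomputable def pp (W : ℝ → E3) (t : ℝ) : ℝ := ⟪W t, D.B t⟫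

/-- `q = - W · C` -/
noncomputable def qq (al : ℝ) (W : ℝ → E3) (t : ℝ) : ℝ := -⟪W t, D.C al t⟫

/-- second label vector before the normalisation -/
noncomputable def b2o : E3 := (‖D.b1‖ ^ 2)⁻¹ • cx D.Kn D.b1

/-- second label vector, `b1 × b2 = Kl`, `B(t0) · B2(t0) = 0` -/
noncomputable def b2 (al : ℝ) : E3 := D.b2o - ⟪D.B D.t0, D.F1 al D.t0 D.b2o⟫ • D.b1

/-- `B2 = F^al b2` -/
noncomputable def B2 (al t : ℝ) : E3 := D.F1 al t (D.b2 al)

/-- `S = B · B2 / G` -/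
noncomputable def S2 (al t : ℝ) : ℝ := ⟪D.B t, D.B2 al t⟫ / D.G t

/-- first label coordinate of the wave -/
noncomputable def y1 (al : ℝ) (W : ℝ → E3) (t : ℝ) : ℝ :=
  D.pp W t / D.G t + D.S2 al t * (D.qq al W t / D.E al t)

/-- second label coordinate of the wave -/
noncomputable def y2 (al : ℝ) (W : ℝ → E3) (t : ℝ) : ℝ := -(D.qq al W t / D.E al t)

/-- `ze = - curl M^al · k^al = D.fam.Om al` -/
noncomputable def ze (al t : ℝ) : ℝ := D.fam.Om al t

namespace Lb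

variable {D} {b' : ℝ}

/-! ### The flow -/

theorem Fi_zero (h : D.Flo b') : D.Fi 0 = ContinuousLinearMap.id ℝ E3 := by
  have h1 := h.FiF 0
  rw [h.F_zero, comp_id] at h1
  exact h1

theorem F_Fi (h : D.Flo b') (t : ℝ) (x : E3) : D.F t (D.Fi t x) = x := by
  have h1 := congrArg (fun L : Op => L x) (h.FFi t)
  simpa using h1

theorem Fi_F (h : D.Flo b') (t : ℝ) (x : E3) : D.Fi t (D.F t x) = x := by
  have h1 := congrArg (fun L : Op => L x) (h.FiF t)
  simpa using h1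

theorem A_cont (h : D.Flo b') : Continuous D.A := by
  have h1 : LipschitzWith (Real.toNNReal b') D.A := by
    refine LipschitzWith.of_dist_le_mul fun t s => ?_
    rw [dist_eq_norm, Real.dist_eq, Real.coe_toNNReal _ (by linarith [h.b_ge])]
    exact h.A_lip t s
  exact h1.continuous

theorem Fi_der (h : D.Flo b') (t : ℝ) : HasDerivAt D.Fi (-((D.Fi t).comp (D.A t))) t := by
  obtain ⟨Y, Z, hY, hZ, hZY, hYZ⟩ := PB.exists_fund (V := E3) (A_cont h)
  have h1 : ∀ s, HasDerivAt (fun r => (Z r).comp (D.F r)) 0 s := by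
    intro s
    have h2 := (hZ s).clm_comp (h.F_der s)
    refine h2.congr_deriv ?_
    ext x
    simp
  have h3 : ∀ s, (Z s).comp (D.F s) = Z 0 := by
    intro s
    have h4 := is_const_of_deriv_eq_zero (f := fun r => (Z r).comp (D.F r))
      (fun r => (h1 r).differentiableAt) (fun r => (h1 r).deriv) s 0
    simp only [h.F_zero, comp_id] at h4
    exact h4
  have h5 : ∀ s, D.Fi s = (Y 0).comp (Z s) := by
    intro s
    have h6 : D.F s = (Y s).comp (Z 0) := by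
      rw [← h3 s, ← comp_assoc, hYZ]
      rfl
    have h7 : ((Y 0).comp (Z s)).comp (D.F s) = ContinuousLinearMap.id ℝ E3 := by
      rw [comp_assoc, h3 s, hYZ]
      rfl
    calc D.Fi s = (((Y 0).comp (Z s)).comp (D.F s)).comp (D.Fi s) := by rw [h7, id_comp]
      _ = (Y 0).comp (Z s) := by rw [comp_assoc, h.FFi, comp_id]
  have h8 : HasDerivAt D.Fi ((Y 0).comp (-((Z t).comp (D.A t)))) t := by
    have h9 := ((hasDerivAt_const t (Y 0)).clm_comp (hZ t)).congr_of_eventuallyEq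
      (f₁ := D.Fi) (Filter.Eventually.of_forall h5)
    refine h9.congr_deriv ?_
    ext x
    simp
  refine h8.congr_deriv ?_
  rw [h5 t]
  ext x
  simp

theorem adjFi_der (h : D.Flo b') (x : E3) (t : ℝ) :
    HasDerivAt (fun s => adjoint (D.Fi s) x) (-(adjoint (D.A t) (adjoint (D.Fi t) x))) t := by
  have h1 : HasDerivAt (fun s => adjoint (D.Fi s)) (adjoint (-((D.Fi t).comp (D.A t)))) t := by
    let L : Op →ₗ[ℝ] Op :=
      { toFun := fun M => adjoint M
        map_add' := fun x y => map_add _ x y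
        map_smul' := fun c x => by
          simp }
    exact (LinearMap.toContinuousLinearMap L).hasFDerivAt.comp_hasDerivAt t ((Fi_der h) t)
  have h3 := h1.clm_apply (hasDerivAt_const t x)
  refine h3.congr_deriv ?_
  rw [map_neg, adjoint_comp]
  simp

theorem n_der (h : D.Flo b') (t : ℝ) : HasDerivAt D.n (-(adjoint (D.A t) (D.n t))) t :=
  (adjFi_der h) D.l t

theorem xi_der (h : D.Flo b') (t : ℝ) : HasDerivAt D.xi (-(adjoint (D.A t) (D.xi t))) t :=
  (adjFi_der h) D.K0 t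

theorem inner_n (t : ℝ) (x : E3) : ⟪D.n t, x⟫ = ⟪D.l, D.Fi t x⟫ := by
  unfold n
  rw [adjoint_inner_left]

theorem inner_xi (t : ℝ) (x : E3) : ⟪D.xi t, x⟫ = ⟪D.K0, D.Fi t x⟫ := by
  unfold xi
  rw [adjoint_inner_left]

theorem inner_n_F (h : D.Flo b') (t : ℝ) (x : E3) : ⟪D.n t, D.F t x⟫ = ⟪D.l, x⟫ := by
  rw [inner_n, (Fi_F h)]

theorem inner_xi_F (h : D.Flo b') (t : ℝ) (x : E3) : ⟪D.xi t, D.F t x⟫ = ⟪D.K0, x⟫ := by
  rw [inner_xi, (Fi_F h)]

theorem n_zero (h : D.Flo b') : D.n 0 = D.l := by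
  refine ext_inner_right ℝ fun x => ?_
  rw [inner_n, (Fi_zero h), id_apply]

theorem xi_zero (h : D.Flo b') : D.xi 0 = D.K0 := by
  refine ext_inner_right ℝ fun x => ?_
  rw [inner_xi, (Fi_zero h), id_apply]

theorem a_pos (h : D.Flo b') : 0 < D.a := pow_pos h.h_pos 24

theorem s_pos (h : D.Flo b') : 0 < D.s := by
  have h1 : (0:ℝ) < 1 / b' := by
    have := h.b_ge
    positivity
  exact h1.trans_le h.s_ge

theorem norm_e1 (h : D.Flo b') : ‖D.e1‖ = 1 := by
  unfold e1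
  rw [norm_smul, norm_inv, h.v_a, Real.norm_of_nonneg (a_pos h).le, inv_mul_cancel₀ (a_pos h).ne']

theorem norm_e2 (h : D.Flo b') : ‖D.e2‖ = 1 := h.n_one

theorem inner_e2_e1 (h : D.Flo b') : ⟪D.e2, D.e1⟫ = 0 := by
  unfold e2 e1
  rw [inner_smul_right, h.v_orth, mul_zero]

theorem inner_e1_e2 (h : D.Flo b') : ⟪D.e1, D.e2⟫ = 0 := by
  rw [real_inner_comm, (inner_e2_e1 h)]

theorem norm_e3 (h : D.Flo b') : ‖D.e3‖ = 1 := by
  have h1 : ‖D.e3‖ ^ 2 = 1 := by
    unfold e3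
    rw [norm_cx_sq, (norm_e1 h), (norm_e2 h), (inner_e1_e2 h)]
    norm_num
  nlinarith [norm_nonneg D.e3]

theorem xi_t0 (h : D.Flo b') : D.xi D.t0 = D.e3 := by
  refine ext_inner_right ℝ fun x => ?_
  rw [inner_xi]
  unfold K0
  rw [adjoint_inner_left, (F_Fi h)]

theorem B_t0 (h : D.Flo b') : D.B D.t0 = D.e1 := by
  unfold B
  rw [(xi_t0 h)]
  show cx D.e2 (cx D.e1 D.e2) = D.e1
  rw [cx_cx, real_inner_self_eq_norm_sq, (norm_e2 h), (inner_e2_e1 h)]
  simp

theorem B_der (h : D.Flo b') (t : ℝ) : HasDerivAt D.B (D.A t (D.B t)) t := by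
  have h1 := HasDerivAt.cx ((n_der h) t) ((xi_der h) t)
  refine h1.congr_deriv ?_
  exact cx_adj (h.A_tr t) _ _

theorem Fi_B (h : D.Flo b') (t : ℝ) : D.Fi t (D.B t) = D.b1 := by
  have h1 : ∀ s, HasDerivAt (fun r => D.Fi r (D.B r)) 0 s := by
    intro s
    have h2 := ((Fi_der h) s).clm_apply ((B_der h) s)
    refine h2.congr_deriv ?_
    simp
  have h3 := is_const_of_deriv_eq_zero (f := fun r => D.Fi r (D.B r))
    (fun r => (h1 r).differentiableAt) (fun r => (h1 r).deriv) t D.t0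
  simp only [(B_t0 h)] at h3
  exact h3

theorem B_eq (h : D.Flo b') (t : ℝ) : D.B t = D.F t D.b1 := by
  rw [← (Fi_B h) t, (F_Fi h)]

theorem l_b1 (h : D.Flo b') : ⟪D.l, D.b1⟫ = 0 := by
  unfold b1
  rw [← inner_n]
  exact (inner_e2_e1 h)

theorem K0_b1 (h : D.Flo b') : ⟪D.K0, D.b1⟫ = 0 := by
  unfold b1
  rw [← inner_xi, (xi_t0 h)]
  unfold e3
  rw [real_inner_comm, inner_cx_left]

theorem Kn_b1 (h : D.Flo b') : ⟪D.Kn, D.b1⟫ = 0 := by
  unfold Kn
  rw [inner_add_left, inner_smul_left, (l_b1 h), (K0_b1 h)]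
  simp

theorem b1_ne (h : D.Flo b') : D.b1 ≠ 0 := by
  intro h1
  have h2 := (B_eq h) D.t0
  rw [h1, map_zero, (B_t0 h)] at h2
  have h3 := (norm_e1 h)
  rw [h2, norm_zero] at h3
  norm_num at h3

theorem B_ne (h : D.Flo b') (t : ℝ) : D.B t ≠ 0 := by
  intro h1
  have h2 := (Fi_B h) t
  rw [h1, map_zero] at h2
  exact (b1_ne h) h2.symm

theorem G_pos (h : D.Flo b') (t : ℝ) : 0 < D.G t := by
  have h1 := norm_pos_iff.2 ((B_ne h) t)
  unfold G
  positivity

theorem fam_D (t : ℝ) : D.fam.D t = -D.B t := by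
  show cx (D.xi t) (D.n t) = -cx (D.n t) (D.xi t)
  rw [cx_swap]

/-! ### (I1) -/

theorem s_eq (h : D.Flo b') {t : ℝ} (ht : t ∈ Icc 0 D.T) : ⟪axial (D.A t), D.n t⟫ = -D.s := by
  rw [h.VL t ht, real_inner_comm, (inner_n_F h), real_inner_comm]
  unfold s
  ring

theorem nv_der (h : D.Flo b') {t : ℝ} (ht : t ∈ Icc 0 D.T) :
    HasDerivAt (fun r => cx (D.n r) (D.v r)) (D.A t (cx (D.n t) (D.v t)) - D.s • D.v t) t := by
  have h1 := HasDerivAt.cx ((n_der h) t) (h.v_der t)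
  refine h1.congr_deriv ?_
  have h2 := cx_adj (h.A_tr t) (D.n t) (D.v t)
  have h3 : cx (D.n t) (D.A t (D.v t)) = cx (D.n t) (adjoint (D.A t) (D.v t)) + D.s • D.v t := by
    have h4 : D.A t (D.v t) = adjoint (D.A t) (D.v t) + cx (axial (D.A t)) (D.v t) := by
      rw [← skew_vec]
      abel
    rw [h4, cx_add_right, cx_cx, h.v_orth, real_inner_comm, (s_eq h) ht]
    simp
  rw [kel_apply, cx_add_right, cx_smul_right, cx_self, smul_zero, add_zero, cx_neg_right, h3,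
    ← h2, cx_neg_right]
  abel

theorem Dv_zero (h : D.Flo b') : D.Dv 0 = 0 := by
  unfold Dv
  rw [(Fi_zero h), (n_zero h), id_apply, sub_self, smul_zero]

theorem Dv_der (h : D.Flo b') {t : ℝ} (ht : t ∈ Icc 0 D.T) :
    HasDerivAt D.Dv (D.Fi t (D.v t)) t := by
  have h1 := ((((Fi_der h) t).clm_apply ((nv_der h) ht)).const_sub (cx D.l (D.v 0))).const_smul (D.s)⁻¹
  refine h1.congr_deriv ?_
  have h2 := (s_pos h).ne'
  rw [map_sub, map_smul]
  simp only [neg_apply, comp_apply]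
  rw [show -(-(D.Fi t) ((D.A t) (cx (D.n t) (D.v t))) + ((D.Fi t) ((D.A t) (cx (D.n t) (D.v t)))
    - D.s • (D.Fi t) (D.v t))) = D.s • (D.Fi t) (D.v t) by abel, smul_smul, inv_mul_cancel₀ h2,
    one_smul]

theorem l_Dv (t : ℝ) : ⟪D.l, D.Dv t⟫ = 0 := by
  unfold Dv
  rw [inner_smul_right, inner_sub_right, ← inner_n, inner_cx_left, inner_cx_left]
  simp

theorem K0_Dv (h : D.Flo b') (t : ℝ) : ⟪D.K0, D.Dv t⟫ = (D.f t - D.f 0) / D.s := by
  have h1 : ∀ r, ⟪D.xi r, cx (D.n r) (D.v r)⟫ = -D.f r := by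
    intro r
    unfold f B
    rw [← inner_neg_right, ← cx_swap, inner_cx_cyc, inner_cx_cyc]
  unfold Dv
  rw [inner_smul_right, inner_sub_right, ← inner_xi, h1]
  have h2 := h1 0
  rw [(xi_zero h), (n_zero h)] at h2
  rw [h2]
  field_simp
  ring

/-! ### (I2) -/

theorem F1_apply (al t : ℝ) (x : E3) :
    D.F1 al t x = D.F t (x + (al * ⟪D.l, x⟫) • D.Dv t) := by
  unfold F1 Forced.Ode.ro
  simp [smul_smul]

theorem Fi1_apply (al t : ℝ) (x : E3) :
    D.Fi1 al t x = D.Fi t x - (al * ⟪D.n t, x⟫) • D.Dv t := by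
  unfold Fi1 Forced.Ode.ro
  rw [inner_n]
  simp [smul_smul]

theorem Fi1_F1 (h : D.Flo b') (al t : ℝ) (x : E3) : D.Fi1 al t (D.F1 al t x) = x := by
  rw [F1_apply, Fi1_apply, (Fi_F h), (inner_n_F h), inner_add_right, inner_smul_right, l_Dv]
  simp

theorem F1_Fi1 (h : D.Flo b') (al t : ℝ) (x : E3) : D.F1 al t (D.Fi1 al t x) = x := by
  rw [F1_apply, Fi1_apply, inner_sub_right, inner_smul_right, l_Dv, mul_zero, sub_zero,
    ← inner_n, sub_add_cancel, (F_Fi h)]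

theorem F1Fi1 (h : D.Flo b') (al t : ℝ) :
    (D.F1 al t).comp (D.Fi1 al t) = ContinuousLinearMap.id ℝ E3 := by
  ext1 x
  exact (F1_Fi1 h) al t x

theorem Fi1F1 (h : D.Flo b') (al t : ℝ) :
    (D.Fi1 al t).comp (D.F1 al t) = ContinuousLinearMap.id ℝ E3 := by
  ext1 x
  exact (Fi1_F1 h) al t x

theorem F1_zero (h : D.Flo b') (al : ℝ) : D.F1 al 0 = ContinuousLinearMap.id ℝ E3 := by
  ext1 x
  rw [F1_apply, (Dv_zero h), smul_zero, add_zero, h.F_zero]

theorem fam_M_apply (al t : ℝ) (x : E3) :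
    D.fam.M al t x = D.A t x + (al * ⟪D.n t, x⟫) • D.v t := FamD.M_apply al t x

theorem F1_der (h : D.Flo b') (al : ℝ) {t : ℝ} (ht : t ∈ Icc 0 D.T) :
    HasDerivAt (D.F1 al) ((D.fam.M al t).comp (D.F1 al t)) t := by
  have h1 : HasDerivAt (fun r => Forced.Ode.ro (D.Dv r) D.l)
      (Forced.Ode.ro (D.Fi t (D.v t)) D.l) t := by
    unfold Forced.Ode.ro
    let L : E3 →ₗ[ℝ] Op :=
      { toFun := fun y => (innerSL ℝ D.l).smulRight y
        map_add' := fun x y => by ext1 z; simp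
        map_smul' := fun c x => by
          ext1 z
          show ⟪D.l, z⟫ • (c • x) = c • (⟪D.l, z⟫ • x)
          rw [smul_comm] }
    exact (LinearMap.toContinuousLinearMap L).hasFDerivAt.comp_hasDerivAt t ((Dv_der h) ht)
  have h1' : HasDerivAt (fun r => ContinuousLinearMap.id ℝ E3 + al • Forced.Ode.ro (D.Dv r) D.l)
      (al • Forced.Ode.ro (D.Fi t (D.v t)) D.l) t :=
    (h1.const_smul al).const_add (ContinuousLinearMap.id ℝ E3)
  have h2 := (h.F_der t).clm_comp h1'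
  refine h2.congr_deriv ?_
  ext1 x
  have h3 : ⟪D.n t, D.F1 al t x⟫ = ⟪D.l, x⟫ := by
    rw [F1_apply, (inner_n_F h), inner_add_right, inner_smul_right, l_Dv]
    simp
  rw [comp_apply, fam_M_apply, h3, F1_apply]
  show D.A t (D.F t (x + al • (⟪D.l, x⟫ • D.Dv t))) + D.F t (al • (⟪D.l, x⟫ • D.Fi t (D.v t))) = _
  rw [smul_smul, smul_smul, (D.F t).map_smul (al * ⟪D.l, x⟫) (D.Fi t (D.v t)), (F_Fi h)]

theorem adj_Fi1 (h : D.Flo b') (al t : ℝ) : adjoint (D.Fi1 al t) D.Kn = D.fam.K al t := by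
  refine ext_inner_right ℝ fun x => ?_
  rw [adjoint_inner_left, Fi1_apply, inner_sub_right, inner_smul_right]
  unfold Kn
  rw [inner_add_left, inner_add_left, inner_smul_left, inner_smul_left, l_Dv, (K0_Dv h),
    ← inner_xi, ← inner_n]
  show _ = ⟪D.xi t + ((1 - al) * D.X + al * D.lam1 t) • D.n t, x⟫
  rw [inner_add_left, inner_smul_left]
  unfold lam1
  simp only [conj_trivial]
  ring

theorem inner_K (h : D.Flo b') (al t : ℝ) (x : E3) :
    ⟪D.fam.K al t, x⟫ = ⟪D.Kn, D.Fi1 al t x⟫ := by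
  rw [← (adj_Fi1 h), adjoint_inner_left]

theorem vort (h : D.Flo b') (al : ℝ) {t : ℝ} (ht : t ∈ Icc 0 D.T) :
    axial (D.fam.M al t) = D.F1 al t (D.Om1 al) := by
  have h1 : axial (D.fam.M al t) = axial (D.A t) + al • cx (D.n t) (D.v t) := by
    show axial (D.A t + al • Forced.Ode.ro (D.v t) (D.n t)) = _
    rw [axial_add, axial_smul, axial_ro]
  have h2 : ⟪D.l, D.Om1 al⟫ = -D.s := by
    unfold Om1 s
    rw [inner_add_right, inner_smul_right, inner_cx_left, real_inner_comm]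
    ring
  have h3 := (s_pos h).ne'
  rw [h1, h.VL t ht, F1_apply, h2]
  unfold Om1 Dv
  rw [smul_smul, show al * -D.s * (D.s)⁻¹ = -al by field_simp]
  rw [map_add, map_add, map_smul, map_smul, map_sub, (F_Fi h)]
  module

theorem F1_b1 (h : D.Flo b') (al t : ℝ) : D.F1 al t D.b1 = D.B t := by
  rw [F1_apply, (l_b1 h), mul_zero, zero_smul, add_zero, (B_eq h)]

theorem K_ne (h : D.Flo b') (al t : ℝ) : D.fam.K al t ≠ 0 := by
  refine FamD.K0 (F := D.fam) ?_
  rw [fam_D]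
  exact neg_ne_zero.2 (B_ne h t)

theorem n_ne (h : D.Flo b') (t : ℝ) : D.n t ≠ 0 := by
  refine FamD.k0 (F := D.fam) ?_
  rw [fam_D]
  exact neg_ne_zero.2 (B_ne h t)

theorem trM (h : D.Flo b') (al t : ℝ) :
    LinearMap.trace ℝ E3 (D.fam.M al t).toLinearMap = 0 := by
  have h1 := trace_eq (D.fam.M al t)
  have h2 := trace_eq (D.A t)
  have h3 := trace_eq (Forced.Ode.ro (D.v t) (D.n t))
  rw [h.A_tr t] at h2
  rw [FamD.trace_ro, h.v_orth] at h3
  rw [h1]
  have h4 : ∀ i : Fin 3, (D.fam.M al t (e i)) i =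
      (D.A t (e i)) i + al * (Forced.Ode.ro (D.v t) (D.n t) (e i)) i := by
    intro i
    simp [FamD.M, fam]
  rw [h4, h4, h4]
  linear_combination -h2 - al * h3

end Lb

theorem t1a : T1a := by
  intro D b' h al t
  refine ⟨Lb.l_Dv t, Lb.K0_Dv h t, Lb.F1Fi1 h al t, Lb.Fi1F1 h al t, Lb.adj_Fi1 h al t, ?_,
    Lb.Dv_zero h, Lb.F1_zero h al, Lb.K_ne h al t, Lb.n_ne h t⟩
  refine ext_inner_right ℝ fun x => ?_
  rw [adjoint_inner_left, Lb.Fi1_apply, inner_sub_right, inner_smul_right, Lb.l_Dv, mul_zero,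
    sub_zero, Lb.inner_n]

theorem t1b : T1b := by
  intro D b' h al t ht
  exact ⟨Lb.Dv_der h ht, Lb.F1_der h al ht, Lb.vort h al ht, Lb.trM h al t⟩

end LevD

end Pool.Agent.Work.MP_b0497c_an.Unf.O
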