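import Pool.Agent.Work.MP_b0497c_an.Unf.LagPiola

set_option autoImplicit false

/-!
# Lagrangian form of the Euler equations, part 2: `L²` stability in label variables

A Lagrangian solution is compared with a classical (Eulerian) solution without inverting the
particle map.
-/

open scoped ContDiff Matrix
open Set Filter Topology MeasureTheory RealInnerProductSpace Pool.Agent.Work.MP_b0497c_an
open Pool.Agent.Work.MP_b0497c_an.Dec Pool.Agent.Work.MP_b0497c_an.Dec.Uniq
open Pool.Agent.Work.MP_b0497c_an.Forced Pool.Agent.Work.MP_b0497c_an.Forced.C11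

namespace Pool.Agent.Work.MP_b0497c_an.Unf

/-- A solution of the Euler equations on the torus in Lagrangian form on `[0, s]`: particle map
`X`, velocity `W = ∂ₜ X`, acceleration `A = ∂ₜ W`, pressure `Q` in the label variables. -/
structure LagSol (s : ℝ) (X W A : ℝ → E3 → E3) (Q : ℝ → E3 → ℝ) : Prop where
  X_zero : ∀ y, X 0 y = y
  per_X : ∀ t ∈ Icc 0 s, ∀ i y, X t (y + (2 * Real.pi) • e i) = X t y + (2 * Real.pi) • e i
  per_W : ∀ t ∈ Icc 0 s, Periodic3 (W t)
  per_A : ∀ t ∈ Icc 0 s, Periodic3 (A t)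
  per_Q : ∀ t ∈ Icc 0 s, Periodic3 (Q t)
  X_cd : ∀ t ∈ Icc 0 s, ContDiff ℝ 2 (X t)
  W_cd : ∀ t ∈ Icc 0 s, ContDiff ℝ 1 (W t)
  Q_cd : ∀ t ∈ Icc 0 s, ContDiff ℝ 1 (Q t)
  X_cont : ContinuousOn (fun z : ℝ × E3 => X z.1 z.2) (Icc 0 s ×ˢ univ)
  W_cont : ContinuousOn (fun z : ℝ × E3 => W z.1 z.2) (Icc 0 s ×ˢ univ)
  A_cont : ContinuousOn (fun z : ℝ × E3 => A z.1 z.2) (Icc 0 s ×ˢ univ)
  X_der : ∀ t ∈ Ioo 0 s, ∀ y, HasDerivAt (fun r => X r y) (W t y) t
  W_der : ∀ t ∈ Ioo 0 s, ∀ y, HasDerivAt (fun r => W r y) (A t y) t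
  momentum : ∀ t ∈ Ioo 0 s, ∀ y z, ⟪A t y, fderiv ℝ (X t) y z⟫ = - fderiv ℝ (Q t) y z
  det_one : ∀ t ∈ Icc 0 s, ∀ y, det3 (fderiv ℝ (X t) y) = 1
  div_zero : ∀ t ∈ Ioo 0 s, ∀ y, trF (fderiv ℝ (X t) y) (fderiv ℝ (W t) y) = 0

/-- A periodic function of the particle map is periodic. -/
theorem Periodic3.comp_X {F : Type} {g : E3 → F} (hg : Periodic3 g) {Y : E3 → E3}
    (hY : ∀ i y, Y (y + (2 * Real.pi) • e i) = Y y + (2 * Real.pi) • e i) :
    Periodic3 (fun y => g (Y y)) := by
  intro i y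
  show g (Y (y + _)) = g (Y y)
  rw [hY i y, hg i]

theorem cof_periodic {Y d : E3 → E3}
    (hY : ∀ i y, Y (y + (2 * Real.pi) • e i) = Y y + (2 * Real.pi) • e i)
    (hd : Periodic3 d) : Periodic3 (fun y => cof (fderiv ℝ Y y) (d y)) := by
  intro i y
  have h1 : fderiv ℝ Y (y + (2 * Real.pi) • e i) = fderiv ℝ Y y := by
    rw [← fderiv_comp_add_right]
    have h2 : (fun z => Y (z + (2 * Real.pi) • e i)) = fun z => Y z + (2 * Real.pi) • e i :=
      funext fun z => hY i z
    rw [h2, fderiv_add_const]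
  show cof (fderiv ℝ Y (y + _)) (d (y + _)) = _
  rw [h1, hd i y]

variable {s T' : ℝ} {X W A : ℝ → E3 → E3} {Q : ℝ → E3 → ℝ} {v : ℝ → E3 → E3} {q : ℝ → E3 → ℝ}

theorem LagSol.A_cont' (h : LagSol s X W A Q) {t : ℝ} (ht : t ∈ Icc 0 s) : Continuous (A t) := by
  have c3 : Continuous (fun x : E3 => (t, x)) := by fun_prop
  have c4 : ContinuousOn ((fun z : ℝ × E3 => A z.1 z.2) ∘ (fun x : E3 => (t, x))) univ :=
    ContinuousOn.comp h.A_cont c3.continuousOn (fun x _ => ⟨ht, mem_univ _⟩)
  exact continuousOn_univ.mp c4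

/-- Derivative of `v (t, X (t, y))` in time. -/
theorem LagSol.comp_der (h : LagSol s X W A Q) (hv : IsForcedSolution T' (fun _ _ => 0) v q)
    (hs : s < T') {t : ℝ} (ht : t ∈ Ioo 0 s) (y : E3) :
    HasDerivAt (fun r => v r (X r y))
      (derivWithin (fun r => v r (X t y)) (Ico 0 T') t + fderiv ℝ (v t) (X t y) (W t y)) t := by
  have h1 := hasDerivWithinAt_along hv.contDiff_u (I := Ico 0 T') (Subset.refl _)
    (t := t) ⟨ht.1.le, ht.2.trans hs⟩ (X := fun r => X r y) (X' := W t y)
    (h.X_der t ht y).hasDerivWithinAt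
  exact h1.hasDerivAt (Ico_mem_nhds ht.1 (ht.2.trans hs))

/-- The derivative of the energy of the difference. -/
theorem LagSol.energy_deriv (h : LagSol s X W A Q)
    (hv : IsForcedSolution T' (fun _ _ => 0) v q) (hs : s < T') {t : ℝ} (ht : t ∈ Ioo 0 s) :
    HasDerivAt (fun r => ∫ y in cube, ‖W r y - v r (X r y)‖ ^ 2)
      (-2 * ∫ y in cube, ⟪fderiv ℝ (v t) (X t y) (W t y - v t (X t y)),
        W t y - v t (X t y)⟫) t := by
  have hs0 : 0 ≤ s := ht.1.le.trans ht.2.le
  obtain ⟨U, hU0, hU⟩ := exists_bound h.W_cont h.per_W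
  obtain ⟨U', hU'0, hU'⟩ := bound_u hv hs
  obtain ⟨D, hD0, hD⟩ := exists_bound h.A_cont h.per_A
  obtain ⟨D', hD'0, hD'⟩ := bound_dt hv hs
  obtain ⟨K, hK0, hK⟩ := bound_M hv hs
  have hfin : IsFiniteMeasure (volume.restrict cube) :=
    ⟨by rw [Measure.restrict_apply_univ]; exact cube_compact.measure_lt_top⟩
  have cX : ∀ r ∈ Icc 0 s, Continuous (X r) := fun r hr => (h.X_cd r hr).continuous
  have cW : ∀ r ∈ Icc 0 s, Continuous (W r) := fun r hr => (h.W_cd r hr).continuous
  have cv : ∀ r ∈ Icc 0 s, Continuous (fun y => v r (X r y)) := fun r hr =>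
    (cd_u hv (sub_Ico hs hr)).continuous.comp (cX r hr)
  have htc : t ∈ Icc 0 s := Ioo_subset_Icc_self ht
  have ht2 : t ∈ Ico 0 T' := sub_Ico hs htc
  have cdt : Continuous (fun y => derivWithin (fun r => v r (X t y)) (Ico 0 T') t) :=
    (cont_dt hv ht2).comp (cX t htc)
  have mv := cd_u hv ht2
  have cM : Continuous (fun y => fderiv ℝ (v t) (X t y)) :=
    (mv.continuous_fderiv (by norm_num)).comp (cX t htc)
  have key := hasDerivAt_integral_of_dominated_loc_of_deriv_le (μ := volume.restrict cube)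
    (F := fun r y => ‖W r y - v r (X r y)‖ ^ 2) (x₀ := t) (s := Ioo 0 s)
    (bound := fun _ => 2 * ((U + U') * (D + (D' + K * U))))
    (F' := fun r y => 2 * ⟪W r y - v r (X r y), A r y
      - (derivWithin (fun r' => v r' (X r y)) (Ico 0 T') r + fderiv ℝ (v r) (X r y) (W r y))⟫)
    (Ioo_mem_nhds ht.1 ht.2)
    (by filter_upwards [Ioo_mem_nhds ht.1 ht.2] with r hr
        have hr' := Ioo_subset_Icc_self hr
        exact (((cW r hr').sub (cv r hr')).norm.pow 2).aestronglyMeasurable)
    ((((cW t htc).sub (cv t htc)).norm.pow 2).continuousOn.integrableOn_compact cube_compact)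
    ((continuous_const.mul (((cW t htc).sub (cv t htc)).inner
      ((h.A_cont' htc).sub (cdt.add (cM.clm_apply (cW t htc)))))).aestronglyMeasurable)
    (ae_of_all _ fun y r hr => by
      rw [norm_mul, Real.norm_eq_abs, Real.norm_eq_abs, abs_of_pos (show (0:ℝ) < 2 by norm_num)]
      have hr' := Ioo_subset_Icc_self hr
      have hKr : ‖fderiv ℝ (v r) (X r y) (W r y)‖ ≤ K * U := by
        refine ((fderiv ℝ (v r) (X r y)).le_opNorm _).trans ?_
        exact mul_le_mul (hK r hr' _) (hU r hr' y) (norm_nonneg _) hK0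
      gcongr
      refine (abs_real_inner_le_norm _ _).trans (mul_le_mul ?_ ?_ (norm_nonneg _) (by positivity))
      · exact (norm_sub_le _ _).trans (add_le_add (hU r hr' y) (hU' r hr' _))
      · exact (norm_sub_le _ _).trans (add_le_add (hD r hr' y)
          ((norm_add_le _ _).trans (add_le_add (hD' r hr' _) hKr))))
    (integrable_const _)
    (ae_of_all _ fun y r hr => ((h.W_der r hr y).sub (h.comp_der hv hs hr y)).norm_sq)
  have hk := key.2
  refine hk.congr_deriv ?_
  have mq := cd_p hv ht2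
  have mX := h.X_cd t htc
  have mX1 : ContDiff ℝ 1 (X t) := mX.of_le (by norm_num)
  have mW := h.W_cd t htc
  have mQ := h.Q_cd t htc
  have pX := h.per_X t htc
  have mvX : ContDiff ℝ 1 (fun y => v t (X t y)) := mv.comp mX1
  have md : ContDiff ℝ 1 (fun y => W t y - v t (X t y)) := mW.sub mvX
  have pd : Periodic3 (fun y => W t y - v t (X t y)) := by
    intro i y
    have h1 := h.per_W t htc i y
    have h2 := Periodic3.comp_X (hv.periodic_u t ht2) pX i y
    simp only at h2
    show W t _ - v t (X t _) = _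
    rw [h1, h2]
  have mP : ContDiff ℝ 1 (fun y => Q t y - q t (X t y)) := mQ.sub (mq.comp mX1)
  have pP : Periodic3 (fun y => Q t y - q t (X t y)) := by
    intro i y
    have h1 := h.per_Q t htc i y
    have h2 := Periodic3.comp_X (hv.periodic_p t ht2) pX i y
    simp only at h2
    show Q t _ - q t (X t _) = _
    rw [h1, h2]
  -- the field `F⁻¹ δ`
  have mZ := cof_contDiff mX md
  have pZ := cof_periodic pX pd
  have dcomp : ∀ y, fderiv ℝ (fun y => v t (X t y)) y
      = (fderiv ℝ (v t) (X t y)).comp (fderiv ℝ (X t) y) := by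
    intro y
    exact fderiv_comp y (mv.differentiable (by norm_num) _) (mX1.differentiable (by norm_num) _)
  have dZ : ∀ y, LinearMap.trace ℝ E3 (fderiv ℝ (fun y => cof (fderiv ℝ (X t) y)
      (W t y - v t (X t y))) y : E3 →ₗ[ℝ] E3) = 0 := by
    intro y
    have h1 := piola mX md y
    rw [h1]
    have h2 : fderiv ℝ (fun y => W t y - v t (X t y)) y
        = fderiv ℝ (W t) y - (fderiv ℝ (v t) (X t y)).comp (fderiv ℝ (X t) y) := by
      rw [← dcomp y]
      exact fderiv_fun_sub (mW.differentiable (by norm_num) y)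
        (mvX.differentiable (by norm_num) y)
    rw [h2, trF_sub, h.div_zero t ht y, trF_comp, hv.div_free t ht2 (X t y)]
    ring
  have e1 := press_zero mP pP mZ pZ dZ
  have e4 : ∀ y, 2 * ⟪W t y - v t (X t y), A t y
      - (derivWithin (fun r' => v r' (X t y)) (Ico 0 T') t + fderiv ℝ (v t) (X t y) (W t y))⟫
      = 2 * (- fderiv ℝ (fun y => Q t y - q t (X t y)) y
          (cof (fderiv ℝ (X t) y) (W t y - v t (X t y)))
          - ⟪fderiv ℝ (v t) (X t y) (W t y - v t (X t y)), W t y - v t (X t y)⟫) := by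
    intro y
    have m2 : derivWithin (fun r => v r (X t y)) (Ico 0 T') t
        = - gradient (q t) (X t y) - fderiv ℝ (v t) (X t y) (v t (X t y)) := by
      have := hv.momentum t ht2 (X t y)
      rw [add_zero] at this
      rw [← this]; abel
    have gq : ∀ z, fderiv ℝ (q t) (X t y) z = ⟪gradient (q t) (X t y), z⟫ := by
      intro z
      rw [gradient, InnerProductSpace.toDual_symm_apply]
    have hfp : fderiv ℝ (fun y => Q t y - q t (X t y)) y
        = fderiv ℝ (Q t) y - (fderiv ℝ (q t) (X t y)).comp (fderiv ℝ (X t) y) := by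
      have h1 : fderiv ℝ (fun y => q t (X t y)) y
          = (fderiv ℝ (q t) (X t y)).comp (fderiv ℝ (X t) y) :=
        fderiv_comp y (mq.differentiable (by norm_num) _) (mX1.differentiable (by norm_num) _)
      rw [← h1]
      exact fderiv_fun_sub (mQ.differentiable (by norm_num) y)
        ((mq.comp mX1).differentiable (by norm_num) y)
    set d := W t y - v t (X t y) with hd
    have hF : fderiv ℝ (X t) y (cof (fderiv ℝ (X t) y) d) = d := by
      rw [cof_apply, h.det_one t htc y, one_smul]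
    have hA := h.momentum t ht y (cof (fderiv ℝ (X t) y) d)
    rw [hF] at hA
    rw [hfp, m2]
    simp only [sub_apply, ContinuousLinearMap.comp_apply]
    rw [hF, gq, ← neg_neg (fderiv ℝ (Q t) y _), ← hA]
    have hW : W t y = d + v t (X t y) := by rw [hd]; abel
    rw [hW, map_add]
    simp only [inner_sub_right, inner_add_right, inner_neg_right, real_inner_comm d]
    ring
  simp only [e4]
  have c1 : Continuous (fun y => fderiv ℝ (fun y => Q t y - q t (X t y)) y
          (cof (fderiv ℝ (X t) y) (W t y - v t (X t y)))) :=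
    (mP.continuous_fderiv (by norm_num)).clm_apply mZ.continuous
  have c4 : Continuous (fun y => ⟪fderiv ℝ (v t) (X t y) (W t y - v t (X t y)),
      W t y - v t (X t y)⟫) := (cM.clm_apply md.continuous).inner md.continuous
  have i1 : IntegrableOn (fun y => - fderiv ℝ (fun y => Q t y - q t (X t y)) y
          (cof (fderiv ℝ (X t) y) (W t y - v t (X t y)))) cube :=
    c1.neg.continuousOn.integrableOn_compact cube_compact
  have i4 : IntegrableOn (fun y => ⟪fderiv ℝ (v t) (X t y) (W t y - v t (X t y)),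
      W t y - v t (X t y)⟫) cube := c4.continuousOn.integrableOn_compact cube_compact
  rw [integral_const_mul, integral_sub i1 i4, integral_neg, e1]
  ring

/-- **Stability** of classical solutions, compared with a Lagrangian solution. -/
theorem LagSol.stab (h : LagSol s X W A Q)
    (hv : IsForcedSolution T' (fun _ _ => 0) v q) (h0 : 0 ≤ s) (hs : s < T') {K : ℝ}
    (hK : ∀ r ∈ Icc 0 s, ∀ x, ‖fderiv ℝ (v r) x‖ ≤ K) :
    ∫ y in cube, ‖W s y - v s (X s y)‖ ^ 2
      ≤ (∫ y in cube, ‖W 0 y - v 0 y‖ ^ 2) * Real.exp (2 * K * s) := by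
  have htc : s ∈ Icc 0 s := ⟨h0, le_rfl⟩
  obtain ⟨U, hU0, hU⟩ := exists_bound h.W_cont h.per_W
  obtain ⟨U', hU'0, hU'⟩ := bound_u hv hs
  have hfin : IsFiniteMeasure (volume.restrict cube) :=
    ⟨by rw [Measure.restrict_apply_univ]; exact cube_compact.measure_lt_top⟩
  set E : ℝ → ℝ := fun r => ∫ y in cube, ‖W r y - v r (X r y)‖ ^ 2 with hE
  have cX : ∀ r ∈ Icc 0 s, Continuous (X r) := fun r hr => (h.X_cd r hr).continuous
  have cW : ∀ r ∈ Icc 0 s, Continuous (W r) := fun r hr => (h.W_cd r hr).continuous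
  have cv : ∀ r ∈ Icc 0 s, Continuous (fun y => v r (X r y)) := fun r hr =>
    (cd_u hv (sub_Ico hs hr)).continuous.comp (cX r hr)
  have hcont : ContinuousOn E (Icc 0 s) := by
    apply continuousOn_of_dominated (bound := fun _ => (U + U') ^ 2)
    · intro r hr
      exact (((cW r hr).sub (cv r hr)).norm.pow 2).aestronglyMeasurable
    · intro r hr
      refine ae_of_all _ fun y => ?_
      rw [norm_pow, norm_norm]
      exact pow_le_pow_left₀ (norm_nonneg _)
        ((norm_sub_le _ _).trans (add_le_add (hU r hr y) (hU' r hr _))) 2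
    · exact integrable_const _
    · refine ae_of_all _ fun y => ?_
      have c3 : ContinuousOn (fun r : ℝ => (r, y)) (Icc 0 s) := by fun_prop
      have c4 : ContinuousOn ((fun z : ℝ × E3 => W z.1 z.2) ∘ (fun r : ℝ => (r, y))) (Icc 0 s) :=
        ContinuousOn.comp h.W_cont c3 (fun r hr => ⟨hr, mem_univ _⟩)
      have c5 : ContinuousOn ((fun z : ℝ × E3 => X z.1 z.2) ∘ (fun r : ℝ => (r, y))) (Icc 0 s) :=
        ContinuousOn.comp h.X_cont c3 (fun r hr => ⟨hr, mem_univ _⟩)
      have c6 : ContinuousOn (fun r : ℝ => (r, X r y)) (Icc 0 s) := continuousOn_id.prodMk c5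
      have c7 : ContinuousOn ((fun z : ℝ × E3 => v z.1 z.2) ∘ (fun r : ℝ => (r, X r y)))
          (Icc 0 s) :=
        ContinuousOn.comp (C11.cont_u hv hs) c6 (fun r hr => ⟨hr, mem_univ _⟩)
      exact ((c4.sub c7).norm).pow 2
  have hder : ∀ r ∈ Ioo 0 s, ∃ d, HasDerivAt E d r ∧ d ≤ 2 * K * E r := by
    intro r hr
    refine ⟨_, h.energy_deriv hv hs hr, ?_⟩
    have hrc : r ∈ Icc 0 s := Ioo_subset_Icc_self hr
    have mv := cd_u hv (sub_Ico hs hrc)
    have cw : Continuous (fun y => W r y - v r (X r y)) := (cW r hrc).sub (cv r hrc)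
    have cM : Continuous (fun y => fderiv ℝ (v r) (X r y)) :=
      (mv.continuous_fderiv (by norm_num)).comp (cX r hrc)
    have cMvw : Continuous (fun y => fderiv ℝ (v r) (X r y) (W r y - v r (X r y))) :=
      cM.clm_apply cw
    have hneg : -(∫ y in cube, ⟪fderiv ℝ (v r) (X r y) (W r y - v r (X r y)),
        W r y - v r (X r y)⟫) ≤ K * E r := by
      rw [← integral_neg, hE]
      simp only
      rw [← integral_const_mul]
      have c1 : Continuous (fun y => -⟪fderiv ℝ (v r) (X r y) (W r y - v r (X r y)),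
          W r y - v r (X r y)⟫) := (cMvw.inner cw).neg
      have c2 : Continuous (fun y => K * ‖W r y - v r (X r y)‖ ^ 2) :=
        continuous_const.mul (cw.norm.pow 2)
      apply integral_mono (c1.continuousOn.integrableOn_compact cube_compact)
        (c2.continuousOn.integrableOn_compact cube_compact)
      intro y
      show -⟪fderiv ℝ (v r) (X r y) (W r y - v r (X r y)), W r y - v r (X r y)⟫
        ≤ K * ‖W r y - v r (X r y)‖ ^ 2
      set d := W r y - v r (X r y) with hd
      have h5 := abs_real_inner_le_norm (fderiv ℝ (v r) (X r y) d) d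
      have h6 := (fderiv ℝ (v r) (X r y)).le_of_opNorm_le (hK r hrc (X r y)) d
      have h7 := mul_le_mul_of_nonneg_right h6 (norm_nonneg d)
      have h8 := neg_abs_le ⟪fderiv ℝ (v r) (X r y) d, d⟫
      have e5 : K * ‖d‖ ^ 2 = K * ‖d‖ * ‖d‖ := by ring
      rw [e5]
      linarith
    linarith
  set g : ℝ → ℝ := fun r => E r * Real.exp (-(2 * K * r)) with hg
  have hanti : AntitoneOn g (Icc 0 s) := by
    apply antitoneOn_of_deriv_nonpos (convex_Icc 0 s)
    · exact hcont.mul (by fun_prop)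
    · rw [interior_Icc]
      intro r hr
      obtain ⟨d, hd, -⟩ := hder r hr
      exact (hd.differentiableAt.mul (by fun_prop)).differentiableWithinAt
    · rw [interior_Icc]
      intro r hr
      obtain ⟨d, hd, hle⟩ := hder r hr
      have h5 : HasDerivAt (fun r : ℝ => Real.exp (-(2 * K * r)))
          (Real.exp (-(2 * K * r)) * (-(2 * K * 1))) r :=
        (((hasDerivAt_id r).const_mul (2 * K)).neg).exp
      have h8 : HasDerivAt g (d * Real.exp (-(2 * K * r))
          + E r * (Real.exp (-(2 * K * r)) * (-(2 * K * 1)))) r := hd.mul h5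
      rw [h8.deriv]
      have h6 := Real.exp_pos (-(2 * K * r))
      nlinarith
  have h7 := hanti ⟨le_rfl, h0⟩ htc h0
  simp only [hg, mul_zero, neg_zero, Real.exp_zero, mul_one] at h7
  have h8 : E s = (E s * Real.exp (-(2 * K * s))) * Real.exp (2 * K * s) := by
    rw [mul_assoc, ← Real.exp_add, neg_add_cancel, Real.exp_zero, mul_one]
  have hE0 : E 0 = ∫ y in cube, ‖W 0 y - v 0 y‖ ^ 2 := by
    simp only [hE, h.X_zero]
  rw [← hE0]
  calc E s = (E s * Real.exp (-(2 * K * s))) * Real.exp (2 * K * s) := h8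
    _ ≤ E 0 * Real.exp (2 * K * s) := mul_le_mul_of_nonneg_right h7 (Real.exp_pos _).le

end Pool.Agent.Work.MP_b0497c_an.Unf
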