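import Pool.Agent.Work.MP_b0497c_an.Unf.KDefs
import Pool.Agent.Work.MP_b0497c_an.Unf.DLag
import Pool.Agent.Work.MP_b0497c_an.Bd.B08
import Pool.Agent.Work.MP_b0497c_an.Bd.B13

set_option autoImplicit false
set_option linter.dupNamespace false
set_option linter.unusedSectionVars false

/-!
# Block K: from coefficients to real labels (proofs of D1 - D7)
-/

open scoped ENNReal InnerProductSpace
open Set MeasureTheory

namespace Pool.Agent.Work.MP_b0497c_an.Unf.K

open W S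
open Forced.Ode (Op ro)

namespace KDict

/-! ### Real and complex vectors -/

theorem norm_ofC (x : E3) : ‖ofC x‖ = ‖x‖ := by
  rw [EuclideanSpace.norm_eq, EuclideanSpace.norm_eq]
  congr 1
  refine Finset.sum_congr rfl fun i _ => ?_
  rw [ofC_apply, Complex.norm_real]

theorem norm_reC_le (x : C3) : ‖reC x‖ ≤ ‖x‖ := by
  rw [EuclideanSpace.norm_eq, EuclideanSpace.norm_eq]
  refine Real.sqrt_le_sqrt (Finset.sum_le_sum fun i _ => ?_)
  rw [reC_apply, Real.norm_eq_abs]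
  gcongr
  exact Complex.abs_re_le_norm (x i)

theorem cjv_ofC (x : E3) : cjv (ofC x) = ofC x := by
  ext i
  simp only [cjv, ofC_apply, Complex.conj_ofReal]

theorem rM_apply (θ : Md →+ ℝ) (f : Md → Mat) (x : E3) : rM θ f x = reC (ev θ f (ofC x)) := rfl

theorem norm_rM_le (θ : Md →+ ℝ) (f : Md → Mat) : ‖rM θ f‖ ≤ ‖ev θ f‖ := by
  refine ContinuousLinearMap.opNorm_le_bound _ (norm_nonneg _) fun x => ?_
  rw [rM_apply]
  refine (norm_reC_le _).trans ?_
  rw [← norm_ofC x]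
  exact ContinuousLinearMap.le_opNorm _ _

theorem norm_rV_le (θ : Md →+ ℝ) (f : Md → C3) : ‖rV θ f‖ ≤ ‖ev θ f‖ := norm_reC_le _

theorem summable_app {f : Md → Mat} (hf : Summable fun q => ‖f q‖) (v : C3) :
    Summable fun q => ‖f q v‖ :=
  Summable.of_nonneg_of_le (fun _ => norm_nonneg _) (fun q => (f q).le_opNorm v) (hf.mul_right _)

theorem inner_ofC (x y : E3) : inner ℂ (ofC x) (ofC y) = ((⟪x, y⟫_ℝ : ℝ) : ℂ) := by
  rw [PiLp.inner_apply, PiLp.inner_apply]
  push_cast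
  refine Finset.sum_congr rfl fun i _ => ?_
  rw [ofC_apply, ofC_apply]
  simp [mul_comm]

theorem kv_eq (k : Fin 3 → ℤ) : kv k = ofC (kR k) := by
  ext i
  rw [ofC_apply]
  simp [kv, kR]

end KDict

open KDict

theorem d1 : D1 := by
  intro θ f hf hr x
  have h1 : ev θ (fun q => f q (ofC x)) = ev θ f (ofC x) := ev_apply θ hf (ofC x)
  have h2 : ofC (reC (ev θ (fun q => f q (ofC x)))) = ev θ (fun q => f q (ofC x)) := by
    refine ev_real θ (summable_app hf _) fun q => ?_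
    have h3 := hr q (ofC x)
    rwa [cjv_ofC] at h3
  rw [h1] at h2
  exact h2.symm

theorem d1v : D1v := fun θ _ hf hr => (ev_real θ hf hr).symm

namespace KDict

/-- the norm of the evaluation from the weighted norm -/
theorem d2_gen {E : Type} [NormedAddCommGroup E] [NormedSpace ℂ E] (θ : Md →+ ℝ) {T c B : ℝ}
    {α : ℝ → ℝ} (hc : 0 ≤ c) (hB : 0 ≤ B) (hα : ∀ t ∈ Icc 0 T, 0 < α t) {f : ℝ → Md → E}
    (hf : Nrm T c 0 α f ≤ ENNReal.ofReal B) {t : ℝ} (ht : t ∈ Icc 0 T) :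
    (Summable fun q => ‖f t q‖) ∧ ‖ev θ (f t)‖ ≤ B * α t := by
  have hat := hα t ht
  have h1 : ∑' q, ENNReal.ofReal (α t)⁻¹ * ‖f t q‖ₑ ≤ ENNReal.ofReal B := by
    refine le_trans (ENNReal.tsum_le_tsum fun q => ?_) hf
    refine le_iSup₂_of_le t ht ?_
    refine mul_le_mul_left (ENNReal.ofReal_le_ofReal ?_) _
    rw [inv_eq_one_div]
    refine div_le_div_of_nonneg_right ?_ hat.le
    refine Real.one_le_exp ?_
    rw [zero_mul, sub_zero]
    exact mul_nonneg hc (len_nonneg q)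
  rw [ENNReal.tsum_mul_left] at h1
  have h2 : ∑' q, ‖f t q‖ₑ ≤ ENNReal.ofReal (B * α t) := by
    have h3 : ENNReal.ofReal (α t) * (ENNReal.ofReal (α t)⁻¹ * ∑' q, ‖f t q‖ₑ) ≤
        ENNReal.ofReal (α t) * ENNReal.ofReal B := mul_le_mul' le_rfl h1
    rw [← mul_assoc, ← ENNReal.ofReal_mul hat.le, mul_inv_cancel₀ hat.ne', ENNReal.ofReal_one,
      one_mul, ← ENNReal.ofReal_mul hat.le, mul_comm] at h3
    exact h3
  have h4 : ∑' q, ‖f t q‖ₑ ≠ ∞ := ne_top_of_le_ne_top ENNReal.ofReal_ne_top h2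
  have h5 : Summable fun q => ‖f t q‖ := by
    have := ENNReal.summable_toReal h4
    simpa only [toReal_enorm] using this
  refine ⟨h5, (norm_ev_le θ h5).trans ?_⟩
  have h6 := ENNReal.toReal_mono ENNReal.ofReal_ne_top h2
  rw [ENNReal.tsum_toReal_eq (fun q => enorm_ne_top), ENNReal.toReal_ofReal
    (mul_nonneg hB hat.le)] at h6
  simpa only [toReal_enorm] using h6

/-- the phase factor near `2π ℤ` -/
theorem ch_sub_one {n : ℕ} {d : ℝ} {θ : Md →+ ℝ} (hN : Near n d θ) {q : Md}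
    (hq : ∀ i, n ≤ i → q i = 0) : ‖ch θ q - 1‖ ≤ d * len q := by
  classical
  choose! m hm using hN
  have hlen : (len q : ℝ) = ∑ i ∈ q.support, |((q i : ℤ) : ℝ)| := rfl
  have hlt : ∀ i ∈ q.support, i < n := by
    intro i hi
    by_contra hc
    rw [Finsupp.mem_support_iff] at hi
    exact hi (hq i (not_lt.1 hc))
  have h1 : θ q = ∑ i ∈ q.support, (q i : ℝ) * θ (Finsupp.single i 1) := by
    conv_lhs => rw [← Finsupp.sum_single q]
    rw [Finsupp.sum, map_sum]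
    refine Finset.sum_congr rfl fun i _ => ?_
    have h2 : (Finsupp.single i (q i) : Md) = (q i) • Finsupp.single i (1 : ℤ) := by
      rw [Finsupp.smul_single, smul_eq_mul, mul_one]
    rw [h2, map_zsmul, zsmul_eq_mul]
  set x : ℝ := ∑ i ∈ q.support, (q i : ℝ) * (θ (Finsupp.single i 1) - 2 * Real.pi * m i) with hx
  set N : ℤ := ∑ i ∈ q.support, q i * m i with hN
  have h3 : θ q = x + 2 * Real.pi * N := by
    rw [h1, hx, hN]
    push_cast
    rw [Finset.mul_sum, ← Finset.sum_add_distrib]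
    refine Finset.sum_congr rfl fun i _ => ?_
    ring
  have h4 : ch θ q = Complex.exp (Complex.I * x) := by
    rw [ch, h3]
    push_cast
    rw [_root_.mul_add, Complex.exp_add]
    have h5 : Complex.I * (2 * (Real.pi : ℂ) * (N : ℂ)) =
        (N : ℂ) * (2 * (Real.pi : ℂ) * Complex.I) := by
      ring
    rw [h5, Complex.exp_int_mul_two_pi_mul_I, mul_one]
  rw [h4]
  refine (Real.norm_exp_I_mul_ofReal_sub_one_le (x := x)).trans ?_
  rw [Real.norm_eq_abs, hx, hlen, Finset.mul_sum]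
  refine (Finset.abs_sum_le_sum_abs _ _).trans (Finset.sum_le_sum fun i hi => ?_)
  rw [abs_mul, mul_comm]
  exact mul_le_mul_of_nonneg_right (hm i (hlt i hi)) (abs_nonneg _)

end KDict

theorem d2 : D2 := by
  intro θ T c B α hc hB hα
  refine ⟨fun f hf t ht => ?_, fun f hf t ht => ?_⟩
  · obtain ⟨h1, h2⟩ := d2_gen θ hc hB hα hf ht
    exact ⟨h1, h2, (norm_rM_le θ _).trans h2⟩
  · obtain ⟨h1, h2⟩ := d2_gen θ hc hB hα hf ht
    exact ⟨h1, h2, (norm_rV_le θ _).trans h2⟩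

theorem d3 : D3 := by
  intro θ n f c B d hc hB hd hsupp hf hN
  have hfin : sN c f ≠ ∞ := ne_top_of_le_ne_top ENNReal.ofReal_ne_top hf
  have hs : Summable fun q => Real.exp (c * len q) * ‖f q‖ := by
    have h1 := ENNReal.summable_toReal hfin
    refine h1.congr fun q => ?_
    rw [ENNReal.toReal_mul, ENNReal.toReal_ofReal (Real.exp_pos _).le, toReal_enorm]
  have hsB : ∑' q, Real.exp (c * len q) * ‖f q‖ ≤ B := by
    have h2 := ENNReal.toReal_mono ENNReal.ofReal_ne_top hf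
    rw [ENNReal.toReal_ofReal hB] at h2
    refine le_trans (le_of_eq ?_) h2
    unfold sN
    rw [ENNReal.tsum_toReal_eq (fun q => ENNReal.mul_ne_top ENNReal.ofReal_ne_top enorm_ne_top)]
    refine tsum_congr fun q => ?_
    rw [ENNReal.toReal_mul, ENNReal.toReal_ofReal (Real.exp_pos _).le, toReal_enorm]
  have h0 : Summable fun q => ‖f q‖ := by
    refine Summable.of_nonneg_of_le (fun _ => norm_nonneg _) (fun q => ?_) hs
    exact le_mul_of_one_le_left (norm_nonneg _)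
      (Real.one_le_exp (mul_nonneg hc.le (len_nonneg q)))
  have hterm : ∀ q, ‖(ch θ q - ch 0 q) • f q‖ ≤ d / c * (Real.exp (c * len q) * ‖f q‖) := by
    intro q
    have hch0 : ch (0 : Md →+ ℝ) q = 1 := by simp [ch]
    by_cases hq : ∀ i, n ≤ i → q i = 0
    · rw [norm_smul, hch0]
      have h3 := ch_sub_one hN hq
      have h4 : len q ≤ Real.exp (c * len q) / c := by
        rw [le_div_iff₀ hc]
        have := Real.add_one_le_exp (c * len q)
        nlinarith
      calc ‖ch θ q - 1‖ * ‖f q‖ ≤ (d * (Real.exp (c * len q) / c)) * ‖f q‖ := by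
            refine mul_le_mul_of_nonneg_right (h3.trans ?_) (norm_nonneg _)
            exact mul_le_mul_of_nonneg_left h4 hd
        _ = _ := by ring
    · rw [hsupp q hq]
      have h3 : (ch θ q - ch (0 : Md →+ ℝ) q) • (0 : Mat) = 0 := by
        ext1 x
        simp
      rw [h3, norm_zero, mul_zero, mul_zero]
  have h5 : ev θ f - ev 0 f = ∑' q, (ch θ q - ch 0 q) • f q := by
    rw [ev, ev, ← (summable_ch θ h0).tsum_sub (summable_ch 0 h0)]
    exact tsum_congr fun q => (sub_smul _ _ _).symm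
  have h6 : rM θ f - rM 0 f = reC.comp (((ev θ f - ev 0 f).restrictScalars ℝ).comp ofC) := by
    ext1 x
    rw [sub_apply, rM_apply, rM_apply, ← map_sub]
    rfl
  have h7 : ‖rM θ f - rM 0 f‖ ≤ ‖ev θ f - ev 0 f‖ := by
    rw [h6]
    refine ContinuousLinearMap.opNorm_le_bound _ (norm_nonneg _) fun x => ?_
    refine (norm_reC_le _).trans ?_
    rw [← norm_ofC x]
    exact ContinuousLinearMap.le_opNorm (ev θ f - ev 0 f) (ofC x)
  refine h7.trans ?_
  rw [h5]
  refine (tsum_of_norm_bounded (hs.mul_left (d / c)).hasSum hterm).trans ?_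
  rw [tsum_mul_left]
  calc d / c * ∑' q, Real.exp (c * len q) * ‖f q‖ ≤ d / c * B := by gcongr
    _ = d * (B / c) := by ring

namespace KDict

section time

variable {E : Type} [NormedAddCommGroup E] [NormedSpace ℂ E]

/-- the extension of a differentiable function beyond the interval -/
noncomputable def ext1 {V : Type} [NormedAddCommGroup V] [NormedSpace ℝ V] (T : ℝ)
    (u u' : ℝ → V) (t : ℝ) : V := u (clT T t) + (t - clT T t) • u' (clT T t)

theorem clT_mem {T : ℝ} (hT : 0 ≤ T) (t : ℝ) : clT T t ∈ Icc 0 T :=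
  ⟨le_max_left _ _, max_le hT (min_le_right _ _)⟩

theorem clT_of_mem {T t : ℝ} (ht : t ∈ Icc 0 T) : clT T t = t := by
  rw [clT, min_eq_left ht.2, max_eq_right ht.1]

theorem clT_of_neg {T t : ℝ} (hT : 0 ≤ T) (ht : t ≤ 0) : clT T t = 0 := by
  rw [clT, min_eq_left (ht.trans hT), max_eq_left ht]

theorem clT_of_ge {T t : ℝ} (hT : 0 ≤ T) (ht : T ≤ t) : clT T t = T := by
  rw [clT, min_eq_right ht, max_eq_right hT]

theorem clT_cont (T : ℝ) : Continuous (clT T) :=
  continuous_const.max (continuous_id.min continuous_const)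

theorem ext1_of_mem {V : Type} [NormedAddCommGroup V] [NormedSpace ℝ V] {T : ℝ}
    (u u' : ℝ → V) {t : ℝ} (ht : t ∈ Icc 0 T) : ext1 T u u' t = u t := by
  rw [ext1, clT_of_mem ht, sub_self, zero_smul, add_zero]

theorem ext1_deriv {V : Type} [NormedAddCommGroup V] [NormedSpace ℝ V] {T : ℝ} (hT : 0 < T)
    {u u' : ℝ → V} (hu : ∀ t ∈ Icc 0 T, HasDerivWithinAt u (u' t) (Icc 0 T) t) (t : ℝ) :
    HasDerivAt (ext1 T u u') (u' (clT T t)) t := by
  have hin : ∀ t ∈ Icc 0 T, HasDerivWithinAt (ext1 T u u') (u' t) (Icc 0 T) t := fun t ht =>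
    (hu t ht).congr (fun s hs => ext1_of_mem u u' hs) (ext1_of_mem u u' ht)
  have hneg : ∀ s ≤ 0, ext1 T u u' s = u 0 + s • u' 0 := by
    intro s hs
    rw [ext1, clT_of_neg hT.le hs, sub_zero]
  have hpos : ∀ s, T ≤ s → ext1 T u u' s = u T + (s - T) • u' T := by
    intro s hs
    rw [ext1, clT_of_ge hT.le hs]
  have dneg : ∀ s, HasDerivAt (fun r : ℝ => u 0 + r • u' 0) (u' 0) s := by
    intro s
    have h2 := ((hasDerivAt_id s).smul_const (u' 0)).const_add (u 0)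
    simpa using h2
  have dpos : ∀ s, HasDerivAt (fun r : ℝ => u T + (r - T) • u' T) (u' T) s := by
    intro s
    have h2 := (((hasDerivAt_id s).sub_const T).smul_const (u' T)).const_add (u T)
    simpa using h2
  rcases lt_trichotomy t 0 with h0 | h0 | h0
  · rw [clT_of_neg hT.le h0.le]
    refine (dneg t).congr_of_eventuallyEq ?_
    filter_upwards [Iio_mem_nhds h0] with s hs
    exact hneg s (le_of_lt hs)
  · subst h0
    rw [clT_of_neg hT.le le_rfl]
    have hL : HasDerivWithinAt (ext1 T u u') (u' 0) (Iic 0) 0 :=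
      (dneg 0).hasDerivWithinAt.congr (fun s hs => hneg s hs) (hneg 0 le_rfl)
    have hR : HasDerivWithinAt (ext1 T u u') (u' 0) (Icc 0 T) 0 := hin 0 ⟨le_rfl, hT.le⟩
    have h := hL.union hR
    refine h.hasDerivAt ?_
    filter_upwards [Iio_mem_nhds hT] with s hs
    rcases le_total s 0 with h1 | h1
    · exact Or.inl h1
    · exact Or.inr ⟨h1, le_of_lt hs⟩
  · rcases lt_trichotomy t T with h1 | h1 | h1
    · rw [clT_of_mem ⟨h0.le, h1.le⟩]
      exact (hin t ⟨h0.le, h1.le⟩).hasDerivAt (Icc_mem_nhds h0 h1)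
    · subst h1
      rw [clT_of_ge hT.le le_rfl]
      have hR : HasDerivWithinAt (ext1 t u u') (u' t) (Ici t) t :=
        (dpos t).hasDerivWithinAt.congr (fun s hs => hpos s hs) (hpos t le_rfl)
      have hL : HasDerivWithinAt (ext1 t u u') (u' t) (Icc 0 t) t := hin t ⟨hT.le, le_rfl⟩
      have h := hL.union hR
      refine h.hasDerivAt ?_
      filter_upwards [Ioi_mem_nhds hT] with s hs
      rcases le_total s t with h2 | h2
      · exact Or.inl ⟨le_of_lt hs, h2⟩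
      · exact Or.inr h2
    · rw [clT_of_ge hT.le h1.le]
      refine (dpos t).congr_of_eventuallyEq ?_
      filter_upwards [Ioi_mem_nhds h1] with s hs
      exact hpos s (le_of_lt hs)

/-- time derivative of an evaluation, closed interval -/
theorem ev_derivW {Γ : Type} [AddCommGroup Γ] [CompleteSpace E] {T : ℝ} (hT : 0 < T)
    {f f' : ℝ → Γ → E} {v : Γ → ℝ} (hv : Summable v)
    (hf' : ∀ t ∈ Icc 0 T, ∀ q, ‖f' t q‖ ≤ v q)
    (hd : ∀ q, ∀ t ∈ Icc 0 T, HasDerivWithinAt (fun t => f t q) (f' t q) (Icc 0 T) t)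
    (h0 : Summable fun q => ‖f 0 q‖) (θ : Γ →+ ℝ) {t : ℝ} (ht : t ∈ Icc 0 T) :
    HasDerivWithinAt (fun t => ev θ (f t)) (ev θ (f' t)) (Icc 0 T) t := by
  have h00 : (0 : ℝ) ∈ Icc 0 T := ⟨le_rfl, hT.le⟩
  have h1 := hasDerivAt_tsum (𝕜 := ℝ) (u := v)
    (g := fun q r => ch θ q • ext1 T (fun t => f t q) (fun t => f' t q) r)
    (g' := fun q r => ch θ q • f' (clT T r) q) hv
    (fun q r => (ext1_deriv hT (hd q) r).const_smul (ch θ q))
    (fun q r => (norm_ch_smul θ q _).trans_le (hf' _ (clT_mem hT.le r) q))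
    (y₀ := 0) (by
      simp only [ext1_of_mem _ _ h00]
      exact summable_ch θ h0) t
  rw [clT_of_mem ht] at h1
  refine h1.hasDerivWithinAt.congr (fun s hs => ?_) ?_
  · simp only [ext1_of_mem _ _ hs]
    rfl
  · simp only [ext1_of_mem _ _ ht]
    rfl

/-- continuity in time of an evaluation -/
theorem ev_contW {Γ : Type} [AddCommGroup Γ] [CompleteSpace E] {T : ℝ} {f : ℝ → Γ → E} {v : Γ → ℝ}
    (hv : Summable v) (hf : ∀ t ∈ Icc 0 T, ∀ q, ‖f t q‖ ≤ v q)
    (hc : ∀ q, ContinuousOn (fun t => f t q) (Icc 0 T)) (θ : Γ →+ ℝ) :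
    ContinuousOn (fun t => ev θ (f t)) (Icc 0 T) := by
  refine continuousOn_tsum (u := v) (fun q => (hc q).const_smul (ch θ q)) hv ?_
  intro q t ht
  exact (norm_ch_smul θ q _).trans_le (hf t ht q)

end time

/-- uniqueness for linear ODEs on a closed interval -/
theorem uniq_Icc {V : Type} [NormedAddCommGroup V] [NormedSpace ℝ V] {T : ℝ}
    {A : ℝ → V →L[ℝ] V} (hA : ContinuousOn A (Icc 0 T)) {x y : ℝ → V}
    (hx : ∀ t ∈ Icc 0 T, HasDerivWithinAt x (A t (x t)) (Icc 0 T) t)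
    (hy : ∀ t ∈ Icc 0 T, HasDerivWithinAt y (A t (y t)) (Icc 0 T) t) (h0 : x 0 = y 0) :
    ∀ t ∈ Icc 0 T, x t = y t := by
  obtain ⟨C, hC⟩ := isCompact_Icc.bddAbove_image hA.norm
  have hlip : ∀ r ∈ Ico 0 T, LipschitzWith (Real.toNNReal (max C 0)) (A r) := by
    intro r hr
    have h1 : ‖A r‖ ≤ C := hC (mem_image_of_mem _ ⟨hr.1, hr.2.le⟩)
    exact (A r).lipschitz.weaken (by
      rw [← NNReal.coe_le_coe, Real.coe_toNNReal _ (le_max_right _ _)]
      exact h1.trans (le_max_left _ _))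
  have hd : ∀ {z : ℝ → V}, (∀ t ∈ Icc 0 T, HasDerivWithinAt z (A t (z t)) (Icc 0 T) t) →
      ∀ t ∈ Ico 0 T, HasDerivWithinAt z (A t (z t)) (Ici t) t := by
    intro z hz t ht
    refine (hz t ⟨ht.1, ht.2.le⟩).mono_of_mem_nhdsWithin ?_
    rw [mem_nhdsWithin_iff_exists_mem_nhds_inter]
    exact ⟨Iio T, Iio_mem_nhds ht.2, fun r hr => ⟨ht.1.trans (show t ≤ r from hr.2),
      (show r < T from hr.1).le⟩⟩
  have h2 := ODE_solution_unique_of_mem_Icc_right (v := fun r x => A r x) (s := fun _ => univ)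
    (f := x) (g := y) (a := 0) (b := T)
    (K := Real.toNNReal (max C 0)) (fun r hr => (hlip r hr).lipschitzOnWith)
    (fun r hr => (hx r hr).continuousWithinAt)
    (fun r hr => hd hx r hr) (fun _ _ => mem_univ _)
    (fun r hr => (hy r hr).continuousWithinAt)
    (fun r hr => hd hy r hr) (fun _ _ => mem_univ _) h0
  exact fun t ht => h2 ht

/-- a summable bound of the modes, uniform in time -/
theorem exists_bd {E : Type} [NormedAddCommGroup E] [NormedSpace ℂ E] {T c : ℝ} (hc : 0 ≤ c)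
    {f : ℝ → Md → E} (hf : Nrm T c 0 (fun _ => 1) f ≠ ∞) :
    ∃ v : Md → ℝ, Summable v ∧ ∀ t ∈ Icc 0 T, ∀ q, ‖f t q‖ ≤ v q := by
  obtain ⟨v, hv, -, -, hb⟩ := bound_of_Nrm hf
  refine ⟨v, hv, fun t ht q => le_trans ?_ (hb t ht q)⟩
  exact le_mul_of_one_le_left (norm_nonneg _) (Real.one_le_exp (mul_nonneg hc (len_nonneg q)))

end KDict

namespace KDict

/-- The real matrix of a complex one, as a continuous linear map. -/
noncomputable def reML : Mat →L[ℝ] Op :=
  LinearMap.mkContinuous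
    { toFun := fun B => reC.comp ((B.restrictScalars ℝ).comp ofC)
      map_add' := fun A B => by
        ext1 x
        exact map_add reC _ _
      map_smul' := fun c A => by
        ext1 x
        exact map_smul reC c _ } 1
    (fun B => by
      rw [one_mul]
      refine ContinuousLinearMap.opNorm_le_bound _ (norm_nonneg _) fun x => ?_
      refine (norm_reC_le _).trans ?_
      rw [← norm_ofC x]
      exact ContinuousLinearMap.le_opNorm B (ofC x))

theorem reML_ev (θ : Md →+ ℝ) (f : Md → Mat) : reML (ev θ f) = rM θ f := rfl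

/-- The adjoint as a real continuous linear map. -/
noncomputable def adL : Op →L[ℝ] Op :=
  LinearMap.mkContinuous
    { toFun := fun A => ContinuousLinearMap.adjoint A
      map_add' := fun A B => map_add _ A B
      map_smul' := fun c A => by simp } 1
    (fun A => by
      show ‖ContinuousLinearMap.adjoint A‖ ≤ 1 * ‖A‖
      rw [LinearIsometryEquiv.norm_map, one_mul])

theorem adL_apply (A : Op) : adL A = ContinuousLinearMap.adjoint A := rfl

theorem adj_comp (A B : Op) (x : E3) : ContinuousLinearMap.adjoint (A.comp B) x =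
    ContinuousLinearMap.adjoint B (ContinuousLinearMap.adjoint A x) := by
  rw [ContinuousLinearMap.adjoint_comp]
  rfl

theorem adj_id (x : E3) : ContinuousLinearMap.adjoint (ContinuousLinearMap.id ℝ E3) x = x := by
  refine ext_inner_left ℝ fun y => ?_
  rw [ContinuousLinearMap.adjoint_inner_right]
  rfl

theorem rM_of_id {θ : Md →+ ℝ} {f : Md → Mat} (h : ev θ f = ContinuousLinearMap.id ℂ C3) :
    rM θ f = ContinuousLinearMap.id ℝ E3 := by
  ext1 x
  rw [rM_apply, h]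
  exact reC_ofC x

theorem rM_mm (θ : Md →+ ℝ) {a b : Md → Mat} (ha : Summable fun q => ‖a q‖)
    (hb : Summable fun q => ‖b q‖) (hr : RealM b) :
    rM θ (mm a b) = (rM θ a).comp (rM θ b) := by
  ext1 x
  have h1 := d1 θ b hb hr x
  rw [rM_apply, ev_mm θ ha hb]
  show reC (ev θ a (ev θ b (ofC x))) = _
  rw [h1]
  rfl

end KDict

theorem d4 : D4 := by
  intro K T' r R l X U A' p F Fi M h T hT hTT θ
  have hT' : 0 < T' := h.s_pos
  have hc : 0 ≤ r := h.c_pos.le
  have hP : Par T' r 0 := ⟨hT', le_rfl, by rw [zero_mul]; exact hc⟩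
  have hsub : Icc 0 T ⊆ Icc 0 T' := Icc_subset_Icc_right hTT
  obtain ⟨vM, hvM, hM⟩ := exists_bd hc h.M_fin
  obtain ⟨vI, hvI, hI⟩ := exists_bd hc h.Fi_fin
  obtain ⟨vF, hvF, hF⟩ := exists_bd hc h.F_fin
  have sM : ∀ t ∈ Icc 0 T', Summable fun q => ‖M t q‖ := fun t ht =>
    Summable.of_nonneg_of_le (fun _ => norm_nonneg _) (hM t ht) hvM
  have sI : ∀ t ∈ Icc 0 T', Summable fun q => ‖Fi t q‖ := fun t ht =>
    Summable.of_nonneg_of_le (fun _ => norm_nonneg _) (hI t ht) hvI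
  have sF : ∀ t ∈ Icc 0 T', Summable fun q => ‖F t q‖ := fun t ht =>
    Summable.of_nonneg_of_le (fun _ => norm_nonneg _) (hF t ht) hvF
  have h00' : (0 : ℝ) ∈ Icc 0 T' := ⟨le_rfl, hT'.le⟩
  have h00 : (0 : ℝ) ∈ Icc 0 T := ⟨le_rfl, hT.le⟩
  -- continuity of the flow
  have cM : ContinuousOn (fun t => rM θ (M t)) (Icc 0 T') :=
    reML.continuous.comp_continuousOn (ev_contW hvM hM h.M_cm θ)
  have hMt : Continuous (rMt θ T M) :=
    cM.comp_continuous (clT_cont T) fun t => hsub (clT_mem hT.le t)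
  have hMe : ∀ t ∈ Icc 0 T, rMt θ T M t = rM θ (M t) := fun t ht => by
    rw [rMt, clT_of_mem ht]
  -- derivative of Fi
  have nFM : Nrm T' r 0 (fun _ => 1) (fun t => mm (Fi t) (M t)) ≠ ∞ :=
    ne_top_of_le_ne_top (ENNReal.mul_ne_top h.Fi_fin h.M_fin) (sa_nrm_mm1 hP Fi M)
  have nMF : Nrm T' r 0 (fun _ => 1) (fun t => mm (M t) (F t)) ≠ ∞ :=
    ne_top_of_le_ne_top (ENNReal.mul_ne_top h.M_fin h.F_fin) (sa_nrm_mm1 hP M F)
  obtain ⟨v1, hv1, hb1⟩ := exists_bd hc nFM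
  obtain ⟨v2, hv2, hb2⟩ := exists_bd hc nMF
  have dFi : ∀ t ∈ Icc 0 T', HasDerivWithinAt (fun t => rM θ (Fi t))
      (-((rM θ (Fi t)).comp (rM θ (M t)))) (Icc 0 T') t := by
    intro t ht
    have h1 := ev_derivW hT' (f := Fi) (f' := fun t q => -(mm (Fi t) (M t) q)) hv1
      (fun t ht q => by rw [norm_neg]; exact hb1 t ht q) h.Fi_der (sI 0 h00') θ ht
    have h2 := reML.hasFDerivAt.comp_hasDerivWithinAt t h1
    refine h2.congr_deriv ?_
    have h3 : ev θ (fun q => -(mm (Fi t) (M t) q)) = -(ev θ (mm (Fi t) (M t))) := ev_neg θ _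
    rw [h3, map_neg, reML_ev, rM_mm θ (sI t ht) (sM t ht) (h.M_even t ht).1]
  have dF : ∀ t ∈ Icc 0 T', HasDerivWithinAt (fun t => rM θ (F t))
      ((rM θ (M t)).comp (rM θ (F t))) (Icc 0 T') t := by
    intro t ht
    have h1 := ev_derivW hT' (f := F) (f' := fun t q => mm (M t) (F t) q) hv2
      hb2 h.F_der (sF 0 h00') θ ht
    have h2 := reML.hasFDerivAt.comp_hasDerivWithinAt t h1
    refine h2.congr_deriv ?_
    have h3 : ev θ (fun q => mm (M t) (F t) q) = ev θ (mm (M t) (F t)) := rfl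
    rw [h3, reML_ev, rM_mm θ (sM t ht) (sF t ht) (h.F_even t ht).1]
  -- initial values
  have hF0 : F 0 = oneM := by
    rw [h.F_eq 0 h00', h.x_zero]
    funext q
    simp [gradV]
  have hFi0 : rM θ (Fi 0) = ContinuousLinearMap.id ℝ E3 := by
    have h1 := h.inv 0 h00'
    rw [hF0] at h1
    have s1 : Summable fun q => ‖oneM q‖ := by
      have := sF 0 h00'
      rwa [hF0] at this
    have h2 := congrArg (ev θ) h1
    rw [ev_mm θ (sI 0 h00') s1, ev_oneM] at h2
    exact rM_of_id h2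
  -- the covectors
  have hcov : ∀ k : E3, ∀ t ∈ Icc 0 T,
      ContinuousLinearMap.adjoint (rM θ (Fi t)) k = covec (rMt θ T M) k t := by
    intro k
    refine uniq_Icc (A := dg (rMt θ T M)) (dg_cont hMt).continuousOn
      (x := fun t => ContinuousLinearMap.adjoint (rM θ (Fi t)) k)
      (y := covec (rMt θ T M) k) ?_ (fun t _ => (covec_deriv hMt k t).hasDerivWithinAt) ?_
    · intro t ht
      have h1 := adL.hasFDerivAt.comp_hasDerivWithinAt t ((dFi t (hsub ht)).mono hsub)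
      have h2 := ((ContinuousLinearMap.apply ℝ E3 k).hasFDerivAt).comp_hasDerivWithinAt t h1
      refine h2.congr_deriv ?_
      show (adL (-((rM θ (Fi t)).comp (rM θ (M t))))) k = _
      rw [map_neg, adL_apply, dg, hMe t ht]
      show -(ContinuousLinearMap.adjoint ((rM θ (Fi t)).comp (rM θ (M t))) k) = _
      rw [adj_comp]
      rfl
    · show ContinuousLinearMap.adjoint (rM θ (Fi 0)) k = _
      rw [hFi0, adj_id, covec_zero]
  refine ⟨hMt, hMe, hcov, ?_, fun t ht => (dF t (hsub ht)).mono hsub, ?_⟩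
  · intro t ht
    have ht' := hsub ht
    constructor
    · rw [← rM_mm θ (sF t ht') (sI t ht') (h.Fi_even t ht').1, h.FFi t ht']
      exact rM_of_id (ev_oneM θ)
    · rw [← rM_mm θ (sI t ht') (sF t ht') (h.F_even t ht').1, h.inv t ht']
      exact rM_of_id (ev_oneM θ)
  · intro t ht
    have ht' := hsub ht
    have h1 := trace_reM (ev θ (M t))
    rw [trace_ev θ (sM t ht') (h.tr_M t ht'), Complex.zero_re] at h1
    exact h1

namespace KDict

theorem sum_of_fin {E : Type} [NormedAddCommGroup E] [NormedSpace ℂ E] {f : Md → E}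
    (hf : sN 0 f ≠ ∞) : Summable fun q => ‖f q‖ := by
  have h1 := ENNReal.summable_toReal hf
  refine h1.congr fun q => ?_
  rw [ENNReal.toReal_mul, ENNReal.toReal_ofReal (Real.exp_pos _).le, toReal_enorm, zero_mul,
    Real.exp_zero, one_mul]

theorem fin_of_sum {E : Type} [NormedAddCommGroup E] [NormedSpace ℂ E] {f : Md → E}
    (hf : Summable fun q => ‖f q‖) : sN 0 f ≠ ∞ := by
  have h1 : sN 0 f = ∑' q, ENNReal.ofReal ‖f q‖ := by
    unfold sN
    refine tsum_congr fun q => ?_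
    rw [zero_mul, Real.exp_zero, ENNReal.ofReal_one, one_mul, ofReal_norm]
  rw [h1]
  exact hf.tsum_ofReal_ne_top

theorem eq_of_inner {w w' : C3} (h : ∀ x : E3, inner ℂ (ofC x) w = inner ℂ (ofC x) w') :
    w = w' := by
  ext j
  have h1 := h (e j)
  rw [ofC_e] at h1
  simpa [EuclideanSpace.inner_single_left] using h1

/-- the covector at a label -/
noncomputable def kap (θ : Md →+ ℝ) (Fi : Md → Mat) (k : Fin 3 → ℤ) : E3 :=
  ContinuousLinearMap.adjoint (rM θ Fi) (kR k)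

section gens

variable {θ : Md →+ ℝ} {k : Fin 3 → ℤ} {Fi : Md → Mat}

theorem inner_kap (x : E3) : ⟪kap θ Fi k, x⟫_ℝ = ⟪kR k, rM θ Fi x⟫_ℝ := by
  rw [kap, ContinuousLinearMap.adjoint_inner_left]

theorem ev_kcF (hs : Summable fun q => ‖Fi q‖) (hr : RealM Fi) :
    ev θ (kcF (kv k) Fi) = ofC (kap θ Fi k) := by
  have h0 : Summable fun q => ‖adjC Fi q‖ := by
    have h := fin_adjC (fin_of_sum hs)
    exact sum_of_fin h
  have h1 : ev θ (kcF (kv k) Fi) = ContinuousLinearMap.adjoint (ev θ Fi) (ofC (kR k)) := by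
    have h2 : ev θ (fun q => adjC Fi q (kv k)) = ev θ (adjC Fi) (kv k) := ev_apply θ h0 (kv k)
    rw [ev_adjC θ hs, kv_eq] at h2
    rw [← h2]
    rfl
  rw [h1]
  refine eq_of_inner fun x => ?_
  rw [ContinuousLinearMap.adjoint_inner_right, d1 θ Fi hs hr x, inner_ofC, inner_ofC,
    real_inner_comm, ← inner_kap, real_inner_comm]

theorem summable_rwF (hs : Summable fun q => ‖Fi q‖) :
    Summable fun q => ‖rwF (kv k) Fi q‖ := by
  refine Summable.of_nonneg_of_le (fun _ => norm_nonneg _) (fun q => ?_)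
    (hs.mul_left ‖innerSL ℂ (kv k)‖)
  exact ContinuousLinearMap.opNorm_comp_le _ _

theorem summable_kcF (hs : Summable fun q => ‖Fi q‖) :
    Summable fun q => ‖kcF (kv k) Fi q‖ := by
  have h0 : Summable fun q => ‖adjC Fi q‖ := sum_of_fin (fin_adjC (fin_of_sum hs))
  exact summable_app h0 _

theorem ev_rwF (hs : Summable fun q => ‖Fi q‖) (hr : RealM Fi) (x : E3) :
    ev θ (rwF (kv k) Fi) (ofC x) = ((⟪kap θ Fi k, x⟫_ℝ : ℝ) : ℂ) := by
  have h1 : ev θ (rwF (kv k) Fi) = (innerSL ℂ (kv k)).comp (ev θ Fi) :=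
    ev_map θ hs (ContinuousLinearMap.compL ℂ C3 C3 ℂ (innerSL ℂ (kv k)))
  rw [h1]
  show inner ℂ (kv k) (ev θ Fi (ofC x)) = _
  rw [d1 θ Fi hs hr x, kv_eq, inner_ofC, inner_kap]

theorem norm_ts (v : C3) : ‖ts v‖ = ‖v‖ := ContinuousLinearMap.norm_toSpanSingleton v

theorem summable_tsF {a : Md → C3} (ha : Summable fun q => ‖a q‖) :
    Summable fun q => ‖tsF a q‖ := by
  refine ha.congr fun q => ?_
  rw [tsF, norm_ts]

theorem ev_tsF {a : Md → C3} (ha : Summable fun q => ‖a q‖) (z : ℂ) :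
    ev θ (tsF a) z = z • ev θ a := by
  have h1 : ev θ (fun q => tsF a q z) = ev θ (tsF a) z := ev_apply θ (summable_tsF ha) z
  rw [← h1]
  have h2 := ev_map θ ha (z • ContinuousLinearMap.id ℂ C3)
  have h3 : (fun q => tsF a q z) = fun q => (z • ContinuousLinearMap.id ℂ C3) (a q) := by
    funext q
    simp [tsF, ts]
  rw [h3, h2]
  simp

theorem summable_scF {s : Md → ℂ} (hs : Summable fun q => ‖s q‖) :
    Summable fun q => ‖scF s q‖ := by
  refine Summable.of_nonneg_of_le (fun _ => norm_nonneg _) (fun q => ?_) hs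
  rw [scF, norm_smul]
  exact mul_le_of_le_one_right (norm_nonneg _) ContinuousLinearMap.norm_id_le

theorem ev_scF {s : Md → ℂ} (hs : Summable fun q => ‖s q‖) (z : ℂ) :
    ev θ (scF s) z = ev θ s * z := by
  have h1 : ev θ (fun q => scF s q z) = ev θ (scF s) z := ev_apply θ (summable_scF hs) z
  rw [← h1]
  have h2 := ev_map θ hs (z • ContinuousLinearMap.id ℂ ℂ)
  have h3 : (fun q => scF s q z) = fun q => (z • ContinuousLinearMap.id ℂ ℂ) (s q) := by
    funext q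
    simp [scF, mul_comm]
  rw [h3, h2]
  simp [mul_comm]

theorem sum_mm {E F G : Type} [NormedAddCommGroup E] [NormedSpace ℂ E]
    [NormedAddCommGroup F] [NormedSpace ℂ F] [NormedAddCommGroup G] [NormedSpace ℂ G]
    {a : Md → (F →L[ℂ] G)} {b : Md → (E →L[ℂ] F)} (ha : Summable fun q => ‖a q‖)
    (hb : Summable fun q => ‖b q‖) : Summable fun q => ‖mm a b q‖ :=
  sum_of_fin (fin_mm le_rfl (fin_of_sum ha) (fin_of_sum hb))

theorem sum_mul {E F : Type} [NormedAddCommGroup E] [NormedSpace ℂ E]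
    [NormedAddCommGroup F] [NormedSpace ℂ F]
    {a : Md → (E →L[ℂ] F)} {b : Md → E} (ha : Summable fun q => ‖a q‖)
    (hb : Summable fun q => ‖b q‖) : Summable fun q => ‖mul a b q‖ :=
  sum_of_fin (fin_mul le_rfl (fin_of_sum ha) (fin_of_sum hb))

/-- the scalar `|k|⁻²` at a label -/
theorem ev_s {s : Md → ℂ} (hI : Summable fun q => ‖Fi q‖) (hs : Summable fun q => ‖s q‖)
    (hr : RealM Fi)
    (heq : mul (mm (scF s) (rwF (kv k) Fi)) (kcF (kv k) Fi) = fun q => if q = 0 then 1 else 0) :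
    ev θ s * ((‖kap θ Fi k‖ ^ 2 : ℝ) : ℂ) = 1 := by
  have h1 := congrArg (ev θ) heq
  rw [ev_mul θ (sum_mm (summable_scF hs) (summable_rwF hI)) (summable_kcF hI),
    ev_mm θ (summable_scF hs) (summable_rwF hI), ev_kcF hI hr] at h1
  have h2 : ev θ (fun q : Md => if q = 0 then (1 : ℂ) else 0) = 1 := by
    rw [ev, tsum_eq_single 0]
    · simp [ch_zero]
    · intro q hq
      simp [hq]
  rw [h2] at h1
  have h3 : (ev θ (scF s)).comp (ev θ (rwF (kv k) Fi)) (ofC (kap θ Fi k)) =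
      ev θ (scF s) (ev θ (rwF (kv k) Fi) (ofC (kap θ Fi k))) := rfl
  rw [h3, ev_rwF hI hr, ev_scF hs, real_inner_self_eq_norm_sq] at h1
  exact h1

theorem summable_pF {s : Md → ℂ} (hI : Summable fun q => ‖Fi q‖) (hs : Summable fun q => ‖s q‖) :
    Summable fun q => ‖pF (kv k) Fi s q‖ :=
  sum_mm (summable_tsF (summable_kcF hI)) (sum_mm (summable_scF hs) (summable_rwF hI))

theorem ev_pF {s : Md → ℂ} (hI : Summable fun q => ‖Fi q‖) (hs : Summable fun q => ‖s q‖)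
    (hr : RealM Fi) (x : E3) :
    ev θ (pF (kv k) Fi s) (ofC x) =
      (ev θ s * ((⟪kap θ Fi k, x⟫_ℝ : ℝ) : ℂ)) • ofC (kap θ Fi k) := by
  rw [pF, ev_mm θ (summable_tsF (summable_kcF hI)) (sum_mm (summable_scF hs) (summable_rwF hI)),
    ev_mm θ (summable_scF hs) (summable_rwF hI)]
  show ev θ (tsF (kcF (kv k) Fi)) (ev θ (scF s) (ev θ (rwF (kv k) Fi) (ofC x))) = _
  rw [ev_rwF hI hr, ev_scF hs, ev_tsF (summable_kcF hI), ev_kcF hI hr]

end gens

theorem summable_oneM : Summable fun q => ‖oneM q‖ := sum_of_fin fin_oneM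

end KDict

theorem d5 : D5 := by
  intro θ k Fi M s hI hM hs hrI hrM heq x
  set κ : E3 := kap θ Fi k with hκ
  have hσ := ev_s (θ := θ) hI hs hrI heq
  have hκ0 : κ ≠ 0 := by
    intro h0
    rw [← hκ, h0, norm_zero] at hσ
    norm_num at hσ
  have hσ' : ev θ s = (((‖κ‖ ^ 2)⁻¹ : ℝ) : ℂ) := by
    have h1 : (((‖κ‖ ^ 2 : ℝ)) : ℂ) ≠ 0 := by
      norm_cast
      positivity
    rw [Complex.ofReal_inv, eq_comm, inv_eq_iff_eq_inv, eq_comm, inv_eq_iff_eq_inv]
    exact eq_inv_of_mul_eq_one_left hσ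
  have sp : Summable fun q => ‖pF (kv k) Fi s q‖ := summable_pF hI hs
  have s2 : Summable fun q => ‖((2 : ℂ) • pF (kv k) Fi s) q‖ := by
    refine (sp.mul_left ‖(2 : ℂ)‖).congr fun q => ?_
    rw [Pi.smul_apply, norm_smul]
  have s3 : Summable fun q => ‖(oneM - (2 : ℂ) • pF (kv k) Fi s) q‖ := by
    refine Summable.of_nonneg_of_le (fun _ => norm_nonneg _) (fun q => ?_) (summable_oneM.add s2)
    exact norm_sub_le _ _
  have h1 : ev θ (genK (pF (kv k) Fi s) M) (ofC x) =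
      -(ev θ (oneM - (2 : ℂ) • pF (kv k) Fi s) (ofC (rM θ M x))) := by
    rw [genK, ev_neg, ev_mm θ s3 hM]
    show -(ev θ (oneM - (2 : ℂ) • pF (kv k) Fi s) (ev θ M (ofC x))) = _
    rw [d1 θ M hM hrM x]
  have h2 : ev θ (oneM - (2 : ℂ) • pF (kv k) Fi s) =
      ContinuousLinearMap.id ℂ C3 - (2 : ℂ) • ev θ (pF (kv k) Fi s) := by
    have h3 : ev θ (-((2 : ℂ) • pF (kv k) Fi s)) = -((2 : ℂ) • ev θ (pF (kv k) Fi s)) := by
      rw [ev_neg]
      congr 1
      have h4 : ev θ (fun q => (2 : ℂ) • pF (kv k) Fi s q) = (2 : ℂ) • ev θ (pF (kv k) Fi s) := by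
        simpa using ev_map θ sp ((2 : ℂ) • ContinuousLinearMap.id ℂ Mat)
      exact h4
    rw [sub_eq_add_neg, ev_add θ summable_oneM (by simpa using s2), ev_oneM, h3, sub_eq_add_neg]
  rw [h1, h2]
  show -(ofC (rM θ M x) - (2 : ℂ) • ev θ (pF (kv k) Fi s) (ofC (rM θ M x))) = _
  rw [ev_pF hI hs hrI, hσ']
  have h5 : ContinuousLinearMap.adjoint (rM θ Fi) (kR k) = κ := rfl
  rw [h5, kel_apply, map_add, map_neg]
  ext j
  simp only [PiLp.neg_apply, PiLp.sub_apply, PiLp.add_apply, PiLp.smul_apply, ofC_apply,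
    smul_eq_mul, ← hκ]
  push_cast
  ring

namespace KDict

/-- uniqueness for linear ODEs with a bounded generator -/
theorem uniq_bdd {V : Type} [NormedAddCommGroup V] [NormedSpace ℝ V] {T C : ℝ}
    {A : ℝ → V →L[ℝ] V} (hA : ∀ t ∈ Icc 0 T, ‖A t‖ ≤ C) {x y : ℝ → V}
    (hx : ∀ t ∈ Icc 0 T, HasDerivWithinAt x (A t (x t)) (Icc 0 T) t)
    (hy : ∀ t ∈ Icc 0 T, HasDerivWithinAt y (A t (y t)) (Icc 0 T) t) (h0 : x 0 = y 0) :
    ∀ t ∈ Icc 0 T, x t = y t := by
  have hlip : ∀ r ∈ Ico 0 T, LipschitzWith (Real.toNNReal (max C 0)) (A r) := by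
    intro r hr
    have h1 : ‖A r‖ ≤ C := hA r ⟨hr.1, hr.2.le⟩
    exact (A r).lipschitz.weaken (by
      rw [← NNReal.coe_le_coe, Real.coe_toNNReal _ (le_max_right _ _)]
      exact h1.trans (le_max_left _ _))
  have hd : ∀ {z : ℝ → V}, (∀ t ∈ Icc 0 T, HasDerivWithinAt z (A t (z t)) (Icc 0 T) t) →
      ∀ t ∈ Ico 0 T, HasDerivWithinAt z (A t (z t)) (Ici t) t := by
    intro z hz t ht
    refine (hz t ⟨ht.1, ht.2.le⟩).mono_of_mem_nhdsWithin ?_
    rw [mem_nhdsWithin_iff_exists_mem_nhds_inter]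
    exact ⟨Iio T, Iio_mem_nhds ht.2, fun r hr => ⟨ht.1.trans (show t ≤ r from hr.2),
      (show r < T from hr.1).le⟩⟩
  have h2 := ODE_solution_unique_of_mem_Icc_right (v := fun r x => A r x) (s := fun _ => univ)
    (f := x) (g := y) (a := 0) (b := T)
    (K := Real.toNNReal (max C 0)) (fun r hr => (hlip r hr).lipschitzOnWith)
    (fun r hr => (hx r hr).continuousWithinAt)
    (fun r hr => hd hx r hr) (fun _ _ => mem_univ _)
    (fun r hr => (hy r hr).continuousWithinAt)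
    (fun r hr => hd hy r hr) (fun _ _ => mem_univ _) h0
  exact fun t ht => h2 ht

section bd

variable {E F G : Type} [NormedAddCommGroup E] [NormedSpace ℂ E]
    [NormedAddCommGroup F] [NormedSpace ℂ F] [NormedAddCommGroup G] [NormedSpace ℂ G] {T : ℝ}

/-- The modes are bounded by a summable sequence, uniformly in time. -/
def BD (T : ℝ) (f : ℝ → Md → E) : Prop :=
  ∃ v : Md → ℝ, Summable v ∧ ∀ t ∈ Icc 0 T, ∀ q, ‖f t q‖ ≤ v q

theorem BD.nrm {f : ℝ → Md → E} (hf : BD T f) : Nrm T 0 0 (fun _ => 1) f ≠ ∞ := by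
  obtain ⟨v, hv, hb⟩ := hf
  have h1 : Nrm T 0 0 (fun _ => 1) f ≤ ∑' q, ENNReal.ofReal (v q) := by
    refine ENNReal.tsum_le_tsum fun q => iSup₂_le fun t ht => ?_
    simp only [zero_mul, sub_zero, Real.exp_zero, div_one, ENNReal.ofReal_one, one_mul]
    rw [← ofReal_norm]
    exact ENNReal.ofReal_le_ofReal (hb t ht q)
  exact ne_top_of_le_ne_top hv.tsum_ofReal_ne_top h1

theorem BD.of_nrm {c : ℝ} (hc : 0 ≤ c) {f : ℝ → Md → E} (hf : Nrm T c 0 (fun _ => 1) f ≠ ∞) :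
    BD T f := exists_bd hc hf

theorem BD.sum {f : ℝ → Md → E} (hf : BD T f) {t : ℝ} (ht : t ∈ Icc 0 T) :
    Summable fun q => ‖f t q‖ := by
  obtain ⟨v, hv, hb⟩ := hf
  exact Summable.of_nonneg_of_le (fun _ => norm_nonneg _) (hb t ht) hv

theorem BD.mono {T' : ℝ} (h : T ≤ T') {f : ℝ → Md → E} (hf : BD T' f) : BD T f := by
  obtain ⟨v, hv, hb⟩ := hf
  exact ⟨v, hv, fun t ht => hb t ⟨ht.1, ht.2.trans h⟩⟩

theorem BD.le {f : ℝ → Md → E} {g : ℝ → Md → F} (C : ℝ) (hf : BD T f)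
    (h : ∀ t ∈ Icc 0 T, ∀ q, ‖g t q‖ ≤ C * ‖f t q‖) : BD T g := by
  obtain ⟨v, hv, hb⟩ := hf
  refine ⟨fun q => |C| * v q, hv.mul_left _, fun t ht q => (h t ht q).trans ?_⟩
  exact (mul_le_mul_of_nonneg_right (le_abs_self C) (norm_nonneg _)).trans
    (mul_le_mul_of_nonneg_left (hb t ht q) (abs_nonneg _))

theorem BD.add {f g : ℝ → Md → E} (hf : BD T f) (hg : BD T g) : BD T (fun t => f t + g t) := by
  obtain ⟨v, hv, hb⟩ := hf
  obtain ⟨w, hw, hc⟩ := hg
  refine ⟨fun q => v q + w q, hv.add hw, fun t ht q => (norm_add_le _ _).trans ?_⟩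
  exact add_le_add (hb t ht q) (hc t ht q)

theorem BD.neg {f : ℝ → Md → E} (hf : BD T f) : BD T (fun t => -(f t)) :=
  hf.le 1 fun t _ q => by rw [Pi.neg_apply, norm_neg, one_mul]

theorem BD.flip {f : ℝ → Md → E} (hf : BD T f) : BD T (fun t q => f t (-q)) := by
  obtain ⟨v, hv, hb⟩ := hf
  exact ⟨fun q => v (-q), hv.comp_injective neg_injective, fun t ht q => hb t ht (-q)⟩

theorem BD.mm (hT : 0 < T) {a : ℝ → Md → (F →L[ℂ] G)} {b : ℝ → Md → (E →L[ℂ] F)}
    (ha : BD T a) (hb : BD T b) : BD T (fun t => mm (a t) (b t)) := by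
  have hP : Par T 0 0 := ⟨hT, le_rfl, by simp⟩
  exact BD.of_nrm le_rfl (ne_top_of_le_ne_top (ENNReal.mul_ne_top ha.nrm hb.nrm)
    (sa_nrm_mm1 hP a b))

theorem BD.kcF (k : C3) {Fi : ℝ → Md → Mat} (h : BD T Fi) : BD T (fun t => kcF k (Fi t)) :=
  h.flip.le ‖k‖ fun t _ q => by
    rw [S.kcF, adjC, mul_comm]
    refine (ContinuousLinearMap.le_opNorm _ _).trans ?_
    rw [LinearIsometryEquiv.norm_map]

theorem BD.rwF (k : C3) {Fi : ℝ → Md → Mat} (h : BD T Fi) : BD T (fun t => rwF k (Fi t)) :=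
  h.le ‖innerSL ℂ k‖ fun _ _ _ => ContinuousLinearMap.opNorm_comp_le _ _

theorem BD.tsF {a : ℝ → Md → C3} (h : BD T a) : BD T (fun t => tsF (a t)) :=
  h.le 1 fun t _ q => by rw [S.tsF, norm_ts, one_mul]

theorem BD.scF {s : ℝ → Md → ℂ} (h : BD T s) : BD T (fun t => scF (s t)) :=
  h.le 1 fun t _ q => by
    rw [S.scF, norm_smul, one_mul]
    exact mul_le_of_le_one_right (norm_nonneg _) ContinuousLinearMap.norm_id_le

theorem BD.const {f : Md → E} (h : Summable fun q => ‖f q‖) : BD T (fun _ => f) :=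
  ⟨_, h, fun _ _ _ => le_rfl⟩

theorem BD.pF (hT : 0 < T) (k : C3) {Fi : ℝ → Md → Mat} {s : ℝ → Md → ℂ} (h : BD T Fi)
    (hs : BD T s) : BD T (fun t => pF k (Fi t) (s t)) :=
  BD.mm hT (h.kcF k).tsF (BD.mm hT hs.scF (h.rwF k))

theorem BD.genK (hT : 0 < T) {p M : ℝ → Md → Mat} (hp : BD T p) (hM : BD T M) :
    BD T (fun t => genK (p t) (M t)) := by
  have h1 : BD T (fun t => oneM - (2 : ℂ) • p t) := by
    have h2 : BD T (fun t => (2 : ℂ) • p t) :=
      hp.le ‖(2 : ℂ)‖ fun t _ q => by rw [Pi.smul_apply, norm_smul]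
    have h3 := (BD.const (T := T) summable_oneM).add h2.neg
    simpa only [← sub_eq_add_neg] using h3
  exact (BD.mm hT h1 hM).neg

theorem BD.of_nrm_wt {c R : ℝ} {α : ℝ → ℝ} (hc : 0 ≤ c) (hα : ∀ t ∈ Icc 0 T, 0 < α t)
    (hR : ∀ t ∈ Icc 0 T, α t ≤ R) {f : ℝ → Md → E} (hf : Nrm T c 0 α f ≠ ∞) : BD T f := by
  set g : Md → ℝ≥0∞ := fun m => ⨆ t ∈ Icc 0 T,
    ENNReal.ofReal (Real.exp ((c - 0 * t) * len m) / α t) * ‖f t m‖ₑ with hg
  have h1 : (∑' m, g m) ≠ ∞ := hf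
  have h2 : ∀ m, g m ≠ ∞ := ENNReal.ne_top_of_tsum_ne_top h1
  refine ⟨fun m => R * (g m).toReal, (ENNReal.summable_toReal h1).mul_left R, fun t ht q => ?_⟩
  have h3 : ENNReal.ofReal (Real.exp ((c - 0 * t) * len q) / α t) * ‖f t q‖ₑ ≤ g q :=
    le_iSup₂_of_le t ht le_rfl
  have hat := hα t ht
  have h4 := ENNReal.toReal_mono (h2 q) h3
  rw [ENNReal.toReal_mul, ENNReal.toReal_ofReal (by positivity), toReal_enorm] at h4
  have h5 : 1 ≤ Real.exp ((c - 0 * t) * len q) := by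
    refine Real.one_le_exp ?_
    rw [zero_mul, sub_zero]
    exact mul_nonneg hc (len_nonneg q)
  have h6 : (α t)⁻¹ * ‖f t q‖ ≤ (g q).toReal := by
    refine le_trans (mul_le_mul_of_nonneg_right ?_ (norm_nonneg _)) h4
    rw [inv_eq_one_div]
    exact div_le_div_of_nonneg_right h5 hat.le
  rw [inv_mul_le_iff₀ hat] at h6
  exact h6.trans (mul_le_mul_of_nonneg_right (hR t ht) ENNReal.toReal_nonneg)

/-- the propagator of a multiplication, start time `0` -/
theorem BD.of_PN {c R : ℝ} {α : ℝ → ℝ} (hT : 0 ≤ T) (hc : 0 ≤ c) (hα : ∀ t ∈ Icc 0 T, 0 < α t)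
    (hR : ∀ t ∈ Icc 0 T, α t ≤ R) {Φ : ℝ → ℝ → Md → Mat}
    (hf : PN T c α α (fun t s => mulK (Φ t s)) ≠ ∞) : BD T (fun t => Φ t 0) := by
  have h00 : (0 : ℝ) ∈ Icc 0 T := ⟨le_rfl, hT⟩
  set g : Md → ℝ≥0∞ := fun k => ⨆ l : Md, ⨆ t ∈ Icc 0 T, ⨆ s ∈ Icc 0 t,
    ENNReal.ofReal (α s / α t) * ‖mulK (Φ t s) (l + k) l‖ₑ with hg
  have h1 : (∑' m, g m) ≠ ∞ := by
    refine ne_top_of_le_ne_top hf (ENNReal.tsum_le_tsum fun k => ?_)
    refine le_mul_of_one_le_left bot_le ?_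
    rw [← ENNReal.ofReal_one]
    exact ENNReal.ofReal_le_ofReal (Real.one_le_exp (mul_nonneg hc (len_nonneg k)))
  have h2 : ∀ m, g m ≠ ∞ := ENNReal.ne_top_of_tsum_ne_top h1
  have ha0 := hα 0 h00
  refine ⟨fun m => (R / α 0) * (g m).toReal, (ENNReal.summable_toReal h1).mul_left _,
    fun t ht q => ?_⟩
  have h3 : ENNReal.ofReal (α 0 / α t) * ‖Φ t 0 q‖ₑ ≤ g q := by
    refine le_iSup_of_le (0 : Md) (le_iSup₂_of_le t ht (le_iSup₂_of_le 0 ⟨le_rfl, ht.1⟩ ?_))
    rw [mulK, add_sub_cancel_left]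
  have hat := hα t ht
  have h4 := ENNReal.toReal_mono (h2 q) h3
  rw [ENNReal.toReal_mul, ENNReal.toReal_ofReal (by positivity), toReal_enorm] at h4
  have h5 : ‖Φ t 0 q‖ ≤ (α t / α 0) * (g q).toReal := by
    have h6 : (α t / α 0) * (α 0 / α t * ‖Φ t 0 q‖) = ‖Φ t 0 q‖ := by field_simp
    rw [← h6]
    exact mul_le_mul_of_nonneg_left h4 (by positivity)
  refine h5.trans (mul_le_mul_of_nonneg_right ?_ ENNReal.toReal_nonneg)
  exact div_le_div_of_nonneg_right (hR t ht) ha0.le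

end bd

theorem ro_apply' (v k x : E3) : ro v k x = ⟪k, x⟫_ℝ • v := rfl

theorem kR_ne {k : Fin 3 → ℤ} (h : 0 < ‖kv k‖) : kR k ≠ 0 := by
  intro h0
  rw [kv_eq, h0, map_zero, norm_zero] at h
  exact lt_irrefl _ h

theorem realV_dj {w : Md → C3} (j : ℕ) (hw : RealV w) : RealV (dj j w) := by
  intro q
  rw [dj, dj, hw q]
  ext i
  simp [cjv]

theorem dj_mul {j : ℕ} (hj : 1 ≤ j) {f : Md → Mat} (hf : SuppIn (lev (j - 1) : Set Md) f)
    (w : Md → C3) (q : Md) : (Complex.I * (q j : ℂ)) • mul f w q = mul f (dj j w) q := by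
  unfold mul act
  rw [← tsum_const_smul'']
  refine tsum_congr fun l => ?_
  simp only [mulK, dj]
  by_cases h : q - l ∈ (lev (j - 1) : Set Md)
  · have h1 : (q - l) j = 0 := h j (by omega)
    rw [Finsupp.sub_apply, sub_eq_zero] at h1
    rw [h1, map_smul]
  · rw [hf (q - l) h]
    simp

end KDict

theorem d6 : D6 := by
  intro K T0 T' r r' R R' u α j X' U' A' p' F' Fi' M' F Fi M z a s Φ w hL hS hT0 hr hw hdw
    T hT hTT θ
  have hT' : 0 < T' := hT.trans_le hTT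
  have hsub : Icc 0 T ⊆ Icc 0 T' := Icc_subset_Icc_right hTT
  have hsub' : Icc 0 T' ⊆ Icc 0 T0 := Icc_subset_Icc_right hT0
  have hα : ∀ t ∈ Icc 0 T', 0 < α t := hS.α_wt.pos
  have h00 : (0 : ℝ) ∈ Icc 0 T' := ⟨le_rfl, hT'.le⟩
  have hR : 0 < R := (hα 0 h00).trans_le (hS.α_le 0 h00)
  obtain ⟨hMc, hMe, hcov, -, -, -⟩ := d4 K T0 r' R' (j - 1) X' U' A' p' F' Fi' M' hL T hT
    (hTT.trans hT0) θ
  -- uniform bounds
  have bI : BD T' Fi' := (BD.of_nrm hL.c_pos.le hL.Fi_fin).mono hT0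
  have bM : BD T' M' := (BD.of_nrm hL.c_pos.le hL.M_fin).mono hT0
  have bs : BD T' s := BD.of_nrm hr (ne_top_of_le_ne_top ENNReal.ofReal_ne_top hS.s_le)
  have bΦ : BD T' (fun t => Φ t 0) :=
    BD.of_PN hT'.le hr hα hS.α_le (ne_top_of_le_ne_top ENNReal.ofReal_ne_top hS.Φ_le)
  set h : ℝ → Md → Mat := fun t => genK (pF (kv (K j)) (Fi' t) (s t)) (M' t) with hh
  have bh : BD T' h := BD.genK hT' (BD.pF hT' _ bI bs) bM
  have bhΦ : BD T' (fun t => mm (h t) (Φ t 0)) := BD.mm hT' bh bΦ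
  -- the wave
  have ha : ∀ t ∈ Icc 0 T', a t = mul (Φ t 0) (dj j w) := by
    intro t ht
    funext q
    rw [hS.a_eq t ht q]
    exact dj_mul hS.j_pos (hS.Φ_supp 0 h00 t ht) w q
  have hV : ev θ (dj j w) = ofC (rV θ (dj j w)) := d1v θ _ hdw (realV_dj j hS.w_real.1)
  set V : E3 := rV θ (dj j w) with hVdef
  have hea : ∀ t ∈ Icc 0 T', ev θ (a t) = ev θ (Φ t 0) (ofC V) := by
    intro t ht
    rw [ha t ht, ev_mul θ (bΦ.sum ht) hdw, hV]
  -- derivative
  have dΦ : ∀ t ∈ Icc 0 T', HasDerivWithinAt (fun t => ev θ (Φ t 0))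
      ((ev θ (h t)).comp (ev θ (Φ t 0))) (Icc 0 T') t := by
    intro t ht
    obtain ⟨v, hv, hb⟩ := bhΦ
    have h1 := ev_derivW hT' (f := fun t => Φ t 0) (f' := fun t => mm (h t) (Φ t 0)) hv hb
      (fun q t ht => by
        have h2 := hS.Φ_prop.der 0 h00 t ht q 0
        rw [S.kcomp_mulK] at h2
        simpa only [mulK, sub_zero] using h2) (bΦ.sum h00) θ ht
    refine h1.congr_deriv ?_
    exact ev_mm θ (bh.sum ht) (bΦ.sum ht)
  have dx : ∀ t ∈ Icc 0 T', HasDerivWithinAt (fun t => ev θ (Φ t 0) (ofC V))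
      (((ev θ (h t)).restrictScalars ℝ) (ev θ (Φ t 0) (ofC V))) (Icc 0 T') t := by
    intro t ht
    have h2 := (((ContinuousLinearMap.apply ℂ C3 (ofC V)).restrictScalars ℝ).hasFDerivAt
      (x := ev θ (Φ t 0))).comp_hasDerivWithinAt t (dΦ t ht)
    exact h2
  have hK : kR (K j) ≠ 0 := kR_ne hS.K_pos
  -- the generator at real vectors
  have hgen : ∀ t ∈ Icc 0 T, ∀ x : E3, ev θ (h t) (ofC x) =
      ofC (kelG (rMt θ T M') (kR (K j)) t x) := by
    intro t ht x
    have ht' := hsub ht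
    have h1 := d5 θ (K j) (Fi' t) (M' t) (s t) (bI.sum ht') (bM.sum ht') (bs.sum ht')
      (hL.Fi_even t (hsub' ht')).1 (hL.M_even t (hsub' ht')).1 (hS.s_eq t ht') x
    rw [hcov (kR (K j)) t ht, ← hMe t ht] at h1
    exact h1
  have hbd : ∃ C : ℝ, ∀ t ∈ Icc 0 T, ‖(ev θ (h t)).restrictScalars ℝ‖ ≤ C := by
    obtain ⟨v, hv, hb⟩ := bh
    refine ⟨∑' q, v q, fun t ht => ?_⟩
    rw [ContinuousLinearMap.norm_restrictScalars]
    have hs : Summable fun q => ‖h t q‖ :=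
      Summable.of_nonneg_of_le (fun _ => norm_nonneg _) (hb t (hsub ht)) hv
    exact (norm_ev_le θ hs).trans (hs.tsum_le_tsum (hb t (hsub ht)) hv)
  obtain ⟨C, hC⟩ := hbd
  have key := uniq_bdd (T := T) (A := fun t => (ev θ (h t)).restrictScalars ℝ) hC
    (x := fun t => ev θ (Φ t 0) (ofC V))
    (y := fun t => ofC (kelS (rMt θ T M') (kR (K j)) V t))
    (fun t ht => (dx t (hsub ht)).mono hsub)
    (fun t ht => by
      have h1 := (ofC.hasFDerivAt).comp_hasDerivAt t (kelS_deriv hMc hK V t)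
      refine h1.hasDerivWithinAt.congr_deriv ?_
      exact (hgen t ht _).symm)
    (by
      show ev θ (Φ 0 0) (ofC V) = ofC (kelS (rMt θ T M') (kR (K j)) V 0)
      have h1 : Φ 0 0 = oneM := by
        have h2 : mulK (Φ 0 0) = idK := hS.Φ_prop.diag 0 h00
        rw [← S.mulK_oneM] at h2
        exact mulK_inj h2
      rw [h1, ev_oneM, kelS_zero]
      rfl)
  intro t ht
  rw [hea t (hsub ht)]
  exact key t ht

theorem d7 : D7 := by
  intro K T0 T' r r' R R' u α j X' U' A' p' F' Fi' M' F Fi M z a s Φ w hL hS hT0 hr hM hw hdw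
    T hT hTT θ t ht
  have hT' : 0 < T' := hT.trans_le hTT
  have hsub : Icc 0 T ⊆ Icc 0 T' := Icc_subset_Icc_right hTT
  have hsub' : Icc 0 T' ⊆ Icc 0 T0 := Icc_subset_Icc_right hT0
  have ht' := hsub ht
  have hα : ∀ t ∈ Icc 0 T', 0 < α t := hS.α_wt.pos
  obtain ⟨hMc, hMe, hcov, -, -, -⟩ := d4 K T0 r' R' (j - 1) X' U' A' p' F' Fi' M' hL T hT
    (hTT.trans hT0) θ
  have bI : BD T' Fi' := (BD.of_nrm hL.c_pos.le hL.Fi_fin).mono hT0
  have bM : BD T' M' := (BD.of_nrm hL.c_pos.le hL.M_fin).mono hT0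
  have ba : BD T' a := BD.of_nrm_wt hr hα hS.α_le
    (ne_top_of_le_ne_top ENNReal.ofReal_ne_top hS.a_le)
  have hwave := d6 K T0 T' r r' R R' u α j X' U' A' p' F' Fi' M' F Fi M z a s Φ w hL hS hT0 hr hw
    hdw T hT hTT θ t ht
  have h2 := (d2 θ T' r (u ^ 256) α hr (pow_nonneg hS.u_pos.le _) hα).1 _ hS.rM_le t ht'
  have h3 := h2.2.2
  have smm : Summable fun q => ‖mm (tsF (a t)) (rwF (kv (K j)) (Fi' t)) q‖ :=
    sum_mm (summable_tsF (ba.sum ht')) (summable_rwF (bI.sum ht'))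
  have hdec : rM θ (M t - M' t - mm (tsF (a t)) (rwF (kv (K j)) (Fi' t))) =
      rM θ (M t) - rM θ (M' t) - rM θ (mm (tsF (a t)) (rwF (kv (K j)) (Fi' t))) := by
    have e1 : ev θ (M t - M' t - mm (tsF (a t)) (rwF (kv (K j)) (Fi' t))) =
        ev θ (M t) - ev θ (M' t) - ev θ (mm (tsF (a t)) (rwF (kv (K j)) (Fi' t))) := by
      have s1 : Summable fun q => ‖(-(M' t)) q‖ := by
        simpa only [Pi.neg_apply, norm_neg] using bM.sum ht'
      have s2 : Summable fun q => ‖(-(mm (tsF (a t)) (rwF (kv (K j)) (Fi' t)))) q‖ := by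
        simpa only [Pi.neg_apply, norm_neg] using smm
      have s3 : Summable fun q => ‖(M t + -(M' t)) q‖ :=
        Summable.of_nonneg_of_le (fun _ => norm_nonneg _) (fun q => norm_add_le _ _)
          ((hM t ht').add s1)
      rw [sub_eq_add_neg, sub_eq_add_neg, ev_add θ s3 s2, ev_add θ (hM t ht') s1, ev_neg, ev_neg,
        ← sub_eq_add_neg, ← sub_eq_add_neg]
    rw [← reML_ev, e1, map_sub, map_sub]
    rfl
  have hro : rM θ (mm (tsF (a t)) (rwF (kv (K j)) (Fi' t))) =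
      ro (kelS (rMt θ T M') (kR (K j)) (rV θ (dj j w)) t)
        (covec (rMt θ T M') (kR (K j)) t) := by
    ext1 x
    rw [rM_apply, ev_mm θ (summable_tsF (ba.sum ht')) (summable_rwF (bI.sum ht'))]
    show reC (ev θ (tsF (a t)) (ev θ (rwF (kv (K j)) (Fi' t)) (ofC x))) = _
    rw [ev_rwF (bI.sum ht') (hL.Fi_even t (hsub' ht')).1, ev_tsF (ba.sum ht'), hwave, ro_apply',
      ← hcov (kR (K j)) t ht]
    have e2 : ∀ (c : ℝ) (v : E3), reC ((c : ℂ) • ofC v) = c • v := by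
      intro c v
      have e3 : (c : ℂ) • ofC v = ofC (c • v) := by
        ext i
        simp [ofC_apply]
      rw [e3, reC_ofC]
    exact e2 _ _
  rw [hdec, hro] at h3
  rw [mul_comm]
  exact h3

end Pool.Agent.Work.MP_b0497c_an.Unf.K
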