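import Pool.Agent.Work.MP_b0497c_an.Unf.B0

set_option autoImplicit false

/-!
# Base (A0): level data `LevD` of the shear and the level hypothesis `HL`
-/

open Set ContinuousLinearMap RealInnerProductSpace

namespace Pool.Agent.Work.MP_b0497c_an.Unf.B

open Forced.Ode (Op ro)
open Fam K

/-! ### The vectors -/

/-- `K₀` -/
noncomputable def Kz : E3 := !₂[1, -3, -2]

/-- direction of the shear -/
noncomputable def dz (c : ℝ) : E3 := !₂[3 + 2 * c, 1, c]

/-- second frame vector -/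
noncomputable def ee2 : E3 := !₂[0, 1, 0]

theorem Kz_0 : Kz 0 = 1 := rfl
theorem Kz_1 : Kz 1 = -3 := rfl
theorem Kz_2 : Kz 2 = -2 := rfl
theorem dz_0 (c : ℝ) : dz c 0 = 3 + 2 * c := rfl
theorem dz_1 (c : ℝ) : dz c 1 = 1 := rfl
theorem dz_2 (c : ℝ) : dz c 2 = c := rfl
theorem ee2_0 : ee2 0 = 0 := rfl
theorem ee2_1 : ee2 1 = 1 := rfl
theorem ee2_2 : ee2 2 = 0 := rfl

theorem ro_app (v k x : E3) : ro v k x = ⟪k, x⟫ • v := rfl

theorem Kz_dz (c : ℝ) : ⟪Kz, dz c⟫ = 0 := by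
  rw [inner_eq, Kz_0, Kz_1, Kz_2, dz_0, dz_1, dz_2]
  ring

theorem dz_Kz (c : ℝ) : ⟪dz c, Kz⟫ = 0 := by rw [real_inner_comm, Kz_dz]

theorem dz_ee2 (c : ℝ) : ⟪dz c, ee2⟫ = 1 := by
  rw [inner_eq, dz_0, dz_1, dz_2, ee2_0, ee2_1, ee2_2]
  ring

theorem norm_Kz_sq : ‖Kz‖ ^ 2 = 14 := by
  rw [norm_sq_eq, Kz_0, Kz_1, Kz_2]
  norm_num

theorem norm_dz_sq (c : ℝ) : ‖dz c‖ ^ 2 = 10 + 12 * c + 5 * c ^ 2 := by
  rw [norm_sq_eq, dz_0, dz_1, dz_2]
  ring

/-- The velocity gradient at the label `θ₀ = 0`. -/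
noncomputable def Az (c : ℝ) : Op := ro (dz c) Kz

theorem norm_ro_le (v k : E3) : ‖ro v k‖ ≤ ‖v‖ * ‖k‖ := by
  refine ContinuousLinearMap.opNorm_le_bound _ (by positivity) fun x => ?_
  rw [ro_app, norm_smul, Real.norm_eq_abs]
  have := abs_real_inner_le_norm k x
  nlinarith [norm_nonneg v]

theorem norm_Az {c : ℝ} (hc : 0 < c) (hc' : c ≤ 1 / 100) : ‖Az c‖ ≤ 12 := by
  refine (norm_ro_le _ _).trans ?_
  have h : (‖dz c‖ * ‖Kz‖) ^ 2 ≤ 12 ^ 2 := by
    rw [mul_pow, norm_Kz_sq, norm_dz_sq]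
    nlinarith
  exact (abs_le_of_sq_le_sq' h (by norm_num)).2

theorem Az_app (c : ℝ) (x : E3) : Az c x = ⟪Kz, x⟫ • dz c := rfl

theorem Az_sq (c : ℝ) : (Az c).comp (Az c) = 0 := by
  ext1 x
  rw [comp_apply, Az_app c x, map_smul, Az_app, Kz_dz, zero_smul, smul_zero]
  rfl

/-- The deformation gradient. -/
noncomputable def Fz (c t : ℝ) : Op := ContinuousLinearMap.id ℝ E3 + t • Az c

/-- Its inverse. -/
noncomputable def Fiz (c t : ℝ) : Op := ContinuousLinearMap.id ℝ E3 - t • Az c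

theorem Fz_Fiz (c t : ℝ) : (Fz c t).comp (Fiz c t) = ContinuousLinearMap.id ℝ E3 := by
  have h := Az_sq c
  ext1 x
  have h' : Az c (Az c x) = 0 := by
    have := congrArg (fun A : Op => A x) h
    simpa using this
  simp [Fz, Fiz, h']

theorem Fiz_Fz (c t : ℝ) : (Fiz c t).comp (Fz c t) = ContinuousLinearMap.id ℝ E3 := by
  have h := Az_sq c
  ext1 x
  have h' : Az c (Az c x) = 0 := by
    have := congrArg (fun A : Op => A x) h
    simpa using this
  simp [Fz, Fiz, h']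

theorem Fz_der (c t : ℝ) : HasDerivAt (Fz c) ((Az c).comp (Fz c t)) t := by
  have h := ((hasDerivAt_id' t).smul_const (Az c)).const_add (ContinuousLinearMap.id ℝ E3)
  refine h.congr_deriv ?_
  ext1 x
  have h' : Az c (Az c x) = 0 := by
    have := congrArg (fun A : Op => A x) (Az_sq c)
    simpa using this
  simp [Fz, h']

theorem adj_Fiz (c t : ℝ) (x : E3) : adjoint (Fiz c t) x = x - (t * ⟪dz c, x⟫) • Kz := by
  rw [Fiz, map_sub, map_smulₛₗ, sub_apply, smul_apply, Az, FamD.adj_ro, smul_smul]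
  simp

theorem adj_Fz (c t : ℝ) (x : E3) : adjoint (Fz c t) x = x + (t * ⟪dz c, x⟫) • Kz := by
  rw [Fz, map_add, map_smulₛₗ, add_apply, smul_apply, Az, FamD.adj_ro, smul_smul]
  simp

/-! ### The wave -/

/-- `v / a` as a function of `y = t - t₁` -/
noncomputable def vv (c y : ℝ) : E3 :=
  !₂[4 / 5 - (12 / 5 + 2 * c) * S y + (3 * y + 1) / (5 * q y), y / q y,
    2 / 5 - (c + 6 / 5) * S y - (6 * y + 2) / (5 * q y)]

theorem vv_0 (c y : ℝ) : vv c y 0 =
  4 / 5 - (12 / 5 + 2 * c) * S y + (3 * y + 1) / (5 * q y) := rfl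
theorem vv_1 (c y : ℝ) : vv c y 1 = y / q y := rfl
theorem vv_2 (c y : ℝ) : vv c y 2 = 2 / 5 - (c + 6 / 5) * S y - (6 * y + 2) / (5 * q y) := rfl

theorem Kz_vv (c y : ℝ) : ⟪Kz, vv c y⟫ = 1 / q y := by
  have h := (q_pos y).ne'
  rw [inner_eq, Kz_0, Kz_1, Kz_2, vv_0, vv_1, vv_2]
  field_simp
  ring

/-- covector of the sheet: `n = e₂ - y K₀` -/
noncomputable def nn (y : ℝ) : E3 := ee2 - y • Kz

theorem nn_0 (y : ℝ) : nn y 0 = -y := by simp [nn, ee2, Kz]
theorem nn_1 (y : ℝ) : nn y 1 = 1 + 3 * y := by simp [nn, ee2, Kz]; ring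
theorem nn_2 (y : ℝ) : nn y 2 = 2 * y := by simp [nn, ee2, Kz]; ring

theorem norm_nn_sq (y : ℝ) : ‖nn y‖ ^ 2 = q y := by
  rw [norm_sq_eq, nn_0, nn_1, nn_2, q]
  ring

theorem nn_vv (c y : ℝ) : ⟪nn y, vv c y⟫ = 0 := by
  have h := (q_pos y).ne'
  rw [inner_eq, nn_0, nn_1, nn_2, vv_0, vv_1, vv_2]
  have h2 : S y * 0 = 0 := mul_zero _
  field_simp
  unfold q
  ring

theorem hasDerivAt_vec {f0 f1 f2 : ℝ → ℝ} {a0 a1 a2 y : ℝ} (h0 : HasDerivAt f0 a0 y)
    (h1 : HasDerivAt f1 a1 y) (h2 : HasDerivAt f2 a2 y) :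
    HasDerivAt (fun y => (!₂[f0 y, f1 y, f2 y] : E3)) !₂[a0, a1, a2] y := by
  have h := ((h0.smul_const (!₂[1, 0, 0] : E3)).add (h1.smul_const (!₂[0, 1, 0] : E3))).add
    (h2.smul_const (!₂[0, 0, 1] : E3))
  refine (h.congr_deriv ?_).congr_of_eventuallyEq ?_
  · apply ext3 <;> simp
  · filter_upwards with x
    apply ext3 <;> simp

theorem vv_der (c y : ℝ) : HasDerivAt (vv c) (kel (Az c) (nn y) (vv c y)) y := by
  have hq := (q_pos y).ne'
  have hlin : HasDerivAt (fun y : ℝ => (3 * y + 1) / 5) (3 / 5) y := by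
    have := (((hasDerivAt_id' y).const_mul (3 : ℝ)).add_const (1 : ℝ)).div_const 5
    simpa using this
  have hlin' : HasDerivAt (fun y : ℝ => (6 * y + 2) / 5) (6 / 5) y := by
    have := (((hasDerivAt_id' y).const_mul (6 : ℝ)).add_const (2 : ℝ)).div_const 5
    simpa using this
  have h0 := ((((S_der y).const_mul (12 / 5 + 2 * c)).const_sub (4 / 5))).add
    (hlin.mul (qi_der y))
  have h1 := (hasDerivAt_id' y).mul (qi_der y)
  have h2 := ((((S_der y).const_mul (c + 6 / 5)).const_sub (2 / 5))).sub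
    (hlin'.mul (qi_der y))
  have h := hasDerivAt_vec h0 h1 h2
  refine (h.congr_deriv ?_).congr_of_eventuallyEq ?_
  · rw [kel_apply, Az_app, Kz_vv, norm_nn_sq, inner_smul_right]
    have h3 : ⟪nn y, dz c⟫ = 1 := by
      rw [inner_eq, nn_0, nn_1, nn_2, dz_0, dz_1, dz_2]
      ring
    rw [h3]
    apply ext3
    · simp [nn_0, dz_0]
      field_simp
      unfold q
      ring
    · simp [nn_1, dz_1]
      field_simp
      unfold q
      ring
    · simp [nn_2, dz_2]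
      field_simp
      unfold q
      ring
  · filter_upwards with x
    have hx := (q_pos x).ne'
    apply ext3
    · rw [vv_0]
      simp
      field_simp
    · rw [vv_1]
      simp
      field_simp
    · rw [vv_2]
      simp
      field_simp

/-- `B = e₁ + y d` -/
noncomputable def BB (c y : ℝ) : E3 := !₂[1 + y * (3 + 2 * c), y, y * c]

theorem vv_BB (c y : ℝ) : ⟪vv c y, BB c y⟫ = 1 - (6 + 5 * c) * gG c y := by
  have hq := (q_pos y).ne'
  have h0 : BB c y 0 = 1 + y * (3 + 2 * c) := rfl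
  have h1 : BB c y 1 = y := rfl
  have h2 : BB c y 2 = y * c := rfl
  rw [inner_eq, h0, h1, h2, vv_0, vv_1, vv_2, gG]
  field_simp
  unfold q
  ring

theorem vv_size {c : ℝ} (hc : 0 < c) (hc' : c ≤ 1 / 100) {y : ℝ} (h : -(3 / 7) ≤ y)
    (h' : y ≤ 1 / 100) : 1 / 8 ≤ ‖vv c y‖ ∧ ‖vv c y‖ ≤ 10 := by
  have hq := q_ge y
  have hq0 := q_pos y
  have hq2 : q y ≤ 2 := by
    unfold q
    nlinarith
  constructor
  · have h1 : 1 / 2 ≤ ⟪Kz, vv c y⟫ := by
      rw [Kz_vv]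
      exact one_div_le_one_div_of_le hq0 hq2
    have h2 : ‖Kz‖ ≤ 4 := by
      have h4 : ‖Kz‖ ^ 2 ≤ 4 ^ 2 := by rw [norm_Kz_sq]; norm_num
      exact (abs_le_of_sq_le_sq' h4 (by norm_num)).2
    have h3 := real_inner_le_norm Kz (vv c y)
    nlinarith [norm_nonneg (vv c y)]
  · have h2 := S_lip y 0
    rw [S_zero, sub_zero, sub_zero] at h2
    have h3 : |y| ≤ 3 / 7 := abs_le.2 ⟨h, h'.trans (by norm_num)⟩
    have h4 : |S y| ≤ 6 / 5 := by linarith
    have h5 : 1 / q y ≤ 14 / 5 := by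
      rw [div_le_iff₀ hq0]
      linarith
    have h6 : (0 : ℝ) < 1 / q y := by positivity
    obtain ⟨h7, h8⟩ := abs_le.1 h4
    obtain ⟨h9, h10⟩ := abs_le.1 h3
    have e0 : |vv c y 0| ≤ 6 := by
      have : vv c y 0 = 4 / 5 - (12 / 5 + 2 * c) * S y + (3 * y + 1) / 5 * (1 / q y) := by
        rw [vv_0]
        field_simp
      rw [this]
      have k1 : |(12 / 5 + 2 * c) * S y| ≤ 5 / 2 * (6 / 5) := by
        rw [abs_mul, abs_of_pos (by positivity)]
        exact mul_le_mul (by linarith) h4 (abs_nonneg _) (by norm_num)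
      have k2 : |(3 * y + 1) / 5 * (1 / q y)| ≤ 11 / 25 * (14 / 5) := by
        rw [abs_mul, abs_of_pos h6]
        refine mul_le_mul ?_ h5 h6.le (by norm_num)
        rw [abs_le]
        constructor <;> linarith
      have k3 := abs_add_le (4 / 5 - (12 / 5 + 2 * c) * S y) ((3 * y + 1) / 5 * (1 / q y))
      have k4 := abs_sub (4 / 5 : ℝ) ((12 / 5 + 2 * c) * S y)
      have k5 : |(4 / 5 : ℝ)| = 4 / 5 := abs_of_pos (by norm_num)
      linarith
    have e1 : |vv c y 1| ≤ 6 / 5 := by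
      have : vv c y 1 = y * (1 / q y) := by
        rw [vv_1]
        field_simp
      rw [this, abs_mul, abs_of_pos h6]
      calc |y| * (1 / q y) ≤ 3 / 7 * (14 / 5) := mul_le_mul h3 h5 h6.le (by norm_num)
        _ = 6 / 5 := by norm_num
    have e2 : |vv c y 2| ≤ 5 := by
      have : vv c y 2 = 2 / 5 - (c + 6 / 5) * S y - (6 * y + 2) / 5 * (1 / q y) := by
        rw [vv_2]
        field_simp
      rw [this]
      have k1 : |(c + 6 / 5) * S y| ≤ 5 / 4 * (6 / 5) := by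
        rw [abs_mul, abs_of_pos (by positivity)]
        exact mul_le_mul (by linarith) h4 (abs_nonneg _) (by norm_num)
      have k2 : |(6 * y + 2) / 5 * (1 / q y)| ≤ 11 / 20 * (14 / 5) := by
        rw [abs_mul, abs_of_pos h6]
        refine mul_le_mul ?_ h5 h6.le (by norm_num)
        rw [abs_le]
        constructor <;> linarith
      have k3 := abs_sub (2 / 5 - (c + 6 / 5) * S y) ((6 * y + 2) / 5 * (1 / q y))
      have k4 := abs_sub (2 / 5 : ℝ) ((c + 6 / 5) * S y)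
      have k5 : |(2 / 5 : ℝ)| = 2 / 5 := abs_of_pos (by norm_num)
      linarith
    have h11 : ‖vv c y‖ ^ 2 ≤ 10 ^ 2 := by
      rw [norm_sq_eq]
      have f0 := sq_abs (vv c y 0)
      have f1 := sq_abs (vv c y 1)
      have f2 := sq_abs (vv c y 2)
      nlinarith [abs_nonneg (vv c y 0), abs_nonneg (vv c y 1), abs_nonneg (vv c y 2)]
    exact (abs_le_of_sq_le_sq' h11 (by norm_num)).2

end Pool.Agent.Work.MP_b0497c_an.Unf.B
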