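import Pool.Agent.Work.MP_b0497c_an.Unf.AProj
import Pool.Agent.Work.MP_b0497c_an.Bd.B13
import Pool.Agent.Work.MP_b0497c_an.Bd.B26

set_option autoImplicit false
set_option linter.unusedSectionVars false

/-!
# Block A, item A1: the hypotheses of the step theorem from the records of the chain

`hyp_dat` : `An C n u` + data of the new class ==> `(C.dat n c G β u).Hyp`.
-/

open scoped ENNReal
open Set MeasureTheory

namespace Pool.Agent.Work.MP_b0497c_an.Unf.A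

open W S

/-- The data of the new class `j = n + 1` on `[0,T]` at the radius `c` with the constant `G`;
`Fi' M'` belong to the level `n = j - 1`. -/
structure New (K : ℕ → Fin 3 → ℤ) (T c G : ℝ) (α : ℝ → ℝ) (j : ℕ) (Fi' M' : ℝ → Md → Mat)
    (s : ℝ → Md → ℂ) (Φ : ℝ → ℝ → Md → Mat) : Prop where
  α_wt : Wt T α
  α_le : ∀ t ∈ Icc 0 T, α t ≤ G
  s_cm : CM T s
  s_supp : SuppT T (lev (j - 1) : Set Md) s
  s_le : Nrm T c 0 Dat.one' s ≤ ENNReal.ofReal (G / ‖kv (K j)‖ ^ 2)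
  s_eq : ∀ t ∈ Icc 0 T, mul (mm (scF (s t)) (rwF (kv (K j)) (Fi' t))) (kcF (kv (K j)) (Fi' t)) =
    fun q => if q = 0 then 1 else 0
  Φ_prop : IsProp T (fun t => mulK (genK (pF (kv (K j)) (Fi' t) (s t)) (M' t)))
    (fun t s => mulK (Φ t s))
  Φ_le : PN T c α α (fun t s => mulK (Φ t s)) ≤ ENNReal.ofReal G
  Φ_supp : ∀ s ∈ Icc 0 T, ∀ t ∈ Icc 0 T, SuppIn (lev (j - 1) : Set Md) (Φ t s)

theorem mm_oneM_rt (a : Md → Mat) : mm a oneM = a := by
  apply mulK_inj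
  rw [← kcomp_mulK, mulK_oneM]
  exact ((w11 Md C3 C3 C3 C3).2.2.2.2.1 (mulK a)).1

theorem gradV_zero (K : ℕ → Fin 3 → ℤ) : gradV K 0 = 0 := by
  funext q
  ext x
  simp [gradV]

section level

variable {K : ℕ → Fin 3 → ℤ} {T r R : ℝ} {l : ℕ} {X U A : ℝ → Md → C3} {p : ℝ → Md → ℂ}
  {F Fi M : ℝ → Md → Mat}

theorem Lvl.F_zero (h : Lvl K T r R l X U A p F Fi M) : F 0 = oneM ∧ Fi 0 = oneM := by
  have h0 : (0:ℝ) ∈ Icc 0 T := ⟨le_rfl, h.s_pos.le⟩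
  have h1 : F 0 = oneM := by
    rw [h.F_eq 0 h0, h.x_zero, gradV_zero, add_zero]
  refine ⟨h1, ?_⟩
  have h2 := h.inv 0 h0
  rwa [h1, mm_oneM_rt] at h2

theorem Lvl.fdata_b (h : Lvl K T r R l X U A p F Fi M) {t : ℝ} (ht : t ∈ Icc 0 T) :
    FData (lev l) r (bR R) (bR R) (F t) (Fi t) :=
  fdata_weaken (h.fdata w21 ht) h.c_pos le_rfl (R_le_bR h.R_two) (R_le_bR h.R_two)

theorem Lvl.Fi_b (h : Lvl K T r R l X U A p F Fi M) :
    Nrm T r 0 Dat.one' Fi ≤ ENNReal.ofReal (bR R) :=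
  h.Fi_le.trans (ENNReal.ofReal_le_ofReal (R_le_bR h.R_two))

/-- projector of a level, on a smaller interval with a smaller radius -/
theorem Lvl.proj (h : Lvl K T r R l X U A p F Fi M) {T' c Y : ℝ} (hT0 : 0 < T') (hT : T' ≤ T)
    (hY : (10 ^ 6 * R) ^ (1000 * (l + 2)) ≤ Y) (hc : c ≤ 1 / Y) :
    KN T' c (fun t => PiK (xi K) (Fi t)) ≤ ENNReal.ofReal Y ∧
      CK T' (fun t => PiK (xi K) (Fi t)) :=
  proj_le w18 w21 hT0 hT h.c_pos h.r_le h.R_two h.r_R hY hc (fun t ht => h.fdata_b ht) h.Fi_b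
    h.Fi_cm

/-- the exact generator of a level -/
theorem Lvl.gen_le (h : Lvl K T r R l X U A p F Fi M) {T' c Y : ℝ} (hc0 : 0 ≤ c) (hT0 : 0 < T')
    (hT : T' ≤ T) (hY : (10 ^ 6 * R) ^ (1000 * (l + 2)) ≤ Y) (hc : c ≤ 1 / Y) :
    KN T' c (fun t => genP (PiK (xi K) (Fi t)) (M t)) ≤ ENNReal.ofReal (Y ^ 3) := by
  have h1 := (h.proj hT0 hT hY hc).1
  have hR := h.R_two
  have hY1 : 3 * R ≤ Y := by
    have := Ypow hR hY (k := 1) (by omega)
    rw [pow_one] at this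
    linarith
  have hY0 : 1 ≤ Y := by linarith
  have hcr : c ≤ r := by
    have h3 := inv_X_le h.c_pos hR h.r_R hY
    have h4 : xR r R ≤ r := by
      unfold xR
      have h5 : 1 ≤ bR R ^ 2 := one_le_pow₀ (one_le_bR hR)
      have h6 : 1 ≤ 2 * bR R ^ 2 * bR R ^ 2 := by nlinarith
      have h7 : r / (2 * bR R ^ 2 * bR R ^ 2) ≤ r := div_le_self h.c_pos.le h6
      have h8 : 0 < r / (2 * bR R ^ 2 * bR R ^ 2) := by have := h.c_pos; positivity
      linarith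
    linarith
  have h9 := w09 Md C3 C3 C3 T' c hc0
  obtain ⟨hk, ha, hs, hm, hd, -, -⟩ := h9
  have hM : KN T' c (fun t => mulK (M t)) ≤ ENNReal.ofReal R := by
    rw [hm M]
    exact (Nrm_mono hT hcr (fun _ _ => one_pos) M).trans h.M_le
  have hid : KN T' c (fun _ => (idK : Md → Md → Mat)) ≤ 1 := by
    refine hd (fun _ _ => ContinuousLinearMap.id ℂ C3) 1 fun t _ m => ?_
    rw [← ofReal_norm_eq_enorm]
    exact ENNReal.ofReal_le_one.2 ContinuousLinearMap.norm_id_le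
  have hP : KN T' c (fun t => idK - (2 : ℂ) • PiK (xi K) (Fi t)) ≤ ENNReal.ofReal (1 + 2 * Y) := by
    have e1 : (fun t => idK - (2 : ℂ) • PiK (xi K) (Fi t)) =
        (fun _ => (idK : Md → Md → Mat)) + (-2 : ℂ) • (fun t => PiK (xi K) (Fi t)) := by
      funext t a b
      have e0 : ∀ x y : Mat, x - (2 : ℂ) • y = x + (-2 : ℂ) • y := fun x y => by module
      exact e0 _ _
    rw [e1]
    refine (ha _ _).trans ?_
    rw [hs]
    have e2 : ‖(-2 : ℂ)‖ₑ = ENNReal.ofReal 2 := by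
      rw [← ofReal_norm_eq_enorm]; norm_num
    rw [e2, ENNReal.ofReal_add zero_le_one (by positivity), ENNReal.ofReal_one,
      ENNReal.ofReal_mul (by norm_num)]
    exact add_le_add hid (mul_le_mul_right h1 _)
  have e3 : (fun t => genP (PiK (xi K) (Fi t)) (M t)) =
      (-1 : ℂ) • (fun t => kcomp (idK - (2 : ℂ) • PiK (xi K) (Fi t)) (mulK (M t))) := by
    funext t
    simp [genP]
  rw [e3, hs, show ‖(-1 : ℂ)‖ₑ = 1 by simp, one_mul]
  refine (hk _ _).trans ((mul_le_mul' hP hM).trans ?_)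
  rw [← ENNReal.ofReal_mul (by positivity)]
  refine ENNReal.ofReal_le_ofReal ?_
  calc (1 + 2 * Y) * R ≤ (3 * Y) * R := by nlinarith
    _ = Y * (3 * R) := by ring
    _ ≤ Y * Y := by gcongr
    _ ≤ Y ^ 3 := by nlinarith [sq_nonneg Y]

end level

section sheet

variable {K : ℕ → Fin 3 → ℤ} {T r R u : ℝ} {α : ℝ → ℝ} {j : ℕ} {F' Fi' M' F Fi M : ℝ → Md → Mat}
  {z a : ℝ → Md → C3} {s : ℝ → Md → ℂ} {Φ : ℝ → ℝ → Md → Mat} {w : Md → C3}
  {T₀ r₀ R₀ : ℝ} {X U A : ℝ → Md → C3} {p : ℝ → Md → ℂ}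

theorem Sht.z_one (h : Sht K T r R u α j F' Fi' M' F Fi M z a s Φ w) (hT : 0 < T) (hr : 0 < r)
    (hR : 2 ≤ R) : ‖kv (K j)‖ₑ * Nrm T r 0 Dat.one' z ≤ ENNReal.ofReal (R ^ 2) := by
  have hK := h.K_pos
  have hp : Par T r 0 := ⟨hT, le_rfl, by rw [zero_mul]; exact hr.le⟩
  have h1 := Nrm_one_le w05 hp h.α_wt (by linarith : (0:ℝ) ≤ R) h.α_le z
  refine (mul_le_mul_right (h1.trans (mul_le_mul_right h.z_le _)) _).trans ?_
  rw [← ofReal_norm_eq_enorm, ← ENNReal.ofReal_mul (by linarith), ← ENNReal.ofReal_mul hK.le]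
  refine ENNReal.ofReal_le_ofReal (le_of_eq ?_)
  field_simp

/-- data of `F°` -/
theorem Sht.fdo (h : Sht K T r R u α j F' Fi' M' F Fi M z a s Φ w)
    (h0 : Lvl K T₀ r₀ R₀ (j - 1) X U A p F' Fi' M') (hT : 0 < T) (hr : 0 < r) (hR : 2 ≤ R)
    (hTT : T ≤ T₀) (hrr : r ≤ r₀) (hRR : R₀ ≤ R) {t : ℝ} (ht : t ∈ Icc 0 T) :
    FData (lev j) r (bR R) (bR R) (mm (F' t) (shP (z t) (kv (K j))))
      (mm (shM (z t) (kv (K j))) (Fi' t)) := by
  have h1 : FData (lev (j - 1)) r R R (F' t) (Fi' t) :=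
    fdata_weaken (h0.fdata w21 (Icc_sub hTT ht)) hr hrr hRR hRR
  refine c09 w10 w11 w21 j r R R (R ^ 2) (K j) (F' t) (Fi' t) (z t) h.j_pos h1 (h.z_supp t ht)
    (h.z_orth t ht) (by positivity) ?_
  rw [mul_comm]
  exact (mul_le_mul_right (sN_le_Nrm1 ht) _).trans (h.z_one hT hr hR)

theorem Sht.shM_one (h : Sht K T r R u α j F' Fi' M' F Fi M z a s Φ w) (hT : 0 < T) (hr : 0 < r)
    (hR : 2 ≤ R) :
    Nrm T r 0 Dat.one' (fun t => shM (z t) (kv (K j))) ≤ ENNReal.ofReal (1 + R ^ 2) := by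
  have hp : Par T r 0 := ⟨hT, le_rfl, by rw [zero_mul]; exact hr.le⟩
  have e1 : (fun t => shM (z t) (kv (K j))) = (fun _ => oneM) +
      (fun t => -(fun q => (innerSL ℂ (kv (K j))).smulRight (z t q))) := by
    funext t q
    simp [shM, sub_eq_add_neg]
  rw [e1, ENNReal.ofReal_add zero_le_one (by positivity), ENNReal.ofReal_one]
  refine (Nrm_add_le w05 hp (wt_one T) _ _).trans (add_le_add Nrm_oneM ?_)
  rw [Nrm_neg]
  exact Nrm_zK.trans (h.z_one hT hr hR)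

theorem Sht.Fio_one (h : Sht K T r R u α j F' Fi' M' F Fi M z a s Φ w)
    (h0 : Lvl K T₀ r₀ R₀ (j - 1) X U A p F' Fi' M') (hT : 0 < T) (hr : 0 < r) (hR : 2 ≤ R)
    (hTT : T ≤ T₀) (hrr : r ≤ r₀) (hRR : R₀ ≤ R) :
    Nrm T r 0 Dat.one' (fun t => mm (shM (z t) (kv (K j))) (Fi' t)) ≤ ENNReal.ofReal (bR R) := by
  refine (Nrm_mm_le w09 hr.le _ _).trans ((mul_le_mul' (h.shM_one hT hr hR)
    ((Nrm_mono hTT hrr (fun _ _ => one_pos) Fi').trans (h0.Fi_le.trans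
      (ENNReal.ofReal_le_ofReal hRR)))).trans ?_)
  rw [← ENNReal.ofReal_mul (by positivity)]
  refine ENNReal.ofReal_le_ofReal (le_of_eq ?_)
  unfold bR; ring

theorem Sht.Fio_cm (h : Sht K T r R u α j F' Fi' M' F Fi M z a s Φ w)
    (h0 : Lvl K T₀ r₀ R₀ (j - 1) X U A p F' Fi' M') (hT : 0 < T) (hr : 0 < r) (hR : 2 ≤ R)
    (hTT : T ≤ T₀) (hrr : r ≤ r₀) (hRR : R₀ ≤ R) :
    CM T (fun t => mm (shM (z t) (kv (K j))) (Fi' t)) := by
  have hp : Par T r 0 := ⟨hT, le_rfl, by rw [zero_mul]; exact hr.le⟩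
  have h1 : CM T (fun t => shM (z t) (kv (K j))) := by
    intro q
    have h2 := h.z_cm q
    unfold shM
    refine continuousOn_const.sub ?_
    exact ((ContinuousLinearMap.smulRightL ℂ C3 C3 (innerSL ℂ (kv (K j)))).continuous).comp_continuousOn h2
  refine (w12 Md Mat Mat Mat T r 0 Dat.one' Dat.one' hp (wt_one T) (wt_one T)).2.2
    (ContinuousLinearMap.compL ℂ C3 C3 C3) _ _ h1 (CM_mono hTT h0.Fi_cm) ?_ ?_
  · exact ne_top_of_le_ne_top ENNReal.ofReal_ne_top (h.shM_one hT hr hR)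
  · exact ne_top_of_le_ne_top ENNReal.ofReal_ne_top
      ((Nrm_mono hTT hrr (fun _ _ => one_pos) Fi').trans h0.Fi_le)

end sheet

end Pool.Agent.Work.MP_b0497c_an.Unf.A
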