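import Pool.Agent.Work.MP_b0497c_an.Unf.B1
import Pool.Agent.Work.MP_b0497c_an.Unf.A1
import Pool.Agent.Work.MP_b0497c_an.Bd.B05

set_option autoImplicit false

/-!
# Base (A0): the level 0 solution in coefficient form
-/

open scoped ENNReal
open Set

namespace Pool.Agent.Work.MP_b0497c_an.Unf.B

open W S A

/-- `K₀` as an integer vector -/
def KZ : Fin 3 → ℤ := ![1, -3, -2]

/-- `d` as a complex vector -/
noncomputable def dC (c : ℝ) : C3 := WithLp.toLp 2 fun i => ((dz c i : ℝ) : ℂ)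

/-- the mode of `θ₀` -/
noncomputable def e0 : Md := Finsupp.single 0 1

/-- `d K₀ᵀ` -/
noncomputable def Ac (c : ℝ) : Mat := (innerSL ℂ (kv KZ)).smulRight (dC c)

open Classical in
/-- `d sin θ₀` -/
noncomputable def U0 (c : ℝ) (q : Md) : C3 :=
  if q = e0 then (-(Complex.I / 2)) • dC c else if q = -e0 then (Complex.I / 2) • dC c else 0

open Classical in
/-- `cos θ₀ d K₀ᵀ` -/
noncomputable def M0 (c : ℝ) (q : Md) : Mat := if q = e0 ∨ q = -e0 then (1 / 2 : ℂ) • Ac c else 0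

theorem e0_zero : e0 0 = 1 := by simp [e0]

theorem e0_ne_neg : e0 ≠ -e0 := by
  intro h
  have := DFunLike.congr_fun h 0
  rw [Finsupp.neg_apply, e0_zero] at this
  norm_num at this

theorem neg_e0_ne : -e0 ≠ e0 := fun h => e0_ne_neg h.symm

theorem e0_lev : e0 ∈ lev 0 := by
  intro i hi
  simp [e0, hi.ne]

theorem neg_e0_lev : -e0 ∈ lev 0 := neg_mem e0_lev

theorem len_e0 : len e0 = 1 := by
  show (e0.sum fun _ z => |(z : ℝ)|) = 1
  rw [e0, Finsupp.sum_single_index (by simp)]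
  simp

theorem xi_e0 {K : ℕ → Fin 3 → ℤ} (hK : K 0 = KZ) : xi K e0 = kv KZ := by
  rw [e0, IS01.xi_single, hK]
  simp

theorem xi_neg_e0 {K : ℕ → Fin 3 → ℤ} (hK : K 0 = KZ) : xi K (-e0) = -kv KZ := by
  rw [IS01.xi_neg, xi_e0 hK]

theorem kv_KZ (i : Fin 3) : kv KZ i = ((Kz i : ℝ) : ℂ) := by
  fin_cases i <;> simp [kv, KZ, Kz]

theorem inner_KZ_dC (c : ℝ) : inner ℂ (kv KZ) (dC c) = (0 : ℂ) := by
  rw [PiLp.inner_apply, Fin.sum_univ_three]
  have h := Kz_dz c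
  rw [inner_eq] at h
  rw [kv_KZ, kv_KZ, kv_KZ]
  simp only [dC, RCLike.inner_apply, Complex.conj_ofReal]
  rw [← Complex.ofReal_mul, ← Complex.ofReal_mul, ← Complex.ofReal_mul, ← Complex.ofReal_add,
    ← Complex.ofReal_add]
  norm_cast
  linarith

theorem Ac_apply (c : ℝ) (x : C3) : Ac c x = (inner ℂ (kv KZ) x : ℂ) • dC c := rfl

theorem Ac_sq (c : ℝ) : (Ac c).comp (Ac c) = 0 := by
  ext1 x
  rw [ContinuousLinearMap.comp_apply, Ac_apply c x, map_smul, Ac_apply, inner_KZ_dC]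
  simp

theorem Ac_trace (c : ℝ) : LinearMap.trace ℂ C3 (Ac c : C3 →ₗ[ℂ] C3) = 0 := by
  have h : (Ac c : C3 →ₗ[ℂ] C3) = LinearMap.toSpanSingleton ℂ C3 (dC c) ∘ₗ
      ((innerSL ℂ (kv KZ) : C3 →L[ℂ] ℂ) : C3 →ₗ[ℂ] ℂ) := by
    ext x
    simp [Ac]
  rw [h, LinearMap.trace_comp_comm', ]
  have h2 : ((innerSL ℂ (kv KZ) : C3 →L[ℂ] ℂ) : C3 →ₗ[ℂ] ℂ) ∘ₗ
      LinearMap.toSpanSingleton ℂ C3 (dC c) = 0 := by
    ext
    simp [inner_KZ_dC]
  rw [h2, map_zero]

theorem norm_real {x : E3} : ‖(WithLp.toLp 2 fun i => ((x i : ℝ) : ℂ) : C3)‖ = ‖x‖ := by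
  rw [EuclideanSpace.norm_eq, EuclideanSpace.norm_eq]
  simp

theorem norm_kvKZ : ‖kv KZ‖ = ‖Kz‖ := by
  have : kv KZ = WithLp.toLp 2 fun i => ((Kz i : ℝ) : ℂ) := by
    ext i
    rw [kv_KZ]
  rw [this, norm_real]

theorem norm_Ac_le {c : ℝ} (hc : 0 < c) (hc' : c ≤ 1 / 100) : ‖Ac c‖ ≤ 12 := by
  rw [Ac, ContinuousLinearMap.norm_smulRight_apply, innerSL_apply_norm, norm_kvKZ, dC, norm_real]
  have h : (‖Kz‖ * ‖dz c‖) ^ 2 ≤ 12 ^ 2 := by
    rw [mul_pow, norm_Kz_sq, norm_dz_sq]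
    nlinarith
  exact (abs_le_of_sq_le_sq' h (by norm_num)).2

theorem M0_mm (c : ℝ) : mm (M0 c) (M0 c) = 0 := by
  funext q
  show (∑' l, (M0 c (q - l)).comp (M0 c l)) = 0
  have : ∀ l, (M0 c (q - l)).comp (M0 c l) = 0 := by
    intro l
    unfold M0
    split_ifs
    · ext1 x
      simp [Ac_apply, inner_KZ_dC]
    · ext1 x
      simp
    · ext1 x
      simp
    · ext1 x
      simp
  simp only [this, tsum_zero]

theorem gradV_U0 {K : ℕ → Fin 3 → ℤ} (hK : K 0 = KZ) (c : ℝ) : gradV K (U0 c) = M0 c := by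
  funext q
  unfold gradV U0 M0
  by_cases h1 : q = e0
  · subst h1
    rw [if_pos rfl, if_pos (Or.inl rfl), xi_e0 hK]
    ext1 x
    simp only [_root_.smul_apply, ContinuousLinearMap.smulRight_apply, Ac_apply,
      smul_smul, innerSL_apply_apply]
    congr 1
    linear_combination (-(1 / 2 : ℂ) * inner ℂ (kv KZ) x) * Complex.I_mul_I
  · rw [if_neg h1]
    by_cases h2 : q = -e0
    · subst h2
      rw [if_pos rfl, if_pos (Or.inr rfl), xi_neg_e0 hK]
      ext1 x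
      simp only [_root_.smul_apply, ContinuousLinearMap.smulRight_apply, Ac_apply,
        smul_smul, innerSL_apply_apply, inner_neg_left]
      congr 1
      linear_combination (-(1 / 2 : ℂ) * inner ℂ (kv KZ) x) * Complex.I_mul_I
    · rw [if_neg h2, if_neg (by tauto)]
      ext1 x
      simp

theorem supp_U0 (c : ℝ) : SuppIn (lev 0 : Set Md) (U0 c) := by
  intro q hq
  unfold U0
  rw [if_neg, if_neg]
  · rintro rfl
    exact hq neg_e0_lev
  · rintro rfl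
    exact hq e0_lev

theorem supp_M0 (c : ℝ) : SuppIn (lev 0 : Set Md) (M0 c) := by
  intro q hq
  unfold M0
  rw [if_neg]
  rintro (rfl | rfl)
  · exact hq e0_lev
  · exact hq neg_e0_lev

theorem supp_oneM : SuppIn (lev 0 : Set Md) oneM := by
  intro q hq
  unfold oneM
  rw [if_neg]
  rintro rfl
  exact hq (zero_mem _)

/-- norms of functions with two modes -/
theorem sN_two {E : Type} [NormedAddCommGroup E] {r : ℝ} (hr : r ≤ 1) {f : Md → E} {C : ℝ}
    (hC : 0 ≤ C) (hf : ∀ q, q ≠ e0 → q ≠ -e0 → f q = 0) (h1 : ‖f e0‖ ≤ C) (h2 : ‖f (-e0)‖ ≤ C) :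
    sN r f ≤ ENNReal.ofReal (6 * C) := by
  classical
  have h : sN r f = ∑ q ∈ ({e0, -e0} : Finset Md), ENNReal.ofReal (Real.exp (r * len q)) * ‖f q‖ₑ := by
    refine tsum_eq_sum fun q hq => ?_
    rw [Finset.mem_insert, Finset.mem_singleton, not_or] at hq
    rw [hf q hq.1 hq.2]
    simp
  have he : Real.exp (r * 1) ≤ 3 := by
    have := Real.exp_one_lt_d9
    calc Real.exp (r * 1) ≤ Real.exp 1 := Real.exp_le_exp.2 (by linarith)
      _ ≤ 3 := by linarith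
  rw [h, Finset.sum_pair e0_ne_neg, len_neg, len_e0]
  have h3 : ∀ x : E, ‖x‖ ≤ C → ENNReal.ofReal (Real.exp (r * 1)) * ‖x‖ₑ ≤ ENNReal.ofReal (3 * C) := by
    intro x hx
    rw [← ofReal_norm, ← ENNReal.ofReal_mul (Real.exp_pos _).le]
    exact ENNReal.ofReal_le_ofReal (mul_le_mul he hx (norm_nonneg _) (by norm_num))
  calc _ ≤ ENNReal.ofReal (3 * C) + ENNReal.ofReal (3 * C) := add_le_add (h3 _ h1) (h3 _ h2)
    _ = ENNReal.ofReal (6 * C) := by
        rw [← ENNReal.ofReal_add (by positivity) (by positivity)]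
        ring_nf

theorem sN_M0 {c r : ℝ} (hc : 0 < c) (hc' : c ≤ 1 / 100) (hr : r ≤ 1) :
    sN r (M0 c) ≤ ENNReal.ofReal 36 := by
  have h : ‖(1 / 2 : ℂ) • Ac c‖ ≤ 6 := by
    rw [norm_smul]
    have := norm_Ac_le hc hc'
    norm_num
    linarith
  have h1 := sN_two hr (f := M0 c) (C := 6) (by norm_num)
    (fun q h1 h2 => by
      unfold M0
      rw [if_neg (by tauto)])
    (by
      unfold M0
      rwa [if_pos (Or.inl rfl)])
    (by
      unfold M0
      rwa [if_pos (Or.inr rfl)])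
  calc sN r (M0 c) ≤ ENNReal.ofReal (6 * 6) := h1
    _ = ENNReal.ofReal 36 := by norm_num

theorem sN_U0 {c r : ℝ} (hr : r ≤ 1) : sN r (U0 c) ≠ ∞ := by
  refine ne_top_of_le_ne_top ENNReal.ofReal_ne_top (sN_two hr (f := U0 c) (C := ‖dC c‖)
    (norm_nonneg _) (fun q h1 h2 => by
      unfold U0
      rw [if_neg h1, if_neg h2]) ?_ ?_)
  · unfold U0
    rw [if_pos rfl, norm_smul]
    have : ‖-(Complex.I / 2)‖ ≤ 1 := by
      rw [norm_neg, norm_div, Complex.norm_I]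
      norm_num
    calc _ ≤ 1 * ‖dC c‖ := by gcongr
      _ = ‖dC c‖ := one_mul _
  · unfold U0
    rw [if_neg neg_e0_ne, if_pos rfl, norm_smul]
    have : ‖Complex.I / 2‖ ≤ 1 := by
      rw [norm_div, Complex.norm_I]
      norm_num
    calc _ ≤ 1 * ‖dC c‖ := by gcongr
      _ = ‖dC c‖ := one_mul _

/-- A time dependent function dominated by a constant one. -/
theorem Nrm_le_sN {E F : Type} [NormedAddCommGroup E] [NormedAddCommGroup F] {T r : ℝ}
    {f : ℝ → Md → E} {g : Md → F} (h : ∀ t ∈ Icc 0 T, ∀ q, ‖f t q‖ₑ ≤ ‖g q‖ₑ) :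
    Nrm T r 0 Dat.one' f ≤ sN r g := by
  unfold Nrm sN
  refine ENNReal.tsum_le_tsum fun m => iSup₂_le fun t ht => ?_
  simp only [zero_mul, sub_zero, Dat.one', div_one]
  gcongr
  exact h t ht m

theorem enorm_smul_le {E : Type} [NormedAddCommGroup E] [NormedSpace ℂ E] {T t : ℝ} (hT : T ≤ 1)
    (ht : t ∈ Icc 0 T) (x : E) : ‖(t : ℂ) • x‖ₑ ≤ ‖x‖ₑ := by
  rw [← ofReal_norm, ← ofReal_norm, norm_smul]
  refine ENNReal.ofReal_le_ofReal ?_
  have : ‖(t : ℂ)‖ ≤ 1 := by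
    rw [Complex.norm_real, Real.norm_eq_abs, abs_of_nonneg ht.1]
    exact ht.2.trans hT
  nlinarith [norm_nonneg x]

/-- Deformation gradient of level 0. -/
noncomputable def F0 (c t : ℝ) : Md → Mat := oneM + (t : ℂ) • M0 c

/-- Its inverse. -/
noncomputable def Fi0 (c t : ℝ) : Md → Mat := oneM - (t : ℂ) • M0 c

theorem F0_zero (c : ℝ) : F0 c 0 = oneM := by
  funext q
  ext1 x
  simp [F0]

theorem Nrm_F0 {c T r : ℝ} (hc : 0 < c) (hc' : c ≤ 1 / 100) (hT : T ≤ 1) (hr : r ≤ 1)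
    {s : ℂ} (hs : s = 1 ∨ s = -1) :
    Nrm T r 0 Dat.one' (fun t => oneM + (s * (t : ℂ)) • M0 c) ≤ ENNReal.ofReal 40 := by
  have hs' : ‖s‖ = 1 := by
    rcases hs with rfl | rfl <;> simp
  have h1 : Nrm T r 0 Dat.one' (fun t => oneM + (s * (t : ℂ)) • M0 c) ≤
      Nrm T r 0 Dat.one' (fun _ => oneM) + Nrm T r 0 Dat.one' (fun t => (s * (t : ℂ)) • M0 c) := by
    unfold Nrm
    rw [← ENNReal.tsum_add]
    refine ENNReal.tsum_le_tsum fun m => iSup₂_le fun t ht => ?_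
    calc ENNReal.ofReal (Real.exp ((r - 0 * t) * len m) / Dat.one' t) *
          ‖(oneM + (s * (t : ℂ)) • M0 c) m‖ₑ
        ≤ ENNReal.ofReal (Real.exp ((r - 0 * t) * len m) / Dat.one' t) * ‖oneM m‖ₑ +
          ENNReal.ofReal (Real.exp ((r - 0 * t) * len m) / Dat.one' t) *
            ‖((s * (t : ℂ)) • M0 c) m‖ₑ := by
          rw [← _root_.mul_add]
          refine mul_le_mul' le_rfl ?_
          rw [Pi.add_apply]
          exact enorm_add_le (oneM m) ((s * (t : ℂ)) • M0 c m)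
      _ ≤ _ := by
          gcongr
          · exact le_iSup₂ (f := fun t (_ : t ∈ Icc 0 T) =>
              ENNReal.ofReal (Real.exp ((r - 0 * t) * len m) / Dat.one' t) * ‖oneM m‖ₑ) t ht
          · exact le_iSup₂ (f := fun t (_ : t ∈ Icc 0 T) =>
              ENNReal.ofReal (Real.exp ((r - 0 * t) * len m) / Dat.one' t) *
                ‖((s * (t : ℂ)) • M0 c) m‖ₑ) t ht
  have h2 : Nrm T r 0 Dat.one' (fun t => (s * (t : ℂ)) • M0 c) ≤ ENNReal.ofReal 36 := by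
    refine (Nrm_le_sN (g := M0 c) fun t ht q => ?_).trans (sN_M0 hc hc' hr)
    rw [Pi.smul_apply, mul_smul]
    rw [← ofReal_norm, norm_smul, hs', one_mul, ofReal_norm]
    exact enorm_smul_le hT ht _
  calc _ ≤ 1 + ENNReal.ofReal 36 := h1.trans (add_le_add Nrm_oneM h2)
    _ = ENNReal.ofReal 1 + ENNReal.ofReal 36 := by rw [ENNReal.ofReal_one]
    _ = ENNReal.ofReal 37 := by
        rw [← ENNReal.ofReal_add (by norm_num) (by norm_num)]
        norm_num
    _ ≤ ENNReal.ofReal 40 := ENNReal.ofReal_le_ofReal (by norm_num)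

end Pool.Agent.Work.MP_b0497c_an.Unf.B
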