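import Pool.Agent.Work.MP_b0497c_an.Unf.WinA
import Pool.Agent.Work.MP_b0497c_an.Bd.B11

set_option autoImplicit false

/-!
# N1 (Taylor at `t0`), for `Flo b'` and `240 b'⁵ |t - t0| ≤ 1`
-/

open Set ContinuousLinearMap RealInnerProductSpace

namespace Pool.Agent.Work.MP_b0497c_an.Unf.O

open Forced.Ode (Op ro)
open Fam K

theorem ode_near {G : ℝ → Op} {y : ℝ → E3} {g t0 t : ℝ} (hg : 0 ≤ g) (hG : ∀ r, ‖G r‖ ≤ g)
    (hy : ∀ r, HasDerivAt y (G r (y r)) r) (hs : g * |t - t0| ≤ 1 / 4) :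
    ‖y t - y t0‖ ≤ 2 * g * |t - t0| * ‖y t0‖ := by
  have hb : ∀ r, ‖G r (y r)‖ ≤ g * ‖y r‖ + 0 := by
    intro r
    rw [add_zero]
    exact ((G r).le_opNorm _).trans (mul_le_mul_of_nonneg_right (hG r) (norm_nonneg _))
  have hexp : Real.exp (1 / 4) ≤ 2 := by
    have h1 := Real.add_one_le_exp (-(1 / 4 : ℝ))
    have h2 : Real.exp (-(1 / 4 : ℝ)) * Real.exp (1 / 4) = 1 := by
      rw [← Real.exp_add]
      simp
    have h3 := Real.exp_pos (1 / 4 : ℝ)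
    nlinarith
  -- bound of `y` between `t0` and `t`
  have hy2 : ∀ r ∈ uIcc t0 t, ‖y r‖ ≤ 2 * ‖y t0‖ := by
    intro r hr
    have hr1 : |r - t0| ≤ |t - t0| := abs_sub_left_of_mem_uIcc hr
    have hr2 : g * |r - t0| ≤ 1 / 4 := (mul_le_mul_of_nonneg_left hr1 hg).trans hs
    have hr3 : Real.exp (g * |r - t0|) * ‖y t0‖ ≤ 2 * ‖y t0‖ := by
      apply mul_le_mul_of_nonneg_right _ (norm_nonneg _)
      exact (Real.exp_le_exp.2 hr2).trans hexp
    refine le_trans ?_ hr3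
    rcases le_total t0 r with h | h
    · have h1 := Forced.Ode.prf_StGrow E3 y (fun r => G r (y r)) t0 r g 0 h hg le_rfl
        (fun u _ => hy u) (fun u _ => hb u)
      rw [abs_of_nonneg (sub_nonneg.2 h)]
      simpa using h1
    · have h1 := Forced.Ode.prf_StGrowBack E3 y (fun r => G r (y r)) r t0 g 0 h hg le_rfl
        (fun u _ => hy u) (fun u _ => hb u)
      rw [abs_of_nonpos (sub_nonpos.2 h), neg_sub]
      simpa using h1
  have h2 := (convex_uIcc t0 t).norm_image_sub_le_of_norm_hasDerivWithin_le (f := y)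
    (f' := fun r => G r (y r)) (C := 2 * g * ‖y t0‖) (x := t0) (y := t)
    (fun x _ => (hy x).hasDerivWithinAt)
    (fun x hx => by
      refine (hb x).trans ?_
      have := mul_le_mul_of_nonneg_left (hy2 x hx) hg
      linarith) left_mem_uIcc right_mem_uIcc
  rw [Real.norm_eq_abs] at h2
  linarith

namespace LevD

variable {D : LevD} {b' : ℝ}

/-- nearness to `t0` -/
def Nr (D : LevD) (b' t : ℝ) : Prop := 240 * b' ^ 5 * |t - D.t0| ≤ 1

/-- the small number `b' |t - t0|` -/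
noncomputable def uu (D : LevD) (b' t : ℝ) : ℝ := b' * |t - D.t0|

theorem Flo.uu_nonneg (h : D.Flo b') (t : ℝ) : 0 ≤ D.uu b' t :=
  mul_nonneg h.b0.le (abs_nonneg _)

theorem Flo.uu_le (h : D.Flo b') {t : ℝ} (ht : D.Nr b' t) : D.uu b' t ≤ 1 / 2400000 := by
  have hb := h.b_ge
  unfold uu
  unfold Nr at ht
  have h1 : (10 : ℝ) ^ 4 ≤ b' ^ 4 := pow_le_pow_left₀ (by norm_num) hb 4
  have h2 : 0 ≤ b' * |t - D.t0| := mul_nonneg h.b0.le (abs_nonneg _)
  have h3 : 240 * b' ^ 5 * |t - D.t0| = 240 * b' ^ 4 * (b' * |t - D.t0|) := by ring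
  rw [h3] at ht
  nlinarith

theorem Flo.uu_le' (h : D.Flo b') {t : ℝ} (ht : D.Nr b' t) : b' ^ 3 * |t - D.t0| ≤ 1 / 24000 := by
  have hb := h.b_ge
  unfold Nr at ht
  have h1 : (10 : ℝ) ^ 2 ≤ b' ^ 2 := pow_le_pow_left₀ (by norm_num) hb 2
  have hb0 := h.b0
  have h2 : 0 ≤ b' ^ 3 * |t - D.t0| := by positivity
  have h3 : 240 * b' ^ 5 * |t - D.t0| = 240 * b' ^ 2 * (b' ^ 3 * |t - D.t0|) := by ring
  rw [h3] at ht
  nlinarith

theorem Flo.A_near (h : D.Flo b') (t : ℝ) : ‖D.A t - D.A D.t0‖ ≤ D.uu b' t := h.A_lip t D.t0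

theorem Flo.adj_norm (h : D.Flo b') (t : ℝ) : ‖-(adjoint (D.A t))‖ ≤ b' := by
  rw [norm_neg, LinearIsometryEquiv.norm_map]
  exact h.A_le t

theorem Flo.n_near (h : D.Flo b') {t : ℝ} (ht : D.Nr b' t) : ‖D.n t - D.e2‖ ≤ 2 * D.uu b' t := by
  have h1 := ode_near (G := fun r => -(adjoint (D.A r))) (y := D.n) (t0 := D.t0) (t := t)
    h.b0.le h.adj_norm (fun r => h.n_der r) (by
      have := h.uu_le ht
      unfold uu at this
      linarith)
  rw [h.n_one, mul_one] at h1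
  unfold uu
  show ‖D.n t - D.n D.t0‖ ≤ _
  linarith

theorem Flo.xi_near (h : D.Flo b') {t : ℝ} (ht : D.Nr b' t) : ‖D.xi t - D.e3‖ ≤ 2 * D.uu b' t := by
  have h1 := ode_near (G := fun r => -(adjoint (D.A r))) (y := D.xi) (t0 := D.t0) (t := t)
    h.b0.le h.adj_norm (fun r => h.xi_der r) (by
      have := h.uu_le ht
      unfold uu at this
      linarith)
  rw [h.xi_t0, h.e3_norm, mul_one] at h1
  unfold uu
  linarith

theorem Flo.B_near (h : D.Flo b') {t : ℝ} (ht : D.Nr b' t) : ‖D.B t - D.e1‖ ≤ 2 * D.uu b' t := by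
  have h1 := ode_near (G := fun r => D.A r) (y := D.B) (t0 := D.t0) (t := t)
    h.b0.le h.A_le (fun r => h.B_der r) (by
      have := h.uu_le ht
      unfold uu at this
      linarith)
  rw [h.B_t0, h.e1_norm, mul_one] at h1
  unfold uu
  linarith

theorem Flo.v_near (h : D.Flo b') {t : ℝ} (ht : D.Nr b' t) :
    ‖D.v t - D.a • D.e1‖ ≤ 6 * D.uu b' t * D.a := by
  have h1 := ode_near (G := fun r => kel (D.A r) (D.n r)) (y := D.v) (t0 := D.t0) (t := t)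
    (g := 3 * b') (by linarith [h.b0])
    (fun r => (norm_kel_le _ _).trans (by linarith [h.A_le r])) (fun r => h.v_der r) (by
      have := h.uu_le ht
      unfold uu at this
      linarith)
  rw [h.v_a, h.v_t0] at h1
  unfold uu
  linarith

theorem Flo.n_up (h : D.Flo b') {t : ℝ} (ht : D.Nr b' t) : ‖D.n t‖ ≤ 1 + 2 * D.uu b' t := by
  have h1 := norm_add_le (D.n t - D.e2) D.e2
  rw [sub_add_cancel, h.e2_norm] at h1
  linarith [h.n_near ht]

theorem Flo.n_lo (h : D.Flo b') {t : ℝ} (ht : D.Nr b' t) : 1 - 2 * D.uu b' t ≤ ‖D.n t‖ := by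
  have h1 := norm_sub_le (D.n t) (D.n t - D.e2)
  rw [sub_sub_cancel, h.e2_norm] at h1
  linarith [h.n_near ht]

theorem Flo.xi_up (h : D.Flo b') {t : ℝ} (ht : D.Nr b' t) : ‖D.xi t‖ ≤ 1 + 2 * D.uu b' t := by
  have h1 := norm_add_le (D.xi t - D.e3) D.e3
  rw [sub_add_cancel, h.e3_norm] at h1
  linarith [h.xi_near ht]

theorem Flo.B_up (h : D.Flo b') {t : ℝ} (ht : D.Nr b' t) : ‖D.B t‖ ≤ 1 + 2 * D.uu b' t := by
  have h1 := norm_add_le (D.B t - D.e1) D.e1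
  rw [sub_add_cancel, h.e1_norm] at h1
  linarith [h.B_near ht]

theorem Flo.B_lo (h : D.Flo b') {t : ℝ} (ht : D.Nr b' t) : 1 - 2 * D.uu b' t ≤ ‖D.B t‖ := by
  have h1 := norm_sub_le (D.B t) (D.B t - D.e1)
  rw [sub_sub_cancel, h.e1_norm] at h1
  linarith [h.B_near ht]

theorem Flo.v_up (h : D.Flo b') {t : ℝ} (ht : D.Nr b' t) :
    ‖D.v t‖ ≤ D.a * (1 + 6 * D.uu b' t) := by
  have h1 := norm_add_le (D.v t - D.a • D.e1) (D.a • D.e1)
  rw [sub_add_cancel, norm_smul, h.e1_norm, Real.norm_eq_abs, abs_of_pos h.a_pos] at h1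
  linarith [h.v_near ht]

theorem Flo.xin_near (h : D.Flo b') {t : ℝ} (ht : D.Nr b' t) :
    |⟪D.xi t, D.n t⟫| ≤ 5 * D.uu b' t := by
  have hu := h.uu_le ht
  have hu0 := h.uu_nonneg t
  have h1 : ⟪D.xi t, D.n t⟫ = ⟪D.xi t - D.e3, D.n t⟫ + ⟪D.e3, D.n t - D.e2⟫ := by
    rw [inner_sub_left, inner_sub_right, e32]
    ring
  rw [h1]
  have h2 : |⟪D.xi t - D.e3, D.n t⟫| ≤ 2 * D.uu b' t * (1 + 2 * D.uu b' t) :=
    (abs_real_inner_le_norm _ _).trans (mul_le_mul (h.xi_near ht) (h.n_up ht) (norm_nonneg _)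
      (by linarith))
  have h3 : |⟪D.e3, D.n t - D.e2⟫| ≤ 2 * D.uu b' t := by
    refine (abs_real_inner_le_norm _ _).trans ?_
    rw [h.e3_norm, one_mul]
    exact h.n_near ht
  refine (abs_add_le _ _).trans ?_
  nlinarith

theorem Flo.Av_le (h : D.Flo b') {t : ℝ} (ht : D.Nr b' t) :
    ‖D.A t (D.v t)‖ ≤ b' * (D.a * (1 + 6 * D.uu b' t)) :=
  (h.A_b t _).trans (mul_le_mul_of_nonneg_left (h.v_up ht) h.b0.le)

/-- N1 for `phi'`. -/
theorem Flo.phi'_near (h : D.Flo b') {t : ℝ} (ht : D.Nr b' t) :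
    |D.phi' t + 2 * D.a * D.c * D.kap| ≤ 30 * D.a * b' * D.uu b' t := by
  have hu := h.uu_le ht
  have hu0 := h.uu_nonneg t
  have hb := h.b_ge
  have ha := h.a_pos
  set u := D.uu b' t with hu'
  have h1 : ⟪D.xi t, D.A t (D.v t)⟫ - D.a * (D.c * D.kap) =
      ⟪D.xi t - D.e3, D.A t (D.v t)⟫ + ⟪D.e3, (D.A t - D.A D.t0) (D.v t)⟫
        + ⟪D.e3, D.A D.t0 (D.v t - D.a • D.e1)⟫ := by
    rw [← h.ctau, inner_sub_left, sub_apply, inner_sub_right, map_sub, inner_sub_right, map_smul,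
      inner_smul_right]
    ring
  have h2 : |⟪D.xi t - D.e3, D.A t (D.v t)⟫| ≤ 2 * u * (b' * (D.a * (1 + 6 * u))) :=
    (abs_real_inner_le_norm _ _).trans (mul_le_mul (h.xi_near ht) (h.Av_le ht) (norm_nonneg _)
      (by linarith))
  have h3 : |⟪D.e3, (D.A t - D.A D.t0) (D.v t)⟫| ≤ u * (D.a * (1 + 6 * u)) := by
    refine (abs_real_inner_le_norm _ _).trans ?_
    rw [h.e3_norm, one_mul]
    refine ((D.A t - D.A D.t0).le_opNorm _).trans ?_
    exact mul_le_mul (h.A_near t) (h.v_up ht) (norm_nonneg _) hu0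
  have h4 : |⟪D.e3, D.A D.t0 (D.v t - D.a • D.e1)⟫| ≤ b' * (6 * u * D.a) := by
    refine (abs_real_inner_le_norm _ _).trans ?_
    rw [h.e3_norm, one_mul]
    exact (h.A_b _ _).trans (mul_le_mul_of_nonneg_left (h.v_near ht) h.b0.le)
  have hn1 := h.n_lo ht
  have hn0 : 0 < ‖D.n t‖ := by linarith
  have h5 : |⟪D.n t, D.A t (D.v t)⟫ / ‖D.n t‖ ^ 2 * ⟪D.xi t, D.n t⟫| ≤
      b' * (D.a * (1 + 6 * u)) * (1 + 5 * u) * (5 * u) := by
    rw [abs_mul, abs_div, abs_of_pos (pow_pos hn0 2)]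
    have h6 : |⟪D.n t, D.A t (D.v t)⟫| / ‖D.n t‖ ^ 2 ≤
        b' * (D.a * (1 + 6 * u)) * (1 + 5 * u) := by
      rw [div_le_iff₀ (pow_pos hn0 2)]
      have h7 : |⟪D.n t, D.A t (D.v t)⟫| ≤ ‖D.n t‖ * (b' * (D.a * (1 + 6 * u))) :=
        (abs_real_inner_le_norm _ _).trans (mul_le_mul_of_nonneg_left (h.Av_le ht) hn0.le)
      refine h7.trans ?_
      have h8 : 1 ≤ (1 + 5 * u) * ‖D.n t‖ := by
        have : (1 + 5 * u) * (1 - 2 * u) ≤ (1 + 5 * u) * ‖D.n t‖ :=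
          mul_le_mul_of_nonneg_left hn1 (by linarith)
        nlinarith
      have h9 : 0 ≤ ‖D.n t‖ * (b' * (D.a * (1 + 6 * u))) := by positivity
      calc ‖D.n t‖ * (b' * (D.a * (1 + 6 * u)))
          = ‖D.n t‖ * (b' * (D.a * (1 + 6 * u))) * 1 := by ring
        _ ≤ ‖D.n t‖ * (b' * (D.a * (1 + 6 * u))) * ((1 + 5 * u) * ‖D.n t‖) :=
            mul_le_mul_of_nonneg_left h8 h9
        _ = _ := by ring
    exact mul_le_mul h6 (h.xin_near ht) (abs_nonneg _) (by positivity)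
  have h10 : D.phi' t + 2 * D.a * D.c * D.kap =
      -2 * (⟪D.xi t, D.A t (D.v t)⟫ - D.a * (D.c * D.kap))
        + 2 * (⟪D.n t, D.A t (D.v t)⟫ / ‖D.n t‖ ^ 2 * ⟪D.xi t, D.n t⟫) := by
    unfold phi'
    ring
  rw [h10, h1]
  have h11 : |(-2 : ℝ) * (⟪D.xi t - D.e3, D.A t (D.v t)⟫
      + ⟪D.e3, (D.A t - D.A D.t0) (D.v t)⟫ + ⟪D.e3, D.A D.t0 (D.v t - D.a • D.e1)⟫)
        + 2 * (⟪D.n t, D.A t (D.v t)⟫ / ‖D.n t‖ ^ 2 * ⟪D.xi t, D.n t⟫)| ≤
      2 * (2 * u * (b' * (D.a * (1 + 6 * u))) + u * (D.a * (1 + 6 * u)) + b' * (6 * u * D.a))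
        + 2 * (b' * (D.a * (1 + 6 * u)) * (1 + 5 * u) * (5 * u)) := by
    refine (abs_add_le _ _).trans ?_
    rw [abs_mul, abs_mul, abs_neg, abs_two]
    have := (abs_add_three ⟪D.xi t - D.e3, D.A t (D.v t)⟫
      ⟪D.e3, (D.A t - D.A D.t0) (D.v t)⟫ ⟪D.e3, D.A D.t0 (D.v t - D.a • D.e1)⟫)
    linarith
  refine h11.trans ?_
  have hab : 0 ≤ D.a * u := by positivity
  have habb : 0 ≤ D.a * b' * u := by
    have := h.b0
    positivity
  have e1 : D.a * u ≤ D.a * b' * u / 10 := by nlinarith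
  have e2 : (1 + 6 * u) ≤ 1.01 := by linarith
  have e3 : (1 + 6 * u) * (1 + 5 * u) ≤ 1.03 := by nlinarith
  have i1 : 2 * u * (b' * (D.a * (1 + 6 * u))) ≤ 2.02 * (D.a * b' * u) := by
    have : 2 * u * (b' * (D.a * (1 + 6 * u))) = 2 * (D.a * b' * u) * (1 + 6 * u) := by ring
    rw [this]
    nlinarith
  have i2 : u * (D.a * (1 + 6 * u)) ≤ 1.01 * (D.a * b' * u / 10) := by
    have : u * (D.a * (1 + 6 * u)) = (D.a * u) * (1 + 6 * u) := by ring
    rw [this]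
    nlinarith
  have i3 : b' * (6 * u * D.a) = 6 * (D.a * b' * u) := by ring
  have i4 : b' * (D.a * (1 + 6 * u)) * (1 + 5 * u) * (5 * u) ≤ 5.15 * (D.a * b' * u) := by
    have : b' * (D.a * (1 + 6 * u)) * (1 + 5 * u) * (5 * u) =
      5 * (D.a * b' * u) * ((1 + 6 * u) * (1 + 5 * u)) := by ring
    rw [this]
    nlinarith
  have i5 : 30 * D.a * b' * u = 30 * (D.a * b' * u) := by ring
  rw [i3, i5]
  linarith

theorem Nr.mono {t r : ℝ} (hb : 0 ≤ b') (ht : D.Nr b' t) (hr : |r - D.t0| ≤ |t - D.t0|) :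
    D.Nr b' r := by
  unfold Nr at *
  refine le_trans ?_ ht
  gcongr

theorem uIcc_near {t r : ℝ} (hr : r ∈ uIcc D.t0 t) : |r - D.t0| ≤ |t - D.t0| :=
  abs_sub_left_of_mem_uIcc hr

/-- N1 for `phi`. -/
theorem Flo.phi_near (h : D.Flo b') {t : ℝ} (ht : D.Nr b' t) :
    |D.fam.phi t + 2 * D.a * D.c * D.kap * (t - D.t0)| ≤
      30 * D.a * b' * D.uu b' t * |t - D.t0| := by
  have hb0 := h.b0
  have hd : ∀ r, HasDerivAt (fun r => D.fam.phi r + 2 * D.a * D.c * D.kap * (r - D.t0))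
      (D.phi' r + 2 * D.a * D.c * D.kap) r := by
    intro r
    have h1 := (h.phi_der r).fun_add (((hasDerivAt_id r).sub_const D.t0).const_mul
      (2 * D.a * D.c * D.kap))
    refine h1.congr_deriv ?_
    ring
  have h2 := (convex_uIcc D.t0 t).norm_image_sub_le_of_norm_hasDerivWithin_le
    (f := fun r => D.fam.phi r + 2 * D.a * D.c * D.kap * (r - D.t0))
    (f' := fun r => D.phi' r + 2 * D.a * D.c * D.kap) (C := 30 * D.a * b' * D.uu b' t)
    (x := D.t0) (y := t) (fun x _ => (hd x).hasDerivWithinAt)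
    (fun x hx => by
      have hx' := uIcc_near hx
      refine (h.phi'_near (ht.mono hb0.le hx')).trans ?_
      have : D.uu b' x ≤ D.uu b' t := by
        unfold uu
        gcongr
      have ha := h.a_pos
      gcongr) left_mem_uIcc right_mem_uIcc
  simp only [h.phi_t0, sub_self, mul_zero, add_zero, sub_zero, Real.norm_eq_abs] at h2
  exact h2

theorem uIcc_sub_Icc (h : D.Flo b') {t : ℝ} (ht : t ∈ Icc 0 D.T) : uIcc D.t0 t ⊆ Icc 0 D.T := by
  intro x hx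
  have h1 := h.t0_mem
  rw [mem_uIcc] at hx
  rcases hx with hx | hx
  · exact ⟨h1.1.trans hx.1, hx.2.trans ht.2⟩
  · exact ⟨ht.1.trans hx.1, hx.2.trans h1.2⟩

/-- N1 for `lam1`. -/
theorem Flo.lam1_near (h : D.Flo b') {t : ℝ} (hT : t ∈ Icc 0 D.T) (ht : D.Nr b' t) :
    |D.lam1 t - D.Lam t| ≤ 30 * D.a * b' * D.uu b' t * |t - D.t0| * |t - D.t0| := by
  have hb0 := h.b0
  have hd : ∀ r ∈ uIcc D.t0 t, HasDerivAt (fun r => D.lam1 r - D.Lam r)
      (-(D.fam.phi r + 2 * D.a * D.c * D.kap * (r - D.t0))) r := by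
    intro r hr
    have h1 := (((((hasDerivAt_id r).sub_const D.t0).fun_pow 2).const_mul
      (D.a * D.c * D.kap)).const_add D.k0)
    have h2 := (h.lam1_der (uIcc_sub_Icc h hT hr)).fun_sub h1
    refine h2.congr_deriv ?_
    simp only [id]
    push_cast
    ring
  have h2 := (convex_uIcc D.t0 t).norm_image_sub_le_of_norm_hasDerivWithin_le
    (f := fun r => D.lam1 r - D.Lam r)
    (f' := fun r => -(D.fam.phi r + 2 * D.a * D.c * D.kap * (r - D.t0)))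
    (C := 30 * D.a * b' * D.uu b' t * |t - D.t0|)
    (x := D.t0) (y := t) (fun x hx => (hd x hx).hasDerivWithinAt)
    (fun x hx => by
      have hx' := uIcc_near hx
      rw [norm_neg, Real.norm_eq_abs]
      refine (h.phi_near (ht.mono hb0.le hx')).trans ?_
      have : D.uu b' x ≤ D.uu b' t := by
        unfold uu
        gcongr
      have h5 := h.uu_nonneg x
      have h6 := h.uu_nonneg t
      have ha := h.a_pos
      have h7 : 0 ≤ 30 * D.a * b' * D.uu b' t := by positivity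
      gcongr) left_mem_uIcc right_mem_uIcc
  have h3 : D.Lam D.t0 = D.k0 := by
    unfold Lam
    simp
  simp only [h.lam1_t0, h3, sub_self, sub_zero, Real.norm_eq_abs] at h2
  exact h2

/-- relative form: `a c kap ≥ a / (2 b')` -/
theorem Flo.ack_ge (h : D.Flo b') : D.a * b' * (1 / b') ≤ 2 * b' * (D.a * D.c * D.kap) := by
  have h1 := h.c_ge
  have h2 := h.kap_ge
  have h3 := h.a_pos
  have h4 := h.b0
  have h5 : 1 / b' * (1 / 2) ≤ D.c * D.kap := mul_le_mul h1 h2 (by norm_num) (by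
    have := h.c_pos
    positivity)
  have h6 : D.a * b' * (1 / b') = 2 * b' * D.a * (1 / b' * (1 / 2)) := by ring
  rw [h6]
  have : 2 * b' * (D.a * D.c * D.kap) = 2 * b' * D.a * (D.c * D.kap) := by ring
  rw [this]
  exact mul_le_mul_of_nonneg_left h5 (by positivity)

theorem Flo.a_le_ack (h : D.Flo b') : D.a ≤ 2 * b' * (D.a * D.c * D.kap) := by
  have h1 := h.ack_ge
  have h4 := h.b0
  have : D.a * b' * (1 / b') = D.a := by field_simp
  rwa [this] at h1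

theorem Flo.ack_pos (h : D.Flo b') : 0 < D.a * D.c * D.kap :=
  mul_pos (mul_pos h.a_pos h.c_pos) h.kap_pos

/-- the relative error `60 b'³ |t - t0|` of N1 -/
noncomputable def er1 (D : LevD) (b' t : ℝ) : ℝ := 60 * b' ^ 3 * |t - D.t0|

theorem Flo.er1_nonneg (h : D.Flo b') (t : ℝ) : 0 ≤ D.er1 b' t := by
  unfold er1
  have := h.b0
  positivity

theorem Flo.er1_le (h : D.Flo b') {t : ℝ} (ht : D.Nr b' t) : D.er1 b' t ≤ 1 / 400 := by
  have := h.uu_le' ht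
  unfold er1
  linarith

theorem Flo.er_aux (h : D.Flo b') (t : ℝ) : 30 * D.a * b' * D.uu b' t ≤
    D.er1 b' t * (D.a * D.c * D.kap) := by
  have h1 := h.a_le_ack
  have hb := h.b0
  unfold uu er1
  calc 30 * D.a * b' * (b' * |t - D.t0|) = 30 * b' ^ 2 * |t - D.t0| * D.a := by ring
    _ ≤ 30 * b' ^ 2 * |t - D.t0| * (2 * b' * (D.a * D.c * D.kap)) := by gcongr
    _ = _ := by ring

theorem Flo.phi'_rel (h : D.Flo b') {t : ℝ} (ht : D.Nr b' t) :
    |D.phi' t + 2 * D.a * D.c * D.kap| ≤ D.er1 b' t * (D.a * D.c * D.kap) :=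
  (h.phi'_near ht).trans (h.er_aux t)

theorem Flo.phi_rel (h : D.Flo b') {t : ℝ} (ht : D.Nr b' t) :
    |D.fam.phi t + 2 * D.a * D.c * D.kap * (t - D.t0)| ≤
      D.er1 b' t * (D.a * D.c * D.kap * |t - D.t0|) := by
  refine (h.phi_near ht).trans ?_
  have := mul_le_mul_of_nonneg_right (h.er_aux t) (abs_nonneg (t - D.t0))
  linarith

theorem Flo.lam1_rel (h : D.Flo b') {t : ℝ} (hT : t ∈ Icc 0 D.T) (ht : D.Nr b' t) :
    |D.lam1 t - D.Lam t| ≤ D.er1 b' t * (D.a * D.c * D.kap * (t - D.t0) ^ 2) := by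
  refine (h.lam1_near hT ht).trans ?_
  have := mul_le_mul_of_nonneg_right (h.er_aux t) (sq_nonneg (t - D.t0))
  have h2 : |t - D.t0| * |t - D.t0| = (t - D.t0) ^ 2 := by
    rw [← sq, sq_abs]
  calc 30 * D.a * b' * D.uu b' t * |t - D.t0| * |t - D.t0|
      = 30 * D.a * b' * D.uu b' t * (|t - D.t0| * |t - D.t0|) := by ring
    _ = 30 * D.a * b' * D.uu b' t * (t - D.t0) ^ 2 := by rw [h2]
    _ ≤ _ := this
    _ = _ := by ring

/-- `g` near `t0` -/
theorem Flo.g_rel (h : D.Flo b') {t : ℝ} (hT : t ∈ Icc 0 D.T) (ht : D.Nr b' t) :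
    |D.g t - D.a * D.c * D.kap * (t - D.t0) ^ 2| ≤
      D.er1 b' t * (D.a * D.c * D.kap * (t - D.t0) ^ 2) := by
  have h1 := h.lam1_rel hT ht
  rw [Flo.lam1_eq] at h1
  unfold Lam at h1
  have h2 : D.k0 + D.g t - (D.k0 + D.a * D.c * D.kap * (t - D.t0) ^ 2) =
    D.g t - D.a * D.c * D.kap * (t - D.t0) ^ 2 := by ring
  rwa [h2] at h1

end LevD

end Pool.Agent.Work.MP_b0497c_an.Unf.O
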