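import Pool.Agent.Work.MP_b0497c_an.Unf.Cross

set_option autoImplicit false

/-!
# Conjugation of the generator of wave `n + 1` to the generator of wave `n` (helper98)

`A` background flow, `(v, n)` wave `n` on it, `ξ` a covector of `A`, `k = ξ + lam n` the covector
of wave `n + 1` in the flow `M = A + al v ⊗ n`, `X` the wave `n + 1`.
-/

open scoped ContDiff RealInnerProductSpace
open Set ContinuousLinearMap

namespace Pool.Agent.Work.MP_b0497c_an.Unf.O

open Forced.Ode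

/-- The generator of a Kelvin wave with covector `n` in the flow `A`. -/
noncomputable def kelv (A : Op) (n x : E3) : E3 := -(A x) + (2 * ⟪n, A x⟫ / ‖n‖ ^ 2) • n

theorem kelv_add (A : Op) (n x y : E3) : kelv A n (x + y) = kelv A n x + kelv A n y := by
  simp only [kelv, map_add, inner_add_right]
  module

theorem kelv_smul (A : Op) (n x : E3) (c : ℝ) : kelv A n (c • x) = c • kelv A n x := by
  simp only [kelv, map_smul, inner_smul_right]
  module

theorem kelv_sub (A : Op) (n x y : E3) : kelv A n (x - y) = kelv A n x - kelv A n y := by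
  simp only [kelv, map_sub, inner_sub_right]
  module

theorem inner_kelv (A : Op) {n x : E3} (hn : n ≠ 0) : ⟪n, kelv A n x⟫ = ⟪n, A x⟫ := by
  have h : ‖n‖ ^ 2 ≠ 0 := by positivity
  simp only [kelv, inner_add_right, inner_neg_right, inner_smul_right, real_inner_self_eq_norm_sq]
  field_simp
  ring

/-- Hypotheses of the conjugation at one time. -/
structure CJ (A : ℝ → Op) (n v ξ : ℝ → E3) (lam : ℝ → ℝ) (al s t : ℝ) : Prop where
  dn : HasDerivAt n (-(adjoint (A t) (n t))) t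
  dv : HasDerivAt v (kelv (A t) (n t) (v t)) t
  dξ : HasDerivAt ξ (-(adjoint (A t) (ξ t))) t
  dlam : HasDerivAt lam (-(al * ⟪ξ t, v t⟫)) t
  nv : ⟪n t, v t⟫ = 0
  n0 : n t ≠ 0
  trA : LinearMap.trace ℝ E3 (A t).toLinearMap = 0
  hs : s = -⟪axial (A t), n t⟫
  s0 : s ≠ 0

section

variable (A : ℝ → Op) (n v ξ X : ℝ → E3) (lam : ℝ → ℝ) (al s : ℝ)

/-- the label vector `B = n × ξ` -/
noncomputable def bB (t : ℝ) : E3 := cr (n t) (ξ t)

/-- `f = v · B` -/
noncomputable def ff (t : ℝ) : ℝ := ⟪v t, bB n ξ t⟫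

/-- `ν = ξ · n / |n|²` -/
noncomputable def nu (t : ℝ) : ℝ := ⟪ξ t, n t⟫ / ‖n t‖ ^ 2

/-- the part of `ξ` orthogonal to `n` -/
noncomputable def ξp (t : ℝ) : E3 := ξ t - nu n ξ t • n t

/-- `lt = lam + ν` -/
noncomputable def lt (t : ℝ) : ℝ := lam t + nu n ξ t

/-- `lt + al f / s` -/
noncomputable def LL (t : ℝ) : ℝ := lt n ξ lam t + al * ff n v ξ t / s

/-- the flow `M = A + al v ⊗ n` -/
noncomputable def MM (t : ℝ) : Op := A t + al • ro (v t) (n t)

/-- the covector `k = ξ + lam n` -/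
noncomputable def kk (t : ℝ) : E3 := ξ t + lam t • n t

/-- `ζ = n · X / |n|²` -/
noncomputable def ze (t : ℝ) : ℝ := ⟪n t, X t⟫ / ‖n t‖ ^ 2

/-- the part of `X` orthogonal to `n` -/
noncomputable def uu (t : ℝ) : E3 := X t - ze n X t • n t

/-- the conjugated vector `y = u - al / (s LL) (B · u) v` -/
noncomputable def yy (t : ℝ) : E3 :=
  uu n X t - (al / (s * LL n v ξ lam al s t) * ⟪bB n ξ t, uu n X t⟫) • v t

/-- `γ = 2 k · M X / |k|²` -/
noncomputable def ga (t : ℝ) : ℝ :=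
  2 * ⟪kk n ξ lam t, MM A n v al t (X t)⟫ / ‖kk n ξ lam t‖ ^ 2

/-- the derivative of `ν` -/
noncomputable def nu' (t : ℝ) : ℝ :=
  -(⟪ξp n ξ t, A t (n t) + adjoint (A t) (n t)⟫ / ‖n t‖ ^ 2)

/-- the remainder in the equation of `u` -/
noncomputable def rho (t : ℝ) : E3 :=
  ga A n v ξ X lam al t • ξp n ξ t
    + ze n X t • (adjoint (A t) (n t) - A t (n t)
      - (⟪n t, adjoint (A t) (n t) - A t (n t)⟫ / ‖n t‖ ^ 2) • n t)

/-- the remainder in the equation of `y` -/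
noncomputable def gg (t : ℝ) : E3 :=
  rho A n v ξ X lam al t
    - (al / (s * LL n v ξ lam al s t) * ⟪bB n ξ t, rho A n v ξ X lam al t⟫) • v t
    + (al * nu' A n ξ t / (s * LL n v ξ lam al s t ^ 2) * ⟪bB n ξ t, uu n X t⟫) • v t

variable {A n v ξ X lam al s} {t : ℝ}

theorem CJ.nsq_ne (h : CJ A n v ξ lam al s t) : ‖n t‖ ^ 2 ≠ 0 := by
  have := h.n0
  positivity

theorem CJ.dB (h : CJ A n v ξ lam al s t) : HasDerivAt (bB n ξ) (A t (bB n ξ t)) t := by
  have h1 := cr_deriv h.dn h.dξ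
  have h2 := adj_cr (A t) (n t) (ξ t)
  rw [h.trA, zero_smul, zero_sub] at h2
  refine h1.congr_deriv ?_
  rw [cr_neg_left, cr_neg_right]
  unfold bB
  rw [← neg_eq_iff_eq_neg.2 h2]
  abel

theorem n_bB : ⟪n t, bB n ξ t⟫ = 0 := ip_cr_left _ _

theorem ξ_bB : ⟪ξ t, bB n ξ t⟫ = 0 := ip_cr_right _ _

/-- the vorticity identity in the plane -/
theorem CJ.plane (h : CJ A n v ξ lam al s t) {y : E3} (hy : ⟪n t, y⟫ = 0) :
    ⟪A t (bB n ξ t), y⟫ - ⟪bB n ξ t, A t y⟫ = s * ⟪ξ t, y⟫ := by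
  have h1 : ⟪bB n ξ t, A t y⟫ = ⟪adjoint (A t) (bB n ξ t), y⟫ := (adjoint_inner_left _ _ _).symm
  rw [h1, ← inner_sub_left, axial_cr, h.hs, real_inner_comm, triple]
  have h2 : cr (bB n ξ t) y = ⟪n t, y⟫ • ξ t - ⟪ξ t, y⟫ • n t := cr_cr' _ _ _
  rw [h2, hy, zero_smul, zero_sub, inner_neg_right, inner_smul_right]
  ring

theorem CJ.df (h : CJ A n v ξ lam al s t) : HasDerivAt (ff n v ξ) (s * ⟪ξ t, v t⟫) t := by
  have h1 := h.dv.inner ℝ h.dB
  refine h1.congr_deriv ?_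
  have h2 := h.plane h.nv
  simp only [kelv, inner_add_left, inner_neg_left, inner_smul_left, n_bB, RCLike.conj_to_real]
  rw [← h2, real_inner_comm (A t (bB n ξ t)) (v t), real_inner_comm (bB n ξ t) (A t (v t))]
  ring

theorem CJ.dnsq (h : CJ A n v ξ lam al s t) :
    HasDerivAt (fun r => ‖n r‖ ^ 2) (-(2 * ⟪n t, A t (n t)⟫)) t := by
  have h1 := h.dn.norm_sq
  refine h1.congr_deriv ?_
  rw [inner_neg_right, real_inner_comm, adjoint_inner_left]
  ring

theorem CJ.dnu (h : CJ A n v ξ lam al s t) : HasDerivAt (nu n ξ) (nu' A n ξ t) t := by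
  have hn' : ‖n t‖ ≠ 0 := norm_ne_zero_iff.2 h.n0
  have h1 := (h.dξ.inner ℝ h.dn).div h.dnsq h.nsq_ne
  refine h1.congr_deriv ?_
  have hn := h.nsq_ne
  have hn' : ‖n t‖ ≠ 0 := norm_ne_zero_iff.2 h.n0
  have e1 : ⟪ξ t, -(adjoint (A t) (n t))⟫ = -⟪ξ t, adjoint (A t) (n t)⟫ := inner_neg_right _ _
  have e2 : ⟪-(adjoint (A t) (ξ t)), n t⟫ = -⟪ξ t, A t (n t)⟫ := by
    rw [inner_neg_left, adjoint_inner_left]
  have e3 : ⟪n t, adjoint (A t) (n t)⟫ = ⟪n t, A t (n t)⟫ := by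
    rw [real_inner_comm, adjoint_inner_left]
  rw [e1, e2]
  simp only [nu', ξp, nu, inner_sub_left, inner_smul_left, inner_add_right, RCLike.conj_to_real,
    e3]
  field_simp
  ring

theorem CJ.dlt (h : CJ A n v ξ lam al s t) :
    HasDerivAt (lt n ξ lam) (-(al * ⟪ξ t, v t⟫) + nu' A n ξ t) t := h.dlam.add h.dnu

theorem CJ.dLL (h : CJ A n v ξ lam al s t) :
    HasDerivAt (LL n v ξ lam al s) (nu' A n ξ t) t := by
  have h1 := h.dlt.add ((h.df.const_mul al).div_const s)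
  refine h1.congr_deriv ?_
  have := h.s0
  field_simp
  ring

theorem MM_apply (x : E3) : MM A n v al t x = A t x + (al * ⟪n t, x⟫) • v t := by
  simp only [MM, add_apply, smul_apply, ro_apply, smul_smul]

theorem n_uu (hn : n t ≠ 0) : ⟪n t, uu n X t⟫ = 0 := by
  have : ‖n t‖ ^ 2 ≠ 0 := by positivity
  simp only [uu, ze, inner_sub_right, inner_smul_right, real_inner_self_eq_norm_sq]
  field_simp
  ring

theorem n_ξp (hn : n t ≠ 0) : ⟪n t, ξp n ξ t⟫ = 0 := by
  have : ‖n t‖ ^ 2 ≠ 0 := by positivity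
  simp only [ξp, nu, inner_sub_right, inner_smul_right, real_inner_self_eq_norm_sq]
  rw [real_inner_comm (n t) (ξ t)]
  field_simp
  ring

/-- the component of `X` along `n` -/
theorem CJ.n_X (h : CJ A n v ξ lam al s t) (hX : ⟪kk n ξ lam t, X t⟫ = 0)
    (hl : lt n ξ lam t ≠ 0) : ⟪n t, X t⟫ = -(⟪ξ t, uu n X t⟫ / lt n ξ lam t) := by
  have hn := h.nsq_ne
  have hn' : ‖n t‖ ≠ 0 := norm_ne_zero_iff.2 h.n0
  have e1 : ⟪ξ t, uu n X t⟫ = ⟪ξ t, X t⟫ - ⟪n t, X t⟫ * nu n ξ t := by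
    simp only [uu, ze, nu, inner_sub_right, inner_smul_right]
    field_simp
  have e2 : ⟪ξ t, X t⟫ + lam t * ⟪n t, X t⟫ = 0 := by
    rw [← hX, kk, inner_add_left, real_inner_smul_left]
  rw [eq_neg_iff_add_eq_zero, e1]
  field_simp
  unfold lt
  linear_combination e2

/-- the equation of `u` -/
theorem CJ.du (h : CJ A n v ξ lam al s t)
    (hd : HasDerivAt X (kelv (MM A n v al t) (kk n ξ lam t) (X t)) t)
    (hX : ⟪kk n ξ lam t, X t⟫ = 0) (hl : lt n ξ lam t ≠ 0) :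
    HasDerivAt (uu n X) (kelv (A t) (n t) (uu n X t)
      + (al / lt n ξ lam t * ⟪ξ t, uu n X t⟫) • v t + rho A n v ξ X lam al t) t := by
  have hn := h.nsq_ne
  have hn' : ‖n t‖ ≠ 0 := norm_ne_zero_iff.2 h.n0
  have hze := (h.dn.inner ℝ hd).div h.dnsq hn
  have h1 := hd.sub (hze.smul h.dn)
  refine h1.congr_deriv ?_
  have hnX := h.n_X hX hl
  set a1 : ℝ := ⟪n t, A t (X t)⟫ with ha1
  set a2 : ℝ := ⟪n t, A t (n t)⟫ with ha2
  have e3 : ⟪n t, adjoint (A t) (n t)⟫ = a2 := by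
    rw [real_inner_comm, adjoint_inner_left]
  have e4 : ⟪n t, MM A n v al t (X t)⟫ = a1 := by
    rw [MM_apply, inner_add_right, inner_smul_right, h.nv, mul_zero, add_zero]
  have e5 : kelv (MM A n v al t) (kk n ξ lam t) (X t) = -(A t (X t)) - (al * ⟪n t, X t⟫) • v t
      + ga A n v ξ X lam al t • kk n ξ lam t := by
    simp only [kelv, ga]
    rw [MM_apply]
    module
  have e6 : ⟪n t, kk n ξ lam t⟫ = lt n ξ lam t * ‖n t‖ ^ 2 := by
    simp only [kk, lt, nu, inner_add_right, inner_smul_right, real_inner_self_eq_norm_sq]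
    rw [real_inner_comm (n t) (ξ t)]
    field_simp
    ring
  have e7 : ⟪n t, kelv (MM A n v al t) (kk n ξ lam t) (X t)⟫
      = -a1 + ga A n v ξ X lam al t * (lt n ξ lam t * ‖n t‖ ^ 2) := by
    rw [e5, inner_add_right, inner_sub_right, inner_neg_right, inner_smul_right, h.nv,
      inner_smul_right, e6]
    ring
  have e8 : ⟪-(adjoint (A t) (n t)), X t⟫ = -a1 := by
    rw [inner_neg_left, adjoint_inner_left]
  have e9 : ⟪n t, A t (uu n X t)⟫ = a1 - ze n X t * a2 := by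
    simp only [uu, map_sub, map_smul, inner_sub_right, inner_smul_right]
    rw [← ha1, ← ha2]
  have e10 : al / lt n ξ lam t * ⟪ξ t, uu n X t⟫ = -(al * ⟪n t, X t⟫) := by
    rw [hnX]
    ring
  have e11 : A t (uu n X t) = A t (X t) - ze n X t • A t (n t) := by
    simp only [uu, map_sub, map_smul]
  rw [e7, e8, e5, e10]
  simp only [kelv, rho, inner_sub_right, e3, ← ha2, e9]
  rw [e11]
  simp only [ξp, kk]
  have hlt : lt n ξ lam t = lam t + nu n ξ t := rfl
  rw [hlt]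
  simp only [ze, Pi.div_apply]
  match_scalars <;> field_simp <;> ring

/-- the derivative of `B · u` -/
theorem CJ.dBu (h : CJ A n v ξ lam al s t)
    (hd : HasDerivAt X (kelv (MM A n v al t) (kk n ξ lam t) (X t)) t)
    (hX : ⟪kk n ξ lam t, X t⟫ = 0) (hl : lt n ξ lam t ≠ 0) :
    HasDerivAt (fun r => ⟪bB n ξ r, uu n X r⟫)
      (s * LL n v ξ lam al s t / lt n ξ lam t * ⟪ξ t, uu n X t⟫
        + ⟪bB n ξ t, rho A n v ξ X lam al t⟫) t := by
  have h1 := h.dB.inner ℝ (h.du hd hX hl)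
  refine h1.congr_deriv ?_
  have h2 := h.plane (n_uu (X := X) h.n0)
  have h3 : ⟪bB n ξ t, v t⟫ = ff n v ξ t := real_inner_comm _ _
  have h4 : ⟪bB n ξ t, n t⟫ = 0 := by rw [real_inner_comm]; exact n_bB
  simp only [inner_add_right, inner_smul_right, kelv, inner_neg_right, h3, h4]
  have h5 : ⟪bB n ξ t, A t (uu n X t)⟫ = ⟪A t (bB n ξ t), uu n X t⟫ - s * ⟪ξ t, uu n X t⟫ := by
    rw [← h2]; ring
  rw [h5]
  have := h.s0
  simp only [LL]
  field_simp
  ring

/-- **The conjugation**: `y' = L y + g`. -/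
theorem CJ.dy (h : CJ A n v ξ lam al s t)
    (hd : HasDerivAt X (kelv (MM A n v al t) (kk n ξ lam t) (X t)) t)
    (hX : ⟪kk n ξ lam t, X t⟫ = 0) (hl : lt n ξ lam t ≠ 0) (hL : LL n v ξ lam al s t ≠ 0) :
    HasDerivAt (yy n v ξ X lam al s) (kelv (A t) (n t) (yy n v ξ X lam al s t)
      + gg A n v ξ X lam al s t) t := by
  have hs := h.s0
  have hb : HasDerivAt (fun r => al / (s * LL n v ξ lam al s r))
      (-(al * nu' A n ξ t / (s * LL n v ξ lam al s t ^ 2))) t := by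
    have h1 := (hasDerivAt_const t al).div (h.dLL.const_mul s) (mul_ne_zero hs hL)
    refine h1.congr_deriv ?_
    field_simp
    ring
  have h1 := (h.du hd hX hl).sub ((hb.mul (h.dBu hd hX hl)).smul h.dv)
  refine h1.congr_deriv ?_
  simp only [yy, gg, kelv_sub, kelv_smul, Pi.mul_apply]
  match_scalars <;> field_simp <;> ring

end

end Pool.Agent.Work.MP_b0497c_an.Unf.O
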