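import Pool.Agent.Work.MP_b0497c_an.Unf.ODefs
import Pool.Agent.Work.MP_b0497c_an.Unf.Conj

set_option autoImplicit false

/-!
# Kinematics of one level (OK.2, immediate consequences)

Consequences of `LevD.Flo`: derivatives of `Fi, n, xi, B, f, lam^al`, norm bounds, values at `t0`.
-/

open Set ContinuousLinearMap RealInnerProductSpace

namespace Pool.Agent.Work.MP_b0497c_an.Unf.O

open Forced.Ode (Op ro)
open K

/-- The adjoint as a real continuous linear map. -/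
noncomputable def adR : Op →L[ℝ] Op :=
  LinearMap.mkContinuous
    { toFun := fun A => adjoint A
      map_add' := fun A B => map_add _ A B
      map_smul' := fun c A => by simp } 1
    (fun A => by
      show ‖adjoint A‖ ≤ 1 * ‖A‖
      rw [LinearIsometryEquiv.norm_map, one_mul])

theorem adR_apply (A : Op) : adR A = adjoint A := rfl

theorem adj_le (A : Op) (x : E3) : ‖adjoint A x‖ ≤ ‖A‖ * ‖x‖ := by
  have h := (adjoint A).le_opNorm x
  rwa [LinearIsometryEquiv.norm_map] at h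

theorem adj_comp (A B : Op) (x : E3) : adjoint (A.comp B) x = adjoint B (adjoint A x) := by
  rw [adjoint_comp]
  rfl

theorem adj_id (x : E3) : adjoint (ContinuousLinearMap.id ℝ E3) x = x := by
  refine ext_inner_left ℝ fun y => ?_
  rw [adjoint_inner_right]
  rfl

theorem cx_eq_cr (x y : E3) : Fam.cx x y = cr x y := rfl

namespace LevD

namespace Flo

variable {D : LevD} {b' : ℝ}

theorem b0 (h : D.Flo b') : 0 < b' := by linarith [h.b_ge]

theorem a_pos (h : D.Flo b') : 0 < D.a := pow_pos h.h_pos 24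

theorem s_pos (h : D.Flo b') : 0 < D.s := lt_of_lt_of_le (by have := h.b0; positivity) h.s_ge

theorem c_pos (h : D.Flo b') : 0 < D.c := lt_of_lt_of_le (by have := h.b0; positivity) h.c_ge

theorem kap_pos (h : D.Flo b') : 0 < D.kap := by linarith [h.kap_ge]

theorem t0_mem (h : D.Flo b') : D.t0 ∈ Icc 0 D.T := ⟨h.t0_pos.le, h.t0_lt.le⟩

theorem T_pos (h : D.Flo b') : 0 < D.T := h.t0_pos.trans h.t0_lt

theorem FFi_apply (h : D.Flo b') (t : ℝ) (x : E3) : D.F t (D.Fi t x) = x :=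
  congrArg (fun L : Op => L x) (h.FFi t)

theorem FiF_apply (h : D.Flo b') (t : ℝ) (x : E3) : D.Fi t (D.F t x) = x :=
  congrArg (fun L : Op => L x) (h.FiF t)

theorem Fi_der (h : D.Flo b') (t : ℝ) : HasDerivAt D.Fi (-((D.Fi t).comp (D.A t))) t := by
  let u : (E3 →L[ℝ] E3)ˣ := ⟨D.F t, D.Fi t, h.FFi t, h.FiF t⟩
  have h1 : HasFDerivAt Ring.inverse _ (D.F t) := hasFDerivAt_ringInverse (𝕜 := ℝ) u
  have h2 := h1.comp_hasDerivAt t (h.F_der t)
  have h3 : (Ring.inverse ∘ D.F) = D.Fi := by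
    funext s
    let us : (E3 →L[ℝ] E3)ˣ := ⟨D.F s, D.Fi s, h.FFi s, h.FiF s⟩
    exact Ring.inverse_unit us
  rw [h3] at h2
  refine h2.congr_deriv ?_
  show -((D.Fi t).comp (((D.A t).comp (D.F t)).comp (D.Fi t))) = _
  ext1 x
  simp [h.FFi_apply]

/-- covectors -/
theorem covec_der (h : D.Flo b') (K : E3) (t : ℝ) :
    HasDerivAt (fun t => adjoint (D.Fi t) K) (-(adjoint (D.A t) (adjoint (D.Fi t) K))) t := by
  have h1 : HasDerivAt (fun t => adR (D.Fi t)) (adR (-((D.Fi t).comp (D.A t)))) t :=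
    adR.hasFDerivAt.comp_hasDerivAt t (h.Fi_der t)
  have h2 := h1.clm_apply (hasDerivAt_const t K)
  refine h2.congr_deriv ?_
  simp only [adR_apply, map_neg, map_zero, add_zero, neg_apply]
  rw [adj_comp]

theorem n_der (h : D.Flo b') (t : ℝ) : HasDerivAt D.n (-(adjoint (D.A t) (D.n t))) t :=
  h.covec_der D.l t

theorem xi_der (h : D.Flo b') (t : ℝ) : HasDerivAt D.xi (-(adjoint (D.A t) (D.xi t))) t :=
  h.covec_der D.K0 t

theorem adF_adFi (h : D.Flo b') (t : ℝ) (x : E3) : adjoint (D.F t) (adjoint (D.Fi t) x) = x := by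
  rw [← adj_comp, h.FiF, adj_id]

theorem adFi_adF (h : D.Flo b') (t : ℝ) (x : E3) : adjoint (D.Fi t) (adjoint (D.F t) x) = x := by
  rw [← adj_comp, h.FFi, adj_id]

/-! ### The frame at `t0` -/

theorem e2_norm (h : D.Flo b') : ‖D.e2‖ = 1 := h.n_one

theorem e1_norm (h : D.Flo b') : ‖D.e1‖ = 1 := by
  have := h.a_pos
  rw [e1, norm_smul, h.v_a, Real.norm_eq_abs, abs_of_pos (inv_pos.2 this)]
  field_simp

theorem e2_e1 (h : D.Flo b') : ⟪D.e2, D.e1⟫ = 0 := by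
  rw [e1, e2, inner_smul_right, h.v_orth, mul_zero]

theorem e1_e2 (h : D.Flo b') : ⟪D.e1, D.e2⟫ = 0 := by rw [real_inner_comm, h.e2_e1]

theorem e1_e3 (_h : D.Flo b') : ⟪D.e1, D.e3⟫ = 0 := Fam.inner_cx_left _ _

theorem e2_e3 (_h : D.Flo b') : ⟪D.e2, D.e3⟫ = 0 := Fam.inner_cx_right _ _

theorem e3_norm (h : D.Flo b') : ‖D.e3‖ = 1 := by
  rw [e3, cx_eq_cr, norm_cr_of_orth h.e1_e2, h.e1_norm, h.e2_norm, mul_one]

theorem v_t0 (h : D.Flo b') : D.v D.t0 = D.a • D.e1 := by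
  have := h.a_pos
  rw [e1, smul_smul, mul_inv_cancel₀ this.ne', one_smul]

theorem n_t0 (_h : D.Flo b') : D.n D.t0 = D.e2 := rfl

theorem xi_t0 (h : D.Flo b') : D.xi D.t0 = D.e3 := h.adFi_adF _ _

theorem B_t0 (h : D.Flo b') : D.B D.t0 = D.e1 := by
  rw [B, h.xi_t0, n_t0 h, e3, Fam.cx_cx, real_inner_self_eq_norm_sq, h.e2_norm, h.e2_e1]
  simp

theorem f_t0 (h : D.Flo b') : D.f D.t0 = D.a := by
  rw [f, h.B_t0, h.v_t0, real_inner_smul_left, real_inner_self_eq_norm_sq, h.e1_norm]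
  ring

theorem phi_t0 (h : D.Flo b') : D.fam.phi D.t0 = 0 := by
  show ⟪D.xi D.t0, D.v D.t0⟫ = 0
  rw [h.xi_t0, h.v_t0, inner_smul_right, real_inner_comm, h.e1_e3, mul_zero]

/-! ### Orthogonality and the vorticity law -/

theorem nB (_h : D.Flo b') (t : ℝ) : ⟪D.n t, D.B t⟫ = 0 := Fam.inner_cx_left _ _

theorem xiB (_h : D.Flo b') (t : ℝ) : ⟪D.xi t, D.B t⟫ = 0 := Fam.inner_cx_right _ _

theorem B_der (h : D.Flo b') (t : ℝ) : HasDerivAt D.B (D.A t (D.B t)) t := by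
  have h1 := cr_deriv (h.n_der t) (h.xi_der t)
  have h2 := adj_cr (D.A t) (D.n t) (D.xi t)
  rw [h.A_tr, zero_smul, zero_sub] at h2
  refine h1.congr_deriv ?_
  rw [cr_neg_left, cr_neg_right]
  unfold B
  rw [cx_eq_cr, ← neg_eq_iff_eq_neg.2 h2]
  abel

/-- `s = - curl A · n` -/
theorem s_eq (h : D.Flo b') {t : ℝ} (ht : t ∈ Icc 0 D.T) : D.s = -⟪axial (D.A t), D.n t⟫ := by
  rw [h.VL t ht, n, adjoint_inner_right, h.FiF_apply]
  rfl

/-- covectors have a constant product with the curl -/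
theorem curl_covec (h : D.Flo b') {t : ℝ} (ht : t ∈ Icc 0 D.T) (K : E3) :
    ⟪axial (D.A t), adjoint (D.Fi t) K⟫ = ⟪D.Om, K⟫ := by
  rw [h.VL t ht, adjoint_inner_right, h.FiF_apply]

/-! ### Bounds -/

theorem F_b (h : D.Flo b') {t : ℝ} (ht : t ∈ Icc 0 D.T) (x : E3) : ‖D.F t x‖ ≤ b' * ‖x‖ :=
  ((D.F t).le_opNorm x).trans (mul_le_mul_of_nonneg_right (h.F_le t ht).1 (norm_nonneg _))

theorem Fi_b (h : D.Flo b') {t : ℝ} (ht : t ∈ Icc 0 D.T) (x : E3) : ‖D.Fi t x‖ ≤ b' * ‖x‖ :=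
  ((D.Fi t).le_opNorm x).trans (mul_le_mul_of_nonneg_right (h.F_le t ht).2 (norm_nonneg _))

theorem adF_b (h : D.Flo b') {t : ℝ} (ht : t ∈ Icc 0 D.T) (x : E3) :
    ‖adjoint (D.F t) x‖ ≤ b' * ‖x‖ :=
  (adj_le _ _).trans (mul_le_mul_of_nonneg_right (h.F_le t ht).1 (norm_nonneg _))

theorem adFi_b (h : D.Flo b') {t : ℝ} (ht : t ∈ Icc 0 D.T) (x : E3) :
    ‖adjoint (D.Fi t) x‖ ≤ b' * ‖x‖ :=
  (adj_le _ _).trans (mul_le_mul_of_nonneg_right (h.F_le t ht).2 (norm_nonneg _))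

theorem A_b (h : D.Flo b') (t : ℝ) (x : E3) : ‖D.A t x‖ ≤ b' * ‖x‖ :=
  ((D.A t).le_opNorm x).trans (mul_le_mul_of_nonneg_right (h.A_le t) (norm_nonneg _))

theorem adA_b (h : D.Flo b') (t : ℝ) (x : E3) : ‖adjoint (D.A t) x‖ ≤ b' * ‖x‖ :=
  (adj_le _ _).trans (mul_le_mul_of_nonneg_right (h.A_le t) (norm_nonneg _))

theorem l_le (h : D.Flo b') : ‖D.l‖ ≤ b' := by
  have h1 := h.adF_b h.t0_mem (D.n D.t0)
  rw [n, h.adF_adFi] at h1
  have h2 := h.n_one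
  rw [n] at h2
  rwa [h2, mul_one] at h1

theorem l_ge (h : D.Flo b') : 1 ≤ b' * ‖D.l‖ := by
  have h1 := h.adFi_b h.t0_mem D.l
  have h2 := h.n_one
  rw [n] at h2
  rwa [h2] at h1

theorem n_le (h : D.Flo b') {t : ℝ} (ht : t ∈ Icc 0 D.T) : ‖D.n t‖ ≤ b' ^ 2 := by
  have := h.b0
  calc ‖D.n t‖ ≤ b' * ‖D.l‖ := h.adFi_b ht _
    _ ≤ b' * b' := by gcongr; exact h.l_le
    _ = b' ^ 2 := by ring

theorem n_ge (h : D.Flo b') {t : ℝ} (ht : t ∈ Icc 0 D.T) : 1 ≤ b' ^ 2 * ‖D.n t‖ := by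
  have := h.b0
  have h1 := h.adF_b ht (D.n t)
  rw [n, h.adF_adFi] at h1
  calc 1 ≤ b' * ‖D.l‖ := h.l_ge
    _ ≤ b' * (b' * ‖D.n t‖) := by gcongr; exact h1
    _ = b' ^ 2 * ‖D.n t‖ := by ring

theorem n_ne (h : D.Flo b') {t : ℝ} (ht : t ∈ Icc 0 D.T) : D.n t ≠ 0 := by
  intro h0
  have h1 := h.n_ge ht
  rw [h0, norm_zero, mul_zero] at h1
  linarith

theorem K0_le (h : D.Flo b') : ‖D.K0‖ ≤ b' := by
  have h1 := h.adF_b h.t0_mem D.e3
  rwa [h.e3_norm, mul_one] at h1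

theorem K0_ge (h : D.Flo b') : 1 ≤ b' * ‖D.K0‖ := by
  have h1 := h.adFi_b h.t0_mem D.K0
  have h2 : adjoint (D.Fi D.t0) D.K0 = D.e3 := h.xi_t0
  rwa [h2, h.e3_norm] at h1

theorem xi_le (h : D.Flo b') {t : ℝ} (ht : t ∈ Icc 0 D.T) : ‖D.xi t‖ ≤ b' ^ 2 := by
  have := h.b0
  calc ‖D.xi t‖ ≤ b' * ‖D.K0‖ := h.adFi_b ht _
    _ ≤ b' * b' := by gcongr; exact h.K0_le
    _ = b' ^ 2 := by ring

theorem xi_ge (h : D.Flo b') {t : ℝ} (ht : t ∈ Icc 0 D.T) : 1 ≤ b' ^ 2 * ‖D.xi t‖ := by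
  have := h.b0
  have h1 := h.adF_b ht (D.xi t)
  rw [xi, h.adF_adFi] at h1
  calc 1 ≤ b' * ‖D.K0‖ := h.K0_ge
    _ ≤ b' * (b' * ‖D.xi t‖) := by gcongr; exact h1
    _ = b' ^ 2 * ‖D.xi t‖ := by ring

/-- `B` is transported -/
theorem B_eq (h : D.Flo b') (t : ℝ) : D.B t = D.F t (D.Fi D.t0 D.e1) := by
  have hd : ∀ r, HasDerivAt (fun r => D.Fi r (D.B r)) 0 r := by
    intro r
    have h1 := (h.Fi_der r).clm_apply (h.B_der r)
    refine h1.congr_deriv ?_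
    simp
  have hc := is_const_of_deriv_eq_zero (f := fun r => D.Fi r (D.B r))
    (fun r => (hd r).differentiableAt) (fun r => (hd r).deriv) t D.t0
  rw [h.B_t0] at hc
  rw [← hc, h.FFi_apply]

theorem B_le (h : D.Flo b') {t : ℝ} (ht : t ∈ Icc 0 D.T) : ‖D.B t‖ ≤ b' ^ 2 := by
  have := h.b0
  rw [h.B_eq]
  calc ‖D.F t (D.Fi D.t0 D.e1)‖ ≤ b' * ‖D.Fi D.t0 D.e1‖ := h.F_b ht _
    _ ≤ b' * (b' * ‖D.e1‖) := by gcongr; exact h.Fi_b h.t0_mem _
    _ = b' ^ 2 := by rw [h.e1_norm]; ring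

theorem B_ge (h : D.Flo b') {t : ℝ} (ht : t ∈ Icc 0 D.T) : 1 ≤ b' ^ 2 * ‖D.B t‖ := by
  have := h.b0
  have h1 : D.e1 = D.F D.t0 (D.Fi t (D.B t)) := by
    rw [h.B_eq t, h.FiF_apply, h.FFi_apply]
  calc 1 = ‖D.e1‖ := h.e1_norm.symm
    _ = ‖D.F D.t0 (D.Fi t (D.B t))‖ := by rw [← h1]
    _ ≤ b' * ‖D.Fi t (D.B t)‖ := h.F_b h.t0_mem _
    _ ≤ b' * (b' * ‖D.B t‖) := by gcongr; exact h.Fi_b ht _
    _ = b' ^ 2 * ‖D.B t‖ := by ring

theorem B_ne (h : D.Flo b') {t : ℝ} (ht : t ∈ Icc 0 D.T) : D.B t ≠ 0 := by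
  intro h0
  have h1 := h.B_ge ht
  rw [h0, norm_zero, mul_zero] at h1
  linarith

/-! ### The functions `f`, `g`, `lam^al` -/

theorem v_der' (h : D.Flo b') (t : ℝ) : HasDerivAt D.v (kelv (D.A t) (D.n t) (D.v t)) t := by
  refine (h.v_der t).congr_deriv ?_
  rw [kel_apply, kelv]
  congr 2
  rw [div_eq_mul_inv]
  ring

theorem cj0 (h : D.Flo b') {t : ℝ} (ht : t ∈ Icc 0 D.T) :
    CJ D.A D.n D.v D.xi (fun _ => 0) 0 D.s t where
  dn := h.n_der t
  dv := h.v_der' t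
  dξ := h.xi_der t
  dlam := by
    rw [zero_mul, neg_zero]
    exact hasDerivAt_const t 0
  nv := h.v_orth t
  n0 := h.n_ne ht
  trA := h.A_tr t
  hs := h.s_eq ht
  s0 := h.s_pos.ne'

theorem f_der (h : D.Flo b') {t : ℝ} (ht : t ∈ Icc 0 D.T) :
    HasDerivAt D.f (D.s * D.fam.phi t) t := (h.cj0 ht).df

theorem g_der (h : D.Flo b') {t : ℝ} (ht : t ∈ Icc 0 D.T) :
    HasDerivAt D.g (-(D.fam.phi t)) t := by
  have h1 := ((h.f_der ht).const_sub D.a).div_const D.s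
  refine h1.congr_deriv ?_
  have := h.s_pos
  field_simp

theorem lam1_der (h : D.Flo b') {t : ℝ} (ht : t ∈ Icc 0 D.T) :
    HasDerivAt D.lam1 (-(D.fam.phi t)) t := by
  have h1 := (((h.f_der ht).sub_const (D.f 0)).div_const D.s).const_sub D.X
  refine h1.congr_deriv ?_
  have := h.s_pos
  field_simp

theorem lam_der (h : D.Flo b') (al : ℝ) {t : ℝ} (ht : t ∈ Icc 0 D.T) :
    HasDerivAt (D.fam.Sl al) (-(al * D.fam.phi t)) t := by
  have h1 := ((h.lam1_der ht).const_mul al).const_add ((1 - al) * D.X)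
  refine h1.congr_deriv ?_
  ring

theorem lam1_eq (D : LevD) (t : ℝ) : D.lam1 t = D.k0 + D.g t := by
  simp only [lam1, X, g]
  ring

theorem lam_eq (D : LevD) (al t : ℝ) : D.fam.Sl al t = D.X - al * (D.f t - D.f 0) / D.s := by
  simp only [FamD.Sl, fam, lam1]
  ring

theorem lam_eq' (D : LevD) (al t : ℝ) : D.fam.Sl al t = D.k0 + (1 - al) * D.g 0 + al * D.g t := by
  simp only [FamD.Sl, fam, lam1, X, g]
  ring

/-- the full set of identities -/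
theorem cj (h : D.Flo b') (al : ℝ) {t : ℝ} (ht : t ∈ Icc 0 D.T) :
    CJ D.A D.n D.v D.xi (D.fam.Sl al) al D.s t where
  dn := h.n_der t
  dv := h.v_der' t
  dξ := h.xi_der t
  dlam := h.lam_der al ht
  nv := h.v_orth t
  n0 := h.n_ne ht
  trA := h.A_tr t
  hs := h.s_eq ht
  s0 := h.s_pos.ne'

theorem ok (h : D.Flo b') : D.fam.Ok (Icc 0 D.T) where
  tr t _ := h.A_tr t
  kd t _ := h.n_der t
  Rd t _ := h.xi_der t
  vd t _ := h.v_der' t
  kv t _ := h.v_orth t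
  Sd t ht := h.lam1_der ht
  D0 t ht := by
    show Fam.cx (D.xi t) (D.n t) ≠ 0
    rw [Fam.cx_swap]
    exact neg_ne_zero.2 (h.B_ne ht)

theorem famD (D : LevD) (t : ℝ) : D.fam.D t = -D.B t := Fam.cx_swap (D.n t) (D.xi t)

/-- derivative of `phi` -/
theorem phi_der (h : D.Flo b') (t : ℝ) : HasDerivAt D.fam.phi (D.phi' t) t := by
  have h1 := (h.xi_der t).inner ℝ (h.v_der' t)
  refine h1.congr_deriv ?_
  rw [kelv, inner_add_right, inner_neg_right, inner_smul_right, inner_neg_left,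
    adjoint_inner_left, phi']
  ring

theorem phi'_eq (h : D.Flo b') {t : ℝ} (ht : t ∈ Icc 0 D.T) :
    D.phi' t = -2 * ⟪ξp D.n D.xi t, D.A t (D.v t)⟫ := by
  have hn : ‖D.n t‖ ^ 2 ≠ 0 := by
    have := h.n_ne ht
    positivity
  rw [phi', ξp, nu, inner_sub_left, real_inner_smul_left]
  field_simp
  ring

/-- bound of the derivative of `phi` -/
theorem phi'_le (h : D.Flo b') {t : ℝ} (ht : t ∈ Icc 0 D.T) {V : ℝ} (hv : ‖D.v t‖ ≤ V) :
    |D.phi' t| ≤ 2 * b' ^ 3 * V := by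
  have hb := h.b0
  rw [h.phi'_eq ht, abs_mul, abs_neg, abs_of_pos (two_pos : (0:ℝ) < 2)]
  have hξ : ‖ξp D.n D.xi t‖ ≤ b' ^ 2 := by
    have h1 : ξp D.n D.xi t = uu D.n D.xi t := by
      simp only [ξp, uu, nu, Unf.O.ze]
      rw [real_inner_comm (D.n t) (D.xi t)]
    have h2 : D.xi t = uu D.n D.xi t + ze D.n D.xi t • D.n t := by simp [uu]
    have h3 : ⟪uu D.n D.xi t, ze D.n D.xi t • D.n t⟫ = 0 := by
      rw [inner_smul_right, real_inner_comm, n_uu (h.n_ne ht), mul_zero]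
    have h4 : ‖D.xi t‖ ^ 2 = ‖uu D.n D.xi t‖ ^ 2 + ‖ze D.n D.xi t • D.n t‖ ^ 2 := by
      conv_lhs => rw [h2]
      rw [norm_add_sq_real, h3]
      ring
    have h5 : ‖uu D.n D.xi t‖ ^ 2 ≤ ‖D.xi t‖ ^ 2 := by
      rw [h4]
      exact le_add_of_nonneg_right (sq_nonneg _)
    rw [h1]
    exact ((sq_le_sq₀ (norm_nonneg _) (norm_nonneg _)).1 h5).trans (h.xi_le ht)
  calc 2 * |⟪ξp D.n D.xi t, D.A t (D.v t)⟫| ≤ 2 * (b' ^ 2 * (b' * V)) := by
        gcongr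
        refine (abs_real_inner_le_norm _ _).trans ?_
        gcongr
        refine (h.A_b t _).trans ?_
        gcongr
    _ = _ := by ring

/-- `|phi| ≤ 2 b⁴ a |t - t0|` if `|v| ≤ b a` -/
theorem phi_le (h : D.Flo b') (hv : ∀ t ∈ Icc 0 D.T, ‖D.v t‖ ≤ b' * D.a) {t : ℝ}
    (ht : t ∈ Icc 0 D.T) : |D.fam.phi t| ≤ 2 * b' ^ 4 * D.a * |t - D.t0| := by
  have h1 := (convex_Icc 0 D.T).norm_image_sub_le_of_norm_hasDerivWithin_le (f := D.fam.phi)
    (f' := D.phi') (C := 2 * b' ^ 4 * D.a) (x := D.t0) (y := t)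
    (fun x _ => (h.phi_der x).hasDerivWithinAt)
    (fun x hx => by
      rw [Real.norm_eq_abs]
      refine (h.phi'_le hx (hv x hx)).trans (le_of_eq ?_)
      ring) h.t0_mem ht
  rwa [h.phi_t0, sub_zero, Real.norm_eq_abs, Real.norm_eq_abs] at h1

/-! ### Continuity -/

theorem A_cont (h : D.Flo b') : Continuous D.A := by
  have h1 : LipschitzWith (Real.toNNReal b') D.A := by
    apply LipschitzWith.of_dist_le_mul
    intro t t'
    rw [dist_eq_norm, Real.dist_eq, Real.coe_toNNReal _ h.b0.le]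
    exact h.A_lip t t'
  exact h1.continuous

theorem n_cont (h : D.Flo b') : Continuous D.n :=
  continuous_iff_continuousAt.2 fun t => (h.n_der t).continuousAt

theorem xi_cont (h : D.Flo b') : Continuous D.xi :=
  continuous_iff_continuousAt.2 fun t => (h.xi_der t).continuousAt

theorem v_cont (h : D.Flo b') : Continuous D.v :=
  continuous_iff_continuousAt.2 fun t => (h.v_der t).continuousAt

theorem B_cont (h : D.Flo b') : Continuous D.B :=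
  continuous_iff_continuousAt.2 fun t => (h.B_der t).continuousAt

end Flo

end LevD

end Pool.Agent.Work.MP_b0497c_an.Unf.O
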