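import Pool.Agent.Work.MP_b0497c_an.Unf.OKin

set_option autoImplicit false

/-!
# Kinematics of one level: complements to `OKin`
-/

open Set ContinuousLinearMap RealInnerProductSpace

namespace Pool.Agent.Work.MP_b0497c_an.Unf.O

open Forced.Ode (Op ro)
open Fam K

namespace LevD

variable {D : LevD} {b' : ℝ}

theorem kel_eq (A : Op) (n x : E3) :
    kel A n x = -(A x) + (2 * ⟪n, A x⟫ / ‖n‖ ^ 2) • n := by
  rw [kel_apply]
  congr 2
  ring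

theorem fam_psi (t : ℝ) : D.fam.psi t = D.f t := by
  unfold FamD.psi f
  rw [Flo.famD, inner_neg_right, neg_neg]
  rfl

theorem fam_psi' : D.fam.psi = D.f := funext fam_psi

theorem e31 : ⟪D.e3, D.e1⟫ = 0 := by
  rw [real_inner_comm]
  exact inner_cx_left _ _

theorem e13 : ⟪D.e1, D.e3⟫ = 0 := inner_cx_left _ _

theorem e32 : ⟪D.e3, D.e2⟫ = 0 := by
  rw [real_inner_comm]
  exact inner_cx_right _ _

theorem e23 : ⟪D.e2, D.e3⟫ = 0 := inner_cx_right _ _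

theorem Flo.cx23 (h : D.Flo b') : cx D.e2 D.e3 = D.e1 := by
  unfold e3
  rw [cx_cx, real_inner_self_eq_norm_sq, h.e2_norm, h.e2_e1]
  simp

theorem Flo.cx13 (h : D.Flo b') : cx D.e1 D.e3 = -D.e2 := by
  unfold e3
  rw [cx_cx, real_inner_self_eq_norm_sq, h.e1_norm, h.e1_e2]
  simp

theorem Flo.ctau (h : D.Flo b') : ⟪D.e3, D.A D.t0 D.e1⟫ = D.c * D.kap := by
  unfold c
  have : D.kap ≠ 0 := by linarith [h.kap_ge]
  field_simp

theorem Flo.g_t0 (h : D.Flo b') : D.g D.t0 = 0 := by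
  unfold g
  rw [h.f_t0]
  simp

theorem Flo.lam1_t0 (h : D.Flo b') : D.lam1 D.t0 = D.k0 := by
  rw [Flo.lam1_eq, h.g_t0, add_zero]

theorem Sl_one (t : ℝ) : D.fam.Sl 1 t = D.lam1 t := by
  unfold FamD.Sl fam
  ring

theorem Sl_one' : D.fam.Sl 1 = D.lam1 := funext Sl_one

theorem Sl_sub (al t : ℝ) : D.fam.Sl al t = D.lam1 t + (1 - al) * ((D.f t - D.f 0) / D.s) := by
  rw [Flo.lam_eq]
  unfold lam1
  ring

/-- `B ≠ 0` at all times -/
theorem Flo.B_all (h : D.Flo b') (t : ℝ) : D.B t ≠ 0 := by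
  rw [h.B_eq]
  intro h3
  have h4 := congrArg (D.Fi t) h3
  rw [h.FiF_apply, map_zero] at h4
  have h5 := congrArg (D.F D.t0) h4
  rw [h.FFi_apply, map_zero] at h5
  have h6 := h.e1_norm
  rw [h5, norm_zero] at h6
  norm_num at h6

theorem Flo.D_all (h : D.Flo b') (t : ℝ) : D.fam.D t ≠ 0 := by
  rw [Flo.famD]
  exact neg_ne_zero.2 (h.B_all t)

theorem Flo.n_all (h : D.Flo b') (t : ℝ) : D.n t ≠ 0 := FamD.k0 (F := D.fam) (h.D_all t)

theorem Flo.K_all (h : D.Flo b') (al t : ℝ) : D.fam.K al t ≠ 0 :=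
  FamD.K0 (F := D.fam) (h.D_all t)

theorem Flo.fam_aa (h : D.Flo b') {t : ℝ} (ht : t ∈ Icc 0 D.T) : D.fam.aa t = D.s :=
  (h.s_eq ht).symm

/-- `ze` is the constant of (I4). -/
theorem Flo.Om_const (h : D.Flo b') (al : ℝ) {t : ℝ} (ht : t ∈ Icc 0 D.T) :
    D.fam.Om al t = D.a - (1 - al) * D.f 0 + D.s * D.k0 - ⟪D.Om, D.K0⟫ := by
  rw [FamD.Om_eq, h.fam_aa ht, fam_psi, Flo.lam_eq]
  have h1 : ⟪axial (D.fam.A t), D.fam.R t⟫ = ⟪D.Om, D.K0⟫ := by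
    show ⟪axial (D.A t), D.xi t⟫ = _
    unfold xi
    rw [h.VL t ht, adjoint_inner_right, h.FiF_apply]
  rw [h1]
  unfold X
  have := h.s_pos.ne'
  field_simp
  ring

/-- the vorticity at `t0` in the direction `e3` -/
theorem Flo.curl_le (h : D.Flo b') : |⟪D.Om, D.K0⟫| ≤ 2 * b' := by
  have h1 : ⟪D.Om, D.K0⟫ = ⟪axial (D.A D.t0), D.e3⟫ := by
    unfold K0
    rw [adjoint_inner_right, h.VL _ h.t0_mem]
  have h2 := skew (D.A D.t0) D.e1 D.e2
  have h3 : ⟪D.e2, cx (axial (D.A D.t0)) D.e1⟫ = ⟪axial (D.A D.t0), D.e3⟫ := by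
    rw [inner_cx_cyc]
    rfl
  rw [h1, ← h3, ← h2]
  have hA : ∀ x y : E3, ‖x‖ = 1 → ‖y‖ = 1 → |⟪x, D.A D.t0 y⟫| ≤ b' := by
    intro x y hx hy
    refine (abs_real_inner_le_norm _ _).trans ?_
    rw [hx, one_mul]
    have := h.A_b D.t0 y
    rwa [hy, mul_one] at this
  have h4 := hA D.e2 D.e1 h.e2_norm h.e1_norm
  have h5 := hA D.e1 D.e2 h.e1_norm h.e2_norm
  exact (abs_sub _ _).trans (by linarith)

end LevD

end Pool.Agent.Work.MP_b0497c_an.Unf.O
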