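import Pool.Agent.Work.MP_b0497c_an.Unf.ONext
import Pool.Agent.Work.MP_b0497c_an.Unf.OKin
import Pool.Agent.Work.MP_b0497c_an.Unf.KZ1
import Pool.Agent.Work.MP_b0497c_an.Unf.WinA

set_option autoImplicit false

/-!
# Block O: the weight of the next level (T6)
-/

open Set ContinuousLinearMap RealInnerProductSpace

namespace Pool.Agent.Work.MP_b0497c_an.Unf.O

open Forced.Ode (Op)
open Fam K

namespace LevD

variable {D : LevD}

/-! ### The weight -/

theorem HL.flo (h : D.HL) : D.Flo D.b := h.toKin.toFlo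

theorem HL.h_ge' (h : D.HL) : D.b ^ 200 ≤ D.h := h.toKin.h_ge

theorem HL.h_big (h : D.HL) : (10 : ℝ) ^ 200 ≤ D.h :=
  (pow_le_pow_left₀ (by norm_num) h.b_ge 200).trans h.h_ge'

theorem HL.h_one' (h : D.HL) : 1 ≤ D.h := le_trans (by norm_num) h.h_big

theorem HL.b_le_h (h : D.HL) : D.b ≤ D.h :=
  (le_self_pow₀ (by linarith [h.b_ge]) (by norm_num)).trans h.h_ge'

theorem HL.k0_pos' (h : D.HL) : 0 < D.k0 := lt_of_lt_of_le (by norm_num) h.toKin.k0_ge

namespace Cm

theorem At_der (h : D.HL) (t : ℝ) : HasDerivAt D.At (D.r / D.Lam t) t := by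
  have hc := h.flo.c_pos
  have hk := h.k0_pos'
  have ha := h.flo.a_pos
  have hkap := h.flo.kap_pos
  have hck : 0 < D.c * D.k0 := mul_pos hc hk
  have hs : 0 < Real.sqrt (D.c * D.k0) := Real.sqrt_pos.2 hck
  have hr : D.r ^ 2 = D.a * D.kap := Real.sq_sqrt (mul_pos ha hkap).le
  have hq : Real.sqrt (D.c / D.k0) ^ 2 = D.c / D.k0 := Real.sq_sqrt (div_pos hc hk).le
  have hq' : Real.sqrt (D.c / D.k0) = Real.sqrt (D.c * D.k0) / D.k0 := by
    rw [show D.c / D.k0 = (D.c * D.k0) / D.k0 ^ 2 by field_simp, Real.sqrt_div hck.le,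
      Real.sqrt_sq hk.le]
  have h1 : HasDerivAt (fun t => Real.sqrt (D.c / D.k0) * D.r * (t - D.t0))
      (Real.sqrt (D.c / D.k0) * D.r) t := by
    have := ((hasDerivAt_id t).sub_const D.t0).const_mul (Real.sqrt (D.c / D.k0) * D.r)
    simpa using this
  have h2 := (h1.arctan).div_const (Real.sqrt (D.c * D.k0))
  refine h2.congr_deriv ?_
  have hL : 0 < D.Lam t := by
    unfold Lam
    have : 0 ≤ D.a * D.c * D.kap * (t - D.t0) ^ 2 := by positivity
    linarith
  have h3 : 1 + (Real.sqrt (D.c / D.k0) * D.r * (t - D.t0)) ^ 2 = D.Lam t / D.k0 := by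
    rw [mul_pow, mul_pow, hq, hr]
    unfold Lam
    field_simp
  rw [h3, hq']
  field_simp

theorem sig_eq (D : LevD) (t : ℝ) : D.sig t = if t ≤ D.s0 then 0 else D.At t - D.At D.s0 := by
  unfold sig
  rfl

theorem r_pos (h : D.HL) : 0 < D.r := Real.sqrt_pos.2 (mul_pos h.flo.a_pos h.flo.kap_pos)

theorem Lam_ge (h : D.HL) (t : ℝ) : D.k0 ≤ D.Lam t := by
  unfold Lam
  have hc := h.flo.c_pos
  have ha := h.flo.a_pos
  have hkap := h.flo.kap_pos
  have : 0 ≤ D.a * D.c * D.kap * (t - D.t0) ^ 2 := by positivity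
  linarith

theorem r_le (h : D.HL) : D.r ≤ 2 * D.h ^ 12 := by
  unfold r
  apply Real.sqrt_le_iff.2
  refine ⟨by have := h.h_one'; positivity, ?_⟩
  have h1 := h.flo.kap_le
  have h2 : D.a = D.h ^ 24 := rfl
  rw [h2]
  have h3 : 0 < D.h ^ 24 := by rw [← h2]; exact h.flo.a_pos
  calc D.h ^ 24 * D.kap ≤ D.h ^ 24 * 4 := by
        apply mul_le_mul_of_nonneg_left _ h3.le; linarith
    _ = (2 * D.h ^ 12) ^ 2 := by ring

theorem At_mono (h : D.HL) : Monotone D.At := by
  refine monotone_of_hasDerivAt_nonneg (At_der h) fun t => ?_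
  exact div_nonneg (r_pos h).le (h.k0_pos'.le.trans (Lam_ge h t))

theorem At_lip (h : D.HL) {s t : ℝ} (hst : s ≤ t) : D.At t - D.At s ≤ D.h ^ 12 * (t - s) := by
  have h1 : ∀ x, HasDerivAt (fun x => D.h ^ 12 * x - D.At x) (D.h ^ 12 - D.r / D.Lam x) x := by
    intro x
    have h0 : HasDerivAt (fun x : ℝ => D.h ^ 12 * x) (D.h ^ 12) x := by
      simpa using (hasDerivAt_id x).const_mul (D.h ^ 12)
    exact h0.fun_sub (At_der h x)
  have h2 : Monotone fun x => D.h ^ 12 * x - D.At x := by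
    refine monotone_of_hasDerivAt_nonneg h1 fun x => ?_
    have h3 : D.r / D.Lam x ≤ D.h ^ 12 := by
      rw [div_le_iff₀ (h.k0_pos'.trans_le (Lam_ge h x))]
      have h4 := r_le h
      have h5 : (2 : ℝ) ≤ D.Lam x := le_trans (le_trans (by norm_num) h.toKin.k0_ge) (Lam_ge h x)
      have h6 : 0 ≤ D.h ^ 12 := by have := h.h_one'; positivity
      nlinarith
    simpa using h3
  have := h2 hst
  simp only at this
  linarith

theorem sig_mono (h : D.HL) : Monotone D.sig := by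
  intro s t hst
  rw [sig_eq, sig_eq]
  split_ifs with h1 h2 h2
  · exact le_rfl
  · push Not at h2
    have := At_mono h h2.le
    linarith
  · exact absurd (hst.trans h2) h1
  · have := At_mono h hst
    linarith

theorem sig_nonneg (h : D.HL) (t : ℝ) : 0 ≤ D.sig t := by
  rw [sig_eq]
  split_ifs with h1
  · exact le_rfl
  · push Not at h1
    have := At_mono h h1.le
    linarith

theorem sig_lip (h : D.HL) {s t : ℝ} (hst : s ≤ t) : D.sig t - D.sig s ≤ D.h ^ 12 * (t - s) := by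
  have h0 : 0 ≤ D.h ^ 12 := by have := h.h_one'; positivity
  rw [sig_eq, sig_eq]
  split_ifs with h1 h2 h2
  · have := mul_nonneg h0 (sub_nonneg.2 hst); linarith
  · exact absurd (hst.trans h1) h2
  · push Not at h1
    have h3 := At_lip h h1.le
    have h4 : D.h ^ 12 * (t - D.s0) ≤ D.h ^ 12 * (t - s) := by
      apply mul_le_mul_of_nonneg_left _ h0; linarith
    linarith
  · have := At_lip h hst
    linarith

theorem alp_pos (h : D.HL) {t : ℝ} (ht : t ∈ Icc 0 D.T) : 0 < D.alp t :=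
  mul_pos (h.al_pos t ht) (Real.exp_pos _)

theorem alp_mono (h : D.HL) : MonotoneOn D.alp (Icc 0 D.T) := by
  intro s hs t ht hst
  unfold alp
  apply mul_le_mul (h.al_mono hs ht hst) _ (Real.exp_pos _).le (h.al_pos t ht).le
  apply Real.exp_le_exp.2
  exact mul_le_mul_of_nonneg_left (sig_mono h hst) (Real.sqrt_nonneg _)

theorem alp_lip (h : D.HL) {s t : ℝ} (hs : s ∈ Icc 0 D.T) (ht : t ∈ Icc s D.T) :
    D.alp t ≤ D.alp s * Real.exp (D.h ^ 13 * (t - s)) := by
  have h1 := h.al_lip s hs t ht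
  have h2 := sig_lip h ht.1
  have hh := h.h_big
  have hh1 := h.h_one'
  have hs0 := h.al_pos s hs
  have h12 : 1 ≤ D.h ^ 12 := one_le_pow₀ hh1
  have hsq : Real.sqrt 2 ≤ 2 := by
    rw [Real.sqrt_le_left (by norm_num)]; norm_num
  have hsq0 := Real.sqrt_nonneg 2
  have h3 : D.b + 2 * D.h ^ 12 ≤ D.h ^ 13 := by
    have h4 : D.b ≤ D.h ^ 12 := h.b_le_h.trans (le_self_pow₀ hh1 (by norm_num))
    have h5 : (3 : ℝ) ≤ D.h := le_trans (by norm_num) hh
    calc D.b + 2 * D.h ^ 12 ≤ 3 * D.h ^ 12 := by linarith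
      _ ≤ D.h * D.h ^ 12 := by apply mul_le_mul_of_nonneg_right h5 (by linarith)
      _ = D.h ^ 13 := by ring
  have hts : 0 ≤ t - s := sub_nonneg.2 ht.1
  have h6 : Real.sqrt 2 * D.sig t ≤ Real.sqrt 2 * D.sig s + 2 * D.h ^ 12 * (t - s) := by
    have h7 : Real.sqrt 2 * (D.sig t - D.sig s) ≤ 2 * (D.h ^ 12 * (t - s)) :=
      mul_le_mul hsq h2 (sub_nonneg.2 (sig_mono h ht.1)) (by norm_num)
    linarith
  unfold alp
  calc D.al t * Real.exp (Real.sqrt 2 * D.sig t)
      ≤ (D.al s * Real.exp (D.b * (t - s))) *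
        Real.exp (Real.sqrt 2 * D.sig s + 2 * D.h ^ 12 * (t - s)) := by
        apply mul_le_mul h1 (Real.exp_le_exp.2 h6) (Real.exp_pos _).le (by positivity)
    _ = D.al s * Real.exp (Real.sqrt 2 * D.sig s) *
        Real.exp ((D.b + 2 * D.h ^ 12) * (t - s)) := by
        have e1 : Real.exp (Real.sqrt 2 * D.sig s + 2 * D.h ^ 12 * (t - s)) =
            Real.exp (Real.sqrt 2 * D.sig s) * Real.exp (2 * D.h ^ 12 * (t - s)) :=
          Real.exp_add _ _
        have e2 : Real.exp ((D.b + 2 * D.h ^ 12) * (t - s)) =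
            Real.exp (D.b * (t - s)) * Real.exp (2 * D.h ^ 12 * (t - s)) := by
          rw [← Real.exp_add]; congr 1; ring
        rw [e1, e2]; ring
    _ ≤ D.al s * Real.exp (Real.sqrt 2 * D.sig s) * Real.exp (D.h ^ 13 * (t - s)) := by
        apply mul_le_mul_of_nonneg_left _ (by positivity)
        apply Real.exp_le_exp.2
        exact mul_le_mul_of_nonneg_right h3 hts

theorem contOn_of_lip {x : ℝ → ℝ} {T K : ℝ} (hpos : ∀ t ∈ Icc 0 T, 0 < x t)
    (hm : MonotoneOn x (Icc 0 T))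
    (hl : ∀ s ∈ Icc 0 T, ∀ t ∈ Icc s T, x t ≤ x s * Real.exp (K * (t - s))) :
    ContinuousOn x (Icc 0 T) := by
  have hx : ∀ s ∈ Icc 0 T, ∀ t ∈ Icc 0 T, |x t - x s| ≤ x T * (Real.exp (|K| * |t - s|) - 1) := by
    have key : ∀ s ∈ Icc 0 T, ∀ t ∈ Icc s T, |x t - x s| ≤ x T * (Real.exp (|K| * |t - s|) - 1) := by
      intro s hs t ht
      have htT : t ∈ Icc 0 T := ⟨hs.1.trans ht.1, ht.2⟩
      have hTT : T ∈ Icc 0 T := ⟨hs.1.trans hs.2, le_rfl⟩
      have h1 := hm hs htT ht.1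
      have h2 := hl s hs t ht
      have h3 : K * (t - s) ≤ |K| * |t - s| := by
        rw [← abs_mul]; exact le_abs_self _
      have h4 := Real.exp_le_exp.2 h3
      have h5 : x s ≤ x T := hm hs hTT hs.2
      have h6 := hpos s hs
      have h7 : 1 ≤ Real.exp (|K| * |t - s|) := Real.one_le_exp (by positivity)
      rw [abs_of_nonneg (by linarith)]
      calc x t - x s ≤ x s * Real.exp (|K| * |t - s|) - x s := by
            have := mul_le_mul_of_nonneg_left h4 h6.le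
            linarith
        _ = x s * (Real.exp (|K| * |t - s|) - 1) := by ring
        _ ≤ x T * (Real.exp (|K| * |t - s|) - 1) := by
            apply mul_le_mul_of_nonneg_right h5; linarith
    intro s hs t ht
    rcases le_total s t with h | h
    · exact key s hs t ⟨h, ht.2⟩
    · rw [abs_sub_comm, abs_sub_comm t s]
      exact key t ht s ⟨h, hs.2⟩
  intro s hs
  have h1 : Filter.Tendsto (fun t => x T * (Real.exp (|K| * |t - s|) - 1)) (nhdsWithin s (Icc 0 T))
      (nhds 0) := by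
    have h2 : Continuous fun t => x T * (Real.exp (|K| * |t - s|) - 1) := by fun_prop
    have h3 := h2.continuousWithinAt (s := Icc 0 T) (x := s)
    have h4 : x T * (Real.exp (|K| * |s - s|) - 1) = 0 := by simp
    unfold ContinuousWithinAt at h3
    simp only [h4] at h3
    exact h3
  unfold ContinuousWithinAt
  rw [tendsto_iff_dist_tendsto_zero]
  refine squeeze_zero' (Filter.Eventually.of_forall fun t => dist_nonneg) ?_ h1
  filter_upwards [self_mem_nhdsWithin] with t ht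
  rw [Real.dist_eq]
  exact hx s hs t ht

theorem alp_cont (h : D.HL) : ContinuousOn D.alp (Icc 0 D.T) :=
  contOn_of_lip (fun t ht => alp_pos h ht) (alp_mono h) fun s hs t ht => alp_lip h hs ht

theorem th_pos (h : D.HL) : 0 < D.th := by
  unfold th
  apply Real.sqrt_pos.2
  have hc := h.flo.c_pos
  have ha := h.flo.a_pos
  have hkap := h.flo.kap_pos
  have : 0 < D.k2 := lt_of_lt_of_le (by norm_num) h.toKin.k2_ge
  positivity

theorem th_sq (h : D.HL) : D.th ^ 2 = D.k2 / (D.a * D.c * D.kap) := by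
  unfold th
  apply Real.sq_sqrt
  have hc := h.flo.c_pos
  have ha := h.flo.a_pos
  have hkap := h.flo.kap_pos
  have : 0 < D.k2 := lt_of_lt_of_le (by norm_num) h.toKin.k2_ge
  positivity

theorem t1_mem (h : D.HL) : D.t1 ∈ Icc 0 D.T := by
  have h1 := th_pos h
  have h2 := h.flo.t0_pos
  refine ⟨by unfold t1; linarith, ?_⟩
  rw [h.toKin.T_eq]
  unfold t1
  linarith

theorem t0_mem (h : D.HL) : D.t0 ∈ Icc 0 D.T := ⟨h.flo.t0_pos.le, h.flo.t0_lt.le⟩

theorem w_pos (h : D.HL) : 0 < D.w := inv_pos.2 (pow_pos h.flo.h_pos 7)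

theorem s0_lt (h : D.HL) : D.s0 < D.t0 :=
  max_lt h.flo.t0_pos (by linarith [w_pos h])

theorem At_t0 (D : LevD) : D.At D.t0 = 0 := by
  unfold At
  simp

theorem k2_k0 (h : D.HL) : 3 * D.k0 ≤ D.k2 := by
  have hc := h.flo.c_pos
  have h1 := h.toKin.ck0
  have h2 := h.toKin.ck2
  have h3 : D.c * (3 * D.k0) ≤ D.c * D.k2 := by
    have : (1 : ℝ) / 10 ^ 8 * 3 ≤ 10 ^ 4 := by norm_num
    linarith
  exact le_of_mul_le_mul_left h3 hc

theorem At_t1 (h : D.HL) : Real.pi / 3 / Real.sqrt (D.c * D.k0) ≤ D.At D.t1 := by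
  have hc := h.flo.c_pos
  have hk := h.k0_pos'
  have ha := h.flo.a_pos
  have hkap := h.flo.kap_pos
  have hk2 : 0 < D.k2 := lt_of_lt_of_le (by norm_num) h.toKin.k2_ge
  have hs : 0 < Real.sqrt (D.c * D.k0) := Real.sqrt_pos.2 (mul_pos hc hk)
  unfold At
  apply div_le_div_of_nonneg_right _ hs.le
  have h1 : Real.sqrt (D.c / D.k0) * D.r * (D.t1 - D.t0) = Real.sqrt (D.k2 / D.k0) := by
    have h2 : D.t1 - D.t0 = D.th := by unfold t1; ring
    rw [h2]
    unfold r th
    rw [← Real.sqrt_mul (div_pos hc hk).le, ← Real.sqrt_mul (by positivity)]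
    congr 1
    field_simp
  rw [h1, ← Real.arctan_sqrt_three]
  apply Real.arctan_le_arctan_iff.2
  apply Real.sqrt_le_sqrt
  rw [le_div_iff₀ hk]
  exact k2_k0 h

theorem sig_t1 (h : D.HL) : 7 / 5 / Real.sqrt (D.c * D.k0) ≤
    Real.sqrt 2 * (D.sig D.t1 - D.sig D.t0) := by
  have hc := h.flo.c_pos
  have hk := h.k0_pos'
  have hs : 0 < Real.sqrt (D.c * D.k0) := Real.sqrt_pos.2 (mul_pos hc hk)
  have h1 := At_t1 h
  have h2 := s0_lt h
  have h3 := th_pos h
  have h4 : D.sig D.t1 - D.sig D.t0 = D.At D.t1 := by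
    rw [sig_eq, sig_eq, if_neg (by unfold t1; linarith), if_neg (by linarith), At_t0]
    ring
  rw [h4]
  have h5 : (7 : ℝ) / 5 ≤ Real.sqrt 2 * (Real.pi / 3) := by
    have h6 : (1.41 : ℝ) ≤ Real.sqrt 2 := by
      apply Real.le_sqrt_of_sq_le; norm_num
    have h7 := Real.pi_gt_d2
    nlinarith
  calc 7 / 5 / Real.sqrt (D.c * D.k0) ≤ Real.sqrt 2 * (Real.pi / 3) / Real.sqrt (D.c * D.k0) :=
        div_le_div_of_nonneg_right h5 hs.le
    _ = Real.sqrt 2 * (Real.pi / 3 / Real.sqrt (D.c * D.k0)) := by ring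
    _ ≤ Real.sqrt 2 * D.At D.t1 := mul_le_mul_of_nonneg_left h1 (Real.sqrt_nonneg _)

theorem t0_le_t1 (h : D.HL) : D.t0 ≤ D.t1 := by
  unfold t1
  linarith [th_pos h]

theorem alp_t0 (h : D.HL) :
    D.alp D.t0 * Real.exp (7 / 5 / Real.sqrt (D.c * D.k0)) ≤ D.alp D.t1 := by
  have h1 := sig_t1 h
  have h2 := h.al_mono (t0_mem h) (t1_mem h) (t0_le_t1 h)
  have h3 := h.al_pos D.t0 (t0_mem h)
  unfold alp
  rw [mul_assoc, ← Real.exp_add]
  apply mul_le_mul h2 _ (Real.exp_pos _).le (h.al_pos D.t1 (t1_mem h)).le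
  apply Real.exp_le_exp.2
  linarith

end Cm

theorem t6 : T6 := fun _ h => ⟨fun _ ht => Cm.alp_pos h ht, Cm.alp_mono h,
  fun _ hs _ ht => Cm.alp_lip h hs ht, Cm.alp_t0 h⟩

end LevD

end Pool.Agent.Work.MP_b0497c_an.Unf.O
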