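import Pool.Agent.Work.MP_b0497c_an.Bd.B14
import Pool.Agent.Work.MP_b0497c_an.Unf.W17

set_option autoImplicit false

/-!
# C08: the scalar `|k|⁻²`
-/

open scoped ENNReal Topology
open Set MeasureTheory

namespace Pool.Agent.Work.MP_b0497c_an.Unf.S

open W

namespace C08

open P17 in
/-- Lipschitz dependence of the resolvent kernel. -/
theorem lipR (h10 : W10) (h11 : W11) (h16 : W16) (Γ : Type) [AddCommGroup Γ] [Len Γ]
    (Λ : AddSubgroup Γ) (c b e : ℝ) (F Fi F1 Fi1 : Γ → Mat) (ξ : Γ → C3)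
    (hF : FData Λ c b e F Fi) (hF1 : FData Λ c b e F1 Fi1) :
    sK (c / (2 * b ^ 2 * e ^ 2) / 2) (RK ξ Fi - RK ξ Fi1) ≤
      8 * ENNReal.ofReal b ^ 4 * ENNReal.ofReal e *
        eSL Λ (c / (2 * b ^ 2 * e ^ 2) / 2) ^ 2 * sN c (Fi - Fi1) := by
  have hb := hF.b_one
  have he := hF.e_one
  have hc := hF.c_pos
  set κ := c / (2 * b ^ 2 * e ^ 2) / 2 with hκ
  have hκ0 : 0 < κ := by positivity
  have hκc : κ ≤ c := by
    rw [hκ, div_div]
    apply div_le_self hc.le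
    have h1 : 1 ≤ b ^ 2 := one_le_pow₀ hb
    have h2 : 1 ≤ e ^ 2 := one_le_pow₀ he
    nlinarith
  set S := eSL Λ κ with hS
  have hS1 : 1 ≤ S := one_le_eSL Λ κ
  have hSt : S ≠ ∞ := hF.sum κ hκ0
  set B := ENNReal.ofReal b with hB
  set E := ENNReal.ofReal e with hE
  have hB1 : 1 ≤ B := by rw [hB, ← ENNReal.ofReal_one]; exact ENNReal.ofReal_le_ofReal hb
  have hE1 : 1 ≤ E := by rw [hE, ← ENNReal.ofReal_one]; exact ENNReal.ofReal_le_ofReal he
  have hBt : B ≠ ∞ := ENNReal.ofReal_ne_top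
  have hEt : E ≠ ∞ := ENNReal.ofReal_ne_top
  have hsNm : ∀ f : Γ → Mat, sN κ f ≤ sN c f := fun f =>
    ((h10 Γ Mat C3 C3 c hc.le).2.2.2.2.2.2.1 κ hκc).2 f
  have hmulK : ∀ a : Γ → Mat, sK κ (mulK a) = sN κ a := fun a =>
    (h10 Γ C3 C3 C3 κ hκ0.le).2.2.2.1 a
  set d := sN c (Fi - Fi1) with hd
  set M0 := mulK Fi with hM0
  set M1 := mulK Fi1 with hM1
  set N0 := mulK (adjC Fi) with hN0
  set N1 := mulK (adjC Fi1) with hN1
  set P := PK ξ with hP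
  set R0 := RK ξ Fi with hR0
  set R1 := RK ξ Fi1 with hR1
  obtain ⟨⟨p1, p2, p3, p4⟩, p5, p6, -⟩ := h16 Γ Λ c b e F Fi ξ hF
  obtain ⟨⟨q1, q2, q3, q4⟩, q5, q6, -⟩ := h16 Γ Λ c b e F1 Fi1 ξ hF1
  have hκ2 : c / (2 * b ^ 2 * e ^ 2) = 2 * κ := by rw [hκ]; ring
  rw [hκ2] at p5 q5
  -- norms
  have nM0 : sK κ M0 ≤ E := by rw [hM0, hmulK]; exact (hsNm _).trans hF.Fi_le
  have nM1 : sK κ M1 ≤ E := by rw [hM1, hmulK]; exact (hsNm _).trans hF1.Fi_le
  have nN0 : sK κ N0 ≤ E := by rw [hN0, hmulK, sN_adjC]; exact (hsNm _).trans hF.Fi_le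
  have nN1 : sK κ N1 ≤ E := by rw [hN1, hmulK, sN_adjC]; exact (hsNm _).trans hF1.Fi_le
  have nP : sK κ P ≤ 1 := (h10 Γ C3 C3 C3 κ hκ0.le).2.2.2.2.1 _ 1 fun m => norm_pr_le _
  have hBB : ENNReal.ofReal (2 * b ^ 2) = 2 * B ^ 2 := by
    rw [ENNReal.ofReal_mul (by norm_num), ENNReal.ofReal_pow (by linarith), ENNReal.ofReal_ofNat]
  have nR0 : sK κ R0 ≤ 2 * B ^ 2 * S := by
    rw [← hBB]
    exact sK_le_of_entries (by positivity) p5 fun m l h => (p6 m l h).1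
  have nR1 : sK κ R1 ≤ 2 * B ^ 2 * S := by
    rw [← hBB]
    exact sK_le_of_entries (by positivity) q5 fun m l h => (q6 m l h).1
  have nM : sK κ (M0 - M1) ≤ d := by
    rw [hM0, hM1, mulK_sub, hmulK]; exact hsNm _
  have nM' : sK κ (M1 - M0) ≤ d := by
    rw [hM0, hM1, mulK_sub, hmulK, sN_sub_comm]; exact hsNm _
  have nN : sK κ (N0 - N1) ≤ d := by
    rw [hN0, hN1, mulK_sub, hmulK, adjC_sub, sN_adjC]; exact hsNm _
  have nN' : sK κ (N1 - N0) ≤ d := by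
    rw [hN0, hN1, mulK_sub, hmulK, adjC_sub, sN_adjC, sN_sub_comm]; exact hsNm _
  have fin : ∀ {A : Ker Γ} {x : ℝ≥0∞}, sK κ A ≤ x → x ≠ ∞ → sK 0 A ≠ ∞ := fun h hx =>
    fin_of h10 hκ0.le (h.trans_lt (lt_top_iff_ne_top.2 hx)).ne
  have fM0 := fin nM0 hEt
  have fM1 := fin nM1 hEt
  have fN0 := fin nN0 hEt
  have fN1 := fin nN1 hEt
  have fP := fin nP ENNReal.one_ne_top
  have h2BS : 2 * B ^ 2 * S ≠ ∞ := by
    rw [← hBB]; exact ENNReal.mul_ne_top ENNReal.ofReal_ne_top hSt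
  have fR0 := fin nR0 h2BS
  have fR1 := fin nR1 h2BS
  have cl : ∀ {A C : Ker Γ}, sK 0 A ≠ ∞ → sK 0 C ≠ ∞ → sK 0 (kcomp A C) ≠ ∞ :=
    fun hA hC => fin_mul h10 hA hC
  have mk : ∀ {A C : Ker Γ} {x y : ℝ≥0∞}, sK κ A ≤ x → sK κ C ≤ y → sK κ (kcomp A C) ≤ x * y :=
    fun hA hC => (mul_le h10 hκ0.le _ _).trans (mul_le_mul' hA hC)
  -- difference of the `A`
  have fA0 : sK 0 (AK ξ Fi) ≠ ∞ := cl fP (cl fM0 (cl fN0 fP))
  have fA1 : sK 0 (AK ξ Fi1) ≠ ∞ := cl fP (cl fM1 (cl fN1 fP))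
  have dA : AK ξ Fi1 - AK ξ Fi =
      kcomp P (kcomp (M1 - M0) (kcomp N1 P) + kcomp M0 (kcomp (N1 - N0) P)) := by
    have e1 : kcomp (M1 - M0) (kcomp N1 P) = kcomp M1 (kcomp N1 P) - kcomp M0 (kcomp N1 P) :=
      sub_mul' h10 h11 fM1 fM0 (cl fN1 fP)
    have e2 : kcomp (N1 - N0) P = kcomp N1 P - kcomp N0 P := sub_mul' h10 h11 fN1 fN0 fP
    have e3 : kcomp M0 (kcomp N1 P - kcomp N0 P) =
        kcomp M0 (kcomp N1 P) - kcomp M0 (kcomp N0 P) :=
      mul_sub' h10 h11 fM0 (cl fN1 fP) (cl fN0 fP)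
    rw [e1, e2, e3, sub_add_sub_cancel,
      mul_sub' h10 h11 fP (cl fM1 (cl fN1 fP)) (cl fM0 (cl fN0 fP))]
    rfl
  have nA : sK κ (AK ξ Fi1 - AK ξ Fi) ≤ 2 * E * d := by
    rw [dA]
    refine (mk nP ((add_le h10 hκ0.le _ _).trans
      (add_le_add (mk nM' (mk nN1 nP)) (mk nM0 (mk nN' nP))))).trans (le_of_eq ?_)
    ring
  have fA : sK 0 (AK ξ Fi1 - AK ξ Fi) ≠ ∞ := fin_sub h10 fA1 fA0
  -- difference of the resolvents
  have dR : R0 - R1 = kcomp (kcomp R0 (AK ξ Fi1 - AK ξ Fi)) R1 := by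
    have e1 : kcomp (kcomp R0 (AK ξ Fi1)) R1 = R0 := by
      rw [assoc h11 fR0 fA1 fR1, q3, p2]
    have e2 : kcomp (kcomp R0 (AK ξ Fi)) R1 = R1 := by rw [p4, q1]
    rw [mul_sub' h10 h11 fR0 fA1 fA0, sub_mul' h10 h11 (cl fR0 fA1) (cl fR0 fA0) fR1, e1, e2]
  have nR : sK κ (R0 - R1) ≤ 8 * B ^ 4 * E * S ^ 2 * d := by
    rw [dR]
    refine (mk (mk nR0 nA) nR1).trans (le_of_eq ?_)
    ring
  exact nR

variable {E F G : Type} [NormedAddCommGroup E] [NormedSpace ℂ E] [NormedAddCommGroup F]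
  [NormedSpace ℂ F] [NormedAddCommGroup G] [NormedSpace ℂ G]

theorem row_le (A : Md → Md → (E →L[ℂ] F)) (m : Md) : ∑' l, ‖A m l‖ₑ ≤ sK 0 A := by
  have h0 : sK 0 A = ∑' k, ⨆ l, ‖A (l + k) l‖ₑ := by simp [sK]
  rw [h0, ← (Equiv.subLeft m).tsum_eq]
  refine ENNReal.tsum_le_tsum fun k => ?_
  refine le_trans (le_of_eq ?_) (le_iSup (fun l => ‖A (l + k) l‖ₑ) (m - k))
  simp [Equiv.subLeft]

theorem entry_le (A : Md → Md → (E →L[ℂ] F)) (m l : Md) : ‖A m l‖ₑ ≤ sK 0 A :=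
  (ENNReal.le_tsum (f := fun l => ‖A m l‖ₑ) l).trans (row_le A m)

theorem summable_comp [CompleteSpace G] {A : Md → Md → (F →L[ℂ] G)} {B : Md → Md → (E →L[ℂ] F)}
    (hA : sK 0 A ≠ ∞) (hB : sK 0 B ≠ ∞) (m l : Md) : Summable fun j => (A m j).comp (B j l) := by
  refine Summable.of_enorm (ne_top_of_le_ne_top (ENNReal.mul_ne_top hA hB) ?_)
  calc ∑' j, ‖(A m j).comp (B j l)‖ₑ ≤ ∑' j, ‖A m j‖ₑ * sK 0 B := by
        refine ENNReal.tsum_le_tsum fun j => ?_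
        refine le_trans ?_ (mul_le_mul' le_rfl (entry_le B j l))
        rw [← ofReal_norm, ← ofReal_norm, ← ofReal_norm, ← ENNReal.ofReal_mul (norm_nonneg _)]
        exact ENNReal.ofReal_le_ofReal ((A m j).opNorm_comp_le (B j l))
    _ = (∑' j, ‖A m j‖ₑ) * sK 0 B := ENNReal.tsum_mul_right
    _ ≤ _ := mul_le_mul' (row_le A m) le_rfl

theorem summable_act [CompleteSpace F] {A : Md → Md → (E →L[ℂ] F)} {f : Md → E} {M : ℝ≥0∞}
    (hA : sK 0 A ≠ ∞) (hM : M ≠ ∞) (hf : ∀ m, ‖f m‖ₑ ≤ M) (m : Md) :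
    Summable fun l => A m l (f l) := by
  refine Summable.of_enorm (ne_top_of_le_ne_top (ENNReal.mul_ne_top hA hM) ?_)
  calc ∑' l, ‖A m l (f l)‖ₑ ≤ ∑' l, ‖A m l‖ₑ * M :=
        ENNReal.tsum_le_tsum fun l => ((A m l).le_opENorm _).trans (mul_le_mul' le_rfl (hf l))
    _ = (∑' l, ‖A m l‖ₑ) * M := ENNReal.tsum_mul_right
    _ ≤ _ := mul_le_mul' (row_le A m) le_rfl

theorem kcomp_diag (A : Md → Md → (E →L[ℂ] F)) (p : Md → (E →L[ℂ] E)) (m l : Md) :
    kcomp A (diagK p) m l = (A m l).comp (p l) := by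
  classical
  show ∑' j, (A m j).comp (diagK p j l) = _
  rw [tsum_eq_single l]
  · simp [diagK]
  · intro j hj
    simp [diagK, hj]

theorem diag_kcomp (A : Md → Md → (E →L[ℂ] F)) (p : Md → (F →L[ℂ] G)) (m l : Md) :
    kcomp (diagK p) A m l = (p m).comp (A m l) := by
  classical
  show ∑' j, (diagK p m j).comp (A j l) = _
  rw [tsum_eq_single m]
  · simp [diagK]
  · intro j hj
    simp [diagK, Ne.symm hj]

theorem pr_apply (v w : C3) : pr v w = ((‖v‖ : ℂ) ^ 2)⁻¹ • (inner ℂ v w • v) := by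
  simp [pr]

theorem pr_self {K : C3} (hK : K ≠ 0) : pr K K = K := by
  have h1 : (‖K‖ : ℂ) ≠ 0 := by simpa using hK
  rw [pr_apply, inner_self_eq_norm_sq_to_K, smul_smul]
  simp only [Complex.coe_algebraMap]
  rw [inv_mul_cancel₀ (pow_ne_zero 2 h1), one_smul]

/-- the coefficients of `|k|⁻²` -/
noncomputable def sc (K : C3) (Fi : Md → Mat) (q : Md) : ℂ :=
  inner ℂ K (RK (fun _ : Md => K) Fi q 0 K) / (‖K‖ : ℂ) ^ 4

section static

variable (h10 : W10) (h11 : W11) (h16 : W16) {n : ℕ} {c b e : ℝ} {K : C3} (hK : K ≠ 0)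
  {F Fi : Md → Mat} (hF : FData (lev n) c b e F Fi)

include h16 hK hF

theorem sc_le (q : Md) : ‖sc K Fi q‖ ≤
    2 * b ^ 2 / ‖K‖ ^ 2 * Real.exp (-(c / (2 * b ^ 2 * e ^ 2)) * len q) := by
  obtain ⟨-, h5, -⟩ := h16 Md (lev n) c b e F Fi (fun _ => K) hF
  have hK0 : 0 < ‖K‖ := norm_pos_iff.2 hK
  have h1 := h5 q 0
  rw [sub_zero] at h1
  set R := RK (fun _ : Md => K) Fi q 0 with hR
  have h2 : ‖inner ℂ K (R K)‖ ≤ ‖K‖ * (‖R‖ * ‖K‖) :=
    (norm_inner_le_norm _ _).trans (mul_le_mul_of_nonneg_left (R.le_opNorm K) hK0.le)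
  unfold sc
  rw [norm_div, norm_pow, Complex.norm_real, norm_norm]
  rw [div_le_iff₀ (by positivity)]
  calc ‖inner ℂ K (R K)‖ ≤ ‖K‖ * (‖R‖ * ‖K‖) := h2
    _ ≤ ‖K‖ * ((2 * b ^ 2 * Real.exp (-(c / (2 * b ^ 2 * e ^ 2)) * len q)) * ‖K‖) := by
        gcongr
    _ = _ := by
        field_simp

theorem sc_supp (q : Md) (hq : q ∉ lev n) : sc K Fi q = 0 := by
  obtain ⟨-, -, h6, -⟩ := h16 Md (lev n) c b e F Fi (fun _ => K) hF
  have h1 := (h6 q 0 (by rwa [sub_zero])).1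
  unfold sc
  rw [h1]
  simp

theorem fin_R : sK 0 (RK (fun _ : Md => K) Fi) ≠ ∞ := by
  obtain ⟨-, h5, h6, -⟩ := h16 Md (lev n) c b e F Fi (fun _ => K) hF
  have hb := hF.b_one
  have he := hF.e_one
  have hc := hF.c_pos
  have hκ : 0 < c / (2 * b ^ 2 * e ^ 2) := by positivity
  have h1 : sK 0 (RK (fun _ : Md => K) Fi) ≤
      ENNReal.ofReal (2 * b ^ 2) * eSL (lev n) (c / (2 * b ^ 2 * e ^ 2)) := by
    have h0 : sK 0 (RK (fun _ : Md => K) Fi) =
        ∑' k, ⨆ l, ‖RK (fun _ : Md => K) Fi (l + k) l‖ₑ := by simp [sK]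
    have h2 : eSL (lev n) (c / (2 * b ^ 2 * e ^ 2)) =
        ∑' k : Md, ((lev n : AddSubgroup Md) : Set Md).indicator
          (fun k => ENNReal.ofReal (Real.exp (-(c / (2 * b ^ 2 * e ^ 2)) * len k))) k := by
      rw [← tsum_subtype]; rfl
    rw [h0, h2, ← ENNReal.tsum_mul_left]
    refine ENNReal.tsum_le_tsum (fun k => ?_)
    by_cases hk : k ∈ lev n
    · rw [Set.indicator_of_mem (show k ∈ ((lev n : AddSubgroup Md) : Set Md) from hk)]
      refine iSup_le (fun l => ?_)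
      rw [← ENNReal.ofReal_mul (by positivity), ← ofReal_norm]
      apply ENNReal.ofReal_le_ofReal
      have := h5 (l + k) l
      rwa [add_sub_cancel_left] at this
    · have h3 : (⨆ l, ‖RK (fun _ : Md => K) Fi (l + k) l‖ₑ) = 0 := by
        rw [ENNReal.iSup_eq_zero]
        intro l
        rw [(h6 (l + k) l (by rwa [add_sub_cancel_left])).1, ← ofReal_norm, norm_zero,
          ENNReal.ofReal_zero]
      rw [h3]
      exact bot_le
  exact ne_top_of_le_ne_top (ENNReal.mul_ne_top ENNReal.ofReal_ne_top (hF.sum _ hκ)) h1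

include h10 h11

omit h16 hK in
theorem fin_Fi : sN 0 Fi ≠ ∞ := by
  obtain ⟨_, _, _, _, _, _, k7, _⟩ := h10 Md Mat Mat Mat c hF.c_pos.le
  exact ne_top_of_le_ne_top ENNReal.ofReal_ne_top (((k7 0 hF.c_pos.le).2 Fi).trans hF.Fi_le)

omit h16 hK h10 h11 hF in
theorem sN_rw (K : C3) (Fi : Md → Mat) : sN 0 (rwF K Fi) ≤ ‖K‖ₑ * sN 0 Fi := by
  simp only [sN, zero_mul, Real.exp_zero, ENNReal.ofReal_one, one_mul]
  rw [← ENNReal.tsum_mul_left]
  refine ENNReal.tsum_le_tsum (fun q => ?_)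
  rw [← ofReal_norm, ← ofReal_norm, ← ofReal_norm, ← ENNReal.ofReal_mul (norm_nonneg _)]
  refine ENNReal.ofReal_le_ofReal ?_
  refine ((innerSL ℂ K).opNorm_comp_le (Fi q)).trans (le_of_eq ?_)
  rw [innerSL_apply_norm]

omit h16 hK h10 h11 hF in
theorem sN_kc (K : C3) (Fi : Md → Mat) : sN 0 (kcF K Fi) ≤ ‖K‖ₑ * sN 0 Fi := by
  rw [← P17.sN_adjC 0 Fi]
  simp only [sN, zero_mul, Real.exp_zero, ENNReal.ofReal_one, one_mul]
  rw [← ENNReal.tsum_mul_left]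
  refine ENNReal.tsum_le_tsum (fun q => ?_)
  rw [mul_comm]
  exact (adjC Fi q).le_opENorm K

omit h16 hK in
/-- the coefficients of `|k|²` -/
theorem g_eq (q : Md) : mul (rwF K Fi) (kcF K Fi) q = inner ℂ K (mm Fi (adjC Fi) q K) := by
  have hFi := fin_Fi h10 h11 hF
  obtain ⟨_, _, _, k4, _⟩ := h10 Md C3 C3 C3 0 le_rfl
  have h1 : sK 0 (mulK Fi) ≠ ∞ := by rw [k4]; exact hFi
  have h2 : sK 0 (mulK (adjC Fi)) ≠ ∞ := by rw [k4, P17.sN_adjC]; exact hFi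
  have h3 := summable_comp h1 h2 q 0
  simp only [mulK, sub_zero] at h3
  have h4 := ((innerSL ℂ K).comp (ContinuousLinearMap.apply ℂ C3 K)).map_tsum h3
  simp only [ContinuousLinearMap.comp_apply, ContinuousLinearMap.apply_apply,
    innerSL_apply_apply] at h4
  simp only [mm, conv, ContinuousLinearMap.compL_apply]
  rw [h4]
  rfl

/-- the scalar identity -/
theorem sc_conv (m : Md) : ∑' j, sc K Fi j * mul (rwF K Fi) (kcF K Fi) (m - j) =
    if m = 0 then 1 else 0 := by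
  classical
  have hFi := fin_Fi h10 h11 hF
  have hR := fin_R h16 hK hF
  obtain ⟨⟨p1, p2, p3, p4⟩, -⟩ := h16 Md (lev n) c b e F Fi (fun _ => K) hF
  obtain ⟨k1, k2, _, k4, k5, _⟩ := h10 Md C3 C3 C3 0 le_rfl
  obtain ⟨l1, l2, _⟩ := h11 Md C3 C3 C3 C3
  set ξ : Md → C3 := fun _ => K with hξ
  set R := RK ξ Fi with hRdef
  have hM : sK 0 (mulK Fi) ≠ ∞ := by rw [k4]; exact hFi
  have hN : sK 0 (mulK (adjC Fi)) ≠ ∞ := by rw [k4, P17.sN_adjC]; exact hFi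
  have hP : sK 0 (PK ξ) ≠ ∞ := ne_top_of_le_ne_top ENNReal.one_ne_top
    (k5 _ 1 fun m => P17.norm_pr_le _)
  have cl : ∀ {A C : Md → Md → Mat}, sK 0 A ≠ ∞ → sK 0 C ≠ ∞ → sK 0 (kcomp A C) ≠ ∞ :=
    fun hA hC => ne_top_of_le_ne_top (ENNReal.mul_ne_top hA hC) (k1 _ _)
  have hA : sK 0 (AK ξ Fi) ≠ ∞ := cl hP (cl hM (cl hN hP))
  have hAe : ∀ m j, AK ξ Fi m j = (pr K).comp ((mm Fi (adjC Fi) (m - j)).comp (pr K)) := by
    intro m j
    have h1 : AK ξ Fi = kcomp (PK ξ) (kcomp (mulK (mm Fi (adjC Fi))) (PK ξ)) := by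
      rw [← C04.kcomp_mulK, l1 _ _ _ hM hN hP]
      rfl
    rw [h1]
    unfold PK
    rw [diag_kcomp, kcomp_diag]
    rfl
  set f : Md → C3 := fun l => if l = 0 then K else 0 with hf
  have hfN : sN 0 f ≠ ∞ := by
    have : sN 0 f = ‖K‖ₑ := by
      unfold sN
      rw [tsum_eq_single 0]
      · simp [hf]
      · intro q hq
        simp [hf, hq]
    rw [this]
    exact enorm_ne_top
  have hact : ∀ (B : Md → Md → Mat) (m : Md), act B f m = B m 0 K := by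
    intro B m
    unfold act
    rw [tsum_eq_single 0]
    · simp [hf]
    · intro q hq
      simp [hf, hq]
  have hmain : ∀ m, ∑' j, AK ξ Fi m j (R j 0 K) = f m := by
    intro m
    have h1 := congrFun (l2 (AK ξ Fi) R f hA hR hfN) m
    rw [p3, hact] at h1
    have h2 : act (AK ξ Fi) (act R f) m = ∑' j, AK ξ Fi m j (R j 0 K) := by
      show ∑' j, AK ξ Fi m j (act R f j) = _
      refine tsum_congr (fun j => ?_)
      rw [hact]
    rw [← h2, ← h1]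
    show diagK (fun m => pr (ξ m)) m 0 K = _
    by_cases hm : m = 0
    · simp [diagK, hm, hf, hξ, pr_self hK]
    · simp [diagK, hm, hf]
  have hK1 : (‖K‖ : ℂ) ≠ 0 := by simpa using hK
  have hRK : ∀ j, R j 0 K = ((‖K‖ : ℂ) ^ 2 * sc K Fi j) • K := by
    intro j
    have h1 := congrFun (congrFun p1 j) 0
    unfold PK at h1
    rw [diag_kcomp] at h1
    have h2 : pr K (R j 0 K) = R j 0 K := congrArg (fun T : Mat => T K) h1
    rw [← h2, pr_apply, smul_smul]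
    congr 1
    show ((‖K‖ : ℂ) ^ 2)⁻¹ * inner ℂ K (R j 0 K) =
      (‖K‖ : ℂ) ^ 2 * (inner ℂ K (R j 0 K) / (‖K‖ : ℂ) ^ 4)
    field_simp
  have hterm : ∀ m j, AK ξ Fi m j (R j 0 K) =
      (sc K Fi j * mul (rwF K Fi) (kcF K Fi) (m - j)) • K := by
    intro m j
    rw [hAe, hRK, ContinuousLinearMap.comp_apply, ContinuousLinearMap.comp_apply, map_smul,
      pr_self hK, map_smul, map_smul, pr_apply, smul_smul, smul_smul, g_eq h10 h11 hF]
    congr 1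
    field_simp
  have hsum : Summable fun j => AK ξ Fi m j (R j 0 K) := by
    have h1 := summable_act (f := act R f) (M := sK 0 R * sN 0 f) hA (ENNReal.mul_ne_top hR hfN)
      (fun m => by
        refine le_trans ?_ (k2 R f)
        have : sN 0 (act R f) = ∑' m, ‖act R f m‖ₑ := by simp [sN]
        rw [this]
        exact ENNReal.le_tsum m) m
    simpa only [hact] using h1
  have h3 := (innerSL ℂ K).map_tsum hsum
  rw [hmain m] at h3
  simp only [hterm, map_smul, innerSL_apply_apply, inner_self_eq_norm_sq_to_K, smul_eq_mul,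
    Complex.coe_algebraMap] at h3
  rw [tsum_mul_right] at h3
  by_cases hm : m = 0
  · simp only [hf, hm, if_true, inner_self_eq_norm_sq_to_K, Complex.coe_algebraMap] at h3 ⊢
    have h4 := mul_right_cancel₀ (pow_ne_zero 2 hK1) ((one_mul _).trans h3)
    exact h4.symm
  · simp only [hf, hm, if_false, inner_zero_right] at h3 ⊢
    have h4 := h3.symm
    rcases mul_eq_zero.1 h4 with h5 | h5
    · exact h5
    · exact absurd h5 (pow_ne_zero 2 hK1)

include h10 h11 h16 hK hF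

theorem sc_id : mul (scF (sc K Fi)) (mul (rwF K Fi) (kcF K Fi)) =
    fun q => if q = 0 then 1 else 0 := by
  funext m
  rw [← sc_conv h10 h11 h16 hK hF m]
  show ∑' l, scF (sc K Fi) (m - l) (mul (rwF K Fi) (kcF K Fi) l) = _
  rw [← (Equiv.subLeft m).tsum_eq (fun j => sc K Fi j * mul (rwF K Fi) (kcF K Fi) (m - j))]
  refine tsum_congr (fun l => ?_)
  simp only [Equiv.subLeft_apply, sub_sub_cancel, scF]
  simp

theorem sN_sc (hκ : 0 < c / (2 * b ^ 2 * e ^ 2)) : sN 0 (sc K Fi) ≠ ∞ := by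
  have h1 : sN 0 (sc K Fi) ≤ ENNReal.ofReal (2 * b ^ 2 / ‖K‖ ^ 2) *
      eSL (lev n) (c / (2 * b ^ 2 * e ^ 2)) := by
    have h2 : eSL (lev n) (c / (2 * b ^ 2 * e ^ 2)) =
        ∑' k : Md, ((lev n : AddSubgroup Md) : Set Md).indicator
          (fun k => ENNReal.ofReal (Real.exp (-(c / (2 * b ^ 2 * e ^ 2)) * len k))) k := by
      rw [← tsum_subtype]; rfl
    rw [h2, ← ENNReal.tsum_mul_left]
    unfold sN
    refine ENNReal.tsum_le_tsum (fun k => ?_)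
    rw [zero_mul, Real.exp_zero, ENNReal.ofReal_one, one_mul]
    by_cases hk : k ∈ lev n
    · rw [Set.indicator_of_mem (show k ∈ ((lev n : AddSubgroup Md) : Set Md) from hk)]
      rw [← ENNReal.ofReal_mul (by positivity), ← ofReal_norm]
      exact ENNReal.ofReal_le_ofReal (sc_le h16 hK hF k)
    · rw [sc_supp h16 hK hF k hk]
      simp
  exact ne_top_of_le_ne_top (ENNReal.mul_ne_top ENNReal.ofReal_ne_top (hF.sum _ hκ)) h1

end static

theorem sN_scF (f : Md → ℂ) : sN 0 (scF f) = sN 0 f := by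
  unfold sN
  refine tsum_congr (fun q => ?_)
  congr 1
  rw [← ofReal_norm, ← ofReal_norm]
  congr 1
  simp only [scF]
  rw [norm_smul, ContinuousLinearMap.norm_id, mul_one]

end C08

open C08 in
theorem c08 (h10 : W10) (h11 : W11) (h16 : W16) : C08 := by
  intro n T c b e k F Fi hT hk hfd hN hcm
  set K : C3 := kv k with hKdef
  have h0 : (0 : ℝ) ∈ Icc 0 T := ⟨le_rfl, hT⟩
  have hF0 := hfd 0 h0
  have hb := hF0.b_one
  have he := hF0.e_one
  have hc := hF0.c_pos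
  have hK0 : 0 < ‖K‖ := norm_pos_iff.2 hk
  set κ := c / (2 * b ^ 2 * e ^ 2) / 2 with hκ
  have hκ0 : 0 < κ := by positivity
  have h2κ : c / (2 * b ^ 2 * e ^ 2) = 2 * κ := by rw [hκ]; ring
  have hNfin : Nrm T c 0 Dat.one' Fi ≠ ∞ := ne_top_of_le_ne_top ENNReal.ofReal_ne_top hN
  have hmulfin : ∀ t ∈ Icc 0 T, sK 0 (mulK (scF (sc K (Fi t)))) ≠ ∞ ∧
      sK 0 (mulK (rwF K (Fi t))) ≠ ∞ ∧ sN 0 (kcF K (Fi t)) ≠ ∞ := by
    intro t ht
    have hF := hfd t ht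
    have hFi := fin_Fi h10 h11 hF
    refine ⟨?_, ?_, ?_⟩
    · rw [(h10 Md ℂ ℂ ℂ 0 le_rfl).2.2.2.1, sN_scF]
      exact sN_sc h10 h11 h16 hk hF (by positivity)
    · rw [(h10 Md C3 ℂ ℂ 0 le_rfl).2.2.2.1]
      exact ne_top_of_le_ne_top (ENNReal.mul_ne_top enorm_ne_top hFi) (sN_rw K (Fi t))
    · exact ne_top_of_le_ne_top (ENNReal.mul_ne_top enorm_ne_top hFi) (sN_kc K (Fi t))
  refine ⟨fun t => sc K (Fi t), ?_, ?_, ?_, ?_, ?_⟩
  · -- continuity
    intro q t0 ht0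
    show Filter.Tendsto (fun t => sc K (Fi t) q) (𝓝[Icc 0 T] t0) (𝓝 (sc K (Fi t0) q))
    rw [tendsto_iff_norm_sub_tendsto_zero]
    set C : ℝ≥0∞ := 8 * ENNReal.ofReal b ^ 4 * ENNReal.ofReal e * eSL (lev n) κ ^ 2 with hC
    have hCt : C ≠ ∞ := by
      have h1 : eSL (lev n) κ ≠ ∞ := hF0.sum κ hκ0
      rw [hC]
      exact ENNReal.mul_ne_top (ENNReal.mul_ne_top (ENNReal.mul_ne_top (by simp)
        (ENNReal.pow_ne_top ENNReal.ofReal_ne_top)) ENNReal.ofReal_ne_top) (ENNReal.pow_ne_top h1)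
    have hlim := (C04.tendsto_sN Fi hcm hNfin ht0).const_mul (C.toReal / ‖K‖ ^ 2)
    rw [mul_zero] at hlim
    refine squeeze_zero' (Filter.Eventually.of_forall fun _ => norm_nonneg _) ?_ hlim
    filter_upwards [self_mem_nhdsWithin] with t ht
    have hFt := hfd t ht
    have hF1 := hfd t0 ht0
    have hfs : sN c (Fi t - Fi t0) ≠ ∞ := by
      have h1 : sN c (Fi t - Fi t0) ≤ sN c (Fi t) + sN c (Fi t0) := by
        unfold sN
        rw [← ENNReal.tsum_add]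
        refine ENNReal.tsum_le_tsum (fun m => ?_)
        rw [← mul_add]
        exact mul_le_mul_right enorm_sub_le _
      exact ne_top_of_le_ne_top (ENNReal.add_ne_top.2
        ⟨ne_top_of_le_ne_top ENNReal.ofReal_ne_top hFt.Fi_le,
          ne_top_of_le_ne_top ENNReal.ofReal_ne_top hF1.Fi_le⟩) h1
    have hlip := lipR h10 h11 h16 Md (lev n) c b e (F t) (Fi t) (F t0) (Fi t0) (fun _ => K) hFt hF1
    rw [← hκ, ← hC] at hlip
    have hent : ‖(RK (fun _ : Md => K) (Fi t) - RK (fun _ : Md => K) (Fi t0)) q 0‖ₑ ≤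
        C * sN c (Fi t - Fi t0) := by
      refine le_trans ?_ hlip
      have h1 := (h10 Md C3 C3 C3 κ hκ0.le).2.2.2.2.2.2.2
        (RK (fun _ : Md => K) (Fi t) - RK (fun _ : Md => K) (Fi t0)) q 0
      refine le_trans ?_ h1
      have h2 : 1 ≤ ENNReal.ofReal (Real.exp (κ * len (q - 0))) := by
        rw [← ENNReal.ofReal_one]
        exact ENNReal.ofReal_le_ofReal (Real.one_le_exp (mul_nonneg hκ0.le (len_nonneg _)))
      calc ‖(RK (fun _ : Md => K) (Fi t) - RK (fun _ : Md => K) (Fi t0)) q 0‖ₑ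
          = 1 * ‖(RK (fun _ : Md => K) (Fi t) - RK (fun _ : Md => K) (Fi t0)) q 0‖ₑ :=
            (one_mul _).symm
        _ ≤ _ := mul_le_mul_left h2 _
    have hent' := ENNReal.toReal_mono (ENNReal.mul_ne_top hCt hfs) hent
    rw [toReal_enorm, ENNReal.toReal_mul] at hent'
    set D : Mat := (RK (fun _ : Md => K) (Fi t) - RK (fun _ : Md => K) (Fi t0)) q 0 with hD
    have hdiff : sc K (Fi t) q - sc K (Fi t0) q = inner ℂ K (D K) / (‖K‖ : ℂ) ^ 4 := by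
      unfold sc
      rw [← sub_div, ← inner_sub_right]
      rfl
    rw [hdiff, norm_div, norm_pow, Complex.norm_real, norm_norm]
    have h3 : ‖inner ℂ K (D K)‖ ≤ ‖K‖ * (‖D‖ * ‖K‖) :=
      (norm_inner_le_norm _ _).trans (mul_le_mul_of_nonneg_left (D.le_opNorm K) hK0.le)
    rw [div_le_iff₀ (by positivity)]
    calc ‖inner ℂ K (D K)‖ ≤ ‖K‖ * (‖D‖ * ‖K‖) := h3
      _ ≤ ‖K‖ * ((C.toReal * (sN c (Fi t - Fi t0)).toReal) * ‖K‖) := by gcongr
      _ = _ := by field_simp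
  · intro t ht q hq
    exact sc_supp h16 hk (hfd t ht) q hq
  · intro t ht
    obtain ⟨f1, f2, f3⟩ := hmulfin t ht
    rw [← sc_id h10 h11 h16 hk (hfd t ht)]
    have h1 := (h11 Md C3 ℂ ℂ ℂ).2.1 (mulK (scF (sc K (Fi t)))) (mulK (rwF K (Fi t)))
      (kcF K (Fi t)) f1 f2 f3
    rw [C04.kcomp_mulK] at h1
    exact h1
  · -- norm
    have h2 : eSL (lev n) κ = ∑' k : Md, ((lev n : AddSubgroup Md) : Set Md).indicator
        (fun k => ENNReal.ofReal (Real.exp (-κ * len k))) k := by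
      rw [← tsum_subtype]; rfl
    rw [h2, ← ENNReal.tsum_mul_left]
    unfold Nrm
    refine ENNReal.tsum_le_tsum (fun q => ?_)
    refine iSup₂_le (fun t ht => ?_)
    by_cases hq : q ∈ lev n
    · rw [Set.indicator_of_mem (show q ∈ ((lev n : AddSubgroup Md) : Set Md) from hq)]
      have h3 := sc_le h16 hk (hfd t ht) q
      rw [h2κ] at h3
      rw [← ofReal_norm, ← ENNReal.ofReal_mul (by simp only [Dat.one']; positivity),
        ← ENNReal.ofReal_mul (by positivity)]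
      refine ENNReal.ofReal_le_ofReal ?_
      simp only [Dat.one', div_one, zero_mul, sub_zero]
      refine (mul_le_mul_of_nonneg_left h3 (Real.exp_pos _).le).trans (le_of_eq ?_)
      rw [mul_left_comm, ← Real.exp_add]
      congr 2
      ring
    · have hz : sc K (Fi t) q = 0 := sc_supp h16 hk (hfd t ht) q hq
      simp only [hz, enorm_zero, mul_zero]
      exact bot_le
  · intro t ht θ
    obtain ⟨f1, f2, f3⟩ := hmulfin t ht
    have hs : Summable fun q => ‖sc K (Fi t) q‖ := by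
      have h1 : sN 0 (sc K (Fi t)) ≠ ∞ := sN_sc h10 h11 h16 hk (hfd t ht) (by positivity)
      have h2 : ∑' q, ‖sc K (Fi t) q‖ₑ ≠ ∞ := by simpa [sN] using h1
      simpa using ENNReal.summable_toReal h2
    have hg : Summable fun q => ‖mul (rwF K (Fi t)) (kcF K (Fi t)) q‖ := by
      have h1 : sN 0 (mul (rwF K (Fi t)) (kcF K (Fi t))) ≠ ∞ :=
        ne_top_of_le_ne_top (ENNReal.mul_ne_top f2 f3)
          ((h10 Md C3 ℂ ℂ 0 le_rfl).2.1 (mulK (rwF K (Fi t))) (kcF K (Fi t)))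
      have h2 : ∑' q, ‖mul (rwF K (Fi t)) (kcF K (Fi t)) q‖ₑ ≠ ∞ := by simpa [sN] using h1
      simpa using ENNReal.summable_toReal h2
    have h1 := ev_conv θ (ContinuousLinearMap.mul ℂ ℂ) hs hg
    have h2 : conv (ContinuousLinearMap.mul ℂ ℂ) (sc K (Fi t))
        (mul (rwF K (Fi t)) (kcF K (Fi t))) = fun q => if q = 0 then 1 else 0 := by
      rw [← sc_id h10 h11 h16 hk (hfd t ht)]
      funext m
      show ∑' l, _ = ∑' l, _
      refine tsum_congr (fun l => ?_)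
      simp [mulK, scF]
    rw [h2] at h1
    have h3 : ev θ (fun q : Md => if q = 0 then (1 : ℂ) else 0) = 1 := by
      unfold ev
      rw [tsum_eq_single 0]
      · simp [ch_zero]
      · intro q hq
        simp [hq]
    rw [h3] at h1
    exact h1.symm

end Pool.Agent.Work.MP_b0497c_an.Unf.S
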