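import Pool.Agent.Work.MP_b0497c_an.Unf.SStmts2
import Pool.Agent.Work.MP_b0497c_an.Bd.B04
import Pool.Agent.Work.MP_b0497c_an.Bd.B03

set_option autoImplicit false

/-!
# S18: linear sources of the old classes
-/

open scoped ENNReal
open Set MeasureTheory

namespace Pool.Agent.Work.MP_b0497c_an.Unf.S

open W

namespace S18

/-! ### Restriction -/

section res

variable {E : Type} [AddCommGroup E]

theorem res_add (S : Set Md) (f g : Md → E) : res S (f + g) = res S f + res S g := by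
  funext q
  by_cases h : q ∈ S <;> simp [res, h]

theorem res_neg (S : Set Md) (f : Md → E) : res S (-f) = -res S f := by
  funext q
  by_cases h : q ∈ S <;> simp [res, h]

theorem res_sub (S : Set Md) (f g : Md → E) : res S (f - g) = res S f - res S g := by
  funext q
  by_cases h : q ∈ S <;> simp [res, h]

theorem res_zero (S : Set Md) : res S (0 : Md → E) = 0 := by
  funext q
  by_cases h : q ∈ S <;> simp [res, h]

theorem res_sum {ι : Type} (S : Set Md) (s : Finset ι) (f : ι → Md → E) :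
    res S (∑ i ∈ s, f i) = ∑ i ∈ s, res S (f i) := by
  classical
  induction s using Finset.induction_on with
  | empty => simp [res_zero]
  | insert a s ha ih => rw [Finset.sum_insert ha, Finset.sum_insert ha, res_add, ih]

theorem res_self {S : Set Md} {f : Md → E} (h : SuppIn S f) : res S f = f := by
  funext q
  by_cases hq : q ∈ S
  · simp [res, hq]
  · simp [res, hq, h q hq]

theorem res_disj {S S' : Set Md} {f : Md → E} (h : SuppIn S' f) (hd : ∀ q, q ∈ S → q ∉ S') :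
    res S f = 0 := by
  funext q
  by_cases hq : q ∈ S
  · simp [res, hq, h q (hd q hq)]
  · simp [res, hq]

theorem supp_res (S : Set Md) (f : Md → E) : SuppIn S (res S f) := by
  intro q hq
  simp [res, hq]

theorem SuppIn.mono {S S' : Set Md} (h : S ⊆ S') {f : Md → E} (hf : SuppIn S f) : SuppIn S' f :=
  fun q hq => hf q fun h' => hq (h h')

theorem SuppIn.add {S : Set Md} {f g : Md → E} (hf : SuppIn S f) (hg : SuppIn S g) :
    SuppIn S (f + g) := fun q hq => by simp [hf q hq, hg q hq]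

theorem SuppIn.sub {S : Set Md} {f g : Md → E} (hf : SuppIn S f) (hg : SuppIn S g) :
    SuppIn S (f - g) := fun q hq => by simp [hf q hq, hg q hq]

theorem SuppIn.neg {S : Set Md} {f : Md → E} (hf : SuppIn S f) : SuppIn S (-f) :=
  fun q hq => by simp [hf q hq]

end res

/-! ### Classes -/

theorem lev_mono {a b : ℕ} (h : a ≤ b) : (lev a : Set Md) ⊆ (lev b : Set Md) := by
  intro q hq i hi
  exact hq i (lt_of_le_of_lt h hi)

theorem Cl_sub (a : ℕ) : Cl a ⊆ (lev a : Set Md) := fun _ hq => hq.1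

theorem Cs_sub {m o : ℕ} (h : m ≤ o) : Cs m o ⊆ (lev o : Set Md) := by
  unfold Cs
  split_ifs with h'
  · exact lev_mono h
  · exact Cl_sub o

theorem Cs_of_lt {m o : ℕ} (h : m < o) : Cs m o = Cl o := if_neg (not_le.mpr h)

theorem Cs_self (m : ℕ) : Cs m m = (lev m : Set Md) := if_pos le_rfl

theorem lev_disj {o l : ℕ} (h : o < l) {q : Md} (hq : q ∈ (lev o : Set Md)) : q ∉ Cl l := by
  intro h'
  exact h'.2 (hq l h)

theorem Cs_disj {m o l : ℕ} (ho : m ≤ o) (hl : m ≤ l) (hne : o ≠ l) {q : Md} (hq : q ∈ Cs m o) :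
    q ∉ Cs m l := by
  rcases lt_or_gt_of_ne hne with h | h
  · rw [Cs_of_lt (lt_of_le_of_lt ho h)]
    exact lev_disj h (Cs_sub ho hq)
  · intro h'
    rw [Cs_of_lt (lt_of_le_of_lt hl h)] at hq
    exact lev_disj h (Cs_sub hl h') hq

/-! ### Kernels with differences in `lev l` -/

section ker

variable {E F G : Type} [NormedAddCommGroup E] [NormedSpace ℂ E] [NormedAddCommGroup F]
  [NormedSpace ℂ F] [NormedAddCommGroup G] [NormedSpace ℂ G]

/-- The kernel only moves modes by elements of `lev l`. -/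
def KS (l : ℕ) (A : Md → Md → (E →L[ℂ] F)) : Prop := ∀ p q, p - q ∉ lev l → A p q = 0

theorem KS.kcomp {l : ℕ} {A : Md → Md → (F →L[ℂ] G)} {B : Md → Md → (E →L[ℂ] F)} (hA : KS l A)
    (hB : KS l B) : KS l (kcomp A B) := by
  intro p q hpq
  have : ∀ j, (A p j).comp (B j q) = 0 := by
    intro j
    by_cases h1 : p - j ∈ lev l
    · have h2 : j - q ∉ lev l := by
        intro h2
        apply hpq
        have := (lev l).add_mem h1 h2
        rwa [sub_add_sub_cancel] at this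
      rw [hB j q h2, ContinuousLinearMap.comp_zero]
    · rw [hA p j h1, ContinuousLinearMap.zero_comp]
  simp [W.kcomp, this]

theorem KS.sub {l : ℕ} {A B : Md → Md → (E →L[ℂ] F)} (hA : KS l A) (hB : KS l B) :
    KS l (A - B) := fun p q h => by simp [hA p q h, hB p q h]

theorem KS.smul {l : ℕ} {A : Md → Md → (E →L[ℂ] F)} (z : ℂ) (hA : KS l A) :
    KS l (z • A) := fun p q h => by simp [hA p q h]

theorem KS.neg {l : ℕ} {A : Md → Md → (E →L[ℂ] F)} (hA : KS l A) :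
    KS l (-A) := fun p q h => by simp [hA p q h]

theorem KS.idK (l : ℕ) : KS l idK := by
  intro p q h
  unfold S.idK diagK
  rw [if_neg]
  rintro rfl
  exact h (by rw [sub_self]; exact (lev l).zero_mem)

theorem KS.mulK {l : ℕ} {a : Md → (E →L[ℂ] F)} (ha : SuppIn (lev l : Set Md) a) :
    KS l (mulK a) := fun _ _ h => ha _ h

theorem KS.genP {l : ℕ} {P : Md → Md → Mat} {M : Md → Mat} (hP : KS l P)
    (hM : SuppIn (lev l : Set Md) M) : KS l (genP P M) :=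
  (((KS.idK l).sub (hP.smul 2)).kcomp (KS.mulK hM)).neg

end ker

/-! ### Norms -/

section norms

variable {E F : Type} [NormedAddCommGroup E] [NormedSpace ℂ E] [NormedAddCommGroup F]
  [NormedSpace ℂ F]

omit [NormedSpace ℂ E] in
theorem sN_fin {T c γ : ℝ} {ρ : ℝ → ℝ} (hp : Par T c γ) (hρ : Wt T ρ) {f : ℝ → Md → E}
    (hf : Nrm T c γ ρ f ≠ ∞) {t : ℝ} (ht : t ∈ Icc 0 T) : sN 0 (f t) ≠ ∞ := by
  rw [sN_zero]
  refine ne_top_of_le_ne_top (b := ENNReal.ofReal (ρ T) * Nrm T c γ ρ f)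
    (ENNReal.mul_ne_top ENNReal.ofReal_ne_top hf) ?_
  unfold Nrm
  rw [← ENNReal.tsum_mul_left]
  exact ENNReal.tsum_le_tsum fun l => W12.mode_le hp hρ f ht l

omit [NormedSpace ℂ E] in
theorem Nrm_gamma {T c γ : ℝ} {ρ : ℝ → ℝ} (hγ : 0 ≤ γ) (hρ : Wt T ρ) (f : ℝ → Md → E) :
    Nrm T c γ ρ f ≤ Nrm T c 0 ρ f := by
  unfold Nrm
  refine ENNReal.tsum_le_tsum fun q => iSup₂_mono fun t ht => ?_
  have h1 : (c - γ * t) * len q ≤ (c - 0 * t) * len q := by
    apply mul_le_mul_of_nonneg_right _ (len_nonneg q)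
    nlinarith [mul_nonneg hγ ht.1]
  have h2 : Real.exp ((c - γ * t) * len q) / ρ t ≤ Real.exp ((c - 0 * t) * len q) / ρ t :=
    div_le_div_of_nonneg_right (Real.exp_le_exp.mpr h1) (hρ.pos t ht).le
  exact mul_le_mul' (ENNReal.ofReal_le_ofReal h2) le_rfl

theorem KN_mulK (h09 : W09) {T c : ℝ} (hc : 0 ≤ c) (a : ℝ → Md → (E →L[ℂ] F)) :
    KN T c (fun t => mulK (a t)) = Nrm T c 0 Dat.one' a :=
  (h09 Md E F F T c hc).2.2.2.1 a

/-- product of an operator valued function and a function -/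
theorem Nrm_mul (h02 : W02) {T c γ : ℝ} {ρ ρ' : ℝ → ℝ} (hp : Par T c γ) (hρ : Wt T ρ)
    (hρ' : Wt T ρ') (a : ℝ → Md → (E →L[ℂ] F)) (f : ℝ → Md → E) :
    Nrm T c γ (fun t => ρ t * ρ' t) (fun t => mul (a t) (f t)) ≤
      Nrm T c γ ρ a * Nrm T c γ ρ' f := by
  have h := h02 Md (E →L[ℂ] F) E F T c γ ρ ρ' (ContinuousLinearMap.id ℂ (E →L[ℂ] F)) a f hp hρ hρ'
  have h1 : ‖ContinuousLinearMap.id ℂ (E →L[ℂ] F)‖ₑ ≤ 1 := by
    rw [← ofReal_norm, ← ENNReal.ofReal_one]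
    exact ENNReal.ofReal_le_ofReal ContinuousLinearMap.norm_id_le
  refine le_trans (le_trans (le_of_eq ?_) h) ?_
  · rfl
  · calc _ ≤ 1 * Nrm T c γ ρ a * Nrm T c γ ρ' f := by gcongr
      _ = _ := by rw [one_mul]

theorem Wt.mul {T : ℝ} {ρ ρ' : ℝ → ℝ} (h : Wt T ρ) (h' : Wt T ρ') :
    Wt T (fun t => ρ t * ρ' t) where
  pos t ht := mul_pos (h.pos t ht) (h'.pos t ht)
  cont := h.cont.mul h'.cont
  mono s hs t ht hst := mul_le_mul (h.mono hs ht hst) (h'.mono hs ht hst)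
    (h'.pos s hs).le (h.pos t ht).le

theorem Wt.smul {T : ℝ} {ρ : ℝ → ℝ} (h : Wt T ρ) {a : ℝ} (ha : 0 < a) :
    Wt T (fun t => a * ρ t) where
  pos t ht := mul_pos ha (h.pos t ht)
  cont := continuousOn_const.mul h.cont
  mono _ hs _ ht hst := mul_le_mul_of_nonneg_left (h.mono hs ht hst) ha.le

end norms

/-! ### Continuity of the modes -/

section cm

variable {E F : Type} [NormedAddCommGroup E] [NormedSpace ℂ E] [NormedAddCommGroup F]
  [NormedSpace ℂ F] {T : ℝ}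

omit [NormedSpace ℂ E] in
theorem CM_res (S : Set Md) {f : ℝ → Md → E} (h : CM T f) : CM T (fun t => res S (f t)) := by
  intro q
  by_cases hq : q ∈ S
  · simpa [res, hq] using h q
  · simp [res, hq, continuousOn_const]

omit [NormedSpace ℂ E] in
theorem CM_add {f g : ℝ → Md → E} (hf : CM T f) (hg : CM T g) : CM T (fun t => f t + g t) :=
  fun q => (hf q).add (hg q)

omit [NormedSpace ℂ E] in
theorem CM_sub {f g : ℝ → Md → E} (hf : CM T f) (hg : CM T g) : CM T (fun t => f t - g t) :=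
  fun q => (hf q).sub (hg q)

omit [NormedSpace ℂ E] in
theorem CM_neg {f : ℝ → Md → E} (hf : CM T f) : CM T (fun t => -(f t)) :=
  fun q => (hf q).neg

omit [NormedSpace ℂ E] in
theorem CM_zero : CM T (fun _ => (0 : Md → E)) := fun _ => continuousOn_const

omit [NormedSpace ℂ E] in
theorem CM_sum {ι : Type} (s : Finset ι) {f : ι → ℝ → Md → E} (hf : ∀ i ∈ s, CM T (f i)) :
    CM T (fun t => ∑ i ∈ s, f i t) := by
  intro q
  simp only [Finset.sum_apply]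
  exact continuousOn_finsetSum s fun i hi => hf i hi q

omit [NormedSpace ℂ E] in
theorem CM_congr {f g : ℝ → Md → E} (h : ∀ t ∈ Icc 0 T, f t = g t) (hg : CM T g) : CM T f := by
  intro q
  exact (hg q).congr fun t ht => by rw [h t ht]

theorem CK_mulK {a : ℝ → Md → (E →L[ℂ] F)} (h : CM T a) : CK T (fun t => mulK (a t)) :=
  fun p q => h (p - q)

omit [NormedSpace ℂ E] in
theorem Src_congr {c γ : ℝ} {ρ : ℝ → ℝ} {f g : ℝ → Md → E} (h : ∀ t ∈ Icc 0 T, f t = g t) :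
    Src T c γ ρ f = Src T c γ ρ g := by
  unfold Src
  refine tsum_congr fun q => iSup_congr fun t => iSup_congr fun ht => ?_
  refine setLIntegral_congr_fun measurableSet_Ioc fun s hs => ?_
  rw [h s ⟨hs.1.le, hs.2.trans ht.2⟩]

omit [NormedSpace ℂ E] in
theorem Nrm_congr {c γ : ℝ} {ρ : ℝ → ℝ} {f g : ℝ → Md → E} (h : ∀ t ∈ Icc 0 T, f t = g t) :
    Nrm T c γ ρ f = Nrm T c γ ρ g := by
  unfold Nrm
  refine tsum_congr fun q => iSup_congr fun t => iSup_congr fun ht => ?_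
  rw [h t ht]

end cm

/-! ### Algebra of `act` -/

section act

variable {E F : Type} [NormedAddCommGroup E] [NormedSpace ℂ E] [NormedAddCommGroup F]
  [NormedSpace ℂ F]

theorem act_sub [CompleteSpace F] {A : Md → Md → (E →L[ℂ] F)} (hA : sK 0 A ≠ ∞) {f g : Md → E}
    (hf : sN 0 f ≠ ∞) (hg : sN 0 g ≠ ∞) : act A (f - g) = act A f - act A g := by
  funext m
  simp only [act, Pi.sub_apply, map_sub]
  exact (summable_act hA hf (fun m => sN_bdd m) m).tsum_sub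
    (summable_act hA hg (fun m => sN_bdd m) m)

theorem act_sum [CompleteSpace F] {ι : Type} (s : Finset ι) {A : Md → Md → (E →L[ℂ] F)}
    (hA : sK 0 A ≠ ∞) {f : ι → Md → E} (hf : ∀ i ∈ s, sN 0 (f i) ≠ ∞) :
    act A (∑ i ∈ s, f i) = ∑ i ∈ s, act A (f i) := by
  funext m
  simp only [act, Finset.sum_apply, map_sum]
  exact Summable.tsum_finsetSum fun i hi => summable_act hA (hf i hi) (fun m => sN_bdd m) m

theorem sK_smul_le (c : ℝ) (z : ℂ) (A : Md → Md → (E →L[ℂ] F)) :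
    sK c (z • A) ≤ ‖z‖ₑ * sK c A := by
  unfold sK
  rw [← ENNReal.tsum_mul_left]
  refine ENNReal.tsum_le_tsum fun k => ?_
  rw [mul_left_comm]
  gcongr
  refine iSup_le fun l => ?_
  have : (z • A) (l + k) l = z • A (l + k) l := rfl
  rw [this, enorm_smul]
  gcongr
  exact le_iSup (fun l => ‖A (l + k) l‖ₑ) l

theorem sK_sub_fin (h10 : W10) {A B : Md → Md → (E →L[ℂ] F)} (hA : sK 0 A ≠ ∞)
    (hB : sK 0 B ≠ ∞) : sK 0 (A - B) ≠ ∞ := by
  have h := (h10 Md E F F 0 le_rfl).2.2.2.2.2.1 A ((-1 : ℂ) • B)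
  have h1 : A - B = A + (-1 : ℂ) • B := by rw [neg_one_smul, sub_eq_add_neg]
  rw [h1]
  refine ne_top_of_le_ne_top (ENNReal.add_ne_top.mpr ⟨hA, ?_⟩) h
  exact ne_top_of_le_ne_top (ENNReal.mul_ne_top enorm_ne_top hB) (sK_smul_le 0 _ B)

theorem enorm_id_le : ‖ContinuousLinearMap.id ℂ E‖ₑ ≤ 1 := by
  rw [← ofReal_norm, ← ENNReal.ofReal_one]
  exact ENNReal.ofReal_le_ofReal ContinuousLinearMap.norm_id_le

theorem sK_fin (h09 : W09) (h10 : W10) {T c : ℝ} (hc : 0 ≤ c) {A : ℝ → Md → Md → (E →L[ℂ] F)}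
    (h : KN T c A ≠ ∞) {t : ℝ} (ht : t ∈ Icc 0 T) : sK 0 (A t) ≠ ∞ := by
  have h1 := (h09 Md E F F T c hc).2.2.2.2.2.2 A t ht
  have h2 := ((h10 Md E F F c hc).2.2.2.2.2.2.1 0 hc).1 (A t)
  exact ne_top_of_le_ne_top h (h2.trans h1)

end act

theorem sK_idK (h10 : W10) : sK 0 idK ≠ ∞ := by
  have h := (h10 Md C3 C3 C3 0 le_rfl).2.2.2.2.1 (fun _ => ContinuousLinearMap.id ℂ C3) 1
    (fun _ => enorm_id_le)
  exact ne_top_of_le_ne_top ENNReal.one_ne_top h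

theorem KN_idK (h09 : W09) {T c : ℝ} (hc : 0 ≤ c) : KN T c (fun _ => idK) ≤ 1 :=
  (h09 Md C3 C3 C3 T c hc).2.2.2.2.1 (fun _ _ => ContinuousLinearMap.id ℂ C3) 1
    (fun _ _ _ => enorm_id_le)

theorem CK_idK (T : ℝ) : CK T (fun _ => idK) := fun _ _ => continuousOn_const

/-- `KN (1 - 2 P)`. -/
theorem KN_ref (h09 : W09) {T c : ℝ} (hc : 0 ≤ c) (P : ℝ → Md → Md → Mat) {G : ℝ} (hG : 1 ≤ G)
    (hP : KN T c P ≤ ENNReal.ofReal G) :
    KN T c (fun t => idK - (2 : ℂ) • P t) ≤ ENNReal.ofReal (3 * G) := by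
  have h1 := (h09 Md C3 C3 C3 T c hc).2.1 (fun _ => idK) ((-2 : ℂ) • P)
  have h2 : (fun t => idK - (2 : ℂ) • P t) = (fun _ => idK) + (-2 : ℂ) • P := by
    funext t p q
    have h3 : (-2 : ℂ) • P t p q = -((2 : ℂ) • P t p q) := by module
    simp only [Pi.add_apply, Pi.smul_apply, Pi.sub_apply, sub_eq_add_neg, h3]
  rw [h2]
  refine h1.trans ?_
  rw [(h09 Md C3 C3 C3 T c hc).2.2.1 (-2) P]
  have h3 : ‖(-2 : ℂ)‖ₑ = ENNReal.ofReal 2 := by
    rw [enorm_neg, ← ofReal_norm]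
    norm_num
  rw [h3]
  calc _ ≤ ENNReal.ofReal 1 + ENNReal.ofReal 2 * ENNReal.ofReal G := by
        rw [ENNReal.ofReal_one]
        exact add_le_add (KN_idK h09 hc) (mul_le_mul' le_rfl hP)
    _ = ENNReal.ofReal (1 + 2 * G) := by
        rw [← ENNReal.ofReal_mul (by norm_num), ← ENNReal.ofReal_add (by norm_num) (by positivity)]
    _ ≤ _ := ENNReal.ofReal_le_ofReal (by linarith)

theorem CK_ref {T : ℝ} {P : ℝ → Md → Md → Mat} (h : CK T P) :
    CK T (fun t => idK - (2 : ℂ) • P t) :=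
  fun p q => continuousOn_const.sub ((h p q).const_smul (2 : ℂ))

section data

variable {D : Dat}

theorem par (hD : D.Hyp) : Par D.T D.c D.γ := by
  have hT := hD.T_pos
  have hc := hD.c_pos
  refine ⟨hT, ?_, ?_⟩
  · rw [hD.γ_eq]
    positivity
  · rw [hD.γ_eq, div_mul_eq_mul_div, div_le_iff₀ (by positivity)]
    nlinarith [mul_pos hc hT]

theorem KS_Pl (h16 : W16) (hD : D.Hyp) {l : ℕ} (h1 : D.m ≤ l) (h2 : l ≤ D.n) {t : ℝ}
    (ht : t ∈ Icc 0 D.T) : KS l (D.Pl l t) := by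
  obtain ⟨c, b, e, h⟩ := hD.fd l h1 h2 t ht
  intro p q hpq
  exact ((h16 Md (lev l) c b e (D.F l t) (D.Fi l t) (xi D.K) h).2.2.1 p q hpq).2

theorem KS_gen (h16 : W16) (hD : D.Hyp) {l : ℕ} (h1 : D.m ≤ l) (h2 : l ≤ D.n) {t : ℝ}
    (ht : t ∈ Icc 0 D.T) : KS l (D.gen l t) :=
  KS.genP (KS_Pl h16 hD h1 h2 ht) ((hD.F_supp l h1 h2).2.2 t ht)

theorem sK_Pl (h09 : W09) (h10 : W10) (hD : D.Hyp) {l : ℕ} (h1 : D.m ≤ l) (h2 : l ≤ D.n) {t : ℝ}
    (ht : t ∈ Icc 0 D.T) : sK 0 (D.Pl l t) ≠ ∞ :=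
  sK_fin h09 h10 hD.c_pos.le (ne_top_of_le_ne_top ENNReal.ofReal_ne_top (hD.P_le l h1 h2).1) ht

theorem sK_ref (h09 : W09) (h10 : W10) (hD : D.Hyp) {l : ℕ} (h1 : D.m ≤ l) (h2 : l ≤ D.n) {t : ℝ}
    (ht : t ∈ Icc 0 D.T) : sK 0 (idK - (2 : ℂ) • D.Pl l t) ≠ ∞ :=
  sK_sub_fin h10 (sK_idK h10) (ne_top_of_le_ne_top
    (ENNReal.mul_ne_top enorm_ne_top (sK_Pl h09 h10 hD h1 h2 ht)) (sK_smul_le 0 _ _))

theorem sK_gen (h09 : W09) (h10 : W10) (hD : D.Hyp) {l : ℕ} (h1 : D.m ≤ l) (h2 : l ≤ D.n) {t : ℝ}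
    (ht : t ∈ Icc 0 D.T) : sK 0 (D.gen l t) ≠ ∞ := by
  have hM : sK 0 (mulK (D.M l t)) ≠ ∞ := by
    refine sK_fin (A := fun t => mulK (D.M l t)) h09 h10 hD.c_pos.le ?_ ht
    rw [KN_mulK h09 hD.c_pos.le]
    exact ne_top_of_le_ne_top ENNReal.ofReal_ne_top (hD.F_le l h1 h2).2.2
  have h := (h10 Md C3 C3 C3 0 le_rfl).1 (idK - (2 : ℂ) • D.Pl l t) (mulK (D.M l t))
  have h' : sK 0 (kcomp (idK - (2 : ℂ) • D.Pl l t) (mulK (D.M l t))) ≠ ∞ :=
    ne_top_of_le_ne_top (ENNReal.mul_ne_top (sK_ref h09 h10 hD h1 h2 ht) hM) h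
  have h3 : D.gen l t = (-1 : ℂ) • kcomp (idK - (2 : ℂ) • D.Pl l t) (mulK (D.M l t)) := by
    rw [neg_one_smul]
    rfl
  rw [h3]
  exact ne_top_of_le_ne_top (ENNReal.mul_ne_top enorm_ne_top h') (sK_smul_le 0 _ _)

theorem ofReal_mul' {a b : ℝ} (ha : 0 ≤ a) (x : ℝ≥0∞) :
    ENNReal.ofReal a * (ENNReal.ofReal b * x) = ENNReal.ofReal (a * b) * x := by
  rw [← mul_assoc, ← ENNReal.ofReal_mul ha]

theorem Nrm_tsF (T c γ : ℝ) (ρ : ℝ → ℝ) (a : ℝ → Md → C3) :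
    Nrm T c γ ρ (fun t => tsF (a t)) = Nrm T c γ ρ a := by
  have h : ∀ v : C3, ‖ts v‖ₑ = ‖v‖ₑ := by
    intro v
    rw [← ofReal_norm, ← ofReal_norm]
    unfold ts
    rw [ContinuousLinearMap.norm_toSpanSingleton]
  unfold Nrm tsF
  simp only [h]

theorem CM_tsF {T : ℝ} {a : ℝ → Md → C3} (h : CM T a) : CM T (fun t => tsF (a t)) := by
  intro q
  exact ((ContinuousLinearMap.toSpanSingletonLIE ℂ C3).continuous).comp_continuousOn (h q)

theorem supp_tsF {S : Set Md} {a : Md → C3} (h : SuppIn S a) : SuppIn S (tsF a) := by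
  intro q hq
  simp [tsF, ts, h q hq]

theorem CM_mul (h12 : W12) {E F : Type} [NormedAddCommGroup E] [NormedSpace ℂ E]
    [NormedAddCommGroup F] [NormedSpace ℂ F] [CompleteSpace E] [CompleteSpace F] {T c γ : ℝ}
    {ρ ρ' : ℝ → ℝ} (hp : Par T c γ) (hρ : Wt T ρ) (hρ' : Wt T ρ') {a : ℝ → Md → (E →L[ℂ] F)} {f : ℝ → Md → E}
    (ha : CM T a) (hf : CM T f) (h1 : Nrm T c γ ρ a ≠ ∞) (h2 : Nrm T c γ ρ' f ≠ ∞) :
    CM T (fun t => mul (a t) (f t)) :=
  (h12 Md (E →L[ℂ] F) E F T c γ ρ ρ' hp hρ hρ').2.2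
    (ContinuousLinearMap.id ℂ (E →L[ℂ] F)) a f ha hf h1 h2

/-- multiplication of a function by a coefficient function of class `l`: supports -/
theorem supp_mul_Cl (h03 : S03) {E F : Type} [NormedAddCommGroup E] [NormedSpace ℂ E]
    [NormedAddCommGroup F] [NormedSpace ℂ F] {l k : ℕ} (hlk : k < l) {a : Md → (E →L[ℂ] F)}
    {f : Md → E} (ha : SuppIn (Cl l) a) (hf : SuppIn (lev k : Set Md) f) :
    SuppIn (Cl l) (mul a f) :=
  ((h03 (E →L[ℂ] F) E F).2.2.2.2.2.2 (ContinuousLinearMap.id ℂ (E →L[ℂ] F)) k l a f hlk).2 ha hf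

/-- `CM`, supports and norm of `a (r f)`, where `a` is a column of class `l`. -/
theorem col_bound (h01 : W01) (h02 : W02) (h09 : W09) (h12 : W12) (h03 : S03)
    (h15 : S15) (hD : D.Hyp) {l : ℕ} (hml : D.m < l) (hln : l ≤ D.n) {σ : ℝ → ℝ}
    (hσ : Wt D.T σ) {f : ℝ → Md → C3} (hf : CM D.T f)
    (hfs : SuppT D.T (lev (l - 1) : Set Md) f) (hfin : Nrm D.T D.c D.γ σ f ≠ ∞) :
    CM D.T (fun t => mul (tsF (D.a l t)) (mul (D.rw l t) (f t))) ∧
    SuppT D.T (Cl l) (fun t => mul (tsF (D.a l t)) (mul (D.rw l t) (f t))) ∧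
    Nrm D.T D.c D.γ (fun t => D.α l t * σ t)
      (fun t => mul (tsF (D.a l t)) (mul (D.rw l t) (f t))) ≤
      ENNReal.ofReal (D.G ^ 2) * Nrm D.T D.c D.γ σ f := by
  have hp := par hD
  have hc := hD.c_pos.le
  obtain ⟨-, hrw, -, -, -, hrwc, -, -, -, hrws, -⟩ := h15 D hD l hml (by omega)
  have hα : Wt D.T (D.α l) := hD.α_wt l hml (by omega)
  have hN : 1 ≤ D.N l := hD.N_pos l (by omega)
  have hG : 2 ≤ D.G := hD.G_two
  have hKrw : KN D.T D.c (fun t => mulK (D.rw l t)) ≤ ENNReal.ofReal (D.G * D.N l) := by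
    rw [KN_mulK h09 hc]
    exact hrw
  have hψN : Nrm D.T D.c D.γ σ (fun t => mul (D.rw l t) (f t)) ≤
      ENNReal.ofReal (D.G * D.N l) * Nrm D.T D.c D.γ σ f :=
    (h01 Md C3 ℂ D.T D.c D.γ σ (fun t => mulK (D.rw l t)) f hp hσ).trans
      (mul_le_mul' hKrw le_rfl)
  have hψfin := ne_top_of_le_ne_top (ENNReal.mul_ne_top ENNReal.ofReal_ne_top hfin) hψN
  have hψc : CM D.T (fun t => mul (D.rw l t) (f t)) :=
    (h12 Md C3 ℂ ℂ D.T D.c D.γ σ σ hp hσ hσ).1 (fun t => mulK (D.rw l t)) f (CK_mulK hrwc) hf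
      (ne_top_of_le_ne_top ENNReal.ofReal_ne_top hKrw) hfin
  have haN : Nrm D.T D.c D.γ (D.α l) (fun t => tsF (D.a l t)) ≤
      ENNReal.ofReal (D.G / D.N l) := by
    rw [Nrm_tsF]
    exact (Nrm_gamma hp.γ_nonneg hα _).trans (hD.z_le l hml hln).2
  have haf := ne_top_of_le_ne_top ENNReal.ofReal_ne_top haN
  refine ⟨?_, ?_, ?_⟩
  · exact CM_mul h12 hp hα hσ (CM_tsF (hD.z_cm l hml hln).2) hψc haf hψfin
  · intro t ht
    refine supp_mul_Cl h03 (k := l - 1) (by omega) (supp_tsF ((hD.z_supp l hml hln).2 t ht)) ?_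
    exact (h03 C3 ℂ ℂ).1 (mulK (D.rw l t)) (l - 1) (l - 1) (f t) le_rfl
      (KS.mulK (hrws t ht)) (hfs t ht)
  · refine (Nrm_mul h02 hp hα hσ _ _).trans ?_
    calc _ ≤ ENNReal.ofReal (D.G / D.N l) *
          (ENNReal.ofReal (D.G * D.N l) * Nrm D.T D.c D.γ σ f) := mul_le_mul' haN hψN
      _ = ENNReal.ofReal (D.G ^ 2) * Nrm D.T D.c D.γ σ f := by
          rw [ofReal_mul' (by positivity)]
          congr 2
          field_simp

theorem Cp_bound (h01 : W01) (h02 : W02) (h05 : W05) (h09 : W09) (h12 : W12) (h03 : S03)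
    (h15 : S15) (hD : D.Hyp) {ρ : ℕ → ℝ → ℝ} {Str : ℝ → ℝ} (hW : Wts D ρ Str) {l i : ℕ}
    (hmi : D.m ≤ i) (hil : i < l) (hln : l ≤ D.n) {f : ℝ → Md → C3} (hf : CM D.T f)
    (hfs : SuppT D.T (lev (l - 1) : Set Md) f) (hfin : Nrm D.T D.c D.γ (ρ i) f ≠ ∞) :
    CM D.T (fun t => D.Cp l t (f t)) ∧ SuppT D.T (Cl l) (fun t => D.Cp l t (f t)) ∧
    Src D.T D.c D.γ (ρ l) (fun t => D.Cp l t (f t)) ≤
      ENNReal.ofReal (3 * D.G ^ 5 * D.u l ^ 64) * Nrm D.T D.c D.γ (ρ i) f := by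
  have hp := par hD
  have hc := hD.c_pos.le
  have hml : D.m < l := lt_of_le_of_lt hmi hil
  obtain ⟨-, -, hpN, hK, -, -, hpc, -, hps, -⟩ := h15 D hD l hml (by omega)
  have hα : Wt D.T (D.α l) := hD.α_wt l hml (by omega)
  have hσ : Wt D.T (ρ i) := hW.wt i hmi (by omega)
  have hσl : Wt D.T (ρ l) := hW.wt l (by omega) (by omega)
  have hασ : Wt D.T (fun t => D.α l t * ρ i t) := Wt.mul hα hσ
  have hG : 2 ≤ D.G := hD.G_two
  have hu : 0 < D.u l := hD.u_pos l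
  obtain ⟨hbc, hbs, hbN⟩ := col_bound h01 h02 h09 h12 h03 h15 hD hml hln hσ hf hfs hfin
  set b : ℝ → Md → C3 := fun t => mul (tsF (D.a l t)) (mul (D.rw l t) (f t)) with hb
  have hbfin := ne_top_of_le_ne_top (ENNReal.mul_ne_top ENNReal.ofReal_ne_top hfin) hbN
  have hCc : CM D.T (fun t => mul (oneM - (2 : ℂ) • D.p l t) (b t)) := by
    refine (h12 Md C3 C3 C3 D.T D.c D.γ _ _ hp hασ hασ).1
      (fun t => mulK (oneM - (2 : ℂ) • D.p l t)) b ?_ hbc
      (ne_top_of_le_ne_top ENNReal.ofReal_ne_top hK) hbfin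
    exact CK_mulK (a := fun t => oneM - (2 : ℂ) • D.p l t)
      (fun q => continuousOn_const.sub ((hpc q).const_smul (2 : ℂ)))
  have hCN : Nrm D.T D.c D.γ (fun t => D.α l t * ρ i t)
      (fun t => mul (oneM - (2 : ℂ) • D.p l t) (b t)) ≤
      ENNReal.ofReal (3 * D.G ^ 5) * Nrm D.T D.c D.γ (ρ i) f := by
    refine (h01 Md C3 C3 D.T D.c D.γ _ (fun t => mulK (oneM - (2 : ℂ) • D.p l t)) b hp
      hασ).trans ?_
    calc _ ≤ ENNReal.ofReal (3 * D.G ^ 3) *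
          (ENNReal.ofReal (D.G ^ 2) * Nrm D.T D.c D.γ (ρ i) f) := mul_le_mul' hK hbN
      _ = _ := by
          rw [ofReal_mul' (by positivity)]
          congr 2
          ring
  have hneg : (fun t => D.Cp l t (f t)) =
      (-1 : ℂ) • (fun t => mul (oneM - (2 : ℂ) • D.p l t) (b t)) := by
    rw [neg_one_smul]
    rfl
  refine ⟨?_, ?_, ?_⟩
  · exact CM_neg hCc
  · intro t ht
    refine SuppIn.neg ((h03 C3 C3 C3).2.1 (mulK (oneM - (2 : ℂ) • D.p l t)) (l - 1) l (b t)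
      (by omega) ?_ (hbs t ht))
    refine KS.mulK fun q hq => ?_
    have h0 : oneM q = 0 := by
      unfold oneM
      rw [if_neg]
      rintro rfl
      exact hq (lev (l - 1)).zero_mem
    have : (oneM - (2 : ℂ) • D.p l t) q = oneM q - (2 : ℂ) • D.p l t q := rfl
    rw [this, h0, hps t ht q hq]
    module
  · have hT1 : ENNReal.ofReal D.T ≤ 1 := by
      rw [← ENNReal.ofReal_one]
      exact ENNReal.ofReal_le_ofReal hD.T_le
    rw [hneg]
    have h5 := h05 Md C3 D.T D.c D.γ (fun t => D.α l t * ρ i t) (ρ l)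
      (fun t => mul (oneM - (2 : ℂ) • D.p l t) (b t)) 0 hp hασ hσl
    have h5' := h05 Md C3 D.T D.c D.γ (ρ l) (ρ l)
      (fun t => mul (oneM - (2 : ℂ) • D.p l t) (b t)) 0 hp hσl hσl
    rw [(h5'.2.2.2.2 (-1)).2]
    have he : ‖(-1 : ℂ)‖ₑ = 1 := by simp
    rw [he, one_mul]
    refine (h5.2.1 (D.u l ^ 64) (by positivity) (hW.w1 i l hmi hil hln)).2.trans ?_
    calc _ ≤ ENNReal.ofReal (D.u l ^ 64) *
          (1 * (ENNReal.ofReal (3 * D.G ^ 5) * Nrm D.T D.c D.γ (ρ i) f)) :=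
          mul_le_mul' le_rfl (h5.1.trans (mul_le_mul' hT1 hCN))
      _ = _ := by
          rw [one_mul, ofReal_mul' (by positivity)]
          congr 2
          ring

/-- `g = (1 - 2 Pl) (a_i N_i κ_i)`. -/
theorem g_bound (h01 : W01) (h02 : W02) (h05 : W05) (h09 : W09) (h12 : W12) (h16 : W16)
    (h03 : S03) (hD : D.Hyp) {i : ℕ} (hmi : D.m < i) (hin : i ≤ D.n) {σ : ℝ → ℝ}
    (hσ : Wt D.T σ) {k : ℝ → Md → ℂ} (hk : CM D.T k)
    (hks : SuppT D.T (Cl i) k) (hfin : Nrm D.T D.c D.γ σ k ≠ ∞) :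
    let g : ℝ → Md → C3 := fun t => act (idK - (2 : ℂ) • D.Pl i t)
      (mul (tsF (D.a i t)) ((D.N i : ℂ) • k t))
    (∀ t ∈ Icc 0 D.T, sN 0 (mul (tsF (D.a i t)) ((D.N i : ℂ) • k t)) ≠ ∞) ∧
    CM D.T g ∧ SuppT D.T (lev i : Set Md) g ∧
    Src D.T D.c D.γ σ g ≤ ENNReal.ofReal (3 * D.G ^ 3) * Nrm D.T D.c D.γ σ k := by
  intro g
  have hp := par hD
  have hc := hD.c_pos.le
  have hα : Wt D.T (D.α i) := hD.α_wt i hmi (by omega)
  have hασ : Wt D.T (fun t => D.α i t * σ t) := Wt.mul hα hσ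
  have hN : 1 ≤ D.N i := hD.N_pos i (by omega)
  have hG : 2 ≤ D.G := hD.G_two
  have hkN : Nrm D.T D.c D.γ σ (fun t => (D.N i : ℂ) • k t) =
      ENNReal.ofReal (D.N i) * Nrm D.T D.c D.γ σ k := by
    have h := ((h05 Md ℂ D.T D.c D.γ σ σ k 0 hp hσ hσ).2.2.2.2 (D.N i : ℂ)).1
    have he : ‖(D.N i : ℂ)‖ₑ = ENNReal.ofReal (D.N i) := by
      rw [← ofReal_norm, Complex.norm_real, Real.norm_eq_abs, abs_of_nonneg (by linarith)]
    rw [he] at h
    exact h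
  have hkc : CM D.T (fun t => (D.N i : ℂ) • k t) := fun q => (hk q).const_smul (D.N i : ℂ)
  have hkf : Nrm D.T D.c D.γ σ (fun t => (D.N i : ℂ) • k t) ≠ ∞ := by
    rw [hkN]
    exact ENNReal.mul_ne_top ENNReal.ofReal_ne_top hfin
  have haN : Nrm D.T D.c D.γ (D.α i) (fun t => tsF (D.a i t)) ≤
      ENNReal.ofReal (D.G / D.N i) := by
    rw [Nrm_tsF]
    exact (Nrm_gamma hp.γ_nonneg hα _).trans (hD.z_le i hmi hin).2
  have haf := ne_top_of_le_ne_top ENNReal.ofReal_ne_top haN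
  have hbc : CM D.T (fun t => mul (tsF (D.a i t)) ((D.N i : ℂ) • k t)) :=
    CM_mul h12 hp hα hσ (CM_tsF (hD.z_cm i hmi hin).2) hkc haf hkf
  have hbN : Nrm D.T D.c D.γ (fun t => D.α i t * σ t)
      (fun t => mul (tsF (D.a i t)) ((D.N i : ℂ) • k t)) ≤
      ENNReal.ofReal D.G * Nrm D.T D.c D.γ σ k := by
    refine (Nrm_mul h02 hp hα hσ _ _).trans ?_
    calc _ ≤ ENNReal.ofReal (D.G / D.N i) *
          (ENNReal.ofReal (D.N i) * Nrm D.T D.c D.γ σ k) := mul_le_mul' haN (le_of_eq hkN)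
      _ = _ := by
          rw [ofReal_mul' (by positivity)]
          congr 2
          field_simp
  have hbN' : Nrm D.T D.c D.γ σ
      (fun t => mul (tsF (D.a i t)) ((D.N i : ℂ) • k t)) ≤
      ENNReal.ofReal (D.G ^ 2) * Nrm D.T D.c D.γ σ k := by
    have h := (h05 Md C3 D.T D.c D.γ (fun t => D.α i t * σ t) σ
      (fun t => mul (tsF (D.a i t)) ((D.N i : ℂ) • k t)) 0 hp hασ hσ).2.1 D.G (by linarith)
      (fun t ht => mul_le_mul_of_nonneg_right (hD.α_le i hmi (by omega) t ht) (hσ.pos t ht).le)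
    refine h.1.trans ?_
    calc _ ≤ ENNReal.ofReal D.G * (ENNReal.ofReal D.G * Nrm D.T D.c D.γ σ k) :=
          mul_le_mul' le_rfl hbN
      _ = _ := by
          rw [ofReal_mul' (by positivity)]
          congr 2
          ring
  have hbf := ne_top_of_le_ne_top (ENNReal.mul_ne_top ENNReal.ofReal_ne_top hfin) hbN'
  have hKR := KN_ref h09 hc (D.Pl i) (by linarith : (1 : ℝ) ≤ D.G) (hD.P_le i hmi.le hin).1
  refine ⟨fun t ht => sN_fin hp hσ hbf ht, ?_, ?_, ?_⟩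
  · exact (h12 Md C3 C3 C3 D.T D.c D.γ σ σ hp hσ hσ).1 (fun t => idK - (2 : ℂ) • D.Pl i t)
      (fun t => mul (tsF (D.a i t)) ((D.N i : ℂ) • k t)) (CK_ref (hD.P_le i hmi.le hin).2) hbc
      (ne_top_of_le_ne_top ENNReal.ofReal_ne_top hKR) hbf
  · intro t ht
    refine (h03 C3 C3 C3).1 (idK - (2 : ℂ) • D.Pl i t) i i _ le_rfl
      ((KS.idK i).sub ((KS_Pl h16 hD hmi.le hin ht).smul 2)) ?_
    refine (h03 (ℂ →L[ℂ] C3) ℂ C3).2.2.2.2.2.1 (ContinuousLinearMap.id ℂ (ℂ →L[ℂ] C3)) i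
      (tsF (D.a i t)) ((D.N i : ℂ) • k t)
      (SuppIn.mono (Cl_sub i) (supp_tsF ((hD.z_supp i hmi hin).2 t ht))) ?_
    intro q hq
    have : k t q = 0 := hks t ht q fun h => hq h.1
    simp [this]
  · have hT1 : ENNReal.ofReal D.T ≤ 1 := by
      rw [← ENNReal.ofReal_one]
      exact ENNReal.ofReal_le_ofReal hD.T_le
    refine (h05 Md C3 D.T D.c D.γ σ σ g 0 hp hσ hσ).1.trans ?_
    have h1 := h01 Md C3 C3 D.T D.c D.γ σ (fun t => idK - (2 : ℂ) • D.Pl i t)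
      (fun t => mul (tsF (D.a i t)) ((D.N i : ℂ) • k t)) hp hσ
    calc _ ≤ 1 * (ENNReal.ofReal (3 * D.G) *
          (ENNReal.ofReal (D.G ^ 2) * Nrm D.T D.c D.γ σ k)) :=
          mul_le_mul' hT1 (h1.trans (mul_le_mul' hKR hbN'))
      _ = _ := by
          rw [one_mul, ofReal_mul' (by positivity)]
          congr 2
          ring

/-- The smallness parameters decrease. -/
theorem u_le (hD : D.Hyp) {i l : ℕ} (hi : D.m < i) (hil : i ≤ l) (hl : l ≤ D.n + 1) :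
    D.u l ≤ D.u i := by
  induction l, hil using Nat.le_induction with
  | base => exact le_rfl
  | succ l hil ih =>
    have h1 := hD.u_step l (by omega) (by omega)
    have h2 := ih (by omega)
    have h3 := hD.u_pos l
    have h4 : D.u l ^ 16 ≤ D.u l := pow_le_of_le_one h3.le (hD.u_lt l).le (by norm_num)
    linarith

theorem u_pow_le (hD : D.Hyp) {i l : ℕ} (hi : D.m < i) (hil : i < l) (hl : l ≤ D.n + 1) :
    D.u l ≤ D.u i ^ 16 := by
  have h1 := hD.u_step i hi (by omega)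
  have h2 := u_le hD (by omega : D.m < i + 1) (by omega : i + 1 ≤ l) hl
  linarith

/-! ### Weights -/

theorem w2' (hD : D.Hyp) {ρ : ℕ → ℝ → ℝ} {Str : ℝ → ℝ} (hW : Wts D ρ Str) {o i : ℕ}
    (hmo : D.m ≤ o) (hoi : o ≤ i) (hin : i ≤ D.n) {t : ℝ} (ht : t ∈ Icc 0 D.T) :
    ρ i t ≤ D.G ^ 6 / D.u i ^ 80 * ρ o t := by
  rcases hoi.lt_or_eq with h | rfl
  · exact hW.w2 o i hmo h hin t ht
  · have h1 := (hW.wt o hmo (by omega)).pos t ht
    have h2 := hD.u_pos o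
    have h3 : D.u o ^ 80 ≤ 1 := pow_le_one₀ h2.le (hD.u_lt o).le
    have h4 : 1 ≤ D.G ^ 6 := one_le_pow₀ (by linarith [hD.G_two])
    have h5 : 1 ≤ D.G ^ 6 / D.u o ^ 80 := by
      rw [le_div_iff₀ (by positivity)]
      linarith
    nlinarith

theorem wE (hD : D.Hyp) {ρ : ℕ → ℝ → ℝ} {Str : ℝ → ℝ} (hW : Wts D ρ Str) {o i l : ℕ}
    (hmo : D.m ≤ o) (hmi : D.m ≤ i) (hil : i < l) (hol : o ≤ l) (hln : l ≤ D.n) {t : ℝ}
    (ht : t ∈ Icc 0 D.T) : ρ i t * D.α l t ≤ D.G ^ 7 / D.u l ^ 5 * ρ o t := by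
  have hG : 2 ≤ D.G := hD.G_two
  have hul := hD.u_pos l
  have hρo := (hW.wt o hmo (by omega)).pos t ht
  have hρi := (hW.wt i hmi (by omega)).pos t ht
  have hαl := (hD.α_wt l (by omega) (by omega)).pos t ht
  have h5 : D.u l ^ 5 ≤ 1 := pow_le_one₀ hul.le (hD.u_lt l).le
  have hA : D.G ≤ D.G ^ 7 / D.u l ^ 5 := by
    rw [le_div_iff₀ (by positivity)]
    have h1 : D.G ≤ D.G ^ 7 := le_self_pow₀ (by linarith) (by norm_num)
    nlinarith
  have key : ρ i t * D.α l t ≤ D.G * ρ o t → ρ i t * D.α l t ≤ D.G ^ 7 / D.u l ^ 5 * ρ o t :=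
    fun h => h.trans (mul_le_mul_of_nonneg_right hA hρo.le)
  have hw1 : ∀ l', i < l' → l' ≤ D.n → D.α l' t * ρ i t ≤ ρ l' t := by
    intro l' h1 h2
    refine (hW.w1 i l' hmi h1 h2 t ht).trans ?_
    have h3 := (hW.wt l' (by omega) (by omega)).pos t ht
    have h4 : D.u l' ^ 64 ≤ 1 := pow_le_one₀ (hD.u_pos l').le (hD.u_lt l').le
    nlinarith
  rcases hol.lt_or_eq with h | rfl
  · rcases lt_trichotomy i o with h' | rfl | h'
    · apply key
      have h1 := hD.α_cmp l o (by omega) h (by omega) t ht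
      have h2 := hw1 o h' (by omega)
      calc ρ i t * D.α l t ≤ ρ i t * (D.G * D.α o t) := mul_le_mul_of_nonneg_left h1 hρi.le
        _ = D.G * (D.α o t * ρ i t) := by ring
        _ ≤ D.G * ρ o t := mul_le_mul_of_nonneg_left h2 (by linarith)
    · apply key
      have h1 := hD.α_le l (by omega) (by omega) t ht
      nlinarith
    · have h1 := hD.α_le l (by omega) (by omega) t ht
      have h2 := hW.w2 o i hmo h' (by omega) t ht
      have h3 := u_pow_le hD (by omega : D.m < i) hil (by omega)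
      have h4 : D.u l ^ 5 ≤ D.u i ^ 80 := by
        calc D.u l ^ 5 ≤ (D.u i ^ 16) ^ 5 := pow_le_pow_left₀ hul.le h3 5
          _ = D.u i ^ 80 := by ring
      have h5 : D.G ^ 6 / D.u i ^ 80 ≤ D.G ^ 6 / D.u l ^ 5 := by
        apply div_le_div_of_nonneg_left (by positivity) (by positivity) h4
      calc ρ i t * D.α l t ≤ (D.G ^ 6 / D.u i ^ 80 * ρ o t) * D.G :=
            mul_le_mul h2 h1 hαl.le (by have := hD.u_pos i; positivity)
        _ ≤ (D.G ^ 6 / D.u l ^ 5 * ρ o t) * D.G := by gcongr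
        _ = _ := by ring
  · apply key
    have h2 := hw1 o hil hln
    nlinarith

/-! ### Continuous sources with a bound -/

/-- A continuous source with a bound. -/
def Ok (D : Dat) (σ : ℝ → ℝ) (C : ℝ≥0∞) (f : ℝ → Md → C3) : Prop :=
  CM D.T f ∧ Src D.T D.c D.γ σ f ≤ C

theorem Ok.congr {σ : ℝ → ℝ} {C : ℝ≥0∞} {f g : ℝ → Md → C3} (hg : Ok D σ C g)
    (h : ∀ t ∈ Icc 0 D.T, f t = g t) : Ok D σ C f :=
  ⟨CM_congr h hg.1, (Src_congr h).le.trans hg.2⟩

theorem Ok.zero (σ : ℝ → ℝ) (C : ℝ≥0∞) : Ok D σ C (fun _ => 0) :=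
  ⟨CM_zero, by simp [Src]⟩

theorem Ok.mono {σ : ℝ → ℝ} {C C' : ℝ≥0∞} {f : ℝ → Md → C3} (hf : Ok D σ C f) (h : C ≤ C') :
    Ok D σ C' f := ⟨hf.1, hf.2.trans h⟩

theorem Ok.add (h05 : W05) (hD : D.Hyp) {σ : ℝ → ℝ} (hσ : Wt D.T σ) {C C' : ℝ≥0∞}
    {f g : ℝ → Md → C3} (hf : Ok D σ C f) (hg : Ok D σ C' g) :
    Ok D σ (C + C') (fun t => f t + g t) :=
  ⟨CM_add hf.1 hg.1, ((h05 Md C3 D.T D.c D.γ σ σ f g (par hD) hσ hσ).2.2.2.1 hf.1).trans
    (add_le_add hf.2 hg.2)⟩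

theorem Ok.neg (h05 : W05) (hD : D.Hyp) {σ : ℝ → ℝ} (hσ : Wt D.T σ) {C : ℝ≥0∞}
    {f : ℝ → Md → C3} (hf : Ok D σ C f) : Ok D σ C (fun t => -(f t)) := by
  refine ⟨CM_neg hf.1, ?_⟩
  have h := ((h05 Md C3 D.T D.c D.γ σ σ f 0 (par hD) hσ hσ).2.2.2.2 (-1)).2
  have he : ‖(-1 : ℂ)‖ₑ = 1 := by simp
  rw [he, one_mul, neg_one_smul] at h
  exact (le_of_eq h).trans hf.2

theorem Ok.sub (h05 : W05) (hD : D.Hyp) {σ : ℝ → ℝ} (hσ : Wt D.T σ) {C C' : ℝ≥0∞}
    {f g : ℝ → Md → C3} (hf : Ok D σ C f) (hg : Ok D σ C' g) :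
    Ok D σ (C + C') (fun t => f t - g t) := by
  have h := Ok.add h05 hD hσ hf (Ok.neg h05 hD hσ hg)
  simpa only [sub_eq_add_neg] using h

theorem Ok.sum (h05 : W05) (hD : D.Hyp) {σ : ℝ → ℝ} (hσ : Wt D.T σ) {ι : Type} (s : Finset ι)
    {C : ℝ≥0∞} {f : ι → ℝ → Md → C3} (hf : ∀ i ∈ s, Ok D σ C (f i)) :
    Ok D σ (s.card * C) (fun t => ∑ i ∈ s, f i t) := by
  classical
  induction s using Finset.induction_on with
  | empty => simpa using Ok.zero (D := D) σ 0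
  | insert a s ha ih =>
    simp only [Finset.sum_insert ha, Finset.card_insert_of_notMem ha]
    have h := Ok.add h05 hD hσ (hf a (Finset.mem_insert_self a s))
      (ih fun i hi => hf i (Finset.mem_insert_of_mem hi))
    refine h.mono (le_of_eq ?_)
    push_cast
    ring

theorem Ok.res (h04 : S04) (hD : D.Hyp) {σ : ℝ → ℝ} {C : ℝ≥0∞} {f : ℝ → Md → C3}
    (hf : Ok D σ C f) (S : Set Md) : Ok D σ C (fun t => res S (f t)) :=
  ⟨CM_res S hf.1, ((h04 C3 D.m D.n hD.hmn).2.2.1 D.T D.c D.γ σ S f).2.trans hf.2⟩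

theorem Ok.wt (h05 : W05) (hD : D.Hyp) {σ σ' : ℝ → ℝ} (hσ : Wt D.T σ) (hσ' : Wt D.T σ')
    {C : ℝ≥0∞} {f : ℝ → Md → C3} (hf : Ok D σ C f) {a : ℝ} (ha : 0 ≤ a)
    (h : ∀ t ∈ Icc 0 D.T, σ t ≤ a * σ' t) : Ok D σ' (ENNReal.ofReal a * C) f :=
  ⟨hf.1, ((h05 Md C3 D.T D.c D.γ σ σ' f 0 (par hD) hσ hσ').2.1 a ha h).2.trans
    (mul_le_mul' le_rfl hf.2)⟩

/-! ### The bound of every single term -/

theorem num_le (hD : D.Hyp) {i : ℕ} (hmi : D.m < i) (hin : i ≤ D.n + 1) {x : ℝ} {k : ℕ}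
    (hk : 48 ≤ k) (_hx0 : 0 ≤ x) (hx : x ≤ D.G ^ 25) :
    x * D.u i ^ k ≤ D.G ^ 25 * D.u (D.m + 1) ^ 48 := by
  have h1 := u_le hD (Nat.lt_succ_self D.m) (by omega : D.m + 1 ≤ i) hin
  have h2 := hD.u_pos i
  have h3 : D.u i ^ k ≤ D.u (D.m + 1) ^ 48 :=
    (pow_le_pow_of_le_one h2.le (hD.u_lt i).le hk).trans (pow_le_pow_left₀ h2.le h1 48)
  exact mul_le_mul hx h3 (by positivity) (by have := hD.G_two; positivity)

/-- The common bound. -/
noncomputable def CC (D : Dat) (X : ℝ≥0∞) : ℝ≥0∞ :=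
  ENNReal.ofReal (D.G ^ 25 * D.u (D.m + 1) ^ 48) * X

theorem term_C (h01 : W01) (h02 : W02) (h05 : W05) (h09 : W09) (h12 : W12) (h03 : S03)
    (h04 : S04) (h15 : S15) (hD : D.Hyp) {ρ : ℕ → ℝ → ℝ} {Str : ℝ → ℝ} (hW : Wts D ρ Str)
    {o l i : ℕ} (hmo : D.m ≤ o) (hmi : D.m ≤ i) (hil : i < l) (hln : l ≤ D.n)
    {f : ℝ → Md → C3} (hf : CM D.T f) (hfs : SuppT D.T (lev (l - 1) : Set Md) f) {X : ℝ≥0∞}
    (hX : X ≠ ∞) (hfX : Nrm D.T D.c D.γ (ρ i) f ≤ X) :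
    Ok D (ρ o) (CC D X) (fun t => res (Cs D.m o) (D.Cp l t (f t))) := by
  obtain ⟨h1, h2, h3⟩ := Cp_bound h01 h02 h05 h09 h12 h03 h15 hD hW hmi hil hln hf hfs
    (ne_top_of_le_ne_top hX hfX)
  have hml : D.m < l := lt_of_le_of_lt hmi hil
  by_cases hol : o = l
  · subst hol
    have hok : Ok D (ρ o) (ENNReal.ofReal (3 * D.G ^ 5 * D.u o ^ 64) * X)
        (fun t => D.Cp o t (f t)) := ⟨h1, h3.trans (mul_le_mul' le_rfl hfX)⟩
    refine (hok.res h04 hD _).mono (mul_le_mul' (ENNReal.ofReal_le_ofReal ?_) le_rfl)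
    have hG := hD.G_two
    refine num_le hD hml (by omega) (by norm_num) (by positivity) ?_
    have h4 : (3 : ℝ) ≤ D.G ^ 20 := by
      calc (3 : ℝ) ≤ 2 ^ 20 := by norm_num
        _ ≤ D.G ^ 20 := pow_le_pow_left₀ (by norm_num) hG 20
    calc 3 * D.G ^ 5 ≤ D.G ^ 20 * D.G ^ 5 := by gcongr
      _ = D.G ^ 25 := by ring
  · refine (Ok.zero (ρ o) _).congr fun t ht => ?_
    refine res_disj (S' := Cl l) (h2 t ht) fun q hq => ?_
    have := Cs_disj hmo hml.le hol hq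
    rwa [Cs_of_lt hml] at this

theorem term_E (h05 : W05) (h04 : S04) (h12' : S12) (hD : D.Hyp)
    {ρ : ℕ → ℝ → ℝ} {Str : ℝ → ℝ} (hW : Wts D ρ Str)
    {o l i : ℕ} (hmo : D.m ≤ o) (hon : o ≤ D.n) (hmi : D.m ≤ i) (hil : i < l) (hln : l ≤ D.n)
    {f : ℝ → Md → C3} (hf : CM D.T f) (hfs : SuppT D.T (lev (l - 1) : Set Md) f) {X : ℝ≥0∞}
    (hX : X ≠ ∞) (hfX : Nrm D.T D.c D.γ (ρ i) f ≤ X) :
    Ok D (ρ o) (CC D X) (fun t => res (Cs D.m o) (act (D.gen l t) (f t) -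
      act (D.gen (l - 1) t) (f t) - D.Cp l t (f t))) := by
  have hml : D.m < l := lt_of_le_of_lt hmi hil
  have hσ : Wt D.T (ρ i) := hW.wt i hmi (by omega)
  have hσo : Wt D.T (ρ o) := hW.wt o hmo (by omega)
  have hα : Wt D.T (D.α l) := hD.α_wt l hml (by omega)
  have hσα : Wt D.T (fun t => ρ i t * D.α l t) := Wt.mul hσ hα
  obtain ⟨h1, h2, h3⟩ := h12' D hD l (ρ i) f hml hln hσ hf hfs (ne_top_of_le_ne_top hX hfX)
  by_cases hol : o ≤ l
  · have hok : Ok D (fun t => ρ i t * D.α l t) (ENNReal.ofReal (D.G ^ 18 * D.u l ^ 256) * X)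
        (fun t => act (D.gen l t) (f t) - act (D.gen (l - 1) t) (f t) - D.Cp l t (f t)) :=
      ⟨h1, h3.trans (mul_le_mul' le_rfl hfX)⟩
    have hul := hD.u_pos l
    have hG := hD.G_two
    have hA : 0 ≤ D.G ^ 7 / D.u l ^ 5 := by positivity
    have hok2 := hok.wt h05 hD hσα hσo hA
      (fun t ht => wE hD hW hmo hmi hil hol hln ht)
    refine (hok2.res h04 hD _).mono ?_
    rw [ofReal_mul' hA]
    refine mul_le_mul' (ENNReal.ofReal_le_ofReal ?_) le_rfl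
    have h4 : D.G ^ 7 / D.u l ^ 5 * (D.G ^ 18 * D.u l ^ 256) = D.G ^ 25 * D.u l ^ 251 := by
      field_simp
    rw [h4]
    exact num_le hD hml (by omega) (by norm_num) (by positivity) le_rfl
  · refine (Ok.zero (ρ o) _).congr fun t ht => ?_
    refine res_disj (S' := (lev l : Set Md)) (h2 t ht) fun q hq => ?_
    intro h'
    rw [Cs_of_lt (by omega : D.m < o)] at hq
    exact lev_disj (not_le.mp hol) h' hq

theorem term_F (h05 : W05) (h04 : S04) (h13 : S13) (hD : D.Hyp)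
    {ρ : ℕ → ℝ → ℝ} {Str : ℝ → ℝ} (hW : Wts D ρ Str)
    {o i : ℕ} (hmo : D.m ≤ o) (hon : o ≤ D.n) (hmi : D.m < i) (hin : i ≤ D.n)
    {f : ℝ → Md → C3} (hf : CM D.T f) (hfs : SuppT D.T (Cl i) f) {X : ℝ≥0∞}
    (hX : X ≠ ∞) (hfX : Nrm D.T D.c D.γ (ρ i) f ≤ X) :
    Ok D (ρ o) (CC D X) (fun t => res (Cs D.m o) (act (D.gen i t) (f t) - mul (D.gK i t) (f t) +
      act (idK - (2 : ℂ) • D.Pl i t) (mul (tsF (D.a i t)) (mul (D.rw i t) (f t))))) := by
  have hσ : Wt D.T (ρ i) := hW.wt i hmi.le (by omega)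
  have hσo : Wt D.T (ρ o) := hW.wt o hmo (by omega)
  obtain ⟨h1, h2, h3⟩ := h13 D hD i (ρ i) f hmi hin hσ hf hfs (ne_top_of_le_ne_top hX hfX)
  by_cases hoi : o ≤ i
  · have hok : Ok D (ρ i) (ENNReal.ofReal (D.G ^ 18 * D.u i ^ 256) * X)
        (fun t => act (D.gen i t) (f t) - mul (D.gK i t) (f t) +
      act (idK - (2 : ℂ) • D.Pl i t) (mul (tsF (D.a i t)) (mul (D.rw i t) (f t)))) :=
      ⟨h1, h3.trans (mul_le_mul' le_rfl hfX)⟩
    have hui := hD.u_pos i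
    have hG := hD.G_two
    have hA : 0 ≤ D.G ^ 6 / D.u i ^ 80 := by positivity
    have hok2 := hok.wt h05 hD hσ hσo hA (fun t ht => w2' hD hW hmo hoi hin ht)
    refine (hok2.res h04 hD _).mono ?_
    rw [ofReal_mul' hA]
    refine mul_le_mul' (ENNReal.ofReal_le_ofReal ?_) le_rfl
    have h4 : D.G ^ 6 / D.u i ^ 80 * (D.G ^ 18 * D.u i ^ 256) = D.G ^ 24 * D.u i ^ 176 := by
      field_simp
    rw [h4]
    exact num_le hD hmi (by omega) (by norm_num) (by positivity)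
      (pow_le_pow_right₀ (by linarith) (by norm_num))
  · refine (Ok.zero (ρ o) _).congr fun t ht => ?_
    refine res_disj (S' := (lev i : Set Md)) (h2 t ht) fun q hq => ?_
    intro h'
    rw [Cs_of_lt (by omega : D.m < o)] at hq
    exact lev_disj (not_le.mp hoi) h' hq

theorem term_G (h01 : W01) (h02 : W02) (h05 : W05) (h09 : W09) (h12 : W12) (h16 : W16)
    (h03 : S03) (h04 : S04) (hD : D.Hyp) {ρ : ℕ → ℝ → ℝ} {Str : ℝ → ℝ} (hW : Wts D ρ Str)
    {o i : ℕ} (hmo : D.m ≤ o) (hon : o ≤ D.n) (hmi : D.m < i) (hin : i ≤ D.n)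
    {k : ℝ → Md → ℂ} (hk : CM D.T k) (hks : SuppT D.T (Cl i) k) {X : ℝ≥0∞}
    (hX : X ≠ ∞) (hkX : Nrm D.T D.c D.γ (fun t => D.u i ^ 128 * ρ i t) k ≤ X) :
    Ok D (ρ o) (CC D X) (fun t => res (Cs D.m o) (act (idK - (2 : ℂ) • D.Pl i t)
      (mul (tsF (D.a i t)) ((D.N i : ℂ) • k t)))) := by
  have hσ : Wt D.T (ρ i) := hW.wt i hmi.le (by omega)
  have hui := hD.u_pos i
  have hσu : Wt D.T (fun t => D.u i ^ 128 * ρ i t) := Wt.smul hσ (by positivity)
  have hσo : Wt D.T (ρ o) := hW.wt o hmo (by omega)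
  obtain ⟨-, h1, h2, h3⟩ := g_bound h01 h02 h05 h09 h12 h16 h03 hD hmi hin hσu hk hks
    (ne_top_of_le_ne_top hX hkX)
  by_cases hoi : o ≤ i
  · have hok : Ok D (fun t => D.u i ^ 128 * ρ i t) (ENNReal.ofReal (3 * D.G ^ 3) * X)
        (fun t => act (idK - (2 : ℂ) • D.Pl i t)
      (mul (tsF (D.a i t)) ((D.N i : ℂ) • k t))) :=
      ⟨h1, h3.trans (mul_le_mul' le_rfl hkX)⟩
    have hG := hD.G_two
    have hA : 0 ≤ D.G ^ 6 * D.u i ^ 48 := by positivity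
    have hok2 := hok.wt h05 hD hσu hσo hA (fun t ht => by
      have h4 := w2' hD hW hmo hoi hin ht
      calc D.u i ^ 128 * ρ i t ≤ D.u i ^ 128 * (D.G ^ 6 / D.u i ^ 80 * ρ o t) := by gcongr
        _ = D.G ^ 6 * D.u i ^ 48 * ρ o t := by field_simp)
    refine (hok2.res h04 hD _).mono ?_
    rw [ofReal_mul' hA]
    refine mul_le_mul' (ENNReal.ofReal_le_ofReal ?_) le_rfl
    have h4 : D.G ^ 6 * D.u i ^ 48 * (3 * D.G ^ 3) = (3 * D.G ^ 9) * D.u i ^ 48 := by ring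
    rw [h4]
    refine num_le hD hmi (by omega) (by norm_num) (by positivity) ?_
    have h5 : (3 : ℝ) ≤ D.G ^ 16 := by
      calc (3 : ℝ) ≤ 2 ^ 16 := by norm_num
        _ ≤ D.G ^ 16 := pow_le_pow_left₀ (by norm_num) hG 16
    calc 3 * D.G ^ 9 ≤ D.G ^ 16 * D.G ^ 9 := by gcongr
      _ = D.G ^ 25 := by ring
  · refine (Ok.zero (ρ o) _).congr fun t ht => ?_
    refine res_disj (S' := (lev i : Set Md)) (h2 t ht) fun q hq => ?_
    intro h'
    rw [Cs_of_lt (by omega : D.m < o)] at hq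
    exact lev_disj (not_le.mp hoi) h' hq

/-! ### The identity -/

theorem telescope (i n : ℕ) (h : i ≤ n) (g : ℕ → Md → C3) :
    g n = g i + ∑ l ∈ Finset.Ioc i n, (g l - g (l - 1)) := by
  induction n, h using Nat.le_induction with
  | base => simp
  | succ n hn ih =>
    rw [Finset.sum_Ioc_succ_top (by omega : i ≤ n), ← add_assoc, ← ih]
    simp

/-- model of class `o` -/
theorem supp_model (h16 : W16) (h03 : S03) (h15 : S15) (hD : D.Hyp) {o : ℕ} (hmo : D.m ≤ o)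
    (hon : o ≤ D.n) {f : Md → C3} (hf : SuppIn (Cs D.m o) f) {t : ℝ} (ht : t ∈ Icc 0 D.T) :
    SuppIn (Cs D.m o) (model D o t f) := by
  rcases hmo.lt_or_eq with h | h
  · have h1 : model D o t f = mul (D.gK o t) f := if_neg (by omega)
    rw [h1]
    rw [Cs_of_lt h] at hf ⊢
    obtain ⟨-, -, -, -, -, -, -, -, -, -, hgs, -⟩ := h15 D hD o h (by omega)
    exact (h03 C3 C3 C3).2.1 (mulK (D.gK o t)) (o - 1) o f (by omega) (KS.mulK (hgs t ht)) hf
  · subst h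
    have h1 : model D D.m t f = act (D.gen D.m t) f := if_pos le_rfl
    rw [h1]
    rw [Cs_self] at hf ⊢
    exact (h03 C3 C3 C3).1 (D.gen D.m t) D.m D.m f le_rfl (KS_gen h16 hD le_rfl hon ht) hf

end data

end S18

open S18 in
/-- S18: linear sources of the old classes. -/
theorem s18 (h01 : W01) (h02 : W02) (h05 : W05) (h09 : W09) (h10 : W10) (h12 : W12) (h16 : W16)
    (h03 : S03) (h04 : S04) (h12' : S12) (h13 : S13) (h15 : S15) : S18 := by
  intro D ρ Str hD hW w κ hA o hmo hon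
  have hp := par hD
  have hmn := hD.hmn
  set X := XN D ρ w κ with hXdef
  have hX : X ≠ ∞ := hA.fin
  -- the components
  set wi : ℕ → ℝ → Md → C3 := fun i t => res (Cs D.m i) (w t) with hwi
  set ki : ℕ → ℝ → Md → ℂ := fun i t => res (Cl i) (κ t) with hki
  have hwc : ∀ i, CM D.T (wi i) := fun i => CM_res _ hA.w_cm
  have hkc : ∀ i, CM D.T (ki i) := fun i => CM_res _ hA.κ_cm
  have hws : ∀ i, SuppT D.T (Cs D.m i) (wi i) := fun i t _ => supp_res _ _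
  have hks : ∀ i, SuppT D.T (Cl i) (ki i) := fun i t _ => supp_res _ _
  have hwX : ∀ i, D.m ≤ i → i ≤ D.n + 1 → Nrm D.T D.c D.γ (ρ i) (wi i) ≤ X := by
    intro i h1 h2
    refine le_trans ?_ (le_self_add (a := ∑ o ∈ Finset.Icc D.m (D.n + 1),
      Nrm D.T D.c D.γ (ρ o) (fun t => res (Cs D.m o) (w t))))
    exact Finset.single_le_sum (f := fun o => Nrm D.T D.c D.γ (ρ o)
      (fun t => res (Cs D.m o) (w t))) (fun _ _ => zero_le) (Finset.mem_Icc.mpr ⟨h1, h2⟩)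
  have hkX : ∀ i, D.m < i → i ≤ D.n + 1 →
      Nrm D.T D.c D.γ (fun t => D.u i ^ 128 * ρ i t) (ki i) ≤ X := by
    intro i h1 h2
    refine le_trans ?_ (le_add_self (a := ∑ o ∈ Finset.Ioc D.m (D.n + 1),
      Nrm D.T D.c D.γ (fun t => D.u o ^ 128 * ρ o t) (fun t => res (Cl o) (κ t))))
    exact Finset.single_le_sum (f := fun o => Nrm D.T D.c D.γ (fun t => D.u o ^ 128 * ρ o t)
      (fun t => res (Cl o) (κ t))) (fun _ _ => zero_le) (Finset.mem_Ioc.mpr ⟨h1, h2⟩)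
  have hwlev : ∀ i l, D.m ≤ i → i < l → SuppT D.T (lev (l - 1) : Set Md) (wi i) := by
    intro i l h1 h2 t ht
    exact SuppIn.mono ((Cs_sub h1).trans (lev_mono (by omega))) (hws i t ht)
  -- the terms
  set TC : ℕ → ℕ → ℝ → Md → C3 := fun i l t => D.Cp l t (wi i t) with hTC
  set TE : ℕ → ℕ → ℝ → Md → C3 := fun i l t => act (D.gen l t) (wi i t) -
      act (D.gen (l - 1) t) (wi i t) - D.Cp l t (wi i t) with hTE
  set TF : ℕ → ℝ → Md → C3 := fun i t => act (D.gen i t) (wi i t) - mul (D.gK i t) (wi i t) +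
      act (idK - (2 : ℂ) • D.Pl i t) (mul (tsF (D.a i t)) (mul (D.rw i t) (wi i t))) with hTF
  set TG : ℕ → ℝ → Md → C3 := fun i t => act (idK - (2 : ℂ) • D.Pl i t)
      (mul (tsF (D.a i t)) ((D.N i : ℂ) • ki i t)) with hTG
  set R : ℝ → Md → C3 := fun t => (∑ i ∈ Finset.Icc D.m D.n, ∑ l ∈ Finset.Ioc i D.n,
      (res (Cs D.m o) (TC i l t) + res (Cs D.m o) (TE i l t))) +
      ∑ i ∈ Finset.Ioc D.m D.n, (res (Cs D.m o) (TF i t) - res (Cs D.m o) (TG i t)) with hR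
  have hσo : Wt D.T (ρ o) := hW.wt o hmo (by omega)
  -- the identity
  have key : ∀ t ∈ Icc 0 D.T, QL D o w κ t = R t := by
    intro t ht
    have hsN : ∀ i, D.m ≤ i → i ≤ D.n + 1 → sN 0 (wi i t) ≠ ∞ := fun i h1 h2 =>
      sN_fin hp (hW.wt i h1 h2) (ne_top_of_le_ne_top hX (hwX i h1 h2)) ht
    have hdec : w t = ∑ i ∈ Finset.Icc D.m (D.n + 1), wi i t :=
      (h04 C3 D.m (D.n + 1) (by omega)).2.1 (w t) (hA.w_supp t ht)
    have hgn := sK_gen h09 h10 hD hmn le_rfl ht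
    have e1 : act (D.gen D.n t) (w t) = (∑ i ∈ Finset.Icc D.m D.n, act (D.gen D.n t) (wi i t)) +
        act (D.gen D.n t) (wi (D.n + 1) t) := by
      rw [hdec, act_sum _ hgn (fun i hi => hsN i (Finset.mem_Icc.mp hi).1 (Finset.mem_Icc.mp hi).2),
        Finset.sum_Icc_succ_top (by omega)]
    have e2 : res (Cs D.m o) (act (D.gen D.n t) (wi (D.n + 1) t)) = 0 := by
      refine res_disj (S' := Cl (D.n + 1)) ?_ fun q hq => lev_disj (by omega : o < D.n + 1)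
        (Cs_sub hmo hq)
      refine (h03 C3 C3 C3).2.1 (D.gen D.n t) D.n (D.n + 1) _ (by omega)
        (KS_gen h16 hD hmn le_rfl ht) ?_
      have := hws (D.n + 1) t ht
      rwa [Cs_of_lt (by omega)] at this
    have e3 : ∀ i ∈ Finset.Icc D.m D.n, act (D.gen D.n t) (wi i t) = act (D.gen i t) (wi i t) +
        ∑ l ∈ Finset.Ioc i D.n, (TC i l t + TE i l t) := by
      intro i hi
      rw [telescope i D.n (Finset.mem_Icc.mp hi).2 (fun l => act (D.gen l t) (wi i t))]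
      congr 1
      refine Finset.sum_congr rfl fun l _ => ?_
      simp only [hTC, hTE]
      abel
    have e4 : ∀ i ∈ Finset.Ioc D.m D.n, act (D.gen i t) (wi i t) +
        act (idK - (2 : ℂ) • D.Pl i t) (mul (tsF (D.a i t))
          (mul (D.rw i t) (res (Cl i) (w t)) - (D.N i : ℂ) • res (Cl i) (κ t))) =
        model D i t (wi i t) + (TF i t - TG i t) := by
      intro i hi
      obtain ⟨h1, h2⟩ := Finset.mem_Ioc.mp hi
      have hmod : model D i t (wi i t) = mul (D.gK i t) (wi i t) := if_neg (by omega)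
      have hwe : res (Cl i) (w t) = wi i t := by simp only [hwi, Cs_of_lt h1]
      have hrw1 : sN 0 (mul (D.rw i t) (wi i t)) ≠ ∞ := by
        have hK : sK 0 (mulK (D.rw i t)) ≠ ∞ := by
          refine sK_fin (A := fun t => mulK (D.rw i t)) h09 h10 hD.c_pos.le ?_ ht
          rw [KN_mulK h09 hD.c_pos.le]
          exact ne_top_of_le_ne_top ENNReal.ofReal_ne_top (h15 D hD i h1 (by omega)).2.1
        exact ne_top_of_le_ne_top (ENNReal.mul_ne_top hK (hsN i h1.le (by omega)))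
          ((h10 Md C3 ℂ ℂ 0 le_rfl).2.1 (mulK (D.rw i t)) (wi i t))
      have hkN : sN 0 ((D.N i : ℂ) • ki i t) ≠ ∞ := by
        have h3 : sN 0 (ki i t) ≠ ∞ := sN_fin hp
          (Wt.smul (hW.wt i h1.le (by omega)) (by have := hD.u_pos i; positivity))
          (ne_top_of_le_ne_top hX (hkX i h1 (by omega))) ht
        have h4 := (h10 Md ℂ ℂ ℂ 0 le_rfl).2.1
          (diagK fun _ => (D.N i : ℂ) • ContinuousLinearMap.id ℂ ℂ) (ki i t)
        have h5 := (h10 Md ℂ ℂ ℂ 0 le_rfl).2.2.2.2.1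
          (fun _ => (D.N i : ℂ) • ContinuousLinearMap.id ℂ ℂ)
          ‖(D.N i : ℂ) • ContinuousLinearMap.id ℂ ℂ‖ₑ (fun _ => le_rfl)
        have h6 : act (diagK fun _ => (D.N i : ℂ) • ContinuousLinearMap.id ℂ ℂ) (ki i t) =
            (D.N i : ℂ) • ki i t := by
          funext q
          rw [act_diagK]
          rfl
        rw [h6] at h4
        exact ne_top_of_le_ne_top (ENNReal.mul_ne_top
          (ne_top_of_le_ne_top enorm_ne_top h5) h3) h4
      have hKa : sK 0 (mulK (tsF (D.a i t))) ≠ ∞ := by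
        have h3 : sN 0 (D.a i t) ≠ ∞ := by
          have h4 := (hD.z_le i h1 h2).2
          have h5 := Nrm_gamma (c := D.c) hp.γ_nonneg (hD.α_wt i h1 (by omega)) (D.a i)
          exact sN_fin hp (hD.α_wt i h1 (by omega))
            (ne_top_of_le_ne_top ENNReal.ofReal_ne_top (h5.trans h4)) ht
        rw [(h10 Md ℂ C3 C3 0 le_rfl).2.2.2.1]
        have h4 : sN 0 (tsF (D.a i t)) = sN 0 (D.a i t) := by
          rw [sN_zero, sN_zero]
          refine tsum_congr fun q => ?_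
          rw [← ofReal_norm, ← ofReal_norm]
          unfold tsF ts
          rw [ContinuousLinearMap.norm_toSpanSingleton]
        rw [h4]
        exact h3
      have hb1 : sN 0 (mul (tsF (D.a i t)) (mul (D.rw i t) (wi i t))) ≠ ∞ :=
        ne_top_of_le_ne_top (ENNReal.mul_ne_top hKa hrw1)
          ((h10 Md ℂ C3 C3 0 le_rfl).2.1 (mulK (tsF (D.a i t))) _)
      have hb2 : sN 0 (mul (tsF (D.a i t)) ((D.N i : ℂ) • ki i t)) ≠ ∞ :=
        ne_top_of_le_ne_top (ENNReal.mul_ne_top hKa hkN)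
          ((h10 Md ℂ C3 C3 0 le_rfl).2.1 (mulK (tsF (D.a i t))) _)
      have h7 : mul (tsF (D.a i t)) (mul (D.rw i t) (wi i t) - (D.N i : ℂ) • ki i t) =
          mul (tsF (D.a i t)) (mul (D.rw i t) (wi i t)) -
            mul (tsF (D.a i t)) ((D.N i : ℂ) • ki i t) := act_sub hKa hrw1 hkN
      have h8 := act_sub (sK_ref h09 h10 hD h1.le h2 ht) hb1 hb2
      rw [hwe, hmod]
      change act (D.gen i t) (wi i t) + act (idK - (2 : ℂ) • D.Pl i t) (mul (tsF (D.a i t))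
          (mul (D.rw i t) (wi i t) - (D.N i : ℂ) • ki i t)) = _
      rw [h7, h8]
      simp only [hTF, hTG]
      abel
    have e5 : ∀ g : ℕ → Md → C3, ∑ i ∈ Finset.Icc D.m D.n, g i =
        g D.m + ∑ i ∈ Finset.Ioc D.m D.n, g i := by
      intro g
      rw [← Finset.sum_Ioc_add_eq_sum_Icc hmn, add_comm]
    have e6 : ∑ i ∈ Finset.Icc D.m D.n, res (Cs D.m o) (model D i t (wi i t)) =
        model D o t (wi o t) := by
      rw [Finset.sum_eq_single o]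
      · exact res_self (supp_model h16 h03 h15 hD hmo hon (hws o t ht) ht)
      · intro i hi hio
        have h1 := Finset.mem_Icc.mp hi
        exact res_disj (supp_model h16 h03 h15 hD h1.1 h1.2 (hws i t ht) ht)
          fun q hq => Cs_disj hmo h1.1 (Ne.symm hio) hq
      · intro h
        exact absurd (Finset.mem_Icc.mpr ⟨hmo, hon⟩) h
    have e7 : Lin D w κ t = (∑ i ∈ Finset.Icc D.m D.n, model D i t (wi i t)) +
        (∑ i ∈ Finset.Icc D.m D.n, ∑ l ∈ Finset.Ioc i D.n, (TC i l t + TE i l t)) +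
        (∑ i ∈ Finset.Ioc D.m D.n, (TF i t - TG i t)) +
        act (D.gen D.n t) (wi (D.n + 1) t) := by
      have hm0 : model D D.m t (wi D.m t) = act (D.gen D.m t) (wi D.m t) := if_pos le_rfl
      unfold Lin
      rw [e1, Finset.sum_congr rfl e3, Finset.sum_add_distrib,
        e5 (fun i => act (D.gen i t) (wi i t)), e5 (fun i => model D i t (wi i t)), hm0]
      have h9 := Finset.sum_congr rfl e4
      rw [Finset.sum_add_distrib, Finset.sum_add_distrib] at h9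
      have h10' : ∑ i ∈ Finset.Ioc D.m D.n, act (D.gen i t) (wi i t) =
          ∑ i ∈ Finset.Ioc D.m D.n, model D i t (wi i t) +
          ∑ i ∈ Finset.Ioc D.m D.n, (TF i t - TG i t) -
          ∑ i ∈ Finset.Ioc D.m D.n, act (idK - (2 : ℂ) • D.Pl i t) (mul (tsF (D.a i t))
          (mul (D.rw i t) (res (Cl i) (w t)) - (D.N i : ℂ) • res (Cl i) (κ t))) := by
        rw [← h9]
        abel
      rw [h10']
      abel
    have e8 : QL D o w κ t = res (Cs D.m o) (Lin D w κ t) - model D o t (wi o t) := rfl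
    rw [e8, e7, res_add, res_add, res_add, e2, add_zero, res_sum, e6]
    simp only [hR, res_sum, res_add, res_sub]
    abel
  -- the bounds
  have hC : ∀ i ∈ Finset.Icc D.m D.n, ∀ l ∈ Finset.Ioc i D.n,
      Ok D (ρ o) (CC D X + CC D X)
        (fun t => res (Cs D.m o) (TC i l t) + res (Cs D.m o) (TE i l t)) := by
    intro i hi l hl
    have h1 := Finset.mem_Icc.mp hi
    have h2 := Finset.mem_Ioc.mp hl
    refine Ok.add h05 hD hσo ?_ ?_
    · exact term_C h01 h02 h05 h09 h12 h03 h04 h15 hD hW hmo h1.1 h2.1 h2.2 (hwc i)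
        (hwlev i l h1.1 h2.1) hX (hwX i h1.1 (by omega))
    · exact term_E h05 h04 h12' hD hW hmo hon h1.1 h2.1 h2.2 (hwc i)
        (hwlev i l h1.1 h2.1) hX (hwX i h1.1 (by omega))
  have hF : ∀ i ∈ Finset.Ioc D.m D.n, Ok D (ρ o) (CC D X + CC D X)
      (fun t => res (Cs D.m o) (TF i t) - res (Cs D.m o) (TG i t)) := by
    intro i hi
    have h1 := Finset.mem_Ioc.mp hi
    refine Ok.sub h05 hD hσo ?_ ?_
    · refine term_F h05 h04 h13 hD hW hmo hon h1.1 h1.2 (hwc i) ?_ hX (hwX i h1.1.le (by omega))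
      have := hws i
      rwa [Cs_of_lt h1.1] at this
    · exact term_G h01 h02 h05 h09 h12 h16 h03 h04 hD hW hmo hon h1.1 h1.2 (hkc i) (hks i) hX
        (hkX i h1.1 (by omega))
  have hn2 := hD.hnm
  have hinner : ∀ i ∈ Finset.Icc D.m D.n, Ok D (ρ o) (4 * CC D X)
      (fun t => ∑ l ∈ Finset.Ioc i D.n,
        (res (Cs D.m o) (TC i l t) + res (Cs D.m o) (TE i l t))) := by
    intro i hi
    have h1 := Finset.mem_Icc.mp hi
    refine (Ok.sum h05 hD hσo (Finset.Ioc i D.n) (hC i hi)).mono ?_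
    rw [Nat.card_Ioc]
    have h2 : ((D.n - i : ℕ) : ℝ≥0∞) ≤ 2 := by
      have : D.n - i ≤ 2 := by omega
      exact_mod_cast this
    calc ((D.n - i : ℕ) : ℝ≥0∞) * (CC D X + CC D X) ≤ 2 * (CC D X + CC D X) :=
          mul_le_mul' h2 le_rfl
      _ = 4 * CC D X := by ring
  have hall : Ok D (ρ o) (16 * CC D X) R := by
    have hs1 := Ok.sum h05 hD hσo (Finset.Icc D.m D.n) hinner
    have hs2 := Ok.sum h05 hD hσo (Finset.Ioc D.m D.n) hF
    refine (Ok.add h05 hD hσo hs1 hs2).mono ?_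
    rw [Nat.card_Icc, Nat.card_Ioc]
    have h2 : ((D.n + 1 - D.m : ℕ) : ℝ≥0∞) ≤ 3 := by
      have : D.n + 1 - D.m ≤ 3 := by omega
      exact_mod_cast this
    have h3 : ((D.n - D.m : ℕ) : ℝ≥0∞) ≤ 2 := by
      have : D.n - D.m ≤ 2 := by omega
      exact_mod_cast this
    calc ((D.n + 1 - D.m : ℕ) : ℝ≥0∞) * (4 * CC D X) +
          ((D.n - D.m : ℕ) : ℝ≥0∞) * (CC D X + CC D X) ≤
          3 * (4 * CC D X) + 2 * (CC D X + CC D X) :=
          add_le_add (mul_le_mul' h2 le_rfl) (mul_le_mul' h3 le_rfl)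
      _ = 16 * CC D X := by ring
  have hfin := hall.congr key
  refine ⟨hfin.1, ?_, hfin.2.trans ?_⟩
  · intro t ht
    exact SuppIn.sub (supp_res _ _) (supp_model h16 h03 h15 hD hmo hon (hws o t ht) ht)
  · unfold CC
    have h16' : (16 : ℝ≥0∞) = ENNReal.ofReal 16 := by simp
    rw [h16', ofReal_mul' (by norm_num)]
    refine mul_le_mul' (ENNReal.ofReal_le_ofReal ?_) le_rfl
    have hG := hD.G_two
    have hu := hD.u_pos (D.m + 1)
    have h4 : (16 : ℝ) ≤ D.G ^ 15 := by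
      calc (16 : ℝ) ≤ 2 ^ 15 := by norm_num
        _ ≤ D.G ^ 15 := pow_le_pow_left₀ (by norm_num) hG 15
    calc 16 * (D.G ^ 25 * D.u (D.m + 1) ^ 48) ≤ D.G ^ 15 * (D.G ^ 25 * D.u (D.m + 1) ^ 40) := by
          refine mul_le_mul h4 (mul_le_mul_of_nonneg_left ?_ (by positivity)) (by positivity)
            (by positivity)
          exact pow_le_pow_of_le_one hu.le (hD.u_lt _).le (by norm_num)
      _ = D.G ^ 40 * D.u (D.m + 1) ^ 40 := by ring

end Pool.Agent.Work.MP_b0497c_an.Unf.S
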