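import Pool.Agent.Work.MP_b0497c_an.Unf.S1819

set_option autoImplicit false
set_option linter.unusedSectionVars false

/-!
# S19: linear `κ` sources of the old classes
-/

open scoped ENNReal
open Set MeasureTheory

namespace Pool.Agent.Work.MP_b0497c_an.Unf.S

open W

namespace Dec

section weights

variable {D : Dat} {ρ : ℕ → ℝ → ℝ} {Str : ℝ → ℝ}

theorem u_anti (hD : D.Hyp) {i j : ℕ} (h1 : D.m < i) (h2 : i ≤ j) (h3 : j ≤ D.n + 1) :
    D.u j ≤ D.u i := by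
  induction j, h2 using Nat.le_induction with
  | base => exact le_rfl
  | succ j hj ih =>
    refine le_trans ?_ (ih (by omega))
    refine (hD.u_step j (by omega) (by omega)).trans ?_
    exact pow_le_of_le_one (hD.u_pos j).le (hD.u_lt j).le (by norm_num)

theorem u_16 (hD : D.Hyp) {i j : ℕ} (h1 : D.m < i) (h2 : i < j) (h3 : j ≤ D.n + 1) :
    D.u j ≤ D.u i ^ 16 := by
  obtain ⟨k, rfl⟩ : ∃ k, j = k + 1 := ⟨j - 1, by omega⟩
  exact (hD.u_step k (by omega) (by omega)).trans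
    (pow_le_pow_left₀ (hD.u_pos k).le (u_anti hD h1 (by omega) (by omega)) 16)

/-- Comparison of weights, one level comparison terms. -/
theorem wc1 (hD : D.Hyp) (hW : Wts D ρ Str) {i l o : ℕ} (hi : D.m ≤ i) (hil : i < l)
    (hl : l ≤ D.n) (ho : D.m < o) (hol : o ≤ l) {t : ℝ} (ht : t ∈ Icc 0 D.T) :
    ρ i t * D.α l t ≤ D.G ^ 7 / D.u l ^ 208 * (D.u o ^ 128 * ρ o t) := by
  have hG := G_one hD
  have hul := hD.u_pos l
  have huo := hD.u_pos o
  have hul1 := (hD.u_lt l).le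
  have huo1 := (hD.u_lt o).le
  have hlo : D.u l ≤ D.u o := u_anti hD ho hol (by omega)
  have hρo := (hW.wt o ho.le (by omega)).pos t ht
  have hρi := (hW.wt i hi (by omega)).pos t ht
  have hαl := (hD.α_wt l (by omega) (by omega)).pos t ht
  have key : ∀ A : ℝ, ρ i t * D.α l t ≤ A * ρ o t → A * D.u l ^ 208 ≤ D.G ^ 7 * D.u o ^ 128 →
      ρ i t * D.α l t ≤ D.G ^ 7 / D.u l ^ 208 * (D.u o ^ 128 * ρ o t) := by
    intro A h1 h2
    refine h1.trans ?_
    rw [← mul_assoc]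
    refine mul_le_mul_of_nonneg_right ?_ hρo.le
    rw [div_mul_eq_mul_div, le_div_iff₀ (by positivity)]
    exact h2
  have hG7 : 1 ≤ D.G ^ 7 := one_le_pow₀ hG
  have p1 : ∀ k : ℕ, D.u l ^ k ≤ D.u o ^ k := fun k => pow_le_pow_left₀ hul.le hlo k
  rcases lt_trichotomy o i with h | h | h
  · -- `o < i`
    have hui := hD.u_pos i
    have hli : D.u l ≤ D.u i := u_anti hD (by omega) hil.le (by omega)
    refine key (D.G ^ 7 / D.u i ^ 80) ?_ ?_
    · have h3 := hW.w2 o i ho.le h (by omega) t ht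
      have h4 := hD.α_le l (by omega) (by omega) t ht
      calc ρ i t * D.α l t ≤ (D.G ^ 6 / D.u i ^ 80 * ρ o t) * D.G :=
            mul_le_mul h3 h4 hαl.le (by positivity)
        _ = D.G ^ 7 / D.u i ^ 80 * ρ o t := by ring
    · rw [div_mul_eq_mul_div, div_le_iff₀ (by positivity)]
      calc D.G ^ 7 * D.u l ^ 208 = D.G ^ 7 * (D.u l ^ 128 * D.u l ^ 80) := by ring
        _ ≤ D.G ^ 7 * (D.u o ^ 128 * D.u i ^ 80) := by
            refine mul_le_mul_of_nonneg_left ?_ (by positivity)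
            exact mul_le_mul (p1 128) (pow_le_pow_left₀ hul.le hli 80) (by positivity)
              (by positivity)
        _ = D.G ^ 7 * D.u o ^ 128 * D.u i ^ 80 := by ring
  · -- `o = i`
    subst h
    refine key D.G ?_ ?_
    · have h4 := hD.α_le l (by omega) (by omega) t ht
      calc ρ o t * D.α l t ≤ ρ o t * D.G := mul_le_mul_of_nonneg_left h4 hρo.le
        _ = D.G * ρ o t := by ring
    · refine mul_le_mul ?_ ?_ (by positivity) (by positivity)
      · exact le_self_pow₀ hG (by norm_num)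
      · exact (pow_le_pow_of_le_one hul.le hul1 (by norm_num)).trans (p1 128)
  · rcases hol.eq_or_lt with h' | h'
    · -- `o = l`
      subst h'
      refine key (D.u o ^ 64) ?_ ?_
      · have h3 := hW.w1 i o hi hil hl t ht
        rw [mul_comm (ρ i t)]
        exact h3
      · calc D.u o ^ 64 * D.u o ^ 208 ≤ 1 * D.u o ^ 128 := by
              refine mul_le_mul (pow_le_one₀ huo.le huo1) ?_ (by positivity) zero_le_one
              exact pow_le_pow_of_le_one huo.le huo1 (by norm_num)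
          _ ≤ D.G ^ 7 * D.u o ^ 128 := mul_le_mul_of_nonneg_right hG7 (by positivity)
    · -- `i < o < l`
      refine key (D.G * D.u o ^ 64) ?_ ?_
      · have h3 := hW.w1 i o hi h (by omega) t ht
        have h4 := hD.α_cmp l o ho h' (by omega) t ht
        calc ρ i t * D.α l t ≤ ρ i t * (D.G * D.α o t) := mul_le_mul_of_nonneg_left h4 hρi.le
          _ = D.G * (D.α o t * ρ i t) := by ring
          _ ≤ D.G * (D.u o ^ 64 * ρ o t) := mul_le_mul_of_nonneg_left h3 (by positivity)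
          _ = D.G * D.u o ^ 64 * ρ o t := by ring
      · calc D.G * D.u o ^ 64 * D.u l ^ 208 ≤ D.G ^ 7 * D.u o ^ 64 * D.u o ^ 64 := by
              refine mul_le_mul ?_ ?_ (by positivity) (by positivity)
              · refine mul_le_mul_of_nonneg_right ?_ (by positivity)
                exact le_self_pow₀ hG (by norm_num)
              · exact (pow_le_pow_of_le_one hul.le hul1 (by norm_num)).trans (p1 64)
          _ = D.G ^ 7 * D.u o ^ 128 := by ring

theorem wc2 (hD : D.Hyp) (hW : Wts D ρ Str) {i o : ℕ} (ho : D.m < o) (hoi : o ≤ i)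
    (hi : i ≤ D.n) {t : ℝ} (ht : t ∈ Icc 0 D.T) :
    ρ i t ≤ D.G ^ 6 / D.u i ^ 208 * (D.u o ^ 128 * ρ o t) := by
  have hG := G_one hD
  have hui := hD.u_pos i
  have huo := hD.u_pos o
  have hui1 := (hD.u_lt i).le
  have hio : D.u i ≤ D.u o := u_anti hD ho hoi (by omega)
  have hρo := (hW.wt o ho.le (by omega)).pos t ht
  rcases hoi.eq_or_lt with h | h
  · subst h
    rw [← mul_assoc]
    refine le_mul_of_one_le_left hρo.le ?_
    rw [div_mul_eq_mul_div, le_div_iff₀ (by positivity), one_mul]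
    calc D.u o ^ 208 ≤ 1 * D.u o ^ 128 := by
          rw [one_mul]
          exact pow_le_pow_of_le_one huo.le hui1 (by norm_num)
      _ ≤ D.G ^ 6 * D.u o ^ 128 := mul_le_mul_of_nonneg_right (one_le_pow₀ hG) (by positivity)
  · refine (hW.w2 o i ho.le h hi t ht).trans ?_
    rw [← mul_assoc]
    refine mul_le_mul_of_nonneg_right ?_ hρo.le
    rw [div_mul_eq_mul_div, div_le_div_iff₀ (by positivity) (by positivity)]
    calc D.G ^ 6 * D.u i ^ 208 = D.G ^ 6 * D.u i ^ 128 * D.u i ^ 80 := by ring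
      _ ≤ D.G ^ 6 * D.u o ^ 128 * D.u i ^ 80 := by
          refine mul_le_mul_of_nonneg_right ?_ (by positivity)
          exact mul_le_mul_of_nonneg_left (pow_le_pow_left₀ hui.le hio 128) (by positivity)

theorem wc3 (hD : D.Hyp) (hW : Wts D ρ Str) {i o : ℕ} (ho : D.m < o) (hoi : o < i)
    (hi : i ≤ D.n) {t : ℝ} (ht : t ∈ Icc 0 D.T) :
    D.u i ^ 128 * ρ i t ≤ D.G ^ 6 * D.u i ^ 40 * (D.u o ^ 128 * ρ o t) := by
  have hG := G_one hD
  have hui := hD.u_pos i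
  have huo := hD.u_pos o
  have hρo := (hW.wt o ho.le (by omega)).pos t ht
  have h16 := u_16 hD ho hoi (by omega)
  have h8 : D.u i ^ 8 ≤ D.u o ^ 128 := by
    calc D.u i ^ 8 ≤ (D.u o ^ 16) ^ 8 := pow_le_pow_left₀ hui.le h16 8
      _ = D.u o ^ 128 := by ring
  calc D.u i ^ 128 * ρ i t ≤ D.u i ^ 128 * (D.G ^ 6 / D.u i ^ 80 * ρ o t) :=
        mul_le_mul_of_nonneg_left (hW.w2 o i ho.le hoi hi t ht) (by positivity)
    _ = D.G ^ 6 * D.u i ^ 40 * (D.u i ^ 8 * ρ o t) := by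
        field_simp
    _ ≤ D.G ^ 6 * D.u i ^ 40 * (D.u o ^ 128 * ρ o t) := by
        refine mul_le_mul_of_nonneg_left ?_ (by positivity)
        exact mul_le_mul_of_nonneg_right h8 hρo.le

/-- The common bound. -/
noncomputable def CC (D : Dat) : ℝ≥0∞ := ENNReal.ofReal (D.G ^ 30 * D.u (D.m + 1) ^ 40)

theorem le_CC (hD : D.Hyp) {a b l : ℕ} (ha : a ≤ 30) (hb : 40 ≤ b) (h1 : D.m < l)
    (h2 : l ≤ D.n + 1) : ENNReal.ofReal (D.G ^ a * D.u l ^ b) ≤ CC D := by
  refine ENNReal.ofReal_le_ofReal ?_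
  have hG := G_one hD
  have hul := hD.u_pos l
  refine mul_le_mul (pow_le_pow_right₀ hG ha) ?_ (by positivity) (by positivity)
  refine (pow_le_pow_of_le_one hul.le (hD.u_lt l).le hb).trans ?_
  exact pow_le_pow_left₀ hul.le (u_anti hD (Nat.lt_succ_self _) (by omega) h2) 40

end weights

/-- Associativity for columns. -/
theorem mul_ts_assoc {r : Md → (C3 →L[ℂ] ℂ)} {a : Md → C3} {g : Md → ℂ}
    (h1 : sK 0 (mulK r) ≠ ∞) (h2 : sK 0 (mulK (tsF a)) ≠ ∞) (h3 : sN 0 g ≠ ∞) :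
    mul r (mul (tsF a) g) = conv (ContinuousLinearMap.mul ℂ ℂ) (mul r a) g := by
  unfold mul
  rw [← act_kcomp h1 h2 h3]
  funext p
  unfold W.act W.conv
  refine tsum_congr fun q => ?_
  have tsC : ∀ x y : ℂ, (ContinuousLinearMap.toSpanSingletonCLE (𝕜 := ℂ) x : ℂ →L[ℂ] ℂ) y =
      y * x := fun x y => rfl
  have e1 : kcomp (mulK r) (mulK (tsF a)) p q =
      ContinuousLinearMap.toSpanSingletonCLE (𝕜 := ℂ) (∑' j, r (p - j) (a (j - q))) := by
    rw [ContinuousLinearEquiv.map_tsum]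
    unfold kcomp
    refine tsum_congr fun j => ?_
    ext
    rw [tsC]
    simp [mulK, tsF, ts]
  have e2 : (∑' j, r (p - j) (a (j - q))) = ∑' l, mulK r (p - q) l (a l) := by
    rw [← (Equiv.addRight q).tsum_eq]
    refine tsum_congr fun j => ?_
    simp [mulK, sub_sub, add_comm]
  rw [e1, e2, tsC]
  simp [mul_comm]

/-! ### the `κ` functional -/

/-- `⟨⟨N_o⁻¹ rw_o f⟩⟩` in the weight `u_o^128 ρ_o`. -/
noncomputable def Kap (D : Dat) (ρ : ℕ → ℝ → ℝ) (o : ℕ) (f : ℝ → Md → C3) : ℝ≥0∞ :=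
  Src D.T D.c D.γ (fun t => D.u o ^ 128 * ρ o t)
    (fun t => ((D.N o : ℂ)⁻¹) • mul (D.rw o t) (f t))

section kap

variable {D : Dat} {ρ : ℕ → ℝ → ℝ} {Str : ℝ → ℝ} {o : ℕ}

theorem N_enorm (hD : D.Hyp) (ho2 : o ≤ D.n + 1) :
    ‖((D.N o : ℂ)⁻¹)‖ₑ = ENNReal.ofReal ((D.N o)⁻¹) := by
  have h1 := hD.N_pos o ho2
  rw [← ofReal_norm, norm_inv, Complex.norm_real, Real.norm_of_nonneg (by linarith)]

theorem N_enorm' (hD : D.Hyp) (ho2 : o ≤ D.n + 1) :
    ‖(D.N o : ℂ)‖ₑ = ENNReal.ofReal (D.N o) := by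
  have h1 := hD.N_pos o ho2
  rw [← ofReal_norm, Complex.norm_real, Real.norm_of_nonneg (by linarith)]

theorem wtau (hD : D.Hyp) (hW : Wts D ρ Str) (ho1 : D.m < o) (ho2 : o ≤ D.n) :
    Wt D.T (fun t => D.u o ^ 128 * ρ o t) :=
  wt_mul (pow_pos (hD.u_pos o) 128) (hW.wt o ho1.le (by omega))

theorem Kap_congr {f g : ℝ → Md → C3} (h : ∀ t ∈ Icc 0 D.T, f t = g t) :
    Kap D ρ o f = Kap D ρ o g := by
  unfold Kap
  refine src_congr fun t ht => ?_
  rw [h t ht]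

theorem Kap_zero {f : ℝ → Md → C3} (h : ∀ t ∈ Icc 0 D.T, f t = 0) :
    Kap D ρ o f = 0 := by
  unfold Kap
  refine (src_congr (g := fun _ => 0) fun t ht => ?_).trans src_zero
  rw [h t ht]
  unfold mul
  rw [act_zero_right, smul_zero]

theorem Kap_le (h15 : S15) (hD : D.Hyp) (hW : Wts D ρ Str) (ho1 : D.m < o) (ho2 : o ≤ D.n)
    {f : ℝ → Md → C3} (hf : CM D.T f) :
    Kap D ρ o f ≤ ENNReal.ofReal D.G *
      Src D.T D.c D.γ (fun t => D.u o ^ 128 * ρ o t) f := by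
  have hG := G_pos hD
  have hN : 0 < D.N o := by linarith [hD.N_pos o (by omega)]
  have hwt := wtau hD hW ho1 ho2
  have h1 := ((pr_W05 Md ℂ D.T D.c D.γ (fun t => D.u o ^ 128 * ρ o t)
    (fun t => D.u o ^ 128 * ρ o t) (fun t => mul (D.rw o t) (f t))
    (fun t => mul (D.rw o t) (f t)) (par hD) hwt hwt).2.2.2.2 ((D.N o : ℂ)⁻¹)).2
  have h2 : Kap D ρ o f = ‖((D.N o : ℂ)⁻¹)‖ₑ * Src D.T D.c D.γ (fun t => D.u o ^ 128 * ρ o t)
    (fun t => mul (D.rw o t) (f t)) := h1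
  have h3 := pr_W03 Md C3 ℂ D.T D.c D.γ (fun t => D.u o ^ 128 * ρ o t)
    (fun t => mulK (D.rw o t)) f (par hD) hwt hf
  rw [h2, N_enorm hD (by omega)]
  calc _ ≤ ENNReal.ofReal ((D.N o)⁻¹) * (ENNReal.ofReal (D.G * D.N o) *
        Src D.T D.c D.γ (fun t => D.u o ^ 128 * ρ o t) f) := by
        refine mul_le_mul_right (h3.trans (mul_le_mul_left (KN_rw h15 hD ho1 (by omega)) _)) _
    _ = ENNReal.ofReal D.G * Src D.T D.c D.γ (fun t => D.u o ^ 128 * ρ o t) f := by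
        rw [← mul_assoc, ← ENNReal.ofReal_mul (by positivity)]
        congr 2
        field_simp

theorem Kap_add (h15 : S15) (hD : D.Hyp) (hW : Wts D ρ Str) (ho1 : D.m < o) (ho2 : o ≤ D.n)
    {f g : ℝ → Md → C3} (hf : Gd D f) (hg : Gd D g) :
    Kap D ρ o (fun t => f t + g t) ≤ Kap D ρ o f + Kap D ρ o g := by
  have hwt := wtau hD hW ho1 ho2
  have hr := gk_rw h15 hD ho1 (by omega)
  have hf' : Gd D (fun t => ((D.N o : ℂ)⁻¹) • mul (D.rw o t) (f t)) := (hr.act hD hf).smul hD _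
  have e1 : Kap D ρ o (fun t => f t + g t) = Src D.T D.c D.γ (fun t => D.u o ^ 128 * ρ o t)
      ((fun t => ((D.N o : ℂ)⁻¹) • mul (D.rw o t) (f t)) +
        (fun t => ((D.N o : ℂ)⁻¹) • mul (D.rw o t) (g t))) := by
    unfold Kap
    refine src_congr fun t ht => ?_
    show ((D.N o : ℂ)⁻¹) • mul (D.rw o t) (f t + g t) = ((D.N o : ℂ)⁻¹) • mul (D.rw o t) (f t) +
      ((D.N o : ℂ)⁻¹) • mul (D.rw o t) (g t)
    rw [← smul_add]
    congr 1
    exact act_add_right (hr.sK hD ht) (hf.sN hD ht) (hg.sN hD ht)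
  rw [e1]
  exact (pr_W05 Md ℂ D.T D.c D.γ (fun t => D.u o ^ 128 * ρ o t)
    (fun t => D.u o ^ 128 * ρ o t) _ _ (par hD) hwt hwt).2.2.2.1 hf'.cm

theorem Kap_smul (z : ℂ) (hD : D.Hyp) (hW : Wts D ρ Str) (ho1 : D.m < o) (ho2 : o ≤ D.n)
    (f : ℝ → Md → C3) : Kap D ρ o (fun t => z • f t) = ‖z‖ₑ * Kap D ρ o f := by
  have hwt := wtau hD hW ho1 ho2
  have e1 : Kap D ρ o (fun t => z • f t) = Src D.T D.c D.γ (fun t => D.u o ^ 128 * ρ o t)
      (z • (fun t => ((D.N o : ℂ)⁻¹) • mul (D.rw o t) (f t))) := by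
    unfold Kap
    refine src_congr fun t ht => ?_
    show ((D.N o : ℂ)⁻¹) • mul (D.rw o t) (z • f t) =
      z • (((D.N o : ℂ)⁻¹) • mul (D.rw o t) (f t))
    rw [smul_comm]
    congr 1
    exact act_smul_right z _ _
  rw [e1]
  exact ((pr_W05 Md ℂ D.T D.c D.γ (fun t => D.u o ^ 128 * ρ o t)
    (fun t => D.u o ^ 128 * ρ o t) (fun t => ((D.N o : ℂ)⁻¹) • mul (D.rw o t) (f t))
    (fun t => ((D.N o : ℂ)⁻¹) • mul (D.rw o t) (f t)) (par hD) hwt hwt).2.2.2.2 z).2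

theorem Kap_neg (hD : D.Hyp) (hW : Wts D ρ Str) (ho1 : D.m < o) (ho2 : o ≤ D.n)
    (f : ℝ → Md → C3) : Kap D ρ o (fun t => - f t) = Kap D ρ o f := by
  have h1 := Kap_smul (-1) hD hW ho1 ho2 f
  simpa using h1

theorem Kap_sub (h15 : S15) (hD : D.Hyp) (hW : Wts D ρ Str) (ho1 : D.m < o) (ho2 : o ≤ D.n)
    {f g : ℝ → Md → C3} (hf : Gd D f) (hg : Gd D g) :
    Kap D ρ o (fun t => f t - g t) ≤ Kap D ρ o f + Kap D ρ o g := by
  have h1 := Kap_add h15 hD hW ho1 ho2 hf (hg.neg hD)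
  rw [Kap_neg hD hW ho1 ho2] at h1
  simpa [sub_eq_add_neg] using h1

theorem Kap_sum (h15 : S15) (hD : D.Hyp) (hW : Wts D ρ Str) (ho1 : D.m < o) (ho2 : o ≤ D.n)
    {ι : Type} (s : Finset ι) {f : ι → ℝ → Md → C3} (hf : ∀ i ∈ s, Gd D (f i)) :
    Kap D ρ o (fun t => ∑ i ∈ s, f i t) ≤ ∑ i ∈ s, Kap D ρ o (f i) := by
  classical
  induction s using Finset.induction_on with
  | empty =>
    simp only [Finset.sum_empty]
    rw [Kap_zero fun _ _ => rfl]
  | insert a s ha ih =>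
    simp only [Finset.sum_insert ha]
    refine (Kap_add h15 hD hW ho1 ho2 (hf a (Finset.mem_insert_self a s))
      (Gd.sum hD s fun i hi => hf i (Finset.mem_insert_of_mem hi))).trans ?_
    exact add_le_add le_rfl (ih fun i hi => hf i (Finset.mem_insert_of_mem hi))

/-- Change of the weight, and restriction. -/
theorem Kap_bound (h15 : S15) (hD : D.Hyp) (hW : Wts D ρ Str) (ho1 : D.m < o) (ho2 : o ≤ D.n)
    {σ : ℝ → ℝ} (hσ : Wt D.T σ) {f : ℝ → Md → C3} (hf : CM D.T f) {a : ℝ} (ha : 0 ≤ a)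
    (h : ∀ t ∈ Icc 0 D.T, σ t ≤ a * (D.u o ^ 128 * ρ o t)) (S : Set Md) {b : ℝ≥0∞}
    (hb : Src D.T D.c D.γ σ f ≤ b) :
    Kap D ρ o (fun t => res S (f t)) ≤ ENNReal.ofReal (D.G * a) * b := by
  have hG := G_pos hD
  have h1 := ((pr_W05 Md C3 D.T D.c D.γ σ (fun t => D.u o ^ 128 * ρ o t) f f (par hD) hσ
    (wtau hD hW ho1 ho2)).2.1 a ha h).2
  refine (Kap_le h15 hD hW ho1 ho2 (cm_res S hf)).trans ?_
  rw [ENNReal.ofReal_mul hG.le, mul_assoc]
  refine mul_le_mul_right ?_ _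
  exact (src_res S f).trans (h1.trans (mul_le_mul_right hb _))

theorem wt_prod {T : ℝ} {ρ ρ' : ℝ → ℝ} (h : Wt T ρ) (h' : Wt T ρ') :
    Wt T (fun t => ρ t * ρ' t) :=
  ⟨fun t ht => mul_pos (h.pos t ht) (h'.pos t ht), h.cont.mul h'.cont,
    fun _ hx _ hy hxy => mul_le_mul (h.mono hx hy hxy) (h'.mono hx hy hxy) (h'.pos _ hx).le
      (h.pos _ hy).le⟩

theorem Wc_supp {w : ℝ → Md → C3} {i : ℕ} (hi : D.m < i) (t : ℝ) :
    SuppIn (Cl i) (Wc D w i t) := by
  unfold Wc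
  rw [cs_gt hi]
  exact supp_res _ _

theorem Wc_lev {w : ℝ → Md → C3} {i j : ℕ} (hi : D.m ≤ i) (hij : i ≤ j) (t : ℝ) :
    SuppIn (lev j : Set Md) (Wc D w i t) :=
  supp_mono ((cs_lev hi).trans (lev_sub hij)) (supp_res _ _)

variable {w : ℝ → Md → C3} {κ : ℝ → Md → ℂ}

/-- The errors of S12. -/
theorem T3 (h12 : S12) (h15 : S15) (hD : D.Hyp) (hW : Wts D ρ Str) (hA : Adm D ρ w κ)
    (ho1 : D.m < o) (ho2 : o ≤ D.n) {i l : ℕ} (hi : D.m ≤ i) (hil : i < l) (hl : l ≤ D.n) :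
    Kap D ρ o (fun t => res (Cs D.m o) (eL D l (Wc D w i) t)) ≤
      CC D * Nrm D.T D.c D.γ (ρ i) (Wc D w i) := by
  have hg := gd_Wc hD hW hA hi (by omega)
  have hwi := hW.wt i hi (by omega)
  obtain ⟨hcm, hsupp, hsrc⟩ := h12 D hD l (ρ i) (Wc D w i) (by omega) hl hwi hg.cm
    (fun t _ => Wc_lev hi (by omega) t) (hg.nrm hD hwi)
  by_cases hol : o ≤ l
  · have hG := G_pos hD
    have hul := hD.u_pos l
    have h1 := Kap_bound h15 hD hW ho1 ho2 (wt_prod hwi (hD.α_wt l (by omega) (by omega))) hcm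
      (a := D.G ^ 7 / D.u l ^ 208) (by positivity)
      (fun t ht => wc1 hD hW hi hil hl ho1 hol ht) (Cs D.m o) hsrc
    refine h1.trans ?_
    rw [← mul_assoc]
    refine mul_le_mul_left ?_ _
    rw [← ENNReal.ofReal_mul (by positivity)]
    have e1 : D.G * (D.G ^ 7 / D.u l ^ 208) * (D.G ^ 18 * D.u l ^ 256) =
        D.G ^ 26 * D.u l ^ 48 := by
      field_simp
    rw [e1]
    exact le_CC hD (by norm_num) (by norm_num) (by omega) (by omega)
  · rw [Kap_zero]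
    · exact zero_le
    · intro t ht
      refine res_disj (hsupp t ht) ?_
      rw [cs_gt ho1]
      exact cl_disj (by omega)

/-- The errors of S13. -/
theorem T1 (h13 : S13) (h15 : S15) (hD : D.Hyp) (hW : Wts D ρ Str) (hA : Adm D ρ w κ)
    (ho1 : D.m < o) (ho2 : o ≤ D.n) {i : ℕ} (hi : D.m < i) (hi2 : i ≤ D.n) :
    Kap D ρ o (fun t => res (Cs D.m o) (eC D i (Wc D w i) t)) ≤
      CC D * Nrm D.T D.c D.γ (ρ i) (Wc D w i) := by
  have hg := gd_Wc hD hW hA hi.le (by omega)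
  have hwi := hW.wt i hi.le (by omega)
  obtain ⟨hcm, hsupp, hsrc⟩ := h13 D hD i (ρ i) (Wc D w i) hi hi2 hwi hg.cm
    (fun t _ => Wc_supp hi t) (hg.nrm hD hwi)
  by_cases hol : o ≤ i
  · have hG := G_pos hD
    have hul := hD.u_pos i
    have h1 := Kap_bound h15 hD hW ho1 ho2 hwi hcm
      (a := D.G ^ 6 / D.u i ^ 208) (by positivity)
      (fun t ht => wc2 hD hW ho1 hol hi2 ht) (Cs D.m o) hsrc
    refine h1.trans ?_
    rw [← mul_assoc]
    refine mul_le_mul_left ?_ _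
    rw [← ENNReal.ofReal_mul (by positivity)]
    have e1 : D.G * (D.G ^ 6 / D.u i ^ 208) * (D.G ^ 18 * D.u i ^ 256) =
        D.G ^ 25 * D.u i ^ 48 := by
      field_simp
    rw [e1]
    exact le_CC hD (by norm_num) (by norm_num) (by omega) (by omega)
  · rw [Kap_zero]
    · exact zero_le
    · intro t ht
      refine res_disj (hsupp t ht) ?_
      rw [cs_gt ho1]
      exact cl_disj (by omega)

theorem mul_enorm_le : ‖ContinuousLinearMap.mul ℂ ℂ‖ₑ ≤ 1 := by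
  rw [← ofReal_norm]
  exact (ENNReal.ofReal_le_one).2 (ContinuousLinearMap.opNorm_mul_le ℂ ℂ)

theorem nrm_ka (hD : D.Hyp) (ho1 : D.m < o) (ho2 : o ≤ D.n) :
    Nrm D.T D.c D.γ (D.α o) (fun t => mul (D.rw o t) (D.a o t)) ≤
      ENNReal.ofReal (D.u o ^ 256) :=
  (nrm_zero (par hD).γ_nonneg (hD.α_wt o ho1 (by omega)) _).trans (hD.ka_le o ho1 ho2)

theorem ofReal_T_le (hD : D.Hyp) (x : ℝ≥0∞) : ENNReal.ofReal D.T * x ≤ x := by
  calc _ ≤ 1 * x := mul_le_mul_left (ENNReal.ofReal_le_one.2 hD.T_le) _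
    _ = x := one_mul x

/-- The couplings. -/
theorem T4 (h15 : S15) (hD : D.Hyp) (hW : Wts D ρ Str) (hA : Adm D ρ w κ)
    (ho1 : D.m < o) (ho2 : o ≤ D.n) {i : ℕ} (hi : D.m ≤ i) (hio : i < o) :
    Kap D ρ o (fun t => D.Cp o t (Wc D w i t)) ≤
      CC D * Nrm D.T D.c D.γ (ρ i) (Wc D w i) := by
  have hG := G_pos hD
  have hN : 0 < D.N o := by linarith [hD.N_pos o (by omega)]
  have hu := hD.u_pos o
  have hg := gd_Wc hD hW hA hi (by omega)
  have hwi := hW.wt i hi (by omega)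
  have hwa := hD.α_wt o ho1 (by omega)
  have hwt := wtau hD hW ho1 ho2
  set g : ℝ → Md → ℂ := fun t => conv (ContinuousLinearMap.mul ℂ ℂ)
    (mul (D.rw o t) (D.a o t)) (mul (D.rw o t) (Wc D w i t)) with hgdef
  have e1 : Kap D ρ o (fun t => D.Cp o t (Wc D w i t)) =
      ‖((D.N o : ℂ)⁻¹)‖ₑ * Src D.T D.c D.γ (fun t => D.u o ^ 128 * ρ o t) g := by
    have h1 := ((pr_W05 Md ℂ D.T D.c D.γ (fun t => D.u o ^ 128 * ρ o t)
      (fun t => D.u o ^ 128 * ρ o t) g g (par hD) hwt hwt).2.2.2.2 ((D.N o : ℂ)⁻¹)).2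
    rw [← h1]
    unfold Kap
    refine src_congr fun t ht => ?_
    show ((D.N o : ℂ)⁻¹) • mul (D.rw o t) (D.Cp o t (Wc D w i t)) = ((D.N o : ℂ)⁻¹) • g t
    rw [(h15 D hD o ho1 (by omega)).2.2.2.2.2.2.2.2.2.2.2.2 ho2 t ht _ (hg.sN hD ht)]
  have h2 : Nrm D.T D.c D.γ (fun t => D.α o t * ρ i t) g ≤
      1 * ENNReal.ofReal (D.u o ^ 256) *
        (ENNReal.ofReal (D.G * D.N o) * Nrm D.T D.c D.γ (ρ i) (Wc D w i)) := by
    refine (pr_W02 Md ℂ ℂ ℂ D.T D.c D.γ (D.α o) (ρ i) (ContinuousLinearMap.mul ℂ ℂ)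
      (fun t => mul (D.rw o t) (D.a o t)) (fun t => mul (D.rw o t) (Wc D w i t)) (par hD)
      hwa hwi).trans ?_
    refine mul_le_mul' (mul_le_mul' mul_enorm_le (nrm_ka hD ho1 ho2)) ?_
    refine (pr_W01 Md C3 ℂ D.T D.c D.γ (ρ i) (fun t => mulK (D.rw o t)) (Wc D w i) (par hD)
      hwi).trans ?_
    exact mul_le_mul_left (KN_rw h15 hD ho1 (by omega)) _
  have h3 := (pr_W05 Md ℂ D.T D.c D.γ (fun t => D.u o ^ 128 * ρ o t)
    (fun t => D.u o ^ 128 * ρ o t) g g (par hD) hwt hwt).1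
  have h4 := ((pr_W05 Md ℂ D.T D.c D.γ (fun t => D.α o t * ρ i t)
    (fun t => D.u o ^ 128 * ρ o t) g g (par hD) (wt_prod hwa hwi) hwt).2.1
    ((D.u o ^ 64)⁻¹) (by positivity) (fun t ht => by
      refine (hW.w1 i o hi hio ho2 t ht).trans (le_of_eq ?_)
      field_simp)).1
  rw [e1, N_enorm hD (by omega)]
  calc _ ≤ ENNReal.ofReal ((D.N o)⁻¹) * (ENNReal.ofReal ((D.u o ^ 64)⁻¹) *
        (1 * ENNReal.ofReal (D.u o ^ 256) *
        (ENNReal.ofReal (D.G * D.N o) * Nrm D.T D.c D.γ (ρ i) (Wc D w i)))) := by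
        refine mul_le_mul_right (h3.trans ((ofReal_T_le hD _).trans (h4.trans ?_))) _
        exact mul_le_mul_right h2 _
    _ = ENNReal.ofReal (D.G ^ 1 * D.u o ^ 192) * Nrm D.T D.c D.γ (ρ i) (Wc D w i) := by
        rw [one_mul, ← mul_assoc, ← mul_assoc, ← mul_assoc, ← ENNReal.ofReal_mul (by positivity),
          ← ENNReal.ofReal_mul (by positivity), ← ENNReal.ofReal_mul (by positivity)]
        congr 2
        field_simp
    _ ≤ CC D * Nrm D.T D.c D.γ (ρ i) (Wc D w i) := by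
        refine mul_le_mul_left ?_ _
        exact le_CC hD (by norm_num) (by norm_num) ho1 (by omega)

/-- `a_i N_i κ_i` in the weight of `κ_i`. -/
theorem nrm_fB (hD : D.Hyp) {σ : ℝ → ℝ} (hσ : Wt D.T σ) {i : ℕ} (hi : D.m < i)
    (hi2 : i ≤ D.n) :
    Nrm D.T D.c D.γ σ (fB D i κ) ≤ ENNReal.ofReal (D.G ^ 2) *
      Nrm D.T D.c D.γ σ (fun t => res (Cl i) (κ t)) := by
  have hG := G_pos hD
  have hN : 0 < D.N i := by linarith [hD.N_pos i (by omega)]
  have h1 := pr_W01 Md ℂ C3 D.T D.c D.γ σ (fun t => mulK (tsF (D.a i t)))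
    (fun t => (D.N i : ℂ) • res (Cl i) (κ t)) (par hD) hσ
  have h2 := ((pr_W05 Md ℂ D.T D.c D.γ σ σ (fun t => res (Cl i) (κ t))
    (fun t => res (Cl i) (κ t)) (par hD) hσ hσ).2.2.2.2 (D.N i : ℂ)).1
  have h3 : Nrm D.T D.c D.γ σ (fun t => (D.N i : ℂ) • res (Cl i) (κ t)) =
      ENNReal.ofReal (D.N i) * Nrm D.T D.c D.γ σ (fun t => res (Cl i) (κ t)) := by
    rw [← N_enorm' hD (by omega)]
    exact h2
  refine h1.trans ?_
  rw [h3]
  calc _ ≤ ENNReal.ofReal (D.G ^ 2 / D.N i) * (ENNReal.ofReal (D.N i) *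
        Nrm D.T D.c D.γ σ (fun t => res (Cl i) (κ t))) :=
        mul_le_mul_left (KN_a hD hi hi2) _
    _ = _ := by
        rw [← mul_assoc, ← ENNReal.ofReal_mul (by positivity)]
        congr 2
        field_simp

theorem fB_lev (h03 : S03) (hD : D.Hyp) {i : ℕ} (hi : D.m < i) (hi2 : i ≤ D.n) {t : ℝ}
    (ht : t ∈ Icc 0 D.T) : SuppIn (lev i : Set Md) (fB D i κ t) := by
  unfold fB
  refine supp_mul_lev h03 le_rfl (supp_mono (cl_lev i) (a_supp hD hi hi2 ht)) ?_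
  exact supp_smul _ (supp_mono (cl_lev i) (supp_res _ _))

theorem BB_lev (h03 : S03) (hW16 : W16) (hD : D.Hyp) {i : ℕ} (hi : D.m < i) (hi2 : i ≤ D.n)
    {t : ℝ} (ht : t ∈ Icc 0 D.T) : SuppIn (lev i : Set Md) (BB D i κ t) :=
  (h03 C3 C3 C3).1 _ i i _ le_rfl (idP_supp (Pl_supp hW16 hD hi.le hi2 ht))
    (fB_lev h03 hD hi hi2 ht)

/-- The corrections of the classes `i > o`. -/
theorem T2a (h15 : S15) (hD : D.Hyp) (hW : Wts D ρ Str) (hA : Adm D ρ w κ)
    (ho1 : D.m < o) (ho2 : o ≤ D.n) {i : ℕ} (hoi : o < i) (hi2 : i ≤ D.n) :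
    Kap D ρ o (fun t => res (Cs D.m o) (BB D i κ t)) ≤
      CC D * Nrm D.T D.c D.γ (fun t => D.u i ^ 128 * ρ i t) (fun t => res (Cl i) (κ t)) := by
  have hG := G_pos hD
  have hG2 := hD.G_two
  have hu := hD.u_pos i
  have hσ := wtau hD hW (by omega : D.m < i) hi2
  have hgf := gd_fB hD hW hA (by omega : D.m < i) hi2
  have h1 : Src D.T D.c D.γ (fun t => D.u i ^ 128 * ρ i t) (BB D i κ) ≤
      ENNReal.ofReal (1 + 2 * D.G) * (ENNReal.ofReal (D.G ^ 2) *
        Nrm D.T D.c D.γ (fun t => D.u i ^ 128 * ρ i t) (fun t => res (Cl i) (κ t))) := by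
    refine (pr_W03 Md C3 C3 D.T D.c D.γ (fun t => D.u i ^ 128 * ρ i t)
      (fun t => idK - (2 : ℂ) • D.Pl i t) (fB D i κ) (par hD) hσ hgf.cm).trans ?_
    refine mul_le_mul' (KN_idP hD (by omega) hi2) ?_
    refine ((pr_W05 Md C3 D.T D.c D.γ (fun t => D.u i ^ 128 * ρ i t)
      (fun t => D.u i ^ 128 * ρ i t) (fB D i κ) (fB D i κ) (par hD) hσ hσ).1).trans ?_
    exact (ofReal_T_le hD _).trans (nrm_fB hD hσ (by omega) hi2)
  have h2 := Kap_bound h15 hD hW ho1 ho2 hσ (gd_BB hD hW hA (by omega : D.m < i) hi2).cm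
    (a := D.G ^ 6 * D.u i ^ 40) (by positivity)
    (fun t ht => wc3 hD hW ho1 hoi hi2 ht) (Cs D.m o) h1
  refine h2.trans ?_
  rw [← mul_assoc, ← mul_assoc]
  refine mul_le_mul_left ?_ _
  rw [← ENNReal.ofReal_mul (by positivity), ← ENNReal.ofReal_mul (by positivity)]
  refine le_trans (ENNReal.ofReal_le_ofReal ?_)
    (le_CC (a := 12) (b := 40) hD (by norm_num) (by norm_num) (by omega : D.m < i) (by omega))
  have h3 : 1 + 2 * D.G ≤ D.G ^ 3 := by nlinarith [mul_pos hG hG]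
  calc D.G * (D.G ^ 6 * D.u i ^ 40) * (1 + 2 * D.G) * D.G ^ 2 =
        (D.G ^ 9 * D.u i ^ 40) * (1 + 2 * D.G) := by ring
    _ ≤ (D.G ^ 9 * D.u i ^ 40) * D.G ^ 3 := mul_le_mul_of_nonneg_left h3 (by positivity)
    _ = D.G ^ 12 * D.u i ^ 40 := by ring

/-- The diagonal correction: `rw_o P_o (1 - 2 Π_o) f` (algebra). -/
theorem T2_alg (h03 : S03) (h15 : S15) (hW16 : W16) (hD : D.Hyp) (ho1 : D.m < o)
    (ho2 : o ≤ D.n) {f : ℝ → Md → C3} (hf : Gd D f)
    (hfs : ∀ t ∈ Icc 0 D.T, SuppIn (lev o : Set Md) (f t)) {t : ℝ} (ht : t ∈ Icc 0 D.T) :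
    mul (D.rw o t) (res (Cl o) (act (idK - (2 : ℂ) • D.Pl o t) (f t))) =
      mul (D.rw o t) (-(res (Cl o) (f t)) -
        (2 : ℂ) • res (Cl o) (act (D.Pl o t) (res (Cl o) (f t)) -
          mul (D.p o t) (res (Cl o) (f t))) -
        (2 : ℂ) • res (Cl o) (act (D.Pl o t - D.Pl (o - 1) t)
          (res (lev (o - 1) : Set Md) (f t)))) := by
  have g1 := hf.rs (Cl o)
  have g2 := hf.rs (lev (o - 1) : Set Md)
  have kP := gk_Pl hD ho1.le ho2
  have kP' := gk_Pl hD (by omega : D.m ≤ o - 1) (by omega : o - 1 ≤ D.n)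
  have kp := gk_p h15 hD ho1 (by omega)
  have kr := gk_rw h15 hD ho1 (by omega)
  -- decomposition of `f`
  have e0 : f t = res (Cl o) (f t) + res (lev (o - 1) : Set Md) (f t) := by
    funext q
    show f t q = res (Cl o) (f t) q + res (lev (o - 1) : Set Md) (f t) q
    by_cases hq : q ∈ (lev o : Set Md)
    · by_cases hq' : q o = 0
      · have h1 : q ∈ (lev (o - 1) : Set Md) := by
          intro i hi
          rcases Nat.lt_or_ge o i with h | h
          · exact hq i h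
          · have : i = o := by omega
            rw [this]
            exact hq'
        have h2 : q ∉ Cl o := fun h => h.2 hq'
        simp [res, h1, h2]
      · have h1 : q ∈ Cl o := ⟨hq, hq'⟩
        have h2 : q ∉ (lev (o - 1) : Set Md) := cl_disj (by omega) q h1
        simp only [res, h1, h2, if_true, if_false, add_zero]
    · have h1 : q ∉ Cl o := fun h => hq h.1
      have h2 : q ∉ (lev (o - 1) : Set Md) := fun h => hq (lev_sub (by omega) h)
      simp only [res, h1, h2, if_false, add_zero]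
      exact hfs t ht q hq
  have e1 : act (idK - (2 : ℂ) • D.Pl o t) (f t) = f t - (2 : ℂ) • act (D.Pl o t) (f t) := by
    have h1 : sK 0 ((2 : ℂ) • D.Pl o t) ≠ ∞ := (kP.smul hD 2).sK hD ht
    rw [act_sub_left ((gk_id hD).sK hD ht) h1 (hf.sN hD ht), act_idK, act_smul_left]
  have e2 : act (D.Pl o t) (f t) = act (D.Pl o t) (res (Cl o) (f t)) +
      act (D.Pl o t) (res (lev (o - 1) : Set Md) (f t)) := by
    conv_lhs => rw [e0]
    exact act_add_right (kP.sK hD ht) (g1.sN hD ht) (g2.sN hD ht)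
  have e3 : act (D.Pl o t) (res (lev (o - 1) : Set Md) (f t)) =
      act (D.Pl o t - D.Pl (o - 1) t) (res (lev (o - 1) : Set Md) (f t)) +
      act (D.Pl (o - 1) t) (res (lev (o - 1) : Set Md) (f t)) := by
    rw [act_sub_left (kP.sK hD ht) (kP'.sK hD ht) (g2.sN hD ht), sub_add_cancel]
  have e4 : res (Cl o) (act (D.Pl (o - 1) t) (res (lev (o - 1) : Set Md) (f t))) = 0 := by
    refine res_disj (S' := (lev (o - 1) : Set Md)) ?_ (cl_disj (by omega))
    exact (h03 C3 C3 C3).1 _ (o - 1) (o - 1) _ le_rfl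
      (Pl_supp hW16 hD (by omega) (by omega) ht) (supp_res _ _)
  have e5 : res (Cl o) (mul (D.p o t) (res (Cl o) (f t))) =
      mul (D.p o t) (res (Cl o) (f t)) :=
    res_self (supp_mul_cl h03 (by omega : o - 1 < o) (p_supp h15 hD ho1 (by omega) ht)
      (supp_res _ _))
  set fo := res (Cl o) (f t) with hfo
  set fl := res (lev (o - 1) : Set Md) (f t) with hfl
  have e6 : res (Cl o) (act (idK - (2 : ℂ) • D.Pl o t) (f t)) =
      fo - (2 : ℂ) • (res (Cl o) (act (D.Pl o t) fo - mul (D.p o t) fo) +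
        mul (D.p o t) fo + res (Cl o) (act (D.Pl o t - D.Pl (o - 1) t) fl)) := by
    rw [e1, res_sub, res_smul, e2, res_add, e3, res_add, e4, res_sub, e5, ← hfo]
    congr 2
    abel
  -- finiteness
  have n1 : sN 0 fo ≠ ∞ := g1.sN hD ht
  have n2 : sN 0 (mul (D.p o t) fo) ≠ ∞ := by
    have : Gd D (fun t => mul (D.p o t) (res (Cl o) (f t))) := kp.act hD g1
    exact this.sN hD ht
  have n3 : sN 0 (res (Cl o) (act (D.Pl o t) fo - mul (D.p o t) fo)) ≠ ∞ := by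
    have : Gd D (fun t => res (Cl o) (act (D.Pl o t) (res (Cl o) (f t)) -
      mul (D.p o t) (res (Cl o) (f t)))) := ((kP.act hD g1).sub hD (kp.act hD g1)).rs _
    exact this.sN hD ht
  have n4 : sN 0 (res (Cl o) (act (D.Pl o t - D.Pl (o - 1) t) fl)) ≠ ∞ := by
    have : Gd D (fun t => res (Cl o) (act (D.Pl o t - D.Pl (o - 1) t)
      (res (lev (o - 1) : Set Md) (f t)))) := ((kP.sub hD kP').act hD g2).rs _
    exact this.sN hD ht
  have hr := kr.sK hD ht
  set E9 := res (Cl o) (act (D.Pl o t) fo - mul (D.p o t) fo) with hE9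
  set E8 := res (Cl o) (act (D.Pl o t - D.Pl (o - 1) t) fl) with hE8
  have n5 : sN 0 ((2 : ℂ) • (E9 + mul (D.p o t) fo + E8)) ≠ ∞ := by
    have : Gd D (fun t => (2 : ℂ) • (res (Cl o) (act (D.Pl o t) (res (Cl o) (f t)) -
      mul (D.p o t) (res (Cl o) (f t))) + mul (D.p o t) (res (Cl o) (f t)) +
      res (Cl o) (act (D.Pl o t - D.Pl (o - 1) t) (res (lev (o - 1) : Set Md) (f t))))) :=
      ((((((kP.act hD g1).sub hD (kp.act hD g1)).rs _).add hD (kp.act hD g1)).add hD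
        (((kP.sub hD kP').act hD g2).rs _))).smul hD 2
    exact this.sN hD ht
  have n6 : sN 0 (E9 + mul (D.p o t) fo) ≠ ∞ := by
    have : Gd D (fun t => (res (Cl o) (act (D.Pl o t) (res (Cl o) (f t)) -
      mul (D.p o t) (res (Cl o) (f t))) + mul (D.p o t) (res (Cl o) (f t)))) :=
      ((((kP.act hD g1).sub hD (kp.act hD g1)).rs _).add hD (kp.act hD g1))
    exact this.sN hD ht
  have n7 : sN 0 (-fo - (2 : ℂ) • E9) ≠ ∞ := by
    have : Gd D (fun t => -(res (Cl o) (f t)) -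
        (2 : ℂ) • res (Cl o) (act (D.Pl o t) (res (Cl o) (f t)) -
          mul (D.p o t) (res (Cl o) (f t)))) :=
      (g1.neg hD).sub hD ((((kP.act hD g1).sub hD (kp.act hD g1)).rs _).smul hD 2)
    exact this.sN hD ht
  have n8 : sN 0 ((2 : ℂ) • E8) ≠ ∞ := by
    have : Gd D (fun t => (2 : ℂ) • res (Cl o) (act (D.Pl o t - D.Pl (o - 1) t)
      (res (lev (o - 1) : Set Md) (f t)))) := (((kP.sub hD kP').act hD g2).rs _).smul hD 2
    exact this.sN hD ht
  have n9 : sN 0 ((2 : ℂ) • E9) ≠ ∞ := by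
    have : Gd D (fun t => (2 : ℂ) • res (Cl o) (act (D.Pl o t) (res (Cl o) (f t)) -
      mul (D.p o t) (res (Cl o) (f t)))) :=
      (((kP.act hD g1).sub hD (kp.act hD g1)).rs _).smul hD 2
    exact this.sN hD ht
  have hpr : mul (D.rw o t) (mul (D.p o t) fo) = mul (D.rw o t) fo :=
    ((h15 D hD o ho1 (by omega)).2.2.2.2.2.2.2.2.2.2.2.1 t ht fo n1).1
  rw [e6]
  have a1 : mul (D.rw o t) (fo - (2 : ℂ) • (E9 + mul (D.p o t) fo + E8)) =
      mul (D.rw o t) fo - (2 : ℂ) • (mul (D.rw o t) E9 + mul (D.rw o t) fo +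
        mul (D.rw o t) E8) := by
    have b1 : mul (D.rw o t) (fo - (2 : ℂ) • (E9 + mul (D.p o t) fo + E8)) =
        mul (D.rw o t) fo - mul (D.rw o t) ((2 : ℂ) • (E9 + mul (D.p o t) fo + E8)) :=
      act_sub_right hr n1 n5
    have b2 : mul (D.rw o t) ((2 : ℂ) • (E9 + mul (D.p o t) fo + E8)) =
        (2 : ℂ) • mul (D.rw o t) (E9 + mul (D.p o t) fo + E8) := act_smul_right _ _ _
    have b3 : mul (D.rw o t) (E9 + mul (D.p o t) fo + E8) =
        mul (D.rw o t) (E9 + mul (D.p o t) fo) + mul (D.rw o t) E8 :=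
      act_add_right hr n6 n4
    have b4 : mul (D.rw o t) (E9 + mul (D.p o t) fo) =
        mul (D.rw o t) E9 + mul (D.rw o t) (mul (D.p o t) fo) := act_add_right hr n3 n2
    rw [b1, b2, b3, b4, hpr]
  have a2 : mul (D.rw o t) (-fo - (2 : ℂ) • E9 - (2 : ℂ) • E8) =
      -mul (D.rw o t) fo - (2 : ℂ) • mul (D.rw o t) E9 - (2 : ℂ) • mul (D.rw o t) E8 := by
    have b1 : mul (D.rw o t) (-fo - (2 : ℂ) • E9 - (2 : ℂ) • E8) =
        mul (D.rw o t) (-fo - (2 : ℂ) • E9) - mul (D.rw o t) ((2 : ℂ) • E8) :=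
      act_sub_right hr n7 n8
    have b2 : mul (D.rw o t) (-fo - (2 : ℂ) • E9) =
        mul (D.rw o t) (-fo) - mul (D.rw o t) ((2 : ℂ) • E9) :=
      act_sub_right hr (by rw [sN_neg]; exact n1) n9
    have b3 : mul (D.rw o t) (-fo) = -mul (D.rw o t) fo := act_neg_right _ _
    have b4 : mul (D.rw o t) ((2 : ℂ) • E9) = (2 : ℂ) • mul (D.rw o t) E9 :=
      act_smul_right _ _ _
    have b5 : mul (D.rw o t) ((2 : ℂ) • E8) = (2 : ℂ) • mul (D.rw o t) E8 :=
      act_smul_right _ _ _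
    rw [b1, b2, b3, b4, b5]
  rw [a1, a2, smul_add, smul_add, two_smul ℂ (mul (D.rw o t) fo)]
  abel

theorem two_enorm : ‖(2 : ℂ)‖ₑ = ENNReal.ofReal 2 := by
  rw [← ofReal_norm]
  simp

/-- The diagonal correction. -/
theorem T2b (h03 : S03) (h08 : S08) (h09 : S09) (h15 : S15) (hW16 : W16) (hD : D.Hyp)
    (hW : Wts D ρ Str) (hA : Adm D ρ w κ) (ho1 : D.m < o) (ho2 : o ≤ D.n) :
    Kap D ρ o (fun t => res (Cs D.m o) (BB D o κ t)) ≤
      CC D * Nrm D.T D.c D.γ (fun t => D.u o ^ 128 * ρ o t) (fun t => res (Cl o) (κ t)) := by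
  have hG := G_pos hD
  have hG2 := hD.G_two
  have hu := hD.u_pos o
  have hN : 0 < D.N o := by linarith [hD.N_pos o (by omega)]
  have hσ := wtau hD hW ho1 ho2
  have hwa := hD.α_wt o ho1 (by omega)
  have hf := gd_fB hD hW hA ho1 ho2
  have hfs : ∀ t ∈ Icc 0 D.T, SuppIn (lev o : Set Md) (fB D o κ t) :=
    fun t ht => fB_lev h03 hD ho1 ho2 ht
  set Y : ℝ≥0∞ := Nrm D.T D.c D.γ (fun t => D.u o ^ 128 * ρ o t) (fun t => res (Cl o) (κ t))
    with hY
  have g1 := hf.rs (Cl o)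
  have g2 := hf.rs (lev (o - 1) : Set Md)
  have kP := gk_Pl hD ho1.le ho2
  have kP' := gk_Pl hD (by omega : D.m ≤ o - 1) (by omega : o - 1 ≤ D.n)
  have kp := gk_p h15 hD ho1 (by omega)
  have kr := gk_rw h15 hD ho1 (by omega)
  have hnf : Nrm D.T D.c D.γ (fun t => D.u o ^ 128 * ρ o t) (fB D o κ) ≤
      ENNReal.ofReal (D.G ^ 2) * Y := nrm_fB hD hσ ho1 ho2
  -- the three parts
  have e1 : Kap D ρ o (fun t => res (Cs D.m o) (BB D o κ t)) =
      Kap D ρ o (fun t => -(res (Cl o) (fB D o κ t)) -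
        (2 : ℂ) • res (Cl o) (act (D.Pl o t) (res (Cl o) (fB D o κ t)) -
          mul (D.p o t) (res (Cl o) (fB D o κ t))) -
        (2 : ℂ) • res (Cl o) (act (D.Pl o t - D.Pl (o - 1) t)
          (res (lev (o - 1) : Set Md) (fB D o κ t)))) := by
    unfold Kap
    refine src_congr fun t ht => ?_
    congr 1
    rw [cs_gt ho1]
    exact T2_alg h03 h15 hW16 hD ho1 ho2 hf hfs ht
  have G9 : Gd D (fun t => res (Cl o) (act (D.Pl o t) (res (Cl o) (fB D o κ t)) -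
          mul (D.p o t) (res (Cl o) (fB D o κ t)))) :=
    ((kP.act hD g1).sub hD (kp.act hD g1)).rs _
  have G8 : Gd D (fun t => res (Cl o) (act (D.Pl o t - D.Pl (o - 1) t)
          (res (lev (o - 1) : Set Md) (fB D o κ t)))) :=
    ((kP.sub hD kP').act hD g2).rs _
  have e2 := Kap_sub (ρ := ρ) h15 hD hW ho1 ho2 ((g1.neg hD).sub hD (G9.smul hD 2))
    (G8.smul hD 2)
  have e3 := Kap_sub (ρ := ρ) h15 hD hW ho1 ho2 (g1.neg hD) (G9.smul hD 2)
  rw [Kap_neg hD hW ho1 ho2, Kap_smul 2 hD hW ho1 ho2, two_enorm] at e3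
  rw [Kap_smul 2 hD hW ho1 ho2, two_enorm] at e2
  -- part 0
  have b0 : Kap D ρ o (fun t => res (Cl o) (fB D o κ t)) ≤
      ENNReal.ofReal (D.G * D.u o ^ 256) * Y := by
    set g : ℝ → Md → ℂ := fun t => conv (ContinuousLinearMap.mul ℂ ℂ)
      (mul (D.rw o t) (D.a o t)) (res (Cl o) (κ t)) with hgdef
    have c1 : Kap D ρ o (fun t => res (Cl o) (fB D o κ t)) ≤
        Src D.T D.c D.γ (fun t => D.u o ^ 128 * ρ o t) g := by
      have c2 : Kap D ρ o (fun t => res (Cl o) (fB D o κ t)) =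
          Src D.T D.c D.γ (fun t => D.u o ^ 128 * ρ o t) (fun t => res (Cl o) (g t)) := by
        unfold Kap
        refine src_congr fun t ht => ?_
        have c3 : mul (D.rw o t) (res (Cl o) (fB D o κ t)) =
            res (Cl o) (mul (D.rw o t) (fB D o κ t)) :=
          ((h03 C3 ℂ ℂ).2.2.1 (mulK (D.rw o t)) (o - 1) o (fB D o κ t) (by omega)
            ((h03 C3 ℂ ℂ).2.2.2.2.1 (o - 1) _ (rw_supp h15 hD ho1 (by omega) ht))).symm
        have c4 : mul (D.rw o t) (fB D o κ t) = (D.N o : ℂ) • g t := by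
          unfold fB
          have c5 : mul (tsF (D.a o t)) ((D.N o : ℂ) • res (Cl o) (κ t)) =
              (D.N o : ℂ) • mul (tsF (D.a o t)) (res (Cl o) (κ t)) := act_smul_right _ _ _
          have c6 : mul (D.rw o t) ((D.N o : ℂ) • mul (tsF (D.a o t)) (res (Cl o) (κ t))) =
              (D.N o : ℂ) • mul (D.rw o t) (mul (tsF (D.a o t)) (res (Cl o) (κ t))) :=
            act_smul_right _ _ _
          rw [c5, c6, mul_ts_assoc (kr.sK hD ht) ((gk_a hD ho1 ho2).sK hD ht)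
            ((gd_κc hD hW hA ho1 (by omega)).sN hD ht)]
        rw [c3, c4, res_smul, smul_smul, inv_mul_cancel₀, one_smul]
        exact_mod_cast hN.ne'
      rw [c2]
      exact src_res _ _
    have c7 : Nrm D.T D.c D.γ (fun t => D.α o t * (D.u o ^ 128 * ρ o t)) g ≤
        1 * ENNReal.ofReal (D.u o ^ 256) * Y := by
      refine (pr_W02 Md ℂ ℂ ℂ D.T D.c D.γ (D.α o) (fun t => D.u o ^ 128 * ρ o t)
        (ContinuousLinearMap.mul ℂ ℂ) (fun t => mul (D.rw o t) (D.a o t))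
        (fun t => res (Cl o) (κ t)) (par hD) hwa hσ).trans ?_
      exact mul_le_mul' (mul_le_mul' mul_enorm_le (nrm_ka hD ho1 ho2)) le_rfl
    have c8 := (pr_W05 Md ℂ D.T D.c D.γ (fun t => D.u o ^ 128 * ρ o t)
      (fun t => D.u o ^ 128 * ρ o t) g g (par hD) hσ hσ).1
    have c9 := ((pr_W05 Md ℂ D.T D.c D.γ (fun t => D.α o t * (D.u o ^ 128 * ρ o t))
      (fun t => D.u o ^ 128 * ρ o t) g g (par hD) (wt_prod hwa hσ) hσ).2.1
      D.G hG.le (fun t ht =>
        mul_le_mul_of_nonneg_right (hD.α_le o ho1 (by omega) t ht) (hσ.pos t ht).le)).1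
    refine c1.trans (c8.trans ((ofReal_T_le hD _).trans (c9.trans ?_)))
    refine (mul_le_mul_right c7 _).trans (le_of_eq ?_)
    rw [one_mul, ← mul_assoc, ← ENNReal.ofReal_mul hG.le]
  -- part 9
  have b9 : Kap D ρ o (fun t => res (Cl o) (act (D.Pl o t) (res (Cl o) (fB D o κ t)) -
          mul (D.p o t) (res (Cl o) (fB D o κ t)))) ≤
      ENNReal.ofReal (D.G ^ 16 * D.u o ^ 256) * Y := by
    obtain ⟨hcm, hsrc⟩ := h09 D hD o (fun t => D.u o ^ 128 * ρ o t)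
      (fun t => res (Cl o) (fB D o κ t)) ho1 ho2 hσ g1.cm (fun t _ => supp_res _ _)
      (g1.nrm hD hσ)
    have h1 := Kap_bound h15 hD hW ho1 ho2 hσ hcm (a := 1) zero_le_one
      (fun t ht => by rw [one_mul]) (Cl o) hsrc
    refine h1.trans ?_
    calc _ ≤ ENNReal.ofReal (D.G * 1) * (ENNReal.ofReal (D.G ^ 13 * D.u o ^ 256) *
          (ENNReal.ofReal (D.G ^ 2) * Y)) := by
          refine mul_le_mul_right (mul_le_mul_right ?_ _) _
          exact (nrm_res _ _).trans hnf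
      _ = _ := by
          rw [← mul_assoc, ← mul_assoc, ← ENNReal.ofReal_mul (by positivity),
            ← ENNReal.ofReal_mul (by positivity)]
          congr 2
          ring
  -- part 8
  have b8 : Kap D ρ o (fun t => res (Cl o) (act (D.Pl o t - D.Pl (o - 1) t)
          (res (lev (o - 1) : Set Md) (fB D o κ t)))) ≤
      ENNReal.ofReal (D.G ^ 17 * D.u o ^ 256) * Y := by
    obtain ⟨hcm, hsrc⟩ := h08 D hD o (fun t => D.u o ^ 128 * ρ o t)
      (fun t => res (lev (o - 1) : Set Md) (fB D o κ t)) ho1 ho2 hσ g2.cm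
      (fun t _ => supp_res _ _) (g2.nrm hD hσ)
    have h1 := Kap_bound h15 hD hW ho1 ho2 (wt_prod hσ hwa) hcm (a := D.G) hG.le
      (fun t ht => by
        rw [mul_comm D.G]
        exact mul_le_mul_of_nonneg_left (hD.α_le o ho1 (by omega) t ht) (hσ.pos t ht).le)
      (Cl o) hsrc
    refine h1.trans ?_
    calc _ ≤ ENNReal.ofReal (D.G * D.G) * (ENNReal.ofReal (D.G ^ 13 * D.u o ^ 256) *
          (ENNReal.ofReal (D.G ^ 2) * Y)) := by
          refine mul_le_mul_right (mul_le_mul_right ?_ _) _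
          exact (nrm_res _ _).trans hnf
      _ = _ := by
          rw [← mul_assoc, ← mul_assoc, ← ENNReal.ofReal_mul (by positivity),
            ← ENNReal.ofReal_mul (by positivity)]
          congr 2
          ring
  rw [e1]
  refine (e2.trans (add_le_add (e3.trans (add_le_add b0 (mul_le_mul_right b9 _)))
    (mul_le_mul_right b8 _))).trans ?_
  rw [← mul_assoc, ← mul_assoc, ← add_mul, ← add_mul]
  refine mul_le_mul_left ?_ _
  rw [← ENNReal.ofReal_mul (by norm_num), ← ENNReal.ofReal_mul (by norm_num),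
    ← ENNReal.ofReal_add (by positivity) (by positivity),
    ← ENNReal.ofReal_add (by positivity) (by positivity)]
  refine le_trans (ENNReal.ofReal_le_ofReal ?_)
    (le_CC (a := 20) (b := 256) hD (by norm_num) (by norm_num) ho1 (by omega))
  have hG1 := G_one hD
  have d1 : D.G ≤ D.G ^ 17 := le_self_pow₀ hG1 (by norm_num)
  have d2 : D.G ^ 16 ≤ D.G ^ 17 := pow_le_pow_right₀ hG1 (by norm_num)
  have d3 : 5 * D.G ^ 17 ≤ D.G ^ 20 := by
    have : (5 : ℝ) ≤ D.G ^ 3 := by nlinarith [mul_pos hG hG]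
    calc 5 * D.G ^ 17 ≤ D.G ^ 3 * D.G ^ 17 := mul_le_mul_of_nonneg_right this (by positivity)
      _ = D.G ^ 20 := by ring
  calc D.G * D.u o ^ 256 + 2 * (D.G ^ 16 * D.u o ^ 256) + 2 * (D.G ^ 17 * D.u o ^ 256) =
        (D.G + 2 * D.G ^ 16 + 2 * D.G ^ 17) * D.u o ^ 256 := by ring
    _ ≤ D.G ^ 20 * D.u o ^ 256 := by
        refine mul_le_mul_of_nonneg_right ?_ (by positivity)
        linarith

/-- The corrections. -/
theorem T2 (h03 : S03) (h08 : S08) (h09 : S09) (h15 : S15) (hW16 : W16) (hD : D.Hyp)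
    (hW : Wts D ρ Str) (hA : Adm D ρ w κ) (ho1 : D.m < o) (ho2 : o ≤ D.n) {i : ℕ}
    (hi : D.m < i) (hi2 : i ≤ D.n) :
    Kap D ρ o (fun t => res (Cs D.m o) (BB D i κ t)) ≤
      CC D * Nrm D.T D.c D.γ (fun t => D.u i ^ 128 * ρ i t) (fun t => res (Cl i) (κ t)) := by
  rcases lt_trichotomy o i with h | h | h
  · exact T2a h15 hD hW hA ho1 ho2 h hi2
  · subst h
    exact T2b h03 h08 h09 h15 hW16 hD hW hA ho1 ho2
  · rw [Kap_zero]
    · exact zero_le
    · intro t ht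
      refine res_disj (BB_lev h03 hW16 hD hi hi2 ht) ?_
      rw [cs_gt ho1]
      exact cl_disj h

end kap

end Dec

open Dec in
theorem s19 (h03 : S03) (h04 : S04) (h08 : S08) (h09 : S09) (h12 : S12) (h13 : S13)
    (h15 : S15) (hW16 : W16) : S19 := by
  intro D ρ Str hD hW w κ hA o ho1 ho2
  have hG := G_pos hD
  have hG1 := G_one hD
  have hmn := hD.hmn
  have hnm := hD.hnm
  have kr := gk_rw h15 hD ho1 (by omega)
  have hQ := fun t (ht : t ∈ Icc 0 D.T) => QL_eq h03 h04 h15 hW16 hD hW hA ho1.le ho2 ht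
  have gW : ∀ i, D.m ≤ i → i ≤ D.n → Gd D (Wc D w i) :=
    fun i h1 h2 => gd_Wc hD hW hA h1 (by omega)
  have gA1 : ∀ i ∈ Finset.Ioc D.m D.n, Gd D (fun t => res (Cs D.m o) (eC D i (Wc D w i) t)) := by
    intro i hi
    obtain ⟨hi1, hi2⟩ := Finset.mem_Ioc.1 hi
    exact (gd_eC h15 hD hi1 hi2 (gW i hi1.le hi2)).rs _
  have gA2 : ∀ i ∈ Finset.Ioc D.m D.n, Gd D (fun t => res (Cs D.m o) (BB D i κ t)) := by
    intro i hi
    obtain ⟨hi1, hi2⟩ := Finset.mem_Ioc.1 hi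
    exact (gd_BB hD hW hA hi1 hi2).rs _
  have gA : Gd D (fun t => ∑ i ∈ Finset.Ioc D.m D.n, (res (Cs D.m o) (eC D i (Wc D w i) t) -
        res (Cs D.m o) (BB D i κ t))) :=
    Gd.sum hD _ fun i hi => (gA1 i hi).sub hD (gA2 i hi)
  have gB1 : ∀ i ∈ Finset.Icc D.m D.n, ∀ l ∈ Finset.Ioc i D.n,
      Gd D (fun t => res (Cs D.m o) (eL D l (Wc D w i) t)) := by
    intro i hi l hl
    obtain ⟨hi1, hi2⟩ := Finset.mem_Icc.1 hi
    obtain ⟨hl1, hl2⟩ := Finset.mem_Ioc.1 hl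
    exact (gd_eL h15 hD (by omega) hl2 (gW i hi1 hi2)).rs _
  have gB2 : ∀ i ∈ Finset.Icc D.m D.n, Gd D (fun t => ∑ l ∈ Finset.Ioc i D.n,
      res (Cs D.m o) (eL D l (Wc D w i) t)) := fun i hi => Gd.sum hD _ (gB1 i hi)
  have gB : Gd D (fun t => ∑ i ∈ Finset.Icc D.m D.n, ∑ l ∈ Finset.Ioc i D.n,
        res (Cs D.m o) (eL D l (Wc D w i) t)) := Gd.sum hD _ gB2
  have gC1 : ∀ i ∈ Finset.Ico D.m o, Gd D (fun t => D.Cp o t (Wc D w i t)) := by
    intro i hi
    obtain ⟨hi1, hi2⟩ := Finset.mem_Ico.1 hi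
    exact gd_Cp h15 hD ho1 ho2 (gW i hi1 (by omega))
  have gC : Gd D (fun t => ∑ i ∈ Finset.Ico D.m o, D.Cp o t (Wc D w i t)) :=
    Gd.sum hD _ gC1
  have gQ : Gd D (QL D o w κ) := ((gA.add hD gB).add hD gC).congr hQ
  refine ⟨(kr.act hD gQ).cm, ?_⟩
  set X : ℕ → ℝ≥0∞ := fun i => Nrm D.T D.c D.γ (ρ i) (Wc D w i) with hX
  set Y : ℕ → ℝ≥0∞ := fun i => Nrm D.T D.c D.γ (fun t => D.u i ^ 128 * ρ i t)
    (fun t => res (Cl i) (κ t)) with hY
  have hXN : XN D ρ w κ = ∑ i ∈ Finset.Icc D.m (D.n + 1), X i +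
      ∑ i ∈ Finset.Ioc D.m (D.n + 1), Y i := rfl
  have kA : Kap D ρ o (fun t => ∑ i ∈ Finset.Ioc D.m D.n,
      (res (Cs D.m o) (eC D i (Wc D w i) t) - res (Cs D.m o) (BB D i κ t))) ≤
      CC D * ∑ i ∈ Finset.Icc D.m (D.n + 1), X i +
      CC D * ∑ i ∈ Finset.Ioc D.m (D.n + 1), Y i := by
    refine (Kap_sum h15 hD hW ho1 ho2 _ fun i hi => (gA1 i hi).sub hD (gA2 i hi)).trans ?_
    calc _ ≤ ∑ i ∈ Finset.Ioc D.m D.n, (CC D * X i + CC D * Y i) := by
          refine Finset.sum_le_sum fun i hi => ?_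
          obtain ⟨hi1, hi2⟩ := Finset.mem_Ioc.1 hi
          refine (Kap_sub h15 hD hW ho1 ho2 (gA1 i hi) (gA2 i hi)).trans ?_
          exact add_le_add (T1 h13 h15 hD hW hA ho1 ho2 hi1 hi2)
            (T2 h03 h08 h09 h15 hW16 hD hW hA ho1 ho2 hi1 hi2)
      _ = CC D * ∑ i ∈ Finset.Ioc D.m D.n, X i + CC D * ∑ i ∈ Finset.Ioc D.m D.n, Y i := by
          rw [Finset.sum_add_distrib, Finset.mul_sum, Finset.mul_sum]
      _ ≤ _ := by
          refine add_le_add (mul_le_mul_right (Finset.sum_le_sum_of_subset ?_) _)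
            (mul_le_mul_right (Finset.sum_le_sum_of_subset ?_) _)
          · intro i hi
            rw [Finset.mem_Ioc] at hi
            rw [Finset.mem_Icc]
            omega
          · intro i hi
            rw [Finset.mem_Ioc] at hi ⊢
            omega
  have kB : Kap D ρ o (fun t => ∑ i ∈ Finset.Icc D.m D.n, ∑ l ∈ Finset.Ioc i D.n,
        res (Cs D.m o) (eL D l (Wc D w i) t)) ≤
      2 * (CC D * ∑ i ∈ Finset.Icc D.m (D.n + 1), X i) := by
    refine (Kap_sum h15 hD hW ho1 ho2 _ gB2).trans ?_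
    calc _ ≤ ∑ i ∈ Finset.Icc D.m D.n, 2 * (CC D * X i) := by
          refine Finset.sum_le_sum fun i hi => ?_
          obtain ⟨hi1, hi2⟩ := Finset.mem_Icc.1 hi
          refine (Kap_sum h15 hD hW ho1 ho2 _ (gB1 i hi)).trans ?_
          calc _ ≤ ∑ _l ∈ Finset.Ioc i D.n, CC D * X i := by
                refine Finset.sum_le_sum fun l hl => ?_
                obtain ⟨hl1, hl2⟩ := Finset.mem_Ioc.1 hl
                exact T3 h12 h15 hD hW hA ho1 ho2 hi1 hl1 hl2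
            _ = ((D.n - i : ℕ) : ℝ≥0∞) * (CC D * X i) := by
                rw [Finset.sum_const, Nat.card_Ioc, nsmul_eq_mul]
            _ ≤ 2 * (CC D * X i) := by
                refine mul_le_mul_left ?_ _
                have : D.n - i ≤ 2 := by omega
                exact_mod_cast this
      _ = 2 * (CC D * ∑ i ∈ Finset.Icc D.m D.n, X i) := by
          rw [Finset.mul_sum, Finset.mul_sum]
      _ ≤ _ := by
          refine mul_le_mul_right (mul_le_mul_right (Finset.sum_le_sum_of_subset ?_) _) _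
          exact Finset.Icc_subset_Icc_right (by omega)
  have kC : Kap D ρ o (fun t => ∑ i ∈ Finset.Ico D.m o, D.Cp o t (Wc D w i t)) ≤
      CC D * ∑ i ∈ Finset.Icc D.m (D.n + 1), X i := by
    refine (Kap_sum h15 hD hW ho1 ho2 _ gC1).trans ?_
    calc _ ≤ ∑ i ∈ Finset.Ico D.m o, CC D * X i := by
          refine Finset.sum_le_sum fun i hi => ?_
          obtain ⟨hi1, hi2⟩ := Finset.mem_Ico.1 hi
          exact T4 h15 hD hW hA ho1 ho2 hi1 hi2
      _ = CC D * ∑ i ∈ Finset.Ico D.m o, X i := by rw [Finset.mul_sum]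
      _ ≤ _ := by
          refine mul_le_mul_right (Finset.sum_le_sum_of_subset ?_) _
          intro i hi
          rw [Finset.mem_Ico] at hi
          rw [Finset.mem_Icc]
          omega
  have k1 : Kap D ρ o (QL D o w κ) ≤ 4 * (CC D * XN D ρ w κ) := by
    rw [Kap_congr hQ]
    refine (Kap_add h15 hD hW ho1 ho2 (gA.add hD gB) gC).trans ?_
    refine (add_le_add (Kap_add h15 hD hW ho1 ho2 gA gB) le_rfl).trans ?_
    refine (add_le_add (add_le_add kA kB) kC).trans ?_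
    rw [hXN, mul_add]
    set P := CC D * ∑ i ∈ Finset.Icc D.m (D.n + 1), X i
    set R := CC D * ∑ i ∈ Finset.Ioc D.m (D.n + 1), Y i
    calc P + R + 2 * P + P = 4 * P + R := by ring
      _ ≤ 4 * P + 4 * R := by
          refine add_le_add le_rfl ?_
          calc R = 1 * R := (one_mul R).symm
            _ ≤ 4 * R := mul_le_mul_left (by norm_num) _
      _ = 4 * (P + R) := by ring
  refine k1.trans ?_
  rw [← mul_assoc]
  refine mul_le_mul_left ?_ _
  have h4 : (4 : ℝ≥0∞) = ENNReal.ofReal 4 := by simp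
  unfold CC
  rw [h4, ← ENNReal.ofReal_mul (by norm_num), ← mul_assoc]
  refine ENNReal.ofReal_le_ofReal (mul_le_mul_of_nonneg_right ?_
    (by have := hD.u_pos (D.m + 1); positivity))
  have h5 : (4 : ℝ) ≤ D.G ^ 10 := by
    have h6 : (4 : ℝ) ≤ D.G ^ 2 := by nlinarith [hD.G_two]
    exact h6.trans (pow_le_pow_right₀ hG1 (by norm_num))
  calc 4 * D.G ^ 30 ≤ D.G ^ 10 * D.G ^ 30 := mul_le_mul_of_nonneg_right h5 (by positivity)
    _ = D.G ^ 40 := by ring

end Pool.Agent.Work.MP_b0497c_an.Unf.S
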