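import Pool.Agent.Work.MP_b0497c_an.Unf.SStmts2

set_option autoImplicit false
set_option linter.unusedSectionVars false
set_option maxSynthPendingDepth 3

/-!
# S22: bilinear sources of the new class (helper59)
-/

open scoped ENNReal
open Set MeasureTheory

namespace Pool.Agent.Work.MP_b0497c_an.Unf.S

open W

namespace S22a

section general

variable {Γ : Type} [AddCommGroup Γ] [Len Γ]
  {E F G : Type} [NormedAddCommGroup E] [NormedSpace ℂ E] [NormedAddCommGroup F] [NormedSpace ℂ F]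
  [NormedAddCommGroup G] [NormedSpace ℂ G]

theorem W05aux_iSup_mul {ι : Type} (s : Set ι) (z : ℝ≥0∞) (a : ι → ℝ≥0∞) :
    (⨆ t ∈ s, z * a t) = z * ⨆ t ∈ s, a t := by
  rw [ENNReal.mul_iSup]
  congr 1
  ext t
  rw [ENNReal.mul_iSup]

theorem Nrm_congr {T c γ : ℝ} {ρ : ℝ → ℝ} {f g : ℝ → Γ → E} (h : ∀ t ∈ Icc 0 T, f t = g t) :
    Nrm T c γ ρ f = Nrm T c γ ρ g := by
  unfold Nrm
  refine tsum_congr fun m => ?_
  refine iSup_congr fun t => iSup_congr fun ht => ?_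
  rw [h t ht]

theorem Src_congr {T c γ : ℝ} {ρ : ℝ → ℝ} {f g : ℝ → Γ → E} (h : ∀ t ∈ Icc 0 T, f t = g t) :
    Src T c γ ρ f = Src T c γ ρ g := by
  unfold Src
  refine tsum_congr fun m => ?_
  refine iSup_congr fun t => iSup_congr fun ht => ?_
  refine setLIntegral_congr_fun measurableSet_Ioc fun s hs => ?_
  have hs' : s ∈ Icc 0 T := ⟨hs.1.le, hs.2.trans ht.2⟩
  show ENNReal.ofReal _ * ‖f s m‖ₑ = ENNReal.ofReal _ * ‖g s m‖ₑ
  rw [h s hs']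

theorem CM_congr {T : ℝ} {f g : ℝ → Γ → E} (h : ∀ t ∈ Icc 0 T, f t = g t) (hf : CM T f) :
    CM T g := by
  intro m
  exact (hf m).congr fun t ht => by
    show g t m = f t m
    rw [h t ht]

theorem CM_add {T : ℝ} {f g : ℝ → Γ → E} (hf : CM T f) (hg : CM T g) : CM T (f + g) :=
  fun m => (hf m).add (hg m)

theorem CM_smul {T : ℝ} {f : ℝ → Γ → E} (z : ℂ) (hf : CM T f) : CM T (z • f) :=
  fun m => (hf m).const_smul z

/-- the coefficients are absolutely summable at every time -/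
theorem sN_le {T c γ : ℝ} {ρ : ℝ → ℝ} (hp : Par T c γ) (hρ : Wt T ρ) (f : ℝ → Γ → E) {t : ℝ}
    (ht : t ∈ Icc 0 T) : sN 0 (f t) ≤ ENNReal.ofReal (ρ t) * Nrm T c γ ρ f := by
  unfold sN Nrm
  rw [← ENNReal.tsum_mul_left]
  refine ENNReal.tsum_le_tsum fun m => ?_
  have h1 : ENNReal.ofReal (Real.exp (0 * len m)) = 1 := by simp
  rw [h1, one_mul]
  refine le_trans ?_ (mul_le_mul_right (le_iSup₂ (f := fun t (_ : t ∈ Icc 0 T) =>
    ENNReal.ofReal (Real.exp ((c - γ * t) * len m) / ρ t) * ‖f t m‖ₑ) t ht) _)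
  rw [← mul_assoc, ← ENNReal.ofReal_mul (hρ.pos t ht).le]
  refine le_mul_of_one_le_left zero_le ?_
  rw [← ENNReal.ofReal_one]
  apply ENNReal.ofReal_le_ofReal
  rw [mul_div_cancel₀ _ (hρ.pos t ht).ne', Real.one_le_exp_iff]
  refine mul_nonneg ?_ (len_nonneg m)
  have := mul_le_mul_of_nonneg_left ht.2 hp.γ_nonneg
  linarith [hp.le]

theorem sN_fin {T c γ : ℝ} {ρ : ℝ → ℝ} (hp : Par T c γ) (hρ : Wt T ρ) {f : ℝ → Γ → E}
    (hf : Nrm T c γ ρ f ≠ ∞) {t : ℝ} (ht : t ∈ Icc 0 T) : sN 0 (f t) ≠ ∞ :=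
  ne_top_of_le_ne_top (ENNReal.mul_ne_top ENNReal.ofReal_ne_top hf) (sN_le hp hρ f ht)

/-- one derivative costs a bit of radius -/
theorem Nrm_der {T c γ δ : ℝ} {ρ : ℝ → ℝ} (hδ : 0 < δ) (hρ : Wt T ρ) (f : ℝ → Γ → E)
    (h : ℝ → Γ → F) (hh : ∀ t ∈ Icc 0 T, ∀ m, ‖h t m‖ ≤ len m * ‖f t m‖) :
    Nrm T (c - δ) γ ρ h ≤ ENNReal.ofReal (1 / δ) * Nrm T c γ ρ f := by
  unfold Nrm
  rw [← ENNReal.tsum_mul_left]
  refine ENNReal.tsum_le_tsum fun m => ?_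
  rw [← W05aux_iSup_mul]
  refine iSup₂_mono fun t ht => ?_
  have hρt := hρ.pos t ht
  have h1 : ‖h t m‖ₑ ≤ ENNReal.ofReal (len m) * ‖f t m‖ₑ := by
    rw [← ofReal_norm, ← ofReal_norm, ← ENNReal.ofReal_mul (len_nonneg m)]
    exact ENNReal.ofReal_le_ofReal (hh t ht m)
  refine (mul_le_mul_right h1 _).trans ?_
  rw [← mul_assoc, ← mul_assoc, ← ENNReal.ofReal_mul (by positivity),
    ← ENNReal.ofReal_mul (by positivity)]
  refine mul_le_mul_left (ENNReal.ofReal_le_ofReal ?_) _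
  have h2 : len m ≤ 1 / δ * Real.exp (δ * len m) := by
    have := Real.add_one_le_exp (δ * len m)
    rw [div_mul_eq_mul_div, le_div_iff₀ hδ, one_mul]
    nlinarith
  have h3 : Real.exp ((c - γ * t) * len m) =
      Real.exp ((c - δ - γ * t) * len m) * Real.exp (δ * len m) := by
    rw [← Real.exp_add]; congr 1; ring
  rw [h3]
  have h4 : 0 ≤ Real.exp ((c - δ - γ * t) * len m) / ρ t := by positivity
  calc Real.exp ((c - δ - γ * t) * len m) / ρ t * len m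
      ≤ Real.exp ((c - δ - γ * t) * len m) / ρ t * (1 / δ * Real.exp (δ * len m)) :=
        mul_le_mul_of_nonneg_left h2 h4
    _ = 1 / δ * (Real.exp ((c - δ - γ * t) * len m) * Real.exp (δ * len m) / ρ t) := by ring


theorem Wt_mul {T : ℝ} {ρ ρ' : ℝ → ℝ} (h : Wt T ρ) (h' : Wt T ρ') :
    Wt T (fun t => ρ t * ρ' t) :=
  ⟨fun t ht => mul_pos (h.pos t ht) (h'.pos t ht), h.cont.mul h'.cont, fun a ha b hb hab =>
    mul_le_mul (h.mono ha hb hab) (h'.mono ha hb hab) (h'.pos a ha).le (h.pos b hb).le⟩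

theorem Wt_const {T : ℝ} {a : ℝ} {ρ : ℝ → ℝ} (ha : 0 < a) (h : Wt T ρ) :
    Wt T (fun t => a * ρ t) :=
  ⟨fun t ht => mul_pos ha (h.pos t ht), continuousOn_const.mul h.cont, fun _ hx _ hy hxy =>
    mul_le_mul_of_nonneg_left (h.mono hx hy hxy) ha.le⟩

theorem Wt_one (T : ℝ) : Wt T Dat.one' :=
  ⟨fun _ _ => by unfold Dat.one'; norm_num, continuousOn_const, fun _ _ _ _ _ => le_rfl⟩

/-- comparison of weights -/
theorem Nrm_wt (h5 : W05) {T c γ a : ℝ} {ρ ρ' : ℝ → ℝ} (hp : Par T c γ) (hρ : Wt T ρ)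
    (hρ' : Wt T ρ') (ha : 0 ≤ a) (h : ∀ t ∈ Icc 0 T, ρ t ≤ a * ρ' t) (f : ℝ → Γ → E) :
    Nrm T c γ ρ' f ≤ ENNReal.ofReal a * Nrm T c γ ρ f :=
  ((h5 Γ E T c γ ρ ρ' f f hp hρ hρ').2.1 a ha h).1

theorem Src_wt (h5 : W05) {T c γ a : ℝ} {ρ ρ' : ℝ → ℝ} (hp : Par T c γ) (hρ : Wt T ρ)
    (hρ' : Wt T ρ') (ha : 0 ≤ a) (h : ∀ t ∈ Icc 0 T, ρ t ≤ a * ρ' t) (f : ℝ → Γ → E) :
    Src T c γ ρ' f ≤ ENNReal.ofReal a * Src T c γ ρ f :=
  ((h5 Γ E T c γ ρ ρ' f f hp hρ hρ').2.1 a ha h).2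

theorem Nrm_add (h5 : W05) {T c γ : ℝ} {ρ : ℝ → ℝ} (hp : Par T c γ) (hρ : Wt T ρ)
    (f g : ℝ → Γ → E) : Nrm T c γ ρ (f + g) ≤ Nrm T c γ ρ f + Nrm T c γ ρ g :=
  (h5 Γ E T c γ ρ ρ f g hp hρ hρ).2.2.1

theorem Src_add (h5 : W05) {T c γ : ℝ} {ρ : ℝ → ℝ} (hp : Par T c γ) (hρ : Wt T ρ)
    (f g : ℝ → Γ → E) (hf : CM T f) : Src T c γ ρ (f + g) ≤ Src T c γ ρ f + Src T c γ ρ g :=
  (h5 Γ E T c γ ρ ρ f g hp hρ hρ).2.2.2.1 hf

theorem Nrm_smul (h5 : W05) {T c γ : ℝ} {ρ : ℝ → ℝ} (hp : Par T c γ) (hρ : Wt T ρ)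
    (z : ℂ) (f : ℝ → Γ → E) : Nrm T c γ ρ (z • f) = ‖z‖ₑ * Nrm T c γ ρ f :=
  ((h5 Γ E T c γ ρ ρ f f hp hρ hρ).2.2.2.2 z).1

theorem Src_smul (h5 : W05) {T c γ : ℝ} {ρ : ℝ → ℝ} (hp : Par T c γ) (hρ : Wt T ρ)
    (z : ℂ) (f : ℝ → Γ → E) : Src T c γ ρ (z • f) = ‖z‖ₑ * Src T c γ ρ f :=
  ((h5 Γ E T c γ ρ ρ f f hp hρ hρ).2.2.2.2 z).2

theorem act_smul' (A : Γ → Γ → (E →L[ℂ] F)) (z : ℂ) (f : Γ → E) :
    act A (z • f) = z • act A f := by
  funext m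
  unfold act
  rw [Pi.smul_apply, ← tsum_const_smul'']
  refine tsum_congr fun l => ?_
  rw [Pi.smul_apply, map_smul]

theorem act_neg' (A : Γ → Γ → (E →L[ℂ] F)) (f : Γ → E) : act A (-f) = - act A f := by
  have := act_smul' A (-1) f
  rw [neg_one_smul, neg_one_smul] at this
  exact this

theorem act_negA (A : Γ → Γ → (E →L[ℂ] F)) (f : Γ → E) : act (-A) f = - act A f := by
  funext m
  show ∑' l, (-A m l) (f l) = -∑' l, A m l (f l)
  rw [← tsum_neg]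
  refine tsum_congr fun l => ?_
  rfl

theorem sK_neg (c : ℝ) (A : Γ → Γ → (E →L[ℂ] F)) : sK c (-A) = sK c A := by
  unfold sK
  refine tsum_congr fun k => ?_
  congr 1
  refine iSup_congr fun l => ?_
  show ‖-(A (l + k) l)‖ₑ = _
  rw [enorm_neg]

theorem sN_neg (c : ℝ) (f : Γ → E) : sN c (-f) = sN c f := by
  unfold sN
  refine tsum_congr fun k => ?_
  rw [Pi.neg_apply, enorm_neg]

theorem act_add' (h11 : W11) [CompleteSpace F] {A : Γ → Γ → (E →L[ℂ] F)} (hA : sK 0 A ≠ ∞)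
    {f g : Γ → E} (hf : sN 0 f ≠ ∞) (hg : sN 0 g ≠ ∞) : act A (f + g) = act A f + act A g :=
  ((h11 Γ E F F F).2.2.2.1 A A f g hA hA hf hg).2

theorem act_sub' (h11 : W11) [CompleteSpace F] {A : Γ → Γ → (E →L[ℂ] F)} (hA : sK 0 A ≠ ∞)
    {f g : Γ → E} (hf : sN 0 f ≠ ∞) (hg : sN 0 g ≠ ∞) : act A (f - g) = act A f - act A g := by
  rw [sub_eq_add_neg, sub_eq_add_neg, act_add' h11 hA hf (by rwa [sN_neg]), act_neg']

theorem act_addA (h11 : W11) [CompleteSpace F] {A B : Γ → Γ → (E →L[ℂ] F)} (hA : sK 0 A ≠ ∞)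
    (hB : sK 0 B ≠ ∞) {f : Γ → E} (hf : sN 0 f ≠ ∞) : act (A + B) f = act A f + act B f :=
  ((h11 Γ E F F F).2.2.2.1 A B f f hA hB hf hf).1

theorem act_subA (h11 : W11) [CompleteSpace F] {A B : Γ → Γ → (E →L[ℂ] F)} (hA : sK 0 A ≠ ∞)
    (hB : sK 0 B ≠ ∞) {f : Γ → E} (hf : sN 0 f ≠ ∞) : act (A - B) f = act A f - act B f := by
  rw [sub_eq_add_neg, sub_eq_add_neg, act_addA h11 hA (by rwa [sK_neg]) hf, act_negA]

theorem sK_beta (h10 : W10) (β : E →L[ℂ] F →L[ℂ] G) {f : Γ → E} (hf : sN 0 f ≠ ∞) :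
    sK 0 (mulK fun q => β (f q)) ≠ ∞ := by
  rw [(h10 Γ F G G 0 le_rfl).2.2.2.1]
  refine ne_top_of_le_ne_top (ENNReal.mul_ne_top (enorm_ne_top (x := β)) hf) ?_
  unfold sN
  rw [← ENNReal.tsum_mul_left]
  refine ENNReal.tsum_le_tsum fun m => ?_
  rw [mul_left_comm]
  exact mul_le_mul_right (β.le_opENorm _) _

theorem conv_add_right (h10 : W10) (h11 : W11) [CompleteSpace G] (β : E →L[ℂ] F →L[ℂ] G)
    {f : Γ → E} {g g' : Γ → F} (hf : sN 0 f ≠ ∞) (hg : sN 0 g ≠ ∞) (hg' : sN 0 g' ≠ ∞) :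
    conv β f (g + g') = conv β f g + conv β f g' :=
  act_add' h11 (sK_beta h10 β hf) hg hg'

theorem conv_add_left (h10 : W10) (h11 : W11) [CompleteSpace G] (β : E →L[ℂ] F →L[ℂ] G)
    {f f' : Γ → E} {g : Γ → F} (hf : sN 0 f ≠ ∞) (hf' : sN 0 f' ≠ ∞) (hg : sN 0 g ≠ ∞) :
    conv β (f + f') g = conv β f g + conv β f' g := by
  have h1 := act_addA h11 (sK_beta h10 β hf) (sK_beta h10 β hf') hg
  have h2 : ((mulK fun q => β (f q)) + (mulK fun q => β (f' q)) : Γ → Γ → (F →L[ℂ] G)) =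
      mulK fun q => β ((f + f') q) := by
    funext m l
    show β (f (m - l)) + β (f' (m - l)) = β (f (m - l) + f' (m - l))
    rw [map_add]
  rw [h2] at h1
  exact h1

end general

section md

variable {E F G : Type} [NormedAddCommGroup E] [NormedSpace ℂ E] [NormedAddCommGroup F]
  [NormedSpace ℂ F] [NormedAddCommGroup G] [NormedSpace ℂ G]

theorem suppIn_mono {E : Type} [Zero E] {S S' : Set Md} (h : S ⊆ S') {f : Md → E}
    (hf : SuppIn S f) : SuppIn S' f := fun q hq => hf q fun h' => hq (h h')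

theorem cl_sub_lev (j : ℕ) : Cl j ⊆ (lev j : Set Md) := fun _ hq => hq.1

theorem lev_mono' {i j : ℕ} (h : i ≤ j) : (lev i : Set Md) ⊆ (lev j : Set Md) := by
  intro q hq k hk
  exact hq k (lt_of_le_of_lt h hk)

theorem res_supp {E : Type} [Zero E] (S : Set Md) (f : Md → E) : SuppIn S (res S f) := by
  intro q hq
  simp [res, hq]

theorem res_eq_zero {E : Type} [Zero E] {n : ℕ} {f : Md → E}
    (hf : SuppIn (lev n : Set Md) f) : res (Cl (n + 1)) f = 0 := by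
  funext q
  by_cases hq : q ∈ Cl (n + 1)
  · have h1 : q ∉ (lev n : Set Md) := fun h => hq.2 (h (n + 1) (Nat.lt_succ_self n))
    simp [res, hf q h1]
  · simp [res, hq]

theorem res_add' (S : Set Md) (f g : Md → E) : res S (f + g) = res S f + res S g := by
  funext q
  by_cases hq : q ∈ S <;> simp [res, hq]

theorem res_neg' (S : Set Md) (f : Md → E) : res S (-f) = - res S f := by
  funext q
  by_cases hq : q ∈ S <;> simp [res, hq]

theorem CM_res {T : ℝ} (S : Set Md) {f : ℝ → Md → E} (hf : CM T f) :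
    CM T (fun t => res S (f t)) := by
  intro q
  by_cases hq : q ∈ S
  · have : (fun t => res S (f t) q) = fun t => f t q := by
      funext t
      simp [res, hq]
    rw [this]
    exact hf q
  · have : (fun t => res S (f t) q) = fun _ => 0 := by
      funext t
      simp [res, hq]
    rw [this]
    exact continuousOn_const

/-- a function of level `n + 1` is the sum of its parts -/
theorem split {n : ℕ} {f : Md → E} (hf : SuppIn (lev (n + 1) : Set Md) f) :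
    f = res (lev n : Set Md) f + res (Cl (n + 1)) f := by
  funext q
  by_cases hq : q ∈ (lev (n + 1) : Set Md)
  · by_cases h0 : q (n + 1) = 0
    · have h1 : q ∈ (lev n : Set Md) := by
        intro i hi
        rcases Nat.lt_or_ge (n + 1) i with h | h
        · exact hq i h
        · have : i = n + 1 := by omega
          rw [this]
          exact h0
      have h2 : q ∉ Cl (n + 1) := fun h => h.2 h0
      simp only [res, Pi.add_apply, if_pos h1, if_neg h2, add_zero]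
    · have h1 : q ∉ (lev n : Set Md) := fun h => h0 (h (n + 1) (Nat.lt_succ_self n))
      have h2 : q ∈ Cl (n + 1) := ⟨hq, h0⟩
      simp only [res, Pi.add_apply, if_neg h1, if_pos h2, zero_add]
  · have h1 : q ∉ (lev n : Set Md) := fun h => hq (lev_mono' (Nat.le_succ n) h)
    have h2 : q ∉ Cl (n + 1) := fun h => hq h.1
    simp only [res, Pi.add_apply, if_neg h1, if_neg h2, add_zero]
    exact hf q hq

/-- the new class part of a product -/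
theorem bil (h03 : S03) (h04 : S04) (h2 : W02) (h5 : W05) (h10 : W10) (h11 : W11) (h12 : W12)
    [CompleteSpace F] [CompleteSpace G]
    {T c γ g : ℝ} {ρ α : ℝ → ℝ} (hp : Par T c γ) (hρ : Wt T ρ) (hα : Wt T α) (hg : 0 ≤ g)
    (hαρ : ∀ t ∈ Icc 0 T, α t ≤ g) (n : ℕ) (β : E →L[ℂ] F →L[ℂ] G)
    {f0 f1 : ℝ → Md → E} {g0 g1 : ℝ → Md → F} (hf0 : CM T f0) (hf1 : CM T f1) (hg0 : CM T g0)
    (hg1 : CM T g1) (sf0 : SuppT T (lev n : Set Md) f0) (sg0 : SuppT T (lev n : Set Md) g0)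
    {a1 a2 a3 b1 b2 : ℝ≥0∞} (ha1 : Nrm T c γ α f0 ≤ a1) (ha2 : Nrm T c γ ρ f1 ≤ a2)
    (ha3 : Nrm T c γ α f1 ≤ a3) (hb1 : Nrm T c γ α g0 ≤ b1) (hb2 : Nrm T c γ ρ g1 ≤ b2)
    (fa1 : a1 ≠ ∞) (fa2 : a2 ≠ ∞) (fa3 : a3 ≠ ∞) (fb1 : b1 ≠ ∞) (fb2 : b2 ≠ ∞) :
    CM T (fun t => res (Cl (n + 1)) (conv β (f0 t + f1 t) (g0 t + g1 t))) ∧
    Nrm T c γ ρ (fun t => res (Cl (n + 1)) (conv β (f0 t + f1 t) (g0 t + g1 t))) ≤
      ENNReal.ofReal g * (‖β‖ₑ * (a1 * b2 + a2 * b1 + a3 * b2)) := by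
  have nf0 : Nrm T c γ α f0 ≠ ∞ := ne_top_of_le_ne_top fa1 ha1
  have nf1 : Nrm T c γ ρ f1 ≠ ∞ := ne_top_of_le_ne_top fa2 ha2
  have nf1' : Nrm T c γ α f1 ≠ ∞ := ne_top_of_le_ne_top fa3 ha3
  have ng0 : Nrm T c γ α g0 ≠ ∞ := ne_top_of_le_ne_top fb1 hb1
  have ng1 : Nrm T c γ ρ g1 ≠ ∞ := ne_top_of_le_ne_top fb2 hb2
  -- the formula
  have key : ∀ t ∈ Icc 0 T, res (Cl (n + 1)) (conv β (f0 t + f1 t) (g0 t + g1 t)) =
      ((fun t => res (Cl (n + 1)) (conv β (f0 t) (g1 t))) +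
        (fun t => res (Cl (n + 1)) (conv β (f1 t) (g0 t))) +
        (fun t => res (Cl (n + 1)) (conv β (f1 t) (g1 t))) : ℝ → Md → G) t := by
    intro t ht
    have s0 := sN_fin hp hα nf0 ht
    have s1 := sN_fin hp hρ nf1 ht
    have s2 := sN_fin hp hα ng0 ht
    have s3 := sN_fin hp hρ ng1 ht
    have s23 : sN 0 (g0 t + g1 t) ≠ ∞ := by
      refine ne_top_of_le_ne_top (ENNReal.add_ne_top.2 ⟨s2, s3⟩) ?_
      unfold sN
      rw [← ENNReal.tsum_add]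
      refine ENNReal.tsum_le_tsum fun m => ?_
      rw [← mul_add]
      exact mul_le_mul_right (enorm_add_le _ _) _
    rw [conv_add_left h10 h11 β s0 s1 s23, conv_add_right h10 h11 β s0 s2 s3,
      conv_add_right h10 h11 β s1 s2 s3, res_add', res_add', res_add',
      res_eq_zero ((h03 E F G).2.2.2.2.2.1 β n (f0 t) (g0 t) (sf0 t ht) (sg0 t ht)), zero_add]
    show _ = res (Cl (n + 1)) (conv β (f0 t) (g1 t)) + res (Cl (n + 1)) (conv β (f1 t) (g0 t)) +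
      res (Cl (n + 1)) (conv β (f1 t) (g1 t))
    abel
  have c01 : CM T (fun t => res (Cl (n + 1)) (conv β (f0 t) (g1 t))) :=
    CM_res _ ((h12 Md E F G T c γ α ρ hp hα hρ).2.2 β f0 g1 hf0 hg1 nf0 ng1)
  have c10 : CM T (fun t => res (Cl (n + 1)) (conv β (f1 t) (g0 t))) :=
    CM_res _ ((h12 Md E F G T c γ ρ α hp hρ hα).2.2 β f1 g0 hf1 hg0 nf1 ng0)
  have c11 : CM T (fun t => res (Cl (n + 1)) (conv β (f1 t) (g1 t))) :=
    CM_res _ ((h12 Md E F G T c γ α ρ hp hα hρ).2.2 β f1 g1 hf1 hg1 nf1' ng1)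
  refine ⟨CM_congr (fun t ht => (key t ht).symm) (CM_add (CM_add c01 c10) c11), ?_⟩
  rw [Nrm_congr key]
  have n01 : Nrm T c γ ρ (fun t => res (Cl (n + 1)) (conv β (f0 t) (g1 t))) ≤
      ENNReal.ofReal g * (‖β‖ₑ * (a1 * b2)) := by
    refine ((h04 G n n le_rfl).2.2.1 T c γ ρ (Cl (n + 1)) (fun t => conv β (f0 t) (g1 t))).1.trans ?_
    refine (Nrm_wt h5 hp (Wt_mul hα hρ) hρ hg (fun t ht =>
      mul_le_mul_of_nonneg_right (hαρ t ht) (hρ.pos t ht).le) _).trans ?_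
    refine mul_le_mul_right ?_ _
    refine (h2 Md E F G T c γ α ρ β f0 g1 hp hα hρ).trans ?_
    rw [mul_assoc]
    exact mul_le_mul_right (mul_le_mul' ha1 hb2) _
  have n10 : Nrm T c γ ρ (fun t => res (Cl (n + 1)) (conv β (f1 t) (g0 t))) ≤
      ENNReal.ofReal g * (‖β‖ₑ * (a2 * b1)) := by
    refine ((h04 G n n le_rfl).2.2.1 T c γ ρ (Cl (n + 1)) (fun t => conv β (f1 t) (g0 t))).1.trans ?_
    refine (Nrm_wt h5 hp (Wt_mul hρ hα) hρ hg (fun t ht => by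
      rw [mul_comm]
      exact mul_le_mul_of_nonneg_right (hαρ t ht) (hρ.pos t ht).le) _).trans ?_
    refine mul_le_mul_right ?_ _
    refine (h2 Md E F G T c γ ρ α β f1 g0 hp hρ hα).trans ?_
    rw [mul_assoc]
    exact mul_le_mul_right (mul_le_mul' ha2 hb1) _
  have n11 : Nrm T c γ ρ (fun t => res (Cl (n + 1)) (conv β (f1 t) (g1 t))) ≤
      ENNReal.ofReal g * (‖β‖ₑ * (a3 * b2)) := by
    refine ((h04 G n n le_rfl).2.2.1 T c γ ρ (Cl (n + 1)) (fun t => conv β (f1 t) (g1 t))).1.trans ?_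
    refine (Nrm_wt h5 hp (Wt_mul hα hρ) hρ hg (fun t ht =>
      mul_le_mul_of_nonneg_right (hαρ t ht) (hρ.pos t ht).le) _).trans ?_
    refine mul_le_mul_right ?_ _
    refine (h2 Md E F G T c γ α ρ β f1 g1 hp hα hρ).trans ?_
    rw [mul_assoc]
    exact mul_le_mul_right (mul_le_mul' ha3 hb2) _
  refine (Nrm_add h5 hp hρ _ _).trans ?_
  refine (add_le_add ((Nrm_add h5 hp hρ _ _).trans (add_le_add n01 n10)) n11).trans ?_
  rw [mul_add, mul_add, mul_add, mul_add]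


theorem Nrm_mul (h1 : W01) (h9 : W09) {T c γ : ℝ} {σ : ℝ → ℝ} (hp : Par T c γ) (hσ : Wt T σ)
    {b : ℝ≥0∞} {a : ℝ → Md → (E →L[ℂ] F)} (ha : Nrm T c 0 Dat.one' a ≤ b) (f : ℝ → Md → E) :
    Nrm T c γ σ (fun t => mul (a t) (f t)) ≤ b * Nrm T c γ σ f := by
  have hc : 0 ≤ c := le_trans (mul_nonneg hp.γ_nonneg hp.T_pos.le) hp.le
  refine (h1 Md E F T c γ σ (fun t => mulK (a t)) f hp hσ).trans (mul_le_mul_left ?_ _)
  rw [(h9 Md E F F T c hc).2.2.2.1]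
  exact ha

theorem Src_mul (h3 : W03) (h9 : W09) {T c γ : ℝ} {σ : ℝ → ℝ} (hp : Par T c γ) (hσ : Wt T σ)
    {b : ℝ≥0∞} {a : ℝ → Md → (E →L[ℂ] F)} (ha : Nrm T c 0 Dat.one' a ≤ b) {f : ℝ → Md → E}
    (hf : CM T f) :
    Src T c γ σ (fun t => mul (a t) (f t)) ≤ b * Src T c γ σ f := by
  have hc : 0 ≤ c := le_trans (mul_nonneg hp.γ_nonneg hp.T_pos.le) hp.le
  refine (h3 Md E F T c γ σ (fun t => mulK (a t)) f hp hσ hf).trans (mul_le_mul_left ?_ _)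
  rw [(h9 Md E F F T c hc).2.2.2.1]
  exact ha

theorem CM_mul (h9 : W09) (h12 : W12) [CompleteSpace F] {T c γ : ℝ} {σ : ℝ → ℝ}
    (hp : Par T c γ) (hσ : Wt T σ) {a : ℝ → Md → (E →L[ℂ] F)} (ha : Nrm T c 0 Dat.one' a ≠ ∞)
    (ha' : CM T a) {f : ℝ → Md → E} (hf : CM T f) (hf' : Nrm T c γ σ f ≠ ∞) :
    CM T (fun t => mul (a t) (f t)) := by
  have hc : 0 ≤ c := le_trans (mul_nonneg hp.γ_nonneg hp.T_pos.le) hp.le
  refine (h12 Md E F F T c γ σ σ hp hσ hσ).1 (fun t => mulK (a t)) f (fun m l => ha' (m - l)) hf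
    ?_ hf'
  rw [(h9 Md E F F T c hc).2.2.2.1]
  exact ha

theorem Src_neg' {T c γ : ℝ} {σ : ℝ → ℝ} (f : ℝ → Md → E) :
    Src T c γ σ (fun t => -(f t)) = Src T c γ σ f := by
  unfold Src
  refine tsum_congr fun m => ?_
  refine iSup_congr fun t => iSup_congr fun ht => ?_
  refine setLIntegral_congr_fun measurableSet_Ioc fun s hs => ?_
  show ENNReal.ofReal _ * ‖(-(f s)) m‖ₑ = ENNReal.ofReal _ * ‖f s m‖ₑ
  rw [Pi.neg_apply, enorm_neg]

theorem sK_mulK (h10 : W10) {T c γ : ℝ} (hp : Par T c γ) {a : ℝ → Md → (E →L[ℂ] F)}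
    (ha : Nrm T c 0 Dat.one' a ≠ ∞) {t : ℝ} (ht : t ∈ Icc 0 T) : sK 0 (mulK (a t)) ≠ ∞ := by
  have hc : 0 ≤ c := le_trans (mul_nonneg hp.γ_nonneg hp.T_pos.le) hp.le
  rw [(h10 Md E F F 0 le_rfl).2.2.2.1]
  exact sN_fin ⟨hp.T_pos, le_rfl, by rw [zero_mul]; exact hc⟩ (Wt_one T) ha ht

theorem alg (a1 a2 a3 b1 b2 g : ℝ) (h1 : 0 ≤ a1) (h2 : 0 ≤ a2) (h3 : 0 ≤ a3) (h4 : 0 ≤ b1)
    (h5 : 0 ≤ b2) (h6 : 0 ≤ g) (X X' : ℝ≥0∞) :
    ENNReal.ofReal g * (1 * ((ENNReal.ofReal a1 * X') * (ENNReal.ofReal b2 * X) +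
      (ENNReal.ofReal a2 * X') * (ENNReal.ofReal b1 * X) +
      (ENNReal.ofReal a3 * X') * (ENNReal.ofReal b2 * X))) =
    ENNReal.ofReal (g * (a1 * b2 + a2 * b1 + a3 * b2)) * (X * X') := by
  rw [ENNReal.ofReal_mul h6, ENNReal.ofReal_add (by positivity) (by positivity),
    ENNReal.ofReal_add (by positivity) (by positivity), ENNReal.ofReal_mul h1,
    ENNReal.ofReal_mul h2, ENNReal.ofReal_mul h3]
  ring

theorem bdot_apply' (v x : C3) : bdot v x = ∑ i, v i * x i := by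
  simp [bdot, ContinuousLinearMap.sum_apply]

theorem norm_bdot (v x : C3) : ‖bdot v x‖ ≤ ‖v‖ * ‖x‖ := by
  have h1 : bdot v x = inner ℂ (cjv v) x := by
    rw [bdot_apply', PiLp.inner_apply]
    refine Finset.sum_congr rfl fun i _ => ?_
    simp [cjv, mul_comm]
  have h2 : ‖cjv v‖ = ‖v‖ := by
    rw [EuclideanSpace.norm_eq, EuclideanSpace.norm_eq]
    congr 1
    refine Finset.sum_congr rfl fun i _ => ?_
    simp [cjv]
  rw [h1, ← h2]
  exact norm_inner_le_norm _ _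

theorem outerB_le : ‖outerB‖ₑ ≤ 1 := by
  have h : ‖outerB‖ ≤ 1 := by
    refine ContinuousLinearMap.opNorm_le_bound₂ _ zero_le_one fun w v => ?_
    refine ContinuousLinearMap.opNorm_le_bound _ (by positivity) fun x => ?_
    have h1 : outerB w v x = (bdot v x) • w := by simp [outerB]
    rw [h1, norm_smul, one_mul]
    calc ‖bdot v x‖ * ‖w‖ ≤ (‖v‖ * ‖x‖) * ‖w‖ :=
          mul_le_mul_of_nonneg_right (norm_bdot v x) (norm_nonneg _)
      _ = ‖w‖ * ‖v‖ * ‖x‖ := by ring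
  rw [← ofReal_norm, ← ENNReal.ofReal_one]
  exact ENNReal.ofReal_le_ofReal h

theorem smB_le : ‖smB‖ₑ ≤ 1 := by
  have h : ‖smB‖ ≤ 1 := by
    refine ContinuousLinearMap.opNorm_le_bound₂ _ zero_le_one fun s w => ?_
    have h1 : smB s w = s • w := by simp [smB]
    rw [h1, norm_smul, one_mul]
  rw [← ofReal_norm, ← ENNReal.ofReal_one]
  exact ENNReal.ofReal_le_ofReal h

end md

section main

variable {D : Dat} {ρ : ℕ → ℝ → ℝ} {Str : ℝ → ℝ}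

theorem par (hD : D.Hyp) : Par D.T D.c D.γ ∧ 0 < D.γ ∧ 1 / D.γ ≤ D.G := by
  have hT := hD.T_pos
  have hc := hD.c_pos
  refine ⟨⟨hT, by rw [hD.γ_eq]; positivity, ?_⟩, by rw [hD.γ_eq]; positivity, ?_⟩
  · rw [hD.γ_eq, div_mul_eq_mul_div, div_le_iff₀ (by positivity)]
    nlinarith
  · rw [hD.γ_eq, one_div_div, div_le_iff₀ hc]
    nlinarith [hD.T_le, hD.c_G]

theorem par' (hD : D.Hyp) : Par D.T (D.c - D.c / 4) D.γ := by
  have hT := hD.T_pos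
  have hc := hD.c_pos
  refine ⟨hT, by rw [hD.γ_eq]; positivity, ?_⟩
  rw [hD.γ_eq, div_mul_eq_mul_div, div_le_iff₀ (by positivity)]
  nlinarith

theorem N_mono (hD : D.Hyp) : ∀ i, i < D.n + 1 → D.N i ≤ D.N D.n := by
  have h : ∀ k, k ≤ D.n → D.N (D.n - k) ≤ D.N D.n := by
    intro k
    induction k with
    | zero => intro _; rw [Nat.sub_zero]
    | succ k ih =>
      intro hk
      have h1 := ih (by omega)
      have h2 := hD.N_sep (D.n - (k + 1)) (by omega)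
      have h3 : D.n - (k + 1) + 1 = D.n - k := by omega
      rw [h3] at h2
      have h4 := hD.N_pos (D.n - (k + 1)) (by omega)
      linarith
  intro i hi
  have := h (D.n - i) (by omega)
  rwa [show D.n - (D.n - i) = i by omega] at this

theorem w_new (hD : D.Hyp) (w : ℝ → Md → C3) (κ : ℝ → Md → ℂ) :
    Nrm D.T D.c D.γ (ρ (D.n + 1)) (fun t => res (Cl (D.n + 1)) (w t)) ≤ XN D ρ w κ := by
  have hmn := hD.hmn
  have hCs : Cs D.m (D.n + 1) = Cl (D.n + 1) := by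
    unfold Cs
    rw [if_neg (by omega)]
  unfold XN
  refine le_trans ?_ le_self_add
  have h1 := Finset.single_le_sum (s := Finset.Icc D.m (D.n + 1))
    (f := fun o => Nrm D.T D.c D.γ (ρ o) (fun t => res (Cs D.m o) (w t)))
    (fun _ _ => zero_le) (Finset.mem_Icc.2 ⟨by omega, le_rfl⟩ : D.n + 1 ∈ _)
  simp only [hCs] at h1
  exact h1

theorem κ_new0 (hD : D.Hyp) (w : ℝ → Md → C3) (κ : ℝ → Md → ℂ) :
    Nrm D.T D.c D.γ (fun t => D.u (D.n + 1) ^ 128 * ρ (D.n + 1) t)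
      (fun t => res (Cl (D.n + 1)) (κ t)) ≤ XN D ρ w κ := by
  have hmn := hD.hmn
  unfold XN
  refine le_trans ?_ le_add_self
  exact Finset.single_le_sum (s := Finset.Ioc D.m (D.n + 1))
    (f := fun o => Nrm D.T D.c D.γ (fun t => D.u o ^ 128 * ρ o t) (fun t => res (Cl o) (κ t)))
    (fun _ _ => zero_le) (Finset.mem_Ioc.2 ⟨by omega, le_rfl⟩ : D.n + 1 ∈ _)

theorem new_le (hW : Wts D ρ Str) :
    ∀ t ∈ Icc 0 D.T, ρ (D.n + 1) t ≤ 1 / D.N (D.n + 1) * D.α (D.n + 1) t := by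
  intro t ht
  rw [hW.new t ht]
  exact le_of_eq (by ring)

theorem w_newα (h5 : W05) (hD : D.Hyp) (hW : Wts D ρ Str) (w : ℝ → Md → C3) (κ : ℝ → Md → ℂ) :
    Nrm D.T D.c D.γ (D.α (D.n + 1)) (fun t => res (Cl (D.n + 1)) (w t)) ≤
      ENNReal.ofReal (1 / D.N (D.n + 1)) * XN D ρ w κ := by
  have hmn := hD.hmn
  have hN : 1 ≤ D.N (D.n + 1) := hD.N_pos _ le_rfl
  refine (Nrm_wt h5 (par hD).1 (hW.wt _ (by omega) le_rfl) (hD.α_wt _ (by omega) le_rfl)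
    (by positivity) (new_le hW) _).trans ?_
  exact mul_le_mul_right (w_new hD w κ) _

theorem κ_new (h5 : W05) (hD : D.Hyp) (hW : Wts D ρ Str) (w : ℝ → Md → C3) (κ : ℝ → Md → ℂ) :
    Nrm D.T D.c D.γ (ρ (D.n + 1)) (fun t => (D.N (D.n + 1) : ℂ) • res (Cl (D.n + 1)) (κ t)) ≤
      ENNReal.ofReal (D.N (D.n + 1) * D.u (D.n + 1) ^ 128) * XN D ρ w κ := by
  have hmn := hD.hmn
  have hN : 1 ≤ D.N (D.n + 1) := hD.N_pos _ le_rfl
  have hu : 0 < D.u (D.n + 1) := hD.u_pos _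
  have hwt : Wt D.T (ρ (D.n + 1)) := hW.wt _ (by omega) le_rfl
  have h1 := Nrm_smul h5 (par hD).1 hwt (D.N (D.n + 1) : ℂ)
    (fun t => res (Cl (D.n + 1)) (κ t))
  have h2 : ‖(D.N (D.n + 1) : ℂ)‖ₑ = ENNReal.ofReal (D.N (D.n + 1)) := by
    rw [← ofReal_norm, Complex.norm_real, Real.norm_of_nonneg (by linarith)]
  have h3 : Nrm D.T D.c D.γ (ρ (D.n + 1))
      (fun t => (D.N (D.n + 1) : ℂ) • res (Cl (D.n + 1)) (κ t)) =
      ENNReal.ofReal (D.N (D.n + 1)) * Nrm D.T D.c D.γ (ρ (D.n + 1))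
        (fun t => res (Cl (D.n + 1)) (κ t)) := by
    rw [← h2]
    exact h1
  rw [h3, ENNReal.ofReal_mul (by linarith), mul_assoc]
  refine mul_le_mul_right ?_ _
  have h4 := Nrm_wt h5 (par hD).1 (a := D.u (D.n + 1) ^ 128)
    (Wt_const (a := D.u (D.n + 1) ^ 128) (pow_pos hu _) hwt) hwt (pow_pos hu _).le
    (fun t _ => le_refl (D.u (D.n + 1) ^ 128 * ρ (D.n + 1) t))
    (fun t => res (Cl (D.n + 1)) (κ t))
  exact h4.trans (mul_le_mul_right (κ_new0 hD w κ) _)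

theorem κ_newα (h5 : W05) (hD : D.Hyp) (hW : Wts D ρ Str) (w : ℝ → Md → C3) (κ : ℝ → Md → ℂ) :
    Nrm D.T D.c D.γ (D.α (D.n + 1))
      (fun t => (D.N (D.n + 1) : ℂ) • res (Cl (D.n + 1)) (κ t)) ≤
      ENNReal.ofReal (D.u (D.n + 1) ^ 128) * XN D ρ w κ := by
  have hmn := hD.hmn
  have hN : 1 ≤ D.N (D.n + 1) := hD.N_pos _ le_rfl
  refine (Nrm_wt h5 (par hD).1 (hW.wt _ (by omega) le_rfl) (hD.α_wt _ (by omega) le_rfl)
    (by positivity) (new_le hW) _).trans ?_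
  refine (mul_le_mul_right (κ_new h5 hD hW w κ) _).trans ?_
  rw [← mul_assoc, ← ENNReal.ofReal_mul (by positivity)]
  refine mul_le_mul_left (ENNReal.ofReal_le_ofReal (le_of_eq ?_)) _
  field_simp

theorem w_old (h04 : S04) (h5 : W05) (hD : D.Hyp) (hW : Wts D ρ Str) (w : ℝ → Md → C3)
    (κ : ℝ → Md → ℂ) :
    Nrm D.T D.c D.γ (D.α (D.n + 1)) (fun t => res (lev D.n : Set Md) (w t)) ≤
      ENNReal.ofReal (D.u (D.n + 1) ^ 384 / D.N (D.n + 1)) * XN D ρ w κ := by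
  have hmn := hD.hmn
  have hN : 1 ≤ D.N (D.n + 1) := hD.N_pos _ le_rfl
  have hu : 0 < D.u (D.n + 1) := hD.u_pos _
  rw [(h04 C3 D.m D.n hmn).2.2.2 D.T D.c D.γ _ _ (fun t _ => res_supp _ _) hD.T_pos.le]
  have h1 : ∀ o ∈ Finset.Icc D.m D.n, Nrm D.T D.c D.γ (D.α (D.n + 1))
      (fun t => res (Cs D.m o) (res (lev D.n : Set Md) (w t))) ≤
      ENNReal.ofReal (D.u (D.n + 1) ^ 384 / D.N (D.n + 1)) *
        Nrm D.T D.c D.γ (ρ o) (fun t => res (Cs D.m o) (w t)) := by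
    intro o ho
    obtain ⟨ho1, ho2⟩ := Finset.mem_Icc.1 ho
    have h2 : ∀ t, res (Cs D.m o) (res (lev D.n : Set Md) (w t)) = res (Cs D.m o) (w t) := by
      intro t
      funext q
      by_cases hq : q ∈ Cs D.m o
      · have h3 : q ∈ (lev D.n : Set Md) := by
          unfold Cs at hq
          split_ifs at hq with h4
          · exact lev_mono' hmn hq
          · exact lev_mono' ho2 hq.1
        simp only [res, if_pos hq, if_pos h3]
      · simp only [res, if_neg hq]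
    simp only [h2]
    refine Nrm_wt h5 (par hD).1 (hW.wt o ho1 (by omega)) (hD.α_wt _ (by omega) le_rfl)
      (by positivity) (fun t ht => ?_) _
    have h3 := hW.w4 o ho1 ho2 t ht
    rw [div_mul_eq_mul_div, le_div_iff₀ (by linarith)]
    linarith
  refine (Finset.sum_le_sum h1).trans ?_
  rw [← Finset.mul_sum]
  refine mul_le_mul_right ?_ _
  unfold XN
  refine le_trans ?_ le_self_add
  refine Finset.sum_le_sum_of_subset ?_
  intro o ho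
  obtain ⟨ho1, ho2⟩ := Finset.mem_Icc.1 ho
  exact Finset.mem_Icc.2 ⟨ho1, by omega⟩


theorem P_supp (h16 : W16) (hD : D.Hyp) {t : ℝ} (ht : t ∈ Icc 0 D.T) :
    ∀ p q, p - q ∉ lev D.n → (idK - D.Pl D.n t) p q = 0 := by
  intro p q hpq
  obtain ⟨c, b, e, hfd⟩ := hD.fd D.n hD.hmn le_rfl t ht
  have h0 := ((h16 Md (lev D.n) c b e (D.F D.n t) (D.Fi D.n t) (xi D.K) hfd).2.2.1 p q hpq).2
  have h1 : p ≠ q := by
    rintro rfl
    apply hpq
    rw [sub_self]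
    exact zero_mem _
  have h2 : idK p q = 0 := by simp [idK, diagK, h1]
  show idK p q - D.Pl D.n t p q = 0
  rw [h2, zero_sub, neg_eq_zero]
  exact h0

theorem idK_le (h9 : W09) (hD : D.Hyp) : KN D.T D.c (fun _ => idK) ≤ 1 := by
  refine (h9 Md C3 C3 C3 D.T D.c hD.c_pos.le).2.2.2.2.1
    (fun _ _ => ContinuousLinearMap.id ℂ C3) 1 (fun t _ m => ?_)
  rw [← ofReal_norm, ← ENNReal.ofReal_one]
  exact ENNReal.ofReal_le_ofReal ContinuousLinearMap.norm_id_le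

theorem KN_idP (h9 : W09) (hD : D.Hyp) :
    KN D.T D.c (fun t => idK - D.Pl D.n t) ≤ ENNReal.ofReal (2 * D.G) := by
  have h := h9 Md C3 C3 C3 D.T D.c hD.c_pos.le
  have h1 := h.2.1 (fun _ => idK) ((-1 : ℂ) • D.Pl D.n)
  have h2 := h.2.2.1 (-1) (D.Pl D.n)
  have h3 : ((fun _ => idK) + (-1 : ℂ) • D.Pl D.n : ℝ → Md → Md → Mat) =
      fun t => idK - D.Pl D.n t := by
    funext t
    show idK + (-1 : ℂ) • D.Pl D.n t = _
    rw [neg_one_smul, ← sub_eq_add_neg]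
  rw [h3, h2] at h1
  refine h1.trans ?_
  have h4 : ‖(-1 : ℂ)‖ₑ = 1 := by simp
  rw [h4, one_mul]
  refine (add_le_add (idK_le h9 hD) (hD.P_le D.n hD.hmn le_rfl).1).trans ?_
  rw [← ENNReal.ofReal_one, ← ENNReal.ofReal_add zero_le_one (by linarith [hD.G_two])]
  exact ENNReal.ofReal_le_ofReal (by linarith [hD.G_two])

theorem CK_idP (hD : D.Hyp) : CK D.T (fun t => idK - D.Pl D.n t) := by
  intro m l
  exact continuousOn_const.sub ((hD.P_le D.n hD.hmn le_rfl).2 m l)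

theorem KN_sK (h9 : W09) (h10 : W10) (hD : D.Hyp) {A : ℝ → Md → Md → Mat}
    (hA : KN D.T D.c A ≠ ∞) {t : ℝ} (ht : t ∈ Icc 0 D.T) : sK 0 (A t) ≠ ∞ := by
  refine ne_top_of_le_ne_top hA ?_
  exact (((h10 Md C3 C3 C3 D.c hD.c_pos.le).2.2.2.2.2.2.1 0 hD.c_pos.le).1 (A t)).trans
    ((h9 Md C3 C3 C3 D.T D.c hD.c_pos.le).2.2.2.2.2.2 A t ht)

/-- the new class part of `w' ⊗ V` -/
noncomputable def C1 (D : Dat) (w w' : ℝ → Md → C3) (t : ℝ) : Md → Mat :=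
  res (Cl (D.n + 1)) (conv outerB (w' t) (mul (D.Fi D.n t) (w t)))

/-- the new class part of `H w'` -/
noncomputable def hh (D : Dat) (w : ℝ → Md → C3) (κ : ℝ → Md → ℂ) (w' : ℝ → Md → C3) (t : ℝ) :
    Md → C3 := res (Cl (D.n + 1)) (conv smB (HH D w κ t) (w' t))

noncomputable def T1c (D : Dat) (w w' : ℝ → Md → C3) (t : ℝ) (q : Md) : C3 :=
  Complex.I • (C1 D w w' t q) (xi' D.K (D.n + 1) q)

noncomputable def dh (D : Dat) (w : ℝ → Md → C3) (κ : ℝ → Md → ℂ) (w' : ℝ → Md → C3) (t : ℝ)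
    (q : Md) : C3 := (q (D.n + 1) : ℂ) • hh D w κ w' t q

theorem u384 (hD : D.Hyp) (k : ℕ) : D.u (D.n + 1) ^ k ≤ 1 :=
  pow_le_one₀ (hD.u_pos _).le (hD.u_lt _).le

theorem C1_prop (h03 : S03) (h04 : S04) (h1 : W01) (h2 : W02) (h5 : W05) (h9 : W09) (h10 : W10)
    (h11 : W11) (h12 : W12) (hD : D.Hyp) (hW : Wts D ρ Str) {w w' : ℝ → Md → C3}
    {κ κ' : ℝ → Md → ℂ} (hA : Adm D ρ w κ) (hA' : Adm D ρ w' κ') :
    CM D.T (C1 D w w') ∧ Nrm D.T D.c D.γ (ρ (D.n + 1)) (C1 D w w') ≤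
      ENNReal.ofReal (3 * D.G ^ 2 / D.N (D.n + 1)) * (XN D ρ w κ * XN D ρ w' κ') := by
  have hmn := hD.hmn
  have hp := (par hD).1
  have hG : 0 < D.G := by linarith [hD.G_two]
  have hN : 1 ≤ D.N (D.n + 1) := hD.N_pos _ le_rfl
  have hN0 : 0 < D.N (D.n + 1) := by linarith
  have hu : 0 < D.u (D.n + 1) := hD.u_pos _
  have hρ : Wt D.T (ρ (D.n + 1)) := hW.wt _ (by omega) le_rfl
  have hα : Wt D.T (D.α (D.n + 1)) := hD.α_wt _ (by omega) le_rfl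
  have hFi : Nrm D.T D.c 0 Dat.one' (D.Fi D.n) ≤ ENNReal.ofReal D.G :=
    (hD.F_le D.n hmn le_rfl).2.1
  have hFi' : Nrm D.T D.c 0 Dat.one' (D.Fi D.n) ≠ ∞ :=
    ne_top_of_le_ne_top ENNReal.ofReal_ne_top hFi
  have hFic : CM D.T (D.Fi D.n) := (hD.F_cm D.n hmn le_rfl).2.1
  have hFis : SuppT D.T (lev D.n : Set Md) (D.Fi D.n) := (hD.F_supp D.n hmn le_rfl).2.1
  have a1 := w_old h04 h5 hD hW w' κ'
  have a2 : Nrm D.T D.c D.γ (ρ (D.n + 1)) (fun t => res (Cl (D.n + 1)) (w' t)) ≤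
      ENNReal.ofReal 1 * XN D ρ w' κ' := by
    rw [ENNReal.ofReal_one, one_mul]
    exact w_new hD w' κ'
  have a3 := w_newα h5 hD hW w' κ'
  have b0 := w_old h04 h5 hD hW w κ
  have b1 : Nrm D.T D.c D.γ (D.α (D.n + 1))
      (fun t => mul (D.Fi D.n t) (res (lev D.n : Set Md) (w t))) ≤
      ENNReal.ofReal (D.G * (D.u (D.n + 1) ^ 384 / D.N (D.n + 1))) * XN D ρ w κ := by
    refine (Nrm_mul h1 h9 hp hα hFi _).trans ?_
    rw [ENNReal.ofReal_mul hG.le, mul_assoc]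
    exact mul_le_mul_right b0 _
  have b2 : Nrm D.T D.c D.γ (ρ (D.n + 1))
      (fun t => mul (D.Fi D.n t) (res (Cl (D.n + 1)) (w t))) ≤
      ENNReal.ofReal D.G * XN D ρ w κ := by
    refine (Nrm_mul h1 h9 hp hρ hFi _).trans ?_
    exact mul_le_mul_right (w_new hD w κ) _
  have f1 : ∀ a : ℝ, ENNReal.ofReal a * XN D ρ w κ ≠ ∞ := fun a =>
    ENNReal.mul_ne_top ENNReal.ofReal_ne_top hA.fin
  have f2 : ∀ a : ℝ, ENNReal.ofReal a * XN D ρ w' κ' ≠ ∞ := fun a =>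
    ENNReal.mul_ne_top ENNReal.ofReal_ne_top hA'.fin
  have fw0 : Nrm D.T D.c D.γ (D.α (D.n + 1)) (fun t => res (lev D.n : Set Md) (w t)) ≠ ∞ :=
    ne_top_of_le_ne_top (f1 _) b0
  have fw1 : Nrm D.T D.c D.γ (ρ (D.n + 1)) (fun t => res (Cl (D.n + 1)) (w t)) ≠ ∞ :=
    ne_top_of_le_ne_top hA.fin (w_new hD w κ)
  have key : ∀ t ∈ Icc 0 D.T, C1 D w w' t = res (Cl (D.n + 1)) (conv outerB
      (res (lev D.n : Set Md) (w' t) + res (Cl (D.n + 1)) (w' t))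
      (mul (D.Fi D.n t) (res (lev D.n : Set Md) (w t)) +
        mul (D.Fi D.n t) (res (Cl (D.n + 1)) (w t)))) := by
    intro t ht
    have e1 : mul (D.Fi D.n t) (w t) = mul (D.Fi D.n t) (res (lev D.n : Set Md) (w t)) +
        mul (D.Fi D.n t) (res (Cl (D.n + 1)) (w t)) := by
      conv_lhs => rw [split (hA.w_supp t ht)]
      exact act_add' h11 (sK_mulK h10 hp hFi' ht) (sN_fin hp hα fw0 ht) (sN_fin hp hρ fw1 ht)
    unfold C1
    rw [e1, ← split (hA'.w_supp t ht)]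
  have main := bil h03 h04 h2 h5 h10 h11 h12 hp hρ hα hG.le
    (hD.α_le (D.n + 1) (by omega) le_rfl) D.n outerB
    (CM_res (lev D.n : Set Md) hA'.w_cm) (CM_res (Cl (D.n + 1)) hA'.w_cm)
    (CM_mul h9 h12 hp hα hFi' hFic (CM_res (lev D.n : Set Md) hA.w_cm) fw0)
    (CM_mul h9 h12 hp hρ hFi' hFic (CM_res (Cl (D.n + 1)) hA.w_cm) fw1)
    (fun t _ => res_supp _ _)
    (fun t ht => (h03 C3 C3 C3).1 _ D.n D.n _ le_rfl
      ((h03 C3 C3 C3).2.2.2.2.1 D.n _ (hFis t ht)) (res_supp _ _))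
    a1 a2 a3 b1 b2 (f2 _) (f2 _) (f2 _) (f1 _) (f1 _)
  refine ⟨CM_congr (fun t ht => (key t ht).symm) main.1, ?_⟩
  rw [Nrm_congr key]
  refine main.2.trans ?_
  refine (mul_le_mul_right (mul_le_mul_left outerB_le _) _).trans ?_
  rw [alg _ _ _ _ _ _ (by positivity) zero_le_one (by positivity) (by positivity) hG.le hG.le]
  refine mul_le_mul_left (ENNReal.ofReal_le_ofReal ?_) _
  have e1 : D.G * (D.u (D.n + 1) ^ 384 / D.N (D.n + 1) * D.G +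
      1 * (D.G * (D.u (D.n + 1) ^ 384 / D.N (D.n + 1))) + 1 / D.N (D.n + 1) * D.G) =
      D.G ^ 2 / D.N (D.n + 1) * (2 * D.u (D.n + 1) ^ 384 + 1) := by
    field_simp
    ring
  rw [e1]
  have e2 := u384 hD 384
  have e3 : (3 : ℝ) * D.G ^ 2 / D.N (D.n + 1) = D.G ^ 2 / D.N (D.n + 1) * 3 := by ring
  rw [e3]
  exact mul_le_mul_of_nonneg_left (by linarith) (by positivity)

theorem hh_prop (h03 : S03) (h04 : S04) (h15 : S15) (h1 : W01) (h2 : W02) (h5 : W05) (h9 : W09)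
    (h10 : W10) (h11 : W11) (h12 : W12) (hD : D.Hyp) (hW : Wts D ρ Str) {w w' : ℝ → Md → C3}
    {κ κ' : ℝ → Md → ℂ} (hA : Adm D ρ w κ) (hA' : Adm D ρ w' κ') :
    CM D.T (hh D w κ w') ∧ Nrm D.T D.c D.γ (ρ (D.n + 1)) (hh D w κ w') ≤
      ENNReal.ofReal (3 * D.G ^ 2 * D.u (D.n + 1) ^ 128) * (XN D ρ w κ * XN D ρ w' κ') := by
  have hmn := hD.hmn
  have hp := (par hD).1
  have hG1 : 1 ≤ D.G := by linarith [hD.G_two]
  have hG : 0 < D.G := by linarith [hD.G_two]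
  have hN : 1 ≤ D.N (D.n + 1) := hD.N_pos _ le_rfl
  have hN0 : 0 < D.N (D.n + 1) := by linarith
  have hu : 0 < D.u (D.n + 1) := hD.u_pos _
  have hρ : Wt D.T (ρ (D.n + 1)) := hW.wt _ (by omega) le_rfl
  have hα : Wt D.T (D.α (D.n + 1)) := hD.α_wt _ (by omega) le_rfl
  obtain ⟨-, hrw, -, -, -, hrwc, -, -, -, hrws, -⟩ := h15 D hD (D.n + 1) (by omega) le_rfl
  have hrw' : Nrm D.T D.c 0 Dat.one' (D.rw (D.n + 1)) ≠ ∞ :=
    ne_top_of_le_ne_top ENNReal.ofReal_ne_top hrw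
  have w0 := w_old h04 h5 hD hW w κ
  have f1 : ∀ a : ℝ, ENNReal.ofReal a * XN D ρ w κ ≠ ∞ := fun a =>
    ENNReal.mul_ne_top ENNReal.ofReal_ne_top hA.fin
  have f2 : ∀ a : ℝ, ENNReal.ofReal a * XN D ρ w' κ' ≠ ∞ := fun a =>
    ENNReal.mul_ne_top ENNReal.ofReal_ne_top hA'.fin
  have fw0 : Nrm D.T D.c D.γ (D.α (D.n + 1)) (fun t => res (lev D.n : Set Md) (w t)) ≠ ∞ :=
    ne_top_of_le_ne_top (f1 _) w0
  have a1 : Nrm D.T D.c D.γ (D.α (D.n + 1))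
      (fun t => mul (D.rw (D.n + 1) t) (res (lev D.n : Set Md) (w t))) ≤
      ENNReal.ofReal (D.G * D.u (D.n + 1) ^ 384) * XN D ρ w κ := by
    refine (Nrm_mul h1 h9 hp hα hrw _).trans ?_
    refine (mul_le_mul_right w0 _).trans ?_
    rw [← mul_assoc, ← ENNReal.ofReal_mul (by positivity)]
    refine mul_le_mul_left (ENNReal.ofReal_le_ofReal (le_of_eq ?_)) _
    field_simp
  have a2 := κ_new h5 hD hW w κ
  have a3 := κ_newα h5 hD hW w κ
  have b1 := w_old h04 h5 hD hW w' κ'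
  have b2 : Nrm D.T D.c D.γ (ρ (D.n + 1)) (fun t => res (Cl (D.n + 1)) (w' t)) ≤
      ENNReal.ofReal 1 * XN D ρ w' κ' := by
    rw [ENNReal.ofReal_one, one_mul]
    exact w_new hD w' κ'
  have key : ∀ t ∈ Icc 0 D.T, hh D w κ w' t = res (Cl (D.n + 1)) (conv smB
      (mul (D.rw (D.n + 1) t) (res (lev D.n : Set Md) (w t)) +
        (D.N (D.n + 1) : ℂ) • res (Cl (D.n + 1)) (κ t))
      (res (lev D.n : Set Md) (w' t) + res (Cl (D.n + 1)) (w' t))) := by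
    intro t ht
    unfold hh HH
    rw [← split (hA'.w_supp t ht), add_comm (mul _ _)]
  have hκc : CM D.T (fun t => (D.N (D.n + 1) : ℂ) • res (Cl (D.n + 1)) (κ t)) :=
    CM_smul (D.N (D.n + 1) : ℂ) (CM_res (Cl (D.n + 1)) hA.κ_cm)
  have main := bil h03 h04 h2 h5 h10 h11 h12 hp hρ hα hG.le
    (hD.α_le (D.n + 1) (by omega) le_rfl) D.n smB
    (CM_mul h9 h12 hp hα hrw' hrwc (CM_res (lev D.n : Set Md) hA.w_cm) fw0) hκc
    (CM_res (lev D.n : Set Md) hA'.w_cm) (CM_res (Cl (D.n + 1)) hA'.w_cm)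
    (fun t ht => (h03 C3 ℂ ℂ).1 _ D.n D.n _ le_rfl
      ((h03 C3 ℂ ℂ).2.2.2.2.1 D.n _ (hrws t ht)) (res_supp _ _))
    (fun t _ => res_supp _ _)
    a1 a2 a3 b1 b2 (f1 _) (f1 _) (f1 _) (f2 _) (f2 _)
  refine ⟨CM_congr (fun t ht => (key t ht).symm) main.1, ?_⟩
  rw [Nrm_congr key]
  refine main.2.trans ?_
  refine (mul_le_mul_right (mul_le_mul_left smB_le _) _).trans ?_
  rw [alg _ _ _ _ _ _ (by positivity) (by positivity) (by positivity) (by positivity)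
    zero_le_one hG.le, mul_comm (XN D ρ w' κ')]
  refine mul_le_mul_left (ENNReal.ofReal_le_ofReal ?_) _
  have e1 : D.G * (D.G * D.u (D.n + 1) ^ 384 * 1 +
      D.N (D.n + 1) * D.u (D.n + 1) ^ 128 * (D.u (D.n + 1) ^ 384 / D.N (D.n + 1)) +
      D.u (D.n + 1) ^ 128 * 1) =
      D.G * D.u (D.n + 1) ^ 128 * (D.G * D.u (D.n + 1) ^ 256 + D.u (D.n + 1) ^ 384 + 1) := by
    field_simp
  rw [e1]
  have e2 := u384 hD 384
  have e3 := u384 hD 256
  have e4 : (3 : ℝ) * D.G ^ 2 * D.u (D.n + 1) ^ 128 =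
      D.G * D.u (D.n + 1) ^ 128 * (3 * D.G) := by ring
  rw [e4]
  refine mul_le_mul_of_nonneg_left ?_ (by positivity)
  nlinarith


theorem T1c_bd (h01 : S01) (hD : D.Hyp) (w w' : ℝ → Md → C3) (t : ℝ) (q : Md) :
    ‖T1c D w w' t q‖ ≤ len q * ‖((D.N D.n : ℂ) • C1 D w w') t q‖ := by
  have hN : 0 ≤ D.N D.n := norm_nonneg _
  have e1 : ‖((D.N D.n : ℂ) • C1 D w w') t q‖ = D.N D.n * ‖C1 D w w' t q‖ := by
    show ‖(D.N D.n : ℂ) • C1 D w w' t q‖ = _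
    rw [norm_smul, Complex.norm_real, Real.norm_of_nonneg hN]
  rw [e1]
  by_cases hq : q ∈ Cl (D.n + 1)
  · have e2 : ‖T1c D w w' t q‖ = ‖(C1 D w w' t q) (xi' D.K (D.n + 1) q)‖ := by
      unfold T1c
      rw [norm_smul, Complex.norm_I, one_mul]
    rw [e2]
    refine ((C1 D w w' t q).le_opNorm _).trans ?_
    have e3 := (h01 D.K).2.2.2.1 q (D.n + 1) (D.N D.n) hq.1 (fun i hi => N_mono hD i hi) hN
    calc ‖C1 D w w' t q‖ * ‖xi' D.K (D.n + 1) q‖ ≤ ‖C1 D w w' t q‖ * (D.N D.n * len q) :=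
          mul_le_mul_of_nonneg_left e3 (norm_nonneg _)
      _ = len q * (D.N D.n * ‖C1 D w w' t q‖) := by ring
  · have e2 : C1 D w w' t q = 0 := by simp [C1, res, hq]
    have e3 : T1c D w w' t q = 0 := by
      unfold T1c
      rw [e2]
      simp
    rw [e3, e2]
    simp

theorem dh_bd (h01 : S01) (w w' : ℝ → Md → C3) (κ : ℝ → Md → ℂ) (t : ℝ) (q : Md) :
    ‖dh D w κ w' t q‖ ≤ len q * ‖hh D w κ w' t q‖ := by
  unfold dh
  rw [norm_smul]
  exact mul_le_mul_of_nonneg_right ((h01 D.K).2.1 q (D.n + 1)) (norm_nonneg _)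

theorem T1c_CM {w w' : ℝ → Md → C3} (h : CM D.T (C1 D w w')) : CM D.T (T1c D w w') := by
  intro q
  exact ((h q).clm_apply continuousOn_const).const_smul Complex.I

theorem dh_CM {w w' : ℝ → Md → C3} {κ : ℝ → Md → ℂ} (h : CM D.T (hh D w κ w')) :
    CM D.T (dh D w κ w') := by
  intro q
  exact (h q).const_smul (q (D.n + 1) : ℂ)

theorem smul_enorm_real {x : ℝ} (hx : 0 ≤ x) : ‖(x : ℂ)‖ₑ = ENNReal.ofReal x := by
  rw [← ofReal_norm, Complex.norm_real, Real.norm_of_nonneg hx]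

theorem T1c_src (h01 : S01) (h5 : W05) (h6 : W06) (hD : D.Hyp) (hW : Wts D ρ Str)
    {w w' : ℝ → Md → C3} {Y : ℝ≥0∞}
    (h : Nrm D.T D.c D.γ (ρ (D.n + 1)) (C1 D w w') ≤
      ENNReal.ofReal (3 * D.G ^ 2 / D.N (D.n + 1)) * Y) :
    Src D.T D.c D.γ (ρ (D.n + 1)) (T1c D w w') ≤
      ENNReal.ofReal (3 * D.G ^ 3 * D.u (D.n + 1) ^ 512) * Y ∧
    (Y ≠ ∞ → Nrm D.T (D.c - D.c / 4) D.γ (ρ (D.n + 1)) (T1c D w w') ≠ ∞) := by
  have hmn := hD.hmn
  obtain ⟨hp, hγ, hγG⟩ := par hD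
  have hG : 0 < D.G := by linarith [hD.G_two]
  have hN : 1 ≤ D.N (D.n + 1) := hD.N_pos _ le_rfl
  have hN0 : 0 < D.N (D.n + 1) := by linarith
  have hNn : 0 ≤ D.N D.n := norm_nonneg _
  have hu : 0 < D.u (D.n + 1) := hD.u_pos _
  have hρ : Wt D.T (ρ (D.n + 1)) := hW.wt _ (by omega) le_rfl
  have e1 : Nrm D.T D.c D.γ (ρ (D.n + 1)) ((D.N D.n : ℂ) • C1 D w w') ≤
      ENNReal.ofReal (3 * D.G ^ 2 * D.u (D.n + 1) ^ 512) * Y := by
    rw [Nrm_smul h5 hp hρ, smul_enorm_real hNn]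
    refine (mul_le_mul_right h _).trans ?_
    rw [← mul_assoc, ← ENNReal.ofReal_mul hNn]
    refine mul_le_mul_left (ENNReal.ofReal_le_ofReal ?_) _
    have e2 := hD.mu_le (D.n + 1) (by omega) le_rfl
    rw [Nat.add_sub_cancel] at e2
    calc D.N D.n * (3 * D.G ^ 2 / D.N (D.n + 1)) = 3 * D.G ^ 2 * (D.N D.n / D.N (D.n + 1)) := by
          ring
      _ ≤ 3 * D.G ^ 2 * D.u (D.n + 1) ^ 512 := mul_le_mul_of_nonneg_left e2 (by positivity)
  constructor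
  · refine (h6 Md Mat C3 D.T D.c D.γ (ρ (D.n + 1)) ((D.N D.n : ℂ) • C1 D w w') (T1c D w w') hp hγ
      hρ (fun t _ q => T1c_bd h01 hD w w' t q)).trans ?_
    refine (mul_le_mul' (ENNReal.ofReal_le_ofReal hγG) e1).trans ?_
    rw [← mul_assoc, ← ENNReal.ofReal_mul hG.le]
    exact mul_le_mul_left (ENNReal.ofReal_le_ofReal (le_of_eq (by ring))) _
  · intro hY
    refine ne_top_of_le_ne_top ?_ (Nrm_der (δ := D.c / 4) (by linarith [hD.c_pos]) hρ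
      ((D.N D.n : ℂ) • C1 D w w') (T1c D w w') (fun t _ q => T1c_bd h01 hD w w' t q))
    exact ENNReal.mul_ne_top ENNReal.ofReal_ne_top
      (ne_top_of_le_ne_top (ENNReal.mul_ne_top ENNReal.ofReal_ne_top hY) e1)

theorem dh_src (h01 : S01) (h6 : W06) (hD : D.Hyp) (hW : Wts D ρ Str)
    {w w' : ℝ → Md → C3} {κ : ℝ → Md → ℂ} {Y : ℝ≥0∞}
    (h : Nrm D.T D.c D.γ (ρ (D.n + 1)) (hh D w κ w') ≤
      ENNReal.ofReal (3 * D.G ^ 2 * D.u (D.n + 1) ^ 128) * Y) :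
    Src D.T D.c D.γ (ρ (D.n + 1)) (dh D w κ w') ≤
      ENNReal.ofReal (3 * D.G ^ 3 * D.u (D.n + 1) ^ 128) * Y ∧
    (Y ≠ ∞ → Nrm D.T (D.c - D.c / 4) D.γ (ρ (D.n + 1)) (dh D w κ w') ≠ ∞) := by
  have hmn := hD.hmn
  obtain ⟨hp, hγ, hγG⟩ := par hD
  have hG : 0 < D.G := by linarith [hD.G_two]
  have hu : 0 < D.u (D.n + 1) := hD.u_pos _
  have hρ : Wt D.T (ρ (D.n + 1)) := hW.wt _ (by omega) le_rfl
  constructor
  · refine (h6 Md C3 C3 D.T D.c D.γ (ρ (D.n + 1)) (hh D w κ w') (dh D w κ w') hp hγ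
      hρ (fun t _ q => dh_bd h01 w w' κ t q)).trans ?_
    refine (mul_le_mul' (ENNReal.ofReal_le_ofReal hγG) h).trans ?_
    rw [← mul_assoc, ← ENNReal.ofReal_mul hG.le]
    exact mul_le_mul_left (ENNReal.ofReal_le_ofReal (le_of_eq (by ring))) _
  · intro hY
    refine ne_top_of_le_ne_top ?_ (Nrm_der (δ := D.c / 4) (by linarith [hD.c_pos]) hρ
      (hh D w κ w') (dh D w κ w') (fun t _ q => dh_bd h01 w w' κ t q))
    exact ENNReal.mul_ne_top ENNReal.ofReal_ne_top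
      (ne_top_of_le_ne_top (ENNReal.mul_ne_top ENNReal.ofReal_ne_top hY) h)

/-- the new class part of the bilinear form -/
theorem key1 (h03 : S03) (h16 : W16) (hD : D.Hyp) (w w' : ℝ → Md → C3) (κ : ℝ → Md → ℂ) {t : ℝ}
    (ht : t ∈ Icc 0 D.T) : res (Cl (D.n + 1)) (Bil D w κ w' t) =
      -(act (idK - D.Pl D.n t) (T1c D w w' t + Complex.I • dh D w κ w' t)) := by
  unfold Bil
  rw [res_neg', (h03 C3 C3 C3).2.2.1 _ D.n (D.n + 1) _ (Nat.lt_succ_self _) (P_supp h16 hD ht)]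
  congr 2
  funext q
  by_cases hq : q ∈ Cl (D.n + 1)
  · simp only [res, if_pos hq, T1c, dh, C1, hh, Pi.add_apply, Pi.smul_apply, smul_smul]
  · simp only [res, if_neg hq, T1c, dh, C1, hh, Pi.add_apply, Pi.smul_apply, smul_zero, add_zero]
    simp

end main

end S22a

open S22a in
theorem s22 (h01 : S01) (h03 : S03) (h04 : S04) (h11S : S11) (h15 : S15) (h1 : W01) (h2 : W02)
    (h3 : W03) (h5 : W05) (h6 : W06) (h9 : W09) (h10 : W10) (h11 : W11) (h12 : W12)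
    (h16 : W16) : S22 := by
  intro D ρ Str hD hW w w' κ κ' hA hA'
  have hmn := hD.hmn
  obtain ⟨hp, hγ, hγG⟩ := par hD
  have hp' := par' hD
  have hG2 := hD.G_two
  have hG : 0 < D.G := by linarith [hD.G_two]
  have hN : 1 ≤ D.N (D.n + 1) := hD.N_pos _ le_rfl
  have hN0 : 0 < D.N (D.n + 1) := by linarith
  have hu : 0 < D.u (D.n + 1) := hD.u_pos _
  have hρ : Wt D.T (ρ (D.n + 1)) := hW.wt _ (by omega) le_rfl
  obtain ⟨c1, n1⟩ := C1_prop h03 h04 h1 h2 h5 h9 h10 h11 h12 hD hW hA hA'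
  obtain ⟨c2, n2⟩ := hh_prop h03 h04 h15 h1 h2 h5 h9 h10 h11 h12 hD hW hA hA'
  have fY : XN D ρ w κ * XN D ρ w' κ' ≠ ∞ := ENNReal.mul_ne_top hA.fin hA'.fin
  have s1 := (T1c_src h01 h5 h6 hD hW n1).1
  have s2 := (dh_src h01 h6 hD hW n2).1
  have m1 := (T1c_src h01 h5 h6 hD hW n1).2 fY
  have m2 := (dh_src h01 h6 hD hW n2).2 fY
  have d1 := T1c_CM c1
  have d2 := dh_CM c2
  set Y := XN D ρ w κ * XN D ρ w' κ' with hY
  have s2' : Src D.T D.c D.γ (ρ (D.n + 1)) (Complex.I • dh D w κ w') ≤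
      ENNReal.ofReal (3 * D.G ^ 3 * D.u (D.n + 1) ^ 128) * Y := by
    rw [Src_smul h5 hp hρ]
    have : ‖Complex.I‖ₑ = 1 := by
      rw [← ofReal_norm, Complex.norm_I, ENNReal.ofReal_one]
    rw [this, one_mul]
    exact s2
  have u1 := u384 hD
  rw [mul_assoc, mul_assoc, ← hY]
  constructor
  · -- the velocity part
    rw [Src_congr (g := fun t => -(act (idK - D.Pl D.n t) ((T1c D w w' + Complex.I • dh D w κ w') t)))
      (fun t ht => key1 h03 h16 hD w w' κ ht), Src_neg']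
    refine (h3 Md C3 C3 D.T D.c D.γ (ρ (D.n + 1)) (fun t => idK - D.Pl D.n t)
      (T1c D w w' + Complex.I • dh D w κ w') hp hρ (CM_add d1 (CM_smul _ d2))).trans ?_
    refine (mul_le_mul' (KN_idP h9 hD) ((Src_add h5 hp hρ _ _ d1).trans
      (add_le_add s1 s2'))).trans ?_
    rw [← add_mul, ← ENNReal.ofReal_add (by positivity) (by positivity), ← mul_assoc,
      ← ENNReal.ofReal_mul (by positivity)]
    refine mul_le_mul_left (ENNReal.ofReal_le_ofReal ?_) _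
    have e1 : 2 * D.G * (3 * D.G ^ 3 * D.u (D.n + 1) ^ 512 + 3 * D.G ^ 3 * D.u (D.n + 1) ^ 128) =
        D.G ^ 4 * D.u (D.n + 1) ^ 128 * (6 * D.u (D.n + 1) ^ 384 + 6) := by ring
    have e2 : D.G ^ 20 * D.u (D.n + 1) ^ 128 = D.G ^ 4 * D.u (D.n + 1) ^ 128 * D.G ^ 16 := by ring
    rw [e1, e2]
    refine mul_le_mul_of_nonneg_left ?_ (by positivity)
    have e3 : (2 : ℝ) ^ 16 ≤ D.G ^ 16 := pow_le_pow_left₀ (by norm_num) hG2 _
    have := u1 384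
    norm_num at e3
    linarith
  · -- the `κ` part
    obtain ⟨-, hrw, hpn, -, -, hrwc, hpc, -, -, -, -, hprw, -⟩ := h15 D hD (D.n + 1) (by omega) le_rfl
    have hrw' : Nrm D.T D.c 0 Dat.one' (D.rw (D.n + 1)) ≠ ∞ :=
      ne_top_of_le_ne_top ENNReal.ofReal_ne_top hrw
    have hpn' : Nrm D.T D.c 0 Dat.one' (D.p (D.n + 1)) ≠ ∞ :=
      ne_top_of_le_ne_top ENNReal.ofReal_ne_top hpn
    have hsupp : SuppT D.T (Cl (D.n + 1)) (hh D w κ w') := fun t _ => res_supp _ _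
    obtain ⟨c3, s3⟩ := h11S D hD (ρ (D.n + 1)) (hh D w κ w') hρ c2 hsupp
      (ne_top_of_le_ne_top (ENNReal.mul_ne_top ENNReal.ofReal_ne_top fY) n2)
    -- the two parts
    set A1 : ℝ → Md → ℂ := fun t => -(mul (D.rw (D.n + 1) t)
      (act (idK - D.Pl D.n t) (T1c D w w' t))) with hA1
    set A2 : ℝ → Md → ℂ := Complex.I • (fun t => mul (D.rw (D.n + 1) t)
      (act (D.Pl D.n t) (dh D w κ w' t) - mul (D.p (D.n + 1) t) (dh D w κ w' t))) with hA2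
    have hKid : KN D.T D.c (fun t => idK - D.Pl D.n t) ≠ ∞ :=
      ne_top_of_le_ne_top ENNReal.ofReal_ne_top (KN_idP h9 hD)
    have hKP : KN D.T D.c (D.Pl D.n) ≠ ∞ :=
      ne_top_of_le_ne_top ENNReal.ofReal_ne_top (hD.P_le D.n hmn le_rfl).1
    have hKI : KN D.T D.c (fun _ => idK) ≠ ∞ :=
      ne_top_of_le_ne_top ENNReal.one_ne_top (idK_le h9 hD)
    have key2 : ∀ t ∈ Icc 0 D.T, ((D.N (D.n + 1) : ℂ)⁻¹) •
        mul (D.rw (D.n + 1) t) (res (Cl (D.n + 1)) (Bil D w κ w' t)) =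
        (((D.N (D.n + 1) : ℂ)⁻¹) • (A1 + A2)) t := by
      intro t ht
      show _ = ((D.N (D.n + 1) : ℂ)⁻¹) • (A1 t + A2 t)
      congr 1
      have q1 : sN 0 (T1c D w w' t) ≠ ∞ := sN_fin hp' hρ m1 ht
      have q2 : sN 0 (dh D w κ w' t) ≠ ∞ := sN_fin hp' hρ m2 ht
      have k1 : sK 0 (idK - D.Pl D.n t) ≠ ∞ := KN_sK h9 h10 hD (A := fun t => idK - D.Pl D.n t) hKid ht
      have k2 : sK 0 (D.Pl D.n t) ≠ ∞ := KN_sK h9 h10 hD hKP ht
      have k3 : sK 0 (idK : Md → Md → Mat) ≠ ∞ := KN_sK h9 h10 hD (A := fun _ => idK) hKI ht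
      have k4 : sK 0 (mulK (D.rw (D.n + 1) t)) ≠ ∞ := sK_mulK h10 hp hrw' ht
      have k5 : sK 0 (mulK (D.p (D.n + 1) t)) ≠ ∞ := sK_mulK h10 hp hpn' ht
      have q3 : sN 0 (act (D.Pl D.n t) (dh D w κ w' t)) ≠ ∞ :=
        ne_top_of_le_ne_top (ENNReal.mul_ne_top k2 q2)
          ((h10 Md C3 C3 C3 0 le_rfl).2.1 (D.Pl D.n t) (dh D w κ w' t))
      have q4 : sN 0 (mul (D.p (D.n + 1) t) (dh D w κ w' t)) ≠ ∞ :=
        ne_top_of_le_ne_top (ENNReal.mul_ne_top k5 q2)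
          ((h10 Md C3 C3 C3 0 le_rfl).2.1 _ (dh D w κ w' t))
      have q5 : sN 0 (act (idK - D.Pl D.n t) (T1c D w w' t)) ≠ ∞ :=
        ne_top_of_le_ne_top (ENNReal.mul_ne_top k1 q1)
          ((h10 Md C3 C3 C3 0 le_rfl).2.1 _ (T1c D w w' t))
      have q6 : sN 0 (act (idK - D.Pl D.n t) (dh D w κ w' t)) ≠ ∞ :=
        ne_top_of_le_ne_top (ENNReal.mul_ne_top k1 q2)
          ((h10 Md C3 C3 C3 0 le_rfl).2.1 _ (dh D w κ w' t))
      have hsm : ∀ f : Md → C3, sN 0 f ≠ ∞ → sN 0 (Complex.I • f) ≠ ∞ := by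
        intro f hf
        have : sN 0 (Complex.I • f) = sN 0 f := by
          unfold sN
          refine tsum_congr fun m => ?_
          congr 1
          rw [← ofReal_norm, ← ofReal_norm, Pi.smul_apply, norm_smul, Complex.norm_I, one_mul]
        rwa [this]
      have idact : act idK (dh D w κ w' t) = dh D w κ w' t := by
        funext q
        have := (h11 Md C3 C3 C3 C3).2.2.2.2.2 (fun _ => ContinuousLinearMap.id ℂ C3)
          (dh D w κ w' t) q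
        exact this
      have e1 : act (idK - D.Pl D.n t) (dh D w κ w' t) =
          dh D w κ w' t - act (D.Pl D.n t) (dh D w κ w' t) := by
        rw [act_subA h11 k3 k2 q2, idact]
      rw [key1 h03 h16 hD w w' κ ht, act_add' h11 k1 q1 (hsm _ q2), act_smul']
      show act (mulK (D.rw (D.n + 1) t)) _ = _
      rw [act_neg', act_add' h11 k4 q5 (hsm _ q6), act_smul', e1, act_sub' h11 k4 q2 q3]
      have e2 : act (mulK (D.rw (D.n + 1) t)) (dh D w κ w' t) =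
          act (mulK (D.rw (D.n + 1) t)) (mul (D.p (D.n + 1) t) (dh D w κ w' t)) :=
        (hprw t ht (dh D w κ w' t) q2).1.symm
      have e3 : A2 t = Complex.I • (act (mulK (D.rw (D.n + 1) t)) (act (D.Pl D.n t)
          (dh D w κ w' t)) - act (mulK (D.rw (D.n + 1) t)) (mul (D.p (D.n + 1) t)
          (dh D w κ w' t))) := by
        rw [← act_sub' h11 k4 q3 q4]
        rfl
      rw [e3, e2, hA1, neg_add, ← smul_neg, neg_sub]
      rfl
    have hwt' : Wt D.T (fun t => D.u (D.n + 1) ^ 128 * ρ (D.n + 1) t) :=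
      Wt_const (pow_pos hu _) hρ
    rw [Src_congr key2, Src_smul h5 hp hwt']
    have hnorm : ‖((D.N (D.n + 1) : ℂ)⁻¹)‖ₑ = ENNReal.ofReal ((D.N (D.n + 1))⁻¹) := by
      rw [← ofReal_norm, norm_inv, Complex.norm_real, Real.norm_of_nonneg hN0.le]
    rw [hnorm]
    -- continuity of the first part
    have g1 : CM D.T (fun t => act (idK - D.Pl D.n t) (T1c D w w' t)) := by
      refine (h12 Md C3 C3 C3 D.T (D.c - D.c / 4) D.γ _ _ hp' hρ hρ).1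
        (fun t => idK - D.Pl D.n t) (T1c D w w') (CK_idP hD) d1 ?_ m1
      exact ne_top_of_le_ne_top hKid ((h9 Md C3 C3 C3 D.T D.c hD.c_pos.le).2.2.2.2.2.1
        (D.c - D.c / 4) (by linarith [hD.c_pos]) _)
    have g2 : Nrm D.T (D.c - D.c / 4) D.γ (ρ (D.n + 1))
        (fun t => act (idK - D.Pl D.n t) (T1c D w w' t)) ≠ ∞ := by
      refine ne_top_of_le_ne_top (ENNReal.mul_ne_top ?_ m1)
        (h1 Md C3 C3 D.T (D.c - D.c / 4) D.γ _ (fun t => idK - D.Pl D.n t) (T1c D w w') hp' hρ)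
      exact ne_top_of_le_ne_top hKid ((h9 Md C3 C3 C3 D.T D.c hD.c_pos.le).2.2.2.2.2.1
        (D.c - D.c / 4) (by linarith [hD.c_pos]) _)
    have g3 : CM D.T (fun t => mul (D.rw (D.n + 1) t)
        (act (idK - D.Pl D.n t) (T1c D w w' t))) := by
      refine (h12 Md C3 ℂ ℂ D.T (D.c - D.c / 4) D.γ _ _ hp' hρ hρ).1
        (fun t => mulK (D.rw (D.n + 1) t)) (fun t => act (idK - D.Pl D.n t) (T1c D w w' t))
        (fun m l => hrwc (m - l)) g1 ?_ g2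
      refine ne_top_of_le_ne_top ?_ ((h9 Md C3 ℂ ℂ D.T D.c hD.c_pos.le).2.2.2.2.2.1
        (D.c - D.c / 4) (by linarith [hD.c_pos]) _)
      rw [(h9 Md C3 ℂ ℂ D.T D.c hD.c_pos.le).2.2.2.1]
      exact hrw'
    have g4 : CM D.T A1 := fun q => (g3 q).neg
    -- the bounds
    have b1 : Src D.T D.c D.γ (ρ (D.n + 1)) A1 ≤ ENNReal.ofReal (D.G * D.N (D.n + 1)) *
        (ENNReal.ofReal (2 * D.G) * (ENNReal.ofReal (3 * D.G ^ 3 * D.u (D.n + 1) ^ 512) * Y)) := by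
      rw [hA1, Src_neg']
      refine (Src_mul h3 h9 hp hρ hrw g1).trans (mul_le_mul_right ?_ _)
      refine (h3 Md C3 C3 D.T D.c D.γ (ρ (D.n + 1)) (fun t => idK - D.Pl D.n t)
        (T1c D w w') hp hρ d1).trans ?_
      exact mul_le_mul' (KN_idP h9 hD) s1
    have b2 : Src D.T D.c D.γ (ρ (D.n + 1)) A2 ≤ ENNReal.ofReal (D.G * D.N (D.n + 1)) *
        (ENNReal.ofReal (D.G ^ 13 * D.u (D.n + 1) ^ 512) *
          (ENNReal.ofReal (3 * D.G ^ 2 * D.u (D.n + 1) ^ 128) * Y)) := by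
      rw [hA2, Src_smul h5 hp hρ]
      have : ‖Complex.I‖ₑ = 1 := by
        rw [← ofReal_norm, Complex.norm_I, ENNReal.ofReal_one]
      rw [this, one_mul]
      refine (Src_mul h3 h9 hp hρ hrw c3).trans (mul_le_mul_right ?_ _)
      exact s3.trans (mul_le_mul_right n2 _)
    have b3 := (Src_wt h5 hp (a := (D.u (D.n + 1) ^ 128)⁻¹) hρ hwt' (by positivity)
      (fun t _ => by
        rw [← mul_assoc, inv_mul_cancel₀ (by positivity), one_mul]) (A1 + A2))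
    refine (mul_le_mul_right (b3.trans (mul_le_mul_right ((Src_add h5 hp hρ A1 A2 g4).trans
      (add_le_add b1 b2)) _)) _).trans ?_
    rw [← mul_assoc (ENNReal.ofReal (2 * D.G)), ← ENNReal.ofReal_mul (by positivity),
      ← mul_assoc (ENNReal.ofReal (D.G ^ 13 * D.u (D.n + 1) ^ 512)),
      ← ENNReal.ofReal_mul (by positivity), ← mul_add, ← add_mul,
      ← ENNReal.ofReal_add (by positivity) (by positivity), ← mul_assoc, ← mul_assoc,
      ← mul_assoc, ← ENNReal.ofReal_mul (by positivity), ← ENNReal.ofReal_mul (by positivity),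
      ← ENNReal.ofReal_mul (by positivity)]
    refine mul_le_mul_left (ENNReal.ofReal_le_ofReal ?_) _
    have e1 : (D.N (D.n + 1))⁻¹ * (D.u (D.n + 1) ^ 128)⁻¹ * (D.G * D.N (D.n + 1)) *
        (2 * D.G * (3 * D.G ^ 3 * D.u (D.n + 1) ^ 512) +
          D.G ^ 13 * D.u (D.n + 1) ^ 512 * (3 * D.G ^ 2 * D.u (D.n + 1) ^ 128)) =
        D.G ^ 5 * D.u (D.n + 1) ^ 384 * (6 + 3 * D.G ^ 11 * D.u (D.n + 1) ^ 128) := by
      field_simp
      ring
    rw [e1]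
    have e2 : D.G ^ 20 * D.u (D.n + 1) ^ 200 = D.G ^ 5 * D.u (D.n + 1) ^ 200 * D.G ^ 15 := by ring
    rw [e2]
    have e3 : (2 : ℝ) ^ 4 ≤ D.G ^ 4 := pow_le_pow_left₀ (by norm_num) hG2 _
    have e4 : (1 : ℝ) ≤ D.G ^ 11 := one_le_pow₀ (by linarith)
    have e5 : D.u (D.n + 1) ^ 384 ≤ D.u (D.n + 1) ^ 200 :=
      pow_le_pow_of_le_one hu.le (hD.u_lt _).le (by norm_num)
    have e6 : 6 + 3 * D.G ^ 11 * D.u (D.n + 1) ^ 128 ≤ D.G ^ 15 := by
      have e7 := u1 128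
      have e8 : 3 * D.G ^ 11 * D.u (D.n + 1) ^ 128 ≤ 3 * D.G ^ 11 * 1 :=
        mul_le_mul_of_nonneg_left e7 (by positivity)
      have e9 : D.G ^ 15 = D.G ^ 11 * D.G ^ 4 := by ring
      rw [e9]
      have e10 : D.G ^ 11 * 16 ≤ D.G ^ 11 * D.G ^ 4 :=
        mul_le_mul_of_nonneg_left (by linarith) (by positivity)
      linarith
    calc D.G ^ 5 * D.u (D.n + 1) ^ 384 * (6 + 3 * D.G ^ 11 * D.u (D.n + 1) ^ 128)
        ≤ D.G ^ 5 * D.u (D.n + 1) ^ 200 * D.G ^ 15 :=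
          mul_le_mul (mul_le_mul_of_nonneg_left e5 (by positivity)) e6 (by positivity)
            (by positivity)

end Pool.Agent.Work.MP_b0497c_an.Unf.S
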