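import Pool.Agent.Work.MP_b0497c_an.Unf.SStmts2

set_option autoImplicit false

/-!
# S26: uniqueness for (E) in the class of analytic solutions
-/

open scoped ENNReal
open Set MeasureTheory

namespace Pool.Agent.Work.MP_b0497c_an.Unf.S

open W

namespace AuxS26

section general

variable {E F : Type} [NormedAddCommGroup E] [NormedSpace ℂ E] [NormedAddCommGroup F]
  [NormedSpace ℂ F]

theorem wt_one (T : ℝ) : Wt T Dat.one' :=
  ⟨fun _ _ => one_pos, continuousOn_const, fun _ _ _ _ _ => le_rfl⟩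

omit [NormedSpace ℂ E] in
/-- Restriction to a window, with a smaller radius. -/
theorem nrm_window {T c γ g d t₀ : ℝ} (hγ : 0 ≤ γ) (hg : 0 ≤ g) (h0 : 0 ≤ t₀) (h1 : t₀ + d ≤ T)
    (f : ℝ → Md → E) :
    Nrm d (c - γ * T) g Dat.one' (fun t => f (t₀ + t)) ≤ Nrm T c γ Dat.one' f := by
  unfold Nrm
  refine ENNReal.tsum_le_tsum fun q => iSup₂_le fun t ht => ?_
  have ht' : t₀ + t ∈ Icc 0 T := ⟨by linarith [ht.1], by linarith [ht.2]⟩
  refine le_trans ?_ (le_iSup₂ (f := fun t (_ : t ∈ Icc 0 T) =>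
    ENNReal.ofReal (Real.exp ((c - γ * t) * len q) / Dat.one' t) * ‖f t q‖ₑ) (t₀ + t) ht')
  refine mul_le_mul' ?_ le_rfl
  apply ENNReal.ofReal_le_ofReal
  show Real.exp _ / 1 ≤ Real.exp _ / 1
  rw [div_one, div_one]
  apply Real.exp_le_exp.2
  apply mul_le_mul_of_nonneg_right _ (len_nonneg q)
  have h2 : γ * (t₀ + t) ≤ γ * T := mul_le_mul_of_nonneg_left ht'.2 hγ
  have h3 : 0 ≤ g * t := mul_nonneg hg ht.1
  linarith

theorem kn_window {T c c' d t₀ : ℝ} (hc : c' ≤ c) (h0 : 0 ≤ t₀) (h1 : t₀ + d ≤ T)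
    (A : ℝ → Md → Md → (E →L[ℂ] F)) : KN d c' (fun t => A (t₀ + t)) ≤ KN T c A := by
  unfold KN
  refine ENNReal.tsum_le_tsum fun k => ?_
  refine mul_le_mul' ?_ ?_
  · apply ENNReal.ofReal_le_ofReal
    apply Real.exp_le_exp.2
    exact mul_le_mul_of_nonneg_right hc (len_nonneg k)
  · refine iSup_mono fun l => iSup₂_le fun t ht => ?_
    have ht' : t₀ + t ∈ Icc 0 T := ⟨by linarith [ht.1], by linarith [ht.2]⟩
    exact le_iSup₂ (f := fun t (_ : t ∈ Icc 0 T) => ‖A t (l + k) l‖ₑ) (t₀ + t) ht'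

theorem cont_window {X : Type} [TopologicalSpace X] {T d t₀ : ℝ} (h0 : 0 ≤ t₀)
    (h1 : t₀ + d ≤ T) {f : ℝ → X} (hf : ContinuousOn f (Icc 0 T)) :
    ContinuousOn (fun t => f (t₀ + t)) (Icc 0 d) :=
  hf.comp (by fun_prop) fun t ht => ⟨by linarith [ht.1], by linarith [ht.2]⟩

omit [NormedSpace ℂ E] in
theorem nrm_congr {T c γ : ℝ} {ρ : ℝ → ℝ} {f f' : ℝ → Md → E}
    (h : ∀ t ∈ Icc 0 T, ∀ q, f t q = f' t q) : Nrm T c γ ρ f = Nrm T c γ ρ f' := by
  unfold Nrm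
  refine tsum_congr fun q => iSup_congr fun t => iSup_congr fun ht => ?_
  rw [h t ht q]

omit [NormedSpace ℂ E] in
/-- Static norms. -/
theorem sN_le_Nrm {T c γ : ℝ} (hγ : 0 ≤ γ) {f : ℝ → Md → E} {t : ℝ} (ht : t ∈ Icc 0 T) :
    sN (c - γ * T) (f t) ≤ Nrm T c γ Dat.one' f := by
  unfold sN Nrm
  refine ENNReal.tsum_le_tsum fun q => ?_
  refine le_trans ?_ (le_iSup₂ (f := fun t (_ : t ∈ Icc 0 T) =>
    ENNReal.ofReal (Real.exp ((c - γ * t) * len q) / Dat.one' t) * ‖f t q‖ₑ) t ht)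
  refine mul_le_mul' ?_ le_rfl
  apply ENNReal.ofReal_le_ofReal
  show Real.exp _ ≤ Real.exp _ / 1
  rw [div_one]
  apply Real.exp_le_exp.2
  apply mul_le_mul_of_nonneg_right _ (len_nonneg q)
  have h2 : γ * t ≤ γ * T := mul_le_mul_of_nonneg_left ht.2 hγ
  linarith

omit [NormedSpace ℂ E] in
theorem sN_mono {c c' : ℝ} (h : c' ≤ c) (f : Md → E) : sN c' f ≤ sN c f := by
  unfold sN
  refine ENNReal.tsum_le_tsum fun q => mul_le_mul' ?_ le_rfl
  apply ENNReal.ofReal_le_ofReal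
  apply Real.exp_le_exp.2
  exact mul_le_mul_of_nonneg_right h (len_nonneg q)

omit [NormedSpace ℂ E] in
theorem sN_sub {c : ℝ} {f f' : Md → E} (h : sN c f ≠ ∞) (h' : sN c f' ≠ ∞) :
    sN c (f - f') ≠ ∞ := by
  have h1 : sN c (f - f') ≤ sN c f + sN c f' := by
    unfold sN
    rw [← ENNReal.tsum_add]
    refine ENNReal.tsum_le_tsum fun q => ?_
    rw [← mul_add]
    exact mul_le_mul' le_rfl enorm_sub_le
  exact ne_top_of_le_ne_top (ENNReal.add_ne_top.2 ⟨h, h'⟩) h1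

omit [NormedSpace ℂ E] in
theorem sN_add {c : ℝ} {f f' : Md → E} (h : sN c f ≠ ∞) (h' : sN c f' ≠ ∞) :
    sN c (f + f') ≠ ∞ := by
  have h1 : sN c (f + f') ≤ sN c f + sN c f' := by
    unfold sN
    rw [← ENNReal.tsum_add]
    refine ENNReal.tsum_le_tsum fun q => ?_
    rw [← mul_add]
    exact mul_le_mul' le_rfl (enorm_add_le _ _)
  exact ne_top_of_le_ne_top (ENNReal.add_ne_top.2 ⟨h, h'⟩) h1

theorem act_add (h11 : W11) {X : Type} [NormedAddCommGroup X] [NormedSpace ℂ X]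
    [CompleteSpace X] {A A' : Md → Md → (C3 →L[ℂ] X)} {f f' : Md → C3} (hA : sK 0 A ≠ ∞)
    (hA' : sK 0 A' ≠ ∞) (hf : sN 0 f ≠ ∞) (hf' : sN 0 f' ≠ ∞) :
    act (A + A') f = act A f + act A' f ∧ act A (f + f') = act A f + act A f' :=
  (h11 Md C3 X X X).2.2.2.1 A A' f f' hA hA' hf hf'

theorem sK_mulK (h10 : W10) {X : Type} [NormedAddCommGroup X] [NormedSpace ℂ X]
    (a : Md → (C3 →L[ℂ] X)) : sK 0 (mulK a) = sN 0 a :=
  (h10 Md C3 X X 0 le_rfl).2.2.2.1 a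

omit [NormedSpace ℂ E] [NormedSpace ℂ F] in
theorem sN_comp_le {E F G : Type} [NormedAddCommGroup E] [NormedSpace ℂ E]
    [NormedAddCommGroup F] [NormedSpace ℂ F] [NormedAddCommGroup G] [NormedSpace ℂ G]
    (β : E →L[ℂ] F →L[ℂ] G) {f : Md → E} (h : sN 0 f ≠ ∞) : sN 0 (fun k => β (f k)) ≠ ∞ := by
  have h1 : sN 0 (fun k => β (f k)) ≤ ‖β‖ₑ * sN 0 f := by
    unfold sN
    rw [← ENNReal.tsum_mul_left]
    refine ENNReal.tsum_le_tsum fun q => ?_
    have h2 : ‖β (f q)‖ₑ ≤ ‖β‖ₑ * ‖f q‖ₑ := β.le_opENorm _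
    calc ENNReal.ofReal (Real.exp (0 * len q)) * ‖β (f q)‖ₑ
        ≤ ENNReal.ofReal (Real.exp (0 * len q)) * (‖β‖ₑ * ‖f q‖ₑ) :=
          mul_le_mul' le_rfl h2
      _ = _ := by ring
  exact ne_top_of_le_ne_top (ENNReal.mul_ne_top enorm_ne_top h) h1

theorem sN_outer {f : Md → C3} (h : sN 0 f ≠ ∞) : sN 0 (fun k => outerB (f k)) ≠ ∞ :=
  sN_comp_le outerB h

/-- Products, with an unspecified constant. -/
theorem conv_bound (h02 : W02) (h10 : W10) {E F G : Type} [NormedAddCommGroup E]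
    [NormedSpace ℂ E] [NormedAddCommGroup F] [NormedSpace ℂ F] [NormedAddCommGroup G]
    [NormedSpace ℂ G] (β : E →L[ℂ] F →L[ℂ] G) : ∃ b : ℝ≥0∞, b ≠ ∞ ∧
    (∀ (T c γ : ℝ) (f : ℝ → Md → E) (g : ℝ → Md → F), Par T c γ →
      Nrm T c γ Dat.one' (fun t => conv β (f t) (g t)) ≤
        b * Nrm T c γ Dat.one' f * Nrm T c γ Dat.one' g) ∧
    ∀ (c : ℝ) (f : Md → E) (g : Md → F), 0 ≤ c → sN c f ≠ ∞ → sN c g ≠ ∞ →
      sN c (conv β f g) ≠ ∞ := by
  refine ⟨‖β‖ₑ, enorm_ne_top, fun T c γ f g hP => ?_, fun c f g hc hf hg => ?_⟩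
  · have h1 := h02 Md E F G T c γ Dat.one' Dat.one' β f g hP (wt_one T) (wt_one T)
    have h2 : (fun t => Dat.one' t * Dat.one' t) = Dat.one' := by
      funext t
      exact mul_one _
    rwa [h2] at h1
  · exact ne_top_of_le_ne_top (ENNReal.mul_ne_top (ENNReal.mul_ne_top enorm_ne_top hf) hg)
      ((h10 Md E F G c hc).2.2.1 β f g)

theorem conv_add (h10 : W10) (h11 : W11) {f f' g g' : Md → C3} (hf : sN 0 f ≠ ∞)
    (hf' : sN 0 f' ≠ ∞) (hg : sN 0 g ≠ ∞) (hg' : sN 0 g' ≠ ∞) :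
    conv outerB (f + f') g = conv outerB f g + conv outerB f' g ∧
      conv outerB f (g + g') = conv outerB f g + conv outerB f g' := by
  have h1 : sK 0 (mulK fun k => outerB (f k)) ≠ ∞ := by
    rw [sK_mulK h10]
    exact sN_outer hf
  have h2 : sK 0 (mulK fun k => outerB (f' k)) ≠ ∞ := by
    rw [sK_mulK h10]
    exact sN_outer hf'
  have h3 := act_add h11 h1 h2 hg hg'
  have h4 : mulK (fun k => outerB ((f + f') k)) =
      mulK (fun k => outerB (f k)) + mulK (fun k => outerB (f' k)) := by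
    funext m l
    show outerB ((f + f') (m - l)) = outerB (f (m - l)) + outerB (f' (m - l))
    rw [Pi.add_apply, map_add]
  refine ⟨?_, h3.2⟩
  have h5 : conv outerB (f + f') g = act (mulK fun k => outerB ((f + f') k)) g := rfl
  rw [h5, h4]
  exact h3.1

end general

/-- The vector `i Z ξ`. -/
noncomputable def hb (K : ℕ → Fin 3 → ℤ) (Z : Md → Mat) (q : Md) : C3 :=
  Complex.I • (Z q) (xi K q)

theorem hb_add (K : ℕ → Fin 3 → ℤ) (Z Z' : Md → Mat) : hb K (Z + Z') = hb K Z + hb K Z' := by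
  funext q
  show Complex.I • ((Z + Z') q) (xi K q) = Complex.I • (Z q) (xi K q) + Complex.I • (Z' q) (xi K q)
  rw [Pi.add_apply, add_apply, smul_add]

/-- The wave vectors grow linearly. -/
theorem xi_le (K : ℕ → Fin 3 → ℤ) (n : ℕ) : ∃ N : ℝ, 0 ≤ N ∧ ∀ q ∈ lev n, ‖xi K q‖ ≤ N * len q := by
  refine ⟨∑ i ∈ Finset.range (n + 1), ‖kv (K i)‖, Finset.sum_nonneg fun i _ => norm_nonneg _,
    fun q hq => ?_⟩
  set N := ∑ i ∈ Finset.range (n + 1), ‖kv (K i)‖ with hN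
  have hlen : len q = ∑ i ∈ q.support, |((q i : ℤ) : ℝ)| := rfl
  have hxi : xi K q = ∑ i ∈ q.support, ((q i : ℤ) : ℂ) • kv (K i) := rfl
  rw [hlen, hxi, Finset.mul_sum]
  refine (norm_sum_le _ _).trans (Finset.sum_le_sum fun i hi => ?_)
  rw [norm_smul]
  have h1 : ‖((q i : ℤ) : ℂ)‖ = |((q i : ℤ) : ℝ)| := by
    rw [Complex.norm_intCast]
  have h2 : i < n + 1 := by
    by_contra h
    exact (Finsupp.mem_support_iff.1 hi) (hq i (by omega))
  have h3 : ‖kv (K i)‖ ≤ N :=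
    Finset.single_le_sum (f := fun i => ‖kv (K i)‖) (fun i _ => norm_nonneg _)
      (Finset.mem_range.2 h2)
  rw [h1, mul_comm]
  exact mul_le_mul_of_nonneg_right h3 (abs_nonneg _)

theorem hb_le {K : ℕ → Fin 3 → ℤ} {n : ℕ} {N : ℝ} (hN0 : 0 ≤ N)
    (hN : ∀ q ∈ lev n, ‖xi K q‖ ≤ N * len q) {Z : Md → Mat}
    (hZ : SuppIn (lev n : Set Md) Z) (q : Md) : ‖hb K Z q‖ ≤ len q * ‖(N : ℂ) • Z q‖ := by
  have h0 : ‖(N : ℂ) • Z q‖ = N * ‖Z q‖ := by
    rw [norm_smul, Complex.norm_real, Real.norm_of_nonneg hN0]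
  rw [h0]
  by_cases hq : q ∈ lev n
  · unfold hb
    rw [norm_smul, Complex.norm_I, one_mul]
    calc ‖(Z q) (xi K q)‖ ≤ ‖Z q‖ * ‖xi K q‖ := (Z q).le_opNorm _
      _ ≤ ‖Z q‖ * (N * len q) := mul_le_mul_of_nonneg_left (hN q hq) (norm_nonneg _)
      _ = len q * (N * ‖Z q‖) := by ring
  · have h1 : Z q = 0 := hZ q hq
    unfold hb
    rw [h1]
    simp

/-- One derivative costs a bit of the radius. -/
theorem sN_hb {K : ℕ → Fin 3 → ℤ} {n : ℕ} {N : ℝ} (hN0 : 0 ≤ N)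
    (hN : ∀ q ∈ lev n, ‖xi K q‖ ≤ N * len q) {Z : Md → Mat}
    (hZ : SuppIn (lev n : Set Md) Z) {x : ℝ} (hx : 0 < x) (h : sN x Z ≠ ∞) :
    sN 0 (hb K Z) ≠ ∞ := by
  have h1 : sN 0 (hb K Z) ≤ ENNReal.ofReal (N / x) * sN x Z := by
    unfold sN
    rw [← ENNReal.tsum_mul_left]
    refine ENNReal.tsum_le_tsum fun q => ?_
    have h2 : ‖hb K Z q‖ ≤ (N / x) * (Real.exp (x * len q) * ‖Z q‖) := by
      have h3 := hb_le hN0 hN hZ q
      have h4 : ‖(N : ℂ) • Z q‖ = N * ‖Z q‖ := by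
        rw [norm_smul, Complex.norm_real, Real.norm_of_nonneg hN0]
      rw [h4] at h3
      have h5 : x * len q ≤ Real.exp (x * len q) := by
        have := Real.add_one_le_exp (x * len q)
        linarith
      have h6 : len q ≤ Real.exp (x * len q) / x := by
        rw [le_div_iff₀ hx]
        linarith
      calc ‖hb K Z q‖ ≤ len q * (N * ‖Z q‖) := h3
        _ ≤ (Real.exp (x * len q) / x) * (N * ‖Z q‖) :=
            mul_le_mul_of_nonneg_right h6 (mul_nonneg hN0 (norm_nonneg _))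
        _ = _ := by ring
    rw [zero_mul, Real.exp_zero, ENNReal.ofReal_one, one_mul, ← ofReal_norm, ← ofReal_norm,
      ← ENNReal.ofReal_mul (Real.exp_pos _).le, ← ENNReal.ofReal_mul (by positivity)]
    exact ENNReal.ofReal_le_ofReal h2
  exact ne_top_of_le_ne_top (ENNReal.mul_ne_top ENNReal.ofReal_ne_top h) h1

/-- The difference of two right hand sides. -/
theorem rhs_sub (h10 : W10) (h11 : W11) {A B : Md → Md → Mat} {a : Md → Mat}
    {K : ℕ → Fin 3 → ℤ} {f f' : Md → C3} (hA : sK 0 A ≠ ∞) (hB : sK 0 B ≠ ∞)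
    (ha : sN 0 a ≠ ∞) (hf : sN 0 f ≠ ∞) (hf' : sN 0 f' ≠ ∞)
    (h1 : sN 0 (hb K (conv outerB f' (mul a f'))) ≠ ∞)
    (h2 : sN 0 (hb K (conv outerB (f - f') (mul a f) + conv outerB f' (mul a (f - f')))) ≠ ∞) :
    (act A f - act B (hb K (conv outerB f (mul a f)))) -
      (act A f' - act B (hb K (conv outerB f' (mul a f')))) =
    act A (f - f') -
      act B (hb K (conv outerB (f - f') (mul a f) + conv outerB f' (mul a (f - f')))) := by
  have hd : sN 0 (f - f') ≠ ∞ := sN_sub hf hf'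
  have hm : sK 0 (mulK a) ≠ ∞ := by rwa [sK_mulK h10]
  have hmul : ∀ {g : Md → C3}, sN 0 g ≠ ∞ → sN 0 (mul a g) ≠ ∞ := by
    intro g hg
    have := (h10 Md C3 C3 C3 0 le_rfl).2.1 (mulK a) g
    exact ne_top_of_le_ne_top (ENNReal.mul_ne_top hm hg) this
  have e1 : act A f = act A f' + act A (f - f') := by
    have := (act_add h11 hA hA hf' hd).2
    rwa [add_sub_cancel] at this
  have e2 : mul a f = mul a f' + mul a (f - f') := by
    have := (act_add h11 hm hm hf' hd).2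
    rwa [add_sub_cancel] at this
  have e3 : conv outerB f (mul a f) = conv outerB f' (mul a f') +
      (conv outerB (f - f') (mul a f) + conv outerB f' (mul a (f - f'))) := by
    have h3 := (conv_add h10 h11 hf' hd (hmul hf) (hmul hf)).1
    rw [add_sub_cancel] at h3
    have h4 := (conv_add h10 h11 hf' hf' (hmul hf') (hmul hd)).2
    rw [← e2] at h4
    rw [h3]
    nth_rewrite 1 [h4]
    abel
  rw [e1]
  nth_rewrite 1 [e3]
  rw [hb_add, (act_add h11 hB hB h1 h2).2]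
  abel

/-- Norms of kernels `1 - z P`. -/
theorem kn_idsub (h09 : W09) {T c : ℝ} (hc : 0 ≤ c) {P : ℝ → Md → Md → Mat}
    (hP : KN T c P ≠ ∞) (z : ℂ) : KN T c (fun t => idK - z • P t) ≠ ∞ := by
  obtain ⟨-, h2, h3, -, h5, -, -⟩ := h09 Md C3 C3 C3 T c hc
  have e : (fun t => idK - z • P t) = (fun _ => idK) + (-z) • P := by
    funext t m l
    show idK m l - z • P t m l = idK m l + (-z) • P t m l
    rw [sub_eq_add_neg]
    congr 1
    exact (neg_smul z (P t m l)).symm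
  have h6 : KN T c (fun _ : ℝ => (idK : Md → Md → Mat)) ≤ ‖ContinuousLinearMap.id ℂ C3‖ₑ :=
    h5 (fun _ _ => ContinuousLinearMap.id ℂ C3) _ fun _ _ _ => le_rfl
  rw [e]
  refine ne_top_of_le_ne_top (ENNReal.add_ne_top.2
    ⟨ne_top_of_le_ne_top enorm_ne_top h6, ?_⟩) (h2 _ _)
  rw [h3]
  exact ENNReal.mul_ne_top enorm_ne_top hP

theorem ck_idsub {T : ℝ} {P : ℝ → Md → Md → Mat} (hP : CK T P) (z : ℂ) :
    CK T (fun t => idK - z • P t) := by
  intro m l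
  exact continuousOn_const.sub ((hP m l).const_smul z)

/-- Support of products. -/
theorem supp_conv {n : ℕ} {f g : Md → C3} (hf : SuppIn (lev n : Set Md) f)
    (hg : SuppIn (lev n : Set Md) g) : SuppIn (lev n : Set Md) (conv outerB f g) := by
  intro q hq
  unfold conv
  refine (tsum_congr fun l => ?_).trans tsum_zero
  by_cases hl : l ∈ lev n
  · have h1 : q - l ∉ (lev n : Set Md) := fun h => hq (by
      have := (lev n).add_mem h hl
      rwa [sub_add_cancel] at this)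
    rw [hf _ h1, map_zero, zero_apply]
  · rw [hg l hl, map_zero]

theorem supp_mul {n k : ℕ} (hnk : k ≤ n) {a : Md → Mat} {g : Md → C3}
    (ha : SuppIn (lev k : Set Md) a) (hg : SuppIn (lev n : Set Md) g) :
    SuppIn (lev n : Set Md) (mul a g) := by
  intro q hq
  unfold mul act mulK
  refine (tsum_congr fun l => ?_).trans tsum_zero
  by_cases hl : l ∈ lev n
  · have h1 : q - l ∉ (lev k : Set Md) := fun h => hq (by
      have h2 : q - l ∈ lev n := fun i hi => h i (lt_of_le_of_lt hnk hi)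
      have := (lev n).add_mem h2 hl
      rwa [sub_add_cancel] at this)
    rw [ha _ h1, zero_apply]
  · rw [hg l hl, map_zero]

/-- Integration of the equation. -/
theorem ftc {d : ℝ} {f f' : ℝ → C3} (hf : ∀ t ∈ Icc 0 d, HasDerivWithinAt f (f' t) (Icc 0 d) t)
    (hf' : ContinuousOn f' (Icc 0 d)) (h0 : f 0 = 0) {t : ℝ} (ht : t ∈ Icc 0 d) :
    f t = ∫ s in (0 : ℝ)..t, f' s := by
  have hsub : Icc 0 t ⊆ Icc 0 d := Icc_subset_Icc_right ht.2
  rw [intervalIntegral.integral_eq_sub_of_hasDeriv_right_of_le ht.1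
    (fun s hs => ((hf s (hsub hs)).continuousWithinAt).mono hsub) (fun s hs => ?_)
    ((hf'.mono hsub).intervalIntegrable_of_Icc ht.1), h0, sub_zero]
  have hs' : s ∈ Icc 0 d := hsub ⟨hs.1.le, hs.2.le⟩
  exact ((hf s hs').hasDerivAt (Icc_mem_nhds hs.1 (hs.2.trans_le ht.2))).hasDerivWithinAt

theorem shift_der {T d t₀ : ℝ} (h0 : 0 ≤ t₀) (h1 : t₀ + d ≤ T) {f : ℝ → C3} {f' : C3} {t : ℝ}
    (h : HasDerivWithinAt f f' (Icc 0 T) (t₀ + t)) :
    HasDerivWithinAt (fun s => f (t₀ + s)) f' (Icc 0 d) t := by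
  have h2 : HasDerivWithinAt (fun s : ℝ => t₀ + s) 1 (Icc 0 d) t :=
    ((hasDerivAt_id t).const_add t₀).hasDerivWithinAt
  have h3 := h.scomp t h2 (fun s hs => ⟨by linarith [hs.1], by linarith [hs.2]⟩)
  rw [one_smul] at h3
  exact h3

theorem nrm_hb {K : ℕ → Fin 3 → ℤ} {n : ℕ} {N : ℝ} (hN0 : 0 ≤ N)
    (hN : ∀ q ∈ lev n, ‖xi K q‖ ≤ N * len q) {d : ℝ} {Z : ℝ → Md → Mat}
    (hZ : ∀ t ∈ Icc 0 d, SuppIn (lev n : Set Md) (Z t)) {x : ℝ} (hx : 0 < x) :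
    Nrm d 0 0 Dat.one' (fun t => hb K (Z t)) ≤
      ENNReal.ofReal (N / x) * Nrm d x 0 Dat.one' Z := by
  unfold Nrm
  rw [← ENNReal.tsum_mul_left]
  refine ENNReal.tsum_le_tsum fun q => iSup₂_le fun t ht => ?_
  have h0 : ENNReal.ofReal (Real.exp ((x - 0 * t) * len q) / Dat.one' t) * ‖Z t q‖ₑ ≤
      ⨆ t ∈ Icc 0 d, ENNReal.ofReal (Real.exp ((x - 0 * t) * len q) / Dat.one' t) * ‖Z t q‖ₑ :=
    le_iSup₂ (f := fun t (_ : t ∈ Icc 0 d) =>
      ENNReal.ofReal (Real.exp ((x - 0 * t) * len q) / Dat.one' t) * ‖Z t q‖ₑ) t ht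
  refine le_trans ?_ (mul_le_mul' le_rfl h0)
  have h2 : ‖hb K (Z t) q‖ ≤ (N / x) * (Real.exp (x * len q) * ‖Z t q‖) := by
    have h3 := hb_le hN0 hN (hZ t ht) q
    have h4 : ‖(N : ℂ) • Z t q‖ = N * ‖Z t q‖ := by
      rw [norm_smul, Complex.norm_real, Real.norm_of_nonneg hN0]
    rw [h4] at h3
    have h5 : x * len q ≤ Real.exp (x * len q) := by
      have := Real.add_one_le_exp (x * len q)
      linarith
    have h6 : len q ≤ Real.exp (x * len q) / x := by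
      rw [le_div_iff₀ hx]
      linarith
    calc ‖hb K (Z t) q‖ ≤ len q * (N * ‖Z t q‖) := h3
      _ ≤ (Real.exp (x * len q) / x) * (N * ‖Z t q‖) :=
          mul_le_mul_of_nonneg_right h6 (mul_nonneg hN0 (norm_nonneg _))
      _ = _ := by ring
  show ENNReal.ofReal (Real.exp ((0 - 0 * t) * len q) / 1) * ‖hb K (Z t) q‖ₑ ≤
    ENNReal.ofReal (N / x) * (ENNReal.ofReal (Real.exp ((x - 0 * t) * len q) / 1) * ‖Z t q‖ₑ)
  rw [zero_mul, sub_zero, sub_zero, zero_mul, Real.exp_zero, div_one, div_one,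
    ENNReal.ofReal_one, one_mul, ← ofReal_norm, ← ofReal_norm,
    ← ENNReal.ofReal_mul (Real.exp_pos _).le, ← ENNReal.ofReal_mul (by positivity)]
  exact ENNReal.ofReal_le_ofReal h2

/-- Choice of the window and of the rate. -/
theorem choose_params {c : ℝ} (hc : 0 < c) (hc1 : c ≤ 1) {A B : ℝ≥0∞} (hA : A ≠ ∞)
    (hB : B ≠ ∞) : ∃ g d : ℝ, 0 < g ∧ 0 < d ∧ g * d ≤ c / 2 ∧
      ∀ d' : ℝ, d' ≤ d → A * ENNReal.ofReal d' + B * ENNReal.ofReal (1 / g) ≤ 1 / 2 := by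
  set a := A.toReal with ha
  set b := B.toReal with hb
  have ha0 : 0 ≤ a := ENNReal.toReal_nonneg
  have hb0 : 0 ≤ b := ENNReal.toReal_nonneg
  set g : ℝ := 4 * (a + b + 1) with hg
  have hg0 : 0 < g := by positivity
  refine ⟨g, c / (2 * g), hg0, by positivity, ?_, fun d' hd' => ?_⟩
  · rw [mul_div_assoc', mul_comm g c]
    apply le_of_eq
    field_simp
  · have h1 : A * ENNReal.ofReal d' ≤ ENNReal.ofReal (a * (c / (2 * g))) := by
      rw [← ENNReal.ofReal_toReal hA, ENNReal.ofReal_mul ha0]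
      exact mul_le_mul' (by rw [ha]) (ENNReal.ofReal_le_ofReal hd')
    have h2 : B * ENNReal.ofReal (1 / g) ≤ ENNReal.ofReal (b * (1 / g)) := by
      rw [← ENNReal.ofReal_toReal hB, ENNReal.ofReal_mul hb0]
    refine (add_le_add h1 h2).trans ?_
    rw [← ENNReal.ofReal_add (by positivity) (by positivity)]
    have h3 : (1 / 2 : ℝ≥0∞) = ENNReal.ofReal (1 / 2) := by
      rw [ENNReal.ofReal_div_of_pos (by norm_num)]
      simp
    rw [h3]
    apply ENNReal.ofReal_le_ofReal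
    have h4 : a * (c / (2 * g)) ≤ a * (1 / (2 * g)) := by
      apply mul_le_mul_of_nonneg_left _ ha0
      exact div_le_div_of_nonneg_right hc1 (by positivity)
    have h5 : a * (1 / (2 * g)) + b * (1 / g) ≤ 1 / 2 := by
      rw [mul_one_div, mul_one_div, div_add_div _ _ (by positivity) (by positivity),
        div_le_div_iff₀ (by positivity) (by norm_num)]
      nlinarith
    linarith

theorem eq_zero_of_half {Y : ℝ≥0∞} (h : Y ≠ ∞) (h2 : Y ≤ (1 / 2) * Y) : Y = 0 := by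
  by_contra h0
  have h3 : (1 / 2) * Y < Y := by
    have h4 := ENNReal.half_lt_self h0 h
    rwa [ENNReal.div_eq_inv_mul, ← one_div] at h4
  exact absurd h2 (not_le.2 h3)

/-- The windows cover the interval. -/
theorem windows {T d : ℝ} (hd : 0 < d) {P : ℝ → Prop} (h0 : P 0)
    (hstep : ∀ t₀, 0 ≤ t₀ → t₀ < T → P t₀ → ∀ t, 0 ≤ t → t ≤ d → t₀ + t ≤ T → P (t₀ + t)) :
    ∀ t ∈ Icc 0 T, P t := by
  have h1 : ∀ k : ℕ, ∀ t ∈ Icc 0 T, t ≤ k * d → P t := by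
    intro k
    induction k with
    | zero =>
      intro t ht h2
      have : t = 0 := le_antisymm (by simpa using h2) ht.1
      rw [this]
      exact h0
    | succ k ih =>
      intro t ht h2
      by_cases h3 : t ≤ k * d
      · exact ih t ht h3
      · have h4 : (k : ℝ) * d < t := not_le.1 h3
        have h5 : (0 : ℝ) ≤ k * d := by positivity
        have h6 := hstep (k * d) h5 (h4.trans_le ht.2)
          (ih _ ⟨h5, (h4.trans_le ht.2).le⟩ le_rfl) (t - k * d) (by linarith) (by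
            push_cast at h2
            linarith) (by linarith [ht.2])
        rwa [add_sub_cancel] at h6
  intro t ht
  obtain ⟨k, hk⟩ := exists_nat_ge (t / d)
  exact h1 k t ht (by rwa [div_le_iff₀ hd] at hk)

end AuxS26

open AuxS26 in
theorem s26 (h01 : W01) (h02 : W02) (h03 : W03) (h05 : W05) (h06 : W06) (h08 : W08) (h09 : W09)
    (h10 : W10) (h11 : W11) (h12 : W12) : S26 := by
  intro D w w' hD hw hw' hsw hsw' hnw hnw' h0 hder hder'
  -- parameters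
  have hT := hD.T_pos
  have hc := hD.c_pos
  have hγT : D.γ * D.T = D.c / 2 := by
    rw [hD.γ_eq]
    field_simp
  have hγ : 0 ≤ D.γ := by
    rw [hD.γ_eq]
    positivity
  have hPar : Par D.T D.c D.γ := ⟨hT, hγ, by linarith⟩
  have hPar0 : Par D.T D.c 0 := ⟨hT, le_rfl, by linarith⟩
  have hx : D.c - D.γ * D.T = D.c / 2 := by linarith
  -- the kernels
  obtain ⟨k1, -, k3, k4, -, -, k7⟩ := h09 Md C3 C3 C3 D.T D.c hc.le
  have hmn := hD.hmn
  obtain ⟨hFi_cm, hM_cm⟩ := (hD.F_cm D.n hmn le_rfl).2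
  have hFi_supp := (hD.F_supp D.n hmn le_rfl).2.1
  obtain ⟨-, hFi_le, hM_le⟩ := hD.F_le D.n hmn le_rfl
  obtain ⟨hPl_le, hPl_ck⟩ := hD.P_le D.n hmn le_rfl
  have hPl : KN D.T D.c (D.Pl D.n) ≠ ∞ := ne_top_of_le_ne_top ENNReal.ofReal_ne_top hPl_le
  have hKFi : KN D.T D.c (fun t => mulK (D.Fi D.n t)) ≠ ∞ := by
    rw [k4]
    exact ne_top_of_le_ne_top ENNReal.ofReal_ne_top hFi_le
  have hKM : KN D.T D.c (fun t => mulK (D.M D.n t)) ≠ ∞ := by
    rw [k4]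
    exact ne_top_of_le_ne_top ENNReal.ofReal_ne_top hM_le
  have hCFi : CK D.T (fun t => mulK (D.Fi D.n t)) := fun m l => hFi_cm (m - l)
  have hCM : CK D.T (fun t => mulK (D.M D.n t)) := fun m l => hM_cm (m - l)
  set B : ℝ → Md → Md → Mat := fun t => idK - D.Pl D.n t with hBdef
  have hB : KN D.T D.c B ≠ ∞ := by
    have := kn_idsub h09 hc.le hPl 1
    simpa only [one_smul] using this
  have hBc : CK D.T B := by
    have := ck_idsub hPl_ck 1
    simpa only [one_smul] using this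
  have hA : KN D.T D.c (D.gen D.n) ≠ ∞ := by
    have h1 := k1 (fun t => idK - (2 : ℂ) • D.Pl D.n t) (fun t => mulK (D.M D.n t))
    have h2 : D.gen D.n = (-1 : ℂ) • (fun t => kcomp (idK - (2 : ℂ) • D.Pl D.n t)
        (mulK (D.M D.n t))) := by
      funext t
      show -(kcomp (idK - (2 : ℂ) • D.Pl D.n t) (mulK (D.M D.n t))) = (-1 : ℂ) • _
      rw [neg_smul, one_smul]
    rw [h2, k3]
    exact ENNReal.mul_ne_top enorm_ne_top (ne_top_of_le_ne_top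
      (ENNReal.mul_ne_top (kn_idsub h09 hc.le hPl 2) hKM) h1)
  have hAc : CK D.T (D.gen D.n) := by
    have h1 := (h12 Md C3 C3 C3 D.T D.c 0 Dat.one' Dat.one' hPar0 (wt_one _) (wt_one _)).2.1
      (fun t => idK - (2 : ℂ) • D.Pl D.n t) (fun t => mulK (D.M D.n t)) (ck_idsub hPl_ck 2) hCM
      (kn_idsub h09 hc.le hPl 2) hKM
    intro m l
    exact (h1 m l).neg
  -- constants
  obtain ⟨N, hN0, hN⟩ := xi_le D.K (D.n + 1)
  obtain ⟨β, hβ, hcv, hcvs⟩ := conv_bound h02 h10 outerB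
  set KA := KN D.T D.c (D.gen D.n) with hKAdef
  set KB := KN D.T D.c B with hKBdef
  set KF := KN D.T D.c (fun t => mulK (D.Fi D.n t)) with hKFdef
  set W := Nrm D.T D.c D.γ Dat.one' w with hWdef
  set W' := Nrm D.T D.c D.γ Dat.one' w' with hW'def
  set KC := KB * (‖(N : ℂ)‖ₑ * (β * (KF * W) + β * W' * KF)) with hKC
  have hKC' : KC ≠ ∞ := by
    refine ENNReal.mul_ne_top hB (ENNReal.mul_ne_top enorm_ne_top (ENNReal.add_ne_top.2 ⟨?_, ?_⟩))
    · exact ENNReal.mul_ne_top hβ (ENNReal.mul_ne_top hKFi hnw)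
    · exact ENNReal.mul_ne_top (ENNReal.mul_ne_top hβ hnw') hKFi
  obtain ⟨g, d, hg, hd, hgd, hsmall⟩ := choose_params hc hD.c_le hA hKC'
  refine windows hd h0 ?_
  intro t₀ ht₀ ht₀T hP0 t₁ ht₁ ht₁d ht₁T
  rcases eq_or_lt_of_le ht₁ with ht₁0 | ht₁0
  · rw [← ht₁0, add_zero]
    exact hP0
  -- the window `[t₀, t₀ + t₁]`
  have hmem : ∀ {t : ℝ}, t ∈ Icc 0 t₁ → t₀ + t ∈ Icc 0 D.T := fun {t} ht =>
    ⟨by linarith [ht.1], by linarith [ht.2]⟩
  have hPw : Par t₁ (D.c / 2) g := ⟨ht₁0, hg.le, by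
    have : g * t₁ ≤ g * d := mul_le_mul_of_nonneg_left ht₁d hg.le
    linarith⟩
  set Δ : ℝ → Md → C3 := fun t => w (t₀ + t) - w' (t₀ + t) with hΔdef
  set Z : ℝ → Md → Mat := fun t => conv outerB (Δ t) (mul (D.Fi D.n (t₀ + t)) (w (t₀ + t))) +
    conv outerB (w' (t₀ + t)) (mul (D.Fi D.n (t₀ + t)) (Δ t)) with hZdef
  set DA : ℝ → Md → C3 := fun t => act (D.gen D.n (t₀ + t)) (Δ t) with hDAdef
  set DB : ℝ → Md → C3 := fun t => act (B (t₀ + t)) (hb D.K (Z t)) with hDBdef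
  have win : ∀ {E : Type} [NormedAddCommGroup E] (g : ℝ), 0 ≤ g → ∀ (f : ℝ → Md → E),
      Nrm t₁ (D.c / 2) g Dat.one' (fun t => f (t₀ + t)) ≤ Nrm D.T D.c D.γ Dat.one' f := by
    intro E _ g hg f
    have := nrm_window (c := D.c) hγ hg ht₀ ht₁T f
    rwa [hx] at this
  have kwin : ∀ {E F : Type} [NormedAddCommGroup E] [NormedSpace ℂ E] [NormedAddCommGroup F]
      [NormedSpace ℂ F] (A : ℝ → Md → Md → (E →L[ℂ] F)),
      KN t₁ (D.c / 2) (fun t => A (t₀ + t)) ≤ KN D.T D.c A := by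
    intro E F _ _ _ _ A
    exact kn_window (by linarith) ht₀ ht₁T A
  -- finiteness and continuity
  have hwt := wt_one t₁
  have hΔe : Δ = (fun t => w (t₀ + t)) + (-1 : ℂ) • fun t => w' (t₀ + t) := by
    funext t
    show w (t₀ + t) - w' (t₀ + t) = w (t₀ + t) + (-1 : ℂ) • w' (t₀ + t)
    rw [neg_smul, one_smul, sub_eq_add_neg]
  have hYfin : ∀ g : ℝ, Par t₁ (D.c / 2) g → Nrm t₁ (D.c / 2) g Dat.one' Δ ≠ ∞ := by
    intro g hPw
    obtain ⟨-, -, tri3, -, -⟩ := h05 Md C3 t₁ (D.c / 2) g Dat.one' Dat.one'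
      (fun t => w (t₀ + t)) ((-1 : ℂ) • fun t => w' (t₀ + t)) hPw hwt hwt
    obtain ⟨-, -, -, -, tri5⟩ := h05 Md C3 t₁ (D.c / 2) g Dat.one' Dat.one'
      (fun t => w' (t₀ + t)) (fun t => w' (t₀ + t)) hPw hwt hwt
    rw [hΔe]
    refine ne_top_of_le_ne_top ?_ tri3
    rw [(tri5 (-1)).1]
    exact ENNReal.add_ne_top.2 ⟨ne_top_of_le_ne_top hnw (win g hPw.γ_nonneg w),
      ENNReal.mul_ne_top enorm_ne_top (ne_top_of_le_ne_top hnw' (win g hPw.γ_nonneg w'))⟩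
  have hFwin : KN t₁ (D.c / 2) (fun t => mulK (D.Fi D.n (t₀ + t))) ≤ KF :=
    kwin (fun t => mulK (D.Fi D.n t))
  have hmulw : ∀ g : ℝ, Par t₁ (D.c / 2) g →
      Nrm t₁ (D.c / 2) g Dat.one' (fun t => mul (D.Fi D.n (t₀ + t)) (w (t₀ + t))) ≤
      KF * W := fun g hPw => (h01 Md C3 C3 t₁ (D.c / 2) g Dat.one'
        (fun t => mulK (D.Fi D.n (t₀ + t))) (fun t => w (t₀ + t)) hPw hwt).trans
          (mul_le_mul' hFwin (win g hPw.γ_nonneg w))
  have hmulΔ : ∀ g : ℝ, Par t₁ (D.c / 2) g →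
      Nrm t₁ (D.c / 2) g Dat.one' (fun t => mul (D.Fi D.n (t₀ + t)) (Δ t)) ≤
      KF * Nrm t₁ (D.c / 2) g Dat.one' Δ := fun g hPw =>
        (h01 Md C3 C3 t₁ (D.c / 2) g Dat.one' (fun t => mulK (D.Fi D.n (t₀ + t)))
        Δ hPw hwt).trans (mul_le_mul' hFwin le_rfl)
  have hZn : ∀ g : ℝ, Par t₁ (D.c / 2) g → Nrm t₁ (D.c / 2) g Dat.one' Z ≤
      (β * (KF * W) + β * W' * KF) * Nrm t₁ (D.c / 2) g Dat.one' Δ := by
    intro g hPw
    obtain ⟨-, -, t3, -, -⟩ := h05 Md Mat t₁ (D.c / 2) g Dat.one' Dat.one'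
      (fun t => conv outerB (Δ t) (mul (D.Fi D.n (t₀ + t)) (w (t₀ + t))))
      (fun t => conv outerB (w' (t₀ + t)) (mul (D.Fi D.n (t₀ + t)) (Δ t))) hPw hwt hwt
    refine t3.trans ?_
    have h1 := hcv t₁ (D.c / 2) g Δ (fun t => mul (D.Fi D.n (t₀ + t)) (w (t₀ + t))) hPw
    have h2 := hcv t₁ (D.c / 2) g (fun t => w' (t₀ + t))
      (fun t => mul (D.Fi D.n (t₀ + t)) (Δ t)) hPw
    calc _ ≤ β * Nrm t₁ (D.c / 2) g Dat.one' Δ * (KF * W) +
          β * W' * (KF * Nrm t₁ (D.c / 2) g Dat.one' Δ) :=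
          add_le_add (h1.trans (mul_le_mul' le_rfl (hmulw g hPw)))
            (h2.trans (mul_le_mul' (mul_le_mul' le_rfl (win g hPw.γ_nonneg w'))
              (hmulΔ g hPw)))
      _ = _ := by ring
  set Y := Nrm t₁ (D.c / 2) g Dat.one' Δ with hYdef
  have hY : Y ≠ ∞ := hYfin g hPw
  have hwc : CM t₁ (fun t => w (t₀ + t)) := fun q => cont_window ht₀ ht₁T (hw q)
  have hw'c : CM t₁ (fun t => w' (t₀ + t)) := fun q => cont_window ht₀ ht₁T (hw' q)
  have hΔc : CM t₁ Δ := fun q => (hwc q).sub (hw'c q)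
  have hCFwin : CK t₁ (fun t => mulK (D.Fi D.n (t₀ + t))) := fun m l =>
    cont_window ht₀ ht₁T (hCFi m l)
  have hKF' : KN t₁ (D.c / 2) (fun t => mulK (D.Fi D.n (t₀ + t))) ≠ ∞ :=
    ne_top_of_le_ne_top hKFi hFwin
  have hwn1 : Nrm t₁ (D.c / 2) g Dat.one' (fun t => w (t₀ + t)) ≠ ∞ :=
    ne_top_of_le_ne_top hnw (win g hg.le w)
  have hwn2 : Nrm t₁ (D.c / 2) g Dat.one' (fun t => w' (t₀ + t)) ≠ ∞ :=
    ne_top_of_le_ne_top hnw' (win g hg.le w')
  have h12' := h12 Md C3 C3 C3 t₁ (D.c / 2) g Dat.one' Dat.one' hPw hwt hwt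
  have h12m := h12 Md C3 C3 Mat t₁ (D.c / 2) g Dat.one' Dat.one' hPw hwt hwt
  have hcm1 : CM t₁ (fun t => mul (D.Fi D.n (t₀ + t)) (w (t₀ + t))) :=
    h12'.1 _ _ hCFwin hwc hKF' hwn1
  have hcm2 : CM t₁ (fun t => mul (D.Fi D.n (t₀ + t)) (Δ t)) :=
    h12'.1 _ _ hCFwin hΔc hKF' hY
  have hcm3 : CM t₁ (fun t => conv outerB (Δ t) (mul (D.Fi D.n (t₀ + t)) (w (t₀ + t)))) :=
    h12m.2.2 outerB Δ (fun t => mul (D.Fi D.n (t₀ + t)) (w (t₀ + t))) hΔc hcm1 hY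
      (ne_top_of_le_ne_top (ENNReal.mul_ne_top hKFi hnw) (hmulw g hPw))
  have hcm4 : CM t₁ (fun t => conv outerB (w' (t₀ + t)) (mul (D.Fi D.n (t₀ + t)) (Δ t))) :=
    h12m.2.2 outerB (fun t => w' (t₀ + t)) (fun t => mul (D.Fi D.n (t₀ + t)) (Δ t)) hw'c hcm2
      hwn2 (ne_top_of_le_ne_top (ENNReal.mul_ne_top hKFi hY) (hmulΔ g hPw))
  have hZc : CM t₁ Z := fun q => (hcm3 q).add (hcm4 q)
  have hhc : CM t₁ (fun t => hb D.K (Z t)) := by
    intro q
    exact ((hZc q).clm_apply continuousOn_const).const_smul Complex.I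
  -- supports
  have hsΔ : ∀ t ∈ Icc 0 t₁, SuppIn (lev (D.n + 1) : Set Md) (Δ t) := by
    intro t ht q hq
    show w (t₀ + t) q - w' (t₀ + t) q = 0
    rw [hsw _ (hmem ht) q hq, hsw' _ (hmem ht) q hq, sub_zero]
  have hsZ : ∀ t ∈ Icc 0 t₁, SuppIn (lev (D.n + 1) : Set Md) (Z t) := by
    intro t ht q hq
    have h1 := supp_conv (hsΔ t ht) (supp_mul (Nat.le_succ D.n)
      (hFi_supp _ (hmem ht)) (hsw _ (hmem ht))) q hq
    have h2 := supp_conv (hsw' _ (hmem ht)) (supp_mul (Nat.le_succ D.n)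
      (hFi_supp _ (hmem ht)) (hsΔ t ht)) q hq
    show conv outerB (Δ t) (mul (D.Fi D.n (t₀ + t)) (w (t₀ + t))) q +
      conv outerB (w' (t₀ + t)) (mul (D.Fi D.n (t₀ + t)) (Δ t)) q = 0
    rw [h1, h2, add_zero]
  -- the equation for the difference
  have hsK : ∀ {E F : Type} [NormedAddCommGroup E] [NormedSpace ℂ E] [NormedAddCommGroup F]
      [NormedSpace ℂ F] (A : ℝ → Md → Md → (E →L[ℂ] F)), KN D.T D.c A ≠ ∞ → ∀ t ∈ Icc 0 D.T,
      sK 0 (A t) ≠ ∞ := by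
    intro E F _ _ _ _ A hA t ht
    obtain ⟨-, -, -, -, -, -, l7⟩ := h09 Md E F F D.T D.c hc.le
    obtain ⟨-, -, -, -, -, -, m7, -⟩ := h10 Md E F F D.c hc.le
    exact ne_top_of_le_ne_top hA (((m7 0 hc.le).1 (A t)).trans (l7 A t ht))
  have hRHS : ∀ t ∈ Icc 0 t₁, RHS D w (t₀ + t) - RHS D w' (t₀ + t) = DA t - DB t := by
    intro t ht
    have ht' := hmem ht
    have e1 : sN (D.c / 2) (w (t₀ + t)) ≠ ∞ := by
      have := sN_le_Nrm (c := D.c) (f := w) hγ ht'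
      rw [hx] at this
      exact ne_top_of_le_ne_top hnw this
    have e2 : sN (D.c / 2) (w' (t₀ + t)) ≠ ∞ := by
      have := sN_le_Nrm (c := D.c) (f := w') hγ ht'
      rw [hx] at this
      exact ne_top_of_le_ne_top hnw' this
    have e3 : sK (D.c / 2) (mulK (D.Fi D.n (t₀ + t))) ≠ ∞ := by
      obtain ⟨-, -, -, -, -, -, m7, -⟩ := h10 Md C3 C3 C3 D.c hc.le
      exact ne_top_of_le_ne_top hKFi (((m7 (D.c / 2) (by linarith)).1 _).trans
        (k7 (fun t => mulK (D.Fi D.n t)) _ ht'))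
    have e4 : ∀ {f : Md → C3}, sN (D.c / 2) f ≠ ∞ →
        sN (D.c / 2) (mul (D.Fi D.n (t₀ + t)) f) ≠ ∞ := by
      intro f hf
      have := (h10 Md C3 C3 C3 (D.c / 2) (by linarith)).2.1 (mulK (D.Fi D.n (t₀ + t))) f
      exact ne_top_of_le_ne_top (ENNReal.mul_ne_top e3 hf) this
    have e5 : sN (D.c / 2) (w (t₀ + t) - w' (t₀ + t)) ≠ ∞ := sN_sub e1 e2
    have hx2 : 0 < D.c / 2 := by linarith
    have e6 : sN 0 (hb D.K (conv outerB (w' (t₀ + t)) (mul (D.Fi D.n (t₀ + t))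
        (w' (t₀ + t))))) ≠ ∞ :=
      sN_hb hN0 hN (supp_conv (hsw' _ ht') (supp_mul (Nat.le_succ D.n) (hFi_supp _ ht')
        (hsw' _ ht'))) hx2 (hcvs _ _ _ hx2.le e2 (e4 e2))
    have e7 : sN 0 (hb D.K (Z t)) ≠ ∞ :=
      sN_hb hN0 hN (hsZ t ht) hx2 (sN_add (hcvs _ _ _ hx2.le e5 (e4 e1))
        (hcvs _ _ _ hx2.le e2 (e4 e5)))
    exact rhs_sub h10 h11 (hsK _ hA _ ht') (hsK _ hB _ ht')
      (by
        rw [← sK_mulK h10]
        exact hsK _ hKFi _ ht') (ne_top_of_le_ne_top e1 (sN_mono hx2.le _))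
      (ne_top_of_le_ne_top e2 (sN_mono hx2.le _)) e6 e7
  -- continuity of the two parts
  have hAw : KN t₁ (D.c / 2) (fun t => D.gen D.n (t₀ + t)) ≤ KA := kwin (D.gen D.n)
  have hBw : KN t₁ (D.c / 2) (fun t => B (t₀ + t)) ≤ KB := kwin B
  have hDAc : CM t₁ DA := h12'.1 _ _ (fun m l => cont_window ht₀ ht₁T (hAc m l)) hΔc
    (ne_top_of_le_ne_top hA hAw) hY
  have hx2 : 0 < D.c / 2 := by linarith
  have hP0' : Par t₁ (D.c / 2) 0 := ⟨ht₁0, le_rfl, by linarith⟩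
  have hP00 : Par t₁ 0 0 := ⟨ht₁0, le_rfl, by linarith⟩
  have hhn : Nrm t₁ 0 0 Dat.one' (fun t => hb D.K (Z t)) ≠ ∞ := by
    refine ne_top_of_le_ne_top (ENNReal.mul_ne_top ENNReal.ofReal_ne_top ?_)
      (nrm_hb hN0 hN hsZ hx2)
    refine ne_top_of_le_ne_top (ENNReal.mul_ne_top ?_ (hYfin 0 hP0')) (hZn 0 hP0')
    exact ENNReal.add_ne_top.2 ⟨ENNReal.mul_ne_top hβ (ENNReal.mul_ne_top hKFi hnw),
      ENNReal.mul_ne_top (ENNReal.mul_ne_top hβ hnw') hKFi⟩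
  have hDBc : CM t₁ DB :=
    (h12 Md C3 C3 C3 t₁ 0 0 Dat.one' Dat.one' hP00 hwt hwt).1 (fun t => B (t₀ + t))
      (fun t => hb D.K (Z t)) (fun m l => cont_window ht₀ ht₁T (hBc m l)) hhc
      (ne_top_of_le_ne_top hB (kn_window hc.le ht₀ ht₁T B)) hhn
  have hRc : CM t₁ (fun t => DA t - DB t) := fun q => (hDAc q).sub (hDBc q)
  -- integration
  have hint : ∀ t ∈ Icc 0 t₁, ∀ q, Δ t q = ∫ s in (0 : ℝ)..t, (DA s - DB s) q := by
    intro t ht q
    refine ftc (f := fun t => Δ t q) (f' := fun s => (DA s - DB s) q) (fun s hs => ?_) (hRc q) ?_ ht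
    · have e1 := shift_der ht₀ ht₁T (hder q (t₀ + s) (hmem hs))
      have e2 := shift_der ht₀ ht₁T (hder' q (t₀ + s) (hmem hs))
      have e3 := e1.sub e2
      have e4 : RHS D w (t₀ + s) q - RHS D w' (t₀ + s) q = (DA s - DB s) q :=
        congrFun (hRHS s hs) q
      rw [e4] at e3
      exact e3
    · show w (t₀ + 0) q - w' (t₀ + 0) q = 0
      rw [add_zero, hP0, sub_self]
  have hY1 : Y ≤ Src t₁ (D.c / 2) g Dat.one' (fun t => DA t - DB t) := by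
    rw [hYdef, nrm_congr hint]
    exact h08 Md C3 t₁ (D.c / 2) g Dat.one' (fun t => DA t - DB t) hPw hwt hRc
  have hY2 : Src t₁ (D.c / 2) g Dat.one' (fun t => DA t - DB t) ≤
      Src t₁ (D.c / 2) g Dat.one' DA + Src t₁ (D.c / 2) g Dat.one' DB := by
    obtain ⟨-, -, -, t4, -⟩ := h05 Md C3 t₁ (D.c / 2) g Dat.one' Dat.one' DA
      ((-1 : ℂ) • DB) hPw hwt hwt
    obtain ⟨-, -, -, -, t5⟩ := h05 Md C3 t₁ (D.c / 2) g Dat.one' Dat.one' DB DB hPw hwt hwt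
    have e1 : (fun t => DA t - DB t) = DA + (-1 : ℂ) • DB := by
      funext t
      show DA t - DB t = DA t + (-1 : ℂ) • DB t
      rw [neg_smul, one_smul, sub_eq_add_neg]
    rw [e1]
    refine (t4 hDAc).trans ?_
    rw [(t5 (-1)).2, enorm_neg, enorm_one, one_mul]
  have hY3 : Src t₁ (D.c / 2) g Dat.one' DA ≤ KA * (ENNReal.ofReal t₁ * Y) := by
    have e1 := h03 Md C3 C3 t₁ (D.c / 2) g Dat.one' (fun t => D.gen D.n (t₀ + t)) Δ hPw hwt hΔc
    have e2 := (h05 Md C3 t₁ (D.c / 2) g Dat.one' Dat.one' Δ Δ hPw hwt hwt).1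
    exact e1.trans (mul_le_mul' hAw e2)
  have hY4 : Src t₁ (D.c / 2) g Dat.one' DB ≤ KB * (ENNReal.ofReal (1 / g) *
      (‖(N : ℂ)‖ₑ * ((β * (KF * W) + β * W' * KF) * Y))) := by
    have e1 := h03 Md C3 C3 t₁ (D.c / 2) g Dat.one' (fun t => B (t₀ + t))
      (fun t => hb D.K (Z t)) hPw hwt hhc
    have e2 := h06 Md Mat C3 t₁ (D.c / 2) g Dat.one' ((N : ℂ) • Z) (fun t => hb D.K (Z t)) hPw hg
      hwt (fun t ht q => hb_le hN0 hN (hsZ t ht) q)
    have e3 := ((h05 Md Mat t₁ (D.c / 2) g Dat.one' Dat.one' Z Z hPw hwt hwt).2.2.2.2 (N : ℂ)).1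
    rw [e3] at e2
    exact e1.trans (mul_le_mul' hBw (e2.trans (mul_le_mul' le_rfl
      (mul_le_mul' le_rfl (hZn g hPw)))))
  have hY5 : Y ≤ (1 / 2) * Y := by
    calc Y ≤ KA * (ENNReal.ofReal t₁ * Y) + KB * (ENNReal.ofReal (1 / g) *
          (‖(N : ℂ)‖ₑ * ((β * (KF * W) + β * W' * KF) * Y))) :=
          hY1.trans (hY2.trans (add_le_add hY3 hY4))
      _ = (KA * ENNReal.ofReal t₁ + KC * ENNReal.ofReal (1 / g)) * Y := by
          rw [hKC]
          ring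
      _ ≤ (1 / 2) * Y := mul_le_mul' (hsmall t₁ ht₁d) le_rfl
  have hY0 : Y = 0 := eq_zero_of_half hY hY5
  funext q
  have e1 : ENNReal.ofReal (Real.exp ((D.c / 2 - g * t₁) * len q) / Dat.one' t₁) *
      ‖Δ t₁ q‖ₑ ≤ Y := by
    refine le_trans ?_ (ENNReal.le_tsum q)
    exact le_iSup₂ (f := fun t (_ : t ∈ Icc 0 t₁) =>
      ENNReal.ofReal (Real.exp ((D.c / 2 - g * t) * len q) / Dat.one' t) * ‖Δ t q‖ₑ) t₁
      ⟨ht₁, le_rfl⟩
  rw [hY0, nonpos_iff_eq_zero, mul_eq_zero] at e1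
  rcases e1 with e1 | e1
  · exfalso
    rw [ENNReal.ofReal_eq_zero] at e1
    have e2 : Real.exp ((D.c / 2 - g * t₁) * len q) / (1 : ℝ) ≤ 0 := e1
    rw [div_one] at e2
    exact absurd (Real.exp_pos _) (not_lt.2 e2)
  · rw [enorm_eq_zero] at e1
    exact sub_eq_zero.1 e1

end Pool.Agent.Work.MP_b0497c_an.Unf.S
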