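import Pool.Agent.Work.MP_b0497c_an.Unf.B1

set_option autoImplicit false

/-!
# Base (A0): the level hypothesis `HL` for the shear
-/

open Set ContinuousLinearMap RealInnerProductSpace

namespace Pool.Agent.Work.MP_b0497c_an.Unf.B

open Forced.Ode (Op ro)
open Fam K

/-- Gronwall for a bounded generator, constant weight. -/
theorem PB_of_norm {V : Type} [NormedAddCommGroup V] [NormedSpace ℝ V] {A : ℝ → V →L[ℝ] V}
    {a b L C : ℝ} (hA : ∀ r ∈ Icc a b, ‖A r‖ ≤ L) (hL : 0 ≤ L)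
    (hC : Real.exp (L * (b - a)) ≤ C) {w : ℝ → ℝ} (hw : ∀ s ∈ Icc a b, ∀ t ∈ Icc s b, 1 ≤ w t / w s) :
    PB A a b C w := by
  intro s hs t ht u hu
  have h1 := norm_le_gronwallBound_of_norm_deriv_right_le (f := u) (f' := fun r => A r (u r))
    (δ := ‖u s‖) (K := L) (ε := 0) (a := s) (b := t)
    (fun r hr => (hu r hr).continuousAt.continuousWithinAt)
    (fun r hr => (hu r ⟨hr.1, hr.2.le⟩).hasDerivWithinAt) le_rfl
    (fun r hr => by
      rw [add_zero]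
      exact (le_opNorm _ _).trans (mul_le_mul_of_nonneg_right
        (hA r ⟨hs.1.trans hr.1, hr.2.le.trans ht.2⟩) (norm_nonneg _)))
    t ⟨ht.1, le_rfl⟩
  rw [gronwallBound_ε0] at h1
  have h2 : Real.exp (L * (t - s)) ≤ C := by
    refine le_trans (Real.exp_le_exp.2 ?_) hC
    apply mul_le_mul_of_nonneg_left _ hL
    linarith [hs.1, ht.2]
  have hC0 : 0 < C := lt_of_lt_of_le (Real.exp_pos _) hC
  calc ‖u t‖ ≤ ‖u s‖ * Real.exp (L * (t - s)) := h1
    _ ≤ ‖u s‖ * C := by gcongr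
    _ = C * 1 * ‖u s‖ := by ring
    _ ≤ C * (w t / w s) * ‖u s‖ := by
        have := hw s hs t ht
        gcongr

/-- Numeric conditions. -/
structure Num (c t1 b h k0 k2 : ℝ) : Prop where
  c_pos : 0 < c
  c_le : c ≤ 1 / 100
  c_ge : 1 / b ≤ c
  b_ge : 10 ^ 20 ≤ b
  h_ge : b ^ 200 ≤ h
  k0_ge : 10 ^ 4 ≤ k0
  k0_le : k0 ≤ b
  k2_ge : 1 ≤ k2
  k2_le : k2 ≤ h
  ck0 : c * k0 ≤ 1 / 10 ^ 8
  ck2 : 10 ^ 4 ≤ c * k2
  eta_le : 100 / (k0 ^ 2 * Real.sqrt (c * k0)) + k0 / k2 + 100 * c / k2 + h⁻¹ ≤ 1 / 10 ^ 4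
  t1_ge : 1 / 40 ≤ t1
  t1_le : t1 ≤ 3 / 7
  f0 : |h ^ 24 * (1 - (6 + 5 * c) * gG c (-t1))| ≤ 1
  ck0sq : c * k0 ^ 2 ≤ 1

/-- Level data of the shear. -/
noncomputable def LD (c t1 b h k0 k2 : ℝ) : O.LevD where
  A := fun _ => Az c
  F := Fz c
  Fi := Fiz c
  Om := cx Kz (dz c)
  l := ee2 + t1 • Kz
  v := fun t => h ^ 24 • vv c (t - t1)
  t0 := t1
  T := t1 + 1001 / 1000 * Real.sqrt (k2 / (h ^ 24 * c))
  b := b
  h := h
  k0 := k0
  k2 := k2
  al := fun _ => h ^ 24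

section

variable {c t1 b h k0 k2 : ℝ}

theorem LD_a : (LD c t1 b h k0 k2).a = h ^ 24 := rfl

theorem LD_n (t : ℝ) : (LD c t1 b h k0 k2).n t = nn (t - t1) := by
  show adjoint (Fiz c t) (ee2 + t1 • Kz) = _
  rw [adj_Fiz, inner_add_right, inner_smul_right, dz_ee2, dz_Kz, nn]
  module

theorem vv_zero (c : ℝ) : vv c 0 = !₂[1, 0, 0] := by
  apply ext3
  · rw [vv_0, S_zero, q_zero]
    norm_num
  · rw [vv_1]
    norm_num
  · rw [vv_2, S_zero, q_zero]
    norm_num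
    rfl

theorem LD_e1 (h0 : 0 < h) : (LD c t1 b h k0 k2).e1 = !₂[1, 0, 0] := by
  show (h ^ 24)⁻¹ • (h ^ 24 • vv c (t1 - t1)) = _
  rw [smul_smul, inv_mul_cancel₀ (by positivity), one_smul, sub_self, vv_zero]

theorem LD_e2 : (LD c t1 b h k0 k2).e2 = ee2 := by
  show (LD c t1 b h k0 k2).n t1 = _
  rw [LD_n, sub_self, nn, zero_smul, sub_zero]

theorem LD_e3 (h0 : 0 < h) : (LD c t1 b h k0 k2).e3 = !₂[0, 0, 1] := by
  rw [O.LevD.e3, LD_e1 h0, LD_e2]
  apply ext3 <;> simp [cx, ee2]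

theorem LD_Ae1 (h0 : 0 < h) :
    (LD c t1 b h k0 k2).A (LD c t1 b h k0 k2).t0 (LD c t1 b h k0 k2).e1 = dz c := by
  rw [LD_e1 h0]
  show Az c _ = _
  rw [Az_app]
  have : ⟪Kz, (!₂[1, 0, 0] : E3)⟫ = 1 := by
    rw [inner_eq, Kz_0, Kz_1, Kz_2]
    simp
  rw [this, one_smul]

theorem LD_kap (h0 : 0 < h) : (LD c t1 b h k0 k2).kap = 1 := by
  rw [O.LevD.kap, LD_Ae1 h0, LD_e2, real_inner_comm, dz_ee2]

theorem LD_c (h0 : 0 < h) : (LD c t1 b h k0 k2).c = c := by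
  rw [O.LevD.c, LD_Ae1 h0, LD_kap h0, LD_e3 h0, div_one, inner_eq, dz_0, dz_1, dz_2]
  simp

theorem LD_th (h0 : 0 < h) : (LD c t1 b h k0 k2).th = Real.sqrt (k2 / (h ^ 24 * c)) := by
  rw [O.LevD.th, LD_c h0, LD_kap h0, LD_a, mul_one]
  rfl

theorem LD_s : (LD c t1 b h k0 k2).s = 6 + 5 * c := by
  show -⟪cx Kz (dz c), ee2 + t1 • Kz⟫ = _
  rw [inner_add_right, inner_smul_right, real_inner_comm Kz (cx Kz (dz c)), inner_cx_left,
    inner_eq, cx_zero, cx_one, cx_two, Kz_0, Kz_1, Kz_2, dz_0, dz_1, dz_2, ee2_0, ee2_1, ee2_2]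
  ring

theorem LD_xi (h0 : 0 < h) (t : ℝ) :
    (LD c t1 b h k0 k2).xi t = !₂[0, 0, 1] - (c * (t - t1)) • Kz := by
  have h1 : (LD c t1 b h k0 k2).K0 = !₂[0, 0, 1] + (t1 * c) • Kz := by
    rw [O.LevD.K0, LD_e3 h0]
    show adjoint (Fz c t1) _ = _
    rw [adj_Fz]
    have : ⟪dz c, (!₂[0, 0, 1] : E3)⟫ = c := by
      rw [inner_eq, dz_0, dz_1, dz_2]
      simp
    rw [this]
  rw [O.LevD.xi, h1]
  show adjoint (Fiz c t) _ = _
  rw [adj_Fiz, inner_add_right, inner_smul_right, dz_Kz]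
  have : ⟪dz c, (!₂[0, 0, 1] : E3)⟫ = c := by
    rw [inner_eq, dz_0, dz_1, dz_2]
    simp
  rw [this]
  module

theorem LD_B (h0 : 0 < h) (t : ℝ) : (LD c t1 b h k0 k2).B t = BB c (t - t1) := by
  rw [O.LevD.B, LD_n, LD_xi h0]
  apply ext3
  · rw [cx_zero, nn_1, nn_2]
    simp [Kz, BB]
    ring
  · rw [cx_one, nn_0, nn_2]
    simp [Kz, BB]
    ring
  · rw [cx_two, nn_0, nn_1]
    simp [Kz, BB]
    ring

theorem LD_f (h0 : 0 < h) (t : ℝ) :
    (LD c t1 b h k0 k2).f t = h ^ 24 * (1 - (6 + 5 * c) * gG c (t - t1)) := by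
  rw [O.LevD.f, LD_B h0]
  show ⟪h ^ 24 • vv c (t - t1), BB c (t - t1)⟫ = _
  rw [real_inner_smul_left, vv_BB]

theorem LD_g (h0 : 0 < h) (hc : 0 < c) (t : ℝ) :
    (LD c t1 b h k0 k2).g t = h ^ 24 * gG c (t - t1) := by
  rw [O.LevD.g, LD_f h0, LD_s, LD_a]
  have : 6 + 5 * c ≠ 0 := by positivity
  field_simp
  ring

theorem theta_le (N : Num c t1 b h k0 k2) : Real.sqrt (k2 / (h ^ 24 * c)) ≤ 1 / 10 ^ 4 := by
  obtain ⟨hc, hc', hcb, hb, hh, hk0, hk0', hk2, hk2', hck0, hck2, heta, ht1, ht1', hf0, hck0sq⟩ := N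
  have hb1 : (1 : ℝ) ≤ b := le_trans (by norm_num) hb
  have hb0 : (0 : ℝ) < b := by linarith
  have hbh : b ≤ h := (le_self_pow₀ hb1 (by norm_num)).trans hh
  have h0 : 0 < h := lt_of_lt_of_le hb0 hbh
  have h1 : 1 ≤ h := hb1.trans hbh
  rw [show (1 : ℝ) / 10 ^ 4 = Real.sqrt ((1 / 10 ^ 4) ^ 2) from
    (Real.sqrt_sq (by norm_num)).symm]
  apply Real.sqrt_le_sqrt
  rw [div_le_iff₀ (by positivity)]
  have e1 : k2 ≤ h := hk2'
  have e2 : 1 ≤ b * c := by
    rw [div_le_iff₀ hb0] at hcb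
    linarith
  have e3 : (10 : ℝ) ^ 20 ≤ h := hb.trans hbh
  have e4 : h * h * h ≤ h ^ 24 := by
    calc h * h * h = h ^ 3 := by ring
      _ ≤ h ^ 24 := pow_le_pow_right₀ h1 (by norm_num)
  calc k2 ≤ h * 1 * 1 := by linarith
    _ ≤ h * ((1 / 10 ^ 4) ^ 2 * h) * (h * c) := by
        have e5 : 1 ≤ (1 / 10 ^ 4 : ℝ) ^ 2 * h := by
          calc (1 : ℝ) ≤ (1 / 10 ^ 4) ^ 2 * 10 ^ 20 := by norm_num
            _ ≤ (1 / 10 ^ 4) ^ 2 * h := by gcongr
        have e6 : 1 ≤ h * c := e2.trans (by gcongr)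
        gcongr
    _ = (1 / 10 ^ 4) ^ 2 * ((h * h * h) * c) := by ring
    _ ≤ (1 / 10 ^ 4) ^ 2 * (h ^ 24 * c) := by gcongr

theorem LD_T_le (N : Num c t1 b h k0 k2) : (LD c t1 b h k0 k2).T ≤ 1 / 2 := by
  have h1 := theta_le N
  have h2 := N.t1_le
  show t1 + 1001 / 1000 * Real.sqrt (k2 / (h ^ 24 * c)) ≤ 1 / 2
  linarith

/-- **The level hypothesis for the base.** -/
theorem LD_HL (N : Num c t1 b h k0 k2) : (LD c t1 b h k0 k2).HL := by
  have hN := N
  obtain ⟨hc, hc', hcb, hb, hh, hk0, hk0', hk2, hk2', hck0, hck2, heta, ht1, ht1', hf0, hck0sq⟩ := hN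
  have hb1 : (1 : ℝ) ≤ b := le_trans (by norm_num) hb
  have hb0 : (0 : ℝ) < b := by linarith
  have hbh : b ≤ h := (le_self_pow₀ hb1 (by norm_num)).trans hh
  have h0 : 0 < h := lt_of_lt_of_le hb0 hbh
  have h1 : 1 ≤ h := hb1.trans hbh
  have ha0 : 0 < h ^ 24 := by positivity
  -- half window
  set θ : ℝ := Real.sqrt (k2 / (h ^ 24 * c)) with hθ
  have hθ0 : 0 < θ := Real.sqrt_pos.2 (by positivity)
  have hθ1 : θ ≤ 1 / 10 ^ 4 := theta_le N
  have hT : (LD c t1 b h k0 k2).T = t1 + 1001 / 1000 * θ := rfl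
  have hT1 : (LD c t1 b h k0 k2).T ≤ 1 / 2 := by
    rw [hT]
    linarith
  have hmem : ∀ t ∈ Icc 0 (LD c t1 b h k0 k2).T, -(3 / 7) ≤ t - t1 ∧ t - t1 ≤ 1 / 100 := by
    intro t ht
    rw [hT] at ht
    constructor <;> linarith [ht.1, ht.2]
  have hsub : ∀ t ∈ Icc 0 t1, t - t1 ∈ Icc (-(3 / 7) : ℝ) 0 := fun t ht =>
    ⟨by linarith [ht.1], by linarith [ht.2]⟩
  have hAn := norm_Az hc hc'
  have h12 : (12 : ℝ) ≤ b := le_trans (by norm_num) hb
  have hval : ∀ t ∈ Icc 0 (LD c t1 b h k0 k2).T, ‖(LD c t1 b h k0 k2).v t‖ =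
      h ^ 24 * ‖vv c (t - t1)‖ := by
    intro t _
    show ‖h ^ 24 • vv c (t - t1)‖ = _
    rw [norm_smul, Real.norm_eq_abs, abs_of_pos ha0]
  have hflo : (LD c t1 b h k0 k2).Flo b :=
    { b_ge := le_trans (by norm_num) hb
      h_pos := h0
      A_tr := fun t => by
        show LinearMap.trace ℝ E3 (ro (dz c) Kz).toLinearMap = 0
        rw [FamD.trace_ro, Kz_dz]
      A_le := fun t => hAn.trans h12
      A_lip := fun t t' => by
        show ‖Az c - Az c‖ ≤ _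
        rw [sub_self, norm_zero]
        positivity
      F_der := fun t => Fz_der c t
      F_zero := by
        show Fz c 0 = _
        rw [Fz, zero_smul ℝ (Az c), add_zero]
      FFi := fun t => Fz_Fiz c t
      FiF := fun t => Fiz_Fz c t
      F_le := fun t ht => by
        have ht1 : |t| ≤ 1 := abs_le.2 ⟨by linarith [ht.1], by linarith [ht.2]⟩
        have e1 : ‖t • Az c‖ ≤ 12 := by
          rw [norm_smul, Real.norm_eq_abs]
          nlinarith [norm_nonneg (Az c), abs_nonneg t]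
        have e2 : ‖ContinuousLinearMap.id ℝ E3‖ ≤ 1 := ContinuousLinearMap.norm_id_le
        have e3 : (13 : ℝ) ≤ b := le_trans (by norm_num) hb
        constructor
        · show ‖ContinuousLinearMap.id ℝ E3 + t • Az c‖ ≤ b
          refine (norm_add_le _ _).trans ?_
          linarith
        · show ‖ContinuousLinearMap.id ℝ E3 - t • Az c‖ ≤ b
          refine (norm_sub_le _ _).trans ?_
          linarith
      VL := fun t _ => by
        show axial (ro (dz c) Kz) = Fz c t (cx Kz (dz c))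
        rw [axial_ro, Fz, add_apply, smul_apply, Az_app, inner_cx_left, zero_smul, smul_zero,
          add_zero]
        rfl
      v_der := fun t => by
        have e1 := ((vv_der c (t - t1)).scomp t ((hasDerivAt_id' t).sub_const t1)).const_smul
          (h ^ 24)
        rw [LD_n]
        show HasDerivAt (fun t => h ^ 24 • vv c (t - t1))
          (kel (Az c) (nn (t - t1)) (h ^ 24 • vv c (t - t1))) t
        refine e1.congr_deriv ?_
        rw [map_smul, one_smul]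
      v_orth := fun t => by
        rw [LD_n]
        show ⟪nn (t - t1), h ^ 24 • vv c (t - t1)⟫ = 0
        rw [inner_smul_right, nn_vv, mul_zero]
      n_one := by
        show ‖(LD c t1 b h k0 k2).n t1‖ = 1
        rw [LD_n, sub_self]
        have : ‖nn 0‖ ^ 2 = 1 := by rw [norm_nn_sq, q_zero]
        nlinarith [norm_nonneg (nn 0)]
      v_a := by
        show ‖h ^ 24 • vv c (t1 - t1)‖ = h ^ 24
        rw [norm_smul, sub_self, vv_zero, Real.norm_eq_abs, abs_of_pos ha0]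
        have : ‖(!₂[1, 0, 0] : E3)‖ ^ 2 = 1 := by
          rw [norm_sq_eq]
          simp
        have e : ‖(!₂[1, 0, 0] : E3)‖ = 1 := by nlinarith [norm_nonneg (!₂[1, 0, 0] : E3)]
        rw [e, mul_one]
      kap_ge := by rw [LD_kap h0]; norm_num
      kap_le := by rw [LD_kap h0]; norm_num
      c_ge := by rw [LD_c h0]; exact hcb
      c_le := by rw [LD_c h0]; linarith
      s_ge := by
        rw [LD_s]
        have : 1 / b ≤ 1 := by
          rw [div_le_iff₀ hb0]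
          linarith
        linarith
      s_le := by rw [LD_s]; linarith
      t0_pos := by
        show 0 < t1
        linarith
      t0_lt := by
        rw [hT]
        show t1 < _
        linarith
      T_one := by linarith }
  refine
    { toFlo := hflo
      h_ge := hh
      T_eq := by
        rw [LD_th h0]
        rfl
      far := ?_
      k0_ge := hk0
      k0_le := hk0'
      k2_ge := hk2
      k2_le := hk2'
      ck0 := by rw [LD_c h0]; exact hck0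
      ck2 := by rw [LD_c h0]; exact hck2
      eta_le := by
        rw [O.LevD.eta, LD_c h0]
        exact heta
      ck0sq := by rw [LD_c h0]; exact hck0sq
      v_le := ?_
      g_ge := ?_
      al_pos := fun t _ => ha0
      al_mono := fun s _ t _ _ => le_rfl
      al_lip := ?_
      prop := ?_
      v_size := ?_ }
  · -- the far region
    refine ⟨?_, ?_, ?_⟩
    · show (h ^ 7)⁻¹ ≤ t1
      have e1 : (h ^ 7)⁻¹ ≤ 1 / 40 := by
        rw [inv_le_comm₀ (by positivity) (by norm_num)]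
        calc ((1 : ℝ) / 40)⁻¹ = 40 := by norm_num
          _ ≤ h := by linarith
          _ ≤ h ^ 7 := le_self_pow₀ h1 (by norm_num)
      linarith
    · rw [LD_f h0, zero_sub]
      exact hf0
    · intro t ht
      have ht' : t ∈ Icc 0 t1 := ht
      rw [LD_f h0, LD_f h0, LD_a]
      have e1 : gG c (t - t1) ≤ gG c (0 - t1) :=
        gG_antitone hc hc' (hsub 0 ⟨le_rfl, by linarith⟩) (hsub t ht') (by linarith [ht'.1])
      have e2 : 0 ≤ gG c (0 - t1) := by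
        have := gG_ge hc hc' (hsub 0 ⟨le_rfl, by linarith⟩)
        have e3 : 0 ≤ c * (0 - t1) ^ 2 := by positivity
        linarith
      have e4 : 0 ≤ h ^ 24 * ((6 + 5 * c) * (gG c (0 - t1) - gG c (t - t1))) := by
        have : 0 ≤ gG c (0 - t1) - gG c (t - t1) := by linarith
        positivity
      have e5 : 0 ≤ h ^ 24 * ((6 + 5 * c) * gG c (0 - t1)) := by positivity
      nlinarith
  · intro t ht
    rw [hval t ht, LD_a]
    obtain ⟨e1, e2⟩ := hmem t ht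
    have e3 := (vv_size hc hc' e1 e2).2
    show h ^ 24 * ‖vv c (t - t1)‖ ≤ b * h ^ 24
    nlinarith
  · intro t ht
    have ht' : t ∈ Icc 0 t1 := ht
    rw [LD_g h0 hc, LD_a]
    show b⁻¹ * h ^ 24 * (t1 - t) ^ 2 ≤ _
    have e1 := gG_ge hc hc' (hsub t ht')
    rw [one_div] at hcb
    calc b⁻¹ * h ^ 24 * (t1 - t) ^ 2 = h ^ 24 * (b⁻¹ * (t - t1) ^ 2) := by ring
      _ ≤ h ^ 24 * (c * (t - t1) ^ 2) := by gcongr
      _ ≤ _ := by gcongr
  · intro s _ t ht
    show h ^ 24 ≤ h ^ 24 * Real.exp (b * (t - s))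
    have : 1 ≤ Real.exp (b * (t - s)) := Real.one_le_exp (mul_nonneg hb0.le (by linarith [ht.1]))
    nlinarith
  · refine PB_of_norm (L := 36) (fun r _ => (norm_kel_le _ _).trans ?_) (by norm_num) ?_ ?_
    · show 3 * ‖Az c‖ ≤ 36
      linarith
    · have e1 : Real.exp (36 * ((LD c t1 b h k0 k2).T - 0)) ≤ Real.exp 18 :=
        Real.exp_le_exp.2 (by linarith)
      refine e1.trans ?_
      show Real.exp 18 ≤ b
      have e2 : Real.exp 18 = Real.exp 1 ^ 18 := by rw [← Real.exp_nat_mul]; norm_num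
      have e3 : Real.exp 1 ≤ 3 := by linarith [Real.exp_one_lt_d9]
      calc Real.exp 18 = Real.exp 1 ^ 18 := e2
        _ ≤ 3 ^ 18 := by gcongr
        _ ≤ 10 ^ 20 := by norm_num
        _ ≤ b := hb
    · intro s _ t _
      show 1 ≤ h ^ 24 / h ^ 24
      rw [div_self ha0.ne']
  · intro t ht
    rw [hval t ht, LD_a]
    obtain ⟨e1, e2⟩ := hmem t ht
    obtain ⟨e3, e4⟩ := vv_size hc hc' e1 e2
    have e5 : h ^ 24 * ‖vv c (t - t1)‖ / h ^ 24 * (h ^ 24 / h ^ 24) = ‖vv c (t - t1)‖ := by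
      field_simp
    show b⁻¹ ≤ h ^ 24 * ‖vv c (t - t1)‖ / h ^ 24 * (h ^ 24 / h ^ 24) ∧ _
    have e6 : b⁻¹ ≤ 1 / 8 := by
      rw [inv_le_comm₀ hb0 (by norm_num)]
      linarith
    constructor
    · rw [e5]
      linarith
    · show h ^ 24 * ‖vv c (t - t1)‖ / h ^ 24 * (h ^ 24 / h ^ 24) ≤ b
      rw [e5]
      linarith

end

end Pool.Agent.Work.MP_b0497c_an.Unf.B
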