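import Pool.Agent.Work.MP_b0497c_an.Unf.AStmts
import Pool.Agent.Work.MP_b0497c_an.Bd.B32

set_option autoImplicit false

/-!
# Base (A0): the data `PreD` of the wave 1 over the shear
-/

open scoped ENNReal
open Set Filter

namespace Pool.Agent.Work.MP_b0497c_an.Unf.B

open W S A P
open Unf.K (rM rMt kR kelS covec CoL)

/-- The matrix of the shear at a label. -/
def RM0 : Prop := ∀ (c : ℝ) (θ : Md →+ ℝ), rM θ (M0 c) = Real.cos (θ e0) • Az c

/-- The Kelvin bound over the shear at every label. -/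
def KB1 : Prop := ∀ (c T b : ℝ) (α : ℝ → ℝ), 0 < c → c ≤ 1 / 100 → 0 < T → T ≤ 1 / 2 → 10 ^ 20 ≤ b →
  (∀ s ∈ Icc 0 T, ∀ t ∈ Icc s T, 1 ≤ α t / α s) → ∀ (k : Fin 3 → ℤ), kR k ≠ 0 →
  ∀ θ : Md →+ ℝ, CoL T b α (rMt θ T (fun _ => M0 c)) (kR k)

/-- Centre data of the wave 1. -/
noncomputable def D1 (x t1 : ℝ) : O.LevD := LD (cn x 1) t1 (bb x 1) (hh x 1) (P.k0 x 1) (k2f x 1)

/-- The chain of the base. -/
noncomputable def Ch (x t1 : ℝ) (k : Fin 3 → ℤ) : Chain where
  K := fun j => if j = 0 then KZ else k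
  τ := fun _ => 1 / 2
  tn := fun _ => t1
  r := fun _ => 1
  R := fun _ => 40
  α := fun _ _ => aa x 1
  X := fun _ t => (t : ℂ) • U0 (cn x 1)
  U := fun _ _ => U0 (cn x 1)
  A := fun _ _ => 0
  p := fun _ _ => 0
  F := fun _ => F0 (cn x 1)
  Fi := fun _ => Fi0 (cn x 1)
  M := fun _ _ => M0 (cn x 1)
  z := fun _ _ => 0
  a := fun _ _ => 0
  s := fun _ _ => 0
  Φ := fun _ _ _ => 0
  w := fun _ => seed (fun j => if j = 0 then KZ else k) (Aex x 1) 1
    (ofC ((‖(D1 x t1).l‖ / ‖kR k‖) • (D1 x t1).v 0))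

theorem norm_kv_kR (k : Fin 3 → ℤ) : ‖kv k‖ = ‖kR k‖ := by
  have : kv k = WithLp.toLp 2 fun i => ((kR k i : ℝ) : ℂ) := by
    ext i
    simp [kv, kR]
  rw [this, norm_real]

theorem norm_kv_KZ : ‖kv KZ‖ = Real.sqrt 14 := by
  rw [norm_kvKZ, ← norm_Kz_sq, Real.sqrt_sq (norm_nonneg _)]

theorem base_of (hrM : RM0) (hkb : KB1) : Base := by
  refine ⟨40, by norm_num, ?_⟩
  obtain ⟨x₀, hx₀⟩ := eventually_atTop.1 (ev_Big 1 le_rfl)
  refine ⟨x₀, fun x hx => ?_⟩
  have B := hx₀ x hx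
  have hc := cn_pos x 1
  have hc' := cn_le_100 B
  have ha1 : 1 ≤ hh x 1 ^ 24 := one_le_pow₀ (le_trans (by norm_num) (B.hh_ge 1))
  obtain ⟨t1, k, ht, ht', hf, hk1, hk2, hk0, hdir⟩ := exists_t1 hc hc' ha1 (exp_L1 B)
  have hN := num_base B ht ht' hf
  have haa : aa x 1 = hh x 1 ^ 24 := aa_eq x 1
  have haa0 : aa x 1 ≠ 0 := by
    rw [haa]
    positivity
  have one : ∀ j : ℕ, 1 ≤ j → j ≤ 1 → j = 1 := fun j h1 h2 => le_antisymm h2 h1
  have hkap : (D1 x t1).kap = 1 := LD_kap (lt_of_lt_of_le (by norm_num) (B.hh_ge 1))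
  have hcc : (D1 x t1).c = cn x 1 := LD_c (lt_of_lt_of_le (by norm_num) (B.hh_ge 1))
  have hK1 : (Ch x t1 k).K 1 = k := rfl
  refine ⟨Ch x t1 k, fun _ => D1 x t1,
    { an := ?_
      R0_eq := rfl
      R_eq := fun l h1 h2 => absurd h2 (by omega)
      r_eq := fun l h1 h2 => absurd h2 (by omega)
      K_size := ?_
      τ_eq := fun l h1 h2 => absurd h2 (by omega)
      τ_pos := by
        show (0 : ℝ) < 1 / 2
        norm_num
      τ_le := le_rfl
      T_le := LD_T_le hN
      hl := fun j _ _ => LD_HL hN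
      b_eq := fun j h1 h2 => by rw [one j h1 h2]; rfl
      h_eq := fun j h1 h2 => by rw [one j h1 h2]; rfl
      k0_eq := fun j h1 h2 => by rw [one j h1 h2]; rfl
      k2_eq := fun j h1 h2 => by rw [one j h1 h2]; rfl
      c_low := fun j h1 h2 => by rw [one j h1 h2, hcc]; linarith
      c_upp := fun j h1 h2 => by rw [one j h1 h2, hcc]; linarith
      κ_low := fun j h1 h2 => by rw [one j h1 h2, hkap]; norm_num
      κ_upp := fun j h1 h2 => by rw [one j h1 h2, hkap]; norm_num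
      al_one := by
        funext t
        exact haa.symm
      al_succ := fun l h1 h2 => absurd h2 (by omega)
      t_succ := fun l h1 h2 => absurd h2 (by omega)
      tn_eq := fun j h1 h2 => rfl
      α_eq := fun j h1 h2 => by
        rw [one j h1 h2]
        funext t
        show aa x 1 = aa x 1 * (hh x 1 ^ 24 / hh x 1 ^ 24)
        rw [← haa, div_self haa0, mul_one]
      A_eq := ?_
      l_eq := hdir
      w_eq := rfl
      kb := ?_
      w_le := fun l h1 h2 => absurd h2 (by omega)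
      M_ge := fun l h1 h2 => absurd h2 (by omega) }⟩
  · refine
      { lvl := ?_
        sht := fun j h1 h2 => absurd h2 (by omega)
        U_seed := fun l hl => absurd hl (by omega)
        τ_anti := fun l hl => absurd hl (by omega)
        r_anti := fun l hl => absurd hl (by omega)
        R_mono := fun l hl => absurd hl (by omega) }
    intro l hl
    have : l = 0 := by omega
    subst this
    exact lvl0 (K := (Ch x t1 k).K) (T := 1 / 2) rfl hc hc' (by norm_num) (by norm_num)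
  · refine ⟨norm_kv_KZ, fun j h1 h2 => ?_, fun j h1 h2 => ?_⟩
    · rw [one j h1 h2, hK1, norm_kv_kR]
      exact hk1
    · rw [one j h1 h2, hK1, norm_kv_kR]
      have := Real.exp_pos (Lr x 1)
      linarith
  · funext t
    show Az (cn x 1) = rM 0 (M0 (cn x 1))
    rw [hrM]
    simp
  · intro θ
    exact hkb (cn x 1) (1 / 2) (bb x 1) (fun _ => aa x 1) hc hc' (by norm_num) le_rfl (bb_big B)
      (fun s _ t _ => by
        show 1 ≤ aa x 1 / aa x 1
        rw [div_self haa0]) k hk0 θ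

end Pool.Agent.Work.MP_b0497c_an.Unf.B
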