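import Pool.Agent.Work.MP_b0497c_an.Bd.B40
import Pool.Agent.Work.MP_b0497c_an.Bd.B38
import Pool.Agent.Work.MP_b0497c_an.Unf.OLab

set_option autoImplicit false
set_option linter.dupNamespace false

/-!
# Block A, `LH3`: the exact data of the next level satisfy `(so)` (helper94)
-/

open scoped ENNReal RealInnerProductSpace
open Set MeasureTheory

namespace Pool.Agent.Work.MP_b0497c_an.Unf.A

open W S P
open Unf.O (LevD NextD)
open Unf.K (rM rV rMt kR dj kelS covec CoL clT)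
open Forced.Ode (Op ro)

/-- Comparison of the flow of a path near `fam.M 1` with `F1 1`, `Fi1 1`. -/
def FNear : Prop := ∀ (D : LevD), D.HL → ∀ (A F Fi : ℝ → Op), Glob A F Fi → Continuous A →
  ∀ e : ℝ, 0 ≤ e → D.h ^ 52 * e ≤ 1 → (∀ t ∈ Icc 0 D.T, ‖A t - D.fam.M 1 t‖ ≤ e) →
  ∀ t ∈ Icc 0 D.T, ‖F t - D.F1 1 t‖ ≤ 4 * D.h ^ 78 * e ∧ ‖Fi t - D.Fi1 1 t‖ ≤ 4 * D.h ^ 78 * e

namespace LH3P

theorem e_norm (i : Fin 3) : ‖e i‖ = 1 := by
  simp [e]

theorem comp_le (x : E3) (i : Fin 3) : |x i| ≤ ‖x‖ := by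
  have := PiLp.norm_apply_le x i
  simpa using this

theorem axial_le (A : Op) : ‖axial A‖ ≤ 4 * ‖A‖ := by
  have h1 : ∀ i j : Fin 3, |(A (e i)) j| ≤ ‖A‖ := by
    intro i j
    refine (comp_le _ _).trans ((A.le_opNorm _).trans ?_)
    rw [e_norm, mul_one]
  have h2 : ‖axial A‖ ^ 2 = (axial A 0) ^ 2 + (axial A 1) ^ 2 + (axial A 2) ^ 2 := by
    rw [EuclideanSpace.norm_sq_eq]
    simp [Fin.sum_univ_three, sq_abs]
  have hA := norm_nonneg A
  have h3 : ∀ i j k l : Fin 3, ((A (e i)) j - (A (e k)) l) ^ 2 ≤ (2 * ‖A‖) ^ 2 := by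
    intro i j k l
    rw [← sq_abs]
    have h4 : |(A (e i)) j - (A (e k)) l| ≤ 2 * ‖A‖ := by
      refine (abs_sub _ _).trans ?_
      linarith [h1 i j, h1 k l]
    exact pow_le_pow_left₀ (abs_nonneg _) h4 2
  have e0 : axial A 0 = (A (e 1)) 2 - (A (e 2)) 1 := rfl
  have e1 : axial A 1 = (A (e 2)) 0 - (A (e 0)) 2 := rfl
  have e2 : axial A 2 = (A (e 0)) 1 - (A (e 1)) 0 := rfl
  refine le_of_sq_le_sq ?_ (by positivity)
  rw [h2, e0, e1, e2]
  have a0 := h3 1 2 2 1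
  have a1 := h3 2 0 0 2
  have a2 := h3 0 1 1 0
  have a3 : 0 ≤ ‖A‖ ^ 2 := by positivity
  have a4 : (4 * ‖A‖) ^ 2 = 16 * ‖A‖ ^ 2 := by ring
  have a5 : (2 * ‖A‖) ^ 2 = 4 * ‖A‖ ^ 2 := by ring
  rw [a5] at a0 a1 a2
  rw [a4]
  linarith

/-- inverse of the flow -/
theorem Fi_der {A F Fi : ℝ → Op} (y : Glob A F Fi) (t : ℝ) :
    HasDerivAt Fi (-((Fi t).comp (A t))) t := by
  let u : (E3 →L[ℝ] E3)ˣ := ⟨F t, Fi t, y.FFi t, y.FiF t⟩
  have h1 : HasFDerivAt Ring.inverse _ (F t) := hasFDerivAt_ringInverse (𝕜 := ℝ) u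
  have h2 := h1.comp_hasDerivAt t (y.der t)
  have h3 : (Ring.inverse ∘ F) = Fi := by
    funext s
    let us : (E3 →L[ℝ] E3)ˣ := ⟨F s, Fi s, y.FFi s, y.FiF s⟩
    exact Ring.inverse_unit us
  rw [h3] at h2
  refine h2.congr_deriv ?_
  show -((Fi t).comp (((A t).comp (F t)).comp (Fi t))) = _
  ext1 x
  have h4 : ∀ z, F t (Fi t z) = z := fun z => congrArg (fun L : Op => L z) (y.FFi t)
  simp [h4]

theorem adj_der {A F Fi : ℝ → Op} (y : Glob A F Fi) (K : E3) (t : ℝ) :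
    HasDerivAt (fun t => ContinuousLinearMap.adjoint (Fi t) K)
      (-(ContinuousLinearMap.adjoint (A t) (ContinuousLinearMap.adjoint (Fi t) K))) t := by
  have h1 : HasDerivAt (fun t => O.adR (Fi t)) (O.adR (-((Fi t).comp (A t)))) t :=
    O.adR.hasFDerivAt.comp_hasDerivAt t (Fi_der y t)
  have h2 := h1.clm_apply (hasDerivAt_const t K)
  refine h2.congr_deriv ?_
  simp only [O.adR_apply, map_neg, map_zero, add_zero, neg_apply]
  rw [O.adj_comp]

theorem Fi_zero {A F Fi : ℝ → Op} (y : Glob A F Fi) : Fi 0 = ContinuousLinearMap.id ℝ E3 := by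
  have h := y.FFi 0
  rw [y.zero] at h
  exact h

theorem adj_eq {A F Fi : ℝ → Op} (y : Glob A F Fi) (hA : Continuous A) (l : E3) (t : ℝ) :
    ContinuousLinearMap.adjoint (Fi t) l = covec A l t := by
  have h : (fun t => ContinuousLinearMap.adjoint (Fi t) l) = covec A l := by
    refine K.ode_unique (K.dg_cont hA) 0 ?_ (fun s => ?_) (K.covec_deriv hA l)
    · rw [Fi_zero y, O.adj_id, K.covec_zero]
    · exact adj_der y l s
  exact congrFun h t

theorem clT_lip (T s t : ℝ) : |clT T s - clT T t| ≤ |s - t| := by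
  unfold clT
  have h1 : |max 0 (min s T) - max 0 (min t T)| ≤ |min s T - min t T| := by
    rw [max_comm 0, max_comm 0]
    exact abs_max_sub_max_le_abs _ _ _
  have h2 : |min s T - min t T| ≤ max |s - t| |T - T| := abs_min_sub_min_le_max _ _ _ _
  rw [sub_self, abs_zero, max_eq_left (abs_nonneg _)] at h2
  exact h1.trans h2

end LH3P

open LH3P

theorem lh3_of (hc : O.T1c) (hFN : FNear) : LH3 := by
  intro x R0 c₀ X0 n C D k F Fi hn hP hS hk hG
  have B := hP.big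
  have hD := hS.pre
  have H := hD.hl n hn le_rfl
  have hlv := hS.an.lvl n le_rfl
  have hT : 0 < (D n).T := H.toFlo.T_pos
  have hTτ := hD.T_le
  have h00 : (0 : ℝ) ∈ Icc 0 (D n).T := ⟨le_rfl, hT.le⟩
  obtain ⟨hAc, hMe, hcov, hinv, -, htr⟩ := K.d4 C.K (C.τ n) (C.r n) (C.R n) n _ _ _ _ _ _ _ hlv
    (D n).T hT hTτ 0
  set A := rMt 0 (D n).T (C.M n) with hAdef
  have hcl : ∀ t, A t = A (clT (D n).T t) := by
    intro t
    rw [hAdef, rMt, rMt, K.KDict.clT_of_mem (K.KDict.clT_mem hT.le t)]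
  have hsub : ∀ {t : ℝ}, t ∈ Icc 0 (D n).T → t ∈ Icc 0 (C.τ n) := fun ht =>
    ⟨ht.1, ht.2.trans hTτ⟩
  have hh1 := B.hh_one n
  have hh' := hD.h_eq n hn le_rfl
  have hbp0 : 0 < bP x (n - 1) := by rw [bP, GG]; positivity
  have hh0 := hh_pos x n
  -- closeness of the gradient
  have hsh : ∀ t ∈ Icc 0 (D n).T, ‖A t - (D n).fam.M 1 t‖ ≤ (hh x n ^ (10 ^ 9))⁻¹ := by
    intro t ht
    have h1 := lsh lse x R0 c₀ X0 n C D hn hP hD hS.an t ht
    rw [hMe t ht]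
    exact h1
  have he0 : 0 ≤ (hh x n ^ (10 ^ 9))⁻¹ := by positivity
  have he52 : (D n).h ^ 52 * (hh x n ^ (10 ^ 9))⁻¹ ≤ 1 := by
    rw [hh']
    rw [mul_inv_le_iff₀ (by positivity), one_mul]
    exact pow_le_pow_right₀ hh1 (by norm_num)
  have hbp : ∀ K : ℕ, K ≤ 9 * 10 ^ 8 → hh x n ^ K * (hh x n ^ (10 ^ 9))⁻¹ ≤
    (bP x (n - 1) ^ 30)⁻¹ := fun K hK => B.h9_bp hn hK
  have hh4 : 4 ≤ hh x n := by
    have := B.hh_ge n
    have h3 : (4 : ℝ) ≤ 10 ^ 100 := by norm_num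
    linarith
  have hfn : 4 * (D n).h ^ 78 * (hh x n ^ (10 ^ 9))⁻¹ ≤ (bP x (n - 1) ^ 30)⁻¹ := by
    refine le_trans ?_ (hbp 79 (by norm_num))
    rw [hh', pow_succ (hh x n) 78]
    have : 0 ≤ hh x n ^ 78 := by positivity
    refine mul_le_mul_of_nonneg_right ?_ he0
    nlinarith
  have hF := hFN (D n) H A F Fi hG hAc _ he0 he52 hsh
  have ha0 : ∀ t ∈ Icc 0 (D n).T, ‖A t - (D n).fam.M 1 t‖ ≤ (bP x (n - 1) ^ 30)⁻¹ := by
    intro t ht
    refine (hsh t ht).trans ?_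
    have := hbp 0 (by norm_num)
    rwa [pow_zero, one_mul] at this
  -- the flow
  have hFi : ∀ t ∈ Icc 0 (D n).T, Fi t = rM 0 (C.Fi n t) := by
    intro t ht
    have h1 : ContinuousLinearMap.adjoint (Fi t) =
        ContinuousLinearMap.adjoint (rM 0 (C.Fi n t)) := by
      ext1 K
      rw [adj_eq hG hAc, hcov K t ht]
    exact ContinuousLinearMap.adjoint.injective h1
  have hFF : ∀ t ∈ Icc 0 (D n).T, F t = rM 0 (C.F n t) := by
    intro t ht
    have h1 := (hinv t ht).2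
    rw [← hFi t ht] at h1
    have h2 := hG.FFi t
    calc F t = (F t).comp ((Fi t).comp (rM 0 (C.F n t))) := by rw [h1]; rfl
      _ = ((F t).comp (Fi t)).comp (rM 0 (C.F n t)) := rfl
      _ = rM 0 (C.F n t) := by rw [h2]; rfl
  obtain ⟨n1, n2, n3, n4, n5, n6, -, n8, n9, n10, n11, n12, n13⟩ :=
    B.so_num hn (num_of_PreD B hD hn le_rfl) (numN_nxt x n C (D n) k F Fi)
  have hkv : ‖kv k‖ = ‖kR k‖ := by rw [K.KDict.kv_eq, K.KDict.norm_ofC]
  have hkR : kR k ≠ 0 := by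
    have h1 := hk.low
    have h2 := Real.exp_pos (Lr x (n + 1))
    rw [hkv] at h1
    exact norm_pos_iff.1 (by linarith)
  refine
    { A_tr := fun t => ?_
      A_le := fun t => ?_
      A_lip := fun t t' => ?_
      F_der := hG.der
      F_zero := hG.zero
      FFi := hG.FFi
      FiF := hG.FiF
      VL := fun t ht => ?_
      A_near := ha0
      F_near := fun t ht => (hF t ht).1.trans hfn
      Fi_near := fun t ht => (hF t ht).2.trans hfn
      Om_near := ?_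
      K_ne := hkR
      K_near := hk.dir.trans (B.dir_bp hn)
      V_der := fun t => ?_
      V_zero := K.kelS_zero _ _ _
      bp_ge := n1
      b_ge := n2
      h_ge := n3
      k0_ge := n4
      k0_le := n5
      k2_le := n6
      k0k2 := n13
      k2k2 := n8
      eta := n9
      kap_lo := n10
      kap_hi := n11
      grow := n12 }
  · show LinearMap.trace ℝ E3 (A t).toLinearMap = 0
    rw [hcl t, hMe _ (K.KDict.clT_mem hT.le t)]
    exact htr _ (K.KDict.clT_mem hT.le t)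
  · show ‖A t‖ ≤ (D n).h ^ 27
    rw [hcl t]
    set s := clT (D n).T t
    have hs : s ∈ Icc 0 (D n).T := K.KDict.clT_mem hT.le t
    have h1 := (hc (D n) H 1 ⟨by norm_num, le_rfl⟩ s hs).1
    have h2 := hsh s hs
    have h3 : (hh x n ^ (10 ^ 9))⁻¹ ≤ 1 := inv_le_one_of_one_le₀ (one_le_pow₀ hh1)
    have h4 : ‖A s‖ ≤ ‖A s - (D n).fam.M 1 s‖ + ‖(D n).fam.M 1 s‖ := by
      have := norm_add_le (A s - (D n).fam.M 1 s) ((D n).fam.M 1 s)
      rwa [sub_add_cancel] at this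
    rw [hh'] at h1 ⊢
    have h5 : 1 ≤ hh x n ^ 26 := one_le_pow₀ hh1
    calc ‖A s‖ ≤ 1 + hh x n ^ 26 := by linarith
      _ ≤ hh x n ^ 26 * hh x n := by nlinarith
      _ = hh x n ^ 27 := by ring
  · show ‖A t - A t'‖ ≤ bP x (n - 1) * |t - t'|
    rw [hcl t, hcl t', hMe _ (K.KDict.clT_mem hT.le t), hMe _ (K.KDict.clT_mem hT.le t')]
    refine (hS.lip _ (hsub (K.KDict.clT_mem hT.le t)) _ (hsub (K.KDict.clT_mem hT.le t'))).trans ?_
    exact mul_le_mul_of_nonneg_left (clT_lip _ _ _) hbp0.le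
  · show axial (A t) = F t (axial (A 0))
    rw [hMe t ht, hMe 0 h00, hFF t ht]
    exact lsv C.K (C.τ n) (C.r n) (C.R n) n _ _ _ _ _ _ _ hlv 0 t (hsub ht)
  · show ‖axial (A 0) - (D n).Om1 1‖ ≤ (bP x (n - 1) ^ 30)⁻¹
    have h1 : axial ((D n).fam.M 1 0) = (D n).Om1 1 := by
      have h2 := (O.LevD.t1b (D n) _ H.toFlo 1 0 h00).2.2.1
      have h3 := (O.LevD.t1a (D n) _ H.toFlo 1 0).2.2.2.2.2.2.2.1
      rw [h2, h3]
      rfl
    have h2 : axial (A 0) - (D n).Om1 1 = axial (A 0 - (D n).fam.M 1 0) := by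
      rw [← h1, sub_eq_add_neg (A 0), Fam.axial_add, ← neg_one_smul ℝ ((D n).fam.M 1 0),
        Fam.axial_smul, neg_one_smul, ← sub_eq_add_neg]
    rw [h2]
    refine (axial_le _).trans ?_
    refine le_trans ?_ (hbp 1 (by norm_num))
    rw [pow_one]
    have := hsh 0 h00
    have h5 := norm_nonneg (A 0 - (D n).fam.M 1 0)
    calc 4 * ‖A 0 - (D n).fam.M 1 0‖ ≤ 4 * (hh x n ^ (10 ^ 9))⁻¹ := by gcongr
      _ ≤ hh x n * (hh x n ^ (10 ^ 9))⁻¹ := by gcongr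
  · show HasDerivAt (kelS A (kR k) ((D n).seed (kR k)))
      (K.kel (A t) (ContinuousLinearMap.adjoint (Fi t) (kR k))
        (kelS A (kR k) ((D n).seed (kR k)) t)) t
    rw [adj_eq hG hAc]
    exact K.kelS_deriv hAc hkR _ t

end Pool.Agent.Work.MP_b0497c_an.Unf.A
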