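import Pool.Agent.Work.MP_b0497c_an.Unf.Far
import Pool.Agent.Work.MP_b0497c_an.Unf.OStmts

set_option autoImplicit false

/-! # The statement `StF3` -/

open Set

namespace Pool.Agent.Work.MP_b0497c_an.Unf.O.LevD

theorem s0_eq {D : LevD} (h : D.Far) : D.s0 = D.t0 - D.w := by
  have := h.w_le
  exact max_eq_right (by linarith)

theorem stF3 : StF3 := by
  intro D h al hal
  rw [s0_eq h.far]
  exact h.F3 h.far (abs_le.2 hal)

end Pool.Agent.Work.MP_b0497c_an.Unf.O.LevD
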