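import Pool.Agent.Work.MP_b0497c_an.Unf.AStmts
import Pool.Agent.Work.MP_b0497c_an.Bd.B27
import Pool.Agent.Work.MP_b0497c_an.Unf.FarS
import Pool.Agent.Work.MP_b0497c_an.Unf.WinD
import Pool.Agent.Work.MP_b0497c_an.Unf.P6

set_option autoImplicit false
set_option linter.dupNamespace false

/-!
# LH5: theorem K for the chain
-/

open scoped ENNReal
open Set MeasureTheory

namespace Pool.Agent.Work.MP_b0497c_an.Unf.A

open W S P
open Unf.O (LevD NextD)
open Unf.K (rM rV rMt kR dj kelS covec CoL KLink KLB)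

/-- A phase with `1 - cos` small is close to a multiple of `2π`. -/
theorem near_of_cos {φ s d : ℝ} (h : 1 - Real.cos φ ≤ s) (hd : 0 ≤ d) (hs : 5 * s ≤ d ^ 2) :
    ∃ m : ℤ, |φ - 2 * Real.pi * m| ≤ d := by
  have hpi := Real.pi_pos
  refine ⟨round (φ / (2 * Real.pi)), ?_⟩
  set m : ℤ := round (φ / (2 * Real.pi)) with hm
  set ψ : ℝ := φ - 2 * Real.pi * m with hψ
  have h1 : |φ / (2 * Real.pi) - m| ≤ 1 / 2 := abs_sub_round _
  have h2 : |ψ| ≤ Real.pi := by
    have h3 : ψ = 2 * Real.pi * (φ / (2 * Real.pi) - m) := by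
      rw [hψ]
      field_simp
    rw [h3, abs_mul, abs_of_pos (by positivity)]
    nlinarith
  have h4 : Real.cos φ = Real.cos ψ := by
    have h5 : φ = ψ + m * (2 * Real.pi) := by rw [hψ]; ring
    rw [h5, Real.cos_add_int_mul_two_pi]
  have h6 := Real.cos_le_one_sub_mul_cos_sq h2
  rw [h4] at h
  have h7 : 2 / Real.pi ^ 2 * ψ ^ 2 ≤ s := by linarith
  have h8 : ψ ^ 2 ≤ d ^ 2 := by
    have h9 : Real.pi ^ 2 ≤ 10 := by
      have := Real.pi_lt_d2
      nlinarith
    have h10 : ψ ^ 2 = Real.pi ^ 2 / 2 * (2 / Real.pi ^ 2 * ψ ^ 2) := by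
      field_simp
    have h11 : 0 ≤ 2 / Real.pi ^ 2 * ψ ^ 2 := by positivity
    calc ψ ^ 2 = Real.pi ^ 2 / 2 * (2 / Real.pi ^ 2 * ψ ^ 2) := h10
      _ ≤ 10 / 2 * (2 / Real.pi ^ 2 * ψ ^ 2) := by gcongr
      _ ≤ 5 * s := by linarith
      _ ≤ d ^ 2 := hs
  exact abs_le_of_sq_le_sq h8 hd

/-- Where the envelope is not tiny, the label is close to the centre. -/
theorem env_near {h : ℝ} (hh : (10 : ℝ) ^ 100 ≤ h) {A n : ℕ} (hA : h ^ 10000 ≤ (A : ℝ))
    {θ : Md →+ ℝ} (he : 1 < h ^ 2000 * envR A n θ) :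
    ∃ d, 0 ≤ d ∧ h ^ 4000 * d ≤ 1 ∧ Unf.K.Near n d θ := by
  have h0 : 0 < h := lt_of_lt_of_le (by norm_num) hh
  have h1 : (1 : ℝ) ≤ h := le_trans (by norm_num) hh
  have hA0 : (0 : ℝ) < A := lt_of_lt_of_le (by positivity) hA
  have hA0' : 0 < A := by exact_mod_cast hA0
  refine ⟨(h ^ 4000)⁻¹, by positivity, by rw [mul_inv_cancel₀ (by positivity)], ?_⟩
  intro i hi
  have he' : Real.exp (-(2000 * Real.log h)) ≤ envR A n θ := by
    have h2 : Real.exp (-(2000 * Real.log h)) = (h ^ 2000)⁻¹ := by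
      have h3 : (2000 : ℝ) * Real.log h = Real.log (h ^ 2000) := by
        rw [Real.log_pow]
        norm_num
      rw [h3, Real.exp_neg, Real.exp_log (by positivity)]
    rw [h2, inv_le_iff_one_le_mul₀ (by positivity), mul_comm]
    exact he.le
  have h4 := envR_large hA0' he' hi
  refine near_of_cos h4 (by positivity) ?_
  have hlog : Real.log h ≤ h := (Real.log_le_sub_one_of_pos h0).trans (by linarith)
  have hlog0 : 0 ≤ Real.log h := Real.log_nonneg h1
  calc 5 * (2 * (2000 * Real.log h / A)) ≤ 5 * (2 * (2000 * h / h ^ 10000)) := by gcongr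
    _ = 20000 * h / h ^ 10000 := by ring
    _ ≤ ((h ^ 4000)⁻¹) ^ 2 := by
      rw [inv_pow, ← pow_mul, div_le_iff₀ (by positivity), ← div_eq_inv_mul,
        le_div_iff₀ (by positivity)]
      have h5 : (20000 : ℝ) ≤ h := le_trans (by norm_num) hh
      calc 20000 * h * h ^ (4000 * 2) ≤ h * h * h ^ (4000 * 2) := by gcongr
        _ = h ^ 8002 := by ring
        _ ≤ h ^ 10000 := pow_le_pow_right₀ h1 (by norm_num)

/-- Upper bound of the weight. -/
theorem al_le {D : LevD} (h : D.HL) {t : ℝ} (ht : t ∈ Icc 0 D.T) :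
    D.al t ≤ D.b ^ 2 * D.al D.t0 := by
  have hF := h.toKin.toFlo
  have hb0 := hF.b0
  have ha := hF.a_pos
  have hat := h.al_pos t ht
  have hat0 := h.al_pos D.t0 hF.t0_mem
  have h1 := (h.v_size t ht).1
  have h3 := h.v_le t ht
  rw [inv_le_iff_one_le_mul₀ hb0, div_mul_div_comm, div_mul_eq_mul_div,
    one_le_div (by positivity)] at h1
  have h5 : D.b * (‖D.v t‖ * D.al D.t0) ≤ D.b * ((D.b * D.a) * D.al D.t0) := by gcongr
  have h6 : D.a * D.al t ≤ D.a * (D.b ^ 2 * D.al D.t0) := by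
    calc D.a * D.al t ≤ D.b * (‖D.v t‖ * D.al D.t0) := by linarith
      _ ≤ D.b * ((D.b * D.a) * D.al D.t0) := h5
      _ = D.a * (D.b ^ 2 * D.al D.t0) := by ring
  exact le_of_mul_le_mul_left h6 ha

/-- `t1 ∈ [0,T]`. -/
theorem t1_mem {D : LevD} (h : D.HL) : D.t1 ∈ Icc 0 D.T := by
  have hth : 0 ≤ D.th := Real.sqrt_nonneg _
  have h0 := h.t0_pos
  have hT := h.T_eq
  unfold LevD.t1
  constructor
  · linarith
  · rw [hT]
    linarith

/-- The size of the coarse constant. -/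
theorem R_small {x R0 c₀ X0 : ℝ} {n : ℕ} {C : Chain} {D : ℕ → LevD} (hn : 1 ≤ n)
    (hP : Par0 x R0 c₀ X0) (hp : PreD x R0 n C D) : C.R (n - 1) ^ 2 ≤ P.hh x n ^ 1000 := by
  have B := hP.big
  have h1 : (1 : ℝ) ≤ P.hh x n := B.hh_one n
  have e1 : P.hh x n ^ 1000 = Real.exp (6000 * ell x (n + 2)) := by
    rw [P.hh, ← Real.exp_nat_mul]
    congr 1
    push_cast
    ring
  rcases Nat.eq_or_lt_of_le hn with h2 | h2
  · -- n = 1
    subst h2
    show C.R 0 ^ 2 ≤ _
    rw [hp.R0_eq, e1]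
    have h3 := hP.R0_two
    have h4 : R0 ≤ X0 := by
      have h5 : (1 : ℝ) ≤ 10 ^ 6 * R0 := by linarith
      calc R0 ≤ 10 ^ 6 * R0 := by linarith
        _ = (10 ^ 6 * R0) ^ 1 := (pow_one _).symm
        _ ≤ (10 ^ 6 * R0) ^ 2000 := pow_le_pow_right₀ h5 (by norm_num)
        _ ≤ X0 := hP.X0_ge
    have h5 : X0 ^ 2 ≤ c₀ := by
      calc X0 ^ 2 ≤ X0 ^ 3 := pow_le_pow_right₀ hP.X0_one (by norm_num)
        _ ≤ c₀ := hP.X0_le
    have h6 : c₀ ≤ ell x (1 + 2) := by
      have h7 := B.nat (1 + 2)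
      have h8 := B.C_one
      have h9 : (1 : ℝ) ≤ (((1 + 2 : ℕ) : ℝ) + 1) ^ 16 := one_le_pow₀ (by norm_num)
      nlinarith
    have h7 : ell x (1 + 2) ≤ Real.exp (6000 * ell x (1 + 2)) := by
      have h8 := Real.add_one_le_exp (6000 * ell x (1 + 2))
      have h9 := B.ell_pos (1 + 2)
      linarith
    calc R0 ^ 2 ≤ X0 ^ 2 := by gcongr
      _ ≤ Real.exp (6000 * ell x (1 + 2)) := (h5.trans h6).trans h7
  · have h3 : C.R (n - 1) = RR x (n - 1) := hp.R_eq (n - 1) (by omega) (by omega)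
    rw [h3, RR, e1, ← Real.exp_nat_mul]
    refine Real.exp_le_exp.2 ?_
    have e2 : n - 1 + 1 = n := by omega
    have e3 : ell x (n + 2) = ell x n ^ 4 := by rw [ell_add]; norm_num
    rw [e2, e3]
    have h4 := B.ell_ge n
    have h5 : ell x n ^ 3 ≤ ell x n ^ 4 := pow_le_pow_right₀ (by linarith) (by norm_num)
    have h6 : 0 ≤ ell x n ^ 4 := by have := B.ell_pos n; positivity
    push_cast
    linarith

theorem lh5 (hse : LSe) : LH5 := by
  intro x R0 c₀ X0 n C D k F Fi hn hP hS hk _ _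
  have B := hP.big
  have hp := hS.pre
  have hl := hp.hl n hn le_rfl
  have hb := hp.b_eq n hn le_rfl
  have hh := hp.h_eq n hn le_rfl
  have hF := hl.toKin.toFlo
  have hT := hF.T_pos
  have hT1 := hp.T_le
  have hh100 : (10 : ℝ) ^ 100 ≤ P.hh x n := B.hh_ge n
  have hh1 : (1 : ℝ) ≤ P.hh x n := B.hh_one n
  have hh0 : 0 < P.hh x n := by linarith
  have ha := hF.a_pos
  have hC1 := B.C_one
  -- levels
  have hL' := hS.an.lvl (n - 1) (by omega)
  have hL := hS.an.lvl n le_rfl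
  have hSh := hS.an.sht n hn le_rfl
  have hK0 : kR (C.K n) ≠ 0 := Unf.K.KDict.kR_ne hSh.K_pos
  have hKn : 0 < ‖kR (C.K n)‖ := norm_pos_iff.2 hK0
  have hln : 0 < ‖(D n).l‖ := norm_pos_iff.2 hF.l_ne
  set c : ℝ := ‖(D n).l‖ / ‖kR (C.K n)‖ with hc
  have hc0 : 0 < c := div_pos hln hKn
  have hleq : (D n).l = c • kR (C.K n) := by
    have h1 := congrArg (fun v => ‖(D n).l‖ • v) hp.l_eq
    simp only [smul_smul] at h1
    rw [mul_inv_cancel₀ hln.ne', one_smul] at h1
    rw [h1, hc, div_eq_mul_inv]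
  -- the sheet of the seed
  obtain ⟨_, hws, hdws, hsee⟩ := hse x R0 c₀ X0 n C D hn hP hp
  set V : E3 := Vseed C n (D n) with hV
  have hVeq : V = c • (D n).v 0 := rfl
  have hv0 : (D n).v 0 = c⁻¹ • V := by
    rw [hVeq, smul_smul, inv_mul_cancel₀ hc0.ne', one_smul]
  -- `exp (-L_n / 4)` and `u ^ 256` against the powers of `h`
  have hexp : Real.exp (-(Lr x n) / 4) ≤ (P.hh x n ^ 2000)⁻¹ := by
    refine B.exp_L_le_h (by norm_num) ?_
    push_cast
    nlinarith
  have hu256 : uOld x n ^ 256 ≤ (P.hh x n ^ 2000)⁻¹ := by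
    rw [B.uOld_pow]
    refine B.exp_L_le_h (by norm_num) ?_
    push_cast
    nlinarith
  have hb4 : bb x n ^ 4 ≤ P.hh x n := B.b_pow_le (by norm_num)
  have haa : (D n).a = P.hh x n ^ 24 := by rw [LevD.a, hh]
  have hlink : KLink (D n) n (C.K n) k (C.M (n - 1)) (C.w n) V (envR (Aex x n) n) c := by
    refine ⟨hc0, fun t ht => ?_, hleq, hv0, envR_nonneg _ _, envR_le_one _ _, fun θ he => ?_,
      hws, hdws, fun θ t ht => ?_, ?_, ?_⟩
    · rw [hp.A_eq, Unf.K.rMt_eq ⟨ht.1, ht.2.trans hT1⟩]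
    · rw [hh] at he ⊢
      exact env_near hh100 (Nat.le_ceil _) he
    · have h1 := hsee θ
      have h2 := hl.v_Y ht
      have h3 : 0 ≤ (D n).al t / (D n).al 0 := by
        have h4 := hl.al_pos t ht
        have h5 := hl.al_pos 0 ⟨le_rfl, hT.le⟩
        positivity
      have h4 : (envR (Aex x n) n θ * Real.cos (θ (Finsupp.single n 1))) =
          Real.cos (θ (em n)) * envR (Aex x n) n θ := mul_comm _ _
      have h5 : ‖V‖ * ‖kR (C.K n)‖ = ‖(D n).v 0‖ * ‖(D n).l‖ := by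
        rw [hVeq, norm_smul, Real.norm_eq_abs, abs_of_pos hc0, hc]
        field_simp
      rw [h4, hh]
      rw [hb, haa] at h2
      calc P.hh x n ^ 1000 * ((D n).al t / (D n).al 0 *
            ‖rV θ (dj n (C.w n)) - (Real.cos (θ (em n)) * envR (Aex x n) n θ) • V‖ *
            ‖kR (C.K n)‖)
          ≤ P.hh x n ^ 1000 * ((D n).al t / (D n).al 0 *
            (Real.exp (-(Lr x n) / 4) * ‖V‖) * ‖kR (C.K n)‖) := by gcongr
        _ = P.hh x n ^ 1000 * (Real.exp (-(Lr x n) / 4) *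
            ((D n).al t / (D n).al 0 * (‖V‖ * ‖kR (C.K n)‖))) := by ring
        _ = P.hh x n ^ 1000 * (Real.exp (-(Lr x n) / 4) *
            ((D n).al t / (D n).al 0 * ‖(D n).v 0‖ * ‖(D n).l‖)) := by rw [h5]; ring
        _ ≤ P.hh x n ^ 1000 * ((P.hh x n ^ 2000)⁻¹ * (P.hh x n * P.hh x n ^ 24)) := by
          refine mul_le_mul_of_nonneg_left (mul_le_mul hexp (h2.trans ?_) (by positivity)
            (by positivity)) (by positivity)
          gcongr
        _ = P.hh x n ^ 1025 / P.hh x n ^ 2000 := by ring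
        _ ≤ 1 := by
          rw [div_le_one (by positivity)]
          exact pow_le_pow_right₀ hh1 (by norm_num)
    · intro h0
      have h1 := hk.low
      have h2 : ‖kv k‖ = ‖kR k‖ := by
        rw [EuclideanSpace.norm_eq, EuclideanSpace.norm_eq]
        congr 1
        refine Finset.sum_congr rfl fun i _ => ?_
        simp [kv, kR]
      rw [h2, h0, norm_zero] at h1
      have := Real.exp_pos (Lr x (n + 1))
      linarith
    · rw [hh]
      have h1 := hk.dir
      have h2 : Real.exp (-(Lr x (n + 1)) / 1) ≤ (P.hh x (n + 1) ^ 2000)⁻¹ := by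
        refine B.exp_L_le_h one_pos ?_
        push_cast
        nlinarith
      have h3 : P.hh x n ≤ P.hh x (n + 1) := by
        have := B.h_pow_le (n := n) (K := 1) (by norm_num)
        simpa using this
      have h4 : 8 / Real.exp (Lr x (n + 1)) = 8 * Real.exp (-(Lr x (n + 1)) / 1) := by
        rw [div_one, Real.exp_neg, div_eq_mul_inv]
      calc P.hh x n ^ 1000 * ‖‖kR k‖⁻¹ • kR k - ‖(D n).Kn‖⁻¹ • (D n).Kn‖
          ≤ P.hh x n ^ 1000 * (8 * (P.hh x (n + 1) ^ 2000)⁻¹) := by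
            gcongr
            rw [← one_div] at h2
            rw [h4] at h1
            refine h1.trans ?_
            rw [← one_div]
            linarith
        _ ≤ P.hh x n ^ 1000 * (8 * (P.hh x n ^ 2000)⁻¹) := by gcongr
        _ = 8 * P.hh x n ^ 1000 / P.hh x n ^ 2000 := by ring
        _ ≤ 1 := by
          rw [div_le_one (by positivity)]
          have h8 : (8 : ℝ) ≤ P.hh x n := le_trans (by norm_num) hh100
          calc 8 * P.hh x n ^ 1000 ≤ P.hh x n * P.hh x n ^ 1000 := by gcongr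
            _ = P.hh x n ^ 1001 := by ring
            _ ≤ P.hh x n ^ 2000 := pow_le_pow_right₀ hh1 (by norm_num)
  -- the coarse Kelvin bound
  have hc4 := fun θ => (Unf.K.d4 C.K (C.τ (n - 1)) (C.r (n - 1)) (C.R (n - 1)) (n - 1) (C.X (n - 1))
    (C.U (n - 1)) (C.A (n - 1)) (C.p (n - 1)) (C.F (n - 1)) (C.Fi (n - 1)) (C.M (n - 1)) hL'
    (D n).T hT (hT1.trans hp.τ_le) θ).1
  have hat0 := hl.al_pos (D n).t0 hF.t0_mem
  have haan : 0 < aa x n := aa_pos x n
  have hklb : KLB (D n).T (D n).b (D n).al (C.M (n - 1)) (C.K n) := by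
    have h1 : KLB (C.τ n) (bb x n) (C.α n) (C.M (n - 1)) (C.K n) := hp.kb
    have h2 := h1.mono_T hT1 hc4
    rw [hb]
    refine h2.weight (c := (D n).al (D n).t0 / aa x n) (by positivity) fun t ht => ?_
    rw [hp.α_eq n hn le_rfl]
    simp only
    field_simp
  -- the error of the flow
  have hu : ∀ t ∈ Icc 0 (D n).T, (D n).h ^ 1000 * (C.α n t * uOld x n ^ 256) ≤ 1 := by
    intro t ht
    have h1 := al_le hl ht
    have h2 : C.α n t ≤ P.hh x n ^ 25 := by
      rw [hp.α_eq n hn le_rfl]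
      simp only
      rw [hb] at h1
      have h3 : (D n).al t / (D n).al (D n).t0 ≤ bb x n ^ 2 := by
        rw [div_le_iff₀ hat0]
        exact h1
      calc aa x n * ((D n).al t / (D n).al (D n).t0) ≤ aa x n * bb x n ^ 2 := by gcongr
        _ ≤ P.hh x n ^ 24 * P.hh x n := by
          rw [aa_eq]
          gcongr
          exact B.b_pow_le (by norm_num)
        _ = P.hh x n ^ 25 := by ring
    have h3 : 0 ≤ C.α n t := by
      rw [hp.α_eq n hn le_rfl]
      have := hl.al_pos t ht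
      simp only
      positivity
    rw [hh]
    calc P.hh x n ^ 1000 * (C.α n t * uOld x n ^ 256)
        ≤ P.hh x n ^ 1000 * (P.hh x n ^ 25 * (P.hh x n ^ 2000)⁻¹) := by gcongr
      _ = P.hh x n ^ 1025 / P.hh x n ^ 2000 := by ring
      _ ≤ 1 := by
        rw [div_le_one (by positivity)]
        exact pow_le_pow_right₀ hh1 (by norm_num)
  have hR := R_small hn hP hp
  have hstep := Unf.K.klb_step hl (LevD.stK1of LevD.stF3 LevD.stWin) hn hL' hL hSh hL.c_pos.le hp.τ_le hT1 hlink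
    (by rw [hh]; exact hR) hu hklb
  -- weights and constants
  have ht1 := t1_mem hl
  have hat1 := hl.alp_pos (D n).t1 ht1
  have haan1 : 0 < aa x (n + 1) := aa_pos x (n + 1)
  have hfin := (hstep.mono_b hl.alp_pos (b' := bb x (n + 1)) (by
    rw [hh]
    calc P.hh x n ^ 151 ≤ P.hh x n ^ 10000 := pow_le_pow_right₀ hh1 (by norm_num)
      _ ≤ bb x (n + 1) := B.bb_succ n)).weight
    (c := aa x (n + 1) / (D n).alp (D n).t1)
    (α' := fun t => aa x (n + 1) * ((D n).alp t / (D n).alp (D n).t1)) (by positivity)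
    fun t ht => by ring
  exact hfin

end Pool.Agent.Work.MP_b0497c_an.Unf.A
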