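import Pool.Agent.Work.MP_b0497c_an.Unf.Core
import Pool.Agent.Work.MP_b0497c_an.Bd.B18

set_option autoImplicit false

/-!
# O4: two-sided size of the core wave on `[0,T]`
-/

open Set ContinuousLinearMap RealInnerProductSpace

namespace Pool.Agent.Work.MP_b0497c_an.Unf.O

open Forced.Ode (Op)
open Fam K

open LevD

/-- O2 of OK.5, entrance of the core wave into the window. -/
def O2 : Prop := ∀ D : LevD, D.HL → ∀ W : ℝ → E3, D.Core W →
  0 < D.Y 1 W D.s0 ∧ 0 < D.Z 1 W D.s0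

/-- The core wave is a Kelvin solution of the layer `al = 1`, orthogonal to its covector. -/
theorem core_kel {D : LevD} (h : D.HL) {W : ℝ → E3} (hW : D.Core W) :
    (∀ t ∈ D.Iw, HasDerivAt W (kel (D.fam.M 1 t) (D.fam.K 1 t) (W t)) t) ∧
    ∀ t ∈ D.Iw, ⟪D.fam.K 1 t, W t⟫ = 0 :=
  ⟨fun t ht => hW.der t (h.toKin.Iw_sub ht), fun _ ht => h.core_orth hW (h.toKin.Iw_sub ht)⟩

/-- Growth of the known weight over the window. -/
theorem al_win {D : LevD} (h : D.HL) {x y : ℝ} (hx : x ∈ D.Iw) (hy : y ∈ Icc x D.T) :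
    1 ≤ D.al y / D.al x ∧ D.al y / D.al x ≤ 2 := by
  have hK := h.toKin
  have hxT := hK.Iw_sub hx
  have hyT : y ∈ Icc 0 D.T := ⟨hxT.1.trans hy.1, hy.2⟩
  have hx0 := h.al_pos x hxT
  constructor
  · rw [one_le_div hx0]
    exact h.al_mono hxT hyT hy.1
  · rw [div_le_iff₀ hx0]
    refine (h.al_lip x hxT y hy).trans ?_
    rw [mul_comm]
    apply mul_le_mul_of_nonneg_right _ hx0.le
    have h1 : D.b * (y - x) ≤ 1 / 10 := by
      have h2 := hK.len_le
      have h3 := hK.ten_le (k := 1) (m := 2) (by norm_num)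
      have h4 := hK.w_pos
      have hb := hK.b_ge'
      have hp := hK.toFlo.h_pos
      have h5 : y - x ≤ 2 * D.w := by
        have := hx.1
        have := hy.2
        linarith
      have h6 : D.h * D.w ≤ 1 := by
        unfold w
        have h7 : D.h ^ 1 ≤ D.h ^ 7 := pow_le_pow_right₀ hK.h1 (by norm_num)
        rw [pow_one] at h7
        rw [← div_eq_mul_inv, div_le_one (by positivity)]
        exact h7
      have h7 : D.b * D.w ≤ 1 / 100 := by
        have h8 : 10 ^ 2 * D.b ^ 1 * D.w ≤ D.h * D.w := by gcongr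
        norm_num at h8
        linarith
      calc D.b * (y - x) ≤ D.b * (2 * D.w) := by gcongr
        _ = 2 * (D.b * D.w) := by ring
        _ ≤ 2 * (1 / 100) := by gcongr
        _ ≤ 1 / 10 := by norm_num
    calc Real.exp (D.b * (y - x)) ≤ Real.exp (1 / 10) := Real.exp_le_exp.2 h1
      _ ≤ Real.exp (Real.log 2) := by
        apply Real.exp_le_exp.2
        have := Real.log_two_gt_d9
        norm_num at this ⊢
        linarith
      _ = 2 := Real.exp_log two_pos

/-- O4 in the window. -/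
theorem core_win4 (hO2 : O2) {D : LevD} (h : D.HL) {W : ℝ → E3} (hW : D.Core W) {x y : ℝ}
    (hx : x ∈ D.Iw) (hy : y ∈ Icc x D.T) :
    D.alp y / D.alp x * ‖W x‖ ≤ D.h ^ 27 * ‖W y‖ ∧
    ‖W y‖ ≤ D.h ^ 27 * (D.alp y / D.alp x) * ‖W x‖ := by
  obtain ⟨hY, hZ⟩ := hO2 D h W hW
  obtain ⟨k1, k2⟩ := core_kel h hW
  obtain ⟨g1, g2⟩ := h.toKin.core_win k1 k2 hY hZ hx hy
  obtain ⟨a1, a2⟩ := al_win h hx hy
  have hx0 := h.al_pos x (h.toKin.Iw_sub hx)
  have hp := h.toKin.toFlo.h_pos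
  have hbig := h.toKin.h_big
  have hq : D.alp y / D.alp x = D.al y / D.al x *
      Real.exp (Real.sqrt 2 * (D.sig y - D.sig x)) := by
    unfold alp
    rw [mul_div_mul_comm, ← Real.exp_sub]
    congr 2
    ring
  rw [hq]
  have h2 : (2 : ℝ) ≤ D.h := le_trans (by norm_num) hbig
  constructor
  · calc D.al y / D.al x * Real.exp (Real.sqrt 2 * (D.sig y - D.sig x)) * ‖W x‖
        = D.al y / D.al x * (Real.exp (Real.sqrt 2 * (D.sig y - D.sig x)) * ‖W x‖) := by ring
      _ ≤ 2 * (D.h ^ 26 * ‖W y‖) := by gcongr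
      _ ≤ D.h * (D.h ^ 26 * ‖W y‖) := by gcongr
      _ = D.h ^ 27 * ‖W y‖ := by ring
  · calc ‖W y‖ ≤ D.h ^ 26 * Real.exp (Real.sqrt 2 * (D.sig y - D.sig x)) * ‖W x‖ := g2
      _ = 1 * (D.h ^ 26 * 1 * Real.exp (Real.sqrt 2 * (D.sig y - D.sig x)) * ‖W x‖) := by ring
      _ ≤ D.h * (D.h ^ 26 * (D.al y / D.al x) *
            Real.exp (Real.sqrt 2 * (D.sig y - D.sig x)) * ‖W x‖) := by
          gcongr
          linarith
      _ = _ := by ring

/-- **O4.** -/
theorem o4_of (hO2 : O2) : O4 := by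
  intro D h W hW s hs t ht
  have hK := h.toKin
  have hp := hK.toFlo.h_pos
  have hh := hK.h1
  have hs0 : D.s0 = D.t0 - D.w := hK.s0_eq
  have hst := hs.1
  have htT : t ∈ Icc 0 D.T := ⟨hs.1.trans ht.1, ht.2⟩
  have hrat : 0 ≤ D.alp t / D.alp s := by
    have := h.alp_pos s hs
    have := h.alp_pos t htT
    positivity
  rcases le_total t D.s0 with h1 | h1
  · -- far region
    obtain ⟨f1, f2⟩ := h.core_far hW (s := s) (t := t) ⟨hs.1, by rw [← hs0]; exact ht.1.trans h1⟩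
      ⟨ht.1, by rw [← hs0]; exact h1⟩
    have hq : D.alp t / D.alp s = D.al t / D.al s := by
      unfold alp
      rw [sig_le D h1, sig_le D (ht.1.trans h1)]
      simp
    rw [hq] at hrat ⊢
    constructor
    · refine f1.trans ?_
      gcongr
      norm_num
    · refine f2.trans ?_
      gcongr
      norm_num
  · rcases le_total D.s0 s with h2 | h2
    · obtain ⟨g1, g2⟩ := core_win4 hO2 h hW ⟨h2, hs.2⟩ ht
      constructor
      · refine g1.trans ?_
        gcongr
        norm_num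
      · refine g2.trans ?_
        gcongr
        norm_num
    · have hc : D.s0 ∈ D.Iw := ⟨le_refl _, hK.s0_le_T⟩
      have hcT := hK.Iw_sub hc
      obtain ⟨f1, f2⟩ := h.core_far hW (s := s) (t := D.s0) ⟨hs.1, by rw [← hs0]; exact h2⟩
        ⟨h2, by rw [← hs0]⟩
      obtain ⟨g1, g2⟩ := core_win4 hO2 h hW hc ⟨h1, ht.2⟩
      have hc0 := h.alp_pos _ hcT
      have hsp := h.alp_pos s hs
      have htp := h.alp_pos t htT
      have hq : D.al D.s0 / D.al s = D.alp D.s0 / D.alp s := by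
        unfold alp
        rw [sig_le D (le_refl _), sig_le D h2]
        simp
      rw [hq] at f1 f2
      have hmul : D.alp t / D.alp s = D.alp t / D.alp D.s0 * (D.alp D.s0 / D.alp s) := by
        field_simp
      constructor
      · calc D.alp t / D.alp s * ‖W s‖ =
              D.alp t / D.alp D.s0 * (D.alp D.s0 / D.alp s * ‖W s‖) := by rw [hmul]; ring
          _ ≤ D.alp t / D.alp D.s0 * (D.h ^ 15 * ‖W D.s0‖) :=
              mul_le_mul_of_nonneg_left f1 (by positivity)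
          _ = D.h ^ 15 * (D.alp t / D.alp D.s0 * ‖W D.s0‖) := by ring
          _ ≤ D.h ^ 15 * (D.h ^ 27 * ‖W t‖) := mul_le_mul_of_nonneg_left g1 (by positivity)
          _ = D.h ^ 42 * ‖W t‖ := by ring
          _ ≤ D.h ^ 100 * ‖W t‖ := by
              gcongr
              norm_num
      · calc ‖W t‖ ≤ D.h ^ 27 * (D.alp t / D.alp D.s0) * ‖W D.s0‖ := g2
          _ ≤ D.h ^ 27 * (D.alp t / D.alp D.s0) *
                (D.h ^ 15 * (D.alp D.s0 / D.alp s) * ‖W s‖) :=
              mul_le_mul_of_nonneg_left f2 (by positivity)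
          _ = D.h ^ 42 * (D.alp t / D.alp D.s0 * (D.alp D.s0 / D.alp s)) * ‖W s‖ := by ring
          _ = D.h ^ 42 * (D.alp t / D.alp s) * ‖W s‖ := by rw [← hmul]
          _ ≤ D.h ^ 100 * (D.alp t / D.alp s) * ‖W s‖ := by
              gcongr
              norm_num

/-- The ratio of the core wave at `t ≥ t0`. -/
theorem core_ratio (hO2 : O2) {D : LevD} (h : D.HL) {W : ℝ → E3} (hW : D.Core W) {t : ℝ}
    (ht : t ∈ Icc D.t0 D.T) :
    0 < D.Y 1 W t ∧ |D.Z 1 W t - D.mc * D.Y 1 W t| ≤ 3 * D.eta * D.Y 1 W t := by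
  obtain ⟨hY, hZ⟩ := hO2 D h W hW
  obtain ⟨k1, k2⟩ := core_kel h hW
  exact h.toKin.ratio h.ck0sq k1 k2 hY hZ ht

end Pool.Agent.Work.MP_b0497c_an.Unf.O
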