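import Pool.Agent.Work.MP_b0497c_an.Unf.ONext
import Pool.Agent.Work.MP_b0497c_an.Unf.KOne
import Pool.Agent.Work.MP_b0497c_an.Unf.FarS
import Pool.Agent.Work.MP_b0497c_an.Unf.OLab

set_option autoImplicit false

/-!
# T1c: crude bounds of the layers
-/

open Set ContinuousLinearMap RealInnerProductSpace

namespace Pool.Agent.Work.MP_b0497c_an.Unf.O

open Forced.Ode (Op ro)
open Fam K

namespace LevD

namespace T1cAux

variable {D : LevD}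

theorem axial_le (A : Op) : ‖axial A‖ ≤ 3 * ‖A‖ := by
  have h1 : ∀ i : Fin 3, ‖cx (axial A) (EuclideanSpace.single i (1:ℝ))‖ ≤ 2 * ‖A‖ := by
    intro i
    rw [← skew_vec]
    have h2 : ‖(EuclideanSpace.single i (1:ℝ) : E3)‖ = 1 := by simp
    have h3 := A.le_opNorm (EuclideanSpace.single i (1:ℝ) : E3)
    have h4 := adj_le A (EuclideanSpace.single i (1:ℝ) : E3)
    rw [h2, mul_one] at h3 h4
    exact (norm_sub_le _ _).trans (by linarith)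
  have h5 : ∀ i : Fin 3, ‖cx (axial A) (EuclideanSpace.single i (1:ℝ))‖ ^ 2 =
      ‖axial A‖ ^ 2 - (axial A i) ^ 2 := by
    intro i
    rw [norm_cx_sq]
    simp [EuclideanSpace.inner_single_right]
  have h6 : ‖axial A‖ ^ 2 = (axial A 0) ^ 2 + (axial A 1) ^ 2 + (axial A 2) ^ 2 := by
    rw [EuclideanSpace.norm_sq_eq, Fin.sum_univ_three]
    simp
  have h7 : ∀ i : Fin 3, ‖axial A‖ ^ 2 - (axial A i) ^ 2 ≤ (2 * ‖A‖) ^ 2 := by
    intro i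
    rw [← h5 i]
    exact pow_le_pow_left₀ (norm_nonneg _) (h1 i) 2
  have h8 := h7 0
  have h9 := h7 1
  have h10 := h7 2
  have hA := norm_nonneg A
  have hx := norm_nonneg (axial A)
  nlinarith

theorem Dv_le (h : D.HL) {t : ℝ} (ht : t ∈ Icc 0 D.T) : ‖D.Dv t‖ ≤ 2 * D.b ^ 5 * D.a := by
  have hb := h.bpos
  have hb1 := h.b1
  have ha := h.a_pos
  have hs := h.s_pos
  have h0 : (0:ℝ) ∈ Icc 0 D.T := ⟨le_rfl, h.T_pos.le⟩
  have hs1 : ‖(D.s)⁻¹‖ ≤ D.b := by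
    rw [Real.norm_eq_abs, abs_of_pos (inv_pos.2 hs), inv_le_comm₀ hs hb]
    have := h.s_ge
    rwa [one_div] at this
  have e1 : ‖cx D.l (D.v 0)‖ ≤ D.b * (D.b * D.a) :=
    (norm_cx_le _ _).trans (mul_le_mul h.l_le (h.v_le 0 h0) (norm_nonneg _) hb.le)
  have e2 : ‖D.Fi t (cx (D.n t) (D.v t))‖ ≤ D.b * (D.b ^ 2 * (D.b * D.a)) := by
    refine (h.Fi_b ht _).trans (mul_le_mul_of_nonneg_left ?_ hb.le)
    exact (norm_cx_le _ _).trans (mul_le_mul (h.n_le ht) (h.v_le t ht) (norm_nonneg _)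
      (by positivity))
  unfold Dv
  rw [norm_smul]
  refine (mul_le_mul hs1 ((norm_sub_le _ _).trans (add_le_add e1 e2)) (norm_nonneg _)
    hb.le).trans ?_
  have h3 : D.b ^ 3 * D.a ≤ D.b ^ 5 * D.a :=
    mul_le_mul_of_nonneg_right (pow_le_pow_right₀ hb1 (by norm_num)) ha.le
  calc D.b * (D.b * (D.b * D.a) + D.b * (D.b ^ 2 * (D.b * D.a)))
      = D.b ^ 3 * D.a + D.b ^ 5 * D.a := by ring
    _ ≤ 2 * D.b ^ 5 * D.a := by linarith

/-- powers of `b` times `a` against `h ^ 26` -/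
theorem a26 (h : D.HL) {c : ℝ} {k : ℕ} (hc : c ≤ 10 ^ 3) (hk : k ≤ 100) :
    c * D.b ^ k * D.a ≤ D.h ^ 26 := by
  have hb := h.bpos
  have ha := h.a_pos
  have h1 : c * D.b ^ k ≤ D.h := by
    have h2 := h.toKin.ten_le (k := k) (m := 3) (by omega)
    have h3 : 0 < D.b ^ k := by positivity
    nlinarith
  have hh := h.h1
  have h4 : D.h ≤ D.h ^ 2 := by nlinarith
  calc c * D.b ^ k * D.a ≤ D.h ^ 2 * D.a := by
        gcongr
        exact h1.trans h4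
    _ = D.h ^ 26 := by unfold a; ring

theorem ro_one_le (h : D.HL) {al : ℝ} (hal : al ∈ Icc (-1 : ℝ) 1) {t : ℝ} (ht : t ∈ Icc 0 D.T) :
    ‖al • Forced.Ode.ro (D.Dv t) D.l‖ ≤ 2 * D.b ^ 6 * D.a := by
  have hb := h.bpos
  have ha := h.a_pos
  rw [norm_smul]
  have h1 : ‖al‖ ≤ 1 := by
    rw [Real.norm_eq_abs]
    exact abs_le.2 hal
  have h2 : ‖Forced.Ode.ro (D.Dv t) D.l‖ ≤ 2 * D.b ^ 5 * D.a * D.b :=
    (norm_ro_le _ _).trans (mul_le_mul (Dv_le h ht) h.l_le (norm_nonneg _) (by positivity))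
  calc ‖al‖ * ‖Forced.Ode.ro (D.Dv t) D.l‖ ≤ 1 * (2 * D.b ^ 5 * D.a * D.b) := by gcongr
    _ = _ := by ring

theorem ba1 (h : D.HL) : 1 ≤ D.b ^ 6 * D.a := by
  have h1 : 1 ≤ D.b ^ 6 := one_le_pow₀ h.b1
  have h2 := h.toKin.a_one
  nlinarith

theorem F1_le (h : D.HL) {al : ℝ} (hal : al ∈ Icc (-1 : ℝ) 1) {t : ℝ} (ht : t ∈ Icc 0 D.T) :
    ‖D.F1 al t‖ ≤ D.h ^ 26 := by
  have hb := h.bpos
  have h1 := ro_one_le h hal ht
  have h2 : ‖ContinuousLinearMap.id ℝ E3 + al • Forced.Ode.ro (D.Dv t) D.l‖ ≤ 3 * D.b ^ 6 * D.a := by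
    refine (norm_add_le _ _).trans ?_
    have h3 : ‖ContinuousLinearMap.id ℝ E3‖ ≤ 1 := ContinuousLinearMap.norm_id_le
    have := ba1 h
    linarith
  unfold F1
  refine (ContinuousLinearMap.opNorm_comp_le _ _).trans ?_
  refine (mul_le_mul (h.F_le t ht).1 h2 (norm_nonneg _) hb.le).trans ?_
  calc D.b * (3 * D.b ^ 6 * D.a) = 3 * D.b ^ 7 * D.a := by ring
    _ ≤ D.h ^ 26 := a26 h (by norm_num) (by norm_num)

theorem Fi1_le (h : D.HL) {al : ℝ} (hal : al ∈ Icc (-1 : ℝ) 1) {t : ℝ} (ht : t ∈ Icc 0 D.T) :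
    ‖D.Fi1 al t‖ ≤ D.h ^ 26 := by
  have hb := h.bpos
  have ha := h.a_pos
  have h1 := ro_one_le h hal ht
  have h2 : ‖ContinuousLinearMap.id ℝ E3 - al • Forced.Ode.ro (D.Dv t) D.l‖ ≤ 3 * D.b ^ 6 * D.a := by
    refine (norm_sub_le _ _).trans ?_
    have h3 : ‖ContinuousLinearMap.id ℝ E3‖ ≤ 1 := ContinuousLinearMap.norm_id_le
    have := ba1 h
    linarith
  unfold Fi1
  refine (ContinuousLinearMap.opNorm_comp_le _ _).trans ?_
  refine (mul_le_mul h2 (h.F_le t ht).2 (norm_nonneg _) (by positivity)).trans ?_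
  calc 3 * D.b ^ 6 * D.a * D.b = 3 * D.b ^ 7 * D.a := by ring
    _ ≤ D.h ^ 26 := a26 h (by norm_num) (by norm_num)

theorem Om_le' (h : D.HL) : ‖D.Om‖ ≤ 3 * D.b := by
  have h0 : (0:ℝ) ∈ Icc 0 D.T := ⟨le_rfl, h.T_pos.le⟩
  have h1 := h.VL 0 h0
  rw [h.F_zero] at h1
  have h2 : D.Om = axial (D.A 0) := by
    rw [h1]
    rfl
  rw [h2]
  exact (axial_le _).trans (mul_le_mul_of_nonneg_left (h.A_le 0) (by norm_num))

theorem Om1_le (h : D.HL) {al : ℝ} (hal : al ∈ Icc (-1 : ℝ) 1) : ‖D.Om1 al‖ ≤ D.h ^ 26 := by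
  have hb := h.bpos
  have hb1 := h.b1
  have ha := h.a_pos
  have ha1 := h.toKin.a_one
  have h0 : (0:ℝ) ∈ Icc 0 D.T := ⟨le_rfl, h.T_pos.le⟩
  have e1 : ‖cx D.l (D.v 0)‖ ≤ D.b * (D.b * D.a) :=
    (norm_cx_le _ _).trans (mul_le_mul h.l_le (h.v_le 0 h0) (norm_nonneg _) hb.le)
  have h1 : ‖al‖ ≤ 1 := by
    rw [Real.norm_eq_abs]
    exact abs_le.2 hal
  have e2 : ‖al • cx D.l (D.v 0)‖ ≤ D.b ^ 2 * D.a := by
    rw [norm_smul]
    calc ‖al‖ * ‖cx D.l (D.v 0)‖ ≤ 1 * (D.b * (D.b * D.a)) := by gcongr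
      _ = _ := by ring
  unfold Om1
  refine (norm_add_le _ _).trans ((add_le_add (Om_le' h) e2).trans ?_)
  have e3 : D.b ≤ D.b ^ 2 * D.a := by
    calc D.b = D.b * 1 * 1 := by ring
      _ ≤ D.b * D.b * D.a := by gcongr
      _ = _ := by ring
  calc 3 * D.b + D.b ^ 2 * D.a ≤ 4 * D.b ^ 2 * D.a := by linarith
    _ ≤ D.h ^ 26 := a26 h (by norm_num) (by norm_num)

theorem K_one (h : D.HL) {al : ℝ} (hal : al ∈ Icc (-1 : ℝ) 1) {t : ℝ} (ht : t ∈ Icc 0 D.T) :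
    1 ≤ ‖D.fam.K al t‖ := by
  have hb := h.bpos
  have hb1 := h.b1
  have hb10 := h.b10
  have hK : ∀ L : ℝ, 0 ≤ L → L ≤ D.fam.Sl al t → L * ‖D.n t‖ - ‖D.xi t‖ ≤ ‖D.fam.K al t‖ := by
    intro L hL0 hL
    have h1 : D.fam.K al t = D.fam.Sl al t • D.n t - (-D.xi t) := by
      unfold FamD.K
      show D.xi t + D.fam.Sl al t • D.n t = _
      abel
    rw [h1]
    have h2 := norm_sub_norm_le (D.fam.Sl al t • D.n t) (-D.xi t)
    rw [norm_smul, norm_neg, Real.norm_eq_abs, abs_of_nonneg (hL0.trans hL)] at h2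
    have h3 : L * ‖D.n t‖ ≤ D.fam.Sl al t * ‖D.n t‖ :=
      mul_le_mul_of_nonneg_right hL (norm_nonneg _)
    linarith
  rcases le_total D.s0 t with hst | hst
  · have hI : t ∈ D.Iw := ⟨hst, ht.2⟩
    have hnr := h.toKin.nr hI
    have hu := h.toFlo.uu_le hnr
    have hu0 := h.toFlo.uu_nonneg t
    have h1 := h.toKin.Sl_big hal.2 hI
    have h2 := hK 9900 (by norm_num) h1
    have h3 := h.toFlo.n_lo hnr
    have h4 := h.toFlo.xi_up hnr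
    linarith
  · rw [h.toKin.s0_eq] at hst
    have hI : t ∈ Icc 0 (D.t0 - D.w) := ⟨ht.1, hst⟩
    have hal' : |al| ≤ 1 := abs_le.2 hal
    have h1 := h.lam_ge h.far hal' (h.far_mem hI)
    have h2 := h.far_ar hI
    have hk0 := h.toKin.k0_pos
    have hh := h.h1
    have h5 : D.h / (4 * D.b) ≤ D.fam.Sl al t := by
      refine le_trans ?_ h1
      have h6 : D.h / (4 * D.b) ≤ D.a * (D.t0 - t) ^ 2 / (4 * D.b) := by
        apply div_le_div_of_nonneg_right _ (by positivity)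
        exact (le_self_pow₀ hh (by norm_num)).trans h2
      linarith
    have h7 := hK _ (by positivity) h5
    have h8 := h.n_ge ht
    have h9 := h.xi_le ht
    have h10 : 8 * D.b ^ 5 ≤ D.h := by
      have := h.toKin.ten_le (k := 5) (m := 1) (by norm_num)
      have : 0 < D.b ^ 5 := by positivity
      nlinarith
    have h11 : 2 * D.b ^ 4 ≤ D.h / (4 * D.b) := by
      rw [le_div_iff₀ (by positivity)]
      calc 2 * D.b ^ 4 * (4 * D.b) = 8 * D.b ^ 5 := by ring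
        _ ≤ D.h := h10
    have h12 : 2 * D.b ^ 2 ≤ D.h / (4 * D.b) * ‖D.n t‖ := by
      calc 2 * D.b ^ 2 = 2 * D.b ^ 2 * 1 := by ring
        _ ≤ 2 * D.b ^ 2 * (D.b ^ 2 * ‖D.n t‖) := by gcongr
        _ = 2 * D.b ^ 4 * ‖D.n t‖ := by ring
        _ ≤ D.h / (4 * D.b) * ‖D.n t‖ := by gcongr
    have h13 : 1 ≤ D.b ^ 2 := one_le_pow₀ hb1
    linarith

theorem Kn_eq (h : D.HL) (al : ℝ) : D.fam.K al 0 = D.Kn := by
  have h1 : D.fam.Sl al 0 = D.X := by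
    rw [Flo.lam_eq]
    simp
  have h2 : D.fam.K al 0 = D.xi 0 + D.fam.Sl al 0 • D.n 0 := rfl
  rw [h2, h1, Lb.xi_zero h.toFlo, Lb.n_zero h.toFlo]
  rfl

/-- lower bound of `Kn · l` -/
theorem Knl_ge (h : D.HL) : D.b ^ 3 ≤ ⟪D.Kn, D.l⟫ := by
  have hb := h.bpos
  have hb1 := h.b1
  have ha := h.a_pos
  have hs := h.s_pos
  have hf0 := abs_le.1 h.far.f0
  have hk0 := h.toKin.k0_pos
  have ha10 : 10 * D.b ^ 100 ≤ D.a := by
    have h1 := h.toKin.ten_le (k := 100) (m := 1) (by norm_num)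
    have h2 : D.h ≤ D.a := le_self_pow₀ h.h1 (by norm_num)
    linarith
  have hb100 : 1 ≤ D.b ^ 100 := one_le_pow₀ hb1
  have hg : D.a / (2 * D.b) ≤ (D.a - D.f 0) / D.s := by
    rw [div_le_div_iff₀ (by positivity) hs]
    have h3 : D.a / 2 ≤ D.a - D.f 0 := by linarith
    calc D.a * D.s ≤ D.a * D.b := by gcongr; exact h.s_le
      _ = (D.a / 2) * (2 * D.b) := by ring
      _ ≤ (D.a - D.f 0) * (2 * D.b) := by gcongr
  have hX : D.a / (2 * D.b) ≤ D.X := by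
    unfold X
    linarith
  have hl := h.l_ge
  have hl2 : 1 ≤ D.b ^ 2 * ‖D.l‖ ^ 2 := by
    have h4 : 0 ≤ D.b * ‖D.l‖ := by positivity
    nlinarith
  have hK0 := h.K0_le
  have hll := h.l_le
  have h5 : -(D.b * D.b) ≤ ⟪D.K0, D.l⟫ := by
    have h6 := abs_real_inner_le_norm D.K0 D.l
    have h7 : ‖D.K0‖ * ‖D.l‖ ≤ D.b * D.b := mul_le_mul hK0 hll (norm_nonneg _) hb.le
    have h8 := neg_abs_le ⟪D.K0, D.l⟫
    linarith
  have h9 : D.a / (2 * D.b ^ 3) ≤ D.X * ‖D.l‖ ^ 2 := by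
    calc D.a / (2 * D.b ^ 3) = D.a / (2 * D.b) * (D.b ^ 2)⁻¹ := by field_simp
      _ ≤ D.a / (2 * D.b) * ‖D.l‖ ^ 2 := by
        gcongr
        rw [inv_le_iff_one_le_mul₀ (by positivity)]
        linarith
      _ ≤ D.X * ‖D.l‖ ^ 2 := by gcongr
  have h10 : ⟪D.Kn, D.l⟫ = ⟪D.K0, D.l⟫ + D.X * ‖D.l‖ ^ 2 := by
    unfold Kn
    rw [inner_add_left, inner_smul_left, real_inner_self_eq_norm_sq]
    simp
  have h11 : D.b ^ 3 + D.b * D.b ≤ D.a / (2 * D.b ^ 3) := by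
    rw [le_div_iff₀ (by positivity)]
    have h12 : (D.b ^ 3 + D.b * D.b) * (2 * D.b ^ 3) = 2 * D.b ^ 6 + 2 * D.b ^ 5 := by ring
    rw [h12]
    have h13 : D.b ^ 6 ≤ D.b ^ 100 := pow_le_pow_right₀ hb1 (by norm_num)
    have h14 : D.b ^ 5 ≤ D.b ^ 100 := pow_le_pow_right₀ hb1 (by norm_num)
    linarith
  linarith

theorem v0_pos (h : D.HL) : 0 < ‖D.v 0‖ := by
  have h0 : (0:ℝ) ∈ Icc 0 D.T := ⟨le_rfl, h.T_pos.le⟩
  have h1 := (h.v_size 0 h0).1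
  have h2 : 0 < (D.b)⁻¹ := inv_pos.2 h.bpos
  by_contra hcon
  have h3 : ‖D.v 0‖ = 0 := le_antisymm (not_lt.1 hcon) (norm_nonneg _)
  rw [h3, zero_div, zero_mul] at h1
  linarith

end T1cAux

open T1cAux in
theorem t1c : T1c := by
  intro D h al hal t ht
  have hb := h.bpos
  have hb1 := h.b1
  have hb10 := h.b10
  have h0 : (0:ℝ) ∈ Icc 0 D.T := ⟨le_rfl, h.T_pos.le⟩
  have hh := h.h1
  have hKn : ‖D.Kn‖ ≤ D.h ^ 26 := by
    rw [← Kn_eq h al]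
    exact (h.K_le hal h0).trans (a26 h (by norm_num) (by norm_num))
  have hKn1 : 1 ≤ ‖D.Kn‖ := by
    rw [← Kn_eq h al]
    exact K_one h hal h0
  have hKl := Knl_ge h
  have hb3 : (1000:ℝ) ≤ D.b ^ 3 := by
    calc (1000:ℝ) = 10 ^ 3 := by norm_num
      _ ≤ D.b ^ 3 := pow_le_pow_left₀ (by norm_num) hb10 3
  have hlv : ⟪D.l, D.v 0⟫ = 0 := by
    have h1 := h.v_orth 0
    rwa [Lb.n_zero h.toFlo] at h1
  have hlv' : ⟪D.v 0, D.l⟫ = 0 := by rw [real_inner_comm, hlv]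
  have hKv : ⟪D.Kn, D.v 0⟫ = ⟪D.K0, D.v 0⟫ := by
    unfold Kn
    rw [inner_add_left, inner_smul_left, hlv]
    simp
  have hKv' : |⟪D.Kn, D.v 0⟫| ≤ D.b * ‖D.v 0‖ := by
    rw [hKv]
    exact (abs_real_inner_le_norm _ _).trans (mul_le_mul_of_nonneg_right h.K0_le (norm_nonneg _))
  have hv0 := v0_pos h
  have hq : ‖(⟪D.Kn, D.v 0⟫ / ⟪D.Kn, D.l⟫) • D.l‖ ≤ ‖D.v 0‖ := by
    have hpos : 0 < ⟪D.Kn, D.l⟫ := by linarith
    rw [norm_smul, Real.norm_eq_abs, abs_div, abs_of_pos hpos]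
    rw [div_mul_eq_mul_div, div_le_iff₀ hpos]
    calc |⟪D.Kn, D.v 0⟫| * ‖D.l‖ ≤ (D.b * ‖D.v 0‖) * D.b :=
          mul_le_mul hKv' h.l_le (norm_nonneg _) (by positivity)
      _ = ‖D.v 0‖ * D.b ^ 2 := by ring
      _ ≤ ‖D.v 0‖ * D.b ^ 3 :=
          mul_le_mul_of_nonneg_left (pow_le_pow_right₀ hb1 (by norm_num)) (norm_nonneg _)
      _ ≤ ‖D.v 0‖ * ⟪D.Kn, D.l⟫ := by gcongr
  refine ⟨(h.M_le hal ht).trans (a26 h (by norm_num) (by norm_num)), F1_le h hal ht,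
    Fi1_le h hal ht, Om1_le h hal, (h.K_le hal ht).trans (a26 h (by norm_num) (by norm_num)),
    K_one h hal ht, hKn, ?_, ?_, ?_, ?_, hv0⟩
  · nlinarith
  · nlinarith
  · unfold seed
    refine (norm_sub_le _ _).trans ?_
    linarith
  · unfold seed
    have h1 : ‖D.v 0 - (⟪D.Kn, D.v 0⟫ / ⟪D.Kn, D.l⟫) • D.l‖ ^ 2 =
        ‖D.v 0‖ ^ 2 + ‖(⟪D.Kn, D.v 0⟫ / ⟪D.Kn, D.l⟫) • D.l‖ ^ 2 := by
      rw [norm_sub_sq_real, inner_smul_right, hlv']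
      ring
    have h2 : ‖D.v 0‖ ^ 2 ≤ ‖D.v 0 - (⟪D.Kn, D.v 0⟫ / ⟪D.Kn, D.l⟫) • D.l‖ ^ 2 := by
      rw [h1]
      have := sq_nonneg ‖(⟪D.Kn, D.v 0⟫ / ⟪D.Kn, D.l⟫) • D.l‖
      linarith
    exact (sq_le_sq₀ (norm_nonneg _) (norm_nonneg _)).1 h2

end LevD

end Pool.Agent.Work.MP_b0497c_an.Unf.O
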