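import Pool.Agent.Work.MP_b0497c_an.Bd.B19

set_option autoImplicit false

/-!
# Block O: T5, rotation rate, tilt and `s` of the next level
-/

open Set ContinuousLinearMap RealInnerProductSpace

namespace Pool.Agent.Work.MP_b0497c_an.Unf.O

open Forced.Ode (Op)
open Fam K

namespace LevD

namespace Tf

variable {D : LevD} {N : NextD}

/-- comparison of two bilinear expressions -/
theorem pair3 {x x' y y' : E3} {A A' : Op} {dx dy e L : ℝ} (hdx : 0 ≤ dx) (he : 0 ≤ e)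
    (hx : ‖x - x'‖ ≤ dx) (hx' : ‖x'‖ ≤ 1) (hA : ‖A‖ ≤ L) (hA' : ‖A'‖ ≤ L) (hAA : ‖A - A'‖ ≤ e)
    (hy : ‖y‖ ≤ 1) (hyy : ‖y - y'‖ ≤ dy) :
    |⟪x, A y⟫ - ⟪x', A' y'⟫| ≤ dx * L + e + L * dy := by
  have hL : 0 ≤ L := (norm_nonneg _).trans hA
  have e1 : ⟪x, A y⟫ - ⟪x', A' y'⟫ = ⟪x - x', A y⟫ + ⟪x', (A - A') y⟫ + ⟪x', A' (y - y')⟫ := by
    simp only [inner_sub_left, sub_apply, map_sub, inner_sub_right]
    ring
  have b1 : ‖A y‖ ≤ L := by
    calc ‖A y‖ ≤ ‖A‖ * ‖y‖ := A.le_opNorm _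
      _ ≤ L * 1 := mul_le_mul hA hy (norm_nonneg _) hL
      _ = L := mul_one _
  have b2 : |⟪x - x', A y⟫| ≤ dx * L :=
    (abs_real_inner_le_norm _ _).trans (mul_le_mul hx b1 (norm_nonneg _) hdx)
  have b3 : |⟪x', (A - A') y⟫| ≤ 1 * (e * 1) := by
    refine (abs_real_inner_le_norm _ _).trans (mul_le_mul hx' ?_ (norm_nonneg _) zero_le_one)
    exact ((A - A').le_opNorm _).trans (mul_le_mul hAA hy (norm_nonneg _) he)
  have b4 : |⟪x', A' (y - y')⟫| ≤ 1 * (L * dy) := by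
    refine (abs_real_inner_le_norm _ _).trans (mul_le_mul hx' ?_ (norm_nonneg _) zero_le_one)
    exact (A'.le_opNorm _).trans (mul_le_mul hA' hyy (norm_nonneg _) hL)
  rw [e1]
  refine (abs_add_le _ _).trans ((add_le_add ((abs_add_le _ _).trans (add_le_add b2 b3)) b4).trans ?_)
  linarith

theorem pair2 {x x' y y' : E3} {dx dy L : ℝ} (hL : 0 ≤ L)
    (hx : ‖x - x'‖ ≤ dx) (hx' : ‖x'‖ ≤ L) (hdx : 0 ≤ dx) (hy : ‖y‖ ≤ 1) (hyy : ‖y - y'‖ ≤ dy) :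
    |⟪x, y⟫ - ⟪x', y'⟫| ≤ dx + L * dy := by
  have e1 : ⟪x, y⟫ - ⟪x', y'⟫ = ⟪x - x', y⟫ + ⟪x', y - y'⟫ := by
    simp only [inner_sub_left, inner_sub_right]
    ring
  have b2 : |⟪x - x', y⟫| ≤ dx * 1 :=
    (abs_real_inner_le_norm _ _).trans (mul_le_mul hx hy (norm_nonneg _) hdx)
  have b3 : |⟪x', y - y'⟫| ≤ L * dy :=
    (abs_real_inner_le_norm _ _).trans (mul_le_mul hx' hyy (norm_nonneg _) hL)
  rw [e1]
  refine (abs_add_le _ _).trans ((add_le_add b2 b3).trans (by linarith))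

theorem norm_dir {x : E3} (hx : x ≠ 0) : ‖(‖x‖)⁻¹ • x‖ = 1 := by
  rw [norm_smul, norm_inv, norm_norm, inv_mul_cancel₀ (norm_ne_zero_iff.2 hx)]

/-! ### Numbers -/

theorem t1_Iw (h : D.HL) : D.t1 ∈ D.Iw := by
  have hk := h.toKin
  have h1 := hk.th_pos
  have h2 := hk.T_eq
  have h3 := hk.t0_Iw.1
  constructor
  · unfold t1
    linarith
  · rw [h2]
    unfold t1
    linarith

theorem t1_sub (D : LevD) : D.t1 - D.t0 = D.th := by
  unfold t1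
  ring

theorem lam_k2 (h : D.HL) :
    |D.lam1 D.t1 - (D.k0 + D.k2)| ≤ (D.h ^ 6)⁻¹ * D.k2 := by
  have hk := h.toKin
  have h1 := hk.toFlo.lam1_rel (hk.Iw_sub (t1_Iw h)) (hk.nr (t1_Iw h))
  have h2 : D.Lam D.t1 = D.k0 + D.k2 := by
    unfold Lam
    rw [t1_sub, hk.th_sq]
  rw [h2, t1_sub, hk.th_sq] at h1
  refine h1.trans (mul_le_mul_of_nonneg_right ?_ hk.k2_pos.le)
  refine (hk.er1_w (t1_Iw h)).trans ?_
  have h3 := hk.w_ro (k := 3) (m := 2) (by norm_num)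
  have h4 : 0 ≤ D.b ^ 3 * D.w := by
    have := hk.toFlo.b0
    have := hk.w_pos
    positivity
  unfold ro at h3
  nlinarith

theorem eta_ge (_h : D.HL) : D.k0 / D.k2 + 100 * D.c / D.k2 + (D.h)⁻¹ ≤ D.eta := by
  unfold eta
  have : 0 ≤ 100 / (D.k0 ^ 2 * Real.sqrt (D.c * D.k0)) :=
    div_nonneg (by norm_num) (mul_nonneg (by positivity) (Real.sqrt_nonneg _))
  linarith

theorem eta_h (h : D.HL) : (D.h)⁻¹ ≤ D.eta := by
  have h1 := eta_ge h
  have h2 := h.toKin.k0_pos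
  have h3 := h.toKin.k2_pos
  have h4 := h.flo.c_pos
  have : 0 ≤ D.k0 / D.k2 + 100 * D.c / D.k2 := by positivity
  linarith

theorem eta_k (h : D.HL) : D.k0 / D.k2 + (D.h)⁻¹ ≤ D.eta := by
  have h1 := eta_ge h
  have h3 := h.toKin.k2_pos
  have h4 := h.flo.c_pos
  have : 0 ≤ 100 * D.c / D.k2 := by positivity
  linarith

theorem eta_pos (h : D.HL) : 0 < D.eta :=
  lt_of_lt_of_le (inv_pos.2 h.flo.h_pos) (eta_h h)

theorem h_big4 (h : D.HL) : (10 : ℝ) ^ 10 ≤ D.h :=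
  le_trans (by norm_num) h.h_big

/-- `|lam - k2| ≤ eta k2` -/
theorem lam_near (h : D.HL) : |D.lam1 D.t1 - D.k2| ≤ D.eta * D.k2 := by
  have h1 := lam_k2 h
  have hk2 := h.toKin.k2_pos
  have hk0 := h.toKin.k0_pos
  have hh := h.flo.h_pos
  have h2 : (D.h ^ 6)⁻¹ ≤ (D.h)⁻¹ :=
    inv_anti₀ hh (le_self_pow₀ h.h_one' (by norm_num))
  have h3 := mul_le_mul_of_nonneg_right (eta_k h) hk2.le
  have h4 := mul_le_mul_of_nonneg_right h2 hk2.le
  have h5 : D.k0 / D.k2 * D.k2 = D.k0 := by field_simp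
  rw [add_mul, h5] at h3
  rw [abs_le] at h1 ⊢
  constructor <;> linarith

theorem lam_lo (h : D.HL) : 9999 / 10000 * D.k2 ≤ D.lam1 D.t1 := by
  have h1 := (abs_le.1 (lam_near h)).1
  have h2 := mul_le_mul_of_nonneg_right h.toKin.eta_le h.toKin.k2_pos.le
  linarith

theorem lam_up (h : D.HL) : D.lam1 D.t1 ≤ 10001 / 10000 * D.k2 := by
  have h1 := (abs_le.1 (lam_near h)).2
  have h2 := mul_le_mul_of_nonneg_right h.toKin.eta_le h.toKin.k2_pos.le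
  linarith

/-- the error of CL in terms of `eta` -/
theorem err_le (h : D.HL) :
    D.c / D.lam1 D.t1 + 1 / D.lam1 D.t1 ^ 2 + (D.h)⁻¹ ≤ D.eta := by
  have hk2 := h.toKin.k2_pos
  have hk0 := h.toKin.k0_pos
  have hc := h.flo.c_pos
  have h1 := lam_lo h
  have hl : 0 < D.lam1 D.t1 := by nlinarith
  have h2 : D.c / D.lam1 D.t1 ≤ 100 * D.c / D.k2 := by
    rw [div_le_div_iff₀ hl hk2]
    nlinarith
  have h3 : 1 / D.lam1 D.t1 ^ 2 ≤ D.k0 / D.k2 := by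
    rw [div_le_div_iff₀ (by positivity) hk2]
    have h4 : (1 / 2 * D.k2) ^ 2 ≤ D.lam1 D.t1 ^ 2 :=
      pow_le_pow_left₀ (by positivity) (by linarith) 2
    have h5 := h.toKin.k0_ge
    have h6 := h.toKin.k2_ge
    have h7 : 4 * D.k2 ≤ D.k0 * D.k2 ^ 2 := by nlinarith
    nlinarith
  have := eta_ge h
  linarith

/-- smallness of the comparison errors -/
theorem small (h : D.HL) (hS : D.So N) : (N.bp ^ 27)⁻¹ ≤ (D.h ^ 3)⁻¹ := by
  have hb := hS.bp_pos h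
  apply inv_anti₀ (pow_pos h.flo.h_pos 3)
  have h1 : D.h ^ 3 ≤ N.bp :=
    (pow_le_pow_right₀ h.h_one' (by norm_num)).trans hS.bp_ge
  refine h1.trans (le_self_pow₀ ?_ (by norm_num))
  exact le_trans (by norm_num) (hS.bp_big h)

/-! ### The next level at `t1` -/

theorem N_h_pos (h : D.HL) (hS : D.So N) : 0 < N.h := by
  have hb := hS.bp_pos h
  have h1 : 0 < N.b := lt_of_lt_of_le (by positivity) hS.b_ge
  exact lt_of_lt_of_le (by positivity) hS.h_ge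

theorem e1_eq (h : D.HL) (hS : D.So N) (hV : N.V D.t1 ≠ 0) :
    (D.next N).e1 = (‖N.V D.t1‖)⁻¹ • N.V D.t1 := by
  have h1 := N_h_pos h hS
  have h2 : 0 < ‖N.V D.t1‖ := norm_pos_iff.2 hV
  show (N.h ^ 24)⁻¹ • ((N.h ^ 24 / ‖N.V D.t1‖) • N.V D.t1) = _
  rw [smul_smul]
  congr 1
  field_simp

theorem e2_eq (D : LevD) (N : NextD) :
    (D.next N).e2 = (‖N.k D.t1‖)⁻¹ • N.k D.t1 := by
  show adjoint (N.Fi D.t1) ((‖N.k D.t1‖)⁻¹ • N.K) = _
  rw [map_smul]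
  rfl

theorem kap_eq (h : D.HL) (hS : D.So N) (hV : N.V D.t1 ≠ 0) :
    (D.next N).kap = ⟪(‖N.k D.t1‖)⁻¹ • N.k D.t1, N.A D.t1 ((‖N.V D.t1‖)⁻¹ • N.V D.t1)⟫ := by
  unfold kap
  rw [e1_eq h hS hV, e2_eq]
  rfl

theorem c_eq (h : D.HL) (hS : D.So N) (hV : N.V D.t1 ≠ 0) :
    (D.next N).c = ⟪cx ((‖N.V D.t1‖)⁻¹ • N.V D.t1) ((‖N.k D.t1‖)⁻¹ • N.k D.t1),
      N.A D.t1 ((‖N.V D.t1‖)⁻¹ • N.V D.t1)⟫ / (D.next N).kap := by
  unfold c e3
  rw [e1_eq h hS hV, e2_eq]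
  rfl

/-- the conserved number `- Om¹ · K` -/
theorem ze_eq (h : D.HL) :
    -⟪D.Om1 1, D.Kn⟫ = D.a + D.s * D.k0 - ⟪D.Om, D.K0⟫ := by
  have hs := h.flo.s_pos
  have hF0 : D.Fi 0 = ContinuousLinearMap.id ℝ E3 := by
    have h1 := h.flo.FiF 0
    rw [h.flo.F_zero] at h1
    simpa using h1
  have hf0 : D.f 0 = ⟪D.v 0, cx D.l D.K0⟫ := by
    unfold f B n xi
    rw [hF0, adj_id, adj_id]
  have h2 : ⟪cx D.l (D.v 0), D.K0⟫ = -D.f 0 := by
    rw [real_inner_comm, inner_cx_cyc, inner_cx_cyc, hf0, cx_swap, inner_neg_right]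
  have h3 : ⟪cx D.l (D.v 0), D.l⟫ = 0 := by
    rw [real_inner_comm, inner_cx_left]
  have h4 : ⟪D.Om, D.l⟫ = -D.s := by
    unfold s
    ring
  unfold Om1 Kn
  rw [one_smul, inner_add_left, inner_add_right, inner_add_right, inner_smul_right,
    inner_smul_right, h2, h3, h4]
  unfold X
  field_simp
  ring

/-- the constant `s` of the next level -/
theorem sPart (hc : T1c) (h : D.HL) (hS : D.So N) :
    |(D.next N).s * D.k2 - D.a| ≤ D.a / 10 := by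
  have hk := h.toKin
  have hIw := t1_Iw h
  have hT1 : D.t1 ∈ Icc 0 D.T := hk.Iw_sub hIw
  obtain ⟨-, -, -, cOm, -, cK1, -, -, -, -, -, -⟩ := hc D h 1 ⟨by norm_num, le_rfl⟩ D.t1 hT1
  have hb := hS.bp_pos h
  have hbig := hS.bp_big h
  have hh := h.flo.h_pos
  have hh1 := h.h_one'
  have hh10 := h_big4 h
  have hKp : 0 < ‖D.fam.K 1 D.t1‖ := by linarith
  have hk2 := hk.k2_pos
  have hlo := lam_lo h
  have hup := lam_up h
  have hl : 0 < D.lam1 D.t1 := by linarith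
  obtain ⟨q1, q2, q3, q4, q5, q6⟩ := cov_near hc h hS hT1
  set x := adjoint (N.Fi D.t1) ((‖N.K‖)⁻¹ • N.K) with hx
  set y := adjoint (D.Fi1 1 D.t1) ((‖D.Kn‖)⁻¹ • D.Kn) with hy
  set ε : ℝ := (N.bp ^ 30)⁻¹ with hεd
  have hε0 : 0 < ε := by positivity
  have h26 : 0 < D.h ^ 26 := by positivity
  have hyp : 0 < ‖y‖ := by
    by_contra h0
    have : ‖y‖ = 0 := le_antisymm (not_lt.1 h0) (norm_nonneg _)
    rw [this, mul_zero] at q2
    linarith
  have hy1 : (‖y‖)⁻¹ ≤ D.h ^ 26 := by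
    rw [inv_le_iff_one_le_mul₀ hyp]
    exact q2
  have hye : (D.h ^ 26)⁻¹ ≤ ‖y‖ := by
    rw [inv_le_iff_one_le_mul₀ h26]
    linarith
  have hxy : |‖x‖ - ‖y‖| ≤ 2 * D.h ^ 26 * ε := (abs_norm_sub_norm_le _ _).trans q1
  have hE : 2 * D.h ^ 26 * ε ≤ (D.h ^ 26)⁻¹ / 2 := by
    have h1 := hS.eps_le h (m := 60) (by norm_num)
    have h4 : (N.bp ^ 29)⁻¹ ≤ 1 := by
      apply inv_le_one_of_one_le₀
      exact one_le_pow₀ (le_trans (by norm_num) hbig)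
    rw [← hεd] at h1
    have h5 : D.h ^ 60 * ε ≤ 1 := h1.trans h4
    rw [inv_eq_one_div, div_div, le_div_iff₀ (by positivity)]
    calc 2 * D.h ^ 26 * ε * (D.h ^ 26 * 2) = 4 * D.h ^ 52 * ε := by ring
      _ ≤ D.h ^ 60 * ε := by
        apply mul_le_mul_of_nonneg_right _ hε0.le
        calc 4 * D.h ^ 52 ≤ D.h * D.h ^ 52 :=
              mul_le_mul_of_nonneg_right (by linarith) (by positivity)
          _ = D.h ^ 53 := by ring
          _ ≤ D.h ^ 60 := pow_le_pow_right₀ hh1 (by norm_num)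
      _ ≤ 1 := h5
  have hxp2 : (D.h ^ 26)⁻¹ / 2 ≤ ‖x‖ := by
    have := (abs_le.1 hxy).1
    linarith
  have hxp : 0 < ‖x‖ := lt_of_lt_of_le (by positivity) hxp2
  have hx1 : (‖x‖)⁻¹ ≤ 2 * D.h ^ 26 := by
    rw [inv_le_iff_one_le_mul₀ hxp]
    have h1 : 2 * D.h ^ 26 * ((D.h ^ 26)⁻¹ / 2) = 1 := by field_simp
    calc 1 = 2 * D.h ^ 26 * ((D.h ^ 26)⁻¹ / 2) := h1.symm
      _ ≤ 2 * D.h ^ 26 * ‖x‖ := by gcongr
  -- the two numbers
  set p : ℝ := -⟪N.Om, (‖N.K‖)⁻¹ • N.K⟫ with hp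
  set p' : ℝ := -⟪D.Om1 1, (‖D.Kn‖)⁻¹ • D.Kn⟫ with hp'
  have hpp : |p - p'| ≤ 2 * D.h ^ 26 * ε := by
    have h1 := pair2 (x := N.Om) (x' := D.Om1 1) (y := (‖N.K‖)⁻¹ • N.K)
      (y' := (‖D.Kn‖)⁻¹ • D.Kn) (dx := ε) (dy := ε) (L := D.h ^ 26) h26.le hS.Om_near cOm
      hε0.le (norm_dir hS.K_ne).le hS.K_near
    have h4 : p - p' = -(⟪N.Om, (‖N.K‖)⁻¹ • N.K⟫ - ⟪D.Om1 1, (‖D.Kn‖)⁻¹ • D.Kn⟫) := by
      rw [hp, hp']
      ring
    rw [h4, abs_neg]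
    refine h1.trans ?_
    have : ε ≤ D.h ^ 26 * ε := le_mul_of_one_le_left hε0.le (one_le_pow₀ hh1)
    linarith
  have hKn0 : D.Kn ≠ 0 := norm_pos_iff.1 q6
  have hp1 : |p'| ≤ D.h ^ 26 := by
    rw [hp', abs_neg]
    refine (abs_real_inner_le_norm _ _).trans ?_
    rw [norm_dir hKn0, mul_one]
    exact cOm
  have hsN : (D.next N).s = p * (‖x‖)⁻¹ := by
    show -⟪N.Om, (‖N.k D.t1‖)⁻¹ • N.K⟫ = _
    rw [q3, norm_smul, norm_norm, hp, real_inner_smul_right, real_inner_smul_right]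
    field_simp
  have hsm' : -⟪D.Om1 1, D.Kn⟫ / ‖D.fam.K 1 D.t1‖ = p' * (‖y‖)⁻¹ := by
    rw [q4, norm_smul, norm_norm, hp', real_inner_smul_right]
    field_simp
  have hdif : |(D.next N).s - p' * (‖y‖)⁻¹| ≤ 8 * D.h ^ 104 * ε := by
    have e1 : (D.next N).s - p' * (‖y‖)⁻¹ =
        (p - p') * (‖x‖)⁻¹ + p' * ((‖y‖ - ‖x‖) * ((‖x‖)⁻¹ * (‖y‖)⁻¹)) := by
      rw [hsN]
      field_simp
      ring
    have b1 : |(p - p') * (‖x‖)⁻¹| ≤ 2 * D.h ^ 26 * ε * (2 * D.h ^ 26) := by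
      rw [abs_mul, abs_of_pos (inv_pos.2 hxp)]
      exact mul_le_mul hpp hx1 (by positivity) (by positivity)
    have b2 : |p' * ((‖y‖ - ‖x‖) * ((‖x‖)⁻¹ * (‖y‖)⁻¹))| ≤
        D.h ^ 26 * (2 * D.h ^ 26 * ε * (2 * D.h ^ 26 * D.h ^ 26)) := by
      rw [abs_mul, abs_mul, abs_of_pos (by positivity : 0 < (‖x‖)⁻¹ * (‖y‖)⁻¹),
        abs_sub_comm ‖y‖]
      refine mul_le_mul hp1 ?_ (by positivity) h26.le
      refine mul_le_mul hxy ?_ (by positivity) (by positivity)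
      exact mul_le_mul hx1 hy1 (by positivity) (by positivity)
    rw [e1]
    refine (abs_add_le _ _).trans ((add_le_add b1 b2).trans ?_)
    have h52 : D.h ^ 52 ≤ D.h ^ 104 := pow_le_pow_right₀ hh1 (by norm_num)
    calc 2 * D.h ^ 26 * ε * (2 * D.h ^ 26) +
          D.h ^ 26 * (2 * D.h ^ 26 * ε * (2 * D.h ^ 26 * D.h ^ 26))
        = 4 * D.h ^ 52 * ε + 4 * D.h ^ 104 * ε := by ring
      _ ≤ 4 * D.h ^ 104 * ε + 4 * D.h ^ 104 * ε := by gcongr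
      _ = _ := by ring
  -- the model number
  have hze := ze_eq h
  have hcu := abs_le.1 h.flo.curl_le
  have hb0 := h.flo.b0
  have hb10 := h.flo.b_ge
  have ha24 : D.h * D.h ^ 23 = D.a := by
    unfold a
    ring
  have ha0 := h.flo.a_pos
  have hbh := h.toKin.pow_le (k := 2) (by norm_num)
  have hab : 10 ^ 10 * D.h ≤ D.a := by
    rw [← ha24, mul_comm]
    apply mul_le_mul_of_nonneg_left _ hh.le
    calc (10 : ℝ) ^ 10 ≤ D.h := hh10
      _ ≤ D.h ^ 23 := le_self_pow₀ hh1 (by norm_num)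
  have hbb : D.b ≤ D.b ^ 2 := le_self_pow₀ (by linarith) (by norm_num)
  have hsk : D.s * D.k0 ≤ D.b ^ 2 := by
    rw [sq]
    exact mul_le_mul h.flo.s_le hk.k0_le hk.k0_pos.le hb0.le
  have hsk0 : 0 ≤ D.s * D.k0 := mul_nonneg h.flo.s_pos.le hk.k0_pos.le
  set Z : ℝ := -⟪D.Om1 1, D.Kn⟫ with hZ
  have hZlo : 999 / 1000 * D.a ≤ Z := by
    rw [hze]
    linarith
  have hZup : Z ≤ 1001 / 1000 * D.a := by
    rw [hze]
    linarith
  -- the covector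
  have hnr := hk.nr hIw
  have huu := h.flo.uu_le hnr
  have n1 := h.flo.n_up hnr
  have n2 := h.flo.n_lo hnr
  have n3 := h.flo.xi_up hnr
  have hKeq : D.fam.K 1 D.t1 = D.xi D.t1 + D.lam1 D.t1 • D.n D.t1 := by
    show D.xi D.t1 + D.fam.Sl 1 D.t1 • D.n D.t1 = _
    rw [Sl_one]
  have hnl : ‖D.lam1 D.t1 • D.n D.t1‖ = D.lam1 D.t1 * ‖D.n D.t1‖ := by
    rw [norm_smul, Real.norm_eq_abs, abs_of_pos hl]
  have hKup : ‖D.fam.K 1 D.t1‖ ≤ 2 + D.lam1 D.t1 * (1001 / 1000) := by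
    rw [hKeq]
    refine (norm_add_le _ _).trans (add_le_add (by linarith) ?_)
    rw [hnl]
    exact mul_le_mul_of_nonneg_left (by linarith) hl.le
  have hKlo : D.lam1 D.t1 * (999 / 1000) - 2 ≤ ‖D.fam.K 1 D.t1‖ := by
    have h1 : ‖D.lam1 D.t1 • D.n D.t1‖ ≤ ‖D.fam.K 1 D.t1‖ + ‖D.xi D.t1‖ := by
      have e : D.lam1 D.t1 • D.n D.t1 = D.fam.K 1 D.t1 - D.xi D.t1 := by
        rw [hKeq]
        abel
      rw [e]
      exact norm_sub_le _ _
    rw [hnl] at h1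
    have h4 : D.lam1 D.t1 * (999 / 1000) ≤ D.lam1 D.t1 * ‖D.n D.t1‖ :=
      mul_le_mul_of_nonneg_left (by linarith) hl.le
    linarith
  have hk2b : 10 ^ 6 ≤ D.k2 := by
    have h1 := hk.ck2
    have h4 := h.flo.c_le
    have h5 := hk.ck0
    have h6 := hk.k0_ge
    have h7 := h.flo.c_pos
    by_contra hcon
    push Not at hcon
    have h8 : D.c * 10 ^ 4 ≤ 1 / 10 ^ 8 :=
      (mul_le_mul_of_nonneg_left h6 h7.le).trans h5
    have h9 : D.c * D.k2 ≤ D.c * 10 ^ 6 := mul_le_mul_of_nonneg_left hcon.le h7.le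
    linarith
  have hKup' : ‖D.fam.K 1 D.t1‖ ≤ 1002 / 1000 * D.k2 := by linarith
  have hKlo' : 998 / 1000 * D.k2 ≤ ‖D.fam.K 1 D.t1‖ := by linarith
  have hmod : |p' * (‖y‖)⁻¹ * D.k2 - D.a| ≤ D.a / 20 := by
    rw [← hsm', abs_le]
    have e1 : Z / ‖D.fam.K 1 D.t1‖ * D.k2 = Z * (D.k2 / ‖D.fam.K 1 D.t1‖) := by ring
    rw [e1]
    have r1 : D.k2 / ‖D.fam.K 1 D.t1‖ ≤ 1003 / 1000 := by
      rw [div_le_iff₀ hKp]
      linarith
    have r2 : 997 / 1000 ≤ D.k2 / ‖D.fam.K 1 D.t1‖ := by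
      rw [le_div_iff₀ hKp]
      linarith
    have r3 : Z * (D.k2 / ‖D.fam.K 1 D.t1‖) ≤ 1001 / 1000 * D.a * (1003 / 1000) :=
      mul_le_mul hZup r1 (by positivity) (by positivity)
    have r4 : 999 / 1000 * D.a * (997 / 1000) ≤ Z * (D.k2 / ‖D.fam.K 1 D.t1‖) :=
      mul_le_mul hZlo r2 (by norm_num) (by linarith [mul_pos (by norm_num : (0:ℝ) < 999 / 1000) ha0])
    constructor <;> linarith
  have hfin : |((D.next N).s - p' * (‖y‖)⁻¹) * D.k2| ≤ D.a / 20 := by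
    rw [abs_mul, abs_of_pos hk2]
    have h1 := hS.eps_le h (m := 106) (by norm_num)
    rw [← hεd] at h1
    have h4 : (N.bp ^ 29)⁻¹ ≤ 1 := by
      apply inv_le_one_of_one_le₀
      exact one_le_pow₀ (le_trans (by norm_num) hbig)
    calc |(D.next N).s - p' * (‖y‖)⁻¹| * D.k2 ≤ 8 * D.h ^ 104 * ε * D.h :=
          mul_le_mul hdif hk.k2_le hk2.le (by positivity)
      _ = 8 * D.h ^ 105 * ε := by ring
      _ ≤ D.h ^ 106 * ε := by
          apply mul_le_mul_of_nonneg_right _ hε0.le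
          rw [show D.h ^ 106 = D.h * D.h ^ 105 by ring]
          exact mul_le_mul_of_nonneg_right (by linarith) (by positivity)
      _ ≤ 1 := h1.trans h4
      _ ≤ D.a / 20 := by linarith
  have e3 : (D.next N).s * D.k2 - D.a = ((D.next N).s - p' * (‖y‖)⁻¹) * D.k2 +
      (p' * (‖y‖)⁻¹ * D.k2 - D.a) := by ring
  rw [e3]
  refine (abs_add_le _ _).trans ((add_le_add hfin hmod).trans (by linarith))

end Tf

open Tf in
/-- T5 of ONext from T1c, T2, T3, CL. -/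
theorem t5of : T1c → T2 → T3 → CL → T5 := by
  intro hc h2 h3 hCL D N h hS
  obtain ⟨W, hW, -⟩ := h2 D h
  have hk := h.toKin
  have hIw := t1_Iw h
  have hT1 : D.t1 ∈ Icc 0 D.T := hk.Iw_sub hIw
  have hth := hk.th_pos
  have h01 : D.t0 ≤ D.t1 := by unfold t1; linarith
  obtain ⟨hW1, hK, hC⟩ := hCL D h W hW D.t1 ⟨h01, hT1.2⟩
  obtain ⟨hVW, hkk⟩ := h3 D N h hS W hW D.t1 hT1
  obtain ⟨cM, -, -, cOm, -, cK1, -, -, -, -, -, -⟩ := hc D h 1 ⟨by norm_num, le_rfl⟩ D.t1 hT1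
  have hb := hS.bp_pos h
  have hbig := hS.bp_big h
  have hh := h.flo.h_pos
  have hh1 := h.h_one'
  have hh10 := h_big4 h
  set δ : ℝ := (N.bp ^ 28)⁻¹ with hδ
  have hδ0 : 0 < δ := by positivity
  have hδ1 : δ < 1 := by
    rw [hδ]
    apply inv_lt_one_of_one_lt₀
    exact one_lt_pow₀ (lt_of_lt_of_le (by norm_num) hbig) (by norm_num)
  have hWp : 0 < ‖W D.t1‖ := norm_pos_iff.2 hW1
  have hV : N.V D.t1 ≠ 0 := by
    intro h0
    rw [h0, zero_sub, norm_neg] at hVW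
    nlinarith
  have hKne : D.fam.K 1 D.t1 ≠ 0 := by
    intro h0
    rw [h0, norm_zero] at cK1
    linarith
  have hKp : 0 < ‖D.fam.K 1 D.t1‖ := norm_pos_iff.2 hKne
  -- the normalised waves
  have hVd : ‖(‖N.V D.t1‖)⁻¹ • N.V D.t1 - (‖W D.t1‖)⁻¹ • W D.t1‖ ≤ 2 * δ := by
    refine (dir_near hV hW1).trans ?_
    rw [div_le_iff₀ hWp]
    linarith
  have hNk : N.k D.t1 ≠ 0 := hS.k_ne D.t1
  have nV := norm_dir hV
  have nW := norm_dir hW1
  have nk := norm_dir hNk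
  have nK := norm_dir hKne
  set V' := (‖N.V D.t1‖)⁻¹ • N.V D.t1 with hV'
  set W' := (‖W D.t1‖)⁻¹ • W D.t1 with hW'
  set k' := (‖N.k D.t1‖)⁻¹ • N.k D.t1 with hk'
  set K' := (‖D.fam.K 1 D.t1‖)⁻¹ • D.fam.K 1 D.t1 with hK'
  have hA := hS.A_le D.t1
  have hAM := hS.A_near D.t1 hT1
  have hM27 : ‖D.fam.M 1 D.t1‖ ≤ D.h ^ 27 :=
    cM.trans (pow_le_pow_right₀ hh1 (by norm_num))
  have hε : (N.bp ^ 30)⁻¹ ≤ δ :=
    inv_anti₀ (by positivity) (pow_le_pow_right₀ (by linarith [show (1:ℝ) ≤ 10 ^ 200 by norm_num])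
      (by norm_num))
  have hsm : 6 * (D.h ^ 27 * δ) ≤ (N.bp ^ 27)⁻¹ := by
    refine le_trans ?_ (hS.eps28_le h (m := 28) (by norm_num))
    rw [← hδ]
    have : 6 * D.h ^ 27 ≤ D.h ^ 28 := by
      rw [show D.h ^ 28 = D.h * D.h ^ 27 by ring]
      exact mul_le_mul_of_nonneg_right (by linarith) (by positivity)
    nlinarith
  have h27 : 1 ≤ D.h ^ 27 := one_le_pow₀ hh1
  have hhδ : δ ≤ D.h ^ 27 * δ := le_mul_of_one_le_left hδ0.le h27
  -- kappa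
  have hkm : ⟪D.fam.K 1 D.t1, D.fam.M 1 D.t1 (W D.t1)⟫ / (‖D.fam.K 1 D.t1‖ * ‖W D.t1‖) =
      ⟪K', D.fam.M 1 D.t1 W'⟫ := by
    rw [hK', hW', map_smul, real_inner_smul_left, real_inner_smul_right]
    field_simp
  have hcm : ⟪cx (W D.t1) (D.fam.K 1 D.t1), D.fam.M 1 D.t1 (W D.t1)⟫ /
      (‖D.fam.K 1 D.t1‖ * ‖W D.t1‖ ^ 2) = ⟪cx W' K', D.fam.M 1 D.t1 W'⟫ := by
    rw [hK', hW', map_smul, cx_smul_left, cx_smul_right, real_inner_smul_left,
      real_inner_smul_left, real_inner_smul_right]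
    field_simp
  rw [hkm] at hK
  rw [hcm] at hC
  have hkap1 : |(D.next N).kap - ⟪K', D.fam.M 1 D.t1 W'⟫| ≤ (N.bp ^ 27)⁻¹ := by
    rw [kap_eq h hS hV]
    refine (pair3 hδ0.le (by positivity) hkk nK.le hA hM27 hAM nV.le hVd).trans ?_
    refine le_trans ?_ hsm
    nlinarith
  have hC1 : |⟪cx V' k', N.A D.t1 V'⟫ - ⟪cx W' K', D.fam.M 1 D.t1 W'⟫| ≤ (N.bp ^ 27)⁻¹ := by
    have hd : ‖cx V' k' - cx W' K'‖ ≤ 3 * δ := by
      have e : cx V' k' - cx W' K' = cx (V' - W') k' + cx W' (k' - K') := by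
        rw [cx_sub_right, sub_eq_add_neg V' W', cx_add_left, cx_neg_left]
        abel
      rw [e]
      have b1 := norm_cx_le (V' - W') k'
      have b2 := norm_cx_le W' (k' - K')
      rw [nk, mul_one] at b1
      rw [nW, one_mul] at b2
      exact (norm_add_le _ _).trans ((add_le_add (b1.trans hVd) (b2.trans hkk)).trans
        (by linarith))
    have hn : ‖cx W' K'‖ ≤ 1 := by
      have := norm_cx_le W' K'
      rwa [nW, nK, mul_one] at this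
    refine (pair3 (by positivity) (by positivity) hd hn hA hM27 hAM nV.le hVd).trans ?_
    refine le_trans ?_ hsm
    nlinarith
  have hη := eta_pos h
  have hη4 := hk.eta_le
  have hkp := h.flo.kap_pos
  have hkp1 := h.flo.kap_ge
  have hkp2 := h.flo.kap_le
  have hk2 := hk.k2_pos
  have hsmall := small h hS
  have hlo := lam_lo h
  have hup := lam_up h
  have hl : 0 < D.lam1 D.t1 := by nlinarith
  -- sizes
  have hηk : (D.h)⁻¹ / 2 ≤ D.eta * D.kap := by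
    have h1 := eta_h h
    have h4 : 0 < (D.h)⁻¹ := inv_pos.2 hh
    nlinarith
  have hς1 : (N.bp ^ 27)⁻¹ ≤ D.eta * D.kap := by
    refine hsmall.trans (le_trans ?_ hηk)
    rw [inv_eq_one_div, inv_eq_one_div, div_div, div_le_div_iff₀ (by positivity) (by positivity)]
    have : D.h ^ 3 = D.h * D.h * D.h := by ring
    nlinarith
  have hς2 : (N.bp ^ 27)⁻¹ * D.k2 ≤ D.eta * D.kap := by
    have h1 : (N.bp ^ 27)⁻¹ * D.k2 ≤ (D.h ^ 3)⁻¹ * D.h :=
      mul_le_mul hsmall hk.k2_le hk2.le (by positivity)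
    refine h1.trans (le_trans ?_ hηk)
    rw [inv_mul_eq_div, inv_eq_one_div, div_div, div_le_div_iff₀ (by positivity) (by positivity)]
    have : D.h ^ 3 = D.h * D.h * D.h := by ring
    rw [this]
    nlinarith [mul_pos hh hh]
  have hK2 : |⟪K', D.fam.M 1 D.t1 W'⟫ - D.kap| ≤ 50 * (D.eta * D.kap) := by
    refine hK.trans ?_
    have := mul_le_mul_of_nonneg_left (err_le h) (by positivity : 0 ≤ 50 * D.kap)
    linarith
  have hkap : |(D.next N).kap - D.kap| ≤ 51 * (D.eta * D.kap) := by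
    rw [abs_le] at hkap1 hK2 ⊢
    constructor <;> linarith
  have hkapge : 99 / 100 * D.kap ≤ (D.next N).kap := by
    have h1 := (abs_le.1 hkap).1
    have h4 : D.eta * D.kap ≤ 1 / 10 ^ 4 * D.kap := mul_le_mul_of_nonneg_right hη4 hkp.le
    linarith
  have hkap0 : 0 < (D.next N).kap := lt_of_lt_of_le (by positivity) hkapge
  refine ⟨?_, ?_, ?_⟩
  · refine hkap.trans ?_
    have : 0 < D.eta * D.kap := by positivity
    linarith
  · -- the tilt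
    have hce := c_eq h hS hV
    rw [← hV', ← hk'] at hce
    set Cp : ℝ := ⟪cx V' k', N.A D.t1 V'⟫ with hCp
    set Cm : ℝ := ⟪cx W' K', D.fam.M 1 D.t1 W'⟫ with hCm
    have e1 : (D.next N).c * D.k2 - 1 = (Cp * D.k2 - (D.next N).kap) / (D.next N).kap := by
      rw [hce]
      field_simp
    have e2 : Cp * D.k2 - (D.next N).kap = (Cp - Cm) * D.k2 + (Cm - D.kap / D.lam1 D.t1) * D.k2 +
        D.kap * ((D.k2 - D.lam1 D.t1) / D.lam1 D.t1) + (D.kap - (D.next N).kap) := by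
      field_simp
      ring
    have hr : D.k2 / D.lam1 D.t1 ≤ 1001 / 1000 := by
      rw [div_le_iff₀ hl]
      linarith
    have b1 : |(Cp - Cm) * D.k2| ≤ D.eta * D.kap := by
      rw [abs_mul, abs_of_pos hk2]
      exact (mul_le_mul_of_nonneg_right hC1 hk2.le).trans hς2
    have b2 : |(Cm - D.kap / D.lam1 D.t1) * D.k2| ≤ 50 * (1001 / 1000) * (D.eta * D.kap) := by
      rw [abs_mul, abs_of_pos hk2]
      refine (mul_le_mul_of_nonneg_right hC hk2.le).trans ?_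
      calc 50 * D.eta * (D.kap / D.lam1 D.t1) * D.k2
          = 50 * (D.eta * D.kap) * (D.k2 / D.lam1 D.t1) := by ring
        _ ≤ 50 * (D.eta * D.kap) * (1001 / 1000) := by gcongr
        _ = _ := by ring
    have b3 : |D.kap * ((D.k2 - D.lam1 D.t1) / D.lam1 D.t1)| ≤ 1001 / 1000 * (D.eta * D.kap) := by
      rw [abs_mul, abs_of_pos hkp, abs_div, abs_of_pos hl, abs_sub_comm]
      calc D.kap * (|D.lam1 D.t1 - D.k2| / D.lam1 D.t1)
          ≤ D.kap * (D.eta * D.k2 / D.lam1 D.t1) := by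
            gcongr
            exact lam_near h
        _ = D.eta * D.kap * (D.k2 / D.lam1 D.t1) := by ring
        _ ≤ D.eta * D.kap * (1001 / 1000) := by gcongr
        _ = _ := by ring
    have b4 : |D.kap - (D.next N).kap| ≤ 51 * (D.eta * D.kap) := by
      rw [abs_sub_comm]
      exact hkap
    have b5 : |Cp * D.k2 - (D.next N).kap| ≤ 104 * (D.eta * D.kap) := by
      have hp : 0 < D.eta * D.kap := by positivity
      rw [e2, abs_le]
      rw [abs_le] at b1 b2 b3 b4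
      constructor <;> linarith
    rw [e1, abs_div, abs_of_pos hkap0, div_le_iff₀ hkap0]
    refine b5.trans ?_
    have h5 := mul_le_mul_of_nonneg_left hkapge (by positivity : 0 ≤ 200 * D.eta)
    nlinarith [mul_pos hη hkp]
  · exact sPart hc h hS

end LevD

end Pool.Agent.Work.MP_b0497c_an.Unf.O
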