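import Pool.Agent.Work.MP_b0497c_an.Unf.DEnd

set_option autoImplicit false

/-!
# Block D: independence of unused wave vectors, the datum, the final statement
-/

open scoped ContDiff
open Set MeasureTheory Filter Topology RealInnerProductSpace

namespace Pool.Agent.Work.MP_b0497c_an.Unf.S

open W

theorem xi_congr {K K' : ℕ → Fin 3 → ℤ} {n : ℕ} (h : ∀ i ≤ n, K i = K' i) {q : Md}
    (hq : q ∈ lev n) : xi K q = xi K' q := by
  simp only [xi, Finsupp.sum]
  refine Finset.sum_congr rfl fun i hi => ?_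
  have h1 : i ≤ n := by
    by_contra hc
    push Not at hc
    rw [Finsupp.mem_support_iff] at hi
    exact hi (hq i hc)
  rw [h i h1]

/-- A level solution only depends on the wave vectors of its level. -/
theorem LevSol.congr_K {K K' : ℕ → Fin 3 → ℤ} {n : ℕ} {s c : ℝ} {x U A : ℝ → Md → C3}
    {r : ℝ → Md → ℂ} {F Fi M : ℝ → Md → Mat} (h : LevSol K n s c x U A r F Fi M)
    (hK : ∀ i ≤ n, K i = K' i) : LevSol K' n s c x U A r F Fi M where
  s_pos := h.s_pos
  c_pos := h.c_pos
  x_supp := h.x_supp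
  U_supp := h.U_supp
  A_supp := h.A_supp
  r_supp := h.r_supp
  x_fin := h.x_fin
  U_fin := h.U_fin
  A_fin := h.A_fin
  r_fin := h.r_fin
  F_fin := h.F_fin
  Fi_fin := h.Fi_fin
  M_fin := h.M_fin
  x_cm := h.x_cm
  U_cm := h.U_cm
  A_cm := h.A_cm
  x_der := h.x_der
  U_der := h.U_der
  x_zero := h.x_zero
  x_real := h.x_real
  F_eq := by
    intro t ht
    rw [h.F_eq t ht]
    congr 1
    funext q
    by_cases hq : q ∈ lev n
    · simp only [gradV, xi_congr hK hq]
    · simp only [gradV, h.x_supp t ht q hq]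
      ext v
      simp
  F_der := h.F_der
  tr_M := h.tr_M
  inv := h.inv
  mom := by
    intro t ht
    rw [h.mom t ht]
    congr 2
    funext q
    by_cases hq : q ∈ lev n
    · simp only [gradS, xi_congr hK hq]
    · simp only [gradS, h.r_supp t ht q hq]
      simp

/-- The velocity of the sum of the seeds is smooth. -/
theorem vecR_smooth {K : ℕ → Fin 3 → ℤ} {f : Md → C3}
    (hf : ∀ k : ℕ, Summable fun q => (1 + nx (xiZ K) q) ^ k * ‖f q‖) :
    ContDiff ℝ ∞ (vecR (xiZ K) f) := by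
  rw [contDiff_infty]
  intro k
  exact vecR_contDiff (xiZ K) k (hf k)

/-- Divergence free coefficients. -/
theorem vecR_div {K : ℕ → Fin 3 → ℤ} {f : Md → C3}
    (hf : Summable fun q => (1 + nx (xiZ K) q) ^ 1 * ‖f q‖)
    (hd : ∀ q, inner ℂ (xi K q) (f q) = 0) (y : E3) :
    LinearMap.trace ℝ E3 (fderiv ℝ (vecR (xiZ K) f) y : E3 →ₗ[ℝ] E3) = 0 := by
  have h1 := summable_nx (xiZ K) hf
  have h2 : fderiv ℝ (vecR (xiZ K) f) y = reM (ev (ph (xiZ K) y) (gradV K f)) := by
    rw [(vecR_hasFDerivAt (xiZ K) hf y).fderiv]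
    ext1 z
    rw [reM_apply, ev_gradV _ h1]
    rfl
  rw [h2, trace_reM, trace_ev _ (summable_gradV h1)]
  · simp
  · intro q
    rw [trace_C3, Fin.sum_univ_three]
    have h3 : ∀ j : Fin 3, (gradV K f q (EuclideanSpace.single j 1)) j
        = Complex.I * ((starRingEnd ℂ) (xi K q j) * f q j) := by
      intro j
      simp only [gradV, smul_apply, ContinuousLinearMap.smulRight_apply, innerSL_apply_apply,
        PiLp.smul_apply, smul_eq_mul]
      rw [EuclideanSpace.inner_single_right]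
      simp
    rw [h3, h3, h3]
    have h4 := hd q
    rw [PiLp.inner_apply, Fin.sum_univ_three] at h4
    simp only [RCLike.inner_apply] at h4
    linear_combination Complex.I * h4

/-- **Final statement of the construction**: a smooth divergence free datum on the torus for which
no classical solution exists on any time interval `[0,T')`, `T' > T`. -/
def Blowup : Prop := ∃ (T : ℝ) (u0 : E3 → E3), 0 < T ∧ ContDiff ℝ ∞ u0 ∧ Periodic3 u0 ∧
  (∀ y, LinearMap.trace ℝ E3 (fderiv ℝ u0 y : E3 →ₗ[ℝ] E3) = 0) ∧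
  ∀ T' > T, ¬ ∃ (v : ℝ → E3 → E3) (q : ℝ → E3 → ℝ),
    IsClassicalSolution T' v q ∧ ∀ y, v 0 y = u0 y

/-- What the construction has to deliver. -/
theorem blowup_of_levSeq {T : ℝ} (hT : 0 < T) {K : ℕ → Fin 3 → ℤ} {f : Md → C3}
    (hf : ∀ k : ℕ, Summable fun q => (1 + nx (xiZ K) q) ^ k * ‖f q‖)
    (hd : ∀ q, inner ℂ (xi K q) (f q) = 0) (L : LevSeq T (vecR (xiZ K) f)) : Blowup := by
  refine ⟨T, vecR (xiZ K) f, hT, vecR_smooth hf, vecR_periodic _ _, vecR_div (hf 1) hd, ?_⟩
  rintro T' hT' ⟨v, q, hv, h0⟩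
  exact no_solution_levels L hT' hv h0

end Pool.Agent.Work.MP_b0497c_an.Unf.S
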