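import Pool.Agent.Work.MP_b0497c_an.Unf.ADefs
import Pool.Agent.Work.MP_b0497c_an.Unf.DFinal
import Pool.Agent.Work.MP_b0497c_an.Unf.SAlg

set_option autoImplicit false

/-!
# Item A7, part 1: from the chain of exact levels to the conclusion
-/

open scoped ENNReal
open Set MeasureTheory Filter Topology RealInnerProductSpace

namespace Pool.Agent.Work.MP_b0497c_an.Unf.A

open W S

/-! ### Restriction in time -/

theorem Nrm_mono_T {E : Type} [NormedAddCommGroup E] {s s' c : ℝ} {ρ : ℝ → ℝ}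
    {f : ℝ → Md → E} (h : s' ≤ s) : Nrm s' c 0 ρ f ≤ Nrm s c 0 ρ f := by
  unfold Nrm
  refine ENNReal.tsum_le_tsum fun m => ?_
  exact biSup_mono (fun t ht => ⟨ht.1, ht.2.trans h⟩)

theorem levSol_restrict {K : ℕ → Fin 3 → ℤ} {n : ℕ} {s s' c : ℝ} {x U A : ℝ → Md → C3}
    {r : ℝ → Md → ℂ} {F Fi M : ℝ → Md → Mat} (h : LevSol K n s c x U A r F Fi M)
    (h0 : 0 < s') (hs : s' ≤ s) : LevSol K n s' c x U A r F Fi M := by
  have hI : ∀ t, t ∈ Icc 0 s' → t ∈ Icc 0 s := fun t ht => ⟨ht.1, ht.2.trans hs⟩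
  have hII : Icc 0 s' ⊆ Icc 0 s := hI
  exact
  { s_pos := h0
    c_pos := h.c_pos
    x_supp := fun t ht => h.x_supp t (hI t ht)
    U_supp := fun t ht => h.U_supp t (hI t ht)
    A_supp := fun t ht => h.A_supp t (hI t ht)
    r_supp := fun t ht => h.r_supp t (hI t ht)
    x_fin := ne_top_of_le_ne_top h.x_fin (Nrm_mono_T hs)
    U_fin := ne_top_of_le_ne_top h.U_fin (Nrm_mono_T hs)
    A_fin := ne_top_of_le_ne_top h.A_fin (Nrm_mono_T hs)
    r_fin := ne_top_of_le_ne_top h.r_fin (Nrm_mono_T hs)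
    F_fin := ne_top_of_le_ne_top h.F_fin (Nrm_mono_T hs)
    Fi_fin := ne_top_of_le_ne_top h.Fi_fin (Nrm_mono_T hs)
    M_fin := ne_top_of_le_ne_top h.M_fin (Nrm_mono_T hs)
    x_cm := fun q => (h.x_cm q).mono hII
    U_cm := fun q => (h.U_cm q).mono hII
    A_cm := fun q => (h.A_cm q).mono hII
    x_der := fun q t ht => (h.x_der q t (hI t ht)).mono hII
    U_der := fun q t ht => (h.U_der q t (hI t ht)).mono hII
    x_zero := h.x_zero
    x_real := fun t ht => h.x_real t (hI t ht)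
    F_eq := fun t ht => h.F_eq t (hI t ht)
    F_der := fun q t ht => (h.F_der q t (hI t ht)).mono hII
    tr_M := fun t ht => h.tr_M t (hI t ht)
    inv := fun t ht => h.inv t (hI t ht)
    mom := fun t ht => h.mom t (hI t ht) }

/-! ### Sums with weights -/

section static

variable {E : Type} [NormedAddCommGroup E] [NormedSpace ℂ E]

/-- The sum with the weight of the radius `r` is at most `R`. -/
structure WS (r R : ℝ) (f : Md → E) : Prop where
  sum : Summable fun q => Real.exp (r * len q) * ‖f q‖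
  le : ∑' q, Real.exp (r * len q) * ‖f q‖ ≤ R

theorem ws_of_Nrm {T r R : ℝ} {f : ℝ → Md → E} (hR : 0 ≤ R)
    (hf : Nrm T r 0 (fun _ => 1) f ≤ ENNReal.ofReal R) {t : ℝ} (ht : t ∈ Icc 0 T) :
    WS r R (f t) := by
  have hfin : Nrm T r 0 (fun _ => 1) f ≠ ∞ := ne_top_of_le_ne_top ENNReal.ofReal_ne_top hf
  obtain ⟨u, hu, hu0, hub, hb⟩ := bound_of_Nrm hfin
  have hub' : ∑' q, u q ≤ R := by
    refine hub.trans ?_
    have := ENNReal.toReal_mono ENNReal.ofReal_ne_top hf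
    rwa [ENNReal.toReal_ofReal hR] at this
  have hs : Summable fun q => Real.exp (r * len q) * ‖f t q‖ :=
    Summable.of_nonneg_of_le (fun q => by positivity) (hb t ht) hu
  exact ⟨hs, (hs.tsum_le_tsum (hb t ht) hu).trans hub'⟩

omit [NormedSpace ℂ E] in
theorem WS.sum0 {r R : ℝ} {f : Md → E} (h : WS r R f) (hr : 0 ≤ r) : Summable fun q => ‖f q‖ := by
  refine Summable.of_nonneg_of_le (fun _ => norm_nonneg _) (fun q => ?_) h.sum
  refine le_mul_of_one_le_left (norm_nonneg _) ?_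
  rw [← Real.exp_zero]
  exact Real.exp_le_exp.mpr (mul_nonneg hr (len_nonneg q))

omit [NormedSpace ℂ E] in
theorem WS.tsum0 {r R : ℝ} {f : Md → E} (h : WS r R f) (hr : 0 ≤ r) : ∑' q, ‖f q‖ ≤ R := by
  refine ((h.sum0 hr).tsum_le_tsum (fun q => ?_) h.sum).trans h.le
  refine le_mul_of_one_le_left (norm_nonneg _) ?_
  rw [← Real.exp_zero]
  exact Real.exp_le_exp.mpr (mul_nonneg hr (len_nonneg q))

theorem WS.ev_le {r R : ℝ} {f : Md → E} (h : WS r R f) (hr : 0 ≤ r) (θ : Md →+ ℝ) :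
    ‖ev θ f‖ ≤ R := (norm_ev_le θ (h.sum0 hr)).trans (h.tsum0 hr)

theorem WS.ev_lip [CompleteSpace E] {K : ℕ → Fin 3 → ℤ} {l : ℕ} {κ r R : ℝ} (hr : 0 < r)
    (hκ0 : 0 ≤ κ)
    (hκ : ∀ i ≤ l, |(K i 0 : ℝ)| + |(K i 1 : ℝ)| + |(K i 2 : ℝ)| ≤ κ)
    {f : Md → E} (hs : SuppIn (lev l : Set Md) f) (h : WS r R f) (y : E3) :
    ‖ev (ph (xiZ K) y) f - ev (ph (xiZ K) 0) f‖ ≤ κ / r * R * ‖y‖ := by
  have s1 := summable_ch (ph (xiZ K) y) (h.sum0 hr.le)
  have s0 := summable_ch (ph (xiZ K) 0) (h.sum0 hr.le)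
  have e1 : ev (ph (xiZ K) y) f - ev (ph (xiZ K) 0) f
      = ∑' q, (ch (ph (xiZ K) y) q - ch (ph (xiZ K) 0) q) • f q := by
    rw [ev, ev, ← s1.tsum_sub s0]
    simp only [sub_smul]
  have hb : ∀ q, ‖(ch (ph (xiZ K) y) q - ch (ph (xiZ K) 0) q) • f q‖
      ≤ (κ / r * ‖y‖) * (Real.exp (r * len q) * ‖f q‖) := by
    intro q
    by_cases hq : q ∈ lev l
    · have h1 : ‖ch (ph (xiZ K) y) q - ch (ph (xiZ K) 0) q‖ ≤ nx (xiZ K) q * ‖y‖ := by
        rw [ph_zero]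
        have h2 : ch (0 : Md →+ ℝ) q = 1 := by simp [ch]
        rw [h2, ch]
        refine (Real.norm_exp_I_mul_ofReal_sub_one_le).trans ?_
        rw [← phL_apply]
        exact (ContinuousLinearMap.le_opNorm _ y).trans
          (mul_le_mul_of_nonneg_right (phL_norm (xiZ K) q) (norm_nonneg _))
      have h2 := nx_le K l hκ q hq
      have h3 : r * len q ≤ Real.exp (r * len q) := by
        have := Real.add_one_le_exp (r * len q); linarith
      rw [norm_smul]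
      calc ‖ch (ph (xiZ K) y) q - ch (ph (xiZ K) 0) q‖ * ‖f q‖
          ≤ (κ * len q * ‖y‖) * ‖f q‖ := by
            refine mul_le_mul_of_nonneg_right (h1.trans ?_) (norm_nonneg _)
            exact mul_le_mul_of_nonneg_right h2 (norm_nonneg _)
        _ = (κ / r * ‖y‖) * ((r * len q) * ‖f q‖) := by field_simp
        _ ≤ (κ / r * ‖y‖) * (Real.exp (r * len q) * ‖f q‖) := by gcongr
    · rw [hs q hq, smul_zero, norm_zero, mul_zero, mul_zero]
  have hsum : Summable fun q => (κ / r * ‖y‖) * (Real.exp (r * len q) * ‖f q‖) :=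
    h.sum.mul_left _
  have hsum' : Summable fun q => ‖(ch (ph (xiZ K) y) q - ch (ph (xiZ K) 0) q) • f q‖ :=
    Summable.of_nonneg_of_le (fun _ => norm_nonneg _) hb hsum
  rw [e1]
  refine (norm_tsum_le_tsum_norm hsum').trans ((hsum'.tsum_le_tsum hb hsum).trans ?_)
  rw [tsum_mul_left]
  calc κ / r * ‖y‖ * ∑' q, Real.exp (r * len q) * ‖f q‖ ≤ κ / r * ‖y‖ * R := by
        gcongr
        exact h.le
    _ = κ / r * R * ‖y‖ := by ring

end static

theorem reM_norm_le (B : Mat) : ‖reM B‖ ≤ ‖B‖ := by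
  refine ContinuousLinearMap.opNorm_le_bound _ (norm_nonneg _) fun z => ?_
  rw [reM_apply]
  refine (reC_norm_le _).trans ((B.le_opNorm _).trans ?_)
  rw [ofC_norm]

theorem reM_sub (B B' : Mat) : reM (B - B') = reM B - reM B' := by
  ext1 z
  simp only [reM_apply, sub_apply, map_sub]

/-! ### Bounds of the particle map and of the velocity -/

section bounds

variable {K : ℕ → Fin 3 → ℤ} {T r R : ℝ} {l : ℕ} {X U A : ℝ → Md → C3} {p : ℝ → Md → ℂ}
  {F Fi M : ℝ → Md → Mat} {κ : ℝ}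

theorem DX_eq (h : LevSol K l T r X U A p F Fi M) (y : E3) {t : ℝ} (ht : t ∈ Icc 0 T) :
    fderiv ℝ (mapR (xiZ K) (X t)) y = reM (ev (ph (xiZ K) y) (F t)) := by
  ext1 z
  rw [reM_apply, h.ev_F y z ht, reC_ofC]

theorem DX_bd (h : LevSol K l T r X U A p F Fi M) (hR : 0 ≤ R)
    (hF : Nrm T r 0 (fun _ => 1) F ≤ ENNReal.ofReal R) (y : E3) {t : ℝ} (ht : t ∈ Icc 0 T) :
    ‖fderiv ℝ (mapR (xiZ K) (X t)) y‖ ≤ R := by
  rw [DX_eq h y ht]
  exact (reM_norm_le _).trans ((ws_of_Nrm hR hF ht).ev_le h.c_pos.le _)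

theorem DX_lip' (h : LevSol K l T r X U A p F Fi M) (hR : 0 ≤ R)
    (hF : Nrm T r 0 (fun _ => 1) F ≤ ENNReal.ofReal R) (hFs : SuppT T (lev l : Set Md) F)
    (hκ0 : 0 ≤ κ) (hκ : ∀ i ≤ l, |(K i 0 : ℝ)| + |(K i 1 : ℝ)| + |(K i 2 : ℝ)| ≤ κ)
    (y : E3) {t : ℝ} (ht : t ∈ Icc 0 T) :
    ‖fderiv ℝ (mapR (xiZ K) (X t)) y - fderiv ℝ (mapR (xiZ K) (X t)) 0‖ ≤ κ / r * R * ‖y‖ := by
  rw [DX_eq h y ht, DX_eq h 0 ht, ← reM_sub]
  exact (reM_norm_le _).trans ((ws_of_Nrm hR hF ht).ev_lip h.c_pos hκ0 hκ (hFs t ht) y)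

theorem DW_bd (h : LevSol K l T r X U A p F Fi M) (hR : 0 ≤ R)
    (hF : Nrm T r 0 (fun _ => 1) F ≤ ENNReal.ofReal R)
    (hM : Nrm T r 0 (fun _ => 1) M ≤ ENNReal.ofReal R) (y : E3) {t : ℝ} (ht : t ∈ Icc 0 T) :
    ‖fderiv ℝ (vecR (xiZ K) (U t)) y‖ ≤ R * R := by
  rw [h.DW_eq y ht]
  refine (ContinuousLinearMap.opNorm_comp_le _ _).trans ?_
  exact mul_le_mul ((reM_norm_le _).trans ((ws_of_Nrm hR hM ht).ev_le h.c_pos.le _))
    (DX_bd h hR hF y ht) (norm_nonneg _) hR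

theorem DW_lip' (h : LevSol K l T r X U A p F Fi M) (hR : 0 ≤ R)
    (hF : Nrm T r 0 (fun _ => 1) F ≤ ENNReal.ofReal R) (hFs : SuppT T (lev l : Set Md) F)
    (hM : Nrm T r 0 (fun _ => 1) M ≤ ENNReal.ofReal R) (hMs : SuppT T (lev l : Set Md) M)
    (hκ0 : 0 ≤ κ) (hκ : ∀ i ≤ l, |(K i 0 : ℝ)| + |(K i 1 : ℝ)| + |(K i 2 : ℝ)| ≤ κ)
    (y : E3) {t : ℝ} (ht : t ∈ Icc 0 T) :
    ‖fderiv ℝ (vecR (xiZ K) (U t)) y - fderiv ℝ (vecR (xiZ K) (U t)) 0‖
      ≤ 2 * (κ / r * R * R) * ‖y‖ := by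
  rw [h.DW_eq y ht, h.DW_eq 0 ht]
  set Fy := fderiv ℝ (mapR (xiZ K) (X t)) y
  set F0 := fderiv ℝ (mapR (xiZ K) (X t)) 0
  set My := reM (ev (ph (xiZ K) y) (M t)) with hMy
  set M0 := reM (ev (ph (xiZ K) 0) (M t)) with hM0
  have e1 : My.comp Fy - M0.comp F0 = (My - M0).comp Fy + M0.comp (Fy - F0) := by
    ext1 z
    simp
  have hM1 : ‖My - M0‖ ≤ κ / r * R * ‖y‖ := by
    rw [hMy, hM0, ← reM_sub]
    exact (reM_norm_le _).trans ((ws_of_Nrm hR hM ht).ev_lip h.c_pos hκ0 hκ (hMs t ht) y)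
  have hM2 : ‖M0‖ ≤ R := (reM_norm_le _).trans ((ws_of_Nrm hR hM ht).ev_le h.c_pos.le _)
  have hF1 : ‖Fy - F0‖ ≤ κ / r * R * ‖y‖ := DX_lip' h hR hF hFs hκ0 hκ y ht
  have hF2 : ‖Fy‖ ≤ R := DX_bd h hR hF y ht
  have hr := h.c_pos
  rw [e1]
  calc ‖(My - M0).comp Fy + M0.comp (Fy - F0)‖
      ≤ ‖My - M0‖ * ‖Fy‖ + ‖M0‖ * ‖Fy - F0‖ :=
        (norm_add_le _ _).trans (add_le_add (ContinuousLinearMap.opNorm_comp_le _ _)
          (ContinuousLinearMap.opNorm_comp_le _ _))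
    _ ≤ (κ / r * R * ‖y‖) * R + R * (κ / r * R * ‖y‖) := by gcongr
    _ = 2 * (κ / r * R * R) * ‖y‖ := by ring

end bounds

/-! ### The datum -/

/-- The limit of the data of the levels. -/
noncomputable def datF (C : Chain) (q : Md) : C3 := C.U (q.support.sup id) 0 q

theorem mem_lev_sup (q : Md) : q ∈ lev (q.support.sup id) := by
  intro i hi
  by_contra hc
  have h1 : i ∈ q.support := Finsupp.mem_support_iff.mpr hc
  have h2 : i ≤ q.support.sup id := Finset.le_sup (f := id) h1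
  omega

theorem sup_le_of_lev {l : ℕ} {q : Md} (hq : q ∈ lev l) : q.support.sup id ≤ l := by
  refine Finset.sup_le fun i hi => ?_
  by_contra hc
  exact (Finsupp.mem_support_iff.mp hi) (hq i (by simpa using hc))

/-- The data of the levels differ by the seeds. -/
structure Seeds (C : Chain) : Prop where
  U_seed : ∀ l, C.U (l + 1) 0 = C.U l 0 + C.w (l + 1)
  w_supp : ∀ j, 1 ≤ j → SuppIn (Cl j) (C.w j)
  U_supp : ∀ l, SuppIn (lev l : Set Md) (C.U l 0)

namespace Seeds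

variable {C : Chain} (H : Seeds C)
include H

theorem stable {l l' : ℕ} (h : l ≤ l') {q : Md} (hq : q ∈ lev l) : C.U l' 0 q = C.U l 0 q := by
  induction l', h using Nat.le_induction with
  | base => rfl
  | succ k hk ih =>
    rw [H.U_seed k, Pi.add_apply, ih, H.w_supp (k + 1) (by omega) q, add_zero]
    intro hc
    exact hc.2 (hq (k + 1) (by omega))

theorem datF_eq {l : ℕ} {q : Md} (hq : q ∈ lev l) : datF C q = C.U l 0 q :=
  (H.stable (sup_le_of_lev hq) (mem_lev_sup q)).symm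

/-- Outside of level `l` the datum is one of the later seeds. -/
theorem datF_out {l : ℕ} {q : Md} (hq : q ∉ lev l) : ∃ j, datF C q = C.w (l + 1 + j) q := by
  set m := q.support.sup id with hm
  have hml : l < m := by
    by_contra hc
    refine hq fun i hi => ?_
    exact mem_lev_sup q i (by rw [← hm]; omega)
  refine ⟨m - (l + 1), ?_⟩
  have e1 : l + 1 + (m - (l + 1)) = m := by omega
  rw [e1]
  obtain ⟨k, hk⟩ : ∃ k, m = k + 1 := ⟨m - 1, by omega⟩
  have h1 : datF C q = C.U m 0 q := rfl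
  have h2 : q ∉ (lev k : Set Md) := by
    intro hc
    have := sup_le_of_lev (show q ∈ lev k from hc)
    omega
  rw [h1, hk, H.U_seed k, Pi.add_apply, H.U_supp k q h2, zero_add]

theorem enorm_sub_le (l : ℕ) (q : Md) :
    ‖datF C q - C.U l 0 q‖ₑ ≤ ∑' j, ‖C.w (l + 1 + j) q‖ₑ := by
  by_cases hq : q ∈ lev l
  · rw [H.datF_eq hq, sub_self, enorm_zero]
    exact zero_le
  · obtain ⟨j, hj⟩ := H.datF_out hq
    rw [H.U_supp l q hq, sub_zero, hj]
    exact ENNReal.le_tsum (f := fun j => ‖C.w (l + 1 + j) q‖ₑ) j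

theorem enorm_le (q : Md) : ‖datF C q‖ₑ ≤ ‖C.U 0 0 q‖ₑ + ∑' j, ‖C.w (j + 1) q‖ₑ := by
  have h := H.enorm_sub_le 0 q
  have e : datF C q = C.U 0 0 q + (datF C q - C.U 0 0 q) := by abel
  rw [e]
  refine (enorm_add_le _ _).trans (add_le_add le_rfl (h.trans (le_of_eq ?_)))
  congr 1
  funext j
  rw [show 0 + 1 + j = j + 1 by ring]

end Seeds

/-- Powers against exponentials, explicit. -/
theorem pow_le_exp' {r κ b L : ℝ} (hr0 : 0 < r) (hr : r ≤ 1) (hbr : 1 ≤ b * r) (hb : 1 + κ ≤ b)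
    (hκ0 : 0 ≤ κ) (hL : 0 ≤ L) (k : ℕ) :
    (1 + κ * L) ^ k ≤ (b ^ (2 * k) * (k.factorial * Real.exp 1)) * Real.exp (r * L) := by
  have hb0 : 0 ≤ b := by linarith
  have h1 : 1 + κ * L ≤ b * (1 + L) := by nlinarith
  have h2 := Real.pow_div_factorial_le_exp (r * (1 + L)) (by positivity) k
  rw [div_le_iff₀ (by positivity)] at h2
  have h3 : Real.exp (r * (1 + L)) ≤ Real.exp 1 * Real.exp (r * L) := by
    rw [← Real.exp_add]
    apply Real.exp_le_exp.mpr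
    nlinarith
  have h4 : (1 + L) ≤ b * (r * (1 + L)) := by
    have : 0 ≤ 1 + L := by linarith
    nlinarith
  calc (1 + κ * L) ^ k ≤ (b * (b * (r * (1 + L)))) ^ k := by
        apply pow_le_pow_left₀ (by positivity)
        exact h1.trans (mul_le_mul_of_nonneg_left h4 hb0)
    _ = b ^ (2 * k) * (r * (1 + L)) ^ k := by
        rw [mul_pow, mul_pow, pow_mul, sq, mul_pow]; ring
    _ ≤ b ^ (2 * k) * ((Real.exp 1 * Real.exp (r * L)) * k.factorial) := by
        apply mul_le_mul_of_nonneg_left _ (by positivity)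
        exact h2.trans (mul_le_mul_of_nonneg_right h3 (by positivity))
    _ = _ := by ring

/-- Weighted sums of a function of level `j`. -/
theorem wsum_le {K : ℕ → Fin 3 → ℤ} {j : ℕ} {r κ b δ : ℝ} (hr0 : 0 < r) (hr : r ≤ 1)
    (hbr : 1 ≤ b * r) (hb : 1 + κ ≤ b) (hκ0 : 0 ≤ κ)
    (hκ : ∀ i ≤ j, |(K i 0 : ℝ)| + |(K i 1 : ℝ)| + |(K i 2 : ℝ)| ≤ κ) {f : Md → C3}
    (hs : SuppIn (lev j : Set Md) f) (hf : sN r f ≤ ENNReal.ofReal δ) (k : ℕ) :
    ∑' q, ENNReal.ofReal ((1 + nx (xiZ K) q) ^ k) * ‖f q‖ₑ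
      ≤ ENNReal.ofReal ((k.factorial * Real.exp 1) * (b ^ (2 * k) * δ)) := by
  have hb0 : 0 ≤ b := by linarith
  have h1 : ∀ q, ENNReal.ofReal ((1 + nx (xiZ K) q) ^ k) * ‖f q‖ₑ
      ≤ ENNReal.ofReal (b ^ (2 * k) * (k.factorial * Real.exp 1)) *
        (ENNReal.ofReal (Real.exp (r * len q)) * ‖f q‖ₑ) := by
    intro q
    by_cases hq : q ∈ lev j
    · rw [← mul_assoc, ← ENNReal.ofReal_mul (by positivity)]
      gcongr
      have h2 := nx_le K j hκ q hq
      have h3 := nx_nonneg (xiZ K) q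
      refine le_trans ?_ (pow_le_exp' hr0 hr hbr hb hκ0 (len_nonneg q) k)
      gcongr
    · rw [hs q hq, enorm_zero, mul_zero, mul_zero, mul_zero]
  calc ∑' q, ENNReal.ofReal ((1 + nx (xiZ K) q) ^ k) * ‖f q‖ₑ
      ≤ ∑' q, ENNReal.ofReal (b ^ (2 * k) * (k.factorial * Real.exp 1)) *
        (ENNReal.ofReal (Real.exp (r * len q)) * ‖f q‖ₑ) := ENNReal.tsum_le_tsum h1
    _ = ENNReal.ofReal (b ^ (2 * k) * (k.factorial * Real.exp 1)) * sN r f := by
        rw [ENNReal.tsum_mul_left]; rfl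
    _ ≤ ENNReal.ofReal (b ^ (2 * k) * (k.factorial * Real.exp 1)) * ENNReal.ofReal δ := by
        gcongr
    _ = _ := by
        rw [← ENNReal.ofReal_mul (by positivity)]
        congr 1
        ring

/-! ### The conclusion for a chain, with abstract numbers -/

/-- What the construction has to deliver. `κ j` bounds the wave vectors of level `j`, `b j` all
constants of level `j`, `δ j` the seed `j + 1`, `D l` the sum of the seeds after level `l`. -/
structure Final (C : Chain) (κ b δ D : ℕ → ℝ) : Prop where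
  lvl : ∀ l, Lvl C.K (C.τ l) (C.r l) (C.R l) l (C.X l) (C.U l) (C.A l) (C.p l) (C.F l) (C.Fi l)
    (C.M l)
  U_seed : ∀ l, C.U (l + 1) 0 = C.U l 0 + C.w (l + 1)
  w_supp : ∀ j, 1 ≤ j → SuppIn (Cl j) (C.w j)
  τ_le : ∀ l, C.τ l ≤ C.τ 0
  tn_pos : ∀ n, 1 ≤ n → 0 < C.tn n
  tn_le : ∀ n, 1 ≤ n → C.tn n ≤ C.τ n
  κ_nonneg : ∀ j, 0 ≤ κ j
  κ_le : ∀ j, ∀ i ≤ j, |(C.K i 0 : ℝ)| + |(C.K i 1 : ℝ)| + |(C.K i 2 : ℝ)| ≤ κ j
  b_κ : ∀ j, 1 + κ j ≤ b j
  b_r : ∀ j, 1 ≤ b j * C.r j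
  R_b : ∀ j, C.R j ≤ b j
  δ_nonneg : ∀ j, 0 ≤ δ j
  w_le : ∀ j, sN (C.r (j + 1)) (C.w (j + 1)) ≤ ENNReal.ofReal (δ j)
  sum : ∀ k : ℕ, Summable fun j => b (j + 1) ^ k * δ j
  tail : ∀ l, 1 ≤ l → ∑' j, δ (l + j) ≤ D l
  small : Tendsto (fun n => D n * b n ^ 56) atTop (𝓝 0)
  M_tendsto : Tendsto (fun n => ‖C.Mc n (C.tn n)‖) atTop atTop

theorem mm_oneM_right (a : Md → Mat) : mm a oneM = a := by
  funext q
  unfold mm conv
  rw [tsum_eq_single 0]
  · simp [oneM]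
  · intro p hp
    simp [oneM, hp]

/-- The data of a level are divergence free. -/
theorem datum_div {K : ℕ → Fin 3 → ℤ} {T r : ℝ} {l : ℕ} {X U A : ℝ → Md → C3}
    {p : ℝ → Md → ℂ} {F Fi M : ℝ → Md → Mat} (h : LevSol K l T r X U A p F Fi M) (q : Md) :
    inner ℂ (xi K q) (U 0 q) = 0 := by
  have h0 : (0 : ℝ) ∈ Icc 0 T := ⟨le_rfl, h.s_pos.le⟩
  have hF : F 0 = oneM := by
    rw [h.F_eq 0 h0, h.x_zero]
    have : gradV K 0 = 0 := by
      funext q
      ext v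
      simp [gradV]
    rw [this, add_zero]
  have hM : gradV K (U 0) = M 0 := by rw [h.gradU h0, hF, mm_oneM_right]
  have htr := h.tr_M 0 h0 q
  rw [← hM, trace_C3, Fin.sum_univ_three] at htr
  have h3 : ∀ j : Fin 3, (gradV K (U 0) q (EuclideanSpace.single j 1)) j
      = Complex.I * ((starRingEnd ℂ) (xi K q j) * U 0 q j) := by
    intro j
    simp only [gradV, smul_apply, ContinuousLinearMap.smulRight_apply, innerSL_apply_apply,
      PiLp.smul_apply, smul_eq_mul]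
    rw [EuclideanSpace.inner_single_right]
    simp
  rw [h3, h3, h3, ← _root_.mul_add, ← _root_.mul_add] at htr
  have h4 := (mul_eq_zero.mp htr).resolve_left Complex.I_ne_zero
  rw [PiLp.inner_apply, Fin.sum_univ_three]
  simp only [RCLike.inner_apply]
  linear_combination h4

theorem vecR_sub {ξ : Md →+ (Fin 3 → ℤ)} {f g : Md → C3} (hf : Summable fun q => ‖f q‖)
    (hg : Summable fun q => ‖g q‖) (y : E3) : ‖vecR ξ f y - vecR ξ g y‖ ≤ ∑' q, ‖f q - g q‖ := by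
  have hfg : Summable fun q => ‖f q - g q‖ :=
    Summable.of_nonneg_of_le (fun _ => norm_nonneg _) (fun q => norm_sub_le _ _) (hf.add hg)
  have e1 : vecR ξ f y - vecR ξ g y = reC (ev (ph ξ y) (fun q => f q - g q)) := by
    rw [vecR, vecR, ← map_sub, ev, ev, ev, ← (summable_ch _ hf).tsum_sub (summable_ch _ hg)]
    simp only [smul_sub]
  rw [e1]
  exact (reC_norm_le _).trans (norm_ev_le _ hfg)

namespace Final

variable {C : Chain} {κ b δ D : ℕ → ℝ} (H : Final C κ b δ D)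
include H

theorem seeds : Seeds C where
  U_seed := H.U_seed
  w_supp := H.w_supp
  U_supp l := (H.lvl l).U_supp 0 ⟨le_rfl, (H.lvl l).s_pos.le⟩

theorem b_one (j : ℕ) : 1 ≤ b j := by linarith [H.b_κ j, H.κ_nonneg j]

theorem wsum_w (j k : ℕ) :
    ∑' q, ENNReal.ofReal ((1 + nx (xiZ C.K) q) ^ k) * ‖C.w (j + 1) q‖ₑ
      ≤ ENNReal.ofReal ((k.factorial * Real.exp 1) * (b (j + 1) ^ (2 * k) * δ j)) := by
  refine wsum_le (H.lvl (j + 1)).c_pos (H.lvl (j + 1)).r_le (H.b_r (j + 1)) (H.b_κ (j + 1))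
    (H.κ_nonneg (j + 1)) (H.κ_le (j + 1)) ?_ (H.w_le j) k
  intro q hq
  exact H.w_supp (j + 1) (by omega) q fun hc => hq hc.1

/-- The limit datum is smooth. -/
theorem smooth (k : ℕ) : Summable fun q => (1 + nx (xiZ C.K) q) ^ k * ‖datF C q‖ := by
  have h0 : ∑' q, ENNReal.ofReal ((1 + nx (xiZ C.K) q) ^ k) * ‖C.U 0 0 q‖ₑ ≠ ∞ := by
    have h1 := ((H.lvl 0).toLevSol.U_sBd k).sum ⟨le_rfl, (H.lvl 0).s_pos.le⟩
    have h2 : ∀ q, ENNReal.ofReal ((1 + nx (xiZ C.K) q) ^ k) * ‖C.U 0 0 q‖ₑ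
        = ENNReal.ofReal ((1 + nx (xiZ C.K) q) ^ k * ‖C.U 0 0 q‖) := by
      intro q
      have := nx_nonneg (xiZ C.K) q
      rw [ENNReal.ofReal_mul (by positivity), ofReal_norm]
    simp only [h2]
    exact h1.tsum_ofReal_ne_top
  have hj : ∑' j, ∑' q, ENNReal.ofReal ((1 + nx (xiZ C.K) q) ^ k) * ‖C.w (j + 1) q‖ₑ ≠ ∞ := by
    have h1 : Summable fun j => (k.factorial * Real.exp 1) * (b (j + 1) ^ (2 * k) * δ j) :=
      (H.sum (2 * k)).mul_left _
    exact ne_top_of_le_ne_top h1.tsum_ofReal_ne_top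
      (ENNReal.tsum_le_tsum fun j => H.wsum_w j k)
  have hle : ∑' q, ENNReal.ofReal ((1 + nx (xiZ C.K) q) ^ k) * ‖datF C q‖ₑ
      ≤ ∑' q, ENNReal.ofReal ((1 + nx (xiZ C.K) q) ^ k) * ‖C.U 0 0 q‖ₑ +
        ∑' j, ∑' q, ENNReal.ofReal ((1 + nx (xiZ C.K) q) ^ k) * ‖C.w (j + 1) q‖ₑ := by
    rw [ENNReal.tsum_comm, ← ENNReal.tsum_add]
    refine ENNReal.tsum_le_tsum fun q => ?_
    rw [ENNReal.tsum_mul_left, ← _root_.mul_add]
    gcongr
    exact H.seeds.enorm_le q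
  have hfin : ∑' q, ENNReal.ofReal ((1 + nx (xiZ C.K) q) ^ k) * ‖datF C q‖ₑ ≠ ∞ :=
    ne_top_of_le_ne_top (ENNReal.add_ne_top.mpr ⟨h0, hj⟩) hle
  have hs := ENNReal.summable_toReal hfin
  refine hs.congr fun q => ?_
  have := nx_nonneg (xiZ C.K) q
  rw [ENNReal.toReal_mul, ENNReal.toReal_ofReal (by positivity), toReal_enorm]

theorem sum_U (l : ℕ) : Summable fun q => ‖C.U l 0 q‖ :=
  summable_norm' (xiZ C.K) (((H.lvl l).toLevSol.U_sBd 0).sum ⟨le_rfl, (H.lvl l).s_pos.le⟩)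

theorem sum_δ : Summable δ := by
  have h := H.sum 0
  simpa using h

/-- Distance of the data of level `l` to the limit. -/
theorem datum {l : ℕ} (hl : 1 ≤ l) (y : E3) :
    ‖vecR (xiZ C.K) (C.U l 0) y - vecR (xiZ C.K) (datF C) y‖ ≤ D l := by
  have hf : Summable fun q => ‖datF C q‖ := summable_norm' (xiZ C.K) (H.smooth 0)
  have hU := H.sum_U l
  rw [norm_sub_rev]
  refine (vecR_sub hf hU y).trans ?_
  have hsum : Summable fun q => ‖datF C q - C.U l 0 q‖ :=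
    Summable.of_nonneg_of_le (fun _ => norm_nonneg _) (fun q => norm_sub_le _ _) (hf.add hU)
  have hδ : Summable fun j => δ (l + j) := by
    have := H.sum_δ.comp_injective (i := fun j => l + j) (add_right_injective l)
    exact this
  have h1 : ENNReal.ofReal (∑' q, ‖datF C q - C.U l 0 q‖) ≤ ENNReal.ofReal (∑' j, δ (l + j)) := by
    rw [ENNReal.ofReal_tsum_of_nonneg (fun _ => norm_nonneg _) hsum,
      ENNReal.ofReal_tsum_of_nonneg (fun j => H.δ_nonneg _) hδ]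
    calc ∑' q, ENNReal.ofReal ‖datF C q - C.U l 0 q‖
        ≤ ∑' q, ∑' j, ‖C.w (l + 1 + j) q‖ₑ := by
          refine ENNReal.tsum_le_tsum fun q => ?_
          rw [ofReal_norm]
          exact H.seeds.enorm_sub_le l q
      _ = ∑' j, ∑' q, ‖C.w (l + 1 + j) q‖ₑ := ENNReal.tsum_comm
      _ ≤ ∑' j, ENNReal.ofReal (δ (l + j)) := by
          refine ENNReal.tsum_le_tsum fun j => ?_
          have e : l + 1 + j = l + j + 1 := by ring
          rw [e]
          refine le_trans ?_ (H.w_le (l + j))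
          unfold sN
          refine ENNReal.tsum_le_tsum fun q => ?_
          refine le_mul_of_one_le_left zero_le ?_
          rw [← ENNReal.ofReal_one]
          refine ENNReal.ofReal_le_ofReal ?_
          rw [← Real.exp_zero]
          exact Real.exp_le_exp.mpr (mul_nonneg (H.lvl (l + j + 1)).c_pos.le (len_nonneg q))
  have h2 : 0 ≤ ∑' j, δ (l + j) := tsum_nonneg fun j => H.δ_nonneg _
  exact ((ENNReal.ofReal_le_ofReal_iff h2).mp h1).trans (H.tail l hl)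

theorem div (q : Md) : inner ℂ (xi C.K q) (datF C q) = 0 :=
  datum_div (H.lvl (q.support.sup id)).toLevSol q

/-- The cascade. -/
noncomputable def cascade : CascadeLag (C.τ 0) (vecR (xiZ C.K) (datF C)) where
  s j := C.tn (j + 1)
  X j t := mapR (xiZ C.K) (C.X (j + 1) t)
  W j t := vecR (xiZ C.K) (C.U (j + 1) t)
  A j t := vecR (xiZ C.K) (C.A (j + 1) t)
  Q j t := scR (xiZ C.K) (C.p (j + 1) t)
  M j := C.Mc (j + 1) (C.tn (j + 1))
  del j := D (j + 1)
  B j := 5 * b (j + 1) ^ 4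
  s_nonneg j := (H.tn_pos (j + 1) (by omega)).le
  s_le j := (H.tn_le (j + 1) (by omega)).trans (H.τ_le (j + 1))
  sol j := (levSol_restrict (H.lvl (j + 1)).toLevSol (H.tn_pos (j + 1) (by omega))
    (H.tn_le (j + 1) (by omega))).lagSol
  datum j y := H.datum (by omega) y
  DX_le j y := by
    have ht : C.tn (j + 1) ∈ Icc 0 (C.τ (j + 1)) :=
      ⟨(H.tn_pos (j + 1) (by omega)).le, H.tn_le (j + 1) (by omega)⟩
    have L := H.lvl (j + 1)
    have hb := H.b_one (j + 1)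
    have hR := H.R_b (j + 1)
    have h1 := DX_bd L.toLevSol (by linarith [L.R_two]) L.F_le y ht
    have h2 : b (j + 1) ≤ b (j + 1) ^ 4 := le_self_pow₀ hb (by norm_num)
    linarith
  DW_le j y := by
    have ht : C.tn (j + 1) ∈ Icc 0 (C.τ (j + 1)) :=
      ⟨(H.tn_pos (j + 1) (by omega)).le, H.tn_le (j + 1) (by omega)⟩
    have L := H.lvl (j + 1)
    have hb := H.b_one (j + 1)
    have hR := H.R_b (j + 1)
    have hR2 := L.R_two
    have h1 := DW_bd L.toLevSol (by linarith [L.R_two]) L.F_le L.M_le y ht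
    have h2 : C.R (j + 1) * C.R (j + 1) ≤ b (j + 1) ^ 4 := by
      calc C.R (j + 1) * C.R (j + 1) ≤ b (j + 1) * b (j + 1) := by gcongr
        _ = b (j + 1) ^ 2 := by ring
        _ ≤ b (j + 1) ^ 4 := pow_le_pow_right₀ hb (by norm_num)
    have h3 : 0 ≤ b (j + 1) ^ 4 := by positivity
    linarith
  DX_lip j y := by
    have ht : C.tn (j + 1) ∈ Icc 0 (C.τ (j + 1)) :=
      ⟨(H.tn_pos (j + 1) (by omega)).le, H.tn_le (j + 1) (by omega)⟩
    have L := H.lvl (j + 1)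
    have hb := H.b_one (j + 1)
    have hR := H.R_b (j + 1)
    have hR2 := L.R_two
    have hκ := H.κ_nonneg (j + 1)
    have hκb := H.b_κ (j + 1)
    have hr := L.c_pos
    have h1 := DX_lip' L.toLevSol (by linarith [L.R_two]) L.F_le L.F_supp hκ
      (H.κ_le (j + 1)) y ht
    refine h1.trans (mul_le_mul_of_nonneg_right ?_ (norm_nonneg _))
    have h4 : κ (j + 1) / C.r (j + 1) ≤ b (j + 1) * b (j + 1) := by
      rw [div_le_iff₀ hr]
      have := H.b_r (j + 1)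
      nlinarith
    calc κ (j + 1) / C.r (j + 1) * C.R (j + 1) ≤ (b (j + 1) * b (j + 1)) * b (j + 1) := by gcongr
      _ = b (j + 1) ^ 3 := by ring
      _ ≤ b (j + 1) ^ 4 := pow_le_pow_right₀ hb (by norm_num)
      _ ≤ 5 * b (j + 1) ^ 4 := by
        have : 0 ≤ b (j + 1) ^ 4 := by positivity
        linarith
  DW_lip j y := by
    have ht : C.tn (j + 1) ∈ Icc 0 (C.τ (j + 1)) :=
      ⟨(H.tn_pos (j + 1) (by omega)).le, H.tn_le (j + 1) (by omega)⟩
    have L := H.lvl (j + 1)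
    have hb := H.b_one (j + 1)
    have hR := H.R_b (j + 1)
    have hR2 := L.R_two
    have hκ := H.κ_nonneg (j + 1)
    have hκb := H.b_κ (j + 1)
    have hr := L.c_pos
    have h1 := DW_lip' L.toLevSol (by linarith [L.R_two]) L.F_le L.F_supp L.M_le L.M_supp hκ
      (H.κ_le (j + 1)) y ht
    refine h1.trans (mul_le_mul_of_nonneg_right ?_ (norm_nonneg _))
    have h4 : κ (j + 1) / C.r (j + 1) ≤ b (j + 1) * b (j + 1) := by
      rw [div_le_iff₀ hr]
      have := H.b_r (j + 1)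
      nlinarith
    calc 2 * (κ (j + 1) / C.r (j + 1) * C.R (j + 1) * C.R (j + 1))
        ≤ 2 * ((b (j + 1) * b (j + 1)) * b (j + 1) * b (j + 1)) := by gcongr
      _ = 2 * b (j + 1) ^ 4 := by ring
      _ ≤ 5 * b (j + 1) ^ 4 := by
        have : 0 ≤ b (j + 1) ^ 4 := by positivity
        linarith
  DW_eq j := by
    have ht : C.tn (j + 1) ∈ Icc 0 (C.τ (j + 1)) :=
      ⟨(H.tn_pos (j + 1) (by omega)).le, H.tn_le (j + 1) (by omega)⟩
    rw [(H.lvl (j + 1)).toLevSol.DW_eq 0 ht, ph_zero]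
    rfl
  B_one j := by
    have h1 : 1 ≤ b (j + 1) ^ 4 := one_le_pow₀ (H.b_one (j + 1))
    linarith
  M_tendsto := H.M_tendsto.comp (tendsto_add_atTop_nat 1)
  small := by
    have h1 := (H.small.comp (tendsto_add_atTop_nat 1)).const_mul ((5 : ℝ) ^ 14)
    rw [mul_zero] at h1
    refine h1.congr fun j => ?_
    simp only [Function.comp_apply]
    ring

/-- **Item A7, abstract form.** -/
theorem blowup : Blowup := by
  refine ⟨C.τ 0, vecR (xiZ C.K) (datF C), (H.lvl 0).s_pos, vecR_smooth H.smooth,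
    vecR_periodic _ _, vecR_div (H.smooth 1) H.div, ?_⟩
  rintro T' hT' ⟨v, q, hv, h0⟩
  exact no_classical_solution_lag H.cascade hT' hv h0

end Final

end Pool.Agent.Work.MP_b0497c_an.Unf.A
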