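import Pool.Agent.Work.MP_b0497c_an.Unf.AMono

set_option autoImplicit false
set_option linter.unusedSectionVars false

/-!
# Block A: projectors of a level with polynomial constants

`Y = 10^6 R`, `X ≥ Y^(1000 (l+2))`.
-/

open scoped ENNReal
open Set MeasureTheory

namespace Pool.Agent.Work.MP_b0497c_an.Unf.A

open W S

/-- `R (1 + R²)`. -/
def bR (R : ℝ) : ℝ := R * (1 + R ^ 2)

/-- The radius of the projectors. -/
noncomputable def xR (r R : ℝ) : ℝ := r / (2 * bR R ^ 2 * bR R ^ 2) / 2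

section num

variable {r R X : ℝ} {l : ℕ}

theorem R_le_bR (h2 : 2 ≤ R) : R ≤ bR R := by
  unfold bR; nlinarith [sq_nonneg R]

theorem one_le_bR (h2 : 2 ≤ R) : 1 ≤ bR R := by linarith [R_le_bR h2]

theorem bR_le (h2 : 2 ≤ R) : bR R ≤ (10 ^ 6 * R) ^ 3 := by
  unfold bR
  have h3 : (10 ^ 6 * R) ^ 3 = 10 ^ 18 * (R * R ^ 2) := by ring
  rw [h3]
  have h4 : 0 < R * R ^ 2 := by positivity
  have h5 : R ≤ R * R ^ 2 := by nlinarith [sq_nonneg R]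
  nlinarith

theorem xR_pos (hr : 0 < r) (h2 : 2 ≤ R) : 0 < xR r R := by
  have := one_le_bR h2
  unfold xR; positivity

theorem xR_le_one (hr : 0 < r) (hr1 : r ≤ 1) (h2 : 2 ≤ R) : xR r R ≤ 1 := by
  have h1 := one_le_bR h2
  have h3 : 1 ≤ 2 * bR R ^ 2 * bR R ^ 2 := by
    have : 1 ≤ bR R ^ 2 := one_le_pow₀ h1
    nlinarith
  unfold xR
  have h4 : r / (2 * bR R ^ 2 * bR R ^ 2) ≤ 1 := by
    rw [div_le_one (by linarith)]; linarith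
  have h5 : 0 ≤ r / (2 * bR R ^ 2 * bR R ^ 2) := by positivity
  linarith

theorem inv_xR (hr : 0 < r) (h2 : 2 ≤ R) (hrR : 1 ≤ R * r) :
    3 / xR r R ≤ (10 ^ 6 * R) ^ 13 := by
  have h1 := one_le_bR h2
  have hb := bR_le h2
  have hx := xR_pos hr h2
  have hY : 0 < (10:ℝ) ^ 6 * R := by linarith
  have h3 : 3 / xR r R = 12 * bR R ^ 4 * (1 / r) := by
    unfold xR; field_simp; ring
  have h4 : 1 / r ≤ R := by rw [div_le_iff₀ hr]; linarith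
  have h5 : bR R ^ 4 ≤ ((10 ^ 6 * R) ^ 3) ^ 4 := pow_le_pow_left₀ (by linarith) hb 4
  rw [h3]
  calc 12 * bR R ^ 4 * (1 / r) ≤ 12 * ((10 ^ 6 * R) ^ 3) ^ 4 * R := by gcongr
    _ = ((10 ^ 6 * R) ^ 12) * (12 * R) := by ring
    _ ≤ ((10 ^ 6 * R) ^ 12) * (10 ^ 6 * R) := by gcongr; norm_num
    _ = (10 ^ 6 * R) ^ 13 := by ring

theorem Ypow (h2 : 2 ≤ R) (hX : (10 ^ 6 * R) ^ (1000 * (l + 2)) ≤ X) {k : ℕ}
    (hk : k ≤ 1000 * (l + 2)) : (10 ^ 6 * R) ^ k ≤ X :=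
  (pow_le_pow_right₀ (by linarith) hk).trans hX

theorem X_pos (h2 : 2 ≤ R) (hX : (10 ^ 6 * R) ^ (1000 * (l + 2)) ≤ X) : 1 ≤ X := by
  simpa using Ypow h2 hX (k := 0) (Nat.zero_le _)

theorem inv_X_le (hr : 0 < r) (h2 : 2 ≤ R) (hrR : 1 ≤ R * r)
    (hX : (10 ^ 6 * R) ^ (1000 * (l + 2)) ≤ X) : 1 / X ≤ xR r R := by
  have h3 := (inv_xR hr h2 hrR).trans (Ypow h2 hX (by omega))
  have hx := xR_pos hr h2
  have hX0 : 0 < X := by linarith [X_pos h2 hX]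
  rw [div_le_iff₀ hx] at h3
  rw [div_le_iff₀ hX0]
  linarith

theorem eSL_le (h21 : W21) (hr : 0 < r) (hr1 : r ≤ 1) (h2 : 2 ≤ R) (hrR : 1 ≤ R * r) :
    eSL (lev l) (xR r R) ≤ ENNReal.ofReal ((10 ^ 6 * R) ^ (13 * (l + 1))) := by
  refine ((h21.2 l _ (xR_pos hr h2)).2 (xR_le_one hr hr1 h2)).trans ?_
  refine ENNReal.ofReal_le_ofReal ?_
  rw [pow_mul]
  exact pow_le_pow_left₀ (by have := xR_pos hr h2; positivity) (inv_xR hr h2 hrR) _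

theorem proj_num (h21 : W21) (hr : 0 < r) (hr1 : r ≤ 1) (h2 : 2 ≤ R) (hrR : 1 ≤ R * r)
    (hX : (10 ^ 6 * R) ^ (1000 * (l + 2)) ≤ X) :
    ENNReal.ofReal (2 * bR R ^ 2 * bR R ^ 2) * eSL (lev l) (xR r R) ≤ ENNReal.ofReal X := by
  have h1 := one_le_bR h2
  have hb := bR_le h2
  have hY : 0 < (10:ℝ) ^ 6 * R := by linarith
  refine (mul_le_mul_right (eSL_le h21 hr hr1 h2 hrR) _).trans ?_
  rw [← ENNReal.ofReal_mul (by positivity)]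
  refine ENNReal.ofReal_le_ofReal ?_
  calc 2 * bR R ^ 2 * bR R ^ 2 * (10 ^ 6 * R) ^ (13 * (l + 1))
      ≤ 2 * ((10 ^ 6 * R) ^ 3) ^ 2 * ((10 ^ 6 * R) ^ 3) ^ 2 * (10 ^ 6 * R) ^ (13 * (l + 1)) := by
        gcongr
    _ = 2 * ((10 ^ 6 * R) ^ 12 * (10 ^ 6 * R) ^ (13 * (l + 1))) := by ring
    _ ≤ (10 ^ 6 * R) * ((10 ^ 6 * R) ^ 12 * (10 ^ 6 * R) ^ (13 * (l + 1))) := by
        gcongr; linarith
    _ = (10 ^ 6 * R) ^ (1 + (12 + 13 * (l + 1))) := by rw [pow_add, pow_add, pow_one]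
    _ ≤ X := Ypow h2 hX (by omega)

theorem dif_num (h21 : W21) (hr : 0 < r) (hr1 : r ≤ 1) (h2 : 2 ≤ R) (hrR : 1 ≤ R * r)
    (hX : (10 ^ 6 * R) ^ (1000 * (l + 2)) ≤ X) :
    ENNReal.ofReal (12 * bR R ^ 4 * bR R ^ 3) * eSL (lev l) (xR r R) ^ 2 ≤ ENNReal.ofReal X := by
  have h1 := one_le_bR h2
  have hb := bR_le h2
  have hY : 0 < (10:ℝ) ^ 6 * R := by linarith
  refine (mul_le_mul_right (pow_le_pow_left' (eSL_le h21 hr hr1 h2 hrR) 2) _).trans ?_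
  rw [← ENNReal.ofReal_pow (by positivity), ← ENNReal.ofReal_mul (by positivity)]
  refine ENNReal.ofReal_le_ofReal ?_
  calc 12 * bR R ^ 4 * bR R ^ 3 * ((10 ^ 6 * R) ^ (13 * (l + 1))) ^ 2
      ≤ 12 * ((10 ^ 6 * R) ^ 3) ^ 4 * ((10 ^ 6 * R) ^ 3) ^ 3
        * ((10 ^ 6 * R) ^ (13 * (l + 1))) ^ 2 := by gcongr
    _ = 12 * ((10 ^ 6 * R) ^ 21 * (10 ^ 6 * R) ^ (26 * (l + 1))) := by
        rw [← pow_mul, ← pow_mul, ← pow_mul, mul_assoc, mul_assoc, ← mul_assoc (_ ^ _) (_ ^ _) (_ ^ _),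
          ← pow_add, show 13 * (l + 1) * 2 = 26 * (l + 1) by ring]
    _ ≤ (10 ^ 6 * R) * ((10 ^ 6 * R) ^ 21 * (10 ^ 6 * R) ^ (26 * (l + 1))) := by
        gcongr; linarith
    _ = (10 ^ 6 * R) ^ (1 + (21 + 26 * (l + 1))) := by rw [pow_add, pow_add, pow_one]
    _ ≤ X := Ypow h2 hX (by omega)

end num

/-- Projectors of one level (time dependent), in the constants `X`, `c`. -/
theorem proj_le (h18 : W18) (h21 : W21) {K : ℕ → Fin 3 → ℤ} {T T' r R X c : ℝ} {l : ℕ}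
    {F Fi : ℝ → Md → Mat} (hT0 : 0 < T) (hT : T ≤ T') (hr : 0 < r) (hr1 : r ≤ 1) (h2 : 2 ≤ R)
    (hrR : 1 ≤ R * r) (hX : (10 ^ 6 * R) ^ (1000 * (l + 2)) ≤ X) (hc : c ≤ 1 / X)
    (hfd : ∀ t ∈ Icc 0 T', FData (lev l) r (bR R) (bR R) (F t) (Fi t))
    (hFi : Nrm T' r 0 Dat.one' Fi ≤ ENNReal.ofReal (bR R)) (hcm : CM T' Fi) :
    KN T c (fun t => PiK (xi K) (Fi t)) ≤ ENNReal.ofReal X ∧ CK T (fun t => PiK (xi K) (Fi t)) := by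
  obtain ⟨h1, h3⟩ := h18 Md (lev l) T' r (bR R) (bR R) F Fi (xi K) (hT0.le.trans hT) hfd hFi hcm
  refine ⟨?_, CK_mono hT h3⟩
  refine (KN_mono hT (hc.trans (inv_X_le hr h2 hrR hX)) _).trans (h1.trans ?_)
  exact proj_num h21 hr hr1 h2 hrR hX

/-- The weighted difference of two projectors. -/
theorem dif_le (h7 : C07) (h21 : W21) {K : ℕ → Fin 3 → ℤ} {T T' r R X c : ℝ} {l : ℕ}
    {F Fi F1 Fi1 : ℝ → Md → Mat} {α : ℝ → ℝ} {e : ℝ≥0∞} (hT0 : 0 < T) (hT : T ≤ T') (hr : 0 < r)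
    (hr1 : r ≤ 1) (h2 : 2 ≤ R) (hrR : 1 ≤ R * r) (hX : (10 ^ 6 * R) ^ (1000 * (l + 2)) ≤ X)
    (hc : c ≤ 1 / X) (hα : ∀ t ∈ Icc 0 T', 0 < α t)
    (hfd : ∀ t ∈ Icc 0 T', FData (lev l) r (bR R) (bR R) (F t) (Fi t))
    (hfd1 : ∀ t ∈ Icc 0 T', FData (lev l) r (bR R) (bR R) (F1 t) (Fi1 t))
    (hFi : Nrm T' r 0 Dat.one' Fi ≤ ENNReal.ofReal (bR R))
    (hFi1 : Nrm T' r 0 Dat.one' Fi1 ≤ ENNReal.ofReal (bR R))
    (hd : Nrm T' r 0 α (fun t => Fi t - Fi1 t) ≤ e) :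
    KN T c (fun t => ((α t : ℂ))⁻¹ • (PiK (xi K) (Fi t) - PiK (xi K) (Fi1 t))) ≤
      ENNReal.ofReal X * e := by
  have h1 := h7 (lev l) T' r (bR R) (bR R) F Fi F1 Fi1 (xi K) α (hT0.le.trans hT) hα hfd hfd1
    hFi hFi1
  refine (KN_mono hT (hc.trans (inv_X_le hr h2 hrR hX)) _).trans (h1.trans ?_)
  exact mul_le_mul' (dif_num h21 hr hr1 h2 hrR hX) hd

section alg

variable {E F G : Type} [NormedAddCommGroup E] [NormedSpace ℂ E] [NormedAddCommGroup F]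
  [NormedSpace ℂ F] [NormedAddCommGroup G] [NormedSpace ℂ G]

/-- Product of two functions, constant weight. -/
theorem Nrm_mm_le (h9 : W09) {T c : ℝ} (hc : 0 ≤ c) (a : ℝ → Md → (F →L[ℂ] G))
    (b : ℝ → Md → (E →L[ℂ] F)) : Nrm T c 0 Dat.one' (fun t => mm (a t) (b t)) ≤
      Nrm T c 0 Dat.one' a * Nrm T c 0 Dat.one' b := by
  have h1 := (h9 Md E F G T c hc).1 (fun t => mulK (a t)) (fun t => mulK (b t))
  have h2 := (h9 Md E F G T c hc).2.2.2.1 b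
  have h3 := (h9 Md F G G T c hc).2.2.2.1 a
  have h4 := (h9 Md E G G T c hc).2.2.2.1 (fun t => mm (a t) (b t))
  have h5 : (fun t => kcomp (mulK (a t)) (mulK (b t))) = fun t => mulK (mm (a t) (b t)) := by
    funext t; exact kcomp_mulK _ _
  rw [h5, h4, h2, h3] at h1
  exact h1

theorem Nrm_neg {T c : ℝ} {ρ : ℝ → ℝ} (f : ℝ → Md → E) :
    Nrm T c 0 ρ (fun t => - f t) = Nrm T c 0 ρ f := by
  unfold Nrm; simp

theorem Nrm_add_le (h5 : W05) {T c : ℝ} {ρ : ℝ → ℝ} (hp : Par T c 0) (hρ : Wt T ρ)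
    (f g : ℝ → Md → E) : Nrm T c 0 ρ (f + g) ≤ Nrm T c 0 ρ f + Nrm T c 0 ρ g :=
  (h5 Md E T c 0 ρ ρ f g hp hρ hρ).2.2.1

theorem wt_one (T : ℝ) : Wt T Dat.one' :=
  ⟨fun _ _ => one_pos, continuousOn_const, fun _ _ _ _ _ => le_rfl⟩

theorem Nrm_one_le (h5 : W05) {T c R : ℝ} {ρ : ℝ → ℝ} (hp : Par T c 0) (hρ : Wt T ρ) (hR : 0 ≤ R)
    (h : ∀ t ∈ Icc 0 T, ρ t ≤ R) (f : ℝ → Md → E) :
    Nrm T c 0 Dat.one' f ≤ ENNReal.ofReal R * Nrm T c 0 ρ f :=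
  ((h5 Md E T c 0 ρ Dat.one' f f hp hρ (wt_one T)).2.1 R hR
    (fun t ht => by simpa [Dat.one'] using h t ht)).1

theorem Nrm_oneM {T c : ℝ} : Nrm T c 0 Dat.one' (fun _ => oneM) ≤ 1 := by
  unfold Nrm
  rw [tsum_eq_single 0]
  · refine iSup₂_le fun t _ => ?_
    simp only [len_zero, mul_zero, Real.exp_zero, Dat.one', div_one, ENNReal.ofReal_one, one_mul,
      oneM, if_true]
    rw [← ofReal_norm_eq_enorm]
    exact ENNReal.ofReal_le_one.2 ContinuousLinearMap.norm_id_le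
  · intro m hm
    simp [oneM, hm]

end alg

/-- `[z Kᵀ] ≤ g`. -/
theorem Nrm_zK {T c : ℝ} {k : C3} {z : ℝ → Md → C3} :
    Nrm T c 0 Dat.one' (fun t q => (innerSL ℂ k).smulRight (z t q)) ≤
      ‖k‖ₑ * Nrm T c 0 Dat.one' z := by
  unfold Nrm
  rw [← ENNReal.tsum_mul_left]
  refine ENNReal.tsum_le_tsum fun m => iSup₂_le fun t ht => ?_
  have h1 : ‖(innerSL ℂ k).smulRight (z t m)‖ₑ ≤ ‖k‖ₑ * ‖z t m‖ₑ := by
    rw [← ofReal_norm_eq_enorm, ← ofReal_norm_eq_enorm, ← ofReal_norm_eq_enorm,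
      ← ENNReal.ofReal_mul (norm_nonneg _)]
    refine ENNReal.ofReal_le_ofReal ?_
    rw [ContinuousLinearMap.norm_smulRight_apply]
    gcongr
    exact (innerSL_apply_norm ℂ k).le
  calc _ ≤ ENNReal.ofReal (Real.exp ((c - 0 * t) * len m) / Dat.one' t) * (‖k‖ₑ * ‖z t m‖ₑ) := by
        gcongr
    _ = ‖k‖ₑ * (ENNReal.ofReal (Real.exp ((c - 0 * t) * len m) / Dat.one' t) * ‖z t m‖ₑ) := by
        ring
    _ ≤ _ := by
        gcongr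
        exact le_iSup₂ (f := fun t (_ : t ∈ Icc 0 T) =>
          ENNReal.ofReal (Real.exp ((c - 0 * t) * len m) / Dat.one' t) * ‖z t m‖ₑ) t ht

end Pool.Agent.Work.MP_b0497c_an.Unf.A
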