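import Pool.Agent.Work.MP_b0497c_an.Unf.A_LH3
import Pool.Agent.Work.MP_b0497c_an.Bd.B43
import Pool.Agent.Work.MP_b0497c_an.Unf.OT1c

set_option autoImplicit false
set_option linter.dupNamespace false

/-!
# Block A, `LH3`: closed form
-/

namespace Pool.Agent.Work.MP_b0497c_an.Unf.A

theorem lh3' : LH3 :=
  lh3_of O.LevD.t1c fun D H A F Fi hG _ e h0 h1 hA =>
    lh3_F O.LevD.t1a O.LevD.t1b O.LevD.t1c D H A F Fi hG e h0 h1 hA

end Pool.Agent.Work.MP_b0497c_an.Unf.A
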