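import Pool.Agent.Work.MP_b0497c_an.Bd.B40
import Pool.Agent.Work.MP_b0497c_an.Bd.B39
import Pool.Agent.Work.MP_b0497c_an.Bd.B14
import Pool.Agent.Work.MP_b0497c_an.Unf.P6

set_option autoImplicit false
set_option linter.dupNamespace false

/-!
# LS7 (double): the velocity gradient at the centre at the time `t_n`
-/

open scoped ENNReal
open Set MeasureTheory

namespace Pool.Agent.Work.MP_b0497c_an.Unf.A.LS7x

open W S P
open Unf.O (LevD NextD)
open Unf.K (rM rV rMt kR dj kelS covec CoL)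

theorem ls7' (hsh : LSh) : LS7 := by
  intro x R0 c₀ X0 n C D hn hP hp han
  have B := hP.big
  have hl := hp.hl n hn le_rfl
  have hb := hp.b_eq n hn le_rfl
  have hh := hp.h_eq n hn le_rfl
  have hF := hl.toKin.toFlo
  have h1 := hsh x R0 c₀ X0 n C D hn hP hp han (D n).t0 hF.t0_mem
  rw [hp.tn_eq n hn le_rfl]
  have hh1 : (1 : ℝ) ≤ P.hh x n := B.hh_one n
  have h2 : (P.hh x n ^ (10 ^ 9))⁻¹ ≤ 1 := inv_le_one_of_one_le₀ (one_le_pow₀ hh1)
  have h3 : ‖(D n).fam.M 1 (D n).t0‖ ≥ (D n).a - bb x n := by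
    have h4 : (D n).fam.M 1 (D n).t0 = (D n).A (D n).t0 +
        Forced.Ode.ro ((D n).v (D n).t0) ((D n).n (D n).t0) := by
      show (D n).A (D n).t0 + (1 : ℝ) • Forced.Ode.ro ((D n).v (D n).t0) ((D n).n (D n).t0) = _
      rw [one_smul]
    have h5 : ‖Forced.Ode.ro ((D n).v (D n).t0) ((D n).n (D n).t0)‖ = (D n).a := by
      rw [Unf.K.norm_ro, hF.v_a, hF.n_one, mul_one]
    have h6 := hF.A_le (D n).t0
    rw [hb] at h6
    rw [h4]
    have h7 := norm_sub_le_norm_add (Forced.Ode.ro ((D n).v (D n).t0) ((D n).n (D n).t0))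
      ((D n).A (D n).t0)
    rw [add_comm] at h7
    linarith
  have h8 : ‖(D n).fam.M 1 (D n).t0‖ ≤ ‖C.Mc n (D n).t0‖ + 1 := by
    have h9 : (D n).fam.M 1 (D n).t0 = C.Mc n (D n).t0 -
        (C.Mc n (D n).t0 - (D n).fam.M 1 (D n).t0) := by abel
    rw [h9]
    exact (norm_sub_le _ _).trans (add_le_add le_rfl (h1.trans h2))
  have ha : (D n).a = P.hh x n ^ 24 := by rw [LevD.a, hh]
  have hL : Lr x n + bb x n + 1 ≤ P.hh x n ^ 24 := by
    have h10 : bb x n ≤ P.hh x n := by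
      have := B.b_pow_le (n := n) (K := 1) (by norm_num)
      simpa using this
    have h11 : Lr x n ≤ P.hh x n := by
      rw [Lr, P.hh]
      refine Real.exp_le_exp.2 ?_
      have h12 := ell_mono B.one_le (show n ≤ n + 2 by omega)
      have h13 := B.ell_pos (n + 2)
      linarith
    have h14 : (10 : ℝ) ^ 100 ≤ P.hh x n := B.hh_ge n
    have h15 : (3 : ℝ) ≤ P.hh x n := le_trans (by norm_num) h14
    calc Lr x n + bb x n + 1 ≤ 3 * P.hh x n := by linarith
      _ ≤ P.hh x n * P.hh x n := by gcongr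
      _ = P.hh x n ^ 2 := by ring
      _ ≤ P.hh x n ^ 24 := pow_le_pow_right₀ hh1 (by norm_num)
  rw [ha] at h3
  linarith

/-- LS7 without hypotheses. -/
theorem ls7x : LS7 := ls7' (lsh lse)

end Pool.Agent.Work.MP_b0497c_an.Unf.A.LS7x
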