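import Pool.Agent.Work.MP_b0497c_an.Unf.ODefs

set_option autoImplicit false

/-!
# Base (A0): the explicit shear `u = d sin (K₀ · x)`

`K₀ = (1,-3,-2)`, `d = (3+2c, 1, c)`, `M₀ = cos θ₀ d K₀ᵀ`. At the centre `A = d K₀ᵀ`; everything is
explicit in `y = t - t₁` and one function `S(y) = ∫_0^y du / q(u)`, `q(y) = |n|² = 1 + 6y + 14y²`.
-/

open Set ContinuousLinearMap RealInnerProductSpace

namespace Pool.Agent.Work.MP_b0497c_an.Unf.B

open Forced.Ode (Op ro)
open Fam K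

/-! ### Scalar functions -/

/-- `|n|²` -/
noncomputable def q (y : ℝ) : ℝ := 1 + 6 * y + 14 * y ^ 2

/-- `∫_0^y du / q(u)` -/
noncomputable def S (y : ℝ) : ℝ :=
  (Real.arctan ((14 * y + 3) / Real.sqrt 5) - Real.arctan (3 / Real.sqrt 5)) / Real.sqrt 5

theorem q_ge (y : ℝ) : 5 / 14 ≤ q y := by
  unfold q
  nlinarith [sq_nonneg (y + 3 / 14)]

theorem q_pos (y : ℝ) : 0 < q y := lt_of_lt_of_le (by norm_num) (q_ge y)

theorem q_le {y : ℝ} (h : -(3 / 7) ≤ y) (h' : y ≤ 0) : q y ≤ 1 := by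
  unfold q
  nlinarith

theorem q_zero : q 0 = 1 := by norm_num [q]

theorem q_der (y : ℝ) : HasDerivAt q (6 + 28 * y) y := by
  have h := (((hasDerivAt_id' y).const_mul (6 : ℝ)).const_add (1 : ℝ)).add
    (((hasDerivAt_id' y).pow 2).const_mul (14 : ℝ))
  refine (h.congr_deriv (by norm_num; ring)).congr_of_eventuallyEq ?_
  filter_upwards with x
  simp [q]

theorem S_zero : S 0 = 0 := by simp [S]

theorem S_der (y : ℝ) : HasDerivAt S (1 / q y) y := by
  have h5 : Real.sqrt 5 ≠ 0 := by positivity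
  have h55 : Real.sqrt 5 ^ 2 = 5 := Real.sq_sqrt (by norm_num)
  have h1 : HasDerivAt (fun y : ℝ => (14 * y + 3) / Real.sqrt 5) (14 / Real.sqrt 5) y := by
    have := (((hasDerivAt_id' y).const_mul (14 : ℝ)).add_const (3 : ℝ)).div_const (Real.sqrt 5)
    simpa using this
  have h2 := (((Real.hasDerivAt_arctan _).comp y h1).sub_const
    (Real.arctan (3 / Real.sqrt 5))).div_const (Real.sqrt 5)
  have hq := (q_pos y).ne'
  refine (h2.congr_deriv ?_).congr_of_eventuallyEq ?_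
  · have h3 : 1 + ((14 * y + 3) / Real.sqrt 5) ^ 2 = 14 / 5 * q y := by
      rw [div_pow, h55]
      unfold q
      ring
    rw [h3]
    have h6 : Real.sqrt 5 * Real.sqrt 5 = 5 := by rw [← sq]; exact h55
    field_simp
    rw [h55]
  · filter_upwards with x
    rfl

theorem S_mono : Monotone S :=
  monotone_of_deriv_nonneg (fun y => (S_der y).differentiableAt) fun y => by
    rw [(S_der y).deriv]
    have := q_pos y
    positivity

/-- `|S(y) - S(y')| ≤ 14/5 |y - y'|` -/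
theorem S_lip (y y' : ℝ) : |S y - S y'| ≤ 14 / 5 * |y - y'| := by
  have h := Convex.norm_image_sub_le_of_norm_hasDerivWithin_le (f := S) (s := univ) (x := y')
    (y := y) (f' := fun y => 1 / q y) (C := 14 / 5)
    (fun x _ => (S_der x).hasDerivWithinAt) (fun x _ => by
      have h1 := q_ge x
      have h2 := q_pos x
      rw [Real.norm_eq_abs, abs_of_pos (by positivity), div_le_iff₀ h2]
      linarith) convex_univ (mem_univ _) (mem_univ _)
  simpa [Real.norm_eq_abs] using h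

/-- `g / a` -/
noncomputable def gG (c y : ℝ) : ℝ := 2 / 5 * (S y - y) + (6 + 5 * c) / 5 * (y * S y)

/-- derivative of `g / a` -/
noncomputable def gG1 (c y : ℝ) : ℝ :=
  2 / 5 * (1 / q y - 1) + (6 + 5 * c) / 5 * (S y + y * (1 / q y))

theorem gG_zero (c : ℝ) : gG c 0 = 0 := by simp [gG, S_zero]

theorem gG1_zero (c : ℝ) : gG1 c 0 = 0 := by simp [gG1, S_zero, q_zero]

theorem gG_der (c y : ℝ) : HasDerivAt (gG c) (gG1 c y) y := by
  have h := (((S_der y).sub (hasDerivAt_id' y)).const_mul (2 / 5 : ℝ)).add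
    (((hasDerivAt_id' y).mul (S_der y)).const_mul ((6 + 5 * c) / 5))
  refine (h.congr_deriv ?_).congr_of_eventuallyEq ?_
  · unfold gG1
    ring
  · filter_upwards with x
    rfl

theorem qi_der (y : ℝ) : HasDerivAt (fun y => 1 / q y) (-(6 + 28 * y) / q y ^ 2) y := by
  have h := (q_der y).inv (q_pos y).ne'
  refine h.congr_of_eventuallyEq ?_
  filter_upwards with x
  simp

theorem gG1_der (c y : ℝ) :
    HasDerivAt (gG1 c) (2 * (c - 2 * y + 3 * c * y) / q y ^ 2) y := by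
  have hq := (q_pos y).ne'
  have h := (((qi_der y).sub_const (1 : ℝ)).const_mul (2 / 5 : ℝ)).add
    (((S_der y).add ((hasDerivAt_id' y).mul (qi_der y))).const_mul ((6 + 5 * c) / 5))
  refine (h.congr_deriv ?_).congr_of_eventuallyEq ?_
  · field_simp
    unfold q
    ring
  · filter_upwards with x
    rfl

theorem gG1_mono {c : ℝ} (hc : 0 < c) (hc' : c ≤ 1 / 100) :
    MonotoneOn (fun y => gG1 c y - 2 * c * y) (Icc (-(3 / 7)) 0) := by
  have hd : ∀ y, HasDerivAt (fun y => gG1 c y - 2 * c * y)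
      (2 * (c - 2 * y + 3 * c * y) / q y ^ 2 - 2 * c) y := fun y =>
    ((gG1_der c y).sub ((hasDerivAt_id' y).const_mul (2 * c))).congr_deriv (by ring)
  refine monotoneOn_of_deriv_nonneg (convex_Icc _ _)
    (fun y _ => (hd y).continuousAt.continuousWithinAt)
    (fun y _ => (hd y).differentiableAt.differentiableWithinAt) fun y hy => ?_
  rw [interior_Icc] at hy
  rw [(hd y).deriv]
  have h1 := q_le hy.1.le hy.2.le
  have h2 := q_pos y
  have h3 : q y ^ 2 ≤ 1 := by nlinarith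
  have h4 : c ≤ c - 2 * y + 3 * c * y := by nlinarith [hy.1, hy.2]
  have h5 : 2 * c ≤ 2 * (c - 2 * y + 3 * c * y) / q y ^ 2 := by
    rw [le_div_iff₀ (by positivity)]
    nlinarith
  linarith

theorem gG1_le {c : ℝ} (hc : 0 < c) (hc' : c ≤ 1 / 100) {y : ℝ} (hy : y ∈ Icc (-(3 / 7)) 0) :
    gG1 c y ≤ 2 * c * y := by
  have h := gG1_mono hc hc' hy (right_mem_Icc.2 (by norm_num)) hy.2
  simp only [gG1_zero, mul_zero, sub_zero] at h
  linarith

theorem gG_anti {c : ℝ} (hc : 0 < c) (hc' : c ≤ 1 / 100) :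
    AntitoneOn (fun y => gG c y - c * y ^ 2) (Icc (-(3 / 7)) 0) := by
  have hd : ∀ y, HasDerivAt (fun y => gG c y - c * y ^ 2) (gG1 c y - 2 * c * y) y := fun y =>
    ((gG_der c y).sub (((hasDerivAt_id' y).pow 2).const_mul c)).congr_deriv (by
      norm_num
      ring)
  refine antitoneOn_of_deriv_nonpos (convex_Icc _ _)
    (fun y _ => (hd y).continuousAt.continuousWithinAt)
    (fun y _ => (hd y).differentiableAt.differentiableWithinAt) fun y hy => ?_
  rw [interior_Icc] at hy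
  rw [(hd y).deriv]
  linarith [gG1_le hc hc' ⟨hy.1.le, hy.2.le⟩]

/-- `g ≥ a c y²` before `t₁` -/
theorem gG_ge {c : ℝ} (hc : 0 < c) (hc' : c ≤ 1 / 100) {y : ℝ} (hy : y ∈ Icc (-(3 / 7)) 0) :
    c * y ^ 2 ≤ gG c y := by
  have h := gG_anti hc hc' hy (right_mem_Icc.2 (by norm_num)) hy.2
  simp only [gG_zero] at h
  norm_num at h
  linarith

/-- `g` is decreasing before `t₁` -/
theorem gG_antitone {c : ℝ} (hc : 0 < c) (hc' : c ≤ 1 / 100) :
    AntitoneOn (gG c) (Icc (-(3 / 7)) 0) := by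
  refine antitoneOn_of_deriv_nonpos (convex_Icc _ _)
    (fun y _ => (gG_der c y).continuousAt.continuousWithinAt)
    (fun y _ => (gG_der c y).differentiableAt.differentiableWithinAt) fun y hy => ?_
  rw [interior_Icc] at hy
  rw [(gG_der c y).deriv]
  have := gG1_le hc hc' ⟨hy.1.le, hy.2.le⟩
  nlinarith [hy.2]

theorem S_neg {y : ℝ} (h : y ≤ 0) : S y ≤ 0 := by
  have := S_mono h
  rwa [S_zero] at this

/-- `f / a` at `y = -3/7` is negative -/
theorem gG_end {c : ℝ} (hc : 0 < c) : 1 ≤ (6 + 5 * c) * gG c (-(3 / 7)) := by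
  have h := S_neg (y := -(3 / 7)) (by norm_num)
  unfold gG
  nlinarith [mul_nonneg hc.le (neg_nonneg.2 h), mul_nonneg (mul_nonneg hc.le hc.le) (neg_nonneg.2 h)]

theorem gG_small {c : ℝ} (hc : 0 < c) (hc' : c ≤ 1 / 100) {y : ℝ} (h : -(1 / 20) ≤ y)
    (h' : y ≤ 0) : gG c y ≤ 1 / 30 := by
  have h1 := S_neg h'
  have h2 := S_lip y 0
  rw [S_zero, sub_zero, sub_zero, abs_of_nonpos h1, abs_of_nonpos h'] at h2
  unfold gG
  have h3 : y * S y ≤ 1 / 20 * (14 / 100) := by nlinarith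
  have h4 : 0 ≤ y * S y := by nlinarith
  nlinarith

theorem gG_lip {c : ℝ} (hc : 0 < c) (hc' : c ≤ 1 / 100) {y y' : ℝ} (hy : y ∈ Icc (-(3 / 7)) 0)
    (hy' : y' ∈ Icc (-(3 / 7)) 0) : |gG c y - gG c y'| ≤ 5 * |y - y'| := by
  have h1 := S_lip y y'
  have h2 := S_lip y 0
  rw [S_zero, sub_zero, sub_zero, abs_of_nonpos hy.2] at h2
  have h3 : gG c y - gG c y' = 2 / 5 * (S y - S y') - 2 / 5 * (y - y') +
      (6 + 5 * c) / 5 * ((y - y') * S y + y' * (S y - S y')) := by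
    unfold gG
    ring
  have h4 : |y'| ≤ 3 / 7 := abs_le.2 ⟨hy'.1, hy'.2.trans (by norm_num)⟩
  have h5 : |S y| ≤ 6 / 5 := by linarith [hy.1]
  have h6 : |(y - y') * S y| ≤ |y - y'| * (6 / 5) := by
    rw [abs_mul]
    gcongr
  have h7 : |y' * (S y - S y')| ≤ 3 / 7 * (14 / 5 * |y - y'|) := by
    rw [abs_mul]
    gcongr
  have h8 : |(y - y') * S y + y' * (S y - S y')| ≤ 12 / 5 * |y - y'| := by
    refine (abs_add_le _ _).trans ?_
    linarith
  have h9 : |(6 + 5 * c) / 5 * ((y - y') * S y + y' * (S y - S y'))| ≤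
      121 / 100 * (12 / 5 * |y - y'|) := by
    rw [abs_mul, abs_of_pos (by positivity)]
    exact mul_le_mul (by linarith) h8 (abs_nonneg _) (by norm_num)
  have h10 : |2 / 5 * (S y - S y') - 2 / 5 * (y - y')| ≤ 2 / 5 * (14 / 5 * |y - y'|) +
      2 / 5 * |y - y'| := by
    refine (abs_sub _ _).trans ?_
    rw [abs_mul, abs_mul, abs_of_pos (by norm_num : (0:ℝ) < 2 / 5)]
    gcongr
  rw [h3]
  refine (abs_add_le _ _).trans ?_
  have := abs_nonneg (y - y')
  linarith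

/-- The root of `f(0)`. -/
theorem exists_root {c : ℝ} (hc : 0 < c) (hc' : c ≤ 1 / 100) :
    ∃ τ : ℝ, 1 / 20 ≤ τ ∧ τ ≤ 3 / 7 ∧ (6 + 5 * c) * gG c (-τ) = 1 := by
  have hcont : ContinuousOn (fun τ => (6 + 5 * c) * gG c (-τ)) (Icc (1 / 20 : ℝ) (3 / 7)) := by
    intro τ _
    have h := (gG_der c (-τ)).continuousAt
    have h2 : ContinuousAt (fun τ : ℝ => -τ) τ := continuousAt_id.neg
    exact (continuousAt_const.mul (ContinuousAt.comp (f := fun τ : ℝ => -τ) h h2)).continuousWithinAt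
  have h := intermediate_value_Icc (by norm_num : (1 / 20 : ℝ) ≤ 3 / 7) hcont
  have h1 : (1 : ℝ) ∈ Icc ((6 + 5 * c) * gG c (-(1 / 20))) ((6 + 5 * c) * gG c (-(3 / 7))) := by
    refine ⟨?_, gG_end hc⟩
    have := gG_small hc hc' (y := -(1 / 20)) le_rfl (by norm_num)
    nlinarith
  obtain ⟨τ, hτ, h2⟩ := h h1
  exact ⟨τ, hτ.1, hτ.2, h2⟩

end Pool.Agent.Work.MP_b0497c_an.Unf.B
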