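import Pool.Agent.Work.MP_b0497c_an.Unf.CStmts

set_option autoImplicit false

/-!
# Weighted l1 algebra of matrix functions (used in C04)
-/

open scoped ENNReal Topology
open Set MeasureTheory

namespace Pool.Agent.Work.MP_b0497c_an.Unf.S

open W

namespace C04

/-- kernels of multiplications compose to multiplications -/
theorem kcomp_mulK {E F G : Type} [NormedAddCommGroup E] [NormedSpace ℂ E]
    [NormedAddCommGroup F] [NormedSpace ℂ F] [NormedAddCommGroup G] [NormedSpace ℂ G]
    (a : Md → (F →L[ℂ] G)) (b : Md → (E →L[ℂ] F)) : kcomp (mulK a) (mulK b) = mulK (mm a b) := by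
  funext m l
  simp only [kcomp, mulK, mm, conv, ContinuousLinearMap.compL_apply]
  rw [← (Equiv.subRight l).tsum_eq (fun j => (a (m - l - j)).comp (b j))]
  refine tsum_congr (fun j => ?_)
  simp only [Equiv.subRight_apply]
  rw [show m - l - (j - l) = m - j by abel]

/-- growth of solutions of linear ODEs in a Banach space -/
theorem sol_bound {V : Type} [NormedAddCommGroup V] [NormedSpace ℝ V]
    (A : ℝ → V →L[ℝ] V) (β : ℝ) (hβ : ∀ t, ‖A t‖ ≤ β) (v : ℝ → V)
    (hv : ∀ t, HasDerivAt v (A t (v t)) t) (s t : ℝ) :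
    ‖v t‖ ≤ Real.exp (β * |t - s|) * ‖v s‖ := by
  rcases le_total s t with hst | hst
  · have h := norm_le_gronwallBound_of_norm_deriv_right_le (f := v)
      (f' := fun t => A t (v t)) (δ := ‖v s‖) (K := β) (ε := 0) (a := s) (b := t)
      (fun r _ => (hv r).continuousAt.continuousWithinAt)
      (fun r _ => (hv r).hasDerivWithinAt) le_rfl
      (fun r _ => by
        rw [add_zero]
        exact ((A r).le_opNorm _).trans (mul_le_mul_of_nonneg_right (hβ r) (norm_nonneg _)))
      t ⟨hst, le_rfl⟩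
    rw [gronwallBound_ε0] at h
    rw [abs_of_nonneg (sub_nonneg.2 hst), mul_comm]
    exact h
  · have hd : ∀ r, HasDerivAt (fun r => v (s - r)) (-(A (s - r) (v (s - r)))) r := by
      intro r
      have h1 := (hv (s - r)).scomp r ((hasDerivAt_id r).const_sub s)
      refine h1.congr_deriv ?_
      simp
    have h := norm_le_gronwallBound_of_norm_deriv_right_le (f := fun r => v (s - r))
      (f' := fun r => -(A (s - r) (v (s - r)))) (δ := ‖v s‖) (K := β) (ε := 0) (a := 0)
      (b := s - t)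
      (fun r _ => (hd r).continuousAt.continuousWithinAt)
      (fun r _ => (hd r).hasDerivWithinAt) (by simp only [sub_zero]; exact le_rfl)
      (fun r _ => by
        rw [add_zero, norm_neg]
        exact ((A _).le_opNorm _).trans (mul_le_mul_of_nonneg_right (hβ _) (norm_nonneg _)))
      (s - t) ⟨sub_nonneg.2 hst, le_rfl⟩
    rw [gronwallBound_ε0, sub_sub_cancel, sub_zero] at h
    rw [abs_of_nonpos (sub_nonpos.2 hst), neg_sub, mul_comm]
    exact h

/-- solutions of linear ODEs in a Banach space -/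
theorem prop_exists {V : Type} [NormedAddCommGroup V] [NormedSpace ℝ V] [CompleteSpace V]
    (A : ℝ → V →L[ℝ] V) (hA : Continuous A) (x : V) (β : ℝ) (hβ : ∀ t, ‖A t‖ ≤ β) :
    ∃ u : ℝ → ℝ → V, (∀ s t, HasDerivAt (fun t => u t s) (A t (u t s)) t) ∧ (∀ s, u s s = x) ∧
      Continuous (fun q : ℝ × ℝ => u q.1 q.2) ∧
      ∀ s t, ‖u t s‖ ≤ Real.exp (β * |t - s|) * ‖x‖ := by
  obtain ⟨Y, Z, hY, hZ, hZY, hYZ⟩ := K.PB.exists_fund hA
  have hYc : Continuous Y := continuous_iff_continuousAt.2 fun t => (hY t).continuousAt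
  have hZc : Continuous Z := continuous_iff_continuousAt.2 fun t => (hZ t).continuousAt
  have hder : ∀ s t, HasDerivAt (fun t => Y t (Z s x)) (A t (Y t (Z s x))) t := by
    intro s t
    have h2 := (hY t).clm_apply (hasDerivAt_const t (Z s x))
    refine h2.congr_deriv ?_
    simp
  have hid : ∀ s, Y s (Z s x) = x := by
    intro s
    have := congrArg (fun T : V →L[ℝ] V => T x) (hYZ s)
    simpa using this
  refine ⟨fun t s => Y t (Z s x), hder, hid, ?_, ?_⟩
  · exact (hYc.comp continuous_fst).clm_apply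
      ((hZc.comp continuous_snd).clm_apply continuous_const)
  · intro s t
    have := sol_bound A β hβ (fun t => Y t (Z s x)) (hder s) s t
    simpa only [hid] using this

/-- The Banach space of weighted summable coefficients (weights are put into the coefficients). -/
noncomputable abbrev X := lp (fun _ : Md => Mat) 1

theorem norm_X (g : X) : ‖g‖ = ∑' q, ‖g q‖ := by
  rw [lp.norm_eq_tsum_rpow (by norm_num) g]
  simp

theorem summable_X (g : X) : Summable fun q => ‖g q‖ := by
  have := (memℓp_gen_iff (p := 1) (by norm_num)).1 (lp.memℓp g)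
  simpa using this

theorem enorm_X (g : X) : ‖g‖ₑ = ∑' q, ‖g q‖ₑ := by
  rw [← ofReal_norm, norm_X, ENNReal.ofReal_tsum_of_nonneg (fun _ => norm_nonneg _) (summable_X g)]
  simp only [ofReal_norm]

/-- the unweighted coefficients -/
noncomputable def un (c : ℝ) (g : Md → Mat) (q : Md) : Mat := Real.exp (-(c * len q)) • g q

/-- the weighted coefficients -/
noncomputable def we (c : ℝ) (f : Md → Mat) (q : Md) : Mat := Real.exp (c * len q) • f q

theorem we_un (c : ℝ) (g : Md → Mat) : we c (un c g) = g := by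
  funext q
  simp only [we, un, smul_smul]
  rw [← Real.exp_add, add_neg_cancel, Real.exp_zero, one_smul]

theorem un_we (c : ℝ) (g : Md → Mat) : un c (we c g) = g := by
  funext q
  simp only [we, un, smul_smul]
  rw [← Real.exp_add, neg_add_cancel, Real.exp_zero, one_smul]

theorem enorm_we (c : ℝ) (f : Md → Mat) : ∑' q, ‖we c f q‖ₑ = sN c f := by
  unfold sN
  refine tsum_congr (fun q => ?_)
  simp only [we]
  rw [enorm_smul, Real.enorm_of_nonneg (Real.exp_pos _).le]

theorem sN_un (c : ℝ) (g : X) : sN c (un c g) = ‖g‖ₑ := by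
  rw [← enorm_we, we_un, enorm_X]

theorem mem_we (c : ℝ) (f : Md → Mat) (hf : sN c f ≠ ∞) : Memℓp (we c f) (1 : ℝ≥0∞) := by
  rw [memℓp_gen_iff (by norm_num)]
  have h : Summable fun q => (‖we c f q‖ₑ).toReal := ENNReal.summable_toReal (by rwa [enorm_we])
  simpa using h

theorem un_add (c : ℝ) (f g : Md → Mat) : un c (f + g) = un c f + un c g := by
  funext q
  simp [un, smul_add]

theorem we_add (c : ℝ) (f g : Md → Mat) : we c (f + g) = we c f + we c g := by
  funext q
  simp [we, smul_add]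

theorem we_sub (c : ℝ) (f g : Md → Mat) : we c (f - g) = we c f - we c g := by
  funext q
  simp [we, smul_sub]

theorem un_smul (c : ℝ) (r : ℝ) (f : Md → Mat) : un c (r • f) = r • un c f := by
  funext q
  simp [un, smul_smul, mul_comm]

theorem we_smul (c : ℝ) (r : ℝ) (f : Md → Mat) : we c (r • f) = r • we c f := by
  funext q
  simp [we, smul_smul, mul_comm]

section alg

variable (h10 : W10) (h11 : W11)
include h10 h11

theorem sN_mm {c : ℝ} (hc : 0 ≤ c) (a b : Md → Mat) : sN c (mm a b) ≤ sN c a * sN c b := by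
  obtain ⟨k1, _, _, k4, _⟩ := h10 Md C3 C3 C3 c hc
  obtain ⟨_, _, _, l4, _⟩ := h10 Md C3 C3 C3 c hc
  rw [← l4, ← l4, ← l4, ← kcomp_mulK]
  exact k1 _ _

theorem fin0 {c : ℝ} (hc : 0 ≤ c) {a : Md → Mat} (ha : sN c a ≠ ∞) : sK 0 (mulK a) ≠ ∞ := by
  obtain ⟨_, _, _, k4, _⟩ := h10 Md C3 C3 C3 0 le_rfl
  obtain ⟨_, _, _, _, _, _, k7, _⟩ := h10 Md Mat Mat Mat c hc
  rw [k4]
  exact ne_top_of_le_ne_top ha ((k7 0 hc).2 a)

theorem mm_add {a b b' : Md → Mat} (ha : sK 0 (mulK a) ≠ ∞) (hb : sK 0 (mulK b) ≠ ∞)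
    (hb' : sK 0 (mulK b') ≠ ∞) : mm a (b + b') = mm a b + mm a b' := by
  obtain ⟨_, _, k3, _⟩ := h11 Md C3 C3 C3 C3
  have := (k3 (mulK a) (mulK a) (mulK b) (mulK b') ha ha hb hb').2
  have h : mulK (mm a (b + b')) = mulK (mm a b + mm a b') := by
    rw [← kcomp_mulK]
    exact this.trans (by rw [kcomp_mulK, kcomp_mulK]; rfl)
  funext q
  have := congrFun (congrFun h q) 0
  simpa [mulK] using this

theorem add_mm {a a' b : Md → Mat} (ha : sK 0 (mulK a) ≠ ∞) (ha' : sK 0 (mulK a') ≠ ∞)
    (hb : sK 0 (mulK b) ≠ ∞) : mm (a + a') b = mm a b + mm a' b := by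
  obtain ⟨_, _, k3, _⟩ := h11 Md C3 C3 C3 C3
  have := (k3 (mulK a) (mulK a') (mulK b) (mulK b) ha ha' hb hb).1
  have h : mulK (mm (a + a') b) = mulK (mm a b + mm a' b) := by
    rw [← kcomp_mulK]
    exact this.trans (by rw [kcomp_mulK, kcomp_mulK]; rfl)
  funext q
  have := congrFun (congrFun h q) 0
  simpa [mulK] using this

omit h10 h11 in
theorem mm_smul (a b : Md → Mat) (r : ℝ) : mm a (r • b) = r • mm a b := by
  funext q
  simp only [mm, conv, ContinuousLinearMap.compL_apply, Pi.smul_apply]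
  rw [← tsum_const_smul'']
  refine tsum_congr (fun l => ?_)
  ext v
  simp

theorem bound_aux {c : ℝ} (hc : 0 ≤ c) (a : Md → Mat) (ha : sN c a ≠ ∞) (g : X)
    (h : Memℓp (we c (mm a (un c g))) (1 : ℝ≥0∞)) :
    ‖(⟨we c (mm a (un c g)), h⟩ : X)‖ ≤ (sN c a).toReal * ‖g‖ := by
  have h1 : ‖(⟨we c (mm a (un c g)), h⟩ : X)‖ₑ ≤ sN c a * ‖g‖ₑ := by
    rw [enorm_X]
    show ∑' q, ‖we c (mm a (un c g)) q‖ₑ ≤ _
    rw [enorm_we, ← sN_un c g]
    exact sN_mm h10 h11 hc a _
  have h2 := ENNReal.toReal_mono (ENNReal.mul_ne_top ha enorm_ne_top) h1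
  rw [ENNReal.toReal_mul] at h2
  simpa using h2

/-- The operator of multiplication by `a` on the weighted space. -/
noncomputable def Top {c : ℝ} (hc : 0 ≤ c) (a : Md → Mat) (ha : sN c a ≠ ∞) : X →L[ℝ] X :=
  have hfin : ∀ g : X, sN c (mm a (un c g)) ≠ ∞ := fun g =>
    ne_top_of_le_ne_top (ENNReal.mul_ne_top ha (by rw [sN_un]; exact enorm_ne_top))
      (sN_mm h10 h11 hc a (un c g))
  LinearMap.mkContinuous
    { toFun := fun g => ⟨we c (mm a (un c g)), mem_we c _ (hfin g)⟩
      map_add' := fun g g' => by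
        apply Subtype.ext
        refine (congrArg (fun x => we c (mm a x)) (un_add c g g')).trans ?_
        refine (congrArg (we c) (mm_add h10 h11 (fin0 h10 h11 hc ha)
          (fin0 h10 h11 hc (by rw [sN_un]; exact enorm_ne_top))
          (fin0 h10 h11 hc (by rw [sN_un]; exact enorm_ne_top)))).trans ?_
        exact we_add c _ _
      map_smul' := fun r g => by
        apply Subtype.ext
        refine (congrArg (fun x => we c (mm a x)) (un_smul c r g)).trans ?_
        refine (congrArg (we c) (mm_smul a (un c g) r)).trans ?_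
        exact we_smul c _ _ } (sN c a).toReal
    (fun g => bound_aux h10 h11 hc a ha g _)

theorem Top_apply {c : ℝ} (hc : 0 ≤ c) (a : Md → Mat) (ha : sN c a ≠ ∞) (g : X) :
    un c (Top h10 h11 hc a ha g) = mm a (un c g) := by
  show un c (we c (mm a (un c g))) = _
  rw [un_we]

theorem norm_Top {c : ℝ} (hc : 0 ≤ c) (a : Md → Mat) (ha : sN c a ≠ ∞) :
    ‖Top h10 h11 hc a ha‖ ≤ (sN c a).toReal :=
  ContinuousLinearMap.opNorm_le_bound _ ENNReal.toReal_nonneg
    (fun g => bound_aux h10 h11 hc a ha g _)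

theorem Top_sub {c : ℝ} (hc : 0 ≤ c) (a a' : Md → Mat) (ha : sN c a ≠ ∞) (ha' : sN c a' ≠ ∞)
    (hs : sN c (a - a') ≠ ∞) :
    Top h10 h11 hc a ha - Top h10 h11 hc a' ha' = Top h10 h11 hc (a - a') hs := by
  ext1 g
  apply Subtype.ext
  show we c (mm a (un c g)) - we c (mm a' (un c g)) = we c (mm (a - a') (un c g))
  have h1 := add_mm h10 h11 (a := a - a') (a' := a') (b := un c g) (fin0 h10 h11 hc hs)
    (fin0 h10 h11 hc ha') (fin0 h10 h11 hc (by rw [sN_un]; exact enorm_ne_top))
  rw [sub_add_cancel] at h1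
  rw [h1, we_add, add_sub_cancel_right]

end alg

end C04

end Pool.Agent.Work.MP_b0497c_an.Unf.S
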