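import Pool.Agent.Work.MP_b0497c_an.Unf.DLag

set_option autoImplicit false

/-!
# Block D: bounds, independence of unused wave vectors, and the conclusion for a sequence of levels
-/

open scoped ENNReal
open Set MeasureTheory Filter Topology RealInnerProductSpace

namespace Pool.Agent.Work.MP_b0497c_an.Unf.S

open W

theorem reC_norm_le (a : C3) : ‖reC a‖ ≤ ‖a‖ := by
  rw [EuclideanSpace.norm_eq, EuclideanSpace.norm_eq, Fin.sum_univ_three, Fin.sum_univ_three]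
  apply Real.sqrt_le_sqrt
  simp only [reC_apply]
  gcongr <;> exact Complex.abs_re_le_norm _

theorem ofC_norm (z : E3) : ‖ofC z‖ = ‖z‖ := by
  rw [EuclideanSpace.norm_eq, EuclideanSpace.norm_eq, Fin.sum_univ_three, Fin.sum_univ_three]
  simp only [ofC_apply, Complex.norm_real]

section bounds

variable {K : ℕ → Fin 3 → ℤ} {n : ℕ} {s c κ b : ℝ} {E : Type} [NormedAddCommGroup E]
  [NormedSpace ℂ E]

/-- First and second order sums from a norm bound. -/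
theorem sums_le {f : ℝ → Md → E} (hc : 0 < c) (hκ0 : 0 ≤ κ) (hb0 : 0 ≤ b)
    (hκ : ∀ i ≤ n, |(K i 0 : ℝ)| + |(K i 1 : ℝ)| + |(K i 2 : ℝ)| ≤ κ)
    (hs : SuppT s (lev n : Set Md) f) (hf : Nrm s c 0 (fun _ => 1) f ≤ ENNReal.ofReal b)
    {t : ℝ} (ht : t ∈ Icc 0 s) :
    (Summable fun q => nx (xiZ K) q * ‖f t q‖) ∧
    (Summable fun q => nx (xiZ K) q * (nx (xiZ K) q * ‖f t q‖)) ∧
    ∑' q, nx (xiZ K) q * ‖f t q‖ ≤ κ / c * b ∧
    ∑' q, nx (xiZ K) q * (nx (xiZ K) q * ‖f t q‖) ≤ 2 * (κ / c) ^ 2 * b := by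
  have hfin : Nrm s c 0 (fun _ => 1) f ≠ ∞ := ne_top_of_le_ne_top ENNReal.ofReal_ne_top hf
  obtain ⟨u, hu, hu0, hub, hb⟩ := bound_of_Nrm hfin
  have hub' : ∑' q, u q ≤ b := by
    refine hub.trans ?_
    have := ENNReal.toReal_mono ENNReal.ofReal_ne_top hf
    rwa [ENNReal.toReal_ofReal hb0] at this
  have h1 : ∀ q, nx (xiZ K) q * ‖f t q‖ ≤ κ / c * u q := by
    intro q
    by_cases hq : q ∈ lev n
    · have h2 := nx_le K n hκ q hq
      have h3 : c * len q ≤ Real.exp (c * len q) := by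
        have := Real.add_one_le_exp (c * len q); linarith
      calc nx (xiZ K) q * ‖f t q‖ ≤ κ * len q * ‖f t q‖ :=
            mul_le_mul_of_nonneg_right h2 (norm_nonneg _)
        _ = κ / c * ((c * len q) * ‖f t q‖) := by field_simp
        _ ≤ κ / c * (Real.exp (c * len q) * ‖f t q‖) := by gcongr
        _ ≤ κ / c * u q := mul_le_mul_of_nonneg_left (hb t ht q) (by positivity)
    · rw [hs t ht q hq, norm_zero, mul_zero]
      exact mul_nonneg (by positivity) (hu0 q)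
  have h2 : ∀ q, nx (xiZ K) q * (nx (xiZ K) q * ‖f t q‖) ≤ 2 * (κ / c) ^ 2 * u q := by
    intro q
    by_cases hq : q ∈ lev n
    · have h2 := nx_le K n hκ q hq
      have h4 := nx_nonneg (xiZ K) q
      have h5 := len_nonneg q
      have h3 : (c * len q) ^ 2 ≤ 2 * Real.exp (c * len q) := by
        have := Real.quadratic_le_exp_of_nonneg (x := c * len q) (by positivity)
        nlinarith [mul_nonneg hc.le h5]
      calc nx (xiZ K) q * (nx (xiZ K) q * ‖f t q‖)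
          ≤ κ * len q * (κ * len q * ‖f t q‖) := by gcongr
        _ = (κ / c) ^ 2 * ((c * len q) ^ 2 * ‖f t q‖) := by field_simp
        _ ≤ (κ / c) ^ 2 * ((2 * Real.exp (c * len q)) * ‖f t q‖) := by gcongr
        _ = 2 * (κ / c) ^ 2 * (Real.exp (c * len q) * ‖f t q‖) := by ring
        _ ≤ 2 * (κ / c) ^ 2 * u q := mul_le_mul_of_nonneg_left (hb t ht q) (by positivity)
    · rw [hs t ht q hq, norm_zero, mul_zero, mul_zero]
      exact mul_nonneg (by positivity) (hu0 q)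
  have hn := nx_nonneg (xiZ K)
  have s1 : Summable fun q => nx (xiZ K) q * ‖f t q‖ :=
    Summable.of_nonneg_of_le (fun q => mul_nonneg (hn q) (norm_nonneg _)) h1 (hu.mul_left _)
  have s2 : Summable fun q => nx (xiZ K) q * (nx (xiZ K) q * ‖f t q‖) :=
    Summable.of_nonneg_of_le
      (fun q => mul_nonneg (hn q) (mul_nonneg (hn q) (norm_nonneg _))) h2 (hu.mul_left _)
  refine ⟨s1, s2, ?_, ?_⟩
  · calc ∑' q, nx (xiZ K) q * ‖f t q‖ ≤ ∑' q, κ / c * u q := s1.tsum_le_tsum h1 (hu.mul_left _)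
      _ = κ / c * ∑' q, u q := tsum_mul_left
      _ ≤ κ / c * b := mul_le_mul_of_nonneg_left hub' (by positivity)
  · calc ∑' q, nx (xiZ K) q * (nx (xiZ K) q * ‖f t q‖) ≤ ∑' q, 2 * (κ / c) ^ 2 * u q :=
          s2.tsum_le_tsum h2 (hu.mul_left _)
      _ = 2 * (κ / c) ^ 2 * ∑' q, u q := tsum_mul_left
      _ ≤ 2 * (κ / c) ^ 2 * b := mul_le_mul_of_nonneg_left hub' (by positivity)

end bounds

section grad

variable {Γ : Type} [AddCommGroup Γ] {ξ : Γ →+ (Fin 3 → ℤ)} {f : Γ → C3} {B1 B2 : ℝ}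

/-- Bound for the derivative. -/
theorem ev_gr_le (s1 : Summable fun q => nx ξ q * ‖f q‖)
    (h1 : ∑' q, nx ξ q * ‖f q‖ ≤ B1) (y : E3) : ‖ev (ph ξ y) (gr ξ f)‖ ≤ B1 := by
  have hs : Summable fun q => ‖gr ξ f q‖ :=
    Summable.of_nonneg_of_le (fun _ => norm_nonneg _) (gr_norm ξ f) s1
  refine (norm_ev_le (ph ξ y) hs).trans (le_trans ?_ h1)
  exact hs.tsum_le_tsum (gr_norm ξ f) s1

/-- Lipschitz bound for the derivative. -/
theorem ev_gr_lip (s1 : Summable fun q => nx ξ q * ‖f q‖)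
    (s2 : Summable fun q => nx ξ q * (nx ξ q * ‖f q‖))
    (h2 : ∑' q, nx ξ q * (nx ξ q * ‖f q‖) ≤ B2) (y : E3) :
    ‖ev (ph ξ y) (gr ξ f) - ev (ph ξ 0) (gr ξ f)‖ ≤ B2 * ‖y‖ := by
  have hs : Summable fun q => ‖gr ξ f q‖ :=
    Summable.of_nonneg_of_le (fun _ => norm_nonneg _) (gr_norm ξ f) s1
  have hb : ∀ q, nx ξ q * ‖gr ξ f q‖ ≤ nx ξ q * (nx ξ q * ‖f q‖) := fun q =>
    mul_le_mul_of_nonneg_left (gr_norm ξ f q) (nx_nonneg ξ q)
  have hs1 : Summable fun q => nx ξ q * ‖gr ξ f q‖ :=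
    Summable.of_nonneg_of_le (fun q => mul_nonneg (nx_nonneg ξ q) (norm_nonneg _)) hb s2
  have hd : ∀ y, HasFDerivAt (fun y => ev (ph ξ y) (gr ξ f)) (ev (ph ξ y) (gr ξ (gr ξ f))) y :=
    fun y => ev_hasFDerivAt ξ hs hs1 y
  have hn : ∀ y, ‖ev (ph ξ y) (gr ξ (gr ξ f))‖ ≤ B2 := by
    intro y
    have hs2 : Summable fun q => ‖gr ξ (gr ξ f) q‖ :=
      Summable.of_nonneg_of_le (fun _ => norm_nonneg _) (gr_norm ξ (gr ξ f)) hs1
    refine (norm_ev_le (ph ξ y) hs2).trans (le_trans ?_ h2)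
    exact (hs2.tsum_le_tsum (gr_norm ξ (gr ξ f)) hs1).trans (hs1.tsum_le_tsum hb s2)
  have h := convex_univ.norm_image_sub_le_of_norm_hasFDerivWithin_le
    (f := fun y => ev (ph ξ y) (gr ξ f)) (f' := fun y => ev (ph ξ y) (gr ξ (gr ξ f)))
    (fun z _ => (hd z).hasFDerivWithinAt) (fun z _ => hn z) (mem_univ (0:E3)) (mem_univ y)
  simpa using h

end grad

/-- A sequence of exact level solutions with the numbers needed for the conclusion. -/
structure LevSeq (T : ℝ) (u0 : E3 → E3) where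
  K : ℕ → Fin 3 → ℤ
  n : ℕ → ℕ
  s : ℕ → ℝ
  c : ℕ → ℝ
  x : ℕ → ℝ → Md → C3
  U : ℕ → ℝ → Md → C3
  A : ℕ → ℝ → Md → C3
  r : ℕ → ℝ → Md → ℂ
  F : ℕ → ℝ → Md → Mat
  Fi : ℕ → ℝ → Md → Mat
  M : ℕ → ℝ → Md → Mat
  κ : ℕ → ℝ
  b : ℕ → ℝ
  del : ℕ → ℝ
  s_le : ∀ j, s j ≤ T
  sol : ∀ j, LevSol K (n j) (s j) (c j) (x j) (U j) (A j) (r j) (F j) (Fi j) (M j)
  κ_nonneg : ∀ j, 0 ≤ κ j
  κ_le : ∀ j, ∀ i ≤ n j, |(K i 0 : ℝ)| + |(K i 1 : ℝ)| + |(K i 2 : ℝ)| ≤ κ j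
  b_nonneg : ∀ j, 0 ≤ b j
  x_le : ∀ j, Nrm (s j) (c j) 0 (fun _ => 1) (x j) ≤ ENNReal.ofReal (b j)
  U_le : ∀ j, Nrm (s j) (c j) 0 (fun _ => 1) (U j) ≤ ENNReal.ofReal (b j)
  datum : ∀ j y, ‖vecR (xiZ K) (U j 0) y - u0 y‖ ≤ del j
  M_tendsto : Tendsto (fun j => ‖reM (ev 0 (M j (s j)))‖) atTop atTop
  small : Tendsto (fun j => del j * (1 + κ j / c j * b j + 2 * (κ j / c j) ^ 2 * b j) ^ 14)
    atTop (𝓝 0)

theorem ph_zero {Γ : Type} [AddCommGroup Γ] (ξ : Γ →+ (Fin 3 → ℤ)) : ph ξ 0 = 0 := by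
  ext q
  simp [ph]

/-- A sequence of levels is a Lagrangian cascade. -/
noncomputable def LevSeq.cascade {T : ℝ} {u0 : E3 → E3} (L : LevSeq T u0) : CascadeLag T u0 where
  s := L.s
  X j t := mapR (xiZ L.K) (L.x j t)
  W j t := vecR (xiZ L.K) (L.U j t)
  A j t := vecR (xiZ L.K) (L.A j t)
  Q j t := scR (xiZ L.K) (L.r j t)
  M j := reM (ev 0 (L.M j (L.s j)))
  del := L.del
  B j := 1 + L.κ j / L.c j * L.b j + 2 * (L.κ j / L.c j) ^ 2 * L.b j
  s_nonneg j := (L.sol j).s_pos.le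
  s_le := L.s_le
  sol j := (L.sol j).lagSol
  datum := L.datum
  DX_le j y := by
    have hc := (L.sol j).c_pos
    have hκ := L.κ_nonneg j
    have hb := L.b_nonneg j
    have ht : L.s j ∈ Icc 0 (L.s j) := ⟨(L.sol j).s_pos.le, le_rfl⟩
    obtain ⟨s1, s2, h1, h2⟩ := sums_le hc hκ hb (L.κ_le j) (L.sol j).x_supp (L.x_le j) ht
    rw [(mapR_hasFDerivAt (xiZ L.K) (((L.sol j).x_sBd 1).sum ht) y).fderiv]
    have h3 : ‖reC.comp (ev (ph (xiZ L.K) y) (gr (xiZ L.K) (L.x j (L.s j))))‖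
        ≤ L.κ j / L.c j * L.b j := by
      apply ContinuousLinearMap.opNorm_le_bound _ (by positivity)
      intro z
      refine (reC_norm_le _).trans ((ContinuousLinearMap.le_opNorm _ z).trans ?_)
      exact mul_le_mul_of_nonneg_right (ev_gr_le s1 h1 y) (norm_nonneg _)
    have h4 : ‖ContinuousLinearMap.id ℝ E3‖ ≤ 1 := ContinuousLinearMap.norm_id_le
    have h5 : 0 ≤ 2 * (L.κ j / L.c j) ^ 2 * L.b j := by positivity
    refine (norm_add_le _ _).trans ?_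
    linarith
  DW_le j y := by
    have hc := (L.sol j).c_pos
    have hκ := L.κ_nonneg j
    have hb := L.b_nonneg j
    have ht : L.s j ∈ Icc 0 (L.s j) := ⟨(L.sol j).s_pos.le, le_rfl⟩
    obtain ⟨s1, s2, h1, h2⟩ := sums_le hc hκ hb (L.κ_le j) (L.sol j).U_supp (L.U_le j) ht
    rw [(vecR_hasFDerivAt (xiZ L.K) (((L.sol j).U_sBd 1).sum ht) y).fderiv]
    have h3 : ‖reC.comp (ev (ph (xiZ L.K) y) (gr (xiZ L.K) (L.U j (L.s j))))‖
        ≤ L.κ j / L.c j * L.b j := by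
      apply ContinuousLinearMap.opNorm_le_bound _ (by positivity)
      intro z
      refine (reC_norm_le _).trans ((ContinuousLinearMap.le_opNorm _ z).trans ?_)
      exact mul_le_mul_of_nonneg_right (ev_gr_le s1 h1 y) (norm_nonneg _)
    have h5 : 0 ≤ 2 * (L.κ j / L.c j) ^ 2 * L.b j := by positivity
    linarith
  DX_lip j y := by
    have hc := (L.sol j).c_pos
    have hκ := L.κ_nonneg j
    have hb := L.b_nonneg j
    have ht : L.s j ∈ Icc 0 (L.s j) := ⟨(L.sol j).s_pos.le, le_rfl⟩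
    obtain ⟨s1, s2, h1, h2⟩ := sums_le hc hκ hb (L.κ_le j) (L.sol j).x_supp (L.x_le j) ht
    rw [(mapR_hasFDerivAt (xiZ L.K) (((L.sol j).x_sBd 1).sum ht) y).fderiv,
      (mapR_hasFDerivAt (xiZ L.K) (((L.sol j).x_sBd 1).sum ht) 0).fderiv, add_sub_add_left_eq_sub,
      ← ContinuousLinearMap.comp_sub]
    have h3 := ev_gr_lip s1 s2 h2 y
    have h6 : 0 ≤ L.κ j / L.c j * L.b j := by positivity
    apply ContinuousLinearMap.opNorm_le_bound _ (by positivity)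
    intro z
    refine (reC_norm_le _).trans ((ContinuousLinearMap.le_opNorm _ z).trans ?_)
    apply mul_le_mul_of_nonneg_right _ (norm_nonneg _)
    refine h3.trans (mul_le_mul_of_nonneg_right ?_ (norm_nonneg _))
    linarith
  DW_lip j y := by
    have hc := (L.sol j).c_pos
    have hκ := L.κ_nonneg j
    have hb := L.b_nonneg j
    have ht : L.s j ∈ Icc 0 (L.s j) := ⟨(L.sol j).s_pos.le, le_rfl⟩
    obtain ⟨s1, s2, h1, h2⟩ := sums_le hc hκ hb (L.κ_le j) (L.sol j).U_supp (L.U_le j) ht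
    rw [(vecR_hasFDerivAt (xiZ L.K) (((L.sol j).U_sBd 1).sum ht) y).fderiv,
      (vecR_hasFDerivAt (xiZ L.K) (((L.sol j).U_sBd 1).sum ht) 0).fderiv,
      ← ContinuousLinearMap.comp_sub]
    have h3 := ev_gr_lip s1 s2 h2 y
    have h6 : 0 ≤ L.κ j / L.c j * L.b j := by positivity
    apply ContinuousLinearMap.opNorm_le_bound _ (by positivity)
    intro z
    refine (reC_norm_le _).trans ((ContinuousLinearMap.le_opNorm _ z).trans ?_)
    apply mul_le_mul_of_nonneg_right _ (norm_nonneg _)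
    refine h3.trans (mul_le_mul_of_nonneg_right ?_ (norm_nonneg _))
    linarith
  DW_eq j := by
    have ht : L.s j ∈ Icc 0 (L.s j) := ⟨(L.sol j).s_pos.le, le_rfl⟩
    rw [(L.sol j).DW_eq 0 ht, ph_zero]
  B_one j := by
    have hc := (L.sol j).c_pos
    have hκ := L.κ_nonneg j
    have hb := L.b_nonneg j
    have h5 : 0 ≤ 2 * (L.κ j / L.c j) ^ 2 * L.b j := by positivity
    have h6 : 0 ≤ L.κ j / L.c j * L.b j := by positivity
    linarith
  M_tendsto := L.M_tendsto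
  small := L.small

/-- **Conclusion** for a sequence of exact level solutions. -/
theorem no_solution_levels {T : ℝ} {u0 : E3 → E3} (L : LevSeq T u0) {T' : ℝ} (hT : T < T')
    {v : ℝ → E3 → E3} {q : ℝ → E3 → ℝ} (hv : IsClassicalSolution T' v q)
    (h0 : ∀ y, v 0 y = u0 y) : False :=
  no_classical_solution_lag L.cascade hT hv h0

end Pool.Agent.Work.MP_b0497c_an.Unf.S
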