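import Pool.Agent.Work.MP_b0497c_an.Forced.Asm.C11

set_option autoImplicit false

/-!
# Conclusion of the unforced cascade, part 2: `L²` stability of classical solutions
-/

open scoped ContDiff Matrix
open Set Filter Topology MeasureTheory RealInnerProductSpace Pool.Agent.Work.MP_b0497c_an
open Pool.Agent.Work.MP_b0497c_an.Dec Pool.Agent.Work.MP_b0497c_an.Dec.Uniq
open Pool.Agent.Work.MP_b0497c_an.Forced Pool.Agent.Work.MP_b0497c_an.Forced.C11

namespace Pool.Agent.Work.MP_b0497c_an.Unf

variable {T₁ T₂ : ℝ} {f u v : ℝ → E3 → E3} {p q : ℝ → E3 → ℝ}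

/-- `L²` stability: the distance of two classical solutions with the same force grows at most like
`exp (K t)`, `K` a bound for the gradient of one of them. -/
theorem stab (hu : IsForcedSolution T₁ f u p) (hv : IsForcedSolution T₂ f v q)
    {t K : ℝ} (ht : 0 ≤ t) (h1 : t < T₁) (h2 : t < T₂)
    (hK : ∀ s ∈ Icc 0 t, ∀ x, ‖fderiv ℝ (v s) x‖ ≤ K) :
    ∫ x in cube, ‖u t x - v t x‖ ^ 2
      ≤ (∫ x in cube, ‖u 0 x - v 0 x‖ ^ 2) * Real.exp (2 * K * t) := by
  have htc : t ∈ Icc 0 t := ⟨ht, le_rfl⟩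
  have ht1 : t ∈ Ico 0 T₁ := ⟨ht, h1⟩
  have ht2 : t ∈ Ico 0 T₂ := ⟨ht, h2⟩
  obtain ⟨U, hU0, hU⟩ := bound_u hu h1
  obtain ⟨U', hU'0, hU'⟩ := bound_u hv h2
  have hfin : IsFiniteMeasure (volume.restrict cube) :=
    ⟨by rw [Measure.restrict_apply_univ]; exact cube_compact.measure_lt_top⟩
  set E : ℝ → ℝ := fun s => ∫ x in cube, ‖u s x - v s x‖ ^ 2 with hE
  have cu : ∀ s ∈ Icc 0 t, Continuous (u s) := fun s hs =>
    (cd_u hu (sub_Ico h1 hs)).continuous
  have cv : ∀ s ∈ Icc 0 t, Continuous (v s) := fun s hs =>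
    (cd_u hv (sub_Ico h2 hs)).continuous
  have hcont : ContinuousOn E (Icc 0 t) := by
    apply continuousOn_of_dominated (bound := fun _ => (U + U') ^ 2)
    · intro s hs
      exact (((cu s hs).sub (cv s hs)).norm.pow 2).aestronglyMeasurable
    · intro s hs
      refine ae_of_all _ fun x => ?_
      rw [norm_pow, norm_norm]
      exact pow_le_pow_left₀ (norm_nonneg _)
        ((norm_sub_le _ _).trans (add_le_add (hU s hs x) (hU' s hs x))) 2
    · exact integrable_const _
    · refine ae_of_all _ fun x => ?_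
      have c3 : ContinuousOn (fun s : ℝ => (s, x)) (Icc 0 t) := by fun_prop
      have c4 : ContinuousOn ((fun z : ℝ × E3 => u z.1 z.2) ∘ (fun s : ℝ => (s, x))) (Icc 0 t) :=
        ContinuousOn.comp (C11.cont_u hu h1) c3 (fun s hs => ⟨hs, mem_univ _⟩)
      have c5 : ContinuousOn ((fun z : ℝ × E3 => v z.1 z.2) ∘ (fun s : ℝ => (s, x))) (Icc 0 t) :=
        ContinuousOn.comp (C11.cont_u hv h2) c3 (fun s hs => ⟨hs, mem_univ _⟩)
      exact ((c4.sub c5).norm).pow 2
  have hder : ∀ s ∈ Ioo 0 t, ∃ d, HasDerivAt E d s ∧ d ≤ 2 * K * E s := by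
    intro s hs
    have hs1 : s < T₁ := hs.2.trans h1
    have hs2 : s < T₂ := hs.2.trans h2
    refine ⟨_, C11.energy_deriv hu hv hs.1 hs1 hs2, ?_⟩
    have hsc : s ∈ Icc 0 t := Ioo_subset_Icc_self hs
    have mu := cd_u hu (sub_Ico h1 hsc)
    have mv := cd_u hv (sub_Ico h2 hsc)
    have cw : Continuous (fun x => u s x - v s x) := mu.continuous.sub mv.continuous
    have cMvw : Continuous (fun x => fderiv ℝ (v s) x (u s x - v s x)) :=
      (mv.continuous_fderiv (by norm_num)).clm_apply cw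
    have hneg : -(∫ x in cube, ⟪fderiv ℝ (v s) x (u s x - v s x), u s x - v s x⟫) ≤ K * E s := by
      rw [← integral_neg, hE]
      simp only
      rw [← integral_const_mul]
      have c1 : Continuous (fun x => -⟪fderiv ℝ (v s) x (u s x - v s x), u s x - v s x⟫) :=
        (cMvw.inner cw).neg
      have c2 : Continuous (fun x => K * ‖u s x - v s x‖ ^ 2) :=
        continuous_const.mul (cw.norm.pow 2)
      apply integral_mono (c1.continuousOn.integrableOn_compact cube_compact)
        (c2.continuousOn.integrableOn_compact cube_compact)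
      intro x
      show -⟪fderiv ℝ (v s) x (u s x - v s x), u s x - v s x⟫ ≤ K * ‖u s x - v s x‖ ^ 2
      have h5 := abs_real_inner_le_norm (fderiv ℝ (v s) x (u s x - v s x)) (u s x - v s x)
      have h6 := (fderiv ℝ (v s) x).le_of_opNorm_le (hK s hsc x) (u s x - v s x)
      have h7 := mul_le_mul_of_nonneg_right h6 (norm_nonneg (u s x - v s x))
      have h8 := neg_abs_le ⟪fderiv ℝ (v s) x (u s x - v s x), u s x - v s x⟫
      have e5 : K * ‖u s x - v s x‖ ^ 2 = K * ‖u s x - v s x‖ * ‖u s x - v s x‖ := by ring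
      rw [e5]
      linarith
    linarith
  set g : ℝ → ℝ := fun s => E s * Real.exp (-(2 * K * s)) with hg
  have hanti : AntitoneOn g (Icc 0 t) := by
    apply antitoneOn_of_deriv_nonpos (convex_Icc 0 t)
    · exact hcont.mul (by fun_prop)
    · rw [interior_Icc]
      intro s hs
      obtain ⟨d, hd, -⟩ := hder s hs
      exact (hd.differentiableAt.mul (by fun_prop)).differentiableWithinAt
    · rw [interior_Icc]
      intro s hs
      obtain ⟨d, hd, hle⟩ := hder s hs
      have h5 : HasDerivAt (fun s : ℝ => Real.exp (-(2 * K * s)))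
          (Real.exp (-(2 * K * s)) * (-(2 * K * 1))) s :=
        (((hasDerivAt_id s).const_mul (2 * K)).neg).exp
      have h8 : HasDerivAt g (d * Real.exp (-(2 * K * s))
          + E s * (Real.exp (-(2 * K * s)) * (-(2 * K * 1)))) s := hd.mul h5
      rw [h8.deriv]
      have h6 := Real.exp_pos (-(2 * K * s))
      nlinarith
  have h7 := hanti ⟨le_rfl, ht⟩ htc ht
  simp only [hg, mul_zero, neg_zero, Real.exp_zero, mul_one] at h7
  have h8 : E t = (E t * Real.exp (-(2 * K * t))) * Real.exp (2 * K * t) := by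
    rw [mul_assoc, ← Real.exp_add, neg_add_cancel, Real.exp_zero, mul_one]
  calc E t = (E t * Real.exp (-(2 * K * t))) * Real.exp (2 * K * t) := h8
    _ ≤ E 0 * Real.exp (2 * K * t) := mul_le_mul_of_nonneg_right h7 (Real.exp_pos _).le

end Pool.Agent.Work.MP_b0497c_an.Unf
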