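import Pool.Agent.Work.MP_b0497c_an.Bd.B22
import Pool.Agent.Work.MP_b0497c_an.Unf.Stab

set_option autoImplicit false

/-!
# Conclusion of the unforced cascade

If there are exact classical solutions `U j` of the Euler equations on the torus whose data
converge very fast to `u0` and whose gradients at the origin become unbounded at times
`s j < T`, then there is no classical solution with datum `u0` on a time interval `[0, T')`,
`T' > T`.
-/

open scoped ContDiff Matrix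
open Set Filter Topology MeasureTheory RealInnerProductSpace Pool.Agent.Work.MP_b0497c_an
open Pool.Agent.Work.MP_b0497c_an.Dec Pool.Agent.Work.MP_b0497c_an.Dec.Uniq
open Pool.Agent.Work.MP_b0497c_an.Forced Pool.Agent.Work.MP_b0497c_an.Forced.C11

namespace Pool.Agent.Work.MP_b0497c_an.Unf

/-- The data of an unforced cascade of exact classical solutions: everything that is needed for
the conclusion `no_solution`. -/
structure CascadeSol (T : ℝ) (u0 : E3 → E3) where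
  s : ℕ → ℝ
  tau : ℕ → ℝ
  U : ℕ → ℝ → E3 → E3
  P : ℕ → ℝ → E3 → ℝ
  del : ℕ → ℝ
  A : ℕ → ℝ
  B : ℕ → ℝ
  s_nonneg : ∀ j, 0 ≤ s j
  s_le : ∀ j, s j ≤ T
  s_lt : ∀ j, s j < tau j
  sol : ∀ j, IsForcedSolution (tau j) (fun _ _ => 0) (U j) (P j)
  datum : ∀ j x, ‖U j 0 x - u0 x‖ ≤ del j
  grad : ∀ j, A j ≤ ‖fderiv ℝ (U j (s j)) 0‖
  hess : ∀ j x, ‖fderiv ℝ (U j (s j)) x - fderiv ℝ (U j (s j)) 0‖ ≤ B j * ‖x‖
  B_one : ∀ j, 1 ≤ B j
  A_tendsto : Tendsto A atTop atTop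
  small : Tendsto (fun j => del j * B j ^ 3) atTop (𝓝 0)

/-- **Conclusion.** -/
theorem no_solution {T : ℝ} {u0 : E3 → E3} (c : CascadeSol T u0) {T' : ℝ} (hT : T < T')
    {v : ℝ → E3 → E3} {q : ℝ → E3 → ℝ} (hv : IsForcedSolution T' (fun _ _ => 0) v q)
    (h0 : ∀ x, v 0 x = u0 x) : False := by
  obtain ⟨K, hK0, hK⟩ := bound_M hv hT
  have hT0 : 0 ≤ T := (c.s_nonneg 0).trans (c.s_le 0)
  -- constants
  set M : ℝ := (2 * Real.pi) ^ 3 * Real.exp (2 * K * T) with hM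
  have hMpos : 0 < M := by positivity
  have hev1 : ∀ᶠ j in atTop, max (12 * K) 36 ≤ c.A j := c.A_tendsto.eventually_ge_atTop _
  have hev2 : ∀ᶠ j in atTop, c.del j * c.B j ^ 3 < 1 :=
    c.small.eventually_lt_const zero_lt_one
  have hev3 : ∀ᶠ j in atTop, 48 ^ 3 * 24 ^ 2 * M < c.A j ^ 2 := by
    have h1 : Tendsto (fun j => c.A j ^ 2) atTop atTop :=
      (tendsto_pow_atTop (two_ne_zero)).comp c.A_tendsto
    exact h1.eventually_gt_atTop _
  obtain ⟨j, hj1, hj2, hj3⟩ := (hev1.and (hev2.and hev3)).exists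
  have hB1 := c.B_one j
  have hBpos : 0 < c.B j := by linarith
  have hA := c.grad j
  have hA36 : 36 ≤ c.A j := (le_max_right _ _).trans hj1
  have hAK : 12 * K ≤ c.A j := (le_max_left _ _).trans hj1
  have hδ0 : 0 ≤ c.del j := (norm_nonneg _).trans (c.datum j 0)
  have hs0 := c.s_nonneg j
  have hsT : c.s j < T' := (c.s_le j).trans_lt hT
  set D := fderiv ℝ (c.U j (c.s j)) 0 with hD
  -- radius
  set r : ℝ := 1 / c.B j with hr
  have hr0 : 0 < r := by positivity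
  have hr1 : r ≤ 1 := by
    rw [hr, div_le_one hBpos]; exact hB1
  have hBr : c.B j * r = 1 := by rw [hr]; field_simp
  have mU := cd_u (c.sol j) (t := c.s j) ⟨hs0, c.s_lt j⟩
  have mv := cd_u hv (t := c.s j) ⟨hs0, hsT⟩
  have hlow := osc_lower (g := c.U j (c.s j)) (v := v (c.s j)) mU mv (B := c.B j) (K := K)
    (r := r) hr0 hr1 (c.hess j) (hK (c.s j) ⟨hs0, c.s_le j⟩)
    (by rw [mul_assoc, hBr]; linarith) (by linarith)
  have hup := stab (c.sol j) hv (t := c.s j) (K := K) hs0 (c.s_lt j) hsT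
    (fun s hs x => hK s ⟨hs.1, hs.2.trans (c.s_le j)⟩ x)
  have hE0 : ∫ x in cube, ‖c.U j 0 x - v 0 x‖ ^ 2 ≤ (c.del j) ^ 2 * (2 * Real.pi) ^ 3 := by
    have hfin : volume cube ≠ ⊤ := cube_compact.measure_ne_top
    have h1 : ∫ _x in cube, (c.del j) ^ 2 = (c.del j) ^ 2 * (2 * Real.pi) ^ 3 := by
      rw [setIntegral_const, volume_cube, smul_eq_mul, mul_comm]
    rw [← h1]
    have cU0 := (cd_u (c.sol j) (t := 0) ⟨le_rfl, hs0.trans_lt (c.s_lt j)⟩).continuous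
    have cv0 := (cd_u hv (t := 0) ⟨le_rfl, hs0.trans_lt hsT⟩).continuous
    apply setIntegral_mono_on
      (((cU0.sub cv0).norm.pow 2).continuousOn.integrableOn_compact cube_compact)
      (integrableOn_const hfin) cube_compact.measurableSet
    intro x _
    show ‖c.U j 0 x - v 0 x‖ ^ 2 ≤ c.del j ^ 2
    rw [h0 x]
    exact pow_le_pow_left₀ (norm_nonneg _) (c.datum j x) 2
  have hexp : Real.exp (2 * K * c.s j) ≤ Real.exp (2 * K * T) := by
    apply Real.exp_le_exp.mpr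
    have := c.s_le j
    have h2 : 0 ≤ 2 * K := by positivity
    exact mul_le_mul_of_nonneg_left this h2
  have hup2 : ∫ x in cube, ‖c.U j (c.s j) x - v (c.s j) x‖ ^ 2 ≤ (c.del j) ^ 2 * M := by
    refine hup.trans ?_
    calc (∫ x in cube, ‖c.U j 0 x - v 0 x‖ ^ 2) * Real.exp (2 * K * c.s j)
        ≤ ((c.del j) ^ 2 * (2 * Real.pi) ^ 3) * Real.exp (2 * K * T) :=
          mul_le_mul hE0 hexp (Real.exp_pos _).le (by positivity)
      _ = (c.del j) ^ 2 * M := by rw [hM]; ring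
  have hfin := hlow.trans hup2
  -- contradiction
  have hDn : c.A j ≤ ‖D‖ := hA
  have e1 : (r / 48) ^ 3 * (r * ‖D‖ / 24) ^ 2 = r ^ 5 * ‖D‖ ^ 2 / (48 ^ 3 * 24 ^ 2) := by ring
  rw [e1, div_le_iff₀ (by positivity)] at hfin
  have hA2 : c.A j ^ 2 ≤ ‖D‖ ^ 2 := pow_le_pow_left₀ (by linarith) hDn 2
  have hr5 : c.B j ^ 5 * r ^ 5 = 1 := by rw [← mul_pow, hBr, one_pow]
  have h5 : ‖D‖ ^ 2 ≤ (c.del j * c.B j ^ 3) ^ 2 * (M * (48 ^ 3 * 24 ^ 2)) := by
    calc ‖D‖ ^ 2 = c.B j ^ 5 * (r ^ 5 * ‖D‖ ^ 2) := by rw [← mul_assoc, hr5, one_mul]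
      _ ≤ c.B j ^ 5 * ((c.del j) ^ 2 * M * (48 ^ 3 * 24 ^ 2)) :=
          mul_le_mul_of_nonneg_left hfin (by positivity)
      _ ≤ c.B j ^ 6 * ((c.del j) ^ 2 * M * (48 ^ 3 * 24 ^ 2)) := by
          apply mul_le_mul_of_nonneg_right _ (by positivity)
          exact pow_le_pow_right₀ hB1 (by norm_num)
      _ = (c.del j * c.B j ^ 3) ^ 2 * (M * (48 ^ 3 * 24 ^ 2)) := by ring
  have h6 : (c.del j * c.B j ^ 3) ^ 2 ≤ 1 := by
    have h7 : 0 ≤ c.del j * c.B j ^ 3 := by positivity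
    calc (c.del j * c.B j ^ 3) ^ 2 ≤ 1 ^ 2 := pow_le_pow_left₀ h7 hj2.le 2
      _ = 1 := one_pow 2
  have h8 : (c.del j * c.B j ^ 3) ^ 2 * (M * (48 ^ 3 * 24 ^ 2)) ≤ 1 * (M * (48 ^ 3 * 24 ^ 2)) :=
    mul_le_mul_of_nonneg_right h6 (by positivity)
  linarith

end Pool.Agent.Work.MP_b0497c_an.Unf
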