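import Pool.Agent.Work.MP_b0497c_an.Unf.Ev
import Pool.Agent.Work.MP_b0497c_an.Bd.B21

set_option autoImplicit false

/-!
# Evaluation of coefficient families at labels: regularity in the label and in time
-/

open scoped ENNReal ContDiff
open Set MeasureTheory Filter Topology

namespace Pool.Agent.Work.MP_b0497c_an.Unf.W

section evdiff

variable {Γ : Type} [AddCommGroup Γ] (ξ : Γ →+ (Fin 3 → ℤ))

/-- The phase of the label `y`. -/
noncomputable def ph (y : E3) : Γ →+ ℝ where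
  toFun q := (ξ q 0 : ℝ) * y 0 + (ξ q 1 : ℝ) * y 1 + (ξ q 2 : ℝ) * y 2
  map_zero' := by simp
  map_add' p q := by
    rw [map_add]
    simp only [Pi.add_apply]
    push_cast
    ring

/-- The phase as a linear function of the label. -/
noncomputable def phL (q : Γ) : E3 →L[ℝ] ℝ :=
  (ξ q 0 : ℝ) • (EuclideanSpace.proj 0 : E3 →L[ℝ] ℝ)
    + (ξ q 1 : ℝ) • (EuclideanSpace.proj 1 : E3 →L[ℝ] ℝ)
    + (ξ q 2 : ℝ) • (EuclideanSpace.proj 2 : E3 →L[ℝ] ℝ)

theorem phL_apply (q : Γ) (y : E3) : phL ξ q y = ph ξ y q := by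
  simp [phL, ph]

/-- The size of the wave vector. -/
noncomputable def nx (q : Γ) : ℝ := |(ξ q 0 : ℝ)| + |(ξ q 1 : ℝ)| + |(ξ q 2 : ℝ)|

theorem nx_nonneg (q : Γ) : 0 ≤ nx ξ q := by unfold nx; positivity

theorem phL_norm (q : Γ) : ‖phL ξ q‖ ≤ nx ξ q := by
  have h : ∀ j : Fin 3, ‖(EuclideanSpace.proj j : E3 →L[ℝ] ℝ)‖ ≤ 1 := by
    intro j
    apply ContinuousLinearMap.opNorm_le_bound _ zero_le_one
    intro x
    rw [one_mul]
    exact PiLp.norm_apply_le x j
  have h2 : ∀ (a : ℝ) (j : Fin 3), ‖a • (EuclideanSpace.proj j : E3 →L[ℝ] ℝ)‖ ≤ |a| := by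
    intro a j
    rw [norm_smul, Real.norm_eq_abs]
    exact mul_le_of_le_one_right (abs_nonneg _) (h j)
  refine (norm_add₃_le).trans ?_
  unfold nx
  gcongr <;> apply h2

theorem ch_ph_shift (q : Γ) (y : E3) (i : Fin 3) :
    ch (ph ξ (y + (2 * Real.pi) • e i)) q = ch (ph ξ y) q := by
  have h1 : (ph ξ (y + (2 * Real.pi) • e i)) q = ph ξ y q + (ξ q i : ℝ) * (2 * Real.pi) := by
    rw [← phL_apply, ← phL_apply, map_add, map_smul]
    congr 1
    fin_cases i <;> simp [phL, e] <;> ring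
  rw [ch, ch, h1]
  push_cast
  rw [mul_add, Complex.exp_add]
  have h2 : Complex.I * ((ξ q i : ℂ) * (2 * (Real.pi : ℂ)))
      = (ξ q i : ℂ) * (2 * (Real.pi : ℂ) * Complex.I) := by ring
  rw [h2, Complex.exp_int_mul_two_pi_mul_I, mul_one]

variable {E : Type} [NormedAddCommGroup E] [NormedSpace ℂ E]

/-- Evaluation at labels is periodic. -/
theorem ev_periodic (f : Γ → E) : Periodic3 (fun y => ev (ph ξ y) f) := by
  intro i y
  simp only [ev, ch_ph_shift]

section real

variable [NormedSpace ℝ E] [IsScalarTower ℝ ℂ E]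

/-- The coefficients of the derivative in the label. -/
noncomputable def gr (f : Γ → E) (q : Γ) : E3 →L[ℝ] E := (phL ξ q).smulRight (Complex.I • f q)

theorem gr_norm (f : Γ → E) (q : Γ) : ‖gr ξ f q‖ ≤ nx ξ q * ‖f q‖ := by
  rw [gr, ContinuousLinearMap.norm_smulRight_apply, norm_smul, Complex.norm_I, one_mul]
  exact mul_le_mul_of_nonneg_right (phL_norm ξ q) (norm_nonneg _)

theorem term_deriv (f : Γ → E) (q : Γ) (y : E3) :
    HasFDerivAt (fun y => ch (ph ξ y) q • f q) (ch (ph ξ y) q • gr ξ f q) y := by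
  have h1 : HasFDerivAt (fun y : E3 => ((ph ξ y q : ℝ) : ℂ))
      (Complex.ofRealCLM.comp (phL ξ q)) y := by
    have h2 : (fun y : E3 => ((ph ξ y q : ℝ) : ℂ)) = Complex.ofRealCLM.comp (phL ξ q) := by
      funext y
      simp [phL_apply]
    rw [h2]
    exact (Complex.ofRealCLM.comp (phL ξ q)).hasFDerivAt
  have h3 : HasFDerivAt (fun y : E3 => ch (ph ξ y) q)
      (Complex.exp (Complex.I * ((ph ξ y q : ℝ) : ℂ)) •
        (Complex.I • (Complex.ofRealCLM.comp (phL ξ q)))) y :=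
    (h1.const_mul Complex.I).cexp
  have h4 := h3.smul_const (f q)
  refine h4.congr_fderiv ?_
  ext z
  simp only [gr, ContinuousLinearMap.smulRight_apply, smul_apply, ContinuousLinearMap.comp_apply,
    Complex.ofRealCLM_apply, ch, smul_eq_mul]
  rw [← algebraMap_smul ℂ (phL ξ q z) (Complex.I • f q), smul_smul, smul_smul]
  congr 1
  simp only [Complex.coe_algebraMap]
  ring

theorem ev_hasFDerivAt [CompleteSpace E] {f : Γ → E} (h0 : Summable fun q => ‖f q‖)
    (h1 : Summable fun q => nx ξ q * ‖f q‖) (y : E3) :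
    HasFDerivAt (fun y => ev (ph ξ y) f) (ev (ph ξ y) (gr ξ f)) y := by
  exact hasFDerivAt_tsum h1 (fun q y => term_deriv ξ f q y)
    (fun q y => (norm_ch_smul (ph ξ y) q (gr ξ f q)).trans_le (gr_norm ξ f q))
    (summable_ch (ph ξ y) h0) y

/-- Evaluation at labels is `C^k`. -/
theorem ev_contDiff (k : ℕ) : ∀ (E : Type) [NormedAddCommGroup E] [NormedSpace ℂ E]
    [NormedSpace ℝ E] [IsScalarTower ℝ ℂ E] [CompleteSpace E] (f : Γ → E),
    (Summable fun q => (1 + nx ξ q) ^ k * ‖f q‖) → ContDiff ℝ k (fun y => ev (ph ξ y) f) := by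
  induction k with
  | zero =>
    intro E _ _ _ _ _ f hf
    simp only [pow_zero, one_mul] at hf
    rw [Nat.cast_zero, contDiff_zero]
    apply continuous_tsum (u := fun q => ‖f q‖)
    · intro q
      exact continuous_iff_continuousAt.mpr fun y => (term_deriv ξ f q y).continuousAt
    · exact hf
    · intro q y
      rw [norm_ch_smul]
  | succ k ih =>
    intro E _ _ _ _ _ f hf
    have h0 : Summable fun q => ‖f q‖ := by
      refine Summable.of_nonneg_of_le (fun _ => norm_nonneg _) (fun q => ?_) hf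
      have h := nx_nonneg ξ q
      exact le_mul_of_one_le_left (norm_nonneg _) (one_le_pow₀ (by linarith))
    have h1 : Summable fun q => nx ξ q * ‖f q‖ := by
      refine Summable.of_nonneg_of_le (fun q => mul_nonneg (nx_nonneg ξ q) (norm_nonneg _))
        (fun q => ?_) hf
      have h := nx_nonneg ξ q
      apply mul_le_mul_of_nonneg_right _ (norm_nonneg _)
      calc nx ξ q ≤ 1 + nx ξ q := by linarith
        _ ≤ (1 + nx ξ q) ^ (k + 1) := le_self_pow₀ (by linarith) (by omega)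
    have h2 : Summable fun q => (1 + nx ξ q) ^ k * ‖gr ξ f q‖ := by
      refine Summable.of_nonneg_of_le (fun q => by have := nx_nonneg ξ q; positivity)
        (fun q => ?_) hf
      have h := nx_nonneg ξ q
      calc (1 + nx ξ q) ^ k * ‖gr ξ f q‖ ≤ (1 + nx ξ q) ^ k * (nx ξ q * ‖f q‖) := by
            gcongr; exact gr_norm ξ f q
        _ ≤ (1 + nx ξ q) ^ k * ((1 + nx ξ q) * ‖f q‖) := by gcongr; linarith
        _ = (1 + nx ξ q) ^ (k + 1) * ‖f q‖ := by ring
    have h3 : ContDiff ℝ ((k : ℕ∞ω) + 1) (fun y => ev (ph ξ y) f) := by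
      rw [contDiff_succ_iff_hasFDerivAt]
      exact ⟨fun y => ev (ph ξ y) (gr ξ f), ih (E3 →L[ℝ] E) (gr ξ f) h2,
        fun y => ev_hasFDerivAt ξ h0 h1 y⟩
    exact_mod_cast h3

end real

/-- Joint continuity in time and label. -/
theorem ev_continuousOn [CompleteSpace E] {T : ℝ} {f : ℝ → Γ → E} {u : Γ → ℝ} (hu : Summable u)
    (hf : ∀ t ∈ Icc 0 T, ∀ q, ‖f t q‖ ≤ u q)
    (hc : ∀ q, ContinuousOn (fun t => f t q) (Icc 0 T)) :
    ContinuousOn (fun z : ℝ × E3 => ev (ph ξ z.2) (f z.1)) (Icc 0 T ×ˢ univ) := by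
  apply continuousOn_tsum (u := u)
  · intro q
    have h1 : ContinuousOn (fun z : ℝ × E3 => f z.1 q) (Icc 0 T ×ˢ univ) :=
      (hc q).comp continuous_fst.continuousOn (fun z hz => hz.1)
    have h2 : Continuous (fun z : ℝ × E3 => ch (ph ξ z.2) q) := by
      have h3 : Continuous (fun y : E3 => ((ph ξ y q : ℝ) : ℂ)) := by
        have h4 : (fun y : E3 => ((ph ξ y q : ℝ) : ℂ)) = Complex.ofRealCLM.comp (phL ξ q) := by
          funext y
          simp [phL_apply]
        rw [h4]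
        exact (Complex.ofRealCLM.comp (phL ξ q)).continuous
      have h5 : Continuous (fun y : E3 => ch (ph ξ y) q) :=
        Complex.continuous_exp.comp (continuous_const.mul h3)
      exact h5.comp continuous_snd
    exact h2.continuousOn.smul h1
  · exact hu
  · intro q z hz
    rw [norm_ch_smul]
    exact hf z.1 hz.1 q

/-- Time derivative of an evaluation. -/
theorem ev_hasDerivAt [NormedSpace ℝ E] [IsScalarTower ℝ ℂ E] [CompleteSpace E] {T : ℝ}
    {f f' : ℝ → Γ → E} {u : Γ → ℝ} (hu : Summable u)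
    (hf' : ∀ t ∈ Ioo 0 T, ∀ q, ‖f' t q‖ ≤ u q)
    (hd : ∀ t ∈ Ioo 0 T, ∀ q, HasDerivAt (fun r => f r q) (f' t q) t)
    (θ : Γ →+ ℝ) {t : ℝ} (ht : t ∈ Ioo 0 T) (hs : Summable fun q => ‖f t q‖) :
    HasDerivAt (fun r => ev θ (f r)) (ev θ (f' t)) t := by
  have h := hasDerivAt_tsum_of_isPreconnected (𝕜 := ℝ) (u := u) (t := Ioo 0 T)
    (g := fun q r => ch θ q • f r q) (g' := fun q r => ch θ q • f' r q) hu isOpen_Ioo
    isPreconnected_Ioo
    (fun q r hr => (hd r hr q).const_smul (ch θ q))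
    (fun q r hr => (norm_ch_smul θ q (f' r q)).trans_le (hf' r hr q)) ht
    (summable_ch θ hs) ht
  exact h

end evdiff

end Pool.Agent.Work.MP_b0497c_an.Unf.W
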