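import Pool.Agent.Work.MP_b0497c_an.Algebra
import Pool.Agent.Work.MP_b0497c_an.Bd.B11

set_option autoImplicit false

/-!
# The centre family: exact algebra

Cross product, trace free matrices, and the reduction of the Kelvin equation to a system of two
equations, for an arbitrary trace free flow `M`, an advected vector `D` and an advected covector
`K` with `D · K = 0`.
-/

open Set ContinuousLinearMap RealInnerProductSpace

namespace Pool.Agent.Work.MP_b0497c_an.Unf.Fam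

open Forced.Ode (Op ro)

/-! ### The cross product -/

/-- The cross product. -/
noncomputable def cx (x y : E3) : E3 :=
  !₂[x 1 * y 2 - x 2 * y 1, x 2 * y 0 - x 0 * y 2, x 0 * y 1 - x 1 * y 0]

theorem cx_zero (x y : E3) : cx x y 0 = x 1 * y 2 - x 2 * y 1 := rfl
theorem cx_one (x y : E3) : cx x y 1 = x 2 * y 0 - x 0 * y 2 := rfl
theorem cx_two (x y : E3) : cx x y 2 = x 0 * y 1 - x 1 * y 0 := rfl

theorem ext3 {x y : E3} (h0 : x 0 = y 0) (h1 : x 1 = y 1) (h2 : x 2 = y 2) : x = y := by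
  ext i
  fin_cases i
  exacts [h0, h1, h2]

theorem inner_cx_left (x y : E3) : ⟪x, cx x y⟫ = 0 := by
  rw [inner_eq, cx_zero, cx_one, cx_two]
  ring

theorem inner_cx_right (x y : E3) : ⟪y, cx x y⟫ = 0 := by
  rw [inner_eq, cx_zero, cx_one, cx_two]
  ring

theorem norm_cx_sq (x y : E3) : ‖cx x y‖ ^ 2 = ‖x‖ ^ 2 * ‖y‖ ^ 2 - ⟪x, y⟫ ^ 2 := by
  rw [norm_sq_eq, norm_sq_eq, norm_sq_eq, inner_eq, cx_zero, cx_one, cx_two]
  ring

theorem norm_cx_le (x y : E3) : ‖cx x y‖ ≤ ‖x‖ * ‖y‖ := by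
  have h := norm_cx_sq x y
  have h2 : ‖cx x y‖ ^ 2 ≤ (‖x‖ * ‖y‖) ^ 2 := by
    rw [h, mul_pow]
    nlinarith [sq_nonneg ⟪x, y⟫]
  exact le_of_sq_le_sq h2 (by positivity)
where
  le_of_sq_le_sq {a b : ℝ} (h : a ^ 2 ≤ b ^ 2) (hb : 0 ≤ b) : a ≤ b :=
    le_trans (le_abs_self a) (by rw [← abs_of_nonneg hb]; exact sq_le_sq.1 h)

theorem cx_add_left (x y z : E3) : cx (x + y) z = cx x z + cx y z := by
  apply ext3 <;> simp [cx] <;> ring

theorem cx_add_right (x y z : E3) : cx x (y + z) = cx x y + cx x z := by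
  apply ext3 <;> simp [cx] <;> ring

theorem cx_smul_left (c : ℝ) (x y : E3) : cx (c • x) y = c • cx x y := by
  apply ext3 <;> simp [cx] <;> ring

theorem cx_smul_right (c : ℝ) (x y : E3) : cx x (c • y) = c • cx x y := by
  apply ext3 <;> simp [cx] <;> ring

theorem cx_swap (x y : E3) : cx y x = -cx x y := by
  apply ext3 <;> simp [cx] <;> ring

theorem cx_self (x : E3) : cx x x = 0 := by
  apply ext3 <;> simp [cx] <;> ring

theorem cx_neg_left (x y : E3) : cx (-x) y = -cx x y := by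
  apply ext3 <;> simp [cx] <;> ring

theorem cx_neg_right (x y : E3) : cx x (-y) = -cx x y := by
  apply ext3 <;> simp [cx] <;> ring

theorem cx_sub_right (x y z : E3) : cx x (y - z) = cx x y - cx x z := by
  apply ext3 <;> simp [cx] <;> ring

theorem inner_cx_cyc (x y z : E3) : ⟪x, cx y z⟫ = ⟪y, cx z x⟫ := by
  rw [inner_eq, inner_eq, cx_zero, cx_one, cx_two, cx_zero, cx_one, cx_two]
  ring

theorem cx_cx (x y z : E3) : cx x (cx y z) = ⟪x, z⟫ • y - ⟪x, y⟫ • z := by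
  apply ext3 <;> simp [cx, inner_eq] <;> ring

theorem inner_cx_cx (x y z w : E3) :
    ⟪cx x y, cx z w⟫ = ⟪x, z⟫ * ⟪y, w⟫ - ⟪x, w⟫ * ⟪y, z⟫ := by
  simp only [inner_eq, cx_zero, cx_one, cx_two]
  ring

/-- The cross product as a continuous bilinear map. -/
noncomputable def cxL : E3 →L[ℝ] E3 →L[ℝ] E3 :=
  LinearMap.mkContinuous₂ (LinearMap.mk₂ ℝ cx cx_add_left cx_smul_left cx_add_right cx_smul_right) 1
    (fun x y => by
      rw [one_mul]
      exact norm_cx_le x y)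

theorem cxL_apply (x y : E3) : cxL x y = cx x y := rfl

theorem HasDerivAt.cx {f g : ℝ → E3} {f' g' : E3} {t : ℝ} (hf : HasDerivAt f f' t)
    (hg : HasDerivAt g g' t) :
    HasDerivAt (fun s => cx (f s) (g s)) (Fam.cx (f t) g' + Fam.cx f' (g t)) t :=
  cxL.hasDerivAt_of_bilinear (fun _ => hf) (fun _ => hg)

/-! ### Trace free matrices -/

theorem trace_cx {A : Op} (htr : LinearMap.trace ℝ E3 A.toLinearMap = 0) (x y z : E3) :
    ⟪A x, cx y z⟫ + ⟪x, cx (A y) z⟫ + ⟪x, cx y (A z)⟫ = 0 := by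
  have h := trace_eq A
  rw [htr] at h
  simp only [inner_eq, cx_zero, cx_one, cx_two]
  simp only [apply_expand A x, apply_expand A y, apply_expand A z]
  linear_combination (-(x 0 * (y 1 * z 2 - y 2 * z 1) + x 1 * (y 2 * z 0 - y 0 * z 2)
    + x 2 * (y 0 * z 1 - y 1 * z 0))) * h

theorem adj_cx {A : Op} (htr : LinearMap.trace ℝ E3 A.toLinearMap = 0) (x y : E3) :
    cx (A x) y + cx x (A y) = -(adjoint A (cx x y)) := by
  refine ext_inner_left ℝ fun z => ?_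
  rw [inner_add_right, inner_neg_right, adjoint_inner_right]
  linarith [trace_cx htr z x y]

theorem trace_adjoint (A : Op) :
    LinearMap.trace ℝ E3 (adjoint A).toLinearMap = LinearMap.trace ℝ E3 A.toLinearMap := by
  have h1 := trace_eq A
  have h2 := trace_eq (adjoint A)
  have h3 : ∀ i, (adjoint A (e i)) i = (A (e i)) i := by
    intro i
    have h4 : ⟪e i, adjoint A (e i)⟫ = ⟪e i, A (e i)⟫ := by
      rw [adjoint_inner_right, real_inner_comm]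
    have h5 : ∀ x : E3, ⟪e i, x⟫ = x i := fun x => by
      simp [e, EuclideanSpace.inner_single_left]
    rwa [h5, h5] at h4
  rw [h3, h3, h3] at h2
  exact h2.trans h1.symm

/-- Covectors: the cross product of two advected covectors is an advected vector. -/
theorem cx_adj {A : Op} (htr : LinearMap.trace ℝ E3 A.toLinearMap = 0) (x y : E3) :
    cx x (-(adjoint A y)) + cx (-(adjoint A x)) y = A (cx x y) := by
  have h := adj_cx (A := adjoint A) ((trace_adjoint A).trans htr) x y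
  rw [adjoint_adjoint] at h
  rw [cx_neg_left, cx_neg_right, ← neg_add_rev, h, neg_neg]

theorem skew (A : Op) (x y : E3) : ⟪y, A x⟫ - ⟪x, A y⟫ = ⟪y, cx (axial A) x⟫ := by
  rw [antisymm_eq, inner_eq, cx_zero, cx_one, cx_two]
  rfl

theorem skew_vec (A : Op) (x : E3) : A x - adjoint A x = cx (axial A) x := by
  refine ext_inner_left ℝ fun y => ?_
  rw [inner_sub_right, adjoint_inner_right, ← skew, real_inner_comm x (A y)]

theorem axial_add (A B : Op) : axial (A + B) = axial A + axial B := by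
  apply ext3 <;> simp [axial] <;> ring

theorem axial_smul (c : ℝ) (A : Op) : axial (c • A) = c • axial A := by
  apply ext3 <;> simp [axial] <;> ring

theorem axial_ro (v k : E3) : axial (ro v k) = cx k v := by
  have h5 : ∀ (i : Fin 3) (x : E3), ⟪x, e i⟫ = x i := fun i x => by
    simp [e, EuclideanSpace.inner_single_right]
  apply ext3 <;> simp [axial, ro, cx, h5]

theorem axial_sq {A : Op} (htr : LinearMap.trace ℝ E3 A.toLinearMap = 0) :
    axial (A.comp A) = -(A (axial A)) := by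
  have h := trace_eq A
  rw [htr] at h
  apply ext3
  · show (A (A (e 1))) 2 - (A (A (e 2))) 1 = -(A (axial A)) 0
    rw [apply_expand A (A (e 1)), apply_expand A (A (e 2)), apply_expand A (axial A),
      axial_zero, axial_one, axial_two]
    linear_combination ((A (e 2)) 1 - (A (e 1)) 2) * h
  · show (A (A (e 2))) 0 - (A (A (e 0))) 2 = -(A (axial A)) 1
    rw [apply_expand A (A (e 2)), apply_expand A (A (e 0)), apply_expand A (axial A),
      axial_zero, axial_one, axial_two]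
    linear_combination ((A (e 0)) 2 - (A (e 2)) 0) * h
  · show (A (A (e 0))) 1 - (A (A (e 1))) 0 = -(A (axial A)) 2
    rw [apply_expand A (A (e 0)), apply_expand A (A (e 1)), apply_expand A (axial A),
      axial_zero, axial_one, axial_two]
    linear_combination ((A (e 1)) 0 - (A (e 0)) 1) * h

theorem axial_of_symm {S : Op} (h : ∀ x y : E3, ⟪x, S y⟫ = ⟪S x, y⟫) : axial S = 0 := by
  have h1 : ∀ x y, ⟪y, cx (axial S) x⟫ = 0 := fun x y => by
    rw [← skew, h y x, real_inner_comm, sub_self]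
  have h2 : ∀ x, cx (axial S) x = 0 := fun x => by
    have := h1 x (cx (axial S) x)
    exact inner_self_eq_zero.1 this
  have h3 := congrArg (fun z : E3 => z 2) (h2 (e 1))
  have h4 := congrArg (fun z : E3 => z 0) (h2 (e 2))
  have h5 := congrArg (fun z : E3 => z 1) (h2 (e 0))
  apply ext3
  · simpa [cx, e] using h3
  · simpa [cx, e] using h4
  · simpa [cx, e] using h5

/-! ### The reduction -/

/-- Decomposition of a vector orthogonal to `K`. -/
theorem decomp {X D K : E3} (hD : D ≠ 0) (hK : K ≠ 0) (hDK : ⟪D, K⟫ = 0) (hXK : ⟪K, X⟫ = 0) :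
    X = (⟪X, D⟫ / ‖D‖ ^ 2) • D + (⟪X, cx D K⟫ / (‖D‖ ^ 2 * ‖K‖ ^ 2)) • cx D K := by
  have h1 : ‖cx D K‖ ^ 2 = ‖D‖ ^ 2 * ‖K‖ ^ 2 := by
    rw [norm_cx_sq, hDK]
    ring
  have hD2 : ‖D‖ ^ 2 ≠ 0 := pow_ne_zero 2 (norm_ne_zero_iff.2 hD)
  have hK2 : ‖K‖ ^ 2 ≠ 0 := pow_ne_zero 2 (norm_ne_zero_iff.2 hK)
  have h2 : cx D K ≠ 0 := by
    intro h
    rw [h] at h1
    have h3 : ‖D‖ ^ 2 * ‖K‖ ^ 2 ≠ 0 := mul_ne_zero hD2 hK2
    rw [← h1] at h3
    simp at h3
  have h := Forced.Ode.prf_StSpan D (cx D K) K X hD h2 hK (inner_cx_left D K) hDK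
    (by rw [real_inner_comm]; exact inner_cx_right D K)
  rw [hXK, h1] at h
  simp only [zero_div, zero_smul, add_zero] at h
  rw [real_inner_comm D X, real_inner_comm (cx D K) X]
  exact h

/-- Length of a vector orthogonal to `K`. -/
theorem norm_decomp {X D K : E3} (hD : D ≠ 0) (hK : K ≠ 0) (hDK : ⟪D, K⟫ = 0)
    (hXK : ⟪K, X⟫ = 0) :
    ‖X‖ ^ 2 = ⟪X, D⟫ ^ 2 / ‖D‖ ^ 2 + ⟪X, cx D K⟫ ^ 2 / (‖D‖ ^ 2 * ‖K‖ ^ 2) := by
  have h1 : ‖cx D K‖ ^ 2 = ‖D‖ ^ 2 * ‖K‖ ^ 2 := by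
    rw [norm_cx_sq, hDK]
    ring
  have h0 := decomp hD hK hDK hXK
  have h : ⟪X, X⟫ = ⟪X, (⟪X, D⟫ / ‖D‖ ^ 2) • D
      + (⟪X, cx D K⟫ / (‖D‖ ^ 2 * ‖K‖ ^ 2)) • cx D K⟫ := by
    rw [← h0]
  rw [real_inner_self_eq_norm_sq, inner_add_right, inner_smul_right, inner_smul_right] at h
  rw [h]
  ring

theorem cx_of_orth {X D K : E3} (hD : D ≠ 0) (hK : K ≠ 0) (hDK : ⟪D, K⟫ = 0)
    (hXK : ⟪K, X⟫ = 0) : cx D X = -((⟪X, cx D K⟫ / ‖K‖ ^ 2) • K) := by
  have hD2 : ‖D‖ ^ 2 ≠ 0 := pow_ne_zero 2 (norm_ne_zero_iff.2 hD)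
  have hK2 : ‖K‖ ^ 2 ≠ 0 := pow_ne_zero 2 (norm_ne_zero_iff.2 hK)
  conv_lhs => rw [decomp hD hK hDK hXK]
  rw [cx_add_right, cx_smul_right, cx_smul_right, cx_self, cx_cx, hDK,
    real_inner_self_eq_norm_sq, smul_zero, zero_smul, zero_add, zero_sub, smul_neg, smul_smul]
  congr 2
  field_simp

/-- First reduced equation. -/
theorem red_p {M : Op} {X D K : ℝ → E3} {f : E3} {t : ℝ}
    (hD0 : D t ≠ 0) (hK0 : K t ≠ 0) (hDK : ⟪D t, K t⟫ = 0) (hXK : ⟪K t, X t⟫ = 0)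
    (hD : HasDerivAt D (M (D t)) t)
    (hX : HasDerivAt X (-(M (X t)) + (2 * ⟪K t, M (X t)⟫ / ‖K t‖ ^ 2) • K t + f) t) :
    HasDerivAt (fun s => ⟪X s, D s⟫)
      (-⟪axial M, K t⟫ / ‖K t‖ ^ 2 * ⟪X t, cx (D t) (K t)⟫ + ⟪f, D t⟫) t := by
  have h := hX.inner ℝ hD
  refine h.congr_deriv ?_
  have h1 : ⟪X t, M (D t)⟫ - ⟪D t, M (X t)⟫ =
      -⟪axial M, K t⟫ / ‖K t‖ ^ 2 * ⟪X t, cx (D t) (K t)⟫ := by
    rw [skew, inner_cx_cyc, cx_of_orth hD0 hK0 hDK hXK, inner_neg_right, inner_smul_right]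
    ring
  rw [inner_add_left, inner_add_left, inner_neg_left, inner_smul_left, real_inner_comm (D t) (K t),
    hDK, ← h1, real_inner_comm (D t) (M (X t))]
  ring

/-- Second reduced equation. -/
theorem red_q {M : Op} (htr : LinearMap.trace ℝ E3 M.toLinearMap = 0) {X D K : ℝ → E3} {f : E3}
    {t : ℝ} (hD0 : D t ≠ 0) (hK0 : K t ≠ 0) (hDK : ⟪D t, K t⟫ = 0) (hXK : ⟪K t, X t⟫ = 0)
    (hD : HasDerivAt D (M (D t)) t) (hK : HasDerivAt K (-(adjoint M (K t))) t)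
    (hX : HasDerivAt X (-(M (X t)) + (2 * ⟪K t, M (X t)⟫ / ‖K t‖ ^ 2) • K t + f) t) :
    HasDerivAt (fun s => ⟪X s, cx (D s) (K s)⟫ / ‖D s‖ ^ 2)
      (2 * (-⟪M (D t), cx (D t) (K t)⟫ / ‖D t‖ ^ 4) * ⟪X t, D t⟫
        + ⟪f, cx (D t) (K t)⟫ / ‖D t‖ ^ 2) t := by
  have hD2 : ‖D t‖ ^ 2 ≠ 0 := pow_ne_zero 2 (norm_ne_zero_iff.2 hD0)
  have hK2 : ‖K t‖ ^ 2 ≠ 0 := pow_ne_zero 2 (norm_ne_zero_iff.2 hK0)
  have hU := HasDerivAt.cx hD hK
  have h1 := hX.inner ℝ hU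
  have h2 : HasDerivAt (fun s => ‖D s‖ ^ 2) (2 * ⟪D t, M (D t)⟫) t := hD.norm_sq
  have h3 := h1.div h2 hD2
  refine h3.congr_deriv ?_
  -- the derivative of `⟪X, D × K⟫`
  have e1 : ⟪K t, cx (D t) (K t)⟫ = 0 := inner_cx_right _ _
  have e2 : ⟪M (X t), cx (D t) (K t)⟫ + ⟪X t, cx (M (D t)) (K t)⟫
      + ⟪X t, cx (D t) (M (K t))⟫ = 0 := trace_cx htr _ _ _
  have e3 : ⟪X t, cx (D t) (M (K t))⟫ - ⟪X t, cx (D t) (adjoint M (K t))⟫ = 0 := by
    rw [← inner_sub_right, ← cx_sub_right, skew_vec, cx_cx, hDK, zero_smul, zero_sub,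
      inner_neg_right, inner_smul_right, real_inner_comm (K t) (X t), hXK]
    ring
  have e4 : ⟪X t, cx (M (D t)) (K t)⟫ = -(⟪X t, D t⟫ / ‖D t‖ ^ 2) * ⟪M (D t), cx (D t) (K t)⟫
      + ⟪X t, cx (D t) (K t)⟫ / ‖D t‖ ^ 2 * ⟪D t, M (D t)⟫ := by
    have e5 : ⟪D t, cx (M (D t)) (K t)⟫ = -⟪M (D t), cx (D t) (K t)⟫ := by
      rw [inner_cx_cyc, cx_swap (D t) (K t), inner_neg_right]
    have e6 : ⟪cx (D t) (K t), cx (M (D t)) (K t)⟫ = ⟪D t, M (D t)⟫ * ‖K t‖ ^ 2 := by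
      rw [inner_cx_cx, hDK, real_inner_self_eq_norm_sq]
      ring
    conv_lhs => rw [decomp hD0 hK0 hDK hXK]
    rw [inner_add_left, inner_smul_left, inner_smul_left, e5, e6]
    simp only [conj_trivial]
    field_simp
  have e7 : ⟪X t, cx (D t) (-(adjoint M (K t))) + cx (M (D t)) (K t)⟫
      + ⟪-(M (X t)) + (2 * ⟪K t, M (X t)⟫ / ‖K t‖ ^ 2) • K t + f, cx (D t) (K t)⟫
      = -(2 * ⟪X t, D t⟫ / ‖D t‖ ^ 2) * ⟪M (D t), cx (D t) (K t)⟫
        + 2 * ⟪X t, cx (D t) (K t)⟫ / ‖D t‖ ^ 2 * ⟪D t, M (D t)⟫ + ⟪f, cx (D t) (K t)⟫ := by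
    rw [cx_neg_right, inner_add_right, inner_neg_right, inner_add_left, inner_add_left,
      inner_neg_left, inner_smul_left, e1]
    linear_combination e3 - e2 + 2 * e4
  rw [e7]
  field_simp
  ring

end Pool.Agent.Work.MP_b0497c_an.Unf.Fam
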