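import Pool.Agent.Work.MP_b0497c_an.Unf.Fam

set_option autoImplicit false

/-!
# The centre family: exact identities

`A` = flow of the previous level at the centre, `(v, k)` = sheet on it, `R` an advected covector,
`D = R × k`, `S' = - R · v`; for `al ∈ [-1,1]` the layer with amplitude `al`:
`M = A + al v ⊗ k`, `K = R + ((1 - al) Si + al S) k`.
-/

open Set ContinuousLinearMap RealInnerProductSpace

namespace Pool.Agent.Work.MP_b0497c_an.Unf

open Forced.Ode (Op ro)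
open Fam

/-- The data of a centre family. -/
structure FamD where
  A : ℝ → Op
  v : ℝ → E3
  k : ℝ → E3
  R : ℝ → E3
  S : ℝ → ℝ
  Si : ℝ

namespace FamD

variable (F : FamD)

/-- `D = R × k` -/
noncomputable def D (t : ℝ) : E3 := cx (F.R t) (F.k t)

/-- `S` in the layer `al` -/
noncomputable def Sl (al t : ℝ) : ℝ := (1 - al) * F.Si + al * F.S t

/-- covector in the layer `al` -/
noncomputable def K (al t : ℝ) : E3 := F.R t + F.Sl al t • F.k t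

/-- flow in the layer `al` -/
noncomputable def M (al t : ℝ) : Op := F.A t + al • ro (F.v t) (F.k t)

/-- the conserved number `- curl M · K` -/
noncomputable def Om (al t : ℝ) : ℝ := -⟪axial (F.M al t), F.K al t⟫

/-- `- curl A · k` -/
noncomputable def aa (t : ℝ) : ℝ := -⟪axial (F.A t), F.k t⟫

/-- `- v · D` -/
noncomputable def psi (t : ℝ) : ℝ := -⟪F.v t, F.D t⟫

/-- `R · v` -/
noncomputable def phi (t : ℝ) : ℝ := ⟪F.R t, F.v t⟫

/-- `phi |k|² / |D|²` -/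
noncomputable def Ph (t : ℝ) : ℝ := F.phi t * ‖F.k t‖ ^ 2 / ‖F.D t‖ ^ 2

/-- coefficient of `S` -/
noncomputable def b (t : ℝ) : ℝ := -⟪F.A t (F.D t), cx (F.D t) (F.k t)⟫ / ‖F.D t‖ ^ 4

/-- constant coefficient -/
noncomputable def b0 (t : ℝ) : ℝ := -⟪F.A t (F.D t), cx (F.D t) (F.R t)⟫ / ‖F.D t‖ ^ 4

/-- `R · k / |k|²` -/
noncomputable def nu (t : ℝ) : ℝ := ⟪F.R t, F.k t⟫ / ‖F.k t‖ ^ 2

/-- Kinematics on a set of times. -/
structure Ok (I : Set ℝ) : Prop where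
  tr : ∀ t ∈ I, LinearMap.trace ℝ E3 (F.A t).toLinearMap = 0
  kd : ∀ t ∈ I, HasDerivAt F.k (-(adjoint (F.A t) (F.k t))) t
  Rd : ∀ t ∈ I, HasDerivAt F.R (-(adjoint (F.A t) (F.R t))) t
  vd : ∀ t ∈ I, HasDerivAt F.v
    (-(F.A t (F.v t)) + (2 * ⟪F.k t, F.A t (F.v t)⟫ / ‖F.k t‖ ^ 2) • F.k t) t
  kv : ∀ t ∈ I, ⟪F.k t, F.v t⟫ = 0
  Sd : ∀ t ∈ I, HasDerivAt F.S (-⟪F.R t, F.v t⟫) t
  D0 : ∀ t ∈ I, F.D t ≠ 0

/-- A Kelvin solution with a source in the layer `al`. -/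
def Kelv (al : ℝ) (X : ℝ → E3) (f : E3) (t : ℝ) : Prop :=
  HasDerivAt X (-(F.M al t (X t))
    + (2 * ⟪F.K al t, F.M al t (X t)⟫ / ‖F.K al t‖ ^ 2) • F.K al t + f) t

/-- `p = X · D` -/
noncomputable def p (X : ℝ → E3) (t : ℝ) : ℝ := ⟪X t, F.D t⟫

/-- `q = X · (D × K) / |D|²` -/
noncomputable def q (al : ℝ) (X : ℝ → E3) (t : ℝ) : ℝ :=
  ⟪X t, cx (F.D t) (F.K al t)⟫ / ‖F.D t‖ ^ 2

variable {F}

theorem M_apply (al t : ℝ) (x : E3) : F.M al t x = F.A t x + (al * ⟪F.k t, x⟫) • F.v t := by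
  unfold M ro
  simp [smul_smul]

theorem kD (t : ℝ) : ⟪F.k t, F.D t⟫ = 0 := inner_cx_right _ _

theorem RD (t : ℝ) : ⟪F.R t, F.D t⟫ = 0 := inner_cx_left _ _

theorem DK (al t : ℝ) : ⟪F.D t, F.K al t⟫ = 0 := by
  unfold K
  rw [inner_add_right, inner_smul_right, real_inner_comm, RD, real_inner_comm, kD]
  ring

theorem MD (al t : ℝ) : F.M al t (F.D t) = F.A t (F.D t) := by
  rw [M_apply, kD, mul_zero, zero_smul, add_zero]

theorem cxKk (al t : ℝ) : cx (F.K al t) (F.k t) = F.D t := by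
  unfold K
  rw [cx_add_left, cx_smul_left, cx_self, smul_zero, add_zero]
  rfl

theorem K0 {al t : ℝ} (h : F.D t ≠ 0) : F.K al t ≠ 0 := by
  intro h1
  apply h
  rw [← cxKk al t, h1]
  apply ext3 <;> simp [cx]

theorem k0 {t : ℝ} (h : F.D t ≠ 0) : F.k t ≠ 0 := by
  intro h1
  apply h
  unfold D
  rw [h1]
  apply ext3 <;> simp [cx]

theorem adj_ro (v k x : E3) : adjoint (ro v k) x = ⟪v, x⟫ • k := by
  refine ext_inner_left ℝ fun y => ?_
  rw [adjoint_inner_right, inner_smul_right]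
  show ⟪⟪k, y⟫ • v, x⟫ = _
  rw [inner_smul_left, real_inner_comm y k]
  simp only [conj_trivial]
  ring

theorem trace_ro (v k : E3) : LinearMap.trace ℝ E3 (ro v k).toLinearMap = ⟪k, v⟫ := by
  have h5 : ∀ (i : Fin 3) (x : E3), ⟪x, e i⟫ = x i := fun i x => by
    simp [e, EuclideanSpace.inner_single_right]
  rw [trace_eq, inner_eq]
  simp [ro, h5]

variable {I : Set ℝ}

theorem Ok.trM (h : F.Ok I) (al : ℝ) {t : ℝ} (ht : t ∈ I) :
    LinearMap.trace ℝ E3 (F.M al t).toLinearMap = 0 := by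
  have h1 := trace_eq (F.M al t)
  have h2 := trace_eq (F.A t)
  have h3 := trace_eq (ro (F.v t) (F.k t))
  rw [h.tr t ht] at h2
  rw [trace_ro, h.kv t ht] at h3
  rw [h1]
  have h4 : ∀ i : Fin 3, (F.M al t (e i)) i = (F.A t (e i)) i + al * (ro (F.v t) (F.k t) (e i)) i := by
    intro i
    simp [M]
  rw [h4, h4, h4]
  linear_combination -h2 - al * h3

theorem Ok.Dd (h : F.Ok I) {t : ℝ} (ht : t ∈ I) : HasDerivAt F.D (F.A t (F.D t)) t := by
  have h1 := HasDerivAt.cx (h.Rd t ht) (h.kd t ht)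
  refine h1.congr_deriv ?_
  exact cx_adj (h.tr t ht) _ _

theorem Ok.DdM (h : F.Ok I) (al : ℝ) {t : ℝ} (ht : t ∈ I) :
    HasDerivAt F.D (F.M al t (F.D t)) t := by
  rw [MD]
  exact h.Dd ht

theorem Ok.Sld (h : F.Ok I) (al : ℝ) {t : ℝ} (ht : t ∈ I) :
    HasDerivAt (F.Sl al) (-(al * F.phi t)) t := by
  have h1 := ((h.Sd t ht).const_mul al).const_add ((1 - al) * F.Si)
  refine h1.congr_deriv ?_
  unfold phi
  ring

theorem Ok.Kd (h : F.Ok I) (al : ℝ) {t : ℝ} (ht : t ∈ I) :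
    HasDerivAt (F.K al) (-(adjoint (F.M al t) (F.K al t))) t := by
  have h1 := (h.Rd t ht).add ((h.Sld al ht).smul (h.kd t ht))
  refine h1.congr_deriv ?_
  have h2 : ⟪F.v t, F.K al t⟫ = F.phi t := by
    unfold K phi
    rw [inner_add_right, inner_smul_right, real_inner_comm (F.k t) (F.v t), h.kv t ht,
      real_inner_comm]
    ring
  have h3 : adjoint (F.M al t) (F.K al t) =
      adjoint (F.A t) (F.K al t) + (al * F.phi t) • F.k t := by
    unfold M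
    rw [map_add, add_apply, map_smul, smul_apply, adj_ro, h2, smul_smul]
  rw [h3]
  unfold K
  rw [map_add, map_smul, smul_neg, neg_smul]
  abel

/-- The coefficient `b0 + b S`. -/
theorem coef (al t : ℝ) : -⟪F.M al t (F.D t), cx (F.D t) (F.K al t)⟫ / ‖F.D t‖ ^ 4 =
    F.b0 t + F.b t * F.Sl al t := by
  rw [MD]
  unfold K b0 b
  rw [cx_add_right, cx_smul_right, inner_add_right, inner_smul_right]
  ring

theorem Ok.pd (h : F.Ok I) {al t : ℝ} (ht : t ∈ I) {X : ℝ → E3} {f : E3}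
    (hX : F.Kelv al X f t) (h0 : ⟪F.K al t, X t⟫ = 0) :
    HasDerivAt (F.p X) (F.Om al t * (‖F.D t‖ ^ 2 / ‖F.K al t‖ ^ 2) * F.q al X t + ⟪f, F.D t⟫) t := by
  have hD := h.D0 t ht
  have h1 := red_p hD (K0 hD) (DK al t) h0 (h.DdM al ht) hX
  refine h1.congr_deriv ?_
  have hD2 : ‖F.D t‖ ^ 2 ≠ 0 := pow_ne_zero 2 (norm_ne_zero_iff.2 hD)
  unfold q Om
  field_simp

theorem Ok.qd (h : F.Ok I) {al t : ℝ} (ht : t ∈ I) {X : ℝ → E3} {f : E3}
    (hX : F.Kelv al X f t) (h0 : ⟪F.K al t, X t⟫ = 0) :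
    HasDerivAt (F.q al X) (2 * (F.b0 t + F.b t * F.Sl al t) * F.p X t
      + ⟪f, cx (F.D t) (F.K al t)⟫ / ‖F.D t‖ ^ 2) t := by
  have hD := h.D0 t ht
  have h1 := red_q (h.trM al ht) hD (K0 hD) (DK al t) h0 (h.DdM al ht) (h.Kd al ht) hX
  refine h1.congr_deriv ?_
  rw [← coef]
  rfl

theorem normX {al t : ℝ} (hD : F.D t ≠ 0) {X : ℝ → E3} (h0 : ⟪F.K al t, X t⟫ = 0) :
    ‖X t‖ ^ 2 = F.p X t ^ 2 / ‖F.D t‖ ^ 2
      + F.q al X t ^ 2 * (‖F.D t‖ ^ 2 / ‖F.K al t‖ ^ 2) := by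
  have h1 := norm_decomp hD (K0 hD) (DK al t) h0
  have hD2 : ‖F.D t‖ ^ 2 ≠ 0 := pow_ne_zero 2 (norm_ne_zero_iff.2 hD)
  have hK2 : ‖F.K al t‖ ^ 2 ≠ 0 := pow_ne_zero 2 (norm_ne_zero_iff.2 (K0 hD))
  rw [h1]
  unfold p q
  field_simp

theorem vecX {al t : ℝ} (hD : F.D t ≠ 0) {X : ℝ → E3} (h0 : ⟪F.K al t, X t⟫ = 0) :
    X t = (F.p X t / ‖F.D t‖ ^ 2) • F.D t
      + (F.q al X t / ‖F.K al t‖ ^ 2) • cx (F.D t) (F.K al t) := by
  have h1 := decomp hD (K0 hD) (DK al t) h0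
  have hD2 : ‖F.D t‖ ^ 2 ≠ 0 := pow_ne_zero 2 (norm_ne_zero_iff.2 hD)
  have hK2 : ‖F.K al t‖ ^ 2 ≠ 0 := pow_ne_zero 2 (norm_ne_zero_iff.2 (K0 hD))
  unfold p q
  convert h1 using 3
  field_simp

theorem normK {al t : ℝ} (hk : F.k t ≠ 0) :
    ‖F.K al t‖ ^ 2 = ‖F.D t‖ ^ 2 / ‖F.k t‖ ^ 2 + ‖F.k t‖ ^ 2 * (F.Sl al t + F.nu t) ^ 2 := by
  have hk2 : ‖F.k t‖ ^ 2 ≠ 0 := pow_ne_zero 2 (norm_ne_zero_iff.2 hk)
  have h1 : ‖F.D t‖ ^ 2 = ‖F.R t‖ ^ 2 * ‖F.k t‖ ^ 2 - ⟪F.R t, F.k t⟫ ^ 2 := norm_cx_sq _ _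
  have h2 : ‖F.K al t‖ ^ 2 = ‖F.R t‖ ^ 2 + 2 * (F.Sl al t * ⟪F.R t, F.k t⟫)
      + F.Sl al t ^ 2 * ‖F.k t‖ ^ 2 := by
    unfold K
    rw [norm_add_sq_real, inner_smul_right, norm_smul, mul_pow, Real.norm_eq_abs, sq_abs]
  rw [h2, h1]
  unfold nu
  field_simp
  ring

/-- `K · X` is constant for every solution of the three dimensional system. -/
theorem Ok.KX (h : F.Ok I) {al t : ℝ} (ht : t ∈ I) {X : ℝ → E3} (hX : F.Kelv al X 0 t) :
    HasDerivAt (fun s => ⟪F.K al s, X s⟫) 0 t := by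
  have h1 := (h.Kd al ht).inner ℝ hX
  refine h1.congr_deriv ?_
  have hK := K0 (al := al) (h.D0 t ht)
  have hK2 : ‖F.K al t‖ ^ 2 ≠ 0 := pow_ne_zero 2 (norm_ne_zero_iff.2 hK)
  rw [add_zero, inner_add_right, inner_neg_right, inner_smul_right, inner_neg_left,
    adjoint_inner_left, real_inner_self_eq_norm_sq, real_inner_comm (F.M al t (X t))]
  field_simp
  ring

theorem Ok.psid (h : F.Ok I) {t : ℝ} (ht : t ∈ I) :
    HasDerivAt F.psi (F.aa t * F.phi t) t := by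
  have hk := k0 (h.D0 t ht)
  have h1 := ((h.vd t ht).inner ℝ (h.Dd ht)).neg
  refine h1.congr_deriv ?_
  have h2 : cx (F.D t) (F.v t) = F.phi t • F.k t := by
    unfold D phi
    rw [cx_swap (F.v t), cx_cx, real_inner_comm (F.k t) (F.v t), h.kv t ht, zero_smul, zero_sub,
      neg_neg, real_inner_comm]
  have h3 : ⟪F.v t, F.A t (F.D t)⟫ - ⟪F.D t, F.A t (F.v t)⟫ =
      F.phi t * ⟪axial (F.A t), F.k t⟫ := by
    rw [skew, inner_cx_cyc, h2, inner_smul_right]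
  rw [inner_add_left, inner_neg_left, inner_smul_left, kD, real_inner_comm (F.D t)]
  unfold aa
  linear_combination -h3

theorem Ok.Phd (h : F.Ok I) {t : ℝ} (ht : t ∈ I) :
    HasDerivAt F.Ph (2 * F.b t * F.psi t) t := by
  have hD := h.D0 t ht
  have hk := k0 hD
  have h1 := red_q (f := 0) (h.tr t ht) hD hk (by rw [real_inner_comm]; exact kD t) (h.kv t ht)
    (h.Dd ht) (h.kd t ht) (by rw [add_zero]; exact h.vd t ht)
  have h2 : ∀ s, ⟪F.v s, cx (F.D s) (F.k s)⟫ = ⟪F.k s, F.v s⟫ * ⟪F.R s, F.k s⟫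
      - F.phi s * ‖F.k s‖ ^ 2 := by
    intro s
    unfold D phi
    rw [cx_swap (F.k s), cx_cx, real_inner_self_eq_norm_sq, inner_neg_right, inner_sub_right,
      inner_smul_right, inner_smul_right, real_inner_comm (F.k s) (F.v s),
      real_inner_comm (F.R s) (F.k s), real_inner_comm (F.R s) (F.v s)]
    ring
  have h3 := h1.neg
  have h4 : HasDerivAt (fun s => -((⟪F.k s, F.v s⟫ * ⟪F.R s, F.k s⟫
      - F.phi s * ‖F.k s‖ ^ 2) / ‖F.D s‖ ^ 2))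
      (-(2 * (-⟪F.A t (F.D t), cx (F.D t) (F.k t)⟫ / ‖F.D t‖ ^ 4) * ⟪F.v t, F.D t⟫
        + ⟪(0 : E3), cx (F.D t) (F.k t)⟫ / ‖F.D t‖ ^ 2)) t := by
    refine h3.congr_of_eventuallyEq (Filter.Eventually.of_forall fun s => ?_)
    show _ = -(⟪F.v s, cx (F.D s) (F.k s)⟫ / ‖F.D s‖ ^ 2)
    rw [h2]
  -- the term `k · v` vanishes on `I` with its derivative
  have h5 : HasDerivAt (fun s => ⟪F.k s, F.v s⟫) 0 t := by
    have h6 := (h.kd t ht).inner ℝ (h.vd t ht)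
    refine h6.congr_deriv ?_
    have hk2 : ‖F.k t‖ ^ 2 ≠ 0 := pow_ne_zero 2 (norm_ne_zero_iff.2 hk)
    rw [inner_add_right, inner_neg_right, inner_smul_right, inner_neg_left,
      adjoint_inner_left, real_inner_self_eq_norm_sq, real_inner_comm (F.A t (F.v t))]
    field_simp
    ring
  have h7 : HasDerivAt (fun s => ⟪F.R s, F.k s⟫) (⟪F.R t, -(adjoint (F.A t) (F.k t))⟫
      + ⟪-(adjoint (F.A t) (F.R t)), F.k t⟫) t := (h.Rd t ht).inner ℝ (h.kd t ht)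
  have h8 : HasDerivAt (fun s => ‖F.D s‖ ^ 2) (2 * ⟪F.D t, F.A t (F.D t)⟫) t :=
    (h.Dd ht).norm_sq
  have hD2 : ‖F.D t‖ ^ 2 ≠ 0 := pow_ne_zero 2 (norm_ne_zero_iff.2 hD)
  have h9 := ((h5.mul h7).div h8 hD2).add h4
  have h10 := h9.congr_of_eventuallyEq (f₁ := F.Ph) (Filter.Eventually.of_forall fun s => by
    show F.phi s * ‖F.k s‖ ^ 2 / ‖F.D s‖ ^ 2 = ⟪F.k s, F.v s⟫ * ⟪F.R s, F.k s⟫ / ‖F.D s‖ ^ 2 +
      -((⟪F.k s, F.v s⟫ * ⟪F.R s, F.k s⟫ - F.phi s * ‖F.k s‖ ^ 2) / ‖F.D s‖ ^ 2)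
    ring)
  refine h10.congr_deriv ?_
  rw [h.kv t ht, inner_zero_left]
  unfold b psi
  simp only [Pi.mul_apply, h.kv t ht]
  ring

theorem Ok.SPsi (h : F.Ok I) {t : ℝ} (ht : t ∈ I) {a' : ℝ} (ha : F.aa t = a') :
    HasDerivAt (fun s => F.psi s + a' * F.S s) 0 t := by
  have h1 := (h.psid ht).add ((h.Sd t ht).const_mul a')
  refine h1.congr_deriv ?_
  rw [ha]
  unfold phi
  ring

/-- The vorticity law. -/
theorem axial_deriv {A : ℝ → Op} {A' : Op} {t : ℝ} (hA : HasDerivAt A A' t)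
    (htr : LinearMap.trace ℝ E3 (A t).toLinearMap = 0)
    (hs : ∀ x y : E3, ⟪x, A' y + A t (A t y)⟫ = ⟪A' x + A t (A t x), y⟫) :
    HasDerivAt (fun s => axial (A s)) (A t (axial (A t))) t := by
  have h0 : axial (A' + (A t).comp (A t)) = 0 := axial_of_symm fun x y => hs x y
  rw [axial_add, axial_sq htr] at h0
  have h1 : axial A' = A t (axial (A t)) := by
    rw [← sub_eq_add_neg, sub_eq_zero] at h0
    exact h0
  let L : Op →ₗ[ℝ] E3 :=
    { toFun := axial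
      map_add' := axial_add
      map_smul' := fun c A => axial_smul c A }
  have h2 : HasDerivAt (fun s => (LinearMap.toContinuousLinearMap L) (A s))
      ((LinearMap.toContinuousLinearMap L) A') t :=
    (LinearMap.toContinuousLinearMap L).hasFDerivAt.comp_hasDerivAt t hA
  rw [← h1]
  exact h2

/-- Curl times an advected covector is constant. -/
theorem axial_covec {A : ℝ → Op} {A' : Op} {t : ℝ} (hA : HasDerivAt A A' t)
    (htr : LinearMap.trace ℝ E3 (A t).toLinearMap = 0)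
    (hs : ∀ x y : E3, ⟪x, A' y + A t (A t y)⟫ = ⟪A' x + A t (A t x), y⟫) {k : ℝ → E3}
    (hk : HasDerivAt k (-(adjoint (A t) (k t))) t) :
    HasDerivAt (fun s => ⟪axial (A s), k s⟫) 0 t := by
  have h1 := (axial_deriv hA htr hs).inner ℝ hk
  refine h1.congr_deriv ?_
  rw [inner_neg_right, adjoint_inner_right]
  ring

theorem Om_eq (al t : ℝ) : F.Om al t =
    -⟪axial (F.A t), F.R t⟫ + F.aa t * F.Sl al t + al * F.psi t := by
  unfold Om M K aa psi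
  have h1 : ⟪cx (F.k t) (F.v t), F.R t⟫ = ⟪F.v t, F.D t⟫ := by
    unfold D
    rw [real_inner_comm, inner_cx_cyc, inner_cx_cyc]
  rw [axial_add, axial_smul, axial_ro, inner_add_left, inner_add_right, inner_add_right,
    inner_smul_left, inner_smul_left, inner_smul_right, inner_smul_right, h1,
    real_inner_comm (F.k t) (cx (F.k t) (F.v t)), inner_cx_left]
  simp only [conj_trivial]
  ring

theorem Ok.Omd (h : F.Ok I) (al : ℝ) {t : ℝ} (ht : t ∈ I) {A' : Op} (hA : HasDerivAt F.A A' t)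
    (hs : ∀ x y : E3, ⟪x, A' y + F.A t (F.A t y)⟫ = ⟪A' x + F.A t (F.A t x), y⟫) :
    HasDerivAt (F.Om al) 0 t := by
  have h1 := axial_covec hA (h.tr t ht) hs (h.Rd t ht)
  have h2 := axial_covec hA (h.tr t ht) hs (h.kd t ht)
  have h3 : HasDerivAt F.aa 0 t := by
    have := h2.neg
    rwa [neg_zero] at this
  have h4 := ((h1.neg).add (h3.mul (h.Sld al ht))).add ((h.psid ht).const_mul al)
  have h5 : F.Om al = fun s => -⟪axial (F.A s), F.R s⟫ + F.aa s * F.Sl al s + al * F.psi s :=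
    funext fun s => Om_eq al s
  rw [h5]
  refine h4.congr_deriv ?_
  ring

end FamD

end Pool.Agent.Work.MP_b0497c_an.Unf
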