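import Pool.Agent.Work.MP_b0497c_an.Unf.Conj

set_option autoImplicit false

/-!
# Far region: estimates at one time (OK.4, F1 and F2)
-/

open scoped ContDiff RealInnerProductSpace
open Set ContinuousLinearMap

namespace Pool.Agent.Work.MP_b0497c_an.Unf.O

open Forced.Ode

/-- Bounds at one time of the far region; `τ = t0 - t`. -/
structure FB (A : ℝ → Op) (n v ξ : ℝ → E3) (lam : ℝ → ℝ) (al s a b τ t : ℝ) : Prop where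
  cj : CJ A n v ξ lam al s t
  b10 : 10 ≤ b
  a0 : 0 < a
  τ0 : 0 < τ
  τb : τ ≤ b
  al1 : |al| ≤ 1
  hA : ‖A t‖ ≤ b
  n1 : 1 ≤ b ^ 2 * ‖n t‖
  ξ2 : ‖ξ t‖ ≤ b ^ 2
  B2 : ‖bB n ξ t‖ ≤ b ^ 2
  v2 : ‖v t‖ ≤ b * a
  φ2 : |⟪ξ t, v t⟫| ≤ 2 * b ^ 6 * a * τ
  s1 : 1 ≤ b * s
  s2 : s ≤ b
  l1 : a * τ ^ 2 ≤ 8 * b ^ 3 * lt n ξ lam t
  l2 : b ^ 6 ≤ lt n ξ lam t
  L1 : a ≤ 2 * (s * LL n v ξ lam al s t)

/-- the size of the remainder of the conjugated equation -/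
noncomputable def ep (a b τ : ℝ) : ℝ := 1400 * b ^ 18 / (a * τ ^ 4) + 56000 * b ^ 33 / (a ^ 2 * τ ^ 7)

namespace FB

variable {A : ℝ → Op} {n v ξ X : ℝ → E3} {lam : ℝ → ℝ} {al s a b τ t : ℝ}

theorem b0 (h : FB A n v ξ lam al s a b τ t) : 0 < b := by linarith [h.b10]

theorem s0 (h : FB A n v ξ lam al s a b τ t) : 0 < s := by
  have h1 := h.s1
  have h2 := h.b0
  by_contra hc
  push Not at hc
  nlinarith

theorem lt0 (h : FB A n v ξ lam al s a b τ t) : 0 < lt n ξ lam t :=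
  lt_of_lt_of_le (by have := h.b0; positivity) h.l2

theorem LL0 (h : FB A n v ξ lam al s a b τ t) : 0 < LL n v ξ lam al s t := by
  have h1 := h.L1
  have h2 := h.s0
  have h3 := h.a0
  by_contra hc
  push Not at hc
  nlinarith

theorem n0 (h : FB A n v ξ lam al s a b τ t) : 0 < ‖n t‖ := norm_pos_iff.2 h.cj.n0

theorem ninv (h : FB A n v ξ lam al s a b τ t) : ‖n t‖⁻¹ ≤ b ^ 2 := by
  have h1 := h.n1
  have h2 := h.n0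
  rw [inv_le_iff_one_le_mul₀ h2]
  exact h1

theorem ze_n (h : FB A n v ξ lam al s a b τ t) : ‖ze n X t • n t‖ = |⟪n t, X t⟫| * ‖n t‖⁻¹ := by
  have h2 := h.n0
  rw [norm_smul, Real.norm_eq_abs, ze, abs_div, abs_of_nonneg (by positivity : (0:ℝ) ≤ ‖n t‖ ^ 2)]
  field_simp

/-- the component along `n` -/
theorem nX (h : FB A n v ξ lam al s a b τ t) (hX : ⟪kk n ξ lam t, X t⟫ = 0) :
    |⟪n t, X t⟫| ≤ b ^ 2 * (lt n ξ lam t)⁻¹ * ‖uu n X t‖ := by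
  have h0 := h.lt0
  rw [h.cj.n_X hX h0.ne', abs_neg, abs_div, abs_of_pos h0, div_eq_mul_inv]
  have h1 : |⟪ξ t, uu n X t⟫| ≤ b ^ 2 * ‖uu n X t‖ :=
    (abs_real_inner_le_norm _ _).trans (mul_le_mul_of_nonneg_right h.ξ2 (norm_nonneg _))
  calc |⟪ξ t, uu n X t⟫| * (lt n ξ lam t)⁻¹ ≤ (b ^ 2 * ‖uu n X t‖) * (lt n ξ lam t)⁻¹ := by gcongr
    _ = _ := by ring

theorem Xu (h : FB A n v ξ lam al s a b τ t) (hX : ⟪kk n ξ lam t, X t⟫ = 0) :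
    ‖X t - uu n X t‖ ≤ b ^ 4 * (lt n ξ lam t)⁻¹ * ‖uu n X t‖ := by
  have h0 := h.lt0
  have hb := h.b0
  have e1 : X t - uu n X t = ze n X t • n t := by simp [uu]
  rw [e1, h.ze_n]
  calc |⟪n t, X t⟫| * ‖n t‖⁻¹ ≤ (b ^ 2 * (lt n ξ lam t)⁻¹ * ‖uu n X t‖) * b ^ 2 := by
        gcongr
        · exact h.nX hX
        · exact h.ninv
    _ = _ := by ring

/-- (F1), first half -/
theorem X_le (h : FB A n v ξ lam al s a b τ t) (hX : ⟪kk n ξ lam t, X t⟫ = 0) :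
    ‖X t‖ ≤ 2 * ‖uu n X t‖ := by
  have h0 := h.lt0
  have h1 := h.Xu hX
  have h2 : b ^ 4 * (lt n ξ lam t)⁻¹ ≤ 1 := by
    rw [← div_eq_mul_inv, div_le_one h0]
    refine le_trans ?_ h.l2
    exact pow_le_pow_right₀ (by linarith [h.b10]) (by norm_num)
  have h3 : X t = uu n X t + (X t - uu n X t) := by abel
  calc ‖X t‖ = ‖uu n X t + (X t - uu n X t)‖ := by rw [← h3]
    _ ≤ ‖uu n X t‖ + ‖X t - uu n X t‖ := norm_add_le _ _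
    _ ≤ ‖uu n X t‖ + 1 * ‖uu n X t‖ := by
      gcongr
      exact h1.trans (mul_le_mul_of_nonneg_right h2 (norm_nonneg _))
    _ = _ := by ring

end FB

/-- (F1), second half -/
theorem uu_le {n X : ℝ → E3} {t : ℝ} (hn : n t ≠ 0) : ‖uu n X t‖ ≤ ‖X t‖ := by
  have h1 : X t = uu n X t + ze n X t • n t := by simp [uu]
  have h2 : ⟪uu n X t, ze n X t • n t⟫ = 0 := by
    rw [inner_smul_right, real_inner_comm, n_uu hn, mul_zero]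
  have h3 : ‖X t‖ ^ 2 = ‖uu n X t‖ ^ 2 + ‖ze n X t • n t‖ ^ 2 := by
    conv_lhs => rw [h1]
    rw [norm_add_sq_real, h2]
    ring
  have h4 : ‖uu n X t‖ ^ 2 ≤ ‖X t‖ ^ 2 := by
    rw [h3]
    exact le_add_of_nonneg_right (sq_nonneg _)
  exact (sq_le_sq₀ (norm_nonneg _) (norm_nonneg _)).1 h4

theorem ξp_le {n ξ : ℝ → E3} {t : ℝ} (hn : n t ≠ 0) : ‖ξp n ξ t‖ ≤ ‖ξ t‖ := by
  have h1 : ξp n ξ t = uu n ξ t := by
    simp only [ξp, uu, nu, Unf.O.ze]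
    rw [real_inner_comm (n t) (ξ t)]
  rw [h1]
  exact uu_le hn

/-- `x - (n·x/|n|²) n` is shorter than `x` -/
theorem pn_le {n x : E3} (hn : n ≠ 0) : ‖x - (⟪n, x⟫ / ‖n‖ ^ 2) • n‖ ≤ ‖x‖ := by
  have := uu_le (n := fun _ => n) (X := fun _ => x) (t := 0) hn
  exact this

namespace FB

variable {A : ℝ → Op} {n v ξ X : ℝ → E3} {lam : ℝ → ℝ} {al s a b τ t : ℝ}

theorem ξpb (h : FB A n v ξ lam al s a b τ t) : ‖ξp n ξ t‖ ≤ b ^ 2 := (ξp_le h.cj.n0).trans h.ξ2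

theorem kv (h : FB A n v ξ lam al s a b τ t) : ⟪kk n ξ lam t, v t⟫ = ⟪ξ t, v t⟫ := by
  rw [kk, inner_add_left, real_inner_smul_left, h.cj.nv]
  ring

theorem k_ge (h : FB A n v ξ lam al s a b τ t) : lt n ξ lam t * ‖n t‖ ≤ ‖kk n ξ lam t‖ := by
  have hn := h.n0
  have e6 : ⟪n t, kk n ξ lam t⟫ = lt n ξ lam t * ‖n t‖ ^ 2 := by
    simp only [kk, lt, nu, inner_add_right, inner_smul_right, real_inner_self_eq_norm_sq]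
    rw [real_inner_comm (n t) (ξ t)]
    field_simp
    ring
  have h1 : ⟪n t, kk n ξ lam t⟫ ≤ ‖n t‖ * ‖kk n ξ lam t‖ := real_inner_le_norm _ _
  rw [e6] at h1
  have h2 : ‖n t‖ * (lt n ξ lam t * ‖n t‖) ≤ ‖n t‖ * ‖kk n ξ lam t‖ := by nlinarith
  exact le_of_mul_le_mul_left h2 hn

theorem kinv (h : FB A n v ξ lam al s a b τ t) :
    ‖kk n ξ lam t‖⁻¹ ≤ b ^ 2 * (lt n ξ lam t)⁻¹ := by
  have hn := h.n0
  have h0 := h.lt0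
  have h1 := h.k_ge
  calc ‖kk n ξ lam t‖⁻¹ ≤ (lt n ξ lam t * ‖n t‖)⁻¹ := by
        apply inv_anti₀ (by positivity) h1
    _ = ‖n t‖⁻¹ * (lt n ξ lam t)⁻¹ := by rw [mul_inv, mul_comm]
    _ ≤ b ^ 2 * (lt n ξ lam t)⁻¹ := by
      gcongr
      exact h.ninv

theorem ga_le (h : FB A n v ξ lam al s a b τ t) (hX : ⟪kk n ξ lam t, X t⟫ = 0) :
    |ga A n v ξ X lam al t| ≤
      (4 * b ^ 3 * (lt n ξ lam t)⁻¹ + 4 * b ^ 12 * a * τ * (lt n ξ lam t)⁻¹ ^ 3) *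
        ‖uu n X t‖ := by
  have hn := h.n0
  have h0 := h.lt0
  have hb := h.b0
  have ha := h.a0
  have hτ := h.τ0
  have hk : 0 < ‖kk n ξ lam t‖ := lt_of_lt_of_le (by positivity) h.k_ge
  have e1 : ⟪kk n ξ lam t, MM A n v al t (X t)⟫ = ⟪kk n ξ lam t, A t (X t)⟫
      + al * ⟪n t, X t⟫ * ⟪ξ t, v t⟫ := by
    rw [MM_apply, inner_add_right, inner_smul_right, h.kv]
  have e2 : |⟪kk n ξ lam t, A t (X t)⟫| ≤ ‖kk n ξ lam t‖ * (b * (2 * ‖uu n X t‖)) := by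
    refine (abs_real_inner_le_norm _ _).trans ?_
    gcongr
    refine (le_opNorm _ _).trans ?_
    gcongr
    · exact h.hA
    · exact h.X_le hX
  have e3 : |al * ⟪n t, X t⟫ * ⟪ξ t, v t⟫| ≤
      1 * (b ^ 2 * (lt n ξ lam t)⁻¹ * ‖uu n X t‖) * (2 * b ^ 6 * a * τ) := by
    rw [abs_mul, abs_mul]
    gcongr
    · exact h.al1
    · exact h.nX hX
    · exact h.φ2
  have e4 : |ga A n v ξ X lam al t| = 2 * |⟪kk n ξ lam t, MM A n v al t (X t)⟫|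
      * ‖kk n ξ lam t‖⁻¹ ^ 2 := by
    rw [ga, abs_div, abs_mul, abs_of_pos (two_pos : (0:ℝ) < 2),
      abs_of_nonneg (by positivity : (0:ℝ) ≤ ‖kk n ξ lam t‖ ^ 2)]
    field_simp
  rw [e4, e1]
  have hki := h.kinv
  calc 2 * |⟪kk n ξ lam t, A t (X t)⟫ + al * ⟪n t, X t⟫ * ⟪ξ t, v t⟫| * ‖kk n ξ lam t‖⁻¹ ^ 2
      ≤ 2 * (‖kk n ξ lam t‖ * (b * (2 * ‖uu n X t‖)) +
        1 * (b ^ 2 * (lt n ξ lam t)⁻¹ * ‖uu n X t‖) * (2 * b ^ 6 * a * τ))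
          * ‖kk n ξ lam t‖⁻¹ ^ 2 := by
        gcongr
        exact (abs_add_le _ _).trans (add_le_add e2 e3)
    _ = 4 * b * ‖uu n X t‖ * ‖kk n ξ lam t‖⁻¹ +
        4 * b ^ 8 * a * τ * (lt n ξ lam t)⁻¹ * ‖uu n X t‖ * ‖kk n ξ lam t‖⁻¹ ^ 2 := by
      field_simp
      ring
    _ ≤ 4 * b * ‖uu n X t‖ * (b ^ 2 * (lt n ξ lam t)⁻¹) +
        4 * b ^ 8 * a * τ * (lt n ξ lam t)⁻¹ * ‖uu n X t‖ * (b ^ 2 * (lt n ξ lam t)⁻¹) ^ 2 := by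
      gcongr
    _ = _ := by ring

/-- (F1), the remainder -/
theorem rho_le (h : FB A n v ξ lam al s a b τ t) (hX : ⟪kk n ξ lam t, X t⟫ = 0) :
    ‖rho A n v ξ X lam al t‖ ≤
      (6 * b ^ 5 * (lt n ξ lam t)⁻¹ + 4 * b ^ 14 * a * τ * (lt n ξ lam t)⁻¹ ^ 3) *
        ‖uu n X t‖ := by
  have hn := h.n0
  have h0 := h.lt0
  have hb := h.b0
  have ha := h.a0
  have hτ := h.τ0
  set x : E3 := adjoint (A t) (n t) - A t (n t) with hx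
  have e1 : ‖x‖ ≤ 2 * b * ‖n t‖ := by
    have h1 : ‖adjoint (A t) (n t)‖ ≤ b * ‖n t‖ := by
      refine (le_opNorm _ _).trans ?_
      rw [LinearIsometryEquiv.norm_map]
      gcongr
      exact h.hA
    have h2 : ‖A t (n t)‖ ≤ b * ‖n t‖ := by
      refine (le_opNorm _ _).trans ?_
      gcongr
      exact h.hA
    calc ‖x‖ ≤ ‖adjoint (A t) (n t)‖ + ‖A t (n t)‖ := norm_sub_le _ _
      _ ≤ b * ‖n t‖ + b * ‖n t‖ := add_le_add h1 h2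
      _ = _ := by ring
  have e2 : ‖ze n X t • (x - (⟪n t, x⟫ / ‖n t‖ ^ 2) • n t)‖ ≤
      2 * b ^ 5 * (lt n ξ lam t)⁻¹ * ‖uu n X t‖ := by
    have h1 : ‖ze n X t‖ = |⟪n t, X t⟫| * ‖n t‖⁻¹ ^ 2 := by
      rw [Real.norm_eq_abs, Unf.O.ze, abs_div,
        abs_of_nonneg (by positivity : (0:ℝ) ≤ ‖n t‖ ^ 2)]
      field_simp
    rw [norm_smul, h1]
    calc |⟪n t, X t⟫| * ‖n t‖⁻¹ ^ 2 * ‖x - (⟪n t, x⟫ / ‖n t‖ ^ 2) • n t‖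
        ≤ |⟪n t, X t⟫| * ‖n t‖⁻¹ ^ 2 * (2 * b * ‖n t‖) := by
          gcongr
          exact (pn_le h.cj.n0).trans e1
      _ = 2 * b * |⟪n t, X t⟫| * ‖n t‖⁻¹ := by
        field_simp
      _ ≤ 2 * b * (b ^ 2 * (lt n ξ lam t)⁻¹ * ‖uu n X t‖) * b ^ 2 := by
        gcongr
        · exact h.nX hX
        · exact h.ninv
      _ = _ := by ring
  have e3 : ‖ga A n v ξ X lam al t • ξp n ξ t‖ ≤
      ((4 * b ^ 3 * (lt n ξ lam t)⁻¹ + 4 * b ^ 12 * a * τ * (lt n ξ lam t)⁻¹ ^ 3) *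
        ‖uu n X t‖) * b ^ 2 := by
    rw [norm_smul, Real.norm_eq_abs]
    gcongr
    · exact h.ga_le hX
    · exact h.ξpb
  have e4 : rho A n v ξ X lam al t = ga A n v ξ X lam al t • ξp n ξ t
      + ze n X t • (x - (⟪n t, x⟫ / ‖n t‖ ^ 2) • n t) := rfl
  rw [e4]
  refine (norm_add_le _ _).trans ((add_le_add e3 e2).trans (le_of_eq ?_))
  ring

theorem T_le (h : FB A n v ξ lam al s a b τ t) (z : E3) :
    ‖(al / (s * LL n v ξ lam al s t) * ⟪bB n ξ t, z⟫) • v t‖ ≤ 2 * b ^ 3 * ‖z‖ := by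
  have hb := h.b0
  have ha := h.a0
  have hs := h.s0
  have hL := h.LL0
  have h1 := h.L1
  have h2 : (s * LL n v ξ lam al s t)⁻¹ ≤ 2 * a⁻¹ := by
    rw [inv_le_iff_one_le_mul₀ (by positivity)]
    have : 1 = a * a⁻¹ := by field_simp
    rw [this]
    calc a * a⁻¹ ≤ (2 * (s * LL n v ξ lam al s t)) * a⁻¹ := by gcongr
      _ = _ := by ring
  rw [norm_smul, norm_mul, Real.norm_eq_abs, Real.norm_eq_abs, div_eq_mul_inv, abs_mul,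
    abs_of_nonneg (by positivity : (0:ℝ) ≤ (s * LL n v ξ lam al s t)⁻¹)]
  calc |al| * (s * LL n v ξ lam al s t)⁻¹ * |⟪bB n ξ t, z⟫| * ‖v t‖
      ≤ 1 * (2 * a⁻¹) * (b ^ 2 * ‖z‖) * (b * a) := by
        gcongr
        · exact h.al1
        · exact (abs_real_inner_le_norm _ _).trans
            (mul_le_mul_of_nonneg_right h.B2 (norm_nonneg _))
        · exact h.v2
    _ = 2 * b ^ 3 * ‖z‖ := by field_simp

/-- `y` is bounded by `u` -/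
theorem y_le (h : FB A n v ξ lam al s a b τ t) :
    ‖yy n v ξ X lam al s t‖ ≤ 3 * b ^ 3 * ‖uu n X t‖ := by
  have hb := h.b10
  have h1 : (1 : ℝ) ≤ b ^ 3 := one_le_pow₀ (by linarith)
  calc ‖yy n v ξ X lam al s t‖ ≤ ‖uu n X t‖ + 2 * b ^ 3 * ‖uu n X t‖ :=
        (norm_sub_le _ _).trans (add_le_add le_rfl (h.T_le _))
    _ ≤ 3 * b ^ 3 * ‖uu n X t‖ := by nlinarith [norm_nonneg (uu n X t)]

/-- the inverse of the conjugation -/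
theorem u_eq (h : FB A n v ξ lam al s a b τ t) : uu n X t = yy n v ξ X lam al s t +
    (al / (s * lt n ξ lam t) * ⟪bB n ξ t, yy n v ξ X lam al s t⟫) • v t := by
  have h0 := h.lt0
  have hs := h.s0
  have hL := h.LL0
  have e1 : ⟪bB n ξ t, v t⟫ = ff n v ξ t := real_inner_comm _ _
  have e2 : al * ff n v ξ t = s * LL n v ξ lam al s t - s * lt n ξ lam t := by
    simp only [LL]
    field_simp
    ring
  have e3 : ⟪bB n ξ t, yy n v ξ X lam al s t⟫ =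
      ⟪bB n ξ t, uu n X t⟫ * (lt n ξ lam t / LL n v ξ lam al s t) := by
    simp only [yy, inner_sub_right, inner_smul_right, e1]
    rw [show al / (s * LL n v ξ lam al s t) * ⟪bB n ξ t, uu n X t⟫ * ff n v ξ t =
      (al * ff n v ξ t) / (s * LL n v ξ lam al s t) * ⟪bB n ξ t, uu n X t⟫ by ring, e2]
    field_simp
    ring
  rw [e3]
  simp only [yy]
  match_scalars <;> field_simp <;> ring

/-- `u` is bounded by `y` -/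
theorem u_le (h : FB A n v ξ lam al s a b τ t) :
    ‖uu n X t‖ ≤ 9 * b ^ 7 * τ⁻¹ ^ 2 * ‖yy n v ξ X lam al s t‖ := by
  have h0 := h.lt0
  have hs := h.s0
  have hb := h.b0
  have hb10 := h.b10
  have ha := h.a0
  have hτ := h.τ0
  have h1 : (s * lt n ξ lam t)⁻¹ ≤ 8 * b ^ 4 * a⁻¹ * τ⁻¹ ^ 2 := by
    rw [inv_le_iff_one_le_mul₀ (by positivity)]
    have h2 : a * τ ^ 2 ≤ 8 * b ^ 4 * (s * lt n ξ lam t) := by
      calc a * τ ^ 2 ≤ 8 * b ^ 3 * lt n ξ lam t * 1 := by rw [mul_one]; exact h.l1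
        _ ≤ 8 * b ^ 3 * lt n ξ lam t * (b * s) := by
          gcongr
          exact h.s1
        _ = _ := by ring
    have : 1 = (a * τ ^ 2) * (a⁻¹ * τ⁻¹ ^ 2) := by field_simp
    rw [this]
    calc (a * τ ^ 2) * (a⁻¹ * τ⁻¹ ^ 2) ≤
        (8 * b ^ 4 * (s * lt n ξ lam t)) * (a⁻¹ * τ⁻¹ ^ 2) := by gcongr
      _ = _ := by ring
  have h3 : (1 : ℝ) ≤ b ^ 7 * τ⁻¹ ^ 2 := by
    have : τ ^ 2 ≤ b ^ 7 := by
      calc τ ^ 2 ≤ b ^ 2 := by gcongr; exact h.τb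
        _ ≤ b ^ 7 := pow_le_pow_right₀ (by linarith) (by norm_num)
    calc (1 : ℝ) = τ ^ 2 * τ⁻¹ ^ 2 := by field_simp
      _ ≤ b ^ 7 * τ⁻¹ ^ 2 := by gcongr
  have h4 : ‖(al / (s * lt n ξ lam t) * ⟪bB n ξ t, yy n v ξ X lam al s t⟫) • v t‖ ≤
      8 * b ^ 7 * τ⁻¹ ^ 2 * ‖yy n v ξ X lam al s t‖ := by
    rw [norm_smul, norm_mul, Real.norm_eq_abs, Real.norm_eq_abs, div_eq_mul_inv, abs_mul,
      abs_of_nonneg (by positivity : (0:ℝ) ≤ (s * lt n ξ lam t)⁻¹)]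
    calc |al| * (s * lt n ξ lam t)⁻¹ * |⟪bB n ξ t, yy n v ξ X lam al s t⟫| * ‖v t‖
        ≤ 1 * (8 * b ^ 4 * a⁻¹ * τ⁻¹ ^ 2) * (b ^ 2 * ‖yy n v ξ X lam al s t‖) * (b * a) := by
          gcongr
          · exact h.al1
          · exact (abs_real_inner_le_norm _ _).trans
              (mul_le_mul_of_nonneg_right h.B2 (norm_nonneg _))
          · exact h.v2
      _ = _ := by field_simp
  calc ‖uu n X t‖ = ‖yy n v ξ X lam al s t +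
      (al / (s * lt n ξ lam t) * ⟪bB n ξ t, yy n v ξ X lam al s t⟫) • v t‖ := by rw [← h.u_eq]
    _ ≤ ‖yy n v ξ X lam al s t‖ + 8 * b ^ 7 * τ⁻¹ ^ 2 * ‖yy n v ξ X lam al s t‖ :=
      (norm_add_le _ _).trans (add_le_add le_rfl h4)
    _ ≤ 1 * ‖yy n v ξ X lam al s t‖ + 8 * b ^ 7 * τ⁻¹ ^ 2 * ‖yy n v ξ X lam al s t‖ := by
      rw [one_mul]
    _ ≤ (b ^ 7 * τ⁻¹ ^ 2) * ‖yy n v ξ X lam al s t‖
        + 8 * b ^ 7 * τ⁻¹ ^ 2 * ‖yy n v ξ X lam al s t‖ := by gcongr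
    _ = _ := by ring

theorem nu'_le (h : FB A n v ξ lam al s a b τ t) : |nu' A n ξ t| ≤ 2 * b ^ 5 := by
  have hn := h.n0
  have hb := h.b0
  have h1 : ‖A t (n t) + adjoint (A t) (n t)‖ ≤ 2 * b * ‖n t‖ := by
    have h1 : ‖adjoint (A t) (n t)‖ ≤ b * ‖n t‖ := by
      refine (le_opNorm _ _).trans ?_
      rw [LinearIsometryEquiv.norm_map]
      gcongr
      exact h.hA
    have h2 : ‖A t (n t)‖ ≤ b * ‖n t‖ := by
      refine (le_opNorm _ _).trans ?_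
      gcongr
      exact h.hA
    calc ‖A t (n t) + adjoint (A t) (n t)‖ ≤ ‖A t (n t)‖ + ‖adjoint (A t) (n t)‖ :=
          norm_add_le _ _
      _ ≤ b * ‖n t‖ + b * ‖n t‖ := add_le_add h2 h1
      _ = _ := by ring
  rw [nu', abs_neg, abs_div, abs_of_nonneg (by positivity : (0:ℝ) ≤ ‖n t‖ ^ 2)]
  calc |⟪ξp n ξ t, A t (n t) + adjoint (A t) (n t)⟫| / ‖n t‖ ^ 2
      ≤ (b ^ 2 * (2 * b * ‖n t‖)) / ‖n t‖ ^ 2 := by
        gcongr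
        refine (abs_real_inner_le_norm _ _).trans ?_
        gcongr
        exact h.ξpb
    _ = 2 * b ^ 3 * ‖n t‖⁻¹ := by field_simp
    _ ≤ 2 * b ^ 3 * b ^ 2 := by
      gcongr
      exact h.ninv
    _ = _ := by ring

/-- the last term of the remainder -/
theorem last_le (h : FB A n v ξ lam al s a b τ t) (z : E3) :
    ‖(al * nu' A n ξ t / (s * LL n v ξ lam al s t ^ 2) * ⟪bB n ξ t, z⟫) • v t‖ ≤
      8 * b ^ 9 * a⁻¹ * ‖z‖ := by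
  have hb := h.b0
  have ha := h.a0
  have hs := h.s0
  have hL := h.LL0
  have h1 := h.L1
  have h2 : (s * LL n v ξ lam al s t)⁻¹ ≤ 2 * a⁻¹ := by
    rw [inv_le_iff_one_le_mul₀ (by positivity)]
    have : 1 = a * a⁻¹ := by field_simp
    rw [this]
    calc a * a⁻¹ ≤ (2 * (s * LL n v ξ lam al s t)) * a⁻¹ := by gcongr
      _ = _ := by ring
  have e1 : al * nu' A n ξ t / (s * LL n v ξ lam al s t ^ 2) =
      al * nu' A n ξ t * s * (s * LL n v ξ lam al s t)⁻¹ ^ 2 := by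
    field_simp
  rw [e1, norm_smul, norm_mul, norm_mul, norm_mul, norm_mul, Real.norm_eq_abs, Real.norm_eq_abs,
    Real.norm_eq_abs, Real.norm_eq_abs, Real.norm_eq_abs, abs_of_pos hs,
    abs_of_nonneg (by positivity : (0:ℝ) ≤ (s * LL n v ξ lam al s t)⁻¹ ^ 2)]
  calc |al| * |nu' A n ξ t| * s * (s * LL n v ξ lam al s t)⁻¹ ^ 2 * |⟪bB n ξ t, z⟫| * ‖v t‖
      ≤ 1 * (2 * b ^ 5) * b * (2 * a⁻¹) ^ 2 * (b ^ 2 * ‖z‖) * (b * a) := by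
        gcongr
        · exact h.al1
        · exact h.nu'_le
        · exact h.s2
        · exact (abs_real_inner_le_norm _ _).trans
            (mul_le_mul_of_nonneg_right h.B2 (norm_nonneg _))
        · exact h.v2
    _ = 8 * b ^ 9 * a⁻¹ * ‖z‖ := by field_simp; ring

/-- (F2) -/
theorem gg_le (h : FB A n v ξ lam al s a b τ t) (hX : ⟪kk n ξ lam t, X t⟫ = 0) :
    ‖gg A n v ξ X lam al s t‖ ≤ ep a b τ * ‖yy n v ξ X lam al s t‖ := by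
  have hb := h.b0
  have hb10 := h.b10
  have ha := h.a0
  have hτ := h.τ0
  have h0 := h.lt0
  have hlinv : (lt n ξ lam t)⁻¹ ≤ 8 * b ^ 3 * a⁻¹ * τ⁻¹ ^ 2 := by
    rw [inv_le_iff_one_le_mul₀ h0]
    have : 1 = (a * τ ^ 2) * (a⁻¹ * τ⁻¹ ^ 2) := by field_simp
    rw [this]
    calc (a * τ ^ 2) * (a⁻¹ * τ⁻¹ ^ 2) ≤ (8 * b ^ 3 * lt n ξ lam t) * (a⁻¹ * τ⁻¹ ^ 2) :=
          mul_le_mul_of_nonneg_right h.l1 (by positivity)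
      _ = _ := by ring
  set y := ‖yy n v ξ X lam al s t‖ with hy
  have hy0 : 0 ≤ y := norm_nonneg _
  have h1 : ‖gg A n v ξ X lam al s t‖ ≤ (1 + 2 * b ^ 3) * ‖rho A n v ξ X lam al t‖
      + 8 * b ^ 9 * a⁻¹ * ‖uu n X t‖ := by
    calc ‖gg A n v ξ X lam al s t‖ ≤ (‖rho A n v ξ X lam al t‖
        + 2 * b ^ 3 * ‖rho A n v ξ X lam al t‖) + 8 * b ^ 9 * a⁻¹ * ‖uu n X t‖ := by
          refine (norm_add_le _ _).trans (add_le_add ?_ (h.last_le _))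
          exact (norm_sub_le _ _).trans (add_le_add le_rfl (h.T_le _))
      _ = _ := by ring
  have h2 : 1 + 2 * b ^ 3 ≤ 3 * b ^ 3 := by
    have : (1 : ℝ) ≤ b ^ 3 := one_le_pow₀ (by linarith)
    linarith
  have h3 : ‖rho A n v ξ X lam al t‖ ≤
      (48 * b ^ 8 * a⁻¹ * τ⁻¹ ^ 2 + 2048 * b ^ 23 * a⁻¹ ^ 2 * τ⁻¹ ^ 5) * ‖uu n X t‖ := by
    refine (h.rho_le hX).trans ?_
    calc (6 * b ^ 5 * (lt n ξ lam t)⁻¹ + 4 * b ^ 14 * a * τ * (lt n ξ lam t)⁻¹ ^ 3) * ‖uu n X t‖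
        ≤ (6 * b ^ 5 * (8 * b ^ 3 * a⁻¹ * τ⁻¹ ^ 2)
          + 4 * b ^ 14 * a * τ * (8 * b ^ 3 * a⁻¹ * τ⁻¹ ^ 2) ^ 3) * ‖uu n X t‖ := by gcongr
      _ = _ := by field_simp; ring
  have h4 : a⁻¹ * τ⁻¹ ^ 2 ≤ b ^ 2 * a⁻¹ * τ⁻¹ ^ 4 := by
    have h5 : (1 : ℝ) ≤ b ^ 2 * τ⁻¹ ^ 2 := by
      calc (1 : ℝ) = τ ^ 2 * τ⁻¹ ^ 2 := by field_simp
        _ ≤ b ^ 2 * τ⁻¹ ^ 2 := by gcongr; exact h.τb
    calc a⁻¹ * τ⁻¹ ^ 2 = a⁻¹ * τ⁻¹ ^ 2 * 1 := by ring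
      _ ≤ a⁻¹ * τ⁻¹ ^ 2 * (b ^ 2 * τ⁻¹ ^ 2) := by gcongr
      _ = _ := by ring
  calc ‖gg A n v ξ X lam al s t‖
      ≤ (3 * b ^ 3) * ((48 * b ^ 8 * a⁻¹ * τ⁻¹ ^ 2 + 2048 * b ^ 23 * a⁻¹ ^ 2 * τ⁻¹ ^ 5)
        * ‖uu n X t‖) + 8 * b ^ 9 * a⁻¹ * ‖uu n X t‖ := by
        refine h1.trans ?_
        gcongr
    _ = (144 * b ^ 11 * a⁻¹ * τ⁻¹ ^ 2 + 6144 * b ^ 26 * a⁻¹ ^ 2 * τ⁻¹ ^ 5 + 8 * b ^ 9 * a⁻¹)
        * ‖uu n X t‖ := by ring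
    _ ≤ (144 * b ^ 11 * a⁻¹ * τ⁻¹ ^ 2 + 6144 * b ^ 26 * a⁻¹ ^ 2 * τ⁻¹ ^ 5 + 8 * b ^ 9 * a⁻¹)
        * (9 * b ^ 7 * τ⁻¹ ^ 2 * y) := by
      gcongr
      exact h.u_le
    _ = (1296 * b ^ 18 * a⁻¹ * τ⁻¹ ^ 4 + 55296 * b ^ 33 * a⁻¹ ^ 2 * τ⁻¹ ^ 7
        + 72 * b ^ 16 * (a⁻¹ * τ⁻¹ ^ 2)) * y := by ring
    _ ≤ (1296 * b ^ 18 * a⁻¹ * τ⁻¹ ^ 4 + 55296 * b ^ 33 * a⁻¹ ^ 2 * τ⁻¹ ^ 7
        + 72 * b ^ 16 * (b ^ 2 * a⁻¹ * τ⁻¹ ^ 4)) * y := by gcongr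
    _ = (1368 * b ^ 18 * a⁻¹ * τ⁻¹ ^ 4 + 55296 * b ^ 33 * a⁻¹ ^ 2 * τ⁻¹ ^ 7) * y := by ring
    _ ≤ (1400 * b ^ 18 * a⁻¹ * τ⁻¹ ^ 4 + 56000 * b ^ 33 * a⁻¹ ^ 2 * τ⁻¹ ^ 7) * y := by
      gcongr <;> norm_num
    _ = ep a b τ * y := by
      rw [ep]
      field_simp

end FB

end Pool.Agent.Work.MP_b0497c_an.Unf.O
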