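import Pool.Agent.Work.MP_b0497c_an.Unf.KPert

set_option autoImplicit false

/-!
# A weighted bound with a relative source
-/

open scoped Topology
open Set MeasureTheory

namespace Pool.Agent.Work.MP_b0497c_an.Unf.K

variable {V : Type} [NormedAddCommGroup V] [NormedSpace ℝ V] [CompleteSpace V]

/-- `u' = A u + g` with `‖g‖ ≤ ε ‖u‖`, `C ∫ ε ≤ 1/2` : `‖u t‖ ≤ 2 C (w t / w s) ‖u s‖`. -/
theorem PB.rel {A : ℝ → V →L[ℝ] V} {a b C : ℝ} {w : ℝ → ℝ} (hA : Continuous A)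
    (hw : ∀ r ∈ Icc a b, 0 < w r) (hwc : ContinuousOn w (Icc a b)) (hPB : PB A a b C w)
    (hC : 0 ≤ C) {s t : ℝ} (hs : s ∈ Icc a b) (ht : t ∈ Icc s b) {u g : ℝ → V} {ε E : ℝ → ℝ}
    (hu : ∀ r ∈ Icc s t, HasDerivAt u (A r (u r) + g r) r) (hg : ContinuousOn g (Icc s t))
    (hε : ContinuousOn ε (Icc s t)) (hε0 : ∀ r ∈ Icc s t, 0 ≤ ε r)
    (hgb : ∀ r ∈ Icc s t, ‖g r‖ ≤ ε r * ‖u r‖)
    (hE : ∀ r ∈ Icc s t, HasDerivAt E (ε r) r) (hE1 : C * (E t - E s) ≤ 1 / 2) :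
    ‖u t‖ ≤ 2 * C * (w t / w s) * ‖u s‖ := by
  have hsub : Icc s t ⊆ Icc a b := fun r hr => ⟨hs.1.trans hr.1, hr.2.trans ht.2⟩
  have hws := hw s hs
  have hwt := hw t (hsub ⟨ht.1, le_refl t⟩)
  have huc : ContinuousOn u (Icc s t) := fun r hr => (hu r hr).continuousAt.continuousWithinAt
  have hNc : ContinuousOn (fun r => ‖u r‖ / w r) (Icc s t) :=
    huc.norm.div (hwc.mono hsub) fun r hr => (hw r (hsub hr)).ne'
  obtain ⟨r0, hr0, hmax⟩ := isCompact_Icc.exists_isMaxOn (nonempty_Icc.2 ht.1) hNc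
  set M : ℝ := ‖u r0‖ / w r0 with hM
  have hwr0 := hw r0 (hsub hr0)
  have hM0 : 0 ≤ M := div_nonneg (norm_nonneg _) hwr0.le
  have hle : ∀ r ∈ Icc s t, ‖u r‖ ≤ M * w r := by
    intro r hr
    have h1 : ‖u r‖ / w r ≤ M := hmax hr
    rwa [div_le_iff₀ (hw r (hsub hr))] at h1
  have hsub0 : Icc s r0 ⊆ Icc s t := fun r hr => ⟨hr.1, hr.2.trans hr0.2⟩
  have hEm : MonotoneOn E (Icc s t) := by
    apply monotoneOn_of_deriv_nonneg (convex_Icc s t)
    · intro x hx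
      exact (hE x hx).continuousAt.continuousWithinAt
    · intro x hx
      rw [interior_Icc] at hx
      exact (hE x ⟨hx.1.le, hx.2.le⟩).differentiableAt.differentiableWithinAt
    · intro x hx
      rw [interior_Icc] at hx
      rw [(hE x ⟨hx.1.le, hx.2.le⟩).deriv]
      exact hε0 x ⟨hx.1.le, hx.2.le⟩
  have hint : ∫ r in s..r0, ε r * M = (E r0 - E s) * M := by
    rw [intervalIntegral.integral_mul_const]
    congr 1
    refine intervalIntegral.integral_eq_sub_of_hasDerivAt (f := E) ?_ ?_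
    · rw [uIcc_of_le hr0.1]
      exact fun r hr => hE r (hsub0 hr)
    · apply ContinuousOn.intervalIntegrable
      rw [uIcc_of_le hr0.1]
      exact hε.mono hsub0
  have h1 := PB.duhamel (u := u) (g := g) (h := fun r => ε r * M) hA hw hPB hs
    ⟨hr0.1, hr0.2.trans ht.2⟩ ((hε.mono hsub0).mul continuousOn_const)
    (fun r hr => hu r (hsub0 hr)) (hg.mono hsub0)
    (fun r hr => by
      have hr' := hsub0 hr
      calc ‖g r‖ ≤ ε r * ‖u r‖ := hgb r hr'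
        _ ≤ ε r * (M * w r) := mul_le_mul_of_nonneg_left (hle r hr') (hε0 r hr')
        _ = ε r * M * w r := by ring) hC
  rw [hint] at h1
  have h2 : M ≤ C * (‖u s‖ / w s + (E r0 - E s) * M) := by
    rw [hM, div_le_iff₀ hwr0]
    refine h1.trans (le_of_eq ?_)
    rw [← hM]
    ring
  have h3 : C * (E r0 - E s) ≤ 1 / 2 := by
    refine le_trans ?_ hE1
    apply mul_le_mul_of_nonneg_left _ hC
    have := hEm hr0 ⟨ht.1, le_refl t⟩ hr0.2
    linarith
  have h4 : M ≤ 2 * (C * (‖u s‖ / w s)) := by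
    have h5 : C * (E r0 - E s) * M ≤ 1 / 2 * M := mul_le_mul_of_nonneg_right h3 hM0
    nlinarith
  calc ‖u t‖ ≤ M * w t := hle t ⟨ht.1, le_refl t⟩
    _ ≤ 2 * (C * (‖u s‖ / w s)) * w t := mul_le_mul_of_nonneg_right h4 hwt.le
    _ = 2 * C * (w t / w s) * ‖u s‖ := by ring

end Pool.Agent.Work.MP_b0497c_an.Unf.K
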