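import Pool.Agent.Work.MP_b0497c_an.Unf.OKin
import Pool.Agent.Work.MP_b0497c_an.Unf.FarPt
import Pool.Agent.Work.MP_b0497c_an.Unf.KRel

set_option autoImplicit false

/-!
# Far region `[0, t0 - w]` (OK.4, F3)
-/

open Set ContinuousLinearMap RealInnerProductSpace

namespace Pool.Agent.Work.MP_b0497c_an.Unf.O

open Forced.Ode (Op ro)
open K

namespace LevD

variable {D : LevD}

namespace Flo

variable {b' : ℝ}

theorem n_ne' (h : D.Flo b') (t : ℝ) : D.n t ≠ 0 := by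
  intro h0
  have h1 : adjoint (D.F t) (D.n t) = D.l := h.adF_adFi t D.l
  rw [h0, map_zero] at h1
  have h2 := h.l_ge
  rw [← h1, norm_zero, mul_zero] at h2
  linarith

theorem kelA_cont (h : D.Flo b') : Continuous fun t => kel (D.A t) (D.n t) := by
  have hn : Continuous fun t => (‖D.n t‖ ^ 2)⁻¹ := by
    apply Continuous.inv₀ (h.n_cont.norm.pow 2)
    intro t
    exact pow_ne_zero 2 (norm_ne_zero_iff.2 (h.n_ne' t))
  have h1 : Continuous fun t => ((innerSL ℝ (D.n t)).comp (D.A t)).smulRight (D.n t) := by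
    have h2 : Continuous fun t => (innerSL ℝ (D.n t)).comp (D.A t) := by
      exact ((innerSL ℝ).continuous.comp h.n_cont).clm_comp h.A_cont
    exact (ContinuousLinearMap.smulRightL ℝ E3 E3).continuous₂.comp (h2.prodMk h.n_cont)
  exact h.A_cont.neg.add ((continuous_const.mul hn).smul h1)

theorem nu_b4 (h : D.Flo b') {t : ℝ} (ht : t ∈ Icc 0 D.T) : |nu D.n D.xi t| ≤ b' ^ 4 := by
  have hn : 0 < ‖D.n t‖ := norm_pos_iff.2 (h.n_ne' t)
  have hb := h.b0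
  rw [nu, abs_div, abs_of_nonneg (by positivity : (0:ℝ) ≤ ‖D.n t‖ ^ 2), div_le_iff₀ (by positivity)]
  calc |⟪D.xi t, D.n t⟫| ≤ ‖D.xi t‖ * ‖D.n t‖ := abs_real_inner_le_norm _ _
    _ ≤ b' ^ 2 * ‖D.n t‖ * 1 := by
      rw [mul_one]
      gcongr
      exact h.xi_le ht
    _ ≤ b' ^ 2 * ‖D.n t‖ * (b' ^ 2 * ‖D.n t‖) := by
      gcongr
      exact h.n_ge ht
    _ = b' ^ 4 * ‖D.n t‖ ^ 2 := by ring

end Flo

namespace HL

theorem b10 (h : D.HL) : 10 ≤ D.b := h.b_ge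

theorem bpos (h : D.HL) : 0 < D.b := by linarith [h.b10]

theorem b1 (h : D.HL) : 1 ≤ D.b := by linarith [h.b10]

theorem h1 (h : D.HL) : 1 ≤ D.h := (one_le_pow₀ h.b1).trans h.h_ge

theorem hb (h : D.HL) {k : ℕ} (hk : k ≤ 200) : D.b ^ k ≤ D.h :=
  (pow_le_pow_right₀ h.b1 hk).trans h.h_ge

/-- constants are absorbed by a power of `b` -/
theorem cb (h : D.HL) (k : ℕ) : (10 : ℝ) ^ k ≤ D.b ^ k := pow_le_pow_left₀ (by norm_num) h.b10 k

theorem wpos (h : D.HL) : 0 < D.w := inv_pos.2 (pow_pos (by linarith [h.h1]) 7)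

theorem far_mem (h : D.HL) {t : ℝ} (ht : t ∈ Icc 0 (D.t0 - D.w)) : t ∈ Icc 0 D.t0 :=
  ⟨ht.1, by linarith [ht.2, h.wpos]⟩

theorem mem_T (h : D.HL) {t : ℝ} (ht : t ∈ Icc 0 D.t0) : t ∈ Icc 0 D.T :=
  ⟨ht.1, ht.2.trans h.t0_lt.le⟩

theorem f0_abs (_h : D.HL) (hf : D.Far) : -1 ≤ D.f 0 ∧ D.f 0 ≤ 1 := abs_le.1 hf.f0

/-- `a` is huge -/
theorem a_ge (h : D.HL) : D.b ^ 200 ≤ D.a := by
  have h1 := h.h1
  calc D.b ^ 200 ≤ D.h := h.h_ge
    _ = D.h ^ 1 := (pow_one _).symm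
    _ ≤ D.h ^ 24 := pow_le_pow_right₀ h1 (by norm_num)

theorem ba (h : D.HL) {k : ℕ} (hk : k ≤ 200) : D.b ^ k ≤ D.a :=
  (pow_le_pow_right₀ h.b1 hk).trans h.a_ge

/-- lower bound of `lam` before `t0` -/
theorem lam_ge (h : D.HL) (hf : D.Far) {al : ℝ} (hal : |al| ≤ 1) {t : ℝ} (ht : t ∈ Icc 0 D.t0) :
    D.k0 + D.a * (D.t0 - t) ^ 2 / (4 * D.b) ≤ D.fam.Sl al t := by
  have hb := h.bpos
  have ha := h.a_pos
  have hs := h.s_pos
  have hg := h.g_ge t ht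
  have hfg := hf.f_ge t ht
  obtain ⟨h1, h2⟩ := abs_le.1 hal
  set τ := D.t0 - t with hτ
  have hτ0 : 0 ≤ τ := by linarith [ht.2]
  have hτ1 : τ ≤ 1 := by linarith [ht.1, h.t0_lt, h.T_one]
  have e1 : D.a * τ ^ 2 / (4 * D.b) = (D.b)⁻¹ * D.a * τ ^ 2 / 4 := by field_simp
  have hP : 0 ≤ (D.b)⁻¹ * D.a * τ ^ 2 := by positivity
  -- `g 0 ≥ a / (2 b)`
  have hf0 := h.f0_abs hf
  have ha1 : (2 : ℝ) ≤ D.a := by
    have : (10 : ℝ) ≤ D.a := by
      calc (10 : ℝ) ≤ D.b := h.b10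
        _ = D.b ^ 1 := (pow_one _).symm
        _ ≤ D.a := h.ba (by norm_num)
    linarith
  have hg0 : D.a / (2 * D.b) ≤ D.g 0 := by
    rw [g, div_le_div_iff₀ (by positivity) hs]
    have h3 : D.a / 2 ≤ D.a - D.f 0 := by linarith
    calc D.a * D.s ≤ D.a * D.b := by gcongr; exact h.s_le
      _ = (D.a / 2) * (2 * D.b) := by ring
      _ ≤ (D.a - D.f 0) * (2 * D.b) := by gcongr
  have hg0P : (D.b)⁻¹ * D.a * τ ^ 2 ≤ 2 * D.g 0 := by
    calc (D.b)⁻¹ * D.a * τ ^ 2 ≤ (D.b)⁻¹ * D.a * 1 ^ 2 := by gcongr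
      _ = 2 * (D.a / (2 * D.b)) := by field_simp
      _ ≤ 2 * D.g 0 := by gcongr
  -- `g t ≤ 3/2 g 0`
  have hgt : D.g t ≤ 3 / 2 * D.g 0 := by
    rw [g, g, div_le_iff₀ hs]
    have : 3 / 2 * ((D.a - D.f 0) / D.s) * D.s = 3 / 2 * (D.a - D.f 0) := by field_simp
    rw [this]
    linarith
  rw [Flo.lam_eq', e1]
  set P := (D.b)⁻¹ * D.a * τ ^ 2 with hPdef
  rcases le_or_gt 0 al with hal0 | hal0
  · nlinarith
  · -- `(1 - al) g0 + al g ≥ (1 - al) g0 + (3/2) al g0 = (1 + al/2) g0 ≥ g0 / 2`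
    have h5 : al * D.g t ≥ al * (3 / 2 * D.g 0) := by nlinarith
    have h6 : 0 ≤ D.g 0 := by linarith
    nlinarith

theorem far_ar (h : D.HL) {t : ℝ} (ht : t ∈ Icc 0 (D.t0 - D.w)) :
    D.h ^ 10 ≤ D.a * (D.t0 - t) ^ 2 := by
  have hh : 0 < D.h := by linarith [h.h1]
  have h1 : D.w ≤ D.t0 - t := by linarith [ht.2]
  calc D.h ^ 10 = D.a * D.w ^ 2 := by
        rw [a, w]
        field_simp
    _ ≤ D.a * (D.t0 - t) ^ 2 := by
        have := h.wpos
        have ha := h.a_pos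
        gcongr

/-- the bounds of FarPt hold in the far region -/
theorem fb (h : D.HL) (hf : D.Far) {al : ℝ} (hal : |al| ≤ 1) {t : ℝ}
    (ht : t ∈ Icc 0 (D.t0 - D.w)) :
    FB D.A D.n D.v D.xi (D.fam.Sl al) al D.s D.a D.b (D.t0 - t) t := by
  have ht0 := h.far_mem ht
  have htT := h.mem_T ht0
  have hb := h.bpos
  have hb1 := h.b1
  have ha := h.a_pos
  have hs := h.s_pos
  have hw := h.wpos
  have hnu := abs_le.1 (h.nu_b4 htT)
  have hlam := h.lam_ge hf hal ht0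
  have hk0 : 0 ≤ D.k0 := by linarith [h.k0_ge]
  have har := h.far_ar ht
  have hτ0 : 0 < D.t0 - t := by linarith [ht.2]
  have hbs : 1 ≤ D.b * D.s := by
    have := h.s_ge
    rw [div_le_iff₀ hb] at this
    linarith
  have hlt : lt D.n D.xi (D.fam.Sl al) t = D.fam.Sl al t + nu D.n D.xi t := rfl
  have h8b : 8 * D.b * D.b ^ 4 ≤ D.h ^ 10 := by
    calc 8 * D.b * D.b ^ 4 ≤ D.b * D.b * D.b ^ 4 := by
          gcongr
          linarith [h.b10]
      _ = D.b ^ 6 := by ring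
      _ ≤ D.h := h.hb (by norm_num)
      _ = D.h ^ 1 := (pow_one _).symm
      _ ≤ D.h ^ 10 := pow_le_pow_right₀ h.h1 (by norm_num)
  have hlt1 : D.a * (D.t0 - t) ^ 2 ≤ 8 * D.b * lt D.n D.xi (D.fam.Sl al) t := by
    rw [hlt]
    have h1 : D.a * (D.t0 - t) ^ 2 / (4 * D.b) * (8 * D.b) = 2 * (D.a * (D.t0 - t) ^ 2) := by
      field_simp
      ring
    have h2 : D.a * (D.t0 - t) ^ 2 / (4 * D.b) - D.b ^ 4 ≤ D.fam.Sl al t + nu D.n D.xi t := by
      linarith [hnu.1]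
    have h3 := mul_le_mul_of_nonneg_left h2 (by positivity : (0:ℝ) ≤ 8 * D.b)
    nlinarith
  have hlt2 : D.b ^ 6 ≤ lt D.n D.xi (D.fam.Sl al) t := by
    have h1 : 8 * D.b * D.b ^ 6 ≤ 8 * D.b * lt D.n D.xi (D.fam.Sl al) t := by
      refine le_trans ?_ hlt1
      refine le_trans ?_ har
      calc 8 * D.b * D.b ^ 6 ≤ D.b * D.b * D.b ^ 6 := by
            gcongr
            linarith [h.b10]
        _ = D.b ^ 8 := by ring
        _ ≤ D.h := h.hb (by norm_num)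
        _ = D.h ^ 1 := (pow_one _).symm
        _ ≤ D.h ^ 10 := pow_le_pow_right₀ h.h1 (by norm_num)
    exact le_of_mul_le_mul_left h1 (by positivity)
  refine
    { cj := h.cj al htT
      b10 := h.b10
      a0 := ha
      τ0 := hτ0
      τb := ?_
      al1 := hal
      hA := h.A_le t
      n1 := h.n_ge htT
      ξ2 := h.xi_le htT
      B2 := h.B_le htT
      v2 := h.v_le t htT
      φ2 := ?_
      s1 := hbs
      s2 := h.s_le
      l1 := ?_
      l2 := hlt2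
      L1 := ?_ }
  · linarith [ht.1, h.t0_lt, h.T_one]
  · have h1 := h.phi_le h.v_le htT
    have h2 : |t - D.t0| = D.t0 - t := by
      rw [abs_sub_comm, abs_of_pos hτ0]
    rw [h2] at h1
    refine h1.trans ?_
    have h3 : D.b ^ 4 ≤ D.b ^ 6 := pow_le_pow_right₀ hb1 (by norm_num)
    have h4 : 0 ≤ D.a * (D.t0 - t) := by positivity
    nlinarith
  · refine hlt1.trans ?_
    have h3 : D.b ≤ D.b ^ 3 := by
      calc D.b = D.b ^ 1 := (pow_one _).symm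
        _ ≤ D.b ^ 3 := pow_le_pow_right₀ hb1 (by norm_num)
    have h4 : 0 ≤ lt D.n D.xi (D.fam.Sl al) t := le_trans (by positivity) hlt2
    nlinarith
  · -- `s LL = s k0 + a - f0 + al f0 + s nu`
    have hf0 := abs_le.1 hf.f0
    have e1 : D.s * LL D.n D.v D.xi (D.fam.Sl al) al D.s t =
        D.s * D.k0 + (D.a - D.f 0) + al * D.f 0 + D.s * nu D.n D.xi t := by
      have e2 : ff D.n D.v D.xi t = D.f t := rfl
      rw [LL, hlt, e2, Flo.lam_eq, X]
      field_simp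
      ring
    rw [e1]
    have h1 : -1 ≤ al * D.f 0 := by
      have : |al * D.f 0| ≤ 1 := by
        rw [abs_mul]
        exact mul_le_one₀ hal (abs_nonneg _) hf.f0
      exact (abs_le.1 this).1
    have h2 : -(D.b ^ 5) ≤ D.s * nu D.n D.xi t := by
      have : |D.s * nu D.n D.xi t| ≤ D.b * D.b ^ 4 := by
        rw [abs_mul, abs_of_pos hs]
        exact mul_le_mul h.s_le (h.nu_b4 htT) (abs_nonneg _) hb.le
      have h3 := (abs_le.1 this).1
      linarith [h3, (by ring : D.b * D.b ^ 4 = D.b ^ 5)]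
    have h3 : 0 ≤ D.s * D.k0 := by positivity
    have h4 : D.b ^ 6 ≤ D.a := h.ba (by norm_num)
    have h5 : 10 * D.b ^ 5 ≤ D.b ^ 6 := by
      calc 10 * D.b ^ 5 ≤ D.b * D.b ^ 5 := by gcongr; exact h.b10
        _ = D.b ^ 6 := by ring
    have h6 : (1:ℝ) ≤ D.b ^ 5 := one_le_pow₀ hb1
    linarith

/-- primitive of `ep` -/
noncomputable def Ep (a b t0 t : ℝ) : ℝ :=
  1400 * b ^ 18 / (3 * a * (t0 - t) ^ 3) + 56000 * b ^ 33 / (6 * a ^ 2 * (t0 - t) ^ 6)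

theorem Ep_der {a b t0 t : ℝ} (ha : 0 < a) (ht : 0 < t0 - t) :
    HasDerivAt (Ep a b t0) (ep a b (t0 - t)) t := by
  have h1 : HasDerivAt (fun t => t0 - t) (-1) t := by
    simpa using (hasDerivAt_id t).const_sub t0
  have h2 : HasDerivAt (fun t => 3 * a * (t0 - t) ^ 3) (3 * a * (3 * (t0 - t) ^ 2 * (-1))) t := by
    have := (h1.pow 3).const_mul (3 * a)
    simpa using this
  have h3 : HasDerivAt (fun t => 6 * a ^ 2 * (t0 - t) ^ 6)
      (6 * a ^ 2 * (6 * (t0 - t) ^ 5 * (-1))) t := by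
    have := (h1.pow 6).const_mul (6 * a ^ 2)
    simpa using this
  have h4 := ((hasDerivAt_const t (1400 * b ^ 18)).div h2 (by positivity)).add
    ((hasDerivAt_const t (56000 * b ^ 33)).div h3 (by positivity))
  refine h4.congr_deriv ?_
  rw [ep]
  field_simp
  ring

/-- the integral of the remainder is small -/
theorem Ep_le (h : D.HL) {t : ℝ} (ht : t ∈ Icc 0 (D.t0 - D.w)) :
    Ep D.a D.b D.t0 t ≤ (D.h ^ 2)⁻¹ := by
  have hb := h.bpos
  have ha := h.a_pos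
  have hw := h.wpos
  have hh : 0 < D.h := by linarith [h.h1]
  have h1 : D.w ≤ D.t0 - t := by linarith [ht.2]
  have e1 : D.h ^ 3 = D.a * D.w ^ 3 := by
    rw [a, w]
    field_simp
  have e2 : D.h ^ 6 = D.a ^ 2 * D.w ^ 6 := by
    rw [a, w]
    field_simp
  have h3 : D.h ^ 3 ≤ D.a * (D.t0 - t) ^ 3 := by
    rw [e1]
    gcongr
  have h6 : D.h ^ 6 ≤ D.a ^ 2 * (D.t0 - t) ^ 6 := by
    rw [e2]
    gcongr
  have hb22 : 1400 * D.b ^ 18 ≤ D.h := by
    calc 1400 * D.b ^ 18 ≤ 10 ^ 4 * D.b ^ 18 := by gcongr; norm_num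
      _ ≤ D.b ^ 4 * D.b ^ 18 := by gcongr; exact h.b10
      _ = D.b ^ 22 := by ring
      _ ≤ D.h := h.hb (by norm_num)
  have hb38 : 56000 * D.b ^ 33 ≤ D.h := by
    calc 56000 * D.b ^ 33 ≤ 10 ^ 5 * D.b ^ 33 := by gcongr; norm_num
      _ ≤ D.b ^ 5 * D.b ^ 33 := by gcongr; exact h.b10
      _ = D.b ^ 38 := by ring
      _ ≤ D.h := h.hb (by norm_num)
  have h3' : 3 * D.h ^ 3 ≤ 3 * D.a * (D.t0 - t) ^ 3 := by linarith
  have h6' : 6 * D.h ^ 6 ≤ 6 * D.a ^ 2 * (D.t0 - t) ^ 6 := by linarith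
  have hτ : 0 < D.t0 - t := hw.trans_le h1
  calc Ep D.a D.b D.t0 t ≤ D.h / (3 * D.h ^ 3) + D.h / (6 * D.h ^ 6) :=
        add_le_add (div_le_div₀ hh.le hb22 (by positivity) h3')
          (div_le_div₀ hh.le hb38 (by positivity) h6')
    _ = 1 / 3 * (D.h ^ 2)⁻¹ + 1 / 6 * (D.h ^ 5)⁻¹ := by field_simp
    _ ≤ 1 / 3 * (D.h ^ 2)⁻¹ + 1 / 6 * (D.h ^ 2)⁻¹ := by
      gcongr
      · exact h.h1
      · norm_num
    _ ≤ (D.h ^ 2)⁻¹ := by
      have : 0 < (D.h ^ 2)⁻¹ := by positivity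
      linarith

/-! ### Waves of the layer `al` -/

theorem kel_eq (M : Op) (k x : E3) : kel M k x = kelv M k x := by
  rw [kel_apply, kelv]
  congr 2
  rw [div_eq_mul_inv]
  ring

theorem K_ne (h : D.HL) (al : ℝ) {t : ℝ} (ht : t ∈ Icc 0 D.T) : D.fam.K al t ≠ 0 :=
  FamD.K0 (h.ok.D0 t ht)

/-- `K · X = 0` is preserved -/
theorem orth (h : D.HL) {al : ℝ} {s t : ℝ} (hs : s ∈ Icc 0 D.T) (ht : t ∈ Icc s D.T) {X : ℝ → E3}
    (hX : ∀ r ∈ Icc s t, HasDerivAt X (kel (D.fam.M al r) (D.fam.K al r) (X r)) r)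
    (h0 : ⟪D.fam.K al s, X s⟫ = 0) : ∀ r ∈ Icc s t, ⟪D.fam.K al r, X r⟫ = 0 := by
  intro r hr
  have hsub : ∀ r ∈ Icc s t, r ∈ Icc 0 D.T := fun r hr => ⟨hs.1.trans hr.1, hr.2.trans ht.2⟩
  have h1 := inner_const (M := D.fam.M al) (k := D.fam.K al) (u := X) (s := s) (t := t)
    (fun r hr => h.ok.Kd al (hsub r hr)) (fun r hr => h.K_ne al (hsub r hr)) hX r hr
  rw [h1, h0]

/-- the equation of the conjugated vector -/
theorem y_der (h : D.HL) (hf : D.Far) {al : ℝ} (hal : |al| ≤ 1) {r : ℝ}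
    (hr : r ∈ Icc 0 (D.t0 - D.w)) {X : ℝ → E3}
    (hX : HasDerivAt X (kel (D.fam.M al r) (D.fam.K al r) (X r)) r)
    (h0 : ⟪D.fam.K al r, X r⟫ = 0) :
    HasDerivAt (yy D.n D.v D.xi X (D.fam.Sl al) al D.s)
      (kel (D.A r) (D.n r) (yy D.n D.v D.xi X (D.fam.Sl al) al D.s r)
        + gg D.A D.n D.v D.xi X (D.fam.Sl al) al D.s r) r := by
  have hfb := h.fb hf hal hr
  rw [kel_eq] at hX ⊢
  exact hfb.cj.dy hX h0 hfb.lt0.ne' hfb.LL0.ne'

/-- continuity of the remainder -/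
theorem gg_cont (h : D.HL) (hf : D.Far) {al : ℝ} (hal : |al| ≤ 1) {S : Set ℝ}
    (hS : S ⊆ Icc 0 (D.t0 - D.w)) {X : ℝ → E3} (hX : ContinuousOn X S) :
    ContinuousOn (gg D.A D.n D.v D.xi X (D.fam.Sl al) al D.s) S := by
  have hT : ∀ r ∈ S, r ∈ Icc 0 D.T := fun r hr => h.mem_T (h.far_mem (hS hr))
  have cn : ContinuousOn D.n S := h.n_cont.continuousOn
  have cv : ContinuousOn D.v S := h.v_cont.continuousOn
  have cξ : ContinuousOn D.xi S := h.xi_cont.continuousOn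
  have cA : ContinuousOn D.A S := h.A_cont.continuousOn
  have cAd : ContinuousOn (fun r => adjoint (D.A r)) S :=
    (adR.continuous.comp h.A_cont).continuousOn
  have cl : ContinuousOn (D.fam.Sl al) S := fun r hr =>
    (h.lam_der al (hT r hr)).continuousAt.continuousWithinAt
  have cn2 : ContinuousOn (fun r => ‖D.n r‖ ^ 2) S := cn.norm.pow 2
  have n2 : ∀ r ∈ S, ‖D.n r‖ ^ 2 ≠ 0 := fun r _ => pow_ne_zero 2 (norm_ne_zero_iff.2 (h.n_ne' r))
  have cnu : ContinuousOn (nu D.n D.xi) S := (cξ.inner (𝕜 := ℝ) cn).div cn2 n2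
  have cξp : ContinuousOn (ξp D.n D.xi) S := cξ.sub (cnu.smul cn)
  have cze : ContinuousOn (ze D.n X) S := (cn.inner (𝕜 := ℝ) hX).div cn2 n2
  have cu : ContinuousOn (uu D.n X) S := hX.sub (cze.smul cn)
  have cB : ContinuousOn (bB D.n D.xi) S := h.B_cont.continuousOn
  have cff : ContinuousOn (ff D.n D.v D.xi) S := cv.inner (𝕜 := ℝ) cB
  have clt : ContinuousOn (lt D.n D.xi (D.fam.Sl al)) S := cl.add cnu
  have cLL : ContinuousOn (LL D.n D.v D.xi (D.fam.Sl al) al D.s) S :=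
    clt.add ((continuousOn_const.mul cff).div_const _)
  have cAn : ContinuousOn (fun r => D.A r (D.n r)) S := cA.clm_apply cn
  have cAdn : ContinuousOn (fun r => adjoint (D.A r) (D.n r)) S := cAd.clm_apply cn
  have cnu' : ContinuousOn (nu' D.A D.n D.xi) S :=
    ((cξp.inner (𝕜 := ℝ) (cAn.add cAdn)).div cn2 n2).neg
  have cK : ContinuousOn (kk D.n D.xi (D.fam.Sl al)) S := cξ.add (cl.smul cn)
  have cMX : ContinuousOn (fun r => MM D.A D.n D.v al r (X r)) S := by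
    have : ContinuousOn (fun r => D.A r (X r) + (al * ⟪D.n r, X r⟫) • D.v r) S :=
      (cA.clm_apply hX).add ((continuousOn_const.mul (cn.inner (𝕜 := ℝ) hX)).smul cv)
    exact this.congr fun r _ => MM_apply (X r)
  have cga : ContinuousOn (ga D.A D.n D.v D.xi X (D.fam.Sl al) al) S := by
    refine (continuousOn_const.mul (cK.inner (𝕜 := ℝ) cMX)).div (cK.norm.pow 2) ?_
    intro r hr
    exact pow_ne_zero 2 (norm_ne_zero_iff.2 (h.K_ne al (hT r hr)))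
  have crho : ContinuousOn (rho D.A D.n D.v D.xi X (D.fam.Sl al) al) S :=
    (cga.smul cξp).add (cze.smul ((cAdn.sub cAn).sub
      (((cn.inner (𝕜 := ℝ) (cAdn.sub cAn)).div cn2 n2).smul cn)))
  have L0 : ∀ r ∈ S, LL D.n D.v D.xi (D.fam.Sl al) al D.s r ≠ 0 := fun r hr =>
    (h.fb hf hal (hS hr)).LL0.ne'
  have hs := h.s_pos.ne'
  have c1 : ContinuousOn (fun r => al / (D.s * LL D.n D.v D.xi (D.fam.Sl al) al D.s r)) S :=
    continuousOn_const.div (continuousOn_const.mul cLL) fun r hr => mul_ne_zero hs (L0 r hr)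
  have c2 : ContinuousOn (fun r => al * nu' D.A D.n D.xi r /
      (D.s * LL D.n D.v D.xi (D.fam.Sl al) al D.s r ^ 2)) S :=
    (continuousOn_const.mul cnu').div (continuousOn_const.mul (cLL.pow 2)) fun r hr =>
      mul_ne_zero hs (pow_ne_zero 2 (L0 r hr))
  exact (crho.sub ((c1.mul (cB.inner (𝕜 := ℝ) crho)).smul cv)).add
    ((c2.mul (cB.inner (𝕜 := ℝ) cu)).smul cv)

theorem alw_cont (h : D.HL) : ContinuousOn D.al (Icc 0 D.T) := by
  intro s hs
  have hb := h.bpos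
  rw [Metric.continuousWithinAt_iff]
  intro ε hε
  -- on `[0,T]`: `|al t - al s| ≤ al T (exp (b |t - s|) - 1)`
  have hT : D.T ∈ Icc 0 D.T := ⟨h.T_pos.le, le_refl _⟩
  have hcont : ContinuousAt (fun t => D.al D.T * (Real.exp (D.b * |t - s|) - 1)) s := by
    fun_prop
  have h0 : D.al D.T * (Real.exp (D.b * |s - s|) - 1) = 0 := by simp
  rw [Metric.continuousAt_iff] at hcont
  obtain ⟨δ, hδ, hδ2⟩ := hcont ε hε
  refine ⟨δ, hδ, fun t ht htd => ?_⟩
  have h1 := hδ2 htd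
  rw [h0, Real.dist_eq, sub_zero] at h1
  refine lt_of_le_of_lt ?_ h1
  rw [Real.dist_eq]
  refine le_trans ?_ (le_abs_self _)
  have hpos := h.al_pos
  rcases le_total s t with hst | hst
  · have h2 := h.al_lip s hs t ⟨hst, ht.2⟩
    have h3 := h.al_mono hs ht hst
    rw [abs_of_nonneg (by linarith), abs_of_nonneg (by linarith)]
    have h4 := h.al_mono hs hT hs.2
    have h5 : 1 ≤ Real.exp (D.b * (t - s)) := Real.one_le_exp (by
      have : 0 ≤ t - s := by linarith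
      positivity)
    have h6 : 0 ≤ (D.al D.T - D.al s) * (Real.exp (D.b * (t - s)) - 1) :=
      mul_nonneg (by linarith) (by linarith)
    nlinarith
  · have h2 := h.al_lip t ht s ⟨hst, hs.2⟩
    have h3 := h.al_mono ht hs hst
    rw [abs_of_nonpos (by linarith), abs_of_nonpos (by linarith : t - s ≤ 0)]
    have h4 := h.al_mono ht hT ht.2
    have h5 : 1 ≤ Real.exp (D.b * (s - t)) := Real.one_le_exp (by
      have : 0 ≤ s - t := by linarith
      positivity)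
    have h6 : 0 ≤ (D.al D.T - D.al t) * (Real.exp (D.b * (s - t)) - 1) :=
      mul_nonneg (by linarith) (by linarith)
    have h7 : D.b * -(t - s) = D.b * (s - t) := by ring
    rw [h7]
    nlinarith

/-- bound of the conjugated vector -/
theorem y_bound (h : D.HL) (hf : D.Far) {al : ℝ} (hal : |al| ≤ 1) {s t : ℝ}
    (hs : s ∈ Icc 0 (D.t0 - D.w)) (ht : t ∈ Icc s (D.t0 - D.w)) {X : ℝ → E3}
    (hX : ∀ r ∈ Icc s t, HasDerivAt X (kel (D.fam.M al r) (D.fam.K al r) (X r)) r)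
    (h0 : ⟪D.fam.K al s, X s⟫ = 0) :
    ‖yy D.n D.v D.xi X (D.fam.Sl al) al D.s t‖ ≤ 2 * D.b * (D.al t / D.al s) *
      ‖yy D.n D.v D.xi X (D.fam.Sl al) al D.s s‖ := by
  have hw := h.wpos
  have hb := h.bpos
  have hsT : s ∈ Icc 0 D.T := h.mem_T (h.far_mem hs)
  have htw : D.t0 - D.w ≤ D.T := by linarith [h.t0_lt]
  have htT : t ∈ Icc s D.T := ⟨ht.1, ht.2.trans htw⟩
  have hsub : ∀ r ∈ Icc s t, r ∈ Icc 0 (D.t0 - D.w) := fun r hr =>
    ⟨hs.1.trans hr.1, hr.2.trans ht.2⟩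
  have hor := h.orth hsT htT hX h0
  have hh : 0 < D.h := by linarith [h.h1]
  have htau : ∀ r ∈ Icc s t, 0 < D.t0 - r := fun r hr => by linarith [(hsub r hr).2]
  refine PB.rel h.kelA_cont h.al_pos h.alw_cont h.prop hb.le hsT htT
    (u := yy D.n D.v D.xi X (D.fam.Sl al) al D.s)
    (g := gg D.A D.n D.v D.xi X (D.fam.Sl al) al D.s)
    (ε := fun r => ep D.a D.b (D.t0 - r)) (E := Ep D.a D.b D.t0) ?_ ?_ ?_ ?_ ?_ ?_ ?_
  · intro r hr
    exact h.y_der hf hal (hsub r hr) (hX r hr) (hor r hr)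
  · exact h.gg_cont hf hal hsub fun r hr => (hX r hr).continuousAt.continuousWithinAt
  · have ha := h.a_pos
    intro r hr
    have := htau r hr
    unfold ep
    apply ContinuousAt.continuousWithinAt
    apply ContinuousAt.add
    · apply ContinuousAt.div (by fun_prop) (by fun_prop)
      positivity
    · apply ContinuousAt.div (by fun_prop) (by fun_prop)
      positivity
  · intro r hr
    have := htau r hr
    have ha := h.a_pos
    unfold ep
    positivity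
  · intro r hr
    exact (h.fb hf hal (hsub r hr)).gg_le (hor r hr)
  · intro r hr
    exact Ep_der h.a_pos (htau r hr)
  · have h1 := h.Ep_le (hsub t ⟨ht.1, le_refl t⟩)
    have h2 : 0 ≤ Ep D.a D.b D.t0 s := by
      have := htau s ⟨le_refl s, ht.1⟩
      have ha := h.a_pos
      unfold Ep
      positivity
    have h3 : D.b * (D.h ^ 2)⁻¹ ≤ 1 / 2 := by
      rw [← div_eq_mul_inv, div_le_iff₀ (by positivity)]
      have h4 : 2 * D.b ≤ D.h := by
        calc 2 * D.b ≤ D.b * D.b := by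
              gcongr
              linarith [h.b10]
          _ = D.b ^ 2 := by ring
          _ ≤ D.h := h.hb (by norm_num)
      have h5 : D.h ≤ D.h ^ 2 := by
        calc D.h = D.h ^ 1 := (pow_one _).symm
          _ ≤ D.h ^ 2 := pow_le_pow_right₀ h.h1 (by norm_num)
      linarith
    calc D.b * (Ep D.a D.b D.t0 t - Ep D.a D.b D.t0 s) ≤ D.b * (D.h ^ 2)⁻¹ := by
          gcongr
          linarith
      _ ≤ 1 / 2 := h3

/-- **F3**: the far region. -/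
theorem F3 (h : D.HL) (hf : D.Far) {al : ℝ} (hal : |al| ≤ 1) :
    PBk (D.fam.M al) (D.fam.K al) 0 (D.t0 - D.w) (D.h ^ 16) D.al := by
  intro s hs t ht X hX h0
  have hw := h.wpos
  have hb := h.bpos
  have hh : 0 < D.h := by linarith [h.h1]
  have htw : D.t0 - D.w ≤ D.T := by linarith [h.t0_lt]
  have hsT : s ∈ Icc 0 D.T := h.mem_T (h.far_mem hs)
  have htT : t ∈ Icc s D.T := ⟨ht.1, ht.2.trans htw⟩
  have ht' : t ∈ Icc 0 (D.t0 - D.w) := ⟨hs.1.trans ht.1, ht.2⟩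
  have hor := h.orth hsT htT hX h0
  have h1 := (h.fb hf hal ht').X_le (hor t ⟨ht.1, le_refl t⟩)
  have h2 := (h.fb hf hal ht').u_le (X := X)
  have h3 := h.y_bound hf hal hs ht hX h0
  have h4 := (h.fb hf hal hs).y_le (X := X)
  have h5 : ‖uu D.n X s‖ ≤ ‖X s‖ := uu_le (h.n_ne' s)
  have hat := h.al_pos t ⟨hsT.1.trans ht.1, htT.2⟩
  have has := h.al_pos s hsT
  have hτ : (D.t0 - t)⁻¹ ^ 2 ≤ D.h ^ 14 := by
    have h6 : D.w ≤ D.t0 - t := by linarith [ht.2]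
    calc (D.t0 - t)⁻¹ ^ 2 ≤ D.w⁻¹ ^ 2 := by
          have : 0 < D.t0 - t := hw.trans_le h6
          gcongr
      _ = D.h ^ 14 := by
        rw [w]
        field_simp
  have hfin : 108 * D.b ^ 11 * D.h ^ 14 ≤ D.h ^ 16 := by
    calc 108 * D.b ^ 11 * D.h ^ 14 ≤ 10 ^ 3 * D.b ^ 11 * D.h ^ 14 := by gcongr; norm_num
      _ ≤ D.b ^ 3 * D.b ^ 11 * D.h ^ 14 := by gcongr; exact h.b10
      _ = D.b ^ 14 * D.h ^ 14 := by ring
      _ ≤ D.h * D.h ^ 14 := by gcongr; exact h.hb (by norm_num)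
      _ = D.h ^ 15 := by ring
      _ ≤ D.h ^ 16 := pow_le_pow_right₀ h.h1 (by norm_num)
  have hq : 0 ≤ D.al t / D.al s := by positivity
  calc ‖X t‖ ≤ 2 * ‖uu D.n X t‖ := h1
    _ ≤ 2 * (9 * D.b ^ 7 * (D.t0 - t)⁻¹ ^ 2 *
        (2 * D.b * (D.al t / D.al s) * (3 * D.b ^ 3 * ‖X s‖))) := by
      gcongr
      refine h2.trans ?_
      gcongr
      refine h3.trans ?_
      gcongr
      refine h4.trans ?_
      gcongr
    _ ≤ 2 * (9 * D.b ^ 7 * D.h ^ 14 *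
        (2 * D.b * (D.al t / D.al s) * (3 * D.b ^ 3 * ‖X s‖))) := by
      gcongr
    _ = (108 * D.b ^ 11 * D.h ^ 14) * (D.al t / D.al s) * ‖X s‖ := by ring
    _ ≤ D.h ^ 16 * (D.al t / D.al s) * ‖X s‖ := by gcongr

end HL

end LevD

end Pool.Agent.Work.MP_b0497c_an.Unf.O
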