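import Pool.Agent.Work.MP_b0497c_an.Unf.HandInText

set_option autoImplicit false

namespace Pool.Agent.Work.MP_b0497c_an.Unf.HandInText
open Set
open scoped ContDiff ENNReal

theorem zero_sol (T : ℝ) : IsClassicalSolution T (fun _ _ => 0) (fun _ _ => 0) where
  periodic_u := by intro t ht i x; rfl
  periodic_p := by intro t ht i x; rfl
  contDiff_u := contDiffOn_const
  contDiff_p := contDiffOn_const
  momentum := by
    intro t ht x
    have hg : gradient (fun _ : E3 => (0 : ℝ)) x = 0 := by
      simpa using (gradient_const (x := x) (c := (0 : ℝ)))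
    simp [hg]
  div_free := by
    intro t ht x
    simp [divg]

/-- the travelling shear `u = (1, 0, sin (x_0 - t))`, `p = 0`. -/
noncomputable def us (t : ℝ) (x : E3) : E3 := EuclideanSpace.single 0 1 + Real.sin (x 0 - t) • EuclideanSpace.single 2 (1 : ℝ)

theorem shear_sol (T : ℝ) : IsClassicalSolution T us (fun _ _ => 0) where
  periodic_u := by
    intro t ht i x
    unfold us
    congr 2
    have h0 : (x + (2 * Real.pi) • EuclideanSpace.single i (1 : ℝ)) 0 = x 0 + (2 * Real.pi) * (if i = 0 then 1 else 0) := by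
      fin_cases i <;> simp
    rw [h0]
    split_ifs with h
    · rw [mul_one, show x 0 + 2 * Real.pi - t = (x 0 - t) + 2 * Real.pi by ring, Real.sin_add_two_pi]
    · simp
  periodic_p := by intro t ht i x; rfl
  contDiff_u := by
    apply ContDiff.contDiffOn
    unfold us
    have h1 : ContDiff ℝ 1 (fun z : ℝ × E3 => z.2 0) := by fun_prop
    exact contDiff_const.add ((Real.contDiff_sin.comp (h1.sub contDiff_fst)).smul contDiff_const)
  contDiff_p := contDiffOn_const
  momentum := by
    intro t ht x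
    have hg : gradient (fun _ : E3 => (0 : ℝ)) x = 0 := by
      simpa using (gradient_const (x := x) (c := (0 : ℝ)))
    have h1 : HasDerivAt (fun s => us s x) ((Real.cos (x 0 - t) * (-1)) • EuclideanSpace.single 2 (1 : ℝ)) t := by
      have h := ((hasDerivAt_id t).const_sub (x 0)).sin
      exact (h.smul_const (EuclideanSpace.single 2 (1 : ℝ))).const_add _
    have hT : UniqueDiffWithinAt ℝ (Ico 0 T) t := uniqueDiffOn_Ico 0 T t ht
    rw [h1.hasDerivWithinAt.derivWithin hT]
    have hp : HasFDerivAt (fun y : E3 => y 0) (EuclideanSpace.proj (𝕜 := ℝ) (0 : Fin 3) : E3 →L[ℝ] ℝ) x :=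
      (EuclideanSpace.proj (𝕜 := ℝ) (0 : Fin 3) : E3 →L[ℝ] ℝ).hasFDerivAt
    have h2 := ((hp.sub_const t).sin.smul_const (EuclideanSpace.single (2 : Fin 3) (1 : ℝ))).const_add (EuclideanSpace.single (0 : Fin 3) (1 : ℝ))
    have h3 : fderiv ℝ (us t) x = _ := h2.fderiv
    rw [h3, hg]
    simp [us]
  div_free := by
    intro t ht x
    have hp : HasFDerivAt (fun y : E3 => y 0) (EuclideanSpace.proj (𝕜 := ℝ) (0 : Fin 3) : E3 →L[ℝ] ℝ) x :=
      (EuclideanSpace.proj (𝕜 := ℝ) (0 : Fin 3) : E3 →L[ℝ] ℝ).hasFDerivAt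
    have h2 := ((hp.sub_const t).sin.smul_const (EuclideanSpace.single (2 : Fin 3) (1 : ℝ))).const_add (EuclideanSpace.single (0 : Fin 3) (1 : ℝ))
    have h3 : fderiv ℝ (us t) x = _ := h2.fderiv
    unfold divg
    rw [h3, LinearMap.trace_eq_matrix_trace ℝ (EuclideanSpace.basisFun (Fin 3) ℝ).toBasis]
    simp [Matrix.trace, Fin.sum_univ_three, Matrix.vecMulVec_apply, EuclideanSpace.basisFun_apply]

end Pool.Agent.Work.MP_b0497c_an.Unf.HandInText
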