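import Pool.Agent.Work.MP_b0497c_an.Unf.KDefs
import Pool.Agent.Work.MP_b0497c_an.Unf.DLag
import Pool.Agent.Work.MP_b0497c_an.Unf.S23
import Pool.Agent.Work.MP_b0497c_an.Unf.AProj
import Pool.Agent.Work.MP_b0497c_an.Unf.A7
import Pool.Agent.Work.MP_b0497c_an.Bd.B03

set_option autoImplicit false
set_option linter.dupNamespace false

/-!
# Block K, dictionary: D1, D1v, D3, D4
-/

open scoped ENNReal InnerProductSpace
open Set MeasureTheory

namespace Pool.Agent.Work.MP_b0497c_an.Unf.K.KD4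

open W S
open Forced.Ode (Op ro)

theorem cjv_ofC (x : E3) : cjv (ofC x) = ofC x := by
  ext j
  simp [cjv, ofC_apply]

theorem d1 : D1 := by
  intro θ f hf hr x
  have h1 : ev θ (fun q => f q (ofC x)) = ev θ f (ofC x) := ev_apply θ hf (ofC x)
  have h2 : Summable fun q => ‖f q (ofC x)‖ :=
    Summable.of_nonneg_of_le (fun _ => norm_nonneg _) (fun q => (f q).le_opNorm _)
      (hf.mul_right _)
  have h3 := ev_real θ h2 (fun q => by
    have := hr q (ofC x)
    rwa [cjv_ofC] at this)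
  show _ = ofC (reC (ev θ f (ofC x)))
  rw [← h1, h3]

theorem d1v : D1v := by
  intro θ f hf hr
  exact (ev_real θ hf hr).symm

theorem rM_mm (θ : Md →+ ℝ) {a b : Md → Mat} (ha : Summable fun q => ‖a q‖)
    (hb : Summable fun q => ‖b q‖) (hr : RealM b) :
    rM θ (mm a b) = (rM θ a).comp (rM θ b) := by
  ext1 x
  show reC (ev θ (mm a b) (ofC x)) = reC (ev θ a (ofC (rM θ b x)))
  rw [ev_mm θ ha hb, ← d1 θ b hb hr x]
  rfl

theorem rM_oneM (θ : Md →+ ℝ) : rM θ oneM = ContinuousLinearMap.id ℝ E3 := by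
  ext1 x
  show reC (ev θ oneM (ofC x)) = x
  rw [ev_oneM]
  exact reC_ofC x

theorem rM_norm_le (θ : Md →+ ℝ) (f : Md → Mat) : ‖rM θ f‖ ≤ ‖ev θ f‖ := A.reM_norm_le (ev θ f)

/-- `reM` as a continuous linear map. -/
noncomputable def reML : Mat →L[ℝ] Op :=
  LinearMap.mkContinuous
    { toFun := fun B => reM B
      map_add' := fun a b => by
        ext1 x
        simp [reM_apply]
      map_smul' := fun c a => by
        ext1 x
        simp [reM_apply] } 1 (fun B => by simpa using A.reM_norm_le B)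

theorem reML_apply (B : Mat) : reML B = reM B := rfl

theorem clT_mem {T : ℝ} (hT : 0 ≤ T) (t : ℝ) : clT T t ∈ Icc 0 T :=
  ⟨le_max_left _ _, max_le hT (min_le_right _ _)⟩

theorem clT_eq {T t : ℝ} (ht : t ∈ Icc 0 T) : clT T t = t := by
  rw [clT, min_eq_left ht.2, max_eq_right ht.1]

theorem clT_cont (T : ℝ) : Continuous (clT T) := by
  unfold clT
  fun_prop

theorem ev_cont {T c : ℝ} {f : ℝ → Md → Mat} (hc : 0 ≤ c) (hf : Nrm T c 0 (fun _ => 1) f ≠ ∞)
    (hcm : CM T f) (θ : Md →+ ℝ) : ContinuousOn (fun t => ev θ (f t)) (Icc 0 T) := by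
  obtain ⟨u, hu, hu0, -, hb⟩ := bound_of_Nrm hf
  unfold ev
  refine continuousOn_tsum (u := u) (fun q => ?_) hu fun q t ht => ?_
  · exact (hcm q).const_smul (ch θ q)
  rw [norm_ch_smul]
  refine le_trans ?_ (hb t ht q)
  refine le_mul_of_one_le_left (norm_nonneg _) ?_
  rw [← Real.exp_zero]
  exact Real.exp_le_exp.mpr (mul_nonneg hc (len_nonneg q))

theorem d4 : D4 := by
  intro K T' r R l X U A' p F Fi M h T hT hTT θ
  have hII : Icc 0 T ⊆ Icc 0 T' := Icc_subset_Icc_right hTT
  have hMc : ContinuousOn (fun t => rM θ (M t)) (Icc 0 T') :=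
    reML.continuous.comp_continuousOn (ev_cont h.c_pos.le h.M_fin h.M_cm θ)
  have hc : Continuous (rMt θ T M) := by
    have h1 : ContinuousOn (fun t => rM θ (M (clT T t))) univ :=
      hMc.comp (clT_cont T).continuousOn fun t _ => hII (clT_mem hT.le t)
    exact continuousOn_univ.mp h1
  have heq : ∀ t ∈ Icc 0 T, rMt θ T M t = rM θ (M t) := fun t ht => by
    rw [rMt, clT_eq ht]
  -- inverses
  have hFs : ∀ t ∈ Icc 0 T, Summable fun q => ‖F t q‖ := fun t ht => h.toLevSol.sum_F (hII ht)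
  have hFis : ∀ t ∈ Icc 0 T, Summable fun q => ‖Fi t q‖ := fun t ht => h.toLevSol.sum_Fi (hII ht)
  have hMs : ∀ t ∈ Icc 0 T, Summable fun q => ‖M t q‖ := fun t ht => h.toLevSol.sum_M (hII ht)
  have hinv1 : ∀ t ∈ Icc 0 T,
      (rM θ (F t)).comp (rM θ (Fi t)) = ContinuousLinearMap.id ℝ E3 := fun t ht => by
    rw [← rM_mm θ (hFs t ht) (hFis t ht) (h.Fi_even t (hII ht)).1, h.FFi t (hII ht), rM_oneM]
  have hinv2 : ∀ t ∈ Icc 0 T,
      (rM θ (Fi t)).comp (rM θ (F t)) = ContinuousLinearMap.id ℝ E3 := fun t ht => by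
    rw [← rM_mm θ (hFis t ht) (hFs t ht) (h.F_even t (hII ht)).1, h.inv t (hII ht), rM_oneM]
  -- derivative of the flow
  have hder : ∀ t ∈ Icc 0 T, HasDerivWithinAt (fun t => rM θ (F t))
      ((rM θ (M t)).comp (rM θ (F t))) (Icc 0 T) t := by
    intro t ht
    obtain ⟨b, hb, hb0, -, hbb⟩ := bound_of_Nrm h.F_fin
    have hMF : Nrm T' r 0 (fun _ => 1) (fun t => mm (M t) (F t)) ≠ ∞ := by
      refine ne_top_of_le_ne_top ?_ (A.Nrm_mm_le pr_W09 h.c_pos.le M F)
      exact ENNReal.mul_ne_top h.M_fin h.F_fin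
    obtain ⟨u, hu, hu0, -, hub⟩ := bound_of_Nrm hMF
    have hle : ∀ q : Md, 1 ≤ Real.exp (r * len q) := fun q => by
      rw [← Real.exp_zero]
      exact Real.exp_le_exp.mpr (mul_nonneg h.c_pos.le (len_nonneg q))
    have h1 := S23p.hasDerivWithinAt_tsum (T := T') (g := fun t q => ch θ q • F t q)
      (g' := fun t q => ch θ q • mm (M t) (F t) q) hb hu
      (fun t ht q => (h.F_der q t ht).const_smul (ch θ q))
      (fun t ht q => by
        rw [norm_smul, ch_norm, one_mul]
        exact (le_mul_of_one_le_left (norm_nonneg _) (hle q)).trans (hbb t ht q))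
      (fun t ht q => by
        rw [norm_smul, ch_norm, one_mul]
        exact (le_mul_of_one_le_left (norm_nonneg _) (hle q)).trans (hub t ht q))
      (hII ht)
    have h2 : HasDerivWithinAt (fun t => reML (ev θ (F t))) (reML (ev θ (mm (M t) (F t))))
        (Icc 0 T') t := reML.hasFDerivAt.comp_hasDerivWithinAt t h1
    have h3 : reML (ev θ (mm (M t) (F t))) = (rM θ (M t)).comp (rM θ (F t)) :=
      rM_mm θ (hMs t ht) (hFs t ht) (h.F_even t (hII ht)).1
    rw [h3] at h2
    exact h2.mono hII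
  -- the dual flow
  have hdual : ∀ k : E3, ∀ t ∈ Icc 0 T,
      ContinuousLinearMap.adjoint (rM θ (Fi t)) k = covec (rMt θ T M) k t := by
    intro k t ht
    have h0 : (0:ℝ) ∈ Icc 0 T := ⟨le_rfl, hT.le⟩
    have hF0 : rM θ (F 0) = ContinuousLinearMap.id ℝ E3 := by
      have h1 : F 0 = oneM := by
        rw [h.F_eq 0 (hII h0), h.x_zero]
        have : gradV K 0 = 0 := by
          funext q
          ext v
          simp [gradV]
        rw [this, add_zero]
      rw [h1, rM_oneM]
    have key : ∀ y : E3, ⟪covec (rMt θ T M) k t, rM θ (F t) y⟫_ℝ = ⟪k, y⟫_ℝ := by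
      intro y
      set g : ℝ → ℝ := fun s => ⟪covec (rMt θ T M) k s, rM θ (F s) y⟫_ℝ with hg
      have hd : ∀ s ∈ Icc 0 T, HasDerivWithinAt g 0 (Icc 0 T) s := by
        intro s hs
        have h1 := (covec_deriv hc k s).hasDerivWithinAt (s := Icc 0 T)
        have h2 : HasDerivWithinAt (fun s => rM θ (F s) y)
            (((rM θ (M s)).comp (rM θ (F s))) y) (Icc 0 T) s :=
          (ContinuousLinearMap.apply ℝ E3 y).hasFDerivAt.comp_hasDerivWithinAt s (hder s hs)
        refine (h1.inner ℝ h2).congr_deriv ?_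
        rw [dg, heq s hs]
        simp only [ContinuousLinearMap.comp_apply, neg_apply, inner_neg_left]
        rw [ContinuousLinearMap.adjoint_inner_left]
        ring
      have h3 := constant_of_has_deriv_right_zero (f := g) (a := 0) (b := T)
        (fun s hs => (hd s hs).continuousWithinAt)
        (fun s hs => ((hd s ⟨hs.1, hs.2.le⟩).mono_of_mem_nhdsWithin
          (Icc_mem_nhdsGE_of_mem hs)))
        t ht
      have h4 : g 0 = ⟪k, y⟫_ℝ := by
        simp only [hg]
        rw [covec_zero, hF0]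
        rfl
      rw [← h4, ← h3]
    refine ext_inner_right ℝ fun z => ?_
    rw [ContinuousLinearMap.adjoint_inner_left]
    have h5 := key (rM θ (Fi t) z)
    have h6 : rM θ (F t) (rM θ (Fi t) z) = z := by
      have := congrArg (fun L : Op => L z) (hinv1 t ht)
      simpa using this
    rw [h6] at h5
    exact h5.symm
  refine ⟨hc, heq, hdual, fun t ht => ⟨hinv1 t ht, hinv2 t ht⟩, hder, fun t ht => ?_⟩
  have h1 := trace_reM (ev θ (M t))
  rw [trace_ev θ (hMs t ht) (h.tr_M t (hII ht)), Complex.zero_re] at h1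
  exact h1

end Pool.Agent.Work.MP_b0497c_an.Unf.K.KD4
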