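import Pool.Agent.Work.MP_b0497c_an.Unf.KPert

set_option autoImplicit false

/-!
# Kelvin generators: from the plane `k^⊥` to the whole space (block K, Z0 of KZ.md)

`kel M k x = - M x + 2 (k · M x) / |k|² k`.  If `k' = - Mᵀ k` then `k · u` is constant along
`u' = kel M k u`, and a weighted bound for the solutions in `k^⊥` gives one for all solutions.
-/

open scoped Topology InnerProductSpace
open Set MeasureTheory

namespace Pool.Agent.Work.MP_b0497c_an.Unf.K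

variable {V : Type} [NormedAddCommGroup V] [InnerProductSpace ℝ V]

/-- The Kelvin generator `-(1 - 2 k kᵀ / |k|²) M`. -/
noncomputable def kel (M : V →L[ℝ] V) (k : V) : V →L[ℝ] V :=
  -M + (2 * (‖k‖ ^ 2)⁻¹) • ((innerSL ℝ k).comp M).smulRight k

theorem kel_apply (M : V →L[ℝ] V) (k x : V) :
    kel M k x = -M x + (2 * (‖k‖ ^ 2)⁻¹ * ⟪k, M x⟫_ℝ) • k := by
  simp [kel, smul_smul]

theorem inner_kel (M : V →L[ℝ] V) {k : V} (hk : k ≠ 0) (x : V) :
    ⟪k, kel M k x⟫_ℝ = ⟪k, M x⟫_ℝ := by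
  have h : ‖k‖ ^ 2 ≠ 0 := by simpa using hk
  rw [kel_apply, inner_add_right, inner_neg_right, inner_smul_right, real_inner_self_eq_norm_sq]
  field_simp
  ring

theorem norm_kel_le (M : V →L[ℝ] V) (k : V) : ‖kel M k‖ ≤ 3 * ‖M‖ := by
  refine ContinuousLinearMap.opNorm_le_bound _ (by positivity) fun x => ?_
  rw [kel_apply]
  have h1 : ‖M x‖ ≤ ‖M‖ * ‖x‖ := M.le_opNorm x
  have h2 : ‖(2 * (‖k‖ ^ 2)⁻¹ * ⟪k, M x⟫_ℝ) • k‖ ≤ 2 * ‖M x‖ := by
    rw [norm_smul, norm_mul, norm_mul, Real.norm_eq_abs, Real.norm_eq_abs, Real.norm_eq_abs,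
      abs_of_pos (two_pos), abs_of_nonneg (by positivity : (0:ℝ) ≤ (‖k‖ ^ 2)⁻¹)]
    have h3 : |⟪k, M x⟫_ℝ| ≤ ‖k‖ * ‖M x‖ := abs_real_inner_le_norm k (M x)
    rcases eq_or_ne k 0 with rfl | hk
    · simp
    have hk' : 0 < ‖k‖ := norm_pos_iff.2 hk
    calc 2 * (‖k‖ ^ 2)⁻¹ * |⟪k, M x⟫_ℝ| * ‖k‖
        ≤ 2 * (‖k‖ ^ 2)⁻¹ * (‖k‖ * ‖M x‖) * ‖k‖ := by gcongr
      _ = 2 * ‖M x‖ := by field_simp
  calc ‖-M x + (2 * (‖k‖ ^ 2)⁻¹ * ⟪k, M x⟫_ℝ) • k‖
      ≤ ‖-M x‖ + ‖(2 * (‖k‖ ^ 2)⁻¹ * ⟪k, M x⟫_ℝ) • k‖ := norm_add_le _ _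
    _ ≤ ‖M‖ * ‖x‖ + 2 * (‖M‖ * ‖x‖) := by rw [norm_neg]; linarith
    _ = 3 * ‖M‖ * ‖x‖ := by ring

/-- Weighted bound for the solutions with `k · u = 0`. -/
def PBk (M : ℝ → V →L[ℝ] V) (k : ℝ → V) (a b C : ℝ) (w : ℝ → ℝ) : Prop :=
  ∀ s ∈ Icc a b, ∀ t ∈ Icc s b, ∀ u : ℝ → V,
    (∀ r ∈ Icc s t, HasDerivAt u (kel (M r) (k r) (u r)) r) → ⟪k s, u s⟫_ℝ = 0 →
    ‖u t‖ ≤ C * (w t / w s) * ‖u s‖

variable [CompleteSpace V]

theorem inner_const {M : ℝ → V →L[ℝ] V} {k u : ℝ → V} {s t : ℝ}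
    (hk : ∀ r ∈ Icc s t, HasDerivAt k (-(ContinuousLinearMap.adjoint (M r) (k r))) r)
    (hk0 : ∀ r ∈ Icc s t, k r ≠ 0)
    (hu : ∀ r ∈ Icc s t, HasDerivAt u (kel (M r) (k r) (u r)) r) :
    ∀ r ∈ Icc s t, ⟪k r, u r⟫_ℝ = ⟪k s, u s⟫_ℝ := by
  have hd : ∀ r ∈ Icc s t, HasDerivAt (fun r => ⟪k r, u r⟫_ℝ) 0 r := by
    intro r hr
    refine ((hk r hr).inner ℝ (hu r hr)).congr_deriv ?_
    rw [inner_kel _ (hk0 r hr), inner_neg_left, ContinuousLinearMap.adjoint_inner_left]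
    ring
  intro r hr
  have h := constant_of_has_deriv_right_zero (f := fun r => ⟪k r, u r⟫_ℝ) (a := s) (b := t)
    (fun x hx => (hd x hx).continuousAt.continuousWithinAt)
    (fun x hx => (hd x ⟨hx.1, hx.2.le⟩).hasDerivWithinAt) r hr
  exact h

/-- From the plane to the whole space. -/
theorem PBk.toPB {M : ℝ → V →L[ℝ] V} {k : ℝ → V} {a b C A Q : ℝ} {w : ℝ → ℝ}
    (hAc : Continuous fun r => kel (M r) (k r)) (hMc : ContinuousOn M (Icc a b))
    (hw : ∀ r ∈ Icc a b, 0 < w r) (hwm : MonotoneOn w (Icc a b))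
    (hk : ∀ r ∈ Icc a b, HasDerivAt k (-(ContinuousLinearMap.adjoint (M r) (k r))) r)
    (hk0 : ∀ r ∈ Icc a b, k r ≠ 0) (hM : ∀ r ∈ Icc a b, ‖M r‖ ≤ A)
    (hQ : ∀ s ∈ Icc a b, ∀ t ∈ Icc s b, ‖k s‖ ≤ Q * ‖k t‖) (hC : 1 ≤ C) (hA : 0 ≤ A) (hQ1 : 1 ≤ Q)
    (hab : b - a ≤ 1) (hPB : PBk M k a b C w) :
    PB (fun r => kel (M r) (k r)) a b (C * (2 + (6 * A + 1) * Q)) w := by
  intro s hs t ht u hu
  have hsub : Icc s t ⊆ Icc a b := fun r hr => ⟨hs.1.trans hr.1, hr.2.trans ht.2⟩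
  have hkt : ∀ r ∈ Icc s t, HasDerivAt k (-(ContinuousLinearMap.adjoint (M r) (k r))) r :=
    fun r hr => hk r (hsub hr)
  have hk0t : ∀ r ∈ Icc s t, k r ≠ 0 := fun r hr => hk0 r (hsub hr)
  have hinner := inner_const hkt hk0t hu
  set κ : ℝ := ⟪k s, u s⟫_ℝ with hκ
  have hκb : ∀ r ∈ Icc s t, |κ| / ‖k r‖ ≤ Q * ‖u s‖ := by
    intro r hr
    have h1 : 0 < ‖k r‖ := norm_pos_iff.2 (hk0t r hr)
    rw [div_le_iff₀ h1]
    calc |κ| ≤ ‖k s‖ * ‖u s‖ := abs_real_inner_le_norm _ _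
      _ ≤ (Q * ‖k r‖) * ‖u s‖ := by
        apply mul_le_mul_of_nonneg_right _ (norm_nonneg _)
        exact hQ s hs r ⟨hr.1, hr.2.trans ht.2⟩
      _ = Q * ‖u s‖ * ‖k r‖ := by ring
  obtain ⟨Y, Z, hY, hZ, hZY, hYZ⟩ := PB.exists_fund (V := V) hAc
  have hYc : Continuous Y := continuous_iff_continuousAt.2 fun t => (hY t).continuousAt
  have hZc : Continuous Z := continuous_iff_continuousAt.2 fun t => (hZ t).continuousAt
  have hws := hw s hs
  have hwt : 0 < w t := hw t ⟨hs.1.trans ht.1, ht.2⟩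
  -- the unit-type vector and its derivative
  set e : ℝ → V := fun r => (‖k r‖ ^ 2)⁻¹ • k r with he
  have hkc : ContinuousOn k (Icc s t) := fun r hr => (hkt r hr).continuousAt.continuousWithinAt
  set e' : ℝ → V := fun r => (‖k r‖ ^ 2)⁻¹ • (-(ContinuousLinearMap.adjoint (M r) (k r))) +
    (2 * (‖k r‖ ^ 2)⁻¹ ^ 2 * ⟪k r, ContinuousLinearMap.adjoint (M r) (k r)⟫_ℝ) • k r with he'
  have hed : ∀ r ∈ Icc s t, HasDerivAt e (e' r) r := by
    intro r hr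
    have hk2 : ‖k r‖ ^ 2 ≠ 0 := by simpa using hk0t r hr
    have h1 : HasDerivAt (fun r => ‖k r‖ ^ 2)
        (2 * ⟪k r, -(ContinuousLinearMap.adjoint (M r) (k r))⟫_ℝ) r := (hkt r hr).norm_sq
    have h2 := (h1.fun_inv hk2).smul (hkt r hr)
    refine h2.congr_deriv ?_
    have h3 : -(2 * ⟪k r, -(ContinuousLinearMap.adjoint (M r) (k r))⟫_ℝ) / (‖k r‖ ^ 2) ^ 2 =
        2 * (‖k r‖ ^ 2)⁻¹ ^ 2 * ⟪k r, ContinuousLinearMap.adjoint (M r) (k r)⟫_ℝ := by
      rw [inner_neg_right]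
      field_simp
    simp only [he']
    rw [h3]
  have hMt : ContinuousOn M (Icc s t) := hMc.mono hsub
  have hadjc : ContinuousOn (fun r => ContinuousLinearMap.adjoint (M r) (k r)) (Icc s t) :=
    ((ContinuousLinearMap.adjoint (𝕜 := ℝ) (E := V) (F := V)).continuous.comp_continuousOn
      hMt).clm_apply hkc
  have hn2 : ∀ r ∈ Icc s t, ‖k r‖ ^ 2 ≠ 0 := fun r hr => by simpa using hk0t r hr
  have hinvc : ContinuousOn (fun r => (‖k r‖ ^ 2)⁻¹) (Icc s t) := (hkc.norm.pow 2).inv₀ hn2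
  have hec : ContinuousOn e (Icc s t) := hinvc.smul hkc
  have hec' : ContinuousOn e' (Icc s t) := by
    apply ContinuousOn.add
    · exact hinvc.smul hadjc.neg
    · exact ((continuousOn_const.mul (hinvc.pow 2)).mul (hkc.inner (𝕜 := ℝ) hadjc)).smul hkc
  -- the source
  set f : ℝ → V := fun r => κ • (kel (M r) (k r) (e r) - e' r) with hf
  have hfc : ContinuousOn f (Icc s t) := by
    apply ContinuousOn.const_smul
    exact (hAc.continuousOn.clm_apply hec).sub hec'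
  have hff : ∀ r ∈ Icc s t, ⟪k r, f r⟫_ℝ = 0 := by
    intro r hr
    have hk2 := hn2 r hr
    simp only [hf, inner_smul_right, inner_sub_right]
    rw [inner_kel _ (hk0t r hr)]
    simp only [he, he', map_smul, inner_smul_right, inner_add_right, inner_neg_right,
      real_inner_self_eq_norm_sq, ContinuousLinearMap.adjoint_inner_right,
      real_inner_comm (k r) (M r (k r))]
    field_simp
    ring
  have hfb : ∀ r ∈ Icc s t, ‖f r‖ ≤ 6 * A * Q * ‖u s‖ := by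
    intro r hr
    have hkr : 0 < ‖k r‖ := norm_pos_iff.2 (hk0t r hr)
    have hMr := hM r (hsub hr)
    have hen : ‖e r‖ = ‖k r‖⁻¹ := by
      simp only [he, norm_smul, norm_inv, norm_pow, norm_norm]
      field_simp
    have h1 : ‖kel (M r) (k r) (e r)‖ ≤ 3 * A * ‖k r‖⁻¹ := by
      calc ‖kel (M r) (k r) (e r)‖ ≤ ‖kel (M r) (k r)‖ * ‖e r‖ := ContinuousLinearMap.le_opNorm _ _
        _ ≤ (3 * A) * ‖k r‖⁻¹ := by
          rw [hen]
          apply mul_le_mul_of_nonneg_right _ (by positivity)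
          exact (norm_kel_le _ _).trans (by linarith)
    have hadj : ‖ContinuousLinearMap.adjoint (M r) (k r)‖ ≤ A * ‖k r‖ := by
      refine (ContinuousLinearMap.le_opNorm _ _).trans ?_
      rw [LinearIsometryEquiv.norm_map]
      exact mul_le_mul_of_nonneg_right hMr (norm_nonneg _)
    have h2 : ‖e' r‖ ≤ 3 * A * ‖k r‖⁻¹ := by
      have h3 : ‖(‖k r‖ ^ 2)⁻¹ • (-(ContinuousLinearMap.adjoint (M r) (k r)))‖ ≤
          A * ‖k r‖⁻¹ := by
        rw [norm_smul, norm_neg, norm_inv, norm_pow, norm_norm]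
        calc (‖k r‖ ^ 2)⁻¹ * ‖ContinuousLinearMap.adjoint (M r) (k r)‖
            ≤ (‖k r‖ ^ 2)⁻¹ * (A * ‖k r‖) := by gcongr
          _ = A * ‖k r‖⁻¹ := by field_simp
      have h4 : ‖(2 * (‖k r‖ ^ 2)⁻¹ ^ 2 *
          ⟪k r, ContinuousLinearMap.adjoint (M r) (k r)⟫_ℝ) • k r‖ ≤ 2 * A * ‖k r‖⁻¹ := by
        have h5 : |⟪k r, ContinuousLinearMap.adjoint (M r) (k r)⟫_ℝ| ≤ ‖k r‖ * (A * ‖k r‖) :=
          (abs_real_inner_le_norm _ _).trans (mul_le_mul_of_nonneg_left hadj (norm_nonneg _))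
        rw [norm_smul, norm_mul, Real.norm_eq_abs, Real.norm_eq_abs,
          abs_of_nonneg (by positivity : (0:ℝ) ≤ 2 * (‖k r‖ ^ 2)⁻¹ ^ 2)]
        calc 2 * (‖k r‖ ^ 2)⁻¹ ^ 2 * |⟪k r, ContinuousLinearMap.adjoint (M r) (k r)⟫_ℝ| * ‖k r‖
            ≤ 2 * (‖k r‖ ^ 2)⁻¹ ^ 2 * (‖k r‖ * (A * ‖k r‖)) * ‖k r‖ := by gcongr
          _ = 2 * A * ‖k r‖⁻¹ := by field_simp
      calc ‖e' r‖ ≤ A * ‖k r‖⁻¹ + 2 * A * ‖k r‖⁻¹ := (norm_add_le _ _).trans (add_le_add h3 h4)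
        _ = 3 * A * ‖k r‖⁻¹ := by ring
    have h6 := hκb r hr
    calc ‖f r‖ ≤ |κ| * (3 * A * ‖k r‖⁻¹ + 3 * A * ‖k r‖⁻¹) := by
          simp only [hf]
          rw [norm_smul, Real.norm_eq_abs]
          apply mul_le_mul_of_nonneg_left _ (abs_nonneg _)
          exact (norm_sub_le _ _).trans (add_le_add h1 h2)
      _ = 6 * A * (|κ| / ‖k r‖) := by ring
      _ ≤ 6 * A * (Q * ‖u s‖) := by gcongr
      _ = 6 * A * Q * ‖u s‖ := by ring
  -- the plane part of u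
  set v : ℝ → V := fun r => u r - κ • e r with hv
  have hvd : ∀ r ∈ Icc s t, HasDerivAt v (kel (M r) (k r) (v r) + f r) r := by
    intro r hr
    refine ((hu r hr).sub ((hed r hr).const_smul κ)).congr_deriv ?_
    simp only [hv, hf, map_sub, map_smul, smul_sub]
    abel
  have hvs : ⟪k s, v s⟫_ℝ = 0 := by
    have hk2 := hn2 s ⟨le_refl s, ht.1⟩
    simp only [hv, he, inner_sub_right, inner_smul_right, real_inner_self_eq_norm_sq]
    rw [← hκ, inv_mul_cancel₀ hk2]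
    ring
  have hΦ : ∀ r ∈ Icc s t, ∀ z : V, ⟪k r, z⟫_ℝ = 0 → ‖Y t (Z r z)‖ ≤ C * (w t / w r) * ‖z‖ := by
    intro r hr z hz
    have h2 : Y r (Z r z) = z := by
      have := congrArg (fun T : V →L[ℝ] V => T z) (hYZ r)
      simpa using this
    have h1 := hPB r ⟨hs.1.trans hr.1, hr.2.trans ht.2⟩ t ⟨hr.2, ht.2⟩ (fun x => Y x (Z r z))
      (fun x _ => by
        have h2 := (hY x).clm_apply (hasDerivAt_const x (Z r z))
        refine h2.congr_deriv ?_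
        simp) (by simpa only [h2] using hz)
    simp only [h2] at h1
    exact h1
  have hdif : ∀ r ∈ Icc s t, HasDerivAt (fun r => Y t (Z r (v r))) (Y t (Z r (f r))) r := by
    intro r hr
    have h1 := (hZ r).clm_apply (hvd r hr)
    have h2 := (Y t).hasFDerivAt.comp_hasDerivAt r h1
    refine h2.congr_deriv ?_
    simp
  have hint : IntervalIntegrable (fun r => Y t (Z r (f r))) volume s t := by
    apply ContinuousOn.intervalIntegrable
    rw [uIcc_of_le ht.1]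
    exact (Y t).continuous.comp_continuousOn (hZc.continuousOn.clm_apply hfc)
  have hFTC : ∫ r in s..t, Y t (Z r (f r)) = Y t (Z t (v t)) - Y t (Z s (v s)) := by
    refine intervalIntegral.integral_eq_sub_of_hasDerivAt (f := fun r => Y t (Z r (v r))) ?_ hint
    rw [uIcc_of_le ht.1]
    exact hdif
  have h3 : Y t (Z t (v t)) = v t := by
    have := congrArg (fun T : V →L[ℝ] V => T (v t)) (hYZ t)
    simpa using this
  have h4 : v t = Y t (Z s (v s)) + ∫ r in s..t, Y t (Z r (f r)) := by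
    rw [hFTC, h3]
    abel
  have hwle : ∀ r ∈ Icc s t, w t / w r ≤ w t / w s := by
    intro r hr
    apply div_le_div_of_nonneg_left hwt.le hws
    exact hwm hs (hsub hr) hr.1
  have hC0 : 0 ≤ C := by linarith
  have h5 : ‖∫ r in s..t, Y t (Z r (f r))‖ ≤ (C * (w t / w s) * (6 * A * Q * ‖u s‖)) * |t - s| := by
    apply intervalIntegral.norm_integral_le_of_norm_le_const
    intro r hr
    rw [uIoc_of_le ht.1] at hr
    have hr' : r ∈ Icc s t := ⟨hr.1.le, hr.2⟩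
    calc ‖Y t (Z r (f r))‖ ≤ C * (w t / w r) * ‖f r‖ := hΦ r hr' _ (hff r hr')
      _ ≤ C * (w t / w s) * (6 * A * Q * ‖u s‖) := by
        apply mul_le_mul _ (hfb r hr') (norm_nonneg _) (by positivity)
        exact mul_le_mul_of_nonneg_left (hwle r hr') hC0
  have hts : |t - s| ≤ 1 := by
    rw [abs_of_nonneg (by linarith [ht.1])]
    linarith [hs.1, ht.2]
  have hes : ∀ r ∈ Icc s t, ‖κ • e r‖ ≤ Q * ‖u s‖ := by
    intro r hr
    have hkr : 0 < ‖k r‖ := norm_pos_iff.2 (hk0t r hr)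
    have hen : ‖e r‖ = ‖k r‖⁻¹ := by
      simp only [he, norm_smul, norm_inv, norm_pow, norm_norm]
      field_simp
    rw [norm_smul, hen, Real.norm_eq_abs]
    exact hκb r hr
  have hvs' : ‖v s‖ ≤ ‖u s‖ := by
    -- orthogonal projection
    have h7 : u s = v s + κ • e s := by simp [hv]
    have h8 : ⟪v s, κ • e s⟫_ℝ = 0 := by
      simp only [he, inner_smul_right]
      rw [real_inner_comm, hvs]
      ring
    have h9 : ‖u s‖ ^ 2 = ‖v s‖ ^ 2 + ‖κ • e s‖ ^ 2 := by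
      rw [h7, norm_add_sq_real, h8]
      ring
    have h12 : ‖v s‖ ^ 2 ≤ ‖u s‖ ^ 2 := by
      rw [h9]
      exact le_add_of_nonneg_right (sq_nonneg _)
    exact (sq_le_sq₀ (norm_nonneg _) (norm_nonneg _)).1 h12
  have hone : 1 ≤ w t / w s := by
    rw [one_le_div hws]
    exact hwm hs ⟨hs.1.trans ht.1, ht.2⟩ ht.1
  have h10 : u t = v t + κ • e t := by simp [hv]
  have hrat : 0 ≤ w t / w s := by positivity
  calc ‖u t‖ ≤ ‖v t‖ + ‖κ • e t‖ := by rw [h10]; exact norm_add_le _ _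
    _ ≤ (C * (w t / w s) * ‖u s‖ + (C * (w t / w s) * (6 * A * Q * ‖u s‖)) * 1) + Q * ‖u s‖ := by
      apply add_le_add _ (hes t ⟨ht.1, le_refl t⟩)
      rw [h4]
      refine (norm_add_le _ _).trans (add_le_add ?_ ?_)
      · refine (hΦ s ⟨le_refl s, ht.1⟩ _ hvs).trans ?_
        exact mul_le_mul_of_nonneg_left hvs' (by positivity)
      · refine h5.trans ?_
        exact mul_le_mul_of_nonneg_left hts (by positivity)
    _ ≤ (C * (w t / w s) * ‖u s‖ + (C * (w t / w s) * (6 * A * Q * ‖u s‖)) * 1) +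
        C * (w t / w s) * (Q * ‖u s‖) := by
      have h11 : 1 * (Q * ‖u s‖) ≤ C * (w t / w s) * (Q * ‖u s‖) := by
        apply mul_le_mul_of_nonneg_right _ (by positivity)
        nlinarith
      linarith
    _ = C * (1 + (6 * A + 1) * Q) * (w t / w s) * ‖u s‖ := by ring
    _ ≤ C * (2 + (6 * A + 1) * Q) * (w t / w s) * ‖u s‖ := by
      apply mul_le_mul_of_nonneg_right _ (norm_nonneg _)
      apply mul_le_mul_of_nonneg_right _ hrat
      nlinarith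

end Pool.Agent.Work.MP_b0497c_an.Unf.K
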