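import Pool.Agent.Work.MP_b0497c_an.Unf.ADefs

set_option autoImplicit false
set_option linter.dupNamespace false

/-!
# Block L (labels): exponentials, composition with a change of phases, new level data

`x i` is the displacement of the phase `θ i` (a scalar function), `comp x f` has the coefficients
of the function `θ ↦ f (θ + x (θ))`.  Proofs of all items: `Unforced/LLEAN.md`.
-/

open scoped ENNReal
open Set MeasureTheory

namespace Pool.Agent.Work.MP_b0497c_an.Unf.L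

open W S

section defs

variable {E : Type} [NormedAddCommGroup E] [NormedSpace ℂ E]

/-- The constant function `e`. -/
noncomputable def cst (e : E) : Md → E := fun q => if q = 0 then e else 0

/-- Powers of a scalar function. -/
noncomputable def cpow (φ : Md → ℂ) : ℕ → Md → ℂ
  | 0 => cst 1
  | k + 1 => conv (ContinuousLinearMap.mul ℂ ℂ) φ (cpow φ k)

/-- The exponential of a scalar function. -/
noncomputable def expC (φ : Md → ℂ) (q : Md) : ℂ := ∑' k : ℕ, ((k.factorial : ℂ))⁻¹ * cpow φ k q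

/-- The displacement `∑ q_i x_i` of the phase `q · θ`. -/
noncomputable def phF (x : ℕ → Md → ℂ) (q p : Md) : ℂ := q.sum fun i z => (z : ℂ) * x i p

/-- The function `f (θ + x (θ))`. -/
noncomputable def comp (x : ℕ → Md → ℂ) (f : Md → E) (p : Md) : E :=
  ∑' q, expC (fun r => Complex.I * phF x q r) (p - q) • f q

/-- The phase displacements of a displacement `ζ` of the labels: `x i = K_i · ζ`. -/
noncomputable def lab (K : ℕ → Fin 3 → ℤ) (ζ : Md → C3) (i : ℕ) (p : Md) : ℂ :=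
  innerSL ℂ (kv (K i)) (ζ p)

/-- The derivative in the phase `θ j`. -/
noncomputable def dj (j : ℕ) (f : Md → E) (q : Md) : E := (Complex.I * (q j : ℂ)) • f q

/-- The displaced point of the torus. -/
noncomputable def sh (θ : Md →+ ℝ) (x : ℕ → Md → ℂ) : Md →+ ℝ where
  toFun q := θ q + q.sum fun i z => (z : ℝ) * (ev θ (x i)).re
  map_zero' := by simp
  map_add' p q := by
    rw [Finsupp.sum_add_index' (fun i => by simp) (fun i a b => by push_cast; ring), map_add]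
    ring

/-- The trace of a matrix. -/
noncomputable def trM (B : Mat) : ℂ := LinearMap.trace ℂ C3 (B : C3 →ₗ[ℂ] C3)

/-- The determinant of a matrix. -/
noncomputable def detM (B : Mat) : ℂ := LinearMap.det (B : C3 →ₗ[ℂ] C3)

/-- Phase displacements at a fixed time: small, real, of level `n`. -/
structure XH (n : ℕ) (c1 B : ℝ) (x : ℕ → Md → ℂ) : Prop where
  c_nn : 0 ≤ c1
  B_nn : 0 ≤ B
  le : ∀ i ≤ n, sN c1 (x i) ≤ ENNReal.ofReal B
  supp : ∀ i ≤ n, SuppIn (lev n : Set Md) (x i)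
  real : ∀ i ≤ n, RealS (x i)

/-- A time dependent function of level `n`, every mode continuous, of finite norm. -/
structure Fn (n : ℕ) (T c : ℝ) (f : ℝ → Md → E) : Prop where
  cm : CM T f
  supp : SuppT T (lev n : Set Md) f
  fin : Nrm T c 0 Dat.one' f ≠ ∞

end defs

/-! ### Data of the step `n → n + 1` -/

section new

variable (D : Dat)

/-- The level `n` of the record `D` is an exact Lagrangian solution. -/
def Lv (X U a : ℝ → Md → C3) (p : ℝ → Md → ℂ) : Prop :=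
  A.Lvl D.K D.T D.c D.G D.n X U a p (D.F D.n) (D.Fi D.n) (D.M D.n)

/-- The new wave vector, `N_{n+1}`, `u_{n+1}`, `α_{n+1}`. -/
noncomputable def K1 : C3 := D.kk (D.n + 1)

/-- `N_{n+1}`. -/
noncomputable def N1 : ℝ := D.N (D.n + 1)

/-- `u_{n+1}`. -/
noncomputable def u1 : ℝ := D.u (D.n + 1)

/-- `α_{n+1}`. -/
noncomputable def α1 : ℝ → ℝ := D.α (D.n + 1)

/-- The linear wave `Φ_{n+1}(t,0) w0`. -/
noncomputable def lw (w0 : Md → C3) (t : ℝ) : Md → C3 := mul (D.Φ (D.n + 1) t 0) w0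

/-- `V = F_n⁻¹ w`. -/
noncomputable def VV (w : ℝ → Md → C3) (t : ℝ) : Md → C3 := mul (D.Fi D.n t) (w t)

/-- The nonlinear term `(V · grad) w`. -/
noncomputable def NL (w : ℝ → Md → C3) (t : ℝ) : Md → C3 := mul (gradV D.K (w t)) (VV D w t)

/-- The solution `w` of the step `n → n+1` (output of S24, S25, S28, S30, S31) with the seed `w0`;
all norms at fixed radii. -/
structure WIn (w0 : Md → C3) (w : ℝ → Md → C3) : Prop where
  cm : CM D.T w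
  supp : SuppT D.T (lev (D.n + 1) : Set Md) w
  zero : w 0 = w0
  w0_supp : SuppIn (Cl (D.n + 1)) w0
  w0_odd : A.OddV w0
  der : ∀ q, ∀ t ∈ Icc 0 D.T, HasDerivWithinAt (fun t => w t q) (RHS D w t q) (Icc 0 D.T) t
  /-- the new class -/
  w_le : Nrm D.T (D.c / 2) 0 (α1 D) (fun t => res (Cl (D.n + 1)) (w t)) ≤
    ENNReal.ofReal (D.G ^ 3 / N1 D)
  w_dif : Nrm D.T (D.c / 2) 0 (α1 D) (fun t => res (Cl (D.n + 1)) (w t) - lw D w0 t) ≤
    ENNReal.ofReal (u1 D ^ 64 / N1 D)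
  w_k : Nrm D.T (D.c / 2) 0 (α1 D) (fun t => mul (D.rw (D.n + 1) t)
    (res (Cl (D.n + 1)) (w t))) ≤ ENNReal.ofReal (u1 D ^ 120)
  /-- the lower levels -/
  w_low : Nrm D.T (D.c / 2) 0 (α1 D) (fun t => res (lev D.n : Set Md) (w t)) ≤
    ENNReal.ofReal (u1 D ^ 256 / N1 D)
  div : ∀ t ∈ Icc 0 D.T, ∀ q, inner ℂ (xi D.K q) (VV D w t q) = 0
  odd : ∀ t ∈ Icc 0 D.T, A.OddV (w t)
  dot_cm : CM D.T (RHS D w)
  dot_le : Nrm D.T (D.c / 4) 0 (α1 D) (RHS D w) ≤ ENNReal.ofReal (D.G ^ 18 / N1 D)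
  /-- the linear wave -/
  lin_cm : CM D.T (lw D w0)
  lin_supp : SuppT D.T (Cl (D.n + 1)) (lw D w0)
  lin_le : Nrm D.T D.c 0 (α1 D) (lw D w0) ≤ ENNReal.ofReal (D.G ^ 2 / N1 D)
  lin_k : ∀ t ∈ Icc 0 D.T, mul (D.rw (D.n + 1) t) (lw D w0 t) =
    fun q => innerSL ℂ (K1 D) (w0 q)
  w0_k : sN D.c (fun q => innerSL ℂ (K1 D) (w0 q)) ≤ ENNReal.ofReal (u1 D ^ 256 * α1 D 0)
  /-- the linear wave is real and odd -/
  lin_odd : ∀ t ∈ Icc 0 D.T, A.OddV (lw D w0 t)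

/-- `1 + grad ζ`. -/
noncomputable def Lm (ζ : ℝ → Md → C3) (t : ℝ) : Md → Mat := oneM + gradV D.K (ζ t)

/-- `X_{n+1} = ζ + X_n ∘ M`. -/
noncomputable def X1 (X ζ : ℝ → Md → C3) (t : ℝ) : Md → C3 := ζ t + comp (lab D.K (ζ t)) (X t)

/-- `U_{n+1} = (U_n + w) ∘ M`. -/
noncomputable def U1 (U w ζ : ℝ → Md → C3) (t : ℝ) : Md → C3 := comp (lab D.K (ζ t)) (U t + w t)

/-- The new pressure. -/
noncomputable def P1 (p s : ℝ → Md → ℂ) (ζ : ℝ → Md → C3) (t : ℝ) : Md → ℂ :=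
  comp (lab D.K (ζ t)) (p t + s t)

/-- `F_{n+1} = (F_n ∘ M) (1 + grad ζ)`. -/
noncomputable def F1 (ζ : ℝ → Md → C3) (t : ℝ) : Md → Mat :=
  mm (comp (lab D.K (ζ t)) (D.F D.n t)) (Lm D ζ t)

/-- `F_{n+1}⁻¹ = (1 + grad ζ)⁻¹ (F_n⁻¹ ∘ M)`. -/
noncomputable def Fi1 (ζ : ℝ → Md → C3) (Li : ℝ → Md → Mat) (t : ℝ) : Md → Mat :=
  mm (Li t) (comp (lab D.K (ζ t)) (D.Fi D.n t))

/-- `M_{n+1} = (M_n + (grad w) F_n⁻¹) ∘ M`. -/
noncomputable def M1 (w ζ : ℝ → Md → C3) (t : ℝ) : Md → Mat :=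
  comp (lab D.K (ζ t)) (D.M D.n t + mm (gradV D.K (w t)) (D.Fi D.n t))

/-- The new acceleration. -/
noncomputable def A1 (p s : ℝ → Md → ℂ) (ζ : ℝ → Md → C3) (Li : ℝ → Md → Mat) (t : ℝ) :
    Md → C3 := -(mul (adjC (Fi1 D ζ Li t)) (gradS D.K (P1 D p s ζ t)))

/-- `a_{n+1} = ∂_{n+1} (Φ_{n+1}(t,0) w0)`. -/
noncomputable def a1 (w0 : Md → C3) (t : ℝ) : Md → C3 := dj (D.n + 1) (lw D w0 t)

/-- `z_{n+1}`: the part of `∂_{n+1} ζ` orthogonal to `K_{n+1}`. -/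
noncomputable def z1 (ζ : ℝ → Md → C3) (t : ℝ) (q : Md) : C3 :=
  dj (D.n + 1) (ζ t) q -
    (innerSL ℂ (K1 D) (dj (D.n + 1) (ζ t) q) / (N1 D : ℂ) ^ 2) • K1 D

/-- The displacement of the labels (radius `c / 4`). -/
structure LabD (w ζ : ℝ → Md → C3) : Prop where
  cm : CM D.T ζ
  supp : SuppT D.T (lev (D.n + 1) : Set Md) ζ
  odd : ∀ t ∈ Icc 0 D.T, A.OddV (ζ t)
  zero : ζ 0 = 0
  der : ∀ q, ∀ t ∈ Icc 0 D.T, HasDerivWithinAt (fun t => ζ t q)
    (comp (lab D.K (ζ t)) (VV D w t) q) (Icc 0 D.T) t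
  le : Nrm D.T (D.c / 4) 0 (α1 D) ζ ≤ ENNReal.ofReal (D.G ^ 5 / N1 D)
  lab_le : ∀ i ≤ D.n + 1, Nrm D.T (D.c / 4) 0 (α1 D) (fun t => lab D.K (ζ t) i) ≤
    ENNReal.ofReal (2 * u1 D ^ 120)
  lab_le' : ∀ i ≤ D.n + 1, Nrm D.T (D.c / 4) 0 Dat.one' (fun t => lab D.K (ζ t) i) ≤
    ENNReal.ofReal (2 * D.G * u1 D ^ 120)

/-- The inverse of `1 + grad ζ` (radius `c / 8`). -/
structure LiD (ζ : ℝ → Md → C3) (Li : ℝ → Md → Mat) : Prop where
  cm : CM D.T Li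
  supp : SuppT D.T (lev (D.n + 1) : Set Md) Li
  even : ∀ t ∈ Icc 0 D.T, A.EvenM (Li t)
  left : ∀ t ∈ Icc 0 D.T, mm (Li t) (Lm D ζ t) = oneM
  right : ∀ t ∈ Icc 0 D.T, mm (Lm D ζ t) (Li t) = oneM
  le : Nrm D.T (D.c / 8) 0 Dat.one' Li ≤ ENNReal.ofReal (D.G ^ 12)
  dif : Nrm D.T (D.c / 8) 0 (α1 D) (fun t => Li t - shM (z1 D ζ t) (K1 D)) ≤
    ENNReal.ofReal (D.G ^ 30 * u1 D ^ 120)

/-- The pressure increment of the step (radius `3 c / 8`). -/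
structure PrD (w : ℝ → Md → C3) (s : ℝ → Md → ℂ) : Prop where
  cm : CM D.T s
  supp : SuppT D.T (lev (D.n + 1) : Set Md) s
  fin : Nrm D.T (3 * D.c / 8) 0 Dat.one' s ≠ ∞
  even : ∀ t ∈ Icc 0 D.T, A.EvenS (s t)
  eq : ∀ t ∈ Icc 0 D.T, RHS D w t = -(mul (D.M D.n t) (w t)) - NL D w t -
    mul (adjC (D.Fi D.n t)) (gradS D.K (s t))

end new

end Pool.Agent.Work.MP_b0497c_an.Unf.L
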