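import Mathlib
import Pool.Agent.Work.MP_b0497c_an.Forced.Asm.C11

set_option autoImplicit false

/-!
# Lagrangian form of the Euler equations, part 1: cofactors and the Piola identity
-/

open scoped ContDiff Matrix
open Set Filter Topology MeasureTheory RealInnerProductSpace Pool.Agent.Work.MP_b0497c_an
open Pool.Agent.Work.MP_b0497c_an.Dec Pool.Agent.Work.MP_b0497c_an.Dec.Uniq
open Pool.Agent.Work.MP_b0497c_an.Forced Pool.Agent.Work.MP_b0497c_an.Forced.C11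

namespace Pool.Agent.Work.MP_b0497c_an.Unf

/-- The cross product. -/
noncomputable def cr (a b : E3) : E3 :=
  !₂[a 1 * b 2 - a 2 * b 1, a 2 * b 0 - a 0 * b 2, a 0 * b 1 - a 1 * b 0]

/-- The determinant. -/
noncomputable def det3 (F : E3 →L[ℝ] E3) : ℝ := ⟪cr (F (e 0)) (F (e 1)), F (e 2)⟫

/-- The adjugate of `F` applied to `d`. -/
noncomputable def cof (F : E3 →L[ℝ] E3) (d : E3) : E3 :=
  !₂[⟪cr (F (e 1)) (F (e 2)), d⟫, ⟪cr (F (e 2)) (F (e 0)), d⟫, ⟪cr (F (e 0)) (F (e 1)), d⟫]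

/-- `det F * trace (F⁻¹ G)`. -/
noncomputable def trF (F G : E3 →L[ℝ] E3) : ℝ :=
  ⟪cr (F (e 1)) (F (e 2)), G (e 0)⟫ + ⟪cr (F (e 2)) (F (e 0)), G (e 1)⟫
    + ⟪cr (F (e 0)) (F (e 1)), G (e 2)⟫

theorem cof_apply (F : E3 →L[ℝ] E3) (d : E3) : F (cof F d) = det3 F • d := by
  rw [expand (cof F d)]
  simp only [map_add, map_smul]
  ext j
  fin_cases j <;>
  · simp [cof, det3, cr, inner_eq]
    ring

theorem trF_comp (F L : E3 →L[ℝ] E3) :
    trF F (L.comp F) = det3 F * LinearMap.trace ℝ E3 (L : E3 →ₗ[ℝ] E3) := by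
  have h : ∀ i, L (F (e i)) = (F (e i)) 0 • L (e 0) + (F (e i)) 1 • L (e 1)
      + (F (e i)) 2 • L (e 2) := by
    intro i
    conv_lhs => rw [expand (F (e i))]
    simp only [map_add, map_smul]
  rw [trace_eq]
  simp only [trF, det3, ContinuousLinearMap.comp_apply]
  rw [h 0, h 1, h 2]
  simp [cr, inner_eq]
  ring

theorem trF_sub (F G H : E3 →L[ℝ] E3) : trF F (G - H) = trF F G - trF F H := by
  simp only [trF, sub_apply, inner_sub_right]
  ring

/-- Derivative of a matrix entry of the derivative. -/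
theorem entry_deriv {X : E3 → E3} (hX : ContDiff ℝ 2 X) (y : E3) (i j : Fin 3) :
    HasFDerivAt (fun y => (fderiv ℝ X y (e i)) j)
      ((EuclideanSpace.proj j : E3 →L[ℝ] ℝ).comp
        ((ContinuousLinearMap.apply ℝ E3 (e i)).comp (fderiv ℝ (fderiv ℝ X) y))) y := by
  have h1 : ContDiff ℝ 1 (fderiv ℝ X) := hX.fderiv_right (by norm_num)
  have h2 : HasFDerivAt (fderiv ℝ X) (fderiv ℝ (fderiv ℝ X) y) y :=
    (h1.differentiable (by norm_num) y).hasFDerivAt
  have h3 := (ContinuousLinearMap.apply ℝ E3 (e i)).hasFDerivAt.comp y h2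
  exact (EuclideanSpace.proj j : E3 →L[ℝ] ℝ).hasFDerivAt.comp y h3

theorem cof_contDiff {X d : E3 → E3} (hX : ContDiff ℝ 2 X) (hd : ContDiff ℝ 1 d) :
    ContDiff ℝ 1 (fun y => cof (fderiv ℝ X y) (d y)) := by
  have h1 : ContDiff ℝ 1 (fderiv ℝ X) := hX.fderiv_right (by norm_num)
  have h2 : ∀ i j : Fin 3, ContDiff ℝ 1 (fun y => (fderiv ℝ X y (e i)) j) := by
    intro i j
    have h3 : ContDiff ℝ 1 (fun y => fderiv ℝ X y (e i)) := h1.clm_apply contDiff_const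
    exact (EuclideanSpace.proj j : E3 →L[ℝ] ℝ).contDiff.comp h3
  have h4 : ∀ j : Fin 3, ContDiff ℝ 1 (fun y => (d y) j) := fun j =>
    (EuclideanSpace.proj j : E3 →L[ℝ] ℝ).contDiff.comp hd
  rw [contDiff_euclidean]
  intro i
  fin_cases i
  · simp only [cof, cr, inner_eq]
    simp
    fun_prop
  · simp only [cof, cr, inner_eq]
    simp
    fun_prop
  · simp only [cof, cr, inner_eq]
    simp
    fun_prop

/-- **Piola identity.** -/
theorem piola {X d : E3 → E3} (hX : ContDiff ℝ 2 X) (hd : ContDiff ℝ 1 d) (y : E3) :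
    LinearMap.trace ℝ E3 (fderiv ℝ (fun y => cof (fderiv ℝ X y) (d y)) y : E3 →ₗ[ℝ] E3)
      = trF (fderiv ℝ X y) (fderiv ℝ d y) := by
  have hZ : HasFDerivAt (fun y => cof (fderiv ℝ X y) (d y))
      (fderiv ℝ (fun y => cof (fderiv ℝ X y) (d y)) y) y :=
    ((cof_contDiff hX hd).differentiable (by norm_num) y).hasFDerivAt
  have hc : ∀ i : Fin 3, HasFDerivAt (fun y => (cof (fderiv ℝ X y) (d y)) i)
      ((EuclideanSpace.proj i : E3 →L[ℝ] ℝ).comp
        (fderiv ℝ (fun y => cof (fderiv ℝ X y) (d y)) y)) y := fun i =>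
    (EuclideanSpace.proj i : E3 →L[ℝ] ℝ).hasFDerivAt.comp y hZ
  have hdj : ∀ j : Fin 3, HasFDerivAt (fun y => (d y) j)
      ((EuclideanSpace.proj j : E3 →L[ℝ] ℝ).comp (fderiv ℝ d y)) y := fun j =>
    (EuclideanSpace.proj j : E3 →L[ℝ] ℝ).hasFDerivAt.comp y
      (hd.differentiable (by norm_num) y).hasFDerivAt
  have ha := fun i j => entry_deriv hX y i j
  have hsym : ∀ z w : E3, fderiv ℝ (fderiv ℝ X) y z w = fderiv ℝ (fderiv ℝ X) y w z := by
    intro z w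
    exact (hX.contDiffAt (x := y)).isSymmSndFDerivAt (by simp) z w
  have k0 := ((((ha 1 1).mul (ha 2 2)).sub ((ha 1 2).mul (ha 2 1))).mul (hdj 0)).add
    (((((ha 1 2).mul (ha 2 0)).sub ((ha 1 0).mul (ha 2 2))).mul (hdj 1)).add
    ((((ha 1 0).mul (ha 2 1)).sub ((ha 1 1).mul (ha 2 0))).mul (hdj 2)))
  have k1 := ((((ha 2 1).mul (ha 0 2)).sub ((ha 2 2).mul (ha 0 1))).mul (hdj 0)).add
    (((((ha 2 2).mul (ha 0 0)).sub ((ha 2 0).mul (ha 0 2))).mul (hdj 1)).add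
    ((((ha 2 0).mul (ha 0 1)).sub ((ha 2 1).mul (ha 0 0))).mul (hdj 2)))
  have k2 := ((((ha 0 1).mul (ha 1 2)).sub ((ha 0 2).mul (ha 1 1))).mul (hdj 0)).add
    (((((ha 0 2).mul (ha 1 0)).sub ((ha 0 0).mul (ha 1 2))).mul (hdj 1)).add
    ((((ha 0 0).mul (ha 1 1)).sub ((ha 0 1).mul (ha 1 0))).mul (hdj 2)))
  have u0 := (hc 0).unique (k0.congr_of_eventuallyEq (Eventually.of_forall fun y => by
    simp [cof, cr, inner_eq]; ring))
  have u1 := (hc 1).unique (k1.congr_of_eventuallyEq (Eventually.of_forall fun y => by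
    simp [cof, cr, inner_eq]; ring))
  have u2 := (hc 2).unique (k2.congr_of_eventuallyEq (Eventually.of_forall fun y => by
    simp [cof, cr, inner_eq]; ring))
  have v0 := congrArg (fun L : E3 →L[ℝ] ℝ => L (e 0)) u0
  have v1 := congrArg (fun L : E3 →L[ℝ] ℝ => L (e 1)) u1
  have v2 := congrArg (fun L : E3 →L[ℝ] ℝ => L (e 2)) u2
  simp at v0 v1 v2
  have s01 := hsym (e 0) (e 1)
  have s02 := hsym (e 0) (e 2)
  have s12 := hsym (e 1) (e 2)
  rw [trace_eq]
  rw [v0, v1, v2, s01, s02, s12]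
  simp [trF, cr, inner_eq]
  ring

end Pool.Agent.Work.MP_b0497c_an.Unf
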