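import Pool.Agent.Work.MP_b0497c_an.Bd.B44

/-!
`O.LevD.o2`, `O.LevD.stPos`, `O.LevD.cl4` are in `OAll.lean`.
-/
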