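import Pool.Agent.Work.MP_b0497c_an.Bd.B44

set_option autoImplicit false

/-!
# CL1 of OK.6: the rotation rate of the next level
-/

open Set ContinuousLinearMap RealInnerProductSpace

namespace Pool.Agent.Work.MP_b0497c_an.Unf.O

open Forced.Ode (Op)
open Fam K

namespace LevD

namespace Ck

variable {D : LevD} {b' : ℝ} {W : ℝ → E3}

theorem inner_near (A A0 : Op) (x x0 y y0 : E3) : |⟪x, A y⟫ - ⟪x0, A0 y0⟫| ≤
    ‖x - x0‖ * (‖A‖ * ‖y‖) + ‖x0‖ * (‖A - A0‖ * ‖y‖) + ‖x0‖ * (‖A0‖ * ‖y - y0‖) := by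
  have e : ⟪x, A y⟫ - ⟪x0, A0 y0⟫ = ⟪x - x0, A y⟫ + ⟪x0, (A - A0) y⟫ + ⟪x0, A0 (y - y0)⟫ := by
    rw [sub_apply, map_sub, inner_sub_left, inner_sub_right, inner_sub_right]
    ring
  rw [e]
  refine (abs_add_three _ _ _).trans (add_le_add (add_le_add ?_ ?_) ?_)
  · refine (abs_real_inner_le_norm _ _).trans ?_
    exact mul_le_mul_of_nonneg_left (A.le_opNorm y) (norm_nonneg _)
  · refine (abs_real_inner_le_norm _ _).trans ?_
    exact mul_le_mul_of_nonneg_left ((A - A0).le_opNorm y) (norm_nonneg _)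
  · refine (abs_real_inner_le_norm _ _).trans ?_
    exact mul_le_mul_of_nonneg_left (A0.le_opNorm _) (norm_nonneg _)

theorem frame_near (h : D.Flo b') {t : ℝ} (ht : D.Nr b' t) {x x0 : E3} (hx : ‖x - x0‖ ≤ 2 * D.uu b' t)
    (h0 : ‖x0‖ = 1) :
    |⟪x, D.A t (D.B t)⟫ - ⟪x0, D.A D.t0 D.e1⟫| ≤ 6 * b' * D.uu b' t := by
  have hu := h.uu_le ht
  have hu0 := h.uu_nonneg t
  have hb := h.b_ge
  have hB := h.B_up ht
  have hB1 : ‖D.B t‖ ≤ 1001 / 1000 := by linarith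
  have hA := h.A_le t
  have hA0 := h.A_le D.t0
  have h1 := h.A_near t
  have h2 := h.B_near ht
  refine (inner_near _ _ _ _ _ _).trans ?_
  rw [h0, one_mul, one_mul]
  have e1 : ‖x - x0‖ * (‖D.A t‖ * ‖D.B t‖) ≤ 2 * D.uu b' t * (b' * (1001 / 1000)) := by
    gcongr
  have e2 : ‖D.A t - D.A D.t0‖ * ‖D.B t‖ ≤ D.uu b' t * (1001 / 1000) := by
    gcongr
  have e3 : ‖D.A D.t0‖ * ‖D.B t - D.e1‖ ≤ b' * (2 * D.uu b' t) := by
    gcongr
  have e4 : D.uu b' t ≤ b' * D.uu b' t / 10 := by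
    nlinarith
  nlinarith

theorem c_kap (h : D.Flo b') : D.c * D.kap = ⟪D.e3, D.A D.t0 D.e1⟫ := by
  unfold c
  have := h.kap_pos
  field_simp

theorem KAB (h : D.Kin) {t : ℝ} (ht : t ∈ D.Iw) :
    |⟪D.fam.K 1 t, D.A t (D.B t)⟫ - D.kap * (D.lam1 t + D.c)| ≤
      7 * D.b * D.uu D.b t * D.lam1 t := by
  have hn := h.nr ht
  have h1 := frame_near h.toFlo hn (h.toFlo.xi_near hn) h.toFlo.e3_norm
  have h2 := frame_near h.toFlo hn (h.toFlo.n_near hn) h.toFlo.e2_norm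
  rw [← c_kap h.toFlo] at h1
  have hk : ⟪D.e2, D.A D.t0 D.e1⟫ = D.kap := rfl
  rw [hk] at h2
  have hl := h.Sl_big (al := 1) le_rfl ht
  rw [Sl_one] at hl
  have e : ⟪D.fam.K 1 t, D.A t (D.B t)⟫ =
      ⟪D.xi t, D.A t (D.B t)⟫ + D.lam1 t * ⟪D.n t, D.A t (D.B t)⟫ := by
    show ⟪D.xi t + D.fam.Sl 1 t • D.n t, _⟫ = _
    rw [Sl_one, inner_add_left, inner_smul_left]
    rfl
  have e2 : ⟪D.fam.K 1 t, D.A t (D.B t)⟫ - D.kap * (D.lam1 t + D.c) =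
      (⟪D.xi t, D.A t (D.B t)⟫ - D.c * D.kap) +
        D.lam1 t * (⟪D.n t, D.A t (D.B t)⟫ - D.kap) := by
    rw [e]; ring
  rw [e2]
  have hl0 : 0 < D.lam1 t := by linarith
  refine (abs_add_le _ _).trans ?_
  rw [abs_mul, abs_of_pos hl0]
  have h3 := mul_le_mul_of_nonneg_left h2 hl0.le
  have hb := h.toFlo.b_ge
  have hu0 := h.toFlo.uu_nonneg t
  have h4 : 0 ≤ D.b * D.uu D.b t := by positivity
  nlinarith

theorem K_sq (h : D.Kin) {t : ℝ} (ht : t ∈ D.Iw) :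
    |‖D.fam.K 1 t‖ ^ 2 - D.lam1 t ^ 2| ≤ 101 / 100 + 6 * D.uu D.b t * D.lam1 t ^ 2 := by
  have hn := h.nr ht
  have hu := h.toFlo.uu_le hn
  have hu0 := h.toFlo.uu_nonneg t
  have hl := h.Sl_big (al := 1) le_rfl ht
  rw [Sl_one] at hl
  have h1 := h.toFlo.xi_up hn
  have h2 := abs_le.1 (h.toFlo.xin_near hn)
  have h3 := abs_le.1 (h.toFlo.nsq hn)
  have e : ‖D.fam.K 1 t‖ ^ 2 = ‖D.xi t‖ ^ 2 + 2 * D.lam1 t * ⟪D.xi t, D.n t⟫ +
      D.lam1 t ^ 2 * ‖D.n t‖ ^ 2 := by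
    show ‖D.xi t + D.fam.Sl 1 t • D.n t‖ ^ 2 = _
    rw [Sl_one, norm_add_sq_real, norm_smul, inner_smul_right, mul_pow, Real.norm_eq_abs, sq_abs]
    ring
  have h4 : ‖D.xi t‖ ^ 2 ≤ 101 / 100 := by
    have := norm_nonneg (D.xi t)
    nlinarith
  have h5 := sq_nonneg ‖D.xi t‖
  have hl0 : 0 < D.lam1 t := by linarith
  have hl2 : 9900 * D.lam1 t ≤ D.lam1 t ^ 2 := by nlinarith
  have h6 : D.uu D.b t * (9900 * D.lam1 t) ≤ D.uu D.b t * D.lam1 t ^ 2 :=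
    mul_le_mul_of_nonneg_left hl2 hu0
  have h7 : D.lam1 t * (-(5 * D.uu D.b t)) ≤ D.lam1 t * ⟪D.xi t, D.n t⟫ :=
    mul_le_mul_of_nonneg_left h2.1 hl0.le
  have h8 : D.lam1 t * ⟪D.xi t, D.n t⟫ ≤ D.lam1 t * (5 * D.uu D.b t) :=
    mul_le_mul_of_nonneg_left h2.2 hl0.le
  have h9 : D.lam1 t ^ 2 * (-(5 * D.uu D.b t)) ≤ D.lam1 t ^ 2 * (‖D.n t‖ ^ 2 - 1) :=
    mul_le_mul_of_nonneg_left h3.1 (by positivity)
  have h10 : D.lam1 t ^ 2 * (‖D.n t‖ ^ 2 - 1) ≤ D.lam1 t ^ 2 * (5 * D.uu D.b t) :=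
    mul_le_mul_of_nonneg_left h3.2 (by positivity)
  rw [abs_le, e]
  constructor <;> nlinarith

theorem K_near (h : D.Kin) {t : ℝ} (ht : t ∈ D.Iw) :
    |‖D.fam.K 1 t‖ - D.lam1 t| ≤ 101 / 100 / D.lam1 t + 6 * D.uu D.b t * D.lam1 t := by
  have h1 := K_sq h ht
  have hl := h.Sl_big (al := 1) le_rfl ht
  rw [Sl_one] at hl
  have hl0 : 0 < D.lam1 t := by linarith
  have hN := norm_nonneg (D.fam.K 1 t)
  have e : ‖D.fam.K 1 t‖ ^ 2 - D.lam1 t ^ 2 =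
      (‖D.fam.K 1 t‖ - D.lam1 t) * (‖D.fam.K 1 t‖ + D.lam1 t) := by ring
  rw [e, abs_mul, abs_of_pos (by linarith : 0 < ‖D.fam.K 1 t‖ + D.lam1 t)] at h1
  have h2 : |‖D.fam.K 1 t‖ - D.lam1 t| * D.lam1 t ≤
      |‖D.fam.K 1 t‖ - D.lam1 t| * (‖D.fam.K 1 t‖ + D.lam1 t) :=
    mul_le_mul_of_nonneg_left (by linarith) (abs_nonneg _)
  have e2 : 101 / 100 / D.lam1 t + 6 * D.uu D.b t * D.lam1 t =
      (101 / 100 + 6 * D.uu D.b t * D.lam1 t ^ 2) / D.lam1 t := by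
    field_simp
  rw [e2, le_div_iff₀ hl0]
  linarith

theorem K_ratio (h : D.Kin) {t : ℝ} (ht : t ∈ D.Iw) :
    ‖D.fam.K 1 t‖ ≤ 1001 / 1000 * D.lam1 t ∧ D.lam1 t ≤ 1001 / 1000 * ‖D.fam.K 1 t‖ := by
  have h1 := abs_le.1 (K_near h ht)
  have hn := h.nr ht
  have hu := h.toFlo.uu_le hn
  have hu0 := h.toFlo.uu_nonneg t
  have hl := h.Sl_big (al := 1) le_rfl ht
  rw [Sl_one] at hl
  have hl0 : 0 < D.lam1 t := by linarith
  have h2 : 101 / 100 / D.lam1 t ≤ 1 / 10 ^ 4 * D.lam1 t := by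
    rw [div_le_iff₀ hl0]
    nlinarith
  have h3 : 6 * D.uu D.b t * D.lam1 t ≤ 1 / 10 ^ 4 * D.lam1 t := by
    apply mul_le_mul_of_nonneg_right _ hl0.le
    linarith
  constructor <;> nlinarith

/-- `|q| ≤ de lam (2 + |j|/2) p` -/
theorem q_le (h : D.Kin) {t : ℝ} (ht : t ∈ D.Iw) (hY : 0 < D.Y 1 W t)
    (hZ : |D.Z 1 W t| ≤ 2 * D.Y 1 W t) :
    0 < D.pp W t ∧ |D.qq 1 W t| ≤ D.de * D.lam1 t * (2 + |D.j 1 t| / 2) * D.pp W t := by
  have hl := h.lam1_pos ht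
  have hd := h.toFlo.de_pos
  have hs : 0 < Real.sqrt (D.lam1 t) := Real.sqrt_pos.2 hl
  have hss : Real.sqrt (D.lam1 t) * Real.sqrt (D.lam1 t) = D.lam1 t := Real.mul_self_sqrt hl.le
  have h1 : D.Y 1 W t = Real.sqrt (D.lam1 t) * D.pp W t := by
    unfold Y
    rw [Sl_one, Lb.pp_eq]
  have hp : 0 < D.pp W t := by
    rw [h1] at hY
    exact (mul_pos_iff_of_pos_left hs).1 hY
  refine ⟨hp, ?_⟩
  have h2 : D.qq 1 W t = D.de * Real.sqrt (D.lam1 t) *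
      (D.Z 1 W t - D.j 1 t / 2 * D.Y 1 W t) := by
    rw [Lb.qq_eq]
    unfold Z
    rw [Sl_one]
    field_simp
    ring
  have h3 : |D.Z 1 W t - D.j 1 t / 2 * D.Y 1 W t| ≤ (2 + |D.j 1 t| / 2) * D.Y 1 W t := by
    refine (abs_sub _ _).trans ?_
    rw [abs_mul, abs_of_pos hY, abs_div, abs_two]
    linarith
  rw [h2, abs_mul, abs_of_pos (mul_pos hd hs)]
  calc D.de * Real.sqrt (D.lam1 t) * |D.Z 1 W t - D.j 1 t / 2 * D.Y 1 W t|
      ≤ D.de * Real.sqrt (D.lam1 t) * ((2 + |D.j 1 t| / 2) * D.Y 1 W t) :=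
        mul_le_mul_of_nonneg_left h3 (by positivity)
    _ = D.de * (Real.sqrt (D.lam1 t) * Real.sqrt (D.lam1 t)) * (2 + |D.j 1 t| / 2) *
        D.pp W t := by rw [h1]; ring
    _ = _ := by rw [hss]

/-- the decomposition of the numerator -/
theorem num_eq (h : D.Flo b') {t : ℝ} (h0 : ⟪D.fam.K 1 t, W t⟫ = 0) :
    ⟪D.fam.K 1 t, D.fam.M 1 t (W t)⟫ =
      D.pp W t / D.G t * ⟪D.fam.K 1 t, D.A t (D.B t)⟫ -
      D.qq 1 W t / D.E 1 t * (⟪D.fam.K 1 t, D.A t (D.C 1 t)⟫ + D.fam.phi t) := by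
  have hW := Lb.W_eq h 1 t h0
  have hn : ⟪D.n t, W t⟫ = -(D.qq 1 W t / D.E 1 t) := by
    rw [hW, inner_sub_right, inner_smul_right, inner_smul_right, Lb.inner_n_B,
      Lb.inner_n_C h]
    ring
  have hv : ⟪D.fam.K 1 t, D.v t⟫ = D.fam.phi t := by
    show ⟪D.xi t + D.fam.Sl 1 t • D.n t, D.v t⟫ = ⟪D.xi t, D.v t⟫
    rw [inner_add_left, inner_smul_left, h.v_orth t]
    simp
  have hA : ⟪D.fam.K 1 t, D.A t (W t)⟫ =
      D.pp W t / D.G t * ⟪D.fam.K 1 t, D.A t (D.B t)⟫ -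
      D.qq 1 W t / D.E 1 t * ⟪D.fam.K 1 t, D.A t (D.C 1 t)⟫ := by
    conv_lhs => rw [hW]
    rw [map_sub, map_smul, map_smul, inner_sub_right, inner_smul_right, inner_smul_right]
  rw [Lb.fam_M_apply, one_mul, inner_add_right, inner_smul_right, hA, hn, hv]
  ring

theorem W_lo (h : D.Flo b') {t : ℝ} : D.pp W t / ‖D.B t‖ ≤ ‖W t‖ := by
  have hB := norm_pos_iff.2 (Lb.B_ne h t)
  rw [div_le_iff₀ hB]
  exact real_inner_le_norm _ _

theorem C_norm (h : D.Flo b') {t : ℝ} : ‖D.C 1 t‖ = ‖D.fam.K 1 t‖ / ‖D.B t‖ := by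
  have hB := norm_pos_iff.2 (Lb.B_ne h t)
  have h1 := Lb.norm_C_sq h 1 t
  have h2 : D.E 1 t = (‖D.fam.K 1 t‖ / ‖D.B t‖) ^ 2 := by
    unfold E G
    rw [div_pow]
  rw [h2] at h1
  exact (pow_left_inj₀ (norm_nonneg _) (by positivity) (by norm_num)).1 h1

theorem W_up (h : D.Flo b') {t : ℝ} (h0 : ⟪D.fam.K 1 t, W t⟫ = 0) (hp : 0 < D.pp W t) :
    ‖W t‖ ≤ D.pp W t / ‖D.B t‖ + |D.qq 1 W t| / ‖D.C 1 t‖ := by
  have hW := Lb.W_eq h 1 t h0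
  have hB := norm_pos_iff.2 (Lb.B_ne h t)
  have hE := Lb.E_pos h 1 t
  have hE2 := Lb.norm_C_sq h 1 t
  have hC : 0 < ‖D.C 1 t‖ := by
    by_contra h1
    have h2 : ‖D.C 1 t‖ = 0 := le_antisymm (not_lt.1 h1) (norm_nonneg _)
    rw [h2] at hE2
    simp at hE2
    linarith
  conv_lhs => rw [hW]
  refine (norm_sub_le _ _).trans (le_of_eq ?_)
  rw [norm_smul, norm_smul, Real.norm_eq_abs, Real.norm_eq_abs, abs_div, abs_div,
    abs_of_pos hp, abs_of_pos hE, ← hE2]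
  unfold G
  rw [abs_of_pos (by positivity : 0 < ‖D.B t‖ ^ 2)]
  field_simp

/-- the small number `rho` -/
noncomputable def rh (D : LevD) (t : ℝ) : ℝ := 11 / 10 * (D.de * (2 + |D.j 1 t| / 2))

theorem Q_le (h : D.Kin) {t : ℝ} (ht : t ∈ D.Iw) (hY : 0 < D.Y 1 W t)
    (hZ : |D.Z 1 W t| ≤ 2 * D.Y 1 W t) :
    |D.qq 1 W t| / ‖D.C 1 t‖ ≤ rh D t * (D.pp W t / ‖D.B t‖) := by
  obtain ⟨hp, hq⟩ := q_le h ht hY hZ
  have hB := norm_pos_iff.2 (Lb.B_ne h.toFlo t)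
  have hK := norm_pos_iff.2 (Lb.K_ne h.toFlo 1 t)
  have hl := h.lam1_pos ht
  have hd := h.toFlo.de_pos
  have hn := h.nr ht
  have hu := h.toFlo.uu_le hn
  have hB2 := abs_le.1 (h.toFlo.Bsq hn)
  obtain ⟨-, hr⟩ := K_ratio h ht
  rw [C_norm h.toFlo, div_div_eq_mul_div, div_le_iff₀ hK]
  have h1 : rh D t * (D.pp W t / ‖D.B t‖) * ‖D.fam.K 1 t‖ =
      (D.de * (2 + |D.j 1 t| / 2) * D.pp W t) * (11 / 10 * ‖D.fam.K 1 t‖ / ‖D.B t‖) := by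
    unfold rh; ring
  have h2 : D.lam1 t * ‖D.B t‖ ≤ 11 / 10 * ‖D.fam.K 1 t‖ / ‖D.B t‖ := by
    rw [le_div_iff₀ hB]
    have h3 : ‖D.B t‖ ^ 2 ≤ 101 / 100 := by linarith
    calc D.lam1 t * ‖D.B t‖ * ‖D.B t‖ = D.lam1 t * ‖D.B t‖ ^ 2 := by ring
      _ ≤ (1001 / 1000 * ‖D.fam.K 1 t‖) * (101 / 100) := by gcongr
      _ ≤ 11 / 10 * ‖D.fam.K 1 t‖ := by linarith
  rw [h1]
  calc |D.qq 1 W t| * ‖D.B t‖ ≤ D.de * D.lam1 t * (2 + |D.j 1 t| / 2) * D.pp W t * ‖D.B t‖ :=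
        mul_le_mul_of_nonneg_right hq hB.le
    _ = (D.de * (2 + |D.j 1 t| / 2) * D.pp W t) * (D.lam1 t * ‖D.B t‖) := by ring
    _ ≤ _ := mul_le_mul_of_nonneg_left h2 (by positivity)

/-- `rho` times the level constant is tiny -/
theorem rh_small (h : D.Kin) {t : ℝ} (ht : t ∈ Icc D.t0 D.T) :
    0 ≤ rh D t ∧ (D.b + D.kap) * rh D t ≤ 1 / 100 * (D.h)⁻¹ := by
  have hI := Lb.mem_Iw h ht
  have hj := h.j_sq' hI
  have hja := j_abs (D.j 1 t)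
  have hl := Lb.lam1_h h ht
  have hl0 := h.lam1_pos hI
  have hc := h.c_tiny
  have hc0 := h.toFlo.c_pos
  have hh := h.h1
  have hb := h.toFlo.b_ge
  have hd := h.toFlo.de_pos
  have hd2 := h.toFlo.de_sq
  have hk := h.toFlo.kap_le
  have hk0 := h.toFlo.kap_pos
  have hhp := h.toFlo.h_pos
  have h1 : D.c * D.lam1 t ≤ D.h := by
    calc D.c * D.lam1 t ≤ 1 / 10 ^ 12 * (2 * D.h) := by gcongr
      _ ≤ D.h := by linarith
  have h2 : |D.j 1 t| ≤ 4 * D.h := by linarith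
  have h3 : D.de ≤ 2 * (D.h ^ 12)⁻¹ := by
    have h4 : D.de ^ 2 ≤ (2 * (D.h ^ 12)⁻¹) ^ 2 := by
      rw [hd2]
      show D.kap / D.h ^ 24 ≤ _
      rw [div_le_iff₀ (by positivity)]
      have : (2 * (D.h ^ 12)⁻¹) ^ 2 * D.h ^ 24 = 4 := by
        field_simp
        norm_num
      linarith
    exact (pow_le_pow_iff_left₀ hd.le (by positivity) (by norm_num)).1 h4
  have h4 : rh D t ≤ 10 * (D.h ^ 11)⁻¹ := by
    unfold rh
    calc 11 / 10 * (D.de * (2 + |D.j 1 t| / 2))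
        ≤ 11 / 10 * (2 * (D.h ^ 12)⁻¹ * (2 * D.h + 2 * D.h)) := by
          gcongr
          · linarith
          · linarith
      _ = 88 / 10 * (D.h ^ 11)⁻¹ := by
          field_simp
          norm_num
      _ ≤ 10 * (D.h ^ 11)⁻¹ := by
          apply mul_le_mul_of_nonneg_right (by norm_num) (by positivity)
  have h0 : 0 ≤ rh D t := by
    unfold rh
    positivity
  refine ⟨h0, ?_⟩
  have h5 : D.b + D.kap ≤ 2 * D.b := by linarith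
  have h6 : 10 ^ 4 * D.b ≤ D.h := by
    have := h.ten_le (k := 1) (m := 4) (by norm_num)
    simpa using this
  calc (D.b + D.kap) * rh D t ≤ (2 * D.b) * (10 * (D.h ^ 11)⁻¹) := by gcongr
    _ = 20 * D.b * (D.h ^ 11)⁻¹ := by ring
    _ ≤ (20 * (1 / 10 ^ 4 * D.h)) * (D.h ^ 11)⁻¹ := by
        apply mul_le_mul_of_nonneg_right _ (by positivity)
        linarith
    _ = 20 / 10 ^ 4 * (D.h ^ 10)⁻¹ := by field_simp
    _ ≤ 1 / 100 * (D.h)⁻¹ := by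
        apply mul_le_mul (by norm_num) _ (by positivity) (by norm_num)
        apply inv_anti₀ hhp
        exact le_self_pow₀ hh (by norm_num)

/-- `rho |phi|` -/
theorem rh_phi (h : D.Kin) {t : ℝ} (ht : t ∈ D.Iw) :
    rh D t * |D.fam.phi t| ≤ 11 / 10 * D.kap * (1 + 13 / 2 * (D.c * D.lam1 t)) := by
  have hj := h.j_sq' ht
  have hr := h.toFlo.r_pos
  have hr2 := h.toFlo.r_sq
  have hd := h.toFlo.de_pos
  have hd2 := h.toFlo.de_sq
  have ha := h.toFlo.a_pos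
  have hk0 := h.toFlo.kap_pos
  have h1 : |D.fam.phi t| = D.r * |D.j 1 t| := by
    have e : D.fam.phi t = -(D.r * D.j 1 t) := by
      unfold j
      field_simp
    rw [e, abs_neg, abs_mul, abs_of_pos hr]
  have h2 : D.de * D.r = D.kap := by
    have h3 : (D.de * D.r) ^ 2 = D.kap ^ 2 := by
      rw [mul_pow, hd2, hr2]
      field_simp
    exact (pow_left_inj₀ (by positivity) hk0.le (by norm_num)).1 h3
  have h4 : |D.j 1 t| ^ 2 = D.j 1 t ^ 2 := sq_abs _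
  have hj0 := abs_nonneg (D.j 1 t)
  have h5 : (2 + |D.j 1 t| / 2) * |D.j 1 t| ≤ 1 + 13 / 2 * (D.c * D.lam1 t) := by
    nlinarith [sq_nonneg (|D.j 1 t| - 1)]
  rw [h1]
  unfold rh
  calc 11 / 10 * (D.de * (2 + |D.j 1 t| / 2)) * (D.r * |D.j 1 t|)
      = 11 / 10 * (D.de * D.r) * ((2 + |D.j 1 t| / 2) * |D.j 1 t|) := by ring
    _ ≤ 11 / 10 * (D.de * D.r) * (1 + 13 / 2 * (D.c * D.lam1 t)) :=
        mul_le_mul_of_nonneg_left h5 (by positivity)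
    _ = _ := by rw [h2]

theorem bu_small (h : D.Kin) {t : ℝ} (ht : t ∈ D.Iw) :
    9 * D.b * D.uu D.b t ≤ 1 / 100 * (D.h)⁻¹ := by
  have hu := h.uu_w ht
  have hb := h.toFlo.b_ge
  have hw := h.w_pos
  have hh := h.h1
  have hhp := h.toFlo.h_pos
  have h1 := h.w_ro (k := 2) (m := 3) (by norm_num)
  have h2 : D.ro ≤ (D.h)⁻¹ := by
    unfold ro
    apply inv_anti₀ hhp
    exact le_self_pow₀ hh (by norm_num)
  have h3 : 9 * D.b * D.uu D.b t ≤ 9 * D.b * (D.b * D.w) :=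
    mul_le_mul_of_nonneg_left hu (by positivity)
  have h4 : 0 ≤ D.b ^ 2 * D.w := by positivity
  nlinarith

/-- first part: the term of `B` -/
theorem term1 (h : D.Kin) {t : ℝ} (ht : t ∈ D.Iw) :
    |⟪D.fam.K 1 t, D.A t (D.B t)⟫ - D.kap * (‖D.fam.K 1 t‖ * ‖D.B t‖)| ≤
      D.lam1 t * (9 * D.b * D.uu D.b t + D.kap * (D.c / D.lam1 t + 101 / 100 / D.lam1 t ^ 2)) := by
  have h1 := KAB h ht
  have h2 := K_near h ht
  obtain ⟨h3, -⟩ := K_ratio h ht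
  have hl := h.lam1_pos ht
  have hk := h.toFlo.kap_le
  have hk0 := h.toFlo.kap_pos
  have hc0 := h.toFlo.c_pos
  have hb := h.toFlo.b_ge
  have hn := h.nr ht
  have hu0 := h.toFlo.uu_nonneg t
  have hBu := h.toFlo.B_up hn
  have hBl := h.toFlo.B_lo hn
  have hN := norm_nonneg (D.fam.K 1 t)
  have e : ⟪D.fam.K 1 t, D.A t (D.B t)⟫ - D.kap * (‖D.fam.K 1 t‖ * ‖D.B t‖) =
      (⟪D.fam.K 1 t, D.A t (D.B t)⟫ - D.kap * (D.lam1 t + D.c)) + D.kap * D.c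
      - D.kap * (‖D.fam.K 1 t‖ - D.lam1 t) - D.kap * ‖D.fam.K 1 t‖ * (‖D.B t‖ - 1) := by ring
  have hB : |‖D.B t‖ - 1| ≤ 2 * D.uu D.b t := by
    rw [abs_le]
    constructor <;> linarith
  have h4 : |D.kap * (‖D.fam.K 1 t‖ - D.lam1 t)| ≤
      D.kap * (101 / 100 / D.lam1 t + 6 * D.uu D.b t * D.lam1 t) := by
    rw [abs_mul, abs_of_pos hk0]
    exact mul_le_mul_of_nonneg_left h2 hk0.le
  have h5 : |D.kap * ‖D.fam.K 1 t‖ * (‖D.B t‖ - 1)| ≤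
      D.kap * (1001 / 1000 * D.lam1 t) * (2 * D.uu D.b t) := by
    rw [abs_mul, abs_of_nonneg (mul_nonneg hk0.le hN)]
    exact mul_le_mul (mul_le_mul_of_nonneg_left h3 hk0.le) hB (abs_nonneg _) (by positivity)
  rw [e]
  have h6 : |(⟪D.fam.K 1 t, D.A t (D.B t)⟫ - D.kap * (D.lam1 t + D.c)) + D.kap * D.c
      - D.kap * (‖D.fam.K 1 t‖ - D.lam1 t) - D.kap * ‖D.fam.K 1 t‖ * (‖D.B t‖ - 1)| ≤
      7 * D.b * D.uu D.b t * D.lam1 t + D.kap * D.c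
      + D.kap * (101 / 100 / D.lam1 t + 6 * D.uu D.b t * D.lam1 t)
      + D.kap * (1001 / 1000 * D.lam1 t) * (2 * D.uu D.b t) := by
    have g1 := abs_le.1 h1
    have g4 := abs_le.1 h4
    have g5 := abs_le.1 h5
    have g6 : 0 < D.kap * D.c := by positivity
    rw [abs_le]
    constructor <;> linarith
  refine h6.trans ?_
  have e2 : D.lam1 t * (9 * D.b * D.uu D.b t +
      D.kap * (D.c / D.lam1 t + 101 / 100 / D.lam1 t ^ 2)) =
      9 * D.b * D.uu D.b t * D.lam1 t + D.kap * D.c + D.kap * (101 / 100 / D.lam1 t) := by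
    field_simp
    ring
  rw [e2]
  have h7 : D.kap * (D.uu D.b t * D.lam1 t) ≤ 2 / 10 * (D.b * (D.uu D.b t * D.lam1 t)) := by
    have h8 : 0 ≤ D.uu D.b t * D.lam1 t := by positivity
    nlinarith
  have h9 : 0 ≤ D.b * (D.uu D.b t * D.lam1 t) := by positivity
  nlinarith

/-- CL1, the rotation rate, for any wave with `Y > 0`, `|Z| ≤ 2 Y`. -/
theorem kap_core (h : D.Kin) {t : ℝ} (ht : t ∈ Icc D.t0 D.T) (h0 : ⟪D.fam.K 1 t, W t⟫ = 0)
    (hY : 0 < D.Y 1 W t) (hZ : |D.Z 1 W t| ≤ 2 * D.Y 1 W t) : 0 < ‖W t‖ ∧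
    |⟪D.fam.K 1 t, D.fam.M 1 t (W t)⟫ / (‖D.fam.K 1 t‖ * ‖W t‖) - D.kap| ≤
      50 * D.kap * (D.c / D.lam1 t + 1 / D.lam1 t ^ 2 + (D.h)⁻¹) := by
  have hI := Lb.mem_Iw h ht
  obtain ⟨hp, -⟩ := q_le h hI hY hZ
  have hF := h.toFlo
  have hB := norm_pos_iff.2 (Lb.B_ne hF t)
  have hN := norm_pos_iff.2 (Lb.K_ne hF 1 t)
  have hC : 0 < ‖D.C 1 t‖ := by
    rw [C_norm hF]
    positivity
  have hl := h.lam1_pos hI
  have hlb := h.Sl_big (al := 1) le_rfl hI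
  rw [Sl_one] at hlb
  have hk := hF.kap_le
  have hk1 := hF.kap_ge
  have hk0 := hF.kap_pos
  have hc0 := hF.c_pos
  have hb := hF.b_ge
  have hn := h.nr hI
  have hhp := hF.h_pos
  obtain ⟨hr1, hr2⟩ := K_ratio h hI
  obtain ⟨hrh0, hrh⟩ := rh_small h ht
  have hQ := Q_le h hI hY hZ
  have hP : 0 < D.pp W t / ‖D.B t‖ := div_pos hp hB
  have hWlo := W_lo (W := W) hF (t := t)
  have hWup := W_up hF h0 hp
  have hWpos : 0 < ‖W t‖ := lt_of_lt_of_le hP hWlo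
  refine ⟨hWpos, ?_⟩
  set N := ‖D.fam.K 1 t‖ with hNd
  set P := D.pp W t / ‖D.B t‖ with hPd
  set Q := |D.qq 1 W t| / ‖D.C 1 t‖ with hQd
  set lam := D.lam1 t with hlamd
  have hQ0 : 0 ≤ Q := by positivity
  -- the three terms of the numerator
  have hG : D.G t = ‖D.B t‖ ^ 2 := rfl
  have hE : D.E 1 t = ‖D.C 1 t‖ ^ 2 := (Lb.norm_C_sq hF 1 t).symm
  have e1 : D.pp W t / D.G t = P / ‖D.B t‖ := by
    rw [hG, hPd]; field_simp
  have e2 : |D.qq 1 W t / D.E 1 t| = Q / ‖D.C 1 t‖ := by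
    rw [hE, abs_div, abs_of_pos (by positivity : 0 < ‖D.C 1 t‖ ^ 2), hQd]
    field_simp
  have hBl : 999 / 1000 ≤ ‖D.B t‖ := by
    have := hF.B_lo hn
    have := hF.uu_le hn
    linarith
  have hBu : ‖D.B t‖ ≤ 1001 / 1000 := by
    have := hF.B_up hn
    have := hF.uu_le hn
    linarith
  have t1 := term1 h hI
  have t2 : |⟪D.fam.K 1 t, D.A t (D.C 1 t)⟫| ≤ N * (D.b * ‖D.C 1 t‖) := by
    refine (abs_real_inner_le_norm _ _).trans ?_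
    apply mul_le_mul_of_nonneg_left _ hN.le
    exact ((D.A t).le_opNorm _).trans (mul_le_mul_of_nonneg_right (hF.A_le t) hC.le)
  have t3 := rh_phi h hI
  -- numerator minus `kap |K| |W|`
  have hnum := num_eq hF h0
  have key : |⟪D.fam.K 1 t, D.fam.M 1 t (W t)⟫ - D.kap * (N * ‖W t‖)| ≤
      P / ‖D.B t‖ * (lam * (9 * D.b * D.uu D.b t +
        D.kap * (D.c / lam + 101 / 100 / lam ^ 2)))
      + Q / ‖D.C 1 t‖ * (N * (D.b * ‖D.C 1 t‖))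
      + Q / ‖D.C 1 t‖ * |D.fam.phi t| + D.kap * N * Q := by
    rw [hnum, e1]
    have a1 : |P / ‖D.B t‖ * (⟪D.fam.K 1 t, D.A t (D.B t)⟫ - D.kap * (N * ‖D.B t‖))| ≤
        P / ‖D.B t‖ * (lam * (9 * D.b * D.uu D.b t +
          D.kap * (D.c / lam + 101 / 100 / lam ^ 2))) := by
      rw [abs_mul, abs_of_pos (div_pos hP hB)]
      exact mul_le_mul_of_nonneg_left t1 (div_pos hP hB).le
    have a2 : |D.qq 1 W t / D.E 1 t * ⟪D.fam.K 1 t, D.A t (D.C 1 t)⟫| ≤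
        Q / ‖D.C 1 t‖ * (N * (D.b * ‖D.C 1 t‖)) := by
      rw [abs_mul, e2]
      exact mul_le_mul_of_nonneg_left t2 (by positivity)
    have a3 : |D.qq 1 W t / D.E 1 t * D.fam.phi t| = Q / ‖D.C 1 t‖ * |D.fam.phi t| := by
      rw [abs_mul, e2]
    have a4 : |D.kap * N * (‖W t‖ - P)| ≤ D.kap * N * Q := by
      rw [abs_mul, abs_of_pos (mul_pos hk0 hN)]
      apply mul_le_mul_of_nonneg_left _ (by positivity)
      rw [abs_of_nonneg (by linarith)]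
      linarith
    have e3 : P / ‖D.B t‖ * ⟪D.fam.K 1 t, D.A t (D.B t)⟫ -
        D.qq 1 W t / D.E 1 t * (⟪D.fam.K 1 t, D.A t (D.C 1 t)⟫ + D.fam.phi t)
        - D.kap * (N * ‖W t‖) =
        P / ‖D.B t‖ * (⟪D.fam.K 1 t, D.A t (D.B t)⟫ - D.kap * (N * ‖D.B t‖))
        - D.qq 1 W t / D.E 1 t * ⟪D.fam.K 1 t, D.A t (D.C 1 t)⟫
        - D.qq 1 W t / D.E 1 t * D.fam.phi t - D.kap * N * (‖W t‖ - P) := by
      field_simp
      ring
    rw [e3]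
    have b1 := abs_le.1 a1
    have b2 := abs_le.1 a2
    have b3 := abs_le.1 a3.le
    have b4 := abs_le.1 a4
    rw [abs_le]
    constructor <;> linarith
  -- every term against `N P`
  have c1 : P / ‖D.B t‖ * (lam * (9 * D.b * D.uu D.b t +
      D.kap * (D.c / lam + 101 / 100 / lam ^ 2))) ≤
      N * P * (101 / 100 * (9 * D.b * D.uu D.b t + D.kap * (D.c / lam + 101 / 100 / lam ^ 2))) := by
    have hu0 := hF.uu_nonneg t
    have d0 : 0 ≤ 9 * D.b * D.uu D.b t + D.kap * (D.c / lam + 101 / 100 / lam ^ 2) := by positivity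
    have d1 : P / ‖D.B t‖ * lam ≤ N * P * (101 / 100) := by
      have d2 : lam / ‖D.B t‖ ≤ 101 / 100 * N := by
        rw [div_le_iff₀ hB]
        nlinarith
      calc P / ‖D.B t‖ * lam = P * (lam / ‖D.B t‖) := by ring
        _ ≤ P * (101 / 100 * N) := mul_le_mul_of_nonneg_left d2 hP.le
        _ = _ := by ring
    calc P / ‖D.B t‖ * (lam * (9 * D.b * D.uu D.b t +
        D.kap * (D.c / lam + 101 / 100 / lam ^ 2)))
        = P / ‖D.B t‖ * lam * (9 * D.b * D.uu D.b t +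
          D.kap * (D.c / lam + 101 / 100 / lam ^ 2)) := by ring
      _ ≤ N * P * (101 / 100) * (9 * D.b * D.uu D.b t +
          D.kap * (D.c / lam + 101 / 100 / lam ^ 2)) := mul_le_mul_of_nonneg_right d1 d0
      _ = _ := by ring
  have c2 : Q / ‖D.C 1 t‖ * (N * (D.b * ‖D.C 1 t‖)) ≤ N * P * (D.b * rh D t) := by
    calc Q / ‖D.C 1 t‖ * (N * (D.b * ‖D.C 1 t‖)) = N * D.b * Q := by field_simp
      _ ≤ N * D.b * (rh D t * P) := mul_le_mul_of_nonneg_left hQ (by positivity)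
      _ = _ := by ring
  have c3 : Q / ‖D.C 1 t‖ * |D.fam.phi t| ≤
      N * P * (12 / 10 * D.kap * (13 / 2 * (D.c / lam) + 1 / lam ^ 2)) := by
    have d1 : 1 / ‖D.C 1 t‖ ≤ N * (102 / 100 / lam ^ 2) := by
      rw [C_norm hF, one_div_div, div_le_iff₀ hN]
      have d2 : lam ^ 2 ≤ (1001 / 1000 * N) ^ 2 := pow_le_pow_left₀ hl.le hr2 2
      have d3 : N * (102 / 100 / lam ^ 2) * N = 102 / 100 * N ^ 2 / lam ^ 2 := by ring
      rw [d3, le_div_iff₀ (by positivity)]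
      nlinarith
    calc Q / ‖D.C 1 t‖ * |D.fam.phi t| = Q * |D.fam.phi t| * (1 / ‖D.C 1 t‖) := by ring
      _ ≤ (rh D t * P) * |D.fam.phi t| * (N * (102 / 100 / lam ^ 2)) := by gcongr
      _ = N * P * (102 / 100 / lam ^ 2) * (rh D t * |D.fam.phi t|) := by ring
      _ ≤ N * P * (102 / 100 / lam ^ 2) * (11 / 10 * D.kap * (1 + 13 / 2 * (D.c * lam))) :=
          mul_le_mul_of_nonneg_left t3 (by positivity)
      _ = N * P * (1122 / 1000 * D.kap * (13 / 2 * (D.c / lam) + 1 / lam ^ 2)) := by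
          field_simp
          ring
      _ ≤ _ := by
          apply mul_le_mul_of_nonneg_left _ (by positivity)
          apply mul_le_mul_of_nonneg_right _ (by positivity)
          linarith
  have c4 : D.kap * N * Q ≤ N * P * (D.kap * rh D t) := by
    calc D.kap * N * Q ≤ D.kap * N * (rh D t * P) := mul_le_mul_of_nonneg_left hQ (by positivity)
      _ = _ := by ring
  have hbu := bu_small h hI
  have hh0 : 0 < (D.h)⁻¹ := inv_pos.2 hhp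
  have x1 : 0 ≤ D.c / lam := by positivity
  have x2 : 0 ≤ 1 / lam ^ 2 := by positivity
  have x3 : 101 / 100 / lam ^ 2 = 101 / 100 * (1 / lam ^ 2) := by ring
  have x4 : 0 ≤ D.kap * (D.c / lam) := by positivity
  have x5 : 0 ≤ D.kap * (1 / lam ^ 2) := by positivity
  have x6 : 1 / 2 * (D.h)⁻¹ ≤ D.kap * (D.h)⁻¹ := mul_le_mul_of_nonneg_right hk1 hh0.le
  have fin : |⟪D.fam.K 1 t, D.fam.M 1 t (W t)⟫ - D.kap * (N * ‖W t‖)| ≤
      N * P * (50 * D.kap * (D.c / lam + 1 / lam ^ 2 + (D.h)⁻¹)) := by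
    refine key.trans ((add_le_add (add_le_add (add_le_add c1 c2) c3) c4).trans ?_)
    rw [← mul_add, ← mul_add, ← mul_add]
    apply mul_le_mul_of_nonneg_left _ (by positivity)
    rw [x3]
    have hrh' : D.b * rh D t + D.kap * rh D t ≤ 1 / 100 * (D.h)⁻¹ := by
      rw [← add_mul]; exact hrh
    linarith
  have hNW : 0 < N * ‖W t‖ := mul_pos hN hWpos
  have e5 : ⟪D.fam.K 1 t, D.fam.M 1 t (W t)⟫ / (N * ‖W t‖) - D.kap =
      (⟪D.fam.K 1 t, D.fam.M 1 t (W t)⟫ - D.kap * (N * ‖W t‖)) / (N * ‖W t‖) := by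
    field_simp
  rw [e5, abs_div, abs_of_pos hNW, div_le_iff₀ hNW]
  refine fin.trans ?_
  have x7 : 0 ≤ 50 * D.kap * (D.c / lam + 1 / lam ^ 2 + (D.h)⁻¹) := by positivity
  calc N * P * (50 * D.kap * (D.c / lam + 1 / lam ^ 2 + (D.h)⁻¹))
      ≤ N * ‖W t‖ * (50 * D.kap * (D.c / lam + 1 / lam ^ 2 + (D.h)⁻¹)) := by gcongr
    _ = _ := by ring

end Ck

/-- CL, first half. -/
theorem cl_kap {D : LevD} (h : D.HL) {W : ℝ → E3} (hW : D.Core W) {t : ℝ}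
    (ht : t ∈ Icc D.t0 D.T) : W t ≠ 0 ∧
    |⟪D.fam.K 1 t, D.fam.M 1 t (W t)⟫ / (‖D.fam.K 1 t‖ * ‖W t‖) - D.kap| ≤
      50 * D.kap * (D.c / D.lam1 t + 1 / D.lam1 t ^ 2 + (D.h)⁻¹) := by
  have hK := h.toKin
  obtain ⟨h1, h2⟩ := core_ratio o2 h hW ht
  have hmc := hK.mc_hi
  have hmc0 := hK.mc_nonneg
  have he := hK.eta_le
  have h3 : |D.Z 1 W t| ≤ 2 * D.Y 1 W t := by
    have h4 : |D.Z 1 W t| ≤ |D.Z 1 W t - D.mc * D.Y 1 W t| + |D.mc * D.Y 1 W t| := by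
      have := abs_add_le (D.Z 1 W t - D.mc * D.Y 1 W t) (D.mc * D.Y 1 W t)
      simpa using this
    rw [abs_of_nonneg (mul_nonneg hmc0 h1.le)] at h4
    have h5 : D.mc * D.Y 1 W t ≤ 1415 / 1000 * D.Y 1 W t := mul_le_mul_of_nonneg_right hmc h1.le
    have h6 : 3 * D.eta * D.Y 1 W t ≤ 3 * (1 / 10 ^ 4) * D.Y 1 W t :=
      mul_le_mul_of_nonneg_right (by linarith) h1.le
    linarith
  obtain ⟨h4, h5⟩ := Ck.kap_core hK ht (h.core_orth hW (Lb.mem_T hK ht)) h1 h3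
  exact ⟨norm_pos_iff.1 h4, h5⟩

end LevD

end Pool.Agent.Work.MP_b0497c_an.Unf.O
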