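import Pool.Agent.Work.MP_b0497c_an.Unf.Fam2
import Pool.Agent.Work.MP_b0497c_an.Unf.KZ0

set_option autoImplicit false

/-!
# Blocks O and K: data and hypotheses of one level (OK.md, OK.2)

`LevD` = centre data of level `n`: `A = M_{n-1}(t,0)` (extended by constants outside `[0,T]`),
`F = F_{n-1}(t,0)`, `Fi = F⁻¹`, `Om` = initial curl, `l` = label covector of sheet `n` with
`|F(t0)⁻ᵀ l| = 1`, `v` = sheet `n`, `t0 = t_n`, `T = T_n`, `a = h ^ 24`, `w = h ^ (-7)`,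
`s0 = max 0 (t0 - w) = t0 - w` = start of the window.
-/

open Set ContinuousLinearMap RealInnerProductSpace

namespace Pool.Agent.Work.MP_b0497c_an.Unf.O

open Forced.Ode (Op ro)
open Fam K

/-- Centre data of one level. -/
structure LevD where
  A : ℝ → Op
  F : ℝ → Op
  Fi : ℝ → Op
  Om : E3
  l : E3
  v : ℝ → E3
  t0 : ℝ
  T : ℝ
  b : ℝ
  h : ℝ
  k0 : ℝ
  k2 : ℝ
  al : ℝ → ℝ

namespace LevD

variable (D : LevD)

/-- amplitude of the sheet at `t0` -/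
noncomputable def a : ℝ := D.h ^ 24

/-- half length of the symmetric window -/
noncomputable def w : ℝ := (D.h ^ 7)⁻¹

/-- covector of the sheet -/
noncomputable def n (t : ℝ) : E3 := adjoint (D.Fi t) D.l

/-- first frame vector at `t0` -/
noncomputable def e1 : E3 := (D.a)⁻¹ • D.v D.t0

/-- second frame vector at `t0` -/
noncomputable def e2 : E3 := D.n D.t0

/-- third frame vector at `t0` -/
noncomputable def e3 : E3 := cx D.e1 D.e2

/-- rotation rate -/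
noncomputable def kap : ℝ := ⟪D.e2, D.A D.t0 D.e1⟫

/-- tilt -/
noncomputable def c : ℝ := ⟪D.e3, D.A D.t0 D.e1⟫ / D.kap

/-- label covector of `e3` -/
noncomputable def K0 : E3 := adjoint (D.F D.t0) D.e3

/-- `xi = F⁻ᵀ K0` -/
noncomputable def xi (t : ℝ) : E3 := adjoint (D.Fi t) D.K0

/-- the constant `- curl A · n` -/
noncomputable def s : ℝ := -⟪D.Om, D.l⟫

/-- `B = n × xi` -/
noncomputable def B (t : ℝ) : E3 := cx (D.n t) (D.xi t)

/-- `f = v · B` -/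
noncomputable def f (t : ℝ) : ℝ := ⟪D.v t, D.B t⟫

/-- `X = lam` of the absent sheet -/
noncomputable def X : ℝ := D.k0 + (D.a - D.f 0) / D.s

/-- `lam` of the core -/
noncomputable def lam1 (t : ℝ) : ℝ := D.X - (D.f t - D.f 0) / D.s

/-- `g = (a - f) / s` -/
noncomputable def g (t : ℝ) : ℝ := (D.a - D.f t) / D.s

/-- the centre family; `fam.D = - B`, `fam.Sl al = lam^al`, `fam.K al = k^al`, `fam.M al = M^al` -/
noncomputable def fam : FamD where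
  A := D.A
  v := D.v
  k := D.n
  R := D.xi
  S := D.lam1
  Si := D.X

/-- `(a kap)^(1/2)` -/
noncomputable def r : ℝ := Real.sqrt (D.a * D.kap)

/-- `(kap / a)^(1/2)` -/
noncomputable def de : ℝ := Real.sqrt (D.kap / D.a)

/-- the model of `lam` of the core in the window -/
noncomputable def Lam (t : ℝ) : ℝ := D.k0 + D.a * D.c * D.kap * (t - D.t0) ^ 2

/-- primitive of `r / Lam` -/
noncomputable def At (t : ℝ) : ℝ :=
  Real.arctan (Real.sqrt (D.c / D.k0) * D.r * (t - D.t0)) / Real.sqrt (D.c * D.k0)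

open Classical in
/-- the growth function of the window, `0` before it -/
noncomputable def sig (t : ℝ) : ℝ :=
  if t ≤ max 0 (D.t0 - D.w) then 0 else D.At t - D.At (max 0 (D.t0 - D.w))

/-- the weight of the next wave -/
noncomputable def alp (t : ℝ) : ℝ := D.al t * Real.exp (Real.sqrt 2 * D.sig t)

/-- the small number of the window -/
noncomputable def eta : ℝ :=
  100 / (D.k0 ^ 2 * Real.sqrt (D.c * D.k0)) + D.k0 / D.k2 + 100 * D.c / D.k2 + (D.h)⁻¹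

/-- length of half a window, `t_{n+1} = t_n + th` -/
noncomputable def th : ℝ := Real.sqrt (D.k2 / (D.a * D.c * D.kap))

/-- start of the window: `max 0 (t0 - w)` -/
noncomputable def s0 : ℝ := max 0 (D.t0 - D.w)

/-- Kinematics with the constant `b'`: (D) of OK.1, bounds (h1), tuning at `t0` (part of (h2)). -/
structure Flo (b' : ℝ) : Prop where
  b_ge : 10 ≤ b'
  h_pos : 0 < D.h
  A_tr : ∀ t, LinearMap.trace ℝ E3 (D.A t).toLinearMap = 0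
  A_le : ∀ t, ‖D.A t‖ ≤ b'
  A_lip : ∀ t t', ‖D.A t - D.A t'‖ ≤ b' * |t - t'|
  F_der : ∀ t, HasDerivAt D.F ((D.A t).comp (D.F t)) t
  F_zero : D.F 0 = ContinuousLinearMap.id ℝ E3
  FFi : ∀ t, (D.F t).comp (D.Fi t) = ContinuousLinearMap.id ℝ E3
  FiF : ∀ t, (D.Fi t).comp (D.F t) = ContinuousLinearMap.id ℝ E3
  F_le : ∀ t ∈ Icc 0 D.T, ‖D.F t‖ ≤ b' ∧ ‖D.Fi t‖ ≤ b'
  VL : ∀ t ∈ Icc 0 D.T, axial (D.A t) = D.F t D.Om
  v_der : ∀ t, HasDerivAt D.v (kel (D.A t) (D.n t) (D.v t)) t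
  v_orth : ∀ t, ⟪D.n t, D.v t⟫ = 0
  n_one : ‖D.n D.t0‖ = 1
  v_a : ‖D.v D.t0‖ = D.a
  kap_ge : 1 / 2 ≤ D.kap
  kap_le : D.kap ≤ 2
  c_ge : 1 / b' ≤ D.c
  c_le : D.c ≤ 1
  s_ge : 1 / b' ≤ D.s
  s_le : D.s ≤ b'
  t0_pos : 0 < D.t0
  t0_lt : D.t0 < D.T
  T_one : D.T ≤ 1

/-- The far region `[0, t0 - w]` (so `s0 = t0 - w`). -/
structure Far : Prop where
  w_le : D.w ≤ D.t0
  f0 : |D.f 0| ≤ 1
  f_ge : ∀ t ∈ Icc 0 D.t0, -((D.a - D.f 0) / 2) ≤ D.f t - D.f 0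

/-- (h0)-(h2) of the level hypothesis. -/
structure Kin : Prop extends D.Flo D.b where
  h_ge : D.b ^ 200 ≤ D.h
  T_eq : D.T = D.t0 + 1001 / 1000 * D.th
  far : D.Far
  k0_ge : 10 ^ 4 ≤ D.k0
  k0_le : D.k0 ≤ D.b
  k2_ge : 1 ≤ D.k2
  k2_le : D.k2 ≤ D.h
  ck0 : D.c * D.k0 ≤ 1 / 10 ^ 8
  ck2 : 10 ^ 4 ≤ D.c * D.k2
  eta_le : D.eta ≤ 1 / 10 ^ 4
  ck0sq : D.c * D.k0 ^ 2 ≤ 1

/-- The level hypothesis HL of OK.2. -/
structure HL : Prop extends D.Kin where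
  v_le : ∀ t ∈ Icc 0 D.T, ‖D.v t‖ ≤ D.b * D.a
  g_ge : ∀ t ∈ Icc 0 D.t0, (D.b)⁻¹ * D.a * (D.t0 - t) ^ 2 ≤ D.g t
  al_pos : ∀ t ∈ Icc 0 D.T, 0 < D.al t
  al_mono : MonotoneOn D.al (Icc 0 D.T)
  al_lip : ∀ s ∈ Icc 0 D.T, ∀ t ∈ Icc s D.T, D.al t ≤ D.al s * Real.exp (D.b * (t - s))
  prop : PB (fun t => kel (D.A t) (D.n t)) 0 D.T D.b D.al
  v_size : ∀ t ∈ Icc 0 D.T, (D.b)⁻¹ ≤ ‖D.v t‖ / D.a * (D.al D.t0 / D.al t) ∧
    ‖D.v t‖ / D.a * (D.al D.t0 / D.al t) ≤ D.b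

/-- The window (with the time after it up to `T`). -/
def Iw : Set ℝ := Icc D.s0 D.T

/-- the small number `h ^ (-6)` -/
noncomputable def ro : ℝ := (D.h ^ 6)⁻¹

/-- `1 + e1 = Om |D|² lam² / (|K|² a)` -/
noncomputable def er (al t : ℝ) : ℝ :=
  D.fam.Om al t * (‖D.fam.D t‖ ^ 2 / ‖D.fam.K al t‖ ^ 2) * D.fam.Sl al t ^ 2 / D.a - 1

/-- `be = b0 + b lam` -/
noncomputable def be (al t : ℝ) : ℝ := D.fam.b0 t + D.fam.b t * D.fam.Sl al t

/-- `j = lam' / r` -/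
noncomputable def j (al t : ℝ) : ℝ := -(al * D.fam.phi t) / D.r

/-- `om = r / lam` -/
noncomputable def om (al t : ℝ) : ℝ := D.r / D.fam.Sl al t

/-- derivative of `phi` -/
noncomputable def phi' (t : ℝ) : ℝ := -2 * ⟪D.xi t, D.A t (D.v t)⟫
  + 2 * ⟪D.n t, D.A t (D.v t)⟫ / ‖D.n t‖ ^ 2 * ⟪D.xi t, D.n t⟫

/-- the exact coefficient -/
noncomputable def Ht (al t : ℝ) : ℝ := 2 * D.be al t / D.kap
  + D.fam.Sl al t * (-(al * D.phi' t)) / (2 * D.r ^ 2) + D.j al t ^ 2 / 4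

/-- the model coefficient -/
noncomputable def H (al t : ℝ) : ℝ :=
  2 - 2 * (1 - al) * D.c * D.fam.Sl al t - al * D.c * D.fam.Sl al D.t0

/-- `Y = lam^(1/2) p` (sign: `p = W · B = - fam.p`) -/
noncomputable def Y (al : ℝ) (W : ℝ → E3) (t : ℝ) : ℝ :=
  Real.sqrt (D.fam.Sl al t) * (-D.fam.p W t)

/-- `Z = q / (de lam^(1/2)) + (j / 2) Y` -/
noncomputable def Z (al : ℝ) (W : ℝ → E3) (t : ℝ) : ℝ :=
  -D.fam.q al W t / (D.de * Real.sqrt (D.fam.Sl al t)) + D.j al t / 2 * D.Y al W t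

end LevD

end Pool.Agent.Work.MP_b0497c_an.Unf.O
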