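import Pool.Agent.Work.MP_b0497c_an.Bd.B44

set_option autoImplicit false

/-!
# The ratio of the core wave, without hypotheses (O2, O4, StPos, StK1: `OAll.lean`)
-/

open Set

namespace Pool.Agent.Work.MP_b0497c_an.Unf.O

/-- O3 of OK.5: the ratio of the core wave at `t ≥ t0`. -/
theorem core_ratio' {D : LevD} (h : D.HL) {W : ℝ → E3} (hW : D.Core W) {t : ℝ}
    (ht : t ∈ Icc D.t0 D.T) :
    0 < D.Y 1 W t ∧ |D.Z 1 W t - D.mc * D.Y 1 W t| ≤ 3 * D.eta * D.Y 1 W t :=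
  core_ratio LevD.o2 h hW ht

end Pool.Agent.Work.MP_b0497c_an.Unf.O
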