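import Pool.Agent.Work.MP_b0497c_an.Unf.OLab

set_option autoImplicit false

/-!
# Label coordinates, part 2 (OK.1: (I6), (I7), (I11))
-/

open Set ContinuousLinearMap RealInnerProductSpace

namespace Pool.Agent.Work.MP_b0497c_an.Unf.O

open Forced.Ode (Op ro)
open Fam K

namespace LevD.Lb

variable {D : LevD} {b' : ℝ}

/-! ### The frame `B, B2, k` -/

theorem b1_b2o (h : D.Flo b') : cx D.b1 D.b2o = D.Kn := by
  have h1 : ‖D.b1‖ ^ 2 ≠ 0 := pow_ne_zero 2 (norm_ne_zero_iff.2 (b1_ne h))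
  unfold b2o
  rw [cx_smul_right, cx_cx, real_inner_self_eq_norm_sq, real_inner_comm, (Kn_b1 h), zero_smul,
    sub_zero, smul_smul, inv_mul_cancel₀ h1, one_smul]

theorem b1_b2 (h : D.Flo b') (al : ℝ) : cx D.b1 (D.b2 al) = D.Kn := by
  unfold b2
  rw [cx_sub_right, (b1_b2o h), cx_smul_right, cx_self, smul_zero, sub_zero]

theorem Kn_b2 (h : D.Flo b') (al : ℝ) : ⟪D.Kn, D.b2 al⟫ = 0 := by
  rw [← (b1_b2 h) al, real_inner_comm, inner_cx_right]

theorem B2_zero (h : D.Flo b') (al : ℝ) : D.B2 al 0 = D.b2 al := by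
  unfold B2
  rw [(F1_zero h), id_apply]

theorem B2_der (h : D.Flo b') (al : ℝ) {t : ℝ} (ht : t ∈ Icc 0 D.T) :
    HasDerivAt (D.B2 al) (D.fam.M al t (D.B2 al t)) t := by
  have h1 := ((F1_der h) al ht).clm_apply (hasDerivAt_const t (D.b2 al))
  refine h1.congr_deriv ?_
  simp [B2]

theorem B_derM (h : D.Flo b') (al t : ℝ) : HasDerivAt D.B (D.fam.M al t (D.B t)) t := by
  have h1 := (B_der h) t
  refine h1.congr_deriv ?_
  rw [fam_M_apply]
  unfold B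
  rw [inner_cx_left]
  simp

theorem B_B2 (h : D.Flo b') (al : ℝ) {t : ℝ} (ht : t ∈ Icc 0 D.T) :
    cx (D.B t) (D.B2 al t) = D.fam.K al t := by
  have h1 : ∀ r ∈ Icc 0 D.T, HasDerivAt
      (fun r => adjoint (D.F1 al r) (cx (D.B r) (D.B2 al r))) 0 r := by
    intro r hr
    have h2 := HasDerivAt.cx ((B_derM h) al r) ((B2_der h) al hr)
    rw [add_comm, adj_cx ((trM h) al r)] at h2
    let L : Op →ₗ[ℝ] Op :=
      { toFun := fun M => adjoint M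
        map_add' := fun x y => map_add _ x y
        map_smul' := fun c x => by
          simp }
    have h3 : HasDerivAt (fun r => adjoint (D.F1 al r))
        (adjoint ((D.fam.M al r).comp (D.F1 al r))) r :=
      (LinearMap.toContinuousLinearMap L).hasFDerivAt.comp_hasDerivAt r ((F1_der h) al hr)
    have h4 := h3.clm_apply h2
    refine h4.congr_deriv ?_
    rw [adjoint_comp]
    simp
  have h5 := constant_of_has_deriv_right_zero
    (f := fun r => adjoint (D.F1 al r) (cx (D.B r) (D.B2 al r))) (a := 0) (b := D.T)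
    (fun x hx => (h1 x hx).continuousAt.continuousWithinAt)
    (fun x hx => (h1 x ⟨hx.1, hx.2.le⟩).hasDerivWithinAt) t ht
  have h6 : adjoint (D.F1 al t) (cx (D.B t) (D.B2 al t)) = D.Kn := by
    have h7 : D.B 0 = D.b1 := by rw [(B_eq h), h.F_zero, id_apply]
    have h8 : adjoint (D.F1 al t) (cx (D.B t) (D.B2 al t)) =
        adjoint (D.F1 al 0) (cx (D.B 0) (D.B2 al 0)) := h5
    rw [h8, (B2_zero h), h7, (b1_b2 h), (F1_zero h)]
    refine ext_inner_right ℝ fun x => ?_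
    rw [adjoint_inner_left, id_apply]
  rw [← (adj_Fi1 h) al t, ← h6]
  refine ext_inner_right ℝ fun x => ?_
  rw [adjoint_inner_left, adjoint_inner_left, (F1_Fi1 h)]

theorem inner_K_B (al t : ℝ) : ⟪D.fam.K al t, D.B t⟫ = 0 := by
  have h1 := FamD.DK (F := D.fam) al t
  rw [fam_D, inner_neg_left, real_inner_comm] at h1
  linarith

theorem inner_n_B (t : ℝ) : ⟪D.n t, D.B t⟫ = 0 := inner_cx_left _ _

theorem E_pos (h : D.Flo b') (al t : ℝ) : 0 < D.E al t := by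
  have h1 := norm_pos_iff.2 ((K_ne h) al t)
  have h2 := (G_pos h) t
  unfold E
  positivity

/-- `C = B2 - S B` -/
theorem C_eq (h : D.Flo b') (al : ℝ) {t : ℝ} (ht : t ∈ Icc 0 D.T) :
    D.C al t = D.B2 al t - D.S2 al t • D.B t := by
  have h1 := (G_pos h) t
  have h2 : cx (D.fam.K al t) (D.B t) = D.G t • D.B2 al t - ⟪D.B t, D.B2 al t⟫ • D.B t := by
    rw [← (B_B2 h) al ht, cx_swap, cx_cx, real_inner_self_eq_norm_sq]
    unfold G
    abel
  unfold C S2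
  rw [h2, smul_sub, smul_smul, smul_smul, inv_mul_cancel₀ h1.ne', one_smul]
  congr 2
  field_simp

theorem inner_B_C (al t : ℝ) : ⟪D.B t, D.C al t⟫ = 0 := by
  unfold C
  rw [inner_smul_right, inner_cx_right, mul_zero]

theorem inner_K_C (al t : ℝ) : ⟪D.fam.K al t, D.C al t⟫ = 0 := by
  unfold C
  rw [inner_smul_right, inner_cx_left, mul_zero]

theorem norm_C_sq (h : D.Flo b') (al t : ℝ) : ‖D.C al t‖ ^ 2 = D.E al t := by
  have h1 := ((G_pos h) t).ne'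
  have h2 : ‖D.B t‖ ^ 2 = D.G t := rfl
  unfold C E
  rw [norm_smul, mul_pow, norm_cx_sq, inner_K_B, norm_inv, Real.norm_of_nonneg ((G_pos h) t).le, h2]
  field_simp
  ring

theorem inner_n_C (h : D.Flo b') (al t : ℝ) : ⟪D.n t, D.C al t⟫ = 1 := by
  have h1 := ((G_pos h) t).ne'
  have h2 : ⟪D.n t, cx (D.fam.K al t) (D.B t)⟫ = D.G t := by
    rw [inner_cx_cyc, inner_cx_cyc]
    have h3 : cx (D.n t) (D.fam.K al t) = D.B t := by
      show cx (D.n t) (D.xi t + D.fam.Sl al t • D.n t) = D.B t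
      rw [cx_add_right, cx_smul_right, cx_self, smul_zero, add_zero]
      rfl
    rw [h3, real_inner_self_eq_norm_sq]
    rfl
  unfold C
  rw [inner_smul_right, h2, inv_mul_cancel₀ h1]

theorem S2_t0 (h : D.Flo b') (al : ℝ) : D.S2 al D.t0 = 0 := by
  have h1 : D.B2 al D.t0 = D.F1 al D.t0 D.b2o
      - ⟪D.B D.t0, D.F1 al D.t0 D.b2o⟫ • D.B D.t0 := by
    unfold B2 b2
    rw [map_sub, map_smul, (F1_b1 h)]
  unfold S2
  rw [h1, inner_sub_right, inner_smul_right, real_inner_self_eq_norm_sq, (B_t0 h), (norm_e1 h)]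
  norm_num

/-! ### Decomposition of vectors orthogonal to the covector -/

/-- `x = (x·B/G) B + (x·C/E) C` for `x ⟂ k`. -/
theorem dec_BC (h : D.Flo b') (al t : ℝ) {x : E3} (hx : ⟪D.fam.K al t, x⟫ = 0) :
    x = (⟪x, D.B t⟫ / D.G t) • D.B t + (⟪x, D.C al t⟫ / D.E al t) • D.C al t := by
  have h1 := (G_pos h t).ne'
  have h2 := (E_pos h al t).ne'
  have hD : D.fam.D t ≠ 0 := by
    rw [fam_D]
    exact neg_ne_zero.2 (B_ne h t)
  have h3 := decomp (X := x) hD (K_ne h al t) (FamD.DK al t) hx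
  have h4 : cx (D.fam.D t) (D.fam.K al t) = D.G t • D.C al t := by
    unfold C
    rw [smul_smul, mul_inv_cancel₀ h1, one_smul, fam_D, cx_neg_left, ← cx_swap]
  have h5 : ‖D.fam.D t‖ ^ 2 = D.G t := by
    rw [fam_D, norm_neg]
    rfl
  have h6 : ‖D.fam.K al t‖ ^ 2 = D.E al t * D.G t := by
    unfold E
    field_simp
  rw [h4, h5, h6, fam_D, inner_neg_right, inner_smul_right, smul_neg, smul_smul, neg_div,
    neg_smul, neg_neg] at h3
  have h7 : D.G t * ⟪x, D.C al t⟫ / (D.G t * (D.E al t * D.G t)) * D.G t =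
      ⟪x, D.C al t⟫ / D.E al t := by
    field_simp
  rw [h7] at h3
  exact h3

theorem W_eq (h : D.Flo b') (al t : ℝ) {W : ℝ → E3} (h0 : ⟪D.fam.K al t, W t⟫ = 0) :
    W t = (D.pp W t / D.G t) • D.B t - (D.qq al W t / D.E al t) • D.C al t := by
  conv_lhs => rw [dec_BC h al t h0]
  unfold pp qq
  rw [neg_div, neg_smul, sub_neg_eq_add]

/-- coordinates in the frame `B, B2` and of the label vector in the frame `b1, b2` -/
theorem dec_BB2 (h : D.Flo b') (al : ℝ) {t : ℝ} (ht : t ∈ Icc 0 D.T) {x : E3}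
    (hx : ⟪D.fam.K al t, x⟫ = 0) :
    x = (⟪x, D.B t⟫ / D.G t - D.S2 al t * (⟪x, D.C al t⟫ / D.E al t)) • D.B t
      + (⟪x, D.C al t⟫ / D.E al t) • D.B2 al t := by
  conv_lhs => rw [dec_BC h al t hx]
  rw [show D.C al t = D.B2 al t - D.S2 al t • D.B t from C_eq h al ht]
  module

theorem W_eq2 (h : D.Flo b') (al : ℝ) {t : ℝ} (ht : t ∈ Icc 0 D.T) {W : ℝ → E3}
    (h0 : ⟪D.fam.K al t, W t⟫ = 0) :
    W t = D.y1 al W t • D.B t + D.y2 al W t • D.B2 al t := by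
  conv_lhs => rw [dec_BB2 h al ht h0]
  unfold y1 y2 pp qq
  congr 2 <;> ring

theorem Fi1_B (h : D.Flo b') (al t : ℝ) : D.Fi1 al t (D.B t) = D.b1 := by
  rw [← F1_b1 h al t, Fi1_F1 h]

theorem Fi1_B2 (h : D.Flo b') (al t : ℝ) : D.Fi1 al t (D.B2 al t) = D.b2 al := by
  unfold B2
  rw [Fi1_F1 h]

/-- the label amplitude -/
theorem Fi1_W (h : D.Flo b') (al : ℝ) {t : ℝ} (ht : t ∈ Icc 0 D.T) {W : ℝ → E3}
    (h0 : ⟪D.fam.K al t, W t⟫ = 0) :
    D.Fi1 al t (W t) = D.y1 al W t • D.b1 + D.y2 al W t • D.b2 al := by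
  conv_lhs => rw [W_eq2 h al ht h0]
  rw [map_add, map_smul, map_smul, Fi1_B h, Fi1_B2 h]

/-- the area form in labels and in space -/
theorem area (h : D.Flo b') (al : ℝ) {t : ℝ} (ht : t ∈ Icc 0 D.T) {x y : E3}
    (hx : ⟪D.fam.K al t, x⟫ = 0) (hy : ⟪D.fam.K al t, y⟫ = 0) :
    ⟪cx (D.Fi1 al t x) (D.Fi1 al t y), D.Kn⟫ * ‖D.fam.K al t‖ ^ 2 =
      ⟪cx x y, D.fam.K al t⟫ * ‖D.Kn‖ ^ 2 := by
  obtain ⟨x1, x2, h1⟩ : ∃ x1 x2 : ℝ, x = x1 • D.B t + x2 • D.B2 al t := ⟨_, _, dec_BB2 h al ht hx⟩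
  obtain ⟨z1, z2, h2⟩ : ∃ x1 x2 : ℝ, y = x1 • D.B t + x2 • D.B2 al t := ⟨_, _, dec_BB2 h al ht hy⟩
  have h3 : ∀ a b c d : ℝ, ∀ u v : E3, cx (a • u + b • v) (c • u + d • v) =
      (a * d - b * c) • cx u v := by
    intro a b c d u v
    apply ext3 <;> simp [cx] <;> ring
  rw [h1, h2, map_add, map_add, map_smul, map_smul, map_smul, map_smul, Fi1_B h, Fi1_B2 h, h3, h3,
    B_B2 h al ht, b1_b2 h, inner_smul_left, inner_smul_left, real_inner_self_eq_norm_sq,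
    real_inner_self_eq_norm_sq]
  ring

/-! ### Derivative of the label amplitude -/

theorem lab_der (h : D.Flo b') (al : ℝ) {t : ℝ} (ht : t ∈ Icc 0 D.T) {W : ℝ → E3} {W' : E3}
    (hW : HasDerivAt W W' t) :
    HasDerivAt (fun s => D.Fi1 al s (W s)) (D.Fi1 al t (W' - D.fam.M al t (W t))) t := by
  have h1 := (Fi_der h t).clm_apply hW
  have h2 := ((n_der h t).inner ℝ hW).const_mul al
  have h3 := h1.sub (h2.smul (Dv_der h ht))
  have h4 : (fun s => D.Fi1 al s (W s)) =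
      fun s => D.Fi s (W s) - (al * ⟪D.n s, W s⟫) • D.Dv s := by
    funext s
    rw [Fi1_apply]
  rw [h4]
  refine h3.congr_deriv ?_
  rw [Fi1_apply, fam_M_apply, inner_sub_right, inner_add_right, inner_smul_right, h.v_orth,
    mul_zero, add_zero, map_sub, map_add, map_smul, inner_neg_left, adjoint_inner_left,
    neg_apply, comp_apply]
  module

/-- the derivative of `W · F1 x` for `x ⟂ Kn` -/
theorem fp_der (h : D.Flo b') (al : ℝ) {t : ℝ} (ht : t ∈ Icc 0 D.T) {W : ℝ → E3}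
    (hW : HasDerivAt W (D.gen al t (W t)) t) (h0 : ⟪D.fam.K al t, W t⟫ = 0) {x : E3}
    (hx : ⟪D.Kn, x⟫ = 0) :
    HasDerivAt (fun s => ⟪W s, D.F1 al s x⟫)
      (D.fam.Om al t * (⟪cx (D.Fi1 al t (W t)) x, D.Kn⟫ / ‖D.Kn‖ ^ 2)) t := by
  have h1 := hW.inner ℝ ((F1_der h al ht).clm_apply (hasDerivAt_const t x))
  refine h1.congr_deriv ?_
  have hk2 : ‖D.fam.K al t‖ ^ 2 ≠ 0 := pow_ne_zero 2 (norm_ne_zero_iff.2 (K_ne h al t))
  have hK : D.Kn ≠ 0 := by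
    intro h2
    apply K_ne h al t
    rw [← adj_Fi1 h, h2, map_zero]
  have hK2 : ‖D.Kn‖ ^ 2 ≠ 0 := pow_ne_zero 2 (norm_ne_zero_iff.2 hK)
  have hky : ⟪D.fam.K al t, D.F1 al t x⟫ = 0 := by
    rw [inner_K h, Fi1_F1 h, hx]
  have h2 : cx (D.F1 al t x) (W t) = (⟪cx (D.F1 al t x) (W t), D.fam.K al t⟫ /
      ‖D.fam.K al t‖ ^ 2) • D.fam.K al t := by
    obtain ⟨x1, x2, h3⟩ : ∃ x1 x2 : ℝ, D.F1 al t x = x1 • D.B t + x2 • D.B2 al t :=
      ⟨_, _, dec_BB2 h al ht hky⟩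
    obtain ⟨z1, z2, h4⟩ : ∃ x1 x2 : ℝ, W t = x1 • D.B t + x2 • D.B2 al t :=
      ⟨_, _, dec_BB2 h al ht h0⟩
    have h5 : ∀ a b c d : ℝ, ∀ u v : E3, cx (a • u + b • v) (c • u + d • v) =
        (a * d - b * c) • cx u v := by
      intro a b c d u v
      apply ext3 <;> simp [cx] <;> ring
    rw [h3, h4, h5, B_B2 h al ht, inner_smul_left, real_inner_self_eq_norm_sq]
    simp only [conj_trivial]
    rw [mul_div_assoc, div_self hk2, mul_one]
  have h6 := area h al ht h0 hky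
  rw [Fi1_F1 h] at h6
  have h7 : ⟪cx (D.F1 al t x) (W t), D.fam.K al t⟫ = -⟪cx (W t) (D.F1 al t x), D.fam.K al t⟫ := by
    rw [cx_swap, inner_neg_left]
  have h8 : ⟪cx (D.Fi1 al t (W t)) x, D.Kn⟫ / ‖D.Kn‖ ^ 2 =
      ⟪cx (W t) (D.F1 al t x), D.fam.K al t⟫ / ‖D.fam.K al t‖ ^ 2 := by
    rw [div_eq_div_iff hK2 hk2]
    exact h6
  have h9 : ⟪W t, D.fam.M al t (D.F1 al t x)⟫ - ⟪D.F1 al t x, D.fam.M al t (W t)⟫ =
      D.fam.Om al t * (⟪cx (W t) (D.F1 al t x), D.fam.K al t⟫ / ‖D.fam.K al t‖ ^ 2) := by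
    rw [skew, inner_cx_cyc, h2, inner_smul_right, h7]
    unfold FamD.Om
    ring
  rw [h8, ← h9]
  unfold gen
  rw [kel_apply]
  simp only [inner_add_left, inner_neg_left, inner_smul_left, conj_trivial, map_zero, add_zero,
    comp_apply, hky, mul_zero]
  rw [real_inner_comm (D.F1 al t x) (D.fam.M al t (W t))]
  ring

/-! ### Monotone rotation of the label amplitude -/

/-- Three term relation. -/
theorem plu (a b c d N : E3) : ⟪cx a b, N⟫ * ⟪cx c d, N⟫ =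
    ⟪cx a c, N⟫ * ⟪cx b d, N⟫ - ⟪cx a d, N⟫ * ⟪cx b c, N⟫ := by
  simp only [inner_eq, cx_zero, cx_one, cx_two]
  ring

theorem Kn_ne (h : D.Flo b') : D.Kn ≠ 0 := by
  intro h2
  apply K_ne h 0 0
  rw [← adj_Fi1 h, h2, map_zero]

theorem gen_sub (al t : ℝ) (x : E3) : ∃ c : ℝ, D.gen al t x - D.fam.M al t x =
    (-2 : ℝ) • D.fam.M al t x + c • D.fam.K al t := by
  refine ⟨2 / ‖D.fam.K al t‖ ^ 2 * ⟪D.fam.K al t, D.fam.M al t x⟫, ?_⟩
  unfold gen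
  rw [kel_apply]
  module

theorem K_gen_sub (h : D.Flo b') (al t : ℝ) (x : E3) :
    ⟪D.fam.K al t, D.gen al t x - D.fam.M al t x⟫ = 0 := by
  have hk2 : ‖D.fam.K al t‖ ^ 2 ≠ 0 := pow_ne_zero 2 (norm_ne_zero_iff.2 (K_ne h al t))
  unfold gen
  rw [kel_apply, inner_sub_right, inner_add_right, inner_neg_right, inner_smul_right,
    real_inner_self_eq_norm_sq, mul_right_comm, inv_mul_cancel_right₀ hk2]
  ring

theorem area_gen (al t : ℝ) (x : E3) :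
    ⟪cx x (D.gen al t x - D.fam.M al t x), D.fam.K al t⟫ =
      2 * ⟪cx x (D.fam.K al t), D.fam.M al t x⟫ := by
  obtain ⟨c, hc⟩ := gen_sub (D := D) al t x
  rw [hc, cx_add_right, cx_smul_right, cx_smul_right, inner_add_left, inner_smul_left,
    inner_smul_left]
  have h1 : ⟪cx x (D.fam.K al t), D.fam.K al t⟫ = 0 := by
    rw [real_inner_comm, inner_cx_right]
  have h2 : ⟪cx x (D.fam.M al t x), D.fam.K al t⟫ = -⟪cx x (D.fam.K al t), D.fam.M al t x⟫ := by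
    rw [real_inner_comm, inner_cx_cyc, inner_cx_cyc, cx_swap x (D.fam.K al t), inner_neg_right,
      real_inner_comm]
  rw [h1, h2]
  simp only [conj_trivial]
  ring

theorem y1_lab (h : D.Flo b') (al : ℝ) {t : ℝ} (ht : t ∈ Icc 0 D.T) {W : ℝ → E3}
    (h0 : ⟪D.fam.K al t, W t⟫ = 0) :
    ⟪cx (D.Fi1 al t (W t)) (D.b2 al), D.Kn⟫ = D.y1 al W t * ‖D.Kn‖ ^ 2 := by
  rw [Fi1_W h al ht h0, cx_add_left, cx_smul_left, cx_smul_left, cx_self, smul_zero, add_zero,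
    b1_b2 h, inner_smul_left, real_inner_self_eq_norm_sq]
  rfl

theorem y2_lab (h : D.Flo b') (al : ℝ) {t : ℝ} (ht : t ∈ Icc 0 D.T) {W : ℝ → E3}
    (h0 : ⟪D.fam.K al t, W t⟫ = 0) :
    ⟪cx D.b1 (D.Fi1 al t (W t)), D.Kn⟫ = D.y2 al W t * ‖D.Kn‖ ^ 2 := by
  rw [Fi1_W h al ht h0, cx_add_right, cx_smul_right, cx_smul_right, cx_self, smul_zero, zero_add,
    b1_b2 h, inner_smul_left, real_inner_self_eq_norm_sq]
  rfl

/-- If `y1 > 0` and `(W × k) · M W ≥ 0` on `[u, v]` then `W · F1 Fi1(v) W(v)` is nondecreasing on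
`[u, v]`. -/
theorem rot (h : D.Flo b') (al : ℝ) {u v : ℝ} (huv : Icc u v ⊆ Icc 0 D.T) {W : ℝ → E3}
    (hW : ∀ t ∈ Icc u v, HasDerivAt W (D.gen al t (W t)) t)
    (h0 : ∀ t ∈ Icc u v, ⟪D.fam.K al t, W t⟫ = 0)
    (hy : ∀ t ∈ Icc u v, 0 < D.y1 al W t)
    (hc : ∀ t ∈ Icc u v, 0 ≤ ⟪cx (W t) (D.fam.K al t), D.fam.M al t (W t)⟫)
    (hz : ∀ t ∈ Icc u v, 0 ≤ D.fam.Om al t) :
    MonotoneOn (fun t => ⟪W t, D.F1 al t (D.Fi1 al v (W v))⟫) (Icc u v) := by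
  rcases lt_or_ge v u with hvu | huv'
  · rw [Icc_eq_empty (by linarith)]
    intro x hx
    exact absurd hx (Set.notMem_empty x)
  have hN : 0 < ‖D.Kn‖ ^ 2 := by
    have := norm_pos_iff.2 (Kn_ne h)
    positivity
  set Z : ℝ → E3 := fun s => D.Fi1 al s (W s) with hZ
  have hZd : ∀ t ∈ Icc u v, HasDerivAt Z (D.Fi1 al t (D.gen al t (W t) - D.fam.M al t (W t))) t :=
    fun t ht => lab_der h al (huv ht) (hW t ht)
  set Z' : ℝ → E3 := fun t => D.Fi1 al t (D.gen al t (W t) - D.fam.M al t (W t)) with hZ'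
  set P1 : ℝ → ℝ := fun t => ⟪cx (Z t) (D.b2 al), D.Kn⟫ with hP1
  set P2 : ℝ → ℝ := fun t => ⟪cx D.b1 (Z t), D.Kn⟫ with hP2
  have hP1d : ∀ t ∈ Icc u v, HasDerivAt P1 (⟪cx (Z' t) (D.b2 al), D.Kn⟫) t := by
    intro t ht
    have h1 := (HasDerivAt.cx (hZd t ht) (hasDerivAt_const t (D.b2 al))).inner ℝ
      (hasDerivAt_const t D.Kn)
    refine h1.congr_deriv ?_
    have h2 : cx (Z t) 0 = 0 := by
      have := cx_smul_right 0 (Z t) 0
      simpa using this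
    rw [h2, zero_add, inner_zero_right, zero_add]
  have hP2d : ∀ t ∈ Icc u v, HasDerivAt P2 (⟪cx D.b1 (Z' t), D.Kn⟫) t := by
    intro t ht
    have h1 := (HasDerivAt.cx (hasDerivAt_const t D.b1) (hZd t ht)).inner ℝ
      (hasDerivAt_const t D.Kn)
    refine h1.congr_deriv ?_
    have h2 : cx 0 (Z t) = 0 := by
      have := cx_smul_left 0 0 (Z t)
      simpa using this
    rw [h2, add_zero, inner_zero_right, zero_add]
  have hP1p : ∀ t ∈ Icc u v, 0 < P1 t := by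
    intro t ht
    have h1 : P1 t = D.y1 al W t * ‖D.Kn‖ ^ 2 := y1_lab h al (huv ht) (h0 t ht)
    rw [h1]
    exact mul_pos (hy t ht) hN
  -- the ratio
  have hRd : ∀ t ∈ Icc u v, HasDerivAt (fun s => P2 s / P1 s)
      ((⟪cx D.b1 (Z' t), D.Kn⟫ * P1 t - P2 t * ⟪cx (Z' t) (D.b2 al), D.Kn⟫) / P1 t ^ 2) t :=
    fun t ht => (hP2d t ht).div (hP1d t ht) (hP1p t ht).ne'
  have hb : ⟪cx D.b1 (D.b2 al), D.Kn⟫ = ‖D.Kn‖ ^ 2 := by
    rw [b1_b2 h, real_inner_self_eq_norm_sq]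
  have hsw : ∀ x y : E3, ⟪cx x y, D.Kn⟫ = -⟪cx y x, D.Kn⟫ := by
    intro x y
    rw [cx_swap, inner_neg_left]
  have hRn : ∀ t ∈ Icc u v,
      0 ≤ (⟪cx D.b1 (Z' t), D.Kn⟫ * P1 t - P2 t * ⟪cx (Z' t) (D.b2 al), D.Kn⟫) / P1 t ^ 2 := by
    intro t ht
    refine div_nonneg ?_ (by positivity)
    have h1 := plu (Z t) (Z' t) D.b1 (D.b2 al) D.Kn
    rw [hb, hsw (Z t) D.b1, hsw (Z' t) D.b1] at h1
    have h2 := area h al (huv ht) (h0 t ht) (K_gen_sub h al t (W t))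
    rw [area_gen] at h2
    have hk : 0 < ‖D.fam.K al t‖ ^ 2 := by
      have := norm_pos_iff.2 (K_ne h al t)
      positivity
    have h3 : 0 ≤ ⟪cx (Z t) (Z' t), D.Kn⟫ := by
      have h4 : 0 ≤ ⟪cx (Z t) (Z' t), D.Kn⟫ * ‖D.fam.K al t‖ ^ 2 := by
        rw [show ⟪cx (Z t) (Z' t), D.Kn⟫ * ‖D.fam.K al t‖ ^ 2 =
          2 * ⟪cx (W t) (D.fam.K al t), D.fam.M al t (W t)⟫ * ‖D.Kn‖ ^ 2 from h2]
        have := hc t ht
        positivity
      by_contra h5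
      push Not at h5
      nlinarith
    have h4 : 0 ≤ ⟪cx (Z t) (Z' t), D.Kn⟫ * ‖D.Kn‖ ^ 2 := mul_nonneg h3 hN.le
    rw [h1] at h4
    show 0 ≤ ⟪cx D.b1 (Z' t), D.Kn⟫ * ⟪cx (Z t) (D.b2 al), D.Kn⟫
      - ⟪cx D.b1 (Z t), D.Kn⟫ * ⟪cx (Z' t) (D.b2 al), D.Kn⟫
    linarith
  have hRm : MonotoneOn (fun s => P2 s / P1 s) (Icc u v) := by
    refine monotoneOn_of_deriv_nonneg (convex_Icc u v) ?_ ?_ ?_
    · exact fun t ht => (hRd t ht).continuousAt.continuousWithinAt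
    · exact fun t ht => (hRd t (interior_subset ht)).differentiableAt.differentiableWithinAt
    · intro t ht
      rw [(hRd t (interior_subset ht)).deriv]
      exact hRn t (interior_subset ht)
  -- the derivative of `f+`
  have hv : v ∈ Icc u v := ⟨huv', le_rfl⟩
  have hx : ⟪D.Kn, Z v⟫ = 0 := by
    rw [hZ, ← inner_K h]
    exact h0 v hv
  have hfd : ∀ t ∈ Icc u v, HasDerivAt (fun s => ⟪W s, D.F1 al s (Z v)⟫)
      (D.fam.Om al t * (⟪cx (Z t) (Z v), D.Kn⟫ / ‖D.Kn‖ ^ 2)) t :=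
    fun t ht => fp_der h al (huv ht) (hW t ht) (h0 t ht) hx
  refine monotoneOn_of_deriv_nonneg (convex_Icc u v) ?_ ?_ ?_
  · exact fun t ht => (hfd t ht).continuousAt.continuousWithinAt
  · exact fun t ht => (hfd t (interior_subset ht)).differentiableAt.differentiableWithinAt
  · intro t ht
    have ht' := interior_subset ht
    rw [(hfd t ht').deriv]
    refine mul_nonneg (hz t ht') (div_nonneg ?_ hN.le)
    have h1 := plu (Z t) (Z v) D.b1 (D.b2 al) D.Kn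
    rw [hb, hsw (Z t) D.b1, hsw (Z v) D.b1] at h1
    have h2 := hRm ht' hv ht'.2
    simp only at h2
    rw [div_le_div_iff₀ (hP1p t ht') (hP1p v hv)] at h2
    have h3 : 0 ≤ ⟪cx (Z t) (Z v), D.Kn⟫ * ‖D.Kn‖ ^ 2 := by
      rw [h1]
      have h4 : P2 t * P1 v ≤ P2 v * P1 t := h2
      have h5 : 0 ≤ ⟪cx D.b1 (Z v), D.Kn⟫ * ⟪cx (Z t) (D.b2 al), D.Kn⟫
          - ⟪cx D.b1 (Z t), D.Kn⟫ * ⟪cx (Z v) (D.b2 al), D.Kn⟫ := by
        have : ⟪cx D.b1 (Z t), D.Kn⟫ * ⟪cx (Z v) (D.b2 al), D.Kn⟫ ≤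
          ⟪cx D.b1 (Z v), D.Kn⟫ * ⟪cx (Z t) (D.b2 al), D.Kn⟫ := h4
        linarith
      linarith
    by_contra h5
    push Not at h5
    nlinarith

end LevD.Lb

end Pool.Agent.Work.MP_b0497c_an.Unf.O
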