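import Pool.Agent.Work.MP_b0497c_an.Unf.ONext
import Pool.Agent.Work.MP_b0497c_an.Unf.KOne

set_option autoImplicit false

/-!
# Block O: kinematics of the next level

`Nx.Hy D N` collects the level hypothesis, `(so)` and the pieces T1c, T4, T5, T6.
Main results: `Nx.T_le`, `Nx.v_le`, `Nx.flo : (D.next N).Flo N.bp`.
-/

open Set ContinuousLinearMap RealInnerProductSpace

namespace Pool.Agent.Work.MP_b0497c_an.Unf.O

open Forced.Ode (Op)
open Fam K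

namespace LevD

namespace Nx

variable {D : LevD} {N : NextD}

/-- the hypotheses of the step and the pieces used for the kinematics -/
structure Hy (D : LevD) (N : NextD) : Prop where
  hl : D.HL
  so : D.So N
  t1c : T1c
  t4 : T4
  t5 : T5
  t6 : T6

/-! ### Numbers -/

theorem Hy.h_big (y : Hy D N) : (10 : ℝ) ^ 200 ≤ D.h :=
  (pow_le_pow_left₀ (by norm_num) y.hl.toKin.toFlo.b_ge 200).trans y.hl.toKin.h_ge

theorem Hy.h_ten (y : Hy D N) : (10 : ℝ) ≤ D.h :=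
  le_trans (by norm_num : (10 : ℝ) ≤ 10 ^ 200) y.h_big

theorem Hy.h_pos (y : Hy D N) : 0 < D.h := by linarith [y.h_ten]

theorem Hy.b_le (y : Hy D N) : D.b ≤ D.h := by
  have h1 := y.hl.toKin.toFlo.b_ge
  have h2 : D.b ≤ D.b ^ 200 := le_self_pow₀ (by linarith) (by norm_num)
  linarith [y.hl.toKin.h_ge]

theorem Hy.bp_ge (y : Hy D N) : D.h ^ 600 ≤ N.bp := y.so.bp_ge

theorem Hy.pow_le (y : Hy D N) {k : ℕ} (hk : k ≤ 600) : D.h ^ k ≤ N.bp :=
  (pow_le_pow_right₀ (by linarith [y.h_ten]) hk).trans y.bp_ge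

theorem Hy.bp_ten (y : Hy D N) : (10 : ℝ) ≤ N.bp := by
  have := y.pow_le (k := 1) (by norm_num)
  rw [pow_one] at this
  linarith [y.h_ten]

theorem Hy.bp_pos (y : Hy D N) : 0 < N.bp := by linarith [y.bp_ten]

theorem Hy.bp_le_b (y : Hy D N) : N.bp ≤ N.b :=
  (le_self_pow₀ (by linarith [y.bp_ten]) (by norm_num)).trans y.so.b_ge

theorem Hy.b_le_H (y : Hy D N) : N.b ≤ N.h :=
  (le_self_pow₀ (by linarith [y.bp_ten, y.bp_le_b]) (by norm_num)).trans y.so.h_ge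

theorem Hy.pow_le_H (y : Hy D N) {k : ℕ} (hk : k ≤ 600) : D.h ^ k ≤ N.h :=
  (y.pow_le hk).trans (y.bp_le_b.trans y.b_le_H)

theorem Hy.H_ten (y : Hy D N) : (10 : ℝ) ≤ N.h := by
  linarith [y.bp_ten, y.bp_le_b, y.b_le_H]

theorem Hy.H_pos (y : Hy D N) : 0 < N.h := by linarith [y.H_ten]

theorem next_a (D : LevD) (N : NextD) : (D.next N).a = N.h ^ 24 := rfl

theorem Hy.a_pos (y : Hy D N) : 0 < (D.next N).a := by
  rw [next_a]
  exact pow_pos y.H_pos 24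

theorem Hy.k2_ge (y : Hy D N) : 10 ^ 12 ≤ D.k2 := by
  have h1 := y.so.k0_ge
  have h2 := y.so.k0k2
  have h3 : (10 : ℝ) ^ 8 ≤ N.k0 ^ 2 := by nlinarith
  linarith

theorem Hy.eta_nonneg (y : Hy D N) : 0 ≤ D.eta := by
  unfold eta
  have h1 := y.hl.toKin.toFlo.c_pos
  have h2 := y.hl.toKin.k0_pos
  have h3 := y.k2_ge
  have h4 := y.h_pos
  have h5 : 0 < D.k2 := by linarith
  have h6 := Real.sqrt_nonneg (D.c * D.k0)
  have : 0 ≤ 100 / (D.k0 ^ 2 * Real.sqrt (D.c * D.k0)) :=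
    div_nonneg (by norm_num) (mul_nonneg (by positivity) h6)
  positivity

theorem Hy.kap_ge (y : Hy D N) : 1 / 2 ≤ (D.next N).kap := by
  have h1 := (abs_le.1 (y.t5 D N y.hl y.so).1).1
  have h2 := y.so.kap_lo
  linarith

theorem Hy.kap_le (y : Hy D N) : (D.next N).kap ≤ 2 := by
  have h1 := (abs_le.1 (y.t5 D N y.hl y.so).1).2
  have h2 := y.so.kap_hi
  linarith

theorem Hy.ck_ge (y : Hy D N) : 98 / 100 ≤ (D.next N).c * D.k2 := by
  have h1 := (abs_le.1 (y.t5 D N y.hl y.so).2.1).1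
  have h2 := y.hl.toKin.eta_le
  linarith

theorem Hy.ck_le (y : Hy D N) : (D.next N).c * D.k2 ≤ 102 / 100 := by
  have h1 := (abs_le.1 (y.t5 D N y.hl y.so).2.1).2
  have h2 := y.hl.toKin.eta_le
  linarith

theorem Hy.c_ge (y : Hy D N) : 98 / 100 / D.h ≤ (D.next N).c := by
  have h1 := y.ck_ge
  have h2 := y.hl.toKin.k2_le
  have h3 : 0 < D.k2 := by linarith [y.k2_ge]
  have h4 := y.h_pos
  rw [div_le_iff₀ h4]
  have h5 : 0 < (D.next N).c := by
    by_contra hc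
    nlinarith
  nlinarith

theorem Hy.c_pos (y : Hy D N) : 0 < (D.next N).c :=
  lt_of_lt_of_le (div_pos (by norm_num) y.h_pos) y.c_ge

theorem Hy.c_le (y : Hy D N) : (D.next N).c ≤ 1 := by
  have h1 := y.ck_le
  have h3 := y.k2_ge
  have h5 := y.c_pos
  nlinarith

theorem Hy.sk_ge (y : Hy D N) : 9 / 10 * D.a ≤ (D.next N).s * D.k2 := by
  have h1 := (abs_le.1 (y.t5 D N y.hl y.so).2.2).1
  linarith

theorem Hy.sk_le (y : Hy D N) : (D.next N).s * D.k2 ≤ 11 / 10 * D.a := by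
  have h1 := (abs_le.1 (y.t5 D N y.hl y.so).2.2).2
  linarith

theorem Hy.s_ge (y : Hy D N) : 1 ≤ (D.next N).s := by
  have h1 := y.sk_ge
  have h2 := y.hl.toKin.k2_le
  have h3 : 0 < D.k2 := by linarith [y.k2_ge]
  have h4 := y.h_ten
  have h5 : D.h * 10 ^ 23 ≤ D.a := by
    unfold a
    rw [show D.h ^ 24 = D.h * D.h ^ 23 by ring]
    exact mul_le_mul_of_nonneg_left (pow_le_pow_left₀ (by norm_num) h4 23) (by linarith)
  by_contra hc
  push Not at hc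
  have h6 : (D.next N).s * D.k2 ≤ 1 * D.k2 := mul_le_mul_of_nonneg_right hc.le h3.le
  linarith

theorem Hy.s_le (y : Hy D N) : (D.next N).s ≤ D.h ^ 25 := by
  have h1 := y.sk_le
  have h3 := y.k2_ge
  have h4 := y.h_ten
  have h5 := y.s_ge
  have h6 : 11 / 10 * D.a ≤ D.h ^ 25 := by
    unfold a
    rw [show D.h ^ 25 = D.h * D.h ^ 24 by ring]
    have : 0 < D.h ^ 24 := by positivity
    nlinarith
  nlinarith

theorem Hy.N_k2_pos (y : Hy D N) : 0 < N.k2 := by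
  have h1 := y.so.k2k2
  have h2 := y.k2_ge
  linarith

/-! ### Times -/

theorem Hy.th_sq_pos (y : Hy D N) : 0 < (D.next N).k2 / ((D.next N).a * (D.next N).c *
    (D.next N).kap) := by
  have h1 := y.a_pos
  have h2 := y.c_pos
  have h3 := y.kap_ge
  have h4 : 0 < (D.next N).kap := by linarith
  have h5 : 0 < (D.next N).k2 := y.N_k2_pos
  positivity

theorem Hy.th_pos (y : Hy D N) : 0 < (D.next N).th := Real.sqrt_pos.2 y.th_sq_pos

theorem Hy.th_le (y : Hy D N) : (D.next N).th ≤ (D.h ^ 100)⁻¹ := by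
  have h1 := y.a_pos
  have h2 := y.c_pos
  have h3 := y.kap_ge
  have h4 : 0 < (D.next N).kap := by linarith
  have h5 : (D.next N).k2 ≤ N.h := y.so.k2_le
  have h6 := y.h_ten
  have h7 := y.H_ten
  have hH := y.H_pos
  have hh := y.h_pos
  unfold th
  apply Real.sqrt_le_iff.2
  refine ⟨by positivity, ?_⟩
  rw [div_le_iff₀ (by positivity)]
  have h8 := y.pow_le_H (k := 300) (by norm_num)
  have h9 : 98 / 100 ≤ (D.next N).c * D.h := by
    have := y.c_ge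
    rwa [div_le_iff₀ hh] at this
  have h10 : D.h ^ 201 * 4 ≤ N.h := by
    have : D.h ^ 201 * 4 ≤ D.h ^ 201 * D.h ^ 99 := by
      apply mul_le_mul_of_nonneg_left _ (by positivity)
      have : D.h ≤ D.h ^ 99 := le_self_pow₀ (by linarith) (by norm_num)
      linarith
    have h11 : D.h ^ 201 * D.h ^ 99 = D.h ^ 300 := by ring
    linarith
  rw [next_a]
  have h12 : N.h ≤ (D.h ^ 200)⁻¹ * (N.h ^ 24 * (D.next N).c * (D.next N).kap) := by
    rw [inv_mul_eq_div, le_div_iff₀ (by positivity)]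
    have h13 : 49 / 100 ≤ (D.next N).c * D.h * (D.next N).kap := by nlinarith
    have h14 : N.h ^ 2 ≤ N.h ^ 24 := pow_le_pow_right₀ (by linarith) (by norm_num)
    have h15 : N.h * D.h ^ 200 * D.h ≤ N.h ^ 24 * ((D.next N).c * D.h * (D.next N).kap) := by
      calc N.h * D.h ^ 200 * D.h = N.h * D.h ^ 201 := by ring
        _ ≤ N.h * (N.h / 4) := by
          apply mul_le_mul_of_nonneg_left _ hH.le
          linarith
        _ ≤ N.h ^ 24 * (49 / 100) := by nlinarith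
        _ ≤ _ := mul_le_mul_of_nonneg_left h13 (by positivity)
    have h16 : N.h * D.h ^ 200 * D.h ≤ (N.h ^ 24 * (D.next N).c * (D.next N).kap) * D.h := by
      linarith
    exact le_of_mul_le_mul_right h16 hh
  calc (D.next N).k2 ≤ N.h := h5
    _ ≤ _ := h12
    _ = _ := by ring

theorem Hy.D_th_ge (y : Hy D N) : (D.h ^ 13)⁻¹ ≤ D.th := by
  have hk := y.hl.toKin
  have h1 := hk.toFlo.a_pos
  have h2 := hk.toFlo.c_pos
  have h3 := hk.toFlo.kap_pos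
  have h4 := hk.toFlo.kap_le
  have h5 := hk.toFlo.c_le
  have h6 := y.k2_ge
  have hh := y.h_ten
  have hh0 := y.h_pos
  apply Real.le_sqrt_of_sq_le
  rw [le_div_iff₀ (by positivity)]
  unfold a
  have h7 : D.c * D.kap ≤ 2 := by nlinarith
  have h8 : ((D.h ^ 13)⁻¹) ^ 2 * (D.h ^ 24 * D.c * D.kap) = (D.c * D.kap) / D.h ^ 2 := by
    field_simp
  rw [h8, div_le_iff₀ (by positivity)]
  nlinarith

theorem Hy.t1_pos (y : Hy D N) : 0 < D.t1 := by
  have h1 := y.hl.toKin.toFlo.t0_pos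
  have h2 := y.D_th_ge
  have h3 : 0 < (D.h ^ 13)⁻¹ := by have := y.h_pos; positivity
  unfold t1
  linarith

theorem Hy.t0_lt_t1 (y : Hy D N) : D.t0 < D.t1 := by
  have h2 := y.D_th_ge
  have h3 : 0 < (D.h ^ 13)⁻¹ := by have := y.h_pos; positivity
  unfold t1
  linarith

theorem Hy.t1_lt_T (y : Hy D N) : D.t1 < D.T := by
  have h2 := y.D_th_ge
  have h3 : 0 < (D.h ^ 13)⁻¹ := by have := y.h_pos; positivity
  rw [y.hl.toKin.T_eq]
  unfold t1
  linarith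

theorem Hy.t1_mem (y : Hy D N) : D.t1 ∈ Icc 0 D.T := ⟨y.t1_pos.le, y.t1_lt_T.le⟩

theorem next_T (D : LevD) (N : NextD) :
    (D.next N).T = D.t1 + 1001 / 1000 * (D.next N).th := rfl

theorem next_t0 (D : LevD) (N : NextD) : (D.next N).t0 = D.t1 := rfl

/-- the times of the next level are at most `T` -/
theorem Hy.T_le (y : Hy D N) : (D.next N).T ≤ D.T := by
  rw [next_T, y.hl.toKin.T_eq]
  have h1 := y.th_le
  have h2 := y.D_th_ge
  have hh := y.h_ten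
  have hh0 := y.h_pos
  have h3 : 10010 * (D.h ^ 100)⁻¹ ≤ (D.h ^ 13)⁻¹ := by
    rw [← div_eq_mul_inv, div_le_iff₀ (by positivity), inv_mul_eq_div,
      le_div_iff₀ (by positivity)]
    calc (10010 : ℝ) * D.h ^ 13 ≤ 10 ^ 5 * D.h ^ 13 := by
          apply mul_le_mul_of_nonneg_right (by norm_num) (by positivity)
      _ ≤ D.h ^ 87 * D.h ^ 13 := by
          apply mul_le_mul_of_nonneg_right _ (by positivity)
          calc (10 : ℝ) ^ 5 ≤ D.h ^ 5 := pow_le_pow_left₀ (by norm_num) hh 5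
            _ ≤ D.h ^ 87 := pow_le_pow_right₀ (by linarith) (by norm_num)
      _ = D.h ^ 100 := by ring
  unfold t1
  have h4 : 0 < (D.h ^ 100)⁻¹ := by positivity
  linarith

theorem Hy.sub (y : Hy D N) {t : ℝ} (ht : t ∈ Icc 0 (D.next N).T) : t ∈ Icc 0 D.T :=
  ⟨ht.1, ht.2.trans y.T_le⟩

/-! ### The flow -/

theorem Hy.inv30 (y : Hy D N) : (N.bp ^ 30)⁻¹ ≤ 1 := by
  apply inv_le_one_of_one_le₀
  exact one_le_pow₀ (by linarith [y.bp_ten])

theorem Hy.one_mem : (1 : ℝ) ∈ Icc (-1 : ℝ) 1 := by constructor <;> norm_num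

theorem Hy.h26 (y : Hy D N) : D.h ^ 26 + 1 ≤ D.h ^ 27 := by
  have h1 := y.h_ten
  have h2 : 1 ≤ D.h ^ 26 := one_le_pow₀ (by linarith)
  have h3 : D.h ^ 27 = D.h ^ 26 * D.h := by ring
  nlinarith

theorem Hy.F_le (y : Hy D N) {t : ℝ} (ht : t ∈ Icc 0 D.T) : ‖N.F t‖ ≤ D.h ^ 27 := by
  have h1 := (y.t1c D y.hl 1 Hy.one_mem t ht).2.1
  have h2 := y.so.F_near t ht
  have h3 := y.inv30
  have h4 : ‖N.F t‖ ≤ ‖D.F1 1 t‖ + ‖N.F t - D.F1 1 t‖ := norm_le_norm_add_norm_sub' _ _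
  linarith [y.h26]

theorem Hy.Fi_le (y : Hy D N) {t : ℝ} (ht : t ∈ Icc 0 D.T) : ‖N.Fi t‖ ≤ D.h ^ 27 := by
  have h1 := (y.t1c D y.hl 1 Hy.one_mem t ht).2.2.1
  have h2 := y.so.Fi_near t ht
  have h3 := y.inv30
  have h4 : ‖N.Fi t‖ ≤ ‖D.Fi1 1 t‖ + ‖N.Fi t - D.Fi1 1 t‖ := norm_le_norm_add_norm_sub' _ _
  linarith [y.h26]

theorem Hy.Fi_zero (y : Hy D N) : N.Fi 0 = ContinuousLinearMap.id ℝ E3 := by
  have h := y.so.FiF 0
  rw [y.so.F_zero] at h
  simpa using h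

theorem D_Fi_zero (h : D.HL) : D.Fi 0 = ContinuousLinearMap.id ℝ E3 := by
  have h1 := h.toKin.toFlo.FiF 0
  rw [h.toKin.toFlo.F_zero] at h1
  simpa using h1

theorem Hy.k_ne (y : Hy D N) (t : ℝ) : N.k t ≠ 0 := by
  intro h0
  apply y.so.K_ne
  have h1 : adjoint (N.F t) (N.k t) = N.K := by
    unfold NextD.k
    rw [← adj_comp, y.so.FiF, adj_id]
  rw [← h1, h0, map_zero]

theorem l_v0 (h : D.HL) : ⟪D.l, D.v 0⟫ = 0 := by
  have h1 := h.toKin.toFlo.v_orth 0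
  rw [n, D_Fi_zero h, adj_id] at h1
  exact h1

theorem Hy.v0_pos (y : Hy D N) : 0 < ‖D.v 0‖ :=
  (y.t1c D y.hl 1 Hy.one_mem 0 ⟨le_refl _, y.hl.toKin.toFlo.T_pos.le⟩).2.2.2.2.2.2.2.2.2.2.2

theorem Hy.V0_ne (y : Hy D N) : N.V 0 ≠ 0 := by
  intro h0
  have h1 : ⟪D.v 0, N.V 0⟫ = ‖D.v 0‖ ^ 2 := by
    rw [y.so.V_zero, seed, inner_sub_right, inner_smul_right, real_inner_comm D.l (D.v 0),
      l_v0 y.hl, mul_zero, sub_zero, real_inner_self_eq_norm_sq]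
  rw [h0, inner_zero_right] at h1
  have h2 := y.v0_pos
  nlinarith

theorem Hy.alp_pos (y : Hy D N) {t : ℝ} (ht : t ∈ Icc 0 D.T) : 0 < D.alp t :=
  (y.t6 D y.hl).1 t ht

theorem Hy.alp_mono (y : Hy D N) : MonotoneOn D.alp (Icc 0 D.T) := (y.t6 D y.hl).2.1

theorem Hy.zero_mem (y : Hy D N) : (0 : ℝ) ∈ Icc 0 D.T := ⟨le_refl _, y.hl.toKin.toFlo.T_pos.le⟩

theorem Hy.V1_ne (y : Hy D N) : N.V D.t1 ≠ 0 := by
  intro h0
  have h1 := ((y.t4 D N y.hl y.so).2 0 y.zero_mem D.t1 y.t1_mem).1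
  rw [h0, norm_zero, mul_zero] at h1
  have h2 := y.alp_pos y.t1_mem
  have h3 := y.alp_pos y.zero_mem
  have h4 : 0 < ‖N.V 0‖ := norm_pos_iff.2 y.V0_ne
  have : 0 < D.alp D.t1 / D.alp 0 * ‖N.V 0‖ := by positivity
  linarith

theorem Hy.V1_pos (y : Hy D N) : 0 < ‖N.V D.t1‖ := norm_pos_iff.2 y.V1_ne

theorem Hy.K_l_ne (y : Hy D N) : ⟪N.K, D.l⟫ ≠ 0 := by
  intro h0
  obtain ⟨_, _, _, _, _, _, hK, _, hKl, _⟩ := y.t1c D y.hl 1 Hy.one_mem 0 y.zero_mem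
  have h1 := y.so.K_near
  have hh := y.h_ten
  have hh0 := y.h_pos
  have hKn : 0 < ‖D.Kn‖ := by
    rw [norm_pos_iff]
    intro h
    rw [h, inner_zero_left, mul_zero] at hKl
    linarith
  have h2 : ⟪(‖D.Kn‖)⁻¹ • D.Kn - (‖N.K‖)⁻¹ • N.K, D.l⟫ = (‖D.Kn‖)⁻¹ * ⟪D.Kn, D.l⟫ := by
    rw [inner_sub_left, real_inner_smul_left, real_inner_smul_left, h0, mul_zero, sub_zero]
  have h3 := real_inner_le_norm ((‖D.Kn‖)⁻¹ • D.Kn - (‖N.K‖)⁻¹ • N.K) D.l
  rw [h2, norm_sub_rev] at h3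
  have h4 : ‖D.l‖ ≤ D.h := y.hl.toKin.toFlo.l_le.trans y.b_le
  have h5 : ‖(‖N.K‖)⁻¹ • N.K - (‖D.Kn‖)⁻¹ • D.Kn‖ * ‖D.l‖ ≤ (N.bp ^ 30)⁻¹ * D.h :=
    mul_le_mul h1 h4 (norm_nonneg _) (by have := y.bp_pos; positivity)
  have h6 : (D.h ^ 27)⁻¹ ≤ (‖D.Kn‖)⁻¹ * ⟪D.Kn, D.l⟫ := by
    have h7 : (D.h)⁻¹ ≤ ⟪D.Kn, D.l⟫ := by
      rw [inv_eq_one_div, div_le_iff₀ hh0]
      linarith
    have h8 : (D.h ^ 26)⁻¹ ≤ (‖D.Kn‖)⁻¹ := inv_anti₀ hKn hK
    calc (D.h ^ 27)⁻¹ = (D.h ^ 26)⁻¹ * (D.h)⁻¹ := by rw [← mul_inv]; ring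
      _ ≤ _ := mul_le_mul h8 h7 (by positivity) (by positivity)
  have h9 : (N.bp ^ 30)⁻¹ * D.h < (D.h ^ 27)⁻¹ := by
    have hb : D.h ^ 29 ≤ N.bp ^ 30 := by
      have := y.pow_le (k := 29) (by norm_num)
      exact this.trans (le_self_pow₀ (by linarith [y.bp_ten]) (by norm_num))
    have h10 : (N.bp ^ 30)⁻¹ ≤ (D.h ^ 29)⁻¹ := inv_anti₀ (by positivity) hb
    have h11 : (D.h ^ 29)⁻¹ * D.h < (D.h ^ 27)⁻¹ := by
      rw [inv_mul_eq_div, div_lt_iff₀ (by positivity), inv_mul_eq_div, lt_div_iff₀ (by positivity)]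
      have : 0 < D.h ^ 28 := by positivity
      nlinarith [show D.h ^ 29 = D.h ^ 28 * D.h by ring, show D.h * D.h ^ 27 = D.h ^ 28 by ring]
    nlinarith
  linarith

theorem Hy.K_V0 (y : Hy D N) : ⟪N.K, N.V 0⟫ = 0 := by
  have h := y.K_l_ne
  rw [y.so.V_zero, seed, inner_sub_right, inner_smul_right, div_mul_cancel₀ _ h, sub_self]

theorem Hy.Fi_der (y : Hy D N) (t : ℝ) : HasDerivAt N.Fi (-((N.Fi t).comp (N.A t))) t := by
  let u : (E3 →L[ℝ] E3)ˣ := ⟨N.F t, N.Fi t, y.so.FFi t, y.so.FiF t⟩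
  have h1 : HasFDerivAt Ring.inverse _ (N.F t) := hasFDerivAt_ringInverse (𝕜 := ℝ) u
  have h2 := h1.comp_hasDerivAt t (y.so.F_der t)
  have h3 : (Ring.inverse ∘ N.F) = N.Fi := by
    funext s
    let us : (E3 →L[ℝ] E3)ˣ := ⟨N.F s, N.Fi s, y.so.FFi s, y.so.FiF s⟩
    exact Ring.inverse_unit us
  rw [h3] at h2
  refine h2.congr_deriv ?_
  show -((N.Fi t).comp (((N.A t).comp (N.F t)).comp (N.Fi t))) = _
  ext1 x
  have h4 : ∀ z, N.F t (N.Fi t z) = z := fun z => congrArg (fun L : Op => L z) (y.so.FFi t)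
  simp [h4]

theorem Hy.k_der (y : Hy D N) (t : ℝ) : HasDerivAt N.k (-(adjoint (N.A t) (N.k t))) t := by
  have h1 : HasDerivAt (fun t => adR (N.Fi t)) (adR (-((N.Fi t).comp (N.A t)))) t :=
    adR.hasFDerivAt.comp_hasDerivAt t (y.Fi_der t)
  have h2 := h1.clm_apply (hasDerivAt_const t N.K)
  refine h2.congr_deriv ?_
  simp only [adR_apply, map_neg, map_zero, add_zero, neg_apply]
  rw [adj_comp]
  rfl

theorem Hy.k_V (y : Hy D N) (t : ℝ) : ⟪N.k t, N.V t⟫ = 0 := by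
  have hd : ∀ r, HasDerivAt (fun r => ⟪N.k r, N.V r⟫) 0 r := by
    intro r
    refine ((y.k_der r).inner ℝ (y.so.V_der r)).congr_deriv ?_
    rw [inner_kel _ (y.k_ne r), inner_neg_left, ContinuousLinearMap.adjoint_inner_left]
    ring
  have hc : ⟪N.k t, N.V t⟫ = ⟪N.k 0, N.V 0⟫ :=
    is_const_of_deriv_eq_zero (f := fun r => ⟪N.k r, N.V r⟫)
    (fun r => (hd r).differentiableAt) (fun r => (hd r).deriv) t 0
  rw [hc, NextD.k, y.Fi_zero, adj_id, y.K_V0]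

theorem kel_smul (M : Op) {c : ℝ} (hc : c ≠ 0) (k : E3) : kel M (c • k) = kel M k := by
  ext1 x
  rw [kel_apply, kel_apply, norm_smul, inner_smul_left, smul_smul]
  congr 2
  rcases eq_or_ne k 0 with rfl | hk
  · simp
  have : ‖k‖ ≠ 0 := norm_ne_zero_iff.2 hk
  rw [mul_pow, Real.norm_eq_abs, sq_abs]
  simp only [conj_trivial]
  field_simp

theorem next_n (D : LevD) (N : NextD) (t : ℝ) : (D.next N).n t = (‖N.k D.t1‖)⁻¹ • N.k t := by
  show adjoint (N.Fi t) ((‖N.k D.t1‖)⁻¹ • N.K) = _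
  rw [map_smul]
  rfl

theorem next_v (D : LevD) (N : NextD) (t : ℝ) :
    (D.next N).v t = (N.h ^ 24 / ‖N.V D.t1‖) • N.V t := rfl

theorem Hy.k1_pos (y : Hy D N) : 0 < ‖N.k D.t1‖ := norm_pos_iff.2 (y.k_ne _)

/-! ### The kinematics -/

theorem Hy.flo (y : Hy D N) : (D.next N).Flo N.bp where
  b_ge := y.bp_ten
  h_pos := y.H_pos
  A_tr := y.so.A_tr
  A_le t := (y.so.A_le t).trans (y.pow_le (by norm_num))
  A_lip := y.so.A_lip
  F_der := y.so.F_der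
  F_zero := y.so.F_zero
  FFi := y.so.FFi
  FiF := y.so.FiF
  F_le t ht := ⟨(y.F_le (y.sub ht)).trans (y.pow_le (by norm_num)),
    (y.Fi_le (y.sub ht)).trans (y.pow_le (by norm_num))⟩
  VL t ht := y.so.VL t (y.sub ht)
  v_der t := by
    have h1 := (y.so.V_der t).const_smul (N.h ^ 24 / ‖N.V D.t1‖)
    refine h1.congr_deriv ?_
    rw [next_n, kel_smul _ (inv_ne_zero y.k1_pos.ne'), next_v, map_smul]
    rfl
  v_orth t := by
    rw [next_n, next_v, inner_smul_left, inner_smul_right, y.k_V]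
    simp
  n_one := by
    have := y.k1_pos
    rw [next_n, next_t0, norm_smul, norm_inv, norm_norm]
    field_simp
  v_a := by
    have h1 := y.V1_pos
    have h2 := y.H_pos
    rw [next_v, next_t0, norm_smul, next_a, Real.norm_eq_abs, abs_of_pos (by positivity)]
    field_simp
  kap_ge := y.kap_ge
  kap_le := y.kap_le
  c_ge := by
    refine le_trans ?_ y.c_ge
    have h1 := y.h_pos
    have h2 := y.bp_pos
    have h3 := y.pow_le (k := 2) (by norm_num)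
    have h4 := y.h_ten
    rw [div_le_div_iff₀ h2 h1]
    nlinarith
  c_le := y.c_le
  s_ge := by
    refine le_trans ?_ y.s_ge
    rw [div_le_one y.bp_pos]
    linarith [y.bp_ten]
  s_le := y.s_le.trans (y.pow_le (by norm_num))
  t0_pos := y.t1_pos
  t0_lt := by
    rw [next_T, next_t0]
    linarith [y.th_pos]
  T_one := y.T_le.trans y.hl.toKin.toFlo.T_one

theorem Flo_mono {b' b'' : ℝ} (h : D.Flo b') (hb : b' ≤ b'') : D.Flo b'' where
  b_ge := h.b_ge.trans hb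
  h_pos := h.h_pos
  A_tr := h.A_tr
  A_le t := (h.A_le t).trans hb
  A_lip t t' := (h.A_lip t t').trans (mul_le_mul_of_nonneg_right hb (abs_nonneg _))
  F_der := h.F_der
  F_zero := h.F_zero
  FFi := h.FFi
  FiF := h.FiF
  F_le t ht := ⟨(h.F_le t ht).1.trans hb, (h.F_le t ht).2.trans hb⟩
  VL := h.VL
  v_der := h.v_der
  v_orth := h.v_orth
  n_one := h.n_one
  v_a := h.v_a
  kap_ge := h.kap_ge
  kap_le := h.kap_le
  c_ge := (one_div_le_one_div_of_le h.b0 hb).trans h.c_ge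
  c_le := h.c_le
  s_ge := (one_div_le_one_div_of_le h.b0 hb).trans h.s_ge
  s_le := h.s_le.trans hb
  t0_pos := h.t0_pos
  t0_lt := h.t0_lt
  T_one := h.T_one

/-- size of the new wave -/
theorem Hy.V_le (y : Hy D N) {t : ℝ} (ht : t ∈ Icc 0 (D.next N).T) :
    ‖N.V t‖ ≤ 3 * D.h ^ 101 * ‖N.V D.t1‖ := by
  have ht' := y.sub ht
  have h4 := (y.t4 D N y.hl y.so).2
  have h1 := y.V1_pos
  have hh := y.h_pos
  rcases le_total t D.t1 with h | h
  · have h2 := (h4 t ht' D.t1 ⟨h, y.t1_mem.2⟩).1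
    have h3 : 1 ≤ D.alp D.t1 / D.alp t := by
      rw [le_div_iff₀ (y.alp_pos ht'), one_mul]
      exact y.alp_mono ht' y.t1_mem h
    have h5 : ‖N.V t‖ ≤ D.alp D.t1 / D.alp t * ‖N.V t‖ := le_mul_of_one_le_left (norm_nonneg _) h3
    have h6 : 0 ≤ D.h ^ 101 * ‖N.V D.t1‖ := by positivity
    linarith
  · have h2 := (h4 D.t1 y.t1_mem t ⟨h, ht'.2⟩).2
    have h3 := (y.t6 D y.hl).2.2.1 D.t1 y.t1_mem t ⟨h, ht'.2⟩
    have h5 : D.alp t / D.alp D.t1 ≤ 3 := by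
      rw [div_le_iff₀ (y.alp_pos y.t1_mem)]
      have h6 : D.h ^ 13 * (t - D.t1) ≤ 1 := by
        have h7 : t - D.t1 ≤ 1001 / 1000 * (D.next N).th := by
          have := ht.2
          rw [next_T] at this
          linarith
        have h8 := y.th_le
        have h9 : D.h ^ 13 * (2 * (D.h ^ 100)⁻¹) ≤ 1 := by
          rw [← mul_assoc, ← div_eq_mul_inv, div_le_one (by positivity)]
          have h10 : D.h ^ 100 = D.h ^ 13 * D.h ^ 87 := by ring
          have h11 : D.h ≤ D.h ^ 87 := le_self_pow₀ (by linarith [y.h_ten]) (by norm_num)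
          have h12 := y.h_ten
          rw [h10]
          exact mul_le_mul_of_nonneg_left (by linarith) (by positivity)
        have h13 : 0 < (D.h ^ 100)⁻¹ := by positivity
        have h14 : t - D.t1 ≤ 2 * (D.h ^ 100)⁻¹ := by linarith
        have := mul_le_mul_of_nonneg_left h14 (by positivity : 0 ≤ D.h ^ 13)
        linarith
      have h7 : Real.exp (D.h ^ 13 * (t - D.t1)) ≤ 3 := by
        refine (Real.exp_le_exp.2 h6).trans ?_
        have := Real.exp_one_lt_d9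
        linarith
      have h8 := y.alp_pos y.t1_mem
      nlinarith
    calc ‖N.V t‖ ≤ D.h ^ 101 * (D.alp t / D.alp D.t1) * ‖N.V D.t1‖ := h2
      _ ≤ D.h ^ 101 * 3 * ‖N.V D.t1‖ := by gcongr
      _ = _ := by ring

theorem Hy.v_le (y : Hy D N) {t : ℝ} (ht : t ∈ Icc 0 (D.next N).T) :
    ‖(D.next N).v t‖ ≤ N.bp * (D.next N).a := by
  have h1 := y.V_le ht
  have h2 := y.V1_pos
  have h3 := y.H_pos
  have h4 : 3 * D.h ^ 101 ≤ N.bp := by
    have h5 := y.pow_le (k := 102) (by norm_num)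
    have h6 : D.h ^ 102 = D.h * D.h ^ 101 := by ring
    have h7 : 0 < D.h ^ 101 := by have := y.h_pos; positivity
    nlinarith [y.h_ten]
  rw [next_v, norm_smul, next_a, Real.norm_eq_abs, abs_of_pos (by positivity)]
  calc N.h ^ 24 / ‖N.V D.t1‖ * ‖N.V t‖ ≤ N.h ^ 24 / ‖N.V D.t1‖ * (3 * D.h ^ 101 * ‖N.V D.t1‖) := by
        gcongr
    _ = N.h ^ 24 * (3 * D.h ^ 101) := by field_simp
    _ ≤ N.h ^ 24 * N.bp := by gcongr
    _ = _ := by ring

end Nx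

end LevD

end Pool.Agent.Work.MP_b0497c_an.Unf.O
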