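import Pool.Agent.Work.MP_b0497c_an.Bd.B44
import Pool.Agent.Work.MP_b0497c_an.Unf.OT5

set_option autoImplicit false

/-!
# THEOREM O from T1c and CL
-/

namespace Pool.Agent.Work.MP_b0497c_an.Unf.O.LevD

/-- THEOREM O from T1c and CL. -/
theorem thmO' (h1c : T1c) (hcl : CL) : ThmO :=
  thmO_of h1c hcl (t5of h1c (t2 h1c) (t3 h1c stK1 o4) hcl)

end Pool.Agent.Work.MP_b0497c_an.Unf.O.LevD
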