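import Pool.Agent.Work.MP_b0497c_an.Unf.PDefs

set_option autoImplicit false

/-!
# Block P: general domination lemmas, parameter part of `Dat.Hyp`
-/

open Filter

namespace Pool.Agent.Work.MP_b0497c_an.Unf.P

/-- Shifted versions of the two principles. -/
theorem ev_ell_add {p : ℝ → Prop} (s : ℕ) (h : ∀ᶠ y in atTop, p y) :
    ∀ᶠ x in atTop, ∀ n, p (ell x (n + s)) := by
  filter_upwards [ev_ell h] with x hx n using hx (n + s)

/-- `C (n+1)^k ell^j ≤ c ell^J` for `j + 1 ≤ J` … every power of `n` costs nothing. -/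
theorem dom (C c : ℝ) (hc : 0 < c) (k j J s : ℕ) (hJ : j + 1 ≤ J) :
    ∀ᶠ x in atTop, ∀ n : ℕ,
      C * ((n : ℝ) + 1) ^ k * ell x (n + s) ^ j ≤ c * ell x (n + s) ^ J := by
  filter_upwards [ev_nat (|C| / c) k, eventually_ge_atTop 1] with x h1 hx n
  have h2 := h1 n
  have h3 : ell x n ≤ ell x (n + s) := ell_mono hx (Nat.le_add_right _ _)
  have h4 := one_le_ell hx (n + s)
  have h5 : |C| * ((n : ℝ) + 1) ^ k ≤ c * ell x (n + s) := by
    have := h2.trans h3
    rw [div_mul_eq_mul_div, div_le_iff₀ hc] at this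
    linarith
  calc C * ((n : ℝ) + 1) ^ k * ell x (n + s) ^ j
      ≤ |C| * ((n : ℝ) + 1) ^ k * ell x (n + s) ^ j := by gcongr; exact le_abs_self C
    _ ≤ c * ell x (n + s) * ell x (n + s) ^ j := by gcongr
    _ = c * ell x (n + s) ^ (j + 1) := by rw [pow_succ]; ring
    _ ≤ c * ell x (n + s) ^ J := by gcongr

/-- `C (n+1)^k ell^j ≤ c exp (δ ell)`. -/
theorem dom_exp (C c δ : ℝ) (hc : 0 < c) (hδ : 0 < δ) (k j s : ℕ) :
    ∀ᶠ x in atTop, ∀ n : ℕ,
      C * ((n : ℝ) + 1) ^ k * ell x (n + s) ^ j ≤ c * Real.exp (δ * ell x (n + s)) := by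
  have h0 : ∀ᶠ y : ℝ in atTop, y ^ (j + 1) ≤ Real.exp (δ * y) := by
    have h1 : Tendsto (fun y : ℝ => y ^ (j + 1) / Real.exp (δ * y)) atTop (nhds 0) := by
      have := Real.tendsto_pow_mul_exp_neg_atTop_nhds_zero (j + 1)
      have h2 : Tendsto (fun y : ℝ => δ * y) atTop atTop := tendsto_id.const_mul_atTop hδ
      have h3 := (this.comp h2).const_mul (δ⁻¹ ^ (j + 1))
      rw [mul_zero] at h3
      refine h3.congr fun y => ?_
      simp only [Function.comp_apply]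
      rw [mul_pow, Real.exp_neg, ← mul_assoc, ← mul_assoc, ← mul_pow, inv_mul_cancel₀ hδ.ne',
        one_pow, one_mul, div_eq_mul_inv]
    filter_upwards [h1.eventually_le_const (by norm_num : (0 : ℝ) < 1)] with y hy
    rwa [div_le_one (Real.exp_pos _)] at hy
  filter_upwards [dom C c hc k j (j + 1) s le_rfl, ev_ell_add s h0] with x h1 h2 n
  refine (h1 n).trans ?_
  gcongr
  exact h2 n

theorem Lr_pos (x : ℝ) (n : ℕ) : 0 < Lr x n := Real.exp_pos _

theorem ell_le_Lr (x : ℝ) (n : ℕ) : ell x n ≤ Lr x n := by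
  have := Real.add_one_le_exp (ell x n)
  rw [Lr]; linarith

theorem one_le_Lr {x : ℝ} (hx : 1 ≤ x) (n : ℕ) : 1 ≤ Lr x n :=
  (one_le_ell hx n).trans (ell_le_Lr x n)

theorem Lr_mono {x : ℝ} (hx : 1 ≤ x) {m n : ℕ} (h : m ≤ n) : Lr x m ≤ Lr x n :=
  Real.exp_le_exp.2 (ell_mono hx h)

theorem log_Lr (x : ℝ) (n : ℕ) : Real.log (Lr x n) = ell x n := Real.log_exp _

/-- `L_{n+1}` beats every multiple and power of `L_n`. -/
theorem Lr_succ (C : ℝ) (k j s : ℕ) : ∀ᶠ x in atTop, ∀ n : ℕ,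
    C * ((n : ℝ) + 1) ^ k * Lr x (n + s) ^ j ≤ Lr x (n + s + 1) := by
  filter_upwards [dom_exp C 1 1 one_pos one_pos k 0 s,
    dom (j + 1) 1 one_pos 0 1 2 s (by norm_num)] with x h1 h2 n
  have h3 := h1 n
  have h4 := h2 n
  rw [pow_zero, mul_one, one_mul, one_mul] at h3
  rw [pow_zero, mul_one, pow_one, one_mul] at h4
  calc C * ((n : ℝ) + 1) ^ k * Lr x (n + s) ^ j
      ≤ Real.exp (ell x (n + s)) * Lr x (n + s) ^ j := by
        gcongr; exact pow_nonneg (Lr_pos _ _).le _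
    _ = Real.exp (((j : ℝ) + 1) * ell x (n + s)) := by
        rw [Lr, ← Real.exp_nat_mul, ← Real.exp_add]; ring_nf
    _ ≤ Real.exp (ell x (n + s) ^ 2) := Real.exp_le_exp.2 h4
    _ = Lr x (n + s + 1) := by rw [Lr, ell_succ]

/-- `C (n+1)^k ell_{n+s+r}^j ≤ c L_{n+s}`: polynomials in later logarithms are small. -/
theorem ell_Lr (C c : ℝ) (hc : 0 < c) (k j s r : ℕ) : ∀ᶠ x in atTop, ∀ n : ℕ,
    C * ((n : ℝ) + 1) ^ k * ell x (n + s + r) ^ j ≤ c * Lr x (n + s) := by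
  filter_upwards [dom_exp C c 1 hc one_pos k (2 ^ r * j) s] with x h n
  rw [ell_add x (n + s) r, ← pow_mul, Lr]
  simpa using h n

/-! ### The sequence `N_j` -/

/-- Admissible moduli of the wave vectors (`K_0 = (1,-3,-2)`). -/
structure NN (x : ℝ) (N : ℕ → ℝ) : Prop where
  zero : N 0 = Real.sqrt 14
  low : ∀ j, 1 ≤ j → Real.exp (Lr x j) / 2 ≤ N j
  upp : ∀ j, 1 ≤ j → N j ≤ 2 * Real.exp (Lr x j)

theorem uNew_pos (x : ℝ) (j : ℕ) : 0 < uNew x j := Real.exp_pos _
theorem uOld_pos (x : ℝ) (j : ℕ) : 0 < uOld x j := Real.exp_pos _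
theorem uu_pos (x : ℝ) (n j : ℕ) : 0 < uu x n j := by
  unfold uu; split_ifs
  exacts [uNew_pos x j, uOld_pos x j]

theorem uNew_lt (x : ℝ) (j : ℕ) : uNew x j < 1 := by
  rw [uNew, Real.exp_lt_one_iff]
  have := Lr_pos x j
  linarith [div_pos this (by norm_num : (0:ℝ) < 1024)]

theorem uOld_lt (x : ℝ) (j : ℕ) : uOld x j < 1 := by
  rw [uOld, Real.exp_lt_one_iff]
  have := Lr_pos x j
  linarith [div_pos this (by norm_num : (0:ℝ) < 8192)]

theorem uu_lt (x : ℝ) (n j : ℕ) : uu x n j < 1 := by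
  unfold uu; split_ifs
  exacts [uNew_lt x j, uOld_lt x j]

/-- `u_new^(1/8) = u_old`: the bookkeeping after the step. -/
theorem uNew_eq (x : ℝ) (j : ℕ) : uNew x j = uOld x j ^ 8 := by
  rw [uNew, uOld, ← Real.exp_nat_mul]
  congr 1
  push_cast
  ring

theorem uNew_le_uOld (x : ℝ) (j : ℕ) : uNew x j ≤ uOld x j := by
  rw [uNew_eq]
  calc uOld x j ^ 8 ≤ uOld x j ^ 1 :=
        pow_le_pow_of_le_one (uOld_pos x j).le (uOld_lt x j).le (by norm_num)
    _ = uOld x j := pow_one _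

theorem uNew_pow (x : ℝ) (j : ℕ) : uNew x j ^ 512 = Real.exp (-(Lr x j) / 2) := by
  rw [uNew, ← Real.exp_nat_mul]
  congr 1
  push_cast
  ring

/-- Separation of the scales: `4 N_j ≤ N_{j+1}`, `N_j ≥ 1`, `N_j / N_{j+1} ≤ exp (-L_{j+1}/2)`. -/
theorem ev_NN : ∀ᶠ x in atTop, ∀ N : ℕ → ℝ, NN x N →
    (∀ j, 1 ≤ N j) ∧ (∀ j, 4 * N j ≤ N (j + 1)) ∧
    (∀ j, N j / N (j + 1) ≤ Real.exp (-(Lr x (j + 1)) / 2)) := by
  filter_upwards [Lr_succ 8 0 1 0, eventually_ge_atTop 1] with x h1 hx N hN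
  have hL : ∀ j, 8 * Lr x j ≤ Lr x (j + 1) := fun j => by simpa using h1 j
  have hL1 : ∀ j, 1 ≤ Lr x j := fun j => one_le_Lr hx j
  have h14 : 1 ≤ Real.sqrt 14 ∧ Real.sqrt 14 ≤ 4 :=
    ⟨Real.le_sqrt_of_sq_le (by norm_num), Real.sqrt_le_iff.2 ⟨by norm_num, by norm_num⟩⟩
  have hge : ∀ j, 1 ≤ N j := by
    intro j
    rcases Nat.eq_zero_or_pos j with rfl | hj
    · rw [hN.zero]; exact h14.1
    · have := hN.low j hj
      have h2 := Real.add_one_le_exp (Lr x j)
      have h3 := hL1 j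
      linarith
  have hup : ∀ j, N j ≤ 2 * Real.exp (Lr x j) := by
    intro j
    rcases Nat.eq_zero_or_pos j with rfl | hj
    · rw [hN.zero]
      have h2 := Real.add_one_le_exp (Lr x 0)
      have h3 := hL1 0
      linarith [h14.2]
    · exact hN.upp j hj
  have h16 : Real.exp 1 * Real.exp 1 * Real.exp 1 ≥ 16 := by
    have := Real.exp_one_gt_d9
    nlinarith [mul_pos (Real.exp_pos 1) (Real.exp_pos 1)]
  have hquo : ∀ j, N j / N (j + 1) ≤ Real.exp (-(Lr x (j + 1)) / 2) ∧ 4 * N j ≤ N (j + 1) := by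
    intro j
    have hlow := hN.low (j + 1) (Nat.succ_pos j)
    have h0 := hup j
    have h8 := hL j
    have hj1 := hL1 j
    have hpos : 0 < N (j + 1) := by linarith [hge (j + 1)]
    -- `4 exp(L_j) ≤ exp(L_{j+1}/2)`
    have e1 : 16 * Real.exp (Lr x j) ≤ Real.exp (Lr x (j + 1) / 2) := by
      calc 16 * Real.exp (Lr x j) ≤ (Real.exp 1 * Real.exp 1 * Real.exp 1) *
            Real.exp (Lr x j) := by gcongr
        _ = Real.exp (3 + Lr x j) := by
            rw [← Real.exp_add, ← Real.exp_add, ← Real.exp_add]; ring_nf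
        _ ≤ Real.exp (Lr x (j + 1) / 2) := Real.exp_le_exp.2 (by linarith)
    have e2 : Real.exp (Lr x (j + 1)) = Real.exp (Lr x (j + 1) / 2) *
        Real.exp (Lr x (j + 1) / 2) := by
      rw [← Real.exp_add]; ring_nf
    have e3 : Real.exp (-(Lr x (j + 1)) / 2) * Real.exp (Lr x (j + 1) / 2) = 1 := by
      rw [← Real.exp_add]; ring_nf; simp
    have e4 : 1 ≤ Real.exp (Lr x (j + 1) / 2) := Real.one_le_exp (by linarith [hL1 (j + 1)])
    constructor
    · rw [div_le_iff₀ hpos]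
      calc N j ≤ 2 * Real.exp (Lr x j) := h0
        _ ≤ Real.exp (Lr x (j + 1) / 2) / 2 := by linarith
        _ = Real.exp (-(Lr x (j + 1)) / 2) * (Real.exp (Lr x (j + 1)) / 2) := by
            rw [e2]; linear_combination (-(Real.exp (Lr x (j + 1) / 2) / 2)) * e3
        _ ≤ Real.exp (-(Lr x (j + 1)) / 2) * N (j + 1) := by gcongr
    · calc 4 * N j ≤ 8 * Real.exp (Lr x j) := by linarith
        _ ≤ Real.exp (Lr x (j + 1) / 2) / 2 := by linarith
        _ ≤ Real.exp (Lr x (j + 1)) / 2 := by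
            rw [e2]
            have := mul_le_mul_of_nonneg_right e4 (Real.exp_pos (Lr x (j + 1) / 2)).le
            linarith
        _ ≤ N (j + 1) := hlow
  exact ⟨hge, fun j => (hquo j).2, fun j => (hquo j).1⟩

/-- The parameter part of `Dat.Hyp` (A8): `mu_le`, `u_step`, `small`. -/
theorem ev_u : ∀ᶠ x in atTop,
    (∀ N : ℕ → ℝ, NN x N → ∀ n j, 1 ≤ j → N (j - 1) / N j ≤ uu x n j ^ 512) ∧
    (∀ n j, j ≤ n → uu x n (j + 1) ≤ uu x n j ^ 16) ∧
    (∀ n, GG x n ^ 400 * uu x n (mm n + 1) ^ 4 ≤ 1) := by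
  filter_upwards [ev_NN, Lr_succ 16 0 1 0, ell_Lr 28000000 (1 / 2048) (by norm_num) 0 1 1 4,
    ell_Lr 28000000 (1 / 2048) (by norm_num) 0 1 1 3, ell_Lr 28000000 (1 / 2048) (by norm_num) 0 1 1 2,
    eventually_ge_atTop 1] with x hNN hL h4 h3 h2 hx
  have hL1 : ∀ j, 1 ≤ Lr x j := fun j => one_le_Lr hx j
  have hL16 : ∀ j, 16 * Lr x j ≤ Lr x (j + 1) := fun j => by simpa using hL j
  refine ⟨?_, ?_, ?_⟩
  · intro N hN n j hj
    obtain ⟨-, -, hq⟩ := hNN N hN
    obtain ⟨i, rfl⟩ : ∃ i, j = i + 1 := ⟨j - 1, by omega⟩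
    have h := hq i
    rw [← uNew_pow] at h
    rw [Nat.add_sub_cancel]
    refine h.trans ?_
    unfold uu
    split_ifs
    · exact le_rfl
    · exact pow_le_pow_left₀ (uNew_pos _ _).le (uNew_le_uOld _ _) _
  · intro n j hj
    have hne : j ≠ n + 1 := by omega
    have e1 : uu x n j = uOld x j := by rw [uu, if_neg hne]
    have e2 : uu x n (j + 1) ≤ uOld x (j + 1) := by
      unfold uu; split_ifs
      · exact uNew_le_uOld _ _
      · exact le_rfl
    rw [e1]
    refine e2.trans ?_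
    rw [uOld, uOld, ← Real.exp_nat_mul]
    refine Real.exp_le_exp.2 ?_
    have := hL16 j
    push_cast
    linarith
  · intro n
    have key : ∀ (v : ℝ) (i : ℕ), 1 ≤ i → uu x n i ^ 4 ≤ Real.exp (-(Lr x i) / 2048) := by
      intro v i hi
      unfold uu
      split_ifs
      · rw [uNew, ← Real.exp_nat_mul]
        refine Real.exp_le_exp.2 ?_
        push_cast
        linarith [hL1 i]
      · rw [uOld, ← Real.exp_nat_mul]
        refine Real.exp_le_exp.2 ?_
        push_cast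
        linarith [hL1 i]
    have hmain : 28000000 * ell x (n + 3) ≤ 1 / 2048 * Lr x (mm n + 1) := by
      rcases Nat.lt_or_ge n 2 with hn | hn
      · interval_cases n
        · simpa [mm] using h2 0
        · simpa [mm] using h3 0
      · obtain ⟨i, rfl⟩ : ∃ i, n = i + 2 := ⟨n - 2, by omega⟩
        have := h4 i
        simp only [mm, Nat.add_sub_cancel]
        simpa using this
    calc GG x n ^ 400 * uu x n (mm n + 1) ^ 4
        ≤ Real.exp (28000000 * ell x (n + 3)) * Real.exp (-(Lr x (mm n + 1)) / 2048) := by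
          gcongr
          · rw [GG, ← Real.exp_nat_mul]
            refine Real.exp_le_exp.2 (le_of_eq ?_)
            push_cast
            ring
          · exact key 0 _ (Nat.succ_pos _)
      _ = Real.exp (28000000 * ell x (n + 3) - 1 / 2048 * Lr x (mm n + 1)) := by
          rw [← Real.exp_add]; ring_nf
      _ ≤ 1 := by rw [Real.exp_le_one_iff]; linarith

end Pool.Agent.Work.MP_b0497c_an.Unf.P
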