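import Pool.Agent.Work.MP_b0497c_an.Unf.P1

set_option autoImplicit false

/-!
# Block P: the parameter table

`Big C x`: `x` is large (depending on the constant `C` of the other blocks). Everything is a
consequence of `Big C x`; `ev_Big` says that it holds for all large `x`.
-/

open Filter

namespace Pool.Agent.Work.MP_b0497c_an.Unf.P

/-- `x` is large. -/
structure Big (C x : ℝ) : Prop where
  C_one : 1 ≤ C
  num : (10 : ℝ) ^ 12 ≤ x
  nat : ∀ n : ℕ, 1000 * C * ((n : ℝ) + 1) ^ 16 ≤ ell x n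
  exp : ∀ n : ℕ, (10 : ℝ) ^ 30 * C * ell x n ^ 64 ≤ Lr x n

theorem ev_Big (C : ℝ) (hC : 1 ≤ C) : ∀ᶠ x in atTop, Big C x := by
  filter_upwards [eventually_ge_atTop ((10 : ℝ) ^ 12), ev_nat (1000 * C) 16,
    ell_Lr ((10 : ℝ) ^ 30 * C) 1 one_pos 0 64 0 0] with x h1 h2 h3
  exact ⟨hC, h1, h2, fun n => by simpa using h3 n⟩

/-- `h_n = L_{n+2}^6`. -/
noncomputable def hh (x : ℝ) (n : ℕ) : ℝ := Real.exp (6 * ell x (n + 2))

/-- `b_n = L_{n+1}^25000000`. -/
noncomputable def bb (x : ℝ) (n : ℕ) : ℝ := Real.exp (25000000 * ell x (n + 1))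

/-- The Lipschitz constant `b'` of the exact data of level `n+2` (`A = M_{n+1}(t,0)`): `G_n^27`. -/
noncomputable def bP (x : ℝ) (n : ℕ) : ℝ := GG x n ^ 27

/-- Half length of the window `n` for the actual values `c`, `κ`. -/
noncomputable def thv (x : ℝ) (n : ℕ) (c κ : ℝ) : ℝ := Real.sqrt (k2f x n / (aa x n * c * κ))

theorem hh_pos (x : ℝ) (n : ℕ) : 0 < hh x n := Real.exp_pos _
theorem bb_pos (x : ℝ) (n : ℕ) : 0 < bb x n := Real.exp_pos _
theorem aa_pos (x : ℝ) (n : ℕ) : 0 < aa x n := Real.exp_pos _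

theorem aa_eq (x : ℝ) (n : ℕ) : aa x n = hh x n ^ 24 := by
  rw [aa, hh, ← Real.exp_nat_mul]; congr 1; push_cast; ring

theorem k2f_exp (x : ℝ) (n : ℕ) :
    k2f x n = Real.exp (2 * ell x (n + 1) + 3 * ell x (n + 2)) := by
  rw [k2f, Lr, Lr, ← Real.exp_nat_mul, ← Real.exp_nat_mul, ← Real.exp_add]
  push_cast; ring_nf

theorem cn_exp (x : ℝ) (n : ℕ) :
    cn x n = Real.exp (-(2 * ell x n + 3 * ell x (n + 1))) := by
  rw [cn, Real.exp_neg, Lr, Lr, ← Real.exp_nat_mul, ← Real.exp_nat_mul, ← Real.exp_add]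
  push_cast; ring_nf

theorem cn_pos (x : ℝ) (n : ℕ) : 0 < cn x n := by rw [cn_exp]; exact Real.exp_pos _
theorem k2f_pos (x : ℝ) (n : ℕ) : 0 < k2f x n := by rw [k2f_exp]; exact Real.exp_pos _
theorem k0_pos (x : ℝ) (n : ℕ) : 0 < k0 x n := Real.exp_pos _

/-- `c_{n+1} = 1 / k2f(n)` nominally. -/
theorem cn_succ (x : ℝ) (n : ℕ) : cn x (n + 1) = (k2f x n)⁻¹ := by
  rw [cn, k2f]

namespace Big

variable {C x : ℝ} (B : Big C x)
include B

theorem one_le : 1 ≤ x := by have := B.num; linarith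

theorem ell_ge' (n : ℕ) : (10 : ℝ) ^ 12 ≤ ell x n := B.num.trans (le_ell B.one_le n)

theorem ell_ge (n : ℕ) : (10 : ℝ) ^ 9 ≤ ell x n := le_trans (by norm_num) (B.ell_ge' n)

theorem ell_pos (n : ℕ) : 0 < ell x n := by have := B.ell_ge n; linarith

theorem ell_gap' (n : ℕ) : (10 : ℝ) ^ 12 * ell x n ≤ ell x (n + 1) := by
  rw [ell_succ, pow_two]
  exact mul_le_mul_of_nonneg_right (B.ell_ge' n) (B.ell_pos n).le

theorem ell_gap (n : ℕ) : (10 : ℝ) ^ 9 * ell x n ≤ ell x (n + 1) := by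
  have h := B.ell_gap' n
  have := B.ell_pos n
  linarith

theorem ell_step (n : ℕ) : ell x n ≤ ell x (n + 1) := ell_mono B.one_le (Nat.le_succ n)

theorem two_le_exp {y : ℝ} (hy : 1 ≤ y) : 2 ≤ Real.exp y := by
  have := Real.add_one_le_exp y; linarith

/-- Numbers are small: `10^k ≤ exp y` for `y ≥ 10^9`, `k ≤ 10^8`. -/
theorem num_exp {y : ℝ} (hy : (10 : ℝ) ^ 9 ≤ y) : (10 : ℝ) ^ 100 ≤ Real.exp y := by
  have h1 : (10 : ℝ) ≤ Real.exp 3 := by
    have := Real.exp_one_gt_d9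
    calc (10 : ℝ) ≤ 2.7 ^ 3 := by norm_num
      _ ≤ Real.exp 1 ^ 3 := by gcongr; linarith
      _ = Real.exp 3 := by rw [← Real.exp_nat_mul]; norm_num
  calc (10 : ℝ) ^ 100 ≤ Real.exp 3 ^ 100 := by gcongr
    _ = Real.exp 300 := by rw [← Real.exp_nat_mul]; norm_num
    _ ≤ Real.exp y := Real.exp_le_exp.2 (by linarith)

theorem Lr_ge (n : ℕ) : (10 : ℝ) ^ 100 ≤ Lr x n := B.num_exp (B.ell_ge n)

/-! ### (p1), (p2) -/

theorem bb_ten (n : ℕ) : 10 ≤ bb x n := by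
  have h1 := B.ell_ge (n + 1)
  have := Real.add_one_le_exp (25000000 * ell x (n + 1))
  rw [bb]; linarith

theorem h_ge_b (n : ℕ) : bb x n ^ 200 ≤ hh x n := by
  rw [bb, hh, ← Real.exp_nat_mul]
  refine Real.exp_le_exp.2 ?_
  have h1 := B.ell_gap' (n + 1)
  have h2 := B.ell_pos (n + 1)
  push_cast
  linarith

theorem h_ge_b' (n : ℕ) : bb x n ^ 10000 ≤ hh x n := by
  rw [bb, hh, ← Real.exp_nat_mul]
  refine Real.exp_le_exp.2 ?_
  have h1 := B.ell_gap' (n + 1)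
  have h2 := B.ell_pos (n + 1)
  push_cast
  linarith

/-- `h_n^10000 ≤ b_{n+1}` (even `h_n^4000000`). -/
theorem bb_succ (n : ℕ) : hh x n ^ 10000 ≤ bb x (n + 1) := by
  rw [bb, hh, ← Real.exp_nat_mul]
  refine Real.exp_le_exp.2 ?_
  have e : n + 1 + 1 = n + 2 := rfl
  have := B.ell_pos (n + 2)
  rw [e]
  push_cast
  linarith

/-- `b'^13 ≤ b` at level `n+2`. -/
theorem bP_le (n : ℕ) : bP x n ^ 13 ≤ bb x (n + 2) := by
  rw [bP, GG, bb, ← Real.exp_nat_mul, ← Real.exp_nat_mul]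
  refine Real.exp_le_exp.2 ?_
  have e : n + 2 + 1 = n + 3 := rfl
  have := B.ell_pos (n + 3)
  rw [e]
  push_cast
  linarith

/-- `b' = G^27 ≤ h^320000`. -/
theorem bP_le_h (n : ℕ) : bP x n ≤ hh x (n + 1) ^ 320000 := by
  rw [bP, GG, hh, ← Real.exp_nat_mul, ← Real.exp_nat_mul]
  refine Real.exp_le_exp.2 ?_
  have e' : n + 1 + 2 = n + 3 := rfl
  have := B.ell_pos (n + 3)
  rw [e']
  push_cast
  linarith

/-- `h^600 ≤ b'` (and `h^10000 ≤ b'`). -/
theorem bP_ge (n : ℕ) : hh x (n + 1) ^ 10000 ≤ bP x n := by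
  rw [bP, GG, hh, ← Real.exp_nat_mul, ← Real.exp_nat_mul]
  refine Real.exp_le_exp.2 ?_
  have e : n + 1 + 2 = n + 3 := rfl
  have := B.ell_pos (n + 3)
  rw [e]
  push_cast
  linarith

theorem hh_one (n : ℕ) : 1 ≤ hh x n := Real.one_le_exp (by have := B.ell_pos (n + 2); linarith)

theorem bb_one (n : ℕ) : 1 ≤ bb x n := Real.one_le_exp (by have := B.ell_pos (n + 1); linarith)

/-- `h_n^K ≤ h_{n+1}` for `K ≤ 10^9`. -/
theorem h_pow_le {n K : ℕ} (hK : K ≤ 10 ^ 9) : hh x n ^ K ≤ hh x (n + 1) := by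
  rw [hh, hh, ← Real.exp_nat_mul]
  refine Real.exp_le_exp.2 ?_
  have h1 := B.ell_gap (n + 2)
  have h2 := B.ell_pos (n + 2)
  have e : n + 1 + 2 = n + 3 := rfl
  have e' : n + 2 + 1 = n + 3 := rfl
  rw [e]
  rw [e'] at h1
  have hK' : (K : ℝ) ≤ 10 ^ 9 := by exact_mod_cast hK
  nlinarith

/-- `b_n^K ≤ h_n` for `K ≤ 10^5`. -/
theorem b_pow_le {n K : ℕ} (hK : K ≤ 10 ^ 5) : bb x n ^ K ≤ hh x n := by
  rw [bb, hh, ← Real.exp_nat_mul]
  refine Real.exp_le_exp.2 ?_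
  have h1 := B.ell_gap' (n + 1)
  have h2 := B.ell_pos (n + 1)
  have e : n + 1 + 1 = n + 2 := rfl
  rw [e] at h1
  have hK' : (K : ℝ) ≤ 10 ^ 5 := by exact_mod_cast hK
  nlinarith

theorem k0_ge (n : ℕ) : (10 : ℝ) ^ 4 ≤ k0 x n := by
  have := B.Lr_ge (n + 1)
  rw [k0]
  exact le_trans (by norm_num) this

theorem k0_le_b (n : ℕ) : k0 x n ≤ bb x n := by
  rw [k0, Lr, bb]
  refine Real.exp_le_exp.2 ?_
  have := B.ell_pos (n + 1)
  linarith

theorem k2_le_h (n : ℕ) : k2f x n ≤ hh x n := by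
  rw [k2f_exp, hh]
  refine Real.exp_le_exp.2 ?_
  have h1 := B.ell_gap (n + 1)
  have h2 := B.ell_pos (n + 1)
  have e : n + 1 + 1 = n + 2 := rfl
  rw [e] at h1
  linarith

theorem c_ge {n : ℕ} {c : ℝ} (hc : cn x n / 2 ≤ c) : 1 / bb x n ≤ c := by
  refine le_trans ?_ hc
  have h1 := B.ell_gap n
  have h2 := B.ell_pos n
  have h3 : (2 : ℝ) ≤ Real.exp (ell x n) := by
    have := Real.add_one_le_exp (ell x n)
    have := B.ell_ge n
    linarith
  rw [cn_exp, bb, div_le_div_iff₀ (Real.exp_pos _) two_pos]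
  calc 1 * 2 ≤ Real.exp (ell x n) := by linarith
    _ ≤ Real.exp (-(2 * ell x n + 3 * ell x (n + 1)) + 25000000 * ell x (n + 1)) :=
        Real.exp_le_exp.2 (by linarith)
    _ = _ := by rw [Real.exp_add]

theorem c_k0 {n : ℕ} {c : ℝ} (hc : c ≤ 2 * cn x n) :
    c * k0 x n ≤ 2 * Real.exp (-(2 * ell x n + 2 * ell x (n + 1))) := by
  calc c * k0 x n ≤ 2 * cn x n * k0 x n := by
        gcongr; exact (k0_pos x n).le
    _ = 2 * (Real.exp (-(2 * ell x n + 3 * ell x (n + 1))) * Real.exp (ell x (n + 1))) := by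
        rw [cn_exp, k0, Lr]; ring
    _ = _ := by rw [← Real.exp_add]; ring_nf

theorem c_k0_le {n : ℕ} {c : ℝ} (hc : c ≤ 2 * cn x n) : c * k0 x n ≤ 1 / 10 ^ 8 := by
  refine (B.c_k0 hc).trans ?_
  have h1 := B.ell_ge n
  have h2 := B.num_exp (y := 2 * ell x n + 2 * ell x (n + 1))
    (by linarith [B.ell_ge (n + 1)])
  have h3 : Real.exp (-(2 * ell x n + 2 * ell x (n + 1))) ≤ ((10 : ℝ) ^ 100)⁻¹ := by
    rw [Real.exp_neg]
    exact inv_anti₀ (by positivity) h2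
  calc 2 * Real.exp (-(2 * ell x n + 2 * ell x (n + 1))) ≤ 2 * ((10 : ℝ) ^ 100)⁻¹ := by gcongr
    _ ≤ 1 / 10 ^ 8 := by norm_num

theorem sqrt_c_k0 {n : ℕ} {c : ℝ} (hc : c ≤ 2 * cn x n) :
    Real.sqrt (c * k0 x n) ≤ 2 / gg x n := by
  have hg : 0 < gg x n := mul_pos (Lr_pos _ _) (Lr_pos _ _)
  rw [Real.sqrt_le_left (by positivity)]
  refine (B.c_k0 hc).trans ?_
  have e : Real.exp (-(2 * ell x n + 2 * ell x (n + 1))) = (gg x n ^ 2)⁻¹ := by
    rw [gg, Lr, Lr, ← Real.exp_add, ← Real.exp_nat_mul, ← Real.exp_neg]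
    push_cast; ring_nf
  rw [e, div_pow]
  have : 0 < (gg x n ^ 2)⁻¹ := by positivity
  rw [div_eq_mul_inv]
  linarith

/-! ### the half length of the windows -/

theorem thv_sq_le {n : ℕ} {c κ : ℝ} (hc : cn x n / 2 ≤ c) (hκ : 1 / 2 ≤ κ) :
    k2f x n / (aa x n * c * κ) ≤ Real.exp (-(135 * ell x (n + 2))) := by
  have hcp : 0 < c := lt_of_lt_of_le (half_pos (cn_pos x n)) hc
  have hκp : 0 < κ := by linarith
  have h0 : aa x n * (cn x n / 2) * (1 / 2) ≤ aa x n * c * κ := by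
    have := (aa_pos x n).le
    gcongr
  have h1 : k2f x n / (aa x n * c * κ) ≤ k2f x n / (aa x n * (cn x n / 2) * (1 / 2)) := by
    refine div_le_div_of_nonneg_left (k2f_pos x n).le ?_ h0
    have := aa_pos x n
    have := cn_pos x n
    positivity
  refine h1.trans ?_
  have g1 := B.ell_gap (n + 1)
  have g0 := B.ell_gap n
  have p0 := B.ell_pos n
  have e1 : n + 1 + 1 = n + 2 := rfl
  rw [e1] at g1
  have e4 : (4 : ℝ) ≤ Real.exp (ell x n) := by
    have := Real.add_one_le_exp (ell x n)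
    have := B.ell_ge n
    linarith
  rw [k2f_exp, cn_exp, aa]
  rw [div_le_iff₀ (by positivity)]
  calc Real.exp (2 * ell x (n + 1) + 3 * ell x (n + 2))
      ≤ Real.exp (-(135 * ell x (n + 2)) + 144 * ell x (n + 2) +
          -(2 * ell x n + 3 * ell x (n + 1)) + -(ell x n)) :=
        Real.exp_le_exp.2 (by linarith)
    _ = Real.exp (-(135 * ell x (n + 2))) * (Real.exp (144 * ell x (n + 2)) *
          Real.exp (-(2 * ell x n + 3 * ell x (n + 1))) * Real.exp (-(ell x n))) := by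
        rw [Real.exp_add, Real.exp_add, Real.exp_add]; ring
    _ ≤ Real.exp (-(135 * ell x (n + 2))) * (Real.exp (144 * ell x (n + 2)) *
          Real.exp (-(2 * ell x n + 3 * ell x (n + 1))) * (1 / 4)) := by
        gcongr
        rw [Real.exp_neg, one_div]
        exact inv_anti₀ (by norm_num) e4
    _ = _ := by ring

theorem thv_le {n : ℕ} {c κ : ℝ} (hc : cn x n / 2 ≤ c) (hκ : 1 / 2 ≤ κ) :
    thv x n c κ ≤ (hh x n ^ 11)⁻¹ := by
  rw [thv, Real.sqrt_le_left (by have := hh_pos x n; positivity)]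
  refine (B.thv_sq_le hc hκ).trans ?_
  rw [hh, ← Real.exp_nat_mul, ← Real.exp_neg, ← Real.exp_nat_mul]
  refine Real.exp_le_exp.2 ?_
  have := B.ell_pos (n + 2)
  push_cast
  linarith

theorem thv_ge {n : ℕ} {c κ : ℝ} (hc0 : 0 < c) (hc : c ≤ 2 * cn x n) (hκ0 : 0 < κ) (hκ : κ ≤ 2) :
    Real.exp (-(71 * ell x (n + 2))) ≤ thv x n c κ := by
  rw [thv]
  refine Real.le_sqrt_of_sq_le ?_
  have ha := aa_pos x n
  have hcn := cn_pos x n
  have h0 : aa x n * c * κ ≤ aa x n * (2 * cn x n) * 2 := by gcongr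
  have h1 : k2f x n / (aa x n * (2 * cn x n) * 2) ≤ k2f x n / (aa x n * c * κ) :=
    div_le_div_of_nonneg_left (k2f_pos x n).le (by positivity) h0
  refine le_trans ?_ h1
  rw [k2f_exp, cn_exp, aa, ← Real.exp_nat_mul]
  rw [le_div_iff₀ (by positivity)]
  have g1 := B.ell_gap (n + 1)
  have g0 := B.ell_gap n
  have p0 := B.ell_pos n
  have p1 := B.ell_pos (n + 1)
  have p2 := B.ell_pos (n + 2)
  have e4 : (4 : ℝ) ≤ Real.exp (ell x n) := by
    have := Real.add_one_le_exp (ell x n)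
    have := B.ell_ge n
    linarith
  calc Real.exp (((2 : ℕ) : ℝ) * -(71 * ell x (n + 2))) * (Real.exp (144 * ell x (n + 2)) *
        (2 * Real.exp (-(2 * ell x n + 3 * ell x (n + 1)))) * 2)
      = 4 * Real.exp (2 * ell x (n + 2) - 2 * ell x n - 3 * ell x (n + 1)) := by
        have : Real.exp (2 * ell x (n + 2) - 2 * ell x n - 3 * ell x (n + 1)) =
            Real.exp (((2 : ℕ) : ℝ) * -(71 * ell x (n + 2))) * Real.exp (144 * ell x (n + 2)) *
              Real.exp (-(2 * ell x n + 3 * ell x (n + 1))) := by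
          rw [← Real.exp_add, ← Real.exp_add]; push_cast; ring_nf
        rw [this]; ring
    _ ≤ Real.exp (ell x n) *
          Real.exp (2 * ell x (n + 2) - 2 * ell x n - 3 * ell x (n + 1)) := by gcongr
    _ = Real.exp (ell x n + (2 * ell x (n + 2) - 2 * ell x n - 3 * ell x (n + 1))) := by
        rw [Real.exp_add]
    _ ≤ Real.exp (2 * ell x (n + 1) + 3 * ell x (n + 2)) :=
        Real.exp_le_exp.2 (by linarith)

theorem thv_succ {n : ℕ} {c κ c' κ' : ℝ} (hc0 : 0 < c) (hc : c ≤ 2 * cn x n) (hκ0 : 0 < κ)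
    (hκ : κ ≤ 2) (hc' : cn x (n + 1) / 2 ≤ c') (hκ' : 1 / 2 ≤ κ') :
    thv x (n + 1) c' κ' ≤ thv x n c κ / 10 ^ 50 := by
  have h1 := B.thv_ge hc0 hc hκ0 hκ
  have h2 : thv x (n + 1) c' κ' ≤ Real.exp (-(60 * ell x (n + 3))) := by
    rw [thv, Real.sqrt_le_left (Real.exp_pos _).le]
    refine (B.thv_sq_le hc' hκ').trans ?_
    rw [← Real.exp_nat_mul]
    refine Real.exp_le_exp.2 ?_
    have := B.ell_pos (n + 3)
    have e : n + 1 + 2 = n + 3 := rfl
    rw [e]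
    push_cast
    linarith
  refine h2.trans ?_
  rw [le_div_iff₀ (by positivity)]
  have g2 := B.ell_gap (n + 2)
  have p2 := B.ell_pos (n + 2)
  have p2' := B.ell_ge (n + 2)
  have e2 : n + 2 + 1 = n + 3 := rfl
  rw [e2] at g2
  have h3 : (10 : ℝ) ^ 50 ≤ Real.exp (ell x (n + 2)) :=
    le_trans (by norm_num) (B.num_exp p2')
  calc Real.exp (-(60 * ell x (n + 3))) * 10 ^ 50
      ≤ Real.exp (-(60 * ell x (n + 3))) * Real.exp (ell x (n + 2)) := by gcongr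
    _ = Real.exp (-(60 * ell x (n + 3)) + ell x (n + 2)) := by rw [Real.exp_add]
    _ ≤ Real.exp (-(71 * ell x (n + 2))) := Real.exp_le_exp.2 (by linarith)
    _ ≤ thv x n c κ := h1

end Big

end Pool.Agent.Work.MP_b0497c_an.Unf.P
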