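import Mathlib

set_option autoImplicit false

/-!
# Block P (parameters): the sequences

One real parameter `x → ∞`. `ell x n = x^(2^n)` is `log L_n`, so `ell (n+1) = (ell n)^2`.
-/

open Filter

namespace Pool.Agent.Work.MP_b0497c_an.Unf.P

/-- `ell x n = log L_n`. -/
def ell (x : ℝ) (n : ℕ) : ℝ := x ^ (2 ^ n)

/-- `L_n`. -/
noncomputable def Lr (x : ℝ) (n : ℕ) : ℝ := Real.exp (ell x n)

/-- `a_n = L_{n+2}^144` (used for `n ≥ 1`). -/
noncomputable def aa (x : ℝ) (n : ℕ) : ℝ := Real.exp (144 * ell x (n + 2))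

/-- Level constant: bounds `[F_n]`, `[F_n⁻¹]`, `[M_n]`, `1 / radius`. -/
noncomputable def RR (x : ℝ) (n : ℕ) : ℝ := Real.exp (ell x (n + 1) ^ 3)

/-- Step constant: bounds everything in the step `n → n+1` that is built from level `n`
at its own radius (projectors, `p_{n+1}`, generators): `L_{n+3}^(1/100)`. -/
noncomputable def Gm (x : ℝ) (n : ℕ) : ℝ := Real.exp (ell x (n + 3) / 100)

/-- The one constant of the step `n → n+1`: `G_n = L_{n+3}^70000`. -/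
noncomputable def GG (x : ℝ) (n : ℕ) : ℝ := Real.exp (70000 * ell x (n + 3))

/-- The radius of the step `n → n+1`: `c_n = L_{n+3}^(-62000)` (smaller than the reciprocal of the
envelope parameter `h_{n+1}^10000 = L_{n+3}^60000`). -/
noncomputable def cc (x : ℝ) (n : ℕ) : ℝ := Real.exp (-(62000 * ell x (n + 3)))

/-- The coarse level of the step `n → n+1`. -/
def mm (n : ℕ) : ℕ := n - 2

/-- `u` for the new level `j = n+1` in the step `n → n+1`. -/
noncomputable def uNew (x : ℝ) (j : ℕ) : ℝ := Real.exp (-(Lr x j) / 1024)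

/-- `u` for an old level. -/
noncomputable def uOld (x : ℝ) (j : ℕ) : ℝ := Real.exp (-(Lr x j) / 8192)

/-- The `u` of the step `n → n+1`. -/
noncomputable def uu (x : ℝ) (n j : ℕ) : ℝ := if j = n + 1 then uNew x j else uOld x j

/-- `k0(n) = L_{n+1}`. -/
noncomputable def k0 (x : ℝ) (n : ℕ) : ℝ := Lr x (n + 1)

/-- `k2f(n) = L_{n+1}^2 L_{n+2}^3`. -/
noncomputable def k2f (x : ℝ) (n : ℕ) : ℝ := Lr x (n + 1) ^ 2 * Lr x (n + 2) ^ 3

/-- Nominal `c_n = L_n^{-2} L_{n+1}^{-3}`. -/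
noncomputable def cn (x : ℝ) (n : ℕ) : ℝ := (Lr x n ^ 2 * Lr x (n + 1) ^ 3)⁻¹

/-- Nominal growth exponent `g_n = L_n L_{n+1}`. -/
noncomputable def gg (x : ℝ) (n : ℕ) : ℝ := Lr x n * Lr x (n + 1)

/-! ### Basic facts -/

theorem ell_succ (x : ℝ) (n : ℕ) : ell x (n + 1) = ell x n ^ 2 := by
  rw [ell, ell, ← pow_mul, pow_succ]

theorem ell_add (x : ℝ) (n k : ℕ) : ell x (n + k) = ell x n ^ (2 ^ k) := by
  rw [ell, ell, ← pow_mul, ← pow_add]

theorem le_ell {x : ℝ} (hx : 1 ≤ x) (n : ℕ) : x ≤ ell x n := by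
  calc x = x ^ 1 := (pow_one x).symm
    _ ≤ x ^ (2 ^ n) := pow_le_pow_right₀ hx Nat.one_le_two_pow

theorem one_le_ell {x : ℝ} (hx : 1 ≤ x) (n : ℕ) : 1 ≤ ell x n := hx.trans (le_ell hx n)

theorem ell_mono {x : ℝ} (hx : 1 ≤ x) {m n : ℕ} (h : m ≤ n) : ell x m ≤ ell x n :=
  pow_le_pow_right₀ hx (Nat.pow_le_pow_right (by norm_num) h)

/-- (P1) a property of large reals holds for all `ell x n`. -/
theorem ev_ell {p : ℝ → Prop} (h : ∀ᶠ y in atTop, p y) :
    ∀ᶠ x in atTop, ∀ n, p (ell x n) := by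
  obtain ⟨y0, hy0⟩ := eventually_atTop.1 h
  filter_upwards [eventually_ge_atTop (max 1 y0)] with x hx n
  exact hy0 _ (((le_max_right _ _).trans hx).trans (le_ell ((le_max_left _ _).trans hx) n))

/-- (P2) `ell x n` beats every power of `n`. -/
theorem ev_nat (C : ℝ) (k : ℕ) :
    ∀ᶠ x in atTop, ∀ n : ℕ, C * ((n : ℝ) + 1) ^ k ≤ ell x n := by
  -- `(n+1)^k ≤ B * 2^n`
  have hB : ∃ B : ℝ, 1 ≤ B ∧ ∀ n : ℕ, ((n : ℝ) + 1) ^ k ≤ B * 2 ^ n := by
    have h1 : Tendsto (fun n : ℕ => ((n : ℝ)) ^ k / 2 ^ n) atTop (nhds 0) := by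
      have := tendsto_pow_const_div_const_pow_of_one_lt k (by norm_num : (1 : ℝ) < 2)
      exact this
    obtain ⟨B, hB⟩ := h1.bddAbove_range
    refine ⟨max 1 (2 * B), le_max_left _ _, fun n => ?_⟩
    have h2 := hB ⟨n + 1, rfl⟩
    simp only at h2
    push_cast at h2
    rw [div_le_iff₀ (by positivity)] at h2
    calc ((n : ℝ) + 1) ^ k ≤ B * 2 ^ (n + 1) := h2
      _ = 2 * B * 2 ^ n := by ring
      _ ≤ max 1 (2 * B) * 2 ^ n := by gcongr; exact le_max_right _ _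
  obtain ⟨B, hB1, hB⟩ := hB
  filter_upwards [eventually_ge_atTop (max 2 (|C| * B))] with x hx n
  have hx2 : 2 ≤ x := (le_max_left _ _).trans hx
  have hxC : |C| * B ≤ x := (le_max_right _ _).trans hx
  have h2n : n + 1 ≤ 2 ^ n := Nat.lt_two_pow_self
  calc C * ((n : ℝ) + 1) ^ k ≤ |C| * ((n : ℝ) + 1) ^ k := by
        gcongr; exact le_abs_self C
    _ ≤ |C| * (B * 2 ^ n) := by gcongr; exact hB n
    _ = (|C| * B) * 2 ^ n := by ring
    _ ≤ x * x ^ n := by gcongr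
    _ = x ^ (n + 1) := by rw [pow_succ]; ring
    _ ≤ x ^ (2 ^ n) := pow_le_pow_right₀ (by linarith) h2n

/-- (P1') the two principles together: a property of a large `y` and of `r ≤ y`. -/
theorem ev_ell_nat {p : ℝ → ℝ → Prop} (k : ℕ)
    (h : ∀ᶠ y in atTop, ∀ r : ℝ, 1 ≤ r → r ^ k ≤ y → p y r) :
    ∀ᶠ x in atTop, ∀ n : ℕ, p (ell x n) ((n : ℝ) + 1) := by
  filter_upwards [ev_ell h, ev_nat 1 k] with x h1 h2 n
  exact h1 n _ (by have := n.cast_nonneg (α := ℝ); linarith) (by simpa using h2 n)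

end Pool.Agent.Work.MP_b0497c_an.Unf.P
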