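import Pool.Agent.Work.MP_b0497c_an.Unf.SStmts2
import Pool.Agent.Work.MP_b0497c_an.Bd.B03
import Pool.Agent.Work.MP_b0497c_an.Unf.W10
import Pool.Agent.Work.MP_b0497c_an.Bd.B04

set_option autoImplicit false
set_option linter.unusedSectionVars false
set_option linter.unusedSimpArgs false

/-!
# S18, S19: the shared decomposition of the linear source

* `Gd D f`: every mode is continuous, finite norm (constant weight);  `GK D A`: the same for
  kernels.  Closure lemmas.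
* `QL_eq`: for `m ≤ o ≤ n` and `t ∈ [0,T]`
  `QL_o = Σ_{m<i≤n} P_o (e'_i - B_i) + Σ_{m≤i≤n} Σ_{i<l≤n} P_o e_{l,i} + Σ_{m≤i<o} C_o w_i`.
-/

open scoped ENNReal
open Set MeasureTheory

namespace Pool.Agent.Work.MP_b0497c_an.Unf.S

open W

namespace Dec

section basic

variable {E F G : Type} [NormedAddCommGroup E] [NormedSpace ℂ E] [NormedAddCommGroup F]
  [NormedSpace ℂ F] [NormedAddCommGroup G] [NormedSpace ℂ G]

theorem one_wt (T : ℝ) : Wt T Dat.one' :=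
  ⟨fun _ _ => by simp [Dat.one'], continuousOn_const, fun _ _ _ _ _ => le_rfl⟩

theorem par {D : Dat} (hD : D.Hyp) : Par D.T D.c D.γ := by
  have hT := hD.T_pos
  have hc := hD.c_pos
  refine ⟨hT, ?_, ?_⟩
  · rw [hD.γ_eq]
    positivity
  · rw [hD.γ_eq, div_mul_eq_mul_div, div_le_iff₀ (by positivity)]
    nlinarith

theorem par0 {D : Dat} (hD : D.Hyp) : Par D.T D.c 0 :=
  ⟨hD.T_pos, le_rfl, by simpa using hD.c_pos.le⟩

theorem G_pos {D : Dat} (hD : D.Hyp) : 0 < D.G := by linarith [hD.G_two]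

theorem G_one {D : Dat} (hD : D.Hyp) : 1 ≤ D.G := by linarith [hD.G_two]

/-- Continuous modes, finite norm. -/
structure Gd (D : Dat) (f : ℝ → Md → E) : Prop where
  cm : CM D.T f
  fin : Nrm D.T D.c D.γ Dat.one' f ≠ ∞

/-- Continuous entries, finite norm. -/
structure GK (D : Dat) (A : ℝ → Md → Md → (E →L[ℂ] F)) : Prop where
  ck : CK D.T A
  fin : KN D.T D.c A ≠ ∞

/-! ### norms -/

theorem nrm_congr {T c γ : ℝ} {ρ : ℝ → ℝ} {f g : ℝ → Md → E}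
    (h : ∀ t ∈ Icc 0 T, f t = g t) : Nrm T c γ ρ f = Nrm T c γ ρ g := by
  unfold Nrm
  refine tsum_congr fun q => iSup_congr fun t => iSup_congr fun ht => ?_
  rw [h t ht]

theorem src_congr {T c γ : ℝ} {ρ : ℝ → ℝ} {f g : ℝ → Md → E}
    (h : ∀ t ∈ Icc 0 T, f t = g t) : Src T c γ ρ f = Src T c γ ρ g := by
  unfold Src
  refine tsum_congr fun q => iSup_congr fun t => iSup_congr fun ht => ?_
  refine setLIntegral_congr_fun measurableSet_Ioc fun s hs => ?_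
  rw [h s ⟨hs.1.le, hs.2.trans ht.2⟩]

theorem cm_congr {T : ℝ} {f g : ℝ → Md → E} (hg : CM T g) (h : ∀ t ∈ Icc 0 T, f t = g t) :
    CM T f := fun q => (hg q).congr fun t ht => by rw [h t ht]

theorem src_zero {T c γ : ℝ} {ρ : ℝ → ℝ} : Src T c γ ρ (fun _ => (0 : Md → E)) = 0 := by
  unfold Src
  simp

theorem res_enorm (S : Set Md) (f : Md → E) (q : Md) : ‖res S f q‖ₑ ≤ ‖f q‖ₑ := by
  by_cases h : q ∈ S
  · simp [res, h]
  · simp [res, h]

theorem nrm_res {T c γ : ℝ} {ρ : ℝ → ℝ} (S : Set Md) (f : ℝ → Md → E) :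
    Nrm T c γ ρ (fun t => res S (f t)) ≤ Nrm T c γ ρ f := by
  unfold Nrm
  refine ENNReal.tsum_le_tsum fun q => iSup₂_mono fun t _ => ?_
  gcongr
  exact res_enorm S (f t) q

theorem src_res {T c γ : ℝ} {ρ : ℝ → ℝ} (S : Set Md) (f : ℝ → Md → E) :
    Src T c γ ρ (fun t => res S (f t)) ≤ Src T c γ ρ f := by
  unfold Src
  refine ENNReal.tsum_le_tsum fun q => iSup₂_mono fun t _ => ?_
  refine lintegral_mono fun s => ?_
  gcongr
  exact res_enorm S (f s) q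

/-- The norm with `γ` is bounded by the norm with `γ = 0`. -/
theorem nrm_zero {T c γ : ℝ} {ρ : ℝ → ℝ} (hγ : 0 ≤ γ) (hρ : Wt T ρ) (f : ℝ → Md → E) :
    Nrm T c γ ρ f ≤ Nrm T c 0 ρ f := by
  unfold Nrm
  refine ENNReal.tsum_le_tsum fun q => iSup₂_mono fun t ht => ?_
  have h1 := hρ.pos t ht
  have h2 : (0 : ℝ) ≤ len q := len_nonneg q
  have h3 : 0 ≤ γ * t := mul_nonneg hγ ht.1
  have h4 : (c - γ * t) * len q ≤ (c - 0 * t) * len q :=
    mul_le_mul_of_nonneg_right (by linarith) h2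
  gcongr

/-! ### closure lemmas for `Gd` -/

theorem gd_of {D : Dat} (hD : D.Hyp) {ρ : ℝ → ℝ} (hρ : Wt D.T ρ) {f : ℝ → Md → E}
    (hc : CM D.T f) (hf : Nrm D.T D.c D.γ ρ f ≠ ∞) : Gd D f := by
  refine ⟨hc, ?_⟩
  have h1 := ((pr_W05 Md E D.T D.c D.γ ρ Dat.one' f f (par hD) hρ (one_wt _)).2.1 (ρ D.T)
    (hρ.pos _ ⟨hD.T_pos.le, le_rfl⟩).le (fun t ht => by
      simp only [Dat.one', mul_one]
      exact hρ.mono ht ⟨hD.T_pos.le, le_rfl⟩ ht.2)).1
  exact ne_top_of_le_ne_top (ENNReal.mul_ne_top ENNReal.ofReal_ne_top hf) h1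

theorem Gd.nrm {D : Dat} (hD : D.Hyp) {ρ : ℝ → ℝ} (hρ : Wt D.T ρ) {f : ℝ → Md → E}
    (hf : Gd D f) : Nrm D.T D.c D.γ ρ f ≠ ∞ := by
  have h0 := hρ.pos 0 ⟨le_rfl, hD.T_pos.le⟩
  have h1 := ((pr_W05 Md E D.T D.c D.γ Dat.one' ρ f f (par hD) (one_wt _) hρ).2.1 ((ρ 0)⁻¹)
    (by positivity) (fun t ht => by
      have h2 := hρ.mono ⟨le_rfl, hD.T_pos.le⟩ ht ht.1
      simp only [Dat.one']
      rw [inv_mul_eq_div, le_div_iff₀ h0]
      linarith)).1
  exact ne_top_of_le_ne_top (ENNReal.mul_ne_top ENNReal.ofReal_ne_top hf.fin) h1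

theorem gd_zero {D : Dat} (hD : D.Hyp) {ρ : ℝ → ℝ} (hρ : Wt D.T ρ) {f : ℝ → Md → E}
    (hc : CM D.T f) (hf : Nrm D.T D.c 0 ρ f ≠ ∞) : Gd D f :=
  gd_of hD hρ hc (ne_top_of_le_ne_top hf (nrm_zero (par hD).γ_nonneg hρ f))

theorem Gd.add {D : Dat} (hD : D.Hyp) {f g : ℝ → Md → E} (hf : Gd D f) (hg : Gd D g) :
    Gd D (fun t => f t + g t) := by
  refine ⟨fun q => (hf.cm q).add (hg.cm q), ?_⟩
  have h1 := (pr_W05 Md E D.T D.c D.γ Dat.one' Dat.one' f g (par hD) (one_wt _)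
    (one_wt _)).2.2.1
  exact ne_top_of_le_ne_top (ENNReal.add_ne_top.2 ⟨hf.fin, hg.fin⟩) h1

theorem Gd.smul {D : Dat} (hD : D.Hyp) {f : ℝ → Md → E} (z : ℂ) (hf : Gd D f) :
    Gd D (fun t => z • f t) := by
  refine ⟨fun q => (hf.cm q).const_smul z, ?_⟩
  have h1 := ((pr_W05 Md E D.T D.c D.γ Dat.one' Dat.one' f f (par hD) (one_wt _)
    (one_wt _)).2.2.2.2 z).1
  have h2 : Nrm D.T D.c D.γ Dat.one' (fun t => z • f t) =
      ‖z‖ₑ * Nrm D.T D.c D.γ Dat.one' f := h1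
  rw [h2]
  exact ENNReal.mul_ne_top enorm_ne_top hf.fin

theorem Gd.neg {D : Dat} (hD : D.Hyp) {f : ℝ → Md → E} (hf : Gd D f) :
    Gd D (fun t => - f t) := by
  have h1 := hf.smul hD (-1)
  simpa using h1

theorem Gd.sub {D : Dat} (hD : D.Hyp) {f g : ℝ → Md → E} (hf : Gd D f) (hg : Gd D g) :
    Gd D (fun t => f t - g t) := by
  have h1 := hf.add hD (hg.neg hD)
  simpa [sub_eq_add_neg] using h1

theorem Gd.zero {D : Dat} : Gd D (fun _ => (0 : Md → E)) := by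
  refine ⟨fun q => continuousOn_const, ?_⟩
  unfold Nrm
  simp

theorem Gd.sum {D : Dat} (hD : D.Hyp) {ι : Type} (s : Finset ι) {f : ι → ℝ → Md → E}
    (hf : ∀ i ∈ s, Gd D (f i)) : Gd D (fun t => ∑ i ∈ s, f i t) := by
  classical
  induction s using Finset.induction_on with
  | empty => simpa using Gd.zero
  | insert a s ha ih =>
    have h1 := (hf a (Finset.mem_insert_self a s)).add hD
      (ih fun i hi => hf i (Finset.mem_insert_of_mem hi))
    simpa [Finset.sum_insert ha] using h1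

theorem Gd.rs {D : Dat} {f : ℝ → Md → E} (S : Set Md) (hf : Gd D f) :
    Gd D (fun t => res S (f t)) := by
  refine ⟨fun q => ?_, ne_top_of_le_ne_top hf.fin (nrm_res S f)⟩
  by_cases hq : q ∈ S
  · have : (fun t => res S (f t) q) = fun t => f t q := by
      funext t
      simp [res, hq]
    rw [this]
    exact hf.cm q
  · have : (fun t => res S (f t) q) = fun _ => (0 : E) := by
      funext t
      simp [res, hq]
    rw [this]
    exact continuousOn_const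

theorem Gd.congr {D : Dat} {f g : ℝ → Md → E} (hg : Gd D g) (h : ∀ t ∈ Icc 0 D.T, f t = g t) :
    Gd D f := ⟨cm_congr hg.cm h, by rw [nrm_congr h]; exact hg.fin⟩

/-- Operators preserve `Gd`. -/
theorem GK.act [CompleteSpace F] {D : Dat} (hD : D.Hyp) {A : ℝ → Md → Md → (E →L[ℂ] F)}
    (hA : GK D A) {f : ℝ → Md → E} (hf : Gd D f) : Gd D (fun t => act (A t) (f t)) := by
  refine ⟨(pr_W12 Md E F F D.T D.c D.γ Dat.one' Dat.one' (par hD) (one_wt _) (one_wt _)).1 A f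
    hA.ck hf.cm hA.fin hf.fin, ?_⟩
  exact ne_top_of_le_ne_top (ENNReal.mul_ne_top hA.fin hf.fin)
    (pr_W01 Md E F D.T D.c D.γ Dat.one' A f (par hD) (one_wt _))

theorem GK.add {D : Dat} (hD : D.Hyp) {A B : ℝ → Md → Md → (E →L[ℂ] F)} (hA : GK D A)
    (hB : GK D B) : GK D (fun t => A t + B t) := by
  refine ⟨fun p q => (hA.ck p q).add (hB.ck p q), ?_⟩
  exact ne_top_of_le_ne_top (ENNReal.add_ne_top.2 ⟨hA.fin, hB.fin⟩)
    ((pr_W09 Md E F F D.T D.c hD.c_pos.le).2.1 A B)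

theorem GK.smul {D : Dat} (hD : D.Hyp) {A : ℝ → Md → Md → (E →L[ℂ] F)} (z : ℂ)
    (hA : GK D A) : GK D (fun t => z • A t) := by
  refine ⟨fun p q => (hA.ck p q).const_smul z, ?_⟩
  have h1 : KN D.T D.c (fun t => z • A t) = ‖z‖ₑ * KN D.T D.c A :=
    (pr_W09 Md E F F D.T D.c hD.c_pos.le).2.2.1 z A
  rw [h1]
  exact ENNReal.mul_ne_top enorm_ne_top hA.fin

theorem GK.neg {D : Dat} (hD : D.Hyp) {A : ℝ → Md → Md → (E →L[ℂ] F)}
    (hA : GK D A) : GK D (fun t => - A t) := by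
  have h1 := hA.smul hD (-1)
  simpa using h1

theorem GK.sub {D : Dat} (hD : D.Hyp) {A B : ℝ → Md → Md → (E →L[ℂ] F)} (hA : GK D A)
    (hB : GK D B) : GK D (fun t => A t - B t) := by
  have h1 := hA.add hD (hB.neg hD)
  simpa [sub_eq_add_neg] using h1

theorem GK.comp [CompleteSpace F] [CompleteSpace G] {D : Dat} (hD : D.Hyp)
    {A : ℝ → Md → Md → (F →L[ℂ] G)}
    {B : ℝ → Md → Md → (E →L[ℂ] F)} (hA : GK D A)
    (hB : GK D B) : GK D (fun t => kcomp (A t) (B t)) := by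
  refine ⟨(pr_W12 Md E F G D.T D.c D.γ Dat.one' Dat.one' (par hD) (one_wt _) (one_wt _)).2.1 A B
    hA.ck hB.ck hA.fin hB.fin, ?_⟩
  exact ne_top_of_le_ne_top (ENNReal.mul_ne_top hA.fin hB.fin)
    ((pr_W09 Md E F G D.T D.c hD.c_pos.le).1 A B)

theorem KN_idK {T c : ℝ} (hc : 0 ≤ c) : KN T c (fun _ => idK) ≤ 1 := by
  refine (pr_W09 Md C3 C3 C3 T c hc).2.2.2.2.1 (fun _ _ => ContinuousLinearMap.id ℂ C3) 1
    fun t _ m => ?_
  rw [← ofReal_norm]
  exact (ENNReal.ofReal_le_one).2 ContinuousLinearMap.norm_id_le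

theorem gk_id {D : Dat} (hD : D.Hyp) : GK D (fun _ => idK) :=
  ⟨fun _ _ => continuousOn_const, ne_top_of_le_ne_top ENNReal.one_ne_top (KN_idK hD.c_pos.le)⟩

theorem KN_mulK {D : Dat} (hD : D.Hyp) (a : ℝ → Md → (E →L[ℂ] F)) :
    KN D.T D.c (fun t => mulK (a t)) = Nrm D.T D.c 0 Dat.one' a :=
  (pr_W09 Md E F F D.T D.c hD.c_pos.le).2.2.2.1 a

theorem gk_mulK {D : Dat} (hD : D.Hyp) {a : ℝ → Md → (E →L[ℂ] F)} (hc : CM D.T a)
    (ha : Nrm D.T D.c 0 Dat.one' a ≠ ∞) : GK D (fun t => mulK (a t)) :=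
  ⟨fun p q => hc (p - q), by rw [KN_mulK hD]; exact ha⟩

/-! ### static norms -/

theorem Gd.sN {D : Dat} (hD : D.Hyp) {f : ℝ → Md → E} (hf : Gd D f) {t : ℝ}
    (ht : t ∈ Icc 0 D.T) : sN 0 (f t) ≠ ∞ := by
  refine ne_top_of_le_ne_top hf.fin ?_
  unfold W.sN Nrm
  refine ENNReal.tsum_le_tsum fun q => ?_
  refine le_trans ?_ (le_iSup₂ (f := fun t (_ : t ∈ Icc 0 D.T) =>
    ENNReal.ofReal (Real.exp ((D.c - D.γ * t) * len q) / Dat.one' t) * ‖f t q‖ₑ) t ht)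
  have hp := par hD
  have h1 : D.γ * t ≤ D.c := (mul_le_mul_of_nonneg_left ht.2 hp.γ_nonneg).trans hp.le
  have h2 : (0 : ℝ) ≤ len q := len_nonneg q
  have h4 : 0 * len q ≤ (D.c - D.γ * t) * len q :=
    mul_le_mul_of_nonneg_right (by linarith) h2
  have h5 : Real.exp (0 * len q) ≤ Real.exp ((D.c - D.γ * t) * len q) / Dat.one' t := by
    simp only [Dat.one', div_one]
    exact Real.exp_le_exp.2 h4
  gcongr

theorem GK.sK {D : Dat} (hD : D.Hyp) {A : ℝ → Md → Md → (E →L[ℂ] F)} (hA : GK D A) {t : ℝ}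
    (ht : t ∈ Icc 0 D.T) : sK 0 (A t) ≠ ∞ := by
  refine ne_top_of_le_ne_top hA.fin ?_
  refine le_trans ?_ ((pr_W09 Md E F F D.T D.c hD.c_pos.le).2.2.2.2.2.2 A t ht)
  exact ((pr_W10 Md E F F D.c hD.c_pos.le).2.2.2.2.2.2.1 0 hD.c_pos.le).1 (A t)

theorem act_neg_left (A : Md → Md → (E →L[ℂ] F)) (f : Md → E) : act (-A) f = - act A f := by
  funext q
  unfold W.act
  simp only [Pi.neg_apply, _root_.neg_apply]
  exact tsum_neg

theorem act_neg_right (A : Md → Md → (E →L[ℂ] F)) (f : Md → E) : act A (-f) = - act A f := by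
  funext q
  unfold W.act
  simp only [Pi.neg_apply, map_neg]
  exact tsum_neg

theorem act_smul_left (z : ℂ) (A : Md → Md → (E →L[ℂ] F)) (f : Md → E) :
    act (z • A) f = z • act A f := by
  funext q
  unfold W.act
  simp only [Pi.smul_apply, _root_.smul_apply]
  exact tsum_const_smul'' z

theorem act_smul_right (z : ℂ) (A : Md → Md → (E →L[ℂ] F)) (f : Md → E) :
    act A (z • f) = z • act A f := by
  funext q
  unfold W.act
  simp only [Pi.smul_apply, map_smul]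
  exact tsum_const_smul'' z

theorem act_zero_right (A : Md → Md → (E →L[ℂ] F)) : act A (0 : Md → E) = 0 := by
  funext q
  unfold W.act
  simp

theorem sN_neg {f : Md → E} : sN 0 (-f) = sN 0 f := by
  unfold W.sN
  simp

theorem sK_neg {A : Md → Md → (E →L[ℂ] F)} : sK 0 (-A) = sK 0 A := by
  unfold W.sK
  simp

theorem act_add_right [CompleteSpace F] {A : Md → Md → (E →L[ℂ] F)} {f g : Md → E}
    (hA : sK 0 A ≠ ∞) (hf : sN 0 f ≠ ∞) (hg : sN 0 g ≠ ∞) :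
    act A (f + g) = act A f + act A g :=
  ((pr_W11 Md E F F F).2.2.2.1 A A f g hA hA hf hg).2

theorem act_sub_right [CompleteSpace F] {A : Md → Md → (E →L[ℂ] F)} {f g : Md → E}
    (hA : sK 0 A ≠ ∞) (hf : sN 0 f ≠ ∞) (hg : sN 0 g ≠ ∞) :
    act A (f - g) = act A f - act A g := by
  rw [sub_eq_add_neg, act_add_right hA hf (by rw [sN_neg]; exact hg), act_neg_right,
    sub_eq_add_neg]

theorem act_add_left [CompleteSpace F] {A B : Md → Md → (E →L[ℂ] F)} {f : Md → E}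
    (hA : sK 0 A ≠ ∞) (hB : sK 0 B ≠ ∞) (hf : sN 0 f ≠ ∞) :
    act (A + B) f = act A f + act B f :=
  ((pr_W11 Md E F F F).2.2.2.1 A B f f hA hB hf hf).1

theorem act_sub_left [CompleteSpace F] {A B : Md → Md → (E →L[ℂ] F)} {f : Md → E}
    (hA : sK 0 A ≠ ∞) (hB : sK 0 B ≠ ∞) (hf : sN 0 f ≠ ∞) :
    act (A - B) f = act A f - act B f := by
  rw [sub_eq_add_neg, act_add_left hA (by rw [sK_neg]; exact hB) hf, act_neg_left,
    sub_eq_add_neg]

theorem act_kcomp [CompleteSpace F] [CompleteSpace G] {A : Md → Md → (F →L[ℂ] G)}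
    {B : Md → Md → (E →L[ℂ] F)} {f : Md → E}
    (hA : sK 0 A ≠ ∞) (hB : sK 0 B ≠ ∞) (hf : sN 0 f ≠ ∞) :
    act (kcomp A B) f = act A (act B f) :=
  (pr_W11 Md E F G G).2.1 A B f hA hB hf

theorem act_idK (f : Md → C3) : act idK f = f := by
  funext q
  exact (pr_W11 Md C3 C3 C3 C3).2.2.2.2.2 (fun _ => ContinuousLinearMap.id ℂ C3) f q

theorem act_sum_right [CompleteSpace F] {D : Dat} (hD : D.Hyp) {A : Md → Md → (E →L[ℂ] F)}
    (hA : sK 0 A ≠ ∞) {t : ℝ} (ht : t ∈ Icc 0 D.T) {ι : Type} (s : Finset ι)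
    {f : ι → ℝ → Md → E} (hf : ∀ i ∈ s, Gd D (f i)) :
    act A (∑ i ∈ s, f i t) = ∑ i ∈ s, act A (f i t) := by
  classical
  induction s using Finset.induction_on with
  | empty => simpa using act_zero_right A
  | insert a s ha ih =>
    rw [Finset.sum_insert ha, Finset.sum_insert ha, act_add_right hA
      ((hf a (Finset.mem_insert_self a s)).sN hD ht)
      ((Gd.sum hD s fun i hi => hf i (Finset.mem_insert_of_mem hi)).sN hD ht),
      ih fun i hi => hf i (Finset.mem_insert_of_mem hi)]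

/-! ### restrictions -/

theorem res_add (S : Set Md) (f g : Md → E) : res S (f + g) = res S f + res S g := by
  funext q
  by_cases hq : q ∈ S <;> simp [res, hq]

theorem res_sub (S : Set Md) (f g : Md → E) : res S (f - g) = res S f - res S g := by
  funext q
  by_cases hq : q ∈ S <;> simp [res, hq]

theorem res_smul (S : Set Md) (z : ℂ) (f : Md → E) : res S (z • f) = z • res S f := by
  funext q
  by_cases hq : q ∈ S <;> simp [res, hq]

theorem res_sum (S : Set Md) {ι : Type} (s : Finset ι) (g : ι → Md → E) :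
    res S (∑ i ∈ s, g i) = ∑ i ∈ s, res S (g i) := by
  funext q
  by_cases hq : q ∈ S <;> simp [res, hq]

theorem res_self {S : Set Md} {f : Md → E} (h : SuppIn S f) : res S f = f := by
  funext q
  by_cases hq : q ∈ S
  · simp [res, hq]
  · simp [res, hq, h q hq]

theorem res_disj {S S' : Set Md} {f : Md → E} (h : SuppIn S' f) (hd : ∀ q ∈ S, q ∉ S') :
    res S f = 0 := by
  funext q
  by_cases hq : q ∈ S
  · simp [res, hq, h q (hd q hq)]
  · simp [res, hq]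

theorem supp_res (S : Set Md) (f : Md → E) : SuppIn S (res S f) := by
  intro q hq
  simp [res, hq]

theorem supp_mono {S S' : Set Md} (h : S ⊆ S') {f : Md → E} (hf : SuppIn S f) :
    SuppIn S' f := fun q hq => hf q fun h' => hq (h h')

theorem cl_lev (j : ℕ) : Cl j ⊆ (lev j : Set Md) := fun _ hq => hq.1

theorem lev_sub {i j : ℕ} (h : i ≤ j) : (lev i : Set Md) ⊆ (lev j : Set Md) := by
  intro q hq k hk
  exact hq k (lt_of_le_of_lt h hk)

theorem cs_gt {m o : ℕ} (h : m < o) : Cs m o = Cl o := by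
  unfold Cs
  rw [if_neg (by omega)]

theorem cs_eq (m : ℕ) : Cs m m = (lev m : Set Md) := by
  unfold Cs
  rw [if_pos le_rfl]

theorem cs_lev {m o : ℕ} (h : m ≤ o) : Cs m o ⊆ (lev o : Set Md) := by
  rcases h.eq_or_lt with h | h
  · subst h
    rw [cs_eq]
  · rw [cs_gt h]
    exact cl_lev o

/-- Class `j` and level `i < j` are disjoint. -/
theorem cl_disj {i j : ℕ} (h : i < j) : ∀ q ∈ Cl j, q ∉ (lev i : Set Md) :=
  fun _ hq hq' => hq.2 (hq' j h)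

theorem cl_disj' {i j : ℕ} (h : i < j) : ∀ q ∈ (lev i : Set Md), q ∉ Cl j :=
  fun _ hq' hq => hq.2 (hq' j h)

theorem cs_disj {m i j : ℕ} (hi : m ≤ i) (hj : m ≤ j) (h : i ≠ j) :
    ∀ q ∈ Cs m i, q ∉ Cs m j := by
  intro q hq hq'
  rcases lt_or_gt_of_ne h with h | h
  · rw [cs_gt (lt_of_le_of_lt hi h)] at hq'
    exact cl_disj h q hq' (cs_lev hi hq)
  · rw [cs_gt (lt_of_le_of_lt hj h)] at hq
    exact cl_disj h q hq (cs_lev hj hq')

theorem supp_mul_lev (h03 : S03) {l n : ℕ} {a : Md → (E →L[ℂ] F)} {f : Md → E} (hln : l ≤ n)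
    (ha : SuppIn (lev l : Set Md) a) (hf : SuppIn (lev n : Set Md) f) :
    SuppIn (lev n : Set Md) (mul a f) :=
  (h03 E F F).1 _ l n f hln ((h03 E F F).2.2.2.2.1 l a ha) hf

theorem supp_mul_cl (h03 : S03) {l j : ℕ} {a : Md → (E →L[ℂ] F)} {f : Md → E} (hlj : l < j)
    (ha : SuppIn (lev l : Set Md) a) (hf : SuppIn (Cl j) f) : SuppIn (Cl j) (mul a f) :=
  (h03 E F F).2.1 _ l j f hlj ((h03 E F F).2.2.2.2.1 l a ha) hf

/-- Multiplication is a convolution. -/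
theorem mul_eq_conv (a : Md → (E →L[ℂ] F)) (f : Md → E) :
    mul a f = conv (ContinuousLinearMap.id ℂ (E →L[ℂ] F)) a f := rfl

theorem supp_mul_cl' (h03 : S03) {l j : ℕ} {a : Md → (E →L[ℂ] F)} {f : Md → E} (hlj : l < j)
    (ha : SuppIn (Cl j) a) (hf : SuppIn (lev l : Set Md) f) : SuppIn (Cl j) (mul a f) := by
  rw [mul_eq_conv]
  exact ((h03 (E →L[ℂ] F) E F).2.2.2.2.2.2 _ l j a f hlj).2 ha hf

theorem supp_tsF {S : Set Md} {a : Md → C3} (h : SuppIn S a) : SuppIn S (tsF a) := by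
  intro q hq
  show ts (a q) = 0
  rw [h q hq]
  unfold ts
  simp

theorem supp_add {S : Set Md} {f g : Md → E} (hf : SuppIn S f) (hg : SuppIn S g) :
    SuppIn S (f + g) := fun q hq => by simp [hf q hq, hg q hq]

theorem supp_sub {S : Set Md} {f g : Md → E} (hf : SuppIn S f) (hg : SuppIn S g) :
    SuppIn S (f - g) := fun q hq => by simp [hf q hq, hg q hq]

theorem supp_smul {S : Set Md} {f : Md → E} (z : ℂ) (hf : SuppIn S f) :
    SuppIn S (z • f) := fun q hq => by simp [hf q hq]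

theorem supp_neg {S : Set Md} {f : Md → E} (hf : SuppIn S f) :
    SuppIn S (-f) := fun q hq => by simp [hf q hq]

end basic

theorem supp_oneM (l : ℕ) : SuppIn (lev l : Set Md) oneM := by
  intro q hq
  have : q ≠ 0 := by
    rintro rfl
    exact hq (zero_mem _)
  simp [oneM, this]

theorem supp_one_sub {l : ℕ} {p : Md → Mat} (hp : SuppIn (lev l : Set Md) p) :
    SuppIn (lev l : Set Md) (oneM - (2 : ℂ) • p) := supp_sub (supp_oneM l) (supp_smul 2 hp)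

theorem idP_supp {l : ℕ} {P : Md → Md → Mat} (hP : ∀ p q, p - q ∉ lev l → P p q = 0) :
    ∀ p q, p - q ∉ lev l → (idK - (2 : ℂ) • P) p q = 0 := by
  intro p q hpq
  have h1 : p ≠ q := by
    rintro rfl
    apply hpq
    rw [sub_self]
    exact zero_mem _
  have h2 : idK p q = 0 := by simp [idK, diagK, h1]
  show idK p q - (2 : ℂ) • P p q = 0
  rw [hP p q hpq, h2]
  ext v i
  simp

theorem kcomp_supp {l : ℕ} {A B : Md → Md → Mat} (hA : ∀ p q, p - q ∉ lev l → A p q = 0)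
    (hB : ∀ p q, p - q ∉ lev l → B p q = 0) : ∀ p q, p - q ∉ lev l → kcomp A B p q = 0 := by
  intro p q hpq
  unfold kcomp
  have : ∀ j, (A p j).comp (B j q) = 0 := by
    intro j
    by_cases h1 : p - j ∈ lev l
    · have h2 : j - q ∉ lev l := by
        intro h2
        apply hpq
        have := add_mem h1 h2
        rwa [sub_add_sub_cancel] at this
      rw [hB j q h2, ContinuousLinearMap.comp_zero]
    · rw [hA p j h1, ContinuousLinearMap.zero_comp]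
  simp [this]

/-! ### the data of the step -/

section dat

variable {D : Dat}

theorem gk_Pl (hD : D.Hyp) {l : ℕ} (h1 : D.m ≤ l) (h2 : l ≤ D.n) : GK D (D.Pl l) :=
  ⟨(hD.P_le l h1 h2).2, ne_top_of_le_ne_top ENNReal.ofReal_ne_top (hD.P_le l h1 h2).1⟩

theorem gk_idP (hD : D.Hyp) {l : ℕ} (h1 : D.m ≤ l) (h2 : l ≤ D.n) :
    GK D (fun t => idK - (2 : ℂ) • D.Pl l t) :=
  (gk_id hD).sub hD ((gk_Pl hD h1 h2).smul hD 2)

/-- `[1 - 2 Π_l] ≤ 1 + 2 G`. -/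
theorem KN_idP (hD : D.Hyp) {l : ℕ} (h1 : D.m ≤ l) (h2 : l ≤ D.n) :
    KN D.T D.c (fun t => idK - (2 : ℂ) • D.Pl l t) ≤ ENNReal.ofReal (1 + 2 * D.G) := by
  have hG := G_pos hD
  have e1 : (fun t => idK - (2 : ℂ) • D.Pl l t) = (fun _ => idK) + (-2 : ℂ) • (D.Pl l) := by
    funext t p q
    show idK p q - (2 : ℂ) • D.Pl l t p q = idK p q + (-2 : ℂ) • D.Pl l t p q
    rw [sub_eq_add_neg]
    congr 1
    ext v i
    simp
  rw [e1]
  have h09 := pr_W09 Md C3 C3 C3 D.T D.c hD.c_pos.le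
  refine (h09.2.1 _ _).trans ?_
  rw [h09.2.2.1]
  have h3 : ‖(-2 : ℂ)‖ₑ = ENNReal.ofReal 2 := by
    rw [← ofReal_norm]
    simp
  rw [h3, ENNReal.ofReal_add zero_le_one (by positivity), ENNReal.ofReal_one,
    ENNReal.ofReal_mul (by norm_num)]
  gcongr
  · exact KN_idK hD.c_pos.le
  · exact (hD.P_le l h1 h2).1

theorem gk_M (hD : D.Hyp) {l : ℕ} (h1 : D.m ≤ l) (h2 : l ≤ D.n) :
    GK D (fun t => mulK (D.M l t)) :=
  gk_mulK hD (hD.F_cm l h1 h2).2.2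
    (ne_top_of_le_ne_top ENNReal.ofReal_ne_top (hD.F_le l h1 h2).2.2)

theorem gk_gen (hD : D.Hyp) {l : ℕ} (h1 : D.m ≤ l) (h2 : l ≤ D.n) : GK D (D.gen l) :=
  ((gk_idP hD h1 h2).comp hD (gk_M hD h1 h2)).neg hD

theorem gk_rw (h15 : S15) (hD : D.Hyp) {j : ℕ} (h1 : D.m < j) (h2 : j ≤ D.n + 1) :
    GK D (fun t => mulK (D.rw j t)) :=
  gk_mulK hD (h15 D hD j h1 h2).2.2.2.2.2.1
    (ne_top_of_le_ne_top ENNReal.ofReal_ne_top (h15 D hD j h1 h2).2.1)

theorem KN_rw (h15 : S15) (hD : D.Hyp) {j : ℕ} (h1 : D.m < j) (h2 : j ≤ D.n + 1) :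
    KN D.T D.c (fun t => mulK (D.rw j t)) ≤ ENNReal.ofReal (D.G * D.N j) := by
  rw [KN_mulK hD]
  exact (h15 D hD j h1 h2).2.1

theorem gk_p (h15 : S15) (hD : D.Hyp) {j : ℕ} (h1 : D.m < j) (h2 : j ≤ D.n + 1) :
    GK D (fun t => mulK (D.p j t)) :=
  gk_mulK hD (h15 D hD j h1 h2).2.2.2.2.2.2.1
    (ne_top_of_le_ne_top ENNReal.ofReal_ne_top (h15 D hD j h1 h2).2.2.1)

theorem cm_onep (h15 : S15) (hD : D.Hyp) {j : ℕ} (h1 : D.m < j) (h2 : j ≤ D.n + 1) :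
    CM D.T (fun t => oneM - (2 : ℂ) • D.p j t) :=
  fun q => continuousOn_const.sub (((h15 D hD j h1 h2).2.2.2.2.2.2.1 q).const_smul 2)

theorem gk_onep (h15 : S15) (hD : D.Hyp) {j : ℕ} (h1 : D.m < j) (h2 : j ≤ D.n + 1) :
    GK D (fun t => mulK (oneM - (2 : ℂ) • D.p j t)) :=
  ⟨fun p q => cm_onep h15 hD h1 h2 (p - q),
    ne_top_of_le_ne_top ENNReal.ofReal_ne_top (h15 D hD j h1 h2).2.2.2.1⟩

theorem gk_gK (h15 : S15) (hD : D.Hyp) {j : ℕ} (h1 : D.m < j) (h2 : j ≤ D.n + 1) :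
    GK D (fun t => mulK (D.gK j t)) := by
  refine gk_mulK hD (h15 D hD j h1 h2).2.2.2.2.2.2.2.1 ?_
  have e1 : Nrm D.T D.c 0 Dat.one' (D.gK j) =
      Nrm D.T D.c 0 (fun t => Dat.one' t * Dat.one' t) (fun t => conv
        (ContinuousLinearMap.compL ℂ C3 C3 C3) (oneM - (2 : ℂ) • D.p j t) (D.M (j - 1) t)) := by
    unfold Nrm Dat.gK genK mm
    simp only [Pi.neg_apply, enorm_neg, Dat.one', mul_one]
  rw [e1]
  refine ne_top_of_le_ne_top ?_ (pr_W02 Md Mat Mat Mat D.T D.c 0 Dat.one' Dat.one' _ _ _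
    (par0 hD) (one_wt _) (one_wt _))
  refine ENNReal.mul_ne_top (ENNReal.mul_ne_top enorm_ne_top ?_) ?_
  · rw [← KN_mulK hD]
    exact (gk_onep h15 hD h1 h2).fin
  · exact ne_top_of_le_ne_top ENNReal.ofReal_ne_top (hD.F_le (j - 1) (by omega) (by omega)).2.2

theorem ts_enorm (v : C3) : ‖ts v‖ₑ = ‖v‖ₑ := by
  rw [← ofReal_norm, ← ofReal_norm]
  unfold ts
  rw [ContinuousLinearMap.norm_toSpanSingleton]

theorem nrm_tsF {T c γ : ℝ} {ρ : ℝ → ℝ} (a : ℝ → Md → C3) :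
    Nrm T c γ ρ (fun t => tsF (a t)) = Nrm T c γ ρ a := by
  unfold Nrm tsF
  simp only [ts_enorm]

theorem cm_tsF {T : ℝ} {a : ℝ → Md → C3} (h : CM T a) : CM T (fun t => tsF (a t)) :=
  fun q => (ContinuousLinearMap.toSpanSingletonLIE ℂ C3).continuous.comp_continuousOn (h q)

theorem nrm_a (hD : D.Hyp) {j : ℕ} (h1 : D.m < j) (h2 : j ≤ D.n) :
    Nrm D.T D.c 0 Dat.one' (D.a j) ≤ ENNReal.ofReal (D.G ^ 2 / D.N j) := by
  have hG := G_pos hD
  have h3 := ((pr_W05 Md C3 D.T D.c 0 (D.α j) Dat.one' (D.a j) (D.a j) (par0 hD)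
    (hD.α_wt j h1 (by omega)) (one_wt _)).2.1 D.G hG.le (fun t ht => by
      simp only [Dat.one', mul_one]
      exact hD.α_le j h1 (by omega) t ht)).1
  refine h3.trans ((mul_le_mul_right (hD.z_le j h1 h2).2 _).trans ?_)
  rw [← ENNReal.ofReal_mul hG.le]
  refine ENNReal.ofReal_le_ofReal (le_of_eq ?_)
  ring

theorem KN_a (hD : D.Hyp) {j : ℕ} (h1 : D.m < j) (h2 : j ≤ D.n) :
    KN D.T D.c (fun t => mulK (tsF (D.a j t))) ≤ ENNReal.ofReal (D.G ^ 2 / D.N j) := by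
  rw [KN_mulK hD, nrm_tsF]
  exact nrm_a hD h1 h2

theorem gk_a (hD : D.Hyp) {j : ℕ} (h1 : D.m < j) (h2 : j ≤ D.n) :
    GK D (fun t => mulK (tsF (D.a j t))) :=
  gk_mulK hD (cm_tsF (hD.z_cm j h1 h2).2)
    (by rw [nrm_tsF]; exact ne_top_of_le_ne_top ENNReal.ofReal_ne_top (nrm_a hD h1 h2))

theorem gd_Cp (h15 : S15) (hD : D.Hyp) {l : ℕ} (h1 : D.m < l) (h2 : l ≤ D.n)
    {f : ℝ → Md → C3} (hf : Gd D f) : Gd D (fun t => D.Cp l t (f t)) :=
  ((gk_onep h15 hD h1 (by omega)).act hD ((gk_a hD h1 h2).act hD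
    ((gk_rw h15 hD h1 (by omega)).act hD hf))).neg hD

/-! ### supports -/

theorem Pl_supp (hW16 : W16) (hD : D.Hyp) {i : ℕ} (h1 : D.m ≤ i) (h2 : i ≤ D.n) {t : ℝ}
    (ht : t ∈ Icc 0 D.T) : ∀ p q, p - q ∉ lev i → D.Pl i t p q = 0 := by
  intro p q hpq
  obtain ⟨c, b, e, hfd⟩ := hD.fd i h1 h2 t ht
  exact ((hW16 Md (lev i) c b e (D.F i t) (D.Fi i t) (xi D.K) hfd).2.2.1 p q hpq).2

theorem gen_supp (h03 : S03) (hW16 : W16) (hD : D.Hyp) {i : ℕ} (h1 : D.m ≤ i) (h2 : i ≤ D.n)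
    {t : ℝ} (ht : t ∈ Icc 0 D.T) : ∀ p q, p - q ∉ lev i → D.gen i t p q = 0 := by
  intro p q hpq
  have h3 := kcomp_supp (l := i) (idP_supp (Pl_supp hW16 hD h1 h2 ht))
    ((h03 C3 C3 C3).2.2.2.2.1 i (D.M i t) ((hD.F_supp i h1 h2).2.2 t ht)) p q hpq
  show -(kcomp (idK - (2 : ℂ) • D.Pl i t) (mulK (D.M i t)) p q) = 0
  rw [h3, neg_zero]

theorem rw_supp (h15 : S15) (hD : D.Hyp) {j : ℕ} (h1 : D.m < j) (h2 : j ≤ D.n + 1) {t : ℝ}
    (ht : t ∈ Icc 0 D.T) : SuppIn (lev (j - 1) : Set Md) (D.rw j t) :=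
  (h15 D hD j h1 h2).2.2.2.2.2.2.2.2.2.1 t ht

theorem p_supp (h15 : S15) (hD : D.Hyp) {j : ℕ} (h1 : D.m < j) (h2 : j ≤ D.n + 1) {t : ℝ}
    (ht : t ∈ Icc 0 D.T) : SuppIn (lev (j - 1) : Set Md) (D.p j t) :=
  (h15 D hD j h1 h2).2.2.2.2.2.2.2.2.1 t ht

theorem gK_supp (h15 : S15) (hD : D.Hyp) {j : ℕ} (h1 : D.m < j) (h2 : j ≤ D.n + 1) {t : ℝ}
    (ht : t ∈ Icc 0 D.T) : SuppIn (lev (j - 1) : Set Md) (D.gK j t) :=
  (h15 D hD j h1 h2).2.2.2.2.2.2.2.2.2.2.1 t ht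

theorem a_supp (hD : D.Hyp) {j : ℕ} (h1 : D.m < j) (h2 : j ≤ D.n) {t : ℝ}
    (ht : t ∈ Icc 0 D.T) : SuppIn (Cl j) (tsF (D.a j t)) :=
  supp_tsF ((hD.z_supp j h1 h2).2 t ht)

/-- The coupling maps level `l - 1` to class `l`. -/
theorem Cp_supp (h03 : S03) (h15 : S15) (hD : D.Hyp) {l : ℕ} (h1 : D.m < l) (h2 : l ≤ D.n)
    {t : ℝ} (ht : t ∈ Icc 0 D.T) {f : Md → C3} (hf : SuppIn (lev (l - 1) : Set Md) f) :
    SuppIn (Cl l) (D.Cp l t f) := by
  unfold Dat.Cp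
  refine supp_neg (supp_mul_cl h03 (by omega : l - 1 < l)
    (supp_one_sub (p_supp h15 hD h1 (by omega) ht)) ?_)
  refine supp_mul_cl' h03 (by omega : l - 1 < l) (a_supp hD h1 h2 ht) ?_
  exact supp_mul_lev h03 le_rfl (rw_supp h15 hD h1 (by omega) ht) hf

/-! ### the decomposition -/

/-- Class `i` of `w`. -/
noncomputable def Wc (D : Dat) (w : ℝ → Md → C3) (i : ℕ) (t : ℝ) : Md → C3 :=
  res (Cs D.m i) (w t)

/-- Error of S12. -/
noncomputable def eL (D : Dat) (l : ℕ) (f : ℝ → Md → C3) (t : ℝ) : Md → C3 :=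
  act (D.gen l t) (f t) - act (D.gen (l - 1) t) (f t) - D.Cp l t (f t)

/-- Error of S13. -/
noncomputable def eC (D : Dat) (l : ℕ) (f : ℝ → Md → C3) (t : ℝ) : Md → C3 :=
  act (D.gen l t) (f t) - mul (D.gK l t) (f t) +
    act (idK - (2 : ℂ) • D.Pl l t) (mul (tsF (D.a l t)) (mul (D.rw l t) (f t)))

/-- `a_i N_i κ_i`. -/
noncomputable def fB (D : Dat) (i : ℕ) (κ : ℝ → Md → ℂ) (t : ℝ) : Md → C3 :=
  mul (tsF (D.a i t)) ((D.N i : ℂ) • res (Cl i) (κ t))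

/-- `(1 - 2 Π_i)(a_i N_i κ_i)`. -/
noncomputable def BB (D : Dat) (i : ℕ) (κ : ℝ → Md → ℂ) (t : ℝ) : Md → C3 :=
  act (idK - (2 : ℂ) • D.Pl i t) (fB D i κ t)

theorem nrm_Wc {ρ : ℕ → ℝ → ℝ} {w : ℝ → Md → C3} {κ : ℝ → Md → ℂ} {i : ℕ} (h1 : D.m ≤ i)
    (h2 : i ≤ D.n + 1) : Nrm D.T D.c D.γ (ρ i) (Wc D w i) ≤ XN D ρ w κ := by
  unfold XN
  refine le_trans ?_ le_self_add
  exact Finset.single_le_sum (s := Finset.Icc D.m (D.n + 1))
    (f := fun o => Nrm D.T D.c D.γ (ρ o) (fun t => res (Cs D.m o) (w t)))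
    (fun _ _ => zero_le) (Finset.mem_Icc.2 ⟨h1, h2⟩)

theorem nrm_κc {ρ : ℕ → ℝ → ℝ} {w : ℝ → Md → C3} {κ : ℝ → Md → ℂ} {i : ℕ} (h1 : D.m < i)
    (h2 : i ≤ D.n + 1) : Nrm D.T D.c D.γ (fun t => D.u i ^ 128 * ρ i t)
      (fun t => res (Cl i) (κ t)) ≤ XN D ρ w κ := by
  unfold XN
  refine le_trans ?_ le_add_self
  exact Finset.single_le_sum (s := Finset.Ioc D.m (D.n + 1))
    (f := fun o => Nrm D.T D.c D.γ (fun t => D.u o ^ 128 * ρ o t) (fun t => res (Cl o) (κ t)))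
    (fun _ _ => zero_le) (Finset.mem_Ioc.2 ⟨h1, h2⟩)

theorem cm_res {E : Type} [NormedAddCommGroup E] {T : ℝ} {f : ℝ → Md → E} (S : Set Md)
    (h : CM T f) : CM T (fun t => res S (f t)) := by
  intro q
  by_cases hq : q ∈ S
  · have : (fun t => res S (f t) q) = fun t => f t q := by
      funext t
      simp [res, hq]
    rw [this]
    exact h q
  · have : (fun t => res S (f t) q) = fun _ => (0 : E) := by
      funext t
      simp [res, hq]
    rw [this]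
    exact continuousOn_const

theorem wt_mul {T a : ℝ} (ha : 0 < a) {ρ : ℝ → ℝ} (h : Wt T ρ) : Wt T (fun t => a * ρ t) :=
  ⟨fun t ht => mul_pos ha (h.pos t ht), continuousOn_const.mul h.cont,
    fun _ hx _ hy hxy => mul_le_mul_of_nonneg_left (h.mono hx hy hxy) ha.le⟩

section fixed

variable {ρ : ℕ → ℝ → ℝ} {Str : ℝ → ℝ} {w : ℝ → Md → C3} {κ : ℝ → Md → ℂ}

theorem gd_Wc (hD : D.Hyp) (hW : Wts D ρ Str) (hA : Adm D ρ w κ) {i : ℕ} (h1 : D.m ≤ i)
    (h2 : i ≤ D.n + 1) : Gd D (Wc D w i) :=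
  gd_of hD (hW.wt i h1 h2) (cm_res _ hA.w_cm)
    (ne_top_of_le_ne_top hA.fin (nrm_Wc h1 h2))

theorem gd_κc (hD : D.Hyp) (hW : Wts D ρ Str) (hA : Adm D ρ w κ) {i : ℕ} (h1 : D.m < i)
    (h2 : i ≤ D.n + 1) : Gd D (fun t => res (Cl i) (κ t)) :=
  gd_of hD (wt_mul (pow_pos (hD.u_pos i) 128) (hW.wt i h1.le h2)) (cm_res _ hA.κ_cm)
    (ne_top_of_le_ne_top hA.fin (nrm_κc h1 h2))

theorem w_eq (h04 : S04) (hD : D.Hyp) (hA : Adm D ρ w κ) {t : ℝ} (ht : t ∈ Icc 0 D.T) :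
    w t = ∑ i ∈ Finset.Icc D.m (D.n + 1), Wc D w i t :=
  (h04 C3 D.m (D.n + 1) (by have := hD.hmn; omega)).2.1 (w t) (hA.w_supp t ht)

theorem gd_eL (h15 : S15) (hD : D.Hyp) {l : ℕ} (h1 : D.m < l) (h2 : l ≤ D.n)
    {f : ℝ → Md → C3} (hf : Gd D f) : Gd D (eL D l f) :=
  (((gk_gen hD h1.le h2).act hD hf).sub hD
    ((gk_gen hD (by omega : D.m ≤ l - 1) (by omega)).act hD hf)).sub hD (gd_Cp h15 hD h1 h2 hf)

theorem gd_eC (h15 : S15) (hD : D.Hyp) {l : ℕ} (h1 : D.m < l) (h2 : l ≤ D.n)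
    {f : ℝ → Md → C3} (hf : Gd D f) : Gd D (eC D l f) :=
  (((gk_gen hD h1.le h2).act hD hf).sub hD
    ((gk_gK h15 hD h1 (by omega)).act hD hf)).add hD
    ((gk_idP hD h1.le h2).act hD ((gk_a hD h1 h2).act hD
      ((gk_rw h15 hD h1 (by omega)).act hD hf)))

theorem gd_fB (hD : D.Hyp) (hW : Wts D ρ Str) (hA : Adm D ρ w κ) {i : ℕ} (h1 : D.m < i)
    (h2 : i ≤ D.n) : Gd D (fB D i κ) :=
  (gk_a hD h1 h2).act hD ((gd_κc hD hW hA h1 (by omega)).smul hD _)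

theorem gd_BB (hD : D.Hyp) (hW : Wts D ρ Str) (hA : Adm D ρ w κ) {i : ℕ} (h1 : D.m < i)
    (h2 : i ≤ D.n) : Gd D (BB D i κ) :=
  (gk_idP hD h1.le h2).act hD (gd_fB hD hW hA h1 h2)

theorem tele (g : ℕ → Md → C3) {i n : ℕ} (h : i ≤ n) :
    g n = g i + ∑ l ∈ Finset.Ioc i n, (g l - g (l - 1)) := by
  induction n, h using Nat.le_induction with
  | base => simp
  | succ n hn ih =>
    rw [Finset.sum_Ioc_succ_top hn, ← add_assoc, ← ih]
    simp

/-- The full linear part. -/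
theorem Lin_eq (h04 : S04) (h15 : S15) (hD : D.Hyp) (hW : Wts D ρ Str) (hA : Adm D ρ w κ)
    {t : ℝ} (ht : t ∈ Icc 0 D.T) :
    Lin D w κ t = act (D.gen D.n t) (Wc D w (D.n + 1) t) + act (D.gen D.m t) (Wc D w D.m t) +
      ∑ i ∈ Finset.Ioc D.m D.n, (mul (D.gK i t) (Wc D w i t) +
        (eC D i (Wc D w i) t - BB D i κ t)) +
      ∑ i ∈ Finset.Icc D.m D.n, ∑ l ∈ Finset.Ioc i D.n, (D.Cp l t (Wc D w i t) +
        eL D l (Wc D w i) t) := by
  have hmn := hD.hmn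
  unfold Lin
  have hgen := gk_gen hD hmn le_rfl
  have e1 : act (D.gen D.n t) (w t) =
      ∑ i ∈ Finset.Icc D.m (D.n + 1), act (D.gen D.n t) (Wc D w i t) := by
    rw [w_eq h04 hD hA ht]
    refine act_sum_right hD (hgen.sK hD ht) ht _ fun i hi => ?_
    obtain ⟨hi1, hi2⟩ := Finset.mem_Icc.1 hi
    exact gd_Wc hD hW hA hi1 hi2
  have e2 : ∀ i ∈ Finset.Ioc D.m D.n, act (idK - (2 : ℂ) • D.Pl i t) (mul (tsF (D.a i t))
      (mul (D.rw i t) (res (Cl i) (w t)) - (D.N i : ℂ) • res (Cl i) (κ t))) =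
      act (idK - (2 : ℂ) • D.Pl i t) (mul (tsF (D.a i t)) (mul (D.rw i t) (Wc D w i t))) -
        BB D i κ t := by
    intro i hi
    obtain ⟨hi1, hi2⟩ := Finset.mem_Ioc.1 hi
    have e3 : res (Cl i) (w t) = Wc D w i t := by
      unfold Wc
      rw [cs_gt hi1]
    rw [e3]
    have g1 : Gd D (fun t => mul (D.rw i t) (Wc D w i t)) :=
      (gk_rw h15 hD hi1 (by omega)).act hD (gd_Wc hD hW hA hi1.le (by omega))
    have g2 : Gd D (fun t => (D.N i : ℂ) • res (Cl i) (κ t)) :=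
      (gd_κc hD hW hA hi1 (by omega)).smul hD _
    have e4 : mul (tsF (D.a i t))
        (mul (D.rw i t) (Wc D w i t) - (D.N i : ℂ) • res (Cl i) (κ t)) =
        mul (tsF (D.a i t)) (mul (D.rw i t) (Wc D w i t)) - fB D i κ t :=
      act_sub_right ((gk_a hD hi1 hi2).sK hD ht) (g1.sN hD ht) (g2.sN hD ht)
    have g3 : Gd D (fun t => mul (tsF (D.a i t)) (mul (D.rw i t) (Wc D w i t))) :=
      (gk_a hD hi1 hi2).act hD g1
    rw [e4, act_sub_right ((gk_idP hD hi1.le hi2).sK hD ht)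
      (g3.sN hD ht) ((gd_fB hD hW hA hi1 hi2).sN hD ht)]
    rfl
  rw [e1, Finset.sum_congr rfl e2, Finset.sum_Icc_succ_top (by omega)]
  have e5 : ∀ i ∈ Finset.Icc D.m D.n, act (D.gen D.n t) (Wc D w i t) =
      act (D.gen i t) (Wc D w i t) + ∑ l ∈ Finset.Ioc i D.n, (D.Cp l t (Wc D w i t) +
        eL D l (Wc D w i) t) := by
    intro i hi
    rw [tele (fun l => act (D.gen l t) (Wc D w i t)) (Finset.mem_Icc.1 hi).2]
    congr 1
    refine Finset.sum_congr rfl fun l _ => ?_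
    unfold eL
    abel
  rw [Finset.sum_congr rfl e5, Finset.sum_add_distrib,
    ← Finset.add_sum_Ioc_eq_sum_Icc (f := fun i => act (D.gen i t) (Wc D w i t)) hmn]
  have e6 : ∑ i ∈ Finset.Ioc D.m D.n, (mul (D.gK i t) (Wc D w i t) +
        (eC D i (Wc D w i) t - BB D i κ t)) =
      ∑ i ∈ Finset.Ioc D.m D.n, act (D.gen i t) (Wc D w i t) +
      ∑ i ∈ Finset.Ioc D.m D.n, (act (idK - (2 : ℂ) • D.Pl i t) (mul (tsF (D.a i t))
        (mul (D.rw i t) (Wc D w i t))) - BB D i κ t) := by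
    rw [← Finset.sum_add_distrib]
    refine Finset.sum_congr rfl fun i _ => ?_
    unfold eC
    abel
  rw [e6]
  abel

/-- Classes of the model. -/
theorem model_eq (o : ℕ) (t : ℝ) (f : Md → C3) (h : D.m < o) :
    model D o t f = mul (D.gK o t) f := by
  unfold model
  rw [if_neg (by omega)]

theorem model_eq' (t : ℝ) (f : Md → C3) : model D D.m t f = act (D.gen D.m t) f := by
  unfold model
  rw [if_pos le_rfl]

/-- The linear source of an old class. -/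
theorem QL_eq (h03 : S03) (h04 : S04) (h15 : S15) (hW16 : W16) (hD : D.Hyp)
    (hW : Wts D ρ Str) (hA : Adm D ρ w κ) {o : ℕ} (ho1 : D.m ≤ o) (ho2 : o ≤ D.n)
    {t : ℝ} (ht : t ∈ Icc 0 D.T) :
    QL D o w κ t =
      ∑ i ∈ Finset.Ioc D.m D.n, (res (Cs D.m o) (eC D i (Wc D w i) t) -
        res (Cs D.m o) (BB D i κ t)) +
      ∑ i ∈ Finset.Icc D.m D.n, ∑ l ∈ Finset.Ioc i D.n,
        res (Cs D.m o) (eL D l (Wc D w i) t) +
      ∑ i ∈ Finset.Ico D.m o, D.Cp o t (Wc D w i t) := by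
  have hmn := hD.hmn
  unfold QL
  rw [Lin_eq h04 h15 hD hW hA ht]
  simp only [res_add, res_sub, res_sum]
  -- the new class does not contribute
  have e1 : res (Cs D.m o) (act (D.gen D.n t) (Wc D w (D.n + 1) t)) = 0 := by
    refine res_disj (S' := Cl (D.n + 1)) ?_ ?_
    · refine (h03 C3 C3 C3).2.1 _ D.n (D.n + 1) _ (Nat.lt_succ_self _)
        (gen_supp h03 hW16 hD hmn le_rfl ht) ?_
      unfold Wc
      rw [cs_gt (by omega : D.m < D.n + 1)]
      exact supp_res _ _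
    · intro q hq
      exact cl_disj' (by omega : o < D.n + 1) q (cs_lev ho1 hq)
  -- the couplings
  have e2 : ∀ i ∈ Finset.Icc D.m D.n, ∑ l ∈ Finset.Ioc i D.n,
      (res (Cs D.m o) (D.Cp l t (Wc D w i t)) + res (Cs D.m o) (eL D l (Wc D w i) t)) =
      ∑ l ∈ Finset.Ioc i D.n, res (Cs D.m o) (eL D l (Wc D w i) t) +
        if i < o then D.Cp o t (Wc D w i t) else 0 := by
    intro i hi
    obtain ⟨hi1, hi2⟩ := Finset.mem_Icc.1 hi
    have hs : ∀ l ∈ Finset.Ioc i D.n, SuppIn (Cs D.m l) (D.Cp l t (Wc D w i t)) := by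
      intro l hl
      obtain ⟨hl1, hl2⟩ := Finset.mem_Ioc.1 hl
      rw [cs_gt (by omega : D.m < l)]
      refine Cp_supp h03 h15 hD (by omega) hl2 ht ?_
      exact supp_mono ((cs_lev hi1).trans (lev_sub (by omega))) (supp_res _ _)
    rw [Finset.sum_add_distrib, add_comm]
    congr 1
    split_ifs with hio
    · rw [Finset.sum_eq_single_of_mem o (Finset.mem_Ioc.2 ⟨hio, ho2⟩)]
      · exact res_self (hs o (Finset.mem_Ioc.2 ⟨hio, ho2⟩))
      · intro l hl hlo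
        obtain ⟨hl1, hl2⟩ := Finset.mem_Ioc.1 hl
        exact res_disj (hs l hl) (cs_disj ho1 (by omega) (Ne.symm hlo))
    · refine Finset.sum_eq_zero fun l hl => ?_
      obtain ⟨hl1, hl2⟩ := Finset.mem_Ioc.1 hl
      exact res_disj (hs l hl) (cs_disj ho1 (by omega) (by omega))
  have e3 : ∑ i ∈ Finset.Icc D.m D.n, (if i < o then D.Cp o t (Wc D w i t) else 0) =
      ∑ i ∈ Finset.Ico D.m o, D.Cp o t (Wc D w i t) := by
    rw [← Finset.sum_filter]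
    refine Finset.sum_congr ?_ fun _ _ => rfl
    ext i
    simp only [Finset.mem_filter, Finset.mem_Icc, Finset.mem_Ico]
    omega
  have e5 : ∑ i ∈ Finset.Icc D.m D.n, (∑ l ∈ Finset.Ioc i D.n,
      res (Cs D.m o) (eL D l (Wc D w i) t) + if i < o then D.Cp o t (Wc D w i t) else 0) =
      ∑ i ∈ Finset.Icc D.m D.n, ∑ l ∈ Finset.Ioc i D.n,
        res (Cs D.m o) (eL D l (Wc D w i) t) +
      ∑ i ∈ Finset.Icc D.m D.n, (if i < o then D.Cp o t (Wc D w i t) else 0) :=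
    Finset.sum_add_distrib
  rw [e1, Finset.sum_congr rfl e2, e5, e3]
  -- the Kelvin generators
  have hs : ∀ i ∈ Finset.Ioc D.m D.n, SuppIn (Cs D.m i) (mul (D.gK i t) (Wc D w i t)) := by
    intro i hi
    obtain ⟨hi1, hi2⟩ := Finset.mem_Ioc.1 hi
    rw [cs_gt hi1]
    refine supp_mul_cl h03 (by omega : i - 1 < i) (gK_supp h15 hD hi1 (by omega) ht) ?_
    unfold Wc
    rw [cs_gt hi1]
    exact supp_res _ _
  have hsm : SuppIn (Cs D.m D.m) (act (D.gen D.m t) (Wc D w D.m t)) := by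
    rw [cs_eq]
    refine (h03 C3 C3 C3).1 _ D.m D.m _ le_rfl (gen_supp h03 hW16 hD le_rfl hmn ht) ?_
    unfold Wc
    rw [cs_eq]
    exact supp_res _ _
  have e4 : res (Cs D.m o) (act (D.gen D.m t) (Wc D w D.m t)) +
      ∑ i ∈ Finset.Ioc D.m D.n, res (Cs D.m o) (mul (D.gK i t) (Wc D w i t)) =
      model D o t (res (Cs D.m o) (w t)) := by
    rcases ho1.eq_or_lt with h | h
    · subst h
      rw [model_eq', res_self hsm, Finset.sum_eq_zero, add_zero]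
      · rfl
      · intro i hi
        obtain ⟨hi1, hi2⟩ := Finset.mem_Ioc.1 hi
        exact res_disj (hs i hi) (cs_disj le_rfl hi1.le (by omega))
    · rw [model_eq o t _ h, res_disj hsm (cs_disj ho1 le_rfl (by omega)), zero_add,
        Finset.sum_eq_single_of_mem o (Finset.mem_Ioc.2 ⟨h, ho2⟩)]
      · rw [res_self (hs o (Finset.mem_Ioc.2 ⟨h, ho2⟩))]
        rfl
      · intro i hi hio
        obtain ⟨hi1, hi2⟩ := Finset.mem_Ioc.1 hi
        exact res_disj (hs i hi) (cs_disj ho1 hi1.le (Ne.symm hio))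
  rw [← e4, Finset.sum_add_distrib]
  abel

end fixed

end dat

end Dec

end Pool.Agent.Work.MP_b0497c_an.Unf.S
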