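import Pool.Agent.Work.MP_b0497c_an.Unf.SStmts2

set_option autoImplicit false

/-!
# S21: bilinear sources of the old classes
-/

open scoped ENNReal
open Set MeasureTheory

namespace Pool.Agent.Work.MP_b0497c_an.Unf.S

open W

namespace I21

/-! ### parameters -/

theorem gT {D : Dat} (h : D.Hyp) : D.γ * D.T = D.c / 2 := by
  have := h.T_pos
  rw [h.γ_eq]
  field_simp

theorem γ_pos {D : Dat} (h : D.Hyp) : 0 < D.γ := by
  have h1 := h.T_pos
  have h2 := h.c_pos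
  rw [h.γ_eq]
  positivity

theorem par {D : Dat} (h : D.Hyp) : Par D.T D.c D.γ := by
  have h2 := h.c_pos
  refine ⟨h.T_pos, (γ_pos h).le, ?_⟩
  rw [gT h]
  linarith

theorem par' {D : Dat} (h : D.Hyp) : Par D.T (3 / 4 * D.c) D.γ := by
  have h2 := h.c_pos
  refine ⟨h.T_pos, (γ_pos h).le, ?_⟩
  rw [gT h]
  linarith

theorem γ_inv {D : Dat} (h : D.Hyp) : 1 / D.γ ≤ D.G := by
  rw [h.γ_eq, one_div_div, div_le_iff₀ h.c_pos]
  have h1 := h.T_le
  have h2 := h.c_G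
  linarith

theorem N_mono {D : Dat} (h : D.Hyp) {i j : ℕ} (hij : i ≤ j) (hj : j ≤ D.n + 1) :
    D.N i ≤ D.N j := by
  induction j, hij using Nat.le_induction with
  | base => exact le_rfl
  | succ j hij ih =>
    have h1 := ih (by omega)
    have h2 := h.N_sep j (by omega)
    have h3 : 0 ≤ D.N j := norm_nonneg _
    linarith

theorem u_anti {D : Dat} (h : D.Hyp) {i j : ℕ} (hi : D.m < i) (hij : i ≤ j) (hj : j ≤ D.n + 1) :
    D.u j ≤ D.u i := by
  induction j, hij using Nat.le_induction with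
  | base => exact le_rfl
  | succ j hij ih =>
    have h1 := ih (by omega)
    have h2 := h.u_step j (by omega) (by omega)
    have h3 : D.u j ^ 16 ≤ D.u j ^ 1 :=
      pow_le_pow_of_le_one (h.u_pos j).le (h.u_lt j).le (by norm_num)
    rw [pow_one] at h3
    linarith

theorem u_last {D : Dat} (h : D.Hyp) {o : ℕ} (ho : D.m < o) (hon : o ≤ D.n) :
    D.u (D.n + 1) ≤ D.u o ^ 16 :=
  (u_anti h (by omega) (by omega : o + 1 ≤ D.n + 1) le_rfl).trans (h.u_step o ho hon)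

theorem one_wt (T : ℝ) : Wt T Dat.one' :=
  ⟨fun _ _ => by norm_num [Dat.one'], continuousOn_const, fun _ _ _ _ _ => le_rfl⟩

/-! ### norms -/

section norms

variable {E F : Type} [NormedAddCommGroup E] [NormedAddCommGroup F]

theorem enorm_mono {x : E} {y : F} (h : ‖x‖ ≤ ‖y‖) : ‖x‖ₑ ≤ ‖y‖ₑ := by
  rw [← ofReal_norm, ← ofReal_norm]
  exact ENNReal.ofReal_le_ofReal h

theorem src_mono [NormedSpace ℂ E] [NormedSpace ℂ F] (T c γ : ℝ) (ρ : ℝ → ℝ) (f : ℝ → Md → E) (g : ℝ → Md → F)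
    (h : ∀ t ∈ Icc 0 T, ∀ q, ‖f t q‖ ≤ ‖g t q‖) : Src T c γ ρ f ≤ Src T c γ ρ g := by
  unfold Src
  refine ENNReal.tsum_le_tsum fun m => iSup₂_mono fun t ht => ?_
  refine setLIntegral_mono' measurableSet_Ioc fun s hs => ?_
  exact mul_le_mul' le_rfl (enorm_mono (h s ⟨hs.1.le, hs.2.trans ht.2⟩ m))

theorem nrm_mono [NormedSpace ℂ E] [NormedSpace ℂ F] (T c γ : ℝ) (ρ : ℝ → ℝ) (f : ℝ → Md → E) (g : ℝ → Md → F)
    (h : ∀ t ∈ Icc 0 T, ∀ q, ‖f t q‖ ≤ ‖g t q‖) : Nrm T c γ ρ f ≤ Nrm T c γ ρ g := by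
  unfold Nrm
  refine ENNReal.tsum_le_tsum fun m => iSup₂_mono fun t ht => ?_
  exact mul_le_mul' le_rfl (enorm_mono (h t ht m))

/-- one factor `len` is finite for the smaller radius -/
theorem nrm_len [NormedSpace ℂ E] [NormedSpace ℂ F] (T c γ : ℝ) (ρ : ℝ → ℝ) (hρ : ∀ t ∈ Icc 0 T, 0 < ρ t) (hc : 0 < c)
    (f : ℝ → Md → E) (g : ℝ → Md → F) (B : ℝ) (hB : 0 ≤ B)
    (h : ∀ t ∈ Icc 0 T, ∀ q, ‖g t q‖ ≤ B * len q * ‖f t q‖) :
    Nrm T (3 / 4 * c) γ ρ g ≤ ENNReal.ofReal (4 * B / c) * Nrm T c γ ρ f := by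
  unfold Nrm
  rw [← ENNReal.tsum_mul_left]
  refine ENNReal.tsum_le_tsum fun m => iSup₂_le fun t ht => ?_
  refine le_trans ?_ (mul_le_mul' le_rfl (le_iSup₂ (f := fun t (_ : t ∈ Icc 0 T) =>
    ENNReal.ofReal (Real.exp ((c - γ * t) * len m) / ρ t) * ‖f t m‖ₑ) t ht))
  have hr := hρ t ht
  have hl : 0 ≤ len m := len_nonneg m
  rw [← ofReal_norm, ← ofReal_norm, ← ENNReal.ofReal_mul (by positivity),
    ← ENNReal.ofReal_mul (by positivity), ← ENNReal.ofReal_mul (by positivity)]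
  refine ENNReal.ofReal_le_ofReal ?_
  have h1 : len m ≤ 4 / c * Real.exp (c / 4 * len m) := by
    have := Real.add_one_le_exp (c / 4 * len m)
    rw [div_mul_eq_mul_div, le_div_iff₀ hc]
    linarith
  have h2 : Real.exp ((c - γ * t) * len m) =
      Real.exp ((3 / 4 * c - γ * t) * len m) * Real.exp (c / 4 * len m) := by
    rw [← Real.exp_add]
    congr 1
    ring
  rw [h2]
  calc Real.exp ((3 / 4 * c - γ * t) * len m) / ρ t * ‖g t m‖
      ≤ Real.exp ((3 / 4 * c - γ * t) * len m) / ρ t *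
        (B * (4 / c * Real.exp (c / 4 * len m)) * ‖f t m‖) := by
        refine mul_le_mul_of_nonneg_left ((h t ht m).trans ?_) (by positivity)
        refine mul_le_mul_of_nonneg_right ?_ (norm_nonneg _)
        exact mul_le_mul_of_nonneg_left h1 hB
    _ = _ := by
        ring

end norms

/-! ### the bilinear map -/

theorem outerB_apply (w v x : C3) : outerB w v x = bdot v x • w := rfl

theorem bdot_le (v x : C3) : ‖bdot v x‖ ≤ 3 * ‖v‖ * ‖x‖ := by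
  have h1 : bdot v x = ∑ i : Fin 3, v i * x i := by
    simp [bdot]
  rw [h1]
  refine (norm_sum_le _ _).trans ?_
  have h2 : ∀ i ∈ (Finset.univ : Finset (Fin 3)), ‖v i * x i‖ ≤ ‖v‖ * ‖x‖ := by
    intro i _
    rw [norm_mul]
    exact mul_le_mul (PiLp.norm_apply_le v i) (PiLp.norm_apply_le x i) (norm_nonneg _)
      (norm_nonneg _)
  refine (Finset.sum_le_card_nsmul _ _ _ h2).trans (le_of_eq ?_)
  simp
  ring


theorem outerB_bd (w v : C3) : ‖outerB w v‖ ≤ 3 * ‖w‖ * ‖v‖ := by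
  refine ContinuousLinearMap.opNorm_le_bound _ (by positivity) fun x => ?_
  rw [outerB_apply, norm_smul]
  calc ‖bdot v x‖ * ‖w‖ ≤ 3 * ‖v‖ * ‖x‖ * ‖w‖ :=
        mul_le_mul_of_nonneg_right (bdot_le v x) (norm_nonneg _)
    _ = 3 * ‖w‖ * ‖v‖ * ‖x‖ := by ring

section gen

variable {E F G : Type} [NormedAddCommGroup E] [NormedSpace ℂ E] [NormedAddCommGroup F]
  [NormedSpace ℂ F] [NormedAddCommGroup G] [NormedSpace ℂ G]

theorem op2 (β : E →L[ℂ] F →L[ℂ] G) (C : ℝ) (hC : 0 ≤ C)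
    (h : ∀ w v, ‖β w v‖ ≤ C * ‖w‖ * ‖v‖) : ‖β‖ₑ ≤ ENNReal.ofReal C := by
  rw [← ofReal_norm]
  refine ENNReal.ofReal_le_ofReal ?_
  refine ContinuousLinearMap.opNorm_le_bound _ hC fun w => ?_
  exact ContinuousLinearMap.opNorm_le_bound _ (by positivity) fun v => h w v

theorem smB_bd (s : ℂ) (w : C3) : ‖smB s w‖ ≤ 1 * ‖s‖ * ‖w‖ := by
  have : smB s w = s • w := rfl
  rw [this, norm_smul, one_mul]

omit [NormedSpace ℂ E] in
theorem sN0_le {T c γ : ℝ} {ρ : ℝ → ℝ} (hp : Par T c γ) (hw : Wt T ρ) (f : ℝ → Md → E) {t : ℝ}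
    (ht : t ∈ Icc 0 T) : sN 0 (f t) ≤ ENNReal.ofReal (ρ t) * Nrm T c γ ρ f := by
  unfold sN Nrm
  rw [← ENNReal.tsum_mul_left]
  refine ENNReal.tsum_le_tsum fun m => ?_
  refine le_trans ?_ (mul_le_mul' le_rfl (le_iSup₂ (f := fun t (_ : t ∈ Icc 0 T) =>
    ENNReal.ofReal (Real.exp ((c - γ * t) * len m) / ρ t) * ‖f t m‖ₑ) t ht))
  have hr := hw.pos t ht
  have hl : 0 ≤ len m := len_nonneg m
  rw [← mul_assoc, ← ENNReal.ofReal_mul hr.le, zero_mul, Real.exp_zero]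
  refine mul_le_mul' (ENNReal.ofReal_le_ofReal ?_) le_rfl
  rw [mul_div_cancel₀ _ hr.ne']
  refine Real.one_le_exp (mul_nonneg ?_ hl)
  have h1 := hp.le
  have h2 := mul_le_mul_of_nonneg_left ht.2 hp.γ_nonneg
  linarith

omit [NormedSpace ℂ E] in
theorem res_norm (S : Set Md) (f : Md → E) (q : Md) : ‖res S f q‖ ≤ ‖f q‖ := by
  unfold res
  split_ifs with h
  · exact le_rfl
  · rw [norm_zero]
    exact norm_nonneg _

omit [NormedSpace ℂ E] in
theorem sN_res (S : Set Md) (f : Md → E) : sN 0 (res S f) ≤ sN 0 f := by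
  unfold sN
  exact ENNReal.tsum_le_tsum fun m => mul_le_mul' le_rfl (enorm_mono (res_norm S f m))

omit [NormedSpace ℂ E] in
theorem cm_res {T : ℝ} (S : Set Md) {f : ℝ → Md → E} (hf : CM T f) :
    CM T (fun t => res S (f t)) := by
  intro q
  by_cases h : q ∈ S
  · have e : (fun t => res S (f t) q) = fun t => f t q := funext fun t => if_pos h
    rw [e]
    exact hf q
  · have e : (fun t => res S (f t) q) = fun _ => 0 := funext fun t => if_neg h
    rw [e]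
    exact continuousOn_const

theorem conv_summable [CompleteSpace G] (β : E →L[ℂ] F →L[ℂ] G) (f : Md → E) (g : Md → F)
    (hf : sN 0 f ≠ ∞) (hg : sN 0 g ≠ ∞) (q : Md) : Summable fun l => β (f (q - l)) (g l) := by
  have h1 : ∀ l, ‖f l‖ ≤ (sN 0 f).toReal := by
    intro l
    have h2 : ‖f l‖ₑ ≤ sN 0 f := by
      unfold sN
      refine le_trans ?_ (ENNReal.le_tsum l)
      rw [zero_mul, Real.exp_zero, ENNReal.ofReal_one, one_mul]
    have h3 := ENNReal.toReal_mono hf h2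
    rwa [toReal_enorm] at h3
  have h2 : Summable fun l => ‖g l‖ := by
    have h3 : ∑' l, ‖g l‖ₑ ≠ ∞ := by
      unfold sN at hg
      simpa using hg
    have h4 := ENNReal.summable_toReal h3
    simpa using h4
  refine Summable.of_norm_bounded (g := fun l => ‖β‖ * (sN 0 f).toReal * ‖g l‖)
    (h2.mul_left _) fun l => ?_
  refine (β.le_opNorm₂ _ _).trans ?_
  exact mul_le_mul_of_nonneg_right (mul_le_mul_of_nonneg_left (h1 _) β.opNorm_nonneg)
    (norm_nonneg _)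

theorem conv_split [CompleteSpace G] (β : E →L[ℂ] F →L[ℂ] G) (n : ℕ) (f : Md → E) (g : Md → F)
    (hf : sN 0 f ≠ ∞) (hg : sN 0 g ≠ ∞) (hs : SuppIn (lev (n + 1) : Set Md) g) (q : Md)
    (hq : q ∈ lev n) :
    conv β f g q = conv β (res (lev n : Set Md) f) (res (lev n : Set Md) g) q +
      conv β (res (Cl (n + 1)) f) (res (Cl (n + 1)) g) q := by
  unfold conv
  rw [← Summable.tsum_add
    (conv_summable β _ _ (ne_top_of_le_ne_top hf (sN_res _ _)) (ne_top_of_le_ne_top hg (sN_res _ _)) q)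
    (conv_summable β _ _ (ne_top_of_le_ne_top hf (sN_res _ _)) (ne_top_of_le_ne_top hg (sN_res _ _)) q)]
  refine tsum_congr fun l => ?_
  have hq' : ∀ i, n < i → q i = 0 := hq
  by_cases h1 : l ∈ lev n
  · have h2 : q - l ∈ lev n := (lev n).sub_mem hq h1
    have h3 : l (n + 1) = 0 := (show ∀ i, n < i → l i = 0 from h1) _ (by omega)
    have h4 : l ∉ Cl (n + 1) := fun h => h.2 h3
    have e1 : res (lev n : Set Md) f (q - l) = f (q - l) := if_pos h2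
    have e2 : res (lev n : Set Md) g l = g l := if_pos h1
    have e3 : res (Cl (n + 1)) g l = 0 := if_neg h4
    rw [e1, e2, e3, map_zero, add_zero]
  · have e2 : res (lev n : Set Md) g l = 0 := if_neg h1
    rw [e2, map_zero, zero_add]
    by_cases h2 : l ∈ lev (n + 1)
    · have h2' : ∀ i, n + 1 < i → l i = 0 := h2
      have h3 : l (n + 1) ≠ 0 := by
        intro h0
        refine h1 fun i hi => ?_
        rcases Nat.lt_or_ge (n + 1) i with h | h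
        · exact h2' i h
        · have : i = n + 1 := by omega
          rw [this]
          exact h0
      have h4 : l ∈ Cl (n + 1) := ⟨h2, h3⟩
      have h5 : q - l ∈ Cl (n + 1) := by
        refine ⟨fun i hi => ?_, ?_⟩
        · rw [Finsupp.sub_apply, hq' i (by omega), h2' i hi, sub_zero]
        · rw [Finsupp.sub_apply, hq' (n + 1) (by omega), zero_sub]
          exact neg_ne_zero.2 h3
      have e3 : res (Cl (n + 1)) g l = g l := if_pos h4
      have e4 : res (Cl (n + 1)) f (q - l) = f (q - l) := if_pos h5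
      rw [e3, e4]
    · have e0 : g l = 0 := hs l h2
      have h4 : l ∉ Cl (n + 1) := fun h => h2 h.1
      have e3 : res (Cl (n + 1)) g l = 0 := if_neg h4
      rw [e0, e3, map_zero, map_zero]

end gen

/-! ### classes -/

theorem lev_mono {i j : ℕ} (h : i ≤ j) {q : Md} (hq : q ∈ lev i) : q ∈ lev j :=
  fun k hk => (show ∀ k, i < k → q k = 0 from hq) k (by omega)

theorem Cs_sub {m n o : ℕ} (hm : m ≤ n) (ho : o ≤ n) {q : Md} (hq : q ∈ Cs m o) : q ∈ lev n := by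
  unfold Cs at hq
  split_ifs at hq with h
  · exact lev_mono hm hq
  · exact lev_mono ho hq.1

theorem res_res {E : Type} [Zero E] {S S' : Set Md} (h : ∀ q ∈ S, q ∈ S') (f : Md → E) :
    res S (res S' f) = res S f := by
  funext q
  by_cases hq : q ∈ S
  · have e1 : res S (res S' f) q = res S' f q := if_pos hq
    have e2 : res S' f q = f q := if_pos (h q hq)
    have e3 : res S f q = f q := if_pos hq
    rw [e1, e2, e3]
  · have e1 : res S (res S' f) q = 0 := if_neg hq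
    have e3 : res S f q = 0 := if_neg hq
    rw [e1, e3]

theorem supp_res {E : Type} [Zero E] (S : Set Md) (f : Md → E) : SuppIn S (res S f) :=
  fun _ hq => if_neg hq

section adm

variable {D : Dat} {ρ : ℕ → ℝ → ℝ}

theorem nrm_single (w : ℝ → Md → C3) (κ : ℝ → Md → ℂ) {o : ℕ} (h1 : D.m ≤ o) (h2 : o ≤ D.n + 1) :
    Nrm D.T D.c D.γ (ρ o) (fun t => res (Cs D.m o) (w t)) ≤ XN D ρ w κ := by
  unfold XN
  refine le_trans ?_ le_self_add
  exact Finset.single_le_sum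
    (f := fun o => Nrm D.T D.c D.γ (ρ o) (fun t => res (Cs D.m o) (w t)))
    (fun _ _ => bot_le) (Finset.mem_Icc.2 ⟨h1, h2⟩)

theorem nrm_new (h : D.Hyp) (w : ℝ → Md → C3) (κ : ℝ → Md → ℂ) :
    Nrm D.T D.c D.γ (ρ (D.n + 1)) (fun t => res (Cl (D.n + 1)) (w t)) ≤ XN D ρ w κ := by
  have h1 := h.hmn
  have h2 := nrm_single (ρ := ρ) w κ (by omega : D.m ≤ D.n + 1) le_rfl
  have h3 : Cs D.m (D.n + 1) = Cl (D.n + 1) := if_neg (by omega)
  rwa [h3] at h2

theorem nrm_kap (h : D.Hyp) (w : ℝ → Md → C3) (κ : ℝ → Md → ℂ) :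
    Nrm D.T D.c D.γ (fun t => D.u (D.n + 1) ^ 128 * ρ (D.n + 1) t)
      (fun t => res (Cl (D.n + 1)) (κ t)) ≤ XN D ρ w κ := by
  have h1 := h.hmn
  unfold XN
  refine le_trans ?_ le_add_self
  exact Finset.single_le_sum
    (f := fun o => Nrm D.T D.c D.γ (fun t => D.u o ^ 128 * ρ o t) (fun t => res (Cl o) (κ t)))
    (fun _ _ => bot_le) (Finset.mem_Ioc.2 ⟨by omega, le_rfl⟩)

theorem nrm_lev (h04 : S04) (w05 : W05) (h : D.Hyp) (w : ℝ → Md → C3) (κ : ℝ → Md → ℂ)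
    (hρ : ∀ o, D.m ≤ o → o ≤ D.n + 1 → Wt D.T (ρ o)) {ρ' : ℝ → ℝ} (hρ' : Wt D.T ρ') {a : ℝ}
    (ha : 0 ≤ a) {n' : ℕ} (h1 : D.m ≤ n') (h2 : n' ≤ D.n + 1)
    (hc : ∀ o, D.m ≤ o → o ≤ n' → ∀ t ∈ Icc 0 D.T, ρ o t ≤ a * ρ' t) :
    Nrm D.T D.c D.γ ρ' (fun t => res (lev n' : Set Md) (w t)) ≤
      ENNReal.ofReal a * XN D ρ w κ := by
  rw [(h04 C3 D.m n' h1).2.2.2 D.T D.c D.γ ρ' (fun t => res (lev n' : Set Md) (w t))
    (fun t _ => supp_res _ _) h.T_pos.le]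
  calc ∑ o ∈ Finset.Icc D.m n', Nrm D.T D.c D.γ ρ'
        (fun t => res (Cs D.m o) (res (lev n' : Set Md) (w t)))
      ≤ ∑ o ∈ Finset.Icc D.m n', ENNReal.ofReal a *
          Nrm D.T D.c D.γ (ρ o) (fun t => res (Cs D.m o) (w t)) := by
        refine Finset.sum_le_sum fun o ho => ?_
        have ho' := Finset.mem_Icc.1 ho
        have e : (fun t => res (Cs D.m o) (res (lev n' : Set Md) (w t))) =
            fun t => res (Cs D.m o) (w t) := by
          funext t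
          exact res_res (fun q hq => Cs_sub h1 ho'.2 hq) _
        rw [e]
        exact ((w05 Md C3 D.T D.c D.γ (ρ o) ρ' (fun t => res (Cs D.m o) (w t))
          (fun t => res (Cs D.m o) (w t)) (par h) (hρ o ho'.1 (by omega)) hρ').2.1 a ha
          (hc o ho'.1 ho'.2)).1
    _ = ENNReal.ofReal a * ∑ o ∈ Finset.Icc D.m n',
          Nrm D.T D.c D.γ (ρ o) (fun t => res (Cs D.m o) (w t)) := by
        rw [Finset.mul_sum]
    _ ≤ ENNReal.ofReal a * XN D ρ w κ := by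
        refine mul_le_mul' le_rfl ?_
        unfold XN
        refine le_trans ?_ le_self_add
        exact Finset.sum_le_sum_of_subset (Finset.Icc_subset_Icc le_rfl h2)

theorem nrm_one (h04 : S04) (w05 : W05) (h : D.Hyp) (w : ℝ → Md → C3) (κ : ℝ → Md → ℂ)
    (hρ : ∀ o, D.m ≤ o → o ≤ D.n + 1 → Wt D.T (ρ o)) (hA : Adm D ρ w κ) :
    Nrm D.T D.c D.γ Dat.one' w ≠ ∞ := by
  have h0 := h.hmn
  have hT := h.T_pos
  have hmT : D.T ∈ Icc 0 D.T := ⟨hT.le, le_rfl⟩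
  have hpos : ∀ o ∈ Finset.Icc D.m (D.n + 1), 0 ≤ ρ o D.T := fun o ho =>
    ((hρ o (Finset.mem_Icc.1 ho).1 (Finset.mem_Icc.1 ho).2).pos _ hmT).le
  have h1 := nrm_lev h04 w05 h w κ hρ (one_wt D.T)
    (a := ∑ o ∈ Finset.Icc D.m (D.n + 1), ρ o D.T) (Finset.sum_nonneg hpos)
    (n' := D.n + 1) (by omega) le_rfl (by
      intro o ho1 ho2 t ht
      have e : (∑ o ∈ Finset.Icc D.m (D.n + 1), ρ o D.T) * Dat.one' t =
        ∑ o ∈ Finset.Icc D.m (D.n + 1), ρ o D.T := mul_one _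
      rw [e]
      exact ((hρ o ho1 ho2).mono ht hmT ht.2).trans
        (Finset.single_le_sum (f := fun o => ρ o D.T) hpos (Finset.mem_Icc.2 ⟨ho1, ho2⟩)))
  have h2 : Nrm D.T D.c D.γ Dat.one' w ≤
      Nrm D.T D.c D.γ Dat.one' (fun t => res (lev (D.n + 1) : Set Md) (w t)) := by
    refine nrm_mono _ _ _ _ _ _ fun t ht q => ?_
    by_cases hq : q ∈ lev (D.n + 1)
    · have e : res (lev (D.n + 1) : Set Md) (w t) q = w t q := if_pos hq
      rw [e]
    · rw [hA.w_supp t ht q hq, norm_zero]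
      exact norm_nonneg _
  exact ne_top_of_le_ne_top (ENNReal.mul_ne_top ENNReal.ofReal_ne_top hA.fin) (h2.trans h1)

end adm

/-! ### kernels -/

section ker

variable {D : Dat}

theorem KN_Fi (w09 : W09) (h : D.Hyp) {l : ℕ} (h1 : D.m ≤ l) (h2 : l ≤ D.n) :
    KN D.T D.c (fun t => mulK (D.Fi l t)) ≤ ENNReal.ofReal D.G := by
  rw [(w09 Md C3 C3 C3 D.T D.c h.c_pos.le).2.2.2.1 (D.Fi l)]
  exact (h.F_le l h1 h2).2.1

theorem CK_Fi (h : D.Hyp) {l : ℕ} (h1 : D.m ≤ l) (h2 : l ≤ D.n) :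
    CK D.T (fun t => mulK (D.Fi l t)) := fun p q => (h.F_cm l h1 h2).2.1 (p - q)

theorem KN_rw (w09 : W09) (h : D.Hyp) {j : ℕ} (h1 : D.m < j) (h2 : j ≤ D.n + 1) :
    KN D.T D.c (fun t => mulK (D.rw j t)) ≤ ENNReal.ofReal (D.N j * D.G) := by
  have hN : 0 ≤ D.N j := norm_nonneg _
  rw [(w09 Md C3 ℂ ℂ D.T D.c h.c_pos.le).2.2.2.1 (D.rw j), ENNReal.ofReal_mul hN]
  refine le_trans ?_ (mul_le_mul' le_rfl (h.F_le (j - 1) (by omega) (by omega)).2.1)
  unfold Nrm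
  rw [← ENNReal.tsum_mul_left]
  refine ENNReal.tsum_le_tsum fun m => iSup₂_le fun t ht => ?_
  refine le_trans ?_ (mul_le_mul' le_rfl (le_iSup₂ (f := fun t (_ : t ∈ Icc 0 D.T) =>
    ENNReal.ofReal (Real.exp ((D.c - 0 * t) * len m) / Dat.one' t) * ‖D.Fi (j - 1) t m‖ₑ) t ht))
  rw [mul_left_comm]
  refine mul_le_mul' le_rfl ?_
  rw [← ofReal_norm, ← ofReal_norm, ← ENNReal.ofReal_mul hN]
  refine ENNReal.ofReal_le_ofReal ?_
  refine (ContinuousLinearMap.opNorm_comp_le _ _).trans ?_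
  rw [innerSL_apply_norm]
  exact le_rfl

theorem CK_rw (h : D.Hyp) {j : ℕ} (h1 : D.m < j) (h2 : j ≤ D.n + 1) :
    CK D.T (fun t => mulK (D.rw j t)) := fun p q =>
  continuousOn_const.clm_comp ((h.F_cm (j - 1) (by omega) (by omega)).2.1 (p - q))

theorem KN_A (w09 : W09) (h : D.Hyp) :
    KN D.T D.c (fun t => idK - D.Pl D.n t) ≤ ENNReal.ofReal (1 + D.G) := by
  have h0 := h.hmn
  have hG := h.G_two
  obtain ⟨-, w2, w3, -, w5, -, -⟩ := w09 Md C3 C3 C3 D.T D.c h.c_pos.le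
  have e : (fun t => idK - D.Pl D.n t) =
      (fun _ : ℝ => idK) + ((-1 : ℂ) • D.Pl D.n : ℝ → Md → Md → Mat) := by
    funext t p q
    change idK p q - D.Pl D.n t p q = idK p q + (-1 : ℂ) • D.Pl D.n t p q
    have e1 : (-1 : ℂ) • D.Pl D.n t p q = -D.Pl D.n t p q := by
      ext x i
      simp
    rw [e1, sub_eq_add_neg]
  rw [e, ENNReal.ofReal_add zero_le_one (by linarith)]
  refine (w2 _ _).trans (add_le_add ?_ ?_)
  · rw [ENNReal.ofReal_one]
    refine w5 (fun _ _ => ContinuousLinearMap.id ℂ C3) 1 fun t _ m => ?_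
    rw [← ofReal_norm, ← ENNReal.ofReal_one]
    exact ENNReal.ofReal_le_ofReal ContinuousLinearMap.norm_id_le
  · rw [w3]
    simp only [enorm_neg, enorm_one, one_mul]
    exact (h.P_le D.n h0 le_rfl).1

theorem CK_A (h : D.Hyp) : CK D.T (fun t => idK - D.Pl D.n t) := fun p q =>
  (continuousOn_const : ContinuousOn (fun _ : ℝ => idK p q) (Icc 0 D.T)).sub
    ((h.P_le D.n h.hmn le_rfl).2 p q)

theorem supp_A (w16 : W16) (h : D.Hyp) {t : ℝ} (ht : t ∈ Icc 0 D.T) (p q : Md)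
    (hpq : p - q ∉ lev D.n) : (idK - D.Pl D.n t) p q = 0 := by
  have h1 : idK p q = 0 := by
    have hne : p ≠ q := by
      intro e
      refine hpq ?_
      rw [e, sub_self]
      exact (lev D.n).zero_mem
    exact if_neg hne
  obtain ⟨c, b, e, hf⟩ := h.fd D.n h.hmn le_rfl t ht
  have h2 := ((w16 Md (lev D.n) c b e _ _ (xi D.K) hf).2.2.1 p q hpq).2
  have h3 : D.Pl D.n t p q = 0 := h2
  rw [Pi.sub_apply, Pi.sub_apply, h1, h3, sub_zero]

end ker

/-! ### the factors -/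

section bil

variable {D : Dat} {ρ : ℕ → ℝ → ℝ} {σ : ℝ → ℝ}

/-- The velocity part `F⁻¹ w`. -/
noncomputable def VV (D : Dat) (w : ℝ → Md → C3) (t : ℝ) : Md → C3 := mul (D.Fi D.n t) (w t)

theorem VV_nrm (w01 : W01) (w09 : W09) (h : D.Hyp) (hσ : Wt D.T σ) (f : ℝ → Md → C3) :
    Nrm D.T D.c D.γ σ (VV D f) ≤ ENNReal.ofReal D.G * Nrm D.T D.c D.γ σ f :=
  (w01 Md C3 C3 D.T D.c D.γ σ (fun t => mulK (D.Fi D.n t)) f (par h) hσ).trans
    (mul_le_mul' (KN_Fi w09 h h.hmn le_rfl) le_rfl)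

theorem VV_cm (w09 : W09) (w12 : W12) (h : D.Hyp) (hσ : Wt D.T σ) {f : ℝ → Md → C3}
    (hf : CM D.T f) (hn : Nrm D.T D.c D.γ σ f ≠ ∞) : CM D.T (VV D f) :=
  (w12 Md C3 C3 C3 D.T D.c D.γ σ σ (par h) hσ hσ).1 (fun t => mulK (D.Fi D.n t)) f
    (CK_Fi h h.hmn le_rfl) hf
    (ne_top_of_le_ne_top ENNReal.ofReal_ne_top (KN_Fi w09 h h.hmn le_rfl)) hn

theorem VV_fin (w01 : W01) (w09 : W09) (h : D.Hyp) (hσ : Wt D.T σ) {f : ℝ → Md → C3}
    (hn : Nrm D.T D.c D.γ σ f ≠ ∞) : Nrm D.T D.c D.γ σ (VV D f) ≠ ∞ :=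
  ne_top_of_le_ne_top (ENNReal.mul_ne_top ENNReal.ofReal_ne_top hn) (VV_nrm w01 w09 h hσ f)

theorem outer_nrm (w02 : W02) (h : D.Hyp) {σ' : ℝ → ℝ} (hσ : Wt D.T σ) (hσ' : Wt D.T σ')
    (f g : ℝ → Md → C3) :
    Nrm D.T D.c D.γ (fun t => σ t * σ' t) (fun t => conv outerB (f t) (g t)) ≤
      ENNReal.ofReal 3 * Nrm D.T D.c D.γ σ f * Nrm D.T D.c D.γ σ' g :=
  (w02 Md C3 C3 Mat D.T D.c D.γ σ σ' outerB f g (par h) hσ hσ').trans
    (mul_le_mul' (mul_le_mul' (op2 outerB 3 (by norm_num) outerB_bd) le_rfl) le_rfl)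

theorem outer_cm (w12 : W12) (h : D.Hyp) {σ' : ℝ → ℝ} (hσ : Wt D.T σ) (hσ' : Wt D.T σ')
    {f g : ℝ → Md → C3} (hf : CM D.T f) (hg : CM D.T g) (nf : Nrm D.T D.c D.γ σ f ≠ ∞)
    (ng : Nrm D.T D.c D.γ σ' g ≠ ∞) : CM D.T (fun t => conv outerB (f t) (g t)) :=
  (w12 Md C3 C3 Mat D.T D.c D.γ σ σ' (par h) hσ hσ').2.2 outerB f g hf hg nf ng

theorem HH_cm (h04 : S04) (w05 : W05) (w09 : W09) (w12 : W12) (h : D.Hyp)
    (hρ : ∀ o, D.m ≤ o → o ≤ D.n + 1 → Wt D.T (ρ o)) {w : ℝ → Md → C3} {κ : ℝ → Md → ℂ}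
    (hA : Adm D ρ w κ) : CM D.T (HH D w κ) := by
  have h0 := h.hmn
  have nw := nrm_one h04 w05 h w κ hρ hA
  have nw' : Nrm D.T D.c D.γ Dat.one' (fun t => res (lev D.n : Set Md) (w t)) ≠ ∞ :=
    ne_top_of_le_ne_top nw (nrm_mono _ _ _ _ _ _ fun t _ q => res_norm _ _ _)
  have h1 := (w12 Md C3 ℂ ℂ D.T D.c D.γ Dat.one' Dat.one' (par h) (one_wt _) (one_wt _)).1
    (fun t => mulK (D.rw (D.n + 1) t)) (fun t => res (lev D.n : Set Md) (w t))
    (CK_rw h (by omega) le_rfl) (cm_res _ hA.w_cm)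
    (ne_top_of_le_ne_top ENNReal.ofReal_ne_top (KN_rw w09 h (by omega) le_rfl)) nw'
  intro q
  exact (((cm_res (Cl (D.n + 1)) hA.κ_cm) q).const_smul (D.N (D.n + 1) : ℂ)).add (h1 q)

theorem HH_one (h04 : S04) (w01 : W01) (w05 : W05) (w09 : W09) (h : D.Hyp)
    (hρ : ∀ o, D.m ≤ o → o ≤ D.n + 1 → Wt D.T (ρ o)) {w : ℝ → Md → C3} {κ : ℝ → Md → ℂ}
    (hA : Adm D ρ w κ) : Nrm D.T D.c D.γ Dat.one' (HH D w κ) ≠ ∞ := by
  have h0 := h.hmn
  have hT := h.T_pos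
  have hmT : D.T ∈ Icc 0 D.T := ⟨hT.le, le_rfl⟩
  have nw := nrm_one h04 w05 h w κ hρ hA
  have nw' : Nrm D.T D.c D.γ Dat.one' (fun t => res (lev D.n : Set Md) (w t)) ≠ ∞ :=
    ne_top_of_le_ne_top nw (nrm_mono _ _ _ _ _ _ fun t _ q => res_norm _ _ _)
  have hr := hρ (D.n + 1) (by omega) le_rfl
  have hu := h.u_pos (D.n + 1)
  have hσ : Wt D.T (fun t => D.u (D.n + 1) ^ 128 * ρ (D.n + 1) t) :=
    ⟨fun t ht => mul_pos (pow_pos hu _) (hr.pos t ht), continuousOn_const.mul hr.cont,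
      fun a ha b hb hab => mul_le_mul_of_nonneg_left (hr.mono ha hb hab) (pow_pos hu _).le⟩
  have e : HH D w κ = (D.N (D.n + 1) : ℂ) • (fun t => res (Cl (D.n + 1)) (κ t)) +
      fun t => act (mulK (D.rw (D.n + 1) t)) (res (lev D.n : Set Md) (w t)) := rfl
  have w5 := w05 Md ℂ D.T D.c D.γ Dat.one' Dat.one'
    ((D.N (D.n + 1) : ℂ) • (fun t => res (Cl (D.n + 1)) (κ t)))
    (fun t => act (mulK (D.rw (D.n + 1) t)) (res (lev D.n : Set Md) (w t)))
    (par h) (one_wt _) (one_wt _)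
  have w5' := w05 Md ℂ D.T D.c D.γ Dat.one' Dat.one'
    (fun t => res (Cl (D.n + 1)) (κ t)) (fun t => res (Cl (D.n + 1)) (κ t))
    (par h) (one_wt _) (one_wt _)
  have w5'' := w05 Md ℂ D.T D.c D.γ (fun t => D.u (D.n + 1) ^ 128 * ρ (D.n + 1) t) Dat.one'
    (fun t => res (Cl (D.n + 1)) (κ t)) (fun t => res (Cl (D.n + 1)) (κ t))
    (par h) hσ (one_wt _)
  rw [e]
  refine ne_top_of_le_ne_top (ENNReal.add_ne_top.2 ⟨?_, ?_⟩) w5.2.2.1
  · rw [(w5'.2.2.2.2 _).1]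
    refine ENNReal.mul_ne_top enorm_ne_top ?_
    have hp := mul_pos (pow_pos hu 128) (hr.pos _ hmT)
    have h1 := (w5''.2.1 (D.u (D.n + 1) ^ 128 * ρ (D.n + 1) D.T) hp.le (by
      intro t ht
      have e1 : D.u (D.n + 1) ^ 128 * ρ (D.n + 1) D.T * Dat.one' t =
        D.u (D.n + 1) ^ 128 * ρ (D.n + 1) D.T := mul_one _
      rw [e1]
      exact hσ.mono ht hmT ht.2)).1
    refine ne_top_of_le_ne_top (ENNReal.mul_ne_top ENNReal.ofReal_ne_top ?_) h1
    exact ne_top_of_le_ne_top hA.fin (nrm_kap h w κ)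
  · refine ne_top_of_le_ne_top (ENNReal.mul_ne_top ?_ nw')
      (w01 Md C3 ℂ D.T D.c D.γ Dat.one' (fun t => mulK (D.rw (D.n + 1) t))
        (fun t => res (lev D.n : Set Md) (w t)) (par h) (one_wt _))
    exact ne_top_of_le_ne_top ENNReal.ofReal_ne_top (KN_rw w09 h (by omega) le_rfl)

/-- The first part of the bilinear form. -/
noncomputable def B1 (D : Dat) (w w' : ℝ → Md → C3) (t : ℝ) (q : Md) : C3 :=
  Complex.I • (conv outerB (w' t) (mul (D.Fi D.n t) (w t)) q) (xi' D.K (D.n + 1) q)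

/-- The second part of the bilinear form. -/
noncomputable def B2 (D : Dat) (w : ℝ → Md → C3) (κ : ℝ → Md → ℂ) (w' : ℝ → Md → C3) (t : ℝ)
    (q : Md) : C3 :=
  (Complex.I * (q (D.n + 1) : ℂ)) • conv smB (HH D w κ t) (w' t) q

theorem bil_eq (D : Dat) (w : ℝ → Md → C3) (κ : ℝ → Md → ℂ) (w' : ℝ → Md → C3) (t : ℝ) :
    Bil D w κ w' t = -act (idK - D.Pl D.n t) ((B1 D w w' + B2 D w κ w') t) := rfl

/-- Supports of the factors. -/
theorem VV_supp (h03 : S03) (h : D.Hyp) {w : ℝ → Md → C3}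
    (hw : SuppT D.T (lev (D.n + 1) : Set Md) w) : SuppT D.T (lev (D.n + 1) : Set Md) (VV D w) := by
  intro t ht
  obtain ⟨s1, -, -, -, s5, -, -⟩ := h03 C3 C3 C3
  exact s1 _ D.n (D.n + 1) _ (Nat.le_succ _)
    (s5 D.n _ ((h.F_supp D.n h.hmn le_rfl).2.1 t ht)) (hw t ht)

theorem rw_supp {t : ℝ} (h : D.Hyp) (ht : t ∈ Icc 0 D.T) :
    SuppIn (lev D.n : Set Md) (D.rw (D.n + 1) t) := by
  intro q hq
  have h1 : D.Fi D.n t q = 0 := (h.F_supp D.n h.hmn le_rfl).2.1 t ht q hq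
  change (innerSL ℂ (D.kk (D.n + 1))).comp (D.Fi D.n t q) = 0
  rw [h1, ContinuousLinearMap.comp_zero]

theorem HH_supp (h03 : S03) (h : D.Hyp) (w : ℝ → Md → C3) (κ : ℝ → Md → ℂ) :
    SuppT D.T (lev (D.n + 1) : Set Md) (HH D w κ) := by
  intro t ht q hq
  obtain ⟨s1, -, -, -, s5, -, -⟩ := h03 C3 ℂ C3
  have h1 := s1 (mulK (D.rw (D.n + 1) t)) D.n (D.n + 1) (res (lev D.n : Set Md) (w t))
    (Nat.le_succ _) (s5 D.n _ (rw_supp h ht))
    (fun q hq => supp_res (lev D.n : Set Md) (w t) q fun h => hq (lev_mono (Nat.le_succ _) h)) q hq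
  have h2 : res (Cl (D.n + 1)) (κ t) q = 0 := if_neg fun hq' => hq hq'.1
  change (D.N (D.n + 1) : ℂ) • res (Cl (D.n + 1)) (κ t) q +
    act (mulK (D.rw (D.n + 1) t)) (res (lev D.n : Set Md) (w t)) q = 0
  rw [h1, h2, smul_zero, add_zero]

theorem B_supp (h03 : S03) (h : D.Hyp) {w w' : ℝ → Md → C3} (κ : ℝ → Md → ℂ)
    (hw : SuppT D.T (lev (D.n + 1) : Set Md) w) (hw' : SuppT D.T (lev (D.n + 1) : Set Md) w') :
    (∀ t ∈ Icc 0 D.T, SuppIn (lev (D.n + 1) : Set Md)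
      (conv outerB (w' t) (mul (D.Fi D.n t) (w t)))) ∧
    SuppT D.T (lev (D.n + 1) : Set Md) (B1 D w w' + B2 D w κ w') := by
  have h1 : ∀ t ∈ Icc 0 D.T, SuppIn (lev (D.n + 1) : Set Md)
      (conv outerB (w' t) (mul (D.Fi D.n t) (w t))) := by
    intro t ht
    exact (h03 C3 C3 Mat).2.2.2.2.2.1 outerB (D.n + 1) _ _ (hw' t ht) (VV_supp h03 h hw t ht)
  have h2 : ∀ t ∈ Icc 0 D.T, SuppIn (lev (D.n + 1) : Set Md) (conv smB (HH D w κ t) (w' t)) := by
    intro t ht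
    exact (h03 ℂ C3 C3).2.2.2.2.2.1 smB (D.n + 1) _ _ (HH_supp h03 h w κ t ht) (hw' t ht)
  refine ⟨h1, fun t ht q hq => ?_⟩
  change Complex.I • (conv outerB (w' t) (mul (D.Fi D.n t) (w t)) q) (xi' D.K (D.n + 1) q) +
    (Complex.I * (q (D.n + 1) : ℂ)) • conv smB (HH D w κ t) (w' t) q = 0
  rw [h1 t ht q hq, h2 t ht q hq, zero_apply, smul_zero, smul_zero, add_zero]

/-- The inner function is continuous and has a finite norm at the radius `3 c / 4`. -/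
theorem B_cm (h04 : S04) (w01 : W01) (w05 : W05) (w09 : W09) (w12 : W12) (h : D.Hyp)
    (hρ : ∀ o, D.m ≤ o → o ≤ D.n + 1 → Wt D.T (ρ o)) {w w' : ℝ → Md → C3} {κ κ' : ℝ → Md → ℂ}
    (hA : Adm D ρ w κ) (hA' : Adm D ρ w' κ') : CM D.T (B1 D w w' + B2 D w κ w') := by
  have nw := nrm_one h04 w05 h w κ hρ hA
  have nw' := nrm_one h04 w05 h w' κ' hρ hA'
  have h1 : CM D.T (fun t => conv outerB (w' t) (VV D w t)) :=
    outer_cm w12 h (one_wt _) (one_wt _) hA'.w_cm (VV_cm w09 w12 h (one_wt _) hA.w_cm nw) nw'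
      (VV_fin w01 w09 h (one_wt _) nw)
  have h2 : CM D.T (fun t => conv smB (HH D w κ t) (w' t)) :=
    (w12 Md ℂ C3 C3 D.T D.c D.γ Dat.one' Dat.one' (par h) (one_wt _) (one_wt _)).2.2 smB _ _
      (HH_cm h04 w05 w09 w12 h hρ hA) hA'.w_cm (HH_one h04 w01 w05 w09 h hρ hA) nw'
  intro q
  exact (((h1 q).clm_apply continuousOn_const).const_smul Complex.I).add
    ((h2 q).const_smul (Complex.I * (q (D.n + 1) : ℂ)))

theorem B_fin (h01 : S01) (h03 : S03) (h04 : S04) (w01 : W01) (w02 : W02) (w05 : W05) (w09 : W09)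
    (h : D.Hyp)
    (hρ : ∀ o, D.m ≤ o → o ≤ D.n + 1 → Wt D.T (ρ o)) {w w' : ℝ → Md → C3} {κ κ' : ℝ → Md → ℂ}
    (hA : Adm D ρ w κ) (hA' : Adm D ρ w' κ') :
    Nrm D.T (3 / 4 * D.c) D.γ Dat.one' (B1 D w w' + B2 D w κ w') ≠ ∞ := by
  have nw := nrm_one h04 w05 h w κ hρ hA
  have nw' := nrm_one h04 w05 h w' κ' hρ hA'
  have hone : ∀ t ∈ Icc 0 D.T, 0 < Dat.one' t := (one_wt D.T).pos
  have e : (fun t => Dat.one' t * Dat.one' t) = Dat.one' := by
    funext t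
    exact mul_one _
  refine ne_top_of_le_ne_top (ENNReal.add_ne_top.2 ⟨?_, ?_⟩)
    (w05 Md C3 D.T (3 / 4 * D.c) D.γ Dat.one' Dat.one' (B1 D w w') (B2 D w κ w') (par' h)
      (one_wt _) (one_wt _)).2.2.1
  · have h1 := outer_nrm w02 h (one_wt D.T) (one_wt D.T) w' (VV D w)
    rw [e] at h1
    have h2 : Nrm D.T D.c D.γ Dat.one' (fun t => conv outerB (w' t) (VV D w t)) ≠ ∞ :=
      ne_top_of_le_ne_top (ENNReal.mul_ne_top (ENNReal.mul_ne_top ENNReal.ofReal_ne_top nw')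
        (VV_fin w01 w09 h (one_wt _) nw)) h1
    refine ne_top_of_le_ne_top (ENNReal.mul_ne_top ENNReal.ofReal_ne_top h2)
      (nrm_len D.T D.c D.γ Dat.one' hone h.c_pos _ _ (D.N D.n) (norm_nonneg _) ?_)
    intro t ht q
    change ‖Complex.I • (conv outerB (w' t) (VV D w t) q) (xi' D.K (D.n + 1) q)‖ ≤ _
    rw [norm_smul, Complex.norm_I, one_mul]
    by_cases hq : q ∈ lev (D.n + 1)
    · have h3 := (h01 D.K).2.2.2.1 q (D.n + 1) (D.N D.n) hq
        (fun i hi => N_mono h (by omega) (by omega)) (norm_nonneg _)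
      calc ‖(conv outerB (w' t) (VV D w t) q) (xi' D.K (D.n + 1) q)‖
          ≤ ‖conv outerB (w' t) (VV D w t) q‖ * ‖xi' D.K (D.n + 1) q‖ :=
            ContinuousLinearMap.le_opNorm _ _
        _ ≤ ‖conv outerB (w' t) (VV D w t) q‖ * (D.N D.n * len q) :=
            mul_le_mul_of_nonneg_left h3 (norm_nonneg _)
        _ = _ := by ring
    · have h4 : conv outerB (w' t) (VV D w t) q = 0 :=
        (B_supp h03 h κ hA.w_supp hA'.w_supp).1 t ht q hq
      rw [h4, zero_apply, norm_zero, norm_zero, mul_zero]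
  · have h1 := w02 Md ℂ C3 C3 D.T D.c D.γ Dat.one' Dat.one' smB (HH D w κ) w' (par h)
      (one_wt _) (one_wt _)
    rw [e] at h1
    have h5 : ‖smB‖ₑ ≠ ∞ := ne_top_of_le_ne_top ENNReal.ofReal_ne_top
      (op2 smB 1 zero_le_one smB_bd)
    have h2 : Nrm D.T D.c D.γ Dat.one' (fun t => conv smB (HH D w κ t) (w' t)) ≠ ∞ :=
      ne_top_of_le_ne_top (ENNReal.mul_ne_top (ENNReal.mul_ne_top h5
        (HH_one h04 w01 w05 w09 h hρ hA)) nw') h1
    refine ne_top_of_le_ne_top (ENNReal.mul_ne_top ENNReal.ofReal_ne_top h2)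
      (nrm_len D.T D.c D.γ Dat.one' hone h.c_pos _ _ 1 zero_le_one ?_)
    intro t ht q
    change ‖(Complex.I * (q (D.n + 1) : ℂ)) • conv smB (HH D w κ t) (w' t) q‖ ≤ _
    rw [norm_smul, norm_mul, Complex.norm_I, one_mul, one_mul]
    exact mul_le_mul_of_nonneg_right ((h01 D.K).2.1 q (D.n + 1)) (norm_nonneg _)

/-- The level `n` part of `(C t q) ξ_q`. -/
noncomputable def gg (D : Dat) (C : ℝ → Md → Mat) (t : ℝ) : Md → C3 :=
  res (lev D.n : Set Md) (fun q => Complex.I • (C t q) (xi D.K q))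

theorem gg_cm {C : ℝ → Md → Mat} (hC : CM D.T C) : CM D.T (gg D C) :=
  cm_res (f := fun t q => Complex.I • (C t q) (xi D.K q)) _
    fun q => ((hC q).clm_apply continuousOn_const).const_smul Complex.I

theorem gg_src (h01 : S01) (w05 : W05) (w06 : W06) (h : D.Hyp) (hσ : Wt D.T σ)
    (C : ℝ → Md → Mat) : Src D.T D.c D.γ σ (gg D C) ≤
      ENNReal.ofReal D.G * (ENNReal.ofReal (D.N D.n) * Nrm D.T D.c D.γ σ C) := by
  have hN : 0 ≤ D.N D.n := norm_nonneg _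
  have h1 := w06 Md Mat C3 D.T D.c D.γ σ ((D.N D.n : ℂ) • C) (gg D C) (par h) (γ_pos h) hσ (by
    intro t ht q
    change _ ≤ len q * ‖(D.N D.n : ℂ) • C t q‖
    have e1 : ‖(D.N D.n : ℂ) • C t q‖ = D.N D.n * ‖C t q‖ := by
      rw [norm_smul, Complex.norm_real, Real.norm_of_nonneg hN]
    rw [e1]
    have hl : 0 ≤ len q := len_nonneg q
    by_cases hq : q ∈ lev D.n
    · have e2 : gg D C t q = Complex.I • (C t q) (xi D.K q) := if_pos hq
      rw [e2, norm_smul, Complex.norm_I, one_mul]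
      have h3 := (h01 D.K).2.2.1 q D.n (D.N D.n) hq (fun i hi => N_mono h hi (by omega))
      calc ‖(C t q) (xi D.K q)‖ ≤ ‖C t q‖ * ‖xi D.K q‖ := ContinuousLinearMap.le_opNorm _ _
        _ ≤ ‖C t q‖ * (D.N D.n * len q) := mul_le_mul_of_nonneg_left h3 (norm_nonneg _)
        _ = _ := by ring
    · have e2 : gg D C t q = 0 := if_neg hq
      rw [e2, norm_zero]
      positivity)
  refine h1.trans (mul_le_mul' (ENNReal.ofReal_le_ofReal (γ_inv h)) ?_)
  rw [((w05 Md Mat D.T D.c D.γ σ σ C C (par h) hσ hσ).2.2.2.2 (D.N D.n : ℂ)).1]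
  refine mul_le_mul' ?_ le_rfl
  rw [← ofReal_norm, Complex.norm_real, Real.norm_of_nonneg hN]

theorem wt_mul {T : ℝ} {σ σ' : ℝ → ℝ} (h : Wt T σ) (h' : Wt T σ') :
    Wt T (fun t => σ t * σ' t) :=
  ⟨fun t ht => mul_pos (h.pos t ht) (h'.pos t ht), h.cont.mul h'.cont, fun a ha b hb hab =>
    mul_le_mul (h.mono ha hb hab) (h'.mono ha hb hab) (h'.pos a ha).le (h.pos b hb).le⟩

/-- one bilinear term -/
theorem term (h01 : S01) (w01 : W01) (w02 : W02) (w05 : W05) (w06 : W06) (w09 : W09) (h : D.Hyp)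
    {τ : ℝ → ℝ} (hσ : Wt D.T σ) (hτ : Wt D.T τ) (a b : ℝ) (ha : 0 ≤ a) (hb : 0 ≤ b)
    (hc : ∀ t ∈ Icc 0 D.T, D.N D.n * (τ t * τ t) ≤ a * σ t) (f g : ℝ → Md → C3) (X X' : ℝ≥0∞)
    (hf : Nrm D.T D.c D.γ τ f ≤ ENNReal.ofReal b * X)
    (hg : Nrm D.T D.c D.γ τ g ≤ ENNReal.ofReal b * X') :
    Src D.T D.c D.γ σ (gg D (fun t => conv outerB (g t) (VV D f t))) ≤
      ENNReal.ofReal (3 * D.G ^ 2 * a * b ^ 2) * X * X' := by
  have hN : 0 < D.N D.n := lt_of_lt_of_le one_pos (h.N_pos D.n (by omega))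
  have hG : 0 ≤ D.G := by linarith [h.G_two]
  refine (gg_src h01 w05 w06 h hσ _).trans ?_
  have h1 := ((w05 Md Mat D.T D.c D.γ (fun t => τ t * τ t) σ
    (fun t => conv outerB (g t) (VV D f t)) (fun t => conv outerB (g t) (VV D f t)) (par h)
    (wt_mul hτ hτ) hσ).2.1 (a / D.N D.n) (by positivity) (by
      intro t ht
      rw [div_mul_eq_mul_div, le_div_iff₀ hN, mul_comm]
      exact hc t ht)).1
  have h2 := outer_nrm w02 h hτ hτ g (VV D f)
  have h3 := (VV_nrm w01 w09 h hτ f).trans (mul_le_mul' le_rfl hf)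
  have h4 := h1.trans (mul_le_mul' le_rfl (h2.trans (mul_le_mul' (mul_le_mul' le_rfl hg) h3)))
  refine (mul_le_mul' le_rfl (mul_le_mul' le_rfl h4)).trans (le_of_eq ?_)
  have e : 3 * D.G ^ 2 * a * b ^ 2 =
      D.G * (D.N D.n * (a / D.N D.n * (3 * b * (D.G * b)))) := by
    field_simp
  rw [e, ENNReal.ofReal_mul hG, ENNReal.ofReal_mul hN.le, ENNReal.ofReal_mul (by positivity),
    ENNReal.ofReal_mul (by positivity), ENNReal.ofReal_mul (by positivity), ENNReal.ofReal_mul hG]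
  ring

end bil

/-! ### the estimate -/

section est

variable {D : Dat} {ρ : ℕ → ℝ → ℝ} {Str : ℝ → ℝ}

theorem wt_old (h : D.Hyp) (hW : Wts D ρ Str) : ∀ i, D.m ≤ i → i ≤ D.n → ∀ t ∈ Icc 0 D.T,
    ρ i t ≤ D.G ^ 6 / D.u (D.n + 1) ^ 5 * ρ D.m t := by
  have h0 := h.hmn
  have hG1 : 1 ≤ D.G := by linarith [h.G_two]
  have hu := h.u_pos (D.n + 1)
  have hu1 := (h.u_lt (D.n + 1)).le
  intro i h1 h2 t ht
  have hm := ((hW.wt D.m le_rfl (by omega)).pos t ht).le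
  rcases Nat.eq_or_lt_of_le h1 with h3 | h3
  · rw [← h3]
    refine le_mul_of_one_le_left hm ?_
    rw [le_div_iff₀ (pow_pos hu 5), one_mul]
    exact (pow_le_one₀ hu.le hu1).trans (one_le_pow₀ hG1)
  · refine (hW.w2 D.m i le_rfl h3 h2 t ht).trans (mul_le_mul_of_nonneg_right ?_ hm)
    have h4 : D.u (D.n + 1) ^ 5 ≤ D.u i ^ 80 := by
      calc D.u (D.n + 1) ^ 5 ≤ (D.u i ^ 16) ^ 5 := pow_le_pow_left₀ hu.le (u_last h h3 h2) 5
        _ = D.u i ^ 80 := by rw [← pow_mul]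
    exact div_le_div_of_nonneg_left (pow_nonneg (by linarith) 6) (pow_pos hu 5) h4

theorem split_eq (h03 : S03) (h04 : S04) (w01 : W01) (w05 : W05) (w09 : W09)
    (h : D.Hyp) (hρ : ∀ o, D.m ≤ o → o ≤ D.n + 1 → Wt D.T (ρ o)) {w w' : ℝ → Md → C3}
    {κ κ' : ℝ → Md → ℂ} (hA : Adm D ρ w κ) (hA' : Adm D ρ w' κ') {t : ℝ} (ht : t ∈ Icc 0 D.T)
    (q : Md) :
    res (lev D.n : Set Md) ((B1 D w w' + B2 D w κ w') t) q =
      gg D (fun t => conv outerB (res (lev D.n : Set Md) (w' t))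
        (VV D (fun t => res (lev D.n : Set Md) (w t)) t)) t q +
      gg D (fun t => conv outerB (res (Cl (D.n + 1)) (w' t))
        (VV D (fun t => res (Cl (D.n + 1)) (w t)) t)) t q := by
  have nw := nrm_one h04 w05 h w κ hρ hA
  have nw' := nrm_one h04 w05 h w' κ' hρ hA'
  by_cases hq : q ∈ lev D.n
  · have e1 : res (lev D.n : Set Md) ((B1 D w w' + B2 D w κ w') t) q =
        Complex.I • (conv outerB (w' t) (VV D w t) q) (xi' D.K (D.n + 1) q) +
        (Complex.I * (q (D.n + 1) : ℂ)) • conv smB (HH D w κ t) (w' t) q := if_pos hq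
    have e2 : gg D (fun t => conv outerB (res (lev D.n : Set Md) (w' t))
        (VV D (fun t => res (lev D.n : Set Md) (w t)) t)) t q =
        Complex.I • (conv outerB (res (lev D.n : Set Md) (w' t))
        (VV D (fun t => res (lev D.n : Set Md) (w t)) t) q) (xi D.K q) := if_pos hq
    have e3 : gg D (fun t => conv outerB (res (Cl (D.n + 1)) (w' t))
        (VV D (fun t => res (Cl (D.n + 1)) (w t)) t)) t q =
        Complex.I • (conv outerB (res (Cl (D.n + 1)) (w' t))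
        (VV D (fun t => res (Cl (D.n + 1)) (w t)) t) q) (xi D.K q) := if_pos hq
    have e4 : q (D.n + 1) = 0 := (show ∀ k, D.n < k → q k = 0 from hq) _ (by omega)
    have e5 : xi' D.K (D.n + 1) q = xi D.K q := by
      unfold xi'
      rw [e4, Int.cast_zero, zero_smul, sub_zero]
    have s5 := (h03 C3 C3 C3).2.2.2.2.1 D.n _ ((h.F_supp D.n h.hmn le_rfl).2.1 t ht)
    have e6 : res (lev D.n : Set Md) (VV D w t) =
        VV D (fun t => res (lev D.n : Set Md) (w t)) t :=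
      (h03 C3 C3 C3).2.2.2.1 (mulK (D.Fi D.n t)) D.n D.n (w t) le_rfl s5
    have e7 : res (Cl (D.n + 1)) (VV D w t) = VV D (fun t => res (Cl (D.n + 1)) (w t)) t :=
      (h03 C3 C3 C3).2.2.1 (mulK (D.Fi D.n t)) D.n (D.n + 1) (w t) (Nat.lt_succ_self _) s5
    have f1 : sN 0 (w' t) ≠ ∞ := ne_top_of_le_ne_top (ENNReal.mul_ne_top ENNReal.ofReal_ne_top nw')
      (sN0_le (par h) (one_wt _) w' ht)
    have f2 : sN 0 (VV D w t) ≠ ∞ := ne_top_of_le_ne_top
      (ENNReal.mul_ne_top ENNReal.ofReal_ne_top (VV_fin w01 w09 h (one_wt _) nw))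
      (sN0_le (par h) (one_wt _) (VV D w) ht)
    have e8 := conv_split outerB D.n (w' t) (VV D w t) f1 f2 (VV_supp h03 h hA.w_supp t ht) q hq
    rw [e1, e2, e3, e4, e5, e8, e6, e7, Int.cast_zero, mul_zero, zero_smul, add_zero, add_apply,
      smul_add]
  · have e1 : res (lev D.n : Set Md) ((B1 D w w' + B2 D w κ w') t) q = 0 := if_neg hq
    have e2 : gg D (fun t => conv outerB (res (lev D.n : Set Md) (w' t))
        (VV D (fun t => res (lev D.n : Set Md) (w t)) t)) t q = 0 := if_neg hq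
    have e3 : gg D (fun t => conv outerB (res (Cl (D.n + 1)) (w' t))
        (VV D (fun t => res (Cl (D.n + 1)) (w t)) t)) t q = 0 := if_neg hq
    rw [e1, e2, e3, add_zero]

theorem num (G U : ℝ) (hG : 2 ≤ G) (hU : 0 < U) (hU1 : U < 1) :
    (1 + G) * (3 * G ^ 2 * U ^ 200 * (G ^ 6 / U ^ 5) ^ 2 + 3 * G ^ 2 * U ^ 32 * 1 ^ 2) ≤
      G ^ 19 * U ^ 32 := by
  have e : 3 * G ^ 2 * U ^ 200 * (G ^ 6 / U ^ 5) ^ 2 = 3 * (G ^ 14 * U ^ 190) := by
    field_simp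
  have h1 : U ^ 190 ≤ U ^ 32 := pow_le_pow_of_le_one hU.le hU1.le (by norm_num)
  have h2 : G ^ 14 * U ^ 190 ≤ G ^ 14 * U ^ 32 := mul_le_mul_of_nonneg_left h1 (by positivity)
  have h3 : G ^ 2 * U ^ 32 ≤ G ^ 14 * U ^ 32 :=
    mul_le_mul_of_nonneg_right (pow_le_pow_right₀ (by linarith) (by norm_num)) (by positivity)
  have h4 : 3 * (G ^ 14 * U ^ 190) + 3 * G ^ 2 * U ^ 32 * 1 ^ 2 ≤ 6 * (G ^ 14 * U ^ 32) := by
    linarith
  have h5 : (16 : ℝ) ≤ G ^ 4 := by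
    calc (16 : ℝ) = 2 ^ 4 := by norm_num
      _ ≤ G ^ 4 := pow_le_pow_left₀ (by norm_num) hG 4
  rw [e]
  calc (1 + G) * (3 * (G ^ 14 * U ^ 190) + 3 * G ^ 2 * U ^ 32 * 1 ^ 2)
      ≤ (2 * G) * (6 * (G ^ 14 * U ^ 32)) :=
        mul_le_mul (by linarith) h4 (by positivity) (by linarith)
    _ = 12 * (G ^ 15 * U ^ 32) := by ring
    _ ≤ G ^ 4 * (G ^ 15 * U ^ 32) := mul_le_mul_of_nonneg_right (by linarith) (by positivity)
    _ = G ^ 19 * U ^ 32 := by ring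

theorem main (h01 : S01) (h03 : S03) (h04 : S04) (w01 : W01) (w02 : W02) (w03 : W03) (w05 : W05)
    (w06 : W06) (w09 : W09) (w12 : W12) (h : D.Hyp) (hW : Wts D ρ Str) {w w' : ℝ → Md → C3}
    {κ κ' : ℝ → Md → ℂ} (hA : Adm D ρ w κ) (hA' : Adm D ρ w' κ') {o : ℕ} (h1 : D.m ≤ o)
    (h2 : o ≤ D.n) :
    Src D.T D.c D.γ (ρ o) (fun t => act (idK - D.Pl D.n t)
      (res (lev D.n : Set Md) ((B1 D w w' + B2 D w κ w') t))) ≤
      ENNReal.ofReal (D.G ^ 19 * D.u (D.n + 1) ^ 32) * XN D ρ w κ * XN D ρ w' κ' := by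
  have h0 := h.hmn
  have hG := h.G_two
  have hu := h.u_pos (D.n + 1)
  have hu1 := h.u_lt (D.n + 1)
  have hρ := hW.wt
  have hρo := hρ o h1 (by omega)
  have nw := nrm_one h04 w05 h w κ hρ hA
  have nw' := nrm_one h04 w05 h w' κ' hρ hA'
  have hB := B_cm h04 w01 w05 w09 w12 h hρ hA hA'
  refine (w03 Md C3 C3 D.T D.c D.γ (ρ o) (fun t => idK - D.Pl D.n t)
    (fun t => res (lev D.n : Set Md) ((B1 D w w' + B2 D w κ w') t)) (par h) hρo
    (cm_res _ hB)).trans ?_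
  have nn : ∀ S : Set Md, Nrm D.T D.c D.γ Dat.one' (fun t => res S (w t)) ≠ ∞ := fun S =>
    ne_top_of_le_ne_top nw (nrm_mono _ _ _ _ _ _ fun t _ q => res_norm _ _ _)
  have nn' : ∀ S : Set Md, Nrm D.T D.c D.γ Dat.one' (fun t => res S (w' t)) ≠ ∞ := fun S =>
    ne_top_of_le_ne_top nw' (nrm_mono _ _ _ _ _ _ fun t _ q => res_norm _ _ _)
  have h3 : Src D.T D.c D.γ (ρ o)
      (fun t => res (lev D.n : Set Md) ((B1 D w w' + B2 D w κ w') t)) ≤
      Src D.T D.c D.γ (ρ o) (gg D (fun t => conv outerB (res (lev D.n : Set Md) (w' t))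
        (VV D (fun t => res (lev D.n : Set Md) (w t)) t)) +
      gg D (fun t => conv outerB (res (Cl (D.n + 1)) (w' t))
        (VV D (fun t => res (Cl (D.n + 1)) (w t)) t))) := by
    refine src_mono _ _ _ _ _ _ fun t ht q => le_of_eq ?_
    exact congrArg norm (split_eq h03 h04 w01 w05 w09 h hρ hA hA' ht q)
  have hcm : CM D.T (gg D (fun t => conv outerB (res (lev D.n : Set Md) (w' t))
        (VV D (fun t => res (lev D.n : Set Md) (w t)) t))) :=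
    gg_cm (outer_cm w12 h (one_wt _) (one_wt _) (cm_res _ hA'.w_cm)
      (VV_cm w09 w12 h (one_wt _) (cm_res _ hA.w_cm) (nn _)) (nn' _)
      (VV_fin w01 w09 h (one_wt _) (nn _)))
  have h4 := (w05 Md C3 D.T D.c D.γ (ρ o) (ρ o)
    (gg D (fun t => conv outerB (res (lev D.n : Set Md) (w' t))
        (VV D (fun t => res (lev D.n : Set Md) (w t)) t)))
    (gg D (fun t => conv outerB (res (Cl (D.n + 1)) (w' t))
        (VV D (fun t => res (Cl (D.n + 1)) (w t)) t))) (par h) hρo hρo).2.2.2.1 hcm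
  have hb : 0 ≤ D.G ^ 6 / D.u (D.n + 1) ^ 5 := by positivity
  have h5 := term h01 w01 w02 w05 w06 w09 h hρo (hρ D.m le_rfl (by omega))
    (D.u (D.n + 1) ^ 200) (D.G ^ 6 / D.u (D.n + 1) ^ 5) (by positivity) hb (by
      intro t ht
      exact (hW.w5 D.m D.m le_rfl h0 le_rfl h0 t ht).trans
        (mul_le_mul_of_nonneg_left (hW.str_le o h1 h2 t ht) (by positivity)))
    (fun t => res (lev D.n : Set Md) (w t)) (fun t => res (lev D.n : Set Md) (w' t))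
    (XN D ρ w κ) (XN D ρ w' κ')
    (nrm_lev h04 w05 h w κ hρ (hρ D.m le_rfl (by omega)) hb h0 (Nat.le_succ _) (wt_old h hW))
    (nrm_lev h04 w05 h w' κ' hρ (hρ D.m le_rfl (by omega)) hb h0 (Nat.le_succ _) (wt_old h hW))
  have h6 := term h01 w01 w02 w05 w06 w09 h hρo (hρ (D.n + 1) (by omega) le_rfl)
    (D.u (D.n + 1) ^ 32) 1 (by positivity) zero_le_one (by
      intro t ht
      refine le_trans (le_of_eq ?_)
        (mul_le_mul_of_nonneg_left (hW.str_le o h1 h2 t ht) (pow_pos hu 32).le)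
      rw [hW.str_eq t ht, mul_div_cancel₀ _ (pow_pos hu 32).ne', sq])
    (fun t => res (Cl (D.n + 1)) (w t)) (fun t => res (Cl (D.n + 1)) (w' t))
    (XN D ρ w κ) (XN D ρ w' κ')
    (by
      rw [ENNReal.ofReal_one, one_mul]
      exact nrm_new h w κ)
    (by
      rw [ENNReal.ofReal_one, one_mul]
      exact nrm_new h w' κ')
  refine (mul_le_mul' (KN_A w09 h) (h3.trans (h4.trans (add_le_add h5 h6)))).trans ?_
  rw [← add_mul, ← add_mul, ← ENNReal.ofReal_add (by positivity) (by positivity), ← mul_assoc,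
    ← mul_assoc, ← ENNReal.ofReal_mul (by linarith)]
  exact mul_le_mul' (mul_le_mul' (ENNReal.ofReal_le_ofReal (num _ _ hG hu hu1)) le_rfl) le_rfl

end est

end I21

open I21 in
theorem s21 (h01 : S01) (h03 : S03) (h04 : S04) (w01 : W01) (w02 : W02) (w03 : W03) (w05 : W05)
    (w06 : W06) (w09 : W09) (w12 : W12) (w16 : W16) : S21 := by
  intro D ρ Str h hW w w' κ κ' hA hA' o h1 h2
  have h0 := h.hmn
  have hG := h.G_two
  have hu := h.u_pos (D.n + 1)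
  have hu1 := h.u_lt (D.n + 1)
  have hρ := hW.wt
  have hρo := hρ o h1 (by omega)
  have hB := B_cm h04 w01 w05 w09 w12 h hρ hA hA'
  have hcm : CM D.T (Bil D w κ w') := by
    have h3 := (w12 Md C3 C3 C3 D.T (3 / 4 * D.c) D.γ Dat.one' Dat.one' (par' h) (one_wt _)
      (one_wt _)).1 (fun t => idK - D.Pl D.n t) (B1 D w w' + B2 D w κ w') (CK_A h) hB
      (ne_top_of_le_ne_top ENNReal.ofReal_ne_top
        (((w09 Md C3 C3 C3 D.T D.c h.c_pos.le).2.2.2.2.2.1 (3 / 4 * D.c)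
          (by linarith [h.c_pos]) _).trans (KN_A w09 h)))
      (B_fin h01 h03 h04 w01 w02 w05 w09 h hρ hA hA')
    intro q
    exact (h3 q).neg
  have hsup : SuppT D.T (lev (D.n + 1) : Set Md) (Bil D w κ w') := by
    intro t ht q hq
    have h3 := (h03 C3 C3 C3).1 (idK - D.Pl D.n t) D.n (D.n + 1) _ (Nat.le_succ _)
      (fun p q hpq => supp_A w16 h ht p q hpq)
      ((B_supp h03 h κ hA.w_supp hA'.w_supp).2 t ht) q hq
    rw [bil_eq, Pi.neg_apply, h3, neg_zero]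
  have hmain : Src D.T D.c D.γ (ρ o) (fun t => res (Cs D.m o) (Bil D w κ w' t)) ≤
      ENNReal.ofReal (D.G ^ 19 * D.u (D.n + 1) ^ 32) * XN D ρ w κ * XN D ρ w' κ' := by
    refine le_trans ?_ (main h01 h03 h04 w01 w02 w03 w05 w06 w09 w12 h hW hA hA' h1 h2)
    refine src_mono _ _ _ _ _ _ fun t ht q => ?_
    by_cases hq : q ∈ Cs D.m o
    · have hq' : q ∈ lev D.n := Cs_sub h0 h2 hq
      have e1 : res (Cs D.m o) (Bil D w κ w' t) q = Bil D w κ w' t q := if_pos hq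
      have e2 := (h03 C3 C3 C3).2.2.2.1 (idK - D.Pl D.n t) D.n D.n
        ((B1 D w w' + B2 D w κ w') t) le_rfl (fun p q hpq => supp_A w16 h ht p q hpq)
      have e3 : res (lev D.n : Set Md)
          (act (idK - D.Pl D.n t) ((B1 D w w' + B2 D w κ w') t)) q =
          act (idK - D.Pl D.n t) ((B1 D w w' + B2 D w κ w') t) q := if_pos hq'
      rw [e1, bil_eq, Pi.neg_apply, norm_neg, ← e2, e3]
    · have e1 : res (Cs D.m o) (Bil D w κ w' t) q = 0 := if_neg hq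
      rw [e1, norm_zero]
      exact norm_nonneg _
  have hX : ∀ a b : ℝ, a ≤ b → ENNReal.ofReal a * XN D ρ w κ * XN D ρ w' κ' ≤
      ENNReal.ofReal b * XN D ρ w κ * XN D ρ w' κ' := fun a b hab =>
    mul_le_mul' (mul_le_mul' (ENNReal.ofReal_le_ofReal hab) le_rfl) le_rfl
  refine ⟨hcm, hsup, hmain.trans (hX _ _ ?_), fun ho => ?_⟩
  · have h3 : D.G ^ 19 ≤ D.G ^ 20 := pow_le_pow_right₀ (by linarith) (by norm_num)
    have h4 : D.u (D.n + 1) ^ 32 ≤ D.u (D.n + 1) ^ 24 :=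
      pow_le_pow_of_le_one hu.le hu1.le (by norm_num)
    exact mul_le_mul h3 h4 (by positivity) (by positivity)
  · have huo := h.u_pos o
    have hNo : 0 < D.N o := lt_of_lt_of_le one_pos (h.N_pos o (by omega))
    have hσ : Wt D.T (fun t => D.u o ^ 128 * ρ o t) :=
      ⟨fun t ht => mul_pos (pow_pos huo _) (hρo.pos t ht), continuousOn_const.mul hρo.cont,
        fun a ha b hb hab => mul_le_mul_of_nonneg_left (hρo.mono ha hb hab) (pow_pos huo _).le⟩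
    have h3 := ((w05 Md ℂ D.T D.c D.γ (ρ o) (fun t => D.u o ^ 128 * ρ o t)
      (fun t => ((D.N o : ℂ)⁻¹) • mul (D.rw o t) (res (Cs D.m o) (Bil D w κ w' t)))
      (fun t => ((D.N o : ℂ)⁻¹) • mul (D.rw o t) (res (Cs D.m o) (Bil D w κ w' t)))
      (par h) hρo hσ).2.1 (1 / D.u o ^ 128) (by positivity) (by
        intro t _
        refine le_of_eq ?_
        field_simp)).2
    have h4 := ((w05 Md ℂ D.T D.c D.γ (ρ o) (ρ o)
      (fun t => mul (D.rw o t) (res (Cs D.m o) (Bil D w κ w' t)))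
      (fun t => mul (D.rw o t) (res (Cs D.m o) (Bil D w κ w' t)))
      (par h) hρo hρo).2.2.2.2 ((D.N o : ℂ)⁻¹)).2
    have h5 := w03 Md C3 ℂ D.T D.c D.γ (ρ o) (fun t => mulK (D.rw o t))
      (fun t => res (Cs D.m o) (Bil D w κ w' t)) (par h) hρo (cm_res _ hcm)
    have h6 := h5.trans (mul_le_mul' (KN_rw w09 h ho (by omega)) hmain)
    have h7 : ‖((D.N o : ℂ)⁻¹)‖ₑ = ENNReal.ofReal (1 / D.N o) := by
      rw [← ofReal_norm, norm_inv, Complex.norm_real, Real.norm_of_nonneg hNo.le, one_div]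
    refine h3.trans ?_
    refine (mul_le_mul' le_rfl ((le_of_eq h4).trans (mul_le_mul' (le_of_eq h7) h6))).trans ?_
    rw [← mul_assoc, ← mul_assoc, ← mul_assoc, ← mul_assoc, ← ENNReal.ofReal_mul (by positivity),
      ← ENNReal.ofReal_mul (by positivity), ← ENNReal.ofReal_mul (by positivity)]
    refine hX _ _ ?_
    have e1 : 1 / D.u o ^ 128 * (1 / D.N o) * (D.N o * D.G) *
        (D.G ^ 19 * D.u (D.n + 1) ^ 32) =
        D.G ^ 20 * D.u (D.n + 1) ^ 24 * (D.u (D.n + 1) ^ 8 / D.u o ^ 128) := by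
      field_simp
    rw [e1]
    refine mul_le_of_le_one_right (by positivity) ?_
    rw [div_le_one (pow_pos huo 128)]
    calc D.u (D.n + 1) ^ 8 ≤ (D.u o ^ 16) ^ 8 := pow_le_pow_left₀ hu.le (u_last h ho h2) 8
      _ = D.u o ^ 128 := by rw [← pow_mul]

end Pool.Agent.Work.MP_b0497c_an.Unf.S
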