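import Pool.Agent.Work.MP_b0497c_an.Unf.SStmts2

set_option autoImplicit false
set_option linter.unusedVariables false
set_option linter.unusedSectionVars false

/-!
# S24, part A: tools (norms, supports, classes)
-/

open scoped ENNReal
open Set MeasureTheory

namespace Pool.Agent.Work.MP_b0497c_an.Unf.S

open W

namespace FPt

section gen

variable {E F G : Type} [NormedAddCommGroup E] [NormedAddCommGroup F] [NormedAddCommGroup G]
  {T c γ : ℝ} {ρ : ℝ → ℝ}

theorem Nrm_mono [NormedSpace ℂ E] [NormedSpace ℂ F] {f : ℝ → Md → E} {g : ℝ → Md → F}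
    (h : ∀ t ∈ Icc 0 T, ∀ q, ‖f t q‖ₑ ≤ ‖g t q‖ₑ) : Nrm T c γ ρ f ≤ Nrm T c γ ρ g := by
  refine ENNReal.tsum_le_tsum fun q => iSup₂_mono fun t ht => ?_
  gcongr
  exact h t ht q

theorem Nrm_congr {f g : ℝ → Md → E} (h : ∀ t ∈ Icc 0 T, f t = g t) :
    Nrm T c γ ρ f = Nrm T c γ ρ g := by
  unfold Nrm
  congr 1
  funext q
  refine iSup_congr fun t => iSup_congr fun ht => ?_
  rw [h t ht]

theorem Src_congr {f g : ℝ → Md → E} (h : ∀ t ∈ Icc 0 T, f t = g t) :
    Src T c γ ρ f = Src T c γ ρ g := by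
  unfold Src
  congr 1
  funext q
  refine iSup_congr fun t => iSup_congr fun ht => ?_
  refine setLIntegral_congr_fun measurableSet_Ioc fun s hs => ?_
  rw [h s ⟨hs.1.le, hs.2.trans ht.2⟩]

theorem Nrm_le_add {f : ℝ → Md → E} {g : ℝ → Md → F} {k : ℝ → Md → G}
    (h : ∀ t ∈ Icc 0 T, ∀ q, ‖f t q‖ₑ ≤ ‖g t q‖ₑ + ‖k t q‖ₑ) :
    Nrm T c γ ρ f ≤ Nrm T c γ ρ g + Nrm T c γ ρ k := by
  unfold Nrm
  rw [← ENNReal.tsum_add]
  refine ENNReal.tsum_le_tsum fun q => iSup₂_le fun t ht => ?_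
  refine le_trans (mul_le_mul' le_rfl (h t ht q)) ?_
  rw [mul_add]
  exact add_le_add (le_iSup₂ (f := fun t (_ : t ∈ Icc 0 T) =>
      ENNReal.ofReal (Real.exp ((c - γ * t) * len q) / ρ t) * ‖g t q‖ₑ) t ht)
    (le_iSup₂ (f := fun t (_ : t ∈ Icc 0 T) =>
      ENNReal.ofReal (Real.exp ((c - γ * t) * len q) / ρ t) * ‖k t q‖ₑ) t ht)

theorem Nrm_sub_le {f g : ℝ → Md → E} :
    Nrm T c γ ρ (fun t => f t - g t) ≤ Nrm T c γ ρ f + Nrm T c γ ρ g :=
  Nrm_le_add fun t _ q => by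
    rw [Pi.sub_apply]
    exact enorm_sub_le

theorem Nrm_add_le {f g : ℝ → Md → E} :
    Nrm T c γ ρ (fun t => f t + g t) ≤ Nrm T c γ ρ f + Nrm T c γ ρ g :=
  Nrm_le_add fun t _ q => by
    rw [Pi.add_apply]
    exact enorm_add_le _ _

theorem Nrm_zero : Nrm T c γ ρ (fun _ => (0 : Md → E)) = 0 := by
  simp [Nrm]

theorem Nrm_le_sum {ι : Type} (S : Finset ι) {f : ℝ → Md → E} {g : ι → ℝ → Md → F}
    (h : ∀ t ∈ Icc 0 T, ∀ q, ‖f t q‖ₑ ≤ ∑ o ∈ S, ‖g o t q‖ₑ) :
    Nrm T c γ ρ f ≤ ∑ o ∈ S, Nrm T c γ ρ (g o) := by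
  unfold Nrm
  rw [← Summable.tsum_finsetSum fun _ _ => ENNReal.summable]
  refine ENNReal.tsum_le_tsum fun q => iSup₂_le fun t ht => ?_
  refine le_trans (mul_le_mul' le_rfl (h t ht q)) ?_
  rw [Finset.mul_sum]
  refine Finset.sum_le_sum fun o _ => ?_
  exact le_iSup₂ (f := fun t (_ : t ∈ Icc 0 T) =>
      ENNReal.ofReal (Real.exp ((c - γ * t) * len q) / ρ t) * ‖g o t q‖ₑ) t ht

/-- Smaller radius. -/
theorem Nrm_radius {c' : ℝ} (hc : c' ≤ c) (hρ : Wt T ρ) (f : ℝ → Md → E) :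
    Nrm T c' γ ρ f ≤ Nrm T c γ ρ f := by
  refine ENNReal.tsum_le_tsum fun q => iSup₂_mono fun t ht => ?_
  gcongr
  · exact (hρ.pos t ht).le
  · exact len_nonneg q

/-- One derivative costs radius. -/
theorem Nrm_deriv {c' B : ℝ} (hc : c' < c) (hB : 0 ≤ B) (hρ : Wt T ρ) {f : ℝ → Md → E}
    {h : ℝ → Md → F} (hh : ∀ t ∈ Icc 0 T, ∀ q, ‖h t q‖ ≤ B * len q * ‖f t q‖) :
    Nrm T c' γ ρ h ≤ ENNReal.ofReal (B / (c - c')) * Nrm T c γ ρ f := by
  unfold Nrm
  rw [← ENNReal.tsum_mul_left]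
  refine ENNReal.tsum_le_tsum fun q => iSup₂_le fun t ht => ?_
  have hd : 0 < c - c' := by linarith
  have hr := hρ.pos t ht
  have h1 : ENNReal.ofReal (Real.exp ((c' - γ * t) * len q) / ρ t) * ‖h t q‖ₑ ≤
      ENNReal.ofReal (B / (c - c')) *
        (ENNReal.ofReal (Real.exp ((c - γ * t) * len q) / ρ t) * ‖f t q‖ₑ) := by
    rw [← ofReal_norm, ← ofReal_norm,
      ← ENNReal.ofReal_mul (by positivity), ← ENNReal.ofReal_mul (by positivity),
      ← ENNReal.ofReal_mul (by positivity)]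
    refine ENNReal.ofReal_le_ofReal ?_
    have hx : (c - c') * len q ≤ Real.exp ((c - c') * len q) := by
      have := Real.add_one_le_exp ((c - c') * len q)
      linarith
    have he : Real.exp ((c - γ * t) * len q) =
        Real.exp ((c' - γ * t) * len q) * Real.exp ((c - c') * len q) := by
      rw [← Real.exp_add]
      congr 1
      ring
    rw [he]
    have hlen := len_nonneg q
    calc Real.exp ((c' - γ * t) * len q) / ρ t * ‖h t q‖
        ≤ Real.exp ((c' - γ * t) * len q) / ρ t * (B * len q * ‖f t q‖) := by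
          gcongr
          exact hh t ht q
      _ = B / (c - c') * (Real.exp ((c' - γ * t) * len q) * ((c - c') * len q) / ρ t *
            ‖f t q‖) := by
          field_simp
      _ ≤ B / (c - c') * (Real.exp ((c' - γ * t) * len q) * Real.exp ((c - c') * len q) / ρ t *
            ‖f t q‖) := by
          gcongr
  refine h1.trans ?_
  gcongr
  exact le_iSup₂ (f := fun t (_ : t ∈ Icc 0 T) =>
      ENNReal.ofReal (Real.exp ((c - γ * t) * len q) / ρ t) * ‖f t q‖ₑ) t ht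

/-- Comparison of weights. -/
theorem Nrm_weight {ρ' : ℝ → ℝ} {a : ℝ} (ha : 0 ≤ a) (hρ : Wt T ρ) (hρ' : Wt T ρ')
    (h : ∀ t ∈ Icc 0 T, ρ t ≤ a * ρ' t) (f : ℝ → Md → E) :
    Nrm T c γ ρ' f ≤ ENNReal.ofReal a * Nrm T c γ ρ f := by
  unfold Nrm
  rw [← ENNReal.tsum_mul_left]
  refine ENNReal.tsum_le_tsum fun q => iSup₂_le fun t ht => ?_
  have hr := hρ.pos t ht
  have hr' := hρ'.pos t ht
  have h1 : ENNReal.ofReal (Real.exp ((c - γ * t) * len q) / ρ' t) ≤
      ENNReal.ofReal a * ENNReal.ofReal (Real.exp ((c - γ * t) * len q) / ρ t) := by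
    rw [← ENNReal.ofReal_mul ha]
    refine ENNReal.ofReal_le_ofReal ?_
    rw [div_le_iff₀ hr']
    have h3 : a * (Real.exp ((c - γ * t) * len q) / ρ t) * ρ' t =
      Real.exp ((c - γ * t) * len q) * ((a * ρ' t) / ρ t) := by ring
    rw [h3]
    have h2 : 1 ≤ (a * ρ' t) / ρ t := (one_le_div hr).2 (h t ht)
    have := Real.exp_pos ((c - γ * t) * len q)
    nlinarith
  refine (mul_le_mul' h1 le_rfl).trans ?_
  rw [mul_assoc]
  gcongr
  exact le_iSup₂ (f := fun t (_ : t ∈ Icc 0 T) =>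
      ENNReal.ofReal (Real.exp ((c - γ * t) * len q) / ρ t) * ‖f t q‖ₑ) t ht

theorem wt_one : Wt T Dat.one' where
  pos _ _ := one_pos
  cont := continuousOn_const
  mono _ _ _ _ _ := le_rfl

theorem wt_scale {a : ℝ} (ha : 0 < a) (hρ : Wt T ρ) : Wt T (fun t => a * ρ t) where
  pos t ht := mul_pos ha (hρ.pos t ht)
  cont := continuousOn_const.mul hρ.cont
  mono s hs t ht hst := mul_le_mul_of_nonneg_left (hρ.mono hs ht hst) ha.le

theorem Nrm_scale {a : ℝ} (ha : 0 < a) (f : ℝ → Md → E) :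
    Nrm T c γ ρ f = ENNReal.ofReal a * Nrm T c γ (fun t => a * ρ t) f := by
  unfold Nrm
  rw [← ENNReal.tsum_mul_left]
  congr 1
  funext q
  simp only [ENNReal.mul_iSup]
  refine iSup_congr fun t => iSup_congr fun ht => ?_
  rw [← mul_assoc, ← ENNReal.ofReal_mul ha.le]
  congr 2
  rcases eq_or_ne (ρ t) 0 with h0 | h0
  · simp [h0]
  · field_simp

/-- Finiteness for one weight gives finiteness for the other. -/
theorem Nrm_fin {ρ' : ℝ → ℝ} (hT : 0 ≤ T) (hρ : Wt T ρ) (hρ' : Wt T ρ') {f : ℝ → Md → E}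
    (h : Nrm T c γ ρ f ≠ ∞) : Nrm T c γ ρ' f ≠ ∞ := by
  have h0 : (0 : ℝ) ∈ Icc 0 T := ⟨le_rfl, hT⟩
  have hT' : T ∈ Icc 0 T := ⟨hT, le_rfl⟩
  have hp0 := hρ'.pos 0 h0
  have hpT := hρ.pos T hT'
  refine ne_top_of_le_ne_top (ENNReal.mul_ne_top ENNReal.ofReal_ne_top h)
    (Nrm_weight (a := ρ T / ρ' 0) (by positivity) hρ hρ' (fun t ht => ?_) f)
  have h1 : ρ t ≤ ρ T := hρ.mono ht hT' ht.2
  have h2 : ρ' 0 ≤ ρ' t := hρ'.mono h0 ht ht.1
  calc ρ t ≤ ρ T := h1
    _ = ρ T / ρ' 0 * ρ' 0 := by field_simp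
    _ ≤ ρ T / ρ' 0 * ρ' t := by gcongr

/-- Static norm at a fixed time. -/
theorem sN_le_Nrm (hp : γ * T ≤ c) (hγ : 0 ≤ γ) (hρ : Wt T ρ) (f : ℝ → Md → E) {t : ℝ}
    (ht : t ∈ Icc 0 T) : sN 0 (f t) ≤ ENNReal.ofReal (ρ t) * Nrm T c γ ρ f := by
  unfold Nrm sN
  rw [← ENNReal.tsum_mul_left]
  refine ENNReal.tsum_le_tsum fun q => ?_
  have hr := hρ.pos t ht
  have h1 : ENNReal.ofReal (Real.exp (0 * len q)) * ‖f t q‖ₑ ≤ ENNReal.ofReal (ρ t) *
      (ENNReal.ofReal (Real.exp ((c - γ * t) * len q) / ρ t) * ‖f t q‖ₑ) := by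
    rw [← mul_assoc, ← ENNReal.ofReal_mul hr.le]
    gcongr
    rw [mul_div_cancel₀ _ hr.ne']
    apply Real.exp_le_exp.2
    rw [zero_mul]
    have : γ * t ≤ γ * T := mul_le_mul_of_nonneg_left ht.2 hγ
    exact mul_nonneg (by linarith) (len_nonneg q)
  refine h1.trans ?_
  gcongr
  exact le_iSup₂ (f := fun t (_ : t ∈ Icc 0 T) =>
      ENNReal.ofReal (Real.exp ((c - γ * t) * len q) / ρ t) * ‖f t q‖ₑ) t ht

theorem sN_fin (hp : γ * T ≤ c) (hγ : 0 ≤ γ) (hρ : Wt T ρ) {f : ℝ → Md → E}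
    (h : Nrm T c γ ρ f ≠ ∞) {t : ℝ} (ht : t ∈ Icc 0 T) : sN 0 (f t) ≠ ∞ :=
  ne_top_of_le_ne_top (ENNReal.mul_ne_top ENNReal.ofReal_ne_top h) (sN_le_Nrm hp hγ hρ f ht)

/-- The norm without exponentials. -/
theorem Nrm00_le (hp : γ * T ≤ c) (hγ : 0 ≤ γ) (hρ : Wt T ρ) (f : ℝ → Md → E) :
    Nrm T 0 0 ρ f ≤ Nrm T c γ ρ f := by
  refine ENNReal.tsum_le_tsum fun q => iSup₂_mono fun t ht => ?_
  have hr := hρ.pos t ht
  have h1 : (0 - 0 * t) * len q ≤ (c - γ * t) * len q := by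
    refine mul_le_mul_of_nonneg_right ?_ (len_nonneg q)
    have : γ * t ≤ γ * T := mul_le_mul_of_nonneg_left ht.2 hγ
    linarith
  exact mul_le_mul' (ENNReal.ofReal_le_ofReal
    (div_le_div_of_nonneg_right (Real.exp_le_exp.2 h1) hr.le)) le_rfl

/-- A time independent function. -/
theorem Nrm_const_le (hT : 0 ≤ T) (hγ : 0 ≤ γ) (hρ : Wt T ρ) (f : Md → E) :
    Nrm T c γ ρ (fun _ => f) ≤ ENNReal.ofReal (1 / ρ 0) * sN c f := by
  unfold Nrm sN
  rw [← ENNReal.tsum_mul_left]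
  refine ENNReal.tsum_le_tsum fun q => iSup₂_le fun t ht => ?_
  have h0 : (0 : ℝ) ∈ Icc 0 T := ⟨le_rfl, hT⟩
  have hr := hρ.pos t ht
  have hr0 := hρ.pos 0 h0
  rw [← mul_assoc, ← ENNReal.ofReal_mul (by positivity)]
  gcongr
  rw [one_div, inv_mul_eq_div]
  have hmono := hρ.mono h0 ht ht.1
  have hlen := len_nonneg q
  have : c - γ * t ≤ c := by
    have := mul_nonneg hγ ht.1
    linarith
  gcongr

end gen

/-! ### supports -/

section supp0

variable {E : Type} [NormedAddCommGroup E]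

theorem res_of_mem {S : Set Md} {f : Md → E} {q : Md} (h : q ∈ S) : res S f q = f q := by
  simp [res, h]

theorem res_of_not_mem {S : Set Md} {f : Md → E} {q : Md} (h : q ∉ S) : res S f q = 0 := by
  simp [res, h]

theorem res_eq_self {S : Set Md} {f : Md → E} (h : SuppIn S f) : res S f = f := by
  funext q
  by_cases hq : q ∈ S
  · exact res_of_mem hq
  · rw [res_of_not_mem hq, h q hq]

theorem suppIn_res (S : Set Md) (f : Md → E) : SuppIn S (res S f) := fun _ hq => res_of_not_mem hq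

theorem enorm_res_le (S : Set Md) (f : Md → E) (q : Md) : ‖res S f q‖ₑ ≤ ‖f q‖ₑ := by
  by_cases hq : q ∈ S
  · rw [res_of_mem hq]
  · rw [res_of_not_mem hq]
    simp

theorem res_sub (S : Set Md) (f g : Md → E) : res S (f - g) = res S f - res S g := by
  funext q
  by_cases hq : q ∈ S <;> simp [res, hq]

theorem res_add (S : Set Md) (f g : Md → E) : res S (f + g) = res S f + res S g := by
  funext q
  by_cases hq : q ∈ S <;> simp [res, hq]

theorem res_smul [NormedSpace ℂ E] (S : Set Md) (z : ℂ) (f : Md → E) : res S (z • f) = z • res S f := by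
  funext q
  by_cases hq : q ∈ S <;> simp [res, hq]

theorem res_zero (S : Set Md) : res S (0 : Md → E) = 0 := by
  funext q
  by_cases hq : q ∈ S <;> simp [res, hq]

theorem sN_res_le (c : ℝ) (S : Set Md) (f : Md → E) : sN c (res S f) ≤ sN c f := by
  refine ENNReal.tsum_le_tsum fun q => ?_
  gcongr
  exact enorm_res_le S f q

end supp0

section supp

variable {E F G : Type} [NormedAddCommGroup E] [NormedSpace ℂ E] [NormedAddCommGroup F]
  [NormedSpace ℂ F] [NormedAddCommGroup G] [NormedSpace ℂ G]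

/-- The kernel couples only modes whose difference is in `Λ`. -/
def Bl (Λ : AddSubgroup Md) (A : Md → Md → (E →L[ℂ] F)) : Prop := ∀ p q, p - q ∉ Λ → A p q = 0

/-- A set of modes which is a union of cosets. -/
def Stab (Λ : AddSubgroup Md) (S : Set Md) : Prop := ∀ p q, p - q ∈ Λ → p ∈ S → q ∈ S

theorem res_act {Λ : AddSubgroup Md} {S : Set Md} (hS : Stab Λ S) {A : Md → Md → (E →L[ℂ] F)}
    (hA : Bl Λ A) (f : Md → E) : res S (act A f) = act A (res S f) := by
  funext p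
  by_cases hp : p ∈ S
  · rw [res_of_mem hp]
    unfold act
    refine tsum_congr fun l => ?_
    by_cases hl : p - l ∈ Λ
    · rw [res_of_mem (hS p l hl hp)]
    · rw [hA p l hl]
      simp
  · rw [res_of_not_mem hp]
    unfold act
    refine (Eq.trans (tsum_congr fun l => ?_) tsum_zero).symm
    by_cases hl : p - l ∈ Λ
    · have : l ∉ S := fun h => hp (hS l p (by simpa using Λ.neg_mem hl) h)
      rw [res_of_not_mem this, map_zero]
    · rw [hA p l hl]
      simp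

theorem Bl.mono {Λ Λ' : AddSubgroup Md} (h : Λ ≤ Λ') {A : Md → Md → (E →L[ℂ] F)} (hA : Bl Λ A) :
    Bl Λ' A := fun p q hpq => hA p q fun h' => hpq (h h')

theorem Bl.kcomp' {Λ : AddSubgroup Md} {A : Md → Md → (F →L[ℂ] G)} {B : Md → Md → (E →L[ℂ] F)}
    (hA : Bl Λ A) (hB : Bl Λ B) : Bl Λ (kcomp A B) := by
  intro p q hpq
  unfold kcomp
  refine Eq.trans (tsum_congr fun j => ?_) tsum_zero
  by_cases h1 : p - j ∈ Λ
  · have h2 : j - q ∉ Λ := fun h2 => hpq (by simpa using Λ.add_mem h1 h2)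
    rw [hB j q h2, ContinuousLinearMap.comp_zero]
  · rw [hA p j h1, ContinuousLinearMap.zero_comp]

theorem bl_idK (Λ : AddSubgroup Md) : Bl Λ idK := by
  intro p q hpq
  have : p ≠ q := by
    rintro rfl
    exact hpq (by simpa using Λ.zero_mem)
  simp [idK, diagK, this]

theorem bl_mulK {Λ : AddSubgroup Md} {a : Md → (E →L[ℂ] F)} (h : SuppIn (Λ : Set Md) a) :
    Bl Λ (mulK a) := fun p q hpq => h _ hpq

theorem Bl.sub' {Λ : AddSubgroup Md} {A B : Md → Md → (E →L[ℂ] F)} (hA : Bl Λ A) (hB : Bl Λ B) :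
    Bl Λ (A - B) := by
  intro p q hpq
  simp [hA p q hpq, hB p q hpq]

theorem Bl.neg' {Λ : AddSubgroup Md} {A : Md → Md → (E →L[ℂ] F)} (hA : Bl Λ A) : Bl Λ (-A) := by
  intro p q hpq
  simp [hA p q hpq]

theorem Bl.smul' {Λ : AddSubgroup Md} (z : ℂ) {A : Md → Md → (E →L[ℂ] F)} (hA : Bl Λ A) :
    Bl Λ (z • A) := by
  intro p q hpq
  simp [hA p q hpq]

theorem lev_mono {l n : ℕ} (h : l ≤ n) : lev l ≤ lev n := fun _ hq i hi => hq i (by omega)

theorem stab_lev {l n : ℕ} (h : l ≤ n) : Stab (lev l) (lev n : Set Md) := by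
  intro p q hpq hp
  have := (lev n).sub_mem hp (lev_mono h hpq)
  simpa using this

theorem stab_Cl {l j : ℕ} (h : l < j) : Stab (lev l) (Cl j) := by
  intro p q hpq hp
  refine ⟨stab_lev h.le p q hpq hp.1, ?_⟩
  have h1 := hpq j h
  rw [Finsupp.sub_apply] at h1
  have h2 := hp.2
  intro h3
  apply h2
  omega

end supp

/-! ### classes -/

open Classical in
/-- The class of a mode. -/
noncomputable def cls (m n : ℕ) (q : Md) : ℕ := min (n + 1) (max m (q.support.sup id))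

theorem cls_ge {m n : ℕ} (h : m ≤ n) (q : Md) : m ≤ cls m n q := by
  unfold cls
  exact le_min (by omega) (le_max_left _ _)

theorem cls_le (m n : ℕ) (q : Md) : cls m n q ≤ n + 1 := min_le_left _ _

theorem sup_le_of_lev {n : ℕ} {q : Md} (h : q ∈ lev n) : q.support.sup id ≤ n := by
  refine Finset.sup_le fun i hi => ?_
  by_contra hlt
  rw [id, not_le] at hlt
  exact (Finsupp.mem_support_iff.1 hi) (h i hlt)

theorem lev_sup (q : Md) : q ∈ lev (q.support.sup id) := by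
  intro i hi
  by_contra h
  have h1 : i ∈ q.support := Finsupp.mem_support_iff.2 h
  have h2 : id i ≤ q.support.sup id := Finset.le_sup h1
  rw [id] at h2
  omega

theorem cls_mem {m n : ℕ} {q : Md} (h : q ∈ lev (n + 1)) : q ∈ Cs m (cls m n q) := by
  have h1 := sup_le_of_lev h
  rcases le_or_gt (q.support.sup id) m with h2 | h2
  · have h3 : cls m n q ≤ m := by
      unfold cls
      rw [max_eq_left h2]
      exact min_le_right _ _
    rw [Cs, if_pos h3]
    exact lev_mono h2 (lev_sup q)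
  · have h3 : cls m n q = q.support.sup id := by
      unfold cls
      rw [max_eq_right h2.le, min_eq_right h1]
    rw [Cs, h3, if_neg (by omega)]
    refine ⟨lev_sup q, ?_⟩
    have hne : q.support.Nonempty := by
      rw [Finset.nonempty_iff_ne_empty]
      intro he
      rw [he] at h2
      simp at h2
    obtain ⟨i, hi, hi'⟩ := Finset.exists_mem_eq_sup _ hne id
    rw [hi']
    exact Finsupp.mem_support_iff.1 hi

theorem cls_eq {m n o : ℕ} {q : Md} (hmo : m ≤ o) (hon : o ≤ n + 1) (h : q ∈ Cs m o) :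
    cls m n q = o := by
  unfold Cs at h
  split_ifs at h with h1
  · have : o = m := le_antisymm h1 hmo
    subst this
    have := sup_le_of_lev h
    unfold cls
    rw [max_eq_left this, min_eq_right hon]
  · have h2 : q.support.sup id = o := by
      refine le_antisymm (sup_le_of_lev h.1) ?_
      have : o ∈ q.support := Finsupp.mem_support_iff.2 h.2
      exact Finset.le_sup (f := id) this
    unfold cls
    rw [h2, max_eq_right hmo, min_eq_right hon]

theorem Cs_sub_lev {m o n : ℕ} (hmo : m ≤ o) (hon : o ≤ n) : Cs m o ⊆ (lev n : Set Md) := by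
  intro q hq
  unfold Cs at hq
  split_ifs at hq with h1
  · exact lev_mono (by omega) hq
  · exact lev_mono hon hq.1

theorem Cs_of_gt {m o : ℕ} (h : m < o) : Cs m o = Cl o := by
  rw [Cs, if_neg (by omega)]

theorem Cs_self (m : ℕ) : Cs m m = (lev m : Set Md) := by
  rw [Cs, if_pos le_rfl]

/-- A level `n+1` function is bounded by the sum over its classes. -/
theorem enorm_le_sum {E : Type} [NormedAddCommGroup E] {m n : ℕ} (hmn : m ≤ n) {f : Md → E}
    (hf : SuppIn (lev (n + 1) : Set Md) f) (q : Md) :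
    ‖f q‖ₑ ≤ ∑ o ∈ Finset.Icc m (n + 1), ‖res (Cs m o) f q‖ₑ := by
  by_cases hq : q ∈ lev (n + 1)
  · have h1 : cls m n q ∈ Finset.Icc m (n + 1) :=
      Finset.mem_Icc.2 ⟨cls_ge hmn q, cls_le m n q⟩
    have h2 : res (Cs m (cls m n q)) f q = f q := res_of_mem (cls_mem hq)
    rw [← h2]
    exact Finset.single_le_sum (f := fun o => ‖res (Cs m o) f q‖ₑ) (fun _ _ => bot_le) h1
  · rw [hf q hq]
    simp

end FPt

end Pool.Agent.Work.MP_b0497c_an.Unf.S
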