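import Pool.Agent.Work.MP_b0497c_an.Unf.S24A

set_option autoImplicit false
set_option linter.unusedVariables false
set_option linter.unusedSectionVars false

/-!
# S24, part B: facts on the data, finiteness and linearity
-/

open scoped ENNReal
open Set MeasureTheory

namespace Pool.Agent.Work.MP_b0497c_an.Unf.S

open W

namespace FPt

/-- The W items used. -/
structure WH : Prop where
  w01 : W01
  w02 : W02
  w05 : W05
  w08 : W08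
  w09 : W09
  w10 : W10
  w11 : W11
  w12 : W12
  w13 : W13
  w16 : W16
  w23 : W23

section lin

variable {E F G : Type} [NormedAddCommGroup E] [NormedSpace ℂ E] [NormedAddCommGroup F]
  [NormedSpace ℂ F] [NormedAddCommGroup G] [NormedSpace ℂ G]

theorem sN0 (f : Md → E) : sN 0 f = ∑' q, ‖f q‖ₑ := by
  unfold sN
  simp

theorem sN_sub_fin {f g : Md → E} (hf : sN 0 f ≠ ∞) (hg : sN 0 g ≠ ∞) : sN 0 (f - g) ≠ ∞ := by
  rw [sN0] at *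
  refine ne_top_of_le_ne_top (ENNReal.add_ne_top.2 ⟨hf, hg⟩) ?_
  rw [← ENNReal.tsum_add]
  exact ENNReal.tsum_le_tsum fun q => by rw [Pi.sub_apply]; exact enorm_sub_le

theorem sN_add_fin {f g : Md → E} (hf : sN 0 f ≠ ∞) (hg : sN 0 g ≠ ∞) : sN 0 (f + g) ≠ ∞ := by
  rw [sN0] at *
  refine ne_top_of_le_ne_top (ENNReal.add_ne_top.2 ⟨hf, hg⟩) ?_
  rw [← ENNReal.tsum_add]
  exact ENNReal.tsum_le_tsum fun q => by rw [Pi.add_apply]; exact enorm_add_le _ _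

theorem sN_res_fin {f : Md → E} (S : Set Md) (hf : sN 0 f ≠ ∞) : sN 0 (res S f) ≠ ∞ :=
  ne_top_of_le_ne_top hf (sN_res_le 0 S f)

theorem sN_smul_fin {f : Md → E} (z : ℂ) (hf : sN 0 f ≠ ∞) : sN 0 (z • f) ≠ ∞ := by
  have : sN 0 (z • f) = ‖z‖ₑ * sN 0 f := by
    rw [sN0, sN0, ← ENNReal.tsum_mul_left]
    congr 1
    funext q
    rw [Pi.smul_apply, enorm_smul]
  rw [this]
  exact ENNReal.mul_ne_top enorm_ne_top hf

theorem sN_act_fin (H : WH) {A : Md → Md → (E →L[ℂ] F)} {f : Md → E} (hA : sK 0 A ≠ ∞)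
    (hf : sN 0 f ≠ ∞) : sN 0 (act A f) ≠ ∞ :=
  ne_top_of_le_ne_top (ENNReal.mul_ne_top hA hf)
    ((H.w10 Md E F F 0 le_rfl).2.1 A f)

theorem act_sub (H : WH) [CompleteSpace F] {A : Md → Md → (E →L[ℂ] F)} {f g : Md → E}
    (hA : sK 0 A ≠ ∞) (hf : sN 0 f ≠ ∞) (hg : sN 0 g ≠ ∞) :
    act A (f - g) = act A f - act A g := by
  have h := ((H.w11 Md E F F F).2.2.2.1 A A (f - g) g hA hA (sN_sub_fin hf hg) hg).2
  rw [sub_add_cancel] at h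
  rw [h]
  abel

theorem act_add (H : WH) [CompleteSpace F] {A : Md → Md → (E →L[ℂ] F)} {f g : Md → E}
    (hA : sK 0 A ≠ ∞) (hf : sN 0 f ≠ ∞) (hg : sN 0 g ≠ ∞) :
    act A (f + g) = act A f + act A g :=
  ((H.w11 Md E F F F).2.2.2.1 A A f g hA hA hf hg).2

theorem act_zero (A : Md → Md → (E →L[ℂ] F)) : act A (0 : Md → E) = 0 := by
  funext q
  simp [act]

theorem summable_conv [CompleteSpace G] (β : E →L[ℂ] F →L[ℂ] G) {f : Md → E} {g : Md → F}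
    (hf : sN 0 f ≠ ∞) (hg : sN 0 g ≠ ∞) (m : Md) : Summable fun l => β (f (m - l)) (g l) := by
  rw [sN0] at hf hg
  have hg' : Summable fun l => ‖g l‖ := by
    have := ENNReal.summable_toReal hg
    simpa using this
  refine Summable.of_norm_bounded (g := fun l => ‖β‖ * (∑' q, ‖f q‖ₑ).toReal * ‖g l‖)
    (hg'.mul_left _) fun l => ?_
  refine (β.le_opNorm₂ _ _).trans ?_
  gcongr
  rw [← toReal_enorm]
  exact ENNReal.toReal_mono hf (ENNReal.le_tsum _)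

theorem conv_sub_left [CompleteSpace G] (β : E →L[ℂ] F →L[ℂ] G) {f f' : Md → E} {g : Md → F}
    (hf : sN 0 f ≠ ∞) (hf' : sN 0 f' ≠ ∞) (hg : sN 0 g ≠ ∞) :
    conv β (f - f') g = conv β f g - conv β f' g := by
  funext m
  simp only [conv, Pi.sub_apply, map_sub, _root_.sub_apply]
  exact (summable_conv β hf hg m).tsum_sub (summable_conv β hf' hg m)

theorem conv_sub_right [CompleteSpace G] (β : E →L[ℂ] F →L[ℂ] G) {f : Md → E} {g g' : Md → F}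
    (hf : sN 0 f ≠ ∞) (hg : sN 0 g ≠ ∞) (hg' : sN 0 g' ≠ ∞) :
    conv β f (g - g') = conv β f g - conv β f g' := by
  funext m
  simp only [conv, Pi.sub_apply, map_sub]
  exact (summable_conv β hf hg m).tsum_sub (summable_conv β hf hg' m)

theorem sN_conv_fin (H : WH) (β : E →L[ℂ] F →L[ℂ] G) {f : Md → E} {g : Md → F}
    (hf : sN 0 f ≠ ∞) (hg : sN 0 g ≠ ∞) : sN 0 (conv β f g) ≠ ∞ :=
  ne_top_of_le_ne_top (ENNReal.mul_ne_top (ENNReal.mul_ne_top enorm_ne_top hf) hg)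
    ((H.w10 Md E F G 0 le_rfl).2.2.1 β f g)

/-! ### kernels -/

theorem KN_sub_le (H : WH) {T c : ℝ} (hc : 0 ≤ c) (A B : ℝ → Md → Md → (E →L[ℂ] F)) :
    KN T c (fun t => A t - B t) ≤ KN T c A + KN T c B := by
  have h1 := (H.w09 Md E F F T c hc).2.1 A ((-1 : ℂ) • B)
  have h2 := (H.w09 Md E F F T c hc).2.2.1 (-1) B
  have h3 : (fun t => A t - B t) = A + (-1 : ℂ) • B := by
    funext t p q
    simp [sub_eq_add_neg]
  rw [h3]
  refine h1.trans ?_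
  rw [h2]
  simp

theorem KN_id_le (H : WH) {T c : ℝ} (hc : 0 ≤ c) :
    KN T c (fun _ => (idK : Md → Md → Mat)) ≤ 1 := by
  refine (H.w09 Md C3 C3 C3 T c hc).2.2.2.2.1 (fun _ _ => ContinuousLinearMap.id ℂ C3) 1
    fun t _ m => ?_
  rw [← ofReal_norm, ← ENNReal.ofReal_one]
  exact ENNReal.ofReal_le_ofReal ContinuousLinearMap.norm_id_le

theorem KN_idsub_fin (H : WH) {T c : ℝ} (hc : 0 ≤ c) (z : ℂ) {A : ℝ → Md → Md → Mat}
    (hA : KN T c A ≠ ∞) : KN T c (fun t => idK - z • A t) ≠ ∞ := by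
  refine ne_top_of_le_ne_top ?_ (KN_sub_le H hc (fun _ => idK) (z • A))
  refine ENNReal.add_ne_top.2 ⟨ne_top_of_le_ne_top ENNReal.one_ne_top (KN_id_le H hc), ?_⟩
  rw [(H.w09 Md C3 C3 C3 T c hc).2.2.1 z A]
  exact ENNReal.mul_ne_top enorm_ne_top hA

theorem KN_mulK (H : WH) {T c : ℝ} (hc : 0 ≤ c) (a : ℝ → Md → (E →L[ℂ] F)) :
    KN T c (fun t => mulK (a t)) = Nrm T c 0 Dat.one' a :=
  (H.w09 Md E F F T c hc).2.2.2.1 a

theorem KN_kcomp_fin (H : WH) {T c : ℝ} (hc : 0 ≤ c) {A : ℝ → Md → Md → (F →L[ℂ] G)}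
    {B : ℝ → Md → Md → (E →L[ℂ] F)} (hA : KN T c A ≠ ∞) (hB : KN T c B ≠ ∞) :
    KN T c (fun t => kcomp (A t) (B t)) ≠ ∞ :=
  ne_top_of_le_ne_top (ENNReal.mul_ne_top hA hB) ((H.w09 Md E F G T c hc).1 A B)

theorem KN_neg_fin (H : WH) {T c : ℝ} (hc : 0 ≤ c) {A : ℝ → Md → Md → (E →L[ℂ] F)}
    (hA : KN T c A ≠ ∞) : KN T c (fun t => -A t) ≠ ∞ := by
  have h3 : (fun t => -A t) = (-1 : ℂ) • A := by
    funext t p q
    simp
  rw [h3, (H.w09 Md E F F T c hc).2.2.1 (-1) A]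
  exact ENNReal.mul_ne_top enorm_ne_top hA

theorem KN_radius (H : WH) {T c c' : ℝ} (hc : 0 ≤ c) (h : c' ≤ c)
    (A : ℝ → Md → Md → (E →L[ℂ] F)) : KN T c' A ≤ KN T c A :=
  (H.w09 Md E F F T c hc).2.2.2.2.2.1 c' h A

theorem sK_fin (H : WH) {T c : ℝ} (hc : 0 ≤ c) {A : ℝ → Md → Md → (E →L[ℂ] F)}
    (hA : KN T c A ≠ ∞) {t : ℝ} (ht : t ∈ Icc 0 T) : sK 0 (A t) ≠ ∞ :=
  ne_top_of_le_ne_top hA
    ((((H.w10 Md E F F c hc).2.2.2.2.2.2.1 0 hc).1 (A t)).trans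
      ((H.w09 Md E F F T c hc).2.2.2.2.2.2 A t ht))

theorem fin_act (H : WH) {T c γ : ℝ} {ρ : ℝ → ℝ} (hP : Par T c γ) (hρ : Wt T ρ)
    {A : ℝ → Md → Md → (E →L[ℂ] F)} {f : ℝ → Md → E} (hA : KN T c A ≠ ∞)
    (hf : Nrm T c γ ρ f ≠ ∞) : Nrm T c γ ρ (fun t => act (A t) (f t)) ≠ ∞ :=
  ne_top_of_le_ne_top (ENNReal.mul_ne_top hA hf) (H.w01 Md E F T c γ ρ A f hP hρ)

theorem fin_res {T c γ : ℝ} {ρ : ℝ → ℝ} (S : Set Md) {f : ℝ → Md → E}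
    (hf : Nrm T c γ ρ f ≠ ∞) : Nrm T c γ ρ (fun t => res S (f t)) ≠ ∞ :=
  ne_top_of_le_ne_top hf (Nrm_mono fun t _ q => enorm_res_le S (f t) q)

theorem fin_sub {T c γ : ℝ} {ρ : ℝ → ℝ} {f g : ℝ → Md → E}
    (hf : Nrm T c γ ρ f ≠ ∞) (hg : Nrm T c γ ρ g ≠ ∞) : Nrm T c γ ρ (fun t => f t - g t) ≠ ∞ :=
  ne_top_of_le_ne_top (ENNReal.add_ne_top.2 ⟨hf, hg⟩) Nrm_sub_le

theorem fin_add {T c γ : ℝ} {ρ : ℝ → ℝ} {f g : ℝ → Md → E}
    (hf : Nrm T c γ ρ f ≠ ∞) (hg : Nrm T c γ ρ g ≠ ∞) : Nrm T c γ ρ (fun t => f t + g t) ≠ ∞ :=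
  ne_top_of_le_ne_top (ENNReal.add_ne_top.2 ⟨hf, hg⟩) Nrm_add_le

theorem fin_smul {T c γ : ℝ} {ρ : ℝ → ℝ} (z : ℂ) {f : ℝ → Md → E}
    (hf : Nrm T c γ ρ f ≠ ∞) : Nrm T c γ ρ (fun t => z • f t) ≠ ∞ := by
  have : Nrm T c γ ρ (fun t => z • f t) = ‖z‖ₑ * Nrm T c γ ρ f := by
    unfold Nrm
    rw [← ENNReal.tsum_mul_left]
    congr 1
    funext q
    simp only [ENNReal.mul_iSup]
    refine iSup_congr fun t => iSup_congr fun ht => ?_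
    rw [Pi.smul_apply, enorm_smul]
    ring
  rw [this]
  exact ENNReal.mul_ne_top enorm_ne_top hf

theorem fin_neg {T c γ : ℝ} {ρ : ℝ → ℝ} {f : ℝ → Md → E}
    (hf : Nrm T c γ ρ f ≠ ∞) : Nrm T c γ ρ (fun t => -f t) ≠ ∞ := by
  refine ne_top_of_le_ne_top hf (Nrm_mono fun t _ q => ?_)
  rw [Pi.neg_apply, enorm_neg]

theorem fin_sum {T c γ : ℝ} {ρ : ℝ → ℝ} {ι : Type} (S : Finset ι) {g : ι → ℝ → Md → E}
    (hg : ∀ o ∈ S, Nrm T c γ ρ (g o) ≠ ∞) : Nrm T c γ ρ (fun t => ∑ o ∈ S, g o t) ≠ ∞ := by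
  refine ne_top_of_le_ne_top (ENNReal.sum_ne_top.2 hg) (Nrm_le_sum S fun t _ q => ?_)
  rw [Finset.sum_apply]
  exact enorm_sum_le _ _

theorem fin_conv (H : WH) {T c γ : ℝ} (hP : Par T c γ) (β : E →L[ℂ] F →L[ℂ] G)
    {f : ℝ → Md → E} {g : ℝ → Md → F} (hf : Nrm T c γ Dat.one' f ≠ ∞)
    (hg : Nrm T c γ Dat.one' g ≠ ∞) :
    Nrm T c γ Dat.one' (fun t => conv β (f t) (g t)) ≠ ∞ := by
  have h := H.w02 Md E F G T c γ Dat.one' Dat.one' β f g hP wt_one wt_one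
  have h1 : (fun t => Dat.one' t * Dat.one' t) = Dat.one' := by
    funext t
    simp [Dat.one']
  rw [h1] at h
  exact ne_top_of_le_ne_top (ENNReal.mul_ne_top (ENNReal.mul_ne_top enorm_ne_top hf) hg) h

end lin

end FPt

end Pool.Agent.Work.MP_b0497c_an.Unf.S
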