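import Pool.Agent.Work.MP_b0497c_an.Unf.S24B

set_option autoImplicit false
set_option linter.unusedVariables false
set_option linter.unusedSectionVars false

/-!
# S24, part C: the data of the step, linear problem
-/

open scoped ENNReal
open Set MeasureTheory

namespace Pool.Agent.Work.MP_b0497c_an.Unf.S

open W

namespace FPt

variable {D : Dat}

theorem gT (hD : D.Hyp) : D.γ * D.T = D.c / 2 := by
  rw [hD.γ_eq]
  have := hD.T_pos
  field_simp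

theorem g_nonneg (hD : D.Hyp) : 0 ≤ D.γ := by
  rw [hD.γ_eq]
  have := hD.T_pos
  have := hD.c_pos
  positivity

theorem par (hD : D.Hyp) : Par D.T D.c D.γ where
  T_pos := hD.T_pos
  γ_nonneg := g_nonneg hD
  le := by
    rw [gT hD]
    linarith [hD.c_pos]

/-- The smaller radius. -/
noncomputable def cc (D : Dat) : ℝ := 3 / 4 * D.c

theorem cc_lt (hD : D.Hyp) : cc D < D.c := by
  unfold cc
  linarith [hD.c_pos]

theorem lt_cc (hD : D.Hyp) : D.γ * D.T < cc D := by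
  rw [gT hD]
  unfold cc
  linarith [hD.c_pos]

theorem cc_nonneg (hD : D.Hyp) : 0 ≤ cc D := by
  unfold cc
  linarith [hD.c_pos]

theorem par' (hD : D.Hyp) : Par D.T (cc D) D.γ where
  T_pos := hD.T_pos
  γ_nonneg := g_nonneg hD
  le := (lt_cc hD).le

theorem par0 (hD : D.Hyp) : Par D.T D.c 0 where
  T_pos := hD.T_pos
  γ_nonneg := le_rfl
  le := by
    rw [zero_mul]
    exact hD.c_pos.le

theorem G_pos (hD : D.Hyp) : 0 < D.G := by linarith [hD.G_two]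

/-! ### kernels -/

theorem kn_M (H : WH) (hD : D.Hyp) {l : ℕ} (h1 : D.m ≤ l) (h2 : l ≤ D.n) :
    KN D.T D.c (fun t => mulK (D.M l t)) ≠ ∞ := by
  rw [KN_mulK H hD.c_pos.le]
  exact ne_top_of_le_ne_top ENNReal.ofReal_ne_top (hD.F_le l h1 h2).2.2

theorem kn_Fi (H : WH) (hD : D.Hyp) {l : ℕ} (h1 : D.m ≤ l) (h2 : l ≤ D.n) :
    KN D.T D.c (fun t => mulK (D.Fi l t)) ≠ ∞ := by
  rw [KN_mulK H hD.c_pos.le]
  exact ne_top_of_le_ne_top ENNReal.ofReal_ne_top (hD.F_le l h1 h2).2.1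

theorem kn_P (H : WH) (hD : D.Hyp) {l : ℕ} (h1 : D.m ≤ l) (h2 : l ≤ D.n) (z : ℂ) :
    KN D.T D.c (fun t => idK - z • D.Pl l t) ≠ ∞ :=
  KN_idsub_fin H hD.c_pos.le z (ne_top_of_le_ne_top ENNReal.ofReal_ne_top (hD.P_le l h1 h2).1)

theorem kn_P1 (H : WH) (hD : D.Hyp) {l : ℕ} (h1 : D.m ≤ l) (h2 : l ≤ D.n) :
    KN D.T D.c (fun t => idK - D.Pl l t) ≠ ∞ := by
  have h := kn_P H hD h1 h2 1
  simpa using h

theorem kn_gen (H : WH) (hD : D.Hyp) {l : ℕ} (h1 : D.m ≤ l) (h2 : l ≤ D.n) :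
    KN D.T D.c (D.gen l) ≠ ∞ :=
  KN_neg_fin H hD.c_pos.le (KN_kcomp_fin H hD.c_pos.le (kn_P H hD h1 h2 2) (kn_M H hD h1 h2))

theorem ck_mulK {E F : Type} [NormedAddCommGroup E] [NormedSpace ℂ E] [NormedAddCommGroup F]
    [NormedSpace ℂ F] {T : ℝ} {a : ℝ → Md → (E →L[ℂ] F)} (h : CM T a) :
    CK T (fun t => mulK (a t)) := fun p q => h (p - q)

theorem ck_P (hD : D.Hyp) {l : ℕ} (h1 : D.m ≤ l) (h2 : l ≤ D.n) (z : ℂ) :
    CK D.T (fun t => idK - z • D.Pl l t) := by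
  intro p q
  have h := (hD.P_le l h1 h2).2 p q
  have h3 : ContinuousOn (fun t => z • D.Pl l t p q) (Icc 0 D.T) := h.const_smul z
  exact continuousOn_const.sub h3

theorem ck_gen (H : WH) (hD : D.Hyp) {l : ℕ} (h1 : D.m ≤ l) (h2 : l ≤ D.n) :
    CK D.T (D.gen l) := by
  have h := (H.w12 Md C3 C3 C3 D.T D.c D.γ Dat.one' Dat.one' (par hD) wt_one wt_one).2.1
    (fun t => idK - (2 : ℂ) • D.Pl l t) (fun t => mulK (D.M l t)) (ck_P hD h1 h2 2)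
    (ck_mulK (hD.F_cm l h1 h2).2.2) (kn_P H hD h1 h2 2) (kn_M H hD h1 h2)
  intro p q
  exact (h p q).neg

theorem bl_P (H : WH) (hD : D.Hyp) {l : ℕ} (h1 : D.m ≤ l) (h2 : l ≤ D.n) {t : ℝ}
    (ht : t ∈ Icc 0 D.T) : Bl (lev l) (D.Pl l t) := by
  obtain ⟨c, b, e, h⟩ := hD.fd l h1 h2 t ht
  intro p q hpq
  exact ((H.w16 Md (lev l) c b e (D.F l t) (D.Fi l t) (xi D.K) h).2.2.1 p q hpq).2

theorem bl_gen (H : WH) (hD : D.Hyp) {l : ℕ} (h1 : D.m ≤ l) (h2 : l ≤ D.n) {t : ℝ}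
    (ht : t ∈ Icc 0 D.T) : Bl (lev l) (D.gen l t) :=
  (((bl_idK _).sub' ((bl_P H hD h1 h2 ht).smul' 2)).kcomp'
    (bl_mulK ((hD.F_supp l h1 h2).2.2 t ht))).neg'

/-! ### the Kelvin data -/

theorem kn_rw (H : WH) (h15 : S15) (hD : D.Hyp) {j : ℕ} (h1 : D.m < j) (h2 : j ≤ D.n + 1) :
    KN D.T D.c (fun t => mulK (D.rw j t)) ≠ ∞ := by
  rw [KN_mulK H hD.c_pos.le]
  exact ne_top_of_le_ne_top ENNReal.ofReal_ne_top (h15 D hD j h1 h2).2.1

theorem cm_rw (h15 : S15) (hD : D.Hyp) {j : ℕ} (h1 : D.m < j) (h2 : j ≤ D.n + 1) :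
    CM D.T (D.rw j) := (h15 D hD j h1 h2).2.2.2.2.2.1

theorem bl_rw (h15 : S15) (hD : D.Hyp) {j : ℕ} (h1 : D.m < j) (h2 : j ≤ D.n + 1) {t : ℝ}
    (ht : t ∈ Icc 0 D.T) : Bl (lev (j - 1)) (mulK (D.rw j t)) :=
  bl_mulK ((h15 D hD j h1 h2).2.2.2.2.2.2.2.2.2.1 t ht)

theorem bl_gK (h15 : S15) (hD : D.Hyp) {j : ℕ} (h1 : D.m < j) (h2 : j ≤ D.n + 1) {t : ℝ}
    (ht : t ∈ Icc 0 D.T) : Bl (lev (j - 1)) (mulK (D.gK j t)) :=
  bl_mulK ((h15 D hD j h1 h2).2.2.2.2.2.2.2.2.2.2.1 t ht)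

theorem kn_gK (H : WH) (h15 : S15) (hD : D.Hyp) {j : ℕ} (h1 : D.m < j) (h2 : j ≤ D.n + 1) :
    KN D.T D.c (fun t => mulK (D.gK j t)) ≠ ∞ := by
  have hc := hD.c_pos.le
  rw [KN_mulK H hc]
  have h3 := (h15 D hD j h1 h2).2.2.2.1
  rw [KN_mulK H hc] at h3
  have h4 : Nrm D.T D.c 0 Dat.one' (D.M (j - 1)) ≠ ∞ :=
    ne_top_of_le_ne_top ENNReal.ofReal_ne_top
      (hD.F_le (j - 1) (by omega) (by omega)).2.2
  have h5 : Nrm D.T D.c 0 Dat.one' (fun t => oneM - (2 : ℂ) • D.p j t) ≠ ∞ :=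
    ne_top_of_le_ne_top ENNReal.ofReal_ne_top h3
  exact fin_neg (fin_conv H (par0 hD) _ h5 h4)

theorem kn_tsa (H : WH) (hD : D.Hyp) {j : ℕ} (h1 : D.m < j) (h2 : j ≤ D.n) :
    KN D.T D.c (fun t => mulK (tsF (D.a j t))) ≠ ∞ := by
  rw [KN_mulK H hD.c_pos.le]
  have h3 : Nrm D.T D.c 0 (D.α j) (D.a j) ≠ ∞ :=
    ne_top_of_le_ne_top ENNReal.ofReal_ne_top (hD.z_le j h1 h2).2
  have h4 : Nrm D.T D.c 0 Dat.one' (D.a j) ≠ ∞ :=
    Nrm_fin hD.T_pos.le (hD.α_wt j h1 (by omega)) wt_one h3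
  refine ne_top_of_le_ne_top h4 (Nrm_mono fun t _ q => ?_)
  rw [← ofReal_norm, ← ofReal_norm]
  refine ENNReal.ofReal_le_ofReal ?_
  unfold tsF ts
  exact (ContinuousLinearMap.norm_toSpanSingleton _).le

/-! ### the unknowns -/

theorem fin_w {ρ : ℕ → ℝ → ℝ} {Str : ℝ → ℝ} (hD : D.Hyp) (hW : Wts D ρ Str)
    {w : ℝ → Md → C3} {κ : ℝ → Md → ℂ} (A : Adm D ρ w κ) :
    Nrm D.T D.c D.γ Dat.one' w ≠ ∞ := by
  have hT := hD.T_pos.le
  refine ne_top_of_le_ne_top ?_ (Nrm_le_sum (Finset.Icc D.m (D.n + 1))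
    (g := fun o t => res (Cs D.m o) (w t))
    fun t ht q => enorm_le_sum hD.hmn (A.w_supp t ht) q)
  refine ENNReal.sum_ne_top.2 fun o ho => ?_
  rw [Finset.mem_Icc] at ho
  refine Nrm_fin hT (hW.wt o ho.1 ho.2) wt_one ?_
  have h := A.fin
  unfold XN at h
  exact ENNReal.sum_ne_top.1 (ENNReal.add_ne_top.1 h).1 o (Finset.mem_Icc.2 ho)

theorem wtk {ρ : ℕ → ℝ → ℝ} {Str : ℝ → ℝ} (hD : D.Hyp) (hW : Wts D ρ Str) {o : ℕ}
    (h1 : D.m ≤ o) (h2 : o ≤ D.n + 1) : Wt D.T (fun t => D.u o ^ 128 * ρ o t) :=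
  wt_scale (pow_pos (hD.u_pos o) 128) (hW.wt o h1 h2)

theorem fin_κ {ρ : ℕ → ℝ → ℝ} {Str : ℝ → ℝ} (hD : D.Hyp) (hW : Wts D ρ Str)
    {w : ℝ → Md → C3} {κ : ℝ → Md → ℂ} (A : Adm D ρ w κ) :
    Nrm D.T D.c D.γ Dat.one' κ ≠ ∞ := by
  have hT := hD.T_pos.le
  refine ne_top_of_le_ne_top ?_ (Nrm_le_sum (Finset.Ioc D.m (D.n + 1))
    (g := fun o t => res (Cl o) (κ t)) fun t ht q => ?_)
  · refine ENNReal.sum_ne_top.2 fun o ho => ?_
    have ho' := Finset.mem_Ioc.1 ho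
    refine Nrm_fin hT (wtk hD hW ho'.1.le ho'.2) wt_one ?_
    have h := A.fin
    unfold XN at h
    exact ENNReal.sum_ne_top.1 (ENNReal.add_ne_top.1 h).2 o ho
  · by_cases hq : q ∈ {q | ∃ o, D.m < o ∧ o ≤ D.n + 1 ∧ q ∈ Cl o}
    · obtain ⟨o, h1, h2, h3⟩ := hq
      have h4 : res (Cl o) (κ t) q = κ t q := res_of_mem h3
      rw [← h4]
      exact Finset.single_le_sum (f := fun o => ‖res (Cl o) (κ t) q‖ₑ) (fun _ _ => bot_le)
        (Finset.mem_Ioc.2 ⟨h1, h2⟩)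
    · rw [A.κ_supp t ht q hq]
      simp

/-! ### finiteness of the sources -/

/-- Finite norm at radius `c` (weight 1). -/
def Fn (D : Dat) {E : Type} [NormedAddCommGroup E] (f : ℝ → Md → E) : Prop :=
  Nrm D.T D.c D.γ Dat.one' f ≠ ∞

/-- Finite norm at the smaller radius (weight 1). -/
def Fn' (D : Dat) {E : Type} [NormedAddCommGroup E] (f : ℝ → Md → E) : Prop :=
  Nrm D.T (cc D) D.γ Dat.one' f ≠ ∞

section

variable {E F : Type} [NormedAddCommGroup E] [NormedSpace ℂ E] [NormedAddCommGroup F]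
  [NormedSpace ℂ F]

theorem Fn.fn' (hD : D.Hyp) {f : ℝ → Md → E} (h : Fn D f) : Fn' D f :=
  ne_top_of_le_ne_top h (Nrm_radius (cc_lt hD).le wt_one f)

theorem Fn.act (H : WH) (hD : D.Hyp) {A : ℝ → Md → Md → (E →L[ℂ] F)} (hA : KN D.T D.c A ≠ ∞)
    {f : ℝ → Md → E} (h : Fn D f) : Fn D (fun t => act (A t) (f t)) :=
  fin_act H (par hD) wt_one hA h

theorem Fn'.act (H : WH) (hD : D.Hyp) {A : ℝ → Md → Md → (E →L[ℂ] F)} (hA : KN D.T D.c A ≠ ∞)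
    {f : ℝ → Md → E} (h : Fn' D f) : Fn' D (fun t => W.act (A t) (f t)) :=
  fin_act H (par' hD) wt_one
    (ne_top_of_le_ne_top hA (KN_radius H hD.c_pos.le (cc_lt hD).le A)) h

theorem Fn.sN (hD : D.Hyp) {f : ℝ → Md → E} (h : Fn D f) {t : ℝ} (ht : t ∈ Icc 0 D.T) :
    sN 0 (f t) ≠ ∞ := sN_fin (par hD).le (g_nonneg hD) wt_one h ht

theorem Fn'.sN (hD : D.Hyp) {f : ℝ → Md → E} (h : Fn' D f) {t : ℝ} (ht : t ∈ Icc 0 D.T) :
    W.sN 0 (f t) ≠ ∞ := sN_fin (par' hD).le (g_nonneg hD) wt_one h ht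

theorem Fn'.cm_act (H : WH) (hD : D.Hyp) [CompleteSpace F] {A : ℝ → Md → Md → (E →L[ℂ] F)}
    (hA : KN D.T D.c A ≠ ∞) (hA' : CK D.T A) {f : ℝ → Md → E} (h : Fn' D f) (hf : CM D.T f) :
    CM D.T (fun t => W.act (A t) (f t)) :=
  (H.w12 Md E F F D.T (cc D) D.γ Dat.one' Dat.one' (par' hD) wt_one wt_one).1 A f hA' hf
    (ne_top_of_le_ne_top hA (KN_radius H hD.c_pos.le (cc_lt hD).le A)) h

end

theorem cm_res {E : Type} [NormedAddCommGroup E] {T : ℝ} (S : Set Md) {f : ℝ → Md → E}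
    (h : CM T f) : CM T (fun t => res S (f t)) := by
  intro q
  by_cases hq : q ∈ S
  · simp only [res_of_mem hq]
    exact h q
  · simp only [res_of_not_mem hq]
    exact continuousOn_const

theorem Fn_Lin (H : WH) (h15 : S15) (hD : D.Hyp) {w : ℝ → Md → C3} {κ : ℝ → Md → ℂ}
    (hw : Fn D w) (hκ : Fn D κ) : Fn D (Lin D w κ) := by
  unfold Lin
  refine fin_add (hw.act H hD (kn_gen H hD hD.hmn le_rfl)) (fin_sum _ fun i hi => ?_)
  rw [Finset.mem_Ioc] at hi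
  refine Fn.act H hD (kn_P H hD hi.1.le hi.2 2) ?_
  refine Fn.act H hD (kn_tsa H hD hi.1 hi.2) ?_
  refine fin_sub ?_ ?_
  · exact Fn.act H hD (kn_rw H h15 hD hi.1 (by omega)) (fin_res _ hw)
  · exact fin_smul _ (fin_res _ hκ)

theorem Fn_model (H : WH) (h15 : S15) (hD : D.Hyp) {o : ℕ} (h1 : D.m ≤ o) (h2 : o ≤ D.n + 1)
    {w : ℝ → Md → C3} (hw : Fn D w) : Fn D (fun t => model D o t (w t)) := by
  unfold model
  split_ifs with h
  · exact hw.act H hD (kn_gen H hD le_rfl hD.hmn)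
  · exact hw.act H hD (kn_gK H h15 hD (by omega) h2)

theorem Fn_QL (H : WH) (h15 : S15) (hD : D.Hyp) {o : ℕ} (h1 : D.m ≤ o) (h2 : o ≤ D.n + 1)
    {w : ℝ → Md → C3} {κ : ℝ → Md → ℂ} (hw : Fn D w) (hκ : Fn D κ) : Fn D (QL D o w κ) :=
  fin_sub (fin_res _ (Fn_Lin H h15 hD hw hκ)) (Fn_model H h15 hD h1 h2 (fin_res _ hw))

theorem Fn_HH (H : WH) (h15 : S15) (hD : D.Hyp) {w : ℝ → Md → C3} {κ : ℝ → Md → ℂ}
    (hw : Fn D w) (hκ : Fn D κ) : Fn D (HH D w κ) := by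
  have := hD.hmn
  exact fin_add (fin_smul _ (fin_res _ hκ))
    (Fn.act H hD (kn_rw H h15 hD (by omega) le_rfl) (fin_res _ hw))

/-- The argument of `1 - Π` in `Bil`. -/
noncomputable def JJ (D : Dat) (w : ℝ → Md → C3) (κ : ℝ → Md → ℂ) (w' : ℝ → Md → C3) (t : ℝ)
    (q : Md) : C3 :=
  Complex.I • (conv outerB (w' t) (mul (D.Fi D.n t) (w t)) q) (xi' D.K (D.n + 1) q) +
    (Complex.I * (q (D.n + 1) : ℂ)) • conv smB (HH D w κ t) (w' t) q

theorem Bil_eq (w : ℝ → Md → C3) (κ : ℝ → Md → ℂ) (w' : ℝ → Md → C3) (t : ℝ) :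
    Bil D w κ w' t = -act (idK - D.Pl D.n t) (JJ D w κ w' t) := rfl

/-- `|xi K q| ≤ B |q|` for modes of level `n`. -/
theorem xi_le (K : ℕ → Fin 3 → ℤ) {n : ℕ} {q : Md} (hq : q ∈ lev n) :
    ‖xi K q‖ ≤ (∑ i ∈ Finset.range (n + 1), ‖kv (K i)‖) * len q := by
  have hlen : len q = ∑ i ∈ q.support, |((q i : ℤ) : ℝ)| := rfl
  unfold xi
  rw [hlen, Finsupp.sum, Finset.mul_sum]
  refine (norm_sum_le _ _).trans (Finset.sum_le_sum fun i hi => ?_)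
  rw [norm_smul, mul_comm]
  have h1 : i ∈ Finset.range (n + 1) := by
    rw [Finset.mem_range]
    by_contra h
    exact (Finsupp.mem_support_iff.1 hi) (hq i (by omega))
  have h2 : ‖((q i : ℤ) : ℂ)‖ = |((q i : ℤ) : ℝ)| := by
    rw [Complex.norm_intCast]
  rw [h2]
  gcongr
  exact Finset.single_le_sum (f := fun i => ‖kv (K i)‖) (fun _ _ => norm_nonneg _) h1

theorem coord_le (q : Md) (j : ℕ) : ‖((q j : ℤ) : ℂ)‖ ≤ len q := by
  have hlen : len q = ∑ i ∈ q.support, |((q i : ℤ) : ℝ)| := rfl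
  rw [hlen, Complex.norm_intCast]
  by_cases h : j ∈ q.support
  · exact Finset.single_le_sum (f := fun i => |((q i : ℤ) : ℝ)|) (fun _ _ => abs_nonneg _) h
  · rw [Finsupp.notMem_support_iff.1 h]
    simp only [Int.cast_zero, abs_zero]
    exact Finset.sum_nonneg fun _ _ => abs_nonneg _

theorem xi'_le (K : ℕ → Fin 3 → ℤ) {n : ℕ} {q : Md} (hq : q ∈ lev n) (j : ℕ) :
    ‖xi' K j q‖ ≤ ((∑ i ∈ Finset.range (n + 1), ‖kv (K i)‖) + ‖kv (K j)‖) * len q := by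
  unfold xi'
  refine (norm_sub_le _ _).trans ?_
  rw [norm_smul, add_mul, mul_comm ‖((q j : ℤ) : ℂ)‖]
  exact add_le_add (xi_le K hq) (mul_le_mul_of_nonneg_left (coord_le q j) (norm_nonneg _))

theorem conv_supp {E F G : Type} [NormedAddCommGroup E] [NormedSpace ℂ E]
    [NormedAddCommGroup F] [NormedSpace ℂ F] [NormedAddCommGroup G] [NormedSpace ℂ G]
    (β : E →L[ℂ] F →L[ℂ] G) {n : ℕ} {f : Md → E} {g : Md → F}
    (hf : SuppIn (lev n : Set Md) f) (hg : SuppIn (lev n : Set Md) g) :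
    SuppIn (lev n : Set Md) (conv β f g) := by
  intro q hq
  unfold conv
  refine Eq.trans (tsum_congr fun l => ?_) tsum_zero
  by_cases h1 : l ∈ lev n
  · have h2 : q - l ∉ lev n := fun h => hq (by simpa using (lev n).add_mem h h1)
    rw [hf _ h2]
    simp
  · rw [hg _ h1]
    simp

/-- Supports of level `n+1`. -/
def Sp (D : Dat) {E : Type} [Zero E] (f : ℝ → Md → E) : Prop :=
  SuppT D.T (lev (D.n + 1) : Set Md) f

theorem act_supp {E F : Type} [NormedAddCommGroup E] [NormedSpace ℂ E] [NormedAddCommGroup F]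
    [NormedSpace ℂ F] {l n : ℕ} (h : l ≤ n) {A : Md → Md → (E →L[ℂ] F)} (hA : Bl (lev l) A)
    {f : Md → E} (hf : SuppIn (lev n : Set Md) f) : SuppIn (lev n : Set Md) (act A f) := by
  have h1 := res_act (stab_lev h) hA f
  rw [res_eq_self hf] at h1
  rw [← h1]
  exact suppIn_res _ _

theorem bl_Fi (hD : D.Hyp) {l : ℕ} (h1 : D.m ≤ l) (h2 : l ≤ D.n) {t : ℝ}
    (ht : t ∈ Icc 0 D.T) : Bl (lev l) (mulK (D.Fi l t)) :=
  bl_mulK ((hD.F_supp l h1 h2).2.1 t ht)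

theorem Fn'_JJ (H : WH) (h15 : S15) (hD : D.Hyp) {w v : ℝ → Md → C3} {κ : ℝ → Md → ℂ}
    (hw : Fn D w) (hκ : Fn D κ) (hv : Fn D v) (sw : Sp D w) (sv : Sp D v) :
    Fn' D (JJ D w κ v) := by
  have hc := cc_lt hD
  have hV : Fn D (fun t => mul (D.Fi D.n t) (w t)) :=
    Fn.act H hD (kn_Fi H hD hD.hmn le_rfl) hw
  have h1 : Fn D (fun t => conv outerB (v t) (mul (D.Fi D.n t) (w t))) :=
    fin_conv H (par hD) _ hv hV
  have h2 : Fn D (fun t => conv smB (HH D w κ t) (v t)) :=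
    fin_conv H (par hD) _ (Fn_HH H h15 hD hw hκ) hv
  have h3 : Fn' D (fun t q => Complex.I • (conv outerB (v t) (mul (D.Fi D.n t) (w t)) q)
      (xi' D.K (D.n + 1) q)) := by
    refine ne_top_of_le_ne_top (ENNReal.mul_ne_top ENNReal.ofReal_ne_top h1)
      (Nrm_deriv (B := (∑ i ∈ Finset.range (D.n + 1 + 1), ‖kv (D.K i)‖) + ‖kv (D.K (D.n + 1))‖)
        hc (by positivity) wt_one (fun t ht q => ?_))
    by_cases hq : q ∈ lev (D.n + 1)
    · rw [norm_smul, Complex.norm_I, one_mul]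
      refine (ContinuousLinearMap.le_opNorm _ _).trans ?_
      rw [mul_comm]
      gcongr
      exact xi'_le D.K hq (D.n + 1)
    · have h4 : conv outerB (v t) (mul (D.Fi D.n t) (w t)) q = 0 :=
        conv_supp outerB (sv t ht)
          (act_supp (by omega) (bl_Fi hD hD.hmn le_rfl ht) (sw t ht)) q hq
      rw [h4]
      simp
  have h4 : Fn' D (fun t q => (Complex.I * (q (D.n + 1) : ℂ)) •
      conv smB (HH D w κ t) (v t) q) := by
    refine ne_top_of_le_ne_top (ENNReal.mul_ne_top ENNReal.ofReal_ne_top h2)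
      (Nrm_deriv (B := 1) hc zero_le_one wt_one (fun t ht q => ?_))
    rw [norm_smul, norm_mul, Complex.norm_I, one_mul, one_mul]
    gcongr
    exact coord_le q _
  exact fin_add h3 h4

theorem Fn'_Bil (H : WH) (h15 : S15) (hD : D.Hyp) {w v : ℝ → Md → C3} {κ : ℝ → Md → ℂ}
    (hw : Fn D w) (hκ : Fn D κ) (hv : Fn D v) (sw : Sp D w) (sv : Sp D v) :
    Fn' D (Bil D w κ v) :=
  fin_neg (Fn'.act H hD (kn_P1 H hD hD.hmn le_rfl) (Fn'_JJ H h15 hD hw hκ hv sw sv))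

/-! ### linearity -/

section lin2

variable {w w' v v' : ℝ → Md → C3} {κ κ' : ℝ → Md → ℂ} {t : ℝ}

theorem Lin_sub (H : WH) (h15 : S15) (hD : D.Hyp) (hw : Fn D w) (hw' : Fn D w')
    (hκ : Fn D κ) (hκ' : Fn D κ') (ht : t ∈ Icc 0 D.T) :
    Lin D (fun t => w t - w' t) (fun t => κ t - κ' t) t = Lin D w κ t - Lin D w' κ' t := by
  have hc := hD.c_pos.le
  have a1 := hw.sN hD ht
  have a2 := hw'.sN hD ht
  have a3 := hκ.sN hD ht
  have a4 := hκ'.sN hD ht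
  unfold Lin
  rw [act_sub H (sK_fin H hc (kn_gen H hD hD.hmn le_rfl) ht) a1 a2]
  have key : ∀ i ∈ Finset.Ioc D.m D.n, act (idK - (2 : ℂ) • D.Pl i t) (mul (tsF (D.a i t))
      (mul (D.rw i t) (res (Cl i) (w t - w' t)) - (D.N i : ℂ) • res (Cl i) (κ t - κ' t))) =
      act (idK - (2 : ℂ) • D.Pl i t) (mul (tsF (D.a i t))
      (mul (D.rw i t) (res (Cl i) (w t)) - (D.N i : ℂ) • res (Cl i) (κ t))) -
      act (idK - (2 : ℂ) • D.Pl i t) (mul (tsF (D.a i t))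
      (mul (D.rw i t) (res (Cl i) (w' t)) - (D.N i : ℂ) • res (Cl i) (κ' t))) := by
    intro i hi
    rw [Finset.mem_Ioc] at hi
    have b1 := sK_fin H hc (kn_rw H h15 hD hi.1 (by omega : i ≤ D.n + 1)) ht
    have b2 := sK_fin H hc (kn_tsa H hD hi.1 hi.2) ht
    have b3 := sK_fin H hc (kn_P H hD hi.1.le hi.2 2) ht
    have c1 := sN_act_fin H b1 (sN_res_fin (Cl i) a1)
    have c2 := sN_act_fin H b1 (sN_res_fin (Cl i) a2)
    have d1 := sN_smul_fin (D.N i : ℂ) (sN_res_fin (Cl i) a3)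
    have d2 := sN_smul_fin (D.N i : ℂ) (sN_res_fin (Cl i) a4)
    have e1 := sN_sub_fin c1 d1
    have e2 := sN_sub_fin c2 d2
    have f1 := sN_act_fin H b2 e1
    have f2 := sN_act_fin H b2 e2
    unfold mul
    rw [← act_sub H b3 f1 f2, ← act_sub H b2 e1 e2, res_sub, res_sub, smul_sub,
      act_sub H b1 (sN_res_fin (Cl i) a1) (sN_res_fin (Cl i) a2)]
    congr 2
    abel
  rw [Finset.sum_congr rfl key, Finset.sum_sub_distrib]
  abel

theorem model_sub (H : WH) (h15 : S15) (hD : D.Hyp) {o : ℕ} (h1 : D.m ≤ o) (h2 : o ≤ D.n + 1)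
    {f g : Md → C3} (hf : sN 0 f ≠ ∞) (hg : sN 0 g ≠ ∞) (ht : t ∈ Icc 0 D.T) :
    model D o t (f - g) = model D o t f - model D o t g := by
  have hc := hD.c_pos.le
  unfold model
  split_ifs with h
  · exact act_sub H (sK_fin H hc (kn_gen H hD le_rfl hD.hmn) ht) hf hg
  · exact act_sub H (sK_fin H hc (kn_gK H h15 hD (by omega) h2) ht) hf hg

theorem QL_sub (H : WH) (h15 : S15) (hD : D.Hyp) {o : ℕ} (h1 : D.m ≤ o) (h2 : o ≤ D.n + 1)
    (hw : Fn D w) (hw' : Fn D w') (hκ : Fn D κ) (hκ' : Fn D κ') (ht : t ∈ Icc 0 D.T) :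
    QL D o (fun t => w t - w' t) (fun t => κ t - κ' t) t = QL D o w κ t - QL D o w' κ' t := by
  have a1 := hw.sN hD ht
  have a2 := hw'.sN hD ht
  unfold QL
  rw [Lin_sub H h15 hD hw hw' hκ hκ' ht, res_sub, res_sub,
    model_sub H h15 hD h1 h2 (sN_res_fin _ a1) (sN_res_fin _ a2) ht]
  abel

theorem HH_sub (H : WH) (h15 : S15) (hD : D.Hyp) (hw : Fn D w) (hw' : Fn D w')
    (ht : t ∈ Icc 0 D.T) :
    HH D (fun t => w t - w' t) (fun t => κ t - κ' t) t = HH D w κ t - HH D w' κ' t := by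
  have hc := hD.c_pos.le
  have := hD.hmn
  have a1 := hw.sN hD ht
  have a2 := hw'.sN hD ht
  unfold HH mul
  rw [res_sub, res_sub, smul_sub,
    act_sub H (sK_fin H hc (kn_rw H h15 hD (by omega : D.m < D.n + 1) le_rfl) ht)
      (sN_res_fin _ a1) (sN_res_fin _ a2)]
  abel

theorem JJ_sub_left (H : WH) (h15 : S15) (hD : D.Hyp) (hw : Fn D w) (hw' : Fn D w')
    (hκ : Fn D κ) (hκ' : Fn D κ') (hv : Fn D v) (ht : t ∈ Icc 0 D.T) :
    JJ D (fun t => w t - w' t) (fun t => κ t - κ' t) v t = JJ D w κ v t - JJ D w' κ' v t := by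
  have hc := hD.c_pos.le
  have a1 := hw.sN hD ht
  have a2 := hw'.sN hD ht
  have a5 := hv.sN hD ht
  have b1 := (Fn_HH H h15 hD hw hκ).sN hD ht
  have b2 := (Fn_HH H h15 hD hw' hκ').sN hD ht
  have c1 := sK_fin H hc (kn_Fi H hD hD.hmn le_rfl) ht
  have d1 := sN_act_fin H c1 a1
  have d2 := sN_act_fin H c1 a2
  funext q
  unfold JJ
  rw [HH_sub H h15 hD hw hw' ht, conv_sub_left smB b1 b2 a5]
  unfold mul
  rw [act_sub H c1 a1 a2, conv_sub_right outerB a5 d1 d2]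
  simp only [Pi.sub_apply, _root_.sub_apply, smul_sub]
  abel

theorem JJ_sub_right (H : WH) (h15 : S15) (hD : D.Hyp) (hw : Fn D w)
    (hκ : Fn D κ) (hv : Fn D v) (hv' : Fn D v') (ht : t ∈ Icc 0 D.T) :
    JJ D w κ (fun t => v t - v' t) t = JJ D w κ v t - JJ D w κ v' t := by
  have hc := hD.c_pos.le
  have a1 := hw.sN hD ht
  have a5 := hv.sN hD ht
  have a6 := hv'.sN hD ht
  have b1 := (Fn_HH H h15 hD hw hκ).sN hD ht
  have c1 := sK_fin H hc (kn_Fi H hD hD.hmn le_rfl) ht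
  have d1 := sN_act_fin H c1 a1
  funext q
  unfold JJ mul
  rw [conv_sub_right smB b1 a5 a6, conv_sub_left outerB a5 a6 d1]
  simp only [Pi.sub_apply, _root_.sub_apply, smul_sub]
  abel

theorem Bil_diff (H : WH) (h15 : S15) (hD : D.Hyp) (hw : Fn D w) (hw' : Fn D w')
    (hκ : Fn D κ) (hκ' : Fn D κ') (sw : Sp D w) (sw' : Sp D w') (ht : t ∈ Icc 0 D.T) :
    Bil D w κ w t - Bil D w' κ' w' t =
      Bil D (fun t => w t - w' t) (fun t => κ t - κ' t) w t +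
        Bil D w' κ' (fun t => w t - w' t) t := by
  have hc := hD.c_pos.le
  have b := sK_fin H hc (kn_P1 H hD hD.hmn le_rfl) ht
  have j1 := (Fn'_JJ H h15 hD hw hκ hw sw sw).sN hD ht
  have j2 := (Fn'_JJ H h15 hD hw' hκ' hw sw' sw).sN hD ht
  have j3 := (Fn'_JJ H h15 hD hw' hκ' hw' sw' sw').sN hD ht
  simp only [Bil_eq]
  rw [JJ_sub_left H h15 hD hw hw' hκ hκ' hw ht, JJ_sub_right H h15 hD hw' hκ' hw hw' ht,
    act_sub H b j1 j2, act_sub H b j2 j3]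
  abel

end lin2

end FPt

end Pool.Agent.Work.MP_b0497c_an.Unf.S
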