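import Pool.Agent.Work.MP_b0497c_an.Unf.S24C

set_option autoImplicit false
set_option linter.unusedVariables false
set_option linter.unusedSectionVars false

/-!
# S24, part D: the linear problem and the sources
-/

open scoped ENNReal
open Set MeasureTheory

namespace Pool.Agent.Work.MP_b0497c_an.Unf.S

open W

namespace FPt

/-- The S items used. -/
structure SH : Prop where
  s15 : S15
  s16 : S16
  s18 : S18
  s19 : S19
  s20 : S20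
  s21 : S21
  s22 : S22
  s23 : S23

variable {D : Dat} {ρ : ℕ → ℝ → ℝ} {Str : ℝ → ℝ}

/-- The generators of the block diagonal model. -/
noncomputable def LL (D : Dat) (o : ℕ) (t : ℝ) : Md → Md → Mat :=
  if o ≤ D.m then D.gen D.m t else mulK (D.gK o t)

theorem model_eq (o : ℕ) (t : ℝ) (f : Md → C3) : model D o t f = act (LL D o t) f := by
  unfold model LL
  split_ifs <;> rfl

/-- The level of the generator of class `o`. -/
def lv (m o : ℕ) : ℕ := if o ≤ m then m else o - 1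

theorem LL_le {o : ℕ} (h : o ≤ D.m) : LL D o = D.gen D.m := by
  funext t
  simp [LL, h]

theorem LL_gt {o : ℕ} (h : D.m < o) : LL D o = fun t => mulK (D.gK o t) := by
  funext t
  simp [LL, not_le.2 h]

theorem bl_LL (H : WH) (h15 : S15) (hD : D.Hyp) {o : ℕ} (h2 : o ≤ D.n + 1) {t : ℝ}
    (ht : t ∈ Icc 0 D.T) : Bl (lev (lv D.m o)) (LL D o t) := by
  unfold lv LL
  split_ifs with h
  · exact bl_gen H hD le_rfl hD.hmn ht
  · exact bl_gK h15 hD (by omega) h2 ht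

theorem stab_lv (m o : ℕ) : Stab (lev (lv m o)) (Cs m o) := by
  unfold lv Cs
  split_ifs with h
  · exact stab_lev le_rfl
  · exact stab_Cl (by omega)

/-- The propagators of the block diagonal model. -/
structure LP (D : Dat) (ρ : ℕ → ℝ → ℝ) (SS : ℕ → ℝ → ℝ → Md → Md → Mat) : Prop where
  prop : ∀ o, D.m ≤ o → o ≤ D.n + 1 → IsProp D.T (LL D o) (SS o)
  ck : ∀ o, D.m ≤ o → o ≤ D.n + 1 → CK D.T (LL D o)
  kn : ∀ o, D.m ≤ o → o ≤ D.n + 1 → KN D.T D.c (LL D o) ≠ ∞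
  pn : ∀ o, D.m ≤ o → o ≤ D.n + 1 → PN D.T D.c (ρ o) (ρ o) (SS o) ≤ ENNReal.ofReal D.G
  new : ∀ t, SS (D.n + 1) t 0 = mulK (D.Φ (D.n + 1) t 0)

theorem PN_mono {T c : ℝ} {σ τ : ℝ → ℝ} {S : ℝ → ℝ → Md → Md → Mat}
    (h : ∀ t ∈ Icc 0 T, ∀ s ∈ Icc 0 t, σ s / σ t ≤ τ s / τ t) :
    PN T c σ σ S ≤ PN T c τ τ S := by
  exact ENNReal.tsum_le_tsum fun k => mul_le_mul' le_rfl
    (iSup_mono fun l => iSup₂_mono fun t ht => iSup₂_mono fun s hs =>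
      mul_le_mul' (ENNReal.ofReal_le_ofReal (h t ht s hs)) le_rfl)

theorem exists_LP (H : WH) (S : SH) (hD : D.Hyp) (hW : Wts D ρ Str) : ∃ SS, LP D ρ SS := by
  have hT := hD.T_pos.le
  have hβ : 0 ≤ D.β := by linarith [hD.β_one]
  obtain ⟨Sm, h1, h2, h3, h4, h5⟩ := H.w23 Md D.T D.c D.β (ρ D.m) (D.gen D.m) hT hD.c_pos.le hβ
    (ck_gen H hD le_rfl hD.hmn) hD.B_le
    (fun t ht => (hW.wt D.m le_rfl (by linarith [hD.hmn])).pos t ht) hW.coarse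
  refine ⟨fun o t s => if o ≤ D.m then Sm t s else mulK (D.Φ o t s), ?_, ?_, ?_, ?_, ?_⟩
  · intro o ho1 ho2
    by_cases h : o ≤ D.m
    · rw [LL_le h]
      simp only [h, if_true]
      refine ⟨h1, h2, h3, ENNReal.ofReal (Real.exp (D.β * D.T)), ENNReal.ofReal_ne_top, D.c,
        hD.c_pos, fun s hs t ht => (h5 s hs t ht).trans (ENNReal.ofReal_le_ofReal ?_)⟩
      refine Real.exp_le_exp.2 (mul_le_mul_of_nonneg_left ?_ hβ)
      rw [abs_le]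
      constructor <;> linarith [hs.1, hs.2, ht.1, ht.2]
    · rw [LL_gt (not_le.1 h)]
      simp only [h, if_false]
      exact hD.Φ_prop o (not_le.1 h) ho2
  · intro o ho1 ho2
    by_cases h : o ≤ D.m
    · rw [LL_le h]
      exact ck_gen H hD le_rfl hD.hmn
    · rw [LL_gt (not_le.1 h)]
      exact ck_mulK (S.s15 D hD o (not_le.1 h) ho2).2.2.2.2.2.2.2.1
  · intro o ho1 ho2
    by_cases h : o ≤ D.m
    · rw [LL_le h]
      exact kn_gen H hD le_rfl hD.hmn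
    · rw [LL_gt (not_le.1 h)]
      exact kn_gK H S.s15 hD (not_le.1 h) ho2
  · intro o ho1 ho2
    by_cases h : o ≤ D.m
    · simp only [h, if_true]
      have : o = D.m := le_antisymm h ho1
      subst this
      refine h4.trans ?_
      rw [← ENNReal.ofReal_ofNat]
      exact ENNReal.ofReal_le_ofReal hD.G_two
    · simp only [h, if_false]
      have h' := not_le.1 h
      refine (PN_mono (τ := D.α o) fun t ht s hs => ?_).trans (hD.Φ_le o h' ho2)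
      have hs' : s ∈ Icc 0 D.T := ⟨hs.1, hs.2.trans ht.2⟩
      have r1 := (hW.wt o ho1 ho2).pos t ht
      have r2 := (hW.wt o ho1 ho2).pos s hs'
      have r3 := (hD.α_wt o h' ho2).pos t ht
      have r4 := (hD.α_wt o h' ho2).pos s hs'
      have r5 : ρ o s / D.α o s ≤ ρ o t / D.α o t := hW.ratio o h' ho2 hs' ht hs.2
      rw [div_le_div_iff₀ r4 r3] at r5
      rw [div_le_div_iff₀ r1 r3]
      linarith
  · intro t
    have := hD.hmn
    have h : ¬ D.n + 1 ≤ D.m := by omega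
    simp only [h, if_false]

/-- The solution of the linear problem. -/
noncomputable def Wsol (S : ℝ → ℝ → Md → Md → Mat) (w0 : Md → C3) (Q : ℝ → Md → C3) (t : ℝ)
    (q : Md) : C3 := act (S t 0) w0 q + ∫ s in (0 : ℝ)..t, act (S t s) (Q s) q

/-- Good sources. -/
structure GQ (D : Dat) (σ : ℝ → ℝ) (Q : ℝ → Md → C3) : Prop where
  cm : CM D.T Q
  fn : Fn' D Q
  src : Src D.T D.c D.γ σ Q ≠ ∞

theorem wsol (S : SH) (hD : D.Hyp) (hW : Wts D ρ Str) {SS : ℕ → ℝ → ℝ → Md → Md → Mat}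
    (hL : LP D ρ SS) {o : ℕ} (h1 : D.m ≤ o) (h2 : o ≤ D.n + 1) {w0 : Md → C3}
    (h0 : sN D.c w0 ≠ ∞) {Q : ℝ → Md → C3} (hQ : GQ D (ρ o) Q) :
    CM D.T (Wsol (SS o) w0 Q) ∧ Wsol (SS o) w0 Q 0 = w0 ∧
    (∀ q, ∀ t ∈ Icc 0 D.T, HasDerivWithinAt (fun t => Wsol (SS o) w0 Q t q)
      (act (LL D o t) (Wsol (SS o) w0 Q t) q + Q t q) (Icc 0 D.T) t) ∧
    Nrm D.T D.c D.γ (ρ o) (Wsol (SS o) w0 Q) ≤ ENNReal.ofReal D.G *
      (ENNReal.ofReal (1 / ρ o 0) * sN D.c w0 + Src D.T D.c D.γ (ρ o) Q) ∧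
    (∀ W' : ℝ → Md → C3, CM D.T W' → W' 0 = w0 → (∀ q, ∀ t ∈ Icc 0 D.T,
      HasDerivWithinAt (fun t => W' t q) (act (LL D o t) (W' t) q + Q t q) (Icc 0 D.T) t) →
      Nrm D.T 0 0 (ρ o) W' ≠ ∞ → ∀ t ∈ Icc 0 D.T, W' t = Wsol (SS o) w0 Q t) := by
  have hwt := hW.wt o h1 h2
  have hlt : D.γ * D.T < D.c := by
    rw [gT hD]
    linarith [hD.c_pos]
  have h := S.s23 D.T D.c D.γ (ρ o) (ENNReal.ofReal D.G) (LL D o) (SS o) w0 Q (par hD) hlt hwt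
    (hL.prop o h1 h2) (hL.ck o h1 h2) (hL.kn o h1 h2) (hL.pn o h1 h2) hQ.cm h0
    ⟨cc D, lt_cc hD, Nrm_fin hD.T_pos.le wt_one hwt hQ.fn⟩ hQ.src
  exact h

theorem Wsol_fin (S : SH) (hD : D.Hyp) (hW : Wts D ρ Str) {SS : ℕ → ℝ → ℝ → Md → Md → Mat}
    (hL : LP D ρ SS) {o : ℕ} (h1 : D.m ≤ o) (h2 : o ≤ D.n + 1) {w0 : Md → C3}
    (h0 : sN D.c w0 ≠ ∞) {Q : ℝ → Md → C3} (hQ : GQ D (ρ o) Q) :
    Nrm D.T D.c D.γ (ρ o) (Wsol (SS o) w0 Q) ≠ ∞ := by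
  refine ne_top_of_le_ne_top ?_ (wsol S hD hW hL h1 h2 h0 hQ).2.2.2.1
  exact ENNReal.mul_ne_top ENNReal.ofReal_ne_top (ENNReal.add_ne_top.2
    ⟨ENNReal.mul_ne_top ENNReal.ofReal_ne_top h0, hQ.src⟩)

theorem sN_c_zero (c : ℝ) : sN c (0 : Md → C3) = 0 := by
  simp [sN]

theorem wsol_diff (H : WH) (S : SH) (hD : D.Hyp) (hW : Wts D ρ Str)
    {SS : ℕ → ℝ → ℝ → Md → Md → Mat}
    (hL : LP D ρ SS) {o : ℕ} (h1 : D.m ≤ o) (h2 : o ≤ D.n + 1) {w0 : Md → C3}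
    (h0 : sN D.c w0 ≠ ∞) {Q Q' : ℝ → Md → C3} (hQ : GQ D (ρ o) Q) (hQ' : GQ D (ρ o) Q')
    (hs : Src D.T D.c D.γ (ρ o) (fun t => Q t - Q' t) ≠ ∞) :
    Nrm D.T D.c D.γ (ρ o) (fun t => Wsol (SS o) w0 Q t - Wsol (SS o) w0 Q' t) ≤
      ENNReal.ofReal D.G * Src D.T D.c D.γ (ρ o) (fun t => Q t - Q' t) := by
  have hwt := hW.wt o h1 h2
  have hp := par hD
  have hg := g_nonneg hD
  obtain ⟨a1, a2, a3, -, -⟩ := wsol S hD hW hL h1 h2 h0 hQ
  obtain ⟨b1, b2, b3, -, -⟩ := wsol S hD hW hL h1 h2 h0 hQ'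
  have a4 := Wsol_fin S hD hW hL h1 h2 h0 hQ
  have b4 := Wsol_fin S hD hW hL h1 h2 h0 hQ'
  have hz : sN D.c (0 : Md → C3) ≠ ∞ := by
    rw [sN_c_zero]
    exact ENNReal.zero_ne_top
  have hd : GQ D (ρ o) (fun t => Q t - Q' t) := by
    refine ⟨fun q => (hQ.cm q).sub (hQ'.cm q), fin_sub hQ.fn hQ'.fn, hs⟩
  obtain ⟨-, -, -, c4, c5⟩ := wsol S hD hW hL h1 h2 hz hd
  have key := c5 (fun t => Wsol (SS o) w0 Q t - Wsol (SS o) w0 Q' t)
    (fun q => (a1 q).sub (b1 q)) (by rw [a2, b2, sub_self]) (fun q t ht => ?_) ?_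
  · rw [Nrm_congr key]
    refine c4.trans ?_
    rw [sN_c_zero, mul_zero, zero_add]
  · have h3 := (a3 q t ht).sub (b3 q t ht)
    refine h3.congr_deriv ?_
    have hk := sK_fin H hD.c_pos.le (hL.kn o h1 h2) ht
    rw [act_sub H hk (sN_fin hp.le hg hwt a4 ht) (sN_fin hp.le hg hwt b4 ht)]
    simp only [Pi.sub_apply]
    abel
  · exact ne_top_of_le_ne_top (fin_sub a4 b4) (Nrm00_le hp.le hg hwt _)

theorem wsol_zero (S : SH) (hD : D.Hyp) (hW : Wts D ρ Str)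
    {SS : ℕ → ℝ → ℝ → Md → Md → Mat}
    (hL : LP D ρ SS) {o : ℕ} (h1 : D.m ≤ o) (h2 : o ≤ D.n + 1) (w0 : Md → C3)
    {Q : ℝ → Md → C3} (hQ : GQ D (ρ o) Q) :
    Nrm D.T D.c D.γ (ρ o) (fun t => Wsol (SS o) w0 Q t - act (SS o t 0) w0) ≤
      ENNReal.ofReal D.G * Src D.T D.c D.γ (ρ o) Q := by
  have hz : sN D.c (0 : Md → C3) ≠ ∞ := by
    rw [sN_c_zero]
    exact ENNReal.zero_ne_top
  obtain ⟨-, -, -, c4, -⟩ := wsol S hD hW hL h1 h2 hz hQ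
  rw [sN_c_zero, mul_zero, zero_add] at c4
  have : (fun t => Wsol (SS o) w0 Q t - act (SS o t 0) w0) = Wsol (SS o) 0 Q := by
    funext t q
    simp [Wsol, act_zero]
  rw [this]
  exact c4

/-- The `κ` equation. -/
noncomputable def ksol (N : ℂ) (R : ℝ → Md → (C3 →L[ℂ] ℂ)) (w0 : Md → C3) (Q : ℝ → Md → C3)
    (t : ℝ) (q : Md) : ℂ := (N⁻¹ • mul (R 0) w0) q + ∫ s in (0 : ℝ)..t, (N⁻¹ • mul (R s) (Q s)) q

theorem ksol_le (H : WH) (hD : D.Hyp) {σ : ℝ → ℝ} (hσ : Wt D.T σ) (N : ℂ)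
    (R : ℝ → Md → (C3 →L[ℂ] ℂ)) (w0 : Md → C3) (Q : ℝ → Md → C3)
    (hcm : CM D.T (fun t => mul (R t) (Q t))) :
    Nrm D.T D.c D.γ σ (ksol N R w0 Q) ≤
      ENNReal.ofReal (1 / σ 0) * sN D.c (N⁻¹ • mul (R 0) w0) +
        Src D.T D.c D.γ σ (fun t => N⁻¹ • mul (R t) (Q t)) := by
  have h : CM D.T (fun t => N⁻¹ • mul (R t) (Q t)) := fun q => (hcm q).const_smul _
  have h1 := H.w08 Md ℂ D.T D.c D.γ σ (fun t => N⁻¹ • mul (R t) (Q t)) (par hD) hσ h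
  have h2 := Nrm_const_le (c := D.c) hD.T_pos.le (g_nonneg hD) hσ (N⁻¹ • mul (R 0) w0)
  refine le_trans (Nrm_le_add (g := fun _ => N⁻¹ • mul (R 0) w0)
    (k := fun t q => ∫ s in (0 : ℝ)..t, (N⁻¹ • mul (R s) (Q s)) q) fun t _ q => ?_)
    (add_le_add h2 h1)
  exact enorm_add_le _ _

theorem ksol_diff (H : WH) (hD : D.Hyp) {σ : ℝ → ℝ} (hσ : Wt D.T σ) (N : ℂ)
    (R : ℝ → Md → (C3 →L[ℂ] ℂ)) (w0 : Md → C3) (Q Q' : ℝ → Md → C3)
    (hcm : CM D.T (fun t => mul (R t) (Q t))) (hcm' : CM D.T (fun t => mul (R t) (Q' t))) :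
    Nrm D.T D.c D.γ σ (fun t => ksol N R w0 Q t - ksol N R w0 Q' t) ≤
        Src D.T D.c D.γ σ (fun t => N⁻¹ • mul (R t) (Q t) - N⁻¹ • mul (R t) (Q' t)) := by
  have h : CM D.T (fun t => N⁻¹ • mul (R t) (Q t)) := fun q => (hcm q).const_smul _
  have h' : CM D.T (fun t => N⁻¹ • mul (R t) (Q' t)) := fun q => (hcm' q).const_smul _
  have h1 := H.w08 Md ℂ D.T D.c D.γ σ
    (fun t => N⁻¹ • mul (R t) (Q t) - N⁻¹ • mul (R t) (Q' t)) (par hD) hσ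
    (fun q => (h q).sub (h' q))
  refine le_trans (le_of_eq (Nrm_congr fun t ht => ?_)) h1
  funext q
  have hsub : uIcc 0 t ⊆ Icc 0 D.T := by
    rw [uIcc_of_le ht.1]
    exact Icc_subset_Icc_right ht.2
  have i1 := ((h q).mono hsub).intervalIntegrable (μ := volume)
  have i2 := ((h' q).mono hsub).intervalIntegrable (μ := volume)
  simp only [Pi.sub_apply, ksol]
  rw [intervalIntegral.integral_sub i1 i2]
  ring

/-! ### the sources -/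

/-- The total source of class `o`. -/
noncomputable def QQ (D : Dat) (o : ℕ) (w : ℝ → Md → C3) (κ : ℝ → Md → ℂ) (t : ℝ) : Md → C3 :=
  QL D o w κ t + res (Cs D.m o) (Bil D w κ w t)

/-- The common small constant. -/
noncomputable def ee (D : Dat) : ℝ := D.G ^ 40 * D.u (D.m + 1) ^ 4

theorem u_le (hD : D.Hyp) : D.u (D.n + 1) ≤ D.u (D.m + 1) := by
  have h : ∀ j, D.m + 1 ≤ j → j ≤ D.n + 1 → D.u j ≤ D.u (D.m + 1) := by
    intro j hj
    induction j, hj using Nat.le_induction with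
    | base => intro _; exact le_rfl
    | succ j hj ih =>
      intro h
      refine (hD.u_step j (by omega) (by omega)).trans (le_trans ?_ (ih (by omega)))
      exact pow_le_of_le_one (hD.u_pos j).le (hD.u_lt j).le (by norm_num)
  exact h _ (by linarith [hD.hmn]) le_rfl

theorem const_le (hD : D.Hyp) {a b : ℕ} (ha : a ≤ 40) (hb : 4 ≤ b) :
    D.G ^ a * D.u (D.m + 1) ^ b ≤ ee D ∧ D.G ^ a * D.u (D.n + 1) ^ b ≤ ee D := by
  have hG : 1 ≤ D.G := by linarith [hD.G_two]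
  have hu := (hD.u_pos (D.m + 1)).le
  have hu' := (hD.u_lt (D.m + 1)).le
  have hv := (hD.u_pos (D.n + 1)).le
  have h1 : D.u (D.m + 1) ^ b ≤ D.u (D.m + 1) ^ 4 := pow_le_pow_of_le_one hu hu' hb
  have h2 : D.u (D.n + 1) ^ b ≤ D.u (D.m + 1) ^ b := pow_le_pow_left₀ hv (u_le hD) b
  have h3 : D.G ^ a ≤ D.G ^ 40 := pow_le_pow_right₀ hG ha
  have h4 : D.G ^ a * D.u (D.m + 1) ^ b ≤ ee D :=
    mul_le_mul h3 h1 (by positivity) (by positivity)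
  exact ⟨h4, (mul_le_mul_of_nonneg_left h2 (by positivity)).trans h4⟩

theorem ee_nonneg (hD : D.Hyp) : 0 ≤ ee D := by
  have hG : 1 ≤ D.G := by linarith [hD.G_two]
  have hu := (hD.u_pos (D.m + 1)).le
  unfold ee
  positivity

theorem ee_small (hD : D.Hyp) : D.G ^ 20 * ee D ≤ 1 / 2 := by
  have hG : 1 ≤ D.G := by linarith [hD.G_two]
  have hu := (hD.u_pos (D.m + 1)).le
  have h1 : D.G ^ 20 * ee D * 2 ≤ D.G ^ 20 * ee D * D.G := by
    refine mul_le_mul_of_nonneg_left hD.G_two ?_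
    unfold ee
    positivity
  have h2 : D.G ^ 20 * ee D * D.G = D.G ^ 61 * D.u (D.m + 1) ^ 4 := by
    unfold ee
    ring
  have h3 : D.G ^ 61 * D.u (D.m + 1) ^ 4 ≤ D.G ^ 400 * D.u (D.m + 1) ^ 4 :=
    mul_le_mul_of_nonneg_right (pow_le_pow_right₀ hG (by norm_num)) (by positivity)
  linarith [hD.small]

theorem cm_QL (S : SH) (hD : D.Hyp) (hW : Wts D ρ Str) {w : ℝ → Md → C3} {κ : ℝ → Md → ℂ}
    (A : Adm D ρ w κ) {o : ℕ} (h1 : D.m ≤ o) (h2 : o ≤ D.n + 1) : CM D.T (QL D o w κ) := by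
  rcases Nat.lt_or_ge D.n o with h | h
  · have : o = D.n + 1 := by omega
    subst this
    exact (S.s20 D ρ Str hD hW w κ A).1
  · exact (S.s18 D ρ Str hD hW w κ A o h1 h).1

theorem lin1 (S : SH) (hD : D.Hyp) (hW : Wts D ρ Str) {w : ℝ → Md → C3} {κ : ℝ → Md → ℂ}
    (A : Adm D ρ w κ) {o : ℕ} (h1 : D.m ≤ o) (h2 : o ≤ D.n + 1) :
    Src D.T D.c D.γ (ρ o) (QL D o w κ) ≤ ENNReal.ofReal (ee D) * XN D ρ w κ := by
  rcases Nat.lt_or_ge D.n o with h | h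
  · have : o = D.n + 1 := by omega
    subst this
    refine (S.s20 D ρ Str hD hW w κ A).2.2.1.trans ?_
    gcongr
    exact (const_le hD (by norm_num) (by norm_num)).2
  · refine (S.s18 D ρ Str hD hW w κ A o h1 h).2.2.trans ?_
    gcongr
    exact (const_le hD (by norm_num) (by norm_num)).1

theorem lin2 (S : SH) (hD : D.Hyp) (hW : Wts D ρ Str) {w : ℝ → Md → C3} {κ : ℝ → Md → ℂ}
    (A : Adm D ρ w κ) {o : ℕ} (h1 : D.m < o) (h2 : o ≤ D.n + 1) :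
    Src D.T D.c D.γ (fun t => D.u o ^ 128 * ρ o t)
      (fun t => ((D.N o : ℂ)⁻¹) • mul (D.rw o t) (QL D o w κ t)) ≤
      ENNReal.ofReal (ee D) * XN D ρ w κ := by
  rcases Nat.lt_or_ge D.n o with h | h
  · have : o = D.n + 1 := by omega
    subst this
    refine (S.s20 D ρ Str hD hW w κ A).2.2.2.trans ?_
    gcongr
    exact (const_le hD (by norm_num) (by norm_num)).2
  · refine (S.s19 D ρ Str hD hW w κ A o h1 h).2.trans ?_
    gcongr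
    exact (const_le hD (by norm_num) (by norm_num)).1

theorem bil1 (S : SH) (hD : D.Hyp) (hW : Wts D ρ Str) {w w' : ℝ → Md → C3} {κ κ' : ℝ → Md → ℂ}
    (A : Adm D ρ w κ) (A' : Adm D ρ w' κ') {o : ℕ} (h1 : D.m ≤ o) (h2 : o ≤ D.n + 1) :
    Src D.T D.c D.γ (ρ o) (fun t => res (Cs D.m o) (Bil D w κ w' t)) ≤
      ENNReal.ofReal (ee D) * XN D ρ w κ * XN D ρ w' κ' := by
  rcases Nat.lt_or_ge D.n o with h | h
  · have : o = D.n + 1 := by omega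
    subst this
    rw [Cs_of_gt (by linarith [hD.hmn] : D.m < D.n + 1)]
    refine (S.s22 D ρ Str hD hW w w' κ κ' A A').1.trans ?_
    gcongr
    exact (const_le hD (by norm_num) (by norm_num)).2
  · refine (S.s21 D ρ Str hD hW w w' κ κ' A A' o h1 h).2.2.1.trans ?_
    gcongr
    exact (const_le hD (by norm_num) (by norm_num)).2

theorem bil2 (S : SH) (hD : D.Hyp) (hW : Wts D ρ Str) {w w' : ℝ → Md → C3} {κ κ' : ℝ → Md → ℂ}
    (A : Adm D ρ w κ) (A' : Adm D ρ w' κ') {o : ℕ} (h1 : D.m < o) (h2 : o ≤ D.n + 1) :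
    Src D.T D.c D.γ (fun t => D.u o ^ 128 * ρ o t)
      (fun t => ((D.N o : ℂ)⁻¹) • mul (D.rw o t) (res (Cs D.m o) (Bil D w κ w' t))) ≤
      ENNReal.ofReal (ee D) * XN D ρ w κ * XN D ρ w' κ' := by
  rcases Nat.lt_or_ge D.n o with h | h
  · have : o = D.n + 1 := by omega
    subst this
    rw [Cs_of_gt (by linarith [hD.hmn] : D.m < D.n + 1)]
    refine (S.s22 D ρ Str hD hW w w' κ κ' A A').2.trans ?_
    gcongr
    exact (const_le hD (by norm_num) (by norm_num)).2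
  · refine ((S.s21 D ρ Str hD hW w w' κ κ' A A' o h1.le h).2.2.2 h1).trans ?_
    gcongr
    exact (const_le hD (by norm_num) (by norm_num)).2

theorem cm_Bil (S : SH) (hD : D.Hyp) (hW : Wts D ρ Str) {w w' : ℝ → Md → C3}
    {κ κ' : ℝ → Md → ℂ} (A : Adm D ρ w κ) (A' : Adm D ρ w' κ') : CM D.T (Bil D w κ w') :=
  (S.s21 D ρ Str hD hW w w' κ κ' A A' D.m le_rfl hD.hmn).1

theorem sp_Bil (S : SH) (hD : D.Hyp) (hW : Wts D ρ Str) {w w' : ℝ → Md → C3}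
    {κ κ' : ℝ → Md → ℂ} (A : Adm D ρ w κ) (A' : Adm D ρ w' κ') : Sp D (Bil D w κ w') :=
  (S.s21 D ρ Str hD hW w w' κ κ' A A' D.m le_rfl hD.hmn).2.1

theorem Adm.sub {w w' : ℝ → Md → C3} {κ κ' : ℝ → Md → ℂ}
    (A : Adm D ρ w κ) (A' : Adm D ρ w' κ') :
    Adm D ρ (fun t => w t - w' t) (fun t => κ t - κ' t) where
  w_cm q := (A.w_cm q).sub (A'.w_cm q)
  κ_cm q := (A.κ_cm q).sub (A'.κ_cm q)
  w_supp t ht q hq := by
    simp only [Pi.sub_apply]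
    rw [A.w_supp t ht q hq, A'.w_supp t ht q hq, sub_zero]
  κ_supp t ht q hq := by
    simp only [Pi.sub_apply]
    rw [A.κ_supp t ht q hq, A'.κ_supp t ht q hq, sub_zero]
  fin := by
    have h := A.fin
    have h' := A'.fin
    unfold XN at *
    rw [ENNReal.add_ne_top, ENNReal.sum_ne_top, ENNReal.sum_ne_top] at *
    refine ⟨fun o ho => ?_, fun o ho => ?_⟩
    · simp only [res_sub]
      exact fin_sub (h.1 o ho) (h'.1 o ho)
    · simp only [res_sub]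
      exact fin_sub (h.2 o ho) (h'.2 o ho)

theorem gq (H : WH) (S : SH) (hD : D.Hyp) (hW : Wts D ρ Str) {w : ℝ → Md → C3}
    {κ : ℝ → Md → ℂ} (A : Adm D ρ w κ) {o : ℕ} (h1 : D.m ≤ o) (h2 : o ≤ D.n + 1) :
    GQ D (ρ o) (QQ D o w κ) ∧
    Src D.T D.c D.γ (ρ o) (QQ D o w κ) ≤
      ENNReal.ofReal (ee D) * XN D ρ w κ + ENNReal.ofReal (ee D) * XN D ρ w κ * XN D ρ w κ := by
  have hwt := hW.wt o h1 h2
  have hw := fin_w hD hW A
  have hκ := fin_κ hD hW A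
  have c1 := cm_QL S hD hW A h1 h2
  have c2 := cm_res (Cs D.m o) (cm_Bil S hD hW A A)
  have f1 : Fn' D (QL D o w κ) := Fn.fn' hD (Fn_QL H S.s15 hD h1 h2 hw hκ)
  have f2 : Fn' D (fun t => res (Cs D.m o) (Bil D w κ w t)) :=
    fin_res _ (Fn'_Bil H S.s15 hD hw hκ hw A.w_supp A.w_supp)
  have h3 : Src D.T D.c D.γ (ρ o) (QQ D o w κ) ≤
      ENNReal.ofReal (ee D) * XN D ρ w κ + ENNReal.ofReal (ee D) * XN D ρ w κ * XN D ρ w κ := by
    refine ((H.w05 Md C3 D.T D.c D.γ (ρ o) (ρ o) (QL D o w κ)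
      (fun t => res (Cs D.m o) (Bil D w κ w t)) (par hD) hwt hwt).2.2.2.1 c1).trans ?_
    exact add_le_add (lin1 S hD hW A h1 h2) (bil1 S hD hW A A h1 h2)
  refine ⟨⟨fun q => (c1 q).add (c2 q), fin_add f1 f2, ne_top_of_le_ne_top ?_ h3⟩, h3⟩
  have hX := A.fin
  exact ENNReal.add_ne_top.2 ⟨ENNReal.mul_ne_top ENNReal.ofReal_ne_top hX,
    ENNReal.mul_ne_top (ENNReal.mul_ne_top ENNReal.ofReal_ne_top hX) hX⟩

theorem QQ_diff (H : WH) (S : SH) (hD : D.Hyp) (hW : Wts D ρ Str) {w w' : ℝ → Md → C3}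
    {κ κ' : ℝ → Md → ℂ} (A : Adm D ρ w κ) (A' : Adm D ρ w' κ') {o : ℕ} (h1 : D.m ≤ o)
    (h2 : o ≤ D.n + 1) {t : ℝ} (ht : t ∈ Icc 0 D.T) :
    QQ D o w κ t - QQ D o w' κ' t =
      QL D o (fun t => w t - w' t) (fun t => κ t - κ' t) t +
        (res (Cs D.m o) (Bil D (fun t => w t - w' t) (fun t => κ t - κ' t) w t) +
          res (Cs D.m o) (Bil D w' κ' (fun t => w t - w' t) t)) := by
  have hw := fin_w hD hW A
  have hκ := fin_κ hD hW A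
  have hw' := fin_w hD hW A'
  have hκ' := fin_κ hD hW A'
  unfold QQ
  rw [QL_sub H S.s15 hD h1 h2 hw hw' hκ hκ' ht, ← res_add,
    ← Bil_diff H S.s15 hD hw hw' hκ hκ' A.w_supp A'.w_supp ht, res_sub]
  abel

theorem src_diff (H : WH) (S : SH) (hD : D.Hyp) (hW : Wts D ρ Str) {w w' : ℝ → Md → C3}
    {κ κ' : ℝ → Md → ℂ} (A : Adm D ρ w κ) (A' : Adm D ρ w' κ') {o : ℕ} (h1 : D.m ≤ o)
    (h2 : o ≤ D.n + 1) :
    Src D.T D.c D.γ (ρ o) (fun t => QQ D o w κ t - QQ D o w' κ' t) ≤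
      ENNReal.ofReal (ee D) * XN D ρ (fun t => w t - w' t) (fun t => κ t - κ' t) +
      (ENNReal.ofReal (ee D) * XN D ρ (fun t => w t - w' t) (fun t => κ t - κ' t) * XN D ρ w κ +
      ENNReal.ofReal (ee D) * XN D ρ w' κ' *
        XN D ρ (fun t => w t - w' t) (fun t => κ t - κ' t)) := by
  have hwt := hW.wt o h1 h2
  have B := Adm.sub A A'
  have c1 := cm_QL S hD hW B h1 h2
  have c2 := cm_res (Cs D.m o) (cm_Bil S hD hW B A)
  have e1 := (H.w05 Md C3 D.T D.c D.γ (ρ o) (ρ o)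
    (QL D o (fun t => w t - w' t) (fun t => κ t - κ' t))
    (fun t => res (Cs D.m o) (Bil D (fun t => w t - w' t) (fun t => κ t - κ' t) w t) +
          res (Cs D.m o) (Bil D w' κ' (fun t => w t - w' t) t)) (par hD) hwt hwt).2.2.2.1 c1
  have e2 := (H.w05 Md C3 D.T D.c D.γ (ρ o) (ρ o)
    (fun t => res (Cs D.m o) (Bil D (fun t => w t - w' t) (fun t => κ t - κ' t) w t))
    (fun t => res (Cs D.m o) (Bil D w' κ' (fun t => w t - w' t) t)) (par hD) hwt hwt).2.2.2.1 c2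
  rw [Src_congr fun t ht => QQ_diff H S hD hW A A' h1 h2 ht]
  exact e1.trans (add_le_add (lin1 S hD hW B h1 h2)
    (e2.trans (add_le_add (bil1 S hD hW B A h1 h2) (bil1 S hD hW A' B h1 h2))))

/-! ### the `κ` sources -/

theorem cm_k (H : WH) (S : SH) (hD : D.Hyp) {o : ℕ} (h1 : D.m < o) (h2 : o ≤ D.n + 1)
    {Q : ℝ → Md → C3} (hQ : CM D.T Q) (hf : Fn' D Q) :
    CM D.T (fun t => mul (D.rw o t) (Q t)) :=
  hf.cm_act H hD (kn_rw H S.s15 hD h1 h2) (ck_mulK (cm_rw S.s15 hD h1 h2)) hQ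

theorem mul_rw_add (H : WH) (S : SH) (hD : D.Hyp) {o : ℕ} (h1 : D.m < o) (h2 : o ≤ D.n + 1)
    {f g : Md → C3} (hf : sN 0 f ≠ ∞) (hg : sN 0 g ≠ ∞) {t : ℝ} (ht : t ∈ Icc 0 D.T) :
    mul (D.rw o t) (f + g) = mul (D.rw o t) f + mul (D.rw o t) g :=
  act_add H (sK_fin H hD.c_pos.le (kn_rw H S.s15 hD h1 h2) ht) hf hg

theorem mul_rw_sub (H : WH) (S : SH) (hD : D.Hyp) {o : ℕ} (h1 : D.m < o) (h2 : o ≤ D.n + 1)
    {f g : Md → C3} (hf : sN 0 f ≠ ∞) (hg : sN 0 g ≠ ∞) {t : ℝ} (ht : t ∈ Icc 0 D.T) :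
    mul (D.rw o t) (f - g) = mul (D.rw o t) f - mul (D.rw o t) g :=
  act_sub H (sK_fin H hD.c_pos.le (kn_rw H S.s15 hD h1 h2) ht) hf hg

theorem gqk (H : WH) (S : SH) (hD : D.Hyp) (hW : Wts D ρ Str) {w : ℝ → Md → C3}
    {κ : ℝ → Md → ℂ} (A : Adm D ρ w κ) {o : ℕ} (h1 : D.m < o) (h2 : o ≤ D.n + 1) :
    Src D.T D.c D.γ (fun t => D.u o ^ 128 * ρ o t)
      (fun t => ((D.N o : ℂ)⁻¹) • mul (D.rw o t) (QQ D o w κ t)) ≤
      ENNReal.ofReal (ee D) * XN D ρ w κ + ENNReal.ofReal (ee D) * XN D ρ w κ * XN D ρ w κ := by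
  have hwt := wtk hD hW h1.le h2
  have hw := fin_w hD hW A
  have hκ := fin_κ hD hW A
  have c1 := cm_QL S hD hW A h1.le h2
  have f1 : Fn' D (QL D o w κ) := Fn.fn' hD (Fn_QL H S.s15 hD h1.le h2 hw hκ)
  have f2 : Fn' D (fun t => res (Cs D.m o) (Bil D w κ w t)) :=
    fin_res _ (Fn'_Bil H S.s15 hD hw hκ hw A.w_supp A.w_supp)
  have k1 := cm_k H S hD h1 h2 c1 f1
  have e := (H.w05 Md ℂ D.T D.c D.γ (fun t => D.u o ^ 128 * ρ o t)
    (fun t => D.u o ^ 128 * ρ o t)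
    (fun t => ((D.N o : ℂ)⁻¹) • mul (D.rw o t) (QL D o w κ t))
    (fun t => ((D.N o : ℂ)⁻¹) • mul (D.rw o t) (res (Cs D.m o) (Bil D w κ w t)))
    (par hD) hwt hwt).2.2.2.1 (fun q => (k1 q).const_smul _)
  have h3 : ∀ t ∈ Icc 0 D.T, ((D.N o : ℂ)⁻¹) • mul (D.rw o t) (QQ D o w κ t) =
      ((fun t => ((D.N o : ℂ)⁻¹) • mul (D.rw o t) (QL D o w κ t)) +
      (fun t => ((D.N o : ℂ)⁻¹) • mul (D.rw o t) (res (Cs D.m o) (Bil D w κ w t)))) t := by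
    intro t ht
    rw [Pi.add_apply]
    unfold QQ
    rw [mul_rw_add H S hD h1 h2 (f1.sN hD ht) (f2.sN hD ht) ht, smul_add]
  rw [Src_congr h3]
  exact e.trans (add_le_add (lin2 S hD hW A h1 h2) (bil2 S hD hW A A h1 h2))

theorem src_diffk (H : WH) (S : SH) (hD : D.Hyp) (hW : Wts D ρ Str) {w w' : ℝ → Md → C3}
    {κ κ' : ℝ → Md → ℂ} (A : Adm D ρ w κ) (A' : Adm D ρ w' κ') {o : ℕ} (h1 : D.m < o)
    (h2 : o ≤ D.n + 1) :
    Src D.T D.c D.γ (fun t => D.u o ^ 128 * ρ o t)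
      (fun t => ((D.N o : ℂ)⁻¹) • mul (D.rw o t) (QQ D o w κ t) -
        ((D.N o : ℂ)⁻¹) • mul (D.rw o t) (QQ D o w' κ' t)) ≤
      ENNReal.ofReal (ee D) * XN D ρ (fun t => w t - w' t) (fun t => κ t - κ' t) +
      (ENNReal.ofReal (ee D) * XN D ρ (fun t => w t - w' t) (fun t => κ t - κ' t) * XN D ρ w κ +
      ENNReal.ofReal (ee D) * XN D ρ w' κ' *
        XN D ρ (fun t => w t - w' t) (fun t => κ t - κ' t)) := by
  have hwt := wtk hD hW h1.le h2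
  have B := Adm.sub A A'
  have hw := fin_w hD hW A
  have hκ := fin_κ hD hW A
  have hw' := fin_w hD hW A'
  have hκ' := fin_κ hD hW A'
  have hwd := fin_w hD hW B
  have hκd := fin_κ hD hW B
  have c1 := cm_QL S hD hW B h1.le h2
  have c2 := cm_res (Cs D.m o) (cm_Bil S hD hW B A)
  have f1 : Fn' D (QL D o (fun t => w t - w' t) (fun t => κ t - κ' t)) :=
    Fn.fn' hD (Fn_QL H S.s15 hD h1.le h2 hwd hκd)
  have f2 : Fn' D (fun t => res (Cs D.m o)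
      (Bil D (fun t => w t - w' t) (fun t => κ t - κ' t) w t)) :=
    fin_res _ (Fn'_Bil H S.s15 hD hwd hκd hw B.w_supp A.w_supp)
  have f3 : Fn' D (fun t => res (Cs D.m o) (Bil D w' κ' (fun t => w t - w' t) t)) :=
    fin_res _ (Fn'_Bil H S.s15 hD hw' hκ' hwd A'.w_supp B.w_supp)
  have k1 := cm_k H S hD h1 h2 c1 f1
  have k2 := cm_k H S hD h1 h2 c2 f2
  have e1 := (H.w05 Md ℂ D.T D.c D.γ (fun t => D.u o ^ 128 * ρ o t)
    (fun t => D.u o ^ 128 * ρ o t)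
    (fun t => ((D.N o : ℂ)⁻¹) • mul (D.rw o t)
      (QL D o (fun t => w t - w' t) (fun t => κ t - κ' t) t))
    (fun t => ((D.N o : ℂ)⁻¹) • mul (D.rw o t) (res (Cs D.m o)
      (Bil D (fun t => w t - w' t) (fun t => κ t - κ' t) w t)) +
      ((D.N o : ℂ)⁻¹) • mul (D.rw o t) (res (Cs D.m o) (Bil D w' κ' (fun t => w t - w' t) t)))
    (par hD) hwt hwt).2.2.2.1 (fun q => (k1 q).const_smul _)
  have e2 := (H.w05 Md ℂ D.T D.c D.γ (fun t => D.u o ^ 128 * ρ o t)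
    (fun t => D.u o ^ 128 * ρ o t)
    (fun t => ((D.N o : ℂ)⁻¹) • mul (D.rw o t) (res (Cs D.m o)
      (Bil D (fun t => w t - w' t) (fun t => κ t - κ' t) w t)))
    (fun t => ((D.N o : ℂ)⁻¹) • mul (D.rw o t)
      (res (Cs D.m o) (Bil D w' κ' (fun t => w t - w' t) t)))
    (par hD) hwt hwt).2.2.2.1 (fun q => (k2 q).const_smul _)
  have g1 := (gq H S hD hW A h1.le h2).1.fn
  have g2 := (gq H S hD hW A' h1.le h2).1.fn
  refine le_trans (le_of_eq (Src_congr fun t ht => ?_)) (e1.trans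
    (add_le_add (lin2 S hD hW B h1 h2)
      (e2.trans (add_le_add (bil2 S hD hW B A h1 h2) (bil2 S hD hW A' B h1 h2)))))
  rw [Pi.add_apply, ← smul_sub, ← mul_rw_sub H S hD h1 h2 (g1.sN hD ht) (g2.sN hD ht) ht,
    QQ_diff H S hD hW A A' h1.le h2 ht,
    mul_rw_add H S hD h1 h2 (f1.sN hD ht) (sN_add_fin (f2.sN hD ht) (f3.sN hD ht)) ht,
    mul_rw_add H S hD h1 h2 (f2.sN hD ht) (f3.sN hD ht) ht, smul_add, smul_add]

end FPt

end Pool.Agent.Work.MP_b0497c_an.Unf.S
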