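import Pool.Agent.Work.MP_b0497c_an.Unf.S24D

set_option autoImplicit false
set_option linter.unusedVariables false
set_option linter.unusedSectionVars false

/-!
# S24, part E: the fixed point map
-/

open scoped ENNReal
open Set MeasureTheory

namespace Pool.Agent.Work.MP_b0497c_an.Unf.S

open W

namespace FPt

variable {D : Dat} {ρ : ℕ → ℝ → ℝ} {Str : ℝ → ℝ}

/-- The modes of `κ`. -/
def KS (D : Dat) : Set Md := {q | ∃ o, D.m < o ∧ o ≤ D.n + 1 ∧ q ∈ Cl o}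

/-- The class. -/
noncomputable def cl (D : Dat) (q : Md) : ℕ := cls D.m D.n q

theorem cl_ge (hD : D.Hyp) (q : Md) : D.m ≤ cl D q := cls_ge hD.hmn q

theorem cl_le (D : Dat) (q : Md) : cl D q ≤ D.n + 1 := cls_le _ _ _

theorem cl_eq {o : ℕ} {q : Md} (h1 : D.m ≤ o) (h2 : o ≤ D.n + 1) (h : q ∈ Cs D.m o) :
    cl D q = o := cls_eq h1 h2 h

theorem cl_gt (hD : D.Hyp) {q : Md} (h : q ∈ KS D) : D.m < cl D q := by
  obtain ⟨o, h1, h2, h3⟩ := h
  rw [cl_eq h1.le h2 (by rwa [Cs_of_gt h1])]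
  exact h1

/-- The weight. -/
noncomputable def sg (D : Dat) (ρ : ℕ → ℝ → ℝ) (a : Bool × Md) (t : ℝ) : ℝ :=
  if a.1 then D.u (cl D a.2) ^ 128 * ρ (cl D a.2) t else ρ (cl D a.2) t

theorem wt_sg (hD : D.Hyp) (hW : Wts D ρ Str) (a : Bool × Md) : Wt D.T (sg D ρ a) := by
  have h := hW.wt (cl D a.2) (cl_ge hD _) (cl_le D _)
  obtain ⟨b, q⟩ := a
  cases b
  · exact h
  · exact wt_scale (pow_pos (hD.u_pos _) 128) h

/-- The weight of the fixed point theorem. -/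
noncomputable def wg (D : Dat) (ρ : ℕ → ℝ → ℝ) (t : ℝ) (a : Bool × Md) : ℝ≥0∞ :=
  ENNReal.ofReal (Real.exp ((D.c - D.γ * t) * len a.2) / sg D ρ a t)

/-- The norm of the fixed point theorem. -/
noncomputable def NN (D : Dat) (ρ : ℕ → ℝ → ℝ) (f : ℝ → Bool × Md → C3 × ℂ) : ℝ≥0∞ :=
  ∑' a, ⨆ t ∈ Icc 0 D.T, wg D ρ t a * ‖f t a‖ₑ

theorem tsum_bp (F : Bool × Md → ℝ≥0∞) :
    ∑' a, F a = (∑' q, F (false, q)) + ∑' q, F (true, q) := by
  have h := ENNReal.tsum_prod (f := fun (b : Bool) (q : Md) => F (b, q))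
  rw [tsum_bool] at h
  exact h

/-- The `w` part of an unknown. -/
noncomputable def wf (D : Dat) (f : ℝ → Bool × Md → C3 × ℂ) (t : ℝ) : Md → C3 :=
  res (lev (D.n + 1) : Set Md) fun q => (f t (false, q)).1

/-- The `κ` part of an unknown. -/
noncomputable def kf (D : Dat) (f : ℝ → Bool × Md → C3 × ℂ) (t : ℝ) : Md → ℂ :=
  res (KS D) fun q => (f t (true, q)).2

theorem wf_sub (f g : ℝ → Bool × Md → C3 × ℂ) (t : ℝ) :
    wf D (fun t a => f t a - g t a) t = wf D f t - wf D g t := by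
  unfold wf
  rw [← res_sub]
  rfl

theorem kf_sub (f g : ℝ → Bool × Md → C3 × ℂ) (t : ℝ) :
    kf D (fun t a => f t a - g t a) t = kf D f t - kf D g t := by
  unfold kf
  rw [← res_sub]
  rfl

theorem enorm_fst_le (x : C3 × ℂ) : ‖x.1‖ₑ ≤ ‖x‖ₑ := by
  rw [← ofReal_norm, ← ofReal_norm]
  exact ENNReal.ofReal_le_ofReal (norm_fst_le x)

theorem enorm_snd_le (x : C3 × ℂ) : ‖x.2‖ₑ ≤ ‖x‖ₑ := by
  rw [← ofReal_norm, ← ofReal_norm]
  exact ENNReal.ofReal_le_ofReal (norm_snd_le x)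

theorem enorm_l (x : C3) : ‖((x, 0) : C3 × ℂ)‖ₑ = ‖x‖ₑ := by
  rw [← ofReal_norm, ← ofReal_norm]
  simp [Prod.norm_def]

theorem enorm_r (x : ℂ) : ‖((0, x) : C3 × ℂ)‖ₑ = ‖x‖ₑ := by
  rw [← ofReal_norm, ← ofReal_norm]
  simp [Prod.norm_def]

theorem XN_le_NN (hD : D.Hyp) (f : ℝ → Bool × Md → C3 × ℂ) :
    XN D ρ (wf D f) (kf D f) ≤ NN D ρ f := by
  classical
  unfold XN NN
  rw [tsum_bp]
  refine add_le_add ?_ ?_
  · unfold Nrm
    rw [← Summable.tsum_finsetSum fun _ _ => ENNReal.summable]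
    refine ENNReal.tsum_le_tsum fun q => ?_
    have h : ∀ o ∈ Finset.Icc D.m (D.n + 1), (⨆ t ∈ Icc 0 D.T,
        ENNReal.ofReal (Real.exp ((D.c - D.γ * t) * len q) / ρ o t) *
          ‖res (Cs D.m o) (wf D f t) q‖ₑ) ≤
        if cl D q = o then ⨆ t ∈ Icc 0 D.T, wg D ρ t (false, q) * ‖f t (false, q)‖ₑ else 0 := by
      intro o ho
      rw [Finset.mem_Icc] at ho
      by_cases hq : q ∈ Cs D.m o
      · rw [if_pos (cl_eq ho.1 ho.2 hq)]
        refine iSup₂_mono fun t ht => ?_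
        have h1 : ENNReal.ofReal (Real.exp ((D.c - D.γ * t) * len q) / ρ o t) =
            wg D ρ t (false, q) := by
          simp [wg, sg, cl_eq ho.1 ho.2 hq]
        rw [h1]
        gcongr
        refine (enorm_res_le _ _ _).trans ((enorm_res_le _ _ _).trans (enorm_fst_le _))
      · simp only [res_of_not_mem hq]
        simp
    refine (Finset.sum_le_sum h).trans ?_
    rw [Finset.sum_ite_eq]
    split_ifs
    · exact le_rfl
    · exact bot_le
  · unfold Nrm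
    rw [← Summable.tsum_finsetSum fun _ _ => ENNReal.summable]
    refine ENNReal.tsum_le_tsum fun q => ?_
    have h : ∀ o ∈ Finset.Ioc D.m (D.n + 1), (⨆ t ∈ Icc 0 D.T,
        ENNReal.ofReal (Real.exp ((D.c - D.γ * t) * len q) / (D.u o ^ 128 * ρ o t)) *
          ‖res (Cl o) (kf D f t) q‖ₑ) ≤
        if cl D q = o then ⨆ t ∈ Icc 0 D.T, wg D ρ t (true, q) * ‖f t (true, q)‖ₑ else 0 := by
      intro o ho
      rw [Finset.mem_Ioc] at ho
      by_cases hq : q ∈ Cl o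
      · have hq' : cl D q = o := cl_eq ho.1.le ho.2 (by rwa [Cs_of_gt ho.1])
        rw [if_pos hq']
        refine iSup₂_mono fun t ht => ?_
        have h1 : ENNReal.ofReal (Real.exp ((D.c - D.γ * t) * len q) / (D.u o ^ 128 * ρ o t)) =
            wg D ρ t (true, q) := by
          simp [wg, sg, hq']
        rw [h1]
        gcongr
        refine (enorm_res_le _ _ _).trans ((enorm_res_le _ _ _).trans (enorm_snd_le _))
      · simp only [res_of_not_mem hq]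
        simp
    refine (Finset.sum_le_sum h).trans ?_
    rw [Finset.sum_ite_eq]
    split_ifs
    · exact le_rfl
    · exact bot_le

theorem NN_le (hD : D.Hyp) {f : ℝ → Bool × Md → C3 × ℂ} (A : ℕ → ℝ → Md → C3)
    (B : ℕ → ℝ → Md → ℂ) (h1 : ∀ t ∈ Icc 0 D.T, ∀ q, ‖f t (false, q)‖ₑ ≤ ‖A (cl D q) t q‖ₑ)
    (h2 : ∀ t ∈ Icc 0 D.T, ∀ q ∈ KS D, ‖f t (true, q)‖ₑ ≤ ‖B (cl D q) t q‖ₑ)
    (h3 : ∀ t ∈ Icc 0 D.T, ∀ q, q ∉ KS D → f t (true, q) = 0) :
    NN D ρ f ≤ ∑ o ∈ Finset.Icc D.m (D.n + 1), Nrm D.T D.c D.γ (ρ o) (A o) +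
      ∑ o ∈ Finset.Ioc D.m (D.n + 1), Nrm D.T D.c D.γ (fun t => D.u o ^ 128 * ρ o t) (B o) := by
  classical
  unfold NN
  rw [tsum_bp]
  refine add_le_add ?_ ?_
  · unfold Nrm
    rw [← Summable.tsum_finsetSum fun _ _ => ENNReal.summable]
    refine ENNReal.tsum_le_tsum fun q => ?_
    have hm : cl D q ∈ Finset.Icc D.m (D.n + 1) := Finset.mem_Icc.2 ⟨cl_ge hD q, cl_le D q⟩
    refine le_trans ?_ (Finset.single_le_sum (f := fun o => ⨆ t ∈ Icc 0 D.T,
      ENNReal.ofReal (Real.exp ((D.c - D.γ * t) * len q) / ρ o t) * ‖A o t q‖ₑ)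
      (fun _ _ => bot_le) hm)
    refine iSup₂_mono fun t ht => ?_
    have h4 : wg D ρ t (false, q) =
        ENNReal.ofReal (Real.exp ((D.c - D.γ * t) * len q) / ρ (cl D q) t) := by
      simp [wg, sg]
    rw [h4]
    gcongr
    exact h1 t ht q
  · unfold Nrm
    rw [← Summable.tsum_finsetSum fun _ _ => ENNReal.summable]
    refine ENNReal.tsum_le_tsum fun q => ?_
    by_cases hq : q ∈ KS D
    · have hm : cl D q ∈ Finset.Ioc D.m (D.n + 1) := Finset.mem_Ioc.2 ⟨cl_gt hD hq, cl_le D q⟩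
      refine le_trans ?_ (Finset.single_le_sum (f := fun o => ⨆ t ∈ Icc 0 D.T,
        ENNReal.ofReal (Real.exp ((D.c - D.γ * t) * len q) / (D.u o ^ 128 * ρ o t)) *
          ‖B o t q‖ₑ) (fun _ _ => bot_le) hm)
      refine iSup₂_mono fun t ht => ?_
      have h4 : wg D ρ t (true, q) = ENNReal.ofReal (Real.exp ((D.c - D.γ * t) * len q) /
          (D.u (cl D q) ^ 128 * ρ (cl D q) t)) := by
        simp [wg, sg]
      rw [h4]
      gcongr
      exact h2 t ht q hq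
    · refine le_trans (le_of_eq ?_) bot_le
      simp only [bot_eq_zero', ENNReal.iSup_eq_zero]
      intro t ht
      rw [h3 t ht q hq]
      simp

theorem adm_f (hD : D.Hyp) {f : ℝ → Bool × Md → C3 × ℂ}
    (hc : ∀ a, ContinuousOn (fun t => f t a) (Icc 0 D.T)) (hf : NN D ρ f ≠ ∞) :
    Adm D ρ (wf D f) (kf D f) where
  w_cm := cm_res _ fun q => (hc (false, q)).fst
  κ_cm := cm_res _ fun q => (hc (true, q)).snd
  w_supp t _ := suppIn_res _ _
  κ_supp t _ := suppIn_res _ _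
  fin := ne_top_of_le_ne_top hf (XN_le_NN hD f)

/-- The new `w` of class `o`. -/
noncomputable def WW (D : Dat) (SS : ℕ → ℝ → ℝ → Md → Md → Mat) (w0 : Md → C3)
    (w : ℝ → Md → C3) (κ : ℝ → Md → ℂ) (o : ℕ) : ℝ → Md → C3 :=
  Wsol (SS o) (res (Cs D.m o) w0) (QQ D o w κ)

/-- The new `κ` of class `o`. -/
noncomputable def KK (D : Dat) (w0 : Md → C3)
    (w : ℝ → Md → C3) (κ : ℝ → Md → ℂ) (o : ℕ) : ℝ → Md → ℂ :=
  ksol (D.N o : ℂ) (D.rw o) (res (Cs D.m o) w0) (QQ D o w κ)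

/-- The map. -/
noncomputable def PF (D : Dat) (SS : ℕ → ℝ → ℝ → Md → Md → Mat) (w0 : Md → C3)
    (f : ℝ → Bool × Md → C3 × ℂ) (t : ℝ) (a : Bool × Md) : C3 × ℂ :=
  if a.1 then (0, res (KS D) (fun q => KK D w0 (wf D f) (kf D f) (cl D q) t q) a.2)
  else (res (lev (D.n + 1) : Set Md) (fun q => WW D SS w0 (wf D f) (kf D f) (cl D q) t q) a.2, 0)

theorem PF_false (SS : ℕ → ℝ → ℝ → Md → Md → Mat) (w0 : Md → C3)
    (f : ℝ → Bool × Md → C3 × ℂ) (t : ℝ) (q : Md) : PF D SS w0 f t (false, q) =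
      (res (lev (D.n + 1) : Set Md) (fun q => WW D SS w0 (wf D f) (kf D f) (cl D q) t q) q, 0) := by
  simp [PF]

theorem PF_true (SS : ℕ → ℝ → ℝ → Md → Md → Mat) (w0 : Md → C3)
    (f : ℝ → Bool × Md → C3 × ℂ) (t : ℝ) (q : Md) : PF D SS w0 f t (true, q) =
      (0, res (KS D) (fun q => KK D w0 (wf D f) (kf D f) (cl D q) t q) q) := by
  simp [PF]

/-! ### the seed -/

theorem seed_fin {w0 : Md → C3} (hs : Seed D w0) (S : Set Md) : sN D.c (res S w0) ≠ ∞ :=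
  ne_top_of_le_ne_top ENNReal.ofReal_ne_top ((sN_res_le _ _ _).trans hs.le)

theorem seed_old {w0 : Md → C3} (hs : Seed D w0) {o : ℕ} (h1 : D.m ≤ o) (h2 : o ≤ D.n) :
    res (Cs D.m o) w0 = 0 := by
  funext q
  by_cases hq : q ∈ Cs D.m o
  · rw [res_of_mem hq]
    refine hs.supp q fun h => h.2 ?_
    exact Cs_sub_lev h1 h2 hq _ (by omega)
  · rw [res_of_not_mem hq]
    rfl

theorem seed_new (hD : D.Hyp) {w0 : Md → C3} (hs : Seed D w0) :
    res (Cs D.m (D.n + 1)) w0 = w0 := by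
  rw [Cs_of_gt (by linarith [hD.hmn] : D.m < D.n + 1)]
  exact res_eq_self hs.supp

theorem sN_smul (c : ℝ) (z : ℂ) {E : Type} [NormedAddCommGroup E] [NormedSpace ℂ E]
    (f : Md → E) : sN c (z • f) = ‖z‖ₑ * sN c f := by
  unfold sN
  rw [← ENNReal.tsum_mul_left]
  congr 1
  funext q
  rw [Pi.smul_apply, enorm_smul]
  ring

theorem mul_one_row (k : C3) (f : Md → C3) :
    mul (rwF k oneM) f = fun q => (innerSL ℂ k) (f q) := by
  funext q
  unfold mul act mulK rwF oneM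
  rw [tsum_eq_single q]
  · simp
  · intro l hl
    have : q - l ≠ 0 := fun h => hl (sub_eq_zero.1 h).symm
    simp [this]

theorem rw_zero (hD : D.Hyp) (f : Md → C3) :
    mul (D.rw (D.n + 1) 0) f = fun q => (innerSL ℂ (D.kk (D.n + 1))) (f q) := by
  unfold Dat.rw
  have h : D.Fi (D.n + 1 - 1) 0 = oneM := (hD.F_zero D.n hD.hmn le_rfl).2
  rw [h]
  exact mul_one_row _ _

theorem mul_zero' (a : Md → (C3 →L[ℂ] ℂ)) : mul a (0 : Md → C3) = 0 := act_zero _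

/-- The initial values of the `W` problem. -/
theorem init_W (hD : D.Hyp) (hW : Wts D ρ Str) {w0 : Md → C3} (hs : Seed D w0) {o : ℕ}
    (h1 : D.m ≤ o) (h2 : o ≤ D.n + 1) :
    ENNReal.ofReal (1 / ρ o 0) * sN D.c (res (Cs D.m o) w0) ≤
      if o = D.n + 1 then ENNReal.ofReal D.G else 0 := by
  by_cases h : o = D.n + 1
  · subst h
    rw [seed_new hD hs, if_pos rfl]
    have h0 : (0 : ℝ) ∈ Icc 0 D.T := ⟨le_rfl, hD.T_pos.le⟩
    refine (mul_le_mul' le_rfl hs.le).trans ?_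
    have hα : 0 < D.α (D.n + 1) 0 :=
      (hD.α_wt (D.n + 1) (by linarith [hD.hmn]) le_rfl).pos 0 h0
    have hN : 0 < D.N (D.n + 1) := by linarith [hD.N_pos (D.n + 1) le_rfl]
    rw [hW.new 0 h0, ← ENNReal.ofReal_mul (by positivity)]
    refine ENNReal.ofReal_le_ofReal (le_of_eq ?_)
    field_simp
  · rw [if_neg h, seed_old hs h1 (by omega), sN_c_zero, mul_zero]

theorem init_K (hD : D.Hyp) (hW : Wts D ρ Str) {w0 : Md → C3} (hs : Seed D w0) {o : ℕ}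
    (h1 : D.m < o) (h2 : o ≤ D.n + 1) :
    ENNReal.ofReal (1 / (D.u o ^ 128 * ρ o 0)) *
      sN D.c (((D.N o : ℂ))⁻¹ • mul (D.rw o 0) (res (Cs D.m o) w0)) ≤
      if o = D.n + 1 then 1 else 0 := by
  by_cases h : o = D.n + 1
  · subst h
    rw [seed_new hD hs, if_pos rfl, rw_zero hD, sN_smul]
    have h0 : (0 : ℝ) ∈ Icc 0 D.T := ⟨le_rfl, hD.T_pos.le⟩
    have hα : 0 < D.α (D.n + 1) 0 :=
      (hD.α_wt (D.n + 1) (by linarith [hD.hmn]) le_rfl).pos 0 h0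
    have hN : 0 < D.N (D.n + 1) := by linarith [hD.N_pos (D.n + 1) le_rfl]
    have hu := hD.u_pos (D.n + 1)
    have hu1 := hD.u_lt (D.n + 1)
    refine (mul_le_mul' le_rfl (mul_le_mul' le_rfl hs.k_le)).trans ?_
    rw [hW.new 0 h0, ← ofReal_norm, norm_inv, Complex.norm_real, Real.norm_of_nonneg hN.le,
      ← ENNReal.ofReal_mul (by positivity), ← ENNReal.ofReal_mul (by positivity),
      ← ENNReal.ofReal_one]
    refine ENNReal.ofReal_le_ofReal ?_
    have : 1 / (D.u (D.n + 1) ^ 128 * (D.α (D.n + 1) 0 / D.N (D.n + 1))) *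
        ((D.N (D.n + 1))⁻¹ * (D.u (D.n + 1) ^ 256 * D.α (D.n + 1) 0)) =
        D.u (D.n + 1) ^ 128 := by
      field_simp
    rw [this]
    exact pow_le_one₀ hu.le hu1.le
  · rw [if_neg h, seed_old hs h1.le (by omega), mul_zero', smul_zero, sN]
    simp

end FPt

end Pool.Agent.Work.MP_b0497c_an.Unf.S
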