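import Pool.Agent.Work.MP_b0497c_an.Unf.S24E

set_option autoImplicit false
set_option linter.unusedVariables false
set_option linter.unusedSectionVars false

/-!
# S24, part F: the fixed point
-/

open scoped ENNReal
open Set MeasureTheory

namespace Pool.Agent.Work.MP_b0497c_an.Unf.S

open W

namespace FPt

variable {D : Dat} {ρ : ℕ → ℝ → ℝ} {Str : ℝ → ℝ}

/-- The radius of the ball. -/
noncomputable def RR (D : Dat) : ℝ≥0∞ := ENNReal.ofReal (D.G ^ 3)

theorem card_Icc (hD : D.Hyp) : (Finset.Icc D.m (D.n + 1)).card ≤ 4 := by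
  rw [Nat.card_Icc]
  have := hD.hnm
  omega

theorem card_Ioc (hD : D.Hyp) : (Finset.Ioc D.m (D.n + 1)).card ≤ 3 := by
  rw [Nat.card_Ioc]
  have := hD.hnm
  omega

/-- Source bound on the ball. -/
theorem src_ball (hD : D.Hyp) {X : ℝ≥0∞} (hX : X ≤ RR D) :
    ENNReal.ofReal (ee D) * X + ENNReal.ofReal (ee D) * X * X ≤
      ENNReal.ofReal (D.G ^ 7 * ee D) := by
  have hG : 2 ≤ D.G := hD.G_two
  have he := ee_nonneg hD
  have hG3 : 0 ≤ D.G ^ 3 := by positivity
  calc ENNReal.ofReal (ee D) * X + ENNReal.ofReal (ee D) * X * X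
      ≤ ENNReal.ofReal (ee D) * RR D + ENNReal.ofReal (ee D) * RR D * RR D := by gcongr
    _ = ENNReal.ofReal (ee D * D.G ^ 3 + ee D * D.G ^ 3 * D.G ^ 3) := by
        unfold RR
        rw [ENNReal.ofReal_add (by positivity) (by positivity), ENNReal.ofReal_mul he,
          ENNReal.ofReal_mul (by positivity), ENNReal.ofReal_mul he]
    _ ≤ ENNReal.ofReal (D.G ^ 7 * ee D) := by
        refine ENNReal.ofReal_le_ofReal ?_
        have h1 : 1 ≤ D.G ^ 3 := one_le_pow₀ (by linarith)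
        have h2 : ee D * D.G ^ 3 + ee D * D.G ^ 3 * D.G ^ 3 ≤ ee D * (2 * D.G ^ 6) := by
          have : D.G ^ 3 ≤ D.G ^ 6 := by
            calc D.G ^ 3 = D.G ^ 3 * 1 := by ring
              _ ≤ D.G ^ 3 * D.G ^ 3 := by gcongr
              _ = D.G ^ 6 := by ring
          nlinarith
        refine h2.trans ?_
        have h3 : 2 * D.G ^ 6 ≤ D.G ^ 7 := by
          have : 0 ≤ D.G ^ 6 := by positivity
          nlinarith
        calc ee D * (2 * D.G ^ 6) ≤ ee D * D.G ^ 7 := by gcongr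
          _ = D.G ^ 7 * ee D := by ring

/-- Source differences on the ball. -/
theorem src_lip (hD : D.Hyp) {X X' Y : ℝ≥0∞} (hX : X ≤ RR D) (hX' : X' ≤ RR D) :
    ENNReal.ofReal (ee D) * Y + (ENNReal.ofReal (ee D) * Y * X + ENNReal.ofReal (ee D) * X' * Y) ≤
      ENNReal.ofReal (D.G ^ 5 * ee D) * Y := by
  have hG : 2 ≤ D.G := hD.G_two
  have he := ee_nonneg hD
  have hG3 : 0 ≤ D.G ^ 3 := by positivity
  calc ENNReal.ofReal (ee D) * Y +
        (ENNReal.ofReal (ee D) * Y * X + ENNReal.ofReal (ee D) * X' * Y)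
      ≤ ENNReal.ofReal (ee D) * Y +
        (ENNReal.ofReal (ee D) * Y * RR D + ENNReal.ofReal (ee D) * RR D * Y) := by gcongr
    _ = (ENNReal.ofReal (ee D) + (ENNReal.ofReal (ee D) * RR D + ENNReal.ofReal (ee D) * RR D)) *
          Y := by ring
    _ = ENNReal.ofReal (ee D + (ee D * D.G ^ 3 + ee D * D.G ^ 3)) * Y := by
        unfold RR
        rw [ENNReal.ofReal_add he (by positivity), ENNReal.ofReal_add (by positivity)
          (by positivity), ENNReal.ofReal_mul he]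
    _ ≤ ENNReal.ofReal (D.G ^ 5 * ee D) * Y := by
        gcongr
        have h1 : 1 ≤ D.G ^ 3 := one_le_pow₀ (by linarith)
        have h3 : 1 + 2 * D.G ^ 3 ≤ D.G ^ 5 := by
          have h4 : D.G ^ 5 = D.G ^ 2 * D.G ^ 3 := by ring
          have h5 : 4 ≤ D.G ^ 2 := by nlinarith
          rw [h4]
          nlinarith
        nlinarith

theorem WW_le (H : WH) (S : SH) (hD : D.Hyp) (hW : Wts D ρ Str)
    {SS : ℕ → ℝ → ℝ → Md → Md → Mat} (hL : LP D ρ SS) {w0 : Md → C3} (hs : Seed D w0)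
    {w : ℝ → Md → C3} {κ : ℝ → Md → ℂ} (A : Adm D ρ w κ) (hX : XN D ρ w κ ≤ RR D) {o : ℕ}
    (h1 : D.m ≤ o) (h2 : o ≤ D.n + 1) :
    Nrm D.T D.c D.γ (ρ o) (WW D SS w0 w κ o) ≤
      (if o = D.n + 1 then ENNReal.ofReal (D.G ^ 2) else 0) +
        ENNReal.ofReal (D.G ^ 8 * ee D) := by
  have hg := gq H S hD hW A h1 h2
  have hG := G_pos hD
  have he := ee_nonneg hD
  refine (wsol S hD hW hL h1 h2 (seed_fin hs _) hg.1).2.2.2.1.trans ?_
  rw [mul_add]
  refine add_le_add ?_ ?_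
  · refine (mul_le_mul' le_rfl (init_W hD hW hs h1 h2)).trans (le_of_eq ?_)
    split_ifs
    · rw [← ENNReal.ofReal_mul hG.le]
      congr 1
      ring
    · rw [mul_zero]
  · refine (mul_le_mul' le_rfl (hg.2.trans (src_ball hD hX))).trans (le_of_eq ?_)
    rw [← ENNReal.ofReal_mul hG.le]
    congr 1
    ring

theorem KK_le (H : WH) (S : SH) (hD : D.Hyp) (hW : Wts D ρ Str)
    {w0 : Md → C3} (hs : Seed D w0)
    {w : ℝ → Md → C3} {κ : ℝ → Md → ℂ} (A : Adm D ρ w κ) (hX : XN D ρ w κ ≤ RR D) {o : ℕ}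
    (h1 : D.m < o) (h2 : o ≤ D.n + 1) :
    Nrm D.T D.c D.γ (fun t => D.u o ^ 128 * ρ o t) (KK D w0 w κ o) ≤
      (if o = D.n + 1 then 1 else 0) + ENNReal.ofReal (D.G ^ 7 * ee D) := by
  have hg := gq H S hD hW A h1.le h2
  refine (ksol_le H hD (wtk hD hW h1.le h2) (D.N o : ℂ) (D.rw o) _ _
    (cm_k H S hD h1 h2 hg.1.cm hg.1.fn)).trans ?_
  exact add_le_add (init_K hD hW hs h1 h2) ((gqk H S hD hW A h1 h2).trans (src_ball hD hX))

theorem sum_if_le {s : Finset ℕ} {k : ℕ} (hs : s.card ≤ k) (a : ℕ) (x y : ℝ≥0∞) :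
    ∑ o ∈ s, ((if o = a then x else 0) + y) ≤ x + k * y := by
  rw [Finset.sum_add_distrib]
  refine add_le_add ?_ ?_
  · rw [Finset.sum_ite_eq']
    split_ifs
    · exact le_rfl
    · exact bot_le
  · rw [Finset.sum_const, nsmul_eq_mul]
    gcongr

theorem ball_num (hD : D.Hyp) :
    ENNReal.ofReal (D.G ^ 2) + (4 : ℕ) * ENNReal.ofReal (D.G ^ 8 * ee D) +
      (1 + (3 : ℕ) * ENNReal.ofReal (D.G ^ 7 * ee D)) ≤ RR D := by
  have hG : 2 ≤ D.G := hD.G_two
  have he := ee_nonneg hD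
  have hs := ee_small hD
  have hG7 : 0 ≤ D.G ^ 7 := by positivity
  have h20 : D.G ^ 8 * 16 ≤ D.G ^ 20 := by
    have : (16 : ℝ) ≤ D.G ^ 12 := by
      calc (16 : ℝ) ≤ 2 ^ 12 := by norm_num
        _ ≤ D.G ^ 12 := by gcongr
    calc D.G ^ 8 * 16 ≤ D.G ^ 8 * D.G ^ 12 := by gcongr
      _ = D.G ^ 20 := by ring
  have h78 : D.G ^ 7 ≤ D.G ^ 8 := pow_le_pow_right₀ (by linarith) (by norm_num)
  have h8 : D.G ^ 8 * ee D * 16 ≤ 1 / 2 := by
    calc D.G ^ 8 * ee D * 16 = D.G ^ 8 * 16 * ee D := by ring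
      _ ≤ D.G ^ 20 * ee D := by gcongr
      _ ≤ 1 / 2 := hs
  have h7 : D.G ^ 7 * ee D ≤ D.G ^ 8 * ee D := by gcongr
  unfold RR
  rw [← ENNReal.ofReal_natCast, ← ENNReal.ofReal_natCast, ← ENNReal.ofReal_one,
    ← ENNReal.ofReal_mul (by positivity), ← ENNReal.ofReal_mul (by positivity),
    ← ENNReal.ofReal_add (by positivity) (by positivity),
    ← ENNReal.ofReal_add (by positivity) (by positivity),
    ← ENNReal.ofReal_add (by positivity) (by positivity)]
  refine ENNReal.ofReal_le_ofReal ?_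
  push_cast
  have h3 : D.G ^ 2 + 4 ≤ D.G ^ 3 := by
    have h4 : D.G ^ 3 = D.G ^ 2 * D.G := by ring
    have h5 : 4 ≤ D.G ^ 2 := by nlinarith
    rw [h4]
    nlinarith
  linarith

theorem lip_num (hD : D.Hyp) (Y : ℝ≥0∞) :
    (4 : ℕ) * (ENNReal.ofReal (D.G ^ 6 * ee D) * Y) +
      (3 : ℕ) * (ENNReal.ofReal (D.G ^ 5 * ee D) * Y) ≤ (1 / 2) * Y := by
  have hG : 2 ≤ D.G := hD.G_two
  have he := ee_nonneg hD
  have hs := ee_small hD
  have h20 : D.G ^ 6 * 16 ≤ D.G ^ 20 := by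
    have : (16 : ℝ) ≤ D.G ^ 14 := by
      calc (16 : ℝ) ≤ 2 ^ 14 := by norm_num
        _ ≤ D.G ^ 14 := by gcongr
    calc D.G ^ 6 * 16 ≤ D.G ^ 6 * D.G ^ 14 := by gcongr
      _ = D.G ^ 20 := by ring
  have h56 : D.G ^ 5 ≤ D.G ^ 6 := pow_le_pow_right₀ (by linarith) (by norm_num)
  have h8 : D.G ^ 6 * ee D * 16 ≤ 1 / 2 := by
    calc D.G ^ 6 * ee D * 16 = D.G ^ 6 * 16 * ee D := by ring
      _ ≤ D.G ^ 20 * ee D := by gcongr
      _ ≤ 1 / 2 := hs
  have h7 : D.G ^ 5 * ee D ≤ D.G ^ 6 * ee D := by gcongr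
  have h9 : (4 : ℕ) * (ENNReal.ofReal (D.G ^ 6 * ee D) * Y) +
      (3 : ℕ) * (ENNReal.ofReal (D.G ^ 5 * ee D) * Y) =
      ENNReal.ofReal (4 * (D.G ^ 6 * ee D) + 3 * (D.G ^ 5 * ee D)) * Y := by
    rw [ENNReal.ofReal_add (by positivity) (by positivity),
      ENNReal.ofReal_mul (p := (4 : ℝ)) (q := D.G ^ 6 * ee D) (by norm_num),
      ENNReal.ofReal_mul (p := (3 : ℝ)) (q := D.G ^ 5 * ee D) (by norm_num)]
    have e4 : ENNReal.ofReal (4 : ℝ) = ((4 : ℕ) : ℝ≥0∞) := by norm_num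
    have e3 : ENNReal.ofReal (3 : ℝ) = ((3 : ℕ) : ℝ≥0∞) := by norm_num
    rw [e4, e3]
    ring
  rw [h9]
  gcongr
  have h10 : (1 / 2 : ℝ≥0∞) = ENNReal.ofReal (1 / 2) := by
    rw [ENNReal.ofReal_div_of_pos (by norm_num)]
    norm_num
  rw [h10]
  refine ENNReal.ofReal_le_ofReal ?_
  nlinarith

theorem NN_PF (H : WH) (S : SH) (hD : D.Hyp) (hW : Wts D ρ Str)
    {SS : ℕ → ℝ → ℝ → Md → Md → Mat} (hL : LP D ρ SS) {w0 : Md → C3} (hs : Seed D w0)
    {f : ℝ → Bool × Md → C3 × ℂ} (hc : ∀ a, ContinuousOn (fun t => f t a) (Icc 0 D.T))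
    (hf : NN D ρ f ≤ RR D) :
    (∀ a, ContinuousOn (fun t => PF D SS w0 f t a) (Icc 0 D.T)) ∧
      NN D ρ (PF D SS w0 f) ≤ RR D := by
  have hfin : NN D ρ f ≠ ∞ := ne_top_of_le_ne_top ENNReal.ofReal_ne_top hf
  have A := adm_f hD hc hfin
  have hX : XN D ρ (wf D f) (kf D f) ≤ RR D := (XN_le_NN hD f).trans hf
  constructor
  · rintro ⟨b, q⟩
    cases b
    · simp only [PF_false]
      refine ContinuousOn.prodMk ?_ continuousOn_const
      have h1 := cl_ge hD q
      have h2 := cl_le D q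
      have h3 : CM D.T (fun t q' => WW D SS w0 (wf D f) (kf D f) (cl D q) t q') :=
        (wsol S hD hW hL h1 h2 (seed_fin hs _) (gq H S hD hW A h1 h2).1).1
      by_cases hq : q ∈ (lev (D.n + 1) : Set Md)
      · simp only [res_of_mem hq]
        exact h3 q
      · simp only [res_of_not_mem hq]
        exact continuousOn_const
    · simp only [PF_true]
      refine ContinuousOn.prodMk continuousOn_const ?_
      by_cases hq : q ∈ KS D
      · simp only [res_of_mem hq]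
        have h1 := cl_gt hD hq
        have h2 := cl_le D q
        have hg := gq H S hD hW A h1.le h2
        have h3 := cm_k H S hD h1 h2 hg.1.cm hg.1.fn
        have h4 : ContinuousOn (fun s => ((D.N (cl D q) : ℂ)⁻¹ •
            mul (D.rw (cl D q) s) (QQ D (cl D q) (wf D f) (kf D f) s)) q) (Icc 0 D.T) :=
          (h3 q).const_smul _
        unfold KK ksol
        refine continuousOn_const.add ?_
        have h5 := intervalIntegral.continuousOn_primitive_interval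
          (f := fun s => ((D.N (cl D q) : ℂ)⁻¹ •
            mul (D.rw (cl D q) s) (QQ D (cl D q) (wf D f) (kf D f) s)) q) (a := 0) (b := D.T)
          (μ := volume) (by
            rw [uIcc_of_le hD.T_pos.le]
            exact h4.integrableOn_Icc)
        rw [uIcc_of_le hD.T_pos.le] at h5
        exact h5
      · simp only [res_of_not_mem hq]
        exact continuousOn_const
  · refine (NN_le hD (fun o => WW D SS w0 (wf D f) (kf D f) o)
      (fun o => KK D w0 (wf D f) (kf D f) o) ?_ ?_ ?_).trans ?_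
    · intro t ht q
      rw [PF_false, enorm_l]
      exact enorm_res_le _ _ _
    · intro t ht q hq
      rw [PF_true, enorm_r]
      exact enorm_res_le _ _ _
    · intro t ht q hq
      rw [PF_true, res_of_not_mem hq]
      rfl
    · refine le_trans (add_le_add (Finset.sum_le_sum fun o ho => ?_)
        (Finset.sum_le_sum fun o ho => ?_)) (le_trans (add_le_add
          (sum_if_le (card_Icc hD) (D.n + 1) (ENNReal.ofReal (D.G ^ 2))
            (ENNReal.ofReal (D.G ^ 8 * ee D)))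
          (sum_if_le (card_Ioc hD) (D.n + 1) 1 (ENNReal.ofReal (D.G ^ 7 * ee D))))
          (ball_num hD))
      · rw [Finset.mem_Icc] at ho
        exact WW_le H S hD hW hL hs A hX ho.1 ho.2
      · rw [Finset.mem_Ioc] at ho
        exact KK_le H S hD hW hs A hX ho.1 ho.2

theorem NN_lip (H : WH) (S : SH) (hD : D.Hyp) (hW : Wts D ρ Str)
    {SS : ℕ → ℝ → ℝ → Md → Md → Mat} (hL : LP D ρ SS) {w0 : Md → C3} (hs : Seed D w0)
    {f g : ℝ → Bool × Md → C3 × ℂ} (hc : ∀ a, ContinuousOn (fun t => f t a) (Icc 0 D.T))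
    (hc' : ∀ a, ContinuousOn (fun t => g t a) (Icc 0 D.T))
    (hf : NN D ρ f ≤ RR D) (hg : NN D ρ g ≤ RR D) :
    NN D ρ (fun t a => PF D SS w0 f t a - PF D SS w0 g t a) ≤
      (1 / 2) * NN D ρ (fun t a => f t a - g t a) := by
  have A := adm_f hD hc (ne_top_of_le_ne_top ENNReal.ofReal_ne_top hf)
  have A' := adm_f hD hc' (ne_top_of_le_ne_top ENNReal.ofReal_ne_top hg)
  have hX : XN D ρ (wf D f) (kf D f) ≤ RR D := (XN_le_NN hD f).trans hf
  have hX' : XN D ρ (wf D g) (kf D g) ≤ RR D := (XN_le_NN hD g).trans hg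
  have hY : XN D ρ (fun t => wf D f t - wf D g t) (fun t => kf D f t - kf D g t) ≤
      NN D ρ (fun t a => f t a - g t a) := by
    have h := XN_le_NN (ρ := ρ) hD (fun t a => f t a - g t a)
    have e1 : wf D (fun t a => f t a - g t a) = fun t => wf D f t - wf D g t := by
      funext t
      exact wf_sub f g t
    have e2 : kf D (fun t a => f t a - g t a) = fun t => kf D f t - kf D g t := by
      funext t
      exact kf_sub f g t
    rwa [e1, e2] at h
  set Y := XN D ρ (fun t => wf D f t - wf D g t) (fun t => kf D f t - kf D g t) with hYd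
  have hYfin : Y ≠ ∞ := (Adm.sub A A').fin
  have hG := G_pos hD
  have he := ee_nonneg hD
  have hsrc : ∀ o, D.m ≤ o → o ≤ D.n + 1 →
      Nrm D.T D.c D.γ (ρ o) (fun t => WW D SS w0 (wf D f) (kf D f) o t -
        WW D SS w0 (wf D g) (kf D g) o t) ≤ ENNReal.ofReal (D.G ^ 6 * ee D) * Y := by
    intro o h1 h2
    have q1 := gq H S hD hW A h1 h2
    have q2 := gq H S hD hW A' h1 h2
    have h3 := (src_diff H S hD hW A A' h1 h2).trans (src_lip hD hX hX')
    have h4 := wsol_diff H S hD hW hL h1 h2 (seed_fin hs (Cs D.m o)) q1.1 q2.1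
      (ne_top_of_le_ne_top (ENNReal.mul_ne_top ENNReal.ofReal_ne_top hYfin) h3)
    refine h4.trans ((mul_le_mul' le_rfl h3).trans (le_of_eq ?_))
    rw [← mul_assoc, ← ENNReal.ofReal_mul hG.le]
    congr 2
    ring
  have hsrck : ∀ o, D.m < o → o ≤ D.n + 1 →
      Nrm D.T D.c D.γ (fun t => D.u o ^ 128 * ρ o t) (fun t => KK D w0 (wf D f) (kf D f) o t -
        KK D w0 (wf D g) (kf D g) o t) ≤ ENNReal.ofReal (D.G ^ 5 * ee D) * Y := by
    intro o h1 h2
    have q1 := gq H S hD hW A h1.le h2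
    have q2 := gq H S hD hW A' h1.le h2
    refine (ksol_diff H hD (wtk hD hW h1.le h2) (D.N o : ℂ) (D.rw o) _ _ _
      (cm_k H S hD h1 h2 q1.1.cm q1.1.fn) (cm_k H S hD h1 h2 q2.1.cm q2.1.fn)).trans ?_
    exact (src_diffk H S hD hW A A' h1 h2).trans (src_lip hD hX hX')
  refine (NN_le hD (fun o t => WW D SS w0 (wf D f) (kf D f) o t -
        WW D SS w0 (wf D g) (kf D g) o t)
      (fun o t => KK D w0 (wf D f) (kf D f) o t -
        KK D w0 (wf D g) (kf D g) o t) ?_ ?_ ?_).trans ?_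
  · intro t ht q
    simp only [PF_false, Prod.mk_sub_mk, sub_self]
    rw [enorm_l, ← Pi.sub_apply, ← res_sub]
    exact enorm_res_le _ _ _
  · intro t ht q hq
    simp only [PF_true, Prod.mk_sub_mk, sub_self]
    rw [enorm_r, ← Pi.sub_apply, ← res_sub]
    exact enorm_res_le _ _ _
  · intro t ht q hq
    simp only [PF_true, res_of_not_mem hq, sub_self]
  · refine le_trans (add_le_add
      (Finset.sum_le_card_nsmul _ _ (ENNReal.ofReal (D.G ^ 6 * ee D) * Y) fun o ho => ?_)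
      (Finset.sum_le_card_nsmul _ _ (ENNReal.ofReal (D.G ^ 5 * ee D) * Y) fun o ho => ?_)) ?_
    · rw [Finset.mem_Icc] at ho
      exact hsrc o ho.1 ho.2
    · rw [Finset.mem_Ioc] at ho
      exact hsrck o ho.1 ho.2
    · rw [nsmul_eq_mul, nsmul_eq_mul]
      refine le_trans (add_le_add
        (mul_le_mul' (Nat.cast_le.2 (card_Icc hD)) le_rfl)
        (mul_le_mul' (Nat.cast_le.2 (card_Ioc hD)) le_rfl)) ?_
      exact (lip_num hD Y).trans (mul_le_mul' le_rfl hY)

/-- The fixed point. -/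
theorem exists_fp (H : WH) (S : SH) (hD : D.Hyp) (hW : Wts D ρ Str)
    {SS : ℕ → ℝ → ℝ → Md → Md → Mat} (hL : LP D ρ SS) {w0 : Md → C3} (hs : Seed D w0) :
    ∃ f : ℝ → Bool × Md → C3 × ℂ, (∀ a, ContinuousOn (fun t => f t a) (Icc 0 D.T)) ∧
      NN D ρ f ≤ RR D ∧ ∀ t ∈ Icc 0 D.T, ∀ a, PF D SS w0 f t a = f t a := by
  have hT := hD.T_pos.le
  obtain ⟨f, h1, h2, h3, -⟩ := H.w13 (Bool × Md) (fun _ => C3 × ℂ) D.T (wg D ρ) (RR D)
    (PF D SS w0) hT ENNReal.ofReal_ne_top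
    (fun a => by
      have hwt := wt_sg hD hW a
      have hp := hwt.pos D.T ⟨hT, le_rfl⟩
      refine ⟨ENNReal.ofReal (1 / sg D ρ a D.T), ?_, fun t ht => ?_⟩
      · rw [Ne, ENNReal.ofReal_eq_zero, not_le]
        positivity
      · unfold wg
        refine ENNReal.ofReal_le_ofReal ?_
        have hpt := hwt.pos t ht
        have hm := hwt.mono ht ⟨hT, le_rfl⟩ ht.2
        have he : 1 ≤ Real.exp ((D.c - D.γ * t) * len a.2) := by
          rw [← Real.exp_zero]
          refine Real.exp_le_exp.2 (mul_nonneg ?_ (len_nonneg _))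
          have := mul_le_mul_of_nonneg_left ht.2 (g_nonneg hD)
          have := (par hD).le
          linarith
        gcongr)
    (fun t ht a => ENNReal.ofReal_ne_top)
    (fun f hc hf => NN_PF H S hD hW hL hs hc hf)
    (fun f g hc hc' hf hg => NN_lip H S hD hW hL hs hc hc' hf hg)
  exact ⟨f, h1, h2, h3⟩

end FPt

end Pool.Agent.Work.MP_b0497c_an.Unf.S
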