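import Mathlib

set_option autoImplicit false

/-!
# Weighted l1 spaces of Fourier coefficients (blocks F, C of the unforced Euler project)

`Γ` is the group of Fourier modes (any abelian group with a length), a function on the torus is
given by its coefficients `f : Γ → E`, a time dependent one by `f : ℝ → Γ → E`, operators by their
kernels `A : Γ → Γ → (E →L[ℂ] F)`. All norms have values in `ℝ≥0∞`.
-/

open scoped ENNReal
open Set MeasureTheory

namespace Pool.Agent.Work.MP_b0497c_an.Unf.W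

/-- Abelian groups with a length. -/
class Len (Γ : Type) [AddCommGroup Γ] where
  len : Γ → ℝ
  len_zero : len 0 = 0
  len_nonneg : ∀ m, 0 ≤ len m
  len_neg : ∀ m, len (-m) = len m
  len_add : ∀ m k, len (m + k) ≤ len m + len k

export Len (len len_zero len_nonneg len_neg len_add)

instance instLenPi (d : ℕ) : Len (Fin d → ℤ) where
  len m := ∑ i, |(m i : ℝ)|
  len_zero := by simp
  len_nonneg m := by positivity
  len_neg m := by simp
  len_add m k := by
    rw [← Finset.sum_add_distrib]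
    refine Finset.sum_le_sum fun i _ => ?_
    push_cast [Pi.add_apply]
    exact abs_add_le _ _

/-- The universal group of modes: finitely many phases out of `θ_0, θ_1, ...`. -/
noncomputable instance instLenFinsupp : Len (ℕ →₀ ℤ) where
  len m := m.sum fun _ z => |(z : ℝ)|
  len_zero := by simp
  len_nonneg m := Finset.sum_nonneg fun i _ => abs_nonneg _
  len_neg m := by
    rw [Finsupp.sum_neg_index (by simp)]
    simp
  len_add m k := by
    classical
    have h : ∀ (q : ℕ →₀ ℤ) (S : Finset ℕ), q.support ⊆ S →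
        (q.sum fun _ z => |(z : ℝ)|) = ∑ i ∈ S, |((q i : ℤ) : ℝ)| := by
      intro q S hS
      exact Finsupp.sum_of_support_subset q hS _ (by simp)
    have h1 := h (m + k) (m.support ∪ k.support) Finsupp.support_add
    have h2 := h m (m.support ∪ k.support) Finset.subset_union_left
    have h3 := h k (m.support ∪ k.support) Finset.subset_union_right
    rw [h1, h2, h3, ← Finset.sum_add_distrib]
    refine Finset.sum_le_sum fun i _ => ?_
    push_cast [Finsupp.add_apply]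
    exact abs_add_le _ _

/-- The modes of level `n`: only the phases `θ_0, ..., θ_n` occur. -/
def lev (n : ℕ) : AddSubgroup (ℕ →₀ ℤ) where
  carrier := {q | ∀ i, n < i → q i = 0}
  zero_mem' := by intro i _; rfl
  add_mem' := by
    intro a b ha hb i hi
    rw [Finsupp.add_apply, ha i hi, hb i hi, add_zero]
  neg_mem' := by
    intro a ha i hi
    rw [Finsupp.neg_apply, ha i hi, neg_zero]

/-- Complex vectors. -/
abbrev C3 := EuclideanSpace ℂ (Fin 3)

/-- Complex matrices, with the operator norm. -/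
abbrev Mat := C3 →L[ℂ] C3

section defs

variable {Γ : Type} [AddCommGroup Γ] [Len Γ]
  {E F G : Type} [NormedAddCommGroup E] [NormedSpace ℂ E] [NormedAddCommGroup F] [NormedSpace ℂ F]
  [NormedAddCommGroup G] [NormedSpace ℂ G]

/-- Action of a kernel on coefficients. -/
noncomputable def act (A : Γ → Γ → (E →L[ℂ] F)) (f : Γ → E) (m : Γ) : F := ∑' l, A m l (f l)

/-- Composition of kernels. -/
noncomputable def kcomp (A : Γ → Γ → (F →L[ℂ] G)) (B : Γ → Γ → (E →L[ℂ] F)) (m l : Γ) :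
    E →L[ℂ] G := ∑' j, (A m j).comp (B j l)

/-- The kernel of the multiplication by the (operator valued) function with coefficients `a`. -/
def mulK (a : Γ → (E →L[ℂ] F)) (m l : Γ) : E →L[ℂ] F := a (m - l)

open Classical in
/-- The kernel of a Fourier multiplier. -/
noncomputable def diagK (a : Γ → (E →L[ℂ] F)) (m l : Γ) : E →L[ℂ] F := if m = l then a l else 0

/-- Product of two functions with respect to a bilinear map. -/
noncomputable def conv (β : E →L[ℂ] F →L[ℂ] G) (f : Γ → E) (g : Γ → F) (m : Γ) : G :=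
  ∑' l, β (f (m - l)) (g l)

/-! ### Static norms -/

/-- `|f|_c = ∑ e^{c|m|} |f m|`. -/
noncomputable def sN (c : ℝ) (f : Γ → E) : ℝ≥0∞ :=
  ∑' m, ENNReal.ofReal (Real.exp (c * len m)) * ‖f m‖ₑ

/-- `|A|_c = ∑_k e^{c|k|} sup_l |A(l+k,l)|`. -/
noncomputable def sK (c : ℝ) (A : Γ → Γ → (E →L[ℂ] F)) : ℝ≥0∞ :=
  ∑' k, ENNReal.ofReal (Real.exp (c * len k)) * ⨆ l, ‖A (l + k) l‖ₑ

/-! ### Time dependent norms (the sup over `t` is inside the sum over the modes) -/

/-- `[f]_ρ = ∑_m sup_t e^{(c - γ t)|m|} |f t m| / ρ t`. -/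
noncomputable def Nrm (T c γ : ℝ) (ρ : ℝ → ℝ) (f : ℝ → Γ → E) : ℝ≥0∞ :=
  ∑' m, ⨆ t ∈ Icc 0 T, ENNReal.ofReal (Real.exp ((c - γ * t) * len m) / ρ t) * ‖f t m‖ₑ

/-- `⟨⟨g⟩⟩_ρ = ∑_m sup_t ∫_0^t e^{(c - γ t)|m|} |g s m| / ρ s ds`. -/
noncomputable def Src (T c γ : ℝ) (ρ : ℝ → ℝ) (g : ℝ → Γ → E) : ℝ≥0∞ :=
  ∑' m, ⨆ t ∈ Icc 0 T, ∫⁻ s in Ioc 0 t,
    ENNReal.ofReal (Real.exp ((c - γ * t) * len m) / ρ s) * ‖g s m‖ₑ

/-- `[A] = ∑_k e^{c|k|} sup_{l,t} |A t (l+k) l|`. -/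
noncomputable def KN (T c : ℝ) (A : ℝ → Γ → Γ → (E →L[ℂ] F)) : ℝ≥0∞ :=
  ∑' k, ENNReal.ofReal (Real.exp (c * len k)) * ⨆ l, ⨆ t ∈ Icc 0 T, ‖A t (l + k) l‖ₑ

/-- `[S]_{ρ,ρ'} = ∑_k e^{c|k|} sup_{l, s ≤ t} |S t s (l+k) l| ρ' s / ρ t`. -/
noncomputable def PN (T c : ℝ) (ρ ρ' : ℝ → ℝ) (S : ℝ → ℝ → Γ → Γ → (E →L[ℂ] F)) : ℝ≥0∞ :=
  ∑' k, ENNReal.ofReal (Real.exp (c * len k)) * ⨆ l, ⨆ t ∈ Icc 0 T, ⨆ s ∈ Icc 0 t,
    ENNReal.ofReal (ρ' s / ρ t) * ‖S t s (l + k) l‖ₑ

/-- Every mode is continuous on `[0,T]`. -/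
def CM (T : ℝ) (f : ℝ → Γ → E) : Prop := ∀ m, ContinuousOn (fun t => f t m) (Icc 0 T)

/-- Every entry of the kernel is continuous on `[0,T]`. -/
def CK (T : ℝ) (A : ℝ → Γ → Γ → (E →L[ℂ] F)) : Prop :=
  ∀ m l, ContinuousOn (fun t => A t m l) (Icc 0 T)

/-- An admissible weight: positive, continuous, nondecreasing on `[0,T]`. -/
structure Wt (T : ℝ) (ρ : ℝ → ℝ) : Prop where
  pos : ∀ t ∈ Icc 0 T, 0 < ρ t
  cont : ContinuousOn ρ (Icc 0 T)
  mono : MonotoneOn ρ (Icc 0 T)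

/-- Admissible parameters: `0 < T`, `0 ≤ γ`, `γ T ≤ c`. -/
structure Par (T c γ : ℝ) : Prop where
  T_pos : 0 < T
  γ_nonneg : 0 ≤ γ
  le : γ * T ≤ c

/-! ### Projectors -/

/-- The space of square summable coefficients. -/
noncomputable abbrev H2 (Γ : Type) := lp (fun _ : Γ => C3) 2

open Classical in
/-- The operator on `l2` given by a kernel. -/
noncomputable def opK (A : Γ → Γ → Mat) : H2 Γ →L[ℂ] H2 Γ :=
  if h : ∃ T : H2 Γ →L[ℂ] H2 Γ, ∀ f m, (T f : Γ → C3) m = act A f m then h.choose else 0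

/-- The adjoint of a matrix valued function (for real functions: the transpose). -/
noncomputable def adjC (a : Γ → Mat) (k : Γ) : Mat := ContinuousLinearMap.adjoint (a (-k))

/-- The orthogonal projection onto the line of `v` (zero if `v = 0`). -/
noncomputable def pr (v : C3) : Mat := ((‖v‖ ^ 2 : ℝ)⁻¹ : ℂ) • (innerSL ℂ v).smulRight v

/-- The kernel of the flat gradient projection, `ξ m` is the wave vector of the mode `m`. -/
noncomputable def PK (ξ : Γ → C3) : Γ → Γ → Mat := diagK (fun m => pr (ξ m))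

/-- `A = P F⁻¹ F⁻ᵀ P`. -/
noncomputable def AK (ξ : Γ → C3) (Fi : Γ → Mat) : Γ → Γ → Mat :=
  kcomp (PK ξ) (kcomp (mulK Fi) (kcomp (mulK (adjC Fi)) (PK ξ)))

open Classical in
/-- The inverse of `A` on the range of `P`. -/
noncomputable def RK (ξ : Γ → C3) (Fi : Γ → Mat) : Γ → Γ → Mat :=
  if h : ∃ R : Γ → Γ → Mat, sK 0 R ≠ ∞ ∧ kcomp (PK ξ) R = R ∧ kcomp R (PK ξ) = R ∧
    kcomp (AK ξ Fi) R = PK ξ ∧ kcomp R (AK ξ Fi) = PK ξ then h.choose else 0

/-- The exact gradient projector `Π = F⁻ᵀ R F⁻¹`. -/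
noncomputable def PiK (ξ : Γ → C3) (Fi : Γ → Mat) : Γ → Γ → Mat :=
  kcomp (mulK (adjC Fi)) (kcomp (RK ξ Fi) (mulK Fi))

/-- `∑_k e^{-x|k|}`. -/
noncomputable def eS (Γ : Type) [AddCommGroup Γ] [Len Γ] (x : ℝ) : ℝ≥0∞ :=
  ∑' k : Γ, ENNReal.ofReal (Real.exp (-x * len k))

/-- `∑_{k ∈ Λ} e^{-x|k|}`. -/
noncomputable def eSL {Γ : Type} [AddCommGroup Γ] [Len Γ] (Λ : AddSubgroup Γ) (x : ℝ) : ℝ≥0∞ :=
  ∑' k : Λ, ENNReal.ofReal (Real.exp (-x * len (k : Γ)))

end defs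

end Pool.Agent.Work.MP_b0497c_an.Unf.W
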